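import Mathlib

/-! Moderate measures and Hölder continuous potentials, part G1a: this file joins several modules to save build time. -/

section S_MA_Defs

/-!
# Moderate measures on complex projective space: definitions

A function `ψ` on `P^n` is `ω_FS`-plurisubharmonic iff `F x = exp (ψ [x]) * ‖x‖` (on `C^(n+1)`) is upper
semicontinuous, `F (c x) = |c| F x`, `log F` is plurisubharmonic and `F` is not identically zero.
-/

open MeasureTheory Metric Set
open scoped ENNReal Topology ContDiff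

namespace HMA

/-- the complex Euclidean space of dimension `n` -/
abbrev Cn (n : ℕ) : Type := EuclideanSpace ℂ (Fin n)

/-- `F ≥ 0` is upper semicontinuous and `log F` is plurisubharmonic: every truncation
`max (log F) (log δ)` satisfies the sub-mean value inequality on complex circles. -/
structure LogPsh {V : Type} [NormedAddCommGroup V] [NormedSpace ℂ V] (F : V → ℝ) : Prop where
  nonneg : ∀ x, 0 ≤ F x
  usc : UpperSemicontinuous F
  submean : ∀ δ : ℝ, 0 < δ → ∀ a b : V,
    Real.log (max (F a) δ) ≤ (2 * Real.pi)⁻¹ *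
      ∫ θ in (0 : ℝ)..(2 * Real.pi), Real.log (max (F (a + Complex.exp (θ * Complex.I) • b)) δ)

/-- `F = exp ψ * ‖x‖` for an `ω_FS`-plurisubharmonic function `ψ` on `P^n` -/
structure OmegaPsh (n : ℕ) (F : Cn (n + 1) → ℝ) : Prop where
  psh : LogPsh F
  hom : ∀ (c : ℂ) (x : Cn (n + 1)), F (c • x) = ‖c‖ * F x
  nontrivial : ∃ x, F x ≠ 0

/-- `ψ ≤ log A` everywhere and `ψ ≥ - log A` somewhere -/
structure Nrm {n : ℕ} (A : ℝ) (F : Cn (n + 1) → ℝ) : Prop where
  le : ∀ x, F x ≤ A * ‖x‖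
  ge : ∃ x, x ≠ 0 ∧ A⁻¹ * ‖x‖ ≤ F x

/-- `exp (- ε PSH (P^n, ω_FS)) ⊂ L^1 (μ)` for some `ε > 0` -/
def Moderate (n : ℕ) (μ : Measure (Cn (n + 1))) : Prop :=
  ∃ ε : ℝ, 0 < ε ∧ ∀ F : Cn (n + 1) → ℝ, OmegaPsh n F →
    ∫⁻ x, (ENNReal.ofReal (F x / ‖x‖)) ^ (-ε) ∂μ < ⊤

/-- polynomial functions on a complex vector space -/
def PF (V : Type) [AddCommGroup V] [Module ℂ V] : Subalgebra ℂ (V → ℂ) :=
  Algebra.adjoin ℂ (Set.range fun l : V →ₗ[ℂ] ℂ => (fun x => l x))

/-- homogeneous polynomial functions of degree `d` -/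
structure HP (V : Type) [AddCommGroup V] [Module ℂ V] (d : ℕ) (f : V → ℂ) : Prop where
  poly : f ∈ PF V
  hom : ∀ (c : ℂ) (x : V), f (c • x) = c ^ d * f x

/-- the Remez type property of a measure -/
def Rem (V : Type) [NormedAddCommGroup V] [InnerProductSpace ℂ V] [MeasurableSpace V]
    (μ : Measure V) (C ε : ℝ) : Prop :=
  ∀ k : ℕ, 1 ≤ k → ∀ f : V → ℂ, HP V k f → (∃ x, ‖x‖ ≤ 1 ∧ 1 ≤ ‖f x‖) →
    ∀ t : ℝ, 0 < t → t ≤ 1 → μ {x | x ≠ 0 ∧ ‖f x‖ ≤ t ^ k * ‖x‖ ^ k} ≤ ENNReal.ofReal (C * t ^ ε)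

/-- the conical `r`-neighbourhood of the zero set of `P` -/
def nearZ {V : Type} [NormedAddCommGroup V] (P : V → ℂ) (r : ℝ) : Set V :=
  {x | x ≠ 0 ∧ ∃ y, P y = 0 ∧ ‖y - x‖ ≤ r * ‖x‖}

/-- the polynomial `∑ c_k X^k`, `k ≤ d` -/
noncomputable def pol (d : ℕ) (c : ℕ → ℂ) : Polynomial ℂ :=
  ∑ k ∈ Finset.range (d + 1), Polynomial.C (c k) * Polynomial.X ^ k

/-- the tube of width `r₁` around the part `‖u‖ ≤ ρ₁`, `u ⊥ e`, of the graph of `h` over `e + u`
(conical set) -/
def tube {V : Type} [NormedAddCommGroup V] [InnerProductSpace ℂ V] (p : V) (e : ↥(ℂ ∙ p)ᗮ)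
    (h : ↥(ℂ ∙ p)ᗮ → ℂ) (ρ₁ r₁ : ℝ) : Set V :=
  {x | x ≠ 0 ∧ ∃ c : ℂ, c ≠ 0 ∧ ∃ u : ↥(ℂ ∙ p)ᗮ, inner ℂ e u = 0 ∧ ‖u‖ ≤ ρ₁ ∧
    ‖c • x - ((e + u : ↥(ℂ ∙ p)ᗮ) : V) - h (e + u) • p‖ ≤ r₁}

/-- coisometries: `L = J^*` for an isometric embedding `J` -/
def Coi {V W : Type} [NormedAddCommGroup V] [InnerProductSpace ℂ V] [NormedAddCommGroup W]
    [InnerProductSpace ℂ W] (L : V →ₗ[ℂ] W) : Prop :=
  ∃ J : W →ₗᵢ[ℂ] V, ∀ x y, inner ℂ (L x) y = inner ℂ x (J y)

/-- tubes around graphs have small measure, for all images under coisometries -/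
def Tub (V : Type) [NormedAddCommGroup V] [InnerProductSpace ℂ V] [MeasurableSpace V]
    (μ : Measure V) (N : ℕ) (C Λ : ℝ) : Prop :=
  ∀ (W : Type) [NormedAddCommGroup W] [InnerProductSpace ℂ W] [FiniteDimensional ℂ W]
    (L : V →ₗ[ℂ] W), Coi L →
    ∀ (p : W) (e : ↥(ℂ ∙ p)ᗮ) (h : ↥(ℂ ∙ p)ᗮ → ℂ) (ρ R : ℝ), ‖p‖ = 1 → ‖e‖ = 1 → 0 < ρ →
      ρ ≤ 1 / 4 → 1 ≤ R → (∀ z ∈ ball e ρ, AnalyticAt ℂ h z) → (∀ z ∈ ball e ρ, ‖h z‖ ≤ R) →
      μ {x | L x ∈ tube p e h (ρ ^ 2) (ρ ^ N)} ≤ ENNReal.ofReal (C * R ^ C * ρ ^ Λ)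

/-- the estimate for neighbourhoods of hypersurfaces in dimension `n` with constants `C'`, `c` -/
def StN (n N : ℕ) (C Λ C' c : ℝ) : Prop :=
  ∀ (V : Type) [NormedAddCommGroup V] [InnerProductSpace ℂ V] [MeasurableSpace V]
    (μ : Measure V) (W : Type) [NormedAddCommGroup W] [InnerProductSpace ℂ W]
    [FiniteDimensional ℂ W] (L : V →ₗ[ℂ] W), Coi L → Module.finrank ℂ W = n →
    μ {x | x ≠ 0} ≤ ENNReal.ofReal C → Tub V μ N C Λ →
    ∀ d : ℕ, 1 ≤ d → ∀ P : W → ℂ, HP W d P → (∃ x, P x ≠ 0) → ∀ r : ℝ, 0 < r → r < 1 →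
      μ {x | L x ∈ nearZ P r} ≤ ENNReal.ofReal (C' * (d : ℝ) ^ C' * r ^ c)

/-- real valued plurisubharmonic functions bounded from below -/
structure PshR {n : ℕ} (u : Cn n → ℝ) : Prop where
  usc : UpperSemicontinuous u
  bdd : ∃ L : ℝ, ∀ z, -L ≤ u z
  submean : ∀ a b : Cn n, u a ≤ (2 * Real.pi)⁻¹ *
    ∫ θ in (0 : ℝ)..(2 * Real.pi), u (a + Complex.exp (θ * Complex.I) • b)

/-- the same with circles of radius at most `1/16` only -/
structure PshS {n : ℕ} (u : Cn n → ℝ) : Prop where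
  usc : UpperSemicontinuous u
  bdd : ∃ L : ℝ, ∀ z, -L ≤ u z
  submean : ∀ a b : Cn n, ‖b‖ ≤ 1 / 16 → u a ≤ (2 * Real.pi)⁻¹ *
    ∫ θ in (0 : ℝ)..(2 * Real.pi), u (a + Complex.exp (θ * Complex.I) • b)

/-- `F = exp u` with `u` plurisubharmonic (or `-∞`) on the open set `Ω` -/
structure PshOn {n : ℕ} (Ω : Set (Cn n)) (F : Cn n → ℝ) : Prop where
  nonneg : ∀ x ∈ Ω, 0 ≤ F x
  usc : UpperSemicontinuousOn F Ω
  submean : ∀ δ : ℝ, 0 < δ → ∀ a b : Cn n, (∀ ζ : ℂ, ‖ζ‖ ≤ 1 → a + ζ • b ∈ Ω) →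
    Real.log (max (F a) δ) ≤ (2 * Real.pi)⁻¹ *
      ∫ θ in (0 : ℝ)..(2 * Real.pi), Real.log (max (F (a + Complex.exp (θ * Complex.I) • b)) δ)

/-- the unit polydisc -/
def pdisc (n : ℕ) : Set (Cn n) := {ζ | ∀ i, ‖ζ i‖ < 1}

/-- capacity type domination of a measure, tested on embedded polydiscs of `ball 0 2` -/
def PolyB (n : ℕ) (μ : Measure (Cn n)) (C ε : ℝ) : Prop :=
  ∀ (Φ : Cn n → Cn n) (s : Fin n → ℝ), DifferentiableOn ℂ Φ (pdisc n) → InjOn Φ (pdisc n) →
    (∀ ζ ∈ pdisc n, Function.Injective (fderiv ℂ Φ ζ)) →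
    MapsTo Φ (pdisc n) (ball 0 2) → (∀ i, 0 < s i ∧ s i < 1) →
      μ (Φ '' {ζ | ∀ i, ‖ζ i‖ ≤ s i}) ≤
        ENNReal.ofReal (C * Real.exp (-ε * (∏ i, Real.log (1 / s i)) ^ ((n : ℝ)⁻¹)))

/-! ### Wirtinger calculus on `Cn n` -/

/-- coordinate vector -/
noncomputable def bv (n : ℕ) (j : Fin n) : Cn n := EuclideanSpace.single j 1

/-- `∂/∂z_j` -/
noncomputable def dd {n : ℕ} (j : Fin n) (f : Cn n → ℂ) (z : Cn n) : ℂ :=
  (fderiv ℝ f z (bv n j) - Complex.I * fderiv ℝ f z (Complex.I • bv n j)) / 2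

/-- `∂/∂\bar z_j` -/
noncomputable def db {n : ℕ} (j : Fin n) (f : Cn n → ℂ) (z : Cn n) : ℂ :=
  (fderiv ℝ f z (bv n j) + Complex.I * fderiv ℝ f z (Complex.I • bv n j)) / 2

/-- the Levi form of a real function -/
noncomputable def lev {n : ℕ} (φ : Cn n → ℝ) (z ξ : Cn n) : ℝ :=
  (fderiv ℝ (fun w => fderiv ℝ φ w ξ) z ξ +
    fderiv ℝ (fun w => fderiv ℝ φ w (Complex.I • ξ)) z (Complex.I • ξ)) / 4

/-- smooth compactly supported complex functions -/
structure Tst {n : ℕ} (f : Cn n → ℂ) : Prop where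
  smooth : ContDiff ℝ ∞ f
  supp : HasCompactSupport f

/-- the formal adjoint of `∂bar` in `L^2 (exp (-φ))` -/
noncomputable def adj {n : ℕ} (φ : Cn n → ℝ) (α : Fin n → Cn n → ℂ) (z : Cn n) : ℂ :=
  - ∑ j, (dd j (α j) z - dd j (fun w => (φ w : ℂ)) z * α j z)

/-- the vector with given components -/
noncomputable def vec {n : ℕ} (a : Fin n → ℂ) : Cn n := WithLp.toLp 2 a

/-- value of a polynomial in `n` variables at a point of `Cn n` -/
noncomputable def ev {n : ℕ} (P : MvPolynomial (Fin n) ℂ) (z : Cn n) : ℂ :=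
  P.eval (fun i => z i)

/-- the affine neighbourhood of the zero set of a polynomial -/
def affZ {n : ℕ} (P : MvPolynomial (Fin n) ℂ) (r : ℝ) : Set (Cn n) :=
  {z | ∃ z' : Cn n, ev P z' = 0 ∧ ‖z' - z‖ ≤ r}

/-- measures for which neighbourhoods of algebraic hypersurfaces are small -/
def AffN (n : ℕ) (ν : Measure (Cn n)) (C c : ℝ) : Prop :=
  ∀ (D : ℕ) (P : MvPolynomial (Fin n) ℂ), 1 ≤ D → P ≠ 0 → P.totalDegree ≤ D → ∀ r : ℝ, 0 < r →
    r < 1 → ν (affZ P r) ≤ ENNReal.ofReal (C * (D : ℝ) ^ C * r ^ c)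

/-- the supremum over closed balls -/
noncomputable def supB {n : ℕ} (f : Cn n → ℝ) (r : ℝ) (z : Cn n) : ℝ :=
  sSup (f '' closedBall z r)

/-- the affine chart `x_i = 1` -/
noncomputable def cha {n : ℕ} (i : Fin (n + 1)) (z : Cn n) : Cn (n + 1) :=
  WithLp.toLp 2 (Fin.insertNth (α := fun _ => ℂ) i (1 : ℂ) (fun j => z j))

/-- the affine coordinates with respect to `x_i` -/
noncomputable def aff {n : ℕ} (i : Fin (n + 1)) (x : Cn (n + 1)) : Cn n :=
  WithLp.toLp 2 (fun j => x (i.succAbove j) / x i)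

/-- the part of space where `|x_i|` is maximal -/
def part {n : ℕ} (i : Fin (n + 1)) : Set (Cn (n + 1)) := {x | x ≠ 0 ∧ ∀ j, ‖x j‖ ≤ ‖x i‖}

end HMA

end S_MA_Defs

section S_KM_Defs

/-!
# Compact Kähler manifolds and their `ω`-plurisubharmonic functions: definitions
-/

open MeasureTheory Metric Set
open scoped ENNReal Topology ContDiff

namespace HMA

/-! ### Complex Monge-Ampère calculus for `C^{1,1}` functions -/

/-- the second derivative -/
noncomputable def hes {n : ℕ} (u : Cn n → ℝ) (z : Cn n) : Cn n →L[ℝ] Cn n →L[ℝ] ℝ :=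
  fderiv ℝ (fderiv ℝ u) z

/-- the Levi matrix `(∂² u / ∂z_j ∂\bar z_k)` -/
noncomputable def LM {n : ℕ} (u : Cn n → ℝ) (z : Cn n) : Matrix (Fin n) (Fin n) ℂ :=
  fun j k =>
    (((hes u z (bv n j) (bv n k) +
        hes u z (Complex.I • bv n j) (Complex.I • bv n k) : ℝ) : ℂ) +
      Complex.I * ((hes u z (bv n j) (Complex.I • bv n k) -
        hes u z (Complex.I • bv n j) (bv n k) : ℝ) : ℂ)) / 4

/-- the determinant of the Levi matrix -/
noncomputable def mad {n : ℕ} (u : Cn n → ℝ) (z : Cn n) : ℝ := ((LM u z).det).re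

/-- the derivative of the determinant in the direction of `w` -/
noncomputable def mal {n : ℕ} (u w : Cn n → ℝ) (z : Cn n) : ℝ :=
  (((LM u z).adjugate * LM w z).trace).re

/-- `C^{1,1}` functions on an open set -/
structure C11 {n : ℕ} (Ω : Set (Cn n)) (u : Cn n → ℝ) : Prop where
  diff : ∀ z ∈ Ω, DifferentiableAt ℝ u z
  lip : ∀ L : Set (Cn n), IsCompact L → L ⊆ Ω → ∃ C : NNReal, LipschitzOnWith C (fderiv ℝ u) L

/-- the sub-mean value inequality on all closed complex discs in `Ω` -/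
def SubOn {n : ℕ} (Ω : Set (Cn n)) (u : Cn n → ℝ) : Prop :=
  ∀ a b : Cn n, (∀ ζ : ℂ, ‖ζ‖ ≤ 1 → a + ζ • b ∈ Ω) → u a ≤ (2 * Real.pi)⁻¹ *
    ∫ θ in (0 : ℝ)..(2 * Real.pi), u (a + Complex.exp (θ * Complex.I) • b)

/-- the complex Jacobian matrix `(∂F_a / ∂z_j)` (row `j`, column `a`) -/
noncomputable def jac {n : ℕ} (F : Cn n → Cn n) (z : Cn n) : Matrix (Fin n) (Fin n) ℂ :=
  fun j a => (fderiv ℂ F z (bv n j)) a

/-- competitors for the envelope -/
structure EnvF {n : ℕ} (Ω : Set (Cn n)) (u f v : Cn n → ℝ) : Prop where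
  usc : UpperSemicontinuousOn v Ω
  sub : SubOn Ω v
  le : ∀ z ∈ Ω, v z ≤ f z
  ge : ∀ z ∈ Ω, u z ≤ v z

/-- the largest plurisubharmonic function between `u` and `f` -/
noncomputable def envP {n : ℕ} (Ω : Set (Cn n)) (u f : Cn n → ℝ) (z : Cn n) : ℝ :=
  sSup {t | ∃ v, EnvF Ω u f v ∧ v z = t}

/-! ### Compact Kähler manifolds -/

/-- A Kähler manifold `(X, ω)` of dimension `n` with a finite holomorphic atlas: charts
`κ i : ball 0 3 → X` (homeomorphisms onto open subsets such that the images of the unit ball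
cover `X`), holomorphic transition maps, and smooth strictly plurisubharmonic local potentials
`ρ i` of `ω` (`ω = dd^c ρ i` in the chart `i`, the Levi forms agree on the overlaps). -/
structure KM (n : ℕ) (X : Type) [TopologicalSpace X] where
  N : ℕ
  κ : Fin N → Cn n → X
  injOn : ∀ i, InjOn (κ i) (ball 0 3)
  cont : ∀ i, ContinuousOn (κ i) (ball 0 3)
  isOpen_image : ∀ i, ∀ U ⊆ ball (0 : Cn n) 3, IsOpen U → IsOpen (κ i '' U)
  cover : ∀ x : X, ∃ i, x ∈ κ i '' ball 0 1
  τ : Fin N → Fin N → Cn n → Cn n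
  τ_spec : ∀ i j, ∀ z ∈ ball (0 : Cn n) 3, κ i z ∈ κ j '' ball 0 3 →
    τ i j z ∈ ball (0 : Cn n) 3 ∧ κ j (τ i j z) = κ i z
  τ_hol : ∀ i j, DifferentiableOn ℂ (τ i j) (ball 0 3 ∩ κ i ⁻¹' (κ j '' ball 0 3))
  ρ : Fin N → Cn n → ℝ
  ρ_smooth : ∀ i, ContDiffOn ℝ ∞ (ρ i) (ball 0 3)
  ρ_pos : ∀ i, ∀ z ∈ ball (0 : Cn n) 3, ∀ ξ : Cn n, ξ ≠ 0 → 0 < lev (ρ i) z ξ
  ρ_compat : ∀ i j, ∀ z ∈ ball (0 : Cn n) 3 ∩ κ i ⁻¹' (κ j '' ball 0 3), ∀ ξ : Cn n,
    lev (fun w => ρ j (τ i j w)) z ξ = lev (ρ i) z ξ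

section

variable {n : ℕ} {X : Type} [TopologicalSpace X] (K : KM n X)

/-- `F = exp ψ` for an `ω`-plurisubharmonic function `ψ : X → [-∞, ∞)`, `ψ ≢ -∞` -/
structure KPsh (F : X → ℝ) : Prop where
  loc : ∀ i, PshOn (ball 0 3) (fun z => F (K.κ i z) * Real.exp (K.ρ i z))
  nontrivial : ∃ x, F x ≠ 0

/-- `exp (- ε PSH (X, ω)) ⊂ L^1 (μ)` for some `ε > 0` -/
def KModerate [MeasurableSpace X] (μ : Measure X) : Prop :=
  ∃ ε : ℝ, 0 < ε ∧ ∀ F : X → ℝ, KPsh K F → ∫⁻ x, (ENNReal.ofReal (F x)) ^ (-ε) ∂μ < ⊤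

/-- `C^{1,1}` functions on `X` -/
def C11X (ψ : X → ℝ) : Prop := ∀ i, C11 (ball 0 3) (fun z => ψ (K.κ i z))

/-- `C^{1,1}` `ω`-plurisubharmonic functions -/
structure WK (ψ : X → ℝ) : Prop where
  c11 : C11X K ψ
  sub : ∀ i, SubOn (ball 0 3) (fun z => K.ρ i z + ψ (K.κ i z))

/-- the first chart whose unit ball contains the point -/
theorem KM.exists_ix (x : X) : ∃ i, x ∈ K.κ i '' ball 0 1 ∧ ∀ j < i, x ∉ K.κ j '' ball 0 1 := by
  classical
  obtain ⟨i, hi⟩ := K.cover x
  have h : ∃ k : ℕ, ∃ hk : k < K.N, x ∈ K.κ ⟨k, hk⟩ '' ball 0 1 := ⟨i.1, i.2, hi⟩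
  obtain ⟨hk, hx⟩ := Nat.find_spec h
  refine ⟨⟨Nat.find h, hk⟩, hx, fun j hj hx' => ?_⟩
  exact Nat.find_min h (m := j.1) hj ⟨j.2, hx'⟩

noncomputable def KM.ix (x : X) : Fin K.N := (K.exists_ix x).choose

/-- the coordinates of a point in the first chart -/
noncomputable def KM.co (x : X) : Cn n := Function.invFunOn (K.κ (K.ix x)) (ball 0 1) x

/-- the volume measure `ω^n` (up to a constant factor) -/
noncomputable def KM.vol [MeasurableSpace X] : Measure X :=
  ∑ i, Measure.map (K.κ i) ((volume.withDensity fun z => ENNReal.ofReal (mad (K.ρ i) z)).restrict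
    (ball 0 1 ∩ K.κ i ⁻¹' {x | K.ix x = i}))

/-- the density of `(ω + dd^c ψ)^n` with respect to `ω^n` -/
noncomputable def KM.RM (ψ : X → ℝ) (x : X) : ℝ :=
  mad (fun z => K.ρ (K.ix x) z + ψ (K.κ (K.ix x) z)) (K.co x) / mad (K.ρ (K.ix x)) (K.co x)

/-- the density of `n dd^c w ∧ (ω + dd^c ψ)^(n-1)` with respect to `ω^n` -/
noncomputable def KM.RL (ψ w : X → ℝ) (x : X) : ℝ :=
  mal (fun z => K.ρ (K.ix x) z + ψ (K.κ (K.ix x) z)) (fun z => w (K.κ (K.ix x) z)) (K.co x) /
    mad (K.ρ (K.ix x)) (K.co x)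

/-- the energy -/
noncomputable def KM.E [MeasurableSpace X] (ψ : X → ℝ) : ℝ :=
  ∫ s in (0 : ℝ)..1, ∫ x, ψ x * K.RM (fun y => s * ψ y) x ∂K.vol

/-- extension by zero of a function in a chart -/
noncomputable def KM.ext (i : Fin K.N) (w : Cn n → ℝ) (x : X) : ℝ :=
  open Classical in
  if x ∈ K.κ i '' ball 0 3 then w (Function.invFunOn (K.κ i) (ball 0 3) x) else 0

end

end HMA

end S_KM_Defs

section S_KW_Defs

/-! # Definitions for the potential -/

open MeasureTheory Metric Set Filter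
open scoped ENNReal Topology ContDiff ComplexOrder

namespace HMA

variable {n : ℕ} {X : Type} [TopologicalSpace X] (K : KM n X)

/-- continuous `ω`-plurisubharmonic functions -/
structure PC (φ : X → ℝ) : Prop where
  cont : Continuous φ
  sub : ∀ i, SubOn (ball 0 3) (fun z => K.ρ i z + φ (K.κ i z))

/-- bounded `ω`-plurisubharmonic functions -/
structure PB (φ : X → ℝ) : Prop where
  usc : UpperSemicontinuous φ
  bdd : ∃ B : ℝ, ∀ x, |φ x| ≤ B
  sub : ∀ i, SubOn (ball 0 3) (fun z => K.ρ i z + φ (K.κ i z))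

/-- `w` is `C^{1,1}` and `ω`-psh in a neighbourhood of the point `κ k z` -/
def LW (w : X → ℝ) (k : Fin K.N) (z : Cn n) : Prop :=
  ∃ r : ℝ, 0 < r ∧ ball z r ⊆ ball 0 3 ∧ C11 (ball z r) (fun y => w (K.κ k y)) ∧
    SubOn (ball z r) (fun y => K.ρ k y + w (K.κ k y))

/-- `w` is continuous and `ω`-psh in a neighbourhood of the point `κ k z` -/
def LC (w : X → ℝ) (k : Fin K.N) (z : Cn n) : Prop :=
  ∃ r : ℝ, 0 < r ∧ ball z r ⊆ ball 0 3 ∧ ContinuousOn (fun y => w (K.κ k y)) (ball z r) ∧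
    SubOn (ball z r) (fun y => K.ρ k y + w (K.κ k y))

/-- the Ding type functional `E - V ∫ dμ` -/
noncomputable def KM.J [MeasurableSpace X] (μ : Measure X) (ψ : X → ℝ) : ℝ :=
  K.E ψ - K.vol.real univ * ∫ x, ψ x ∂μ

/-- `ψ` maximises `J` up to `δ` -/
structure Amax [MeasurableSpace X] (μ : Measure X) (δ : ℝ) (ψ : X → ℝ) : Prop where
  wk : WK K ψ
  max : ∀ χ : X → ℝ, WK K χ → K.J μ χ ≤ K.J μ ψ + δ

/-- the Monge-Ampère capacity -/
noncomputable def KM.cap [MeasurableSpace X] (U : Set X) : ℝ :=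
  sSup {t | ∃ v : X → ℝ, WK K v ∧ (∀ x, -1 ≤ v x ∧ v x ≤ 0) ∧ ∫ x in U, K.RM v x ∂K.vol = t}

/-- the key inequality, satisfied by almost maximal functions -/
def KIneq [MeasurableSpace X] (μ : Measure X) (δ : ℝ) (Φ : X → ℝ) : Prop :=
  ∀ h : X → ℝ, WK K h → (1 / (n + 1 : ℝ)) * ∫ x, max (h x - Φ x) 0 * K.RM h x ∂K.vol ≤
    K.vol.real univ * ∫ x, max (h x - Φ x) 0 ∂μ + δ

/-- the function `a(s) = V ∫ (g - s - Φ)^+ dμ` -/
noncomputable def KM.aI [MeasurableSpace X] (μ : Measure X) (g Φ : X → ℝ) (s : ℝ) : ℝ :=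
  K.vol.real univ * ∫ x, max (g x - s - Φ x) 0 ∂μ

/-- the local potentials of `ω + dd^c Φ`, extended to upper semicontinuous functions -/
structure LU (Φ : X → ℝ) (M : ℝ) (u : Fin K.N → Cn n → ℝ) : Prop where
  usc : ∀ i, UpperSemicontinuous (u i)
  bdd : ∀ i z, |u i z| ≤ M
  eq : ∀ i z, ‖z‖ ≤ 5 / 2 → u i z = K.ρ i z + Φ (K.κ i z)
  sub : ∀ i, SubOn (ball 0 (5 / 2)) (u i)

/-- the modulus of the local potentials -/
noncomputable def md {n N : ℕ} (u : Fin N → Cn n → ℝ) (r : ℝ) : ℝ :=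
  sSup {t | ∃ (i : Fin N) (z : Cn n), ‖z‖ ≤ 7 / 4 ∧ supB (u i) r z - u i z = t}

/-- Hölder continuous `ω`-plurisubharmonic functions -/
structure HolPsh (φ : X → ℝ) : Prop where
  psh : KPsh K (fun x => Real.exp (φ x))
  holder : ∃ α C : ℝ, 0 < α ∧ ∀ i, ∀ z ∈ ball (0 : Cn n) (3 / 2), ∀ w ∈ ball (0 : Cn n) (3 / 2),
    |φ (K.κ i z) - φ (K.κ i w)| ≤ C * ‖z - w‖ ^ α

/-- `μ = V⁻¹ (ω + dd^c φ)^n` for a continuous `ω`-psh function `φ`, in the sense of Bedford and
Taylor: `V μ` is, on every relatively compact open subset `W` of a chart, the weak limit of the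
measures `(dd^c U_k)^n` for every sequence of smooth plurisubharmonic functions `U_k` which
converges uniformly on `W` to the local potential `ρ + φ` (and such sequences exist) -/
def IsMA [MeasurableSpace X] (φ : X → ℝ) (μ : Measure X) : Prop :=
  ∀ (i : Fin K.N) (W : Set (Cn n)), IsOpen W → IsCompact (closure W) → closure W ⊆ ball 0 3 →
    (∃ U : ℕ → Cn n → ℝ, (∀ k, ContDiffOn ℝ ∞ (U k) W ∧ SubOn W (U k)) ∧
      TendstoUniformlyOn U (fun z => K.ρ i z + φ (K.κ i z)) atTop W) ∧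
    ∀ U : ℕ → Cn n → ℝ, (∀ k, ContDiffOn ℝ ∞ (U k) W ∧ SubOn W (U k)) →
      TendstoUniformlyOn U (fun z => K.ρ i z + φ (K.κ i z)) atTop W →
      ∀ χ : Cn n → ℝ, ContDiff ℝ ∞ χ → HasCompactSupport χ → tsupport χ ⊆ W →
        Tendsto (fun k => ∫ z in W, χ z * mad (U k) z) atTop
          (𝓝 (K.vol.real univ * ∫ x, K.ext i χ x ∂μ))

end HMA

end S_KW_Defs

section S_MA_Jensen

/-! # Module JENSEN: truncated Jensen inequality for polynomials in one variable -/

open MeasureTheory Metric Set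
open scoped ENNReal Topology ContDiff

namespace HMA

theorem Jensen_cont (q : Polynomial ℂ) {s δ : ℝ} (hs : 0 < s) (hδ : 0 < δ) :
    Continuous (fun z : ℂ => Real.log (max (‖q.eval z‖ ^ s) δ)) := by
  have h1 : Continuous (fun z : ℂ => ‖q.eval z‖ ^ s) := by
    have := (q.continuous.norm).rpow_const (p := s) (fun z => Or.inr hs.le)
    simpa using this
  exact Continuous.log (h1.max continuous_const) (fun z => (lt_max_of_lt_right hδ).ne')

theorem Jensen_avg (q : Polynomial ℂ) (h0 : q.eval 0 ≠ 0) :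
    Real.log ‖q.eval 0‖ ≤ Real.circleAverage (fun z => Real.log ‖q.eval z‖) 0 1 := by
  have h1 : AnalyticOnNhd ℂ (fun z : ℂ => q.eval z) (closedBall 0 |(1 : ℝ)|) := by
    intro z _
    exact AnalyticOnNhd.eval_polynomial q z (mem_univ z)
  rw [h1.circleAverage_log_norm (R := 1) one_ne_zero (f := fun z : ℂ => q.eval z) h0]
  have h2 : 0 ≤ ∑ᶠ u, MeromorphicOn.divisor (fun z : ℂ => q.eval z) (closedBall 0 |(1 : ℝ)|) u *
      Real.log (1 * ‖(0 : ℂ) - u‖⁻¹) := by
    apply finsum_nonneg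
    intro u
    by_cases hu : u ∈ closedBall (0 : ℂ) |(1 : ℝ)|
    · apply mul_nonneg
      · exact_mod_cast MeromorphicOn.AnalyticOnNhd.divisor_nonneg h1 u
      · rw [one_mul, zero_sub, norm_neg]
        rcases eq_or_ne u 0 with rfl | hne
        · simp
        · apply Real.log_nonneg
          rw [abs_one, mem_closedBall, dist_zero_right] at hu
          exact (one_le_inv₀ (norm_pos_iff.mpr hne)).mpr hu
    · rw [Function.locallyFinsuppWithin.apply_eq_zero_of_notMem _ hu]
      simp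
  linarith

theorem jensen_poly (q : Polynomial ℂ) {s δ : ℝ} (hs : 0 < s) (hδ : 0 < δ) :
    Real.log (max (‖q.eval 0‖ ^ s) δ) ≤ (2 * Real.pi)⁻¹ *
      ∫ θ in (0 : ℝ)..(2 * Real.pi),
        Real.log (max (‖q.eval (Complex.exp (θ * Complex.I))‖ ^ s) δ) := by
  set g : ℂ → ℝ := fun z => Real.log (max (‖q.eval z‖ ^ s) δ) with hg
  have hgc : Continuous g := Jensen_cont q hs hδ
  have hav : (2 * Real.pi)⁻¹ * ∫ θ in (0 : ℝ)..(2 * Real.pi),
        Real.log (max (‖q.eval (Complex.exp (θ * Complex.I))‖ ^ s) δ) =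
      Real.circleAverage g 0 1 := by
    rw [Real.circleAverage_def]
    simp [hg, circleMap]
  rw [hav]
  have hgi : CircleIntegrable g 0 1 := hgc.continuousOn.circleIntegrable (by norm_num)
  have hlow : Real.log δ ≤ Real.circleAverage g 0 1 := by
    have := Real.circleAverage_mono (c := 0) (R := 1) (f₁ := fun _ => Real.log δ) (f₂ := g)
      (circleIntegrable_const _ _ _) hgi
      (fun x _ => Real.log_le_log hδ (le_max_right _ _))
    rwa [Real.circleAverage_const] at this
  by_cases h0 : q.eval 0 = 0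
  · rw [h0, norm_zero, Real.zero_rpow hs.ne', max_eq_right hδ.le]
    exact hlow
  · have hq : q ≠ 0 := by
      rintro rfl
      simp at h0
    rcases le_total (‖q.eval 0‖ ^ s) δ with hle | hle
    · rw [max_eq_right hle]
      exact hlow
    · rw [max_eq_left hle, Real.log_rpow (norm_pos_iff.mpr h0)]
      have h1 := Jensen_avg q h0
      have hli : CircleIntegrable (fun z => Real.log ‖q.eval z‖) 0 1 := by
        apply MeromorphicOn.circleIntegrable_log_norm
        intro z _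
        exact (AnalyticOnNhd.eval_polynomial q z (mem_univ z)).meromorphicAt
      calc s * Real.log ‖q.eval 0‖ ≤ s * Real.circleAverage (fun z => Real.log ‖q.eval z‖) 0 1 :=
            mul_le_mul_of_nonneg_left h1 hs.le
        _ = (2 * Real.pi)⁻¹ * ∫ θ in (0 : ℝ)..(2 * Real.pi),
              s * Real.log ‖q.eval (circleMap 0 1 θ)‖ := by
            rw [Real.circleAverage_def, intervalIntegral.integral_const_mul, smul_eq_mul]
            ring
        _ ≤ (2 * Real.pi)⁻¹ * ∫ θ in (0 : ℝ)..(2 * Real.pi), g (circleMap 0 1 θ) := by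
            apply mul_le_mul_of_nonneg_left _ (by positivity)
            apply intervalIntegral.integral_mono_ae Real.two_pi_pos.le
              (hli.const_mul s) hgi
            have hfin : Set.Finite {z : ℂ | q.IsRoot z} := Polynomial.finite_setOfPred_isRoot hq
            have hc : Set.Countable (circleMap 0 1 ⁻¹' {z : ℂ | q.IsRoot z}) :=
              hfin.countable.preimage_circleMap 0 one_ne_zero
            have hae : ∀ᵐ θ : ℝ, θ ∉ circleMap 0 1 ⁻¹' {z : ℂ | q.IsRoot z} :=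
              measure_eq_zero_iff_ae_notMem.mp (hc.measure_zero _)
            filter_upwards [hae] with θ hθ
            have hne : q.eval (circleMap 0 1 θ) ≠ 0 := hθ
            simp only [hg]
            rw [← Real.log_rpow (norm_pos_iff.mpr hne)]
            exact Real.log_le_log (Real.rpow_pos_of_pos (norm_pos_iff.mpr hne) _)
              (le_max_left _ _)
        _ = Real.circleAverage g 0 1 := by
            rw [Real.circleAverage_def, smul_eq_mul]

end HMA

end S_MA_Jensen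

section S_MA_Ratio

/-! # Module RATIO: polynomials vary slowly far from their zeros -/

open MeasureTheory Metric Set
open scoped ENNReal Topology ContDiff

namespace HMA

/-- the restriction of `P` to the line `z + t v` -/
noncomputable def RatioLine {n : ℕ} (P : MvPolynomial (Fin n) ℂ) (z v : Cn n) : Polynomial ℂ :=
  MvPolynomial.aeval (fun i => Polynomial.C (z i) + Polynomial.X * Polynomial.C (v i)) P

theorem RatioLine_eval {n : ℕ} (P : MvPolynomial (Fin n) ℂ) (z v : Cn n) (t : ℂ) :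
    (RatioLine P z v).eval t = ev P (z + t • v) := by
  unfold RatioLine ev
  induction P using MvPolynomial.induction_on with
  | C a => simp
  | add p q hp hq => simp only [map_add, Polynomial.eval_add, hp, hq]
  | mul_X p i hp =>
    simp only [map_mul, Polynomial.eval_mul, hp, MvPolynomial.aeval_X, MvPolynomial.eval_X]
    simp
    exact Or.inl (mul_comm _ _)

theorem RatioLine_natDegree {n : ℕ} (P : MvPolynomial (Fin n) ℂ) (z v : Cn n) :
    (RatioLine P z v).natDegree ≤ P.totalDegree := by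
  unfold RatioLine
  rw [MvPolynomial.aeval_def, MvPolynomial.eval₂_eq]
  refine Polynomial.natDegree_sum_le_of_forall_le _ _ ?_
  intro m hm
  refine (Polynomial.natDegree_mul_le).trans ?_
  have h1 : (algebraMap ℂ (Polynomial ℂ) (MvPolynomial.coeff m P)).natDegree = 0 :=
    Polynomial.natDegree_C _
  rw [h1, zero_add]
  refine (Polynomial.natDegree_prod_le _ _).trans ?_
  have h2 : ∑ i ∈ m.support, ((Polynomial.C (z i) + Polynomial.X * Polynomial.C (v i)) ^
      (m i)).natDegree ≤ ∑ i ∈ m.support, m i := by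
    refine Finset.sum_le_sum fun i _ => ?_
    refine Polynomial.natDegree_pow_le.trans ?_
    have h3 : (Polynomial.C (z i) + Polynomial.X * Polynomial.C (v i)).natDegree ≤ 1 := by
      refine (Polynomial.natDegree_add_le _ _).trans ?_
      rw [Polynomial.natDegree_C]
      refine max_le zero_le_one ?_
      refine (Polynomial.natDegree_mul_le).trans ?_
      rw [Polynomial.natDegree_C, Polynomial.natDegree_X]
    calc m i * (Polynomial.C (z i) + Polynomial.X * Polynomial.C (v i)).natDegree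
        ≤ m i * 1 := Nat.mul_le_mul_left _ h3
      _ = m i := mul_one _
  refine h2.trans ?_
  have h4 := MvPolynomial.le_totalDegree hm
  exact h4

theorem ratio {n D : ℕ} {P : MvPolynomial (Fin n) ℂ} (hD : P.totalDegree ≤ D) {r r' : ℝ}
    (hr : 0 < r) (hr' : 0 < r') {z z' : Cn n} (hz : z ∉ affZ P r') (hzz : ‖z' - z‖ ≤ r) :
    ‖ev P z'‖ ≤ (1 + r / r') ^ D * ‖ev P z‖ := by
  classical
  have hone : 1 ≤ 1 + r / r' := by
    have : 0 < r / r' := div_pos hr hr'
    linarith
  by_cases hv0 : z' - z = 0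
  · have hz' : z' = z := sub_eq_zero.1 hv0
    rw [hz']
    calc ‖ev P z‖ = 1 * ‖ev P z‖ := (one_mul _).symm
      _ ≤ (1 + r / r') ^ D * ‖ev P z‖ :=
        mul_le_mul_of_nonneg_right (one_le_pow₀ hone) (norm_nonneg _)
  set v : Cn n := z' - z with hv
  have hvpos : 0 < ‖v‖ := norm_pos_iff.2 hv0
  set p := RatioLine P z v with hp
  have hp1 : p.eval 1 = ev P z' := by
    rw [hp, RatioLine_eval, hv]
    congr 1
    rw [one_smul]
    abel
  have hp0 : p.eval 0 = ev P z := by
    rw [hp, RatioLine_eval, zero_smul, add_zero]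
  have hpz : ev P z ≠ 0 := by
    intro h0
    refine hz ⟨z, h0, ?_⟩
    rw [sub_self, norm_zero]
    exact hr'.le
  have hpne : p ≠ 0 := by
    intro h0
    rw [h0, Polynomial.eval_zero] at hp0
    exact hpz hp0.symm
  have hroot : ∀ w ∈ p.roots, r' < ‖w‖ * ‖v‖ := by
    intro w hw
    have h1 : p.eval w = 0 := (Polynomial.mem_roots hpne).1 hw
    rw [hp, RatioLine_eval] at h1
    by_contra hcon
    refine hz ⟨z + w • v, h1, ?_⟩
    rw [add_sub_cancel_left, norm_smul]
    exact not_lt.1 hcon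
  have hs : p.Splits := IsAlgClosed.splits p
  rw [← hp1, ← hp0, hs.eval_eq_prod_roots 1, hs.eval_eq_prod_roots 0, norm_mul, norm_mul]
  have hnorm : ∀ (m : Multiset ℂ) (g : ℂ → ℂ), ‖(m.map g).prod‖ = (m.map fun x => ‖g x‖).prod := by
    intro m g
    induction m using Multiset.induction_on with
    | empty => simp
    | cons a m ih => simp only [Multiset.map_cons, Multiset.prod_cons, norm_mul, ih]
  rw [hnorm, hnorm]
  have hmain : (p.roots.map fun x => ‖(1 : ℂ) - x‖).prod ≤
      (p.roots.map fun x => (1 + r / r') * ‖(0 : ℂ) - x‖).prod := by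
    refine Multiset.prod_map_le_prod_map₀ _ _ (fun x _ => norm_nonneg _) ?_
    intro x hx
    have h1 := hroot x hx
    have h2 : ‖(0 : ℂ) - x‖ = ‖x‖ := by rw [zero_sub, norm_neg]
    rw [h2]
    have h3 : ‖(1 : ℂ) - x‖ ≤ 1 + ‖x‖ := by
      refine (norm_sub_le _ _).trans ?_
      rw [norm_one]
    have h4 : 1 ≤ r / r' * ‖x‖ := by
      rw [div_mul_eq_mul_div, le_div_iff₀ hr', one_mul]
      have h5 : ‖x‖ * ‖v‖ ≤ ‖x‖ * r := mul_le_mul_of_nonneg_left hzz (norm_nonneg _)
      linarith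
    calc ‖(1 : ℂ) - x‖ ≤ 1 + ‖x‖ := h3
      _ ≤ r / r' * ‖x‖ + ‖x‖ := by linarith
      _ = (1 + r / r') * ‖x‖ := by ring
  rw [Multiset.prod_map_mul, Multiset.map_const', Multiset.prod_replicate] at hmain
  have hcard : Multiset.card p.roots ≤ D :=
    (Polynomial.card_roots' p).trans ((RatioLine_natDegree P z v).trans hD)
  have hprod0 : 0 ≤ (p.roots.map fun x => ‖(0 : ℂ) - x‖).prod := by
    refine Multiset.prod_nonneg ?_
    intro a ha
    obtain ⟨x, _, rfl⟩ := Multiset.mem_map.1 ha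
    exact norm_nonneg _
  calc ‖p.leadingCoeff‖ * (p.roots.map fun x => ‖(1 : ℂ) - x‖).prod
      ≤ ‖p.leadingCoeff‖ * ((1 + r / r') ^ Multiset.card p.roots *
        (p.roots.map fun x => ‖(0 : ℂ) - x‖).prod) :=
        mul_le_mul_of_nonneg_left hmain (norm_nonneg _)
    _ ≤ ‖p.leadingCoeff‖ * ((1 + r / r') ^ D *
        (p.roots.map fun x => ‖(0 : ℂ) - x‖).prod) := by
        refine mul_le_mul_of_nonneg_left ?_ (norm_nonneg _)
        exact mul_le_mul_of_nonneg_right (pow_le_pow_right₀ hone hcard) hprod0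
    _ = _ := by ring

end HMA

end S_MA_Ratio

section S_MA_SupB

/-! # Module SUPB: suprema over closed balls of upper semicontinuous functions -/

open MeasureTheory Metric Set
open scoped ENNReal Topology ContDiff

namespace HMA

variable {n : ℕ} {f : Cn n → ℝ}

theorem SupB_max (hf : UpperSemicontinuous f) {r : ℝ} (hr : 0 ≤ r) (z : Cn n) :
    ∃ z' ∈ closedBall z r, ∀ x ∈ closedBall z r, f x ≤ f z' := by
  have h1 : IsCompact (closedBall z r) := isCompact_closedBall z r
  have h2 : (closedBall z r).Nonempty := ⟨z, mem_closedBall_self hr⟩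
  obtain ⟨z', hz', hm⟩ := (hf.upperSemicontinuousOn _).exists_isMaxOn h2 h1
  exact ⟨z', hz', fun x hx => hm hx⟩

theorem supB_attained (hf : UpperSemicontinuous f) {r : ℝ} (hr : 0 ≤ r) (z : Cn n) :
    ∃ z', ‖z' - z‖ ≤ r ∧ supB f r z = f z' := by
  obtain ⟨z', hz', hm⟩ := SupB_max hf hr z
  refine ⟨z', by rwa [mem_closedBall, dist_eq_norm] at hz', ?_⟩
  unfold supB
  apply le_antisymm
  · apply csSup_le (Set.Nonempty.image f ⟨z', hz'⟩)
    rintro _ ⟨x, hx, rfl⟩
    exact hm x hx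
  · apply le_csSup
    · refine ⟨f z', ?_⟩
      rintro _ ⟨x, hx, rfl⟩
      exact hm x hx
    · exact ⟨z', hz', rfl⟩

theorem le_supB (hf : UpperSemicontinuous f) {r : ℝ} {z z' : Cn n} (h : ‖z' - z‖ ≤ r) :
    f z' ≤ supB f r z := by
  have hr : 0 ≤ r := le_trans (norm_nonneg _) h
  obtain ⟨w, hw, hm⟩ := SupB_max hf hr z
  unfold supB
  apply le_csSup
  · refine ⟨f w, ?_⟩
    rintro _ ⟨x, hx, rfl⟩
    exact hm x hx
  · exact ⟨z', by rwa [mem_closedBall, dist_eq_norm], rfl⟩

theorem supB_usc (hf : UpperSemicontinuous f) {r : ℝ} (hr : 0 ≤ r) :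
    UpperSemicontinuous (supB f r) := by
  intro z y hy
  have hU : IsOpen {x | f x < y} := hf.isOpen_preimage y
  have hsub : closedBall z r ⊆ {x | f x < y} := by
    intro x hx
    rw [mem_closedBall, dist_eq_norm] at hx
    exact lt_of_le_of_lt (le_supB hf hx) hy
  obtain ⟨δ, hδ, hδU⟩ := (isCompact_closedBall z r).exists_thickening_subset_open hU hsub
  filter_upwards [Metric.ball_mem_nhds z hδ] with z' hz'
  obtain ⟨w, hw, hwe⟩ := supB_attained hf hr z'
  rw [hwe]
  apply hδU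
  rw [mem_thickening_iff]
  refine ⟨w - (z' - z), ?_, ?_⟩
  · rw [mem_closedBall, dist_eq_norm]
    have e : w - (z' - z) - z = w - z' := by abel
    rw [e]
    exact hw
  · rw [dist_eq_norm]
    have e : w - (w - (z' - z)) = z' - z := by abel
    rw [e, ← dist_eq_norm]
    exact hz'

theorem supB_tendsto (hf : UpperSemicontinuous f) (z : Cn n) :
    Filter.Tendsto (fun r => supB f r z) (𝓝[>] 0) (𝓝 (f z)) := by
  rw [tendsto_order]
  constructor
  · intro a ha
    filter_upwards [self_mem_nhdsWithin] with r hr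
    have hr' : (0 : ℝ) < r := hr
    have h1 : f z ≤ supB f r z := le_supB hf (by rw [sub_self, norm_zero]; exact hr'.le)
    exact lt_of_lt_of_le ha h1
  · intro a ha
    obtain ⟨δ, hδ, hδU⟩ := Metric.eventually_nhds_iff_ball.1 (hf z a ha)
    filter_upwards [self_mem_nhdsWithin, mem_nhdsWithin_of_mem_nhds (Iio_mem_nhds hδ)] with r hr hr2
    have hr' : (0 : ℝ) < r := hr
    have hr2' : r < δ := hr2
    obtain ⟨w, hw, hwe⟩ := supB_attained hf hr'.le z
    rw [hwe]
    apply hδU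
    rw [mem_ball, dist_eq_norm]
    exact lt_of_le_of_lt hw hr2'

end HMA

end S_MA_SupB

section S_MA_Net

/-! # Module NET: finite nets in the unit ball with cardinality bound -/

open MeasureTheory Metric Set
open scoped ENNReal Topology ContDiff

namespace HMA

/-- volume bound for separated sets in the unit ball -/
theorem Net_sep {E : Type} [NormedAddCommGroup E] [NormedSpace ℝ E] [FiniteDimensional ℝ E]
    (s : Finset E) {ρ : ℝ} (hρ : 0 < ρ) (hρ1 : ρ ≤ 1) (hs : ∀ c ∈ s, ‖c‖ ≤ 1)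
    (h : ∀ c ∈ s, ∀ d ∈ s, c ≠ d → ρ ≤ ‖c - d‖) :
    (s.card : ℝ) ≤ (3 / ρ) ^ Module.finrank ℝ E := by
  borelize E
  let μ : Measure E := Measure.addHaar
  set δ : ℝ := ρ / 2 with hδ
  set r : ℝ := (3 : ℝ) / 2 with hr
  have ρpos : 0 < r := by norm_num [hr]
  have δpos : 0 < δ := by positivity
  set A := ⋃ c ∈ s, ball (c : E) δ with hA
  have D : Set.Pairwise (s : Set E) (Function.onFun Disjoint fun c => ball (c : E) δ) := by
    rintro c hc d hd hcd
    apply ball_disjoint_ball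
    rw [dist_eq_norm]
    have := h c hc d hd hcd
    rw [hδ]
    linarith
  have A_subset : A ⊆ ball (0 : E) r := by
    refine iUnion₂_subset fun x hx => ?_
    apply ball_subset_ball'
    rw [dist_zero_right]
    have := hs x hx
    rw [hδ, hr]
    linarith
  have I :
    (s.card : ℝ≥0∞) * ENNReal.ofReal (δ ^ Module.finrank ℝ E) * μ (ball 0 1) ≤
      ENNReal.ofReal (r ^ Module.finrank ℝ E) * μ (ball 0 1) :=
    calc
      (s.card : ℝ≥0∞) * ENNReal.ofReal (δ ^ Module.finrank ℝ E) * μ (ball 0 1) = μ A := by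
        rw [hA, measure_biUnion_finset D fun c _ => measurableSet_ball]
        simp only [μ.addHaar_ball_of_pos _ δpos]
        simp only [Finset.sum_const, nsmul_eq_mul, mul_assoc]
      _ ≤ μ (ball (0 : E) r) := measure_mono A_subset
      _ = ENNReal.ofReal (r ^ Module.finrank ℝ E) * μ (ball 0 1) := by
        simp only [μ.addHaar_ball_of_pos _ ρpos]
  have J : (s.card : ℝ≥0∞) * ENNReal.ofReal (δ ^ Module.finrank ℝ E) ≤
      ENNReal.ofReal (r ^ Module.finrank ℝ E) :=
    (ENNReal.mul_le_mul_iff_left (measure_ball_pos _ _ zero_lt_one).ne' measure_ball_lt_top.ne).1 I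
  have K := ENNReal.toReal_le_of_le_ofReal (pow_nonneg ρpos.le _) J
  rw [ENNReal.toReal_mul, ENNReal.toReal_natCast, ENNReal.toReal_ofReal (by positivity)] at K
  have e : (3 / ρ) ^ Module.finrank ℝ E = r ^ Module.finrank ℝ E / δ ^ Module.finrank ℝ E := by
    rw [← div_pow]
    congr 1
    rw [hr, hδ]
    field_simp
  rw [e, le_div_iff₀ (by positivity)]
  exact K

theorem net (n : ℕ) : ∃ B : ℝ, 1 ≤ B ∧ ∀ (W : Type) [NormedAddCommGroup W]
    [InnerProductSpace ℂ W] [FiniteDimensional ℂ W], Module.finrank ℂ W = n →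
    ∀ (S : Set W), (∀ x ∈ S, ‖x‖ ≤ 1) → ∀ ρ₁ : ℝ, 0 < ρ₁ → ρ₁ ≤ 1 →
      ∃ T : Finset W, (↑T : Set W) ⊆ S ∧ (T.card : ℝ) ≤ (B / ρ₁) ^ (2 * n) ∧
        ∀ x ∈ S, ∃ e ∈ T, ‖x - e‖ ≤ ρ₁ := by
  classical
  refine ⟨3, by norm_num, ?_⟩
  intro W _ _ _ hW S hS ρ hρ hρ1
  have hfin : Module.finrank ℝ W = 2 * n := by
    rw [finrank_real_of_complex, hW]
  have hfd : FiniteDimensional ℝ W := FiniteDimensional.complexToReal W
  have hcard : ∀ T : Finset W, (↑T : Set W) ⊆ S →
      (∀ c ∈ T, ∀ d ∈ T, c ≠ d → ρ < ‖c - d‖) → (T.card : ℝ) ≤ (3 / ρ) ^ (2 * n) := by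
    intro T hT hsep
    have h := Net_sep T hρ hρ1 (fun c hc => hS c (hT hc))
      (fun c hc d hd hcd => (hsep c hc d hd hcd).le)
    rwa [hfin] at h
  let P : ℕ → Prop := fun m => ∃ T : Finset W, (↑T : Set W) ⊆ S ∧
      (∀ c ∈ T, ∀ d ∈ T, c ≠ d → ρ < ‖c - d‖) ∧ T.card = m
  have hP0 : P 0 := ⟨∅, by simp, by simp, rfl⟩
  have hbd : ∀ m, P m → m ≤ ⌊(3 / ρ) ^ (2 * n)⌋₊ := by
    rintro m ⟨T, hT, hsep, rfl⟩
    exact Nat.le_floor (hcard T hT hsep)
  obtain ⟨T, hT, hsep, hTm⟩ := Nat.findGreatest_spec (P := P) (Nat.zero_le ⌊(3 / ρ) ^ (2 * n)⌋₊) hP0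
  refine ⟨T, hT, hcard T hT hsep, ?_⟩
  intro x hx
  by_contra hcon
  push Not at hcon
  have hxT : x ∉ T := by
    intro hxT
    have := hcon x hxT
    rw [sub_self, norm_zero] at this
    exact absurd this (not_lt.2 hρ.le)
  have hPm : P (T.card + 1) := by
    refine ⟨insert x T, ?_, ?_, Finset.card_insert_of_notMem hxT⟩
    · intro y hy
      rcases Finset.mem_insert.1 (Finset.mem_coe.1 hy) with rfl | hy
      · exact hx
      · exact hT hy
    · intro c hc d hd hcd
      rcases Finset.mem_insert.1 hc with hc' | hc'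
      · rcases Finset.mem_insert.1 hd with hd' | hd'
        · exact absurd (hc'.trans hd'.symm) hcd
        · rw [hc']
          exact hcon d hd'
      · rcases Finset.mem_insert.1 hd with hd' | hd'
        · rw [hd', norm_sub_rev]
          exact hcon c hc'
        · exact hsep c hc' d hd' hcd
  have h1 := Nat.le_findGreatest (P := P) (hbd _ hPm) hPm
  omega

end HMA

end S_MA_Net

section S_MA_HPBasic

/-! # Module HPB: homogeneous polynomial functions, algebra -/

open MeasureTheory Metric Set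
open scoped ENNReal Topology ContDiff

namespace HMA

variable {V W : Type} [AddCommGroup V] [Module ℂ V] [AddCommGroup W] [Module ℂ W]

theorem HPBasic_const (c : ℂ) : (fun _ : V => c) ∈ PF V :=
  (PF V).algebraMap_mem c

theorem PF.linear (l : V →ₗ[ℂ] ℂ) : (fun x => l x) ∈ PF V :=
  Algebra.subset_adjoin ⟨l, rfl⟩

theorem HPBasic_induction {p : (V → ℂ) → Prop} (hlin : ∀ l : V →ₗ[ℂ] ℂ, p (fun x => l x))
    (hconst : ∀ c : ℂ, p (fun _ => c)) (hadd : ∀ f g, p f → p g → p (fun x => f x + g x))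
    (hmul : ∀ f g, p f → p g → p (fun x => f x * g x)) {f : V → ℂ} (hf : f ∈ PF V) : p f := by
  unfold PF at hf
  induction hf using Algebra.adjoin_induction with
  | mem x hx => obtain ⟨l, rfl⟩ := hx; exact hlin l
  | algebraMap c => exact hconst c
  | add x y _ _ hx hy => exact hadd x y hx hy
  | mul x y _ _ hx hy => exact hmul x y hx hy

theorem PF.comp_affine (L : W →ₗ[ℂ] V) (a : V) {f : V → ℂ} (hf : f ∈ PF V) :
    (fun x => f (a + L x)) ∈ PF W := by
  revert f
  apply HPBasic_induction (p := fun f => (fun x => f (a + L x)) ∈ PF W)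
  · intro l
    have h : (fun x => l (a + L x)) = (fun _ => l a) + (fun x => (l.comp L) x) := by
      funext x
      simp
    rw [h]
    exact (PF W).add_mem (HPBasic_const _) (PF.linear _)
  · intro c
    exact HPBasic_const c
  · intro f g hf hg
    exact (PF W).add_mem hf hg
  · intro f g hf hg
    exact (PF W).mul_mem hf hg

theorem HP.comp (L : W →ₗ[ℂ] V) {d : ℕ} {f : V → ℂ} (hf : HP V d f) :
    HP W d (fun x => f (L x)) := by
  refine ⟨?_, ?_⟩
  · have h := PF.comp_affine L 0 hf.poly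
    simpa using h
  · intro c x
    rw [map_smul, hf.hom]

theorem HP.linear (l : V →ₗ[ℂ] ℂ) : HP V 1 (fun x => l x) := by
  refine ⟨PF.linear l, ?_⟩
  intro c x
  rw [map_smul, pow_one, smul_eq_mul]

theorem HP.const (c : ℂ) : HP V 0 (fun _ => c) := by
  refine ⟨HPBasic_const c, ?_⟩
  intro c x
  rw [pow_zero, one_mul]

theorem HP.mul {d e : ℕ} {f g : V → ℂ} (hf : HP V d f) (hg : HP V e g) :
    HP V (d + e) (fun x => f x * g x) := by
  refine ⟨(PF V).mul_mem hf.poly hg.poly, ?_⟩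
  intro c x
  rw [hf.hom, hg.hom, pow_add]
  ring

theorem HP.pow {d : ℕ} {f : V → ℂ} (hf : HP V d f) (k : ℕ) :
    HP V (d * k) (fun x => f x ^ k) := by
  refine ⟨(PF V).pow_mem hf.poly k, ?_⟩
  intro c x
  rw [hf.hom, mul_pow, pow_mul]

theorem HP.add {d : ℕ} {f g : V → ℂ} (hf : HP V d f) (hg : HP V d g) :
    HP V d (fun x => f x + g x) := by
  refine ⟨(PF V).add_mem hf.poly hg.poly, ?_⟩
  intro c x
  rw [hf.hom, hg.hom, mul_add]

theorem HP.const_mul {d : ℕ} {f : V → ℂ} (hf : HP V d f) (c : ℂ) :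
    HP V d (fun x => c * f x) := by
  have h := (HP.const (V := V) c).mul hf
  rwa [zero_add] at h

theorem HPBasic_zero (d : ℕ) : HP V d (fun _ => (0 : ℂ)) := by
  refine ⟨HPBasic_const 0, ?_⟩
  intro c x
  rw [mul_zero]

theorem HP.sum {ι : Type} (s : Finset ι) {d : ℕ} {f : ι → V → ℂ} (hf : ∀ i ∈ s, HP V d (f i)) :
    HP V d (fun x => ∑ i ∈ s, f i x) := by
  classical
  induction s using Finset.induction_on with
  | empty =>
    simp only [Finset.sum_empty]
    exact HPBasic_zero d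
  | insert i s hi ih =>
    have h : (fun x => ∑ j ∈ insert i s, f j x) = fun x => f i x + ∑ j ∈ s, f j x := by
      funext x
      rw [Finset.sum_insert hi]
    rw [h]
    exact (hf i (Finset.mem_insert_self i s)).add (ih fun j hj => hf j (Finset.mem_insert_of_mem hj))

theorem HP.prod {ι : Type} (s : Finset ι) {d : ι → ℕ} {f : ι → V → ℂ}
    (hf : ∀ i ∈ s, HP V (d i) (f i)) : HP V (∑ i ∈ s, d i) (fun x => ∏ i ∈ s, f i x) := by
  classical
  induction s using Finset.induction_on with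
  | empty =>
    simp only [Finset.prod_empty, Finset.sum_empty]
    exact HP.const 1
  | insert i s hi ih =>
    have h : (fun x => ∏ j ∈ insert i s, f j x) = fun x => f i x * ∏ j ∈ s, f j x := by
      funext x
      rw [Finset.prod_insert hi]
    rw [h, Finset.sum_insert hi]
    exact (hf i (Finset.mem_insert_self i s)).mul (ih fun j hj => hf j (Finset.mem_insert_of_mem hj))

theorem HP.map_zero {d : ℕ} (hd : 1 ≤ d) {f : V → ℂ} (hf : HP V d f) : f 0 = 0 := by
  have h := hf.hom 0 0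
  rw [smul_zero, zero_pow (by omega), zero_mul] at h
  exact h

theorem HP.eq_const {f : V → ℂ} (hf : HP V 0 f) (x : V) : f x = f 0 := by
  have h := hf.hom 0 x
  rw [zero_smul, pow_zero, one_mul] at h
  exact h.symm

/-- polynomial functions restricted to lines -/
theorem HPBasic_line (b : V) {f : V → ℂ} (hf : f ∈ PF V) :
    ∃ q : Polynomial ℂ, ∀ c : ℂ, f (c • b) = q.eval c := by
  revert f
  apply HPBasic_induction (p := fun f => ∃ q : Polynomial ℂ, ∀ c : ℂ, f (c • b) = q.eval c)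
  · intro l
    refine ⟨Polynomial.C (l b) * Polynomial.X, fun c => ?_⟩
    show l (c • b) = _
    rw [map_smul, Polynomial.eval_mul, Polynomial.eval_C, Polynomial.eval_X, smul_eq_mul, mul_comm]
  · intro a
    exact ⟨Polynomial.C a, fun c => (Polynomial.eval_C).symm⟩
  · rintro f g ⟨q, hq⟩ ⟨q', hq'⟩
    exact ⟨q + q', fun c => by rw [Polynomial.eval_add, ← hq, ← hq']⟩
  · rintro f g ⟨q, hq⟩ ⟨q', hq'⟩
    exact ⟨q * q', fun c => by rw [Polynomial.eval_mul, ← hq, ← hq']⟩

/-- evaluation of polynomial functions at a point -/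
def HPBasic_ev (z : W) : PF W →+* ℂ := (Pi.evalRingHom (fun _ => ℂ) z).comp (PF W).val.toRingHom

theorem HPBasic_ev_apply (z : W) (f : PF W) : HPBasic_ev z f = (f : W → ℂ) z := rfl

theorem HPBasic_poly (L : W →ₗ[ℂ] V) (p : V) {f : V → ℂ} (hf : f ∈ PF V) :
    ∃ G : Polynomial (PF W), ∀ z w, f (L z + w • p) = G.eval₂ (HPBasic_ev z) w := by
  revert f
  apply HPBasic_induction (p := fun f => ∃ G : Polynomial (PF W), ∀ z w,
    f (L z + w • p) = G.eval₂ (HPBasic_ev z) w)
  · intro l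
    refine ⟨Polynomial.C ⟨fun x => (l.comp L) x, PF.linear _⟩ +
      Polynomial.C ⟨fun _ => l p, HPBasic_const _⟩ * Polynomial.X, fun z w => ?_⟩
    rw [Polynomial.eval₂_add, Polynomial.eval₂_mul, Polynomial.eval₂_C, Polynomial.eval₂_C,
      Polynomial.eval₂_X, HPBasic_ev_apply, HPBasic_ev_apply]
    simp only [map_add, map_smul, smul_eq_mul, LinearMap.comp_apply]
    ring
  · intro c
    refine ⟨Polynomial.C ⟨fun _ => c, HPBasic_const _⟩, fun z w => ?_⟩
    rw [Polynomial.eval₂_C, HPBasic_ev_apply]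
  · rintro f g ⟨q, hq⟩ ⟨q', hq'⟩
    exact ⟨q + q', fun z w => by rw [Polynomial.eval₂_add, ← hq, ← hq']⟩
  · rintro f g ⟨q, hq⟩ ⟨q', hq'⟩
    exact ⟨q * q', fun z w => by rw [Polynomial.eval₂_mul, ← hq, ← hq']⟩

theorem HPBasic_eq_of_ne {q q' : Polynomial ℂ} (h : ∀ c : ℂ, c ≠ 0 → q.eval c = q'.eval c) :
    q = q' := by
  apply Polynomial.eq_of_infinite_eval_eq
  apply Set.Infinite.mono (s := {c : ℂ | c ≠ 0})
  · intro c hc
    exact h c hc
  · have h1 : ({0}ᶜ : Set ℂ).Infinite := Set.Finite.infinite_compl (Set.finite_singleton 0)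
    exact h1

/-- the coefficients on lines -/
theorem hp_coeff (L : W →ₗ[ℂ] V) (p : V) {d : ℕ} {P : V → ℂ} (hP : HP V d P) :
    ∃ f : ℕ → W → ℂ, (∀ k ≤ d, HP W (d - k) (f k)) ∧
      (∀ z w, P (L z + w • p) = ∑ k ∈ Finset.range (d + 1), f k z * w ^ k) ∧
      ∀ z, f d z = P p := by
  obtain ⟨G, hG⟩ := HPBasic_poly L p hP.poly
  set f : ℕ → W → ℂ := fun k => (G.coeff k : W → ℂ) with hf
  have hfPF : ∀ k, f k ∈ PF W := fun k => (G.coeff k).2
  -- the polynomial in `w` at `z`
  have hGz : ∀ z w, P (L z + w • p) = (G.map (HPBasic_ev z)).eval w := by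
    intro z w
    rw [hG, Polynomial.eval_map]
  have hcoef : ∀ z k, (G.map (HPBasic_ev z)).coeff k = f k z := by
    intro z k
    rw [Polynomial.coeff_map]
    rfl
  have key : ∀ (c : ℂ) z k, f k (c • z) * c ^ k = c ^ d * f k z := by
    intro c z k
    have h1 : (G.map (HPBasic_ev (c • z))).comp (Polynomial.C c * Polynomial.X) =
        Polynomial.C (c ^ d) * G.map (HPBasic_ev z) := by
      apply Polynomial.funext
      intro w
      rw [Polynomial.eval_comp, Polynomial.eval_mul, Polynomial.eval_mul, Polynomial.eval_C,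
        Polynomial.eval_C, Polynomial.eval_X, ← hGz, ← hGz, ← hP.hom, map_smul, smul_add, smul_smul]
    have h2 := congrArg (fun q => Polynomial.coeff q k) h1
    simp only [Polynomial.comp_C_mul_X_coeff, Polynomial.coeff_C_mul] at h2
    rw [hcoef, hcoef] at h2
    exact h2
  have hline : ∀ z k, ∃ q : Polynomial ℂ, ∀ c : ℂ, f k (c • z) = q.eval c :=
    fun z k => HPBasic_line z (hfPF k)
  have hhom : ∀ k ≤ d, HP W (d - k) (f k) := by
    intro k hk
    refine ⟨hfPF k, ?_⟩
    intro c z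
    obtain ⟨q, hq⟩ := hline z k
    have h1 : q = Polynomial.X ^ (d - k) * Polynomial.C (f k z) := by
      apply HPBasic_eq_of_ne
      intro c hc
      have h2 := key c z k
      rw [hq] at h2
      rw [Polynomial.eval_mul, Polynomial.eval_pow, Polynomial.eval_X, Polynomial.eval_C]
      have h3 : c ^ d = c ^ (d - k) * c ^ k := by rw [← pow_add]; congr 1; omega
      rw [h3] at h2
      apply mul_right_cancel₀ (pow_ne_zero k hc)
      rw [h2]
      ring
    rw [hq, h1, Polynomial.eval_mul, Polynomial.eval_pow, Polynomial.eval_X, Polynomial.eval_C]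
  have hzero : ∀ k, d < k → ∀ z, f k z = 0 := by
    intro k hk z
    obtain ⟨q, hq⟩ := hline z k
    have h1 : q * Polynomial.X ^ k = Polynomial.X ^ d * Polynomial.C (f k z) := by
      apply Polynomial.funext
      intro c
      rw [Polynomial.eval_mul, Polynomial.eval_mul, Polynomial.eval_pow, Polynomial.eval_pow,
        Polynomial.eval_X, Polynomial.eval_C, ← hq]
      exact key c z k
    have h2 := congrArg (fun q => Polynomial.coeff q d) h1
    simp only [Polynomial.coeff_mul_X_pow', Polynomial.coeff_X_pow_mul', if_neg (not_le.2 hk),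
      if_pos (le_refl d), Nat.sub_self, Polynomial.coeff_C_zero] at h2
    exact h2.symm
  have hsum : ∀ z w, P (L z + w • p) = ∑ k ∈ Finset.range (d + 1), f k z * w ^ k := by
    intro z w
    have hdeg : (G.map (HPBasic_ev z)).natDegree < d + 1 := by
      rw [Nat.lt_succ_iff, Polynomial.natDegree_le_iff_coeff_eq_zero]
      intro k hk
      rw [hcoef]
      exact hzero k hk z
    rw [hGz, Polynomial.eval_eq_sum_range' hdeg]
    refine Finset.sum_congr rfl fun k _ => ?_
    rw [hcoef]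
  refine ⟨f, hhom, hsum, ?_⟩
  intro z
  have h0 : HP W 0 (f d) := by
    have := hhom d le_rfl
    rwa [Nat.sub_self] at this
  rw [h0.eq_const z]
  have h1 := hsum 0 1
  rw [_root_.map_zero, zero_add, one_smul, Finset.sum_range_succ, Finset.sum_eq_zero, zero_add, one_pow,
    mul_one] at h1
  · exact h1.symm
  · intro k hk
    have hk' := Finset.mem_range.1 hk
    rw [(hhom k hk'.le).map_zero (by omega), zero_mul]

end HMA

end S_MA_HPBasic

section S_MA_HPTop

/-! # Module HPT: homogeneous polynomial functions, topology -/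

open MeasureTheory Metric Set
open scoped ENNReal Topology ContDiff

namespace HMA

variable {V : Type} [NormedAddCommGroup V] [NormedSpace ℂ V] [FiniteDimensional ℂ V]

theorem PF.contDiff {f : V → ℂ} (hf : f ∈ PF V) (n : WithTop ℕ∞) : ContDiff ℂ n f := by
  unfold PF at hf
  induction hf using Algebra.adjoin_induction with
  | mem g hg =>
    obtain ⟨l, rfl⟩ := hg
    exact (LinearMap.toContinuousLinearMap l).contDiff
  | algebraMap r => exact contDiff_const
  | add g h _ _ hg hh => exact hg.add hh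
  | mul g h _ _ hg hh => exact hg.mul hh

theorem HP.continuous {d : ℕ} {f : V → ℂ} (hf : HP V d f) : Continuous f :=
  (PF.contDiff hf.poly 0).continuous

omit [FiniteDimensional ℂ V] in
theorem HPTop_scale {d : ℕ} {f : V → ℂ} (hf : HP V d f) {x : V} (hx : x ≠ 0) :
    ‖f x‖ = ‖f (((‖x‖⁻¹ : ℝ) : ℂ) • x)‖ * ‖x‖ ^ d := by
  have hx' : ‖x‖ ≠ 0 := norm_ne_zero_iff.mpr hx
  rw [hf.hom, norm_mul, norm_pow, Complex.norm_real, norm_inv, norm_norm]
  rw [mul_comm (‖x‖⁻¹ ^ d), mul_assoc, ← mul_pow, inv_mul_cancel₀ hx', one_pow, mul_one]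

omit [FiniteDimensional ℂ V] in
theorem HPTop_norm_scale {x : V} (hx : x ≠ 0) : ‖(((‖x‖⁻¹ : ℝ) : ℂ) • x)‖ = 1 := by
  have hx' : ‖x‖ ≠ 0 := norm_ne_zero_iff.mpr hx
  rw [norm_smul, Complex.norm_real, norm_inv, norm_norm, inv_mul_cancel₀ hx']

theorem HP.bound {d : ℕ} {f : V → ℂ} (hf : HP V d f) {M : ℝ}
    (hM : ∀ x, ‖x‖ ≤ 1 → ‖f x‖ ≤ M) (x : V) : ‖f x‖ ≤ M * ‖x‖ ^ d := by
  by_cases hx : x = 0
  · subst hx
    rcases Nat.eq_zero_or_pos d with hd | hd
    · subst hd
      simpa using hM 0 (by simp)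
    · have h0 : f 0 = 0 := by
        have h := hf.hom 0 0
        rw [zero_pow hd.ne', zero_mul, smul_zero] at h
        exact h
      rw [h0, norm_zero, norm_zero, zero_pow hd.ne', mul_zero]
  · rw [HPTop_scale hf hx]
    exact mul_le_mul_of_nonneg_right (hM _ (HPTop_norm_scale hx).le) (by positivity)

theorem HP.exists_max [Nontrivial V] {d : ℕ} {f : V → ℂ} (hf : HP V d f) :
    ∃ p : V, ‖p‖ = 1 ∧ ∀ x, ‖f x‖ ≤ ‖f p‖ * ‖x‖ ^ d := by
  haveI : ProperSpace V := FiniteDimensional.proper ℂ V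
  haveI : NormedSpace ℝ V := NormedSpace.restrictScalars ℝ ℂ V
  have hne : (sphere (0 : V) 1).Nonempty := by
    obtain ⟨v, hv⟩ := exists_ne (0 : V)
    exact ⟨_, by rw [mem_sphere_zero_iff_norm]; exact HPTop_norm_scale hv⟩
  obtain ⟨p, hp, hmax⟩ := (isCompact_sphere (0 : V) 1).exists_isMaxOn hne
    (hf.continuous.norm.continuousOn)
  rw [mem_sphere_zero_iff_norm] at hp
  refine ⟨p, hp, fun x => ?_⟩
  by_cases hx : x = 0
  · subst hx
    have h := hf.hom 0 p
    rw [zero_smul] at h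
    rw [h]
    rcases Nat.eq_zero_or_pos d with hd | hd
    · subst hd; simp
    · rw [zero_pow hd.ne', zero_mul, norm_zero]; positivity
  · rw [HPTop_scale hf hx]
    apply mul_le_mul_of_nonneg_right _ (by positivity)
    exact hmax (by rw [mem_sphere_zero_iff_norm]; exact HPTop_norm_scale hx)

/-- Lipschitz estimate (Schwarz lemma on complex lines) -/
theorem hp_lip {k : ℕ} {Q : V → ℂ} (hQ : HP V k Q) {M : ℝ}
    (hM : ∀ x, ‖x‖ ≤ 1 → ‖Q x‖ ≤ M) (x y : V) (hxy : ‖y - x‖ ≤ ‖x‖) :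
    ‖Q y - Q x‖ ≤ 2 ^ (k + 1) * M * ‖x‖ ^ (k - 1) * ‖y - x‖ := by
  have hM0 : 0 ≤ M := (norm_nonneg _).trans (hM 0 (by simp))
  rcases Nat.eq_zero_or_pos k with hk | hk
  · subst hk
    have hconst : ∀ z, Q z = Q 0 := by
      intro z
      have h := hQ.hom 0 z
      rw [zero_smul, pow_zero, one_mul] at h
      exact h.symm
    rw [hconst y, hconst x, sub_self, norm_zero]
    positivity
  by_cases hD : ‖y - x‖ = 0
  · have : y = x := by rwa [norm_eq_zero, sub_eq_zero] at hD
    subst this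
    rw [sub_self, sub_self, norm_zero, norm_zero]
    simp
  have hD0 : 0 < ‖y - x‖ := lt_of_le_of_ne (norm_nonneg _) (Ne.symm hD)
  have hR : 0 < ‖x‖ := lt_of_lt_of_le hD0 hxy
  set D := ‖y - x‖ with hDdef
  set R := ‖x‖ with hRdef
  have hRk : R ^ k = R ^ (k - 1) * R := by
    rw [← pow_succ]; congr 1; omega
  have hbound : ∀ z : V, ‖z - x‖ ≤ R → ‖Q z - Q x‖ ≤ 2 ^ (k + 1) * M * R ^ k := by
    intro z hz
    have h1 : ‖z‖ ≤ 2 * R := by
      calc ‖z‖ = ‖(z - x) + x‖ := by rw [sub_add_cancel]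
        _ ≤ ‖z - x‖ + ‖x‖ := norm_add_le _ _
        _ ≤ 2 * R := by linarith
    have h2 : ‖Q z‖ ≤ M * (2 * R) ^ k :=
      (hQ.bound hM z).trans (mul_le_mul_of_nonneg_left (pow_le_pow_left₀ (norm_nonneg _) h1 k) hM0)
    have h3 : ‖Q x‖ ≤ M * R ^ k := hQ.bound hM x
    have h4 : (1 : ℝ) ≤ 2 ^ k := one_le_pow₀ (by norm_num)
    have h5 : 0 ≤ M * R ^ k := by positivity
    calc ‖Q z - Q x‖ ≤ ‖Q z‖ + ‖Q x‖ := norm_sub_le _ _
      _ ≤ M * (2 * R) ^ k + M * R ^ k := by linarith
      _ = 2 ^ k * (M * R ^ k) + 1 * (M * R ^ k) := by rw [mul_pow]; ring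
      _ ≤ 2 ^ k * (M * R ^ k) + 2 ^ k * (M * R ^ k) := by
          have := mul_le_mul_of_nonneg_right h4 h5
          linarith
      _ = 2 ^ (k + 1) * M * R ^ k := by rw [pow_succ]; ring
  rcases lt_or_eq_of_le hxy with hlt | heq
  · set w : V := ((D⁻¹ : ℝ) : ℂ) • (y - x) with hw
    have hwn : ‖w‖ = 1 := by
      rw [hw, norm_smul, Complex.norm_real, norm_inv, Real.norm_of_nonneg hD0.le, ← hDdef,
        inv_mul_cancel₀ hD]
    set g : ℂ → ℂ := fun t => Q (x + t • w) with hg
    have hgd : Differentiable ℂ g := by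
      have h1 : Differentiable ℂ Q := (PF.contDiff hQ.poly 1).differentiable (by norm_num)
      exact h1.comp ((differentiable_const x).add (differentiable_id.smul_const w))
    have hg0 : g 0 = Q x := by rw [hg]; simp
    have hgD : g (D : ℂ) = Q y := by
      rw [hg]
      simp only
      rw [hw, smul_smul, ← Complex.ofReal_mul, mul_inv_cancel₀ hD, Complex.ofReal_one, one_smul,
        add_sub_cancel]
    have key : ∀ ε : ℝ, 0 < ε → ‖Q y - Q x‖ ≤ 2 ^ (k + 1) * M * R ^ (k - 1) * D + ε := by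
      intro ε hε
      have hmaps : MapsTo g (ball 0 R) (ball (g 0) (2 ^ (k + 1) * M * R ^ k + ε)) := by
        intro t ht
        rw [mem_ball_zero_iff] at ht
        rw [mem_ball, dist_eq_norm, hg0]
        refine lt_of_le_of_lt (hbound (x + t • w) ?_) (by linarith)
        rw [add_sub_cancel_left, norm_smul, hwn, mul_one]
        exact ht.le
      have hz : (D : ℂ) ∈ ball (0 : ℂ) R := by
        rw [mem_ball_zero_iff, Complex.norm_real, Real.norm_of_nonneg hD0.le]
        exact hlt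
      have h := Complex.dist_le_div_mul_dist_of_mapsTo_ball hgd.differentiableOn
        (hmaps.mono_right ball_subset_closedBall) hz
      rw [hg0, hgD, dist_eq_norm, dist_zero_right, Complex.norm_real,
        Real.norm_of_nonneg hD0.le] at h
      refine h.trans ?_
      have h6 : (2 ^ (k + 1) * M * R ^ k + ε) / R * D
          = 2 ^ (k + 1) * M * R ^ (k - 1) * D + ε * (D / R) := by
        rw [hRk]; field_simp
      rw [h6]
      have h7 : D / R ≤ 1 := by rw [div_le_one hR]; exact hxy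
      have h8 := mul_le_mul_of_nonneg_left h7 hε.le
      linarith
    exact le_of_forall_pos_le_add key
  · refine (hbound y hxy).trans ?_
    rw [hRk, heq]
    apply le_of_eq
    ring

end HMA

end S_MA_HPTop

section S_MA_Disc1

/-! # Module DISC1: the discriminant as a homogeneous polynomial function -/

open MeasureTheory Metric Set
open scoped ENNReal Topology ContDiff

namespace HMA

variable {W : Type} [AddCommGroup W] [Module ℂ W]

theorem pol_eval (d : ℕ) (c : ℕ → ℂ) (w : ℂ) :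
    (pol d c).eval w = ∑ k ∈ Finset.range (d + 1), c k * w ^ k := by
  simp [pol, Polynomial.eval_finsetSum]

theorem Disc1_coeff (d : ℕ) (c : ℕ → ℂ) (i : ℕ) :
    (pol d c).coeff i = if i ≤ d then c i else 0 := by
  simp only [pol, Polynomial.finsetSum_coeff, Polynomial.coeff_C_mul_X_pow]
  rw [Finset.sum_ite_eq]
  simp [Nat.lt_succ_iff]

theorem Disc1_zero (e : ℕ) : HP W e (fun _ => 0) :=
  ⟨(PF W).zero_mem, by intro c x; simp⟩

/-- degrees of the columns of the Sylvester matrix -/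
def Disc1_beta (d : ℕ) (j : Fin (d + (d - 1))) : ℕ := if (j : ℕ) < d then (d - 1) + j else j

theorem Disc1_sum (d : ℕ) (σ : Equiv.Perm (Fin (d + (d - 1))))
    (h : ∀ j, (σ j : ℕ) ≤ Disc1_beta d j) :
    ∑ j, (Disc1_beta d j - (σ j : ℕ)) = d * (d - 1) := by
  have h1 : ∑ j, (Disc1_beta d j - (σ j : ℕ)) + ∑ j, (σ j : ℕ) = ∑ j, Disc1_beta d j := by
    rw [← Finset.sum_add_distrib]
    exact Finset.sum_congr rfl fun j _ => Nat.sub_add_cancel (h j)
  have h2 : ∑ j, (σ j : ℕ) = ∑ j : Fin (d + (d - 1)), (j : ℕ) :=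
    Equiv.sum_comp σ (fun j : Fin (d + (d - 1)) => (j : ℕ))
  have h3 : ∑ j, Disc1_beta d j = ∑ j : Fin (d + (d - 1)), (j : ℕ) + d * (d - 1) := by
    rw [Fin.sum_univ_add, Fin.sum_univ_add]
    have e1 : ∀ i : Fin d, Disc1_beta d (Fin.castAdd (d - 1) i) = (d - 1) + i := by
      intro i
      simp [Disc1_beta]
    have e2 : ∀ i : Fin (d - 1), Disc1_beta d (Fin.natAdd d i) = d + i := by
      intro i
      simp [Disc1_beta]
    simp only [e1, e2, Fin.val_castAdd, Fin.val_natAdd, Finset.sum_add_distrib, Finset.sum_const,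
      Finset.card_univ, Fintype.card_fin, smul_eq_mul]
    ring
  omega

theorem Disc1_entry {d : ℕ} (hd : 1 ≤ d) (f : ℕ → W → ℂ) (hf : ∀ k ≤ d, HP W (d - k) (f k))
    (i j : Fin (d + (d - 1))) :
    (fun z => Polynomial.sylvester (pol d (fun k => f k z))
      (Polynomial.derivative (pol d (fun k => f k z))) d (d - 1) i j) = (fun _ => 0) ∨
    ((i : ℕ) ≤ Disc1_beta d j ∧ HP W (Disc1_beta d j - i)
      (fun z => Polynomial.sylvester (pol d (fun k => f k z))
      (Polynomial.derivative (pol d (fun k => f k z))) d (d - 1) i j)) := by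
  refine Fin.addCases (fun j₁ => ?_) (fun j₁ => ?_) j
  · have e1 : Disc1_beta d (Fin.castAdd (d - 1) j₁) = (d - 1) + j₁ := by simp [Disc1_beta]
    rw [e1]
    by_cases h : (i : ℕ) ∈ Set.Icc (j₁ : ℕ) (j₁ + (d - 1))
    · right
      obtain ⟨h1, h2⟩ := h
      refine ⟨by omega, ?_⟩
      have e2 : (fun z => Polynomial.sylvester (pol d (fun k => f k z))
          (Polynomial.derivative (pol d (fun k => f k z))) d (d - 1) i (Fin.castAdd (d - 1) j₁)) =
          fun z => (((i : ℕ) - (j₁ : ℕ) : ℕ) + 1 : ℂ) * f ((i : ℕ) - j₁ + 1) z := by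
        funext z
        simp only [Polynomial.sylvester, Matrix.of_apply, Fin.addCases_left]
        rw [if_pos ⟨h1, h2⟩, Polynomial.coeff_derivative, Disc1_coeff, if_pos (by omega), mul_comm]
      rw [e2]
      have h3 := (hf ((i : ℕ) - j₁ + 1) (by omega)).const_mul (((i : ℕ) - (j₁ : ℕ) : ℕ) + 1 : ℂ)
      have h4 : d - 1 + (j₁ : ℕ) - i = d - ((i : ℕ) - j₁ + 1) := by omega
      rw [h4]
      exact h3
    · left
      funext z
      simp only [Polynomial.sylvester, Matrix.of_apply, Fin.addCases_left]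
      rw [if_neg h]
  · have e1 : Disc1_beta d (Fin.natAdd d j₁) = d + j₁ := by simp [Disc1_beta]
    rw [e1]
    by_cases h : (i : ℕ) ∈ Set.Icc (j₁ : ℕ) (j₁ + d)
    · right
      obtain ⟨h1, h2⟩ := h
      refine ⟨by omega, ?_⟩
      have e2 : (fun z => Polynomial.sylvester (pol d (fun k => f k z))
          (Polynomial.derivative (pol d (fun k => f k z))) d (d - 1) i (Fin.natAdd d j₁)) =
          fun z => f ((i : ℕ) - j₁) z := by
        funext z
        simp only [Polynomial.sylvester, Matrix.of_apply, Fin.addCases_right]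
        rw [if_pos ⟨h1, h2⟩, Disc1_coeff, if_pos (by omega)]
      rw [e2]
      have h3 := hf ((i : ℕ) - j₁) (by omega)
      have h4 : d + (j₁ : ℕ) - i = d - ((i : ℕ) - j₁) := by omega
      rw [h4]
      exact h3
    · left
      funext z
      simp only [Polynomial.sylvester, Matrix.of_apply, Fin.addCases_right]
      rw [if_neg h]

theorem disc_hp {d : ℕ} (hd : 1 ≤ d) (f : ℕ → W → ℂ) (hf : ∀ k ≤ d, HP W (d - k) (f k))
    {a : ℂ} (ha : a ≠ 0) (hfd : ∀ z, f d z = a) :
    HP W (d * (d - 1)) (fun z => Polynomial.resultant (pol d (fun k => f k z))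
      (Polynomial.derivative (pol d (fun k => f k z))) d (d - 1)) := by
  simp only [Polynomial.resultant, Matrix.det_apply']
  refine HP.sum Finset.univ fun σ _ => ?_
  refine HP.const_mul ?_ _
  by_cases h : ∃ j, (fun z => Polynomial.sylvester (pol d (fun k => f k z))
      (Polynomial.derivative (pol d (fun k => f k z))) d (d - 1) (σ j) j) = (fun _ => 0)
  · obtain ⟨j, hj⟩ := h
    have h0 : (fun z => ∏ j, Polynomial.sylvester (pol d (fun k => f k z))
      (Polynomial.derivative (pol d (fun k => f k z))) d (d - 1) (σ j) j) = fun _ => 0 := by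
      funext z
      exact Finset.prod_eq_zero (Finset.mem_univ j) (congrFun hj z)
    rw [h0]
    exact Disc1_zero _
  · push Not at h
    have h1 : ∀ j, (σ j : ℕ) ≤ Disc1_beta d j ∧ HP W (Disc1_beta d j - σ j)
        (fun z => Polynomial.sylvester (pol d (fun k => f k z))
        (Polynomial.derivative (pol d (fun k => f k z))) d (d - 1) (σ j) j) := fun j =>
      (Disc1_entry hd f hf (σ j) j).resolve_left (h j)
    rw [← Disc1_sum d σ fun j => (h1 j).1]
    exact HP.prod Finset.univ fun j _ => (h1 j).2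

end HMA

end S_MA_Disc1

section S_MA_Disc2

/-! # Module DISC2: nonzero discriminant and simple roots; pencils -/

open MeasureTheory Metric Set
open scoped ENNReal Topology ContDiff

namespace HMA

theorem Disc2_natDegree_le (d : ℕ) (c : ℕ → ℂ) : (pol d c).natDegree ≤ d := by
  unfold pol
  refine Polynomial.natDegree_sum_le_of_forall_le _ _ ?_
  intro k hk
  refine (Polynomial.natDegree_C_mul_X_pow_le _ _).trans ?_
  have := Finset.mem_range.1 hk
  omega

theorem Disc2_coeff (d : ℕ) (c : ℕ → ℂ) : (pol d c).coeff d = c d := by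
  unfold pol
  rw [Polynomial.finsetSum_coeff]
  rw [Finset.sum_eq_single d]
  · simp
  · intro k _ hkd
    rw [Polynomial.coeff_C_mul, Polynomial.coeff_X_pow, if_neg (Ne.symm hkd), mul_zero]
  · intro h
    exact absurd (Finset.mem_range.2 (Nat.lt_succ_self d)) h

theorem Disc2_natDegree (d : ℕ) (c : ℕ → ℂ) (hc : c d ≠ 0) : (pol d c).natDegree = d := by
  refine le_antisymm (Disc2_natDegree_le d c) ?_
  refine Polynomial.le_natDegree_of_ne_zero ?_
  rw [Disc2_coeff]
  exact hc

theorem Disc2_iff {d : ℕ} (c : ℕ → ℂ) (hc : c d ≠ 0) :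
    Polynomial.resultant (pol d c) (Polynomial.derivative (pol d c)) d (d - 1) ≠ 0 ↔
      ∀ w, (pol d c).eval w = 0 → (Polynomial.derivative (pol d c)).eval w ≠ 0 := by
  have hn := Disc2_natDegree d c hc
  have hne : pol d c ≠ 0 := by
    intro h0
    have := Disc2_coeff d c
    rw [h0, Polynomial.coeff_zero] at this
    exact hc this.symm
  have h1 := Polynomial.resultant_eq_prod_eval (pol d c) (Polynomial.derivative (pol d c)) (d - 1)
    ((Polynomial.natDegree_derivative_le _).trans (by rw [hn])) (IsAlgClosed.splits _)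
  rw [hn] at h1
  rw [h1]
  have hl : (pol d c).leadingCoeff ≠ 0 := Polynomial.leadingCoeff_ne_zero.2 hne
  constructor
  · intro h w hw hw'
    refine h ?_
    have : (Polynomial.derivative (pol d c)).eval w ∈
        (pol d c).roots.map (Polynomial.derivative (pol d c)).eval :=
      Multiset.mem_map_of_mem _ ((Polynomial.mem_roots hne).2 hw)
    rw [hw'] at this
    rw [Multiset.prod_eq_zero this, mul_zero]
  · intro h
    refine mul_ne_zero (pow_ne_zero _ hl) ?_
    intro h0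
    rw [Multiset.prod_eq_zero_iff, Multiset.mem_map] at h0
    obtain ⟨w, hw, hw0⟩ := h0
    exact h w ((Polynomial.mem_roots hne).1 hw) hw0

theorem disc_simple {d : ℕ} (hd : 1 ≤ d) (c : ℕ → ℂ) (hc : c d ≠ 0)
    (h : Polynomial.resultant (pol d c) (Polynomial.derivative (pol d c)) d (d - 1) ≠ 0) (w : ℂ)
    (hw : (pol d c).eval w = 0) : (Polynomial.derivative (pol d c)).eval w ≠ 0 := by
  exact (Disc2_iff c hc).1 h w hw

/-- discriminant of a pencil `p + s q`, `q` with simple roots: nonzero for arbitrarily small `s` -/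
theorem disc_pencil {d : ℕ} (hd : 1 ≤ d) (c e : ℕ → ℂ) (he : e d ≠ 0)
    (hs : ∀ w, (pol d e).eval w = 0 → (Polynomial.derivative (pol d e)).eval w ≠ 0) {τ : ℝ}
    (hτ : 0 < τ) : ∃ s : ℂ, ‖s‖ < τ ∧ Polynomial.resultant (pol d (fun k => c k + s * e k))
      (Polynomial.derivative (pol d (fun k => c k + s * e k))) d (d - 1) ≠ 0 := by
  classical
  set Q : Polynomial (Polynomial ℂ) := ∑ k ∈ Finset.range (d + 1),
    Polynomial.C (Polynomial.X * Polynomial.C (c k) + Polynomial.C (e k)) * Polynomial.X ^ k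
    with hQ
  set S : Polynomial ℂ := Polynomial.resultant Q (Polynomial.derivative Q) d (d - 1) with hS
  have hmap : ∀ t : ℂ, Q.map (Polynomial.evalRingHom t) = pol d (fun k => t * c k + e k) := by
    intro t
    rw [hQ, Polynomial.map_sum]
    unfold pol
    refine Finset.sum_congr rfl fun k _ => ?_
    simp
    ring
  have hSt : ∀ t : ℂ, S.eval t = Polynomial.resultant (pol d (fun k => t * c k + e k))
      (Polynomial.derivative (pol d (fun k => t * c k + e k))) d (d - 1) := by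
    intro t
    rw [← hmap t, Polynomial.derivative_map, Polynomial.resultant_map_map]
    rfl
  have hS0 : S.eval 0 ≠ 0 := by
    rw [hSt 0]
    have h1 : (fun k => (0 : ℂ) * c k + e k) = e := by
      funext k
      ring
    rw [h1]
    exact (Disc2_iff e he).2 hs
  have hSne : S ≠ 0 := by
    intro h0
    rw [h0] at hS0
    simp at hS0
  obtain ⟨t, ht1, ht2⟩ : ∃ t : ℂ, τ⁻¹ < ‖t‖ ∧ S.eval t ≠ 0 := by
    by_contra hcon
    push Not at hcon
    have hinf : (Set.range fun n : ℕ => ((n : ℂ) + (⌈τ⁻¹⌉₊ + 1 : ℕ))).Infinite := by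
      refine Set.infinite_range_of_injective ?_
      intro a b hab
      have h2 : (a : ℂ) = b := by
        have h3 : (a : ℂ) + (⌈τ⁻¹⌉₊ + 1 : ℕ) = (b : ℂ) + (⌈τ⁻¹⌉₊ + 1 : ℕ) := hab
        exact add_right_cancel h3
      exact_mod_cast h2
    refine hinf (Set.Finite.subset (Polynomial.finite_setOfPred_isRoot hSne) ?_)
    rintro _ ⟨n, rfl⟩
    refine hcon _ ?_
    have h1 : ((n : ℂ) + (⌈τ⁻¹⌉₊ + 1 : ℕ)) = ((n + (⌈τ⁻¹⌉₊ + 1) : ℕ) : ℂ) := by
      push_cast
      ring
    simp only []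
    rw [h1, Complex.norm_natCast]
    have h2 := Nat.le_ceil τ⁻¹
    push_cast
    have h3 : (0 : ℝ) ≤ n := Nat.cast_nonneg n
    linarith
  have ht0 : t ≠ 0 := by
    intro h0
    rw [h0, norm_zero] at ht1
    exact absurd ht1 (not_lt.2 (inv_pos.2 hτ).le)
  refine ⟨t⁻¹, ?_, ?_⟩
  · rw [norm_inv]
    exact inv_lt_of_inv_lt₀ hτ ht1
  · have h1 : pol d (fun k => c k + t⁻¹ * e k) =
        Polynomial.C t⁻¹ * pol d (fun k => t * c k + e k) := by
      unfold pol
      rw [Finset.mul_sum]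
      refine Finset.sum_congr rfl fun k _ => ?_
      rw [← mul_assoc, ← Polynomial.C_mul]
      congr 2
      field_simp
    rw [h1, Polynomial.derivative_C_mul, Polynomial.resultant_C_mul_left,
      Polynomial.resultant_C_mul_right, ← hSt t]
    exact mul_ne_zero (pow_ne_zero _ (inv_ne_zero ht0))
      (mul_ne_zero (pow_ne_zero _ (inv_ne_zero ht0)) ht2)

end HMA

end S_MA_Disc2

section S_KW_RegMax

/-! # Module RegMax: the regularised maximum -/

open MeasureTheory Metric Set Filter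
open scoped ENNReal Topology ContDiff ComplexOrder

namespace HMA

/-- the maximum of the coordinates -/
noncomputable def RegMax_f (N : ℕ) (hN : 1 ≤ N) (t : Fin N → ℝ) : ℝ :=
  (Finset.univ : Finset (Fin N)).sup' ⟨⟨0, hN⟩, Finset.mem_univ _⟩ t

theorem RegMax_le (N : ℕ) (hN : 1 ≤ N) (t : Fin N → ℝ) (i : Fin N) : t i ≤ RegMax_f N hN t :=
  Finset.le_sup' t (Finset.mem_univ i)

theorem RegMax_f_le (N : ℕ) (hN : 1 ≤ N) (t : Fin N → ℝ) (c : ℝ) (h : ∀ i, t i ≤ c) :
    RegMax_f N hN t ≤ c :=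
  Finset.sup'_le _ _ (fun i _ => h i)

theorem RegMax_mono (N : ℕ) (hN : 1 ≤ N) (s t : Fin N → ℝ) (h : ∀ i, s i ≤ t i) :
    RegMax_f N hN s ≤ RegMax_f N hN t :=
  RegMax_f_le N hN s _ (fun i => (h i).trans (RegMax_le N hN t i))

theorem RegMax_cont (N : ℕ) (hN : 1 ≤ N) : Continuous (RegMax_f N hN) := by
  have h : LipschitzWith 1 (RegMax_f N hN) := by
    refine LipschitzWith.of_le_add_mul 1 (fun s t => ?_)
    refine RegMax_f_le N hN s _ (fun i => ?_)
    have h1 := RegMax_le N hN t i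
    have h2 : |s i - t i| ≤ dist s t := by
      have := dist_le_pi_dist s t i
      rwa [Real.dist_eq] at this
    have h3 := le_abs_self (s i - t i)
    simp only [NNReal.coe_one, one_mul]
    linarith
  exact h.continuous

theorem RegMax_int {N : ℕ} (hN : 1 ≤ N) {w : (Fin N → ℝ) → ℝ} (hw : Continuous w)
    (hc : HasCompactSupport w) (g : (Fin N → ℝ) → ℝ) (hg : Continuous g) :
    Integrable (fun y => w y * g y) :=
  (hw.mul hg).integrable_of_hasCompactSupport (hc.mul_right)

theorem RegMax_smooth {N : ℕ} (hN : 1 ≤ N) {w : (Fin N → ℝ) → ℝ} (hw : ContDiff ℝ ∞ w)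
    (hc : HasCompactSupport w) :
    ContDiff ℝ ∞ (fun t : Fin N → ℝ => ∫ y, w y * RegMax_f N hN (t - y)) := by
  have h := HasCompactSupport.contDiff_convolution_left (μ := (volume : Measure (Fin N → ℝ)))
    (ContinuousLinearMap.lsmul ℝ ℝ) hc hw
    ((RegMax_cont N hN).locallyIntegrable (μ := (volume : Measure (Fin N → ℝ))))
  exact h

/-- `M t = ∫ max_i (t_i + y_i) dν(y)` for a symmetric smooth probability density `ν` with support
in `[-η, η]^N` -/
theorem exists_regmax (N : ℕ) (hN : 1 ≤ N) {η : ℝ} (hη : 0 < η) : ∃ M : (Fin N → ℝ) → ℝ,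
    ContDiff ℝ ∞ M ∧ ConvexOn ℝ univ M ∧ Monotone M ∧ (∀ t i, t i ≤ M t) ∧
    (∀ t c, (∀ i, t i ≤ c) → M t ≤ c + η) ∧ (∀ t c, M (fun i => t i + c) = M t + c) ∧
    ∀ (s t : Fin N → ℝ) (j : Fin N), s j = t j →
      (∀ i, s i = t i ∨ (s i ≤ s j - 2 * η ∧ t i ≤ t j - 2 * η)) → M s = M t := by
  let φ : ContDiffBump (0 : Fin N → ℝ) := ⟨η / 2, η, by positivity, by linarith⟩
  obtain ⟨w, hwdef⟩ : ∃ w : (Fin N → ℝ) → ℝ, w = φ.normed volume := ⟨_, rfl⟩
  have hw0 : ∀ y, 0 ≤ w y := fun y => by rw [hwdef]; exact φ.nonneg_normed y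
  have hwc : Continuous w := by rw [hwdef]; exact φ.continuous_normed
  have hwd : ContDiff ℝ ∞ w := by rw [hwdef]; exact φ.contDiff_normed
  have hwk : HasCompactSupport w := by rw [hwdef]; exact φ.hasCompactSupport_normed
  have hw1 : ∫ y, w y = 1 := by rw [hwdef]; exact φ.integral_normed
  have hwn : ∀ y, w (-y) = w y := fun y => by rw [hwdef]; exact φ.normed_neg y
  have hws : ∀ y, w y ≠ 0 → ‖y‖ < η := by
    intro y hy
    have h : y ∈ Function.support (φ.normed volume) := by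
      rw [← hwdef]; exact hy
    rw [ContDiffBump.support_normed_eq, mem_ball_zero_iff] at h
    exact h
  have hwy : ∀ y, w y ≠ 0 → ∀ i, |y i| ≤ η := by
    intro y hy i
    have := norm_le_pi_norm y i
    rw [Real.norm_eq_abs] at this
    exact this.trans (hws y hy).le
  have hfc : ∀ t : Fin N → ℝ, Continuous (fun y => RegMax_f N hN (t - y)) := fun t =>
    (RegMax_cont N hN).comp (continuous_const.sub continuous_id)
  have hint : ∀ t : Fin N → ℝ, Integrable (fun y => w y * RegMax_f N hN (t - y)) := fun t =>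
    RegMax_int hN hwc hwk _ (hfc t)
  have hconst : ∀ c : ℝ, ∫ y, w y * c = c := by
    intro c
    rw [integral_mul_const, hw1, one_mul]
  have hcint : ∀ c : ℝ, Integrable (fun y => w y * c) := fun c =>
    RegMax_int hN hwc hwk _ continuous_const
  refine ⟨fun t => ∫ y, w y * RegMax_f N hN (t - y), RegMax_smooth hN hwd hwk, ?_, ?_, ?_, ?_, ?_,
    ?_⟩
  · refine ⟨convex_univ, ?_⟩
    intro s _ t _ a b ha hb hab
    simp only [smul_eq_mul]
    rw [← integral_const_mul, ← integral_const_mul, ← integral_add ((hint s).const_mul a)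
      ((hint t).const_mul b)]
    refine integral_mono (hint _) (((hint s).const_mul a).add ((hint t).const_mul b)) (fun y => ?_)
    have h1 : RegMax_f N hN (a • s + b • t - y) ≤
        a * RegMax_f N hN (s - y) + b * RegMax_f N hN (t - y) := by
      refine RegMax_f_le N hN _ _ (fun i => ?_)
      have e1 := RegMax_le N hN (s - y) i
      have e2 := RegMax_le N hN (t - y) i
      have e3 : (a • s + b • t - y) i = a * (s - y) i + b * (t - y) i := by
        simp only [Pi.sub_apply, Pi.add_apply, Pi.smul_apply, smul_eq_mul]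
        have : y i = (a + b) * y i := by rw [hab, one_mul]
        rw [this]; 
        have : (a + b) * y i = y i := by rw [hab, one_mul]
        rw [this]
        linear_combination (y i) * hab
      rw [e3]
      exact add_le_add (mul_le_mul_of_nonneg_left e1 ha) (mul_le_mul_of_nonneg_left e2 hb)
    have h2 := mul_le_mul_of_nonneg_left h1 (hw0 y)
    refine h2.trans (le_of_eq ?_)
    ring
  · intro s t hst
    refine integral_mono (hint s) (hint t) (fun y => ?_)
    refine mul_le_mul_of_nonneg_left (RegMax_mono N hN _ _ (fun i => ?_)) (hw0 y)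
    exact sub_le_sub_right (hst i) _
  · intro t i
    have hodd : ∫ y, w y * y i = 0 := by
      have h1 : ∫ y, w y * y i = ∫ y : Fin N → ℝ, w (-y) * (-y) i :=
        (integral_neg_eq_self (fun y : Fin N → ℝ => w y * y i) volume).symm
      have h2 : ∫ y : Fin N → ℝ, w (-y) * (-y) i = - ∫ y, w y * y i := by
        rw [← integral_neg]
        refine integral_congr_ae (Eventually.of_forall (fun y => ?_))
        simp only [hwn, Pi.neg_apply, mul_neg]
      linarith
    have hyint : Integrable (fun y : Fin N → ℝ => w y * y i) :=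
      RegMax_int hN hwc hwk _ (continuous_apply i)
    have h3 : ∫ y, w y * (t i - y i) = t i := by
      have : (fun y : Fin N → ℝ => w y * (t i - y i)) = fun y => w y * t i - w y * y i := by
        funext y; ring
      rw [this, integral_sub (hcint _) hyint, hconst, hodd, sub_zero]
    have h4 : ∫ y, w y * (t i - y i) ≤ ∫ y, w y * RegMax_f N hN (t - y) := by
      refine integral_mono (RegMax_int hN hwc hwk _ (continuous_const.sub (continuous_apply i)))
        (hint t) (fun y => ?_)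
      exact mul_le_mul_of_nonneg_left (RegMax_le N hN (t - y) i) (hw0 y)
    rw [h3] at h4
    exact h4
  · intro t c hc
    have h4 : ∫ y, w y * RegMax_f N hN (t - y) ≤ ∫ y, w y * (c + η) := by
      refine integral_mono (hint t) (hcint _) (fun y => ?_)
      by_cases hy : w y = 0
      · simp only [hy, zero_mul, le_refl]
      · refine mul_le_mul_of_nonneg_left (RegMax_f_le N hN _ _ (fun i => ?_)) (hw0 y)
        have h1 := (abs_le.1 (hwy y hy i)).1
        have h2 := hc i
        simp only [Pi.sub_apply]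
        linarith
    rw [hconst] at h4
    exact h4
  · intro t c
    have h5 : ∀ y, w y * RegMax_f N hN ((fun i => t i + c) - y) =
        w y * RegMax_f N hN (t - y) + w y * c := by
      intro y
      have h6 : RegMax_f N hN ((fun i => t i + c) - y) = RegMax_f N hN (t - y) + c := by
        refine le_antisymm (RegMax_f_le N hN _ _ (fun i => ?_)) ?_
        · have := RegMax_le N hN (t - y) i
          simp only [Pi.sub_apply] at this ⊢
          linarith
        · have : RegMax_f N hN (t - y) ≤ RegMax_f N hN ((fun i => t i + c) - y) - c := by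
            refine RegMax_f_le N hN _ _ (fun i => ?_)
            have := RegMax_le N hN ((fun i => t i + c) - y) i
            simp only [Pi.sub_apply] at this ⊢
            linarith
          linarith
      rw [h6]; ring
    show ∫ y, w y * RegMax_f N hN ((fun i => t i + c) - y) =
      (∫ y, w y * RegMax_f N hN (t - y)) + c
    rw [integral_congr_ae (Eventually.of_forall h5), integral_add (hint t) (hcint c), hconst]
  · intro s t j hj hst
    have key : ∀ (s t : Fin N → ℝ), s j = t j →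
        (∀ i, s i = t i ∨ (s i ≤ s j - 2 * η ∧ t i ≤ t j - 2 * η)) → ∀ y, w y ≠ 0 →
        RegMax_f N hN (s - y) ≤ RegMax_f N hN (t - y) := by
      intro s t hj hst y hy
      refine RegMax_f_le N hN _ _ (fun i => ?_)
      rcases hst i with h | ⟨h, _⟩
      · have := RegMax_le N hN (t - y) i
        simp only [Pi.sub_apply] at this ⊢
        rw [h]; exact this
      · have h1 := RegMax_le N hN (t - y) j
        have h2 := (abs_le.1 (hwy y hy i)).1
        have h3 := (abs_le.1 (hwy y hy j)).2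
        simp only [Pi.sub_apply] at h1 ⊢
        linarith
    refine integral_congr_ae (Eventually.of_forall (fun y => ?_))
    by_cases hy : w y = 0
    · simp only [hy, zero_mul]
    · have h1 := key s t hj hst y hy
      have h2 := key t s hj.symm (fun i => (hst i).imp Eq.symm (fun h => ⟨h.2, h.1⟩)) y hy
      show w y * RegMax_f N hN (s - y) = w y * RegMax_f N hN (t - y)
      rw [le_antisymm h1 h2]

end HMA

end S_KW_RegMax

section S_KW_HolN

/-! # Module HolN: a functional inequality -/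

open MeasureTheory Metric Set Filter
open scoped ENNReal Topology ContDiff ComplexOrder

namespace HMA

theorem hol_num {L β C r₀ M : ℝ} (hL : 1 < L) (hβ : 0 < β) (hC : 0 < C) (hr₀ : 0 < r₀) :
    ∃ α C' : ℝ, 0 < α ∧ α ≤ 1 ∧ 0 < C' ∧ ∀ m : ℝ → ℝ, (∀ r, 0 < r → 0 ≤ m r ∧ m r ≤ M) →
      (∀ r, 0 < r → r ≤ r₀ → m r ≤ m (L * r) / 2 + C * r ^ β) →
      ∀ r, 0 < r → r ≤ 1 → m r ≤ C' * r ^ α := by
  have hL0 : 0 < L := by linarith
  have hlogL : 0 < Real.log L := Real.log_pos hL
  have hlog : 0 < Real.log (3 / 2) := Real.log_pos (by norm_num)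
  set α : ℝ := min 1 (min β (Real.log (3 / 2) / Real.log L)) with hα
  have hα0 : 0 < α := lt_min one_pos (lt_min hβ (div_pos hlog hlogL))
  have hα1 : α ≤ 1 := min_le_left _ _
  have hαβ : α ≤ β := (min_le_right _ _).trans (min_le_left _ _)
  have hαL : α ≤ Real.log (3 / 2) / Real.log L := (min_le_right _ _).trans (min_le_right _ _)
  have hLα : L ^ α ≤ 3 / 2 := by
    have h1 : Real.log L * α ≤ Real.log (3 / 2) := by
      rw [le_div_iff₀ hlogL] at hαL
      linarith
    rw [Real.rpow_def_of_pos hL0]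
    calc Real.exp (Real.log L * α) ≤ Real.exp (Real.log (3 / 2)) := Real.exp_le_exp.2 h1
      _ = 3 / 2 := Real.exp_log (by norm_num)
  set r₁ : ℝ := min r₀ (1 / L) with hr₁
  have hr₁0 : 0 < r₁ := lt_min hr₀ (by positivity)
  have hr₁r : r₁ ≤ r₀ := min_le_left _ _
  have hr₁L : r₁ ≤ 1 / L := min_le_right _ _
  set C' : ℝ := |M| / r₁ ^ α + 4 * C with hC'
  have hr₁α : 0 < r₁ ^ α := Real.rpow_pos_of_pos hr₁0 α
  have hC'0 : 0 < C' := by positivity
  refine ⟨α, C', hα0, hα1, hC'0, ?_⟩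
  intro m hm hrec
  have key : ∀ k : ℕ, ∀ r, 0 < r → r ≤ 1 → r₁ < r * L ^ k → m r ≤ C' * r ^ α := by
    intro k
    induction k with
    | zero =>
      intro r hr hr1 h
      rw [pow_zero, mul_one] at h
      have h1 : r₁ ^ α ≤ r ^ α := Real.rpow_le_rpow hr₁0.le h.le hα0.le
      calc m r ≤ M := (hm r hr).2
        _ ≤ |M| := le_abs_self M
        _ = |M| / r₁ ^ α * r₁ ^ α := by rw [div_mul_cancel₀ _ hr₁α.ne']
        _ ≤ C' * r₁ ^ α := by
          refine mul_le_mul_of_nonneg_right ?_ hr₁α.le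
          rw [hC']
          linarith
        _ ≤ C' * r ^ α := mul_le_mul_of_nonneg_left h1 hC'0.le
    | succ k ih =>
      intro r hr hr1 h
      by_cases hr2 : r ≤ r₁
      · have hLr0 : 0 < L * r := mul_pos hL0 hr
        have hLr1 : L * r ≤ 1 := by
          have h1 := hr2.trans hr₁L
          rw [le_div_iff₀ hL0] at h1
          linarith
        have h1 := ih (L * r) hLr0 hLr1 (by
          rw [pow_succ] at h
          have : L * r * L ^ k = r * (L ^ k * L) := by ring
          rw [this]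
          exact h)
        have h2 := hrec r hr (hr2.trans hr₁r)
        have h3 : r ^ β ≤ r ^ α := Real.rpow_le_rpow_of_exponent_ge hr hr1 hαβ
        have h4 : (L * r) ^ α = L ^ α * r ^ α := Real.mul_rpow hL0.le hr.le
        have hrα : 0 < r ^ α := Real.rpow_pos_of_pos hr α
        have h5 : C' * (L * r) ^ α ≤ C' * (3 / 2 * r ^ α) := by
          rw [h4]
          exact mul_le_mul_of_nonneg_left (mul_le_mul_of_nonneg_right hLα hrα.le) hC'0.le
        have h6 : C * r ^ β ≤ C * r ^ α := mul_le_mul_of_nonneg_left h3 hC.le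
        have h7 : 4 * C ≤ C' := by
          rw [hC']
          have : 0 ≤ |M| / r₁ ^ α := by positivity
          linarith
        have h8 : 4 * C * r ^ α ≤ C' * r ^ α := mul_le_mul_of_nonneg_right h7 hrα.le
        linarith
      · push Not at hr2
        have h1 := ih r hr hr1 (by
          refine hr2.trans_le ?_
          have : 1 ≤ L ^ k := one_le_pow₀ hL.le
          nlinarith)
        exact h1
  intro r hr hr1
  obtain ⟨k, hk⟩ := pow_unbounded_of_one_lt (r₁ / r) hL
  refine key k r hr hr1 ?_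
  rw [div_lt_iff₀ hr] at hk
  linarith

end HMA

end S_KW_HolN
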