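import Mathlib
import Pool.Agent.H85.MG.G1a

/-! Moderate measures and Hölder continuous potentials, part G2a: this file joins several modules to save build time. -/

section S_KM_Mat

/-! # Module Mat: matrix inequalities -/

open MeasureTheory Metric Set
open scoped ENNReal Topology ContDiff ComplexOrder

namespace HMA

open Matrix

variable {n : ℕ}

section
open scoped MatrixOrder

theorem mat_factor {A : Matrix (Fin n) (Fin n) ℂ} (hA : A.PosSemidef) :
    ∃ B : Matrix (Fin n) (Fin n) ℂ, A = Bᴴ * B := by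
  obtain ⟨B, hB⟩ := CStarAlgebra.nonneg_iff_eq_star_mul_self.mp hA.nonneg
  exact ⟨B, hB⟩

end

theorem mat_det_nonneg {A : Matrix (Fin n) (Fin n) ℂ} (hA : A.PosSemidef) :
    0 ≤ A.det.re ∧ A.det.im = 0 := by
  have h := hA.det_nonneg
  rw [Complex.le_def] at h
  exact ⟨h.1, h.2.symm⟩

theorem mat_adj_psd {A : Matrix (Fin n) (Fin n) ℂ} (hA : A.PosSemidef) :
    A.adjugate.PosSemidef := by
  obtain ⟨B, rfl⟩ := mat_factor hA
  rw [adjugate_mul_distrib, ← adjugate_conjTranspose]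
  exact posSemidef_self_mul_conjTranspose _

theorem mat_trace_mul {A B : Matrix (Fin n) (Fin n) ℂ} (hA : A.PosSemidef) (hB : B.PosSemidef) :
    0 ≤ ((A * B).trace).re := by
  obtain ⟨C, rfl⟩ := mat_factor hA
  have h : (Cᴴ * C * B).trace = (C * B * Cᴴ).trace := by
    rw [Matrix.mul_assoc, Matrix.trace_mul_comm]
  rw [h]
  have h2 := (hB.mul_mul_conjTranspose_same C).trace_nonneg
  rw [Complex.le_def] at h2
  exact h2.1

/-- Jacobi's formula, complex version -/
theorem mat_det_deriv_aux (A B : Matrix (Fin n) (Fin n) ℂ) (s : ℝ) :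
    HasDerivAt (fun s : ℝ => (A + (s : ℂ) • B).det)
      (((A + (s : ℂ) • B).adjugate * B).trace) s := by
  have h1 : ∀ i j, HasDerivAt (fun s : ℝ => (A + (s : ℂ) • B) i j) (B i j) s := by
    intro i j
    have h2 : HasDerivAt (fun s : ℝ => (s : ℂ)) 1 s := Complex.ofRealCLM.hasDerivAt
    have h3 := (h2.mul_const (B i j)).const_add (A i j)
    simpa using h3
  have h4 : HasDerivAt (fun s : ℝ => (A + (s : ℂ) • B).det)
      (∑ σ : Equiv.Perm (Fin n), ((Equiv.Perm.sign σ : ℤ) : ℂ) *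
        ∑ i : Fin n, (∏ j ∈ Finset.univ.erase i, (A + (s : ℂ) • B) (σ j) j) * B (σ i) i) s := by
    have h5 : (fun s : ℝ => (A + (s : ℂ) • B).det) = fun s : ℝ =>
        ∑ σ : Equiv.Perm (Fin n), ((Equiv.Perm.sign σ : ℤ) : ℂ) *
          ∏ i, (A + (s : ℂ) • B) (σ i) i := by
      funext t
      rw [Matrix.det_apply']
    rw [h5]
    apply HasDerivAt.fun_sum
    intro σ _
    apply HasDerivAt.const_mul
    have h6 := HasDerivAt.fun_finsetProd (u := Finset.univ) (x := s)
      (f := fun i (s : ℝ) => (A + (s : ℂ) • B) (σ i) i) (f' := fun i => B (σ i) i)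
      (fun i _ => h1 (σ i) i)
    simpa [smul_eq_mul] using h6
  convert h4 using 1
  generalize A + (s : ℂ) • B = M
  have h7 : (M.adjugate * B).trace = ∑ i, (M.updateCol i (fun k => B k i)).det := by
    rw [Matrix.trace]
    apply Finset.sum_congr rfl
    intro i _
    rw [Matrix.diag_apply, ← Matrix.cramer_apply, Matrix.cramer_eq_adjugate_mulVec]
    rfl
  rw [h7]
  have h8 : ∀ i, (M.updateCol i (fun k => B k i)).det =
      ∑ σ : Equiv.Perm (Fin n), ((Equiv.Perm.sign σ : ℤ) : ℂ) *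
        ((∏ j ∈ Finset.univ.erase i, M (σ j) j) * B (σ i) i) := by
    intro i
    rw [Matrix.det_apply']
    apply Finset.sum_congr rfl
    intro σ _
    congr 1
    rw [← Finset.prod_erase_mul _ _ (Finset.mem_univ i)]
    congr 1
    · apply Finset.prod_congr rfl
      intro j hj
      rw [Matrix.updateCol_ne (Finset.ne_of_mem_erase hj)]
    · rw [Matrix.updateCol_self]
  simp_rw [h8]
  rw [Finset.sum_comm]
  apply Finset.sum_congr rfl
  intro σ _
  rw [Finset.mul_sum]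

/-- Jacobi's formula -/
theorem mat_det_deriv (A B : Matrix (Fin n) (Fin n) ℂ) (s : ℝ) :
    HasDerivAt (fun s : ℝ => (A + (s : ℂ) • B).det.re)
      (((A + (s : ℂ) • B).adjugate * B).trace).re s := by
  have h := mat_det_deriv_aux A B s
  exact (Complex.reCLM.hasFDerivAt (x := (A + (s : ℂ) • B).det)).comp_hasDerivAt s h

theorem mat_smul_psd {A : Matrix (Fin n) (Fin n) ℂ} (hA : A.PosSemidef) {s : ℝ} (hs : 0 ≤ s) :
    ((s : ℂ) • A).PosSemidef := by
  apply hA.smul
  exact_mod_cast hs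

theorem mat_det_mvt (A B : Matrix (Fin n) (Fin n) ℂ) :
    ∃ s : ℝ, 0 < s ∧ s < 1 ∧
      (A + B).det.re - A.det.re = (((A + (s : ℂ) • B).adjugate * B).trace).re := by
  obtain ⟨s, hs, h⟩ := exists_hasDerivAt_eq_slope (fun s : ℝ => (A + (s : ℂ) • B).det.re)
    (fun s : ℝ => (((A + (s : ℂ) • B).adjugate * B).trace).re) (a := 0) (b := 1) one_pos
    (fun x _ => (mat_det_deriv A B x).continuousAt.continuousWithinAt)
    (fun x _ => mat_det_deriv A B x)
  refine ⟨s, hs.1, hs.2, ?_⟩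
  rw [h]
  simp

theorem mat_det_mono {A B : Matrix (Fin n) (Fin n) ℂ} (hA : A.PosSemidef) (hB : B.PosSemidef) :
    A.det.re ≤ (A + B).det.re := by
  obtain ⟨s, h0, h1, h⟩ := mat_det_mvt A B
  have h2 := mat_trace_mul (mat_adj_psd (hA.add (mat_smul_psd hB h0.le))) hB
  linarith

/-- bound for the mixed term -/
theorem mat_trace_adj {A H : Matrix (Fin n) (Fin n) ℂ} (hA : A.PosSemidef) {c : ℝ}
    (h1 : ((c : ℂ) • (1 : Matrix (Fin n) (Fin n) ℂ) - H).PosSemidef)
    (h2 : ((c : ℂ) • (1 : Matrix (Fin n) (Fin n) ℂ) + H).PosSemidef) :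
    |((A.adjugate * H).trace).re| ≤ c * (A.adjugate.trace).re := by
  have h3 := mat_trace_mul (mat_adj_psd hA) h1
  have h4 := mat_trace_mul (mat_adj_psd hA) h2
  rw [Matrix.mul_sub, Matrix.trace_sub, Matrix.mul_smul, Matrix.mul_one, Matrix.trace_smul] at h3
  rw [Matrix.mul_add, Matrix.trace_add, Matrix.mul_smul, Matrix.mul_one, Matrix.trace_smul] at h4
  rw [abs_le]
  simp only [smul_eq_mul, Complex.sub_re, Complex.add_re, Complex.re_ofReal_mul] at h3 h4
  constructor <;> linarith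

theorem mat_trace_adj_mono {A : Matrix (Fin n) (Fin n) ℂ} (hA : A.PosSemidef) {s : ℝ}
    (hs : 0 ≤ s) :
    (A.adjugate.trace).re ≤
      ((A + (s : ℂ) • (1 : Matrix (Fin n) (Fin n) ℂ)).adjugate.trace).re := by
  rcases n with _ | m
  · simp [Matrix.trace]
  · rw [Matrix.trace, Matrix.trace, Complex.re_sum, Complex.re_sum]
    apply Finset.sum_le_sum
    intro i _
    rw [Matrix.diag_apply, Matrix.diag_apply, adjugate_fin_succ_eq_det_submatrix,
      adjugate_fin_succ_eq_det_submatrix]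
    have h1 : ((-1 : ℂ)) ^ ((i : ℕ) + (i : ℕ)) = 1 := by
      rw [← two_mul, pow_mul]; norm_num
    rw [h1, one_mul, one_mul]
    have h2 : (A + (s : ℂ) • (1 : Matrix (Fin (m + 1)) (Fin (m + 1)) ℂ)).submatrix
        i.succAbove i.succAbove = A.submatrix i.succAbove i.succAbove +
          (s : ℂ) • (1 : Matrix (Fin m) (Fin m) ℂ) := by
      rw [Matrix.submatrix_add, Pi.add_apply, Pi.add_apply, Matrix.submatrix_smul]
      congr 1
      rw [Pi.smul_apply, Pi.smul_apply]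
      rw [Matrix.submatrix_one _ Fin.succAbove_right_injective]
    rw [h2]
    exact mat_det_mono (hA.submatrix _) (mat_smul_psd Matrix.PosSemidef.one hs)

theorem mat_trace_adj_le {A : Matrix (Fin n) (Fin n) ℂ} (hA : A.PosSemidef) :
    0 ≤ (A.adjugate.trace).re ∧ (A.adjugate.trace).re ≤ (A + 1).det.re := by
  constructor
  · have h := (mat_adj_psd hA).trace_nonneg
    rw [Complex.le_def] at h
    exact h.1
  · obtain ⟨s, h0, h1, h⟩ := mat_det_mvt A 1
    rw [Matrix.mul_one] at h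
    have h2 := mat_trace_adj_mono hA h0.le
    have h3 := (mat_det_nonneg hA).1
    linarith

theorem mat_det_convex {A B : Matrix (Fin n) (Fin n) ℂ} (hA : A.PosSemidef) (hB : B.PosSemidef)
    {s : ℝ} (h0 : 0 ≤ s) (h1 : s ≤ 1) :
    s ^ n * B.det.re ≤ (((1 - s : ℝ) : ℂ) • A + (s : ℂ) • B).det.re := by
  have h2 := mat_det_mono (mat_smul_psd hB h0) (mat_smul_psd hA (sub_nonneg.2 h1))
  rw [add_comm, Matrix.det_smul, Fintype.card_fin, ← Complex.ofReal_pow,
    Complex.re_ofReal_mul] at h2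
  exact h2

theorem mat_star_det (M : Matrix (Fin n) (Fin n) ℂ) :
    M.det * (Mᴴ).det = ((‖M.det‖ ^ 2 : ℝ) : ℂ) := by
  rw [Matrix.det_conjTranspose]
  have := Complex.mul_conj M.det
  rw [Complex.normSq_eq_norm_sq] at this
  exact this

theorem mat_det_conj (M A : Matrix (Fin n) (Fin n) ℂ) :
    (M * A * Mᴴ).det = ((‖M.det‖ ^ 2 : ℝ) : ℂ) * A.det := by
  rw [Matrix.det_mul, Matrix.det_mul, ← mat_star_det]
  ring

theorem mat_adj_conj (M A B : Matrix (Fin n) (Fin n) ℂ) :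
    ((M * A * Mᴴ).adjugate * (M * B * Mᴴ)).trace =
      ((‖M.det‖ ^ 2 : ℝ) : ℂ) * (A.adjugate * B).trace := by
  have h1 : (M * A * Mᴴ).adjugate * (M * B * Mᴴ) =
      M.det • ((Mᴴ).adjugate * ((A.adjugate * B) * Mᴴ)) := by
    rw [adjugate_mul_distrib, adjugate_mul_distrib]
    calc (Mᴴ).adjugate * (A.adjugate * M.adjugate) * (M * B * Mᴴ)
        = (Mᴴ).adjugate * A.adjugate * (M.adjugate * M) * (B * Mᴴ) := by
          simp only [Matrix.mul_assoc]
      _ = _ := by
          rw [adjugate_mul, Matrix.mul_smul, Matrix.mul_one, Matrix.smul_mul]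
          simp only [Matrix.mul_assoc]
  rw [h1, Matrix.trace_smul, Matrix.trace_mul_comm, Matrix.mul_assoc, Matrix.mul_adjugate,
    Matrix.mul_smul, Matrix.mul_one, Matrix.trace_smul, ← mat_star_det, smul_eq_mul, smul_eq_mul,
    mul_assoc]

theorem mat_quad_bound {H : Matrix (Fin n) (Fin n) ℂ} {c : ℝ} (hc : ∀ i j, ‖H i j‖ ≤ c)
    (x : Fin n → ℂ) : ‖star x ⬝ᵥ (H *ᵥ x)‖ ≤ n * c * ∑ i, ‖x i‖ ^ 2 := by
  rcases n with _ | m
  · simp
  have hc0 : 0 ≤ c := (norm_nonneg _).trans (hc 0 0)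
  have h1 : ‖star x ⬝ᵥ (H *ᵥ x)‖ ≤ ∑ i, ∑ j, ‖x i‖ * (c * ‖x j‖) := by
    rw [dotProduct]
    refine (norm_sum_le _ _).trans (Finset.sum_le_sum fun i _ => ?_)
    rw [norm_mul, Pi.star_apply, norm_star, ← Finset.mul_sum]
    refine mul_le_mul_of_nonneg_left ?_ (norm_nonneg _)
    rw [mulVec, dotProduct]
    refine (norm_sum_le _ _).trans (Finset.sum_le_sum fun j _ => ?_)
    rw [norm_mul]
    exact mul_le_mul_of_nonneg_right (hc i j) (norm_nonneg _)
  have h2 : ∑ i, ∑ j, ‖x i‖ * (c * ‖x j‖) = c * (∑ i, ‖x i‖) ^ 2 := by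
    simp_rw [← Finset.mul_sum]
    rw [← Finset.sum_mul]
    ring
  have h3 : (∑ i, ‖x i‖) ^ 2 ≤ (m + 1 : ℕ) * ∑ i, ‖x i‖ ^ 2 := by
    have := sq_sum_le_card_mul_sum_sq (s := (Finset.univ : Finset (Fin (m + 1))))
      (f := fun i => ‖x i‖)
    simpa using this
  calc ‖star x ⬝ᵥ (H *ᵥ x)‖ ≤ c * (∑ i, ‖x i‖) ^ 2 := h2 ▸ h1
    _ ≤ c * ((m + 1 : ℕ) * ∑ i, ‖x i‖ ^ 2) := mul_le_mul_of_nonneg_left h3 hc0
    _ = _ := by ring

theorem mat_herm_bound {H : Matrix (Fin n) (Fin n) ℂ} (hH : H.IsHermitian) {c : ℝ}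
    (hc : ∀ i j, ‖H i j‖ ≤ c) :
    (((n * c : ℝ) : ℂ) • (1 : Matrix (Fin n) (Fin n) ℂ) - H).PosSemidef ∧
      (((n * c : ℝ) : ℂ) • (1 : Matrix (Fin n) (Fin n) ℂ) + H).PosSemidef := by
  have key : ∀ G : Matrix (Fin n) (Fin n) ℂ, G.IsHermitian → (∀ i j, ‖G i j‖ ≤ c) →
      (((n * c : ℝ) : ℂ) • (1 : Matrix (Fin n) (Fin n) ℂ) + G).PosSemidef := by
    intro G hG hcG
    have h1 : (((n * c : ℝ) : ℂ) • (1 : Matrix (Fin n) (Fin n) ℂ)).IsHermitian := by
      rw [Matrix.IsHermitian, Matrix.conjTranspose_smul, Matrix.conjTranspose_one]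
      simp
    have hherm := h1.add hG
    refine Matrix.PosSemidef.of_dotProduct_mulVec_nonneg hherm fun x => ?_
    have him : (star x ⬝ᵥ (G *ᵥ x)).im = 0 := by
      have h5 := hG.im_star_dotProduct_mulVec_self x
      simpa using h5
    have h6 : star x ⬝ᵥ ((((n * c : ℝ) : ℂ) • (1 : Matrix (Fin n) (Fin n) ℂ) + G) *ᵥ x) =
        ((n * c * ∑ i, ‖x i‖ ^ 2 : ℝ) : ℂ) + star x ⬝ᵥ (G *ᵥ x) := by
      rw [Matrix.add_mulVec, dotProduct_add, Matrix.smul_mulVec, Matrix.one_mulVec,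
        dotProduct_smul]
      congr 1
      rw [smul_eq_mul, Complex.ofReal_mul (n * c) (∑ i, ‖x i‖ ^ 2)]
      congr 1
      rw [dotProduct, Complex.ofReal_sum]
      apply Finset.sum_congr rfl
      intro i _
      rw [Pi.star_apply, mul_comm]
      have := Complex.mul_conj (x i)
      rw [Complex.normSq_eq_norm_sq] at this
      exact this
    rw [h6, Complex.le_def]
    constructor
    · rw [Complex.zero_re, Complex.add_re, Complex.ofReal_re]
      have h7 := mat_quad_bound hcG x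
      have h8 := Complex.abs_re_le_norm (star x ⬝ᵥ (G *ᵥ x))
      have h9 := neg_abs_le (star x ⬝ᵥ (G *ᵥ x)).re
      linarith
    · rw [Complex.zero_im, Complex.add_im, Complex.ofReal_im, him, add_zero]
  refine ⟨?_, key H hH hc⟩
  rw [sub_eq_add_neg]
  exact key (-H) hH.neg (fun i j => by rw [Matrix.neg_apply, norm_neg]; exact hc i j)

end HMA

end S_KM_Mat

section S_MA_Submean

/-! # Module SUBM: weighted sub-mean value inequality for `|f|²`, `f` entire -/

open MeasureTheory Metric Set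
open scoped ENNReal Topology ContDiff

namespace HMA

/-- multiplication by `exp (iθ)` as a real linear isometry -/
noncomputable def Submean_rot (n : ℕ) (θ : ℝ) : Cn n ≃ₗᵢ[ℝ] Cn n :=
  { (LinearEquiv.smulOfNeZero ℂ (Cn n) (Complex.exp (θ * Complex.I))
      (Complex.exp_ne_zero _)).restrictScalars ℝ with
    norm_map' := by
      intro x
      show ‖Complex.exp (θ * Complex.I) • x‖ = ‖x‖
      rw [norm_smul, Complex.norm_exp_ofReal_mul_I, one_mul] }

theorem Submean_rot_apply (n : ℕ) (θ : ℝ) (x : Cn n) :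
    Submean_rot n θ x = Complex.exp (θ * Complex.I) • x := rfl

theorem Submean_lintegral_rot {n : ℕ} (θ : ℝ) {G : Cn n → ℝ≥0∞} (hG : Measurable G) :
    ∫⁻ x, G (Complex.exp (θ * Complex.I) • x) = ∫⁻ x, G x :=
  (Submean_rot n θ).measurePreserving.lintegral_comp hG

theorem Submean_circle {n : ℕ} {f : Cn n → ℂ} {y x : Cn n} {ρ : ℝ}
    (hf : DifferentiableOn ℂ f (ball y ρ)) (hx : ‖x‖ < ρ) :
    ENNReal.ofReal (‖f y‖ ^ 2) * ENNReal.ofReal (2 * Real.pi) ≤
      ∫⁻ θ in Ioc (0 : ℝ) (2 * Real.pi),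
        ENNReal.ofReal (‖f (y + Complex.exp (θ * Complex.I) • x)‖ ^ 2) := by
  have hmem : ∀ ζ : ℂ, ‖ζ‖ ≤ 1 → y + ζ • x ∈ ball y ρ := by
    intro ζ hζ
    rw [mem_ball, dist_eq_norm, add_sub_cancel_left, norm_smul]
    have h1 : ‖ζ‖ * ‖x‖ ≤ 1 * ‖x‖ := mul_le_mul_of_nonneg_right hζ (norm_nonneg x)
    linarith
  have hd : DifferentiableOn ℂ (fun ζ : ℂ => f (y + ζ • x) ^ 2) (closedBall 0 1) := by
    apply DifferentiableOn.pow
    refine hf.comp ?_ ?_
    · exact (differentiable_const y).differentiableOn.add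
        ((differentiable_id.smul_const x).differentiableOn)
    · intro ζ hζ
      exact hmem ζ (by simpa using hζ)
  have hdc : DiffContOnCl ℂ (fun ζ : ℂ => f (y + ζ • x) ^ 2) (ball 0 |1|) := by
    apply DifferentiableOn.diffContOnCl
    rw [abs_one, closure_ball _ one_ne_zero]
    exact hd
  have hav := hdc.circleAverage
  have hpi : (0 : ℝ) < 2 * Real.pi := by positivity
  have hcm : ∀ θ : ℝ, circleMap 0 1 θ = Complex.exp (θ * Complex.I) := by
    intro θ
    simp [circleMap]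
  have hcont : Continuous fun θ : ℝ => f (y + Complex.exp (θ * Complex.I) • x) := by
    rw [← continuousOn_univ]
    refine hf.continuousOn.comp (Continuous.continuousOn (by fun_prop)) ?_
    intro θ _
    exact hmem _ (by rw [Complex.norm_exp_ofReal_mul_I])
  have hreal : ‖f y‖ ^ 2 * (2 * Real.pi) ≤
      ∫ θ in (0 : ℝ)..(2 * Real.pi), ‖f (y + Complex.exp (θ * Complex.I) • x)‖ ^ 2 := by
    have h1 : f y ^ 2 = (2 * Real.pi)⁻¹ • ∫ θ in (0 : ℝ)..(2 * Real.pi),
        f (y + Complex.exp (θ * Complex.I) • x) ^ 2 := by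
      have h2 := hav
      unfold Real.circleAverage at h2
      simp only [hcm, zero_smul, add_zero] at h2
      exact h2.symm
    have h3 : ‖f y‖ ^ 2 = (2 * Real.pi)⁻¹ * ‖∫ θ in (0 : ℝ)..(2 * Real.pi),
        f (y + Complex.exp (θ * Complex.I) • x) ^ 2‖ := by
      rw [← norm_pow, h1, norm_smul, Real.norm_of_nonneg (by positivity)]
    have h4 : ‖∫ θ in (0 : ℝ)..(2 * Real.pi), f (y + Complex.exp (θ * Complex.I) • x) ^ 2‖ ≤
        ∫ θ in (0 : ℝ)..(2 * Real.pi), ‖f (y + Complex.exp (θ * Complex.I) • x)‖ ^ 2 := by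
      refine (intervalIntegral.norm_integral_le_integral_norm hpi.le).trans (le_of_eq ?_)
      simp only [norm_pow]
    rw [h3, inv_mul_eq_div, div_mul_cancel₀ _ hpi.ne']
    exact h4
  rw [← ENNReal.ofReal_mul (by positivity)]
  refine (ENNReal.ofReal_le_ofReal hreal).trans (le_of_eq ?_)
  rw [intervalIntegral.integral_of_le hpi.le]
  apply ofReal_integral_eq_lintegral_ofReal
  · exact ((hcont.norm.pow 2).integrableOn_Icc).mono_set Ioc_subset_Icc_self
  · exact Filter.Eventually.of_forall fun θ => by positivity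

/-- `|f y|² ∫_{B(y,ρ)} w(|z-y|) ≤ ∫_{B(y,ρ)} |f|² w(|z-y|)` for `f` holomorphic on the ball -/
theorem sq_submean {n : ℕ} (f : Cn n → ℂ) (y : Cn n) {ρ : ℝ} (hρ : 0 < ρ)
    (hf : DifferentiableOn ℂ f (ball y ρ)) (w : ℝ → ℝ) (hw : Continuous w) (hw0 : ∀ t, 0 ≤ w t)
    (hi : IntegrableOn (fun z => ‖f z‖ ^ 2 * w ‖z - y‖) (ball y ρ) volume) :
    ‖f y‖ ^ 2 * (∫ z in ball y ρ, w ‖z - y‖) ≤ ∫ z in ball y ρ, ‖f z‖ ^ 2 * w ‖z - y‖ := by
  have hpre : (fun x : Cn n => y + x) ⁻¹' ball y ρ = ball 0 ρ := by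
    ext x
    simp [dist_eq_norm]
  have hmp : MeasurePreserving (fun x : Cn n => y + x) volume volume :=
    measurePreserving_add_left volume y
  have hme : MeasurableEmbedding (fun x : Cn n => y + x) := measurableEmbedding_addLeft y
  have h1 : ∫ z in ball y ρ, ‖f z‖ ^ 2 * w ‖z - y‖ =
      ∫ x in ball (0 : Cn n) ρ, ‖f (y + x)‖ ^ 2 * w ‖x‖ := by
    rw [← hmp.setIntegral_preimage_emb hme, hpre]
    simp only [add_sub_cancel_left]
  have h2 : ∫ z in ball y ρ, w ‖z - y‖ = ∫ x in ball (0 : Cn n) ρ, w ‖x‖ := by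
    rw [← hmp.setIntegral_preimage_emb hme, hpre]
    simp only [add_sub_cancel_left]
  have hi' : IntegrableOn (fun x => ‖f (y + x)‖ ^ 2 * w ‖x‖) (ball (0 : Cn n) ρ) volume := by
    have h3 := (hmp.integrableOn_comp_preimage hme).2 hi
    rw [hpre] at h3
    refine h3.congr_fun (fun x _ => ?_) measurableSet_ball
    simp only [Function.comp_apply, add_sub_cancel_left]
  have hiw : IntegrableOn (fun x : Cn n => w ‖x‖) (ball (0 : Cn n) ρ) volume := by
    have h3 : IntegrableOn (fun x : Cn n => w ‖x‖) (closedBall (0 : Cn n) ρ) volume :=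
      (hw.comp continuous_norm).continuousOn.integrableOn_compact (isCompact_closedBall 0 ρ)
    exact h3.mono_set ball_subset_closedBall
  rw [h1, h2]
  -- the extended function
  have hF : Measurable ((ball (0 : Cn n) ρ).indicator fun x => ‖f (y + x)‖ ^ 2) := by
    have hc : ContinuousOn (fun x => ‖f (y + x)‖ ^ 2) (ball (0 : Cn n) ρ) := by
      apply ContinuousOn.pow
      apply ContinuousOn.norm
      refine hf.continuousOn.comp (Continuous.continuousOn (by fun_prop)) ?_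
      intro x hx
      have : x ∈ (fun x : Cn n => y + x) ⁻¹' ball y ρ := by rw [hpre]; exact hx
      exact this
    classical
    have h3 := hc.measurable_piecewise (g := fun _ => (0 : ℝ)) continuousOn_const
      measurableSet_ball
    exact h3
  set F : Cn n → ℝ := (ball (0 : Cn n) ρ).indicator fun x => ‖f (y + x)‖ ^ 2 with hFdef
  have hG : Measurable fun x => ENNReal.ofReal (F x) * ENNReal.ofReal (w ‖x‖) :=
    (ENNReal.measurable_ofReal.comp hF).mul
      (ENNReal.measurable_ofReal.comp (hw.comp continuous_norm).measurable)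
  set G : Cn n → ℝ≥0∞ := fun x => ENNReal.ofReal (F x) * ENNReal.ofReal (w ‖x‖) with hGdef
  have hpi : (0 : ℝ) < 2 * Real.pi := by positivity
  have key : ENNReal.ofReal (‖f y‖ ^ 2) * ∫⁻ x in ball (0 : Cn n) ρ, ENNReal.ofReal (w ‖x‖) ≤
      ∫⁻ x, G x := by
    have h3 : ENNReal.ofReal (2 * Real.pi) * ∫⁻ x, G x =
        ∫⁻ x, ∫⁻ θ in Ioc (0 : ℝ) (2 * Real.pi), G (Complex.exp (θ * Complex.I) • x) := by
      rw [lintegral_lintegral_swap]
      · simp only [Submean_lintegral_rot _ hG]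
        rw [lintegral_const, Measure.restrict_apply MeasurableSet.univ, univ_inter,
          Real.volume_Ioc, sub_zero, mul_comm]
      · apply Measurable.aemeasurable
        apply hG.comp
        have : Continuous fun q : Cn n × ℝ => Complex.exp (q.2 * Complex.I) • q.1 := by fun_prop
        exact this.measurable
    have h4 : ∀ x : Cn n, (ball (0 : Cn n) ρ).indicator (fun x => ENNReal.ofReal (w ‖x‖) *
        (ENNReal.ofReal (‖f y‖ ^ 2) * ENNReal.ofReal (2 * Real.pi))) x ≤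
        ∫⁻ θ in Ioc (0 : ℝ) (2 * Real.pi), G (Complex.exp (θ * Complex.I) • x) := by
      intro x
      by_cases hx : x ∈ ball (0 : Cn n) ρ
      · rw [indicator_of_mem hx]
        have hx' : ‖x‖ < ρ := by simpa using hx
        have h5 : ∀ θ : ℝ, G (Complex.exp (θ * Complex.I) • x) =
            ENNReal.ofReal (‖f (y + Complex.exp (θ * Complex.I) • x)‖ ^ 2) *
              ENNReal.ofReal (w ‖x‖) := by
          intro θ
          have hn : ‖Complex.exp (θ * Complex.I) • x‖ = ‖x‖ := by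
            rw [norm_smul, Complex.norm_exp_ofReal_mul_I, one_mul]
          rw [hGdef]
          simp only
          rw [hFdef, indicator_of_mem (by simpa [hn] using hx'), hn]
        simp only [h5]
        rw [lintegral_mul_const' _ _ ENNReal.ofReal_ne_top, mul_comm]
        exact mul_le_mul_left (Submean_circle hf hx') _
      · rw [indicator_of_notMem hx]
        exact zero_le
    have h6 := lintegral_mono (μ := (volume : Measure (Cn n))) h4
    rw [← h3, lintegral_indicator measurableSet_ball, lintegral_mul_const' _ _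
      (ENNReal.mul_ne_top ENNReal.ofReal_ne_top ENNReal.ofReal_ne_top)] at h6
    have h7 : ENNReal.ofReal (2 * Real.pi) ≠ 0 := by
      rw [Ne, ENNReal.ofReal_eq_zero]
      push Not
      exact hpi
    rw [← ENNReal.mul_le_mul_iff_right h7 ENNReal.ofReal_ne_top]
    refine le_trans (le_of_eq ?_) h6
    ring
  have h8 : ∫⁻ x, G x = ∫⁻ x in ball (0 : Cn n) ρ, ENNReal.ofReal (‖f (y + x)‖ ^ 2 * w ‖x‖) := by
    rw [← lintegral_indicator measurableSet_ball]
    apply lintegral_congr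
    intro x
    by_cases hx : x ∈ ball (0 : Cn n) ρ
    · rw [indicator_of_mem hx, hGdef]
      simp only
      rw [hFdef, indicator_of_mem hx, ← ENNReal.ofReal_mul (by positivity)]
    · rw [indicator_of_notMem hx, hGdef]
      simp only
      rw [hFdef, indicator_of_notMem hx, ENNReal.ofReal_zero, zero_mul]
  rw [h8] at key
  rw [integral_eq_lintegral_of_nonneg_ae (Filter.Eventually.of_forall fun x => hw0 _)
    hiw.aestronglyMeasurable, integral_eq_lintegral_of_nonneg_ae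
    (Filter.Eventually.of_forall fun x => mul_nonneg (by positivity) (hw0 _))
    hi'.aestronglyMeasurable]
  have h9 := ENNReal.toReal_mono (Integrable.lintegral_lt_top hi').ne key
  rw [ENNReal.toReal_mul, ENNReal.toReal_ofReal (by positivity)] at h9
  exact h9

theorem sq_le_ball (n : ℕ) : ∃ K : ℝ, 0 < K ∧ ∀ (f : Cn n → ℂ) (z : Cn n) (ρ : ℝ),
    Differentiable ℂ f → 0 < ρ → ‖f z‖ ^ 2 ≤ K * (ρ ^ (2 * n))⁻¹ * ∫ x in ball z ρ, ‖f x‖ ^ 2 := by
  have hv : 0 < volume.real (ball (0 : Cn n) 1) := by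
    rw [Measure.real, ENNReal.toReal_pos_iff]
    exact ⟨measure_ball_pos _ _ one_pos, measure_ball_lt_top⟩
  refine ⟨(volume.real (ball (0 : Cn n) 1))⁻¹, inv_pos.2 hv, fun f z ρ hf hρ => ?_⟩
  have hfc : Continuous f := hf.continuous
  have h1 := sq_submean f z hρ hf.differentiableOn (fun _ => 1) continuous_const
    (fun _ => zero_le_one) (by
      simp only [mul_one]
      have h3 : IntegrableOn (fun x : Cn n => ‖f x‖ ^ 2) (closedBall z ρ) volume :=
        (hfc.norm.pow 2).continuousOn.integrableOn_compact (isCompact_closedBall z ρ)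
      exact h3.mono_set ball_subset_closedBall)
  simp only [mul_one] at h1
  rw [setIntegral_const, smul_eq_mul, mul_one] at h1
  have h2 : volume.real (ball z ρ) = ρ ^ (2 * n) * volume.real (ball (0 : Cn n) 1) := by
    have h3 := Measure.addHaar_ball_of_pos (volume : Measure (Cn n)) z hρ
    rw [Measure.real, h3, ENNReal.toReal_mul, ENNReal.toReal_ofReal (by positivity),
      finrank_real_of_complex, finrank_euclideanSpace_fin]
    rfl
  rw [h2] at h1
  have hρn : 0 < ρ ^ (2 * n) := by positivity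
  have h4 : ‖f z‖ ^ 2 = (volume.real (ball (0 : Cn n) 1))⁻¹ * (ρ ^ (2 * n))⁻¹ *
      (‖f z‖ ^ 2 * (ρ ^ (2 * n) * volume.real (ball (0 : Cn n) 1))) := by
    field_simp
  rw [h4]
  exact mul_le_mul_of_nonneg_left h1 (by positivity)

end HMA

end S_MA_Submean

section S_MA_Liouv

/-! # Module LIOUV: entire `L²` functions with polynomial weights are polynomials -/

open MeasureTheory Metric Set
open scoped ENNReal Topology ContDiff

namespace HMA

theorem liouv_deriv_zero {g : ℂ → ℂ} (hg : Differentiable ℂ g) {C : ℝ} {M : ℕ}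
    (hb : ∀ t, ‖g t‖ ≤ C * (1 + ‖t‖) ^ M) {k : ℕ} (hk : M < k) : iteratedDeriv k g 0 = 0 := by
  have hC : 0 ≤ C := by
    have := (norm_nonneg _).trans (hb 0)
    simpa using this
  have h1 : ∀ R : ℝ, 1 ≤ R → ‖iteratedDeriv k g 0‖ ≤ (k.factorial * (C * 2 ^ M)) / R := by
    intro R hR
    have hR0 : 0 < R := by linarith
    have h2 : ‖iteratedDeriv k g 0‖ ≤ k.factorial * (C * (2 * R) ^ M) / R ^ k := by
      apply Complex.norm_iteratedDeriv_le_of_forall_mem_sphere_norm_le k hR0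
        hg.diffContOnCl
      intro z hz
      refine (hb z).trans ?_
      have hz' : ‖z‖ = R := by simpa using hz
      rw [hz']
      gcongr
      linarith
    refine h2.trans ?_
    obtain ⟨j, rfl⟩ : ∃ j, k = M + 1 + j := ⟨k - (M + 1), by omega⟩
    rw [div_le_div_iff₀ (by positivity) hR0, mul_pow]
    have h3 : R ^ M * R ≤ R ^ (M + 1 + j) := by
      rw [← pow_succ]
      exact pow_le_pow_right₀ hR (by omega)
    calc ((M + 1 + j).factorial : ℝ) * (C * (2 ^ M * R ^ M)) * R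
        = (((M + 1 + j).factorial : ℝ) * (C * 2 ^ M)) * (R ^ M * R) := by ring
      _ ≤ _ := mul_le_mul_of_nonneg_left h3 (by positivity)
  by_contra hne
  have hpos : 0 < ‖iteratedDeriv k g 0‖ := norm_pos_iff.mpr hne
  set K : ℝ := (k.factorial * (C * 2 ^ M)) with hK
  have hK0 : 0 ≤ K := by positivity
  have h4 := h1 (K / ‖iteratedDeriv k g 0‖ + 1) (by
    have : 0 ≤ K / ‖iteratedDeriv k g 0‖ := by positivity
    linarith)
  rw [le_div_iff₀ (by positivity), mul_add, mul_div_cancel₀ _ hpos.ne'] at h4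
  linarith

theorem liouv_one {g : ℂ → ℂ} (hg : Differentiable ℂ g) {C : ℝ} {M : ℕ}
    (hb : ∀ t, ‖g t‖ ≤ C * (1 + ‖t‖) ^ M) :
    ∃ p : Polynomial ℂ, p.natDegree ≤ M ∧ ∀ t, g t = p.eval t := by
  refine ⟨∑ k ∈ Finset.range (M + 1), Polynomial.C ((k.factorial : ℂ)⁻¹ * iteratedDeriv k g 0) *
    Polynomial.X ^ k, ?_, fun t => ?_⟩
  · refine Polynomial.natDegree_sum_le_of_forall_le _ _ fun k hk => ?_
    refine (Polynomial.natDegree_C_mul_X_pow_le _ _).trans ?_
    have := Finset.mem_range.1 hk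
    omega
  · rw [← Complex.taylorSeries_eq_of_entire' 0 t hg, Polynomial.eval_finsetSum]
    rw [tsum_eq_sum (s := Finset.range (M + 1))]
    · refine Finset.sum_congr rfl fun k _ => ?_
      simp
    · intro k hk
      rw [liouv_deriv_zero hg hb (by
        rw [Finset.mem_range] at hk
        omega)]
      simp


theorem liouv_mv {n M : ℕ} (F : (Fin n → ℂ) → ℂ)
    (h : ∀ (z : Fin n → ℂ) (j : Fin n), ∃ p : Polynomial ℂ, p.natDegree ≤ M ∧
      ∀ t, F (Function.update z j t) = p.eval t) :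
    ∃ P : MvPolynomial (Fin n) ℂ, ∀ z, F z = P.eval z := by
  classical
  have key : ∀ S : Finset (Fin n), ∃ (ι : Type) (_ : Fintype ι)
      (Q : ι → MvPolynomial (Fin n) ℂ) (c : ι → Fin n → ℂ),
      ∀ z, F z = ∑ i, (Q i).eval z * F (S.piecewise (c i) z) := by
    intro S
    induction S using Finset.induction_on with
    | empty =>
      refine ⟨Unit, inferInstance, fun _ => 1, fun _ => 0, fun z => ?_⟩
      simp
    | insert j S hj ih =>
      obtain ⟨ι, hι, Q, c, hQ⟩ := ih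
      let v : Fin (M + 1) → ℂ := fun k => (k : ℂ)
      have hv : Set.InjOn v (Finset.univ : Finset (Fin (M + 1))) := by
        intro a _ b _ hab
        have : ((a : ℕ) : ℂ) = ((b : ℕ) : ℂ) := hab
        exact Fin.ext (by exact_mod_cast this)
      refine ⟨ι × Fin (M + 1), inferInstance,
        fun x => Q x.1 * Polynomial.aeval (MvPolynomial.X j) (Lagrange.basis Finset.univ v x.2),
        fun x => Function.update (c x.1) j (v x.2), fun z => ?_⟩
      rw [hQ z, Fintype.sum_prod_type]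
      refine Finset.sum_congr rfl fun i _ => ?_
      obtain ⟨p, hp, hpe⟩ := h (S.piecewise (c i) z) j
      have hw : S.piecewise (c i) z j = z j := Finset.piecewise_eq_of_notMem _ _ _ hj
      have h1 : F (S.piecewise (c i) z) = p.eval (z j) := by
        rw [← hpe, ← hw, Function.update_eq_self]
      have h2 : p = Lagrange.interpolate Finset.univ v fun k => p.eval (v k) := by
        apply Lagrange.eq_interpolate hv
        rw [Finset.card_univ, Fintype.card_fin]
        calc p.degree ≤ p.natDegree := Polynomial.degree_le_natDegree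
          _ ≤ (M : WithBot ℕ) := by exact_mod_cast hp
          _ < _ := by exact_mod_cast Nat.lt_succ_self M
      rw [h1]
      conv_lhs => rw [h2]
      rw [Lagrange.interpolate_apply, Polynomial.eval_finsetSum, Finset.mul_sum]
      refine Finset.sum_congr rfl fun k _ => ?_
      have h3 : (insert j S).piecewise (Function.update (c i) j (v k)) z =
          Function.update (S.piecewise (c i) z) j (v k) := by
        funext l
        by_cases hl : l = j
        · subst hl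
          simp
        · by_cases hlS : l ∈ S
          · simp [hl, hlS, Finset.piecewise]
          · simp [hl, hlS, Finset.piecewise]
      rw [h3, hpe]
      have h4 : (Polynomial.aeval (MvPolynomial.X j : MvPolynomial (Fin n) ℂ)
          (Lagrange.basis Finset.univ v k)).eval z = (Lagrange.basis Finset.univ v k).eval (z j) := by
        rw [Polynomial.aeval_def, MvPolynomial.algebraMap_eq]
        generalize Lagrange.basis Finset.univ v k = b
        induction b using Polynomial.induction_on' with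
        | add p q hp hq => simp only [Polynomial.eval₂_add, map_add, hp, hq, Polynomial.eval_add]
        | monomial m a => simp
      rw [map_mul, h4]
      simp only [Polynomial.eval_mul, Polynomial.eval_C]
      ring
  obtain ⟨ι, hι, Q, c, hQ⟩ := key Finset.univ
  refine ⟨∑ i, MvPolynomial.C (F (c i)) * Q i, fun z => ?_⟩
  rw [hQ z, map_sum]
  refine Finset.sum_congr rfl fun i _ => ?_
  rw [map_mul, MvPolynomial.eval_C, Finset.piecewise_univ]
  ring

theorem liouv_hom {n i : ℕ} {φ : MvPolynomial (Fin n) ℂ} (hφ : φ.IsHomogeneous i) (t : ℂ)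
    (z : Fin n → ℂ) : φ.eval (t • z) = t ^ i * φ.eval z := by
  rw [MvPolynomial.eval_eq', MvPolynomial.eval_eq', Finset.mul_sum]
  refine Finset.sum_congr rfl fun d hd => ?_
  have h1 : d.degree = i := by
    have := hφ (MvPolynomial.mem_support_iff.1 hd)
    rw [← this, Finsupp.degree_eq_weight_one]
    rfl
  have h2 : ∏ j, (t • z) j ^ d j = t ^ i * ∏ j, z j ^ d j := by
    simp only [Pi.smul_apply, smul_eq_mul, mul_pow]
    rw [Finset.prod_mul_distrib, Finset.prod_pow_eq_pow_sum, ← h1, Finsupp.degree_eq_sum]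
  rw [h2]
  ring

theorem liouv_deg {n M : ℕ} (P : MvPolynomial (Fin n) ℂ)
    (h : ∀ z : Fin n → ℂ, ∃ p : Polynomial ℂ, p.natDegree ≤ M ∧
      ∀ t : ℂ, P.eval (t • z) = p.eval t) : P.totalDegree ≤ M := by
  classical
  by_contra hlt
  push Not at hlt
  set k := P.totalDegree with hk
  have hP : P ≠ 0 := by
    rintro rfl
    simp at hk
    omega
  have hne : MvPolynomial.homogeneousComponent k P ≠ 0 := by
    intro h0
    have := MvPolynomial.totalDegree_eq P
    obtain ⟨m, hm, hmk⟩ : ∃ m ∈ P.support, m.degree = k := by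
      have hs : P.support.Nonempty := by
        rwa [MvPolynomial.support_nonempty]
      obtain ⟨m, hm, hmax⟩ := Finset.exists_mem_eq_sup P.support hs
        (fun m => Multiset.card (Finsupp.toMultiset m))
      refine ⟨m, hm, ?_⟩
      rw [hk, MvPolynomial.totalDegree_eq, hmax, Finsupp.card_toMultiset]
      rfl
    have h1 : MvPolynomial.coeff m (MvPolynomial.homogeneousComponent k P) = 0 := by
      rw [h0]
      simp
    rw [MvPolynomial.coeff_homogeneousComponent, if_pos hmk] at h1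
    exact (MvPolynomial.mem_support_iff.1 hm) h1
  apply hne
  apply MvPolynomial.funext
  intro z
  obtain ⟨p, hp, hpe⟩ := h z
  have h1 : p = ∑ i ∈ Finset.range (k + 1),
      Polynomial.C ((MvPolynomial.homogeneousComponent i P).eval z) * Polynomial.X ^ i := by
    apply Polynomial.funext
    intro t
    rw [← hpe t, Polynomial.eval_finsetSum]
    conv_lhs => rw [← MvPolynomial.sum_homogeneousComponent P]
    rw [map_sum]
    refine Finset.sum_congr rfl fun i _ => ?_
    rw [Polynomial.eval_mul, Polynomial.eval_C, Polynomial.eval_pow, Polynomial.eval_X, mul_comm]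
    exact liouv_hom (MvPolynomial.homogeneousComponent_isHomogeneous i P) t z
  have h2 : p.coeff k = (MvPolynomial.homogeneousComponent k P).eval z := by
    rw [h1, Polynomial.finsetSum_coeff]
    rw [Finset.sum_eq_single k]
    · simp
    · intro b _ hb
      rw [Polynomial.coeff_C_mul, Polynomial.coeff_X_pow, if_neg (Ne.symm hb), mul_zero]
    · intro hb
      simp at hb
  rw [← h2, map_zero]
  exact Polynomial.coeff_eq_zero_of_natDegree_lt (by omega)


theorem liouv_growth {n M : ℕ} {f : Cn n → ℂ} (hf : Differentiable ℂ f)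
    (hi : Integrable (fun z => ‖f z‖ ^ 2 * ((1 + ‖z‖ ^ 2) ^ M)⁻¹) volume) :
    ∃ C : ℝ, ∀ z, ‖f z‖ ≤ C * (1 + ‖z‖) ^ M := by
  obtain ⟨K, hK, hsub⟩ := sq_le_ball n
  set I : ℝ := ∫ z, ‖f z‖ ^ 2 * ((1 + ‖z‖ ^ 2) ^ M)⁻¹ with hI
  have hI0 : 0 ≤ I := integral_nonneg fun z => by positivity
  refine ⟨Real.sqrt (K * 5 ^ M * I), fun z => ?_⟩
  have hρ : 0 < 1 + ‖z‖ := by positivity
  have h1 := hsub f z (1 + ‖z‖) hf hρ
  have h2 : ∫ x in ball z (1 + ‖z‖), ‖f x‖ ^ 2 ≤ (5 * (1 + ‖z‖) ^ 2) ^ M * I := by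
    have h3 : ∫ x in ball z (1 + ‖z‖), ‖f x‖ ^ 2 ≤
        ∫ x in ball z (1 + ‖z‖), (5 * (1 + ‖z‖) ^ 2) ^ M *
          (‖f x‖ ^ 2 * ((1 + ‖x‖ ^ 2) ^ M)⁻¹) := by
      apply setIntegral_mono_on _ _ measurableSet_ball
      · intro x hx
        have hx' : ‖x‖ ≤ 2 * ‖z‖ + 1 := by
          have := mem_ball.1 hx
          rw [dist_eq_norm] at this
          have h4 := norm_le_norm_add_norm_sub' x z
          linarith
        have h5 : 1 + ‖x‖ ^ 2 ≤ 5 * (1 + ‖z‖) ^ 2 := by
          have h6 : ‖x‖ ^ 2 ≤ (2 * ‖z‖ + 1) ^ 2 := pow_le_pow_left₀ (norm_nonneg _) hx' 2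
          nlinarith [norm_nonneg z]
        have h7 : (1 + ‖x‖ ^ 2) ^ M ≤ (5 * (1 + ‖z‖) ^ 2) ^ M :=
          pow_le_pow_left₀ (by positivity) h5 M
        have h8 : 0 < (1 + ‖x‖ ^ 2) ^ M := by positivity
        have h9 : 1 ≤ (5 * (1 + ‖z‖) ^ 2) ^ M * ((1 + ‖x‖ ^ 2) ^ M)⁻¹ := by
          rw [← div_eq_mul_inv, one_le_div h8]
          exact h7
        calc ‖f x‖ ^ 2 = ‖f x‖ ^ 2 * 1 := (mul_one _).symm
          _ ≤ ‖f x‖ ^ 2 * ((5 * (1 + ‖z‖) ^ 2) ^ M * ((1 + ‖x‖ ^ 2) ^ M)⁻¹) :=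
            mul_le_mul_of_nonneg_left h9 (by positivity)
          _ = _ := by ring
      · have hc : Continuous fun x => ‖f x‖ ^ 2 := hf.continuous.norm.pow 2
        exact (hc.continuousOn.integrableOn_compact (isCompact_closedBall z (1 + ‖z‖))).mono_set
          ball_subset_closedBall
      · exact (hi.const_mul _).integrableOn
    refine h3.trans ?_
    rw [integral_const_mul]
    apply mul_le_mul_of_nonneg_left _ (by positivity)
    rw [hI]
    exact setIntegral_le_integral hi (Filter.Eventually.of_forall fun x => by positivity)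
  have h3 : ‖f z‖ ^ 2 ≤ (K * 5 ^ M * I) * ((1 + ‖z‖) ^ M) ^ 2 := by
    refine h1.trans ?_
    have h4 : ((1 + ‖z‖) ^ (2 * n))⁻¹ ≤ 1 := by
      apply inv_le_one_of_one_le₀
      apply one_le_pow₀
      linarith [norm_nonneg z]
    have h5 : 0 ≤ ∫ x in ball z (1 + ‖z‖), ‖f x‖ ^ 2 := integral_nonneg fun x => by positivity
    calc K * ((1 + ‖z‖) ^ (2 * n))⁻¹ * ∫ x in ball z (1 + ‖z‖), ‖f x‖ ^ 2
        ≤ K * 1 * ((5 * (1 + ‖z‖) ^ 2) ^ M * I) := by
          gcongr
      _ = _ := by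
        rw [mul_pow, ← pow_mul, ← pow_mul, mul_comm 2 M]
        ring
  have h4 : ‖f z‖ = Real.sqrt (‖f z‖ ^ 2) := (Real.sqrt_sq (norm_nonneg _)).symm
  rw [h4]
  refine (Real.sqrt_le_sqrt h3).trans ?_
  rw [Real.sqrt_mul (by positivity), Real.sqrt_sq (by positivity)]

theorem liouv_line {n M : ℕ} {f : Cn n → ℂ} (hf : Differentiable ℂ f) {C : ℝ}
    (hC : ∀ z, ‖f z‖ ≤ C * (1 + ‖z‖) ^ M) (a b : Cn n) :
    ∃ p : Polynomial ℂ, p.natDegree ≤ M ∧ ∀ t : ℂ, f (a + t • b) = p.eval t := by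
  have hC0 : 0 ≤ C := by
    have := (norm_nonneg _).trans (hC 0)
    simpa using this
  refine liouv_one (g := fun t : ℂ => f (a + t • b)) (C := C * (1 + ‖a‖ + ‖b‖) ^ M) ?_ fun t => ?_
  · exact hf.comp ((differentiable_const _).add (differentiable_id.smul_const b))
  · refine (hC _).trans ?_
    rw [mul_assoc, ← mul_pow]
    have h1 : ‖a + t • b‖ ≤ ‖a‖ + ‖t‖ * ‖b‖ := by
      refine (norm_add_le _ _).trans ?_
      rw [norm_smul]
    have h2 : 1 + ‖a + t • b‖ ≤ (1 + ‖a‖ + ‖b‖) * (1 + ‖t‖) := by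
      nlinarith [norm_nonneg a, norm_nonneg b, norm_nonneg t,
        mul_nonneg (norm_nonneg t) (norm_nonneg a)]
    gcongr

theorem entire_poly {n M : ℕ} {f : Cn n → ℂ} (hf : Differentiable ℂ f)
    (hi : Integrable (fun z => ‖f z‖ ^ 2 * ((1 + ‖z‖ ^ 2) ^ M)⁻¹) volume) :
    ∃ P : MvPolynomial (Fin n) ℂ, P.totalDegree ≤ M ∧ ∀ z : Cn n, f z = ev P z := by
  obtain ⟨C, hC⟩ := liouv_growth hf hi
  obtain ⟨P, hP⟩ := liouv_mv (n := n) (M := M) (fun z => f (WithLp.toLp 2 z)) (by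
    intro z j
    obtain ⟨p, hp, hpe⟩ := liouv_line hf hC (WithLp.toLp 2 z) (EuclideanSpace.single j (1 : ℂ))
    refine ⟨p.comp (Polynomial.X - Polynomial.C (z j)), ?_, fun t => ?_⟩
    · rw [Polynomial.natDegree_comp, Polynomial.natDegree_X_sub_C, mul_one]
      exact hp
    · rw [Polynomial.eval_comp, Polynomial.eval_sub, Polynomial.eval_X, Polynomial.eval_C, ← hpe]
      show f _ = f _
      congr 1
      ext l
      by_cases hl : l = j
      · subst hl
        simp
      · simp [hl])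
  refine ⟨P, ?_, fun z => ?_⟩
  · apply liouv_deg
    intro z
    obtain ⟨p, hp, hpe⟩ := liouv_line hf hC 0 (WithLp.toLp 2 z)
    refine ⟨p, hp, fun t => ?_⟩
    rw [← hpe t, ← hP]
    show f _ = f _
    congr 1
    simp
  · exact hP (fun i => z i)

end HMA

end S_MA_Liouv

section S_MA_Pert1

/-! # Module PERT1: small perturbations with nonzero discriminant -/

open MeasureTheory Metric Set
open scoped ENNReal Topology ContDiff

namespace HMA

/-- the auxiliary polynomial -/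
noncomputable def Pert1_A {V : Type} [NormedAddCommGroup V] [InnerProductSpace ℂ V] (d : ℕ) (p e : V) (x : V) : ℂ :=
  ∏ j ∈ Finset.range d, ((inner ℂ p x : ℂ) - (j : ℂ) * (inner ℂ e x : ℂ))

theorem Pert1_hp {V : Type} [NormedAddCommGroup V] [InnerProductSpace ℂ V] (d : ℕ) (p e : V) :
    HP V d (Pert1_A d p e) := by
  have h := HP.prod (V := V) (Finset.range d) (d := fun _ => 1)
    (f := fun j x => (inner ℂ p x : ℂ) - (j : ℂ) * (inner ℂ e x : ℂ)) (by
      intro j _
      have h1 := HP.linear (((innerSL ℂ p) - (j : ℂ) • (innerSL ℂ e) : V →L[ℂ] ℂ) : V →ₗ[ℂ] ℂ)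
      exact h1)
  rw [Finset.sum_const, Finset.card_range, smul_eq_mul, mul_one] at h
  exact h

theorem Pert1_bound {V : Type} [NormedAddCommGroup V] [InnerProductSpace ℂ V] (d : ℕ) {p e : V}
    (hp : ‖p‖ = 1) (he : ‖e‖ = 1) (x : V) :
    ‖Pert1_A d p e x‖ ≤ (∏ j ∈ Finset.range d, (1 + (j : ℝ))) * ‖x‖ ^ d := by
  unfold Pert1_A
  rw [norm_prod]
  have h1 : (∏ j ∈ Finset.range d, (1 + (j : ℝ))) * ‖x‖ ^ d =
      ∏ j ∈ Finset.range d, ((1 + (j : ℝ)) * ‖x‖) := by
    rw [Finset.prod_mul_distrib, Finset.prod_const, Finset.card_range]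
  rw [h1]
  apply Finset.prod_le_prod
  · intro j _
    exact norm_nonneg _
  · intro j _
    refine (norm_sub_le _ _).trans ?_
    rw [norm_mul, Complex.norm_natCast]
    have h2 : ‖(inner ℂ p x : ℂ)‖ ≤ ‖x‖ := by
      have := norm_inner_le_norm (𝕜 := ℂ) p x
      rwa [hp, one_mul] at this
    have h3 : ‖(inner ℂ e x : ℂ)‖ ≤ ‖x‖ := by
      have := norm_inner_le_norm (𝕜 := ℂ) e x
      rwa [he, one_mul] at this
    have h4 : (j : ℝ) * ‖(inner ℂ e x : ℂ)‖ ≤ j * ‖x‖ := by gcongr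
    linarith

theorem Pert1_line {V : Type} [NormedAddCommGroup V] [InnerProductSpace ℂ V] (d : ℕ) {p e : V}
    (hp : ‖p‖ = 1) (he : ‖e‖ = 1) (hpe : inner ℂ p e = 0) (w : ℂ) :
    Pert1_A d p e (e + w • p) = ∏ j ∈ Finset.range d, (w - (j : ℂ)) := by
  unfold Pert1_A
  refine Finset.prod_congr rfl (fun j _ => ?_)
  have hep : inner ℂ e p = (0 : ℂ) := by
    rw [← inner_conj_symm, hpe, map_zero]
  rw [inner_add_right, inner_add_right, inner_smul_right, inner_smul_right, hpe, hep,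
    inner_self_eq_norm_sq_to_K, inner_self_eq_norm_sq_to_K, hp, he]
  simp

theorem Pert1_p {V : Type} [NormedAddCommGroup V] [InnerProductSpace ℂ V] (d : ℕ) {p e : V}
    (hp : ‖p‖ = 1) (hpe : inner ℂ p e = 0) : Pert1_A d p e p = 1 := by
  unfold Pert1_A
  apply Finset.prod_eq_one
  intro j _
  have hep : inner ℂ e p = (0 : ℂ) := by
    rw [← inner_conj_symm, hpe, map_zero]
  rw [hep, inner_self_eq_norm_sq_to_K, hp]
  simp

/-- choose `P' = P + s A`, `A x = ∏_{j<d} (⟪p,x⟫ - j ⟪e,x⟫)`, `s` small -/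
theorem pert {V : Type} [NormedAddCommGroup V] [InnerProductSpace ℂ V] [FiniteDimensional ℂ V]
    {d : ℕ} (hd : 1 ≤ d) {P : V → ℂ} (hP : HP V d P) {p e : V} (hp : ‖p‖ = 1) (he : ‖e‖ = 1)
    (hpe : inner ℂ p e = 0) (hPp : P p ≠ 0) {τ : ℝ} (hτ : 0 < τ) :
    ∃ (P' : V → ℂ) (f : ℕ → ↥(ℂ ∙ p)ᗮ → ℂ) (D : ↥(ℂ ∙ p)ᗮ → ℂ), HP V d P' ∧
      (∀ x, ‖P' x - P x‖ ≤ τ * ‖x‖ ^ d) ∧ P' p ≠ 0 ∧ (∀ k ≤ d, HP ↥(ℂ ∙ p)ᗮ (d - k) (f k)) ∧
      (∀ (z : ↥(ℂ ∙ p)ᗮ) (w : ℂ), P' (z + w • p) = ∑ k ∈ Finset.range (d + 1), f k z * w ^ k) ∧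
      (∀ z, f d z = P' p) ∧
      HP ↥(ℂ ∙ p)ᗮ (d * (d - 1)) D ∧ (∃ z, D z ≠ 0) ∧
      ∀ z, D z ≠ 0 → ∀ w : ℂ, P' (z + w • p) = 0 →
        (Polynomial.derivative (pol d (fun k => f k z))).eval w ≠ 0 := by
  have heo : e ∈ (ℂ ∙ p)ᗮ := by
    rw [Submodule.mem_orthogonal_singleton_iff_inner_right]
    exact hpe
  set e' : ↥(ℂ ∙ p)ᗮ := ⟨e, heo⟩ with he'
  have hA := Pert1_hp d p e
  obtain ⟨f0, hf1, hf2, hf3⟩ := hp_coeff ((ℂ ∙ p)ᗮ).subtype p hP
  obtain ⟨g, hg1, hg2, hg3⟩ := hp_coeff ((ℂ ∙ p)ᗮ).subtype p hA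
  rw [Pert1_p d hp hpe] at hg3
  have hpolg : pol d (fun k => g k e') = Lagrange.nodal (Finset.range d) (fun j : ℕ => (j : ℂ)) := by
    apply Polynomial.funext
    intro w
    rw [pol_eval, Lagrange.eval_nodal, ← hg2]
    exact Pert1_line d hp he hpe w
  have hsimple : ∀ w, (pol d (fun k => g k e')).eval w = 0 →
      (Polynomial.derivative (pol d (fun k => g k e'))).eval w ≠ 0 := by
    intro w hw
    rw [hpolg] at hw ⊢
    rw [Lagrange.eval_nodal, Finset.prod_eq_zero_iff] at hw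
    obtain ⟨i, hi, hwi⟩ := hw
    rw [sub_eq_zero] at hwi
    rw [hwi, Lagrange.eval_nodal_derivative_eval_node_eq hi, Lagrange.eval_nodal, Finset.prod_ne_zero_iff]
    intro j hj
    rw [sub_ne_zero]
    intro h
    exact (Finset.ne_of_mem_erase hj) (by exact_mod_cast h.symm)
  set M : ℝ := ∏ j ∈ Finset.range d, (1 + (j : ℝ)) with hM
  have hM0 : 0 < M := Finset.prod_pos (fun j _ => by positivity)
  have hPp0 : 0 < ‖P p‖ := norm_pos_iff.2 hPp
  obtain ⟨s, hs, hres⟩ := disc_pencil hd (fun k => f0 k e') (fun k => g k e') (by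
    show g d e' ≠ 0
    rw [hg3]; exact one_ne_zero) hsimple (τ := min (τ / M) (‖P p‖ / 2)) (lt_min (by positivity) (by positivity))
  have hs1 : ‖s‖ * M ≤ τ := by
    have := (lt_min_iff.1 hs).1.le
    rwa [le_div_iff₀ hM0] at this
  have hs2 : ‖s‖ < ‖P p‖ / 2 := (lt_min_iff.1 hs).2
  have hP'p : P p + s * Pert1_A d p e p ≠ 0 := by
    rw [Pert1_p d hp hpe, mul_one]
    intro h
    have h1 : P p = -s := eq_neg_of_add_eq_zero_left h
    rw [h1, norm_neg] at hs2
    linarith [norm_nonneg s]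
  have hfHP : ∀ k ≤ d, HP ↥(ℂ ∙ p)ᗮ (d - k) (fun z => f0 k z + s * g k z) := by
    intro k hk
    exact (hf1 k hk).add ((hg1 k hk).const_mul s)
  have hfd : ∀ z, f0 d z + s * g d z = P p + s * Pert1_A d p e p := by
    intro z
    rw [hf3, hg3, Pert1_p d hp hpe]
  have hsum : ∀ (z : ↥(ℂ ∙ p)ᗮ) (w : ℂ), P (z + w • p) + s * Pert1_A d p e (z + w • p) =
      ∑ k ∈ Finset.range (d + 1), (f0 k z + s * g k z) * w ^ k := by
    intro z w
    have h1 := hf2 z w
    have h2 := hg2 z w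
    rw [Submodule.subtype_apply] at h1 h2
    rw [h1, h2, Finset.mul_sum, ← Finset.sum_add_distrib]
    refine Finset.sum_congr rfl (fun k _ => ?_)
    ring
  refine ⟨fun x => P x + s * Pert1_A d p e x, fun k z => f0 k z + s * g k z, _, hP.add (hA.const_mul s), ?_,
    hP'p, hfHP, hsum, hfd, disc_hp hd _ hfHP hP'p hfd, ⟨e', hres⟩, ?_⟩
  · intro x
    rw [add_sub_cancel_left, norm_mul]
    calc ‖s‖ * ‖Pert1_A d p e x‖ ≤ ‖s‖ * (M * ‖x‖ ^ d) := by
          gcongr
          exact Pert1_bound d hp he x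
      _ = (‖s‖ * M) * ‖x‖ ^ d := by ring
      _ ≤ τ * ‖x‖ ^ d := by gcongr
  · intro z hz w hw
    refine disc_simple hd _ ?_ hz w ?_
    · show f0 d z + s * g d z ≠ 0
      rw [hfd]
      exact hP'p
    · rw [pol_eval, ← hsum]
      exact hw

end HMA

end S_MA_Pert1

section S_KW_IterN

/-! # Module IterN: the iteration lemma -/

open MeasureTheory Metric Set Filter
open scoped ENNReal Topology ContDiff ComplexOrder

namespace HMA

theorem IterN_sq {y : ℝ} (hy : 0 ≤ y) : (y ^ (3 / 2 : ℝ)) ^ 2 = y ^ 3 := by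
  rw [← Real.rpow_natCast, ← Real.rpow_mul hy, ← Real.rpow_natCast]
  norm_num

theorem iter_num (n : ℕ) {C K : ℝ} (hC : 0 < C) (hK : 0 < K) : ∃ c₀ C' : ℝ, 0 < c₀ ∧ 0 < C' ∧
    ∀ a : ℝ → ℝ, (∀ s t, 0 ≤ s → s ≤ t → a t ≤ a s) → (∀ s, 0 ≤ a s) → ∀ δ : ℝ, 0 ≤ δ →
      (∀ s τ, 0 ≤ s → 0 < τ → τ ≤ 1 →
        a (s + K * τ) ≤ C * ((a s + δ) / τ ^ (n + 1)) ^ (3 / 2 : ℝ)) →
      ∀ s₀, 0 ≤ s₀ → max (a s₀) δ ≤ c₀ →
        a (s₀ + C' * (max (a s₀) δ) ^ (1 / (3 * (n + 1)) : ℝ)) ≤ δ := by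
  set q : ℝ := (1 / 2) ^ (3 * (n + 1)) with hq
  have hq0 : 0 < q := by positivity
  have hq1 : q < 1 := pow_lt_one₀ (by norm_num) (by norm_num) (by omega)
  set C₁ : ℝ := max 1 (8 * C ^ 2 / q ^ 2) with hC₁
  have hC₁1 : 1 ≤ C₁ := le_max_left _ _
  have hC₁0 : 0 < C₁ := by linarith
  have hC₁p : 8 * C ^ 2 ≤ q ^ 2 * C₁ ^ (3 * (n + 1)) := by
    have h1 : 8 * C ^ 2 / q ^ 2 ≤ C₁ ^ (3 * (n + 1)) :=
      (le_max_right _ _).trans (le_self_pow₀ hC₁1 (by omega))
    rw [div_le_iff₀ (by positivity)] at h1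
    linarith
  refine ⟨(C₁⁻¹) ^ (3 * (n + 1)), 2 * K * C₁, by positivity, by positivity, ?_⟩
  intro a ha ha0 δ hδ hstep s₀ hs₀ hA
  set A : ℝ := max (a s₀) δ with hAdef
  have hA0 : 0 ≤ A := le_max_of_le_right hδ
  have hγ : (1 / (3 * (n + 1)) : ℝ) = ((3 * (n + 1) : ℕ) : ℝ)⁻¹ := by
    push_cast
    rw [one_div]
  have hm0 : (3 * (n + 1) : ℕ) ≠ 0 := by omega
  set B : ℝ := A ^ (1 / (3 * (n + 1)) : ℝ) with hB
  have hB0 : 0 ≤ B := Real.rpow_nonneg hA0 _
  have hBp : B ^ (3 * (n + 1)) = A := by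
    rw [hB, hγ, Real.rpow_inv_natCast_pow hA0 hm0]
  rcases hA0.eq_or_lt with h0 | hApos
  · have h1 : a s₀ ≤ 0 := by
      rw [h0]
      exact le_max_left _ _
    have h2 : B = 0 := by
      rw [hB, ← h0]
      exact Real.zero_rpow (by positivity)
    rw [h2, mul_zero, add_zero]
    linarith
  have hBpos : 0 < B := Real.rpow_pos_of_pos hApos _
  set τ₀ : ℝ := C₁ * B with hτ₀
  have hτ₀pos : 0 < τ₀ := by positivity
  have hτ₀1 : τ₀ ≤ 1 := by
    have h1 : B ^ (3 * (n + 1)) ≤ (C₁⁻¹) ^ (3 * (n + 1)) := by rw [hBp]; exact hA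
    have h2 : B ≤ C₁⁻¹ := le_of_pow_le_pow_left₀ hm0 (by positivity) h1
    calc τ₀ ≤ C₁ * C₁⁻¹ := mul_le_mul_of_nonneg_left h2 hC₁0.le
      _ = 1 := mul_inv_cancel₀ hC₁0.ne'
  have hτ₀p : τ₀ ^ (3 * (n + 1)) = C₁ ^ (3 * (n + 1)) * A := by
    rw [hτ₀, mul_pow, hBp]
  have hhalf : ∀ j : ℕ, (0 : ℝ) < (1 / 2) ^ j ∧ ((1 / 2 : ℝ)) ^ j ≤ 1 := fun j =>
    ⟨by positivity, pow_le_one₀ (by norm_num) (by norm_num)⟩
  have key : ∀ j : ℕ, a (s₀ + 2 * K * τ₀ * (1 - (1 / 2) ^ j)) ≤ max (A * q ^ j) δ := by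
    intro j
    induction j with
    | zero =>
      simp only [pow_zero, sub_self, mul_zero, add_zero, mul_one]
      exact le_max_of_le_left (le_max_left _ _)
    | succ j ih =>
      set s : ℝ := s₀ + 2 * K * τ₀ * (1 - (1 / 2) ^ j) with hs
      have hs0 : 0 ≤ s := by
        have h1 : 0 ≤ 2 * K * τ₀ * (1 - (1 / 2) ^ j) :=
          mul_nonneg (by positivity) (by linarith [(hhalf j).2])
        linarith
      have hnext : s₀ + 2 * K * τ₀ * (1 - (1 / 2) ^ (j + 1)) = s + K * (τ₀ * (1 / 2) ^ j) := by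
        rw [hs, pow_succ]
        ring
      rw [hnext]
      have hτj : 0 < τ₀ * (1 / 2) ^ j := mul_pos hτ₀pos (hhalf j).1
      have hτj1 : τ₀ * (1 / 2) ^ j ≤ 1 := by
        calc τ₀ * (1 / 2) ^ j ≤ 1 * 1 :=
              mul_le_mul hτ₀1 (hhalf j).2 (hhalf j).1.le (by norm_num)
          _ = 1 := by norm_num
      by_cases hle : a s ≤ δ
      · refine le_max_of_le_right (le_trans (ha s _ hs0 ?_) hle)
        have : 0 ≤ K * (τ₀ * (1 / 2) ^ j) := by positivity
        linarith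
      · push Not at hle
        have h1 : a s ≤ A * q ^ j := by
          rcases le_max_iff.1 ih with h | h
          · exact h
          · exact absurd h (not_le.2 hle)
        refine le_max_of_le_left ((hstep s _ hs0 hτj hτj1).trans ?_)
        set y : ℝ := (a s + δ) / (τ₀ * (1 / 2) ^ j) ^ (n + 1) with hy
        have hy0 : 0 ≤ y := div_nonneg (by linarith [ha0 s]) (by positivity)
        have hyle : y ≤ 2 * (A * q ^ j) / (τ₀ * (1 / 2) ^ j) ^ (n + 1) := by
          rw [hy]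
          gcongr
          linarith
        have hX : 0 ≤ C * y ^ (3 / 2 : ℝ) := by positivity
        refine le_of_sq_le_sq ?_ (by positivity)
        rw [mul_pow, IterN_sq hy0]
        have h2 : y ^ 3 ≤ (2 * (A * q ^ j)) ^ 3 / (τ₀ * (1 / 2) ^ j) ^ (3 * (n + 1)) := by
          calc y ^ 3 ≤ (2 * (A * q ^ j) / (τ₀ * (1 / 2) ^ j) ^ (n + 1)) ^ 3 := by gcongr
            _ = _ := by rw [div_pow, ← pow_mul (τ₀ * (1 / 2) ^ j) (n + 1) 3, mul_comm (n + 1) 3]
        have h3 : (τ₀ * (1 / 2) ^ j) ^ (3 * (n + 1)) = C₁ ^ (3 * (n + 1)) * A * q ^ j := by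
          have h4 : ((1 / 2 : ℝ) ^ j) ^ (3 * (n + 1)) = q ^ j := by
            rw [hq, ← pow_mul, ← pow_mul, mul_comm]
          rw [mul_pow, hτ₀p, h4]
        rw [h3] at h2
        calc C ^ 2 * y ^ 3 ≤ C ^ 2 * ((2 * (A * q ^ j)) ^ 3 / (C₁ ^ (3 * (n + 1)) * A * q ^ j)) := by
              gcongr
          _ = (8 * C ^ 2) * (A * q ^ j) ^ 2 / C₁ ^ (3 * (n + 1)) := by
              field_simp
              ring
          _ ≤ (q ^ 2 * C₁ ^ (3 * (n + 1))) * (A * q ^ j) ^ 2 / C₁ ^ (3 * (n + 1)) := by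
              gcongr
          _ = (A * q ^ (j + 1)) ^ 2 := by
              rw [pow_succ q j]
              field_simp
  by_contra hcon
  push Not at hcon
  have hpos : 0 < a (s₀ + 2 * K * C₁ * B) := lt_of_le_of_lt hδ hcon
  have hlim : Tendsto (fun j : ℕ => A * q ^ j) atTop (𝓝 (A * 0)) :=
    (tendsto_pow_atTop_nhds_zero_of_lt_one hq0.le hq1).const_mul A
  rw [mul_zero] at hlim
  obtain ⟨j, hj⟩ := (hlim.eventually (gt_mem_nhds hpos)).exists
  have h1 := key j
  have h2 : a (s₀ + 2 * K * C₁ * B) ≤ a (s₀ + 2 * K * τ₀ * (1 - (1 / 2) ^ j)) := by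
    apply ha
    · have h1 : 0 ≤ 2 * K * τ₀ * (1 - (1 / 2) ^ j) :=
        mul_nonneg (by positivity) (by linarith [(hhalf j).2])
      linarith
    · have h3 : 2 * K * C₁ * B = 2 * K * τ₀ := by rw [hτ₀]; ring
      rw [h3]
      have h4 : 2 * K * τ₀ * (1 - (1 / 2) ^ j) ≤ 2 * K * τ₀ * 1 :=
        mul_le_mul_of_nonneg_left (by linarith [(hhalf j).1]) (by positivity)
      linarith
  rcases le_max_iff.1 (h2.trans h1) with h | h
  · linarith
  · linarith

end HMA

end S_KW_IterN
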