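import Mathlib
import Pool.Agent.H85.MG.G1a

/-! Moderate measures and Hölder continuous potentials, part G2b: this file joins several modules to save build time. -/

section S_MA_Dbar1

/-! # Module DBAR1: Wirtinger calculus on `Cn n`, algebra -/

open MeasureTheory Metric Set
open scoped ENNReal Topology ContDiff

namespace HMA

variable {n : ℕ}

theorem Dbar1_smooth_fderiv {f : Cn n → ℂ} (hf : ContDiff ℝ ∞ f) (v : Cn n) :
    ContDiff ℝ ∞ (fun z => fderiv ℝ f z v) :=
  (hf.fderiv_right (m := ∞) le_rfl).clm_apply contDiff_const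

theorem Dbar1_differentiableAt {f : Cn n → ℂ} (hf : ContDiff ℝ ∞ f) (z : Cn n) :
    DifferentiableAt ℝ f z :=
  (hf.differentiable (by simp)).differentiableAt

theorem smooth_db {f : Cn n → ℂ} (hf : ContDiff ℝ ∞ f) (j : Fin n) : ContDiff ℝ ∞ (db j f) := by
  unfold db
  exact ((Dbar1_smooth_fderiv hf _).add
    (contDiff_const.mul (Dbar1_smooth_fderiv hf _))).div_const 2

theorem smooth_dd {f : Cn n → ℂ} (hf : ContDiff ℝ ∞ f) (j : Fin n) : ContDiff ℝ ∞ (dd j f) := by
  unfold dd
  exact ((Dbar1_smooth_fderiv hf _).sub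
    (contDiff_const.mul (Dbar1_smooth_fderiv hf _))).div_const 2

theorem Tst.mul_smooth {f g : Cn n → ℂ} (hf : Tst f) (hg : ContDiff ℝ ∞ g) :
    Tst (fun z => f z * g z) :=
  ⟨hf.smooth.mul hg, hf.supp.mul_right⟩

theorem Tst.db {f : Cn n → ℂ} (hf : Tst f) (j : Fin n) : Tst (HMA.db j f) := by
  refine ⟨smooth_db hf.smooth j, ?_⟩
  have h := (hf.supp.fderiv (𝕜 := ℝ)).comp_left
    (g := fun L : Cn n →L[ℝ] ℂ => (L (bv n j) + Complex.I * L (Complex.I • bv n j)) / 2)
    (by simp)
  exact h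

theorem Tst.dd {f : Cn n → ℂ} (hf : Tst f) (j : Fin n) : Tst (HMA.dd j f) := by
  refine ⟨smooth_dd hf.smooth j, ?_⟩
  have h := (hf.supp.fderiv (𝕜 := ℝ)).comp_left
    (g := fun L : Cn n →L[ℝ] ℂ => (L (bv n j) - Complex.I * L (Complex.I • bv n j)) / 2)
    (by simp)
  exact h

theorem Dbar1_smooth_conj {f : Cn n → ℂ} (hf : ContDiff ℝ ∞ f) :
    ContDiff ℝ ∞ (fun z => (starRingEnd ℂ) (f z)) :=
  Complex.conjCLE.contDiff.comp hf

theorem Tst.conj {f : Cn n → ℂ} (hf : Tst f) : Tst (fun z => (starRingEnd ℂ) (f z)) :=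
  ⟨Dbar1_smooth_conj hf.smooth, hf.supp.comp_left (g := fun w => (starRingEnd ℂ) w) (map_zero _)⟩

theorem Dbar1_fderiv_conj {f : Cn n → ℂ} (hf : ContDiff ℝ ∞ f) (z v : Cn n) :
    fderiv ℝ (fun z => (starRingEnd ℂ) (f z)) z v = (starRingEnd ℂ) (fderiv ℝ f z v) := by
  have h1 := (Complex.conjCLE.toContinuousLinearMap.hasFDerivAt (x := f z)).comp z
    (Dbar1_differentiableAt hf z).hasFDerivAt
  have h2 : HasFDerivAt (fun z => (starRingEnd ℂ) (f z))
      (Complex.conjCLE.toContinuousLinearMap.comp (fderiv ℝ f z)) z := h1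
  rw [h2.fderiv]
  rfl

theorem db_conj {f : Cn n → ℂ} (hf : ContDiff ℝ ∞ f) (j : Fin n) (z : Cn n) :
    db j (fun z => (starRingEnd ℂ) (f z)) z = (starRingEnd ℂ) (dd j f z) := by
  unfold db dd
  rw [Dbar1_fderiv_conj hf, Dbar1_fderiv_conj hf, map_div₀, map_sub, map_mul, Complex.conj_I,
    Complex.conj_ofNat]
  ring

theorem dd_conj {f : Cn n → ℂ} (hf : ContDiff ℝ ∞ f) (j : Fin n) (z : Cn n) :
    dd j (fun z => (starRingEnd ℂ) (f z)) z = (starRingEnd ℂ) (db j f z) := by
  unfold db dd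
  rw [Dbar1_fderiv_conj hf, Dbar1_fderiv_conj hf, map_div₀, map_add, map_mul, Complex.conj_I,
    Complex.conj_ofNat]
  ring

theorem Dbar1_fderiv_mul {f g : Cn n → ℂ} (hf : ContDiff ℝ ∞ f) (hg : ContDiff ℝ ∞ g)
    (z v : Cn n) : fderiv ℝ (fun z => f z * g z) z v =
      fderiv ℝ f z v * g z + f z * fderiv ℝ g z v := by
  have h1 := (Dbar1_differentiableAt hf z).hasFDerivAt.mul (Dbar1_differentiableAt hg z).hasFDerivAt
  have h2 : HasFDerivAt (fun z => f z * g z) (f z • fderiv ℝ g z + g z • fderiv ℝ f z) z := h1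
  rw [h2.fderiv]
  simp only [_root_.add_apply, _root_.smul_apply, smul_eq_mul]
  ring

theorem db_mul {f g : Cn n → ℂ} (hf : ContDiff ℝ ∞ f) (hg : ContDiff ℝ ∞ g) (j : Fin n)
    (z : Cn n) : db j (fun z => f z * g z) z = db j f z * g z + f z * db j g z := by
  unfold db
  rw [Dbar1_fderiv_mul hf hg, Dbar1_fderiv_mul hf hg]
  ring

theorem dd_mul {f g : Cn n → ℂ} (hf : ContDiff ℝ ∞ f) (hg : ContDiff ℝ ∞ g) (j : Fin n)
    (z : Cn n) : dd j (fun z => f z * g z) z = dd j f z * g z + f z * dd j g z := by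
  unfold dd
  rw [Dbar1_fderiv_mul hf hg, Dbar1_fderiv_mul hf hg]
  ring

theorem Dbar1_fderiv_add {f g : Cn n → ℂ} (hf : ContDiff ℝ ∞ f) (hg : ContDiff ℝ ∞ g)
    (z v : Cn n) : fderiv ℝ (fun z => f z + g z) z v = fderiv ℝ f z v + fderiv ℝ g z v := by
  have h1 := (Dbar1_differentiableAt hf z).hasFDerivAt.add (Dbar1_differentiableAt hg z).hasFDerivAt
  have h2 : HasFDerivAt (fun z => f z + g z) (fderiv ℝ f z + fderiv ℝ g z) z := h1
  rw [h2.fderiv, _root_.add_apply]

theorem db_add {f g : Cn n → ℂ} (hf : ContDiff ℝ ∞ f) (hg : ContDiff ℝ ∞ g) (j : Fin n)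
    (z : Cn n) : db j (fun z => f z + g z) z = db j f z + db j g z := by
  unfold db
  rw [Dbar1_fderiv_add hf hg, Dbar1_fderiv_add hf hg]
  ring

theorem dd_add {f g : Cn n → ℂ} (hf : ContDiff ℝ ∞ f) (hg : ContDiff ℝ ∞ g) (j : Fin n)
    (z : Cn n) : dd j (fun z => f z + g z) z = dd j f z + dd j g z := by
  unfold dd
  rw [Dbar1_fderiv_add hf hg, Dbar1_fderiv_add hf hg]
  ring

theorem Dbar1_fderiv_exp {f : Cn n → ℂ} (hf : ContDiff ℝ ∞ f) (z v : Cn n) :
    fderiv ℝ (fun z => Complex.exp (f z)) z v = Complex.exp (f z) * fderiv ℝ f z v := by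
  have h1 := (Dbar1_differentiableAt hf z).hasFDerivAt.cexp
  rw [h1.fderiv]
  simp only [_root_.smul_apply, smul_eq_mul]

theorem dd_exp {f : Cn n → ℂ} (hf : ContDiff ℝ ∞ f) (j : Fin n) (z : Cn n) :
    dd j (fun z => Complex.exp (f z)) z = Complex.exp (f z) * dd j f z := by
  unfold dd
  rw [Dbar1_fderiv_exp hf, Dbar1_fderiv_exp hf]
  ring

theorem db_exp {f : Cn n → ℂ} (hf : ContDiff ℝ ∞ f) (j : Fin n) (z : Cn n) :
    db j (fun z => Complex.exp (f z)) z = Complex.exp (f z) * db j f z := by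
  unfold db
  rw [Dbar1_fderiv_exp hf, Dbar1_fderiv_exp hf]
  ring

theorem Dbar1_fderiv_comb {f : Cn n → ℂ} (hf : ContDiff ℝ ∞ f) (a b z v : Cn n) (c : ℂ) :
    fderiv ℝ (fun z => (fderiv ℝ f z a + c * fderiv ℝ f z b) / 2) z v =
      (fderiv ℝ (fderiv ℝ f) z v a + c * fderiv ℝ (fderiv ℝ f) z v b) / 2 := by
  have h0 : ContDiff ℝ ∞ (fderiv ℝ f) := hf.fderiv_right (m := ∞) le_rfl
  have h1 : HasFDerivAt (fderiv ℝ f) (fderiv ℝ (fderiv ℝ f) z) z :=
    (h0.differentiable (by simp)).differentiableAt.hasFDerivAt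
  have h2 : ∀ w : Cn n, HasFDerivAt (fun z => fderiv ℝ f z w)
      ((fderiv ℝ (fderiv ℝ f) z).flip w) z := by
    intro w
    have h3 := h1.clm_apply (hasFDerivAt_const w z)
    refine h3.congr_fderiv ?_
    ext u
    simp
  have h4 := (((h2 a).add ((h2 b).const_mul c)).mul_const ((2 : ℂ)⁻¹))
  have h5 : HasFDerivAt (fun z => (fderiv ℝ f z a + c * fderiv ℝ f z b) / 2)
      ((2 : ℂ)⁻¹ • ((fderiv ℝ (fderiv ℝ f) z).flip a + c • (fderiv ℝ (fderiv ℝ f) z).flip b)) z := by
    refine h4.congr_of_eventuallyEq (Filter.Eventually.of_forall fun w => ?_)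
    simp only [div_eq_mul_inv]
    rfl
  rw [h5.fderiv]
  simp only [_root_.smul_apply, _root_.add_apply,
    ContinuousLinearMap.flip_apply, smul_eq_mul]
  ring

theorem Dbar1_symm {f : Cn n → ℂ} (hf : ContDiff ℝ ∞ f) (z v w : Cn n) :
    fderiv ℝ (fderiv ℝ f) z v w = fderiv ℝ (fderiv ℝ f) z w v := by
  have h : IsSymmSndFDerivAt ℝ f z := (hf.contDiffAt).isSymmSndFDerivAt (by
    rw [minSmoothness_of_isRCLikeNormedField]
    exact WithTop.coe_le_coe.2 (le_top (a := (2 : ℕ∞))))
  exact h v w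

theorem Dbar1_dd_eq (j : Fin n) (f : Cn n → ℂ) : dd j f = fun z =>
    (fderiv ℝ f z (bv n j) + (-Complex.I) * fderiv ℝ f z (Complex.I • bv n j)) / 2 := by
  funext z
  unfold dd
  ring

theorem Dbar1_db_eq (j : Fin n) (f : Cn n → ℂ) : db j f = fun z =>
    (fderiv ℝ f z (bv n j) + Complex.I * fderiv ℝ f z (Complex.I • bv n j)) / 2 := rfl

theorem db_dd_comm {f : Cn n → ℂ} (hf : ContDiff ℝ ∞ f) (j k : Fin n) (z : Cn n) :
    db j (dd k f) z = dd k (db j f) z := by
  rw [Dbar1_db_eq j (dd k f), Dbar1_dd_eq k (db j f), Dbar1_dd_eq k f, Dbar1_db_eq j f]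
  simp only [Dbar1_fderiv_comb hf]
  rw [Dbar1_symm hf z (bv n j) (bv n k), Dbar1_symm hf z (bv n j) (Complex.I • bv n k),
    Dbar1_symm hf z (Complex.I • bv n j) (bv n k),
    Dbar1_symm hf z (Complex.I • bv n j) (Complex.I • bv n k)]
  ring

theorem db_db_comm {f : Cn n → ℂ} (hf : ContDiff ℝ ∞ f) (j k : Fin n) (z : Cn n) :
    db j (db k f) z = db k (db j f) z := by
  rw [Dbar1_db_eq j (db k f), Dbar1_db_eq k (db j f), Dbar1_db_eq k f, Dbar1_db_eq j f]
  simp only [Dbar1_fderiv_comb hf]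
  rw [Dbar1_symm hf z (bv n j) (bv n k), Dbar1_symm hf z (bv n j) (Complex.I • bv n k),
    Dbar1_symm hf z (Complex.I • bv n j) (bv n k),
    Dbar1_symm hf z (Complex.I • bv n j) (Complex.I • bv n k)]
  ring

end HMA

end S_MA_Dbar1

section S_MA_PshBall

/-! # Module PSHB: sub-mean value inequality on balls -/

open MeasureTheory Metric Set
open scoped ENNReal Topology ContDiff

namespace HMA

theorem PshR.toS {n : ℕ} {u : Cn n → ℝ} (hu : PshR u) : PshS u := by
  exact ⟨hu.usc, hu.bdd, fun a b _ => hu.submean a b⟩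

theorem PshR.const_mul {n : ℕ} {u : Cn n → ℝ} (hu : PshR u) {c : ℝ} (hc : 0 < c) :
    PshR (fun z => c * u z) := by
  refine ⟨?_, ?_, ?_⟩
  · have hg : Continuous (fun t : ℝ => c * t) := continuous_const.mul continuous_id
    exact hg.comp_upperSemicontinuous hu.usc (fun x y h => mul_le_mul_of_nonneg_left h hc.le)
  · obtain ⟨L, hL⟩ := hu.bdd
    refine ⟨c * L, fun z => ?_⟩
    have := mul_le_mul_of_nonneg_left (hL z) hc.le
    linarith
  · intro a b
    rw [intervalIntegral.integral_const_mul]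
    have := mul_le_mul_of_nonneg_left (hu.submean a b) hc.le
    linarith

theorem pshR_log_max {n : ℕ} {F : Cn n → ℝ} (hF : LogPsh F) {δ : ℝ} (hδ : 0 < δ) :
    PshR (fun z => Real.log (max (F z) δ)) := by
  refine ⟨?_, ?_, ?_⟩
  · have hg : Continuous (fun t : ℝ => Real.log (max t δ)) := by
      refine Continuous.log (continuous_id.max continuous_const) (fun x => ?_)
      exact (lt_max_of_lt_right hδ).ne'
    exact hg.comp_upperSemicontinuous hF.usc (fun x y h =>
      Real.log_le_log (lt_max_of_lt_right hδ) (max_le_max h le_rfl))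
  · refine ⟨- Real.log δ, fun z => ?_⟩
    rw [neg_neg]
    exact Real.log_le_log hδ (le_max_right _ _)
  · intro a b
    exact hF.submean δ hδ a b

theorem PshBall_bdd {n : ℕ} {u : Cn n → ℝ} (hu : UpperSemicontinuous u)
    (hb : ∃ L : ℝ, ∀ z, -L ≤ u z) {K : Set (Cn n)} (hK : IsCompact K) :
    ∃ B : ℝ, 0 ≤ B ∧ ∀ z ∈ K, ‖u z‖ ≤ B := by
  obtain ⟨L, hL⟩ := hb
  obtain ⟨M, hM⟩ := (hu.upperSemicontinuousOn K).bddAbove_of_isCompact hK
  refine ⟨max |L| |M|, le_max_of_le_left (abs_nonneg _), fun z hz => ?_⟩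
  rw [Real.norm_eq_abs, abs_le]
  have h1 := hM (mem_image_of_mem u hz)
  have h2 := hL z
  constructor
  · have : L ≤ max |L| |M| := (le_abs_self L).trans (le_max_left _ _)
    linarith
  · exact h1.trans ((le_abs_self M).trans (le_max_right _ _))

theorem usc_locInt {n : ℕ} {u : Cn n → ℝ} (hu : UpperSemicontinuous u)
    (hb : ∃ L : ℝ, ∀ z, -L ≤ u z) : LocallyIntegrable u volume := by
  rw [locallyIntegrable_iff]
  intro k hk
  obtain ⟨B, _, hB⟩ := PshBall_bdd hu hb hk
  refine Measure.integrableOn_of_bounded (M := B) hk.measure_lt_top.ne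
    hu.measurable.aestronglyMeasurable ?_
  exact (ae_restrict_iff' hk.measurableSet).2 (Filter.Eventually.of_forall hB)

/-- multiplication by `exp (iθ)` preserves the volume -/
theorem PshBall_mp {n : ℕ} (θ : ℝ) : MeasurePreserving
    (fun x : Cn n => Complex.exp (θ * Complex.I) • x) volume volume := by
  have h1 : ‖Complex.exp (θ * Complex.I)‖ = 1 := Complex.norm_exp_ofReal_mul_I θ
  have h0 : Complex.exp (θ * Complex.I) ≠ 0 := Complex.exp_ne_zero _
  let L : Cn n ≃ₗ[ℝ] Cn n :=
    (LinearEquiv.smulOfNeZero ℂ (Cn n) (Complex.exp (θ * Complex.I)) h0).restrictScalars ℝ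
  let e : Cn n ≃ₗᵢ[ℝ] Cn n := ⟨L, fun x => by
    change ‖Complex.exp (θ * Complex.I) • x‖ = ‖x‖
    rw [norm_smul, h1, one_mul]⟩
  exact e.measurePreserving

/-- if the sub-mean value inequality holds on complex circles of radius `≤ ρ`, it holds for all
bounded weights with support in the ball of radius `ρ`, invariant under `x ↦ exp (iθ) x` -/
theorem submean_weight {n : ℕ} {u : Cn n → ℝ} (hu : UpperSemicontinuous u)
    (hb : ∃ L : ℝ, ∀ z, -L ≤ u z) {ρ : ℝ} (hρ : 0 < ρ)
    (hs : ∀ a b : Cn n, ‖b‖ ≤ ρ → u a ≤ (2 * Real.pi)⁻¹ *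
      ∫ θ in (0 : ℝ)..(2 * Real.pi), u (a + Complex.exp (θ * Complex.I) • b))
    (w : Cn n → ℝ) (hwm : Measurable w) (hw0 : ∀ x, 0 ≤ w x) (hwb : ∃ M, ∀ x, w x ≤ M)
    (hws : ∀ x, ρ < ‖x‖ → w x = 0)
    (hwr : ∀ (θ : ℝ) (x : Cn n), w (Complex.exp (θ * Complex.I) • x) = w x) (a : Cn n) :
    Integrable (fun x => u (a + x) * w x) volume ∧ u a * ∫ x, w x ≤ ∫ x, u (a + x) * w x := by
  obtain ⟨M, hM⟩ := hwb
  have hM0 : 0 ≤ M := (hw0 0).trans (hM 0)
  obtain ⟨B, hB0, hB⟩ := PshBall_bdd hu hb (isCompact_closedBall a ρ)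
  set g : Cn n → ℝ := (closedBall (0 : Cn n) ρ).indicator (fun _ => B * M) with hg
  have hgi : Integrable g volume :=
    (integrable_indicator_iff measurableSet_closedBall).2
      (integrableOn_const (measure_closedBall_lt_top).ne)
  have hbound : ∀ x y : Cn n, ‖x‖ = ‖y‖ → ‖u (a + x) * w y‖ ≤ g y := by
    intro x y hxy
    by_cases hx : ‖y‖ ≤ ρ
    · have hyB : y ∈ closedBall (0 : Cn n) ρ := by simpa using hx
      rw [hg, indicator_of_mem hyB, norm_mul]
      refine mul_le_mul (hB _ ?_) ?_ (norm_nonneg _) hB0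
      · rw [mem_closedBall, dist_eq_norm, add_sub_cancel_left, hxy]; exact hx
      · rw [Real.norm_of_nonneg (hw0 y)]; exact hM y
    · have hyB : y ∉ closedBall (0 : Cn n) ρ := by simpa using lt_of_not_ge hx
      rw [hg, indicator_of_notMem hyB, hws y (lt_of_not_ge hx), mul_zero, norm_zero]
  have hwi : Integrable w volume := by
    have h1 : Integrable ((closedBall (0 : Cn n) ρ).indicator (fun _ => M)) volume :=
      (integrable_indicator_iff measurableSet_closedBall).2
        (integrableOn_const (measure_closedBall_lt_top).ne)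
    refine h1.mono' hwm.aestronglyMeasurable (Filter.Eventually.of_forall fun y => ?_)
    by_cases hx : ‖y‖ ≤ ρ
    · have hyB : y ∈ closedBall (0 : Cn n) ρ := by simpa using hx
      rw [indicator_of_mem hyB, Real.norm_of_nonneg (hw0 y)]; exact hM y
    · have hyB : y ∉ closedBall (0 : Cn n) ρ := by simpa using lt_of_not_ge hx
      rw [indicator_of_notMem hyB, hws y (lt_of_not_ge hx), norm_zero]
  have hint : Integrable (fun x => u (a + x) * w x) volume := by
    refine hgi.mono' ?_ (Filter.Eventually.of_forall fun y => hbound y y rfl)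
    exact ((hu.measurable.comp (measurable_const_add a)).mul hwm).aestronglyMeasurable
  refine ⟨hint, ?_⟩
  set F : ℝ → Cn n → ℝ := fun θ x => u (a + Complex.exp (θ * Complex.I) • x) * w x with hF
  have hnorm : ∀ (θ : ℝ) (x : Cn n), ‖Complex.exp (θ * Complex.I) • x‖ = ‖x‖ := fun θ x => by
    rw [norm_smul, Complex.norm_exp_ofReal_mul_I, one_mul]
  have hFint : Integrable (Function.uncurry F)
      ((volume.restrict (Ioc 0 (2 * Real.pi))).prod volume) := by
    have h1 : Integrable (fun p : ℝ × Cn n => g p.2)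
      ((volume.restrict (Ioc 0 (2 * Real.pi))).prod volume) := hgi.comp_snd _
    refine h1.mono' ?_ (Filter.Eventually.of_forall fun p => hbound _ _ (hnorm p.1 p.2))
    have hc : Continuous (fun p : ℝ × Cn n => a + Complex.exp (p.1 * Complex.I) • p.2) := by
      fun_prop
    exact ((hu.measurable.comp hc.measurable).mul (hwm.comp measurable_snd)).aestronglyMeasurable
  have hrot : ∀ θ : ℝ, ∫ x, F θ x = ∫ x, u (a + x) * w x := by
    intro θ
    have h1 := (PshBall_mp (n := n) θ).integral_comp' (g := fun x => u (a + x) * w x)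
      (f := (MeasurableEquiv.smul₀ (Complex.exp (θ * Complex.I)) (Complex.exp_ne_zero _)))
    rw [← h1]
    refine integral_congr_ae (Filter.Eventually.of_forall fun x => ?_)
    simp only [hF]
    change _ = u (a + Complex.exp (θ * Complex.I) • x) * w (Complex.exp (θ * Complex.I) • x)
    rw [hwr]
  have hswap := integral_integral_swap (f := F) hFint
  have hpi : 0 < 2 * Real.pi := by positivity
  have h2 : ∫ x, u (a + x) * w x = (2 * Real.pi)⁻¹ * ∫ x, ∫ θ in Ioc 0 (2 * Real.pi), F θ x := by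
    rw [← hswap]
    simp_rw [hrot]
    rw [integral_const]
    simp only [measureReal_restrict_apply_univ, Real.volume_real_Ioc, smul_eq_mul]
    rw [sub_zero, max_eq_left hpi.le, ← mul_assoc, inv_mul_cancel₀ hpi.ne', one_mul]
  rw [h2, ← integral_const_mul, ← integral_const_mul]
  refine integral_mono (hwi.const_mul _) (hFint.integral_prod_right.const_mul _) (fun x => ?_)
  by_cases hx : ‖x‖ ≤ ρ
  · have h3 := hs a x hx
    rw [intervalIntegral.integral_of_le hpi.le] at h3
    have h4 : ∫ θ in Ioc 0 (2 * Real.pi), F θ x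
        = (∫ θ in Ioc 0 (2 * Real.pi), u (a + Complex.exp (θ * Complex.I) • x)) * w x := by
      rw [← integral_mul_const]
    simp only
    rw [h4, ← mul_assoc]
    exact mul_le_mul_of_nonneg_right h3 (hw0 x)
  · have hw : w x = 0 := hws x (lt_of_not_ge hx)
    simp only [hF, hw, mul_zero, integral_zero, le_refl]

theorem submean_ball {n : ℕ} {u : Cn n → ℝ} (hu : UpperSemicontinuous u)
    (hb : ∃ L : ℝ, ∀ z, -L ≤ u z) {ρ : ℝ} (hρ : 0 < ρ)
    (hs : ∀ a b : Cn n, ‖b‖ ≤ ρ → u a ≤ (2 * Real.pi)⁻¹ *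
      ∫ θ in (0 : ℝ)..(2 * Real.pi), u (a + Complex.exp (θ * Complex.I) • b)) (a : Cn n) :
    IntegrableOn u (ball a ρ) volume ∧
      u a * volume.real (ball a ρ) ≤ ∫ x in ball a ρ, u x := by
  set w : Cn n → ℝ := (ball (0 : Cn n) ρ).indicator (fun _ => 1) with hw
  obtain ⟨h1, h2⟩ := submean_weight hu hb hρ hs w
    (measurable_const.indicator measurableSet_ball)
    (fun x => indicator_nonneg (fun _ _ => zero_le_one) x)
    ⟨1, fun x => indicator_le_self' (fun _ _ => zero_le_one) x⟩
    (fun x hx => indicator_of_notMem (by simpa using hx.le) _)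
    (fun θ x => by
      have hn : ‖Complex.exp (θ * Complex.I) • x‖ = ‖x‖ := by
        rw [norm_smul, Complex.norm_exp_ofReal_mul_I, one_mul]
      simp only [hw, indicator, mem_ball_zero_iff, hn]) a
  have hf : ∀ x, u (a + x) * w x = (ball a ρ).indicator u (a + x) := by
    intro x
    by_cases hx : x ∈ ball (0 : Cn n) ρ
    · have hx' : a + x ∈ ball a ρ := by
        rw [mem_ball, dist_eq_norm, add_sub_cancel_left]; simpa using hx
      rw [hw, indicator_of_mem hx, indicator_of_mem hx', mul_one]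
    · have hx' : a + x ∉ ball a ρ := by
        rw [mem_ball, dist_eq_norm, add_sub_cancel_left]; simpa using hx
      rw [hw, indicator_of_notMem hx, indicator_of_notMem hx', mul_zero]
  simp_rw [hf] at h1 h2
  constructor
  · rw [← integrable_indicator_iff measurableSet_ball]
    have := (measurePreserving_add_left volume (-a)).integrable_comp_of_integrable h1
    simpa [Function.comp_def] using this
  · have h3 : ∫ x, w x = volume.real (ball a ρ) := by
      rw [hw, integral_indicator measurableSet_ball, setIntegral_const, smul_eq_mul, mul_one,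
        measureReal_def, measureReal_def, Measure.addHaar_ball_center volume a]
    have h4 : ∫ x, (ball a ρ).indicator u (a + x) = ∫ x in ball a ρ, u x := by
      rw [integral_add_left_eq_self (fun x => (ball a ρ).indicator u x) a,
        integral_indicator measurableSet_ball]
    rw [h3, h4] at h2
    exact h2

end HMA

end S_MA_PshBall

section S_MA_LExt

/-! # Module LEXT: extension of bounded psh functions from the ball to the whole space -/

open MeasureTheory Metric Set
open scoped ENNReal Topology ContDiff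

namespace HMA

theorem PshOn.max_const {n : ℕ} {Ω : Set (Cn n)} {F : Cn n → ℝ} (hF : PshOn Ω F) {c : ℝ}
    (hc : 0 < c) : PshOn Ω (fun z => max (F z) c) := by
  refine ⟨fun x _ => hc.le.trans (le_max_right _ _), ?_, ?_⟩
  · have h := hF.usc
    have hg : Continuous (fun x : ℝ => max x c) := continuous_id.max continuous_const
    exact hg.comp_upperSemicontinuousOn h (fun x y hxy => max_le_max_right c hxy)
  · intro δ hδ a b hab
    have h := hF.submean (max c δ) (lt_max_of_lt_right hδ) a b hab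
    simp only [max_assoc]
    exact h

theorem lext_ecirc_norm (θ : ℝ) : ‖Complex.exp (θ * Complex.I)‖ = 1 :=
  Complex.norm_exp_ofReal_mul_I θ

theorem lext_circ_cont {n : ℕ} (a b : Cn n) :
    Continuous (fun θ : ℝ => a + Complex.exp (θ * Complex.I) • b) := by
  fun_prop

theorem lext_q_cont {n : ℕ} :
    Continuous (fun z : Cn n => Real.log (max (‖z‖ / (17 / 10)) (1 / 2))) := by
  refine Continuous.log ?_ ?_
  · exact (continuous_norm.div_const _).max continuous_const
  · intro z
    exact (lt_max_of_lt_right (by norm_num : (0 : ℝ) < 1 / 2)).ne'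

/-- the outer function satisfies the sub-mean value inequality -/
theorem lext_q_submean {n : ℕ} (a b : Cn n) :
    Real.log (max (‖a‖ / (17 / 10)) (1 / 2)) ≤ (2 * Real.pi)⁻¹ *
      ∫ θ in (0 : ℝ)..(2 * Real.pi),
        Real.log (max (‖a + Complex.exp (θ * Complex.I) • b‖ / (17 / 10)) (1 / 2)) := by
  set e : Cn n := ((‖a‖⁻¹ : ℝ) : ℂ) • a with he
  have hen : ‖e‖ ≤ 1 := by
    rw [he, norm_smul, Complex.norm_real, Real.norm_eq_abs, abs_of_nonneg (by positivity)]
    exact inv_mul_le_one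
  have hea : inner ℂ e a = ((‖a‖ : ℝ) : ℂ) := by
    rw [he, inner_smul_left, Complex.conj_ofReal, inner_self_eq_norm_sq_to_K]
    rcases eq_or_ne a 0 with rfl | ha
    · simp
    · have : ‖a‖ ≠ 0 := norm_ne_zero_iff.2 ha
      push_cast
      have h2 : ((‖a‖ : ℝ) : ℂ) ≠ 0 := by exact_mod_cast this
      change ((‖a‖ : ℝ) : ℂ)⁻¹ * ((‖a‖ : ℝ) : ℂ) ^ 2 = _
      field_simp
  set p : Polynomial ℂ := Polynomial.C (((‖a‖ / (17 / 10) : ℝ)) : ℂ) +
    Polynomial.C (inner ℂ e b / (17 / 10)) * Polynomial.X with hp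
  have hpe : ∀ ζ : ℂ, p.eval ζ = inner ℂ e (a + ζ • b) / (17 / 10) := by
    intro ζ
    rw [hp, inner_add_right, inner_smul_right, hea]
    simp only [Polynomial.eval_add, Polynomial.eval_C, Polynomial.eval_mul, Polynomial.eval_X]
    push_cast
    ring
  have h := jensen_poly p (s := 1) (δ := 1 / 2) one_pos (by norm_num)
  simp only [Real.rpow_one] at h
  have h0 : ‖p.eval 0‖ = ‖a‖ / (17 / 10) := by
    rw [hpe, zero_smul, add_zero, hea, norm_div, Complex.norm_real, Real.norm_eq_abs,
      abs_of_nonneg (norm_nonneg a)]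
    norm_num
  rw [h0] at h
  refine h.trans ?_
  refine mul_le_mul_of_nonneg_left ?_ (by positivity)
  refine intervalIntegral.integral_mono_on Real.two_pi_pos.le ?_ ?_ ?_
  · apply Continuous.intervalIntegrable
    have h1 := Jensen_cont p (s := 1) (δ := 1 / 2) one_pos (by norm_num)
    simp only [Real.rpow_one] at h1
    exact h1.comp (by fun_prop : Continuous (fun θ : ℝ => Complex.exp (θ * Complex.I)))
  · apply Continuous.intervalIntegrable
    exact lext_q_cont.comp (lext_circ_cont a b)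
  · intro θ _
    apply Real.log_le_log (lt_max_of_lt_right (by norm_num))
    apply max_le_max_right
    rw [hpe, norm_div]
    have h17 : ‖(17 / 10 : ℂ)‖ = 17 / 10 := by norm_num
    rw [h17]
    apply div_le_div_of_nonneg_right _ (by norm_num)
    calc ‖inner ℂ e (a + Complex.exp (θ * Complex.I) • b)‖
        ≤ ‖e‖ * ‖a + Complex.exp (θ * Complex.I) • b‖ := norm_inner_le_norm _ _
      _ ≤ 1 * ‖a + Complex.exp (θ * Complex.I) • b‖ :=
          mul_le_mul_of_nonneg_right hen (norm_nonneg _)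
      _ = _ := one_mul _

/-- glue with `q z = 16 t log (max (‖z‖ / (17/10)) (1/2))`: `16 t g = max (log F) (-t)` on the
ball of radius `3/2` -/
theorem psh_ext {n : ℕ} {F : Cn n → ℝ} (hF : PshOn (ball 0 2) F) (h1 : ∀ x ∈ ball 0 2, F x ≤ 1)
    {t : ℝ} (ht : 1 ≤ t) : ∃ g : Cn n → ℝ, PshS g ∧ (∀ z, -1 ≤ g z) ∧
      (∀ z, g z ≤ Real.log (1 + ‖z‖ ^ 2) / 2) ∧
      ∀ z, ‖z‖ < 3 / 2 → 16 * t * g z = Real.log (max (F z) (Real.exp (-t))) := by
  classical
  have ht0 : 0 < t := by linarith
  have h16 : 0 < 16 * t := by linarith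
  set v : Cn n → ℝ := fun z => Real.log (max (F z) (Real.exp (-t))) with hv
  set q : Cn n → ℝ := fun z => Real.log (max (‖z‖ / (17 / 10)) (1 / 2)) with hq
  have hqc : Continuous q := lext_q_cont
  have hvlo : ∀ z, -t ≤ v z := by
    intro z
    have := Real.log_le_log (Real.exp_pos (-t)) (le_max_right (F z) (Real.exp (-t)))
    rwa [Real.log_exp] at this
  have hvhi : ∀ z ∈ ball (0 : Cn n) 2, v z ≤ 0 := by
    intro z hz
    apply Real.log_nonpos
    · exact (Real.exp_pos _).le.trans (le_max_right _ _)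
    · exact max_le (h1 z hz) (Real.exp_le_one_iff.2 (by linarith))
  have hqlo : ∀ z, -1 ≤ q z := by
    intro z
    have h2 : Real.log (1 / 2) ≤ q z :=
      Real.log_le_log (by norm_num) (le_max_right _ _)
    have h3 : (-1 : ℝ) ≤ Real.log (1 / 2) := by
      rw [one_div, Real.log_inv]
      have := Real.log_two_lt_d9
      linarith
    linarith
  have hqhi : ∀ z, q z ≤ Real.log (1 + ‖z‖ ^ 2) / 2 := by
    intro z
    have h2 : Real.log (1 + ‖z‖ ^ 2) / 2 = Real.log (Real.sqrt (1 + ‖z‖ ^ 2)) := by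
      rw [Real.log_sqrt (by positivity)]
    rw [h2]
    apply Real.log_le_log (lt_max_of_lt_right (by norm_num))
    apply max_le
    · apply Real.le_sqrt_of_sq_le
      have := norm_nonneg z
      nlinarith
    · apply Real.le_sqrt_of_sq_le
      have := norm_nonneg z
      nlinarith
  have hqpos : ∀ z : Cn n, 9 / 5 < ‖z‖ → 0 ≤ q z := by
    intro z hz
    apply Real.log_nonneg
    apply le_max_of_le_left
    rw [le_div_iff₀ (by norm_num)]
    linarith
  have hqneg : ∀ z : Cn n, ‖z‖ < 3 / 2 → 16 * t * q z ≤ -t := by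
    intro z hz
    have h2 : q z ≤ Real.log (15 / 17) := by
      apply Real.log_le_log (lt_max_of_lt_right (by norm_num))
      apply max_le
      · rw [div_le_iff₀ (by norm_num)]
        linarith
      · norm_num
    have h3 : Real.log (15 / 17) ≤ 15 / 17 - 1 := Real.log_le_sub_one_of_pos (by norm_num)
    nlinarith
  set g : Cn n → ℝ := fun z => if ‖z‖ < 2 then max (v z / (16 * t)) (q z) else q z with hg
  have hg1 : ∀ z, ‖z‖ < 2 → g z = max (v z / (16 * t)) (q z) := by
    intro z hz
    simp only [hg, if_pos hz]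
  have hg2 : ∀ z, 9 / 5 < ‖z‖ → g z = q z := by
    intro z hz
    by_cases h : ‖z‖ < 2
    · rw [hg1 z h]
      apply max_eq_right
      have h2 := hvhi z (by simpa using h)
      have h3 : v z / (16 * t) ≤ 0 := div_nonpos_of_nonpos_of_nonneg h2 h16.le
      exact h3.trans (hqpos z hz)
    · simp only [hg, if_neg h]
  have hgq : ∀ z, q z ≤ g z := by
    intro z
    by_cases h : ‖z‖ < 2
    · rw [hg1 z h]; exact le_max_right _ _
    · simp only [hg, if_neg h]; exact le_rfl
  have hvusc : UpperSemicontinuousOn v (ball 0 2) := by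
    have hgc : Continuous (fun x : ℝ => Real.log (max x (Real.exp (-t)))) :=
      Continuous.log (continuous_id.max continuous_const)
        (fun x => (lt_max_of_lt_right (Real.exp_pos _)).ne')
    exact hgc.comp_upperSemicontinuousOn hF.usc (fun x y hxy =>
      Real.log_le_log (lt_max_of_lt_right (Real.exp_pos _)) (max_le_max_right _ hxy))
  have hopen : IsOpen (ball (0 : Cn n) 2) := isOpen_ball
  have hv16 : UpperSemicontinuousOn (fun z => max (v z / (16 * t)) (q z)) (ball 0 2) := by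
    have hm : UpperSemicontinuousOn (fun z => v z / (16 * t)) (ball 0 2) :=
      (continuous_id.div_const (16 * t)).comp_upperSemicontinuousOn hvusc
        (fun x y hxy => div_le_div_of_nonneg_right hxy h16.le)
    exact hm.sup (hqc.upperSemicontinuous.upperSemicontinuousOn _)
  have husc : UpperSemicontinuous g := by
    intro z
    by_cases h : ‖z‖ < 2
    · have hz : z ∈ ball (0 : Cn n) 2 := by simpa using h
      have h2 : UpperSemicontinuousAt (fun z => max (v z / (16 * t)) (q z)) z := by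
        have := hv16 z hz
        intro y hy
        have h3 := this y hy
        rwa [hopen.nhdsWithin_eq hz] at h3
      intro y hy
      rw [hg1 z h] at hy
      filter_upwards [h2 y hy, hopen.mem_nhds hz] with w hw hw2
      rw [hg1 w (by simpa using hw2)]
      exact hw
    · have hz : 9 / 5 < ‖z‖ := by linarith
      intro y hy
      rw [hg2 z hz] at hy
      have ho : IsOpen {w : Cn n | 9 / 5 < ‖w‖} := isOpen_lt continuous_const continuous_norm
      filter_upwards [(hqc.upperSemicontinuous z) y hy, ho.mem_nhds hz] with w hw hw2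
      rw [hg2 w hw2]
      exact hw
  refine ⟨g, ⟨husc, ⟨1, fun z => (hqlo z).trans (hgq z)⟩, ?_⟩, fun z => (hqlo z).trans (hgq z),
    ?_, ?_⟩
  · intro a b hb
    have hcirc : ∀ θ : ℝ, ‖Complex.exp (θ * Complex.I) • b‖ ≤ 1 / 16 := by
      intro θ
      rw [norm_smul, lext_ecirc_norm, one_mul]
      exact hb
    by_cases ha : ‖a‖ < 19 / 10
    · -- everything happens in the ball of radius 2
      have hin : ∀ ζ : ℂ, ‖ζ‖ ≤ 1 → a + ζ • b ∈ ball (0 : Cn n) 2 := by
        intro ζ hζ
        rw [mem_ball_zero_iff]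
        have h2 : ‖ζ • b‖ ≤ 1 / 16 := by
          rw [norm_smul]
          nlinarith [norm_nonneg ζ, norm_nonneg b]
        have := norm_add_le a (ζ • b)
        linarith
      have hin' : ∀ θ : ℝ, a + Complex.exp (θ * Complex.I) • b ∈ ball (0 : Cn n) 2 :=
        fun θ => hin _ (lext_ecirc_norm θ).le
      have hvs := hF.submean (Real.exp (-t)) (Real.exp_pos _) a b hin
      have hqs := lext_q_submean a b
      -- integrability
      have hvi : IntervalIntegrable (fun θ : ℝ => v (a + Complex.exp (θ * Complex.I) • b))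
          volume 0 (2 * Real.pi) := by
        have hu : UpperSemicontinuous (fun θ : ℝ => v (a + Complex.exp (θ * Complex.I) • b)) := by
          intro θ y hy
          have h3 := hvusc _ (hin' θ) y hy
          rw [hopen.nhdsWithin_eq (hin' θ)] at h3
          exact ((lext_circ_cont a b).tendsto θ).eventually h3
        have hmeas : Measurable (fun θ : ℝ => v (a + Complex.exp (θ * Complex.I) • b)) :=
          hu.measurable
        rw [intervalIntegrable_iff]
        refine Measure.integrableOn_of_bounded (M := t) ?_ hmeas.aestronglyMeasurable ?_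
        · rw [uIoc_of_le Real.two_pi_pos.le]
          exact measure_Ioc_lt_top.ne
        · refine ae_of_all _ (fun θ => ?_)
          rw [Real.norm_eq_abs, abs_le]
          exact ⟨hvlo _, (hvhi _ (hin' θ)).trans ht0.le⟩
      have hqi : IntervalIntegrable (fun θ : ℝ => q (a + Complex.exp (θ * Complex.I) • b))
          volume 0 (2 * Real.pi) := (hqc.comp (lext_circ_cont a b)).intervalIntegrable _ _
      have hgi : IntervalIntegrable (fun θ : ℝ => g (a + Complex.exp (θ * Complex.I) • b))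
          volume 0 (2 * Real.pi) := by
        have e : (fun θ : ℝ => g (a + Complex.exp (θ * Complex.I) • b)) =
            fun θ : ℝ => max (v (a + Complex.exp (θ * Complex.I) • b) / (16 * t))
              (q (a + Complex.exp (θ * Complex.I) • b)) := by
          funext θ
          exact hg1 _ (by simpa using hin' θ)
        rw [e]
        have h3 := hvi.div_const (16 * t)
        exact ⟨h3.1.sup hqi.1, h3.2.sup hqi.2⟩
      have ha2 : ‖a‖ < 2 := by linarith
      rw [hg1 a ha2]
      apply max_le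
      · have h3 : (2 * Real.pi)⁻¹ * ∫ θ in (0 : ℝ)..(2 * Real.pi),
            v (a + Complex.exp (θ * Complex.I) • b) / (16 * t) ≤ (2 * Real.pi)⁻¹ *
            ∫ θ in (0 : ℝ)..(2 * Real.pi), g (a + Complex.exp (θ * Complex.I) • b) := by
          refine mul_le_mul_of_nonneg_left ?_ (by positivity)
          refine intervalIntegral.integral_mono_on Real.two_pi_pos.le (hvi.div_const _) hgi ?_
          intro θ _
          rw [hg1 _ (by simpa using hin' θ)]
          exact le_max_left _ _
        refine le_trans ?_ h3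
        rw [intervalIntegral.integral_div, ← mul_div_assoc]
        exact div_le_div_of_nonneg_right hvs h16.le
      · refine hqs.trans ?_
        refine mul_le_mul_of_nonneg_left ?_ (by positivity)
        refine intervalIntegral.integral_mono_on Real.two_pi_pos.le hqi hgi ?_
        intro θ _
        exact hgq _
    · have hout : ∀ θ : ℝ, 9 / 5 < ‖a + Complex.exp (θ * Complex.I) • b‖ := by
        intro θ
        have h2 := hcirc θ
        have h3 := norm_sub_norm_le a (-(Complex.exp (θ * Complex.I) • b))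
        rw [norm_neg, sub_neg_eq_add] at h3
        linarith
      have ha5 : 9 / 5 < ‖a‖ := by linarith
      rw [hg2 a ha5]
      have e : (fun θ : ℝ => g (a + Complex.exp (θ * Complex.I) • b)) =
          fun θ : ℝ => q (a + Complex.exp (θ * Complex.I) • b) := by
        funext θ
        exact hg2 _ (hout θ)
      rw [e]
      exact lext_q_submean a b
  · intro z
    by_cases h : ‖z‖ < 2
    · rw [hg1 z h]
      apply max_le
      · have h2 := hvhi z (by simpa using h)
        have h3 : v z / (16 * t) ≤ 0 := div_nonpos_of_nonpos_of_nonneg h2 h16.le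
        have h4 : 0 ≤ Real.log (1 + ‖z‖ ^ 2) := Real.log_nonneg (by nlinarith [norm_nonneg z])
        linarith
      · exact hqhi z
    · simp only [hg, if_neg h]
      exact hqhi z
  · intro z hz
    have h2 : ‖z‖ < 2 := by linarith
    rw [hg1 z h2]
    have h3 : q z ≤ v z / (16 * t) := by
      rw [le_div_iff₀ h16]
      have := hqneg z hz
      have := hvlo z
      linarith
    rw [max_eq_left h3]
    field_simp
    rfl

end HMA

end S_MA_LExt

section S_MA_Pert2

/-! # Module PERT2: zero sets of perturbed polynomials -/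

open MeasureTheory Metric Set
open scoped ENNReal Topology ContDiff

namespace HMA

theorem Pert2_pow_le (s : Multiset ℂ) {t : ℝ} (ht : 0 ≤ t) (h : ∀ w ∈ s, t ≤ ‖w‖) :
    t ^ s.card ≤ (s.map fun w => ‖w‖).prod := by
  induction s using Multiset.induction_on with
  | empty => simp
  | cons a s ih =>
    rw [Multiset.card_cons, Multiset.map_cons, Multiset.prod_cons, pow_succ']
    have h1 := h a (Multiset.mem_cons_self a s)
    have h2 := ih (fun w hw => h w (Multiset.mem_cons_of_mem hw))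
    have h3 : 0 ≤ t ^ s.card := by positivity
    have h4 : 0 ≤ ‖a‖ := norm_nonneg a
    calc t * t ^ s.card ≤ ‖a‖ * t ^ s.card := by gcongr
      _ ≤ ‖a‖ * (s.map fun w => ‖w‖).prod := by gcongr

theorem Pert2_norm_prod (s : Multiset ℂ) :
    ‖(s.map fun w => (0 : ℂ) - w).prod‖ = (s.map fun w => ‖w‖).prod := by
  induction s using Multiset.induction_on with
  | empty => simp
  | cons a s ih =>
    rw [Multiset.map_cons, Multiset.prod_cons, Multiset.map_cons, Multiset.prod_cons, norm_mul, ih,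
      zero_sub, norm_neg]

/-- a root of small modulus -/
theorem Pert2_root {q : Polynomial ℂ} (hd : 1 ≤ q.natDegree) :
    ∃ w : ℂ, q.eval w = 0 ∧ ‖q.leadingCoeff‖ * ‖w‖ ^ q.natDegree ≤ ‖q.eval 0‖ := by
  have hq0 : q ≠ 0 := by
    intro h
    rw [h, Polynomial.natDegree_zero] at hd
    omega
  have hcard : q.roots.card = q.natDegree := IsAlgClosed.card_roots_eq_natDegree
  have hne : q.roots.toFinset.Nonempty := by
    rw [Multiset.toFinset_nonempty]
    intro h
    rw [h, Multiset.card_zero] at hcard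
    omega
  obtain ⟨w, hw, hmin⟩ := Finset.exists_min_image q.roots.toFinset (fun w => ‖w‖) hne
  rw [Multiset.mem_toFinset] at hw
  refine ⟨w, (Polynomial.mem_roots hq0).1 hw, ?_⟩
  have h1 := Pert2_pow_le q.roots (norm_nonneg w) (fun x hx => hmin x (Multiset.mem_toFinset.2 hx))
  rw [(IsAlgClosed.splits q).eval_eq_prod_roots 0, norm_mul, Pert2_norm_prod, ← hcard]
  gcongr

/-- the zero set of `P` is in a small neighbourhood of the zero set of `P'` (on lines parallel
to `p`: product of the roots) -/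
theorem nearZ_pert {V : Type} [NormedAddCommGroup V] [InnerProductSpace ℂ V]
    [FiniteDimensional ℂ V] {d : ℕ} (hd : 1 ≤ d) {P P' : V → ℂ} (hP : HP V d P) (hP' : HP V d P')
    {p : V} (hp : ‖p‖ = 1) (hp' : 1 / 2 ≤ ‖P' p‖) {r : ℝ} (hr : 0 < r) (hr1 : r ≤ 1 / 2) {τ : ℝ}
    (hτ : τ ≤ (r / 4) ^ d) (hPP' : ∀ x, ‖P' x - P x‖ ≤ τ * ‖x‖ ^ d) :
    nearZ P r ⊆ nearZ P' (2 * r) := by
  rintro x ⟨hx0, y, hy, hyx⟩
  obtain ⟨f, -, hf2, hf3⟩ := hp_coeff (LinearMap.id : V →ₗ[ℂ] V) p hP'
  have hPp : P' p ≠ 0 := by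
    intro h
    rw [h, norm_zero] at hp'
    norm_num at hp'
  set q : Polynomial ℂ := pol d (fun k => f k y) with hq
  have hqe : ∀ w, q.eval w = P' (y + w • p) := by
    intro w
    have := hf2 y w
    rw [LinearMap.id_apply] at this
    rw [this, hq, pol, Polynomial.eval_finsetSum]
    simp
  have hqc : ∀ k, q.coeff k = if k ∈ Finset.range (d + 1) then f k y else 0 := by
    intro k
    rw [hq, pol, Polynomial.finsetSum_coeff]
    simp only [Polynomial.coeff_C_mul, Polynomial.coeff_X_pow, mul_ite, mul_one, mul_zero]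
    exact Finset.sum_ite_eq _ _ _
  have hqd : q.coeff d = P' p := by
    rw [hqc, if_pos (by simp), hf3]
  have hqnat : q.natDegree = d := by
    apply le_antisymm
    · rw [Polynomial.natDegree_le_iff_coeff_eq_zero]
      intro k hk
      rw [hqc, if_neg (by simp; omega)]
    · apply Polynomial.le_natDegree_of_ne_zero
      rw [hqd]
      exact hPp
  obtain ⟨w, hw, hwle⟩ := Pert2_root (q := q) (by omega)
  have hlead : q.leadingCoeff = P' p := by
    rw [Polynomial.leadingCoeff, hqnat, hqd]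
  rw [hlead, hqnat, hqe 0, zero_smul, add_zero] at hwle
  rw [hqe] at hw
  have hP'y : ‖P' y‖ ≤ τ * ‖y‖ ^ d := by
    have := hPP' y
    rwa [hy, sub_zero] at this
  have hw1 : ‖w‖ ^ d ≤ (r / 2 * ‖y‖) ^ d := by
    have h1 : 1 / 2 * ‖w‖ ^ d ≤ τ * ‖y‖ ^ d := by
      calc 1 / 2 * ‖w‖ ^ d ≤ ‖P' p‖ * ‖w‖ ^ d := by gcongr
        _ ≤ ‖P' y‖ := hwle
        _ ≤ τ * ‖y‖ ^ d := hP'y
    have h2 : τ * ‖y‖ ^ d ≤ (r / 4) ^ d * ‖y‖ ^ d := by gcongr
    have h3 : (2 : ℝ) ≤ 2 ^ d := by
      calc (2 : ℝ) = 2 ^ 1 := by norm_num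
        _ ≤ 2 ^ d := pow_le_pow_right₀ (by norm_num) hd
    have h4 : (r / 2 * ‖y‖) ^ d = 2 ^ d * ((r / 4) ^ d * ‖y‖ ^ d) := by
      rw [← mul_pow, ← mul_pow]
      congr 1
      ring
    rw [h4]
    have h5 : 0 ≤ (r / 4) ^ d * ‖y‖ ^ d := by positivity
    nlinarith
  have hw2 : ‖w‖ ≤ r / 2 * ‖y‖ := by
    apply le_of_pow_le_pow_left₀ (by omega : d ≠ 0) (by positivity) hw1
  have hyn : ‖y‖ ≤ 3 / 2 * ‖x‖ := by
    have h1 : y = x + (y - x) := by abel
    calc ‖y‖ = ‖x + (y - x)‖ := by rw [← h1]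
      _ ≤ ‖x‖ + ‖y - x‖ := norm_add_le _ _
      _ ≤ ‖x‖ + r * ‖x‖ := by gcongr
      _ ≤ 3 / 2 * ‖x‖ := by nlinarith [norm_nonneg x]
  refine ⟨hx0, y + w • p, hw, ?_⟩
  have h1 : y + w • p - x = (y - x) + w • p := by abel
  rw [h1]
  refine (norm_add_le _ _).trans ?_
  rw [norm_smul, hp, mul_one]
  have h2 : r / 2 * ‖y‖ ≤ r / 2 * (3 / 2 * ‖x‖) := by gcongr
  nlinarith [norm_nonneg x]

end HMA

end S_MA_Pert2
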