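import Mathlib
import Pool.Agent.H85.MG.G1a

/-! Moderate measures and Hölder continuous potentials, part G2c: this file joins several modules to save build time. -/

section S_MA_RadInt

/-! # Module RADINT: integrals of `(‖z‖² + τ)^(-n)` over balls and shells -/

open MeasureTheory Metric Set
open scoped ENNReal Topology ContDiff

namespace HMA

theorem RadInt_finrank (n : ℕ) : Module.finrank ℝ (Cn n) = 2 * n := by
  have h := Module.finrank_mul_finrank ℝ ℂ (Cn n)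
  rw [Complex.finrank_real_complex, finrank_euclideanSpace, Fintype.card_fin] at h
  exact h.symm

/-- the volume of balls -/
theorem RadInt_vol (n : ℕ) (y : Cn n) (r : ℝ) (hr : 0 < r) :
    (volume (ball y r)).toReal = r ^ (2 * n) * (volume (ball (0 : Cn n) 1)).toReal := by
  rw [Measure.addHaar_ball_of_pos volume y hr, RadInt_finrank, ENNReal.toReal_mul,
    ENNReal.toReal_ofReal (by positivity)]

theorem RadInt_cont (n : ℕ) (y : Cn n) (τ : ℝ) (hτ : 0 < τ) :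
    Continuous fun z : Cn n => ((‖z - y‖ ^ 2 + τ) ^ n)⁻¹ := by
  apply Continuous.inv₀
  · fun_prop
  · intro z
    positivity

theorem RadInt_int (n : ℕ) (y x : Cn n) (r τ : ℝ) (hτ : 0 < τ) :
    IntegrableOn (fun z : Cn n => ((‖z - y‖ ^ 2 + τ) ^ n)⁻¹) (ball x r) :=
  ((RadInt_cont n y τ hτ).continuousOn.integrableOn_compact
    (isCompact_closedBall x r)).mono_set ball_subset_closedBall

/-- lower bound on one shell -/
theorem RadInt_shell (n : ℕ) (y : Cn n) (r τ : ℝ) (hr : 0 < r) (hτ : 0 < τ) (h : τ ≤ r ^ 2) :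
    (2 ^ n)⁻¹ * ((1 - (4 ^ n)⁻¹) * (volume (ball (0 : Cn n) 1)).toReal) ≤
      ∫ z in ball y r \ ball y (r / 2), ((‖z - y‖ ^ 2 + τ) ^ n)⁻¹ := by
  have hfin : ∀ s : ℝ, volume (ball y s) ≠ ⊤ := fun s => measure_ball_lt_top.ne
  have hsub : ball y (r / 2) ⊆ ball y r := ball_subset_ball (by linarith)
  have hfin' : volume (ball y r \ ball y (r / 2)) ≠ ⊤ :=
    ne_top_of_le_ne_top (hfin r) (measure_mono sdiff_subset)
  have hvol : (volume (ball y r \ ball y (r / 2))).toReal =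
      r ^ (2 * n) * ((1 - (4 ^ n)⁻¹) * (volume (ball (0 : Cn n) 1)).toReal) := by
    rw [measure_sdiff hsub measurableSet_ball.nullMeasurableSet (hfin _),
      ENNReal.toReal_sub_of_le (measure_mono hsub) (hfin _), RadInt_vol n y r hr,
      RadInt_vol n y (r / 2) (by positivity), div_pow, pow_mul (2 : ℝ) 2 n]
    norm_num
    field_simp
  have h1 : ∫ z in ball y r \ ball y (r / 2), ((2 * r ^ 2) ^ n)⁻¹ ≤
      ∫ z in ball y r \ ball y (r / 2), ((‖z - y‖ ^ 2 + τ) ^ n)⁻¹ := by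
    apply setIntegral_mono_on
    · exact integrableOn_const hfin'
    · exact (RadInt_int n y y r τ hτ).mono_set sdiff_subset
    · exact measurableSet_ball.diff measurableSet_ball
    · intro z hz
      have hz1 : ‖z - y‖ < r := by
        have := hz.1
        rwa [mem_ball_iff_norm] at this
      apply inv_anti₀ (by positivity)
      apply pow_le_pow_left₀ (by positivity)
      nlinarith [norm_nonneg (z - y)]
  rw [setIntegral_const, smul_eq_mul, Measure.real, hvol] at h1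
  refine le_trans (le_of_eq ?_) h1
  rw [mul_pow, ← pow_mul]
  field_simp

/-- induction over dyadic shells -/
theorem RadInt_dyadic (n : ℕ) (y : Cn n) (τ : ℝ) (hτ : 0 < τ) (N : ℕ) :
    ∀ r : ℝ, 0 < r → 4 ^ N * τ ≤ 4 * r ^ 2 →
      (2 ^ n)⁻¹ * ((1 - (4 ^ n)⁻¹) * (volume (ball (0 : Cn n) 1)).toReal) * N ≤
        ∫ z in ball y r, ((‖z - y‖ ^ 2 + τ) ^ n)⁻¹ := by
  induction N with
  | zero =>
    intro r hr h
    simp only [Nat.cast_zero, mul_zero]
    apply setIntegral_nonneg measurableSet_ball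
    intro z hz
    positivity
  | succ N ih =>
    intro r hr h
    have h4 : (1 : ℝ) ≤ 4 ^ N := one_le_pow₀ (by norm_num)
    have h' : 4 ^ N * τ ≤ r ^ 2 := by
      rw [pow_succ] at h
      linarith
    have h1 := ih (r / 2) (by positivity) (by rw [div_pow]; linarith)
    have hτr : τ ≤ r ^ 2 := by nlinarith
    have h2 := RadInt_shell n y r τ hr hτ hτr
    have hsub : ball y (r / 2) ⊆ ball y r := ball_subset_ball (by linarith)
    have h3 : ∫ z in ball y r, ((‖z - y‖ ^ 2 + τ) ^ n)⁻¹ =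
        (∫ z in ball y r \ ball y (r / 2), ((‖z - y‖ ^ 2 + τ) ^ n)⁻¹) +
        ∫ z in ball y (r / 2), ((‖z - y‖ ^ 2 + τ) ^ n)⁻¹ := by
      rw [← setIntegral_union disjoint_sdiff_left measurableSet_ball
        ((RadInt_int n y y r τ hτ).mono_set sdiff_subset) (RadInt_int n y y (r / 2) τ hτ),
        sdiff_union_of_subset hsub]
    rw [h3]
    push_cast
    linarith

/-- upper bound on the shell and logarithmic lower bound on the ball -/
theorem rad_int (n : ℕ) (hn : 1 ≤ n) : ∃ c K : ℝ, 0 < c ∧ 0 < K ∧ ∀ (ρ τ : ℝ) (y : Cn n),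
    0 < ρ → ρ ≤ 1 → 0 < τ → τ ≤ ρ ^ 2 →
      (∫ z in ball y ρ \ ball y (ρ / 2), ((‖z - y‖ ^ 2 + τ) ^ n)⁻¹ ≤ K) ∧
      (c * Real.log (ρ ^ 2 / τ) - K ≤ ∫ z in ball y (ρ / 2), ((‖z - y‖ ^ 2 + τ) ^ n)⁻¹) := by
  set V : ℝ := (volume (ball (0 : Cn n) 1)).toReal with hV
  have hVpos : 0 < V := by
    rw [hV]
    exact ENNReal.toReal_pos (measure_ball_pos _ _ one_pos).ne' measure_ball_lt_top.ne
  set c₀ : ℝ := (2 ^ n)⁻¹ * ((1 - (4 ^ n)⁻¹) * V) with hc₀
  have h4n : (4 ^ n : ℝ)⁻¹ < 1 := by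
    apply inv_lt_one_of_one_lt₀
    exact one_lt_pow₀ (by norm_num) (by omega)
  have hc₀pos : 0 < c₀ := by
    rw [hc₀]
    have : 0 < 1 - (4 ^ n : ℝ)⁻¹ := by linarith
    positivity
  have hlog4 : 0 < Real.log 4 := Real.log_pos (by norm_num)
  refine ⟨c₀ / Real.log 4, c₀ + 4 ^ n * V, by positivity, by positivity, ?_⟩
  intro ρ τ y hρ hρ1 hτ hτρ
  constructor
  · have hfin' : volume (ball y ρ \ ball y (ρ / 2)) ≠ ⊤ :=
      ne_top_of_le_ne_top measure_ball_lt_top.ne (measure_mono sdiff_subset : _ ≤ volume (ball y ρ))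
    have h1 : ∫ z in ball y ρ \ ball y (ρ / 2), ((‖z - y‖ ^ 2 + τ) ^ n)⁻¹ ≤
        ∫ z in ball y ρ \ ball y (ρ / 2), (((ρ / 2) ^ 2) ^ n)⁻¹ := by
      apply setIntegral_mono_on
      · exact (RadInt_int n y y ρ τ hτ).mono_set sdiff_subset
      · exact integrableOn_const hfin'
      · exact measurableSet_ball.diff measurableSet_ball
      · intro z hz
        have hz1 : ρ / 2 ≤ ‖z - y‖ := by
          have := hz.2
          rw [mem_ball_iff_norm] at this
          exact not_lt.mp this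
        apply inv_anti₀ (by positivity)
        apply pow_le_pow_left₀ (by positivity)
        nlinarith
    rw [setIntegral_const, smul_eq_mul, Measure.real] at h1
    have h2 : (volume (ball y ρ \ ball y (ρ / 2))).toReal ≤ ρ ^ (2 * n) * V := by
      rw [hV, ← RadInt_vol n y ρ hρ]
      exact ENNReal.toReal_mono measure_ball_lt_top.ne (measure_mono sdiff_subset)
    have h3 : (volume (ball y ρ \ ball y (ρ / 2))).toReal * (((ρ / 2) ^ 2) ^ n)⁻¹ ≤
        ρ ^ (2 * n) * V * (((ρ / 2) ^ 2) ^ n)⁻¹ := by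
      apply mul_le_mul_of_nonneg_right h2
      positivity
    have h4 : ρ ^ (2 * n) * V * (((ρ / 2) ^ 2) ^ n)⁻¹ = 4 ^ n * V := by
      rw [div_pow, div_pow, ← pow_mul ρ 2 n]
      norm_num
      field_simp
    linarith
  · have hq : 1 ≤ ρ ^ 2 / τ := by
      rw [le_div_iff₀ hτ]
      linarith
    have hlq : 0 ≤ Real.log (ρ ^ 2 / τ) := Real.log_nonneg hq
    set N : ℕ := ⌊Real.log (ρ ^ 2 / τ) / Real.log 4⌋₊ with hN
    have hN1 : (N : ℝ) ≤ Real.log (ρ ^ 2 / τ) / Real.log 4 :=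
      Nat.floor_le (by positivity)
    have hN2 : Real.log (ρ ^ 2 / τ) / Real.log 4 < N + 1 := Nat.lt_floor_add_one _
    have h4N : (4 : ℝ) ^ N ≤ ρ ^ 2 / τ := by
      rw [← Real.log_le_log_iff (by positivity) (by positivity), Real.log_pow]
      rw [le_div_iff₀ hlog4] at hN1
      exact hN1
    have h5 := RadInt_dyadic n y τ hτ N (ρ / 2) (by positivity) (by
      rw [le_div_iff₀ hτ] at h4N
      rw [div_pow]
      linarith)
    have h6 : c₀ / Real.log 4 * Real.log (ρ ^ 2 / τ) ≤ c₀ * (N + 1) := by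
      rw [div_mul_eq_mul_div, mul_div_assoc]
      exact mul_le_mul_of_nonneg_left hN2.le hc₀pos.le
    have h7 : 0 < 4 ^ n * V := by positivity
    rw [← hV, ← hc₀] at h5
    linarith

end HMA

end S_MA_RadInt

section S_MA_StepA

/-! # Module STEPA: coisometries, dimension one, total mass -/

open MeasureTheory Metric Set
open scoped ENNReal Topology ContDiff

namespace HMA

theorem StepA_norm_inner_self {E : Type} [NormedAddCommGroup E] [InnerProductSpace ℂ E] (x : E) :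
    ‖(inner ℂ x x : ℂ)‖ = ‖x‖ * ‖x‖ := by
  rw [inner_self_eq_norm_sq_to_K, norm_pow, RCLike.norm_ofReal, abs_of_nonneg (norm_nonneg x), sq]

section

variable {V W : Type} [NormedAddCommGroup V] [InnerProductSpace ℂ V] [NormedAddCommGroup W]
  [InnerProductSpace ℂ W] {L : V →ₗ[ℂ] W}

theorem coi_id : Coi (LinearMap.id : V →ₗ[ℂ] V) :=
  ⟨LinearIsometry.id, fun _ _ => rfl⟩

theorem Coi.norm_le (h : Coi L) (x : V) : ‖L x‖ ≤ ‖x‖ := by
  obtain ⟨J, hJ⟩ := h
  have h1 : ‖L x‖ * ‖L x‖ ≤ ‖x‖ * ‖L x‖ := by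
    calc ‖L x‖ * ‖L x‖ = ‖inner ℂ (L x) (L x)‖ := by
          rw [StepA_norm_inner_self]
      _ = ‖inner ℂ x (J (L x))‖ := by rw [hJ]
      _ ≤ ‖x‖ * ‖J (L x)‖ := norm_inner_le_norm _ _
      _ = ‖x‖ * ‖L x‖ := by rw [J.norm_map]
  rcases eq_or_lt_of_le (norm_nonneg (L x)) with h0 | h0
  · rw [← h0]
    exact norm_nonneg x
  · exact le_of_mul_le_mul_right h1 h0

theorem Coi.exists_norm_eq (h : Coi L) (y : W) : ∃ x : V, L x = y ∧ ‖x‖ = ‖y‖ := by
  obtain ⟨J, hJ⟩ := h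
  refine ⟨J y, ?_, J.norm_map y⟩
  apply ext_inner_right ℂ
  intro y'
  rw [hJ, J.inner_map_map]

theorem Coi.finrank_le [FiniteDimensional ℂ V] (h : Coi L) :
    Module.finrank ℂ W ≤ Module.finrank ℂ V := by
  obtain ⟨J, hJ⟩ := h
  exact LinearMap.finrank_le_finrank_of_injective (f := J.toLinearMap) J.injective

/-- composition with the orthogonal projection to the complement of `p` -/
theorem Coi.proj [FiniteDimensional ℂ W] (h : Coi L) (p : W) :
    ∃ L' : V →ₗ[ℂ] ↥(ℂ ∙ p)ᗮ, Coi L' ∧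
      ∀ x, L' x = (ℂ ∙ p)ᗮ.orthogonalProjectionOnto (L x) := by
  obtain ⟨J, hJ⟩ := h
  refine ⟨((ℂ ∙ p)ᗮ.orthogonalProjectionOnto : W →L[ℂ] ↥(ℂ ∙ p)ᗮ).toLinearMap.comp L, ?_,
    fun x => rfl⟩
  refine ⟨J.comp (ℂ ∙ p)ᗮ.subtypeₗᵢ, ?_⟩
  intro x y
  show inner ℂ ((ℂ ∙ p)ᗮ.orthogonalProjectionOnto (L x)) y = inner ℂ x (J (y : W))
  rw [← hJ]
  exact Submodule.inner_orthogonalProjectionOnto_eq_of_mem_right y (L x)

end

theorem rem_total {V : Type} [NormedAddCommGroup V] [InnerProductSpace ℂ V] [Nontrivial V]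
    [MeasurableSpace V] {μ : Measure V} {C ε : ℝ} (h : Rem V μ C ε) :
    μ {x | x ≠ 0} ≤ ENNReal.ofReal C := by
  obtain ⟨v, hv⟩ := exists_ne (0 : V)
  have hv0 : (0 : ℝ) < ‖v‖ := norm_pos_iff.2 hv
  set e : V := ((‖v‖ : ℂ)⁻¹) • v with he
  have he1 : ‖e‖ = 1 := by
    rw [he, norm_smul, norm_inv, Complex.norm_real, norm_norm, inv_mul_cancel₀ hv0.ne']
  have h1 := h 1 le_rfl (fun x => inner ℂ e x) ?_ ?_ 1 one_pos le_rfl
  · rw [Real.one_rpow, mul_one] at h1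
    refine le_trans (measure_mono ?_) h1
    intro x hx
    refine ⟨hx, ?_⟩
    rw [one_pow, one_mul, pow_one]
    calc ‖inner ℂ e x‖ ≤ ‖e‖ * ‖x‖ := norm_inner_le_norm _ _
      _ = ‖x‖ := by rw [he1, one_mul]
  · exact HP.linear ((innerSL ℂ e : V →L[ℂ] ℂ).toLinearMap)
  · refine ⟨e, he1.le, ?_⟩
    show 1 ≤ ‖inner ℂ e e‖
    rw [StepA_norm_inner_self, he1, one_mul]

theorem stN_one (N : ℕ) (C Λ : ℝ) : StN 1 N C Λ 1 1 := by
  intro V _ _ _ μ W _ _ _ L _ hW _ _ d hd P hP hPne r hr hr1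
  obtain ⟨x0, hx0⟩ := hPne
  have hx0' : x0 ≠ 0 := by
    rintro rfl
    exact hx0 (hP.map_zero hd)
  have hall : ∀ y : W, ∃ c : ℂ, c • x0 = y := by
    intro y
    exact exists_smul_eq_of_finrank_eq_one hW hx0' y
  have hzero : ∀ y, P y = 0 → y = 0 := by
    intro y hy
    obtain ⟨c, rfl⟩ := hall y
    rw [hP.hom] at hy
    rcases mul_eq_zero.1 hy with h | h
    · rw [pow_eq_zero_iff (by omega)] at h
      rw [h, zero_smul]
    · exact absurd h hx0
  have hempty : {x | L x ∈ nearZ P r} = (∅ : Set V) := by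
    apply Set.eq_empty_of_forall_notMem
    rintro x ⟨hx, y, hy, hyx⟩
    rw [hzero y hy, zero_sub, norm_neg] at hyx
    have h0 : 0 < ‖L x‖ := norm_pos_iff.2 hx
    nlinarith
  rw [hempty, measure_empty]
  exact bot_le

end HMA

end S_MA_StepA

section S_MA_Chart

/-! # Module CHART: affine charts of projective space -/

open MeasureTheory Metric Set
open scoped ENNReal Topology ContDiff

namespace HMA

theorem Chart_cont_apply {m : ℕ} (j : Fin m) : Continuous (fun x : Cn m => x j) := by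
  fun_prop

/-- the coordinates other than `i` -/
noncomputable def Chart_rem {n : ℕ} (i : Fin (n + 1)) (x : Cn (n + 1)) : Cn n :=
  WithLp.toLp 2 (fun j => x (i.succAbove j))

theorem Chart_rem_norm {n : ℕ} (i : Fin (n + 1)) (x : Cn (n + 1)) : ‖Chart_rem i x‖ ≤ ‖x‖ := by
  rw [EuclideanSpace.norm_eq, EuclideanSpace.norm_eq]
  apply Real.sqrt_le_sqrt
  rw [Fin.sum_univ_succAbove _ i]
  have : 0 ≤ ‖x i‖ ^ 2 := by positivity
  simp only [Chart_rem]
  linarith

theorem Chart_apply_norm {m : ℕ} (x : Cn m) (i : Fin m) : ‖x i‖ ≤ ‖x‖ :=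
  PiLp.norm_apply_le x i

theorem part_meas {n : ℕ} (i : Fin (n + 1)) : MeasurableSet (part i) := by
  unfold part
  have h1 : {x : Cn (n + 1) | x ≠ 0 ∧ ∀ j, ‖x j‖ ≤ ‖x i‖}
      = {0}ᶜ ∩ ⋂ j, {x : Cn (n + 1) | ‖x j‖ ≤ ‖x i‖} := by
    ext x
    simp
  rw [h1]
  refine (measurableSet_singleton 0).compl.inter (MeasurableSet.iInter fun j => ?_)
  exact measurableSet_le (Chart_cont_apply j).norm.measurable (Chart_cont_apply i).norm.measurable

theorem aff_meas {n : ℕ} (i : Fin (n + 1)) : Measurable (aff (n := n) i) := by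
  unfold aff
  refine (PiLp.continuous_toLp 2 _).measurable.comp (measurable_pi_lambda _ fun j => ?_)
  exact (Chart_cont_apply _).measurable.div (Chart_cont_apply i).measurable

theorem iUnion_part {n : ℕ} : (⋃ i, part (n := n) i) = {0}ᶜ := by
  ext x
  simp only [mem_iUnion, mem_compl_iff, mem_singleton_iff, part, mem_ofPred_eq]
  constructor
  · rintro ⟨i, h, _⟩
    exact h
  · intro h
    obtain ⟨i, hi⟩ := Finite.exists_max (fun j => ‖x j‖)
    exact ⟨i, h, hi⟩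

theorem Chart_cha_self {n : ℕ} (i : Fin (n + 1)) (z : Cn n) : (cha i z) i = 1 := by
  simp [cha]

theorem Chart_cha_above {n : ℕ} (i : Fin (n + 1)) (z : Cn n) (j : Fin n) :
    (cha i z) (i.succAbove j) = z j := by
  simp [cha]

theorem cha_aff {n : ℕ} {i : Fin (n + 1)} {x : Cn (n + 1)} (hx : x i ≠ 0) :
    x = x i • cha i (aff i x) := by
  ext j
  refine Fin.succAboveCases i ?_ (fun k => ?_) j
  · rw [PiLp.smul_apply, Chart_cha_self, smul_eq_mul, mul_one]
  · rw [PiLp.smul_apply, Chart_cha_above, smul_eq_mul]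
    simp only [aff]
    field_simp

theorem aff_bound {n : ℕ} {i : Fin (n + 1)} {x : Cn (n + 1)} (hx : x ∈ part i) :
    x i ≠ 0 ∧ ‖aff i x‖ ≤ n + 1 ∧ ‖x‖ ≤ (n + 1) * ‖x i‖ := by
  obtain ⟨h0, hmax⟩ := hx
  have hi : x i ≠ 0 := by
    intro hi
    apply h0
    ext j
    have := hmax j
    rw [hi, norm_zero] at this
    simpa using this
  have hpos : 0 < ‖x i‖ := norm_pos_iff.mpr hi
  refine ⟨hi, ?_, ?_⟩
  · rw [EuclideanSpace.norm_eq, Real.sqrt_le_left (by positivity)]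
    have h1 : ∑ j, ‖(aff i x) j‖ ^ 2 ≤ ∑ _j : Fin n, (1 : ℝ) := by
      apply Finset.sum_le_sum
      intro j _
      simp only [aff, norm_div]
      have : ‖x (i.succAbove j)‖ / ‖x i‖ ≤ 1 := by
        rw [div_le_one hpos]
        exact hmax _
      exact pow_le_one₀ (by positivity) this
    rw [Finset.sum_const, Finset.card_univ, Fintype.card_fin, nsmul_eq_mul, mul_one] at h1
    have h2 : (0 : ℝ) ≤ n := Nat.cast_nonneg n
    nlinarith
  · rw [EuclideanSpace.norm_eq, Real.sqrt_le_left (by positivity)]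
    have h1 : ∑ j, ‖x j‖ ^ 2 ≤ ∑ _j : Fin (n + 1), ‖x i‖ ^ 2 := by
      apply Finset.sum_le_sum
      intro j _
      exact pow_le_pow_left₀ (norm_nonneg _) (hmax j) 2
    rw [Finset.sum_const, Finset.card_univ, Fintype.card_fin, nsmul_eq_mul] at h1
    push_cast at h1
    have h2 : (0 : ℝ) ≤ n := Nat.cast_nonneg n
    have h3 : 0 ≤ ‖x i‖ ^ 2 := by positivity
    nlinarith [mul_nonneg h2 h3, mul_nonneg (mul_nonneg h2 h2) h3]

theorem norm_cha {n : ℕ} (i : Fin (n + 1)) (z : Cn n) : ‖cha i z‖ = Real.sqrt (1 + ‖z‖ ^ 2) := by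
  rw [EuclideanSpace.norm_eq, Fin.sum_univ_succAbove _ i, Chart_cha_self]
  congr 1
  rw [EuclideanSpace.norm_sq_eq]
  simp only [Chart_cha_above, norm_one, one_pow]

theorem cha_sub {n : ℕ} (i : Fin (n + 1)) (z z' : Cn n) : ‖cha i z - cha i z'‖ = ‖z - z'‖ := by
  rw [EuclideanSpace.norm_eq, EuclideanSpace.norm_eq, Fin.sum_univ_succAbove _ i]
  simp only [PiLp.sub_apply, Chart_cha_self, Chart_cha_above]
  simp

theorem Chart_cha_cont {n : ℕ} (i : Fin (n + 1)) : Continuous (cha (n := n) i) := by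
  apply Isometry.continuous
  apply Isometry.of_dist_eq
  intro z z'
  rw [dist_eq_norm, dist_eq_norm, cha_sub]

/-- the linear part of the chart -/
theorem Chart_cha_line {n : ℕ} (i : Fin (n + 1)) (b : Cn n) : ∃ b' : Cn (n + 1),
    ∀ (a : Cn n) (c : ℂ), cha i (a + c • b) = cha i a + c • b' := by
  refine ⟨WithLp.toLp 2 (Fin.insertNth (α := fun _ => ℂ) i (0 : ℂ) (fun j => b j)), fun a c => ?_⟩
  ext j
  refine Fin.succAboveCases i ?_ (fun k => ?_) j
  · simp [Chart_cha_self]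
  · simp [Chart_cha_above]

theorem logPsh_cha {n : ℕ} (i : Fin (n + 1)) {F : Cn (n + 1) → ℝ} (hF : LogPsh F) :
    LogPsh (fun z => F (cha i z)) := by
  refine ⟨fun z => hF.nonneg _, ?_, ?_⟩
  · exact UpperSemicontinuous.comp hF.usc (Chart_cha_cont i)
  · intro δ hδ a b
    obtain ⟨b', hb'⟩ := Chart_cha_line i b
    simp only [hb']
    exact hF.submean δ hδ _ _

/-- nearby points in homogeneous and affine coordinates -/
theorem aff_near {n : ℕ} {i : Fin (n + 1)} {x y : Cn (n + 1)} (hx : x ∈ part i) {r : ℝ}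
    (hr : 0 < r) (hr1 : 2 * (n + 1) * r ≤ 1) (hxy : ‖y - x‖ ≤ r * ‖x‖) :
    y i ≠ 0 ∧ ‖y i‖ ≤ (1 + (n + 1) * r) * ‖x i‖ ∧ ‖aff i y - aff i x‖ ≤ 8 * (n + 1) ^ 2 * r := by
  obtain ⟨hi, -, hxn⟩ := aff_bound hx
  have hpos : 0 < ‖x i‖ := norm_pos_iff.mpr hi
  have hn : (0 : ℝ) ≤ n := Nat.cast_nonneg n
  have h1 : ‖y i - x i‖ ≤ r * (n + 1) * ‖x i‖ := by
    calc ‖y i - x i‖ = ‖(y - x) i‖ := by rw [PiLp.sub_apply]
      _ ≤ ‖y - x‖ := Chart_apply_norm _ _
      _ ≤ r * ‖x‖ := hxy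
      _ ≤ r * ((n + 1) * ‖x i‖) := by gcongr
      _ = r * (n + 1) * ‖x i‖ := by ring
  have h2 : ‖y i - x i‖ ≤ ‖x i‖ / 2 := by nlinarith
  have h3 : ‖x i‖ / 2 ≤ ‖y i‖ := by
    have : ‖x i‖ ≤ ‖y i‖ + ‖y i - x i‖ := by
      have h4 := norm_sub_le (y i) (y i - x i)
      simpa using h4
    linarith
  have hyi : 0 < ‖y i‖ := by linarith
  have hy0 : y i ≠ 0 := norm_pos_iff.mp hyi
  refine ⟨hy0, ?_, ?_⟩
  · have h4 : ‖y i‖ ≤ ‖y i - x i‖ + ‖x i‖ := by simpa using norm_add_le (y i - x i) (x i)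
    nlinarith
  · have hid : aff i y - aff i x = (y i)⁻¹ • Chart_rem i (y - x)
        + ((x i - y i) / (x i * y i)) • Chart_rem i x := by
      ext j
      simp only [aff, Chart_rem, PiLp.sub_apply, PiLp.add_apply, PiLp.smul_apply, smul_eq_mul]
      field_simp
      ring
    rw [hid]
    refine (norm_add_le _ _).trans ?_
    rw [norm_smul, norm_smul, norm_inv, norm_div, norm_mul]
    have h5 : ‖Chart_rem i (y - x)‖ ≤ r * ((n + 1) * ‖x i‖) :=
      ((Chart_rem_norm i _).trans hxy).trans (by gcongr)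
    have h6 : ‖Chart_rem i x‖ ≤ (n + 1) * ‖x i‖ := (Chart_rem_norm i _).trans hxn
    have h7 : ‖y i‖⁻¹ ≤ 2 / ‖x i‖ := by
      rw [inv_eq_one_div, div_le_div_iff₀ hyi hpos]
      linarith
    have h8 : ‖y i‖⁻¹ * ‖Chart_rem i (y - x)‖ ≤ 2 * r * (n + 1) := by
      calc ‖y i‖⁻¹ * ‖Chart_rem i (y - x)‖ ≤ 2 / ‖x i‖ * (r * ((n + 1) * ‖x i‖)) :=
            mul_le_mul h7 h5 (norm_nonneg _) (by positivity)
        _ = 2 * r * (n + 1) := by field_simp
    have h9 : ‖x i - y i‖ / (‖x i‖ * ‖y i‖) ≤ 2 * r * (n + 1) / ‖x i‖ := by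
      rw [div_le_div_iff₀ (mul_pos hpos hyi) hpos, norm_sub_rev]
      have h10 : r * (n + 1) * ‖x i‖ * ‖x i‖ ≤ 2 * r * (n + 1) * (‖x i‖ * ‖y i‖) := by
        have : 0 ≤ r * (n + 1) * ‖x i‖ := by positivity
        nlinarith
      calc ‖y i - x i‖ * ‖x i‖ ≤ r * (n + 1) * ‖x i‖ * ‖x i‖ := by gcongr
        _ ≤ 2 * r * (n + 1) * (‖x i‖ * ‖y i‖) := h10
    have h11 : ‖x i - y i‖ / (‖x i‖ * ‖y i‖) * ‖Chart_rem i x‖ ≤ 2 * r * (n + 1) * (n + 1) := by
      calc ‖x i - y i‖ / (‖x i‖ * ‖y i‖) * ‖Chart_rem i x‖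
          ≤ 2 * r * (n + 1) / ‖x i‖ * ((n + 1) * ‖x i‖) :=
            mul_le_mul h9 h6 (norm_nonneg _) (by positivity)
        _ = 2 * r * (n + 1) * (n + 1) := by field_simp
    nlinarith [mul_nonneg hn hr.le, mul_nonneg (mul_nonneg hn hn) hr.le]

end HMA

end S_MA_Chart

section S_MA_Roots2

/-! # Module ROOTS2: continuous simple root functions are analytic -/

open MeasureTheory Metric Set
open scoped ENNReal Topology ContDiff

namespace HMA

theorem Roots2_eval (d : ℕ) (c : ℕ → ℂ) (w : ℂ) :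
    (pol d c).eval w = ∑ k ∈ Finset.range (d + 1), c k * w ^ k := by
  simp [pol, Polynomial.eval_finsetSum]

/-- the polynomial as a function of coefficients and variable -/
noncomputable def Roots2_F {W : Type} (d : ℕ) (f : ℕ → W → ℂ) (q : W × ℂ) : ℂ :=
  (pol d (fun k => f k q.1)).eval q.2

theorem Roots2_contDiff {W : Type} [NormedAddCommGroup W] [NormedSpace ℂ W]
    [FiniteDimensional ℂ W] {d : ℕ} (f : ℕ → W → ℂ) (hf : ∀ k ≤ d, f k ∈ PF W)
    (n : WithTop ℕ∞) : ContDiff ℂ n (Roots2_F d f) := by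
  have h : Roots2_F d f = fun q : W × ℂ => ∑ k ∈ Finset.range (d + 1), f k q.1 * q.2 ^ k := by
    funext q
    exact Roots2_eval _ _ _
  rw [h]
  refine ContDiff.sum fun k hk => ?_
  have hk' : k ≤ d := Nat.lt_succ_iff.1 (Finset.mem_range.1 hk)
  exact ((PF.contDiff (hf k hk') n).comp contDiff_fst).mul (contDiff_snd.pow k)

/-- local solution of the equation near a simple root -/
theorem Roots2_local {W : Type} [NormedAddCommGroup W] [NormedSpace ℂ W]
    [FiniteDimensional ℂ W] {d : ℕ} (f : ℕ → W → ℂ) (hf : ∀ k ≤ d, f k ∈ PF W)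
    (z₁ : W) (w₁ : ℂ) (h0 : Roots2_F d f (z₁, w₁) = 0)
    (h1 : (Polynomial.derivative (pol d (fun k => f k z₁))).eval w₁ ≠ 0) :
    ∃ ψ : W → ℂ, AnalyticAt ℂ ψ z₁ ∧ ψ z₁ = w₁ ∧
      ∀ᶠ v in 𝓝 (z₁, w₁), Roots2_F d f v = 0 ↔ ψ v.1 = v.2 := by
  have : CompleteSpace W := FiniteDimensional.complete ℂ W
  have hcd : ContDiffAt ℂ ω (Roots2_F d f) (z₁, w₁) := (Roots2_contDiff f hf ω).contDiffAt
  have hn : (ω : WithTop ℕ∞) ≠ 0 := by simp
  have hfd : HasFDerivAt (Roots2_F d f) (fderiv ℂ (Roots2_F d f) (z₁, w₁)) (z₁, w₁) :=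
    (hcd.differentiableAt hn).hasFDerivAt
  have hcomp : HasFDerivAt (fun w : ℂ => Roots2_F d f (z₁, w))
      (fderiv ℂ (Roots2_F d f) (z₁, w₁) ∘L ContinuousLinearMap.inr ℂ W ℂ) w₁ :=
    HasFDerivAt.comp w₁ hfd (hasFDerivAt_prodMk_right z₁ w₁)
  have hpol : HasDerivAt (fun w : ℂ => Roots2_F d f (z₁, w))
      ((Polynomial.derivative (pol d (fun k => f k z₁))).eval w₁) w₁ :=
    (pol d (fun k => f k z₁)).hasDerivAt w₁
  have heq := hcomp.unique hpol.hasFDerivAt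
  have hinv : (fderiv ℂ (Roots2_F d f) (z₁, w₁) ∘L ContinuousLinearMap.inr ℂ W ℂ).IsInvertible := by
    rw [heq]
    refine ⟨ContinuousLinearEquiv.unitsEquivAut ℂ (Units.mk0 _ h1), ?_⟩
    ext
    simp
  refine ⟨hcd.implicitFunction hn hinv, ?_, ?_, ?_⟩
  · exact (hcd.contDiffAt_implicitFunction hn hinv).analyticAt
  · exact hcd.implicitFunction_apply_self hn hinv
  · have h2 := hcd.eventually_apply_eq_iff_implicitFunction hn hinv
    rwa [h0] at h2

theorem root_analytic {W : Type} [NormedAddCommGroup W] [NormedSpace ℂ W]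
    [FiniteDimensional ℂ W] {d : ℕ} (f : ℕ → W → ℂ) (hf : ∀ k ≤ d, f k ∈ PF W)
    {z₁ : W} {h : W → ℂ} (hc : ContinuousAt h z₁)
    (h0 : ∀ᶠ z in 𝓝 z₁, (pol d (fun k => f k z)).eval (h z) = 0)
    (h1 : (Polynomial.derivative (pol d (fun k => f k z₁))).eval (h z₁) ≠ 0) :
    AnalyticAt ℂ h z₁ := by
  obtain ⟨ψ, hψ, -, hψ2⟩ := Roots2_local f hf z₁ (h z₁) h0.self_of_nhds h1
  have ht : Filter.Tendsto (fun z => (z, h z)) (𝓝 z₁) (𝓝 (z₁, h z₁)) :=
    Filter.Tendsto.prodMk_nhds Filter.tendsto_id hc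
  have h3 := ht.eventually hψ2
  refine hψ.congr ?_
  filter_upwards [h0, h3] with z hz hz3
  exact hz3.1 hz

end HMA

end S_MA_Roots2

section S_MA_Roots1

/-! # Module ROOTS1: continuous root functions on balls (covering space) -/

open MeasureTheory Metric Set
open scoped ENNReal Topology ContDiff

namespace HMA

section Roots1

variable {W : Type} [NormedAddCommGroup W]

/-- the zero set over the ball -/
def Roots1_E (d : ℕ) (f : ℕ → W → ℂ) (z₀ : W) (ρ : ℝ) : Type :=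
  {q : ↥(ball z₀ ρ) × ℂ // Roots2_F d f (q.1.1, q.2) = 0}

instance (d : ℕ) (f : ℕ → W → ℂ) (z₀ : W) (ρ : ℝ) : TopologicalSpace (Roots1_E d f z₀ ρ) :=
  inferInstanceAs (TopologicalSpace {q : ↥(ball z₀ ρ) × ℂ // Roots2_F d f (q.1.1, q.2) = 0})

instance (d : ℕ) (f : ℕ → W → ℂ) (z₀ : W) (ρ : ℝ) : T2Space (Roots1_E d f z₀ ρ) :=
  inferInstanceAs (T2Space {q : ↥(ball z₀ ρ) × ℂ // Roots2_F d f (q.1.1, q.2) = 0})

/-- the projection -/
def Roots1_p (d : ℕ) (f : ℕ → W → ℂ) (z₀ : W) (ρ : ℝ) (q : Roots1_E d f z₀ ρ) : ↥(ball z₀ ρ) :=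
  q.1.1

/-- bound for the roots -/
theorem Roots1_bound {d : ℕ} {c : ℕ → ℂ} {C : ℝ} (hd : c d ≠ 0)
    (hC : ∑ k ∈ Finset.range d, ‖c k‖ ≤ C) {w : ℂ} (hw : (pol d c).eval w = 0) :
    ‖w‖ ≤ max 1 (C / ‖c d‖) := by
  rcases le_or_gt ‖w‖ 1 with h1 | h1
  · exact h1.trans (le_max_left _ _)
  refine le_trans ?_ (le_max_right _ _)
  rw [Roots2_eval, Finset.sum_range_succ] at hw
  have hcd : 0 < ‖c d‖ := norm_pos_iff.2 hd
  rw [le_div_iff₀ hcd]
  rcases Nat.eq_zero_or_pos d with h0 | h0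
  · subst h0
    simp at hw
    exact absurd hw hd
  obtain ⟨e, rfl⟩ : ∃ e, d = e + 1 := ⟨d - 1, by omega⟩
  have h2 : c (e + 1) * w ^ (e + 1) = - ∑ k ∈ Finset.range (e + 1), c k * w ^ k := by
    linear_combination hw
  have h3 : ‖c (e + 1)‖ * ‖w‖ ^ (e + 1) ≤ C * ‖w‖ ^ e := by
    rw [← norm_pow, ← norm_mul, h2, norm_neg]
    refine (norm_sum_le _ _).trans ?_
    calc ∑ k ∈ Finset.range (e + 1), ‖c k * w ^ k‖
        ≤ ∑ k ∈ Finset.range (e + 1), ‖c k‖ * ‖w‖ ^ e := by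
          refine Finset.sum_le_sum fun k hk => ?_
          rw [norm_mul, norm_pow]
          refine mul_le_mul_of_nonneg_left ?_ (norm_nonneg _)
          exact pow_le_pow_right₀ h1.le (Nat.lt_succ_iff.1 (Finset.mem_range.1 hk))
      _ = (∑ k ∈ Finset.range (e + 1), ‖c k‖) * ‖w‖ ^ e := by rw [Finset.sum_mul]
      _ ≤ C * ‖w‖ ^ e := mul_le_mul_of_nonneg_right hC (by positivity)
  have h4 : 0 < ‖w‖ ^ e := by positivity
  rw [pow_succ, ← mul_assoc, mul_right_comm] at h3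
  have := le_of_mul_le_mul_right h3 h4
  linarith

theorem Roots1_continuous_p (d : ℕ) (f : ℕ → W → ℂ) (z₀ : W) (ρ : ℝ) :
    Continuous (Roots1_p d f z₀ ρ) :=
  continuous_fst.comp continuous_subtype_val

variable [NormedSpace ℂ W] [FiniteDimensional ℂ W]

theorem Roots1_closed_val {d : ℕ} {f : ℕ → W → ℂ} (hf : ∀ k ≤ d, f k ∈ PF W) (z₀ : W) (ρ : ℝ) :
    IsClosed {q : ↥(ball z₀ ρ) × ℂ | Roots2_F d f (q.1.1, q.2) = 0} := by
  have h := (Roots2_contDiff f hf 0).continuous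
  exact isClosed_eq (h.comp ((continuous_subtype_val.comp continuous_fst).prodMk continuous_snd))
    continuous_const

theorem Roots1_proper {d : ℕ} {f : ℕ → W → ℂ} (hf : ∀ k ≤ d, f k ∈ PF W)
    {a : ℂ} (ha : a ≠ 0) (hfd : ∀ z, f d z = a) (z₀ : W) (ρ : ℝ) :
    IsProperMap (Roots1_p d f z₀ ρ) := by
  have hW : ProperSpace W := FiniteDimensional.proper ℂ W
  have hlc : LocallyCompactSpace ↥(ball z₀ ρ) := isOpen_ball.locallyCompactSpace
  rw [isProperMap_iff_isCompact_preimage]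
  refine ⟨Roots1_continuous_p d f z₀ ρ, fun K hK => ?_⟩
  have hcont : ContinuousOn (fun z : ↥(ball z₀ ρ) => ∑ k ∈ Finset.range d, ‖f k z.1‖) K := by
    refine (continuous_finsetSum _ fun k hk => ?_).continuousOn
    have hk' : k ≤ d := (Finset.mem_range.1 hk).le
    exact ((PF.contDiff (hf k hk') 0).continuous.comp continuous_subtype_val).norm
  obtain ⟨C, hC⟩ := hK.bddAbove_image hcont
  have hE : Topology.IsClosedEmbedding
      (Subtype.val : {q : ↥(ball z₀ ρ) × ℂ // Roots2_F d f (q.1.1, q.2) = 0} → _) :=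
    (Roots1_closed_val hf z₀ ρ).isClosedEmbedding_subtypeVal
  have hcomp := hE.isCompact_preimage
    (hK.prod (isCompact_closedBall (0 : ℂ) (max 1 (C / ‖a‖))))
  have hset : Roots1_p d f z₀ ρ ⁻¹' K =
      (Subtype.val : {q : ↥(ball z₀ ρ) × ℂ // Roots2_F d f (q.1.1, q.2) = 0} → _) ⁻¹'
        (K ×ˢ closedBall (0 : ℂ) (max 1 (C / ‖a‖))) := by
    ext q
    constructor
    · intro hq
      refine ⟨hq, ?_⟩
      rw [mem_closedBall_zero_iff]
      have h1 := hC (mem_image_of_mem _ hq)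
      have h2 := Roots1_bound (c := fun k => f k q.1.1.1) (C := C) (d := d) (w := q.1.2)
        (by rw [hfd]; exact ha) h1 q.2
      rwa [hfd] at h2
    · intro hq
      exact hq.1
  rw [hset]
  exact hcomp

theorem Roots1_local {d : ℕ} {f : ℕ → W → ℂ} (hf : ∀ k ≤ d, f k ∈ PF W) (z₀ : W) {ρ : ℝ}
    (hs : ∀ z ∈ ball z₀ ρ, ∀ w : ℂ, (pol d (fun k => f k z)).eval w = 0 →
      (Polynomial.derivative (pol d (fun k => f k z))).eval w ≠ 0) :
    IsLocalHomeomorph (Roots1_p d f z₀ ρ) := by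
  -- the inclusion of `E` in the product
  have hval : Topology.IsInducing
      (fun q : Roots1_E d f z₀ ρ => (q.1.1.1, q.1.2)) := by
    have h1 : Topology.IsInducing (Subtype.val : {q : ↥(ball z₀ ρ) × ℂ //
        Roots2_F d f (q.1.1, q.2) = 0} → _) := Topology.IsInducing.subtypeVal
    have h2 : Topology.IsInducing (fun q : ↥(ball z₀ ρ) × ℂ => (q.1.1, q.2)) :=
      Topology.IsInducing.subtypeVal.prodMap Topology.IsInducing.id
    exact h2.comp h1
  have hopen : IsOpenMap (Roots1_p d f z₀ ρ) := by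
    rw [isOpenMap_iff_nhds_le]
    intro e N hN
    rw [Filter.mem_map, hval.nhds_eq_comap] at hN
    obtain ⟨N', hN', hNN⟩ := hN
    obtain ⟨ψ, hψ, hψ1, hψ2⟩ := Roots2_local f hf e.1.1.1 e.1.2 e.2 (hs _ e.1.1.2 _ e.2)
    have ht : Filter.Tendsto (fun z : ↥(ball z₀ ρ) => (z.1, ψ z.1)) (𝓝 e.1.1)
        (𝓝 (e.1.1.1, e.1.2)) := by
      have h1 : Filter.Tendsto (fun z : ↥(ball z₀ ρ) => z.1) (𝓝 e.1.1) (𝓝 e.1.1.1) :=
        continuous_subtype_val.continuousAt
      have h2 : Filter.Tendsto ψ (𝓝 e.1.1.1) (𝓝 e.1.2) := by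
        have := hψ.continuousAt.tendsto
        rwa [hψ1] at this
      exact h1.prodMk_nhds (h2.comp h1)
    have h3 : ∀ᶠ z in 𝓝 e.1.1, z ∈ N := by
      filter_upwards [ht.eventually hψ2, ht.eventually hN'] with z hz hz'
      have h4 : Roots2_F d f (z.1, ψ z.1) = 0 := hz.2 rfl
      exact hNN (a := (⟨(z, ψ z.1), h4⟩ : Roots1_E d f z₀ ρ)) hz'
    exact h3
  rw [isLocalHomeomorph_iff_isOpenEmbedding_restrict]
  intro e
  obtain ⟨ψ, hψ, hψ1, hψ2⟩ := Roots2_local f hf e.1.1.1 e.1.2 e.2 (hs _ e.1.1.2 _ e.2)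
  obtain ⟨U, hU, hUo, heU⟩ := _root_.eventually_nhds_iff.1 hψ2
  refine ⟨(fun q : Roots1_E d f z₀ ρ => (q.1.1.1, q.1.2)) ⁻¹' U, ?_, ?_⟩
  · exact (hUo.preimage hval.continuous).mem_nhds heU
  · refine Topology.IsOpenEmbedding.of_continuous_injective_isOpenMap ?_ ?_ ?_
    · exact (Roots1_continuous_p d f z₀ ρ).comp continuous_subtype_val
    · rintro ⟨q, hq⟩ ⟨q', hq'⟩ hqq
      have h1 : q.1.1 = q'.1.1 := hqq
      have h2 := (hU _ hq).1 q.2
      have h3 := (hU _ hq').1 q'.2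
      have h4 : q.1.2 = q'.1.2 := by
        rw [← h2, ← h3]
        show ψ q.1.1.1 = ψ q'.1.1.1
        rw [h1]
      exact Subtype.ext (Subtype.ext (Prod.ext h1 h4))
    · exact hopen.domRestrict (hUo.preimage hval.continuous)

theorem Roots1_covering {d : ℕ} {f : ℕ → W → ℂ} (hf : ∀ k ≤ d, f k ∈ PF W)
    {a : ℂ} (ha : a ≠ 0) (hfd : ∀ z, f d z = a) (z₀ : W) {ρ : ℝ}
    (hs : ∀ z ∈ ball z₀ ρ, ∀ w : ℂ, (pol d (fun k => f k z)).eval w = 0 →
      (Polynomial.derivative (pol d (fun k => f k z))).eval w ≠ 0) :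
    IsCoveringMap (Roots1_p d f z₀ ρ) := by
  rw [isCoveringMap_iff_isCoveringMapOn_univ]
  refine IsClosedMap.isCoveringMapOn_of_isLocalHomeomorphOn
    (Roots1_proper hf ha hfd z₀ ρ).isClosedMap ?_ (Roots1_local hf z₀ hs).isLocalHomeomorphOn
  intro z _
  have hpol : pol d (fun k => f k z.1) ≠ 0 := by
    intro h0
    refine hs z.1 z.2 0 ?_ ?_ <;> rw [h0] <;> simp
  have hfin : {w : ℂ | (pol d (fun k => f k z.1)).eval w = 0}.Finite := by
    have := Polynomial.finite_setOfPred_isRoot hpol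
    exact this
  refine Set.Finite.of_finite_image (f := fun q : Roots1_E d f z₀ ρ => q.1.2) (hfin.subset ?_) ?_
  · rintro w ⟨q, hq, rfl⟩
    have h1 : q.1.1 = z := hq
    have h2 := q.2
    rw [h1] at h2
    exact h2
  · intro q hq q' hq' h
    have h1 : q.1.1 = z := hq
    have h2 : q'.1.1 = z := hq'
    exact Subtype.ext (Prod.ext (h1.trans h2.symm) h)

end Roots1

/-- through every zero over the ball there is a unique continuous root function on the ball -/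
theorem roots_cont {W : Type} [NormedAddCommGroup W] [NormedSpace ℂ W]
    [FiniteDimensional ℂ W] {d : ℕ} (f : ℕ → W → ℂ) (hf : ∀ k ≤ d, f k ∈ PF W)
    {a : ℂ} (ha : a ≠ 0) (hfd : ∀ z, f d z = a) (z₀ : W) {ρ : ℝ} (hρ : 0 < ρ)
    (hs : ∀ z ∈ ball z₀ ρ, ∀ w : ℂ, (pol d (fun k => f k z)).eval w = 0 →
      (Polynomial.derivative (pol d (fun k => f k z))).eval w ≠ 0)
    (z₁ : W) (hz₁ : z₁ ∈ ball z₀ ρ) (w₁ : ℂ) (hw₁ : (pol d (fun k => f k z₁)).eval w₁ = 0) :
    ∃ h : W → ℂ, ContinuousOn h (ball z₀ ρ) ∧ h z₁ = w₁ ∧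
      (∀ z ∈ ball z₀ ρ, (pol d (fun k => f k z)).eval (h z) = 0) ∧
      ∀ h' : W → ℂ, ContinuousOn h' (ball z₀ ρ) → h' z₁ = w₁ →
        (∀ z ∈ ball z₀ ρ, (pol d (fun k => f k z)).eval (h' z) = 0) → EqOn h' h (ball z₀ ρ) := by
  classical
  have hcov := Roots1_covering hf ha hfd z₀ hs
  have hctr : ContractibleSpace ↥(ball z₀ ρ) := contractibleSpace_ball hρ
  have hlpc : LocallyPathConnectedSpace ↥(ball z₀ ρ) := (convex_ball z₀ ρ).locallyPathConnectedSpace
  obtain ⟨F, ⟨hF1, hF2⟩, hFu⟩ := hcov.existsUnique_continuousMap_lifts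
    (ContinuousMap.id ↥(ball z₀ ρ)) ⟨z₁, hz₁⟩
    (⟨(⟨z₁, hz₁⟩, w₁), hw₁⟩ : Roots1_E d f z₀ ρ) rfl
  have hF2' : ∀ z, (F z).1.1 = z := fun z => congrFun hF2 z
  refine ⟨fun z => if hz : z ∈ ball z₀ ρ then (F ⟨z, hz⟩).1.2 else 0, ?_, ?_, ?_, ?_⟩
  · rw [continuousOn_iff_continuous_domRestrict]
    have h1 : Continuous (fun z : ↥(ball z₀ ρ) => (F z).1.2) :=
      (continuous_snd.comp continuous_subtype_val).comp F.continuous
    refine h1.congr fun z => ?_
    simp [Set.domRestrict]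
  · simp only [dif_pos hz₁, hF1]
  · intro z hz
    simp only [dif_pos hz]
    have h1 := (F ⟨z, hz⟩).2
    rw [hF2'] at h1
    exact h1
  · intro h' hc' h1' h2' z hz
    have hc'' : Continuous (fun z : ↥(ball z₀ ρ) => h' z.1) :=
      continuousOn_iff_continuous_domRestrict.1 hc'
    have hcF : Continuous (fun z : ↥(ball z₀ ρ) =>
        (⟨(z, h' z.1), h2' z.1 z.2⟩ : Roots1_E d f z₀ ρ)) :=
      Continuous.subtype_mk (continuous_id.prodMk hc'') _
    have h3 := hFu ⟨_, hcF⟩ ⟨by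
      show (⟨(⟨z₁, hz₁⟩, h' z₁), h2' z₁ hz₁⟩ : Roots1_E d f z₀ ρ) = _
      exact Subtype.ext (Prod.ext rfl h1'), by funext z; rfl⟩
    have h4 := congrArg (fun G : C(↥(ball z₀ ρ), Roots1_E d f z₀ ρ) => (G ⟨z, hz⟩).1.2) h3
    simp only [dif_pos hz]
    exact h4

end HMA

end S_MA_Roots1

section S_MA_Roots

/-! # Module ROOTS: holomorphic root functions on balls -/

open MeasureTheory Metric Set
open scoped ENNReal Topology ContDiff

namespace HMA

theorem Roots_natDegree (d : ℕ) (c : ℕ → ℂ) : (pol d c).natDegree ≤ d := by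
  unfold pol
  refine Polynomial.natDegree_sum_le_of_forall_le _ _ fun k hk => ?_
  exact (Polynomial.natDegree_C_mul_X_pow_le _ _).trans (Nat.lt_succ_iff.1 (Finset.mem_range.1 hk))

theorem roots_on_ball {W : Type} [NormedAddCommGroup W] [NormedSpace ℂ W]
    [FiniteDimensional ℂ W] {d : ℕ} (f : ℕ → W → ℂ) (hf : ∀ k ≤ d, f k ∈ PF W)
    {a : ℂ} (ha : a ≠ 0) (hfd : ∀ z, f d z = a) (z₀ : W) {ρ : ℝ} (hρ : 0 < ρ)
    (hs : ∀ z ∈ ball z₀ ρ, ∀ w : ℂ, (pol d (fun k => f k z)).eval w = 0 →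
      (Polynomial.derivative (pol d (fun k => f k z))).eval w ≠ 0) :
    ∃ (ι : Type) (_ : Fintype ι) (h : ι → W → ℂ), Fintype.card ι ≤ d ∧
      (∀ i, ∀ z ∈ ball z₀ ρ, AnalyticAt ℂ (h i) z) ∧
      (∀ i, ∀ z ∈ ball z₀ ρ, (pol d (fun k => f k z)).eval (h i z) = 0) ∧
      ∀ z ∈ ball z₀ ρ, ∀ w : ℂ, (pol d (fun k => f k z)).eval w = 0 → ∃ i, h i z = w := by
  classical
  have hz₀ : z₀ ∈ ball z₀ ρ := mem_ball_self hρ
  have hp0 : pol d (fun k => f k z₀) ≠ 0 := by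
    intro h0
    refine hs z₀ hz₀ 0 ?_ ?_ <;> rw [h0] <;> simp
  let ι : Type := {w : ℂ // w ∈ (pol d (fun k => f k z₀)).roots.toFinset}
  have hroot : ∀ i : ι, (pol d (fun k => f k z₀)).eval i.1 = 0 := by
    intro i
    have := i.2
    rw [Multiset.mem_toFinset, Polynomial.mem_roots hp0] at this
    exact this
  choose h hh1 hh2 hh3 hh4 using fun i : ι =>
    roots_cont f hf ha hfd z₀ hρ hs z₀ hz₀ i.1 (hroot i)
  refine ⟨ι, inferInstance, h, ?_, ?_, hh3, ?_⟩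
  · rw [Fintype.card_coe]
    exact (Multiset.toFinset_card_le _).trans
      ((Polynomial.card_roots' _).trans (Roots_natDegree _ _))
  · intro i z hz
    have hnhds : ball z₀ ρ ∈ 𝓝 z := isOpen_ball.mem_nhds hz
    refine root_analytic f hf ((hh1 i).continuousAt hnhds) ?_ (hs z hz _ (hh3 i z hz))
    filter_upwards [hnhds] with y hy
    exact hh3 i y hy
  · intro z hz w hw
    obtain ⟨g, hg1, hg2, hg3, -⟩ := roots_cont f hf ha hfd z₀ hρ hs z hz w hw
    have hmem : g z₀ ∈ (pol d (fun k => f k z₀)).roots.toFinset := by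
      rw [Multiset.mem_toFinset, Polynomial.mem_roots hp0]
      exact hg3 z₀ hz₀
    refine ⟨⟨g z₀, hmem⟩, ?_⟩
    rw [← hh4 ⟨g z₀, hmem⟩ g hg1 rfl hg3 hz, hg2]

end HMA

end S_MA_Roots

section S_MA_RBnd

/-! # Module RBND: bound for the roots on lines through `p` (Schwarz lemma) -/

open MeasureTheory Metric Set
open scoped ENNReal Topology ContDiff

namespace HMA

theorem RBnd_pow (d : ℕ) (hd : 1 ≤ d) (s : ℝ) (hs : 0 ≤ s) (h : s ≤ 1 / d) :
    (1 + s) ^ d ≤ 11 / 4 := by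
  have hd0 : (0 : ℝ) < d := by exact_mod_cast hd
  have h1 : (1 + s) ^ d ≤ Real.exp 1 := by
    have h2 : 1 + s ≤ Real.exp s := by linarith [Real.add_one_le_exp s]
    calc (1 + s) ^ d ≤ Real.exp s ^ d := pow_le_pow_left₀ (by linarith) h2 d
      _ = Real.exp (d * s) := by rw [← Real.exp_nat_mul]
      _ ≤ Real.exp 1 := by
        apply Real.exp_le_exp.mpr
        rw [le_div_iff₀ hd0] at h
        linarith
  have h3 := Real.exp_one_lt_d9
  norm_num at h3 ⊢
  linarith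

theorem root_bound {V : Type} [NormedAddCommGroup V] [InnerProductSpace ℂ V]
    [FiniteDimensional ℂ V] {d : ℕ} (hd : 1 ≤ d) {P : V → ℂ} (hP : HP V d P)
    (hbd : ∀ x, ‖P x‖ ≤ 2 * ‖x‖ ^ d) {p : V} (hp : ‖p‖ = 1) (hPp : 1 / 2 ≤ ‖P p‖)
    {z : V} (hz : inner ℂ p z = 0) {w : ℂ} (h0 : P (z + w • p) = 0) :
    ‖w‖ ≤ 16 * d * ‖z‖ := by
  have hd0 : (0 : ℝ) < d := by exact_mod_cast hd
  have hd1 : (1 : ℝ) ≤ d := by exact_mod_cast hd
  by_cases hw : w = 0
  · rw [hw, norm_zero]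
    positivity
  have hw0 : 0 < ‖w‖ := norm_pos_iff.mpr hw
  by_contra hcon
  rw [not_le] at hcon
  set ζ : V := w⁻¹ • z with hζ
  have hPζ : P (p + ζ) = 0 := by
    have h1 : p + ζ = w⁻¹ • (z + w • p) := by
      rw [smul_add, smul_smul, inv_mul_cancel₀ hw, one_smul, hζ, add_comm]
    rw [h1, hP.hom, h0, mul_zero]
  have hζn : ‖ζ‖ = ‖z‖ / ‖w‖ := by
    rw [hζ, norm_smul, norm_inv]
    field_simp
  have hζlt : 16 * d * ‖ζ‖ < 1 := by
    rw [hζn, ← mul_div_assoc, div_lt_one hw0]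
    exact hcon
  have hζ0 : ζ ≠ 0 := by
    intro h
    rw [h, add_zero] at hPζ
    rw [hPζ, norm_zero] at hPp
    linarith
  have hζpos : 0 < ‖ζ‖ := norm_pos_iff.mpr hζ0
  set g : ℂ → ℂ := fun t => P (p + t • ζ) with hg
  have hgd : Differentiable ℂ g := by
    have h1 : ContDiff ℂ 1 P := PF.contDiff hP.poly 1
    have h2 : Differentiable ℂ P := h1.differentiable (by norm_num)
    exact h2.comp (by fun_prop)
  set R : ℝ := 1 / (d * ‖ζ‖) with hR
  have hRpos : 0 < R := by positivity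
  have hR16 : 16 < R := by
    rw [hR, lt_div_iff₀ (by positivity)]
    linarith
  have hg0 : ‖g 0‖ ≤ 2 := by
    have := hbd p
    rw [hp, one_pow, mul_one] at this
    simpa [hg] using this
  have hmaps : MapsTo g (ball 0 R) (ball (g 0) (31 / 4)) := by
    intro t ht
    rw [mem_ball_zero_iff] at ht
    rw [mem_ball_iff_norm]
    have h1 : ‖g t‖ ≤ 11 / 2 := by
      have h2 := hbd (p + t • ζ)
      have h3 : ‖p + t • ζ‖ ≤ 1 + ‖t‖ * ‖ζ‖ := by
        calc ‖p + t • ζ‖ ≤ ‖p‖ + ‖t • ζ‖ := norm_add_le _ _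
          _ = 1 + ‖t‖ * ‖ζ‖ := by rw [hp, norm_smul]
      have h4 : ‖t‖ * ‖ζ‖ ≤ 1 / d := by
        rw [le_div_iff₀ hd0]
        rw [hR, lt_div_iff₀ (by positivity)] at ht
        nlinarith
      have h5 := RBnd_pow d hd (‖t‖ * ‖ζ‖) (by positivity) h4
      have h6 : ‖p + t • ζ‖ ^ d ≤ (1 + ‖t‖ * ‖ζ‖) ^ d :=
        pow_le_pow_left₀ (norm_nonneg _) h3 d
      linarith
    calc ‖g t - g 0‖ ≤ ‖g t‖ + ‖g 0‖ := norm_sub_le _ _
      _ < 31 / 4 := by linarith
  have h1 : (1 : ℂ) ∈ ball (0 : ℂ) R := by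
    rw [mem_ball_zero_iff, norm_one]
    linarith
  have hS := Complex.dist_le_div_mul_dist_of_mapsTo_ball hgd.differentiableOn
    (hmaps.mono_right ball_subset_closedBall) h1
  have hg1 : g 1 = 0 := by
    simpa [hg] using hPζ
  have hg00 : g 0 = P p := by simp [hg]
  rw [hg1, hg00, dist_zero_left, dist_zero_right, norm_one, mul_one] at hS
  have h2 : (31 / 4 : ℝ) / R < 1 / 2 := by
    rw [div_lt_iff₀ hRpos]
    linarith
  linarith

end HMA

end S_MA_RBnd

section S_MA_NAff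

/-! # Module NAFF: homogenisation of polynomials; affine form of theorem N -/

open MeasureTheory Metric Set
open scoped ENNReal Topology ContDiff Pointwise

namespace HMA

/-- the coordinate functional -/
noncomputable def NAff_co {m : ℕ} (j : Fin m) : Cn m →ₗ[ℂ] ℂ where
  toFun := fun x => x j
  map_add' := fun x y => by simp
  map_smul' := fun c x => by simp

/-- homogenisation of degree `D` with respect to the coordinate `i` -/
noncomputable def NAff_hom {n : ℕ} (D : ℕ) (i : Fin (n + 1)) (P : MvPolynomial (Fin n) ℂ)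
    (x : Cn (n + 1)) : ℂ :=
  ∑ m ∈ P.support, P.coeff m * (x i ^ (D - ∑ j, m j) * ∏ j, x (i.succAbove j) ^ m j)

theorem NAff_deg {n : ℕ} {D : ℕ} {P : MvPolynomial (Fin n) ℂ} (hP : P.totalDegree ≤ D)
    {m : Fin n →₀ ℕ} (hm : m ∈ P.support) : ∑ j, m j ≤ D := by
  have h := MvPolynomial.le_totalDegree hm
  have h2 : (m.sum fun _ e => e) = ∑ j, m j := Finsupp.sum_fintype _ _ (fun _ => rfl)
  omega

theorem NAff_HP {n : ℕ} {D : ℕ} (i : Fin (n + 1)) {P : MvPolynomial (Fin n) ℂ}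
    (hP : P.totalDegree ≤ D) : HP (Cn (n + 1)) D (NAff_hom D i P) := by
  unfold NAff_hom
  apply HP.sum
  intro m hm
  apply HP.const_mul
  have hd := NAff_deg hP hm
  have h1 : HP (Cn (n + 1)) (1 * (D - ∑ j, m j)) (fun x => x i ^ (D - ∑ j, m j)) :=
    HP.pow (HP.linear (NAff_co i)) _
  have h2 : HP (Cn (n + 1)) (∑ j ∈ (Finset.univ : Finset (Fin n)), 1 * m j)
      (fun x => ∏ j ∈ (Finset.univ : Finset (Fin n)), x (i.succAbove j) ^ m j) := by
    apply HP.prod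
    intro j _
    exact HP.pow (HP.linear (NAff_co (i.succAbove j))) _
  have h3 := h1.mul h2
  have h4 : 1 * (D - ∑ j, m j) + ∑ j ∈ (Finset.univ : Finset (Fin n)), 1 * m j = D := by
    simp only [one_mul]
    omega
  rw [h4] at h3
  exact h3

theorem NAff_cha {n : ℕ} (D : ℕ) (i : Fin (n + 1)) (P : MvPolynomial (Fin n) ℂ) (z : Cn n) :
    NAff_hom D i P (cha i z) = ev P z := by
  unfold NAff_hom ev
  rw [MvPolynomial.eval_eq]
  apply Finset.sum_congr rfl
  intro m _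
  rw [Chart_cha_self, one_pow, one_mul]
  congr 1
  rw [Finset.prod_subset (Finset.subset_univ m.support)]
  · apply Finset.prod_congr rfl
    intro j _
    rw [Chart_cha_above]
  · intro j _ hj
    rw [Finsupp.notMem_support_iff.mp hj, pow_zero]

theorem NAff_ev_ne {n : ℕ} {P : MvPolynomial (Fin n) ℂ} (hP : P ≠ 0) : ∃ z : Cn n, ev P z ≠ 0 := by
  by_contra hcon
  push Not at hcon
  apply hP
  apply MvPolynomial.funext
  intro x
  have := hcon (WithLp.toLp 2 x)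
  simpa [ev] using this

theorem NAff_ev_cont {n : ℕ} (P : MvPolynomial (Fin n) ℂ) : Continuous (fun z : Cn n => ev P z) := by
  unfold ev
  have h := MvPolynomial.continuous_eval P
  exact h.comp (continuous_pi fun i => Chart_cont_apply i)

theorem NAff_closed {n : ℕ} (P : MvPolynomial (Fin n) ℂ) (r : ℝ) : IsClosed (affZ P r) := by
  have h1 : affZ P r = {z : Cn n | ev P z = 0} + closedBall (0 : Cn n) r := by
    ext z
    rw [Set.mem_add]
    constructor
    · rintro ⟨z', hz', hr⟩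
      refine ⟨z', hz', z - z', ?_, by abel⟩
      rw [mem_closedBall_zero_iff, norm_sub_rev]
      exact hr
    · rintro ⟨z', hz', w, hw, rfl⟩
      refine ⟨z', hz', ?_⟩
      rw [mem_closedBall_zero_iff] at hw
      have : z' - (z' + w) = -w := by abel
      rw [this, norm_neg]
      exact hw
  rw [h1]
  apply IsClosed.add_right_of_isCompact
  · exact isClosed_eq (NAff_ev_cont P) continuous_const
  · exact isCompact_closedBall _ _

theorem affN_of_stN {n N : ℕ} {μ : Measure (Cn (n + 1))} {C Λ C' c : ℝ} (hC' : 0 < C')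
    (hc : 0 < c) (hμ : μ {x | x ≠ 0} ≤ ENNReal.ofReal C) (hT : Tub (Cn (n + 1)) μ N C Λ)
    (hN : StN (n + 1) N C Λ C' c) (i : Fin (n + 1)) :
    AffN n ((μ.restrict (part i)).map (aff i)) C' c := by
  intro D P hD hP hdeg r hr hr1
  have hmeas : MeasurableSet (affZ P r) := (NAff_closed P r).measurableSet
  rw [Measure.map_apply (aff_meas i) hmeas, Measure.restrict_apply (aff_meas i hmeas)]
  obtain ⟨z0, hz0⟩ := NAff_ev_ne hP
  have hmain := hN (Cn (n + 1)) μ (Cn (n + 1)) LinearMap.id coi_id (by simp) hμ hT D hD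
    (NAff_hom D i P) (NAff_HP i hdeg) ⟨cha i z0, by rw [NAff_cha]; exact hz0⟩ r hr hr1
  refine le_trans (measure_mono ?_) hmain
  rintro x ⟨⟨z', hz', hr'⟩, hx⟩
  obtain ⟨hxi, -, -⟩ := aff_bound hx
  refine ⟨hx.1, x i • cha i z', ?_, ?_⟩
  · rw [(NAff_HP i hdeg).hom, NAff_cha, hz', mul_zero]
  · have h1 : x i • cha i z' - (LinearMap.id : Cn (n + 1) →ₗ[ℂ] Cn (n + 1)) x
        = x i • (cha i z' - cha i (aff i x)) := by
      rw [smul_sub, ← cha_aff hxi]
      rfl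
    rw [h1, norm_smul, cha_sub]
    have h2 : ‖x i‖ ≤ ‖x‖ := Chart_apply_norm x i
    calc ‖x i‖ * ‖z' - aff i x‖ ≤ ‖x‖ * r := mul_le_mul h2 hr' (norm_nonneg _) (norm_nonneg _)
      _ = r * ‖(LinearMap.id : Cn (n + 1) →ₗ[ℂ] Cn (n + 1)) x‖ := by
        rw [mul_comm]
        rfl

end HMA

end S_MA_NAff
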