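import Mathlib
import Pool.Agent.H85.MG.G1a
import Pool.Agent.H85.MG.G2a
import Pool.Agent.H85.MG.G2b

/-! Moderate measures and Hölder continuous potentials, part G3a: this file joins several modules to save build time. -/

section S_MA_Dbar2

/-! # Module DBAR2: integration by parts, Levi form, holomorphy -/

open MeasureTheory Metric Set
open scoped ENNReal Topology ContDiff

namespace HMA

variable {n : ℕ}

theorem dbar2_cont {f : Cn n → ℂ} (hf : ContDiff ℝ ∞ f) (v : Cn n) :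
    Continuous (fun z => fderiv ℝ f z v) :=
  (hf.continuous_fderiv (by simp)).clm_apply continuous_const

theorem dbar2_ibp {f g : Cn n → ℂ} (hf : ContDiff ℝ ∞ f) (hg : Tst g) (v : Cn n) :
    ∫ z, f z * fderiv ℝ g z v = - ∫ z, fderiv ℝ f z v * g z := by
  have hgc : HasCompactSupport (fun z => fderiv ℝ g z v) := by
    have := (hg.supp.fderiv (𝕜 := ℝ)).comp_left (g := fun L : Cn n →L[ℝ] ℂ => L v) (by simp)
    exact this
  apply integral_mul_fderiv_eq_neg_fderiv_mul_of_integrable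
  · apply Continuous.integrable_of_hasCompactSupport
    · exact (dbar2_cont hf v).mul hg.smooth.continuous
    · exact hg.supp.mul_left
  · apply Continuous.integrable_of_hasCompactSupport
    · exact hf.continuous.mul (dbar2_cont hg.smooth v)
    · exact hgc.mul_left
  · apply Continuous.integrable_of_hasCompactSupport
    · exact hf.continuous.mul hg.smooth.continuous
    · exact hg.supp.mul_left
  · intro x _
    exact (hf.differentiable (by simp)) x
  · intro x _
    exact (hg.smooth.differentiable (by simp)) x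

theorem dbar2_int1 {f g : Cn n → ℂ} (hf : ContDiff ℝ ∞ f) (hg : Tst g) (v : Cn n) :
    Integrable (fun z => fderiv ℝ f z v * g z) := by
  apply Continuous.integrable_of_hasCompactSupport
  · exact (dbar2_cont hf v).mul hg.smooth.continuous
  · exact hg.supp.mul_left

theorem dbar2_int2 {f g : Cn n → ℂ} (hf : ContDiff ℝ ∞ f) (hg : Tst g) (v : Cn n) :
    Integrable (fun z => f z * fderiv ℝ g z v) := by
  have hgc : HasCompactSupport (fun z => fderiv ℝ g z v) := by
    have := (hg.supp.fderiv (𝕜 := ℝ)).comp_left (g := fun L : Cn n →L[ℝ] ℂ => L v) (by simp)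
    exact this
  apply Continuous.integrable_of_hasCompactSupport
  · exact hf.continuous.mul (dbar2_cont hg.smooth v)
  · exact hgc.mul_left

theorem dbar2_ibp_gen {f g : Cn n → ℂ} (hf : ContDiff ℝ ∞ f) (hg : Tst g) (v w : Cn n) (c : ℂ) :
    ∫ z, (fderiv ℝ f z v + c * fderiv ℝ f z w) / 2 * g z =
      - ∫ z, f z * ((fderiv ℝ g z v + c * fderiv ℝ g z w) / 2) := by
  have e1 : (fun z => (fderiv ℝ f z v + c * fderiv ℝ f z w) / 2 * g z) =
      fun z => (1 / 2 : ℂ) * (fderiv ℝ f z v * g z) + (c / 2) * (fderiv ℝ f z w * g z) := by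
    funext z; ring
  have e2 : (fun z => f z * ((fderiv ℝ g z v + c * fderiv ℝ g z w) / 2)) =
      fun z => (1 / 2 : ℂ) * (f z * fderiv ℝ g z v) + (c / 2) * (f z * fderiv ℝ g z w) := by
    funext z; ring
  rw [e1, e2, integral_add ((dbar2_int1 hf hg v).const_mul _) ((dbar2_int1 hf hg w).const_mul _),
    integral_add ((dbar2_int2 hf hg v).const_mul _) ((dbar2_int2 hf hg w).const_mul _),
    integral_const_mul, integral_const_mul, integral_const_mul, integral_const_mul,
    dbar2_ibp hf hg v, dbar2_ibp hf hg w]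
  ring

/-- integration by parts -/
theorem ibp_db {f g : Cn n → ℂ} (hf : ContDiff ℝ ∞ f) (hg : Tst g) (j : Fin n) :
    ∫ z, db j f z * g z = - ∫ z, f z * db j g z := by
  have := dbar2_ibp_gen hf hg (bv n j) (Complex.I • bv n j) Complex.I
  simpa only [db] using this

theorem ibp_dd {f g : Cn n → ℂ} (hf : ContDiff ℝ ∞ f) (hg : Tst g) (j : Fin n) :
    ∫ z, dd j f z * g z = - ∫ z, f z * dd j g z := by
  have := dbar2_ibp_gen hf hg (bv n j) (Complex.I • bv n j) (-Complex.I)
  simpa only [dd, neg_mul, ← sub_eq_add_neg] using this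

theorem dbar2_fd2 {φ : Cn n → ℝ} (hφ : ContDiff ℝ ∞ φ) (z u v : Cn n) :
    fderiv ℝ (fun w => fderiv ℝ φ w u) z v = fderiv ℝ (fderiv ℝ φ) z v u := by
  have h1 : DifferentiableAt ℝ (fderiv ℝ φ) z :=
    ((hφ.fderiv_right (m := ∞) (by simp)).differentiable (by simp)) z
  have := (h1.hasFDerivAt.clm_apply (hasFDerivAt_const u z)).fderiv
  rw [this]
  simp

theorem dbar2_symm {φ : Cn n → ℝ} (hφ : ContDiff ℝ ∞ φ) (z u v : Cn n) :
    fderiv ℝ (fderiv ℝ φ) z v u = fderiv ℝ (fderiv ℝ φ) z u v := by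
  have h2 : minSmoothness ℝ 2 ≤ (∞ : WithTop ℕ∞) := by
    simp only [minSmoothness_of_isRCLikeNormedField]
    exact (WithTop.coe_le_coe.2 (le_top : (2 : ℕ∞) ≤ ⊤) : ((2 : ℕ∞) : WithTop ℕ∞) ≤ ((⊤ : ℕ∞) : WithTop ℕ∞))
  have h := (hφ.contDiffAt (x := z)).isSymmSndFDerivAt h2
  exact h v u

theorem dbar2_coe {φ : Cn n → ℝ} (hφ : ContDiff ℝ ∞ φ) (z u : Cn n) :
    fderiv ℝ (fun w => (φ w : ℂ)) z u = ((fderiv ℝ φ z u : ℝ) : ℂ) := by
  have h1 : HasFDerivAt φ (fderiv ℝ φ z) z := ((hφ.differentiable (by simp)) z).hasFDerivAt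
  have h2 := (Complex.ofRealCLM.hasFDerivAt (x := φ z)).comp z h1
  have h3 : fderiv ℝ (fun w => (φ w : ℂ)) z = Complex.ofRealCLM.comp (fderiv ℝ φ z) := h2.fderiv
  rw [h3]; simp

theorem dbar2_dd {φ : Cn n → ℝ} (hφ : ContDiff ℝ ∞ φ) (z : Cn n) (j k : Fin n) :
    db k (dd j (fun w => (φ w : ℂ))) z =
      (((fderiv ℝ (fderiv ℝ φ) z (bv n k) (bv n j) +
        fderiv ℝ (fderiv ℝ φ) z (Complex.I • bv n k) (Complex.I • bv n j) : ℝ) : ℂ) +
      Complex.I * ((fderiv ℝ (fderiv ℝ φ) z (Complex.I • bv n k) (bv n j) -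
        fderiv ℝ (fderiv ℝ φ) z (bv n k) (Complex.I • bv n j) : ℝ) : ℂ)) / 4 := by
  have e1 : dd j (fun w => (φ w : ℂ)) = fun w =>
      (((fderiv ℝ φ w (bv n j) : ℝ) : ℂ) -
        Complex.I * ((fderiv ℝ φ w (Complex.I • bv n j) : ℝ) : ℂ)) / 2 := by
    funext w
    simp only [dd]
    rw [dbar2_coe hφ, dbar2_coe hφ]
  have hs : ∀ u : Cn n, ContDiff ℝ ∞ (fun w => fderiv ℝ φ w u) := fun u =>
    (hφ.fderiv_right (m := ∞) (by simp)).clm_apply contDiff_const
  have e2 : ∀ v : Cn n, fderiv ℝ (dd j (fun w => (φ w : ℂ))) z v =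
      (((fderiv ℝ (fderiv ℝ φ) z v (bv n j) : ℝ) : ℂ) -
        Complex.I * ((fderiv ℝ (fderiv ℝ φ) z v (Complex.I • bv n j) : ℝ) : ℂ)) / 2 := by
    intro v
    rw [e1]
    have d1 : HasFDerivAt (fun w => ((fderiv ℝ φ w (bv n j) : ℝ) : ℂ))
        (Complex.ofRealCLM.comp (fderiv ℝ (fun w => fderiv ℝ φ w (bv n j)) z)) z :=
      (Complex.ofRealCLM.hasFDerivAt).comp z
        (((hs (bv n j)).differentiable (by simp)) z).hasFDerivAt
    have d2 : HasFDerivAt (fun w => ((fderiv ℝ φ w (Complex.I • bv n j) : ℝ) : ℂ))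
        (Complex.ofRealCLM.comp (fderiv ℝ (fun w => fderiv ℝ φ w (Complex.I • bv n j)) z)) z :=
      (Complex.ofRealCLM.hasFDerivAt).comp z
        (((hs (Complex.I • bv n j)).differentiable (by simp)) z).hasFDerivAt
    have d3 := (d1.sub (d2.const_mul Complex.I)).mul_const ((2 : ℂ)⁻¹)
    have e3 : (fun w => (((fderiv ℝ φ w (bv n j) : ℝ) : ℂ) -
        Complex.I * ((fderiv ℝ φ w (Complex.I • bv n j) : ℝ) : ℂ)) / 2) =
        fun w => (((fderiv ℝ φ w (bv n j) : ℝ) : ℂ) -
        Complex.I * ((fderiv ℝ φ w (Complex.I • bv n j) : ℝ) : ℂ)) * (2 : ℂ)⁻¹ := by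
      funext w; rw [div_eq_mul_inv]
    rw [e3]
    have d4 := d3.fderiv
    have d5 := congrArg (fun L : Cn n →L[ℝ] ℂ => L v) d4
    refine Eq.trans d5 ?_
    simp only [smul_apply, sub_apply,
      ContinuousLinearMap.comp_apply, Complex.ofRealCLM_apply, smul_eq_mul]
    rw [dbar2_fd2 hφ, dbar2_fd2 hφ]
    ring
  rw [db, e2, e2]
  push_cast
  have hI : Complex.I * Complex.I = -1 := Complex.I_mul_I
  linear_combination (-(((fderiv ℝ (fderiv ℝ φ) z (Complex.I • bv n k) (Complex.I • bv n j) : ℝ) : ℂ)) / 4) * hI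

theorem dbar2_expand (ξ : Cn n) :
    ξ = ∑ j, ((ξ j).re • bv n j + (ξ j).im • (Complex.I • bv n j)) := by
  have h1 : ξ = ∑ j, (ξ j) • bv n j := by
    ext k
    simp [bv, Finset.sum_apply, Pi.single_apply]
  conv_lhs => rw [h1]
  apply Finset.sum_congr rfl
  intro j _
  ext k
  simp [bv]
  by_cases hk : k = j
  · subst hk
    simp
  · simp [hk]

theorem dbar2_expand' (ξ : Cn n) :
    Complex.I • ξ = ∑ j, ((-(ξ j).im) • bv n j + (ξ j).re • (Complex.I • bv n j)) := by
  have h := dbar2_expand (Complex.I • ξ)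
  simpa using h

theorem dbar2_bilin (B : Cn n →L[ℝ] Cn n →L[ℝ] ℝ) (a b : Fin n → ℝ) :
    B (∑ j, (a j • bv n j + b j • (Complex.I • bv n j)))
      (∑ j, (a j • bv n j + b j • (Complex.I • bv n j))) =
    ∑ j, ∑ k, (a j * a k * B (bv n k) (bv n j) + b j * a k * B (bv n k) (Complex.I • bv n j) +
      a j * b k * B (Complex.I • bv n k) (bv n j) +
      b j * b k * B (Complex.I • bv n k) (Complex.I • bv n j)) := by
  have hgen : ∀ u : Fin n → Cn n, B (∑ j, u j) (∑ j, u j) = ∑ j, ∑ k, B (u k) (u j) := by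
    intro u
    rw [map_sum]
    apply Finset.sum_congr rfl
    intro j _
    have h1 : B (∑ k, u k) = ∑ k, B (u k) := map_sum B _ _
    rw [h1]
    simp
  rw [hgen]
  apply Finset.sum_congr rfl
  intro j _
  apply Finset.sum_congr rfl
  intro k _
  simp only [map_add, map_smul, add_apply, smul_apply, smul_eq_mul]
  ring

theorem lev_eq {φ : Cn n → ℝ} (hφ : ContDiff ℝ ∞ φ) (z ξ : Cn n) :
    (lev φ z ξ : ℂ) = ∑ j, ∑ k, db k (dd j (fun w => (φ w : ℂ))) z * ξ j *
      (starRingEnd ℂ) (ξ k) := by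
  set B := fderiv ℝ (fderiv ℝ φ) z with hB
  have hlev : lev φ z ξ = (B ξ ξ + B (Complex.I • ξ) (Complex.I • ξ)) / 4 := by
    rw [lev, dbar2_fd2 hφ, dbar2_fd2 hφ]
  have e1 : B ξ ξ = _ :=
    (by rw [← dbar2_expand ξ] :
      B ξ ξ = B (∑ j, ((ξ j).re • bv n j + (ξ j).im • (Complex.I • bv n j)))
      (∑ j, ((ξ j).re • bv n j + (ξ j).im • (Complex.I • bv n j)))).trans
      (dbar2_bilin B (fun j => (ξ j).re) (fun j => (ξ j).im))
  have e2 : B (Complex.I • ξ) (Complex.I • ξ) = _ :=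
    (by rw [← dbar2_expand' ξ] :
      B (Complex.I • ξ) (Complex.I • ξ) =
        B (∑ j, ((-(ξ j).im) • bv n j + (ξ j).re • (Complex.I • bv n j)))
      (∑ j, ((-(ξ j).im) • bv n j + (ξ j).re • (Complex.I • bv n j)))).trans
      (dbar2_bilin B (fun j => -(ξ j).im) (fun j => (ξ j).re))
  simp only at e1 e2
  have hterm : ∀ j k : Fin n, db k (dd j (fun w => (φ w : ℂ))) z * ξ j *
      (starRingEnd ℂ) (ξ k) =
      ((((B (bv n k) (bv n j) + B (Complex.I • bv n k) (Complex.I • bv n j)) *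
          ((ξ j).re * (ξ k).re + (ξ j).im * (ξ k).im) -
        (B (Complex.I • bv n k) (bv n j) - B (bv n k) (Complex.I • bv n j)) *
          ((ξ j).im * (ξ k).re - (ξ j).re * (ξ k).im)) / 4 : ℝ) : ℂ) +
      Complex.I * ((((B (bv n k) (bv n j) + B (Complex.I • bv n k) (Complex.I • bv n j)) *
          ((ξ j).im * (ξ k).re - (ξ j).re * (ξ k).im) +
        (B (Complex.I • bv n k) (bv n j) - B (bv n k) (Complex.I • bv n j)) *
          ((ξ j).re * (ξ k).re + (ξ j).im * (ξ k).im)) / 4 : ℝ) : ℂ) := by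
    intro j k
    rw [dbar2_dd hφ z j k]
    apply Complex.ext
    · simp [Complex.mul_re, Complex.mul_im]
      ring
    · simp [Complex.mul_re, Complex.mul_im]
      ring
  have hsum0 : ∑ j, ∑ k, (((B (bv n k) (bv n j) + B (Complex.I • bv n k) (Complex.I • bv n j)) *
          ((ξ j).im * (ξ k).re - (ξ j).re * (ξ k).im) +
        (B (Complex.I • bv n k) (bv n j) - B (bv n k) (Complex.I • bv n j)) *
          ((ξ j).re * (ξ k).re + (ξ j).im * (ξ k).im)) / 4 : ℝ) = 0 := by
    have hanti : ∀ j k : Fin n,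
        (((B (bv n k) (bv n j) + B (Complex.I • bv n k) (Complex.I • bv n j)) *
          ((ξ j).im * (ξ k).re - (ξ j).re * (ξ k).im) +
        (B (Complex.I • bv n k) (bv n j) - B (bv n k) (Complex.I • bv n j)) *
          ((ξ j).re * (ξ k).re + (ξ j).im * (ξ k).im)) / 4 : ℝ) =
        - (((B (bv n j) (bv n k) + B (Complex.I • bv n j) (Complex.I • bv n k)) *
          ((ξ k).im * (ξ j).re - (ξ k).re * (ξ j).im) +
        (B (Complex.I • bv n j) (bv n k) - B (bv n j) (Complex.I • bv n k)) *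
          ((ξ k).re * (ξ j).re + (ξ k).im * (ξ j).im)) / 4 : ℝ) := by
      intro j k
      have s1 : B (bv n k) (bv n j) = B (bv n j) (bv n k) := dbar2_symm hφ z _ _
      have s2 : B (Complex.I • bv n k) (Complex.I • bv n j) =
        B (Complex.I • bv n j) (Complex.I • bv n k) := dbar2_symm hφ z _ _
      have s3 : B (Complex.I • bv n k) (bv n j) = B (bv n j) (Complex.I • bv n k) :=
        dbar2_symm hφ z _ _
      have s4 : B (bv n k) (Complex.I • bv n j) = B (Complex.I • bv n j) (bv n k) :=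
        dbar2_symm hφ z _ _
      rw [s1, s2, s3, s4]
      ring
    set S := ∑ j, ∑ k, (((B (bv n k) (bv n j) + B (Complex.I • bv n k) (Complex.I • bv n j)) *
          ((ξ j).im * (ξ k).re - (ξ j).re * (ξ k).im) +
        (B (Complex.I • bv n k) (bv n j) - B (bv n k) (Complex.I • bv n j)) *
          ((ξ j).re * (ξ k).re + (ξ j).im * (ξ k).im)) / 4 : ℝ) with hS
    have h1 : S = -S := by
      conv_lhs => rw [hS]
      rw [Finset.sum_congr rfl (fun j _ => Finset.sum_congr rfl (fun k _ => hanti j k))]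
      simp only [Finset.sum_neg_distrib]
      rw [Finset.sum_comm]
    linarith
  have hR : ∑ j, ∑ k, db k (dd j (fun w => (φ w : ℂ))) z * ξ j * (starRingEnd ℂ) (ξ k) =
      ((∑ j, ∑ k, (((B (bv n k) (bv n j) + B (Complex.I • bv n k) (Complex.I • bv n j)) *
          ((ξ j).re * (ξ k).re + (ξ j).im * (ξ k).im) -
        (B (Complex.I • bv n k) (bv n j) - B (bv n k) (Complex.I • bv n j)) *
          ((ξ j).im * (ξ k).re - (ξ j).re * (ξ k).im)) / 4 : ℝ) : ℝ) : ℂ) +
      Complex.I * ((∑ j, ∑ k,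
        (((B (bv n k) (bv n j) + B (Complex.I • bv n k) (Complex.I • bv n j)) *
          ((ξ j).im * (ξ k).re - (ξ j).re * (ξ k).im) +
        (B (Complex.I • bv n k) (bv n j) - B (bv n k) (Complex.I • bv n j)) *
          ((ξ j).re * (ξ k).re + (ξ j).im * (ξ k).im)) / 4 : ℝ) : ℝ) : ℂ) := by
    rw [Finset.sum_congr rfl (fun j _ => Finset.sum_congr rfl (fun k _ => hterm j k))]
    simp only [Finset.sum_add_distrib, ← Finset.mul_sum, Complex.ofReal_sum]
  rw [hR, hsum0, hlev, e1, e2]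
  simp only [Complex.ofReal_zero, mul_zero, add_zero]
  congr 1
  rw [← Finset.sum_add_distrib, Finset.sum_div]
  apply Finset.sum_congr rfl
  intro j _
  rw [← Finset.sum_add_distrib, Finset.sum_div]
  apply Finset.sum_congr rfl
  intro k _
  ring

theorem dbar2_sm {φ : Cn n → ℝ} (hφ : ContDiff ℝ ∞ φ) (u : Cn n) :
    ContDiff ℝ ∞ (fun w => fderiv ℝ φ w u) :=
  (hφ.fderiv_right (m := ∞) (by simp)).clm_apply contDiff_const

theorem dbar2_add {φ ψ : Cn n → ℝ} (hφ : ContDiff ℝ ∞ φ) (hψ : ContDiff ℝ ∞ ψ) (z u v : Cn n) :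
    fderiv ℝ (fun w => fderiv ℝ (fun w => φ w + ψ w) w u) z v =
      fderiv ℝ (fun w => fderiv ℝ φ w u) z v + fderiv ℝ (fun w => fderiv ℝ ψ w u) z v := by
  have e1 : (fun w => fderiv ℝ (fun w => φ w + ψ w) w u) =
      fun w => fderiv ℝ φ w u + fderiv ℝ ψ w u := by
    funext w
    have := fderiv_fun_add ((hφ.differentiable (by simp)) w) ((hψ.differentiable (by simp)) w)
    rw [this]; simp
  rw [e1]
  have := fderiv_fun_add (((dbar2_sm hφ u).differentiable (by simp)) z)
    (((dbar2_sm hψ u).differentiable (by simp)) z)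
  rw [this]; simp

theorem dbar2_cmul {φ : Cn n → ℝ} (hφ : ContDiff ℝ ∞ φ) (c : ℝ) (z u v : Cn n) :
    fderiv ℝ (fun w => fderiv ℝ (fun w => c * φ w) w u) z v =
      c * fderiv ℝ (fun w => fderiv ℝ φ w u) z v := by
  have e1 : (fun w => fderiv ℝ (fun w => c * φ w) w u) =
      fun w => c * fderiv ℝ φ w u := by
    funext w
    have := fderiv_const_mul ((hφ.differentiable (by simp)) w) c
    rw [this]; simp
  rw [e1]
  have := fderiv_const_mul (((dbar2_sm hφ u).differentiable (by simp)) z) c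
  rw [this]; simp

theorem lev_add {φ ψ : Cn n → ℝ} (hφ : ContDiff ℝ ∞ φ) (hψ : ContDiff ℝ ∞ ψ) (z ξ : Cn n) :
    lev (fun w => φ w + ψ w) z ξ = lev φ z ξ + lev ψ z ξ := by
  simp only [lev]
  rw [dbar2_add hφ hψ, dbar2_add hφ hψ]
  ring

theorem lev_const_mul {φ : Cn n → ℝ} (hφ : ContDiff ℝ ∞ φ) (c : ℝ) (z ξ : Cn n) :
    lev (fun w => c * φ w) z ξ = c * lev φ z ξ := by
  simp only [lev]
  rw [dbar2_cmul hφ, dbar2_cmul hφ]
  ring

/-- a smooth function with `∂bar f = 0` is holomorphic -/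
theorem differentiable_of_db {f : Cn n → ℂ} (hf : ContDiff ℝ ∞ f) (h : ∀ j z, db j f z = 0) :
    Differentiable ℂ f := by
  intro z
  have hd : DifferentiableAt ℝ f z := (hf.differentiable (by simp)) z
  set L := fderiv ℝ f z with hL
  have hj : ∀ j, L (Complex.I • bv n j) = Complex.I * L (bv n j) := by
    intro j
    have h1 := h j z
    rw [db, ← hL] at h1
    have h2 : L (bv n j) + Complex.I * L (Complex.I • bv n j) = 0 := by
      have : (2 : ℂ) ≠ 0 := two_ne_zero
      field_simp at h1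
      simpa using h1
    have hI : Complex.I * Complex.I = -1 := Complex.I_mul_I
    linear_combination (-Complex.I) * h2 + (L (Complex.I • bv n j)) * hI
  have hj' : ∀ j, L (Complex.I • (Complex.I • bv n j)) =
      Complex.I * L (Complex.I • bv n j) := by
    intro j
    rw [hj j, smul_smul, Complex.I_mul_I, neg_one_smul, map_neg, ← mul_assoc, Complex.I_mul_I]
    ring
  have hr : ∀ (r : ℝ) (v : Cn n), L (r • v) = (r : ℂ) * L v := by
    intro r v
    rw [L.map_smul, Complex.real_smul]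
  have hI : ∀ v, L (Complex.I • v) = Complex.I * L v := by
    intro v
    have h3 := dbar2_expand v
    conv_lhs => rw [h3]
    conv_rhs => rw [h3]
    rw [Finset.smul_sum, map_sum, map_sum, Finset.mul_sum]
    apply Finset.sum_congr rfl
    intro j _
    rw [smul_add, smul_comm Complex.I (v j).re (bv n j),
      smul_comm Complex.I (v j).im (Complex.I • bv n j), map_add, map_add, hr, hr, hr, hr,
      hj', hj]
    ring
  have hc : ∀ (c : ℂ) (v : Cn n), L (c • v) = c • L v := by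
    intro c v
    have h4 : c • v = (c.re : ℝ) • v + (c.im : ℝ) • (Complex.I • v) := by
      conv_lhs => rw [← Complex.re_add_im c]
      rw [add_smul, mul_smul]
      rfl
    rw [h4, map_add, hr, hr, hI, smul_eq_mul]
    conv_rhs => rw [← Complex.re_add_im c]
    ring
  let L' : Cn n →L[ℂ] ℂ :=
    { toFun := fun v => L v
      map_add' := fun u v => map_add L u v
      map_smul' := fun c v => hc c v
      cont := L.continuous }
  have : HasFDerivAt f L' z := by
    apply hasFDerivAt_of_restrictScalars ℝ (hd.hasFDerivAt)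
    ext v
    rfl
  exact this.differentiableAt

theorem db_of_differentiable {f : Cn n → ℂ} (hf : Differentiable ℂ f) (j : Fin n) (z : Cn n) :
    db j f z = 0 := by
  have h1 : fderiv ℝ f z = (fderiv ℂ f z).restrictScalars ℝ :=
    ((hf z).hasFDerivAt.restrictScalars ℝ).fderiv
  rw [db, h1]
  simp only [ContinuousLinearMap.coe_restrictScalars', map_smul, smul_eq_mul]
  rw [← mul_assoc, Complex.I_mul_I]
  ring

end HMA

end S_MA_Dbar2

section S_KM_C11B

/-! # Module C11B: basic properties of `C^{1,1}` functions -/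

open MeasureTheory Metric Set
open scoped ENNReal Topology ContDiff ComplexOrder

namespace HMA

variable {n : ℕ} {Ω : Set (Cn n)} {u v : Cn n → ℝ}

theorem C11.continuousOn (hu : C11 Ω u) : ContinuousOn u Ω := by
  intro z hz
  exact (hu.diff z hz).continuousAt.continuousWithinAt

theorem C11.mono {Ω' : Set (Cn n)} (hu : C11 Ω u) (h : Ω' ⊆ Ω) : C11 Ω' u := by
  exact ⟨fun z hz => hu.diff z (h hz), fun L hL hLΩ => hu.lip L hL (hLΩ.trans h)⟩

/-- local criterion -/
theorem c11_of_local (hΩ : IsOpen Ω) (h : ∀ z ∈ Ω, ∃ r > 0, ∃ C : NNReal, ball z r ⊆ Ω ∧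
    (∀ w ∈ ball z r, DifferentiableAt ℝ u w) ∧ LipschitzOnWith C (fderiv ℝ u) (ball z r)) :
    C11 Ω u := by
  refine ⟨fun z hz => ?_, fun L hL hLΩ => ?_⟩
  · obtain ⟨r, hr, _, _, hd, _⟩ := h z hz
    exact hd z (mem_ball_self hr)
  · apply LocallyLipschitzOn.exists_lipschitzOnWith_of_compact hL
    intro z hz
    obtain ⟨r, hr, C, _, _, hC⟩ := h z (hLΩ hz)
    exact ⟨C, ball z r, mem_nhdsWithin_of_mem_nhds (ball_mem_nhds z hr), hC⟩

/-- local bounds -/
theorem C11B_ball (hΩ : IsOpen Ω) (hu : C11 Ω u) {z : Cn n} (hz : z ∈ Ω) : ∃ r > 0,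
    closedBall z r ⊆ Ω ∧ (∃ C : NNReal, LipschitzOnWith C (fderiv ℝ u) (closedBall z r)) ∧
    (∃ D : NNReal, LipschitzOnWith D u (closedBall z r)) ∧
    (∃ A : ℝ, ∀ w ∈ closedBall z r, ‖fderiv ℝ u w‖ ≤ A ∧ |u w| ≤ A) := by
  obtain ⟨r, hr, hrΩ⟩ := Metric.nhds_basis_closedBall.mem_iff.1 (hΩ.mem_nhds hz)
  obtain ⟨C, hC⟩ := hu.lip _ (isCompact_closedBall z r) hrΩ
  obtain ⟨A, hA⟩ := (isCompact_closedBall z r).exists_bound_of_continuousOn hC.continuousOn
  obtain ⟨A', hA'⟩ := (isCompact_closedBall z r).exists_bound_of_continuousOn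
    (hu.continuousOn.mono hrΩ)
  refine ⟨r, hr, hrΩ, ⟨C, hC⟩, ⟨Real.toNNReal A, ?_⟩, ⟨max A A', fun w hw => ⟨(hA w hw).trans
    (le_max_left _ _), (hA' w hw).trans (le_max_right _ _)⟩⟩⟩
  apply Convex.lipschitzOnWith_of_nnnorm_fderiv_le (𝕜 := ℝ) (fun w hw => hu.diff w (hrΩ hw)) ?_
    (convex_closedBall z r)
  intro w hw
  rw [← NNReal.coe_le_coe, coe_nnnorm]
  exact (hA w hw).trans (Real.le_coe_toNNReal A)

theorem c11_of_contDiffOn (hΩ : IsOpen Ω) (hu : ContDiffOn ℝ 2 u Ω) : C11 Ω u := by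
  apply c11_of_local hΩ
  intro z hz
  have h1 : ContDiffOn ℝ 1 (fderiv ℝ u) Ω := hu.fderiv_of_isOpen hΩ (by norm_num)
  obtain ⟨K, t, ht, hK⟩ := (h1.contDiffAt (hΩ.mem_nhds hz)).exists_lipschitzOnWith
  obtain ⟨r, hr, hrt⟩ := Metric.mem_nhds_iff.1 (Filter.inter_mem ht (hΩ.mem_nhds hz))
  refine ⟨r, hr, K, fun w hw => (hrt hw).2, fun w hw => ?_, hK.mono fun w hw => (hrt hw).1⟩
  exact (hu.differentiableOn (by norm_num)).differentiableAt (hΩ.mem_nhds (hrt hw).2)

theorem C11B_fderiv_congr (hΩ : IsOpen Ω) (h : EqOn v u Ω) :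
    EqOn (fderiv ℝ v) (fderiv ℝ u) Ω := fun z hz =>
  (h.eventuallyEq_of_mem (hΩ.mem_nhds hz)).fderiv_eq

theorem C11.congr (hΩ : IsOpen Ω) (hu : C11 Ω u) (h : EqOn v u Ω) : C11 Ω v := by
  refine ⟨fun z hz => ?_, fun L hL hLΩ => ?_⟩
  · exact (hu.diff z hz).congr_of_eventuallyEq (h.eventuallyEq_of_mem (hΩ.mem_nhds hz))
  · obtain ⟨C, hC⟩ := hu.lip L hL hLΩ
    refine ⟨C, fun x hx y hy => ?_⟩
    rw [C11B_fderiv_congr hΩ h (hLΩ hx), C11B_fderiv_congr hΩ h (hLΩ hy)]
    exact hC hx hy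

theorem C11.add (hΩ : IsOpen Ω) (hu : C11 Ω u) (hv : C11 Ω v) : C11 Ω (fun z => u z + v z) := by
  refine ⟨fun z hz => (hu.diff z hz).add (hv.diff z hz), fun L hL hLΩ => ?_⟩
  obtain ⟨C, hC⟩ := hu.lip L hL hLΩ
  obtain ⟨D, hD⟩ := hv.lip L hL hLΩ
  refine ⟨C + D, ?_⟩
  have h : EqOn (fderiv ℝ (fun z => u z + v z)) (fun z => fderiv ℝ u z + fderiv ℝ v z) L :=
    fun z hz => ((hu.diff z (hLΩ hz)).hasFDerivAt.add (hv.diff z (hLΩ hz)).hasFDerivAt).fderiv
  intro x hx y hy
  rw [h hx, h hy]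
  exact (hC.add hD) hx hy

theorem C11.const_mul (hΩ : IsOpen Ω) (hu : C11 Ω u) (c : ℝ) : C11 Ω (fun z => c * u z) := by
  refine ⟨fun z hz => (hu.diff z hz).const_mul c, fun L hL hLΩ => ?_⟩
  obtain ⟨C, hC⟩ := hu.lip L hL hLΩ
  have h : EqOn (fderiv ℝ (fun z => c * u z)) (fun z => c • fderiv ℝ u z) L :=
    fun z hz => ((hu.diff z (hLΩ hz)).hasFDerivAt.const_mul c).fderiv
  refine ⟨‖c‖₊ * C, ?_⟩
  apply LipschitzOnWith.of_dist_le_mul
  intro x hx y hy
  rw [h hx, h hy, NNReal.coe_mul, coe_nnnorm, mul_assoc]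
  change dist (c • fderiv ℝ u x) (c • fderiv ℝ u y) ≤ _
  rw [dist_eq_norm (c • fderiv ℝ u x), ← smul_sub, norm_smul, ← dist_eq_norm]
  exact mul_le_mul_of_nonneg_left (hC.dist_le_mul x hx y hy) (norm_nonneg c)

theorem C11B_smul_lip {E : Type*} [NormedAddCommGroup E] [NormedSpace ℝ E] {s : Set (Cn n)}
    {f : Cn n → ℝ} {g : Cn n → E} {C D : NNReal} {A B : ℝ} (hf : LipschitzOnWith C f s)
    (hg : LipschitzOnWith D g s) (hA : ∀ w ∈ s, |f w| ≤ A) (hB : ∀ w ∈ s, ‖g w‖ ≤ B) :
    ∃ K, LipschitzOnWith K (fun w => f w • g w) s := by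
  refine ⟨Real.toNNReal (A * D + C * B), ?_⟩
  apply LipschitzOnWith.of_dist_le_mul
  intro x hx y hy
  refine le_trans ?_ (mul_le_mul_of_nonneg_right (Real.le_coe_toNNReal _) dist_nonneg)
  have h1 : f x • g x - f y • g y = f x • (g x - g y) + (f x - f y) • g y := by
    rw [smul_sub, sub_smul]; abel
  rw [dist_eq_norm, h1]
  have h2 := hf.dist_le_mul x hx y hy
  have h3 := hg.dist_le_mul x hx y hy
  rw [dist_eq_norm] at h2 h3
  refine (norm_add_le _ _).trans ?_
  rw [norm_smul, norm_smul, add_mul]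
  have hA0 : 0 ≤ A := (abs_nonneg _).trans (hA x hx)
  apply add_le_add
  · rw [mul_assoc]
    exact mul_le_mul (hA x hx) h3 (norm_nonneg _) hA0
  · calc ‖f x - f y‖ * ‖g y‖ ≤ (C * dist x y) * B :=
          mul_le_mul h2 (hB y hy) (norm_nonneg _) (by positivity)
      _ = C * B * dist x y := by ring

theorem C11.comp_real (hΩ : IsOpen Ω) (hu : C11 Ω u) {θ : ℝ → ℝ} (hθ : ContDiff ℝ 2 θ) :
    C11 Ω (fun z => θ (u z)) := by
  have hθ1 : ContDiff ℝ 1 (deriv θ) := by
    have := (contDiff_succ_iff_deriv (n := 1) (f := θ)).1 (by simpa [one_add_one_eq_two] using hθ)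
    exact this.2.2
  have hθd : Differentiable ℝ θ := hθ.differentiable (by norm_num)
  apply c11_of_local hΩ
  intro z hz
  obtain ⟨r, hr, hrΩ, ⟨C, hC⟩, ⟨D, hD⟩, A, hA⟩ := C11B_ball hΩ hu hz
  have hfd : EqOn (fderiv ℝ (fun z => θ (u z))) (fun z => deriv θ (u z) • fderiv ℝ u z)
      (closedBall z r) := by
    intro w hw
    have h1 := (hθd (u w)).hasDerivAt.comp_hasFDerivAt w (hu.diff w (hrΩ hw)).hasFDerivAt
    exact h1.fderiv
  -- θ' is Lipschitz on [-A, A]
  obtain ⟨E, hE⟩ := hθ1.contDiffOn.exists_lipschitzOnWith (s := Set.Icc (-A) A) one_ne_zero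
    (convex_Icc _ _) isCompact_Icc
  obtain ⟨F, hF⟩ := (isCompact_Icc (a := -A) (b := A)).exists_bound_of_continuousOn
    hθ1.continuous.continuousOn
  have hmaps : MapsTo u (closedBall z r) (Set.Icc (-A) A) := fun w hw =>
    abs_le.1 (hA w hw).2
  have h2 : LipschitzOnWith (E * D) (fun w => deriv θ (u w)) (closedBall z r) :=
    hE.comp hD hmaps
  obtain ⟨K, hK⟩ := C11B_smul_lip h2 hC (A := F) (B := A) (fun w hw => hF _ (hmaps hw))
    (fun w hw => (hA w hw).1)
  refine ⟨r, hr, K, ball_subset_closedBall.trans hrΩ, fun w hw => ?_, ?_⟩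
  · exact (hθd (u w)).comp w (hu.diff w (hrΩ (ball_subset_closedBall hw)))
  · intro x hx y hy
    rw [hfd (ball_subset_closedBall hx), hfd (ball_subset_closedBall hy)]
    exact hK (ball_subset_closedBall hx) (ball_subset_closedBall hy)

theorem C11.mul (hΩ : IsOpen Ω) (hu : C11 Ω u) (hv : C11 Ω v) : C11 Ω (fun z => u z * v z) := by
  have hsq : ContDiff ℝ 2 (fun x : ℝ => x ^ 2) := contDiff_id.pow 2
  have h1 := (hu.add hΩ hv).comp_real hΩ hsq
  have h2 := (hu.add hΩ (hv.const_mul hΩ (-1))).comp_real hΩ hsq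
  have h3 := (h1.const_mul hΩ (1 / 4)).add hΩ (h2.const_mul hΩ (-(1 / 4)))
  refine h3.congr hΩ ?_
  intro z _
  simp only
  ring

/-- cut off -/
theorem C11.cutoff (hΩ : IsOpen Ω) (hu : C11 Ω u) {χ : Cn n → ℝ} (hχ : ContDiff ℝ 2 χ)
    (hc : HasCompactSupport χ) (hs : tsupport χ ⊆ Ω) : C11 univ (fun z => χ z * u z) := by
  apply c11_of_local isOpen_univ
  intro z _
  by_cases hz : z ∈ Ω
  · have h1 := (c11_of_contDiffOn hΩ hχ.contDiffOn).mul hΩ hu
    obtain ⟨r, hr, hrΩ, ⟨C, hC⟩, _⟩ := C11B_ball hΩ h1 hz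
    exact ⟨r, hr, C, subset_univ _, fun w hw => h1.diff w (hrΩ (ball_subset_closedBall hw)),
      hC.mono ball_subset_closedBall⟩
  · have h2 : z ∈ (tsupport χ)ᶜ := fun h => hz (hs h)
    have h3 : (tsupport χ)ᶜ ∈ 𝓝 z := (isClosed_tsupport χ).isOpen_compl.mem_nhds h2
    obtain ⟨r, hr, hrt⟩ := Metric.mem_nhds_iff.1 h3
    have h4 : EqOn (fun z => χ z * u z) (fun _ => (0 : ℝ)) (ball z r) := by
      intro w hw
      have : χ w = 0 := image_eq_zero_of_notMem_tsupport (hrt hw)
      simp only [this, zero_mul]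
    have h5 : EqOn (fderiv ℝ (fun z => χ z * u z)) (fderiv ℝ (fun _ => (0 : ℝ))) (ball z r) :=
      C11B_fderiv_congr isOpen_ball h4
    refine ⟨r, hr, 0, subset_univ _, fun w hw => ?_, ?_⟩
    · exact (differentiableAt_const (0 : ℝ)).congr_of_eventuallyEq
        (h4.eventuallyEq_of_mem (isOpen_ball.mem_nhds hw))
    · intro x hx y hy
      rw [h5 hx, h5 hy]
      simp

theorem C11.ae_twice (hΩ : IsOpen Ω) (hu : C11 Ω u) :
    ∀ᵐ z : Cn n, z ∈ Ω → DifferentiableAt ℝ (fderiv ℝ u) z := by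
  rw [ae_iff]
  apply measure_null_of_locally_null
  intro z hz
  simp only [mem_ofPred_eq, not_forall] at hz
  obtain ⟨hzΩ, _⟩ := hz
  obtain ⟨r, hr, hrΩ, ⟨C, hC⟩, _⟩ := C11B_ball hΩ hu hzΩ
  refine ⟨ball z r ∩ {a | ¬(a ∈ Ω → DifferentiableAt ℝ (fderiv ℝ u) a)},
    Filter.inter_mem (mem_nhdsWithin_of_mem_nhds (ball_mem_nhds z hr)) self_mem_nhdsWithin, ?_⟩
  have h1 := (hC.mono (ball_subset_closedBall (x := z) (ε := r))).ae_differentiableWithinAt_of_mem
    (μ := volume)
  rw [ae_iff] at h1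
  refine measure_mono_null ?_ h1
  rintro w ⟨hw, hw2⟩
  simp only [mem_ofPred_eq, not_forall] at hw2 ⊢
  obtain ⟨_, hw3⟩ := hw2
  exact ⟨hw, fun h => hw3 (h.differentiableAt (isOpen_ball.mem_nhds hw))⟩

theorem C11.hes_bdd (hΩ : IsOpen Ω) (hu : C11 Ω u) {L : Set (Cn n)} (hL : IsCompact L)
    (hLΩ : L ⊆ Ω) : ∃ C : ℝ, 0 ≤ C ∧ ∀ z ∈ L, ‖hes u z‖ ≤ C := by
  obtain ⟨δ, hδ, hδΩ⟩ := hL.exists_cthickening_subset_open hΩ hLΩ
  obtain ⟨C, hC⟩ := hu.lip _ hL.cthickening hδΩ
  refine ⟨C, C.2, fun z hz => ?_⟩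
  have h1 : cthickening δ L ∈ 𝓝 z := by
    refine Filter.mem_of_superset (closedBall_mem_nhds z hδ) ?_
    exact closedBall_subset_cthickening hz δ
  exact norm_fderiv_le_of_lipschitzOn ℝ h1 hC

/-- twice differentiable at a point -/
def TwD {n : ℕ} (u : Cn n → ℝ) (z : Cn n) : Prop :=
  (∀ᶠ w in 𝓝 z, DifferentiableAt ℝ u w) ∧ DifferentiableAt ℝ (fderiv ℝ u) z

theorem C11.ae_twD (hΩ : IsOpen Ω) (hu : C11 Ω u) : ∀ᵐ z : Cn n, z ∈ Ω → TwD u z := by
  filter_upwards [hu.ae_twice hΩ] with z hz hzΩ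
  exact ⟨Filter.mem_of_superset (hΩ.mem_nhds hzΩ) fun w hw => hu.diff w hw, hz hzΩ⟩

theorem TwD.symm {z : Cn n} (h : TwD u z) (a b : Cn n) : hes u z a b = hes u z b a := by
  exact second_derivative_symmetric_of_eventually_of_real (f := u) (f' := fderiv ℝ u)
    (h.1.mono fun w hw => hw.hasFDerivAt) h.2.hasFDerivAt a b

theorem C11B_fderiv_apply {z : Cn n} (h : TwD u z) (ξ η : Cn n) :
    fderiv ℝ (fun w => fderiv ℝ u w ξ) z η = hes u z η ξ := by
  have h1 := (h.2.hasFDerivAt.clm_apply (hasFDerivAt_const ξ z)).fderiv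
  rw [h1]
  simp [hes]

theorem TwD.lev {z : Cn n} (h : TwD u z) (ξ : Cn n) :
    HMA.lev u z ξ = (hes u z ξ ξ + hes u z (Complex.I • ξ) (Complex.I • ξ)) / 4 := by
  unfold HMA.lev
  rw [C11B_fderiv_apply h, C11B_fderiv_apply h]

/-- the sesquilinear form of a real bilinear form -/
noncomputable def C11B_h (B : Cn n →L[ℝ] Cn n →L[ℝ] ℝ) (ξ η : Cn n) : ℂ :=
  (((B ξ η + B (Complex.I • ξ) (Complex.I • η) : ℝ) : ℂ) +
      Complex.I * ((B ξ (Complex.I • η) - B (Complex.I • ξ) η : ℝ) : ℂ)) / 4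

theorem C11B_LM (u : Cn n → ℝ) (z : Cn n) (j k : Fin n) :
    LM u z j k = C11B_h (hes u z) (bv n j) (bv n k) := rfl

theorem C11B_h_add_left (B : Cn n →L[ℝ] Cn n →L[ℝ] ℝ) (ξ ξ' η : Cn n) :
    C11B_h B (ξ + ξ') η = C11B_h B ξ η + C11B_h B ξ' η := by
  simp only [C11B_h, smul_add, map_add, _root_.add_apply]
  push_cast
  ring

theorem C11B_h_add_right (B : Cn n →L[ℝ] Cn n →L[ℝ] ℝ) (ξ η η' : Cn n) :
    C11B_h B ξ (η + η') = C11B_h B ξ η + C11B_h B ξ η' := by
  simp only [C11B_h, smul_add, map_add]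
  push_cast
  ring

theorem C11B_cs (c : ℂ) (ξ : Cn n) : c • ξ = c.re • ξ + c.im • (Complex.I • ξ) := by
  ext i
  simp only [PiLp.smul_apply, PiLp.add_apply, smul_eq_mul, Complex.real_smul]
  nth_rewrite 1 [← Complex.re_add_im c]
  ring

theorem C11B_IcS (c : ℂ) (ξ : Cn n) :
    Complex.I • (c • ξ) = c.re • (Complex.I • ξ) - c.im • ξ := by
  ext i
  simp only [PiLp.smul_apply, PiLp.sub_apply, smul_eq_mul, Complex.real_smul]
  nth_rewrite 1 [← Complex.re_add_im c]
  linear_combination (c.im : ℂ) * ξ i * Complex.I_mul_I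

theorem C11B_h_smul_left (B : Cn n →L[ℝ] Cn n →L[ℝ] ℝ) (c : ℂ) (ξ η : Cn n) :
    C11B_h B (c • ξ) η = c * C11B_h B ξ η := by
  unfold C11B_h
  rw [C11B_IcS, C11B_cs]
  simp only [map_add, map_sub, map_smul, _root_.add_apply, _root_.sub_apply, _root_.smul_apply,
    smul_eq_mul]
  push_cast
  have hc : c = c.re + c.im * Complex.I := (Complex.re_add_im c).symm
  generalize (B ξ η : ℂ) = x1
  generalize (B (Complex.I • ξ) η : ℂ) = x2
  generalize (B ξ (Complex.I • η) : ℂ) = x3
  generalize (B (Complex.I • ξ) (Complex.I • η) : ℂ) = x4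
  linear_combination (c.im * (x2 - x3) / 4) * Complex.I_mul_I -
    ((x1 + x4 + Complex.I * (x3 - x2)) / 4) * hc

theorem C11B_h_smul_right (B : Cn n →L[ℝ] Cn n →L[ℝ] ℝ) (c : ℂ) (ξ η : Cn n) :
    C11B_h B ξ (c • η) = (starRingEnd ℂ) c * C11B_h B ξ η := by
  unfold C11B_h
  rw [C11B_IcS, C11B_cs]
  simp only [map_add, map_sub, map_smul, _root_.add_apply, _root_.sub_apply, _root_.smul_apply,
    smul_eq_mul]
  push_cast
  have hc : (starRingEnd ℂ) c = c.re - c.im * Complex.I := by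
    apply Complex.ext <;> simp
  generalize (B ξ η : ℂ) = x1
  generalize (B (Complex.I • ξ) η : ℂ) = x2
  generalize (B ξ (Complex.I • η) : ℂ) = x3
  generalize (B (Complex.I • ξ) (Complex.I • η) : ℂ) = x4
  linear_combination (c.im * (x3 - x2) / 4) * Complex.I_mul_I -
    ((x1 + x4 + Complex.I * (x3 - x2)) / 4) * hc

/-- linear in the first variable -/
noncomputable def C11B_hl (B : Cn n →L[ℝ] Cn n →L[ℝ] ℝ) (η : Cn n) : Cn n →ₗ[ℂ] ℂ where
  toFun ξ := C11B_h B ξ η
  map_add' ξ ξ' := C11B_h_add_left B ξ ξ' η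
  map_smul' c ξ := C11B_h_smul_left B c ξ η

/-- conjugate linear in the second variable -/
noncomputable def C11B_hr (B : Cn n →L[ℝ] Cn n →L[ℝ] ℝ) (ξ : Cn n) :
    Cn n →ₛₗ[starRingEnd ℂ] ℂ where
  toFun η := C11B_h B ξ η
  map_add' η η' := C11B_h_add_right B ξ η η'
  map_smul' c η := C11B_h_smul_right B c ξ η

theorem C11B_sum (ξ : Cn n) : ξ = ∑ j, ξ j • bv n j := by
  ext i
  simp only [bv, PiLp.smul_apply, WithLp.ofLp_sum, Finset.sum_apply, WithLp.ofLp_smul,
    Pi.smul_apply, PiLp.ofLp_single, smul_eq_mul]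
  rw [Finset.sum_eq_single i]
  · simp
  · intro j _ hj
    simp [Pi.single_apply, hj.symm]
  · simp

theorem C11B_h_expand (B : Cn n →L[ℝ] Cn n →L[ℝ] ℝ) (ξ η : Cn n) :
    C11B_h B ξ η = ∑ j, ∑ k, C11B_h B (bv n j) (bv n k) * ξ j * (starRingEnd ℂ) (η k) := by
  have h1 : C11B_h B ξ η = ∑ j, ξ j * C11B_h B (bv n j) η := by
    have : C11B_hl B η ξ = ∑ j, ξ j * C11B_hl B η (bv n j) := by
      conv_lhs => rw [C11B_sum ξ]
      rw [map_sum]
      simp only [map_smul, smul_eq_mul]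
    exact this
  have h2 : ∀ j, C11B_h B (bv n j) η =
      ∑ k, (starRingEnd ℂ) (η k) * C11B_h B (bv n j) (bv n k) := by
    intro j
    have : C11B_hr B (bv n j) η = ∑ k, (starRingEnd ℂ) (η k) * C11B_hr B (bv n j) (bv n k) := by
      conv_lhs => rw [C11B_sum η]
      rw [map_sum]
      simp only [LinearMap.map_smulₛₗ, smul_eq_mul]
    exact this
  rw [h1]
  refine Finset.sum_congr rfl fun j _ => ?_
  rw [h2 j, Finset.mul_sum]
  refine Finset.sum_congr rfl fun k _ => ?_
  ring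

theorem C11B_h_self {B : Cn n →L[ℝ] Cn n →L[ℝ] ℝ} (hB : ∀ a b, B a b = B b a) (ξ : Cn n) :
    C11B_h B ξ ξ = (((B ξ ξ + B (Complex.I • ξ) (Complex.I • ξ)) / 4 : ℝ) : ℂ) := by
  unfold C11B_h
  rw [hB ξ (Complex.I • ξ)]
  push_cast
  ring

theorem C11B_h_conj {B : Cn n →L[ℝ] Cn n →L[ℝ] ℝ} (hB : ∀ a b, B a b = B b a) (ξ η : Cn n) :
    (starRingEnd ℂ) (C11B_h B η ξ) = C11B_h B ξ η := by
  unfold C11B_h
  rw [map_div₀, map_add, map_mul, Complex.conj_ofReal, Complex.conj_ofReal, Complex.conj_I,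
    Complex.conj_ofNat, hB η ξ, hB (Complex.I • η) (Complex.I • ξ), hB η (Complex.I • ξ),
    hB (Complex.I • η) ξ]
  push_cast
  ring

theorem TwD.lev_LM {z : Cn n} (h : TwD u z) (ξ : Cn n) :
    (HMA.lev u z ξ : ℂ) = ∑ j, ∑ k, LM u z j k * ξ j * (starRingEnd ℂ) (ξ k) := by
  rw [h.lev, ← C11B_h_self h.symm, C11B_h_expand]
  rfl

theorem TwD.herm {z : Cn n} (h : TwD u z) : (LM u z).IsHermitian := by
  ext j k
  rw [Matrix.conjTranspose_apply]
  exact C11B_h_conj h.symm (bv n j) (bv n k)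

theorem C11B_quad {z : Cn n} (h : TwD u z) (x : Fin n → ℂ) :
    star x ⬝ᵥ (Matrix.mulVec (LM u z) x) = ((HMA.lev u z (vec (star x)) : ℝ) : ℂ) := by
  rw [h.lev_LM]
  simp only [dotProduct, Matrix.mulVec, Finset.mul_sum]
  refine Finset.sum_congr rfl fun j _ => Finset.sum_congr rfl fun k _ => ?_
  simp only [vec, Pi.star_apply, RCLike.star_def, Complex.conj_conj]
  ring

theorem TwD.psd_iff {z : Cn n} (h : TwD u z) :
    (LM u z).PosSemidef ↔ ∀ ξ : Cn n, 0 ≤ HMA.lev u z ξ := by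
  rw [Matrix.posSemidef_iff_dotProduct_mulVec]
  constructor
  · rintro ⟨_, h2⟩ ξ
    have h3 := h2 (star ξ.ofLp)
    rw [C11B_quad h, star_star] at h3
    have h4 : (0 : ℂ) ≤ ((HMA.lev u z ξ : ℝ) : ℂ) := h3
    exact_mod_cast h4
  · intro h2
    refine ⟨h.herm, fun x => ?_⟩
    rw [C11B_quad h]
    exact_mod_cast h2 _

theorem C11B_h_add (B B' : Cn n →L[ℝ] Cn n →L[ℝ] ℝ) (ξ η : Cn n) :
    C11B_h (B + B') ξ η = C11B_h B ξ η + C11B_h B' ξ η := by
  simp only [C11B_h, _root_.add_apply]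
  push_cast
  ring

theorem C11B_h_smul (c : ℝ) (B : Cn n →L[ℝ] Cn n →L[ℝ] ℝ) (ξ η : Cn n) :
    C11B_h (c • B) ξ η = (c : ℂ) * C11B_h B ξ η := by
  simp only [C11B_h, _root_.smul_apply, smul_eq_mul]
  push_cast
  ring

theorem TwD.add {z : Cn n} (hu : TwD u z) (hv : TwD v z) :
    TwD (fun w => u w + v w) z ∧ LM (fun w => u w + v w) z = LM u z + LM v z := by
  have h1 : fderiv ℝ (fun w => u w + v w) =ᶠ[𝓝 z] fun w => fderiv ℝ u w + fderiv ℝ v w := by
    filter_upwards [hu.1, hv.1] with w hw hw'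
    exact (hw.hasFDerivAt.add hw'.hasFDerivAt).fderiv
  have h2 : hes (fun w => u w + v w) z = hes u z + hes v z := by
    unfold hes
    rw [h1.fderiv_eq]
    exact (hu.2.hasFDerivAt.add hv.2.hasFDerivAt).fderiv
  refine ⟨⟨?_, ?_⟩, ?_⟩
  · filter_upwards [hu.1, hv.1] with w hw hw'
    exact hw.add hw'
  · exact (hu.2.add hv.2).congr_of_eventuallyEq h1
  · ext j k
    rw [Matrix.add_apply, C11B_LM, C11B_LM, C11B_LM, h2, C11B_h_add]

theorem TwD.const_mul {z : Cn n} (hu : TwD u z) (c : ℝ) :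
    TwD (fun w => c * u w) z ∧ LM (fun w => c * u w) z = (c : ℂ) • LM u z := by
  have h1 : fderiv ℝ (fun w => c * u w) =ᶠ[𝓝 z] fun w => c • fderiv ℝ u w := by
    filter_upwards [hu.1] with w hw
    exact (hw.hasFDerivAt.const_mul c).fderiv
  have h2 : hes (fun w => c * u w) z = c • hes u z := by
    unfold hes
    rw [h1.fderiv_eq]
    exact (hu.2.hasFDerivAt.const_smul c).fderiv
  refine ⟨⟨?_, ?_⟩, ?_⟩
  · filter_upwards [hu.1] with w hw
    exact hw.const_mul c
  · exact (hu.2.const_smul c).congr_of_eventuallyEq h1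
  · ext j k
    rw [Matrix.smul_apply, C11B_LM, C11B_LM, h2, C11B_h_smul, smul_eq_mul]

/-- composition with a function of one real variable -/
theorem TwD.comp_real {z : Cn n} (hu : TwD u z) {θ : ℝ → ℝ} (hθ : ContDiff ℝ 2 θ) :
    TwD (fun w => θ (u w)) z ∧ ∃ G : Matrix (Fin n) (Fin n) ℂ, G.PosSemidef ∧
      LM (fun w => θ (u w)) z =
        ((deriv θ (u z) : ℝ) : ℂ) • LM u z + ((deriv (deriv θ) (u z) : ℝ) : ℂ) • G := by
  have hθ1 : ContDiff ℝ 1 (deriv θ) := by
    have := (contDiff_succ_iff_deriv (n := 1) (f := θ)).1 (by simpa [one_add_one_eq_two] using hθ)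
    exact this.2.2
  have hθd : Differentiable ℝ θ := hθ.differentiable (by norm_num)
  have hθd1 : Differentiable ℝ (deriv θ) := hθ1.differentiable (by norm_num)
  have huz : DifferentiableAt ℝ u z := hu.1.self_of_nhds
  have h1 : fderiv ℝ (fun w => θ (u w)) =ᶠ[𝓝 z] fun w => deriv θ (u w) • fderiv ℝ u w := by
    filter_upwards [hu.1] with w hw
    exact ((hθd (u w)).hasDerivAt.comp_hasFDerivAt w hw.hasFDerivAt).fderiv
  have h3 : HasFDerivAt (fun w => deriv θ (u w)) (deriv (deriv θ) (u z) • fderiv ℝ u z) z :=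
    (hθd1 (u z)).hasDerivAt.comp_hasFDerivAt z huz.hasFDerivAt
  have h4 : HasFDerivAt (fun w => deriv θ (u w) • fderiv ℝ u w)
      (deriv θ (u z) • fderiv ℝ (fderiv ℝ u) z +
        (deriv (deriv θ) (u z) • fderiv ℝ u z).smulRight (fderiv ℝ u z)) z :=
    h3.smul hu.2.hasFDerivAt
  have h2 : ∀ a b, hes (fun w => θ (u w)) z a b = deriv θ (u z) * hes u z a b +
      deriv (deriv θ) (u z) * (fderiv ℝ u z a * fderiv ℝ u z b) := by
    intro a b
    unfold hes
    rw [h1.fderiv_eq, h4.fderiv]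
    simp only [_root_.add_apply, _root_.smul_apply, ContinuousLinearMap.smulRight_apply,
      smul_eq_mul]
    ring
  refine ⟨⟨?_, h4.differentiableAt.congr_of_eventuallyEq h1⟩, ?_⟩
  · filter_upwards [hu.1] with w hw
    exact (hθd (u w)).comp w hw
  · let a : Fin n → ℂ := fun j => (((fderiv ℝ u z (bv n j) : ℝ) : ℂ) -
      Complex.I * ((fderiv ℝ u z (Complex.I • bv n j) : ℝ) : ℂ)) / 2
    refine ⟨Matrix.vecMulVec a (star a), Matrix.posSemidef_vecMulVec_self_star a, ?_⟩
    ext j k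
    rw [Matrix.add_apply, Matrix.smul_apply, Matrix.smul_apply, Matrix.vecMulVec_apply,
      C11B_LM, C11B_LM]
    unfold C11B_h
    rw [h2, h2, h2, h2]
    have ha : ∀ j, a j = (((fderiv ℝ u z (bv n j) : ℝ) : ℂ) -
      Complex.I * ((fderiv ℝ u z (Complex.I • bv n j) : ℝ) : ℂ)) / 2 := fun j => rfl
    have hs : (star a) k = (((fderiv ℝ u z (bv n k) : ℝ) : ℂ) +
      Complex.I * ((fderiv ℝ u z (Complex.I • bv n k) : ℝ) : ℂ)) / 2 := by
      rw [Pi.star_apply, ha, RCLike.star_def, map_div₀, map_sub, map_mul, Complex.conj_ofReal,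
        Complex.conj_ofReal, Complex.conj_I, Complex.conj_ofNat]
      ring
    rw [hs, ha, smul_eq_mul, smul_eq_mul]
    push_cast
    generalize (fderiv ℝ u z (bv n j) : ℂ) = x1
    generalize (fderiv ℝ u z (bv n k) : ℂ) = x2
    generalize (fderiv ℝ u z (Complex.I • bv n j) : ℂ) = x3
    generalize (fderiv ℝ u z (Complex.I • bv n k) : ℂ) = x4
    generalize ((deriv (deriv θ) (u z) : ℝ) : ℂ) = t
    linear_combination (t * x3 * x4 / 4) * Complex.I_mul_I

theorem LM_congr {z : Cn n} (h : u =ᶠ[𝓝 z] v) : LM u z = LM v z := by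
  have h1 : fderiv ℝ u =ᶠ[𝓝 z] fderiv ℝ v := h.fderiv
  have h2 : hes u z = hes v z := h1.fderiv_eq
  ext j k
  rw [C11B_LM, C11B_LM, h2]

theorem LM_const (c : ℝ) (z : Cn n) : LM (fun _ => c) z = 0 := by
  have h1 : fderiv ℝ (fun _ : Cn n => c) = fun _ => 0 := by
    funext w
    exact fderiv_const_apply c
  have h2 : hes (fun _ => c) z = 0 := by
    unfold hes
    rw [h1]
    exact fderiv_const_apply _
  ext j k
  rw [C11B_LM, h2]
  simp [C11B_h]

theorem C11B_meas_hes (u : Cn n → ℝ) (a b : Cn n) : Measurable fun z => hes u z a b := by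
  have h1 : Measurable fun z => fderiv ℝ (fderiv ℝ u) z a :=
    measurable_fderiv_apply_const ℝ (fderiv ℝ u) a
  exact (ContinuousLinearMap.measurable_apply b).comp h1

/-- the entries of the Levi matrix -/
noncomputable def C11B_e (u : Cn n → ℝ) (z : Cn n) : Fin n → Fin n → ℂ := fun j k => LM u z j k

theorem C11B_meas_LM (u : Cn n → ℝ) : Measurable (C11B_e u) := by
  refine measurable_pi_lambda _ fun j => measurable_pi_lambda _ fun k => ?_
  have h := C11B_meas_hes u
  unfold C11B_e LM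
  exact ((Complex.measurable_ofReal.comp ((h _ _).add (h _ _))).add
    (measurable_const.mul (Complex.measurable_ofReal.comp ((h _ _).sub (h _ _))))).div_const 4

theorem C11B_cont_det : Continuous fun M : Matrix (Fin n) (Fin n) ℂ => (M.det).re :=
  Complex.continuous_re.comp (continuous_id.matrix_det)

theorem C11B_cont_adj : Continuous fun M : Matrix (Fin n) (Fin n) ℂ × Matrix (Fin n) (Fin n) ℂ =>
    ((M.1.adjugate * M.2).trace).re :=
  Complex.continuous_re.comp ((continuous_fst.matrix_adjugate.matrix_mul continuous_snd).matrix_trace)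

/-- the determinant of an array -/
noncomputable def C11B_det (M : Fin n → Fin n → ℂ) : ℝ := (@Matrix.det (Fin n) _ _ ℂ _ M).re

/-- the mixed determinant of two arrays -/
noncomputable def C11B_adj (M : (Fin n → Fin n → ℂ) × (Fin n → Fin n → ℂ)) : ℝ :=
  ((@HMul.hMul (Matrix (Fin n) (Fin n) ℂ) (Matrix (Fin n) (Fin n) ℂ) (Matrix (Fin n) (Fin n) ℂ) _
    (@Matrix.adjugate (Fin n) ℂ _ _ _ M.1) M.2).trace).re

theorem C11B_meas_det : Measurable (C11B_det (n := n)) := by
  have h : Continuous (C11B_det (n := n)) := C11B_cont_det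
  exact h.measurable

theorem C11B_meas_adj : Measurable (C11B_adj (n := n)) := by
  have h : Continuous (C11B_adj (n := n)) := C11B_cont_adj
  exact h.measurable

theorem measurable_mad (u : Cn n → ℝ) : Measurable (mad u) := by
  exact C11B_meas_det.comp (C11B_meas_LM u)

theorem C11B_mal_eq (u v : Cn n → ℝ) (z : Cn n) :
    mal u v z = C11B_adj (C11B_e u z, C11B_e v z) := by
  have h1 : C11B_e u z = LM u z := rfl
  have h2 : C11B_e v z = LM v z := rfl
  unfold mal C11B_adj
  rw [h1, h2]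

theorem measurable_mal (u v : Cn n → ℝ) : Measurable (mal u v) := by
  have h := C11B_meas_adj.comp ((C11B_meas_LM u).prodMk (C11B_meas_LM v))
  have h2 : mal u v = C11B_adj ∘ fun z => (C11B_e u z, C11B_e v z) := by
    funext z
    rw [C11B_mal_eq]
    rfl
  rw [h2]
  exact h

theorem C11B_LM_bound {u : Cn n → ℝ} {z : Cn n} {C : ℝ} (h : ‖hes u z‖ ≤ C) (j k : Fin n) :
    ‖LM u z j k‖ ≤ C := by
  have hb : ∀ i, ‖bv n i‖ = 1 := fun i => by simp [bv]
  have hbI : ∀ i, ‖Complex.I • bv n i‖ = 1 := fun i => by rw [norm_smul, hb]; simp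
  have h1 : ∀ a b : Cn n, ‖a‖ = 1 → ‖b‖ = 1 → |hes u z a b| ≤ C := by
    intro a b ha hb
    have := (hes u z).le_opNorm₂ a b
    rw [ha, hb, mul_one, mul_one] at this
    exact this.trans h
  unfold LM
  rw [norm_div, div_le_iff₀ (by norm_num)]
  refine (norm_add_le _ _).trans ?_
  rw [norm_mul, Complex.norm_I, one_mul, Complex.norm_real, Complex.norm_real, Real.norm_eq_abs,
    Real.norm_eq_abs]
  have e1 := h1 (bv n j) (bv n k) (hb j) (hb k)
  have e2 := h1 (Complex.I • bv n j) (Complex.I • bv n k) (hbI j) (hbI k)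
  have e3 := h1 (bv n j) (Complex.I • bv n k) (hb j) (hbI k)
  have e4 := h1 (Complex.I • bv n j) (bv n k) (hbI j) (hb k)
  have e5 := abs_add_le (hes u z (bv n j) (bv n k))
    (hes u z (Complex.I • bv n j) (Complex.I • bv n k))
  have e6 := abs_sub (hes u z (bv n j) (Complex.I • bv n k))
    (hes u z (Complex.I • bv n j) (bv n k))
  have e7 : ‖(4 : ℂ)‖ = 4 := by simp
  rw [e7]
  linarith

/-- `mad` and `mal` are bounded in terms of the second derivatives -/
theorem mad_bdd (n : ℕ) (C : ℝ) : ∃ B : ℝ, 0 ≤ B ∧ ∀ (u v : Cn n → ℝ) (z : Cn n),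
    ‖hes u z‖ ≤ C → ‖hes v z‖ ≤ C → |mad u z| ≤ B ∧ |mal u v z| ≤ B := by
  let S : Set (Matrix (Fin n) (Fin n) ℂ) :=
    Set.pi Set.univ fun _ => Set.pi Set.univ fun _ => closedBall (0 : ℂ) C
  have hS : IsCompact S := isCompact_univ_pi fun _ => isCompact_univ_pi fun _ =>
    isCompact_closedBall _ _
  obtain ⟨B1, hB1⟩ := hS.exists_bound_of_continuousOn C11B_cont_det.continuousOn
  obtain ⟨B2, hB2⟩ := (hS.prod hS).exists_bound_of_continuousOn C11B_cont_adj.continuousOn
  have hmem : ∀ (u : Cn n → ℝ) (z : Cn n), ‖hes u z‖ ≤ C → LM u z ∈ S := by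
    intro u z h j _ k _
    rw [mem_closedBall_zero_iff]
    exact C11B_LM_bound h j k
  refine ⟨max 0 (max B1 B2), le_max_left _ _, fun u v z hu hv => ⟨?_, ?_⟩⟩
  · exact (hB1 _ (hmem u z hu)).trans ((le_max_left _ _).trans (le_max_right _ _))
  · exact (hB2 (LM u z, LM v z) ⟨hmem u z hu, hmem v z hv⟩).trans
      ((le_max_right _ _).trans (le_max_right _ _))

theorem LM_smooth (hu : ContDiff ℝ ∞ u) (z : Cn n) (j k : Fin n) :
    LM u z j k = db k (dd j (fun w => (u w : ℂ))) z := by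
  rw [dbar2_dd hu]
  unfold LM hes
  rw [dbar2_symm hu z (bv n j) (bv n k), dbar2_symm hu z (Complex.I • bv n j) (Complex.I • bv n k),
    dbar2_symm hu z (Complex.I • bv n k) (bv n j), dbar2_symm hu z (bv n k) (Complex.I • bv n j)]

end HMA

end S_KM_C11B

section S_MA_Weyl

/-! # Module WEYL: weakly holomorphic functions are holomorphic -/

open MeasureTheory Metric Set
open scoped ENNReal Topology ContDiff

namespace HMA

open ContinuousLinearMap in
/-- convolution of a real function and a complex function -/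
noncomputable abbrev Weyl_C {n : ℕ} (φ : Cn n → ℝ) (h : Cn n → ℂ) : Cn n → ℂ :=
  convolution φ h (lsmul ℝ ℝ) volume

/-- multiplication by `exp (iθ)` -/
noncomputable def Weyl_rot (n : ℕ) (θ : ℝ) : Cn n ≃ₗᵢ[ℝ] Cn n where
  toLinearEquiv := (LinearEquiv.smulOfNeZero ℂ (Cn n) (Complex.exp (θ * Complex.I))
    (Complex.exp_ne_zero _)).restrictScalars ℝ
  norm_map' x := by
    show ‖Complex.exp (θ * Complex.I) • x‖ = ‖x‖
    rw [norm_smul, Complex.norm_exp_ofReal_mul_I, one_mul]

theorem Weyl_rot_apply (n : ℕ) (θ : ℝ) (x : Cn n) :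
    Weyl_rot n θ x = Complex.exp (θ * Complex.I) • x := rfl

theorem Weyl_mean {n : ℕ} {G : Cn n → ℂ} (hG : Differentiable ℂ G) {ρ : Cn n → ℝ}
    (hc : Continuous ρ) (hs : HasCompactSupport ρ)
    (hr : ∀ (θ : ℝ) (x : Cn n), ρ (Complex.exp (θ * Complex.I) • x) = ρ x) (h1 : ∫ x, ρ x = 1)
    (z : Cn n) : Weyl_C ρ G z = G z := by
  have hrot : ∀ θ : ℝ, ∫ t, ρ t • G (z - Complex.exp (θ * Complex.I) • t) = Weyl_C ρ G z := by
    intro θ
    have h2 := (Weyl_rot n θ).measurePreserving.integral_comp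
      (Weyl_rot n θ).toHomeomorph.measurableEmbedding (fun t => ρ t • G (z - t))
    simp only [Weyl_rot_apply, hr] at h2
    rw [h2]
    rfl
  have hcont : Continuous (Function.uncurry fun (θ : ℝ) (t : Cn n) =>
      ρ t • G (z - Complex.exp (θ * Complex.I) • t)) := by
    have := hG.continuous
    unfold Function.uncurry
    fun_prop
  have hint : Integrable (Function.uncurry fun (θ : ℝ) (t : Cn n) =>
      ρ t • G (z - Complex.exp (θ * Complex.I) • t))
      ((volume.restrict (uIoc 0 (2 * Real.pi))).prod volume) := by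
    have hsupp : Function.support (Function.uncurry fun (θ : ℝ) (t : Cn n) =>
        ρ t • G (z - Complex.exp (θ * Complex.I) • t)) ⊆ (univ : Set ℝ) ×ˢ tsupport ρ := by
      rintro ⟨θ, t⟩ ht
      refine ⟨mem_univ _, subset_tsupport _ ?_⟩
      intro h0
      apply ht
      show ρ t • _ = 0
      rw [h0, zero_smul]
    rw [← integrableOn_iff_integrable_of_support_subset hsupp]
    have h3 : IntegrableOn (Function.uncurry fun (θ : ℝ) (t : Cn n) =>
        ρ t • G (z - Complex.exp (θ * Complex.I) • t)) (uIcc 0 (2 * Real.pi) ×ˢ tsupport ρ)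
        (volume.prod volume) :=
      hcont.continuousOn.integrableOn_compact (isCompact_uIcc.prod hs)
    have h4 := h3.mono_set (prod_mono_left uIoc_subset_uIcc)
    rw [IntegrableOn, ← Measure.prod_restrict] at h4
    rw [IntegrableOn, ← Measure.prod_restrict, Measure.restrict_univ]
    exact h4
  have hswap := intervalIntegral_integral_swap hint
  simp only [hrot] at hswap
  rw [intervalIntegral.integral_const, sub_zero] at hswap
  have hinner : ∀ t : Cn n, ∫ θ in (0 : ℝ)..(2 * Real.pi),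
      ρ t • G (z - Complex.exp (θ * Complex.I) • t) = (2 * Real.pi) • (ρ t • G z) := by
    intro t
    rw [intervalIntegral.integral_smul]
    have h5 : Real.circleAverage (fun w : ℂ => G (z - w • t)) 0 1 = G (z - (0 : ℂ) • t) := by
      apply DiffContOnCl.circleAverage
      apply Differentiable.diffContOnCl
      exact hG.comp ((differentiable_const _).sub (differentiable_id.smul_const _))
    rw [Real.circleAverage_def] at h5
    simp only [circleMap, zero_add, Complex.ofReal_one, one_mul, zero_smul, sub_zero] at h5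
    have h6 : (2 * Real.pi) ≠ 0 := by positivity
    rw [inv_smul_eq_iff₀ h6] at h5
    rw [h5, smul_comm]
  simp only [hinner] at hswap
  rw [integral_smul, integral_smul_const, h1, one_smul] at hswap
  have h6 : (2 * Real.pi) ≠ 0 := by positivity
  exact smul_right_injective _ h6 hswap

theorem Weyl_hol {n : ℕ} {h : Cn n → ℂ} (hh : LocallyIntegrable h volume)
    (h0 : ∀ j : Fin n, ∀ f : Cn n → ℂ, Tst f → ∫ z, h z * db j f z = 0) {φ : Cn n → ℝ}
    (hφ : ContDiff ℝ ∞ φ) (hc : HasCompactSupport φ) : Differentiable ℂ (Weyl_C φ h) := by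
  have hsm : ContDiff ℝ ∞ (Weyl_C φ h) :=
    HasCompactSupport.contDiff_convolution_left _ hc hφ hh
  refine differentiable_of_db hsm fun j z => ?_
  have hφ1 : ContDiff ℝ 1 φ := hφ.of_le (by exact_mod_cast le_top)
  have hd : ∀ v, fderiv ℝ (Weyl_C φ h) z v = ∫ t, (fderiv ℝ φ (z - t) v) • h t := by
    intro v
    have h1 : Weyl_C φ h = convolution h φ (ContinuousLinearMap.lsmul ℝ ℝ : ℝ →L[ℝ] ℂ →L[ℝ] ℂ).flip
      volume := by
      rw [convolution_flip]
    rw [h1, (HasCompactSupport.hasFDerivAt_convolution_right _ hc hh hφ1 z).fderiv]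
    rw [convolution_precompR_apply _ hh (hc.fderiv ℝ) (hφ1.continuous_fderiv (by norm_num))]
    rfl
  have hI : ∀ v, Integrable (fun t => ((fderiv ℝ φ (z - t) v : ℝ) : ℂ) * h t) volume := by
    intro v
    have hcv : HasCompactSupport (fun t => fderiv ℝ φ t v) :=
      (hc.fderiv ℝ).comp_left (g := fun L : Cn n →L[ℝ] ℝ => L v) rfl
    have hcc : Continuous (fun t => fderiv ℝ φ t v) :=
      (hφ1.continuous_fderiv (by norm_num)).clm_apply continuous_const
    have h2 := (HasCompactSupport.convolutionExists_right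
      (ContinuousLinearMap.lsmul ℝ ℝ : ℝ →L[ℝ] ℂ →L[ℝ] ℂ).flip hcv hh hcc z)
    have h3 : Integrable (fun t => (fderiv ℝ φ (z - t) v) • h t) volume := h2
    simpa only [Complex.real_smul] using h3
  have hT : Tst (fun t => ((φ (z - t) : ℝ) : ℂ)) := by
    refine ⟨?_, ?_⟩
    · exact Complex.ofRealCLM.contDiff.comp (hφ.comp (contDiff_const.sub contDiff_id))
    · have h4 : HasCompactSupport (fun t => φ (z - t)) := by
        have := hc.comp_homeomorph (Homeomorph.subLeft z)
        exact this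
      exact h4.comp_left (g := fun x : ℝ => (x : ℂ)) Complex.ofReal_zero
  have hfd : ∀ t v, fderiv ℝ (fun t => ((φ (z - t) : ℝ) : ℂ)) t v = -((fderiv ℝ φ (z - t) v : ℝ) : ℂ) := by
    intro t v
    have h5 : HasFDerivAt φ (fderiv ℝ φ (z - t)) (z - t) :=
      (hφ1.differentiable (by norm_num) _).hasFDerivAt
    have h6 : HasFDerivAt (fun t : Cn n => z - t) (-(ContinuousLinearMap.id ℝ (Cn n))) t :=
      (hasFDerivAt_id t).const_sub z
    have h7 := (Complex.ofRealCLM.hasFDerivAt (x := φ (z - t))).comp t (h5.comp t h6)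
    have h8 : fderiv ℝ (fun t => ((φ (z - t) : ℝ) : ℂ)) t = _ := h7.fderiv
    rw [h8]
    simp
  have key := h0 j _ hT
  unfold db at key ⊢
  rw [hd, hd]
  simp only [hfd] at key
  have h9 : ∀ t, h t * ((-((fderiv ℝ φ (z - t) (bv n j) : ℝ) : ℂ) +
      Complex.I * -((fderiv ℝ φ (z - t) (Complex.I • bv n j) : ℝ) : ℂ)) / 2) =
      (-1 / 2) * (((fderiv ℝ φ (z - t) (bv n j) : ℝ) : ℂ) * h t) +
      (-Complex.I / 2) * (((fderiv ℝ φ (z - t) (Complex.I • bv n j) : ℝ) : ℂ) * h t) := by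
    intro t; ring
  simp only [h9] at key
  rw [integral_add ((hI _).const_mul _) ((hI _).const_mul _), integral_const_mul,
    integral_const_mul] at key
  simp only [Complex.real_smul]
  linear_combination -key

theorem Weyl_norm {n : ℕ} {h : Cn n → ℂ} (hh : LocallyIntegrable h volume) :
    LocallyIntegrable (fun x => ‖h x‖) volume :=
  hh.mono hh.aestronglyMeasurable.norm (Filter.Eventually.of_forall fun x => by simp)

theorem Weyl_comm {n : ℕ} {h : Cn n → ℂ} (hh : LocallyIntegrable h volume) {φ ρ : Cn n → ℝ}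
    (hφ : Continuous φ) (hc : HasCompactSupport φ) (hρ : Continuous ρ) (hcρ : HasCompactSupport ρ) :
    Weyl_C ρ (Weyl_C φ h) = Weyl_C φ (Weyl_C ρ h) := by
  have key : ∀ {φ ρ : Cn n → ℝ}, Continuous φ → HasCompactSupport φ → Continuous ρ →
      HasCompactSupport ρ → Weyl_C ρ (Weyl_C φ h) =
      Weyl_C (convolution ρ φ (ContinuousLinearMap.lsmul ℝ ℝ) volume) h := by
    intro φ ρ hφ hc hρ hcρ
    funext x₀
    symm
    refine convolution_assoc _ _ _ _ ?_ hρ.aestronglyMeasurable hφ.aestronglyMeasurable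
      hh.aestronglyMeasurable ?_ ?_ ?_
    · intro x y z
      simp [mul_assoc]
    · exact Filter.Eventually.of_forall fun y =>
        HasCompactSupport.convolutionExists_left _ hcρ hρ hφ.locallyIntegrable y
    · exact Filter.Eventually.of_forall fun y =>
        HasCompactSupport.convolutionExists_left _ hc.norm hφ.norm (Weyl_norm hh) y
    · refine HasCompactSupport.convolutionExists_left _ hcρ.norm hρ.norm ?_ x₀
      exact (HasCompactSupport.continuous_convolution_left _ hc.norm hφ.norm (Weyl_norm hh)).locallyIntegrable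
  rw [key hφ hc hρ hcρ, key hρ hcρ hφ hc]
  have : (ContinuousLinearMap.lsmul ℝ ℝ : ℝ →L[ℝ] ℝ →L[ℝ] ℝ).flip = ContinuousLinearMap.lsmul ℝ ℝ := by
    ext; simp
  rw [← convolution_flip (f := ρ) (g := φ), this]

theorem Weyl_bump (n : ℕ) : ∃ ρ : Cn n → ℝ, ContDiff ℝ ∞ ρ ∧ HasCompactSupport ρ ∧
    (∀ (θ : ℝ) (x : Cn n), ρ (Complex.exp (θ * Complex.I) • x) = ρ x) ∧ ∫ x, ρ x = 1 := by
  set b : Cn n → ℝ := fun x => Real.smoothTransition (1 - ‖x‖ ^ 2) with hb
  have hbs : ContDiff ℝ ∞ b := Real.smoothTransition.contDiff.comp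
    (contDiff_const.sub (contDiff_norm_sq ℝ))
  have hbc : HasCompactSupport b := by
    refine HasCompactSupport.intro (isCompact_closedBall 0 1) fun x hx => ?_
    have : 1 < ‖x‖ := by simpa using hx
    exact Real.smoothTransition.zero_of_nonpos (by nlinarith)
  have hpos : 0 < ∫ x, b x := by
    refine (integral_pos_iff_support_of_nonneg (fun x => Real.smoothTransition.nonneg _)
      (hbs.continuous.integrable_of_hasCompactSupport hbc)).2 ?_
    refine (measure_ball_pos volume (0 : Cn n) one_pos).trans_le (measure_mono ?_)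
    intro x hx
    have : ‖x‖ < 1 := by simpa using hx
    exact (Real.smoothTransition.pos_of_pos (by nlinarith [norm_nonneg x])).ne'
  refine ⟨fun x => (∫ x, b x)⁻¹ * b x, contDiff_const.mul hbs, ?_, ?_, ?_⟩
  · exact hbc.mul_left
  · intro θ x
    simp only [hb, norm_smul, Complex.norm_exp_ofReal_mul_I, one_mul]
  · rw [integral_const_mul, inv_mul_cancel₀ hpos.ne']

theorem weyl {n : ℕ} {h : Cn n → ℂ} (hh : LocallyIntegrable h volume)
    (h0 : ∀ j : Fin n, ∀ f : Cn n → ℂ, Tst f → ∫ z, h z * db j f z = 0) :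
    ∃ H : Cn n → ℂ, Differentiable ℂ H ∧ h =ᵐ[volume] H := by
  obtain ⟨ρ, hρ, hρc, hρr, hρ1⟩ := Weyl_bump n
  refine ⟨Weyl_C ρ h, Weyl_hol hh h0 hρ hρc, ?_⟩
  -- a sequence of bumps
  let φ : ℕ → ContDiffBump (0 : Cn n) := fun k =>
    { rIn := 1 / ((k : ℝ) + 1), rOut := 2 / ((k : ℝ) + 1), rIn_pos := by positivity,
      rIn_lt_rOut := by
        rw [div_lt_div_iff_of_pos_right (by positivity)]; norm_num }
  have hφ0 : Filter.Tendsto (fun k => (φ k).rOut) Filter.atTop (𝓝 0) := by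
    have := (tendsto_one_div_add_atTop_nhds_zero_nat (𝕜 := ℝ)).const_mul 2
    simpa [φ, div_eq_mul_inv] using this
  have hK : ∀ᶠ k in Filter.atTop, (φ k).rOut ≤ 2 * (φ k).rIn := by
    refine Filter.Eventually.of_forall fun k => ?_
    show 2 / ((k : ℝ) + 1) ≤ 2 * (1 / ((k : ℝ) + 1))
    rw [mul_one_div]
  have hae := ContDiffBump.ae_convolution_tendsto_right_of_locallyIntegrable hφ0 hK hh
  have hcont : Continuous (Weyl_C ρ h) := (Weyl_hol hh h0 hρ hρc).continuous
  filter_upwards [hae] with x hx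
  have h2 := ContDiffBump.convolution_tendsto_right_of_continuous (μ := (volume : Measure (Cn n)))
    hφ0 hcont x
  refine tendsto_nhds_unique hx ?_
  refine h2.congr fun k => ?_
  have hs : ContDiff ℝ ∞ ((φ k).normed volume) := (φ k).contDiff_normed
  have hsc : HasCompactSupport ((φ k).normed volume) := (φ k).hasCompactSupport_normed
  have h3 := Weyl_mean (Weyl_hol hh h0 hs hsc) hρ.continuous hρc hρr hρ1 x
  rw [Weyl_comm hh hs.continuous hsc hρ.continuous hρc] at h3
  exact h3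

end HMA

end S_MA_Weyl

section S_KM_HolSm

/-! # Module HolSm: holomorphic maps of several variables are smooth -/

open MeasureTheory Metric Set
open scoped ENNReal Topology ContDiff ComplexOrder

namespace HMA

theorem holsm_deriv {n m : ℕ} {F : Cn n → Cn m} {z v : Cn n} {r : ℝ} (hr : 0 < r)
    (hF : ∀ ζ : ℂ, ‖ζ‖ ≤ r → DifferentiableAt ℂ F (z + ζ • v)) :
    DiffContOnCl ℂ (fun ζ : ℂ => F (z + ζ • v)) (ball 0 r) ∧
    deriv (fun ζ : ℂ => F (z + ζ • v)) 0 = fderiv ℂ F z v ∧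
    fderiv ℂ F z v = (2 * Real.pi * Complex.I : ℂ)⁻¹ •
      ∫ θ in (0 : ℝ)..(2 * Real.pi),
        (deriv (circleMap 0 r) θ * (1 / (circleMap 0 r θ) ^ 2)) •
          F (z + circleMap 0 r θ • v) := by
  have hd : ∀ ζ : ℂ, ‖ζ‖ ≤ r → DifferentiableAt ℂ (fun ζ : ℂ => F (z + ζ • v)) ζ := by
    intro ζ hζ
    have h1 : DifferentiableAt ℂ (fun ζ : ℂ => z + ζ • v) ζ := by fun_prop
    exact DifferentiableAt.comp (g := F) ζ (hF ζ hζ) h1
  have hc : DiffContOnCl ℂ (fun ζ : ℂ => F (z + ζ • v)) (ball 0 r) := by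
    refine DifferentiableOn.diffContOnCl ?_
    intro ζ hζ
    refine (hd ζ ?_).differentiableWithinAt
    have : ζ ∈ closedBall (0 : ℂ) r := by
      have := Metric.closure_ball_subset_closedBall hζ
      exact this
    simpa using this
  have h1 := hc.deriv_eq_smul_circleIntegral hr
  have h2 : deriv (fun ζ : ℂ => F (z + ζ • v)) 0 = fderiv ℂ F z v := by
    have h3 : HasFDerivAt F (fderiv ℂ F z) (z + (0 : ℂ) • v) := by
      have := hF 0 (by simpa using hr.le)
      simp only [zero_smul, add_zero] at this ⊢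
      exact this.hasFDerivAt
    have h4 : HasDerivAt (fun ζ : ℂ => z + ζ • v) v 0 := by
      simpa using ((hasDerivAt_id (0 : ℂ)).smul_const v).const_add z
    exact (h3.comp_hasDerivAt 0 h4).deriv
  refine ⟨hc, h2, ?_⟩
  have h5 : (2 * Real.pi * Complex.I : ℂ) ≠ 0 := by
    simp [Real.pi_ne_zero]
  rw [← h2, eq_comm, inv_smul_eq_iff₀ h5, ← h1, circleIntegral]
  refine intervalIntegral.integral_congr fun θ _ => ?_
  simp [smul_smul]

/-- Cauchy estimate for the Fréchet derivative -/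
theorem holsm_cauchy {n m : ℕ} {F : Cn n → Cn m} {w : Cn n} {R M : ℝ} (hR : 0 < R)
    (hF : ∀ z ∈ closedBall w R, DifferentiableAt ℂ F z) (hM : ∀ z ∈ closedBall w R, ‖F z‖ ≤ M) :
    ‖fderiv ℂ F w‖ ≤ M / R := by
  have hM0 : 0 ≤ M := (norm_nonneg _).trans (hM w (mem_closedBall_self hR.le))
  refine ContinuousLinearMap.opNorm_le_of_unit_norm (by positivity) ?_
  intro v hv
  have hmem : ∀ ζ : ℂ, ‖ζ‖ ≤ R → w + ζ • v ∈ closedBall w R := by
    intro ζ hζ
    rw [mem_closedBall, dist_eq_norm, add_sub_cancel_left, norm_smul, hv, mul_one]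
    exact hζ
  obtain ⟨h1, h2, -⟩ := holsm_deriv (z := w) (v := v) hR (fun ζ hζ => hF _ (hmem ζ hζ))
  rw [← h2]
  refine Complex.norm_deriv_le_of_forall_mem_sphere_norm_le hR h1 ?_
  intro ζ hζ
  exact hM _ (hmem ζ (by simpa using (mem_sphere.1 hζ).le))

theorem holsm_diff {n m : ℕ} {Ω : Set (Cn n)} (hΩ : IsOpen Ω) {F : Cn n → Cn m}
    (hF : DifferentiableOn ℂ F Ω) (v : Cn n) :
    DifferentiableOn ℂ (fun z => fderiv ℂ F z v) Ω := by
  intro z0 hz0
  refine DifferentiableAt.differentiableWithinAt ?_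
  have hFd : ∀ z ∈ Ω, DifferentiableAt ℂ F z := fun z hz => hF.differentiableAt (hΩ.mem_nhds hz)
  obtain ⟨R, hR, hRΩ⟩ := Metric.isOpen_iff.1 hΩ z0 hz0
  have hL : closedBall z0 (R / 2) ⊆ Ω := (closedBall_subset_ball (by linarith)).trans hRΩ
  obtain ⟨M, hM⟩ := (isCompact_closedBall z0 (R / 2)).exists_bound_of_continuousOn
    (hF.continuousOn.mono hL)
  -- radius of the circle
  set r : ℝ := R / (8 * (‖v‖ + 1)) with hr
  have hr0 : 0 < r := by positivity
  have hrv : r * ‖v‖ ≤ R / 8 := by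
    rw [hr, div_mul_eq_mul_div, div_le_div_iff₀ (by positivity) (by norm_num)]
    nlinarith [norm_nonneg v]
  have hmem : ∀ z ∈ ball z0 (R / 8), ∀ ζ : ℂ, ‖ζ‖ ≤ r → z + ζ • v ∈ closedBall z0 (R / 4) := by
    intro z hz ζ hζ
    rw [mem_closedBall, dist_eq_norm]
    rw [mem_ball, dist_eq_norm] at hz
    have h1 : z + ζ • v - z0 = (z - z0) + ζ • v := by abel
    rw [h1]
    refine (norm_add_le _ _).trans ?_
    rw [norm_smul]
    have : ‖ζ‖ * ‖v‖ ≤ r * ‖v‖ := by gcongr
    linarith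
  have hL4 : closedBall z0 (R / 4) ⊆ Ω :=
    (closedBall_subset_closedBall (by linarith)).trans hL
  have hbound : ∀ w ∈ closedBall z0 (R / 4), ‖fderiv ℂ F w‖ ≤ M / (R / 4) := by
    intro w hw
    have hsub : closedBall w (R / 4) ⊆ closedBall z0 (R / 2) := by
      refine closedBall_subset_closedBall' ?_
      rw [mem_closedBall] at hw
      linarith
    exact holsm_cauchy (by positivity) (fun z hz => hFd z (hL (hsub hz)))
      (fun z hz => hM z (hsub hz))
  have hcn : ∀ θ : ℝ, ‖circleMap 0 r θ‖ ≤ r := by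
    intro θ
    simp [abs_of_pos hr0]
  -- the integrand
  set s : ℝ → ℂ := fun θ => deriv (circleMap 0 r) θ * (1 / (circleMap 0 r θ) ^ 2) with hs
  have hsc : Continuous s := by
    have h1 : ∀ θ, circleMap 0 r θ ≠ 0 := fun θ => circleMap_ne_center hr0.ne'
    have h2 : Continuous (circleMap (0 : ℂ) r) := continuous_circleMap 0 r
    have h3 : s = fun θ => circleMap 0 r θ * Complex.I * (1 / (circleMap 0 r θ) ^ 2) := by
      funext θ
      simp [hs]
    rw [h3]
    refine (h2.mul continuous_const).mul (continuous_const.div (h2.pow 2) ?_)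
    intro θ
    exact pow_ne_zero 2 (h1 θ)
  obtain ⟨S, hS⟩ : ∃ S : ℝ, ∀ θ, ‖s θ‖ ≤ S := by
    refine ⟨1 / r, fun θ => ?_⟩
    simp only [hs, deriv_circleMap, norm_mul, norm_div, norm_pow, norm_one, Complex.norm_I,
      mul_one]
    simp only [norm_circleMap_zero, abs_of_pos hr0]
    apply le_of_eq
    field_simp
  have hS0 : 0 ≤ S := (norm_nonneg _).trans (hS 0)
  have : ProperSpace (Cn n →L[ℂ] Cn m) := FiniteDimensional.proper ℂ _
  have hcz : ∀ z : Cn n, Continuous (fun θ : ℝ => z + circleMap 0 r θ • v) := by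
    intro z
    have : Continuous (circleMap (0 : ℂ) r) := continuous_circleMap 0 r
    fun_prop
  have hFc : ∀ z ∈ ball z0 (R / 8), Continuous (fun θ : ℝ => s θ • F (z + circleMap 0 r θ • v)) := by
    intro z hz
    refine hsc.smul ?_
    refine hF.continuousOn.comp_continuous (hcz z) fun θ => hL4 (hmem z hz _ (hcn θ))
  have hmeas : Measurable (fderiv ℂ F) := measurable_fderiv ℂ F
  have key := intervalIntegral.hasFDerivAt_integral_of_dominated_of_fderiv_le (𝕜 := ℂ)
    (μ := volume) (a := 0) (b := 2 * Real.pi) (s := ball z0 (R / 8))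
    (F := fun z θ => s θ • F (z + circleMap 0 r θ • v))
    (F' := fun z θ => s θ • fderiv ℂ F (z + circleMap 0 r θ • v)) (x₀ := z0)
    (bound := fun _ => S * (M / (R / 4))) (ball_mem_nhds z0 (by positivity))
    (by
      filter_upwards [ball_mem_nhds z0 (show 0 < R / 8 by positivity)] with z hz
      exact (hFc z hz).aestronglyMeasurable)
    ((hFc z0 (mem_ball_self (by positivity))).intervalIntegrable _ _)
    (by
      refine AEStronglyMeasurable.smul hsc.aestronglyMeasurable ?_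
      exact (hmeas.comp (hcz z0).measurable).aestronglyMeasurable)
    (by
      refine Filter.Eventually.of_forall fun θ _ z hz => ?_
      rw [norm_smul]
      exact mul_le_mul (hS θ) (hbound _ (hmem z hz _ (hcn θ))) (norm_nonneg _) hS0)
    (by simp)
    (by
      refine Filter.Eventually.of_forall fun θ _ z hz => ?_
      have h1 : HasFDerivAt F (fderiv ℂ F (z + circleMap 0 r θ • v))
          (z + circleMap 0 r θ • v) := (hFd _ (hL4 (hmem z hz _ (hcn θ)))).hasFDerivAt
      have h2 : HasFDerivAt (fun z : Cn n => z + circleMap 0 r θ • v)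
          (ContinuousLinearMap.id ℂ (Cn n)) z := (hasFDerivAt_id z).add_const _
      have h3 := h1.comp z h2
      rw [ContinuousLinearMap.comp_id] at h3
      exact h3.const_smul (s θ))
  have h4 : (fun z => fderiv ℂ F z v) =ᶠ[𝓝 z0] fun z =>
      (2 * Real.pi * Complex.I : ℂ)⁻¹ • ∫ θ in (0 : ℝ)..(2 * Real.pi),
        s θ • F (z + circleMap 0 r θ • v) := by
    filter_upwards [ball_mem_nhds z0 (show 0 < R / 8 by positivity)] with z hz
    exact (holsm_deriv hr0 (fun ζ hζ => hFd _ (hL4 (hmem z hz ζ hζ)))).2.2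
  have h5 : DifferentiableAt ℂ (fun z => (2 * Real.pi * Complex.I : ℂ)⁻¹ •
      ∫ θ in (0 : ℝ)..(2 * Real.pi), s θ • F (z + circleMap 0 r θ • v)) z0 :=
    key.differentiableAt.fun_const_smul _
  exact h5.congr_of_eventuallyEq h4

theorem hol_contDiffOn {n m : ℕ} {Ω : Set (Cn n)} (hΩ : IsOpen Ω) {F : Cn n → Cn m}
    (hF : DifferentiableOn ℂ F Ω) : ContDiffOn ℂ ∞ F Ω := by
  have key : ∀ k : ℕ, ∀ F : Cn n → Cn m, DifferentiableOn ℂ F Ω → ContDiffOn ℂ k F Ω := by
    intro k
    induction k with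
    | zero =>
      intro F hF
      exact contDiffOn_zero.2 hF.continuousOn
    | succ k ih =>
      intro F hF
      rw [Nat.cast_add, Nat.cast_one, contDiffOn_succ_iff_fderiv_of_isOpen hΩ]
      refine ⟨hF, fun h => by simp at h, ?_⟩
      rw [contDiffOn_clm_apply]
      intro v
      exact ih _ (holsm_diff hΩ hF v)
  exact contDiffOn_infty.2 fun k => key k F hF

end HMA

end S_KM_HolSm

section S_MA_Moll

/-! # Module MOLL: mollification in `L²` with compact support -/

open MeasureTheory Metric Set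
open scoped ENNReal Topology ContDiff Convolution

namespace HMA

section MollAux

variable {n : ℕ}

/-- bump functions of radius `1 / (k + 1)` -/
noncomputable def Moll_bump (n : ℕ) (k : ℕ) : ContDiffBump (0 : Cn n) where
  rIn := 1 / (2 * ((k : ℝ) + 1))
  rOut := 1 / ((k : ℝ) + 1)
  rIn_pos := by positivity
  rIn_lt_rOut := by
    apply one_div_lt_one_div_of_lt (by positivity)
    have : (0 : ℝ) < (k : ℝ) + 1 := by positivity
    linarith

/-- the mollifier -/
noncomputable def Moll_eta (n : ℕ) (k : ℕ) : Cn n → ℝ := (Moll_bump n k).normed volume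

theorem Moll_eta_smooth (k : ℕ) : ContDiff ℝ ∞ (Moll_eta n k) :=
  (Moll_bump n k).contDiff_normed

theorem Moll_eta_supp (k : ℕ) : HasCompactSupport (Moll_eta n k) :=
  (Moll_bump n k).hasCompactSupport_normed

theorem Moll_eta_nonneg (k : ℕ) (x : Cn n) : 0 ≤ Moll_eta n k x :=
  (Moll_bump n k).nonneg_normed x

theorem Moll_eta_zero (k : ℕ) {x : Cn n} (hx : 1 / ((k : ℝ) + 1) ≤ ‖x‖) : Moll_eta n k x = 0 := by
  have h := (Moll_bump n k).support_normed_eq (μ := (volume : Measure (Cn n)))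
  by_contra hne
  have h1 : x ∈ Function.support ((Moll_bump n k).normed volume) := hne
  rw [h, mem_ball_zero_iff] at h1
  exact absurd h1 (not_lt.2 hx)

theorem Moll_eta_zero' (k : ℕ) {x : Cn n} (hx : 1 ≤ ‖x‖) : Moll_eta n k x = 0 := by
  apply Moll_eta_zero
  refine le_trans ?_ hx
  rw [div_le_one (by positivity)]
  have : (0 : ℝ) ≤ (k : ℝ) := by positivity
  linarith

/-- mollification -/
noncomputable def Moll_mol (k : ℕ) (G : Cn n → ℂ) : Cn n → ℂ :=
  Moll_eta n k ⋆[ContinuousLinearMap.lsmul ℝ ℝ, volume] G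

theorem Moll_mol_eq (k : ℕ) (G : Cn n → ℂ) (z : Cn n) :
    Moll_mol k G z = ∫ t, Moll_eta n k t • G (z - t) := rfl

theorem Moll_mol_eq' (k : ℕ) (G : Cn n → ℂ) (z : Cn n) :
    Moll_mol k G z = ∫ x, Moll_eta n k (z - x) • G x := by
  unfold Moll_mol
  rw [convolution_eq_swap]
  rfl

theorem Moll_smooth (k : ℕ) {G : Cn n → ℂ} (hG : LocallyIntegrable G volume) :
    ContDiff ℝ ∞ (Moll_mol k G) :=
  (Moll_eta_supp k).contDiff_convolution_left _ (Moll_eta_smooth k) hG

theorem Moll_mol_zero (k : ℕ) {G : Cn n → ℂ} {K : Set (Cn n)} (hG : ∀ z ∉ K, G z = 0) {z : Cn n}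
    (hz : z ∉ cthickening 1 K) : Moll_mol k G z = 0 := by
  rw [Moll_mol_eq]
  have : ∀ t, Moll_eta n k t • G (z - t) = 0 := by
    intro t
    by_cases ht : 1 ≤ ‖t‖
    · rw [Moll_eta_zero' k ht, zero_smul]
    · rw [hG, smul_zero]
      intro hK
      apply hz
      apply mem_cthickening_of_dist_le z (z - t) 1 K hK
      rw [dist_eq_norm, sub_sub_cancel]
      linarith
  simp [this]

/-- the test function `x ↦ η (z - x)` -/
noncomputable def Moll_tf (n : ℕ) (k : ℕ) (z : Cn n) : Cn n → ℂ :=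
  fun x => (Moll_eta n k (z - x) : ℂ)

theorem Moll_tf_tst (k : ℕ) (z : Cn n) : Tst (Moll_tf n k z) := by
  constructor
  · exact Complex.ofRealCLM.contDiff.comp
      ((Moll_eta_smooth k).comp (contDiff_const.sub contDiff_id))
  · apply HasCompactSupport.intro (isCompact_closedBall z 1)
    intro x hx
    unfold Moll_tf
    rw [Moll_eta_zero' k, Complex.ofReal_zero]
    rw [mem_closedBall, not_le, dist_comm, dist_eq_norm] at hx
    exact hx.le

theorem Moll_mol_tf (k : ℕ) (G : Cn n → ℂ) (z : Cn n) :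
    Moll_mol k G z = ∫ x, G x * Moll_tf n k z x := by
  rw [Moll_mol_eq']
  congr 1
  funext x
  rw [Complex.real_smul, mul_comm]
  rfl

theorem Moll_tf_fderiv (k : ℕ) (z x v : Cn n) :
    fderiv ℝ (Moll_tf n k z) x v = -((fderiv ℝ (Moll_eta n k) (z - x) v : ℝ) : ℂ) := by
  have h1 : HasFDerivAt (Moll_eta n k) (fderiv ℝ (Moll_eta n k) (z - x)) (z - x) :=
    (((Moll_eta_smooth k).differentiable (by simp)).differentiableAt).hasFDerivAt
  have h2 : HasFDerivAt (fun x => z - x) (-(ContinuousLinearMap.id ℝ (Cn n))) x :=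
    (hasFDerivAt_id x).const_sub z
  have h3 := Complex.ofRealCLM.hasFDerivAt.comp x (h1.comp x h2)
  have h4 : HasFDerivAt (Moll_tf n k z) _ x := h3
  rw [h4.fderiv]
  simp

theorem Moll_deriv (k : ℕ) {G : Cn n → ℂ} (hG : LocallyIntegrable G volume) (z v : Cn n) :
    fderiv ℝ (Moll_mol k G) z v = -∫ x, G x * fderiv ℝ (Moll_tf n k z) x v := by
  have hs : ContDiff ℝ 1 (Moll_eta n k) := (Moll_eta_smooth k).of_le (by simp)
  have h1 := (Moll_eta_supp k).hasFDerivAt_convolution_left (ContinuousLinearMap.lsmul ℝ ℝ)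
    hs hG z
  have h2 : HasFDerivAt (Moll_mol k G) _ z := h1
  rw [h2.fderiv, convolution_eq_swap]
  have h3 : ConvolutionExistsAt (fderiv ℝ (Moll_eta n k)) G z
      ((ContinuousLinearMap.lsmul ℝ ℝ : ℝ →L[ℝ] ℂ →L[ℝ] ℂ).precompL (Cn n)) volume :=
    (Moll_eta_supp k).fderiv ℝ |>.convolutionExists_left _
      (hs.continuous_fderiv (by simp)) hG z
  have h4 := convolutionExistsAt_iff_integrable_swap.1 h3
  rw [ContinuousLinearMap.integral_apply h4, ← integral_neg]
  congr 1
  funext x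
  rw [ContinuousLinearMap.precompL_apply, Moll_tf_fderiv]
  simp [mul_comm]

theorem Moll_int {G : Cn n → ℂ} (hG : LocallyIntegrable G volume) {f : Cn n → ℂ}
    (hf : Continuous f) (hf' : HasCompactSupport f) : Integrable (fun x => G x * f x) volume := by
  have := hG.integrable_smul_left_of_hasCompactSupport hf hf'
  refine this.congr ?_
  filter_upwards with x
  rw [smul_eq_mul, mul_comm]

theorem Moll_int_fderiv (k : ℕ) {G : Cn n → ℂ} (hG : LocallyIntegrable G volume) (z v : Cn n) :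
    Integrable (fun x => G x * fderiv ℝ (Moll_tf n k z) x v) volume := by
  have h := Moll_tf_tst (n := n) k z
  apply Moll_int hG
  · exact (h.smooth.continuous_fderiv (by simp)).clm_apply continuous_const
  · exact HasCompactSupport.fderiv_apply ℝ h.supp v

theorem Moll_dd (k : ℕ) {G : Cn n → ℂ} (hG : LocallyIntegrable G volume) (j : Fin n) (z : Cn n) :
    dd j (Moll_mol k G) z = -∫ x, G x * dd j (Moll_tf n k z) x := by
  have h1 := Moll_int_fderiv k hG z (bv n j)
  have h2 := Moll_int_fderiv k hG z (Complex.I • bv n j)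
  have h3 : ∀ x, G x * dd j (Moll_tf n k z) x =
      (1 / 2 : ℂ) * (G x * fderiv ℝ (Moll_tf n k z) x (bv n j)) -
        (Complex.I / 2) * (G x * fderiv ℝ (Moll_tf n k z) x (Complex.I • bv n j)) := by
    intro x
    unfold dd
    ring
  simp_rw [h3]
  rw [integral_sub (h1.const_mul _) (h2.const_mul _), integral_const_mul, integral_const_mul]
  unfold dd
  rw [Moll_deriv k hG, Moll_deriv k hG]
  ring

theorem Moll_db (k : ℕ) {G : Cn n → ℂ} (hG : LocallyIntegrable G volume) (j : Fin n) (z : Cn n) :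
    db j (Moll_mol k G) z = -∫ x, G x * db j (Moll_tf n k z) x := by
  have h1 := Moll_int_fderiv k hG z (bv n j)
  have h2 := Moll_int_fderiv k hG z (Complex.I • bv n j)
  have h3 : ∀ x, G x * db j (Moll_tf n k z) x =
      (1 / 2 : ℂ) * (G x * fderiv ℝ (Moll_tf n k z) x (bv n j)) +
        (Complex.I / 2) * (G x * fderiv ℝ (Moll_tf n k z) x (Complex.I • bv n j)) := by
    intro x
    unfold db
    ring
  simp_rw [h3]
  rw [integral_add (h1.const_mul _) (h2.const_mul _), integral_const_mul, integral_const_mul]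
  unfold db
  rw [Moll_deriv k hG, Moll_deriv k hG]
  ring

/-! ### `L²` estimates -/

/-- the probability measure `η_k dλ` -/
noncomputable def Moll_nu (n : ℕ) (k : ℕ) : Measure (Cn n) :=
  volume.withDensity fun t => ENNReal.ofReal (Moll_eta n k t)

instance Moll_nu_prob (k : ℕ) : IsProbabilityMeasure (Moll_nu n k) := by
  constructor
  unfold Moll_nu
  rw [withDensity_apply _ MeasurableSet.univ, Measure.restrict_univ,
    ← ofReal_integral_eq_lintegral_ofReal]
  · have : ∫ t, Moll_eta n k t = 1 := (Moll_bump n k).integral_normed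
    rw [this, ENNReal.ofReal_one]
  · exact (Moll_bump n k).integrable_normed
  · filter_upwards with t using Moll_eta_nonneg k t

theorem Moll_mol_nu (k : ℕ) (G : Cn n → ℂ) (z : Cn n) :
    Moll_mol k G z = ∫ t, G (z - t) ∂(Moll_nu n k) := by
  rw [Moll_mol_eq]
  unfold Moll_nu
  rw [integral_withDensity_eq_integral_toReal_smul]
  · congr 1
    funext t
    rw [ENNReal.toReal_ofReal (Moll_eta_nonneg k t)]
  · exact (Moll_eta_smooth k).continuous.measurable.ennreal_ofReal
  · filter_upwards with t using ENNReal.ofReal_lt_top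

theorem Moll_pointwise (k : ℕ) {F : Cn n → ℂ} (hF : AEStronglyMeasurable F volume) (z : Cn n) :
    ‖Moll_mol k F z‖ₑ ^ (2 : ℝ) ≤ ∫⁻ t, ‖F (z - t)‖ₑ ^ (2 : ℝ) ∂(Moll_nu n k) := by
  have hac : Moll_nu n k ≪ volume := withDensity_absolutelyContinuous _ _
  have hm : AEStronglyMeasurable (fun t => F (z - t)) (Moll_nu n k) :=
    (hF.comp_quasiMeasurePreserving (quasiMeasurePreserving_sub_left volume z)).mono_ac hac
  have h1 : ‖Moll_mol k F z‖ₑ ≤ eLpNorm (fun t => F (z - t)) 2 (Moll_nu n k) := by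
    rw [Moll_mol_nu]
    refine le_trans (enorm_integral_le_lintegral_enorm _) ?_
    rw [← eLpNorm_one_eq_lintegral_enorm]
    exact eLpNorm_le_eLpNorm_of_exponent_le (by norm_num) hm
  have h2 : eLpNorm (fun t => F (z - t)) 2 (Moll_nu n k) ^ (2 : ℝ) =
      ∫⁻ t, ‖F (z - t)‖ₑ ^ (2 : ℝ) ∂(Moll_nu n k) := by
    rw [eLpNorm_eq_lintegral_rpow_enorm_toReal (by norm_num) (by norm_num)]
    simp only [ENNReal.toReal_ofNat, one_div]
    rw [← ENNReal.rpow_mul]
    norm_num
  rw [← h2]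
  exact ENNReal.rpow_le_rpow h1 (by norm_num)

theorem Moll_young (k : ℕ) {F : Cn n → ℂ} (hF : AEStronglyMeasurable F volume) :
    eLpNorm (Moll_mol k F) 2 volume ≤ eLpNorm F 2 volume := by
  have h2 : ∀ H : Cn n → ℂ, eLpNorm H 2 volume = (∫⁻ z, ‖H z‖ₑ ^ (2 : ℝ)) ^ (1 / 2 : ℝ) := by
    intro H
    rw [eLpNorm_eq_lintegral_rpow_enorm_toReal (by norm_num) (by norm_num)]
    simp only [ENNReal.toReal_ofNat]
  rw [h2, h2]
  apply ENNReal.rpow_le_rpow _ (by norm_num)
  calc ∫⁻ z, ‖Moll_mol k F z‖ₑ ^ (2 : ℝ)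
      ≤ ∫⁻ z, (∫⁻ t, ‖F (z - t)‖ₑ ^ (2 : ℝ) ∂(Moll_nu n k)) :=
        lintegral_mono fun z => Moll_pointwise k hF z
    _ = ∫⁻ t, (∫⁻ z, ‖F (z - t)‖ₑ ^ (2 : ℝ)) ∂(Moll_nu n k) := by
        apply lintegral_lintegral_swap
        have h3 : AEStronglyMeasurable (fun p : Cn n × Cn n => F (p.1 - p.2))
            ((volume : Measure (Cn n)).prod (Moll_nu n k)) :=
          hF.comp_quasiMeasurePreserving
            (quasiMeasurePreserving_sub_of_right_invariant volume (Moll_nu n k))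
        exact (h3.enorm.pow_const _)
    _ = ∫⁻ t, (∫⁻ z, ‖F z‖ₑ ^ (2 : ℝ)) ∂(Moll_nu n k) := by
        congr 1
        funext t
        exact lintegral_sub_right_eq_self (fun z => ‖F z‖ₑ ^ (2 : ℝ)) t
    _ = ∫⁻ z, ‖F z‖ₑ ^ (2 : ℝ) := by
        rw [lintegral_const, measure_univ, mul_one]

theorem Moll_locint {G : Cn n → ℂ} (hG : MemLp G 2 volume) : LocallyIntegrable G volume :=
  hG.locallyIntegrable (by norm_num)

theorem Moll_sub (k : ℕ) {G H : Cn n → ℂ} (hG : LocallyIntegrable G volume)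
    (hH : LocallyIntegrable H volume) (z : Cn n) :
    Moll_mol k (fun z => G z - H z) z = Moll_mol k G z - Moll_mol k H z := by
  have h := Moll_tf_tst (n := n) k z
  rw [Moll_mol_tf, Moll_mol_tf, Moll_mol_tf, ← integral_sub
    (Moll_int hG h.smooth.continuous h.supp) (Moll_int hH h.smooth.continuous h.supp)]
  congr 1
  funext x
  ring

/-- uniform convergence for continuous compactly supported functions -/
theorem Moll_unif {g : Cn n → ℂ} (hg : Continuous g) (hg' : HasCompactSupport g) :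
    Filter.Tendsto (fun k => eLpNorm (fun z => Moll_mol k g z - g z) 2 volume)
      Filter.atTop (𝓝 0) := by
  set S : Set (Cn n) := cthickening 1 (tsupport g) with hS
  have hSc : IsCompact S := hg'.cthickening
  have hgK : ∀ z ∉ tsupport g, g z = 0 := fun z hz => image_eq_zero_of_notMem_tsupport hz
  have hgS : Function.support g ⊆ S := by
    intro z hz
    exact self_subset_cthickening _ (subset_tsupport g hz)
  have hmS : ∀ k, Function.support (Moll_mol k g) ⊆ S := by
    intro k z hz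
    by_contra hzS
    exact hz (Moll_mol_zero k hgK hzS)
  have hu := hg'.uniformContinuous_of_continuous hg
  rw [Metric.uniformContinuous_iff] at hu
  have key : ∀ δ : ℝ, 0 < δ → ∀ᶠ k in Filter.atTop,
      eLpNorm (fun z => Moll_mol k g z - g z) 2 volume ≤
        ENNReal.ofReal δ * volume S ^ (1 / (2 : ℝ≥0∞).toReal) := by
    intro δ hδ
    obtain ⟨r, hr, hr'⟩ := hu δ hδ
    have h1 : ∀ᶠ k : ℕ in Filter.atTop, 1 / ((k : ℝ) + 1) < r :=
      (tendsto_one_div_add_atTop_nhds_zero_nat).eventually (gt_mem_nhds hr)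
    filter_upwards [h1] with k hk
    have h2 : ∀ z, dist (Moll_mol k g z) (g z) ≤ δ := by
      intro z
      apply (Moll_bump n k).dist_normed_convolution_le hg.aestronglyMeasurable
      intro x hx
      rw [mem_ball] at hx
      exact (hr' (lt_trans hx hk)).le
    exact eLpNorm_sub_le_of_dist_bdd volume (by norm_num) hSc.measurableSet hδ.le h2 (hmS k) hgS
  have hfin : volume S ^ (1 / (2 : ℝ≥0∞).toReal) ≠ (⊤ : ℝ≥0∞) := by
    apply ENNReal.rpow_ne_top_of_nonneg (by simp) hSc.measure_lt_top.ne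
  rw [ENNReal.tendsto_nhds_zero]
  intro ε hε
  have h3 : Filter.Tendsto (fun δ : ℝ => ENNReal.ofReal δ * volume S ^ (1 / (2 : ℝ≥0∞).toReal))
      (𝓝 0) (𝓝 0) := by
    have h4 : Filter.Tendsto (fun δ : ℝ => ENNReal.ofReal δ) (𝓝 0) (𝓝 0) := by
      have := ENNReal.tendsto_ofReal (Filter.tendsto_id (α := ℝ) (x := 𝓝 0))
      simpa using this
    have h5 := ENNReal.Tendsto.mul_const (b := volume S ^ (1 / (2 : ℝ≥0∞).toReal)) h4
      (Or.inr hfin)
    simpa using h5
  have h6 : ∀ᶠ δ : ℝ in 𝓝 0, ENNReal.ofReal δ * volume S ^ (1 / (2 : ℝ≥0∞).toReal) ≤ ε :=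
    (h3.eventually (gt_mem_nhds hε)).mono fun _ h => h.le
  obtain ⟨δ, hδ, hδ0⟩ := ((h6.filter_mono nhdsWithin_le_nhds).and
    (self_mem_nhdsWithin (s := Ioi (0 : ℝ)) (a := 0))).exists
  filter_upwards [key δ hδ0] with k hk using hk.trans hδ

theorem Moll_conv {G : Cn n → ℂ} (hG : MemLp G 2 volume) :
    Filter.Tendsto (fun k => eLpNorm (fun z => Moll_mol k G z - G z) 2 volume)
      Filter.atTop (𝓝 0) := by
  rw [ENNReal.tendsto_nhds_zero]
  intro ε hε
  have hε3 : ε / 3 ≠ 0 := (ENNReal.div_pos hε.ne' (by norm_num)).ne'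
  obtain ⟨g, hg1, hg2, hg3, hg4⟩ := hG.exists_hasCompactSupport_eLpNorm_sub_le (by norm_num) hε3
  have hu := Moll_unif hg3 hg1
  rw [ENNReal.tendsto_nhds_zero] at hu
  filter_upwards [hu (ε / 3) (pos_iff_ne_zero.2 hε3)] with k hk
  have h1 : (fun z => Moll_mol k G z - G z) =
      (Moll_mol k (fun z => G z - g z)) + ((fun z => Moll_mol k g z - g z) - (G - g)) := by
    funext z
    simp only [Pi.add_apply, Pi.sub_apply]
    rw [Moll_sub k (Moll_locint hG) (Moll_locint hg4)]
    ring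
  have hGg : MemLp (G - g) 2 volume := hG.sub hg4
  have m1 : AEStronglyMeasurable (Moll_mol k (fun z => G z - g z)) volume :=
    (Moll_smooth k (Moll_locint hGg)).continuous.aestronglyMeasurable
  have m2 : AEStronglyMeasurable (fun z => Moll_mol k g z - g z) volume :=
    ((Moll_smooth k (Moll_locint hg4)).continuous.sub hg3).aestronglyMeasurable
  have h2 : eLpNorm (Moll_mol k (fun z => G z - g z)) 2 volume ≤ ε / 3 :=
    (Moll_young k hGg.1).trans hg2
  rw [h1]
  calc eLpNorm ((Moll_mol k (fun z => G z - g z)) +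
        ((fun z => Moll_mol k g z - g z) - (G - g))) 2 volume
      ≤ eLpNorm (Moll_mol k (fun z => G z - g z)) 2 volume +
          eLpNorm ((fun z => Moll_mol k g z - g z) - (G - g)) 2 volume :=
        eLpNorm_add_le m1 (m2.sub hGg.1) (by norm_num)
    _ ≤ ε / 3 + (ε / 3 + ε / 3) := by
        refine add_le_add h2 (le_trans (eLpNorm_sub_le m2 hGg.1 (by norm_num)) ?_)
        exact add_le_add hk hg2
    _ = ε := by
        rw [← add_assoc]
        exact ENNReal.add_thirds ε

end MollAux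

/-- Mollification operators `mol k` for compactly supported square integrable functions. -/
theorem moll_exists (n : ℕ) : ∃ mol : ℕ → (Cn n → ℂ) → (Cn n → ℂ),
    ∀ K : Set (Cn n), IsCompact K → ∃ K' : Set (Cn n), IsCompact K' ∧ K ⊆ K' ∧
      (∀ G : Cn n → ℂ, MemLp G 2 volume → (∀ z ∉ K, G z = 0) → ∀ k,
        Tst (mol k G) ∧ ∀ z ∉ K', mol k G z = 0) ∧
      (∀ G : Cn n → ℂ, MemLp G 2 volume → (∀ z ∉ K, G z = 0) →
        Filter.Tendsto (fun k => eLpNorm (fun z => mol k G z - G z) 2 volume) Filter.atTop (𝓝 0)) ∧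
      /- derivatives: if `∑ ∂_j G_j = W` weakly then `∑ ∂_j (mol k G_j) = mol k W` -/
      (∀ (G : Fin n → Cn n → ℂ) (W : Cn n → ℂ), (∀ j, MemLp (G j) 2 volume) → MemLp W 2 volume →
        (∀ j, ∀ z ∉ K, G j z = 0) → (∀ z ∉ K, W z = 0) →
        (∀ f : Cn n → ℂ, Tst f → ∫ z, ∑ j, G j z * dd j f z = - ∫ z, W z * f z) →
        ∀ k z, ∑ j, dd j (mol k (G j)) z = mol k W z) ∧
      (∀ (G G' : Cn n → ℂ) (W : Cn n → ℂ) (j l : Fin n), MemLp G 2 volume → MemLp G' 2 volume →
        MemLp W 2 volume → (∀ z ∉ K, G z = 0) → (∀ z ∉ K, G' z = 0) → (∀ z ∉ K, W z = 0) →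
        (∀ f : Cn n → ℂ, Tst f →
          ∫ z, (G z * db j f z - G' z * db l f z) = - ∫ z, W z * f z) →
        ∀ k z, db j (mol k G) z - db l (mol k G') z = mol k W z) := by
  refine ⟨Moll_mol, fun K hK => ⟨cthickening 1 K, hK.cthickening, self_subset_cthickening K,
    ?_, ?_, ?_, ?_⟩⟩
  · intro G hG hGK k
    refine ⟨⟨Moll_smooth k (Moll_locint hG), ?_⟩, fun z hz => Moll_mol_zero k hGK hz⟩
    exact HasCompactSupport.intro hK.cthickening fun z hz => Moll_mol_zero k hGK hz
  · intro G hG _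
    exact Moll_conv hG
  · intro G W hG hW _ _ h k z
    have h1 := h _ (Moll_tf_tst k z)
    have h2 : ∀ j, Integrable (fun x => G j x * dd j (Moll_tf n k z) x) volume := by
      intro j
      have ht := (Moll_tf_tst (n := n) k z).dd j
      exact Moll_int (Moll_locint (hG j)) ht.smooth.continuous ht.supp
    rw [integral_finsetSum _ (fun j _ => h2 j), ← Moll_mol_tf] at h1
    simp_rw [Moll_dd k (Moll_locint (hG _))]
    rw [Finset.sum_neg_distrib, h1, neg_neg]
  · intro G G' W j l hG hG' hW _ _ _ h k z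
    have h1 := h _ (Moll_tf_tst k z)
    have ht := (Moll_tf_tst (n := n) k z).db j
    have ht' := (Moll_tf_tst (n := n) k z).db l
    rw [integral_sub (Moll_int (Moll_locint hG) ht.smooth.continuous ht.supp)
      (Moll_int (Moll_locint hG') ht'.smooth.continuous ht'.supp), ← Moll_mol_tf] at h1
    rw [Moll_db k (Moll_locint hG), Moll_db k (Moll_locint hG')]
    linear_combination -h1

end HMA

end S_MA_Moll

section S_MA_Smooth1

/-! # Module SMOOTH1: smooth sub-mean functions have nonnegative Levi form -/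

open MeasureTheory Metric Set
open scoped ENNReal Topology ContDiff

namespace HMA

/-- the mean of a trigonometric polynomial of degree two -/
theorem Smooth1_mean (c0 t L1 L2 A B C e : ℝ) :
    ∫ θ in (0 : ℝ)..(2 * Real.pi), (c0 + t * (Real.cos θ * L1 + Real.sin θ * L2) +
      t ^ 2 / 2 * (Real.cos θ ^ 2 * A + Real.cos θ * Real.sin θ * C + Real.sin θ ^ 2 * B + e)) =
      2 * Real.pi * (c0 + t ^ 2 / 2 * ((A + B) / 2 + e)) := by
  have h := intervalIntegral.integral_eq_sub_of_hasDerivAt (a := 0) (b := 2 * Real.pi)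
    (f := fun θ => c0 * θ + t * (Real.sin θ * L1 - Real.cos θ * L2) +
      t ^ 2 / 2 * ((θ / 2 + Real.sin θ * Real.cos θ / 2) * A + Real.sin θ ^ 2 / 2 * C +
        (θ / 2 - Real.sin θ * Real.cos θ / 2) * B + e * θ))
    (f' := fun θ => c0 + t * (Real.cos θ * L1 + Real.sin θ * L2) +
      t ^ 2 / 2 * (Real.cos θ ^ 2 * A + Real.cos θ * Real.sin θ * C + Real.sin θ ^ 2 * B + e))
    (fun θ _ => ?_) (Continuous.intervalIntegrable (by fun_prop) _ _)
  · rw [h]
    simp only [Real.sin_two_pi, Real.cos_two_pi, Real.sin_zero, Real.cos_zero]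
    ring
  · have hs := Real.hasDerivAt_sin θ
    have hc := Real.hasDerivAt_cos θ
    have hi := hasDerivAt_id θ
    have h1 := (((hi.const_mul c0).add (((hs.mul_const L1).sub (hc.mul_const L2)).const_mul t)).add
      ((((((hi.div_const 2).add ((hs.mul hc).div_const 2)).mul_const A).add
        (((hs.pow 2).div_const 2).mul_const C)).add
        (((hi.div_const 2).sub ((hs.mul hc).div_const 2)).mul_const B)).add
          (hi.const_mul e) |>.const_mul (t ^ 2 / 2)))
    refine h1.congr_deriv ?_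
    have := Real.sin_sq_add_cos_sq θ
    simp only [Nat.cast_ofNat, Nat.add_one_sub_one, pow_one]
    linear_combination (t ^ 2 / 2 * (- A / 2 - B / 2)) * this

theorem lev_nonneg {n : ℕ} {v : Cn n → ℝ} (hv : ContDiff ℝ ∞ v) {r₀ : ℝ} (hr₀ : 0 < r₀)
    (hs : ∀ a b : Cn n, ‖b‖ ≤ r₀ → v a ≤ (2 * Real.pi)⁻¹ *
      ∫ θ in (0 : ℝ)..(2 * Real.pi), v (a + Complex.exp (θ * Complex.I) • b)) (z ξ : Cn n) :
    0 ≤ lev v z ξ := by
  have hv1 : ContDiff ℝ ∞ (fderiv ℝ v) := hv.fderiv_right (m := ∞) le_rfl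
  have hd0 : Differentiable ℝ v := hv.differentiable (by simp)
  have hd1 : Differentiable ℝ (fderiv ℝ v) := hv1.differentiable (by simp)
  set D2 := fderiv ℝ (fderiv ℝ v) with hD2
  have hD2c : Continuous D2 := hv1.continuous_fderiv (by simp)
  have hsec : ∀ w η : Cn n, fderiv ℝ (fun w => fderiv ℝ v w η) w η = D2 w η η := by
    intro w η
    have h1 : HasFDerivAt (fun w => fderiv ℝ v w η)
        ((ContinuousLinearMap.apply ℝ ℝ η).comp (D2 w)) w :=
      (ContinuousLinearMap.apply ℝ ℝ η).hasFDerivAt.comp w (hd1 w).hasFDerivAt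
    rw [h1.fderiv]
    rfl
  set A := D2 z ξ ξ with hA
  set B := D2 z (Complex.I • ξ) (Complex.I • ξ) with hB
  set C := D2 z ξ (Complex.I • ξ) + D2 z (Complex.I • ξ) ξ with hC
  have hlev : lev v z ξ = (A + B) / 4 := by
    unfold lev
    rw [hsec, hsec]
  -- decomposition of the rotated vector
  have hrot : ∀ θ : ℝ, Complex.exp (θ * Complex.I) • ξ =
      Real.cos θ • ξ + Real.sin θ • (Complex.I • ξ) := by
    intro θ
    rw [Complex.exp_mul_I, add_smul, ← Complex.ofReal_cos, ← Complex.ofReal_sin, mul_smul]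
    rfl
  -- second order estimate
  have key : ∀ ε : ℝ, 0 < ε → 0 ≤ (A + B) / 2 + ε := by
    intro ε hε
    -- choose δ
    have hcont : Continuous (fun w => ‖D2 w - D2 z‖) :=
      (continuous_norm (E := (Cn n →L[ℝ] Cn n →L[ℝ] ℝ))).comp (hD2c.sub continuous_const)
    have hM : 0 < ‖ξ‖ ^ 2 + 1 := by positivity
    have hev : ∀ᶠ w in 𝓝 z, ‖D2 w - D2 z‖ < ε / (‖ξ‖ ^ 2 + 1) :=
      hcont.continuousAt.eventually_lt continuousAt_const (by
        rw [sub_self]
        have h0 : ‖(0 : Cn n →L[ℝ] Cn n →L[ℝ] ℝ)‖ = 0 :=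
          norm_zero (E := (Cn n →L[ℝ] Cn n →L[ℝ] ℝ))
        rw [h0]
        positivity)
    obtain ⟨δ, hδ, hδ'⟩ := Metric.eventually_nhds_iff.1 hev
    set t : ℝ := min (r₀ / (‖ξ‖ + 1)) (δ / (2 * (‖ξ‖ + 1))) with ht
    have hξ1 : 0 < ‖ξ‖ + 1 := by positivity
    have ht0 : 0 < t := lt_min (by positivity) (by positivity)
    have ht1 : t * (‖ξ‖ + 1) ≤ r₀ := by
      have := min_le_left (r₀ / (‖ξ‖ + 1)) (δ / (2 * (‖ξ‖ + 1)))
      rw [← ht, le_div_iff₀ hξ1] at this
      exact this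
    have ht2 : t * (‖ξ‖ + 1) ≤ δ / 2 := by
      have := min_le_right (r₀ / (‖ξ‖ + 1)) (δ / (2 * (‖ξ‖ + 1)))
      rw [← ht, le_div_iff₀ (by positivity)] at this
      linarith
    have hnorm : ∀ θ : ℝ, ‖Complex.exp (θ * Complex.I) • ξ‖ = ‖ξ‖ := by
      intro θ
      rw [norm_smul, Complex.norm_exp_ofReal_mul_I, one_mul]
    -- pointwise bound
    have hpt : ∀ θ : ℝ, v (z + Complex.exp (θ * Complex.I) • (t • ξ)) ≤
        v z + t * (Real.cos θ * fderiv ℝ v z ξ + Real.sin θ * fderiv ℝ v z (Complex.I • ξ)) +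
        t ^ 2 / 2 * (Real.cos θ ^ 2 * A + Real.cos θ * Real.sin θ * C + Real.sin θ ^ 2 * B +
          ε) := by
      intro θ
      set η := Complex.exp (θ * Complex.I) • ξ with hη
      have e1 : Complex.exp (θ * Complex.I) • (t • ξ) = t • η := by
        rw [hη, smul_comm]
      rw [e1]
      have hline : ∀ s : ℝ, HasDerivAt (fun s : ℝ => z + s • η) η s := by
        intro s
        simpa using ((hasDerivAt_id s).smul_const η).const_add z
      have hh : ∀ s : ℝ, HasDerivAt (fun s : ℝ => v (z + s • η)) (fderiv ℝ v (z + s • η) η) s :=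
        fun s => (hd0 (z + s • η)).hasFDerivAt.comp_hasDerivAt s (hline s)
      have hh' : ∀ s : ℝ, HasDerivAt (fun s : ℝ => fderiv ℝ v (z + s • η) η)
          (D2 (z + s • η) η η) s := by
        intro s
        have h1 : HasDerivAt (fun s : ℝ => fderiv ℝ v (z + s • η)) (D2 (z + s • η) η) s :=
          (hd1 (z + s • η)).hasFDerivAt.comp_hasDerivAt s (hline s)
        exact ((ContinuousLinearMap.apply ℝ ℝ η).hasFDerivAt.comp_hasDerivAt s h1)
      set K := D2 z η η + ε with hK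
      have hK' : ∀ s ∈ Ico (0 : ℝ) t, D2 (z + s • η) η η ≤ K := by
        intro s hs'
        have h1 : dist (z + s • η) z < δ := by
          rw [dist_eq_norm, add_sub_cancel_left, norm_smul, hη, hnorm, Real.norm_eq_abs,
            abs_of_nonneg hs'.1]
          have : s * ‖ξ‖ ≤ t * (‖ξ‖ + 1) := by
            have := hs'.2.le
            gcongr
            linarith
          linarith
        have h2 := hδ' h1
        have h3 : ‖(D2 (z + s • η) - D2 z) η η‖ ≤ ‖D2 (z + s • η) - D2 z‖ * ‖η‖ * ‖η‖ :=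
          ContinuousLinearMap.le_opNorm₂ _ _ _
        have h4 : ‖η‖ = ‖ξ‖ := hnorm θ
        rw [h4] at h3
        have h5 : ‖D2 (z + s • η) - D2 z‖ * ‖ξ‖ * ‖ξ‖ ≤ ε := by
          calc ‖D2 (z + s • η) - D2 z‖ * ‖ξ‖ * ‖ξ‖
              ≤ (ε / (‖ξ‖ ^ 2 + 1)) * (‖ξ‖ ^ 2 + 1) := by
                rw [mul_assoc, ← pow_two]
                gcongr
                linarith
            _ = ε := by field_simp
        have h6 : (D2 (z + s • η) - D2 z) η η = D2 (z + s • η) η η - D2 z η η := rfl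
        have h7 := (Real.le_norm_self _).trans (h3.trans h5)
        rw [h6] at h7
        linarith
      have hstep1 : ∀ s ∈ Icc (0 : ℝ) t, fderiv ℝ v (z + s • η) η ≤ fderiv ℝ v z η + K * s := by
        intro s hs'
        refine image_le_of_deriv_right_le_deriv_boundary (a := 0) (b := t)
          (f := fun s : ℝ => fderiv ℝ v (z + s • η) η) (f' := fun s => D2 (z + s • η) η η)
          (B := fun s => fderiv ℝ v z η + K * s) (B' := fun _ => K)
          (fun s _ => (hh' s).continuousAt.continuousWithinAt)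
          (fun s _ => (hh' s).hasDerivWithinAt) (by simp)
          (Continuous.continuousOn (by fun_prop)) (fun s _ => ?_) hK' hs'
        have := ((hasDerivAt_id s).const_mul K).const_add (fderiv ℝ v z η)
        simpa using this.hasDerivWithinAt
      have hstep2 : v (z + t • η) ≤ v z + t * fderiv ℝ v z η + K * t ^ 2 / 2 := by
        have := image_le_of_deriv_right_le_deriv_boundary (a := 0) (b := t)
          (f := fun s : ℝ => v (z + s • η)) (f' := fun s => fderiv ℝ v (z + s • η) η)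
          (B := fun s => v z + s * fderiv ℝ v z η + K * s ^ 2 / 2)
          (B' := fun s => fderiv ℝ v z η + K * s)
          (fun s _ => (hh s).continuousAt.continuousWithinAt)
          (fun s _ => (hh s).hasDerivWithinAt) (by simp)
          (Continuous.continuousOn (by fun_prop)) (fun s _ => ?_)
          (fun s hs' => hstep1 s ⟨hs'.1, hs'.2.le⟩) (right_mem_Icc.2 ht0.le)
        · exact this
        · have h1 := (((hasDerivAt_id s).mul_const (fderiv ℝ v z η)).const_add (v z)).add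
            (((hasDerivAt_pow 2 s).const_mul K).div_const 2)
          refine (h1.congr_deriv ?_).hasDerivWithinAt
          simp only [Nat.cast_ofNat, Nat.add_one_sub_one, pow_one]
          ring
      refine hstep2.trans (le_of_eq ?_)
      have hL : fderiv ℝ v z η = Real.cos θ * fderiv ℝ v z ξ +
          Real.sin θ * fderiv ℝ v z (Complex.I • ξ) := by
        rw [hη, hrot, map_add, map_smul, map_smul]
        rfl
      have hQ : D2 z η η = Real.cos θ ^ 2 * A + Real.cos θ * Real.sin θ * C +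
          Real.sin θ ^ 2 * B := by
        rw [hη, hrot]
        simp only [map_add, map_smul, add_apply, smul_apply,
          smul_eq_mul]
        rw [hA, hB, hC]
        ring
      rw [hK, hL, hQ]
      ring
    -- integrate
    have hb : ‖t • ξ‖ ≤ r₀ := by
      rw [norm_smul, Real.norm_eq_abs, abs_of_pos ht0]
      have : t * ‖ξ‖ ≤ t * (‖ξ‖ + 1) := by gcongr; linarith
      linarith
    have h1 := hs z (t • ξ) hb
    have hvc : Continuous v := hd0.continuous
    have h2 : ∫ θ in (0 : ℝ)..(2 * Real.pi), v (z + Complex.exp (θ * Complex.I) • (t • ξ)) ≤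
        ∫ θ in (0 : ℝ)..(2 * Real.pi), (v z + t * (Real.cos θ * fderiv ℝ v z ξ +
          Real.sin θ * fderiv ℝ v z (Complex.I • ξ)) +
        t ^ 2 / 2 * (Real.cos θ ^ 2 * A + Real.cos θ * Real.sin θ * C + Real.sin θ ^ 2 * B +
          ε)) := by
      refine intervalIntegral.integral_mono (by positivity)
        (Continuous.intervalIntegrable (by fun_prop) _ _)
        (Continuous.intervalIntegrable (by fun_prop) _ _) hpt
    rw [Smooth1_mean] at h2
    have hpi : 0 < 2 * Real.pi := by positivity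
    have h3 : v z ≤ v z + t ^ 2 / 2 * ((A + B) / 2 + ε) := by
      refine h1.trans ?_
      calc (2 * Real.pi)⁻¹ * _ ≤ (2 * Real.pi)⁻¹ * (2 * Real.pi *
            (v z + t ^ 2 / 2 * ((A + B) / 2 + ε))) := by gcongr
        _ = _ := by field_simp
    have h4 : 0 ≤ t ^ 2 / 2 * ((A + B) / 2 + ε) := by linarith
    exact nonneg_of_mul_nonneg_right h4 (by positivity)
  rw [hlev]
  have h0 : 0 ≤ (A + B) / 2 := by
    refine le_of_forall_pos_le_add fun ε hε => ?_
    have := key ε hε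
    linarith
  linarith

end HMA

end S_MA_Smooth1

section S_KM_Piola

/-! # Module Piola: integration by parts for smooth functions -/

open MeasureTheory Metric Set
open scoped ENNReal Topology ContDiff ComplexOrder

namespace HMA

variable {n : ℕ}

theorem Piola_dd_dd_comm {f : Cn n → ℂ} (hf : ContDiff ℝ ∞ f) (j k : Fin n) (z : Cn n) :
    dd j (dd k f) z = dd k (dd j f) z := by
  rw [Dbar1_dd_eq j (dd k f), Dbar1_dd_eq k (dd j f), Dbar1_dd_eq k f, Dbar1_dd_eq j f]
  simp only [Dbar1_fderiv_comb hf]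
  rw [Dbar1_symm hf z (bv n j) (bv n k), Dbar1_symm hf z (bv n j) (Complex.I • bv n k),
    Dbar1_symm hf z (Complex.I • bv n j) (bv n k),
    Dbar1_symm hf z (Complex.I • bv n j) (Complex.I • bv n k)]
  ring

/-- first order differential operators -/
structure PiolaOp (D : (Cn n → ℂ) → Cn n → ℂ) : Prop where
  const : ∀ (c : ℂ) (z : Cn n), D (fun _ => c) z = 0
  add : ∀ f g, ContDiff ℝ ∞ f → ContDiff ℝ ∞ g → ∀ z, D (fun z => f z + g z) z = D f z + D g z
  mul : ∀ f g, ContDiff ℝ ∞ f → ContDiff ℝ ∞ g → ∀ z,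
    D (fun z => f z * g z) z = D f z * g z + f z * D g z

theorem PiolaOp_dd (j : Fin n) : PiolaOp (dd (n := n) j) where
  const c z := by simp [dd]
  add f g hf hg z := dd_add hf hg j z
  mul f g hf hg z := dd_mul hf hg j z

theorem PiolaOp_db (j : Fin n) : PiolaOp (db (n := n) j) where
  const c z := by simp [db]
  add f g hf hg z := db_add hf hg j z
  mul f g hf hg z := db_mul hf hg j z

theorem PiolaOp.sum {D : (Cn n → ℂ) → Cn n → ℂ} (hD : PiolaOp D) {ι : Type*} (s : Finset ι)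
    (f : ι → Cn n → ℂ) (hf : ∀ i, ContDiff ℝ ∞ (f i)) (z : Cn n) :
    D (fun z => ∑ i ∈ s, f i z) z = ∑ i ∈ s, D (f i) z := by
  classical
  induction s using Finset.induction_on with
  | empty => simpa using hD.const 0 z
  | insert a s ha ih =>
    simp only [Finset.sum_insert ha]
    rw [hD.add _ _ (hf a) (ContDiff.sum fun i _ => hf i), ih]

theorem PiolaOp.prod {D : (Cn n → ℂ) → Cn n → ℂ} (hD : PiolaOp D) {ι : Type*} [DecidableEq ι]
    (s : Finset ι) (f : ι → Cn n → ℂ) (hf : ∀ i, ContDiff ℝ ∞ (f i)) (z : Cn n) :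
    D (fun z => ∏ i ∈ s, f i z) z = ∑ i ∈ s, D (f i) z * ∏ j ∈ s.erase i, f j z := by
  induction s using Finset.induction_on with
  | empty => simpa using hD.const 1 z
  | insert a s ha ih =>
    simp only [Finset.prod_insert ha, Finset.sum_insert ha, Finset.erase_insert ha]
    rw [hD.mul _ _ (hf a) (contDiff_prod fun i _ => hf i), ih]
    congr 1
    rw [Finset.mul_sum]
    apply Finset.sum_congr rfl
    intro i hi
    have hia : a ≠ i := fun h => ha (h ▸ hi)
    rw [Finset.erase_insert_of_ne hia, Finset.prod_insert (by simp [ha])]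
    ring

/-- the entries of the adjugate as sums over permutations -/
theorem Piola_adj (M : Matrix (Fin n) (Fin n) ℂ) (k j : Fin n) :
    M.adjugate k j = ∑ σ : Equiv.Perm (Fin n), if σ k = j then
      ((Equiv.Perm.sign σ : ℤ) : ℂ) * ∏ i ∈ Finset.univ.erase k, M (σ i) i else 0 := by
  rw [Matrix.adjugate_apply, Matrix.det_apply']
  apply Finset.sum_congr rfl
  intro σ _
  rw [← Finset.mul_prod_erase Finset.univ _ (Finset.mem_univ k)]
  by_cases h : σ k = j
  · rw [if_pos h]
    have h1 : (M.updateRow j (Pi.single k 1)) (σ k) k = 1 := by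
      rw [h, Matrix.updateRow_self]; simp
    rw [h1, one_mul]
    congr 1
    apply Finset.prod_congr rfl
    intro i hi
    have hi' : i ≠ k := Finset.ne_of_mem_erase hi
    rw [Matrix.updateRow_ne]
    intro h2
    exact hi' (σ.injective (h2.trans h.symm))
  · rw [if_neg h]
    have h3 : σ⁻¹ j ≠ k := by
      intro h4
      apply h
      rw [← h4]; simp
    have h5 : ∏ i ∈ Finset.univ.erase k, (M.updateRow j (Pi.single k 1)) (σ i) i = 0 := by
      apply Finset.prod_eq_zero (i := σ⁻¹ j) (by simpa using h3)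
      have : σ (σ⁻¹ j) = j := by simp
      rw [this, Matrix.updateRow_self]
      exact Pi.single_eq_of_ne h3 _
    rw [h5]; simp

theorem Piola_adj_smooth {M : Cn n → Matrix (Fin n) (Fin n) ℂ}
    (hM : ∀ j k, ContDiff ℝ ∞ (fun z => M z j k)) (k j : Fin n) :
    ContDiff ℝ ∞ (fun z => (M z).adjugate k j) := by
  simp only [Piola_adj]
  apply ContDiff.sum
  intro σ _
  by_cases h : σ k = j
  · simp only [if_pos h]
    exact contDiff_const.mul (contDiff_prod fun i _ => hM _ _)
  · simp only [if_neg h]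
    exact contDiff_const

/-- the Piola identity -/
theorem Piola_id {D : Fin n → (Cn n → ℂ) → Cn n → ℂ} (hD : ∀ j, PiolaOp (D j))
    {M : Cn n → Matrix (Fin n) (Fin n) ℂ} (hM : ∀ j k, ContDiff ℝ ∞ (fun z => M z j k))
    (hs : ∀ i j k z, D i (fun z => M z j k) z = D j (fun z => M z i k) z) (k : Fin n) (z : Cn n) :
    ∑ j, D j (fun z => (M z).adjugate k j) z = 0 := by
  have hsm : ∀ (σ : Equiv.Perm (Fin n)), ContDiff ℝ ∞ (fun z =>
      ∏ i ∈ Finset.univ.erase k, M z (σ i) i) := fun σ => contDiff_prod fun i _ => hM _ _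
  have h1 : ∀ j, D j (fun z => (M z).adjugate k j) z = ∑ σ : Equiv.Perm (Fin n),
      if σ k = j then ((Equiv.Perm.sign σ : ℤ) : ℂ) *
        D j (fun z => ∏ i ∈ Finset.univ.erase k, M z (σ i) i) z else 0 := by
    intro j
    simp only [Piola_adj]
    rw [(hD j).sum Finset.univ (fun (σ : Equiv.Perm (Fin n)) z => if σ k = j then
      ((Equiv.Perm.sign σ : ℤ) : ℂ) * ∏ i ∈ Finset.univ.erase k, M z (σ i) i else 0)]
    · apply Finset.sum_congr rfl
      intro σ _
      by_cases h : σ k = j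
      · simp only [if_pos h]
        rw [(hD j).mul _ _ contDiff_const (hsm σ), (hD j).const]
        ring
      · simp only [if_neg h]
        exact (hD j).const 0 z
    · intro σ
      by_cases h : σ k = j
      · simp only [if_pos h]
        exact contDiff_const.mul (hsm σ)
      · simp only [if_neg h]
        exact contDiff_const
  simp only [h1]
  rw [Finset.sum_comm]
  simp only [Finset.sum_ite_eq, Finset.mem_univ, if_true]
  have h2 : ∀ σ : Equiv.Perm (Fin n), ((Equiv.Perm.sign σ : ℤ) : ℂ) *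
        D (σ k) (fun z => ∏ i ∈ Finset.univ.erase k, M z (σ i) i) z =
      ∑ l ∈ Finset.univ.erase k, ((Equiv.Perm.sign σ : ℤ) : ℂ) *
        (D (σ k) (fun z => M z (σ l) l) z *
          ∏ i ∈ (Finset.univ.erase k).erase l, M z (σ i) i) := by
    intro σ
    rw [(hD (σ k)).prod (Finset.univ.erase k) (fun i z => M z (σ i) i) (fun i => hM _ _),
      Finset.mul_sum]
  simp only [h2]
  rw [Finset.sum_comm]
  apply Finset.sum_eq_zero
  intro l hl
  have hlk : l ≠ k := Finset.ne_of_mem_erase hl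
  set T : Equiv.Perm (Fin n) → ℂ := fun σ => ((Equiv.Perm.sign σ : ℤ) : ℂ) *
        (D (σ k) (fun z => M z (σ l) l) z *
          ∏ i ∈ (Finset.univ.erase k).erase l, M z (σ i) i) with hT
  have h3 : ∀ σ, T (σ * Equiv.swap k l) = - T σ := by
    intro σ
    simp only [hT]
    have e1 : (σ * Equiv.swap k l) k = σ l := by simp
    have e2 : (σ * Equiv.swap k l) l = σ k := by simp
    have e3 : ∏ i ∈ (Finset.univ.erase k).erase l, M z ((σ * Equiv.swap k l) i) i =
        ∏ i ∈ (Finset.univ.erase k).erase l, M z (σ i) i := by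
      apply Finset.prod_congr rfl
      intro i hi
      have hil : i ≠ l := Finset.ne_of_mem_erase hi
      have hik : i ≠ k := Finset.ne_of_mem_erase (Finset.mem_of_mem_erase hi)
      rw [Equiv.Perm.mul_apply, Equiv.swap_apply_of_ne_of_ne hik hil]
    rw [e1, e2, e3, hs (σ l) (σ k) l z, Equiv.Perm.sign_mul, Equiv.Perm.sign_swap hlk.symm]
    push_cast
    ring
  have h4 : ∑ σ, T σ = - ∑ σ, T σ := by
    conv_lhs => rw [← Equiv.sum_comp (Equiv.mulRight (Equiv.swap k l)) T]
    rw [← Finset.sum_neg_distrib]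
    apply Finset.sum_congr rfl
    intro σ _
    exact h3 σ
  exact self_eq_neg.1 h4

/-- the integrated form of integration by parts, two steps -/
theorem Piola_ibp {A : Fin n → Fin n → Cn n → ℂ} (hA : ∀ k j, ContDiff ℝ ∞ (A k j))
    (h1 : ∀ k z, ∑ j, dd j (A k j) z = 0) (h2 : ∀ j z, ∑ k, db k (A k j) z = 0)
    {V W : Cn n → ℂ} (hV : Tst V) (hW : ContDiff ℝ ∞ W) :
    ∫ z, V z * ∑ k, ∑ j, A k j z * db k (dd j W) z =
      ∫ z, W z * ∑ k, ∑ j, A k j z * db k (dd j V) z := by
  have int1 : ∀ {f g : Cn n → ℂ}, ContDiff ℝ ∞ f → Tst g → Integrable (fun z => f z * g z) := by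
    intro f g hf hg
    exact (hf.continuous.mul hg.smooth.continuous).integrable_of_hasCompactSupport
      hg.supp.mul_left
  have hVA : ∀ k j, Tst (fun z => V z * A k j z) := fun k j => hV.mul_smooth (hA k j)
  have hVA2 : ∀ k j, Tst (fun z => db k V z * A k j z) := fun k j => (hV.db k).mul_smooth (hA k j)
  -- first step
  have s1 : ∫ z, V z * ∑ k, ∑ j, A k j z * db k (dd j W) z =
      - ∫ z, ∑ k, ∑ j, dd j W z * db k (fun z => V z * A k j z) z := by
    have e1 : (fun z => V z * ∑ k, ∑ j, A k j z * db k (dd j W) z) =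
        fun z => ∑ k, ∑ j, db k (dd j W) z * (V z * A k j z) := by
      funext z
      rw [Finset.mul_sum]
      apply Finset.sum_congr rfl
      intro k _
      rw [Finset.mul_sum]
      apply Finset.sum_congr rfl
      intro j _
      ring
    rw [e1, integral_finsetSum, integral_finsetSum, ← Finset.sum_neg_distrib]
    · apply Finset.sum_congr rfl
      intro k _
      rw [integral_finsetSum, integral_finsetSum, ← Finset.sum_neg_distrib]
      · apply Finset.sum_congr rfl
        intro j _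
        exact ibp_db (smooth_dd hW j) (hVA k j) k
      · intro j _
        exact int1 (smooth_dd hW j) ((hVA k j).db k)
      · intro j _
        exact int1 (smooth_db (smooth_dd hW j) k) (hVA k j)
    · intro k _
      exact integrable_finsetSum _ fun j _ => int1 (smooth_dd hW j) ((hVA k j).db k)
    · intro k _
      exact integrable_finsetSum _ fun j _ => int1 (smooth_db (smooth_dd hW j) k) (hVA k j)
  have s2 : ∀ z, ∑ k, ∑ j, dd j W z * db k (fun z => V z * A k j z) z =
      ∑ k, ∑ j, dd j W z * (db k V z * A k j z) := by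
    intro z
    rw [Finset.sum_comm, Finset.sum_comm (f := fun k j => dd j W z * (db k V z * A k j z))]
    apply Finset.sum_congr rfl
    intro j _
    simp only [db_mul hV.smooth (hA _ _)]
    rw [← Finset.mul_sum, ← Finset.mul_sum, Finset.sum_add_distrib, ← Finset.mul_sum (a := V z),
      h2 j z]
    ring
  have s3 : ∫ z, W z * ∑ k, ∑ j, A k j z * db k (dd j V) z =
      ∫ z, ∑ k, ∑ j, W z * dd j (fun z => db k V z * A k j z) z := by
    congr 1
    funext z
    rw [Finset.mul_sum]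
    apply Finset.sum_congr rfl
    intro k _
    simp only [dd_mul (smooth_db hV.smooth k) (hA _ _)]
    rw [← Finset.mul_sum, Finset.sum_add_distrib, ← Finset.mul_sum (a := db k V z), h1 k z]
    rw [mul_zero, add_zero]
    congr 1
    apply Finset.sum_congr rfl
    intro j _
    rw [db_dd_comm hV.smooth k j z]
    ring
  rw [s1, s3]
  simp only [s2]
  rw [integral_finsetSum, integral_finsetSum, ← Finset.sum_neg_distrib]
  · apply Finset.sum_congr rfl
    intro k _
    rw [integral_finsetSum, integral_finsetSum, ← Finset.sum_neg_distrib]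
    · apply Finset.sum_congr rfl
      intro j _
      rw [ibp_dd hW (hVA2 k j) j, neg_neg]
    · intro j _
      exact int1 hW ((hVA2 k j).dd j)
    · intro j _
      exact int1 (smooth_dd hW j) (hVA2 k j)
  · intro k _
    exact integrable_finsetSum _ fun j _ => int1 hW ((hVA2 k j).dd j)
  · intro k _
    exact integrable_finsetSum _ fun j _ => int1 (smooth_dd hW j) (hVA2 k j)

theorem Piola_coe_smooth {u : Cn n → ℝ} (hu : ContDiff ℝ ∞ u) :
    ContDiff ℝ ∞ (fun z => (u z : ℂ)) :=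
  Complex.ofRealCLM.contDiff.comp hu

theorem Piola_mal {u w : Cn n → ℝ} (hw : ContDiff ℝ ∞ w) (z : Cn n) :
    mal u w z = (∑ k, ∑ j, (LM u z).adjugate k j * db k (dd j (fun z => (w z : ℂ))) z).re := by
  unfold mal
  congr 1
  rw [Matrix.trace]
  apply Finset.sum_congr rfl
  intro k _
  rw [Matrix.diag_apply, Matrix.mul_apply]
  apply Finset.sum_congr rfl
  intro j _
  rw [LM_smooth hw]

/-- the adjugate of the Levi matrix is divergence free -/
theorem ibp_mal {n : ℕ} {u v w : Cn n → ℝ} (hu : ContDiff ℝ ∞ u) (hv : ContDiff ℝ ∞ v)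
    (hw : ContDiff ℝ ∞ w) (hc : HasCompactSupport v) :
    ∫ z, v z * mal u w z = ∫ z, w z * mal u v z := by
  set U : Cn n → ℂ := fun z => (u z : ℂ) with hU
  set V : Cn n → ℂ := fun z => (v z : ℂ) with hV
  set W : Cn n → ℂ := fun z => (w z : ℂ) with hW
  have hUs : ContDiff ℝ ∞ U := Piola_coe_smooth hu
  have hVs : ContDiff ℝ ∞ V := Piola_coe_smooth hv
  have hWs : ContDiff ℝ ∞ W := Piola_coe_smooth hw
  have hVt : Tst V := ⟨hVs, hc.comp_left (g := fun x : ℝ => (x : ℂ)) (by simp)⟩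
  have hM : ∀ j k, ContDiff ℝ ∞ (fun z => LM u z j k) := by
    intro j k
    have : (fun z => LM u z j k) = db k (dd j U) := by
      funext z
      exact LM_smooth hu z j k
    rw [this]
    exact smooth_db (smooth_dd hUs j) k
  have hMe : ∀ j k, (fun z => LM u z j k) = db k (dd j U) := by
    intro j k
    funext z
    exact LM_smooth hu z j k
  have p1 : ∀ k z, ∑ j, dd j (fun z => (LM u z).adjugate k j) z = 0 := by
    intro k z
    apply Piola_id (fun j => PiolaOp_dd j) hM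
    intro i j k z
    rw [hMe, hMe]
    have a1 : db k (dd j U) = dd j (db k U) := by
      funext z; exact db_dd_comm hUs k j z
    have a2 : db k (dd i U) = dd i (db k U) := by
      funext z; exact db_dd_comm hUs k i z
    rw [a1, a2]
    exact Piola_dd_dd_comm (smooth_db hUs k) i j z
  have p2 : ∀ j z, ∑ k, db k (fun z => (LM u z).adjugate k j) z = 0 := by
    intro j z
    have h := Piola_id (D := fun k => db k) (fun k => PiolaOp_db k)
      (M := fun z => (LM u z).transpose) (fun a b => hM b a) (by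
        intro i j k z
        simp only [Matrix.transpose_apply]
        rw [hMe, hMe]
        exact db_db_comm (smooth_dd hUs k) i j z) j z
    simpa only [← Matrix.adjugate_transpose, Matrix.transpose_apply] using h
  have key := Piola_ibp (A := fun k j z => (LM u z).adjugate k j)
    (fun k j => Piola_adj_smooth hM k j) p1 p2 hVt hWs
  have hAs := fun k j => Piola_adj_smooth hM k j
  have i1 : Integrable (fun z => V z * ∑ k, ∑ j, (LM u z).adjugate k j * db k (dd j W) z) := by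
    have hsum1 : ContDiff ℝ ∞ (fun z => ∑ k, ∑ j, (LM u z).adjugate k j * db k (dd j W) z) :=
      ContDiff.sum fun k _ => ContDiff.sum fun j _ =>
        (hAs k j).mul (smooth_db (smooth_dd hWs j) k)
    exact (hVt.smooth.continuous.mul hsum1.continuous).integrable_of_hasCompactSupport
      hVt.supp.mul_right
  have i2 : Integrable (fun z => W z * ∑ k, ∑ j, (LM u z).adjugate k j * db k (dd j V) z) := by
    simp only [Finset.mul_sum]
    refine integrable_finsetSum _ fun k _ => integrable_finsetSum _ fun j _ => ?_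
    exact (hWs.continuous.mul ((hAs k j).continuous.mul
      (smooth_db (smooth_dd hVs j) k).continuous)).integrable_of_hasCompactSupport
      ((((hVt.dd j).db k).supp.mul_left).mul_left)
  have r1 : ∫ z, v z * mal u w z =
      (∫ z, V z * ∑ k, ∑ j, (LM u z).adjugate k j * db k (dd j W) z).re := by
    have h := integral_re i1
    refine Eq.trans ?_ h
    congr 1
    funext z
    rw [Piola_mal hw]
    simp only [hV]
    exact (Complex.re_ofReal_mul _ _).symm
  have r2 : ∫ z, w z * mal u v z =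
      (∫ z, W z * ∑ k, ∑ j, (LM u z).adjugate k j * db k (dd j V) z).re := by
    have h := integral_re i2
    refine Eq.trans ?_ h
    congr 1
    funext z
    rw [Piola_mal hv]
    simp only [hW]
    exact (Complex.re_ofReal_mul _ _).symm
  rw [r1, r2, key]

end HMA

end S_KM_Piola

section S_MA_Smooth2

/-! # Module SMOOTH2: smoothing of plurisubharmonic functions -/

open MeasureTheory Metric Set
open scoped ENNReal Topology ContDiff

namespace HMA

/-- radial bump -/
noncomputable def Smooth2_b {n : ℕ} (x : Cn n) : ℝ := Real.smoothTransition (1 - ‖x‖ ^ 2)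

theorem Smooth2_b_smooth {n : ℕ} : ContDiff ℝ ∞ (Smooth2_b (n := n)) := by
  unfold Smooth2_b
  refine Real.smoothTransition.contDiff.comp (contDiff_const.sub ?_)
  exact contDiff_norm_sq ℂ

theorem Smooth2_b_nonneg {n : ℕ} (x : Cn n) : 0 ≤ Smooth2_b x := Real.smoothTransition.nonneg _

theorem Smooth2_b_zero {n : ℕ} {x : Cn n} (h : 1 ≤ ‖x‖) : Smooth2_b x = 0 := by
  unfold Smooth2_b
  apply Real.smoothTransition.zero_of_nonpos
  nlinarith

theorem Smooth2_b_supp {n : ℕ} : HasCompactSupport (Smooth2_b (n := n)) := by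
  refine HasCompactSupport.intro (isCompact_closedBall (0 : Cn n) 1) ?_
  intro x hx
  apply Smooth2_b_zero
  rw [mem_closedBall_zero_iff, not_le] at hx
  exact hx.le

theorem Smooth2_b_int {n : ℕ} : 0 < ∫ x : Cn n, Smooth2_b x := by
  refine Continuous.integral_pos_of_hasCompactSupport_nonneg_nonzero (x := (0 : Cn n))
    Smooth2_b_smooth.continuous Smooth2_b_supp (fun x => Smooth2_b_nonneg x) ?_
  unfold Smooth2_b
  rw [norm_zero]
  norm_num [Real.smoothTransition.one_of_one_le]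

/-- the normalised bump of radius `s` -/
noncomputable def Smooth2_w {n : ℕ} (s : ℝ) (x : Cn n) : ℝ :=
  ((s ^ (2 * n))⁻¹ * (∫ x : Cn n, Smooth2_b x)⁻¹) * Smooth2_b (s⁻¹ • x)

theorem Smooth2_w_nonneg {n : ℕ} {s : ℝ} (hs : 0 < s) (x : Cn n) : 0 ≤ Smooth2_w s x := by
  unfold Smooth2_w
  exact mul_nonneg (mul_nonneg (inv_nonneg.2 (pow_nonneg hs.le _))
    (inv_nonneg.2 (Smooth2_b_int (n := n)).le)) (Smooth2_b_nonneg (s⁻¹ • x))

theorem Smooth2_w_smooth {n : ℕ} (s : ℝ) : ContDiff ℝ ∞ (Smooth2_w (n := n) s) := by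
  unfold Smooth2_w
  refine contDiff_const.mul ?_
  exact Smooth2_b_smooth.comp (contDiff_const_smul s⁻¹)

theorem Smooth2_w_zero {n : ℕ} {s : ℝ} (hs : 0 < s) {x : Cn n} (h : s ≤ ‖x‖) :
    Smooth2_w s x = 0 := by
  unfold Smooth2_w
  rw [Smooth2_b_zero, mul_zero]
  rw [norm_smul, norm_inv, Real.norm_of_nonneg hs.le, ← div_eq_inv_mul]
  exact (one_le_div hs).2 h

theorem Smooth2_w_norm {n : ℕ} (s : ℝ) {x y : Cn n} (h : ‖x‖ = ‖y‖) :
    Smooth2_w s x = Smooth2_w s y := by
  unfold Smooth2_w Smooth2_b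
  rw [norm_smul, norm_smul, h]

theorem Smooth2_w_supp {n : ℕ} {s : ℝ} (hs : 0 < s) : HasCompactSupport (Smooth2_w (n := n) s) := by
  refine HasCompactSupport.intro (isCompact_closedBall (0 : Cn n) s) ?_
  intro x hx
  apply Smooth2_w_zero hs
  rw [mem_closedBall_zero_iff, not_le] at hx
  exact hx.le

theorem Smooth2_w_int {n : ℕ} {s : ℝ} (hs : 0 < s) : ∫ x : Cn n, Smooth2_w s x = 1 := by
  unfold Smooth2_w
  rw [integral_const_mul, Measure.integral_comp_smul, finrank_real_of_complex,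
    finrank_euclideanSpace_fin, smul_eq_mul]
  have h1 := Smooth2_b_int (n := n)
  have h2 : |((s⁻¹ ^ (2 * n))⁻¹ : ℝ)| = s ^ (2 * n) := by
    rw [inv_pow, inv_inv, abs_of_pos (by positivity)]
  rw [h2]
  have h3 : s ^ (2 * n) ≠ 0 := by positivity
  field_simp

theorem Smooth2_w_integrable {n : ℕ} {s : ℝ} (hs : 0 < s) :
    Integrable (Smooth2_w (n := n) s) volume :=
  (Smooth2_w_smooth s).continuous.integrable_of_hasCompactSupport (Smooth2_w_supp hs)

/-- the smoothed function -/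
noncomputable def Smooth2_v {n : ℕ} (u : Cn n → ℝ) (s : ℝ) (z : Cn n) : ℝ :=
  ∫ x, u (z + x) * Smooth2_w s x

theorem Smooth2_v_eq {n : ℕ} (u : Cn n → ℝ) (s : ℝ) (z : Cn n) :
    Smooth2_v u s z = ∫ y, u y * Smooth2_w s (z - y) := by
  unfold Smooth2_v
  rw [← integral_add_left_eq_self (fun y => u y * Smooth2_w s (z - y)) z]
  refine integral_congr_ae (Filter.Eventually.of_forall fun x => ?_)
  simp only
  congr 1
  apply Smooth2_w_norm
  rw [← norm_neg]
  congr 1
  abel

theorem Smooth2_v_smooth {n : ℕ} {u : Cn n → ℝ} (hu : LocallyIntegrable u volume) {s : ℝ}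
    (hs : 0 < s) : ContDiff ℝ ∞ (Smooth2_v u s) := by
  have h := HasCompactSupport.contDiff_convolution_right (μ := (volume : Measure (Cn n)))
    (ContinuousLinearMap.mul ℝ ℝ) (n := (⊤ : ℕ∞)) (Smooth2_w_supp hs) hu (Smooth2_w_smooth s)
  have h2 : Smooth2_v u s = convolution u (Smooth2_w s) (ContinuousLinearMap.mul ℝ ℝ)
      (volume : Measure (Cn n)) := by
    funext z
    rw [Smooth2_v_eq]
    rfl
  rw [h2]
  exact h

/-- bound on compact sets -/
theorem Smooth2_bdd {n : ℕ} {u : Cn n → ℝ} (hu : UpperSemicontinuous u)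
    (hb : ∃ L : ℝ, ∀ z, -L ≤ u z) (a : Cn n) (r : ℝ) : ∃ M : ℝ, 0 ≤ M ∧ ∀ z, ‖z - a‖ ≤ r → |u z| ≤ M := by
  obtain ⟨L, hL⟩ := hb
  rcases lt_or_ge r 0 with hr | hr
  · exact ⟨0, le_refl _, fun z hz => absurd (norm_nonneg (z - a)) (by linarith)⟩
  · obtain ⟨z₁, hz₁, hmax⟩ := UpperSemicontinuousOn.exists_isMaxOn
      (s := closedBall a r) (nonempty_closedBall.2 hr) (isCompact_closedBall a r)
      (hu.upperSemicontinuousOn _)
    refine ⟨max (|u z₁|) (|L|), by positivity, fun z hz => ?_⟩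
    have h1 : u z ≤ u z₁ := hmax (by rw [mem_closedBall_iff_norm]; exact hz)
    rw [abs_le]
    constructor
    · have := hL z
      have h2 : |L| ≤ max (|u z₁|) (|L|) := le_max_right _ _
      have h3 := le_abs_self L
      linarith
    · exact h1.trans ((le_abs_self _).trans (le_max_left _ _))

/-- Fubini -/
theorem Smooth2_fub {n : ℕ} {u : Cn n → ℝ} (hu : UpperSemicontinuous u)
    (hb : ∃ L : ℝ, ∀ z, -L ≤ u z) {s : ℝ} (hs : 0 < s) (a b : Cn n) :
    Integrable (Function.uncurry fun (θ : ℝ) (x : Cn n) =>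
      u (a + x + Complex.exp (θ * Complex.I) • b) * Smooth2_w s x)
      ((volume.restrict (Ioc 0 (2 * Real.pi))).prod volume) := by
  obtain ⟨M, hM0, hM⟩ := Smooth2_bdd hu hb a (s + ‖b‖)
  have hg : Integrable (fun p : ℝ × Cn n => M * Smooth2_w s p.2)
      ((volume.restrict (Ioc 0 (2 * Real.pi))).prod volume) := by
    have h1 : Integrable (fun p : ℝ × Cn n => M * Smooth2_w s p.2)
      ((volume.restrict (Ioc 0 (2 * Real.pi))).prod volume) :=
      Integrable.mul_prod (f := fun _ : ℝ => M) (g := Smooth2_w s) (integrable_const M)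
        (Smooth2_w_integrable hs)
    exact h1
  refine hg.mono' ?_ (Filter.Eventually.of_forall ?_)
  · refine Measurable.aestronglyMeasurable ?_
    have hc : Continuous fun p : ℝ × Cn n => a + p.2 + Complex.exp (p.1 * Complex.I) • b := by
      fun_prop
    have hc2 : Continuous fun p : ℝ × Cn n => Smooth2_w s p.2 :=
      (Smooth2_w_smooth s).continuous.comp continuous_snd
    exact (hu.measurable.comp hc.measurable).mul hc2.measurable
  · rintro ⟨θ, x⟩
    simp only [Function.uncurry_apply_pair]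
    rw [norm_mul, Real.norm_of_nonneg (Smooth2_w_nonneg hs x)]
    rcases le_or_gt s ‖x‖ with hx | hx
    · rw [Smooth2_w_zero hs hx, mul_zero, mul_zero]
    · refine mul_le_mul_of_nonneg_right ?_ (Smooth2_w_nonneg hs x)
      rw [Real.norm_eq_abs]
      apply hM
      have h2 : a + x + Complex.exp (θ * Complex.I) • b - a = x + Complex.exp (θ * Complex.I) • b := by
        abel
      rw [h2]
      refine (norm_add_le _ _).trans ?_
      rw [norm_smul, Complex.norm_exp_ofReal_mul_I, one_mul]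
      linarith

theorem Smooth2_v_submean {n : ℕ} {u : Cn n → ℝ} (hu : PshS u) {s : ℝ} (hs : 0 < s) (a b : Cn n)
    (hb : ‖b‖ ≤ 1 / 16) : Smooth2_v u s a ≤ (2 * Real.pi)⁻¹ *
      ∫ θ in (0 : ℝ)..(2 * Real.pi), Smooth2_v u s (a + Complex.exp (θ * Complex.I) • b) := by
  have hpi : (0 : ℝ) ≤ 2 * Real.pi := by positivity
  have hF := Smooth2_fub hu.usc hu.bdd hs a b
  have hswap := integral_integral_swap hF
  have hint := hF.integral_prod_right
  simp only [Function.uncurry_apply_pair] at hint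
  have h1 : (∫ θ in (0 : ℝ)..(2 * Real.pi), Smooth2_v u s (a + Complex.exp (θ * Complex.I) • b)) =
      ∫ x, ∫ θ in Ioc 0 (2 * Real.pi),
        u (a + x + Complex.exp (θ * Complex.I) • b) * Smooth2_w s x := by
    rw [intervalIntegral.integral_of_le hpi, ← hswap]
    refine integral_congr_ae (Filter.Eventually.of_forall fun θ => ?_)
    simp only
    unfold Smooth2_v
    refine integral_congr_ae (Filter.Eventually.of_forall fun x => ?_)
    simp only
    rw [add_right_comm]
  rw [h1, ← integral_const_mul]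
  unfold Smooth2_v
  have hF0 := Smooth2_fub hu.usc hu.bdd hs a 0
  have hint0 := hF0.integral_prod_right
  simp only [Function.uncurry_apply_pair] at hint0
  refine integral_mono ?_ (hint.const_mul _) ?_
  · -- integrability of `u (a + x) * w x`
    obtain ⟨M, hM0, hM⟩ := Smooth2_bdd hu.usc hu.bdd a s
    refine ((Smooth2_w_integrable hs).const_mul M).mono' ?_ (Filter.Eventually.of_forall ?_)
    · refine Measurable.aestronglyMeasurable ?_
      have hc : Continuous fun x : Cn n => a + x := by fun_prop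
      exact (hu.usc.measurable.comp hc.measurable).mul (Smooth2_w_smooth s).continuous.measurable
    · intro x
      rw [norm_mul, Real.norm_of_nonneg (Smooth2_w_nonneg hs x)]
      rcases le_or_gt s ‖x‖ with hx | hx
      · rw [Smooth2_w_zero hs hx, mul_zero, mul_zero]
      · refine mul_le_mul_of_nonneg_right ?_ (Smooth2_w_nonneg hs x)
        rw [Real.norm_eq_abs]
        apply hM
        rw [add_sub_cancel_left]
        exact hx.le
  · intro x
    simp only
    have h2 := hu.submean (a + x) b hb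
    rw [intervalIntegral.integral_of_le hpi] at h2
    rw [integral_mul_const, ← mul_assoc]
    exact mul_le_mul_of_nonneg_right h2 (Smooth2_w_nonneg hs x)

theorem Smooth2_int_one {n : ℕ} {u : Cn n → ℝ} (hu : UpperSemicontinuous u)
    (hb : ∃ L : ℝ, ∀ z, -L ≤ u z) {s : ℝ} (hs : 0 < s) (z : Cn n) :
    Integrable (fun x => u (z + x) * Smooth2_w s x) volume := by
  obtain ⟨M, hM0, hM⟩ := Smooth2_bdd hu hb z s
  refine ((Smooth2_w_integrable hs).const_mul M).mono' ?_ (Filter.Eventually.of_forall ?_)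
  · refine Measurable.aestronglyMeasurable ?_
    have hc : Continuous fun x : Cn n => z + x := by fun_prop
    exact (hu.measurable.comp hc.measurable).mul (Smooth2_w_smooth s).continuous.measurable
  · intro x
    rw [norm_mul, Real.norm_of_nonneg (Smooth2_w_nonneg hs x)]
    rcases le_or_gt s ‖x‖ with hx | hx
    · rw [Smooth2_w_zero hs hx, mul_zero, mul_zero]
    · refine mul_le_mul_of_nonneg_right ?_ (Smooth2_w_nonneg hs x)
      rw [Real.norm_eq_abs]
      apply hM
      rw [add_sub_cancel_left]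
      exact hx.le

theorem Smooth2_le_max {n : ℕ} {u : Cn n → ℝ} (hu : UpperSemicontinuous u)
    (hb : ∃ L : ℝ, ∀ z, -L ≤ u z) {s : ℝ} (hs : 0 < s) (z : Cn n) :
    ∃ z', ‖z' - z‖ ≤ s ∧ Smooth2_v u s z ≤ u z' := by
  obtain ⟨z₁, hz₁, hmax⟩ := UpperSemicontinuousOn.exists_isMaxOn
    (s := closedBall z s) (nonempty_closedBall.2 hs.le) (isCompact_closedBall z s)
    (hu.upperSemicontinuousOn _)
  refine ⟨z₁, by rw [← mem_closedBall_iff_norm]; exact hz₁, ?_⟩
  unfold Smooth2_v
  calc ∫ x, u (z + x) * Smooth2_w s x ≤ ∫ x, u z₁ * Smooth2_w s x := by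
        refine integral_mono (Smooth2_int_one hu hb hs z) ((Smooth2_w_integrable hs).const_mul _) ?_
        intro x
        simp only
        rcases le_or_gt s ‖x‖ with hx | hx
        · rw [Smooth2_w_zero hs hx, mul_zero, mul_zero]
        · refine mul_le_mul_of_nonneg_right ?_ (Smooth2_w_nonneg hs x)
          apply hmax
          rw [mem_closedBall_iff_norm, add_sub_cancel_left]
          exact hx.le
    _ = u z₁ := by rw [integral_const_mul, Smooth2_w_int hs, mul_one]

theorem Smooth2_log {x y : ℝ} (hx : 0 ≤ x) (hy : 0 ≤ y) (h : y ≤ x + 1) :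
    Real.log (1 + y ^ 2) / 2 ≤ Real.log (1 + x ^ 2) / 2 + 1 := by
  have h1 : 1 + y ^ 2 ≤ 3 * (1 + x ^ 2) := by nlinarith [sq_nonneg (x - 1)]
  have h2 : Real.log (1 + y ^ 2) ≤ Real.log (3 * (1 + x ^ 2)) :=
    Real.log_le_log (by positivity) h1
  rw [Real.log_mul (by norm_num) (by positivity)] at h2
  have h3 : Real.log 3 ≤ 2 := by
    have := Real.log_le_sub_one_of_pos (show (0 : ℝ) < 3 by norm_num)
    linarith
  linarith

/-- Lipschitz constant of the weight -/
theorem Smooth2_lip (n : ℕ) : ∃ C : ℝ, 0 ≤ C ∧ ∀ s : ℝ, 0 < s → ∀ x y : Cn n,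
    |Smooth2_w s x - Smooth2_w s y| ≤ C * (s ^ (2 * n + 1))⁻¹ * ‖x - y‖ := by
  obtain ⟨C, hC⟩ := ContDiff.lipschitzWith_of_hasCompactSupport (𝕂 := ℝ)
    (Smooth2_b_supp (n := n)) Smooth2_b_smooth (by simp)
  have hI := Smooth2_b_int (n := n)
  refine ⟨(∫ x : Cn n, Smooth2_b x)⁻¹ * C, by positivity, ?_⟩
  intro s hs x y
  unfold Smooth2_w
  rw [← mul_sub, abs_mul, abs_of_pos (by positivity)]
  have h1 := hC.dist_le_mul (s⁻¹ • x) (s⁻¹ • y)
  rw [Real.dist_eq, dist_eq_norm, ← smul_sub, norm_smul, norm_inv, Real.norm_of_nonneg hs.le] at h1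
  calc (s ^ (2 * n))⁻¹ * (∫ x : Cn n, Smooth2_b x)⁻¹ * |Smooth2_b (s⁻¹ • x) - Smooth2_b (s⁻¹ • y)|
      ≤ (s ^ (2 * n))⁻¹ * (∫ x : Cn n, Smooth2_b x)⁻¹ * (C * (s⁻¹ * ‖x - y‖)) :=
        mul_le_mul_of_nonneg_left h1 (by positivity)
    _ = _ := by
      rw [pow_succ, mul_inv]; ring

/-- convolution with a smooth radial bump of radius `s` -/
theorem smoothing (n : ℕ) (R : ℝ) (hR : 1 ≤ R) : ∃ K : ℝ, 1 ≤ K ∧
    ∀ (u : Cn n → ℝ) (L a s : ℝ), PshS u → 0 ≤ L → 0 ≤ a → 0 < s → s ≤ 1 / 16 →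
      (∀ z, -L ≤ u z) → (∀ z, u z ≤ Real.log (1 + ‖z‖ ^ 2) / 2 + a) →
      ∃ v : Cn n → ℝ, ContDiff ℝ ∞ v ∧ (∀ z ξ, 0 ≤ lev v z ξ) ∧ (∀ z, u z ≤ v z) ∧
        (∀ z, ∃ z', ‖z' - z‖ ≤ s ∧ v z ≤ u z') ∧
        (∀ z, v z ≤ Real.log (1 + ‖z‖ ^ 2) / 2 + a + 1) ∧
        ∀ z z', ‖z‖ ≤ R + 1 → ‖z'‖ ≤ R + 1 →
          |v z - v z'| ≤ K * (L + a + 1) * (s ^ (2 * n + 1))⁻¹ * ‖z - z'‖ := by
  obtain ⟨C, hC0, hC⟩ := Smooth2_lip n
  set B : ℝ := Real.log (1 + (R + 2) ^ 2) / 2 with hB
  have hB0 : 0 ≤ B := by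
    rw [hB]
    have := Real.log_nonneg (show (1 : ℝ) ≤ 1 + (R + 2) ^ 2 by nlinarith)
    linarith
  set V : ℝ := volume.real (closedBall (0 : Cn n) (R + 2)) with hV
  have hV0 : 0 ≤ V := measureReal_nonneg
  refine ⟨max 1 ((1 + B) * V * C), le_max_left _ _, ?_⟩
  intro u L a s hu hL ha hs hs1 hlow hup
  have hli : LocallyIntegrable u volume := usc_locInt hu.usc hu.bdd
  refine ⟨Smooth2_v u s, Smooth2_v_smooth hli hs, ?_, ?_, ?_, ?_, ?_⟩
  · intro z ξ
    exact lev_nonneg (Smooth2_v_smooth hli hs) (r₀ := 1 / 16) (by norm_num)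
      (fun a b hb => Smooth2_v_submean hu hs a b hb) z ξ
  · intro z
    have h1 := (submean_weight hu.usc hu.bdd hs (fun a b hb => hu.submean a b (hb.trans hs1))
      (Smooth2_w s) (Smooth2_w_smooth s).continuous.measurable (Smooth2_w_nonneg hs)
      (by
        obtain ⟨C', hC'⟩ := (Smooth2_w_smooth (n := n) s).continuous.bounded_above_of_compact_support
          (Smooth2_w_supp hs)
        exact ⟨C', fun x => (le_abs_self _).trans (hC' x)⟩)
      (fun x hx => Smooth2_w_zero hs hx.le)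
      (fun θ x => Smooth2_w_norm s (by rw [norm_smul, Complex.norm_exp_ofReal_mul_I, one_mul])) z).2
    rw [Smooth2_w_int hs, mul_one] at h1
    exact h1
  · intro z
    exact Smooth2_le_max hu.usc hu.bdd hs z
  · intro z
    obtain ⟨z', hz', hv⟩ := Smooth2_le_max hu.usc hu.bdd hs z
    have h1 := hup z'
    have h2 : ‖z'‖ ≤ ‖z‖ + 1 := by
      have := norm_le_norm_add_norm_sub z z'
      have h3 : ‖z - z'‖ ≤ s := by rw [norm_sub_rev]; exact hz'
      have := norm_le_norm_add_norm_sub' z' z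
      linarith
    have h3 := Smooth2_log (norm_nonneg z) (norm_nonneg z') h2
    linarith
  · intro z z' hz hz'
    rw [Smooth2_v_eq, Smooth2_v_eq]
    have hint : ∀ z : Cn n, Integrable (fun y => u y * Smooth2_w s (z - y)) volume := by
      intro z
      have h1 := Smooth2_int_one hu.usc hu.bdd hs z
      have h2 : Integrable (fun x => (fun y => u y * Smooth2_w s (z - y)) (z + x)) volume := by
        refine h1.congr (Filter.Eventually.of_forall fun x => ?_)
        simp only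
        congr 1
        apply Smooth2_w_norm
        rw [← norm_neg]
        congr 1
        abel
      have h3 := h2.comp_add_left (-z)
      simpa only [add_neg_cancel_left] using h3
    rw [← integral_sub (hint z) (hint z')]
    have hM : 0 ≤ L + a + B := by linarith
    have hbound : ∀ y : Cn n, ‖u y * Smooth2_w s (z - y) - u y * Smooth2_w s (z' - y)‖ ≤
        (closedBall (0 : Cn n) (R + 2)).indicator
          (fun _ => (L + a + B) * (C * (s ^ (2 * n + 1))⁻¹ * ‖z - z'‖)) y := by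
      intro y
      by_cases hy : y ∈ closedBall (0 : Cn n) (R + 2)
      · rw [indicator_of_mem hy, ← mul_sub, norm_mul, Real.norm_eq_abs, Real.norm_eq_abs]
        refine mul_le_mul ?_ ?_ (abs_nonneg _) hM
        · have h1 := hlow y
          have h2 := hup y
          have h3 : Real.log (1 + ‖y‖ ^ 2) / 2 ≤ B := by
            rw [hB]
            have h4 : ‖y‖ ≤ R + 2 := mem_closedBall_zero_iff.1 hy
            have h5 : 1 + ‖y‖ ^ 2 ≤ 1 + (R + 2) ^ 2 := by nlinarith [norm_nonneg y]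
            have := Real.log_le_log (by positivity) h5
            linarith
          rw [abs_le]
          constructor <;> linarith
        · have h1 := hC s hs (z - y) (z' - y)
          have h2 : z - y - (z' - y) = z - z' := by abel
          rw [h2] at h1
          exact h1
      · rw [indicator_of_notMem hy]
        rw [mem_closedBall_zero_iff, not_le] at hy
        have h1 : ∀ z : Cn n, ‖z‖ ≤ R + 1 → Smooth2_w s (z - y) = 0 := by
          intro z hz
          apply Smooth2_w_zero hs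
          have := norm_sub_norm_le y z
          rw [norm_sub_rev y z] at this
          linarith
        rw [h1 z hz, h1 z' hz', mul_zero, sub_self, norm_zero]
    have hfin : IntegrableOn (fun _ : Cn n => (L + a + B) * (C * (s ^ (2 * n + 1))⁻¹ * ‖z - z'‖))
        (closedBall (0 : Cn n) (R + 2)) volume := by
      refine integrableOn_const ?_
      exact (isCompact_closedBall _ _).measure_lt_top.ne
    have h1 := norm_integral_le_of_norm_le (hfin.integrable_indicator measurableSet_closedBall)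
      (Filter.Eventually.of_forall hbound)
    rw [Real.norm_eq_abs] at h1
    refine h1.trans ?_
    rw [integral_indicator measurableSet_closedBall, setIntegral_const, smul_eq_mul]
    have h2 : L + a + B ≤ (1 + B) * (L + a + 1) := by nlinarith
    have h3 : 0 ≤ C * (s ^ (2 * n + 1))⁻¹ * ‖z - z'‖ := by positivity
    calc V * ((L + a + B) * (C * (s ^ (2 * n + 1))⁻¹ * ‖z - z'‖))
        ≤ V * (((1 + B) * (L + a + 1)) * (C * (s ^ (2 * n + 1))⁻¹ * ‖z - z'‖)) := by
          exact mul_le_mul_of_nonneg_left (mul_le_mul_of_nonneg_right h2 h3) hV0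
      _ = ((1 + B) * V * C) * (L + a + 1) * (s ^ (2 * n + 1))⁻¹ * ‖z - z'‖ := by ring
      _ ≤ max 1 ((1 + B) * V * C) * (L + a + 1) * (s ^ (2 * n + 1))⁻¹ * ‖z - z'‖ := by
          have h4 : (1 + B) * V * C ≤ max 1 ((1 + B) * V * C) := le_max_right _ _
          have h5 : 0 ≤ L + a + 1 := by linarith
          have h6 : 0 ≤ (s ^ (2 * n + 1))⁻¹ := by positivity
          exact mul_le_mul_of_nonneg_right (mul_le_mul_of_nonneg_right
            (mul_le_mul_of_nonneg_right h4 h5) h6) (norm_nonneg _)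

end HMA

end S_MA_Smooth2

section S_MA_BasicIneq

/-! # Module BASIC: the Bochner-Kodaira-Hörmander inequality for test forms -/

open MeasureTheory Metric Set
open scoped ENNReal Topology ContDiff

namespace HMA

section BasicAux

variable {n : ℕ}

theorem BasicIneq_int {f : Cn n → ℂ} (hf : Tst f) : Integrable f volume :=
  hf.smooth.continuous.integrable_of_hasCompactSupport hf.supp

theorem BasicIneq_sub {f g : Cn n → ℂ} (hf : ContDiff ℝ ∞ f) (hg : ContDiff ℝ ∞ g) (j : Fin n)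
    (z : Cn n) : db j (fun z => f z - g z) z = db j f z - db j g z := by
  have h1 : DifferentiableAt ℝ f z := (hf.differentiable (by simp)).differentiableAt
  have h2 : DifferentiableAt ℝ g z := (hg.differentiable (by simp)).differentiableAt
  unfold db
  rw [fderiv_fun_sub h1 h2]
  simp only [sub_apply]
  ring

/-- the real function as a complex function -/
theorem BasicIneq_smoothPhi {φ : Cn n → ℝ} (hφ : ContDiff ℝ ∞ φ) :
    ContDiff ℝ ∞ (fun w => (φ w : ℂ)) :=
  Complex.ofRealCLM.contDiff.comp hφ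

theorem BasicIneq_smoothE {φ : Cn n → ℝ} (hφ : ContDiff ℝ ∞ φ) :
    ContDiff ℝ ∞ (fun w => Complex.exp (-(φ w : ℂ))) :=
  (BasicIneq_smoothPhi hφ).neg.cexp

theorem BasicIneq_key1 {φ : Cn n → ℝ} (hφ : ContDiff ℝ ∞ φ) {f : Cn n → ℂ}
    (hf : ContDiff ℝ ∞ f) (k : Fin n) (z : Cn n) :
    dd k (fun w => f w * Complex.exp (-(φ w : ℂ))) z =
      (dd k f z - dd k (fun w => (φ w : ℂ)) z * f z) * Complex.exp (-(φ z : ℂ)) := by
  have h1 := BasicIneq_smoothPhi hφ
  have h2 : ContDiff ℝ ∞ (fun w => -(φ w : ℂ)) := h1.neg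
  rw [dd_mul hf (BasicIneq_smoothE hφ), dd_exp h2]
  have h3 : dd k (fun w => -(φ w : ℂ)) z = - dd k (fun w => (φ w : ℂ)) z := by
    unfold dd
    rw [fderiv_fun_neg]
    simp only [neg_apply]
    ring
  rw [h3]
  ring

theorem BasicIneq_conjE (x : ℝ) :
    (starRingEnd ℂ) (Complex.exp (-(x : ℂ))) = Complex.exp (-(x : ℂ)) := by
  rw [← Complex.exp_conj, map_neg, Complex.conj_ofReal]

theorem BasicIneq_key2 {φ : Cn n → ℝ} (hφ : ContDiff ℝ ∞ φ) {f : Cn n → ℂ}
    (hf : ContDiff ℝ ∞ f) (k : Fin n) (z : Cn n) :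
    db k (fun w => (starRingEnd ℂ) (f w) * Complex.exp (-(φ w : ℂ))) z =
      (starRingEnd ℂ) (dd k f z - dd k (fun w => (φ w : ℂ)) z * f z) *
        Complex.exp (-(φ z : ℂ)) := by
  have h1 : (fun w => (starRingEnd ℂ) (f w) * Complex.exp (-(φ w : ℂ))) =
      fun w => (starRingEnd ℂ) (f w * Complex.exp (-(φ w : ℂ))) := by
    funext w
    rw [map_mul, BasicIneq_conjE]
  rw [h1, db_conj (hf.mul (BasicIneq_smoothE hφ)), BasicIneq_key1 hφ hf, map_mul,
    BasicIneq_conjE]

theorem BasicIneq_term {φ : Cn n → ℝ} (hφ : ContDiff ℝ ∞ φ) {a b : Cn n → ℂ} (ha : Tst a)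
    (hb : Tst b) (j k : Fin n) :
    ∫ z, (dd j a z - dd j (fun w => (φ w : ℂ)) z * a z) *
        ((starRingEnd ℂ) (dd k b z - dd k (fun w => (φ w : ℂ)) z * b z) *
          Complex.exp (-(φ z : ℂ))) =
      (∫ z, db k a z * (starRingEnd ℂ) (db j b z) * Complex.exp (-(φ z : ℂ))) +
        ∫ z, db k (dd j (fun w => (φ w : ℂ))) z * a z * (starRingEnd ℂ) (b z) *
          Complex.exp (-(φ z : ℂ)) := by
  have hΦ := BasicIneq_smoothPhi hφ
  have hE := BasicIneq_smoothE hφ
  have hbE : Tst (fun z => (starRingEnd ℂ) (b z) * Complex.exp (-(φ z : ℂ))) :=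
    hb.conj.mul_smooth hE
  have hddΦ := smooth_dd hΦ j
  have hdda := smooth_dd ha.smooth j
  have hu : ContDiff ℝ ∞ (fun z => dd j a z - dd j (fun w => (φ w : ℂ)) z * a z) :=
    hdda.sub (hddΦ.mul ha.smooth)
  have hdbΦ : ContDiff ℝ ∞ (db k (dd j (fun w => (φ w : ℂ)))) := smooth_db hddΦ k
  have hdba : Tst (db k a) := ha.db k
  -- first integration by parts
  have e1 : ∫ z, (dd j a z - dd j (fun w => (φ w : ℂ)) z * a z) *
        ((starRingEnd ℂ) (dd k b z - dd k (fun w => (φ w : ℂ)) z * b z) *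
          Complex.exp (-(φ z : ℂ))) =
      - ∫ z, db k (fun z => dd j a z - dd j (fun w => (φ w : ℂ)) z * a z) z *
        ((starRingEnd ℂ) (b z) * Complex.exp (-(φ z : ℂ))) := by
    rw [ibp_db hu hbE k, neg_neg]
    congr 1
    funext z
    rw [BasicIneq_key2 hφ hb.smooth]
  -- the commutator
  have e2 : ∀ z, db k (fun z => dd j a z - dd j (fun w => (φ w : ℂ)) z * a z) z =
      (dd j (db k a) z - dd j (fun w => (φ w : ℂ)) z * db k a z) -
        db k (dd j (fun w => (φ w : ℂ))) z * a z := by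
    intro z
    rw [BasicIneq_sub hdda (hddΦ.mul ha.smooth), db_mul hddΦ ha.smooth,
      db_dd_comm ha.smooth k j z]
    ring
  -- second integration by parts
  have e3 : ∫ z, (dd j (db k a) z - dd j (fun w => (φ w : ℂ)) z * db k a z) *
        Complex.exp (-(φ z : ℂ)) * (starRingEnd ℂ) (b z) =
      - ∫ z, db k a z * Complex.exp (-(φ z : ℂ)) * (starRingEnd ℂ) (db j b z) := by
    have h1 := ibp_dd (f := fun z => db k a z * Complex.exp (-(φ z : ℂ)))
      (hdba.smooth.mul hE) hb.conj j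
    have h2 : ∫ z, db k a z * Complex.exp (-(φ z : ℂ)) *
        dd j (fun z => (starRingEnd ℂ) (b z)) z =
        ∫ z, db k a z * Complex.exp (-(φ z : ℂ)) * (starRingEnd ℂ) (db j b z) := by
      apply integral_congr_ae
      filter_upwards with z
      rw [dd_conj hb.smooth]
    rw [h2] at h1
    rw [← h1]
    apply integral_congr_ae
    filter_upwards with z
    rw [BasicIneq_key1 hφ hdba.smooth]
  -- integrability
  have i1 : Integrable (fun z => (dd j (db k a) z - dd j (fun w => (φ w : ℂ)) z * db k a z) *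
        Complex.exp (-(φ z : ℂ)) * (starRingEnd ℂ) (b z)) volume := by
    have : Tst (fun z => (starRingEnd ℂ) (b z) *
        ((dd j (db k a) z - dd j (fun w => (φ w : ℂ)) z * db k a z) *
        Complex.exp (-(φ z : ℂ)))) :=
      hb.conj.mul_smooth (((smooth_dd hdba.smooth j).sub (hddΦ.mul hdba.smooth)).mul hE)
    refine (BasicIneq_int this).congr ?_
    filter_upwards with z
    ring
  have i2 : Integrable (fun z => db k (dd j (fun w => (φ w : ℂ))) z * a z *
        (starRingEnd ℂ) (b z) * Complex.exp (-(φ z : ℂ))) volume := by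
    have : Tst (fun z => (starRingEnd ℂ) (b z) *
        (db k (dd j (fun w => (φ w : ℂ))) z * a z * Complex.exp (-(φ z : ℂ)))) :=
      hb.conj.mul_smooth ((hdbΦ.mul ha.smooth).mul hE)
    refine (BasicIneq_int this).congr ?_
    filter_upwards with z
    ring
  have e4 : ∫ z, db k (fun z => dd j a z - dd j (fun w => (φ w : ℂ)) z * a z) z *
        ((starRingEnd ℂ) (b z) * Complex.exp (-(φ z : ℂ))) =
      (∫ z, (dd j (db k a) z - dd j (fun w => (φ w : ℂ)) z * db k a z) *
        Complex.exp (-(φ z : ℂ)) * (starRingEnd ℂ) (b z)) -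
      ∫ z, db k (dd j (fun w => (φ w : ℂ))) z * a z *
        (starRingEnd ℂ) (b z) * Complex.exp (-(φ z : ℂ)) := by
    rw [← integral_sub i1 i2]
    apply integral_congr_ae
    filter_upwards with z
    rw [e2]
    ring
  rw [e1, e4, e3]
  have e5 : ∫ z, db k a z * Complex.exp (-(φ z : ℂ)) * (starRingEnd ℂ) (db j b z) =
      ∫ z, db k a z * (starRingEnd ℂ) (db j b z) * Complex.exp (-(φ z : ℂ)) := by
    apply integral_congr_ae
    filter_upwards with z
    ring
  rw [e5]
  ring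

end BasicAux

theorem basic_ineq {n : ℕ} {φ : Cn n → ℝ} (hφ : ContDiff ℝ ∞ φ) {α : Fin n → Cn n → ℂ}
    (hα : ∀ j, Tst (α j)) :
    ∫ z, lev φ z (vec (fun j => α j z)) * Real.exp (-φ z) ≤
      (∫ z, ‖adj φ α z‖ ^ 2 * Real.exp (-φ z)) +
        (1 / 2) * ∑ j, ∑ k, ∫ z, ‖db j (α k) z - db k (α j) z‖ ^ 2 * Real.exp (-φ z) := by
  have hΦ := BasicIneq_smoothPhi hφ
  have hE := BasicIneq_smoothE hφ
  have hEr : ∀ z, Complex.exp (-(φ z : ℂ)) = ((Real.exp (-φ z) : ℝ) : ℂ) := by
    intro z; push_cast; rfl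
  -- the three families of integrable functions
  have i1 : ∀ j k, Integrable (fun z => (dd j (α j) z - dd j (fun w => (φ w : ℂ)) z * α j z) *
        ((starRingEnd ℂ) (dd k (α k) z - dd k (fun w => (φ w : ℂ)) z * α k z) *
          Complex.exp (-(φ z : ℂ)))) volume := by
    intro j k
    have h1 : ContDiff ℝ ∞ (fun z => dd k (α k) z - dd k (fun w => (φ w : ℂ)) z * α k z) :=
      (smooth_dd (hα k).smooth k).sub ((smooth_dd hΦ k).mul (hα k).smooth)
    have h2 : ContDiff ℝ ∞ (fun z => (starRingEnd ℂ)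
        (dd k (α k) z - dd k (fun w => (φ w : ℂ)) z * α k z)) :=
      Complex.conjCLE.contDiff.comp h1
    have h3 : Tst (fun z => dd j (α j) z * 
      ((starRingEnd ℂ) (dd k (α k) z - dd k (fun w => (φ w : ℂ)) z * α k z) *
          Complex.exp (-(φ z : ℂ)))) := ((hα j).dd j).mul_smooth (h2.mul hE)
    have h4 : Tst (fun z => α j z * (dd j (fun w => (φ w : ℂ)) z * 
      ((starRingEnd ℂ) (dd k (α k) z - dd k (fun w => (φ w : ℂ)) z * α k z) *
          Complex.exp (-(φ z : ℂ))))) := (hα j).mul_smooth ((smooth_dd hΦ j).mul (h2.mul hE))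
    refine ((BasicIneq_int h3).sub (BasicIneq_int h4)).congr ?_
    filter_upwards with z
    simp only [Pi.sub_apply]
    ring
  have i2 : ∀ j k, Integrable (fun z => db k (α j) z * (starRingEnd ℂ) (db j (α k) z) *
      Complex.exp (-(φ z : ℂ))) volume := by
    intro j k
    have h2 : ContDiff ℝ ∞ (fun z => (starRingEnd ℂ) (db j (α k) z)) :=
      Complex.conjCLE.contDiff.comp (smooth_db (hα k).smooth j)
    refine (BasicIneq_int (((hα j).db k).mul_smooth (h2.mul hE))).congr ?_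
    filter_upwards with z
    ring
  have i3 : ∀ j k, Integrable (fun z => db k (dd j (fun w => (φ w : ℂ))) z * α j z *
        (starRingEnd ℂ) (α k z) * Complex.exp (-(φ z : ℂ))) volume := by
    intro j k
    have h2 : ContDiff ℝ ∞ (fun z => (starRingEnd ℂ) (α k z)) :=
      Complex.conjCLE.contDiff.comp (hα k).smooth
    refine (BasicIneq_int ((hα j).mul_smooth
      (((smooth_db (smooth_dd hΦ j) k).mul h2).mul hE))).congr ?_
    filter_upwards with z
    ring
  -- the complex identity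
  have A : ((∫ z, ‖adj φ α z‖ ^ 2 * Real.exp (-φ z) : ℝ) : ℂ) =
      ∑ j, ∑ k, ∫ z, (dd j (α j) z - dd j (fun w => (φ w : ℂ)) z * α j z) *
        ((starRingEnd ℂ) (dd k (α k) z - dd k (fun w => (φ w : ℂ)) z * α k z) *
          Complex.exp (-(φ z : ℂ))) := by
    rw [← integral_complex_ofReal]
    simp_rw [← integral_finsetSum _ (fun k _ => i1 _ k)]
    rw [← integral_finsetSum _ (fun j _ => integrable_finsetSum _ (fun k _ => i1 j k))]
    apply integral_congr_ae
    filter_upwards with z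
    have h1 : ((‖adj φ α z‖ ^ 2 * Real.exp (-φ z) : ℝ) : ℂ) =
        adj φ α z * (starRingEnd ℂ) (adj φ α z) * Complex.exp (-(φ z : ℂ)) := by
      rw [hEr, Complex.mul_conj, Complex.normSq_eq_norm_sq]
      push_cast
      ring
    rw [h1]
    unfold adj
    rw [map_neg, neg_mul_neg, map_sum, Finset.sum_mul_sum, Finset.sum_mul]
    apply Finset.sum_congr rfl
    intro j _
    rw [Finset.sum_mul]
    apply Finset.sum_congr rfl
    intro k _
    ring
  have B : ((∫ z, lev φ z (vec (fun j => α j z)) * Real.exp (-φ z) : ℝ) : ℂ) =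
      ∑ j, ∑ k, ∫ z, db k (dd j (fun w => (φ w : ℂ))) z * α j z *
        (starRingEnd ℂ) (α k z) * Complex.exp (-(φ z : ℂ)) := by
    rw [← integral_complex_ofReal]
    simp_rw [← integral_finsetSum _ (fun k _ => i3 _ k)]
    rw [← integral_finsetSum _ (fun j _ => integrable_finsetSum _ (fun k _ => i3 j k))]
    apply integral_congr_ae
    filter_upwards with z
    push_cast
    rw [lev_eq hφ, Finset.sum_mul]
    apply Finset.sum_congr rfl
    intro j _
    rw [Finset.sum_mul]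
    apply Finset.sum_congr rfl
    intro k _
    simp [vec]
  have C : ((∫ z, ‖adj φ α z‖ ^ 2 * Real.exp (-φ z) : ℝ) : ℂ) =
      (∑ j, ∑ k, ∫ z, db k (α j) z * (starRingEnd ℂ) (db j (α k) z) *
        Complex.exp (-(φ z : ℂ))) +
      ((∫ z, lev φ z (vec (fun j => α j z)) * Real.exp (-φ z) : ℝ) : ℂ) := by
    rw [A, B, ← Finset.sum_add_distrib]
    apply Finset.sum_congr rfl
    intro j _
    rw [← Finset.sum_add_distrib]
    apply Finset.sum_congr rfl
    intro k _
    exact BasicIneq_term hφ (hα j) (hα k) j k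
  have C' := congrArg Complex.re C
  rw [Complex.add_re, Complex.ofReal_re, Complex.ofReal_re, Complex.re_sum] at C'
  simp_rw [Complex.re_sum] at C'
  -- the inequality for the mixed terms
  have D : ∀ j k, -(∫ z, db k (α j) z * (starRingEnd ℂ) (db j (α k) z) *
        Complex.exp (-(φ z : ℂ))).re ≤
      (1 / 2) * ∫ z, ‖db j (α k) z - db k (α j) z‖ ^ 2 * Real.exp (-φ z) := by
    intro j k
    have h0 : (∫ z, db k (α j) z * (starRingEnd ℂ) (db j (α k) z) *
        Complex.exp (-(φ z : ℂ))).re = ∫ z, (db k (α j) z * (starRingEnd ℂ) (db j (α k) z) *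
        Complex.exp (-(φ z : ℂ))).re := (integral_re (i2 j k)).symm
    rw [h0, ← integral_neg, ← integral_const_mul]
    apply integral_mono
    · exact (i2 j k).re.neg
    · have h1 : ContDiff ℝ ∞ (fun z => db j (α k) z - db k (α j) z) :=
        (smooth_db (hα k).smooth j).sub (smooth_db (hα j).smooth k)
      have h2 : HasCompactSupport (fun z => db j (α k) z - db k (α j) z) :=
        HasCompactSupport.sub ((hα k).db j).supp ((hα j).db k).supp
      apply Continuous.integrable_of_hasCompactSupport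
      · exact continuous_const.mul ((h1.continuous.norm.pow 2).mul
          (Real.continuous_exp.comp hφ.continuous.neg))
      · apply HasCompactSupport.intro h2
        intro z hz
        have := image_eq_zero_of_notMem_tsupport hz
        simp [this]
    · intro z
      simp only
      rw [hEr, Complex.re_mul_ofReal]
      have hexp := Real.exp_pos (-φ z)
      set a := db j (α k) z
      set b := db k (α j) z
      have h3 : ‖a - b‖ ^ 2 = ‖a‖ ^ 2 + ‖b‖ ^ 2 - 2 * (b * (starRingEnd ℂ) a).re := by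
        rw [← Complex.normSq_eq_norm_sq, ← Complex.normSq_eq_norm_sq, ← Complex.normSq_eq_norm_sq,
          Complex.normSq_sub]
        congr 2
        rw [← Complex.conj_re, map_mul, Complex.conj_conj, mul_comm]
      rw [h3]
      nlinarith [sq_nonneg ‖a‖, sq_nonneg ‖b‖, mul_nonneg (sq_nonneg ‖a‖) hexp.le,
        mul_nonneg (sq_nonneg ‖b‖) hexp.le]
  have D' : -∑ j, ∑ k, (∫ z, db k (α j) z * (starRingEnd ℂ) (db j (α k) z) *
        Complex.exp (-(φ z : ℂ))).re ≤
      (1 / 2) * ∑ j, ∑ k, ∫ z, ‖db j (α k) z - db k (α j) z‖ ^ 2 * Real.exp (-φ z) := by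
    rw [← Finset.sum_neg_distrib, Finset.mul_sum]
    apply Finset.sum_le_sum
    intro j _
    rw [← Finset.sum_neg_distrib, Finset.mul_sum]
    apply Finset.sum_le_sum
    intro k _
    exact D j k
  linarith

end HMA

end S_MA_BasicIneq

section S_MA_LevLog

/-! # Module LEVLOG: the Levi form of `log (τ + ‖z - y‖^2)` -/

open MeasureTheory Metric Set
open scoped ENNReal Topology ContDiff

namespace HMA

theorem LevLog_pos {n : ℕ} {τ : ℝ} (hτ : 0 < τ) (x : Cn n) : 0 < τ + ‖x‖ ^ 2 := by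
  positivity

theorem LevLog_sq {n : ℕ} (y : Cn n) : ContDiff ℝ ∞ (fun z : Cn n => ‖z - y‖ ^ 2) :=
  (contDiff_norm_sq ℂ).comp (contDiff_id.sub contDiff_const)

theorem smooth_log {n : ℕ} {τ : ℝ} (hτ : 0 < τ) (y : Cn n) :
    ContDiff ℝ ∞ (fun z : Cn n => Real.log (τ + ‖z - y‖ ^ 2)) := by
  refine ContDiff.log (contDiff_const.add (LevLog_sq y)) ?_
  intro x
  exact (LevLog_pos hτ _).ne'

theorem LevLog_re {n : ℕ} (y η : Cn n) :
    ContDiff ℝ ∞ (fun z : Cn n => (inner ℂ (z - y) η).re) := by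
  have h1 : (fun z : Cn n => (inner ℂ (z - y) η).re) = fun z : Cn n =>
      (‖(z - y) + η‖ ^ 2 - ‖z - y‖ ^ 2 - ‖η‖ ^ 2) / 2 := by
    funext z
    have := norm_add_sq (𝕜 := ℂ) (z - y) η
    simp only [RCLike.re_eq_complex_re] at this
    rw [this]; ring
  rw [h1]
  have h2 : ContDiff ℝ ∞ (fun z : Cn n => ‖(z - y) + η‖ ^ 2) :=
    (contDiff_norm_sq ℂ).comp ((contDiff_id.sub contDiff_const).add contDiff_const)
  exact ((h2.sub (LevLog_sq y)).sub contDiff_const).div_const 2

theorem LevLog_norm_line {n : ℕ} (y w η : Cn n) (t : ℝ) :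
    ‖w + t • η - y‖ ^ 2 = ‖w - y‖ ^ 2 + 2 * t * (inner ℂ (w - y) η).re + t ^ 2 * ‖η‖ ^ 2 := by
  have h1 : w + t • η - y = (w - y) + (t : ℂ) • η := by
    rw [← Complex.coe_smul]; abel
  rw [h1, norm_add_sq (𝕜 := ℂ), inner_smul_right, norm_smul, mul_pow]
  simp only [RCLike.re_eq_complex_re, Complex.re_ofReal_mul, Complex.norm_real, Real.norm_eq_abs,
    sq_abs]
  ring

theorem LevLog_re_line {n : ℕ} (y w η : Cn n) (t : ℝ) :
    (inner ℂ (w + t • η - y) η).re = (inner ℂ (w - y) η).re + t * ‖η‖ ^ 2 := by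
  have h1 : w + t • η - y = (w - y) + (t : ℂ) • η := by
    rw [← Complex.coe_smul]; abel
  rw [h1, inner_add_left, inner_smul_left, Complex.add_re, Complex.conj_ofReal,
    Complex.re_ofReal_mul, inner_self_eq_norm_sq_to_K]
  norm_cast

theorem LevLog_fderiv {n : ℕ} {τ : ℝ} (hτ : 0 < τ) (y w η : Cn n) :
    fderiv ℝ (fun z : Cn n => Real.log (τ + ‖z - y‖ ^ 2)) w η =
      2 * (inner ℂ (w - y) η).re / (τ + ‖w - y‖ ^ 2) := by
  have hd : DifferentiableAt ℝ (fun z : Cn n => Real.log (τ + ‖z - y‖ ^ 2)) w :=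
    (smooth_log hτ y).differentiable (by simp) w
  rw [← hd.lineDeriv_eq_fderiv]
  unfold lineDeriv
  have h1 : (fun t : ℝ => Real.log (τ + ‖w + t • η - y‖ ^ 2)) = fun t : ℝ =>
      Real.log (τ + (‖w - y‖ ^ 2 + 2 * t * (inner ℂ (w - y) η).re + t ^ 2 * ‖η‖ ^ 2)) := by
    funext t
    rw [LevLog_norm_line]
  rw [h1]
  have hT := LevLog_pos hτ (w - y)
  have h2 : HasDerivAt (fun t : ℝ => τ + (‖w - y‖ ^ 2 + 2 * t * (inner ℂ (w - y) η).re +
      t ^ 2 * ‖η‖ ^ 2)) (2 * (inner ℂ (w - y) η).re) 0 := by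
    have a1 : HasDerivAt (fun t : ℝ => 2 * t * (inner ℂ (w - y) η).re)
        (2 * (inner ℂ (w - y) η).re) 0 := by
      have := ((hasDerivAt_id (0 : ℝ)).const_mul 2).mul_const ((inner ℂ (w - y) η).re)
      simpa using this
    have a2 : HasDerivAt (fun t : ℝ => t ^ 2 * ‖η‖ ^ 2) 0 0 := by
      have := (hasDerivAt_pow 2 (0 : ℝ)).mul_const (‖η‖ ^ 2)
      simpa using this
    have a3 := ((a1.const_add (‖w - y‖ ^ 2)).add a2).const_add τ
    simpa using a3
  have h3 := h2.log (by simpa using hT.ne')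
  rw [h3.deriv]
  simp

theorem LevLog_second {n : ℕ} {τ : ℝ} (hτ : 0 < τ) (y z η : Cn n) :
    fderiv ℝ (fun w => fderiv ℝ (fun z : Cn n => Real.log (τ + ‖z - y‖ ^ 2)) w η) z η =
      (2 * ‖η‖ ^ 2 * (τ + ‖z - y‖ ^ 2) - 4 * (inner ℂ (z - y) η).re ^ 2) /
        (τ + ‖z - y‖ ^ 2) ^ 2 := by
  have h0 : (fun w => fderiv ℝ (fun z : Cn n => Real.log (τ + ‖z - y‖ ^ 2)) w η) =
      fun w => 2 * (inner ℂ (w - y) η).re / (τ + ‖w - y‖ ^ 2) := by
    funext w
    exact LevLog_fderiv hτ y w η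
  rw [h0]
  have hT := LevLog_pos hτ (z - y)
  have hd : DifferentiableAt ℝ
      (fun w : Cn n => 2 * (inner ℂ (w - y) η).re / (τ + ‖w - y‖ ^ 2)) z := by
    have b1 : ContDiff ℝ ∞ (fun w : Cn n => 2 * (inner ℂ (w - y) η).re) :=
      contDiff_const.mul (LevLog_re y η)
    have b2 : ContDiff ℝ ∞ (fun w : Cn n => τ + ‖w - y‖ ^ 2) :=
      contDiff_const.add (LevLog_sq y)
    exact (b1.div b2 (fun x => (LevLog_pos hτ (x - y)).ne')).differentiable (by simp) z
  rw [← hd.lineDeriv_eq_fderiv]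
  unfold lineDeriv
  have h1 : (fun t : ℝ => 2 * (inner ℂ (z + t • η - y) η).re / (τ + ‖z + t • η - y‖ ^ 2)) =
      fun t : ℝ => 2 * ((inner ℂ (z - y) η).re + t * ‖η‖ ^ 2) /
      (τ + (‖z - y‖ ^ 2 + 2 * t * (inner ℂ (z - y) η).re + t ^ 2 * ‖η‖ ^ 2)) := by
    funext t
    rw [LevLog_norm_line, LevLog_re_line]
  rw [h1]
  have h2 : HasDerivAt (fun t : ℝ => τ + (‖z - y‖ ^ 2 + 2 * t * (inner ℂ (z - y) η).re +
      t ^ 2 * ‖η‖ ^ 2)) (2 * (inner ℂ (z - y) η).re) 0 := by
    have a1 : HasDerivAt (fun t : ℝ => 2 * t * (inner ℂ (z - y) η).re)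
        (2 * (inner ℂ (z - y) η).re) 0 := by
      have := ((hasDerivAt_id (0 : ℝ)).const_mul 2).mul_const ((inner ℂ (z - y) η).re)
      simpa using this
    have a2 : HasDerivAt (fun t : ℝ => t ^ 2 * ‖η‖ ^ 2) 0 0 := by
      have := (hasDerivAt_pow 2 (0 : ℝ)).mul_const (‖η‖ ^ 2)
      simpa using this
    have a3 := ((a1.const_add (‖z - y‖ ^ 2)).add a2).const_add τ
    simpa using a3
  have h3 : HasDerivAt (fun t : ℝ => 2 * ((inner ℂ (z - y) η).re + t * ‖η‖ ^ 2))
      (2 * ‖η‖ ^ 2) 0 := by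
    have a1 := (((hasDerivAt_id (0 : ℝ)).mul_const (‖η‖ ^ 2)).const_add
      ((inner ℂ (z - y) η).re)).const_mul 2
    simpa using a1
  have h4 := h3.div h2 (by simpa using hT.ne')
  refine h4.deriv.trans ?_
  simp only [mul_zero, zero_mul, add_zero, ne_eq, OfNat.ofNat_ne_zero, not_false_eq_true, zero_pow]
  congr 1
  ring

theorem lev_log {n : ℕ} {τ : ℝ} (hτ : 0 < τ) (y z ξ : Cn n) :
    lev (fun z : Cn n => Real.log (τ + ‖z - y‖ ^ 2)) z ξ =
      ‖ξ‖ ^ 2 / (τ + ‖z - y‖ ^ 2) - ‖inner ℂ (z - y) ξ‖ ^ 2 / (τ + ‖z - y‖ ^ 2) ^ 2 := by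
  unfold lev
  rw [LevLog_second hτ, LevLog_second hτ]
  have hT := LevLog_pos hτ (z - y)
  have h1 : ‖Complex.I • ξ‖ = ‖ξ‖ := by rw [norm_smul, Complex.norm_I, one_mul]
  have h2 : (inner ℂ (z - y) (Complex.I • ξ)).re = - (inner ℂ (z - y) ξ).im := by
    rw [inner_smul_right, Complex.mul_re, Complex.I_re, Complex.I_im]; ring
  have h3 : ‖inner ℂ (z - y) ξ‖ ^ 2 = (inner ℂ (z - y) ξ).re ^ 2 + (inner ℂ (z - y) ξ).im ^ 2 := by
    rw [Complex.sq_norm, Complex.normSq_apply]; ring
  rw [h1, h2, h3]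
  field_simp
  ring

theorem lev_log_ge {n : ℕ} {τ : ℝ} (hτ : 0 < τ) (y z ξ : Cn n) :
    τ * ‖ξ‖ ^ 2 / (τ + ‖z - y‖ ^ 2) ^ 2 ≤
      lev (fun z : Cn n => Real.log (τ + ‖z - y‖ ^ 2)) z ξ := by
  rw [lev_log hτ]
  have hT := LevLog_pos hτ (z - y)
  have h1 : ‖inner ℂ (z - y) ξ‖ ^ 2 ≤ ‖z - y‖ ^ 2 * ‖ξ‖ ^ 2 := by
    rw [← mul_pow]
    exact pow_le_pow_left₀ (norm_nonneg _) (norm_inner_le_norm _ _) 2
  have h2 : ‖ξ‖ ^ 2 / (τ + ‖z - y‖ ^ 2) =
      ‖ξ‖ ^ 2 * (τ + ‖z - y‖ ^ 2) / (τ + ‖z - y‖ ^ 2) ^ 2 := by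
    field_simp
  rw [h2, ← sub_div]
  gcongr
  nlinarith

end HMA

end S_MA_LevLog

section S_KM_HFun1

/-! # Module HFun1: the Monge-Ampère mass of `log (τ + ‖z‖²)` -/

open MeasureTheory Metric Set
open scoped ENNReal Topology ContDiff ComplexOrder

namespace HMA

theorem hFun1_smooth {n : ℕ} {τ : ℝ} (hτ : 0 < τ) :
    ContDiff ℝ ∞ (fun z : Cn n => Real.log (τ + ‖z‖ ^ 2)) := by
  have := smooth_log (n := n) hτ 0
  simpa only [sub_zero] using this

theorem hFun1_hes {n : ℕ} {τ : ℝ} (hτ : 0 < τ) (z a b : Cn n) :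
    hes (fun z : Cn n => Real.log (τ + ‖z‖ ^ 2)) z a b =
      (2 * (inner ℂ a b).re * (τ + ‖z‖ ^ 2) - 4 * (inner ℂ z b).re * (inner ℂ z a).re) /
        (τ + ‖z‖ ^ 2) ^ 2 := by
  unfold hes
  rw [← dbar2_fd2 (hFun1_smooth hτ)]
  have h0 : (fun w => fderiv ℝ (fun z : Cn n => Real.log (τ + ‖z‖ ^ 2)) w b) =
      fun w => 2 * (inner ℂ w b).re / (τ + ‖w‖ ^ 2) := by
    funext w
    have := LevLog_fderiv hτ 0 w b
    simpa only [sub_zero] using this
  rw [h0]
  have hT : 0 < τ + ‖z‖ ^ 2 := LevLog_pos hτ z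
  have hd : DifferentiableAt ℝ
      (fun w : Cn n => 2 * (inner ℂ w b).re / (τ + ‖w‖ ^ 2)) z := by
    have b1 : ContDiff ℝ ∞ (fun w : Cn n => 2 * (inner ℂ w b).re) := by
      have := LevLog_re 0 b
      simp only [sub_zero] at this
      exact contDiff_const.mul this
    have b2 : ContDiff ℝ ∞ (fun w : Cn n => τ + ‖w‖ ^ 2) :=
      contDiff_const.add (contDiff_norm_sq ℂ)
    exact (b1.div b2 (fun x => (LevLog_pos hτ x).ne')).differentiable (by simp) z
  rw [← hd.lineDeriv_eq_fderiv]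
  unfold lineDeriv
  have h1 : (fun t : ℝ => 2 * (inner ℂ (z + t • a) b).re / (τ + ‖z + t • a‖ ^ 2)) =
      fun t : ℝ => 2 * ((inner ℂ z b).re + t * (inner ℂ a b).re) /
      (τ + (‖z‖ ^ 2 + 2 * t * (inner ℂ z a).re + t ^ 2 * ‖a‖ ^ 2)) := by
    funext t
    have h2 := LevLog_norm_line 0 z a t
    simp only [sub_zero] at h2
    have h3 : z + t • a = z + (t : ℂ) • a := by rw [← Complex.coe_smul]
    rw [h2, h3, inner_add_left, inner_smul_left, Complex.add_re, Complex.conj_ofReal,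
      Complex.re_ofReal_mul]
  rw [h1]
  have h2 : HasDerivAt (fun t : ℝ => τ + (‖z‖ ^ 2 + 2 * t * (inner ℂ z a).re +
      t ^ 2 * ‖a‖ ^ 2)) (2 * (inner ℂ z a).re) 0 := by
    have a1 : HasDerivAt (fun t : ℝ => 2 * t * (inner ℂ z a).re)
        (2 * (inner ℂ z a).re) 0 := by
      have := ((hasDerivAt_id (0 : ℝ)).const_mul 2).mul_const ((inner ℂ z a).re)
      simpa using this
    have a2 : HasDerivAt (fun t : ℝ => t ^ 2 * ‖a‖ ^ 2) 0 0 := by
      have := (hasDerivAt_pow 2 (0 : ℝ)).mul_const (‖a‖ ^ 2)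
      simpa using this
    have a3 := ((a1.const_add (‖z‖ ^ 2)).add a2).const_add τ
    simpa using a3
  have h3 : HasDerivAt (fun t : ℝ => 2 * ((inner ℂ z b).re + t * (inner ℂ a b).re))
      (2 * (inner ℂ a b).re) 0 := by
    have a1 := (((hasDerivAt_id (0 : ℝ)).mul_const ((inner ℂ a b).re)).const_add
      ((inner ℂ z b).re)).const_mul 2
    simpa using a1
  have h4 := h3.div h2 (by simpa using hT.ne')
  refine h4.deriv.trans ?_
  simp only [mul_zero, zero_mul, add_zero, ne_eq, OfNat.ofNat_ne_zero, not_false_eq_true, zero_pow]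
  congr 1
  ring

theorem hFun1_LM {n : ℕ} {τ : ℝ} (hτ : 0 < τ) (z : Cn n) :
    LM (fun z : Cn n => Real.log (τ + ‖z‖ ^ 2)) z =
      (((τ + ‖z‖ ^ 2)⁻¹ : ℝ) : ℂ) • ((1 : Matrix (Fin n) (Fin n) ℂ) +
        Matrix.replicateCol Unit (fun j => -(((τ + ‖z‖ ^ 2)⁻¹ : ℝ) : ℂ) *
          (starRingEnd ℂ) (z j)) * Matrix.replicateRow Unit (fun k => z k)) := by
  have hT : 0 < τ + ‖z‖ ^ 2 := LevLog_pos hτ z
  ext j k
  have e1 : ∀ k, inner ℂ z (bv n k) = (starRingEnd ℂ) (z k) := by
    intro k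
    unfold bv
    rw [EuclideanSpace.inner_single_right, one_mul]
  have e2 : ∀ k, inner ℂ z (Complex.I • bv n k) = Complex.I * (starRingEnd ℂ) (z k) := by
    intro k
    rw [inner_smul_right, e1]
  have e3 : ∀ j k, inner ℂ (bv n j) (bv n k) = if j = k then (1 : ℂ) else 0 := by
    intro j k
    unfold bv
    rw [EuclideanSpace.inner_single_right, one_mul]
    by_cases h : j = k
    · subst h
      simp
    · simp [h, Ne.symm h]
  simp only [LM, Matrix.smul_apply, Matrix.add_apply, Matrix.mul_apply, Finset.univ_unique,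
    Finset.sum_singleton, Matrix.replicateCol_apply, Matrix.replicateRow_apply, Matrix.one_apply,
    smul_eq_mul]
  set T : ℝ := τ + ‖z‖ ^ 2 with hTdef
  have e4 : (inner ℂ (bv n j) (bv n k)).re = if j = k then (1 : ℝ) else 0 := by
    rw [e3]
    split_ifs <;> simp
  have e5 : (inner ℂ (Complex.I • bv n j) (Complex.I • bv n k)).re =
      if j = k then (1 : ℝ) else 0 := by
    rw [inner_smul_left, inner_smul_right, e3]
    split_ifs <;> simp
  have e6 : (inner ℂ (bv n j) (Complex.I • bv n k)).re = 0 := by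
    rw [inner_smul_right, e3]
    split_ifs <;> simp
  have e7 : (inner ℂ (Complex.I • bv n j) (bv n k)).re = 0 := by
    rw [inner_smul_left, e3]
    split_ifs <;> simp
  have e8 : ∀ k, (inner ℂ z (bv n k)).re = (z k).re := by
    intro k
    rw [e1, Complex.conj_re]
  have e9 : ∀ k, (inner ℂ z (Complex.I • bv n k)).re = (z k).im := by
    intro k
    rw [e2]
    simp
  have hP : hes (fun z : Cn n => Real.log (τ + ‖z‖ ^ 2)) z (bv n j) (bv n k) +
      hes (fun z : Cn n => Real.log (τ + ‖z‖ ^ 2)) z (Complex.I • bv n j) (Complex.I • bv n k) =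
      4 * (T⁻¹ * (if j = k then (1 : ℝ) else 0) -
        T⁻¹ * T⁻¹ * ((z j).re * (z k).re + (z j).im * (z k).im)) := by
    rw [hFun1_hes hτ, hFun1_hes hτ, e4, e5, e8, e8, e9, e9, ← hTdef]
    field_simp
    ring
  have hQ : hes (fun z : Cn n => Real.log (τ + ‖z‖ ^ 2)) z (bv n j) (Complex.I • bv n k) -
      hes (fun z : Cn n => Real.log (τ + ‖z‖ ^ 2)) z (Complex.I • bv n j) (bv n k) =
      4 * (T⁻¹ * T⁻¹ * ((z j).im * (z k).re - (z j).re * (z k).im)) := by
    rw [hFun1_hes hτ, hFun1_hes hτ, e6, e7, e8, e8, e9, e9, ← hTdef]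
    field_simp
    ring
  rw [hP, hQ]
  have hzj : (starRingEnd ℂ) (z j) = ((z j).re : ℂ) - Complex.I * ((z j).im : ℂ) := by
    apply Complex.ext <;> simp
  have hzk : z k = ((z k).re : ℂ) + Complex.I * ((z k).im : ℂ) := by
    apply Complex.ext <;> simp
  rw [hzj]
  generalize (z j).re = x
  generalize (z j).im = y
  generalize hx' : (z k).re = x' at *
  generalize hy' : (z k).im = y' at *
  rw [hzk]
  have hI : Complex.I * Complex.I = -1 := Complex.I_mul_I
  split_ifs
  · push_cast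
    linear_combination (-(T : ℂ)⁻¹ * (T : ℂ)⁻¹ * y * y') * hI
  · push_cast
    linear_combination (-(T : ℂ)⁻¹ * (T : ℂ)⁻¹ * y * y') * hI

theorem mad_log {n : ℕ} {τ : ℝ} (hτ : 0 < τ) (z : Cn n) :
    mad (fun z : Cn n => Real.log (τ + ‖z‖ ^ 2)) z = τ / (τ + ‖z‖ ^ 2) ^ (n + 1) := by
  have hT : 0 < τ + ‖z‖ ^ 2 := LevLog_pos hτ z
  unfold mad
  rw [hFun1_LM hτ, Matrix.det_smul, Fintype.card_fin,
    Matrix.det_one_add_replicateCol_mul_replicateRow]
  have h1 : (fun k => z k) ⬝ᵥ (fun j => -(((τ + ‖z‖ ^ 2)⁻¹ : ℝ) : ℂ) * (starRingEnd ℂ) (z j)) =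
      ((-((τ + ‖z‖ ^ 2)⁻¹ * ‖z‖ ^ 2) : ℝ) : ℂ) := by
    rw [EuclideanSpace.norm_sq_eq z]
    unfold dotProduct
    push_cast
    rw [Finset.mul_sum, ← Finset.sum_neg_distrib]
    refine Finset.sum_congr rfl fun j _ => ?_
    have h2 : ((‖z j‖ : ℝ) : ℂ) ^ 2 = z j * (starRingEnd ℂ) (z j) := by
      rw [Complex.mul_conj, Complex.normSq_eq_norm_sq]
      push_cast
      ring
    rw [h2]
    ring
  rw [h1, ← Complex.ofReal_pow, ← Complex.ofReal_one, ← Complex.ofReal_add, ← Complex.ofReal_mul,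
    Complex.ofReal_re]
  set T : ℝ := τ + ‖z‖ ^ 2 with hTdef
  have hz : ‖z‖ ^ 2 = T - τ := by rw [hTdef]; ring
  rw [hz, inv_pow, pow_succ]
  field_simp
  ring

theorem hFun1_finrank (n : ℕ) : Module.finrank ℝ (Cn n) = 2 * n := by
  rw [finrank_real_of_complex, finrank_euclideanSpace_fin]

theorem mass_log (n : ℕ) (hn : 1 ≤ n) : ∃ C : ℝ, 0 < C ∧ ∀ τ : ℝ, 0 < τ →
    ∫⁻ z : Cn n, ENNReal.ofReal (mad (fun z : Cn n => Real.log (τ + ‖z‖ ^ 2)) z) ≤
      ENNReal.ofReal C := by
  have hint1 : Integrable (fun z : Cn n => (1 : ℝ) / (1 + ‖z‖ ^ 2) ^ (n + 1)) := by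
    have h := integrable_rpow_neg_one_add_norm_sq (E := Cn n) (μ := volume)
      (r := 2 * (n : ℝ) + 2) (by rw [hFun1_finrank]; push_cast; linarith)
    refine h.congr (Filter.Eventually.of_forall fun z => ?_)
    have h0 : (0 : ℝ) < 1 + ‖z‖ ^ 2 := by positivity
    have h1 : -(2 * (n : ℝ) + 2) / 2 = -((n + 1 : ℕ) : ℝ) := by push_cast; ring
    simp only [h1, Real.rpow_neg h0.le, Real.rpow_natCast, one_div]
  set J : ℝ := ∫ z : Cn n, (1 : ℝ) / (1 + ‖z‖ ^ 2) ^ (n + 1) with hJ
  have hJ0 : 0 ≤ J := integral_nonneg fun z => by positivity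
  refine ⟨J + 1, by linarith, fun τ hτ => ?_⟩
  set R : ℝ := Real.sqrt τ with hR
  have hR0 : 0 < R := Real.sqrt_pos.2 hτ
  have hR2 : R ^ 2 = τ := Real.sq_sqrt hτ.le
  simp only [mad_log hτ]
  have hscale : (fun z : Cn n => τ / (τ + ‖R • z‖ ^ 2) ^ (n + 1)) =
      fun z : Cn n => (τ ^ n)⁻¹ * ((1 : ℝ) / (1 + ‖z‖ ^ 2) ^ (n + 1)) := by
    funext z
    rw [norm_smul, mul_pow, Real.norm_eq_abs, sq_abs, hR2]
    have h0 : (0 : ℝ) < 1 + ‖z‖ ^ 2 := by positivity
    have h1 : τ + τ * ‖z‖ ^ 2 = τ * (1 + ‖z‖ ^ 2) := by ring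
    rw [h1, mul_pow, pow_succ τ n]
    field_simp
  have hint : Integrable (fun z : Cn n => τ / (τ + ‖z‖ ^ 2) ^ (n + 1)) := by
    rw [← integrable_comp_smul_iff volume (fun z : Cn n => τ / (τ + ‖z‖ ^ 2) ^ (n + 1)) hR0.ne',
      hscale]
    exact hint1.const_mul _
  have hval : ∫ z : Cn n, τ / (τ + ‖z‖ ^ 2) ^ (n + 1) = J := by
    have h := Measure.integral_comp_smul (volume : Measure (Cn n))
      (fun z : Cn n => τ / (τ + ‖z‖ ^ 2) ^ (n + 1)) R
    rw [hscale, integral_const_mul, hFun1_finrank, pow_mul, hR2, smul_eq_mul,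
      abs_of_pos (by positivity : (0 : ℝ) < (τ ^ n)⁻¹)] at h
    have h2 : (τ ^ n)⁻¹ ≠ 0 := by positivity
    exact (mul_left_cancel₀ h2 h).symm
  rw [← ofReal_integral_eq_lintegral_ofReal hint (Filter.Eventually.of_forall fun z => by
    have := LevLog_pos hτ z
    positivity), hval]
  exact ENNReal.ofReal_le_ofReal (by linarith)

end HMA

end S_KM_HFun1
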