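import Mathlib
import Pool.Agent.H85.MG.G1a
import Pool.Agent.H85.MG.G2a
import Pool.Agent.H85.MG.G2c

/-! Moderate measures and Hölder continuous potentials, part G3b: this file joins several modules to save build time. -/

section S_MA_Berg

/-! # Module BERG: orthonormal basis of the entire `L²` functions -/

open MeasureTheory Metric Set
open scoped ENNReal Topology ContDiff

namespace HMA

theorem Berg_ev_add {n : ℕ} (P Q : MvPolynomial (Fin n) ℂ) (z : Cn n) :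
    ev (P + Q) z = ev P z + ev Q z := map_add _ _ _

theorem Berg_ev_smul {n : ℕ} (c : ℂ) (P : MvPolynomial (Fin n) ℂ) (z : Cn n) :
    ev (c • P) z = c * ev P z := MvPolynomial.smul_eval _ _ _

theorem Berg_ev_sum {n : ℕ} {ι : Type} (s : Finset ι) (P : ι → MvPolynomial (Fin n) ℂ) (z : Cn n) :
    ev (∑ i ∈ s, P i) z = ∑ i ∈ s, ev (P i) z := map_sum _ _ _

theorem Berg_ev_cont {n : ℕ} (P : MvPolynomial (Fin n) ℂ) : Continuous (fun z : Cn n => ev P z) := by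
  unfold ev
  exact (MvPolynomial.continuous_eval P).comp (continuous_pi fun i => by fun_prop)

/-- the square integrable polynomials -/
def Berg_E (n M : ℕ) (w : Cn n → ℝ) (hwc : Continuous w) (hw0 : ∀ z, 0 < w z) :
    Submodule ℂ (MvPolynomial (Fin n) ℂ) where
  carrier := {P | P.totalDegree ≤ M ∧ Integrable (fun z : Cn n => ‖ev P z‖ ^ 2 * w z) volume}
  add_mem' := by
    rintro P Q ⟨hP, hP'⟩ ⟨hQ, hQ'⟩
    refine ⟨(MvPolynomial.totalDegree_add _ _).trans (max_le hP hQ), ?_⟩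
    refine Integrable.mono' ((hP'.const_mul 2).add (hQ'.const_mul 2)) ?_ ?_
    · exact (((Berg_ev_cont (P + Q)).norm.pow 2).mul hwc).aestronglyMeasurable
    · refine Filter.Eventually.of_forall fun z => ?_
      have h1 : 0 ≤ ‖ev (P + Q) z‖ ^ 2 * w z := mul_nonneg (sq_nonneg _) (hw0 z).le
      rw [Real.norm_of_nonneg h1]
      have h2 : ‖ev (P + Q) z‖ ≤ ‖ev P z‖ + ‖ev Q z‖ := by
        rw [Berg_ev_add]
        exact norm_add_le _ _
      have h3 : ‖ev (P + Q) z‖ ^ 2 ≤ 2 * ‖ev P z‖ ^ 2 + 2 * ‖ev Q z‖ ^ 2 := by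
        have h4 : ‖ev (P + Q) z‖ ^ 2 ≤ (‖ev P z‖ + ‖ev Q z‖) ^ 2 := by gcongr
        nlinarith [sq_nonneg (‖ev P z‖ - ‖ev Q z‖)]
      have h5 := mul_le_mul_of_nonneg_right h3 (hw0 z).le
      show ‖ev (P + Q) z‖ ^ 2 * w z ≤ 2 * (‖ev P z‖ ^ 2 * w z) + 2 * (‖ev Q z‖ ^ 2 * w z)
      linarith
  zero_mem' := by
    refine ⟨by simp, ?_⟩
    have : (fun z : Cn n => ‖ev (0 : MvPolynomial (Fin n) ℂ) z‖ ^ 2 * w z) = fun _ => 0 := by
      funext z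
      unfold ev
      simp
    rw [this]
    exact integrable_zero _ _ _
  smul_mem' := by
    rintro c P ⟨hP, hP'⟩
    refine ⟨(MvPolynomial.totalDegree_smul_le _ _).trans hP, ?_⟩
    have : (fun z : Cn n => ‖ev (c • P) z‖ ^ 2 * w z) =
        fun z => ‖c‖ ^ 2 * (‖ev P z‖ ^ 2 * w z) := by
      funext z
      rw [Berg_ev_smul, norm_mul]
      ring
    rw [this]
    exact hP'.const_mul _

theorem Berg_int_mul {n M : ℕ} {w : Cn n → ℝ} (hwc : Continuous w) (hw0 : ∀ z, 0 < w z)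
    (P Q : Berg_E n M w hwc hw0) :
    Integrable (fun z : Cn n => (starRingEnd ℂ) (ev P.1 z) * ev Q.1 z * (w z : ℂ)) volume := by
  refine Integrable.mono' (P.2.2.add Q.2.2) ?_ ?_
  · exact (((Complex.continuous_conj.comp (Berg_ev_cont P.1)).mul (Berg_ev_cont Q.1)).mul
      (Complex.continuous_ofReal.comp hwc)).aestronglyMeasurable
  · refine Filter.Eventually.of_forall fun z => ?_
    rw [norm_mul, norm_mul, Complex.norm_conj, Complex.norm_real, Real.norm_of_nonneg (hw0 z).le]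
    show _ ≤ ‖ev P.1 z‖ ^ 2 * w z + ‖ev Q.1 z‖ ^ 2 * w z
    rw [← add_mul]
    refine mul_le_mul_of_nonneg_right ?_ (hw0 z).le
    nlinarith [sq_nonneg (‖ev P.1 z‖ - ‖ev Q.1 z‖), sq_nonneg (‖ev P.1 z‖ + ‖ev Q.1 z‖)]

/-- the inner product -/
noncomputable def Berg_in {n M : ℕ} {w : Cn n → ℝ} {hwc : Continuous w} {hw0 : ∀ z, 0 < w z}
    (P Q : Berg_E n M w hwc hw0) : ℂ :=
  ∫ z : Cn n, (starRingEnd ℂ) (ev P.1 z) * ev Q.1 z * (w z : ℂ)

theorem Berg_in_self {n M : ℕ} {w : Cn n → ℝ} {hwc : Continuous w} {hw0 : ∀ z, 0 < w z}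
    (P : Berg_E n M w hwc hw0) :
    Berg_in P P = ((∫ z : Cn n, ‖ev P.1 z‖ ^ 2 * w z : ℝ) : ℂ) := by
  unfold Berg_in
  rw [← integral_complex_ofReal]
  congr 1
  funext z
  rw [Complex.conj_mul']
  push_cast
  ring

theorem Berg_definite {n M : ℕ} {w : Cn n → ℝ} {hwc : Continuous w} {hw0 : ∀ z, 0 < w z}
    (P : Berg_E n M w hwc hw0) (h : Berg_in P P = 0) : P = 0 := by
  rw [Berg_in_self] at h
  have h1 : ∫ z : Cn n, ‖ev P.1 z‖ ^ 2 * w z = 0 := by exact_mod_cast h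
  rw [integral_eq_zero_iff_of_nonneg (fun z => mul_nonneg (sq_nonneg _) (hw0 z).le) P.2.2] at h1
  have h2 := (Continuous.ae_eq_iff_eq volume (((Berg_ev_cont P.1).norm.pow 2).mul hwc)
    continuous_const).mp h1
  refine Subtype.ext ?_
  refine MvPolynomial.funext fun x => ?_
  have h3 := congrFun h2 (WithLp.toLp 2 x)
  have h4 : ‖ev P.1 (WithLp.toLp 2 x)‖ ^ 2 = 0 := by
    rcases mul_eq_zero.mp h3 with h | h
    · exact h
    · exact absurd h (hw0 _).ne'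
  have h5 : ev P.1 (WithLp.toLp 2 x) = 0 := by simpa using h4
  have h6 : ev P.1 (WithLp.toLp 2 x) = MvPolynomial.eval x P.1 := rfl
  rw [← h6, h5]
  simp

/-- the inner product structure -/
@[instance_reducible]
noncomputable def Berg_core (n M : ℕ) (w : Cn n → ℝ) (hwc : Continuous w) (hw0 : ∀ z, 0 < w z) :
    InnerProductSpace.Core ℂ (Berg_E n M w hwc hw0) where
  inner := Berg_in
  conj_inner_symm := by
    intro x y
    show (starRingEnd ℂ) (Berg_in y x) = Berg_in x y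
    unfold Berg_in
    rw [← integral_conj]
    congr 1
    funext z
    simp only [map_mul, Complex.conj_conj, Complex.conj_ofReal]
    ring
  re_inner_nonneg := by
    intro x
    show 0 ≤ RCLike.re (Berg_in x x)
    rw [Berg_in_self]
    have h1 : 0 ≤ ∫ z : Cn n, ‖ev x.1 z‖ ^ 2 * w z :=
      integral_nonneg fun z => mul_nonneg (sq_nonneg _) (hw0 z).le
    have h2 : RCLike.re ((∫ z : Cn n, ‖ev x.1 z‖ ^ 2 * w z : ℝ) : ℂ) =
      ∫ z : Cn n, ‖ev x.1 z‖ ^ 2 * w z := Complex.ofReal_re _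
    rw [h2]
    exact h1
  add_left := by
    intro x y z
    show Berg_in (x + y) z = Berg_in x z + Berg_in y z
    unfold Berg_in
    rw [← integral_add (Berg_int_mul hwc hw0 x z) (Berg_int_mul hwc hw0 y z)]
    congr 1
    funext t
    have : ev (x + y : Berg_E n M w hwc hw0).1 t = ev x.1 t + ev y.1 t := Berg_ev_add _ _ _
    rw [this, map_add]
    ring
  smul_left := by
    intro x y r
    show Berg_in (r • x) y = (starRingEnd ℂ) r * Berg_in x y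
    unfold Berg_in
    rw [← integral_const_mul]
    congr 1
    funext t
    have : ev (r • x : Berg_E n M w hwc hw0).1 t = r * ev x.1 t := Berg_ev_smul _ _ _
    rw [this, map_mul]
    ring
  definite := fun x h => Berg_definite x h

/-- the coefficients -/
noncomputable def Berg_coef (n M : ℕ) (w : Cn n → ℝ) (hwc : Continuous w) (hw0 : ∀ z, 0 < w z) :
    Berg_E n M w hwc hw0 →ₗ[ℂ] ((Fin n → Fin (M + 1)) → ℂ) where
  toFun P := fun α => MvPolynomial.coeff (Finsupp.equivFunOnFinite.symm fun i => (α i : ℕ)) P.1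
  map_add' := by
    intro x y
    funext α
    exact MvPolynomial.coeff_add _ _ _
  map_smul' := by
    intro c x
    funext α
    exact MvPolynomial.coeff_smul _ _ _

theorem Berg_coef_inj (n M : ℕ) (w : Cn n → ℝ) (hwc : Continuous w) (hw0 : ∀ z, 0 < w z) :
    Function.Injective (Berg_coef n M w hwc hw0) := by
  rw [← LinearMap.ker_eq_bot, LinearMap.ker_eq_bot']
  intro P hP
  refine Subtype.ext ?_
  refine MvPolynomial.ext _ _ fun m => ?_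
  rw [ZeroMemClass.coe_zero, MvPolynomial.coeff_zero]
  by_contra hne
  have h1 : m ∈ P.1.support := MvPolynomial.mem_support_iff.mpr hne
  have h2 := (MvPolynomial.le_totalDegree h1).trans P.2.1
  have h3 : ∀ i, m i < M + 1 := by
    intro i
    have h4 : m i ≤ m.sum fun _ e => e := by
      rw [Finsupp.sum_fintype _ _ (fun _ => rfl)]
      exact Finset.single_le_sum (fun _ _ => Nat.zero_le _) (Finset.mem_univ i)
    omega
  have h5 := congrFun hP (fun i => ⟨m i, h3 i⟩)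
  apply hne
  have h6 : (Finsupp.equivFunOnFinite.symm fun i => m i) = m := by
    ext i
    rfl
  have h7 : Berg_coef n M w hwc hw0 P (fun i => ⟨m i, h3 i⟩) =
      MvPolynomial.coeff (Finsupp.equivFunOnFinite.symm fun i => m i) P.1 := rfl
  rw [h7, h6] at h5
  exact h5

theorem bergman {n M : ℕ} {w : Cn n → ℝ} (hwc : Continuous w) (hw0 : ∀ z, 0 < w z)
    (hwM : ∃ c : ℝ, 0 < c ∧ ∀ z, c * ((1 + ‖z‖ ^ 2) ^ M)⁻¹ ≤ w z) :
    ∃ (N : ℕ) (P : Fin N → MvPolynomial (Fin n) ℂ), N ≤ (M + 1) ^ n ∧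
      (∀ j, (P j).totalDegree ≤ M) ∧
      (∀ j, Integrable (fun z : Cn n => ‖ev (P j) z‖ ^ 2 * w z) volume ∧
        ∫ z : Cn n, ‖ev (P j) z‖ ^ 2 * w z = 1) ∧
      ∀ f : Cn n → ℂ, Differentiable ℂ f → Integrable (fun z => ‖f z‖ ^ 2 * w z) volume →
        ∀ z, ‖f z‖ ^ 2 ≤ (∫ x, ‖f x‖ ^ 2 * w x) * ∑ j, ‖ev (P j) z‖ ^ 2 := by
  have hfin : FiniteDimensional ℂ (Berg_E n M w hwc hw0) :=
    FiniteDimensional.of_injective _ (Berg_coef_inj n M w hwc hw0)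
  let core := Berg_core n M w hwc hw0
  let _ : NormedAddCommGroup (Berg_E n M w hwc hw0) := core.toNormedAddCommGroup
  let _ : InnerProductSpace ℂ (Berg_E n M w hwc hw0) := InnerProductSpace.ofCore core.toCore
  set b := stdOrthonormalBasis ℂ (Berg_E n M w hwc hw0) with hb
  have hinner : ∀ x y : Berg_E n M w hwc hw0, inner ℂ x y = Berg_in x y := fun _ _ => rfl
  have hnorm : ∀ x : Berg_E n M w hwc hw0, ‖x‖ ^ 2 = ∫ z : Cn n, ‖ev x.1 z‖ ^ 2 * w z := by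
    intro x
    have h1 : (inner ℂ x x : ℂ) = ((‖x‖ ^ 2 : ℝ) : ℂ) := by
      rw [inner_self_eq_norm_sq_to_K]
      push_cast
      rfl
    rw [hinner, Berg_in_self] at h1
    exact_mod_cast h1.symm
  refine ⟨Module.finrank ℂ (Berg_E n M w hwc hw0), fun j => (b j).1, ?_, ?_, ?_, ?_⟩
  · refine (LinearMap.finrank_le_finrank_of_injective (Berg_coef_inj n M w hwc hw0)).trans ?_
    rw [Module.finrank_fintype_fun_eq_card]
    simp
  · exact fun j => (b j).2.1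
  · intro j
    refine ⟨(b j).2.2, ?_⟩
    rw [← hnorm, b.orthonormal.1 j]
    norm_num
  · intro f hf hfi z
    obtain ⟨c, hc, hcw⟩ := hwM
    obtain ⟨P, hPM, hPf⟩ := entire_poly (M := M) hf (by
      refine Integrable.mono' (hfi.const_mul c⁻¹) ?_ ?_
      · refine ((hf.continuous.norm.pow 2).mul ?_).aestronglyMeasurable
        refine Continuous.inv₀ (by fun_prop) (fun z => ?_)
        positivity
      · refine Filter.Eventually.of_forall fun z => ?_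
        have h1 : 0 ≤ ‖f z‖ ^ 2 * ((1 + ‖z‖ ^ 2) ^ M)⁻¹ := by positivity
        rw [Real.norm_of_nonneg h1]
        have h2 : ((1 + ‖z‖ ^ 2) ^ M)⁻¹ ≤ c⁻¹ * w z := by
          rw [← mul_le_mul_iff_right₀ hc, mul_inv_cancel_left₀ hc.ne']
          exact hcw z
        calc ‖f z‖ ^ 2 * ((1 + ‖z‖ ^ 2) ^ M)⁻¹ ≤ ‖f z‖ ^ 2 * (c⁻¹ * w z) := by gcongr
          _ = c⁻¹ * (‖f z‖ ^ 2 * w z) := by ring)
    have hev : f = fun z => ev P z := funext hPf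
    subst hev
    set x : Berg_E n M w hwc hw0 := ⟨P, hPM, hfi⟩ with hx
    have h1 := b.sum_repr' x
    have h2 : ev P z = ∑ j, inner ℂ (b j) x * ev (b j).1 z := by
      have h3 : P = ∑ j, inner ℂ (b j) x • (b j).1 := by
        have h4 : (∑ j, inner ℂ (b j) x • b j : Berg_E n M w hwc hw0).1 = P :=
          congrArg Subtype.val h1
        conv_lhs => rw [← h4]
        rw [AddSubmonoidClass.coe_finsetSum]
        rfl
      conv_lhs => rw [h3]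
      rw [Berg_ev_sum]
      exact Finset.sum_congr rfl fun j _ => Berg_ev_smul _ _ _
    have h5 : ‖x‖ ^ 2 = ∫ z : Cn n, ‖ev P z‖ ^ 2 * w z := hnorm x
    have h6 := b.sum_sq_norm_inner_right x
    have h7 : ‖ev P z‖ ≤ ∑ j, ‖inner ℂ (b j) x‖ * ‖ev (b j).1 z‖ := by
      rw [h2]
      refine (norm_sum_le _ _).trans (le_of_eq ?_)
      exact Finset.sum_congr rfl fun j _ => norm_mul _ _
    have h8 := Finset.sum_mul_sq_le_sq_mul_sq Finset.univ (fun j => ‖inner ℂ (b j) x‖)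
      (fun j => ‖ev (b j).1 z‖)
    calc ‖ev P z‖ ^ 2 ≤ (∑ j, ‖inner ℂ (b j) x‖ * ‖ev (b j).1 z‖) ^ 2 := by gcongr
      _ ≤ (∑ j, ‖inner ℂ (b j) x‖ ^ 2) * ∑ j, ‖ev (b j).1 z‖ ^ 2 := h8
      _ = (∫ x : Cn n, ‖ev P x‖ ^ 2 * w x) * ∑ j, ‖ev (b j).1 z‖ ^ 2 := by rw [h6, h5]

end HMA

end S_MA_Berg

section S_MA_Slab1

/-! # Module SLAB1: embedded polydiscs adapted to a function with nonzero derivative -/

open MeasureTheory Metric Set
open scoped ENNReal Topology ContDiff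

namespace HMA

/-- Cauchy estimate for the second difference -/
theorem Slab1_cauchy {E : Type*} [NormedAddCommGroup E] [NormedSpace ℂ E] {g : E → ℂ} {z₀ : E}
    {s : ℝ} (hs : 0 < s) (hg : DifferentiableOn ℂ g (ball z₀ s))
    (hb : ∀ z ∈ ball z₀ s, ‖g z‖ ≤ s⁻¹) {z : E} (hz : ‖z - z₀‖ < s / 2) :
    ‖fderiv ℂ g z - fderiv ℂ g z₀‖ ≤ 16 * ‖z - z₀‖ / s ^ 3 := by
  have hs2 : 0 < s / 2 := by positivity
  set v := z - z₀ with hv
  have hsub : ∀ w ∈ ball z₀ (s / 2), ball w (s / 2) ⊆ ball z₀ s := by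
    intro w hw
    refine ball_subset_ball' ?_
    rw [mem_ball] at hw
    linarith
  have hdiff : ∀ x y : E, x ∈ ball z₀ s → y ∈ ball z₀ s → g x ∈ closedBall (g y) (2 * s⁻¹) := by
    intro x y hx hy
    rw [mem_closedBall, dist_eq_norm]
    refine (norm_sub_le _ _).trans ?_
    have := hb x hx
    have := hb y hy
    linarith
  have hwv : ∀ w ∈ ball z₀ (s / 2), w + v ∈ ball w (s / 2) := by
    intro w hw
    rw [mem_ball, dist_eq_norm]
    simpa using hz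
  have h1 : ∀ w ∈ ball z₀ (s / 2), ‖g (w + v) - g w‖ ≤ 4 * ‖v‖ / s ^ 2 := by
    intro w hw
    have h := Complex.dist_le_div_mul_dist_of_mapsTo_ball (f := g) (c := w) (z := w + v)
      (R₁ := s / 2) (R₂ := 2 * s⁻¹) (hg.mono (hsub w hw))
      (fun x hx => hdiff x w (hsub w hw hx) (hsub w hw (mem_ball_self hs2))) (hwv w hw)
    rw [dist_eq_norm, dist_eq_norm, add_sub_cancel_left] at h
    refine h.trans (le_of_eq ?_)
    field_simp
    ring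
  have hz₀ : z₀ ∈ ball z₀ (s / 2) := mem_ball_self hs2
  have hz' : z ∈ ball z₀ s := by
    rw [mem_ball, dist_eq_norm]
    have : ‖z - z₀‖ < s / 2 := hz
    linarith
  have hdG : DifferentiableOn ℂ (fun w => g (w + v) - g w) (ball z₀ (s / 2)) := by
    refine DifferentiableOn.sub ?_ (hg.mono (ball_subset_ball (by linarith)))
    refine hg.comp ((differentiable_id.add_const v).differentiableOn) fun w hw => ?_
    exact hsub w hw (hwv w hw)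
  have h2 := Complex.norm_fderiv_le_div_of_mapsTo_ball (f := fun w => g (w + v) - g w) (c := z₀)
    (R₁ := s / 2) (R₂ := 8 * ‖v‖ / s ^ 2) hdG (fun w hw => by
      rw [mem_closedBall, dist_eq_norm]
      refine (norm_sub_le _ _).trans ?_
      have e1 := h1 w hw
      have e2 := h1 z₀ hz₀
      have e3 : 8 * ‖v‖ / s ^ 2 = 4 * ‖v‖ / s ^ 2 + 4 * ‖v‖ / s ^ 2 := by ring
      rw [e3]
      exact add_le_add e1 e2) hs2
  have hgz : DifferentiableAt ℂ g z := hg.differentiableAt (isOpen_ball.mem_nhds hz')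
  have hgz₀ : DifferentiableAt ℂ g z₀ :=
    hg.differentiableAt (isOpen_ball.mem_nhds (mem_ball_self hs))
  have hzv : z₀ + v = z := by rw [hv]; abel
  have h3 : fderiv ℂ (fun w => g (w + v) - g w) z₀ = fderiv ℂ g z - fderiv ℂ g z₀ := by
    have hc : DifferentiableAt ℂ (fun w => g (w + v)) z₀ := by
      have h4 : DifferentiableAt ℂ g (z₀ + v) := by rwa [hzv]
      exact h4.comp z₀ (differentiableAt_id.add_const v)
    rw [fderiv_fun_sub hc hgz₀, fderiv_comp_add_right, hzv]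
  rw [h3] at h2
  refine h2.trans (le_of_eq ?_)
  field_simp
  ring

/-- rank one perturbations of the identity -/
noncomputable def Slab1_eq {E : Type*} [NormedAddCommGroup E] [NormedSpace ℂ E] (ψ : E →L[ℂ] ℂ)
    (e : E) (h : 1 + ψ e ≠ 0) : E ≃L[ℂ] E :=
  ContinuousLinearEquiv.equivOfInverse (ContinuousLinearMap.id ℂ E + ψ.smulRight e)
    (ContinuousLinearMap.id ℂ E - ((1 + ψ e)⁻¹ • ψ).smulRight e)
    (by
      intro w
      change (w + ψ w • e) - ((1 + ψ e)⁻¹ * ψ (w + ψ w • e)) • e = w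
      rw [map_add, map_smul, smul_eq_mul]
      have h1 : (1 + ψ e)⁻¹ * (ψ w + ψ w * ψ e) = ψ w := by
        field_simp
      rw [h1]
      abel)
    (by
      intro w
      change (w - ((1 + ψ e)⁻¹ * ψ w) • e) + ψ (w - ((1 + ψ e)⁻¹ * ψ w) • e) • e = w
      rw [map_sub, map_smul, smul_eq_mul]
      have h1 : ψ w - (1 + ψ e)⁻¹ * ψ w * ψ e = (1 + ψ e)⁻¹ * ψ w := by
        field_simp
        ring
      rw [h1]
      abel)

theorem Slab1_eq_apply {E : Type*} [NormedAddCommGroup E] [NormedSpace ℂ E] (ψ : E →L[ℂ] ℂ)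
    (e : E) (h : 1 + ψ e ≠ 0) (x : E) : Slab1_eq ψ e h x = x + ψ x • e := rfl

theorem Slab1_eq_coe {E : Type*} [NormedAddCommGroup E] [NormedSpace ℂ E] (ψ : E →L[ℂ] ℂ)
    (e : E) (h : 1 + ψ e ≠ 0) : (Slab1_eq ψ e h : E →L[ℂ] E) =
      ContinuousLinearMap.id ℂ E + ψ.smulRight e := rfl

theorem Slab1_eq_symm_norm {E : Type*} [NormedAddCommGroup E] [NormedSpace ℂ E] (ψ : E →L[ℂ] ℂ)
    (e : E) (h : 1 + ψ e ≠ 0) (h0 : ψ e = 0) (he : ‖e‖ ≤ 1) :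
    ‖((Slab1_eq ψ e h).symm : E →L[ℂ] E)‖ ≤ 1 + ‖ψ‖ := by
  refine ContinuousLinearMap.opNorm_le_bound _ (by positivity) fun x => ?_
  have h1 : ((Slab1_eq ψ e h).symm : E →L[ℂ] E) x = x - ψ x • e := by
    change x - ((1 + ψ e)⁻¹ • ψ) x • e = _
    rw [h0]
    simp
  rw [h1]
  refine (norm_sub_le _ _).trans ?_
  rw [norm_smul, add_mul, one_mul]
  refine add_le_add le_rfl ?_
  calc ‖ψ x‖ * ‖e‖ ≤ ‖ψ x‖ * 1 := mul_le_mul_of_nonneg_left he (norm_nonneg _)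
    _ ≤ ‖ψ‖ * ‖x‖ := by rw [mul_one]; exact ψ.le_opNorm x

theorem Slab1_expand {n : ℕ} (x : Cn n) : x = ∑ i, (x i) • bv n i := by
  ext j
  simp only [bv, WithLp.ofLp_sum, Finset.sum_apply, WithLp.ofLp_smul, Pi.smul_apply, smul_eq_mul]
  simp

theorem Slab1_norm_le_sum {n : ℕ} (x : Cn n) : ‖x‖ ≤ ∑ i, ‖x i‖ := by
  have hx := Slab1_expand x
  calc ‖x‖ = ‖∑ i, (x i) • bv n i‖ := by rw [← hx]
    _ ≤ ∑ i, ‖(x i) • bv n i‖ := norm_sum_le _ _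
    _ = ∑ i, ‖x i‖ := by
      refine Finset.sum_congr rfl fun i _ => ?_
      rw [norm_smul]
      simp [bv]

theorem Slab1_coord_le {n : ℕ} (x : Cn n) (i : Fin n) : ‖x i‖ ≤ ‖x‖ := PiLp.norm_apply_le x i

/-- quantitative inverse function theorem: the slab `|g z - g z₀| ≤ s^M` in the ball of radius `s^8`
is in the image of a small polydisc under an embedding of the unit polydisc -/
theorem slab_embed (n : ℕ) (hn : 1 ≤ n) : ∃ s₀ : ℝ, 0 < s₀ ∧ s₀ ≤ 1 / 4 ∧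
    ∀ (z₀ : Cn n) (g : Cn n → ℂ) (s : ℝ), ‖z₀‖ ≤ 1 → 0 < s → s ≤ s₀ →
      DifferentiableOn ℂ g (ball z₀ s) → (∀ z ∈ ball z₀ s, ‖g z‖ ≤ s⁻¹) →
      s ≤ ‖fderiv ℂ g z₀‖ →
      ∃ (Φ : Cn n → Cn n) (i₀ : Fin n), DifferentiableOn ℂ Φ (pdisc n) ∧ InjOn Φ (pdisc n) ∧
        (∀ ζ ∈ pdisc n, Function.Injective (fderiv ℂ Φ ζ)) ∧
        MapsTo Φ (pdisc n) (ball 0 2) ∧
        ∀ M : ℕ, 8 ≤ M → {z | ‖z - z₀‖ ≤ s ^ 8 ∧ ‖g z - g z₀‖ ≤ s ^ M} ⊆
          Φ '' {ζ | (∀ i, i ≠ i₀ → ‖ζ i‖ ≤ s) ∧ ‖ζ i₀‖ ≤ s ^ (M - 7)} := by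
  have hn1 : (1 : ℝ) ≤ n := by exact_mod_cast hn
  obtain ⟨K, hK⟩ : ∃ K : ℝ, K = (n : ℝ) + 2 := ⟨_, rfl⟩
  have hK3 : 3 ≤ K := by linarith
  have hK0 : 0 < K := by linarith
  have hK2 : 9 ≤ K ^ 2 := by nlinarith
  have hK24 : K ^ 2 ≤ K ^ 4 := pow_le_pow_right₀ (by linarith) (by norm_num)
  have hK14 : K ≤ K ^ 4 := le_self_pow₀ (by linarith) (by norm_num)
  refine ⟨1 / (240 * K ^ 4), by positivity, ?_, ?_⟩
  · rw [div_le_div_iff₀ (by positivity) (by norm_num)]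
    linarith
  intro z₀ g s hz₀ hs hss hg hb hds
  have hs1 : s * (240 * K ^ 4) ≤ 1 := by rwa [le_div_iff₀ (by positivity)] at hss
  have hs2 : s ≤ 1 := by
    have : s * 1 ≤ s * (240 * K ^ 4) := mul_le_mul_of_nonneg_left (by linarith) hs.le
    linarith
  have hs4 : s ^ 4 ≤ s := by
    have := pow_le_pow_of_le_one hs.le hs2 (show 1 ≤ 4 by norm_num)
    simpa using this
  have hs4p : 0 < s ^ 4 := by positivity
  have hs60 : s * (60 * K ^ 2) < 1 := by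
    have : s * (60 * K ^ 2) < s * (240 * K ^ 4) := mul_lt_mul_of_pos_left (by linarith) hs
    linarith
  have hns : n * s ≤ 1 := by
    have : s * n ≤ s * (240 * K ^ 4) := mul_le_mul_of_nonneg_left (by linarith) hs.le
    linarith
  obtain ⟨δ, hδ⟩ : ∃ δ : ℝ, δ = s ^ 4 / (60 * K ^ 2) := ⟨_, rfl⟩
  have hδ0 : 0 < δ := by rw [hδ]; positivity
  have hδs : δ ≤ s / 2 := by
    rw [hδ, div_le_div_iff₀ (by positivity) (by norm_num)]
    have : s * 2 ≤ s * (60 * K ^ 2) := mul_le_mul_of_nonneg_left (by linarith) hs.le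
    linarith
  have hδ1 : δ < 1 := by linarith
  have hs8 : s ^ 8 < δ := by
    rw [hδ, lt_div_iff₀ (by positivity)]
    have h1 : s ^ 8 * (60 * K ^ 2) = s ^ 4 * (s ^ 4 * (60 * K ^ 2)) := by ring
    have h2 : s ^ 4 * (60 * K ^ 2) ≤ s * (60 * K ^ 2) :=
      mul_le_mul_of_nonneg_right hs4 (by positivity)
    have h3 : s ^ 4 * (60 * K ^ 2) < 1 := lt_of_le_of_lt h2 hs60
    rw [h1]
    nlinarith
  have hδK : n * s ^ 5 ≤ δ / (4 * K) := by
    rw [hδ, div_div, le_div_iff₀ (by positivity)]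
    have h1 : n * s ^ 5 * (60 * K ^ 2 * (4 * K)) = s ^ 4 * (s * (240 * K ^ 3 * n)) := by ring
    have h2 : s * (240 * K ^ 3 * n) ≤ s * (240 * K ^ 4) := by
      refine mul_le_mul_of_nonneg_left ?_ hs.le
      have : K ^ 3 * n ≤ K ^ 3 * K := mul_le_mul_of_nonneg_left (by linarith) (by positivity)
      nlinarith
    rw [h1]
    have h3 : s * (240 * K ^ 3 * n) ≤ 1 := h2.trans hs1
    nlinarith
  have hne : Nonempty (Fin n) := ⟨⟨0, by omega⟩⟩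
  obtain ⟨ℓ, hℓ⟩ : ∃ ℓ : Cn n →L[ℂ] ℂ, ℓ = fderiv ℂ g z₀ := ⟨_, rfl⟩
  obtain ⟨i₀, hi₀⟩ := Finite.exists_max (fun i => ‖ℓ (bv n i)‖)
  obtain ⟨a, ha⟩ : ∃ a : ℂ, a = ℓ (bv n i₀) := ⟨_, rfl⟩
  obtain ⟨e, he⟩ : ∃ e : Cn n, e = bv n i₀ := ⟨_, rfl⟩
  have hen : ‖e‖ = 1 := by rw [he]; simp [bv]
  have hee : e i₀ = 1 := by rw [he]; simp [bv]
  have hej : ∀ j, j ≠ i₀ → e j = 0 := by
    intro j hj
    rw [he]
    simp [bv, hj]
  have hℓn : ‖ℓ‖ ≤ n * ‖a‖ := by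
    refine ContinuousLinearMap.opNorm_le_bound _ (by positivity) fun x => ?_
    have h1 : ℓ x = ∑ i, x i * ℓ (bv n i) := by
      conv_lhs => rw [Slab1_expand x, map_sum]
      refine Finset.sum_congr rfl fun i _ => ?_
      rw [map_smul, smul_eq_mul]
    rw [h1]
    calc ‖∑ i, x i * ℓ (bv n i)‖ ≤ ∑ i : Fin n, ‖x i * ℓ (bv n i)‖ := norm_sum_le _ _
      _ ≤ ∑ i : Fin n, ‖x‖ * ‖a‖ := by
        refine Finset.sum_le_sum fun i _ => ?_
        rw [norm_mul, ha]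
        exact mul_le_mul (Slab1_coord_le x i) (hi₀ i) (norm_nonneg _) (norm_nonneg _)
      _ = n * ‖a‖ * ‖x‖ := by simp; ring
  have hna : s ≤ n * ‖a‖ := by
    rw [← hℓ] at hds
    exact hds.trans hℓn
  have hap : 0 < ‖a‖ := by
    by_contra h
    have : ‖a‖ = 0 := le_antisymm (not_lt.1 h) (norm_nonneg _)
    rw [this, mul_zero] at hna
    linarith
  have ha0 : a ≠ 0 := norm_pos_iff.1 hap
  have hai : ‖a⁻¹‖ ≤ n / s := by
    rw [norm_inv, inv_le_comm₀ hap (by positivity), inv_div, div_le_iff₀ (by positivity)]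
    linarith
  have hℓe : ℓ e = a := by rw [he, ha]
  obtain ⟨φ, hφ⟩ : ∃ φ : Cn n →L[ℂ] ℂ, ∀ x, φ x = a⁻¹ * ℓ x - x i₀ :=
    ⟨a⁻¹ • ℓ - EuclideanSpace.proj i₀, fun x => rfl⟩
  have hφe : φ e = 0 := by rw [hφ, hℓe, hee, inv_mul_cancel₀ ha0, sub_self]
  have hφn : ‖φ‖ ≤ n + 1 := by
    refine ContinuousLinearMap.opNorm_le_bound _ (by positivity) fun x => ?_
    rw [hφ]
    refine (norm_sub_le _ _).trans ?_
    rw [norm_mul, norm_inv]
    have h1 : ‖ℓ x‖ ≤ n * ‖a‖ * ‖x‖ :=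
      (ℓ.le_opNorm x).trans (mul_le_mul_of_nonneg_right hℓn (norm_nonneg _))
    have h2 : ‖a‖⁻¹ * ‖ℓ x‖ ≤ ‖a‖⁻¹ * (n * ‖a‖ * ‖x‖) :=
      mul_le_mul_of_nonneg_left h1 (by positivity)
    have h3 : ‖a‖⁻¹ * (n * ‖a‖ * ‖x‖) = n * ‖x‖ := by
      field_simp
    have h4 := Slab1_coord_le x i₀
    linarith
  have hA1 : 1 + φ e ≠ 0 := by rw [hφe, add_zero]; exact one_ne_zero
  obtain ⟨A, hA⟩ : ∃ A : Cn n ≃L[ℂ] Cn n, A = Slab1_eq φ e hA1 := ⟨_, rfl⟩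
  have hAs : ‖(A.symm : Cn n →L[ℂ] Cn n)‖ ≤ K := by
    rw [hA]
    refine (Slab1_eq_symm_norm φ e hA1 hφe hen.le).trans ?_
    linarith
  have hAx : ∀ x, (A : Cn n →L[ℂ] Cn n) x = x + (a⁻¹ * ℓ x - x i₀) • e := by
    intro x
    rw [hA, ← hφ]
    rfl
  obtain ⟨Ψ, hΨ⟩ : ∃ Ψ : Cn n → Cn n, ∀ z, Ψ z =
      (z - z₀) + (a⁻¹ * (g z - g z₀) - (z - z₀) i₀) • e := ⟨_, fun z => rfl⟩
  have hsubδ : ball z₀ δ ⊆ ball z₀ s := ball_subset_ball (by linarith)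
  have hgd : ∀ z ∈ ball z₀ δ, DifferentiableAt ℂ g z := fun z hz =>
    hg.differentiableAt (isOpen_ball.mem_nhds (hsubδ hz))
  have hbd : ∀ z ∈ ball z₀ δ, ‖fderiv ℂ g z - ℓ‖ ≤ 16 * δ / s ^ 3 := by
    intro z hz
    rw [mem_ball, dist_eq_norm] at hz
    rw [hℓ]
    refine (Slab1_cauchy hs hg hb (by linarith)).trans ?_
    gcongr
  have hc16 : ‖a⁻¹‖ * (16 * δ / s ^ 3) ≤ 1 / (2 * K) := by
    calc ‖a⁻¹‖ * (16 * δ / s ^ 3) ≤ n / s * (16 * δ / s ^ 3) := by gcongr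
      _ = 16 * n / (60 * K ^ 2) := by
        rw [hδ]
        field_simp
      _ ≤ 1 / (2 * K) := by
        rw [div_le_div_iff₀ (by positivity) (by positivity)]
        nlinarith
  obtain ⟨c, hc⟩ : ∃ c : NNReal, (c : ℝ) = 1 / (2 * K) := ⟨⟨1 / (2 * K), by positivity⟩, rfl⟩
  have hAL : ApproximatesLinearOn Ψ (A : Cn n →L[ℂ] Cn n) (ball z₀ δ) c := by
    intro x hx y hy
    have h1 : Ψ x - Ψ y - (A : Cn n →L[ℂ] Cn n) (x - y) =
        (a⁻¹ * (g x - g y - ℓ (x - y))) • e := by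
      rw [hΨ, hΨ, hAx]
      have e1 : (x - z₀) i₀ = x i₀ - z₀ i₀ := rfl
      have e2 : (y - z₀) i₀ = y i₀ - z₀ i₀ := rfl
      have e3 : (x - y) i₀ = x i₀ - y i₀ := rfl
      rw [e1, e2, e3]
      module
    rw [h1, norm_smul, hen, mul_one, norm_mul]
    have h2 := (convex_ball z₀ δ).norm_image_sub_le_of_norm_fderiv_le' (𝕜 := ℂ) (f := g)
      (φ := ℓ) hgd hbd hy hx
    calc ‖a⁻¹‖ * ‖g x - g y - ℓ (x - y)‖ ≤ ‖a⁻¹‖ * (16 * δ / s ^ 3 * ‖x - y‖) :=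
          mul_le_mul_of_nonneg_left h2 (norm_nonneg _)
      _ = ‖a⁻¹‖ * (16 * δ / s ^ 3) * ‖x - y‖ := by ring
      _ ≤ c * ‖x - y‖ := by
        rw [hc]
        exact mul_le_mul_of_nonneg_right hc16 (norm_nonneg _)
  have hN0 : 0 < ‖(A.symm : Cn n →L[ℂ] Cn n)‖ := by
    rw [norm_pos_iff]
    intro h0
    have h1 : (A.symm : Cn n →L[ℂ] Cn n) e = 0 := by rw [h0]; rfl
    have h2 : A.symm e = 0 := h1
    have h3 : e = 0 := (map_eq_zero_iff A.symm A.symm.injective).1 h2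
    rw [h3, norm_zero] at hen
    norm_num at hen
  have hNK : K⁻¹ ≤ ‖(A.symm : Cn n →L[ℂ] Cn n)‖⁻¹ := inv_anti₀ hN0 hAs
  have hcK : 1 / (2 * K) < K⁻¹ := by
    rw [one_div, mul_inv]
    have : 0 < K⁻¹ := by positivity
    linarith
  have hcN : Subsingleton (Cn n) ∨ c < ‖(A.symm : Cn n →L[ℂ] Cn n)‖₊⁻¹ := by
    right
    rw [← NNReal.coe_lt_coe, hc, NNReal.coe_inv, coe_nnnorm]
    exact lt_of_lt_of_le hcK hNK
  obtain ⟨T, hT⟩ : ∃ T : OpenPartialHomeomorph (Cn n) (Cn n),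
      T = hAL.toOpenPartialHomeomorph Ψ (ball z₀ δ) hcN isOpen_ball := ⟨_, rfl⟩
  have hTs : T.source = ball z₀ δ := by rw [hT]; rfl
  have hTc : ∀ x, T x = Ψ x := fun x => by rw [hT]; rfl
  have hTt : closedBall (0 : Cn n) (δ / (4 * K)) ⊆ T.target := by
    have h1 := hAL.closedBall_subset_target hcN isOpen_ball (b := z₀) (ε := δ / 2) (by positivity)
      (closedBall_subset_ball (by linarith))
    rw [← hT] at h1
    refine Subset.trans ?_ h1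
    have h2 : Ψ z₀ = 0 := by
      rw [hΨ]
      simp
    rw [h2]
    refine closedBall_subset_closedBall ?_
    rw [hc, NNReal.coe_inv, coe_nnnorm]
    have h3 : 1 / (2 * K) ≤ ‖(A.symm : Cn n →L[ℂ] Cn n)‖⁻¹ - 1 / (2 * K) := by
      have : K⁻¹ = 1 / (2 * K) + 1 / (2 * K) := by field_simp; norm_num
      linarith
    calc δ / (4 * K) = 1 / (2 * K) * (δ / 2) := by field_simp; norm_num
      _ ≤ _ := mul_le_mul_of_nonneg_right h3 (by positivity)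
  have hζ : ∀ ζ ∈ pdisc n, ((s : ℂ) ^ 5) • ζ ∈ T.target := by
    intro ζ hζ
    refine hTt ?_
    rw [mem_closedBall, dist_zero_right, norm_smul, norm_pow, Complex.norm_real,
      Real.norm_of_nonneg hs.le]
    have h1 : ‖ζ‖ ≤ n := by
      refine (Slab1_norm_le_sum ζ).trans ?_
      calc ∑ i, ‖ζ i‖ ≤ ∑ i : Fin n, (1 : ℝ) := Finset.sum_le_sum fun i _ => (hζ i).le
        _ = n := by simp
    calc s ^ 5 * ‖ζ‖ ≤ s ^ 5 * n := mul_le_mul_of_nonneg_left h1 (by positivity)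
      _ ≤ δ / (4 * K) := by linarith
  have hder : ∀ ζ ∈ pdisc n, ∃ B : Cn n ≃L[ℂ] Cn n,
      HasFDerivAt (fun ζ => T.symm (((s : ℂ) ^ 5) • ζ))
        ((B : Cn n →L[ℂ] Cn n).comp (((s : ℂ) ^ 5) • ContinuousLinearMap.id ℂ (Cn n))) ζ := by
    intro ζ hζp
    have ht := hζ ζ hζp
    have hx : T.symm (((s : ℂ) ^ 5) • ζ) ∈ ball z₀ δ := by
      rw [← hTs]
      exact T.map_target ht
    set x := T.symm (((s : ℂ) ^ 5) • ζ) with hxdef
    obtain ⟨ψ, hψ⟩ : ∃ ψ : Cn n →L[ℂ] ℂ, ψ = a⁻¹ • fderiv ℂ g x - EuclideanSpace.proj i₀ :=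
      ⟨_, rfl⟩
    have hψx : ∀ v, ψ v = a⁻¹ * fderiv ℂ g x v - v i₀ := fun v => by rw [hψ]; rfl
    have hψe : 1 + ψ e ≠ 0 := by
      rw [hψx, hee]
      have h1 : ‖a⁻¹ * (fderiv ℂ g x - ℓ) e‖ < 1 := by
        rw [norm_mul]
        have h2 : ‖(fderiv ℂ g x - ℓ) e‖ ≤ 16 * δ / s ^ 3 := by
          refine ((fderiv ℂ g x - ℓ).le_opNorm e).trans ?_
          rw [hen, mul_one]
          exact hbd x hx
        have h3 : ‖a⁻¹‖ * ‖(fderiv ℂ g x - ℓ) e‖ ≤ 1 / (2 * K) :=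
          (mul_le_mul_of_nonneg_left h2 (norm_nonneg _)).trans hc16
        have h4 : 1 / (2 * K) < 1 := by
          rw [div_lt_one (by positivity)]
          linarith
        linarith
      intro h0
      have h5 : a⁻¹ * (fderiv ℂ g x - ℓ) e = -1 := by
        have h6 : (fderiv ℂ g x - ℓ) e = fderiv ℂ g x e - a := by rw [← hℓe]; rfl
        rw [h6, mul_sub, inv_mul_cancel₀ ha0]
        linear_combination h0
      rw [h5] at h1
      simp at h1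
    have hΨd : HasFDerivAt T (Slab1_eq ψ e hψe : Cn n →L[ℂ] Cn n) x := by
      have hgx : HasFDerivAt g (fderiv ℂ g x) x := (hgd x hx).hasFDerivAt
      have h1 : HasFDerivAt (fun z : Cn n => a⁻¹ * (g z - g z₀) - (z - z₀) i₀) ψ x := by
        rw [hψ]
        have h2 : HasFDerivAt (fun z : Cn n => (z - z₀) i₀)
            (EuclideanSpace.proj i₀ : Cn n →L[ℂ] ℂ) x := by
          have h3 : HasFDerivAt (fun z : Cn n => (EuclideanSpace.proj i₀ : Cn n →L[ℂ] ℂ) (z - z₀))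
              (EuclideanSpace.proj i₀ : Cn n →L[ℂ] ℂ) x := by
            have h4 := (EuclideanSpace.proj i₀ : Cn n →L[ℂ] ℂ).hasFDerivAt.comp x
              ((hasFDerivAt_id x).sub_const z₀)
            exact h4
          exact h3
        exact ((hgx.sub_const (g z₀)).const_smul a⁻¹).sub h2
      have h5 : HasFDerivAt Ψ (ContinuousLinearMap.id ℂ (Cn n) + ψ.smulRight e) x := by
        have h6 : HasFDerivAt (fun z : Cn n => (z - z₀) +
            (a⁻¹ * (g z - g z₀) - (z - z₀) i₀) • e)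
            (ContinuousLinearMap.id ℂ (Cn n) + ψ.smulRight e) x :=
          ((hasFDerivAt_id x).sub_const z₀).add (h1.smul_const e)
        have h7 : Ψ = fun z : Cn n => (z - z₀) + (a⁻¹ * (g z - g z₀) - (z - z₀) i₀) • e :=
          funext hΨ
        rw [h7]
        exact h6
      have h8 : (T : Cn n → Cn n) = Ψ := funext hTc
      rw [h8, Slab1_eq_coe]
      exact h5
    have hsymm := T.hasFDerivAt_symm ht hΨd
    have hcomp := hsymm.comp ζ ((hasFDerivAt_id ζ).const_smul ((s : ℂ) ^ 5))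
    exact ⟨_, hcomp⟩
  refine ⟨fun ζ => T.symm (((s : ℂ) ^ 5) • ζ), i₀, ?_, ?_, ?_, ?_, ?_⟩
  · intro ζ hζp
    obtain ⟨B, hB⟩ := hder ζ hζp
    exact hB.differentiableAt.differentiableWithinAt
  · intro ζ hζ1 ζ' hζ2 h
    have h1 := T.symm.injOn (hζ ζ hζ1) (hζ ζ' hζ2) h
    have h2 : ((s : ℂ) ^ 5) ≠ 0 := pow_ne_zero _ (Complex.ofReal_ne_zero.2 hs.ne')
    exact smul_right_injective _ h2 h1
  · intro ζ hζp
    obtain ⟨B, hB⟩ := hder ζ hζp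
    rw [hB.fderiv]
    have h2 : ((s : ℂ) ^ 5) ≠ 0 := pow_ne_zero _ (Complex.ofReal_ne_zero.2 hs.ne')
    intro v w hvw
    have h3 : B (((s : ℂ) ^ 5) • v) = B (((s : ℂ) ^ 5) • w) := hvw
    exact smul_right_injective _ h2 (B.injective h3)
  · intro ζ hζp
    have hx : T.symm (((s : ℂ) ^ 5) • ζ) ∈ ball z₀ δ := by
      rw [← hTs]
      exact T.map_target (hζ ζ hζp)
    rw [mem_ball, dist_eq_norm] at hx
    rw [mem_ball, dist_zero_right]
    calc ‖T.symm (((s : ℂ) ^ 5) • ζ)‖ = ‖(T.symm (((s : ℂ) ^ 5) • ζ) - z₀) + z₀‖ := by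
          rw [sub_add_cancel]
      _ ≤ ‖T.symm (((s : ℂ) ^ 5) • ζ) - z₀‖ + ‖z₀‖ := norm_add_le _ _
      _ < 2 := by linarith
  · intro M hM z hz
    obtain ⟨hz1, hz2⟩ := hz
    have hzs : z ∈ T.source := by
      rw [hTs, mem_ball, dist_eq_norm]
      exact lt_of_le_of_lt hz1 hs8
    have hs5 : ((s : ℂ) ^ 5) ≠ 0 := pow_ne_zero _ (Complex.ofReal_ne_zero.2 hs.ne')
    have hs5n : ‖((s : ℂ) ^ 5)⁻¹‖ = (s ^ 5)⁻¹ := by
      rw [norm_inv, norm_pow, Complex.norm_real, Real.norm_of_nonneg hs.le]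
    refine ⟨((s : ℂ) ^ 5)⁻¹ • Ψ z, ⟨?_, ?_⟩, ?_⟩
    · intro j hj
      have h1 : (((s : ℂ) ^ 5)⁻¹ • Ψ z) j = ((s : ℂ) ^ 5)⁻¹ * (z - z₀) j := by
        rw [hΨ]
        change ((s : ℂ) ^ 5)⁻¹ * ((z - z₀) j + _ * e j) = _
        rw [hej j hj, mul_zero, add_zero]
      rw [h1, norm_mul, hs5n]
      have h2 := (Slab1_coord_le (z - z₀) j).trans hz1
      calc (s ^ 5)⁻¹ * ‖(z - z₀) j‖ ≤ (s ^ 5)⁻¹ * s ^ 8 :=
            mul_le_mul_of_nonneg_left h2 (by positivity)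
        _ = s ^ 3 := by field_simp
        _ ≤ s := by
          have := pow_le_pow_of_le_one hs.le hs2 (show 1 ≤ 3 by norm_num)
          simpa using this
    · have h1 : (((s : ℂ) ^ 5)⁻¹ • Ψ z) i₀ = ((s : ℂ) ^ 5)⁻¹ * (a⁻¹ * (g z - g z₀)) := by
        rw [hΨ]
        change ((s : ℂ) ^ 5)⁻¹ * ((z - z₀) i₀ + (a⁻¹ * (g z - g z₀) - (z - z₀) i₀) * e i₀) = _
        rw [hee]
        ring
      rw [h1, norm_mul, norm_mul, hs5n]
      have hM7 : s ^ M = s ^ (M - 7) * s ^ 7 := by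
        rw [← pow_add]
        congr 1
        omega
      calc (s ^ 5)⁻¹ * (‖a⁻¹‖ * ‖g z - g z₀‖) ≤ (s ^ 5)⁻¹ * (n / s * s ^ M) := by gcongr
        _ = s ^ (M - 7) * (n * s) := by
          rw [hM7]
          field_simp
        _ ≤ s ^ (M - 7) := mul_le_of_le_one_right (by positivity) hns
    · change T.symm (((s : ℂ) ^ 5) • (((s : ℂ) ^ 5)⁻¹ • Ψ z)) = z
      rw [smul_inv_smul₀ hs5, ← hTc]
      exact T.left_inv hzs

end HMA

end S_MA_Slab1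

section S_MA_Slab2

/-! # Module SLAB2: measure of slabs; neighbourhoods of hyperplanes -/

open MeasureTheory Metric Set
open scoped ENNReal Topology ContDiff

namespace HMA

theorem slab (n : ℕ) (hn : 1 ≤ n) {C ε Λ : ℝ} (hC : 0 < C) (hε : 0 < ε) (hΛ : 0 ≤ Λ) :
    ∃ (M : ℕ) (C₁ : ℝ), 8 ≤ M ∧ 0 < C₁ ∧
    ∀ (μ : Measure (Cn n)), μ univ ≤ ENNReal.ofReal C → PolyB n μ C ε →
      ∀ (z₀ : Cn n) (g : Cn n → ℂ) (s : ℝ), ‖z₀‖ ≤ 1 → 0 < s → s ≤ 1 / 4 →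
        DifferentiableOn ℂ g (ball z₀ s) → (∀ z ∈ ball z₀ s, ‖g z‖ ≤ s⁻¹) →
        s ≤ ‖fderiv ℂ g z₀‖ →
        μ {z | ‖z - z₀‖ ≤ s ^ 8 ∧ ‖g z - g z₀‖ ≤ s ^ M} ≤ ENNReal.ofReal (C₁ * s ^ Λ) := by
  obtain ⟨s₀, hs₀, hs₀4, hemb⟩ := slab_embed n hn
  set k : ℕ := ⌈(Λ / ε) ^ n⌉₊ + 1 with hk
  have hkpos : 1 ≤ k := by omega
  have hkle : (Λ / ε) ^ n ≤ (k : ℝ) := by
    have := Nat.le_ceil ((Λ / ε) ^ n)
    rw [hk]; push_cast; linarith
  have hroot : Λ ≤ ε * (k : ℝ) ^ ((n : ℝ)⁻¹) := by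
    have h0 : 0 ≤ Λ / ε := div_nonneg hΛ hε.le
    have h1 : Λ / ε ≤ (k : ℝ) ^ ((n : ℝ)⁻¹) := by
      have h2 := Real.rpow_le_rpow (pow_nonneg h0 n) hkle (by positivity : (0:ℝ) ≤ (n : ℝ)⁻¹)
      rwa [Real.pow_rpow_inv_natCast h0 (by omega)] at h2
    calc Λ = ε * (Λ / ε) := by field_simp
      _ ≤ _ := mul_le_mul_of_nonneg_left h1 hε.le
  refine ⟨k + 7, C * s₀ ^ (-Λ), by omega, by positivity, ?_⟩
  intro μ hμ hP z₀ g s hz₀ hs hs4 hg hgb hgd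
  by_cases hss : s ≤ s₀
  · obtain ⟨Φ, i₀, hΦ1, hΦ2, hΦ2', hΦ3, hΦ4⟩ := hemb z₀ g s hz₀ hs hss hg hgb hgd
    have hs1 : s < 1 := by linarith
    set σ : Fin n → ℝ := fun i => if i = i₀ then s ^ k else s with hσ
    have hσ01 : ∀ i, 0 < σ i ∧ σ i < 1 := by
      intro i
      simp only [hσ]
      split_ifs
      · exact ⟨by positivity, pow_lt_one₀ hs.le hs1 (by omega)⟩
      · exact ⟨hs, hs1⟩
    have h1 := hP Φ σ hΦ1 hΦ2 hΦ2' hΦ3 hσ01
    have h2 := hΦ4 (k + 7) (by omega)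
    have h3 : {z | ‖z - z₀‖ ≤ s ^ 8 ∧ ‖g z - g z₀‖ ≤ s ^ (k + 7)} ⊆
        Φ '' {ζ | ∀ i, ‖ζ i‖ ≤ σ i} := by
      refine h2.trans (image_mono ?_)
      rintro ζ ⟨hζ1, hζ2⟩ i
      by_cases hi : i = i₀
      · subst hi
        have : k + 7 - 7 = k := by omega
        rw [this] at hζ2
        simpa [hσ] using hζ2
      · simpa [hσ, hi] using hζ1 i hi
    refine (measure_mono h3).trans (h1.trans (ENNReal.ofReal_le_ofReal ?_))
    have hprod : ∏ i, Real.log (1 / σ i) = (k : ℝ) * (Real.log (1 / s)) ^ n := by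
      have : ∀ i, Real.log (1 / σ i) = (if i = i₀ then (k : ℝ) else 1) * Real.log (1 / s) := by
        intro i
        simp only [hσ]
        split_ifs
        · rw [one_div, one_div, Real.log_inv, Real.log_inv, Real.log_pow]; ring
        · ring
      rw [Finset.prod_congr rfl (fun i _ => this i), Finset.prod_mul_distrib]
      simp [Finset.prod_ite_eq']
    have hL : 0 ≤ Real.log (1 / s) := Real.log_nonneg (by
      rw [le_div_iff₀ hs]; linarith)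
    have hroot2 : (∏ i, Real.log (1 / σ i)) ^ ((n : ℝ)⁻¹) =
        (k : ℝ) ^ ((n : ℝ)⁻¹) * Real.log (1 / s) := by
      rw [hprod, Real.mul_rpow (by positivity) (pow_nonneg hL n),
        Real.pow_rpow_inv_natCast hL (by omega)]
    rw [hroot2]
    have h5 : Real.exp (-ε * ((k : ℝ) ^ ((n : ℝ)⁻¹) * Real.log (1 / s))) ≤ s ^ Λ := by
      rw [Real.rpow_def_of_pos hs]
      apply Real.exp_le_exp.mpr
      rw [one_div, Real.log_inv] at *
      nlinarith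
    have h6 : (1:ℝ) ≤ s₀ ^ (-Λ) := by
      apply Real.one_le_rpow_of_pos_of_le_one_of_nonpos hs₀ (by linarith) (by linarith)
    have h7 : 0 < s ^ Λ := Real.rpow_pos_of_pos hs _
    calc C * Real.exp (-ε * ((k : ℝ) ^ ((n : ℝ)⁻¹) * Real.log (1 / s))) ≤ C * s ^ Λ :=
          mul_le_mul_of_nonneg_left h5 hC.le
      _ ≤ C * s₀ ^ (-Λ) * s ^ Λ := by
          nlinarith [mul_pos hC h7]
  · push Not at hss
    refine (measure_mono (subset_univ _)).trans (hμ.trans (ENNReal.ofReal_le_ofReal ?_))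
    have h1 : s₀ ^ Λ ≤ s ^ Λ := Real.rpow_le_rpow hs₀.le hss.le hΛ
    have h2 : s₀ ^ (-Λ) * s₀ ^ Λ = 1 := by
      rw [← Real.rpow_add hs₀]; simp
    have h3 : 0 < s₀ ^ (-Λ) := Real.rpow_pos_of_pos hs₀ _
    calc C = C * (s₀ ^ (-Λ) * s₀ ^ Λ) := by rw [h2, mul_one]
      _ ≤ C * (s₀ ^ (-Λ) * s ^ Λ) := by gcongr
      _ = C * s₀ ^ (-Λ) * s ^ Λ := by ring

theorem Slab2_inner (n : ℕ) (a : Cn (n + 1)) (z : Cn n) :
    inner ℂ a (cha 0 z) =
      (starRingEnd ℂ) (a 0) + inner ℂ (WithLp.toLp 2 (fun j : Fin n => a j.succ) : Cn n) z := by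
  rw [PiLp.inner_apply, PiLp.inner_apply, Fin.sum_univ_succ]
  simp [cha]

theorem Slab2_norm (n : ℕ) (a : Cn (n + 1)) :
    ‖a‖ ^ 2 = ‖a 0‖ ^ 2 + ‖(WithLp.toLp 2 (fun j : Fin n => a j.succ) : Cn n)‖ ^ 2 := by
  rw [EuclideanSpace.norm_sq_eq, EuclideanSpace.norm_sq_eq, Fin.sum_univ_succ]

/-- neighbourhoods of affine hyperplanes -/
theorem slab_lin (n : ℕ) (hn : 1 ≤ n) {C ε Λ : ℝ} (hC : 0 < C) (hε : 0 < ε) (hΛ : 0 ≤ Λ) :
    ∃ (M : ℕ) (C₁ : ℝ), 0 < C₁ ∧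
    ∀ (μ : Measure (Cn n)), μ univ ≤ ENNReal.ofReal C → PolyB n μ C ε →
      ∀ (a : Cn (n + 1)) (s : ℝ), ‖a‖ = 1 → 0 < s → s ≤ 1 / 4 →
        μ {z | ‖z‖ ≤ 1 ∧ ‖inner ℂ a (cha 0 z)‖ ≤ s ^ M} ≤ ENNReal.ofReal (C₁ * s ^ Λ) := by
  obtain ⟨M₀, C₀, hM₀, hC₀, hslab⟩ := slab n hn (Λ := 16 * n + Λ) hC hε (by positivity)
  obtain ⟨B, hB, hnet⟩ := net n
  refine ⟨M₀ + 1, B ^ (2 * n) * C₀, by positivity, ?_⟩
  intro μ hμ hP a s ha hs hs4
  have hs1 : s ≤ 1 := by linarith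
  set a' : Cn n := WithLp.toLp 2 (fun j : Fin n => a j.succ) with ha'
  set l : Cn n → ℂ := fun z => inner ℂ a (cha 0 z) with hl
  have hl' : l = fun z => (starRingEnd ℂ) (a 0) + inner ℂ a' z := by
    funext z; exact Slab2_inner n a z
  have hnorm := Slab2_norm n a
  rw [← ha', ha] at hnorm
  have ha0 : ‖a 0‖ ≤ 1 := by nlinarith [sq_nonneg ‖a'‖, norm_nonneg (a 0)]
  have ha1 : ‖a'‖ ≤ 1 := by nlinarith [sq_nonneg ‖a 0‖, norm_nonneg a']
  have hderiv : ∀ z, HasFDerivAt l (innerSL ℂ a') z := by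
    intro z
    rw [hl']
    exact ((innerSL ℂ a').hasFDerivAt).const_add _
  set S : Set (Cn n) := {z | ‖z‖ ≤ 1 ∧ ‖inner ℂ a (cha 0 z)‖ ≤ s ^ (M₀ + 1)} with hS
  obtain ⟨T, hTS, hTc, hTn⟩ := hnet (Cn n) (by simp) S (fun x hx => hx.1) (s ^ 8) (by positivity)
    (pow_le_one₀ hs.le hs1)
  have hcov : S ⊆ ⋃ z₀ ∈ T, {z | ‖z - z₀‖ ≤ s ^ 8 ∧ ‖l z - l z₀‖ ≤ s ^ M₀} := by
    intro z hz
    obtain ⟨e, heT, hze⟩ := hTn z hz
    have he := hTS heT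
    refine mem_iUnion₂.mpr ⟨e, heT, hze, ?_⟩
    have h1 : ‖l z‖ ≤ s ^ (M₀ + 1) := hz.2
    have h2 : ‖l e‖ ≤ s ^ (M₀ + 1) := he.2
    have h3 : 0 < s ^ M₀ := by positivity
    calc ‖l z - l e‖ ≤ ‖l z‖ + ‖l e‖ := norm_sub_le _ _
      _ ≤ s ^ (M₀ + 1) + s ^ (M₀ + 1) := add_le_add h1 h2
      _ ≤ s ^ M₀ := by rw [pow_succ]; nlinarith
  have hone : ∀ z₀ ∈ T, μ {z | ‖z - z₀‖ ≤ s ^ 8 ∧ ‖l z - l z₀‖ ≤ s ^ M₀} ≤
      ENNReal.ofReal (C₀ * s ^ (16 * n + Λ)) := by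
    intro z₀ hz₀
    have hz := hTS hz₀
    refine hslab μ hμ hP z₀ l s hz.1 hs hs4
      (fun z _ => (hderiv z).differentiableAt.differentiableWithinAt) ?_ ?_
    · intro z hz'
      have h1 : ‖z‖ ≤ 1 + s := by
        have := norm_sub_norm_le z z₀
        rw [mem_ball, dist_eq_norm] at hz'
        linarith [hz.1]
      have h2 : ‖l z‖ ≤ ‖a 0‖ + ‖a'‖ * ‖z‖ := by
        rw [hl']
        refine (norm_add_le _ _).trans (add_le_add (by simp) (norm_inner_le_norm _ _))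
      have h3 : (4:ℝ) ≤ s⁻¹ := by
        rw [le_inv_comm₀ (by norm_num) hs]; linarith
      have h4 : ‖a'‖ * ‖z‖ ≤ 1 * (1 + s) := mul_le_mul ha1 h1 (norm_nonneg _) (by norm_num)
      linarith
    · rw [(hderiv z₀).fderiv, innerSL_apply_norm]
      by_contra hcon
      push Not at hcon
      have h1 : ‖l z₀‖ ≤ s ^ (M₀ + 1) := hz.2
      have h2 : s ^ (M₀ + 1) ≤ 1 / 4 := by
        calc s ^ (M₀ + 1) = s ^ M₀ * s := pow_succ _ _
          _ ≤ 1 * (1 / 4) := mul_le_mul (pow_le_one₀ hs.le hs1) hs4 hs.le (by norm_num)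
          _ = 1 / 4 := by norm_num
      have h3 : ‖a 0‖ ≤ ‖l z₀‖ + ‖a'‖ * ‖z₀‖ := by
        have h4 : (starRingEnd ℂ) (a 0) = l z₀ - inner ℂ a' z₀ := by rw [hl']; ring
        have h5 : ‖a 0‖ = ‖(starRingEnd ℂ) (a 0)‖ := by simp
        rw [h5, h4]
        exact (norm_sub_le _ _).trans (add_le_add le_rfl (norm_inner_le_norm _ _))
      have h6 : ‖a'‖ * ‖z₀‖ ≤ 1 / 4 * 1 :=
        mul_le_mul (by linarith) hz.1 (norm_nonneg _) (by norm_num)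
      have h7 : ‖a 0‖ ≤ 1 / 2 := by linarith
      nlinarith [norm_nonneg (a 0), norm_nonneg a']
  calc μ S ≤ μ (⋃ z₀ ∈ T, {z | ‖z - z₀‖ ≤ s ^ 8 ∧ ‖l z - l z₀‖ ≤ s ^ M₀}) := measure_mono hcov
    _ ≤ ∑ z₀ ∈ T, μ {z | ‖z - z₀‖ ≤ s ^ 8 ∧ ‖l z - l z₀‖ ≤ s ^ M₀} :=
        measure_biUnion_finset_le _ _
    _ ≤ ∑ z₀ ∈ T, ENNReal.ofReal (C₀ * s ^ (16 * n + Λ)) := Finset.sum_le_sum hone
    _ = ENNReal.ofReal ((T.card : ℝ) * (C₀ * s ^ (16 * n + Λ))) := by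
        rw [Finset.sum_const, nsmul_eq_mul, ENNReal.ofReal_mul (Nat.cast_nonneg T.card),
          ENNReal.ofReal_natCast]
    _ ≤ ENNReal.ofReal (B ^ (2 * n) * C₀ * s ^ Λ) := by
        apply ENNReal.ofReal_le_ofReal
        have h1 : s ^ ((16:ℝ) * n + Λ) = (s ^ 8) ^ (2 * n) * s ^ Λ := by
          rw [Real.rpow_add hs, ← pow_mul, ← Real.rpow_natCast s (8 * (2 * n))]
          congr 2
          push_cast
          ring
        rw [h1]
        have h2 : (B / s ^ 8) ^ (2 * n) * (s ^ 8) ^ (2 * n) = B ^ (2 * n) := by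
          rw [← mul_pow, div_mul_cancel₀]
          positivity
        calc (T.card : ℝ) * (C₀ * ((s ^ 8) ^ (2 * n) * s ^ Λ))
            ≤ (B / s ^ 8) ^ (2 * n) * (C₀ * ((s ^ 8) ^ (2 * n) * s ^ Λ)) := by gcongr
          _ = ((B / s ^ 8) ^ (2 * n) * (s ^ 8) ^ (2 * n)) * C₀ * s ^ Λ := by ring
          _ = B ^ (2 * n) * C₀ * s ^ Λ := by rw [h2]

end HMA

end S_MA_Slab2

section S_MA_PTub1

/-! # Module PTUB1: the defining function of a tube in affine coordinates -/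

open MeasureTheory Metric Set
open scoped ENNReal Topology ContDiff

namespace HMA

/-- the function `G y = ⟪p, y⟫ / ⟪e, y⟫ - h (π y / ⟪e, y⟫)`, `π` the projection to `p^⊥` -/
noncomputable def tg {W : Type} [NormedAddCommGroup W] [InnerProductSpace ℂ W]
    [FiniteDimensional ℂ W] (p : W) (e : ↥(ℂ ∙ p)ᗮ) (h : ↥(ℂ ∙ p)ᗮ → ℂ) (y : W) : ℂ :=
  inner ℂ p y / inner ℂ (e : W) y -
    h ((inner ℂ (e : W) y)⁻¹ • (ℂ ∙ p)ᗮ.orthogonalProjectionOnto y)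

variable {W : Type} [NormedAddCommGroup W] [InnerProductSpace ℂ W] [FiniteDimensional ℂ W]
  {p : W} {e : ↥(ℂ ∙ p)ᗮ} {h : ↥(ℂ ∙ p)ᗮ → ℂ} {ρ R : ℝ}

theorem PTub1_ep (e : ↥(ℂ ∙ p)ᗮ) : inner ℂ (e : W) p = 0 :=
  Submodule.mem_orthogonal_singleton_iff_inner_left.1 e.2

theorem PTub1_pe (e : ↥(ℂ ∙ p)ᗮ) : inner ℂ p (e : W) = 0 :=
  Submodule.mem_orthogonal_singleton_iff_inner_right.1 e.2

theorem PTub1_ratio {c : ℂ} (hc : c ≠ 0) (y : W) :
    (inner ℂ (e : W) (c • y))⁻¹ • (ℂ ∙ p)ᗮ.orthogonalProjectionOnto (c • y) =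
      (inner ℂ (e : W) y)⁻¹ • (ℂ ∙ p)ᗮ.orthogonalProjectionOnto y := by
  rw [inner_smul_right, map_smul, smul_smul, mul_inv, mul_right_comm, inv_mul_cancel₀ hc, one_mul]

theorem PTub1_smul {c : ℂ} (hc : c ≠ 0) (y : W) : tg p e h (c • y) = tg p e h y := by
  unfold tg
  rw [PTub1_ratio hc, inner_smul_right, inner_smul_right, mul_div_mul_left _ _ hc]

theorem PTub1_add {y : W} (hp : ‖p‖ = 1) (τ : ℂ) :
    tg p e h (y + τ • p) = tg p e h y + τ / inner ℂ (e : W) y := by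
  unfold tg
  have h1 : (ℂ ∙ p)ᗮ.orthogonalProjectionOnto p = 0 :=
    Submodule.orthogonalProjectionOnto_orthogonalComplement_singleton_eq_zero p
  rw [inner_add_right, inner_add_right, inner_smul_right, inner_smul_right, PTub1_ep,
    inner_self_eq_norm_sq_to_K, hp, map_add, map_smul, h1]
  simp only [mul_zero, add_zero, smul_zero]
  push_cast
  ring

/-- Lipschitz estimate for `h` -/
theorem PTub1_lip (hρ : 0 < ρ) (hh : ∀ z ∈ ball e ρ, AnalyticAt ℂ h z)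
    (hb : ∀ z ∈ ball e ρ, ‖h z‖ ≤ R) {z z' : ↥(ℂ ∙ p)ᗮ} (hz : ‖z - e‖ ≤ ρ / 2)
    (hz' : ‖z' - z‖ < ρ / 2) : ‖h z' - h z‖ ≤ 4 * R / ρ * ‖z' - z‖ := by
  have hsub : ball z (ρ / 2) ⊆ ball e ρ := by
    apply ball_subset_ball'
    rw [dist_eq_norm]
    linarith
  have h1 := Complex.dist_le_div_mul_dist_of_mapsTo_ball (f := h) (c := z) (R₁ := ρ / 2)
    (R₂ := 2 * R) (z := z') (fun w hw => (hh w (hsub hw)).differentiableAt.differentiableWithinAt)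
    (by
      intro w hw
      rw [mem_closedBall, dist_eq_norm]
      have e1 := hb w (hsub hw)
      have e2 := hb z (hsub (mem_ball_self (by positivity)))
      calc ‖h w - h z‖ ≤ ‖h w‖ + ‖h z‖ := norm_sub_le _ _
        _ ≤ 2 * R := by linarith)
    (by rw [mem_ball, dist_eq_norm]; exact hz')
  rw [dist_eq_norm, dist_eq_norm] at h1
  refine h1.trans (le_of_eq ?_)
  field_simp
  ring

theorem PTub1_num1 {ρ R q A : ℝ} (hA : 0 < A) (hq : q = A * ρ) (hρ : 0 < ρ) (hρ1 : ρ ≤ 1 / 4)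
    (hR : 1 ≤ R) : (q + q * R) * (64 / 63) ≤ 3 * R * A := by
  have e1 : q ≤ A := by rw [hq]; nlinarith
  nlinarith [mul_nonneg hA.le (by linarith : (0 : ℝ) ≤ R - 1), mul_nonneg
    (by linarith : (0 : ℝ) ≤ A - q) (by linarith : (0 : ℝ) ≤ R)]

theorem PTub1_num2 {ρ R q A : ℝ} (hq : q = A * ρ) (hρ : 0 < ρ) :
    4 * R / ρ * (3 * q) = 12 * R * A := by
  rw [hq]; field_simp; ring

theorem PTub1_num3 {ρ R q B : ℝ} (hB : 63 / 64 ≤ B) (hq : q ≤ ρ / 16) (hρ : 0 < ρ)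
    (hρ1 : ρ ≤ 1 / 4) (hR : 1 ≤ R) : 1 + ρ ^ 2 + R + q ≤ 4 * R * B := by
  nlinarith

theorem PTub1_num4 {ρ q : ℝ} (hq : q ≤ ρ ^ 3) (hρ : 0 < ρ) (hρ1 : ρ ≤ 1 / 4) :
    64 / 63 * (ρ ^ 2 + 2 * q) ≤ ρ / 2 := by
  nlinarith [mul_pos hρ hρ]

/-- points of the tube -/
theorem tg_tube (hp : ‖p‖ = 1) (he : ‖e‖ = 1) (hρ : 0 < ρ) (hρ1 : ρ ≤ 1 / 4) (hR : 1 ≤ R)
    (hh : ∀ z ∈ ball e ρ, AnalyticAt ℂ h z) (hb : ∀ z ∈ ball e ρ, ‖h z‖ ≤ R) {N : ℕ} (hN : 3 ≤ N)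
    {y : W} (hy : y ∈ tube p e h (ρ ^ 2) (ρ ^ N)) :
    inner ℂ (e : W) y ≠ 0 ∧ ‖y‖ ≤ 4 * R * ‖inner ℂ (e : W) y‖ ∧
      ‖(inner ℂ (e : W) y)⁻¹ • (ℂ ∙ p)ᗮ.orthogonalProjectionOnto y - e‖ ≤ ρ / 2 ∧
      ‖tg p e h y‖ ≤ 32 * R * ρ ^ (N - 1) := by
  obtain ⟨hy0, c, hc, u, hu, hun, hX⟩ := hy
  have heW : ‖(e : W)‖ = 1 := he
  -- numerical facts
  have hq1 : ρ ^ N ≤ ρ ^ 3 := pow_le_pow_of_le_one hρ.le (by linarith) hN
  have hq2 : ρ ^ 3 ≤ ρ / 16 := by nlinarith [mul_pos hρ hρ]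
  have hq0 : 0 < ρ ^ N := by positivity
  have hq3 : ρ ^ N = ρ ^ (N - 1) * ρ := by
    rw [← pow_succ]; congr 1; omega
  have hq4 : 0 < ρ ^ (N - 1) := by positivity
  set q : ℝ := ρ ^ N with hq
  set err : W := c • y - ((e + u : ↥(ℂ ∙ p)ᗮ) : W) - h (e + u) • p with herr
  have hXe : c • y = ((e + u : ↥(ℂ ∙ p)ᗮ) : W) + h (e + u) • p + err := by
    rw [herr]; abel
  have hr2 : ρ ^ 2 ≤ ρ / 4 := by nlinarith
  have hmem : e + u ∈ ball e ρ := by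
    rw [mem_ball, dist_eq_norm, add_sub_cancel_left]
    linarith
  have hhR : ‖h (e + u)‖ ≤ R := hb _ hmem
  -- `a`
  set a : ℂ := inner ℂ (e : W) (c • y) with ha
  have ha1 : a = 1 + inner ℂ (e : W) err := by
    rw [ha, hXe, inner_add_right, inner_add_right, inner_smul_right, PTub1_ep,
      Submodule.coe_add, inner_add_right, inner_self_eq_norm_sq_to_K, heW]
    have : inner ℂ (e : W) (u : W) = 0 := hu
    rw [this]
    push_cast
    ring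
  have ha2 : ‖a - 1‖ ≤ q := by
    rw [ha1, add_sub_cancel_left]
    calc ‖inner ℂ (e : W) err‖ ≤ ‖(e : W)‖ * ‖err‖ := norm_inner_le_norm _ _
      _ ≤ q := by rw [heW, one_mul]; exact hX
  have ha3 : 63 / 64 ≤ ‖a‖ := by
    have h1 : ‖(1 : ℂ)‖ ≤ ‖a‖ + ‖a - 1‖ := by
      have := norm_sub_le a (a - 1)
      rwa [sub_sub_cancel] at this
    rw [norm_one] at h1
    linarith
  have ha0 : a ≠ 0 := by
    intro h0
    rw [h0, norm_zero] at ha3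
    norm_num at ha3
  have hinv : ‖a⁻¹‖ ≤ 64 / 63 := by
    rw [norm_inv]
    rw [inv_le_comm₀ (by linarith) (by norm_num)]
    linarith
  have hay : a = c * inner ℂ (e : W) y := by rw [ha, inner_smul_right]
  have hy1 : inner ℂ (e : W) y ≠ 0 := by
    intro h0
    rw [h0, mul_zero] at hay
    exact ha0 hay
  -- projection
  have hπ : (ℂ ∙ p)ᗮ.orthogonalProjectionOnto (c • y) =
      e + u + (ℂ ∙ p)ᗮ.orthogonalProjectionOnto err := by
    rw [hXe, map_add, map_add, map_smul,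
      Submodule.orthogonalProjectionOnto_orthogonalComplement_singleton_eq_zero, smul_zero,
      add_zero, Submodule.orthogonalProjectionOnto_mem_subspace_eq_self]
  set err' := (ℂ ∙ p)ᗮ.orthogonalProjectionOnto err with herr'
  have herrn : ‖err'‖ ≤ q :=
    (Submodule.norm_orthogonalProjectionOnto_apply_le _ _).trans hX
  have hratio : (inner ℂ (e : W) y)⁻¹ • (ℂ ∙ p)ᗮ.orthogonalProjectionOnto y =
      a⁻¹ • (e + u + err') := by
    rw [← PTub1_ratio hc, ← ha, hπ]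
  refine ⟨hy1, ?_, ?_, ?_⟩
  · have h1 : ‖c • y‖ ≤ 1 + ρ ^ 2 + R + q := by
      rw [hXe]
      calc ‖((e + u : ↥(ℂ ∙ p)ᗮ) : W) + h (e + u) • p + err‖
          ≤ ‖((e + u : ↥(ℂ ∙ p)ᗮ) : W) + h (e + u) • p‖ + ‖err‖ := norm_add_le _ _
        _ ≤ ‖((e + u : ↥(ℂ ∙ p)ᗮ) : W)‖ + ‖h (e + u) • p‖ + ‖err‖ := by
            gcongr; exact norm_add_le _ _
        _ ≤ (‖(e : W)‖ + ‖(u : W)‖) + ‖h (e + u) • p‖ + ‖err‖ := by
            gcongr; rw [Submodule.coe_add]; exact norm_add_le _ _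
        _ ≤ 1 + ρ ^ 2 + R + q := by
            rw [norm_smul, hp, mul_one, heW]
            have : ‖(u : W)‖ ≤ ρ ^ 2 := hun
            linarith
    have h2 : ‖c • y‖ ≤ 4 * R * ‖a‖ := h1.trans (PTub1_num3 ha3 (hq1.trans hq2) hρ hρ1 hR)
    rw [norm_smul, hay, norm_mul] at h2
    have hcpos : 0 < ‖c‖ := norm_pos_iff.2 hc
    have h3 : ‖c‖ * ‖y‖ ≤ ‖c‖ * (4 * R * ‖inner ℂ (e : W) y‖) := by
      refine h2.trans (le_of_eq ?_)
      ring
    exact le_of_mul_le_mul_left h3 hcpos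
  · rw [hratio]
    have h1 : a⁻¹ • (e + u + err') - e = a⁻¹ • (u + err' + (1 - a) • e) := by
      have : e = a⁻¹ • a • e := by rw [smul_smul, inv_mul_cancel₀ ha0, one_smul]
      calc a⁻¹ • (e + u + err') - e = a⁻¹ • (e + u + err') - a⁻¹ • a • e := by rw [← this]
        _ = a⁻¹ • (u + err' + (1 - a) • e) := by
          rw [← smul_sub]
          congr 1
          rw [sub_smul, one_smul]
          abel
    rw [h1, norm_smul]
    have h2 : ‖u + err' + (1 - a) • e‖ ≤ ρ ^ 2 + 2 * q := by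
      calc ‖u + err' + (1 - a) • e‖ ≤ ‖u + err'‖ + ‖(1 - a) • e‖ := norm_add_le _ _
        _ ≤ ‖u‖ + ‖err'‖ + ‖(1 - a) • e‖ := by gcongr; exact norm_add_le _ _
        _ ≤ ρ ^ 2 + 2 * q := by
          rw [norm_smul, he, mul_one, norm_sub_rev]
          linarith
    calc ‖a⁻¹‖ * ‖u + err' + (1 - a) • e‖ ≤ 64 / 63 * (ρ ^ 2 + 2 * q) := by gcongr
      _ ≤ ρ / 2 := PTub1_num4 hq1 hρ hρ1
  · rw [← PTub1_smul hc]
    unfold tg
    rw [← ha, hπ]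
    have h1 : inner ℂ p (c • y) = h (e + u) + inner ℂ p err := by
      rw [hXe, inner_add_right, inner_add_right, inner_smul_right, PTub1_pe,
        inner_self_eq_norm_sq_to_K, hp]
      push_cast
      ring
    have h2 : ‖inner ℂ p err‖ ≤ q := by
      calc ‖inner ℂ p err‖ ≤ ‖p‖ * ‖err‖ := norm_inner_le_norm _ _
        _ ≤ q := by rw [hp, one_mul]; exact hX
    have h3 : a⁻¹ • (e + u + err') - (e + u) = a⁻¹ • (err' + (1 - a) • (e + u)) := by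
      have : e + u = a⁻¹ • a • (e + u) := by rw [smul_smul, inv_mul_cancel₀ ha0, one_smul]
      calc a⁻¹ • (e + u + err') - (e + u) = a⁻¹ • (e + u + err') - a⁻¹ • a • (e + u) := by
            rw [← this]
        _ = a⁻¹ • (err' + (1 - a) • (e + u)) := by
          rw [← smul_sub]
          congr 1
          rw [sub_smul, one_smul]
          abel
    have heu : ‖e + u‖ ≤ 17 / 16 := by
      calc ‖e + u‖ ≤ ‖e‖ + ‖u‖ := norm_add_le _ _
        _ ≤ 17 / 16 := by rw [he]; nlinarith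
    have h4 : ‖a⁻¹ • (e + u + err') - (e + u)‖ ≤ 3 * q := by
      rw [h3, norm_smul]
      have : ‖err' + (1 - a) • (e + u)‖ ≤ q + q * (17 / 16) := by
        calc ‖err' + (1 - a) • (e + u)‖ ≤ ‖err'‖ + ‖(1 - a) • (e + u)‖ := norm_add_le _ _
          _ ≤ q + q * (17 / 16) := by
            rw [norm_smul, norm_sub_rev]
            gcongr
      calc ‖a⁻¹‖ * ‖err' + (1 - a) • (e + u)‖ ≤ 64 / 63 * (q + q * (17 / 16)) := by gcongr
        _ ≤ 3 * q := by linarith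
    have h5 : ‖h (a⁻¹ • (e + u + err')) - h (e + u)‖ ≤ 4 * R / ρ * (3 * q) := by
      refine (PTub1_lip hρ hh hb (z := e + u) (z' := a⁻¹ • (e + u + err')) ?_ ?_).trans ?_
      · rw [add_sub_cancel_left]; linarith
      · linarith
      · gcongr
    have h6 : (h (e + u) + inner ℂ p err) / a - h (a⁻¹ • (e + u + err')) =
        (inner ℂ p err + (1 - a) * h (e + u)) * a⁻¹ -
          (h (a⁻¹ • (e + u + err')) - h (e + u)) := by
      field_simp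
      ring
    rw [h1, h6]
    have h7 : ‖(inner ℂ p err + (1 - a) * h (e + u)) * a⁻¹‖ ≤ (q + q * R) * (64 / 63) := by
      rw [norm_mul]
      gcongr
      calc ‖inner ℂ p err + (1 - a) * h (e + u)‖ ≤ ‖inner ℂ p err‖ + ‖(1 - a) * h (e + u)‖ :=
            norm_add_le _ _
        _ ≤ q + q * R := by
          rw [norm_mul, norm_sub_rev]
          gcongr
    have h8 : 4 * R / ρ * (3 * q) = 12 * R * ρ ^ (N - 1) := PTub1_num2 hq3 hρ
    have h9 : (q + q * R) * (64 / 63) ≤ 3 * R * ρ ^ (N - 1) := PTub1_num1 hq4 hq3 hρ hρ1 hR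
    calc ‖(inner ℂ p err + (1 - a) * h (e + u)) * a⁻¹ -
          (h (a⁻¹ • (e + u + err')) - h (e + u))‖
        ≤ ‖(inner ℂ p err + (1 - a) * h (e + u)) * a⁻¹‖ +
          ‖h (a⁻¹ • (e + u + err')) - h (e + u)‖ := norm_sub_le _ _
      _ ≤ 3 * R * ρ ^ (N - 1) + 12 * R * ρ ^ (N - 1) := by
          rw [← h8]
          exact add_le_add (h7.trans h9) h5
      _ = 15 * (R * ρ ^ (N - 1)) := by ring
      _ ≤ 32 * (R * ρ ^ (N - 1)) := by
          gcongr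
          norm_num
      _ = 32 * R * ρ ^ (N - 1) := by ring

theorem PTub1_cha_zero {n : ℕ} (z : Cn n) : (cha 0 z) 0 = 1 := by
  simp [cha]

theorem PTub1_cha_succ {n : ℕ} (z : Cn n) (j : Fin n) : (cha 0 z) j.succ = z j := by
  simp [cha]

theorem PTub1_cha_diff {n : ℕ} : Differentiable ℂ (fun z : Cn n => cha 0 z) := by
  rw [differentiable_euclidean]
  intro i
  refine Fin.cases ?_ (fun j => ?_) i
  · simp only [PTub1_cha_zero]
    exact differentiable_const _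
  · simp only [PTub1_cha_succ]
    fun_prop

theorem PTub1_Y_diff {n : ℕ} (L : Cn (n + 1) →ₗ[ℂ] W) :
    Differentiable ℂ (fun z : Cn n => L (cha 0 z)) := by
  have h1 : (fun z : Cn n => L (cha 0 z)) =
      fun z : Cn n => (LinearMap.toContinuousLinearMap L) (cha 0 z) := rfl
  rw [h1]
  exact (LinearMap.toContinuousLinearMap L).differentiable.comp PTub1_cha_diff

theorem PTub1_inner_diff {n : ℕ} (L : Cn (n + 1) →ₗ[ℂ] W) (q : W) :
    Differentiable ℂ (fun z : Cn n => inner ℂ q (L (cha 0 z))) := by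
  have h1 : (fun z : Cn n => inner ℂ q (L (cha 0 z))) =
      fun z : Cn n => (innerSL ℂ q) (L (cha 0 z)) := by
    funext z
    rw [innerSL_apply_apply]
  rw [h1]
  exact (innerSL ℂ q).differentiable.comp (PTub1_Y_diff L)

theorem PTub1_K_diff {n : ℕ} (L : Cn (n + 1) →ₗ[ℂ] W) :
    Differentiable ℂ (fun z : Cn n => (ℂ ∙ p)ᗮ.orthogonalProjectionOnto (L (cha 0 z))) :=
  ((ℂ ∙ p)ᗮ.orthogonalProjectionOnto).differentiable.comp (PTub1_Y_diff L)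

theorem PTub1_near {n : ℕ} {L : Cn (n + 1) →ₗ[ℂ] W} (hL : Coi L) (he : ‖e‖ = 1)
    (hρ : 0 < ρ) (hρ1 : ρ ≤ 1 / 4) {t s : ℝ} (ht : 0 < t) (hs : 0 < s)
    (hs1 : 64 * s ≤ t * ρ) {z₀ : Cn n}
    (h0 : t ≤ ‖inner ℂ (e : W) (L (cha 0 z₀))‖)
    (h1 : ‖(inner ℂ (e : W) (L (cha 0 z₀)))⁻¹ •
      (ℂ ∙ p)ᗮ.orthogonalProjectionOnto (L (cha 0 z₀)) - e‖ ≤ ρ / 2) {z : Cn n}
    (hz : z ∈ ball z₀ s) : t / 2 ≤ ‖inner ℂ (e : W) (L (cha 0 z))‖ ∧
      (inner ℂ (e : W) (L (cha 0 z)))⁻¹ •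
      (ℂ ∙ p)ᗮ.orthogonalProjectionOnto (L (cha 0 z)) ∈ ball e ρ := by
  have heW : ‖(e : W)‖ = 1 := he
  have hY : ‖L (cha 0 z) - L (cha 0 z₀)‖ < s := by
    rw [← map_sub]
    refine (hL.norm_le _).trans_lt ?_
    rw [cha_sub, ← dist_eq_norm]
    exact hz
  set y := L (cha 0 z) with hy
  set y₀ := L (cha 0 z₀) with hy₀
  have hb : ‖inner ℂ (e : W) y - inner ℂ (e : W) y₀‖ < s := by
    rw [← inner_sub_right]
    calc ‖inner ℂ (e : W) (y - y₀)‖ ≤ ‖(e : W)‖ * ‖y - y₀‖ := norm_inner_le_norm _ _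
      _ < s := by rw [heW, one_mul]; exact hY
  have hst : s ≤ t / 256 := by nlinarith
  have hb2 : t / 2 ≤ ‖inner ℂ (e : W) y‖ := by
    have := norm_sub_norm_le (inner ℂ (e : W) y₀) (inner ℂ (e : W) y)
    rw [norm_sub_rev] at this
    linarith
  refine ⟨hb2, ?_⟩
  have hbne : inner ℂ (e : W) y ≠ 0 := by
    intro h
    rw [h, norm_zero] at hb2
    linarith
  have hb0ne : inner ℂ (e : W) y₀ ≠ 0 := by
    intro h
    rw [h, norm_zero] at h0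
    linarith
  set b := inner ℂ (e : W) y with hbdef
  set b₀ := inner ℂ (e : W) y₀ with hb₀def
  set K₀ := b₀⁻¹ • (ℂ ∙ p)ᗮ.orthogonalProjectionOnto y₀ with hK₀
  have hK : b⁻¹ • (ℂ ∙ p)ᗮ.orthogonalProjectionOnto y - K₀ =
      b⁻¹ • ((ℂ ∙ p)ᗮ.orthogonalProjectionOnto (y - y₀) - (b - b₀) • K₀) := by
    have e1 : K₀ = b⁻¹ • b • K₀ := by rw [smul_smul, inv_mul_cancel₀ hbne, one_smul]
    have e2 : b₀ • K₀ = (ℂ ∙ p)ᗮ.orthogonalProjectionOnto y₀ := by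
      rw [hK₀, smul_smul, mul_inv_cancel₀ hb0ne, one_smul]
    calc b⁻¹ • (ℂ ∙ p)ᗮ.orthogonalProjectionOnto y - K₀
        = b⁻¹ • (ℂ ∙ p)ᗮ.orthogonalProjectionOnto y - b⁻¹ • b • K₀ := by rw [← e1]
      _ = b⁻¹ • ((ℂ ∙ p)ᗮ.orthogonalProjectionOnto (y - y₀) - (b - b₀) • K₀) := by
          rw [← smul_sub, sub_smul, e2, map_sub]
          congr 1
          abel
  have hK₀n : ‖K₀‖ ≤ 9 / 8 := by
    calc ‖K₀‖ = ‖(K₀ - e) + e‖ := by rw [sub_add_cancel]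
      _ ≤ ‖K₀ - e‖ + ‖e‖ := norm_add_le _ _
      _ ≤ 9 / 8 := by rw [he]; linarith
  have hinv : ‖b⁻¹‖ ≤ 2 / t := by
    rw [norm_inv, inv_le_comm₀ (by linarith) (by positivity), inv_div]
    exact hb2
  have hKn : ‖b⁻¹ • (ℂ ∙ p)ᗮ.orthogonalProjectionOnto y - K₀‖ < ρ / 2 := by
    rw [hK, norm_smul]
    have e1 : ‖(ℂ ∙ p)ᗮ.orthogonalProjectionOnto (y - y₀) - (b - b₀) • K₀‖ ≤
        s + s * (9 / 8) := by
      calc ‖(ℂ ∙ p)ᗮ.orthogonalProjectionOnto (y - y₀) - (b - b₀) • K₀‖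
          ≤ ‖(ℂ ∙ p)ᗮ.orthogonalProjectionOnto (y - y₀)‖ + ‖(b - b₀) • K₀‖ := norm_sub_le _ _
        _ ≤ s + s * (9 / 8) := by
          rw [norm_smul]
          have := Submodule.norm_orthogonalProjectionOnto_apply_le (ℂ ∙ p)ᗮ (y - y₀)
          have e3 : ‖b - b₀‖ * ‖K₀‖ ≤ s * (9 / 8) := by gcongr
          linarith
    calc ‖b⁻¹‖ * ‖(ℂ ∙ p)ᗮ.orthogonalProjectionOnto (y - y₀) - (b - b₀) • K₀‖
        ≤ 2 / t * (s + s * (9 / 8)) := by gcongr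
      _ < ρ / 2 := by
        rw [div_mul_eq_mul_div, div_lt_iff₀ ht]
        nlinarith
  rw [mem_ball, dist_eq_norm]
  calc ‖b⁻¹ • (ℂ ∙ p)ᗮ.orthogonalProjectionOnto y - e‖
      = ‖(b⁻¹ • (ℂ ∙ p)ᗮ.orthogonalProjectionOnto y - K₀) + (K₀ - e)‖ := by
        rw [sub_add_sub_cancel]
    _ ≤ ‖b⁻¹ • (ℂ ∙ p)ᗮ.orthogonalProjectionOnto y - K₀‖ + ‖K₀ - e‖ := norm_add_le _ _
    _ < ρ := by linarith

theorem PTub1_diffAt {n : ℕ} {L : Cn (n + 1) →ₗ[ℂ] W} (hh : ∀ z ∈ ball e ρ, AnalyticAt ℂ h z)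
    {z : Cn n} (hb : inner ℂ (e : W) (L (cha 0 z)) ≠ 0)
    (hK : (inner ℂ (e : W) (L (cha 0 z)))⁻¹ •
      (ℂ ∙ p)ᗮ.orthogonalProjectionOnto (L (cha 0 z)) ∈ ball e ρ) :
    DifferentiableAt ℂ (fun z => tg p e h (L (cha 0 z))) z := by
  unfold tg
  have h1 : DifferentiableAt ℂ (fun z : Cn n => inner ℂ p (L (cha 0 z))) z :=
    (PTub1_inner_diff L p).differentiableAt
  have h2 : DifferentiableAt ℂ (fun z : Cn n => inner ℂ (e : W) (L (cha 0 z))) z :=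
    (PTub1_inner_diff L (e : W)).differentiableAt
  have h3 : DifferentiableAt ℂ (fun z : Cn n => (inner ℂ (e : W) (L (cha 0 z)))⁻¹ •
      (ℂ ∙ p)ᗮ.orthogonalProjectionOnto (L (cha 0 z))) z :=
    (h2.inv hb).smul (PTub1_K_diff L).differentiableAt
  have h4 : DifferentiableAt ℂ (fun z : Cn n => h ((inner ℂ (e : W) (L (cha 0 z)))⁻¹ •
      (ℂ ∙ p)ᗮ.orthogonalProjectionOnto (L (cha 0 z)))) z :=
    DifferentiableAt.comp (g := h) (f := fun z : Cn n => (inner ℂ (e : W) (L (cha 0 z)))⁻¹ •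
      (ℂ ∙ p)ᗮ.orthogonalProjectionOnto (L (cha 0 z))) z (hh _ hK).differentiableAt h3
  have h5 : DifferentiableAt ℂ (fun z : Cn n => inner ℂ p (L (cha 0 z)) *
      (inner ℂ (e : W) (L (cha 0 z)))⁻¹) z := h1.mul (h2.inv hb)
  simp only [div_eq_mul_inv]
  exact h5.sub h4

theorem PTub1_grad {n : ℕ} {L : Cn (n + 1) →ₗ[ℂ] W} (hL : Coi L) (hp : ‖p‖ = 1)
    {z₀ : Cn n} (hz₀ : ‖z₀‖ ≤ 1)
    (h0 : inner ℂ (e : W) (L (cha 0 z₀)) ≠ 0) (he : ‖e‖ = 1)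
    (hd : DifferentiableAt ℂ (fun z => tg p e h (L (cha 0 z))) z₀) :
      1 / 4 ≤ ‖fderiv ℂ (fun z => tg p e h (L (cha 0 z))) z₀‖ := by
  have hL' := hL
  obtain ⟨J, hJ⟩ := hL'
  have heW : ‖(e : W)‖ = 1 := he
  have hLJ : ∀ y, L (J y) = y := by
    intro y
    refine ext_inner_right ℂ fun v => ?_
    rw [hJ, LinearIsometry.inner_map_map]
  have hJp : ‖J p‖ = 1 := by rw [LinearIsometry.norm_map, hp]
  set a : ℂ := (J p) 0 with ha
  have han : ‖a‖ ≤ 1 := by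
    rw [← hJp]
    exact PiLp.norm_apply_le (J p) 0
  set w : Cn n := WithLp.toLp 2 (fun j => (J p) j.succ - a * z₀ j) with hw
  have hline : ∀ τ : ℂ, cha 0 (z₀ + τ • w) = (1 - τ * a) • cha 0 z₀ + τ • J p := by
    intro τ
    ext i
    refine Fin.cases ?_ (fun j => ?_) i
    · rw [PTub1_cha_zero]
      simp only [PiLp.add_apply, PiLp.smul_apply, PTub1_cha_zero, smul_eq_mul]
      rw [← ha]
      ring
    · rw [PTub1_cha_succ]
      simp only [PiLp.add_apply, PiLp.smul_apply, PTub1_cha_succ, smul_eq_mul, hw]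
      ring
  have hx₀ : ‖cha 0 z₀‖ ≤ 3 / 2 := by
    rw [norm_cha]
    rw [Real.sqrt_le_left (by norm_num)]
    nlinarith [norm_nonneg z₀]
  have hwn : ‖w‖ ≤ 5 / 2 := by
    have h1 := cha_sub 0 (z₀ + (1 : ℂ) • w) z₀
    rw [hline 1, add_sub_cancel_left, one_smul ℂ w] at h1
    rw [← h1]
    have h2 : (1 - 1 * a) • cha 0 z₀ + (1 : ℂ) • J p - cha 0 z₀ = J p - a • cha 0 z₀ := by
      rw [one_mul, sub_smul, one_smul, one_smul]
      abel
    rw [h2]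
    calc ‖J p - a • cha 0 z₀‖ ≤ ‖J p‖ + ‖a • cha 0 z₀‖ := norm_sub_le _ _
      _ ≤ 1 + 1 * (3 / 2) := by
        rw [hJp, norm_smul]
        gcongr
      _ = 5 / 2 := by norm_num
  set b₀ := inner ℂ (e : W) (L (cha 0 z₀)) with hb₀
  have hb₀n : ‖b₀‖ ≤ 3 / 2 := by
    calc ‖b₀‖ ≤ ‖(e : W)‖ * ‖L (cha 0 z₀)‖ := norm_inner_le_norm _ _
      _ ≤ 3 / 2 := by
        rw [heW, one_mul]
        exact (hL.norm_le _).trans hx₀
  -- the derivative along `w`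
  set F : Cn n → ℂ := fun z => tg p e h (L (cha 0 z)) with hF
  have hd1 : HasDerivAt (fun τ : ℂ => F (z₀ + τ • w)) (fderiv ℂ F z₀ w) 0 := by
    have h1 : HasDerivAt (fun τ : ℂ => z₀ + τ • w) w 0 := by
      have := ((hasDerivAt_id (0 : ℂ)).smul_const w).const_add z₀
      simpa using this
    have h2 : HasFDerivAt F (fderiv ℂ F z₀) ((fun τ : ℂ => z₀ + τ • w) 0) := by
      simp only [zero_smul, add_zero]
      exact hd.hasFDerivAt
    exact h2.comp_hasDerivAt (0 : ℂ) h1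
  have hne : ∀ᶠ τ : ℂ in nhds 0, 1 - τ * a ≠ 0 := by
    have : ContinuousAt (fun τ : ℂ => 1 - τ * a) 0 := by fun_prop
    apply this.eventually_ne
    simp
  have hev : (fun τ : ℂ => F (z₀ + τ • w)) =ᶠ[nhds 0]
      fun τ : ℂ => tg p e h (L (cha 0 z₀)) + (τ / (1 - τ * a)) / b₀ := by
    filter_upwards [hne] with τ hτ
    show tg p e h (L (cha 0 (z₀ + τ • w))) = _
    rw [hline, map_add, map_smul, map_smul, hLJ]
    have e1 : (1 - τ * a) • L (cha 0 z₀) + τ • p =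
        (1 - τ * a) • (L (cha 0 z₀) + (τ / (1 - τ * a)) • p) := by
      rw [smul_add, smul_smul, mul_div_cancel₀ _ hτ]
    rw [e1, PTub1_smul hτ, PTub1_add hp]
  have hd2 : HasDerivAt (fun τ : ℂ => tg p e h (L (cha 0 z₀)) + (τ / (1 - τ * a)) / b₀)
      (1 / b₀) 0 := by
    have h1 : HasDerivAt (fun τ : ℂ => 1 - τ * a) (-a) 0 := by
      have := ((hasDerivAt_id (0 : ℂ)).mul_const a).const_sub 1
      simpa using this
    have h2 := ((hasDerivAt_id (0 : ℂ)).div h1 (by simp)).div_const b₀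
    have h3 := h2.const_add (tg p e h (L (cha 0 z₀)))
    simpa using h3
  have hd3 := hd1.unique (hd2.congr_of_eventuallyEq hev)
  have h4 : 2 / 3 ≤ ‖fderiv ℂ F z₀ w‖ := by
    rw [hd3, norm_div, norm_one, le_div_iff₀ (norm_pos_iff.2 h0)]
    linarith
  have h5 := (fderiv ℂ F z₀).le_opNorm w
  have h6 : ‖fderiv ℂ F z₀‖ * ‖w‖ ≤ ‖fderiv ℂ F z₀‖ * (5 / 2) := by gcongr
  linarith

/-- the local function near a point `z₀` of the chart, for `t ≤ |⟪e, y₀⟫|` -/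
theorem tg_local {n : ℕ} {L : Cn (n + 1) →ₗ[ℂ] W} (hL : Coi L) (hp : ‖p‖ = 1) (he : ‖e‖ = 1)
    (hρ : 0 < ρ) (hρ1 : ρ ≤ 1 / 4) (hR : 1 ≤ R) (hh : ∀ z ∈ ball e ρ, AnalyticAt ℂ h z)
    (hb : ∀ z ∈ ball e ρ, ‖h z‖ ≤ R) {t s : ℝ} (ht : 0 < t) (ht1 : t ≤ 1) (hs : 0 < s)
    (hs1 : 64 * R * s ≤ t ^ 2 * ρ) {z₀ : Cn n} (hz₀ : ‖z₀‖ ≤ 1)
    (h0 : t ≤ ‖inner ℂ (e : W) (L (cha 0 z₀))‖)
    (h1 : ‖(inner ℂ (e : W) (L (cha 0 z₀)))⁻¹ •
      (ℂ ∙ p)ᗮ.orthogonalProjectionOnto (L (cha 0 z₀)) - e‖ ≤ ρ / 2) :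
    DifferentiableOn ℂ (fun z => tg p e h (L (cha 0 z))) (ball z₀ s) ∧
      (∀ z ∈ ball z₀ s, ‖tg p e h (L (cha 0 z))‖ ≤ s⁻¹) ∧
      1 / 4 ≤ ‖fderiv ℂ (fun z => tg p e h (L (cha 0 z))) z₀‖ := by
  have ht2 : t ^ 2 ≤ t := by nlinarith
  have h64 : 64 * s ≤ 64 * R * s := by nlinarith
  have hst : 64 * s ≤ t * ρ := by nlinarith
  have hnear := fun z hz => PTub1_near (z := z) hL he hρ hρ1 ht hs hst h0 h1 hz
  have hbne : ∀ z ∈ ball z₀ s, inner ℂ (e : W) (L (cha 0 z)) ≠ 0 := by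
    intro z hz h
    have := (hnear z hz).1
    rw [h, norm_zero] at this
    linarith
  refine ⟨fun z hz => (PTub1_diffAt hh (hbne z hz) (hnear z hz).2).differentiableWithinAt, ?_, ?_⟩
  · intro z hz
    obtain ⟨h2, h3⟩ := hnear z hz
    have hs4 : s ≤ 1 / 256 := by nlinarith
    have hzn : ‖z‖ ≤ 1 + s := by
      have e1 : ‖z - z₀‖ < s := by rw [← dist_eq_norm]; exact hz
      have := norm_add_le (z - z₀) z₀
      rw [sub_add_cancel] at this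
      linarith
    have hx : ‖cha 0 z‖ ≤ 3 := by
      rw [norm_cha, Real.sqrt_le_left (by norm_num)]
      nlinarith [norm_nonneg z]
    have hy : ‖inner ℂ p (L (cha 0 z))‖ ≤ 3 := by
      calc ‖inner ℂ p (L (cha 0 z))‖ ≤ ‖p‖ * ‖L (cha 0 z)‖ := norm_inner_le_norm _ _
        _ ≤ 3 := by rw [hp, one_mul]; exact (hL.norm_le _).trans hx
    have h4 : ‖tg p e h (L (cha 0 z))‖ ≤ 3 / (t / 2) + R := by
      unfold tg
      refine (norm_sub_le _ _).trans (add_le_add ?_ (hb _ h3))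
      rw [norm_div]
      gcongr
    refine h4.trans ?_
    have h5 : 3 / (t / 2) + R ≤ 7 * R / t := by
      rw [le_div_iff₀ ht]
      have : (3 / (t / 2) + R) * t = 6 + R * t := by field_simp; ring
      rw [this]
      nlinarith
    refine h5.trans ?_
    rw [div_le_iff₀ ht, ← div_eq_inv_mul, le_div_iff₀ hs]
    nlinarith [mul_pos hs (by linarith : (0 : ℝ) < R)]
  · exact PTub1_grad hL hp hz₀ (hbne z₀ (mem_ball_self hs)) he
      (PTub1_diffAt hh (hbne z₀ (mem_ball_self hs)) (hnear z₀ (mem_ball_self hs)).2)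

end HMA

end S_MA_PTub1

section S_MA_PTub2

/-! # Module PTUB2: the capacity type condition implies the tube property -/

open MeasureTheory Metric Set
open scoped ENNReal Topology ContDiff

namespace HMA

theorem cha_embedding {n : ℕ} (i : Fin (n + 1)) : MeasurableEmbedding (cha (n := n) i) := by
  have h : Isometry (cha (n := n) i) := by
    refine Isometry.of_dist_eq fun z z' => ?_
    rw [dist_eq_norm, dist_eq_norm, cha_sub]
  exact h.isClosedEmbedding.measurableEmbedding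

/-- numerical inequality for the parameter `s` -/
theorem PTub2_num1 {ρ R : ℝ} (hρ : 0 < ρ) (hρ1 : ρ ≤ 1 / 4) (hR : 1 ≤ R) (M : ℕ) :
    64 * R * (ρ / (4 * R)) ^ (2 * M + 6) ≤ ((ρ / (4 * R)) ^ M) ^ 2 * ρ := by
  have hR0 : 0 < R := by linarith
  set q : ℝ := ρ / (4 * R) with hq
  have hq0 : 0 < q := by positivity
  have hq1 : q ≤ 1 / 16 := by
    rw [hq, div_le_iff₀ (by positivity)]
    nlinarith
  have hqR : 4 * R * q = ρ := by
    rw [hq]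
    field_simp
  have h1 : q ^ 5 ≤ 1 / 16 := by
    calc q ^ 5 ≤ q ^ 1 := pow_le_pow_of_le_one hq0.le (by linarith) (by norm_num)
      _ = q := pow_one q
      _ ≤ 1 / 16 := hq1
  have h2 : 64 * R * q ^ (2 * M + 6) = (q ^ M) ^ 2 * (4 * R * q) * (16 * q ^ 5) := by ring
  rw [h2, hqR]
  have h3 : 16 * q ^ 5 ≤ 1 := by linarith
  calc (q ^ M) ^ 2 * ρ * (16 * q ^ 5) ≤ (q ^ M) ^ 2 * ρ * 1 :=
        mul_le_mul_of_nonneg_left h3 (by positivity)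
    _ = _ := mul_one _

theorem PTub2_num2 {ρ R : ℝ} (hρ : 0 < ρ) (hρ1 : ρ ≤ 1 / 4) (hR : 1 ≤ R) (hR1 : R ≤ 1 / ρ)
    (κ M : ℕ) :
    64 * R * ρ ^ (3 * (κ * M) + 8 - 1) ≤ ((ρ / (4 * R)) ^ κ) ^ M := by
  have hR0 : 0 < R := by linarith
  have hRρ : R * ρ ≤ 1 := by
    rwa [le_div_iff₀ hρ] at hR1
  have h0 : 3 * (κ * M) + 8 - 1 = 3 * (κ * M) + 7 := by omega
  have h1 : ρ ^ 3 ≤ ρ / (4 * R) := by
    rw [le_div_iff₀ (by positivity)]
    have : ρ ^ 3 * (4 * R) = (4 * ρ) * ρ * (R * ρ) := by ring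
    rw [this]
    have h2 : 4 * ρ ≤ 1 := by linarith
    calc (4 * ρ) * ρ * (R * ρ) ≤ 1 * ρ * 1 := by
          apply mul_le_mul _ hRρ (by positivity) (by positivity)
          exact mul_le_mul_of_nonneg_right h2 hρ.le
      _ = ρ := by ring
  rw [h0, ← pow_mul]
  calc 64 * R * ρ ^ (3 * (κ * M) + 7) = (R * ρ) * (64 * ρ ^ 3) * ρ ^ 3 * (ρ ^ 3) ^ (κ * M) := by
        rw [← pow_mul]
        ring
    _ ≤ 1 * 1 * 1 * (ρ ^ 3) ^ (κ * M) := by
        have h3 : ρ ^ 3 ≤ (1 / 4) ^ 3 := pow_le_pow_left₀ hρ.le hρ1 3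
        have h4 : 64 * ρ ^ 3 ≤ 1 := by
          norm_num at h3
          linarith
        have h5 : ρ ^ 3 ≤ 1 := by
          norm_num at h3
          linarith
        gcongr
    _ = (ρ ^ 3) ^ (κ * M) := by ring
    _ ≤ (ρ / (4 * R)) ^ (κ * M) := pow_le_pow_left₀ (by positivity) h1 _

theorem tub_of_polyB (n : ℕ) (hn : 1 ≤ n) {C ε Λ : ℝ} (hC : 0 < C) (hε : 0 < ε) (hΛ : 0 ≤ Λ) :
    ∃ (N : ℕ) (C₁ : ℝ), 3 ≤ N ∧ 0 < C₁ ∧
    ∀ (μ : Measure (Cn n)), μ univ ≤ ENNReal.ofReal C → μ {z | 1 < ‖z‖} = 0 → PolyB n μ C ε →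
      (μ.map (cha 0)) {x | x ≠ 0} ≤ ENNReal.ofReal C₁ ∧ Tub (Cn (n + 1)) (μ.map (cha 0)) N C₁ Λ := by
  obtain ⟨M₂, C₂, hC₂, hlin⟩ := slab_lin n hn hC hε hΛ
  obtain ⟨M₃, C₃, hM₃, hC₃, hslab⟩ := slab n hn (C := C) (ε := ε) (Λ := 16 * n + Λ) hC hε
    (by positivity)
  obtain ⟨B, hB, hnet⟩ := net n
  set κ : ℕ := 2 * M₂ + 6 with hκ
  set C₁ : ℝ := C + Λ + C₂ + B ^ (2 * n) * C₃ + 1 with hC₁
  have hBC : 0 < B ^ (2 * n) * C₃ := by positivity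
  have hC₁0 : 0 < C₁ := by positivity
  refine ⟨3 * (κ * M₃) + 8, C₁, by omega, hC₁0, ?_⟩
  intro μ hμ hμ1 hP
  constructor
  · calc (μ.map (cha 0)) {x | x ≠ 0} ≤ (μ.map (cha 0)) univ := measure_mono (subset_univ _)
      _ = μ univ := by
        rw [(cha_embedding 0).map_apply, preimage_univ]
      _ ≤ ENNReal.ofReal C := hμ
      _ ≤ ENNReal.ofReal C₁ := ENNReal.ofReal_le_ofReal (by rw [hC₁]; linarith)
  intro W _ _ _ L hL p e h ρ R hp he hρ hρ1 hR hh hb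
  rw [(cha_embedding 0).map_apply]
  have hR0 : 0 < R := by linarith
  have hRC : 1 ≤ R ^ C₁ := Real.one_le_rpow hR hC₁0.le
  have hρΛ : 0 < ρ ^ Λ := Real.rpow_pos_of_pos hρ Λ
  rcases lt_or_ge (1 / ρ) R with hRρ | hRρ
  · -- trivial bound
    refine (measure_mono (subset_univ _)).trans (hμ.trans (ENNReal.ofReal_le_ofReal ?_))
    have h1 : 1 ≤ R * ρ := by
      rw [div_lt_iff₀ hρ] at hRρ
      exact hRρ.le
    have h2 : R ^ Λ ≤ R ^ C₁ := Real.rpow_le_rpow_of_exponent_le hR (by rw [hC₁]; linarith)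
    have h3 : 1 ≤ R ^ Λ * ρ ^ Λ := by
      rw [← Real.mul_rpow hR0.le hρ.le]
      exact Real.one_le_rpow h1 hΛ
    calc C ≤ C₁ * 1 := by rw [hC₁]; linarith
      _ ≤ C₁ * (R ^ Λ * ρ ^ Λ) := mul_le_mul_of_nonneg_left h3 hC₁0.le
      _ ≤ C₁ * (R ^ C₁ * ρ ^ Λ) := by gcongr
      _ = C₁ * R ^ C₁ * ρ ^ Λ := by ring
  set q : ℝ := ρ / (4 * R) with hq
  have hq0 : 0 < q := by positivity
  have hq1 : q ≤ 1 / 16 := by
    rw [hq, div_le_iff₀ (by positivity)]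
    nlinarith
  have hqρ : q ≤ ρ := by
    rw [hq]
    exact div_le_self hρ.le (by linarith)
  set t : ℝ := q ^ M₂ with ht
  set s : ℝ := q ^ κ with hs
  have ht0 : 0 < t := by positivity
  have ht1 : t ≤ 1 := pow_le_one₀ hq0.le (by linarith)
  have hs0 : 0 < s := by positivity
  have hsq : s ≤ q := by
    calc s = q ^ κ := rfl
      _ ≤ q ^ 1 := pow_le_pow_of_le_one hq0.le (by linarith) (by omega)
      _ = q := pow_one q
  obtain ⟨J, hJ⟩ := hL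
  -- the two cases
  set SA : Set (Cn n) := {z | ‖z‖ ≤ 1 ∧ ‖inner ℂ (J (e : W)) (cha 0 z)‖ ≤ q ^ M₂} with hSA
  set SB : Set (Cn n) := {z | ‖z‖ ≤ 1 ∧ L (cha 0 z) ∈ tube p e h (ρ ^ 2) (ρ ^ (3 * (κ * M₃) + 8)) ∧
    t ≤ ‖inner ℂ (e : W) (L (cha 0 z))‖} with hSB
  have hinner : ∀ x : Cn (n + 1), ‖inner ℂ (J (e : W)) x‖ = ‖inner ℂ (e : W) (L x)‖ := by
    intro x
    rw [← norm_inner_symm (L x) (e : W), hJ x (e : W), norm_inner_symm]
  have hcover : (cha 0 ⁻¹' {x | L x ∈ tube p e h (ρ ^ 2) (ρ ^ (3 * (κ * M₃) + 8))}) ⊆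
      {z | 1 < ‖z‖} ∪ (SA ∪ SB) := by
    intro z hz
    rcases lt_or_ge 1 ‖z‖ with h1 | h1
    · exact Or.inl h1
    · refine Or.inr ?_
      rcases le_total ‖inner ℂ (e : W) (L (cha 0 z))‖ t with h2 | h2
      · refine Or.inl ⟨h1, ?_⟩
        rw [hinner]
        exact h2
      · exact Or.inr ⟨h1, hz, h2⟩
  have hA : μ SA ≤ ENNReal.ofReal (C₂ * ρ ^ Λ) := by
    refine (hlin μ hμ hP (J (e : W)) q ?_ hq0 (by linarith)).trans (ENNReal.ofReal_le_ofReal ?_)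
    · rw [J.norm_map]
      exact he
    · exact mul_le_mul_of_nonneg_left (Real.rpow_le_rpow hq0.le hqρ hΛ) hC₂.le
  have hBm : μ SB ≤ ENNReal.ofReal (B ^ (2 * n) * C₃ * ρ ^ Λ) := by
    obtain ⟨T, hTS, hTc, hTn⟩ := hnet (Cn n) (by simp) SB (fun z hz => hz.1) (s ^ 8)
      (by positivity) (pow_le_one₀ hs0.le (by linarith))
    have hsub : SB ⊆ ⋃ z₀ ∈ T, {z | ‖z - z₀‖ ≤ s ^ 8 ∧
        ‖tg p e h (L (cha 0 z)) - tg p e h (L (cha 0 z₀))‖ ≤ s ^ M₃} := by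
      intro z hz
      obtain ⟨z₀, hz₀T, hz₀⟩ := hTn z hz
      have hz₀S : z₀ ∈ SB := hTS hz₀T
      simp only [mem_iUnion, exists_prop]
      refine ⟨z₀, hz₀T, hz₀, ?_⟩
      have h1 := (tg_tube hp he hρ hρ1 hR hh hb (by omega) hz.2.1).2.2.2
      have h2 := (tg_tube hp he hρ hρ1 hR hh hb (by omega) hz₀S.2.1).2.2.2
      calc ‖tg p e h (L (cha 0 z)) - tg p e h (L (cha 0 z₀))‖
          ≤ ‖tg p e h (L (cha 0 z))‖ + ‖tg p e h (L (cha 0 z₀))‖ := norm_sub_le _ _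
        _ ≤ 32 * R * ρ ^ (3 * (κ * M₃) + 8 - 1) + 32 * R * ρ ^ (3 * (κ * M₃) + 8 - 1) :=
            add_le_add h1 h2
        _ = 64 * R * ρ ^ (3 * (κ * M₃) + 8 - 1) := by ring
        _ ≤ s ^ M₃ := PTub2_num2 hρ hρ1 hR hRρ κ M₃
    have hone : ∀ z₀ ∈ T, μ {z | ‖z - z₀‖ ≤ s ^ 8 ∧
        ‖tg p e h (L (cha 0 z)) - tg p e h (L (cha 0 z₀))‖ ≤ s ^ M₃} ≤
          ENNReal.ofReal (C₃ * s ^ (16 * (n : ℝ) + Λ)) := by
      intro z₀ hz₀T
      have hz₀S : z₀ ∈ SB := hTS hz₀T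
      have h1 := (tg_tube hp he hρ hρ1 hR hh hb (by omega) hz₀S.2.1).2.2.1
      obtain ⟨h2, h3, h4⟩ := tg_local ⟨J, hJ⟩ hp he hρ hρ1 hR hh hb ht0 ht1 hs0
        (PTub2_num1 hρ hρ1 hR M₂) hz₀S.1 hz₀S.2.2 h1
      exact hslab μ hμ hP z₀ (fun z => tg p e h (L (cha 0 z))) s hz₀S.1 hs0 (by linarith) h2 h3
        (by linarith)
    calc μ SB ≤ μ (⋃ z₀ ∈ T, {z | ‖z - z₀‖ ≤ s ^ 8 ∧
          ‖tg p e h (L (cha 0 z)) - tg p e h (L (cha 0 z₀))‖ ≤ s ^ M₃}) := measure_mono hsub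
      _ ≤ ∑ z₀ ∈ T, μ {z | ‖z - z₀‖ ≤ s ^ 8 ∧
          ‖tg p e h (L (cha 0 z)) - tg p e h (L (cha 0 z₀))‖ ≤ s ^ M₃} :=
          measure_biUnion_finset_le _ _
      _ ≤ ∑ _z₀ ∈ T, ENNReal.ofReal (C₃ * s ^ (16 * (n : ℝ) + Λ)) := Finset.sum_le_sum hone
      _ = (T.card : ℝ≥0∞) * ENNReal.ofReal (C₃ * s ^ (16 * (n : ℝ) + Λ)) := by
          rw [Finset.sum_const, nsmul_eq_mul]
      _ = ENNReal.ofReal ((T.card : ℝ) * (C₃ * s ^ (16 * (n : ℝ) + Λ))) := by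
          rw [ENNReal.ofReal_mul (Nat.cast_nonneg _), ENNReal.ofReal_natCast]
      _ ≤ ENNReal.ofReal (B ^ (2 * n) * C₃ * ρ ^ Λ) := by
          refine ENNReal.ofReal_le_ofReal ?_
          have h5 : s ^ (16 * (n : ℝ) + Λ) = s ^ (16 * n) * s ^ Λ := by
            rw [Real.rpow_add hs0, ← Real.rpow_natCast s (16 * n)]
            push_cast
            rfl
          have h6 : (B / s ^ 8) ^ (2 * n) * s ^ (16 * n) = B ^ (2 * n) := by
            rw [div_pow, ← pow_mul, show 8 * (2 * n) = 16 * n by ring]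
            field_simp
          have h7 : s ^ Λ ≤ ρ ^ Λ := Real.rpow_le_rpow hs0.le (hsq.trans hqρ) hΛ
          calc (T.card : ℝ) * (C₃ * s ^ (16 * (n : ℝ) + Λ))
              ≤ (B / s ^ 8) ^ (2 * n) * (C₃ * s ^ (16 * (n : ℝ) + Λ)) :=
                mul_le_mul_of_nonneg_right hTc (by positivity)
            _ = ((B / s ^ 8) ^ (2 * n) * s ^ (16 * n)) * C₃ * s ^ Λ := by
                rw [h5]
                ring
            _ = B ^ (2 * n) * C₃ * s ^ Λ := by rw [h6]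
            _ ≤ B ^ (2 * n) * C₃ * ρ ^ Λ := mul_le_mul_of_nonneg_left h7 hBC.le
  calc μ (cha 0 ⁻¹' {x | L x ∈ tube p e h (ρ ^ 2) (ρ ^ (3 * (κ * M₃) + 8))})
      ≤ μ ({z | 1 < ‖z‖} ∪ (SA ∪ SB)) := measure_mono hcover
    _ ≤ μ {z | 1 < ‖z‖} + (μ SA + μ SB) :=
        (measure_union_le _ _).trans (add_le_add le_rfl (measure_union_le _ _))
    _ ≤ 0 + (ENNReal.ofReal (C₂ * ρ ^ Λ) + ENNReal.ofReal (B ^ (2 * n) * C₃ * ρ ^ Λ)) := by
        rw [hμ1]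
        gcongr
    _ = ENNReal.ofReal ((C₂ + B ^ (2 * n) * C₃) * ρ ^ Λ) := by
        rw [zero_add, ← ENNReal.ofReal_add (by positivity) (by positivity)]
        congr 1
        ring
    _ ≤ ENNReal.ofReal (C₁ * R ^ C₁ * ρ ^ Λ) := by
        refine ENNReal.ofReal_le_ofReal ?_
        refine mul_le_mul_of_nonneg_right ?_ hρΛ.le
        calc C₂ + B ^ (2 * n) * C₃ ≤ C₁ * 1 := by rw [hC₁]; linarith
          _ ≤ C₁ * R ^ C₁ := mul_le_mul_of_nonneg_left hRC hC₁0.le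

end HMA

end S_MA_PTub2
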