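import Mathlib
import Pool.Agent.H85.MG.G1a
import Pool.Agent.H85.MG.G2a
import Pool.Agent.H85.MG.G2b
import Pool.Agent.H85.MG.G2c

/-! Moderate measures and Hölder continuous potentials, part G3c: this file joins several modules to save build time. -/

section S_KM_LocGlob

/-! # Module LocGlob: the local sub-mean value property implies the global one -/

open MeasureTheory Metric Set
open scoped ENNReal Topology ContDiff ComplexOrder

namespace HMA

/-- continuous functions with the mean value property -/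
structure LocGlob_MV (F : ℂ → ℂ) : Prop where
  cont : Continuous F
  mv : ∀ (c : ℂ) (s : ℝ), Real.circleAverage F c s = F c

theorem LocGlob_MV.add {F G : ℂ → ℂ} (hF : LocGlob_MV F) (hG : LocGlob_MV G) :
    LocGlob_MV (fun z => F z + G z) := by
  refine ⟨hF.cont.add hG.cont, fun c s => ?_⟩
  rw [Real.circleAverage_fun_add hF.cont.continuousOn.circleIntegrable'
    hG.cont.continuousOn.circleIntegrable', hF.mv, hG.mv]

theorem LocGlob_MV.smul {F : ℂ → ℂ} (hF : LocGlob_MV F) (a : ℂ) :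
    LocGlob_MV (fun z => a * F z) := by
  refine ⟨continuous_const.mul hF.cont, fun c s => ?_⟩
  have h := Real.circleAverage_fun_smul (a := a) (f := F) (c := c) (R := s)
  simp only [smul_eq_mul] at h
  rw [h, hF.mv]

theorem LocGlob_MV.pow (n : ℕ) : LocGlob_MV (fun z => z ^ n) := by
  refine ⟨continuous_pow n, fun c s => ?_⟩
  exact DiffContOnCl.circleAverage ((differentiable_pow n).diffContOnCl)

theorem LocGlob_MV.conj {F : ℂ → ℂ} (hF : LocGlob_MV F) :
    LocGlob_MV (fun z => (starRingEnd ℂ) (F z)) := by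
  refine ⟨Complex.continuous_conj.comp hF.cont, fun c s => ?_⟩
  have h := (Complex.conjCLE : ℂ →L[ℝ] ℂ).circleAverage_comp_comm
    (f := F) (c := c) (R := s) hF.cont.continuousOn.circleIntegrable'
  rw [hF.mv] at h
  simpa [Function.comp_def] using h

theorem LocGlob_span (f : C(AddCircle (2 * Real.pi), ℂ))
    (hf : f ∈ Submodule.span ℂ (range (@fourier (2 * Real.pi)))) :
    ∃ F : ℂ → ℂ, LocGlob_MV F ∧ ∀ x, f x = F (AddCircle.toCircle x : ℂ) := by
  induction hf using Submodule.span_induction with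
  | mem f hf =>
    obtain ⟨n, rfl⟩ := hf
    obtain ⟨m, rfl | rfl⟩ := n.eq_nat_or_neg
    · refine ⟨fun z => z ^ m, LocGlob_MV.pow m, fun x => ?_⟩
      rw [fourier_apply, AddCircle.toCircle_zsmul]
      simp
    · refine ⟨fun z => (starRingEnd ℂ) (z ^ m), (LocGlob_MV.pow m).conj, fun x => ?_⟩
      rw [fourier_neg, fourier_apply, AddCircle.toCircle_zsmul]
      simp
  | zero =>
    refine ⟨fun _ => 0, ⟨continuous_const, fun c s => by simp [Real.circleAverage_const]⟩,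
      fun x => by simp⟩
  | add f g _ _ h1 h2 =>
    obtain ⟨F, hF, hF'⟩ := h1
    obtain ⟨G, hG, hG'⟩ := h2
    exact ⟨_, hF.add hG, fun x => by simp [hF', hG']⟩
  | smul a f _ h1 =>
    obtain ⟨F, hF, hF'⟩ := h1
    exact ⟨_, hF.smul a, fun x => by simp [hF']⟩

/-- harmonic approximation from above of continuous functions on the unit circle -/
theorem LocGlob_harm {g : ℂ → ℝ} (hg : Continuous g) {ε : ℝ} (hε : 0 < ε) :
    ∃ h : ℂ → ℝ, Continuous h ∧
      (∀ (c : ℂ) (s : ℝ), (2 * Real.pi)⁻¹ * ∫ θ in (0 : ℝ)..(2 * Real.pi),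
        h (c + s * Complex.exp (θ * Complex.I)) = h c) ∧
      ∀ z : ℂ, ‖z‖ = 1 → g z ≤ h z ∧ h z ≤ g z + 2 * ε := by
  have : Fact (0 < 2 * Real.pi) := ⟨Real.two_pi_pos⟩
  set G : C(AddCircle (2 * Real.pi), ℂ) :=
    ⟨fun x => ((g (AddCircle.toCircle x : ℂ) : ℝ) : ℂ),
      Complex.continuous_ofReal.comp (hg.comp
        (continuous_subtype_val.comp AddCircle.continuous_toCircle))⟩ with hG
  have h1 : G ∈ (Submodule.span ℂ (range (@fourier (2 * Real.pi)))).topologicalClosure := by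
    rw [span_fourier_closure_eq_top]; trivial
  rw [← SetLike.mem_coe, Submodule.topologicalClosure_coe, Metric.mem_closure_iff] at h1
  obtain ⟨f, hf, hfG⟩ := h1 ε hε
  obtain ⟨F, hF, hF'⟩ := LocGlob_span f hf
  refine ⟨fun z => (F z).re + ε, (Complex.continuous_re.comp hF.cont).add continuous_const,
    fun c s => ?_, fun z hz => ?_⟩
  · have h2 := hF.mv c s
    rw [Real.circleAverage_def] at h2
    have h3 : (∫ θ in (0 : ℝ)..(2 * Real.pi), F (circleMap c s θ)) = (2 * Real.pi : ℝ) • F c := by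
      rw [← h2, smul_smul, mul_inv_cancel₀ Real.two_pi_pos.ne', one_smul]
    have hint : IntervalIntegrable (fun θ : ℝ => F (circleMap c s θ)) volume 0 (2 * Real.pi) :=
      (hF.cont.comp (continuous_circleMap c s)).intervalIntegrable _ _
    have h4 := Complex.reCLM.intervalIntegral_comp_comm hint
    simp only [Complex.reCLM_apply] at h4
    rw [h3] at h4
    have h5 : (∫ θ in (0 : ℝ)..(2 * Real.pi), ((F (c + s * Complex.exp (θ * Complex.I))).re + ε)) =
        2 * Real.pi * ((F c).re + ε) := by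
      rw [intervalIntegral.integral_add]
      · have h6 : (∫ θ in (0 : ℝ)..(2 * Real.pi), (F (c + s * Complex.exp (θ * Complex.I))).re) =
            2 * Real.pi * (F c).re := by
          simp only [circleMap] at h4
          rw [h4]
          simp
        rw [h6]
        simp
        ring
      · exact (Continuous.intervalIntegrable (by
          have := hF.cont
          fun_prop) _ _)
      · exact continuous_const.intervalIntegrable _ _
    change (2 * Real.pi)⁻¹ * (∫ θ in (0 : ℝ)..(2 * Real.pi),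
      ((F (c + s * Complex.exp (θ * Complex.I))).re + ε)) = _
    rw [h5, ← mul_assoc, inv_mul_cancel₀ Real.two_pi_pos.ne', one_mul]
  · obtain ⟨x, hx⟩ := (AddCircle.homeomorphCircle (T := 2 * Real.pi) Real.two_pi_pos.ne').surjective
      ⟨z, by simpa [Submonoid.unitSphere] using hz⟩
    have hx' : (AddCircle.toCircle x : ℂ) = z := by
      rw [← AddCircle.homeomorphCircle_apply Real.two_pi_pos.ne', hx]
    have h2 : ‖G x - f x‖ < ε := by
      have h3 := ContinuousMap.norm_coe_le_norm (G - f) x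
      rw [dist_eq_norm] at hfG
      simp only [ContinuousMap.coe_sub, Pi.sub_apply] at h3
      exact lt_of_le_of_lt h3 hfG
    rw [hF' x, hx'] at h2
    have h3 : G x = ((g z : ℝ) : ℂ) := by rw [hG]; simp [hx']
    rw [h3] at h2
    have h4 := (Complex.abs_re_le_norm _).trans_lt h2
    rw [Complex.sub_re, Complex.ofReal_re, abs_lt] at h4
    constructor <;> linarith [h4.1, h4.2]


/-- approximation from above of bounded usc functions on the circle by continuous functions -/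
theorem LocGlob_usc {φ : ℂ → ℝ} (hφ : UpperSemicontinuousOn φ (sphere (0 : ℂ) 1)) {M : ℝ}
    (hM : ∀ z : ℂ, ‖z‖ = 1 → |φ z| ≤ M) {ε : ℝ} (hε : 0 < ε) :
    ∃ g : ℂ → ℝ, Continuous g ∧ (∀ z : ℂ, ‖z‖ = 1 → φ z ≤ g z) ∧
      (2 * Real.pi)⁻¹ * (∫ θ in (0 : ℝ)..(2 * Real.pi), g (Complex.exp (θ * Complex.I))) ≤
      (2 * Real.pi)⁻¹ * (∫ θ in (0 : ℝ)..(2 * Real.pi), φ (Complex.exp (θ * Complex.I))) + ε := by
  have hM0 : 0 ≤ M := (abs_nonneg _).trans (hM 1 (by simp))
  set S : Set ℂ := sphere (0 : ℂ) 1 with hS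
  have hSm : ∀ z : ℂ, z ∈ S ↔ ‖z‖ = 1 := fun z => by simp [hS]
  have hSne : S.Nonempty := ⟨1, by simp [hS]⟩
  set G : ℕ → ℂ → ℝ := fun k x => sSup ((fun y => φ y - k * dist x y) '' S) with hG
  have hbdd : ∀ (k : ℕ) (x : ℂ), BddAbove ((fun y => φ y - k * dist x y) '' S) := by
    intro k x
    refine ⟨M, ?_⟩
    rintro _ ⟨y, hy, rfl⟩
    have h1 := (abs_le.1 (hM y ((hSm y).1 hy))).2
    have h2 : 0 ≤ (k : ℝ) * dist x y := by positivity
    simp only
    linarith
  have hle : ∀ (k : ℕ) (x y : ℂ), y ∈ S → φ y - k * dist x y ≤ G k x := fun k x y hy =>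
    le_csSup (hbdd k x) ⟨y, hy, rfl⟩
  have hge : ∀ (k : ℕ) (x : ℂ) (c : ℝ), (∀ y ∈ S, φ y - k * dist x y ≤ c) → G k x ≤ c := by
    intro k x c h
    refine csSup_le (hSne.image _) ?_
    rintro _ ⟨y, hy, rfl⟩
    exact h y hy
  have hlip : ∀ k : ℕ, Continuous (G k) := by
    intro k
    have h1 : LipschitzWith k (G k) := by
      refine LipschitzWith.of_le_add_mul _ fun x y => ?_
      refine hge k x _ fun z hz => ?_
      have h2 := hle k y z hz
      have h3 : dist y z ≤ dist x y + dist x z := by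
        rw [dist_comm x y]; exact dist_triangle _ _ _
      have h4 : (k : ℝ) * dist y z ≤ k * (dist x y + dist x z) :=
        mul_le_mul_of_nonneg_left h3 (Nat.cast_nonneg k)
      simp only [NNReal.coe_natCast]
      linarith
    exact h1.continuous
  have hup : ∀ (k : ℕ) (z : ℂ), ‖z‖ = 1 → φ z ≤ G k z := by
    intro k z hz
    have := hle k z z ((hSm z).2 hz)
    simpa using this
  have hGM : ∀ (k : ℕ) (z : ℂ), G k z ≤ M := by
    intro k z
    refine hge k z _ fun y hy => ?_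
    have h1 := (abs_le.1 (hM y ((hSm y).1 hy))).2
    have h2 : 0 ≤ (k : ℝ) * dist z y := by positivity
    linarith
  have hlim : ∀ z : ℂ, ‖z‖ = 1 → Filter.Tendsto (fun k => G k z) Filter.atTop (𝓝 (φ z)) := by
    intro z hz
    rw [Metric.tendsto_atTop]
    intro e he
    have h1 := hφ z ((hSm z).2 hz) (φ z + e / 2) (by linarith)
    rw [Filter.Eventually, Metric.mem_nhdsWithin_iff] at h1
    obtain ⟨δ, hδ, h1⟩ := h1
    obtain ⟨N, hN⟩ := exists_nat_gt (2 * M / δ)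
    refine ⟨N, fun k hk => ?_⟩
    have hkN : 2 * M ≤ k * δ := by
      have h2 : (N : ℝ) ≤ k := by exact_mod_cast hk
      rw [div_lt_iff₀ hδ] at hN
      nlinarith
    have h3 : G k z ≤ φ z + e / 2 := by
      refine hge k z _ fun y hy => ?_
      by_cases hd : dist z y < δ
      · have h4 : y ∈ ball z δ ∩ S := ⟨by rwa [mem_ball, dist_comm], hy⟩
        have h5 : φ y < φ z + e / 2 := h1 h4
        have h6 : 0 ≤ (k : ℝ) * dist z y := by positivity
        linarith
      · push Not at hd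
        have h4 := (abs_le.1 (hM y ((hSm y).1 hy))).2
        have h5 := (abs_le.1 (hM z hz)).1
        have h6 : (k : ℝ) * δ ≤ k * dist z y := mul_le_mul_of_nonneg_left hd (Nat.cast_nonneg k)
        linarith
    rw [Real.dist_eq, abs_lt]
    have h4 := hup k z hz
    constructor <;> linarith
  have hcirc : Continuous (fun θ : ℝ => Complex.exp (θ * Complex.I)) := by fun_prop
  have hcn : ∀ θ : ℝ, ‖Complex.exp (θ * Complex.I)‖ = 1 := fun θ => Complex.norm_exp_ofReal_mul_I θ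
  have hlimI : Filter.Tendsto (fun k => ∫ θ in (0 : ℝ)..(2 * Real.pi),
      G k (Complex.exp (θ * Complex.I))) Filter.atTop
      (𝓝 (∫ θ in (0 : ℝ)..(2 * Real.pi), φ (Complex.exp (θ * Complex.I)))) := by
    refine intervalIntegral.tendsto_integral_filter_of_dominated_convergence (fun _ => M) ?_ ?_ ?_ ?_
    · exact Filter.Eventually.of_forall fun k => ((hlip k).comp hcirc).aestronglyMeasurable
    · refine Filter.Eventually.of_forall fun k => ae_of_all _ fun θ _ => ?_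
      rw [Real.norm_eq_abs, abs_le]
      refine ⟨?_, hGM k _⟩
      have h1 := hup k _ (hcn θ)
      have h2 := (abs_le.1 (hM _ (hcn θ))).1
      linarith
    · exact intervalIntegrable_const
    · exact ae_of_all _ fun θ _ => hlim _ (hcn θ)
  have h1 := hlimI.const_mul ((2 * Real.pi)⁻¹)
  have h2 := (h1.eventually (gt_mem_nhds (lt_add_of_pos_right _ hε))).exists
  obtain ⟨k, hk⟩ := h2
  exact ⟨G k, hlip k, hup k, hk.le⟩

/-- the maximum principle -/
theorem LocGlob_max {φ h : ℂ → ℝ} (hφ : UpperSemicontinuousOn φ (closedBall (0 : ℂ) 1))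
    (hh : Continuous h)
    (hm : ∀ (c : ℂ) (s : ℝ), (2 * Real.pi)⁻¹ * ∫ θ in (0 : ℝ)..(2 * Real.pi),
        h (c + s * Complex.exp (θ * Complex.I)) = h c)
    (hloc : ∀ c : ℂ, ‖c‖ < 1 → ∃ r > 0, ∀ s : ℝ, 0 < s → s ≤ r →
      IntervalIntegrable (fun θ : ℝ => φ (c + s * Complex.exp (θ * Complex.I))) volume 0
        (2 * Real.pi) ∧
      φ c ≤ (2 * Real.pi)⁻¹ * ∫ θ in (0 : ℝ)..(2 * Real.pi),
        φ (c + s * Complex.exp (θ * Complex.I)))
    (hb : ∀ z : ℂ, ‖z‖ = 1 → φ z ≤ h z) : φ 0 ≤ h 0 := by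
  have hpi := Real.two_pi_pos
  by_contra hcon
  push Not at hcon
  set ε : ℝ := (φ 0 - h 0) / 2 with hε
  have hε0 : 0 < ε := by rw [hε]; linarith
  set ψ : ℂ → ℝ := fun z => φ z + (-(h z) + ε * ‖z‖ ^ 2 - ε) with hψ
  have hψu : UpperSemicontinuousOn ψ (closedBall (0 : ℂ) 1) := by
    refine hφ.add ?_
    have h1 : Continuous (fun z : ℂ => -(h z) + ε * ‖z‖ ^ 2 - ε) := by fun_prop
    exact h1.upperSemicontinuous.upperSemicontinuousOn _
  obtain ⟨c, hc, hcmax⟩ := hψu.exists_isMaxOn ⟨0, by simp⟩ (isCompact_closedBall _ _)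
  have hc0 : ψ 0 ≤ ψ c := hcmax (by simp : (0 : ℂ) ∈ closedBall (0 : ℂ) 1)
  have hψ0 : 0 < ψ 0 := by
    simp only [hψ, norm_zero]
    have : φ 0 - h 0 = 2 * ε := by rw [hε]; ring
    nlinarith
  have hc1 : ‖c‖ < 1 := by
    rcases lt_or_eq_of_le (mem_closedBall_zero_iff.1 hc) with h1 | h1
    · exact h1
    · exfalso
      have h2 := hb c h1
      have h3 : ψ c ≤ 0 := by
        simp only [hψ, h1]
        linarith
      linarith
  obtain ⟨r, hr, hloc⟩ := hloc c hc1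
  set s : ℝ := min r (1 - ‖c‖) with hs
  have hs0 : 0 < s := lt_min hr (by linarith)
  obtain ⟨hint, hle⟩ := hloc s hs0 (min_le_left _ _)
  have hin : ∀ θ : ℝ, c + s * Complex.exp (θ * Complex.I) ∈ closedBall (0 : ℂ) 1 := by
    intro θ
    rw [mem_closedBall_zero_iff]
    refine (norm_add_le _ _).trans ?_
    rw [norm_mul, Complex.norm_exp_ofReal_mul_I, Complex.norm_real, Real.norm_eq_abs,
      abs_of_pos hs0]
    have := min_le_right r (1 - ‖c‖)
    linarith
  -- the mean of `‖z‖ ^ 2`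
  have hsq : (∫ θ in (0 : ℝ)..(2 * Real.pi), ‖c + s * Complex.exp (θ * Complex.I)‖ ^ 2) =
      2 * Real.pi * (‖c‖ ^ 2 + s ^ 2) := by
    have h1 : ∀ θ : ℝ, ‖c + s * Complex.exp (θ * Complex.I)‖ ^ 2 =
        (‖c‖ ^ 2 + s ^ 2) + (2 * s * c.re * Real.cos θ + 2 * s * c.im * Real.sin θ) := by
      intro θ
      rw [← Complex.normSq_eq_norm_sq, ← Complex.normSq_eq_norm_sq, Complex.normSq_apply,
        Complex.normSq_apply]
      have e1 : (c + s * Complex.exp (θ * Complex.I)).re = c.re + s * Real.cos θ := by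
        rw [Complex.add_re, Complex.re_ofReal_mul, Complex.exp_ofReal_mul_I_re]
      have e2 : (c + s * Complex.exp (θ * Complex.I)).im = c.im + s * Real.sin θ := by
        rw [Complex.add_im, Complex.im_ofReal_mul, Complex.exp_ofReal_mul_I_im]
      rw [e1, e2]
      have := Real.sin_sq_add_cos_sq θ
      nlinarith
    simp_rw [h1]
    rw [intervalIntegral.integral_add (f := fun _ => ‖c‖ ^ 2 + s ^ 2) (by simp)
        (Continuous.intervalIntegrable (by fun_prop) _ _), intervalIntegral.integral_const,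
      intervalIntegral.integral_add (Continuous.intervalIntegrable (by fun_prop) _ _)
        (Continuous.intervalIntegrable (by fun_prop) _ _),
      intervalIntegral.integral_const_mul, intervalIntegral.integral_const_mul, integral_cos,
      integral_sin]
    simp
  have hcont : Continuous (fun θ : ℝ => c + s * Complex.exp (θ * Complex.I)) := by fun_prop
  have key : ∀ θ : ℝ, φ (c + s * Complex.exp (θ * Complex.I)) ≤
      (ψ c + ε) + (h (c + s * Complex.exp (θ * Complex.I)) -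
        ε * ‖c + s * Complex.exp (θ * Complex.I)‖ ^ 2) := by
    intro θ
    have h1 : ψ (c + s * Complex.exp (θ * Complex.I)) ≤ ψ c := hcmax (hin θ)
    simp only [hψ] at h1 ⊢
    linarith
  have hI : (∫ θ in (0 : ℝ)..(2 * Real.pi), φ (c + s * Complex.exp (θ * Complex.I))) ≤
      ∫ θ in (0 : ℝ)..(2 * Real.pi), ((ψ c + ε) + (h (c + s * Complex.exp (θ * Complex.I)) -
        ε * ‖c + s * Complex.exp (θ * Complex.I)‖ ^ 2)) := by
    refine intervalIntegral.integral_mono_on hpi.le hint ?_ (fun θ _ => key θ)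
    exact Continuous.intervalIntegrable (by fun_prop) _ _
  have hm' : (∫ θ in (0 : ℝ)..(2 * Real.pi), h (c + s * Complex.exp (θ * Complex.I))) =
      2 * Real.pi * h c := by
    rw [← hm c s, ← mul_assoc, mul_inv_cancel₀ hpi.ne', one_mul]
  rw [intervalIntegral.integral_add (by simp) (Continuous.intervalIntegrable (by fun_prop) _ _),
    intervalIntegral.integral_sub (Continuous.intervalIntegrable (by fun_prop) _ _)
      (Continuous.intervalIntegrable (by fun_prop) _ _),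
    intervalIntegral.integral_const_mul, hsq, hm'] at hI
  have h5 : (2 * Real.pi)⁻¹ * (∫ θ in (0 : ℝ)..(2 * Real.pi),
      φ (c + s * Complex.exp (θ * Complex.I))) ≤
      (ψ c + ε) + (h c - ε * (‖c‖ ^ 2 + s ^ 2)) := by
    rw [inv_mul_le_iff₀ hpi]
    refine hI.trans (le_of_eq ?_)
    simp
    ring
  have h6 : ψ c = φ c + (-(h c) + ε * ‖c‖ ^ 2 - ε) := rfl
  have h7 : 0 < ε * s ^ 2 := by positivity
  linarith

/-- restriction to circles is interval integrable -/
theorem LocGlob_int {n : ℕ} {Ω : Set (Cn n)} {v : Cn n → ℝ}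
    (hv : UpperSemicontinuousOn v Ω)
    (hb : ∀ L ⊆ Ω, IsCompact L → ∃ M : ℝ, ∀ z ∈ L, -M ≤ v z) (a b : Cn n)
    (hab : ∀ θ : ℝ, a + Complex.exp (θ * Complex.I) • b ∈ Ω) :
    IntervalIntegrable (fun θ : ℝ => v (a + Complex.exp (θ * Complex.I) • b)) volume 0
        (2 * Real.pi) ∧
      ∃ B : ℝ, ∀ θ : ℝ, |v (a + Complex.exp (θ * Complex.I) • b)| ≤ B := by
  set K : Set (Cn n) := (fun ζ : ℂ => a + ζ • b) '' sphere (0 : ℂ) 1 with hK
  have hKc : IsCompact K := (isCompact_sphere _ _).image (by fun_prop)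
  have hKi : ∀ θ : ℝ, a + Complex.exp (θ * Complex.I) • b ∈ K := fun θ =>
    ⟨Complex.exp (θ * Complex.I), by simp [Complex.norm_exp_ofReal_mul_I], rfl⟩
  have hKΩ : K ⊆ Ω := by
    rintro _ ⟨ζ, hζ, rfl⟩
    have h1 : ‖ζ‖ = 1 := by simpa using hζ
    have h2 : ζ = Complex.exp (Complex.arg ζ * Complex.I) := by
      have := Complex.norm_mul_exp_arg_mul_I ζ
      rw [h1] at this
      simpa using this.symm
    have h3 := hab (Complex.arg ζ)
    rw [← h2] at h3
    exact h3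
  obtain ⟨M1, hM1⟩ := hb K hKΩ hKc
  obtain ⟨M2, hM2⟩ := (hv.mono hKΩ).bddAbove_of_isCompact hKc
  have hbound : ∀ θ : ℝ, |v (a + Complex.exp (θ * Complex.I) • b)| ≤ max M1 M2 := by
    intro θ
    rw [abs_le]
    have h1 := hM1 _ (hKi θ)
    have h2 := hM2 (mem_image_of_mem v (hKi θ))
    have h3 := le_max_left M1 M2
    have h4 := le_max_right M1 M2
    constructor <;> linarith
  refine ⟨?_, _, hbound⟩
  have hu : UpperSemicontinuous (fun θ : ℝ => v (a + Complex.exp (θ * Complex.I) • b)) := by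
    intro θ y hy
    have h3 := hv _ (hab θ) y hy
    have h4 : Filter.Tendsto (fun θ : ℝ => a + Complex.exp (θ * Complex.I) • b) (𝓝 θ)
        (𝓝[Ω] (a + Complex.exp (θ * Complex.I) • b)) := by
      refine tendsto_nhdsWithin_iff.2 ⟨(lext_circ_cont a b).tendsto θ, ?_⟩
      exact Filter.Eventually.of_forall hab
    exact h4.eventually h3
  rw [intervalIntegrable_iff]
  refine Measure.integrableOn_of_bounded (M := max M1 M2) ?_ hu.measurable.aestronglyMeasurable ?_
  · rw [uIoc_of_le Real.two_pi_pos.le]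
    exact measure_Ioc_lt_top.ne
  · exact ae_of_all _ fun θ => by rw [Real.norm_eq_abs]; exact hbound θ

theorem loc_glob {n : ℕ} {Ω : Set (Cn n)} (hΩ : IsOpen Ω) {v : Cn n → ℝ}
    (hv : UpperSemicontinuousOn v Ω)
    (hb : ∀ L ⊆ Ω, IsCompact L → ∃ M : ℝ, ∀ z ∈ L, -M ≤ v z)
    (hloc : ∀ a ∈ Ω, ∃ r > 0, ∀ b : Cn n, ‖b‖ ≤ r → v a ≤ (2 * Real.pi)⁻¹ *
      ∫ θ in (0 : ℝ)..(2 * Real.pi), v (a + Complex.exp (θ * Complex.I) • b)) : SubOn Ω v := by
  intro a b hab
  set φ : ℂ → ℝ := fun ζ => v (a + ζ • b) with hφ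
  have hφu : UpperSemicontinuousOn φ (closedBall (0 : ℂ) 1) := by
    intro ζ hζ y hy
    have h3 := hv _ (hab ζ (by simpa using hζ)) y hy
    have h4 : Filter.Tendsto (fun ζ : ℂ => a + ζ • b) (𝓝[closedBall (0 : ℂ) 1] ζ)
        (𝓝[Ω] (a + ζ • b)) := by
      refine tendsto_nhdsWithin_iff.2 ⟨?_, ?_⟩
      · have : Continuous (fun ζ : ℂ => a + ζ • b) := by fun_prop
        exact (this.tendsto ζ).mono_left nhdsWithin_le_nhds
      · exact eventually_nhdsWithin_of_forall fun ζ hζ => hab ζ (by simpa using hζ)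
    exact h4.eventually h3
  have hexp : ∀ θ : ℝ, ‖Complex.exp (θ * Complex.I)‖ = 1 :=
    fun θ => Complex.norm_exp_ofReal_mul_I θ
  obtain ⟨-, B, hB⟩ := LocGlob_int hv hb a b (fun θ => hab _ (hexp θ).le)
  have hφB : ∀ z : ℂ, ‖z‖ = 1 → |φ z| ≤ B := by
    intro z hz
    have h2 : z = Complex.exp (Complex.arg z * Complex.I) := by
      have := Complex.norm_mul_exp_arg_mul_I z
      rw [hz] at this
      simpa using this.symm
    have h3 := hB (Complex.arg z)
    rw [← h2] at h3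
    exact h3
  have hlocφ : ∀ c : ℂ, ‖c‖ < 1 → ∃ r > 0, ∀ s : ℝ, 0 < s → s ≤ r →
      IntervalIntegrable (fun θ : ℝ => φ (c + s * Complex.exp (θ * Complex.I))) volume 0
        (2 * Real.pi) ∧
      φ c ≤ (2 * Real.pi)⁻¹ * ∫ θ in (0 : ℝ)..(2 * Real.pi),
        φ (c + s * Complex.exp (θ * Complex.I)) := by
    intro c hc
    obtain ⟨r, hr, h1⟩ := hloc (a + c • b) (hab c hc.le)
    refine ⟨min (r / (‖b‖ + 1)) (1 - ‖c‖), lt_min (by positivity) (by linarith), ?_⟩
    intro s hs hsr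
    have e1 : ∀ θ : ℝ, φ (c + s * Complex.exp (θ * Complex.I)) =
        v ((a + c • b) + Complex.exp (θ * Complex.I) • ((s : ℂ) • b)) := by
      intro θ
      simp only [hφ]
      congr 1
      rw [add_smul, ← add_assoc, smul_smul, mul_comm (s : ℂ)]
    simp_rw [e1]
    constructor
    · refine (LocGlob_int hv hb _ _ fun θ => ?_).1
      have h2 := hab (c + s * Complex.exp (θ * Complex.I)) ?_
      · convert h2 using 1
        rw [add_smul, ← add_assoc, smul_smul, mul_comm (s : ℂ)]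
      · refine (norm_add_le _ _).trans ?_
        rw [norm_mul, hexp, Complex.norm_real, Real.norm_eq_abs, abs_of_pos hs]
        have := hsr.trans (min_le_right _ _)
        linarith
    · refine h1 _ ?_
      rw [norm_smul, Complex.norm_real, Real.norm_eq_abs, abs_of_pos hs]
      have h2 := hsr.trans (min_le_left _ _)
      rw [le_div_iff₀ (by positivity)] at h2
      have := norm_nonneg b
      nlinarith
  have hmain : ∀ ε : ℝ, 0 < ε → φ 0 ≤ (2 * Real.pi)⁻¹ *
      (∫ θ in (0 : ℝ)..(2 * Real.pi), φ (Complex.exp (θ * Complex.I))) + ε := by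
    intro ε hε
    obtain ⟨g, hgc, hg1, hg2⟩ := LocGlob_usc (hφu.mono sphere_subset_closedBall) hφB
      (half_pos hε)
    obtain ⟨h, hhc, hhm, hh⟩ := LocGlob_harm hgc (show 0 < ε / 4 by positivity)
    have h1 := LocGlob_max hφu hhc hhm hlocφ (fun z hz => (hg1 z hz).trans (hh z hz).1)
    have h2 := hhm 0 1
    have hpi := Real.two_pi_pos
    have hcc : Continuous (fun θ : ℝ => Complex.exp (θ * Complex.I)) := by fun_prop
    have h3 : (∫ θ in (0 : ℝ)..(2 * Real.pi), h (0 + (1 : ℝ) * Complex.exp (θ * Complex.I))) ≤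
        ∫ θ in (0 : ℝ)..(2 * Real.pi), (g (Complex.exp (θ * Complex.I)) + ε / 2) := by
      refine intervalIntegral.integral_mono_on hpi.le ?_ ?_ (fun θ _ => ?_)
      · exact Continuous.intervalIntegrable (by fun_prop) _ _
      · exact Continuous.intervalIntegrable (by fun_prop) _ _
      · have h4 := (hh _ (hexp θ)).2
        simp only [zero_add, Complex.ofReal_one, one_mul]
        linarith
    rw [intervalIntegral.integral_add (Continuous.intervalIntegrable (by fun_prop) _ _)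
      (by simp)] at h3
    have h5 : h 0 ≤ (2 * Real.pi)⁻¹ *
        (∫ θ in (0 : ℝ)..(2 * Real.pi), g (Complex.exp (θ * Complex.I))) + ε / 2 := by
      rw [← h2, inv_mul_le_iff₀ hpi]
      refine h3.trans (le_of_eq ?_)
      rw [mul_add, ← mul_assoc, mul_inv_cancel₀ hpi.ne', one_mul]
      simp
      ring
    linarith
  have hfin := le_of_forall_pos_le_add hmain
  simpa [hφ] using hfin

/-- maximum of two functions -/
theorem sub_max {n : ℕ} {Ω : Set (Cn n)} {u v : Cn n → ℝ}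
    (hu : UpperSemicontinuousOn u Ω) (hv : UpperSemicontinuousOn v Ω)
    (hbu : ∀ L ⊆ Ω, IsCompact L → ∃ M : ℝ, ∀ z ∈ L, -M ≤ u z)
    (hbv : ∀ L ⊆ Ω, IsCompact L → ∃ M : ℝ, ∀ z ∈ L, -M ≤ v z)
    (hu1 : SubOn Ω u) (hv1 : SubOn Ω v) : SubOn Ω (fun z => max (u z) (v z)) := by
  intro a b hab
  have hexp : ∀ θ : ℝ, ‖Complex.exp (θ * Complex.I)‖ = 1 :=
    fun θ => Complex.norm_exp_ofReal_mul_I θ
  have hi1 := (LocGlob_int hu hbu a b (fun θ => hab _ (hexp θ).le)).1
  have hi2 := (LocGlob_int hv hbv a b (fun θ => hab _ (hexp θ).le)).1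
  have hi3 : IntervalIntegrable (fun θ : ℝ => max (u (a + Complex.exp (θ * Complex.I) • b))
      (v (a + Complex.exp (θ * Complex.I) • b))) volume 0 (2 * Real.pi) :=
    ⟨hi1.1.sup hi2.1, hi1.2.sup hi2.2⟩
  have hpi := Real.two_pi_pos
  refine max_le ?_ ?_
  · refine (hu1 a b hab).trans ?_
    refine mul_le_mul_of_nonneg_left ?_ (inv_nonneg.2 hpi.le)
    exact intervalIntegral.integral_mono_on hpi.le hi1 hi3 (fun θ _ => le_max_left _ _)
  · refine (hv1 a b hab).trans ?_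
    refine mul_le_mul_of_nonneg_left ?_ (inv_nonneg.2 hpi.le)
    exact intervalIntegral.integral_mono_on hpi.le hi2 hi3 (fun θ _ => le_max_right _ _)

end HMA

end S_KM_LocGlob

section S_MA_Sko1

/-! # Module SKO1: exponential decay of the sublevel sets of subharmonic functions in one variable -/

open MeasureTheory Metric Set
open scoped ENNReal Topology ContDiff

namespace HMA

/-- Blaschke factor of the disc of radius `r` -/
noncomputable def Sko1_bl (r : ℝ) (η ζ : ℂ) : ℂ :=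
  (r : ℂ) * (ζ - η) / ((r : ℂ) ^ 2 - (starRingEnd ℂ) η * ζ)

/-- truncated logarithm of the Blaschke factor -/
noncomputable def Sko1_k (r δ : ℝ) (η ζ : ℂ) : ℝ := Real.log (max ‖Sko1_bl r η ζ‖ δ)

lemma Sko1_den {r r' : ℝ} (hr' : 0 < r') (hr : r' < r) {η ζ : ℂ} (hη : ‖η‖ ≤ r') (hζ : ‖ζ‖ ≤ r) :
    r * (r - r') ≤ ‖(r : ℂ) ^ 2 - (starRingEnd ℂ) η * ζ‖ ∧
      ‖(r : ℂ) ^ 2 - (starRingEnd ℂ) η * ζ‖ ≤ 2 * r ^ 2 := by
  have hr0 : 0 < r := hr'.trans hr
  have h1 : ‖(r : ℂ) ^ 2‖ = r ^ 2 := by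
    rw [norm_pow, Complex.norm_real, Real.norm_of_nonneg hr0.le]
  have h2 : ‖(starRingEnd ℂ) η * ζ‖ ≤ r' * r := by
    rw [norm_mul, RCLike.norm_conj]
    exact mul_le_mul hη hζ (norm_nonneg _) hr'.le
  constructor
  · have := norm_sub_norm_le ((r : ℂ) ^ 2) ((starRingEnd ℂ) η * ζ)
    rw [h1] at this
    nlinarith
  · have := norm_sub_le ((r : ℂ) ^ 2) ((starRingEnd ℂ) η * ζ)
    rw [h1] at this
    nlinarith

lemma Sko1_bl_upper {r r' : ℝ} (hr' : 0 < r') (hr : r' < r) {η ζ : ℂ} (hη : ‖η‖ ≤ r')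
    (hζ : ‖ζ‖ ≤ r) : ‖Sko1_bl r η ζ‖ ≤ 2 * r / (r - r') := by
  have hr0 : 0 < r := hr'.trans hr
  obtain ⟨h1, h2⟩ := Sko1_den hr' hr hη hζ
  have hd : 0 < r * (r - r') := mul_pos hr0 (by linarith)
  unfold Sko1_bl
  rw [norm_div, norm_mul, Complex.norm_real, Real.norm_of_nonneg hr0.le,
    div_le_div_iff₀ (hd.trans_le h1) (by linarith)]
  have h3 : ‖ζ - η‖ ≤ 2 * r := (norm_sub_le _ _).trans (by linarith)
  calc r * ‖ζ - η‖ * (r - r') = ‖ζ - η‖ * (r * (r - r')) := by ring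
    _ ≤ (2 * r) * ‖(r : ℂ) ^ 2 - (starRingEnd ℂ) η * ζ‖ :=
        mul_le_mul h3 h1 hd.le (by linarith)

lemma Sko1_bl_lower {r r' : ℝ} (hr' : 0 < r') (hr : r' < r) {η ζ : ℂ} (hη : ‖η‖ ≤ r')
    (hζ : ‖ζ‖ ≤ r) : ‖ζ - η‖ / (2 * r) ≤ ‖Sko1_bl r η ζ‖ := by
  have hr0 : 0 < r := hr'.trans hr
  obtain ⟨h1, h2⟩ := Sko1_den hr' hr hη hζ
  have hd : 0 < r * (r - r') := mul_pos hr0 (by linarith)
  unfold Sko1_bl
  rw [norm_div, norm_mul, Complex.norm_real, Real.norm_of_nonneg hr0.le,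
    div_le_div_iff₀ (by linarith) (hd.trans_le h1)]
  calc ‖ζ - η‖ * ‖(r : ℂ) ^ 2 - (starRingEnd ℂ) η * ζ‖ ≤ ‖ζ - η‖ * (2 * r ^ 2) :=
        mul_le_mul_of_nonneg_left h2 (norm_nonneg _)
    _ = r * ‖ζ - η‖ * (2 * r) := by ring

lemma Sko1_bl_bdry {r r' : ℝ} (hr' : 0 < r') (hr : r' < r) {η ζ : ℂ} (hη : ‖η‖ ≤ r')
    (hζ : ‖ζ‖ = r) : ‖Sko1_bl r η ζ‖ = 1 := by
  have hr0 : 0 < r := hr'.trans hr
  have e : (r : ℂ) ^ 2 - (starRingEnd ℂ) η * ζ = ζ * (starRingEnd ℂ) (ζ - η) := by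
    rw [map_sub, mul_sub, Complex.mul_conj', hζ]
    ring
  have hne : ζ - η ≠ 0 := by
    intro h
    rw [sub_eq_zero.mp h] at hζ
    linarith
  unfold Sko1_bl
  rw [e, norm_div, norm_mul, norm_mul, RCLike.norm_conj, hζ, Complex.norm_real,
    Real.norm_of_nonneg hr0.le, div_self]
  exact mul_ne_zero hr0.ne' (norm_ne_zero_iff.mpr hne)

lemma Sko1_bl_zero {r : ℝ} (hr0 : 0 < r) (η : ℂ) : ‖Sko1_bl r η 0‖ = ‖η‖ / r := by
  unfold Sko1_bl
  rw [mul_zero, sub_zero, zero_sub, norm_div, norm_mul, norm_neg, Complex.norm_real,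
    Real.norm_of_nonneg hr0.le, norm_pow, Complex.norm_real, Real.norm_of_nonneg hr0.le]
  field_simp

lemma Sko1_k_bdd {r r' δ : ℝ} (hr' : 0 < r') (hr : r' < r) (hδ : 0 < δ) (hδ1 : δ ≤ 1) {η ζ : ℂ}
    (hη : ‖η‖ ≤ r') (hζ : ‖ζ‖ ≤ r) :
    |Sko1_k r δ η ζ| ≤ Real.log (1 / δ) + Real.log (2 * r / (r - r')) := by
  have hr0 : 0 < r := hr'.trans hr
  have hB : 1 ≤ 2 * r / (r - r') := by
    rw [le_div_iff₀ (by linarith)]
    linarith
  have h1 : Real.log δ ≤ Sko1_k r δ η ζ := Real.log_le_log hδ (le_max_right _ _)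
  have h2 : Sko1_k r δ η ζ ≤ Real.log (2 * r / (r - r')) := by
    refine Real.log_le_log (hδ.trans_le (le_max_right _ _)) ?_
    exact max_le (Sko1_bl_upper hr' hr hη hζ) (hδ1.trans hB)
  have h3 : 0 ≤ Real.log (2 * r / (r - r')) := Real.log_nonneg hB
  have h4 : 0 ≤ Real.log (1 / δ) := Real.log_nonneg (by rw [le_div_iff₀ hδ]; linarith)
  have h5 : Real.log (1 / δ) = - Real.log δ := by rw [one_div, Real.log_inv]
  rw [abs_le]
  constructor <;> linarith

lemma Sko1_k_meas (r δ : ℝ) : Measurable (fun p : ℂ × ℂ => Sko1_k r δ p.1 p.2) := by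
  unfold Sko1_k Sko1_bl
  have h1 : Measurable (fun p : ℂ × ℂ => (r : ℂ) * (p.2 - p.1) /
      ((r : ℂ) ^ 2 - (starRingEnd ℂ) p.1 * p.2)) := by
    refine Measurable.div (by fun_prop) ?_
    refine Measurable.sub measurable_const (Measurable.mul ?_ measurable_snd)
    exact (Complex.continuous_conj.measurable).comp measurable_fst
  exact Real.measurable_log.comp (h1.norm.max measurable_const)

/-- the unnormalised potential -/
noncomputable def Sko1_p (r δ : ℝ) (E : Set ℂ) (ζ : ℂ) : ℝ := ∫ η in E, Sko1_k r δ η ζ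

lemma Sko1_k_cont {r r' δ : ℝ} (hr' : 0 < r') (hr : r' < r) (hδ : 0 < δ) {η : ℂ}
    (hη : ‖η‖ ≤ r') : ContinuousOn (fun ζ => Sko1_k r δ η ζ) (closedBall 0 r) := by
  unfold Sko1_k Sko1_bl
  have hr0 : 0 < r := hr'.trans hr
  refine ContinuousOn.log ?_ ?_
  · refine ContinuousOn.sup (ContinuousOn.norm ?_) continuousOn_const
    refine ContinuousOn.div (by fun_prop) (by fun_prop) ?_
    intro ζ hζ h0
    have := (Sko1_den hr' hr hη (mem_closedBall_zero_iff.mp hζ)).1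
    rw [h0, norm_zero] at this
    have hd : 0 < r * (r - r') := mul_pos hr0 (by linarith)
    linarith
  · intro ζ _
    exact (hδ.trans_le (le_max_right _ _)).ne'

lemma Sko1_k_int {r r' δ : ℝ} (hr' : 0 < r') (hr : r' < r) (hδ : 0 < δ) (hδ1 : δ ≤ 1) {E : Set ℂ}
    (hEm : MeasurableSet E) (hE : ∀ η ∈ E, ‖η‖ ≤ r') (hEf : volume E < ⊤) {ζ : ℂ}
    (hζ : ‖ζ‖ ≤ r) : IntegrableOn (fun η => Sko1_k r δ η ζ) E := by
  refine Measure.integrableOn_of_bounded (M := Real.log (1 / δ) + Real.log (2 * r / (r - r')))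
    hEf.ne ?_ ?_
  · exact ((Sko1_k_meas r δ).comp (measurable_id.prodMk measurable_const)).aestronglyMeasurable
  · filter_upwards [ae_restrict_mem hEm] with η hη
    rw [Real.norm_eq_abs]
    exact Sko1_k_bdd hr' hr hδ hδ1 (hE η hη) hζ

lemma Sko1_p_cont {r r' δ : ℝ} (hr' : 0 < r') (hr : r' < r) (hδ : 0 < δ) (hδ1 : δ ≤ 1) {E : Set ℂ}
    (hEm : MeasurableSet E) (hE : ∀ η ∈ E, ‖η‖ ≤ r') (hEf : volume E < ⊤) :
    ContinuousOn (Sko1_p r δ E) (closedBall 0 r) := by
  unfold Sko1_p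
  refine continuousOn_of_dominated (bound := fun _ => Real.log (1 / δ) +
    Real.log (2 * r / (r - r'))) ?_ ?_ ?_ ?_
  · intro ζ _
    exact ((Sko1_k_meas r δ).comp (measurable_id.prodMk measurable_const)).aestronglyMeasurable
  · intro ζ hζ
    filter_upwards [ae_restrict_mem hEm] with η hη
    rw [Real.norm_eq_abs]
    exact Sko1_k_bdd hr' hr hδ hδ1 (hE η hη) (mem_closedBall_zero_iff.mp hζ)
  · exact integrableOn_const hEf.ne
  · filter_upwards [ae_restrict_mem hEm] with η hη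
    exact Sko1_k_cont hr' hr hδ (hE η hη)

lemma Sko1_p_bdry {r r' δ : ℝ} (hr' : 0 < r') (hr : r' < r) (hδ1 : δ ≤ 1) {E : Set ℂ}
    (hEm : MeasurableSet E) (hE : ∀ η ∈ E, ‖η‖ ≤ r') {ζ : ℂ} (hζ : ‖ζ‖ = r) :
    Sko1_p r δ E ζ = 0 := by
  unfold Sko1_p
  rw [setIntegral_congr_fun (g := fun _ => (0 : ℝ)) hEm]
  · simp
  · intro η hη
    simp only [Sko1_k]
    rw [Sko1_bl_bdry hr' hr (hE η hη) hζ, max_eq_left hδ1, Real.log_one]

lemma Sko1_p_zero {r r' δ : ℝ} (hr' : 0 < r') (hr : r' < r) (hδ : 0 < δ) (hδ1 : δ ≤ 1)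
    (hδ2 : δ ≤ r' / r) {E : Set ℂ}
    (hEm : MeasurableSet E) (hE : ∀ η ∈ E, ‖η‖ ≤ r') (hEf : volume E < ⊤) :
    Sko1_p r δ E 0 ≤ (volume E).toReal * Real.log (r' / r) := by
  have hr0 : 0 < r := hr'.trans hr
  unfold Sko1_p
  have h := setIntegral_mono_on (μ := volume) (s := E) (f := fun η => Sko1_k r δ η 0)
    (g := fun _ => Real.log (r' / r))
    (Sko1_k_int hr' hr hδ hδ1 hEm hE hEf (by simpa using hr0.le)) (integrableOn_const hEf.ne) hEm
    (by
      intro η hη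
      refine Real.log_le_log (hδ.trans_le (le_max_right _ _)) (max_le ?_ hδ2)
      rw [Sko1_bl_zero hr0]
      exact div_le_div_of_nonneg_right (hE η hη) hr0.le)
  refine h.trans (le_of_eq ?_)
  rw [setIntegral_const, smul_eq_mul]
  rfl

lemma Sko1_k_mean {r r' δ s : ℝ} (hr' : 0 < r') (hr : r' < r) (hδ : 0 < δ) {η a : ℂ}
    (hη : ‖η‖ ≤ r') (hs : 0 < s) (has : ‖a‖ + s ≤ r)
    (hfar : ∀ ζ ∈ closedBall a s, δ ≤ ‖Sko1_bl r η ζ‖) :
    (2 * Real.pi)⁻¹ * ∫ θ in (0 : ℝ)..(2 * Real.pi),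
      Sko1_k r δ η (a + Complex.exp (θ * Complex.I) * s) = Sko1_k r δ η a := by
  have hr0 : 0 < r := hr'.trans hr
  have hin : ∀ ζ ∈ closedBall a s, ‖ζ‖ ≤ r := by
    intro ζ hζ
    have h1 : ‖ζ - a‖ ≤ s := by rwa [mem_closedBall, dist_eq_norm] at hζ
    have h2 : ‖ζ‖ ≤ ‖ζ - a‖ + ‖a‖ := by
      have := norm_add_le (ζ - a) a
      rwa [sub_add_cancel] at this
    linarith
  have hk : ∀ ζ ∈ closedBall a s, Sko1_k r δ η ζ = Real.log ‖Sko1_bl r η ζ‖ := by
    intro ζ hζ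
    unfold Sko1_k
    rw [max_eq_left (hfar ζ hζ)]
  have han : AnalyticOnNhd ℂ (Sko1_bl r η) (closedBall a |s|) := by
    rw [abs_of_pos hs]
    intro ζ hζ
    unfold Sko1_bl
    refine AnalyticAt.div (by fun_prop) (by fun_prop) ?_
    intro h0
    have := (Sko1_den hr' hr hη (hin ζ hζ)).1
    rw [h0, norm_zero] at this
    have hd : 0 < r * (r - r') := mul_pos hr0 (by linarith)
    linarith
  have hne : ∀ u ∈ closedBall a |s|, Sko1_bl r η u ≠ 0 := by
    rw [abs_of_pos hs]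
    intro u hu h0
    have := hfar u hu
    rw [h0, norm_zero] at this
    linarith
  have h := AnalyticOnNhd.circleAverage_log_norm_of_ne_zero han hne
  rw [Real.circleAverage_def, smul_eq_mul] at h
  rw [hk a (mem_closedBall_self hs.le), ← h]
  congr 1
  refine intervalIntegral.integral_congr ?_
  intro θ _
  have e : a + Complex.exp (θ * Complex.I) * s = circleMap a s θ := by
    unfold circleMap
    ring
  have hm : circleMap a s θ ∈ closedBall a s := circleMap_mem_closedBall a hs.le θ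
  simp only
  rw [e, hk _ hm]

lemma Sko1_p_mean {r r' δ s : ℝ} (hr' : 0 < r') (hr : r' < r) (hδ : 0 < δ) (hδ1 : δ ≤ 1)
    {E : Set ℂ} (hEm : MeasurableSet E) (hE : ∀ η ∈ E, ‖η‖ ≤ r') (hEf : volume E < ⊤) {a : ℂ}
    (hs : 0 < s) (has : ‖a‖ + s ≤ r)
    (hfar : ∀ η ∈ E, ∀ ζ ∈ closedBall a s, δ ≤ ‖Sko1_bl r η ζ‖) :
    (2 * Real.pi)⁻¹ * ∫ θ in (0 : ℝ)..(2 * Real.pi),
      Sko1_p r δ E (a + Complex.exp (θ * Complex.I) * s) = Sko1_p r δ E a := by
  have hpi : (0 : ℝ) ≤ 2 * Real.pi := by positivity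
  have hin : ∀ θ : ℝ, ‖a + Complex.exp (θ * Complex.I) * s‖ ≤ r := by
    intro θ
    refine (norm_add_le _ _).trans ?_
    rw [norm_mul, Complex.norm_exp_ofReal_mul_I, one_mul, Complex.norm_real,
      Real.norm_of_nonneg hs.le]
    exact has
  have : IsFiniteMeasure (volume.restrict E) := ⟨by rwa [Measure.restrict_apply_univ]⟩
  have hm : Measurable (fun p : ℝ × ℂ =>
      Sko1_k r δ p.2 (a + Complex.exp (p.1 * Complex.I) * s)) := by
    have h1 : Measurable (fun p : ℝ × ℂ => (p.2, a + Complex.exp (p.1 * Complex.I) * s)) := by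
      fun_prop
    have h3 := (Sko1_k_meas r δ).comp h1
    simp only [Function.comp_def] at h3
    exact h3
  have h2 : ∀ᵐ p : ℝ × ℂ ∂((volume.restrict (Ioc 0 (2 * Real.pi))).prod (volume.restrict E)),
      p.2 ∈ E :=
    Measure.quasiMeasurePreserving_snd.ae (ae_restrict_mem hEm)
  have hI : Integrable (fun p : ℝ × ℂ => Sko1_k r δ p.2 (a + Complex.exp (p.1 * Complex.I) * s))
      ((volume.restrict (Ioc 0 (2 * Real.pi))).prod (volume.restrict E)) := by
    refine Integrable.of_bound (C := Real.log (1 / δ) + Real.log (2 * r / (r - r')))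
      (Measurable.aestronglyMeasurable hm) ?_
    filter_upwards [h2] with p hp
    rw [Real.norm_eq_abs]
    exact Sko1_k_bdd hr' hr hδ hδ1 (hE _ hp) (hin _)
  unfold Sko1_p
  rw [intervalIntegral.integral_of_le hpi,
    integral_integral_swap (f := fun (θ : ℝ) (η : ℂ) =>
      Sko1_k r δ η (a + Complex.exp (θ * Complex.I) * s)) hI, ← integral_const_mul]
  refine setIntegral_congr_fun hEm ?_
  intro η hη
  simp only
  rw [← intervalIntegral.integral_of_le hpi]
  exact Sko1_k_mean hr' hr hδ (hE η hη) hs has (hfar η hη)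

lemma Sko1_log_le {s y δ : ℝ} (hs : 0 < s) (hδ : 0 < δ) (n : ℕ)
    (hn : Real.log (s / δ) ≤ n) :
    Real.log (s / max y δ) ≤
      ∑ k ∈ Finset.range n, (if y < s * Real.exp (-(k : ℝ)) then (1 : ℝ) else 0) := by
  set L := Real.log (s / max y δ) with hL
  have hmx : 0 < max y δ := hδ.trans_le (le_max_right _ _)
  have hLn : L ≤ n := by
    refine le_trans (Real.log_le_log (div_pos hs hmx) ?_) hn
    exact div_le_div_of_nonneg_left hs.le hδ (le_max_right _ _)
  have hm : ⌈L⌉₊ ≤ n := Nat.ceil_le.mpr hLn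
  calc L ≤ (⌈L⌉₊ : ℝ) := Nat.le_ceil L
    _ = ∑ k ∈ Finset.range ⌈L⌉₊, (1 : ℝ) := by simp
    _ = ∑ k ∈ Finset.range ⌈L⌉₊, (if y < s * Real.exp (-(k : ℝ)) then (1 : ℝ) else 0) := by
        refine Finset.sum_congr rfl ?_
        intro k hk
        rw [if_pos]
        have h1 : (k : ℝ) < L := Nat.lt_ceil.mp (Finset.mem_range.mp hk)
        have h2 : Real.exp (k : ℝ) < s / max y δ := by
          rw [← Real.exp_log (div_pos hs hmx)]
          exact Real.exp_lt_exp.mpr h1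
        rw [lt_div_iff₀ hmx] at h2
        have h3 : max y δ < s * Real.exp (-(k : ℝ)) := by
          rw [Real.exp_neg, ← div_eq_mul_inv, lt_div_iff₀ (Real.exp_pos _)]
          linarith
        exact (le_max_left _ _).trans_lt h3
    _ ≤ _ := by
        refine Finset.sum_le_sum_of_subset_of_nonneg ?_ ?_
        · intro k hk
          rw [Finset.mem_range] at hk ⊢
          omega
        · intro k _ _
          split_ifs <;> norm_num

lemma Sko1_p_lower {r r' δ : ℝ} (hr' : 0 < r') (hr : r' < r) (hδ : 0 < δ) (hδ1 : δ ≤ 1)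
    {E : Set ℂ} (hEm : MeasurableSet E) (hE : ∀ η ∈ E, ‖η‖ ≤ r') (hEf : volume E < ⊤)
    (hE0 : 0 < (volume E).toReal) {ζ : ℂ} (hζ : ‖ζ‖ ≤ r) :
    - Sko1_p r δ E ζ ≤ (volume E).toReal *
      (-(1 / 2) * Real.log (volume E).toReal + 8 * Real.pi * r ^ 2) := by
  classical
  have hr0 : 0 < r := hr'.trans hr
  set v := (volume E).toReal with hv
  set s := Real.sqrt v with hs
  have hs0 : 0 < s := Real.sqrt_pos.mpr hE0
  have hss : s ^ 2 = v := Real.sq_sqrt hE0.le
  obtain ⟨n, hn⟩ := exists_nat_ge (Real.log (s / δ))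
  have hpt : ∀ η ∈ E, - Sko1_k r δ η ζ ≤ - Real.log s +
      ∑ k ∈ Finset.range n, (ball ζ (2 * r * (s * Real.exp (-(k : ℝ))))).indicator
        (fun _ => (1 : ℝ)) η := by
    intro η hη
    have h1 := Sko1_bl_lower hr' hr (hE η hη) hζ
    have h2 := Sko1_log_le (y := ‖ζ - η‖ / (2 * r)) hs0 hδ n hn
    have hmx : 0 < max (‖ζ - η‖ / (2 * r)) δ := hδ.trans_le (le_max_right _ _)
    rw [Real.log_div hs0.ne' hmx.ne'] at h2
    have h3 : Real.log (max (‖ζ - η‖ / (2 * r)) δ) ≤ Sko1_k r δ η ζ :=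
      Real.log_le_log hmx (max_le_max_right _ h1)
    have h4 : ∑ k ∈ Finset.range n, (if ‖ζ - η‖ / (2 * r) < s * Real.exp (-(k : ℝ)) then (1 : ℝ)
        else 0) = ∑ k ∈ Finset.range n, (ball ζ (2 * r * (s * Real.exp (-(k : ℝ))))).indicator
        (fun _ => (1 : ℝ)) η := by
      refine Finset.sum_congr rfl ?_
      intro k _
      rw [indicator_apply]
      have : (‖ζ - η‖ / (2 * r) < s * Real.exp (-(k : ℝ))) ↔
          η ∈ ball ζ (2 * r * (s * Real.exp (-(k : ℝ)))) := by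
        rw [mem_ball, dist_comm, dist_eq_norm, div_lt_iff₀ (by positivity),
          mul_comm (s * Real.exp (-(k : ℝ)))]
      simp only [this]
    rw [h4] at h2
    linarith
  have hint1 : ∀ k : ℕ, IntegrableOn (fun η => (ball ζ (2 * r * (s * Real.exp (-(k : ℝ))))).indicator
        (fun _ => (1 : ℝ)) η) E := by
    intro k
    exact (integrableOn_const hEf.ne).indicator measurableSet_ball
  have hval : ∀ k : ℕ, ∫ η in E, (ball ζ (2 * r * (s * Real.exp (-(k : ℝ))))).indicator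
        (fun _ => (1 : ℝ)) η ≤ 4 * Real.pi * r ^ 2 * v * (1 / 2) ^ k := by
    intro k
    have hR : 0 ≤ 2 * r * (s * Real.exp (-(k : ℝ))) := by positivity
    rw [integral_indicator measurableSet_ball, setIntegral_const, smul_eq_mul, mul_one]
    have h1 : (volume.restrict E).real (ball ζ (2 * r * (s * Real.exp (-(k : ℝ))))) ≤
        (volume (ball ζ (2 * r * (s * Real.exp (-(k : ℝ)))))).toReal := by
      refine ENNReal.toReal_mono ?_ (Measure.restrict_apply_le _ _)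
      exact measure_ball_lt_top.ne
    refine h1.trans ?_
    rw [Complex.volume_ball, ENNReal.toReal_mul, ENNReal.toReal_pow, ENNReal.toReal_ofReal hR]
    have h2 : ((NNReal.pi : ℝ≥0∞)).toReal = Real.pi := rfl
    rw [h2]
    have h3 : Real.exp (-(k : ℝ)) ^ 2 ≤ (1 / 2) ^ k := by
      have e1 : Real.exp (-(k : ℝ)) = (Real.exp (-1)) ^ k := by
        rw [← Real.exp_nat_mul]
        congr 1
        ring
      rw [e1, ← pow_mul, mul_comm k 2, pow_mul]
      refine pow_le_pow_left₀ (by positivity) ?_ k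
      have h5 : Real.exp (-1) ≤ 1 / 2 := by
        rw [Real.exp_neg, one_div]
        refine inv_anti₀ (by norm_num) ?_
        have := Real.add_one_le_exp (1 : ℝ)
        linarith
      have h6 : 0 < Real.exp (-1) := Real.exp_pos _
      nlinarith
    calc (2 * r * (s * Real.exp (-(k : ℝ)))) ^ 2 * Real.pi =
        4 * Real.pi * r ^ 2 * s ^ 2 * Real.exp (-(k : ℝ)) ^ 2 := by ring
      _ = 4 * Real.pi * r ^ 2 * v * Real.exp (-(k : ℝ)) ^ 2 := by rw [hss]
      _ ≤ _ := mul_le_mul_of_nonneg_left h3 (by positivity)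
  unfold Sko1_p
  rw [← integral_neg]
  have hmono := setIntegral_mono_on (μ := volume) (s := E) (f := fun η => - Sko1_k r δ η ζ)
    (g := fun η => - Real.log s +
      ∑ k ∈ Finset.range n, (ball ζ (2 * r * (s * Real.exp (-(k : ℝ))))).indicator
        (fun _ => (1 : ℝ)) η) (Sko1_k_int hr' hr hδ hδ1 hEm hE hEf hζ).neg
    ((integrableOn_const hEf.ne).add (integrable_finsetSum _ (fun k _ => hint1 k))) hEm hpt
  refine hmono.trans ?_
  have hci : Integrable (fun _ : ℂ => - Real.log s) (volume.restrict E) :=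
    integrableOn_const hEf.ne
  rw [integral_add hci (integrable_finsetSum _ (fun k _ => hint1 k)),
    setIntegral_const, smul_eq_mul, integral_finsetSum _ (fun k _ => hint1 k)]
  have hsum : ∑ k ∈ Finset.range n, ∫ η in E,
      (ball ζ (2 * r * (s * Real.exp (-(k : ℝ))))).indicator (fun _ => (1 : ℝ)) η ≤
      8 * Real.pi * r ^ 2 * v := by
    refine (Finset.sum_le_sum (fun k _ => hval k)).trans ?_
    rw [← Finset.mul_sum]
    have hg : ∑ k ∈ Finset.range n, (1 / 2 : ℝ) ^ k ≤ 2 := by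
      have := Summable.sum_le_tsum (Finset.range n) (fun i _ => by positivity)
        (summable_geometric_two)
      rwa [tsum_geometric_two] at this
    have hc : 0 ≤ 4 * Real.pi * r ^ 2 * v := by positivity
    calc 4 * Real.pi * r ^ 2 * v * ∑ k ∈ Finset.range n, (1 / 2 : ℝ) ^ k ≤
        4 * Real.pi * r ^ 2 * v * 2 := mul_le_mul_of_nonneg_left hg hc
      _ = 8 * Real.pi * r ^ 2 * v := by ring
  have hlog : Real.log s = 1 / 2 * Real.log v := by
    rw [hs, Real.log_sqrt hE0.le]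
    ring
  have hvr : volume.real E = v := rfl
  rw [hvr, hlog]
  calc v * -(1 / 2 * Real.log v) + ∑ k ∈ Finset.range n, ∫ η in E,
      (ball ζ (2 * r * (s * Real.exp (-(k : ℝ))))).indicator (fun _ => (1 : ℝ)) η ≤
      v * -(1 / 2 * Real.log v) + 8 * Real.pi * r ^ 2 * v := by linarith
    _ = v * (-(1 / 2) * Real.log v + 8 * Real.pi * r ^ 2) := by ring

lemma Sko1_sq_mean (a : ℂ) (s : ℝ) :
    ∫ θ in (0 : ℝ)..(2 * Real.pi), ‖a + Complex.exp (θ * Complex.I) * s‖ ^ 2 =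
      2 * Real.pi * (‖a‖ ^ 2 + s ^ 2) := by
  have h : ∀ θ : ℝ, ‖a + Complex.exp (θ * Complex.I) * s‖ ^ 2 =
      (‖a‖ ^ 2 + s ^ 2) + (2 * s * a.re) * Real.cos θ + (2 * s * a.im) * Real.sin θ := by
    intro θ
    rw [← Complex.normSq_eq_norm_sq, ← Complex.normSq_eq_norm_sq, Complex.normSq_apply,
      Complex.normSq_apply]
    simp only [Complex.add_re, Complex.mul_re, Complex.exp_ofReal_mul_I_re, Complex.ofReal_re,
      Complex.exp_ofReal_mul_I_im, Complex.ofReal_im, Complex.add_im, Complex.mul_im]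
    have := Real.sin_sq_add_cos_sq θ
    linear_combination (s ^ 2) * this
  simp_rw [h]
  rw [intervalIntegral.integral_add, intervalIntegral.integral_add]
  · simp only [intervalIntegral.integral_const, intervalIntegral.integral_const_mul, integral_cos,
      integral_sin, smul_eq_mul]
    simp
  · exact (by fun_prop : Continuous fun _ : ℝ => (‖a‖ ^ 2 + s ^ 2)).intervalIntegrable _ _
  · exact (by fun_prop : Continuous fun θ : ℝ => (2 * s * a.re) * Real.cos θ).intervalIntegrable _ _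
  · exact (by fun_prop : Continuous fun θ : ℝ => (‖a‖ ^ 2 + s ^ 2) +
      (2 * s * a.re) * Real.cos θ).intervalIntegrable _ _
  · exact (by fun_prop : Continuous fun θ : ℝ => (2 * s * a.im) * Real.sin θ).intervalIntegrable _ _

lemma Sko1_main {ρ r r' : ℝ} (hr' : 0 < r') (hr : r' < r) (hρ : r < ρ) {F : ℂ → ℝ} {A t : ℝ}
    (hA : 0 ≤ A) (ht : 0 < t) (hF0 : ∀ ζ ∈ ball 0 ρ, 0 ≤ F ζ)
    (hFu : UpperSemicontinuousOn F (ball 0 ρ))
    (hsub : ∀ δ : ℝ, 0 < δ → ∀ (a : ℂ) (s : ℝ), 0 < s → closedBall a s ⊆ ball 0 ρ →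
        Real.log (max (F a) δ) ≤ (2 * Real.pi)⁻¹ *
          ∫ θ in (0 : ℝ)..(2 * Real.pi), Real.log (max (F (a + Complex.exp (θ * Complex.I) * s)) δ))
    (hF1 : ∀ ζ ∈ ball 0 ρ, F ζ ≤ 1) (hFA : Real.exp (-A) ≤ F 0)
    {E : Set ℂ} (hEc : IsCompact E) (hEs : E ⊆ {ζ : ℂ | ‖ζ‖ < r' ∧ F ζ < Real.exp (-t)})
    (hE0 : 0 < (volume E).toReal) {M : ℝ} (hM : 0 < M)
    (hM2 : -(1 / 2) * Real.log (volume E).toReal + 8 * Real.pi * r ^ 2 ≤ M) :
    Real.log (r / r') * t ≤ A * M := by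
  have hr0 : 0 < r := hr'.trans hr
  have hEm : MeasurableSet E := hEc.measurableSet
  have hEf : volume E < ⊤ := hEc.measure_lt_top
  have hE : ∀ η ∈ E, ‖η‖ ≤ r' := fun η hη => (hEs hη).1.le
  set G : Set ℂ := {ζ : ℂ | ‖ζ‖ < r' ∧ F ζ < Real.exp (-t)} with hG
  have hGo : IsOpen G := by
    rw [isOpen_iff_mem_nhds]
    intro ζ hζ
    have hζρ : ζ ∈ ball (0 : ℂ) ρ := by
      rw [mem_ball_zero_iff]
      exact hζ.1.trans (hr.trans hρ)
    have h1 : ∀ᶠ z in 𝓝 ζ, F z < Real.exp (-t) := by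
      have := hFu ζ hζρ (Real.exp (-t)) hζ.2
      rwa [isOpen_ball.nhdsWithin_eq hζρ] at this
    have h2 : ∀ᶠ z in 𝓝 ζ, ‖z‖ < r' :=
      (continuous_norm.continuousAt).eventually_lt continuousAt_const hζ.1
    filter_upwards [h1, h2] with z hz1 hz2
    exact ⟨hz2, hz1⟩
  obtain ⟨τ, hτ, hτG⟩ := hEc.exists_cthickening_subset_open hGo hEs
  set δ : ℝ := min (min 1 (r' / r)) (τ / (4 * r)) with hδdef
  have hδ : 0 < δ := by
    refine lt_min (lt_min one_pos ?_) ?_ <;> positivity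
  have hδ1 : δ ≤ 1 := (min_le_left _ _).trans (min_le_left _ _)
  have hδ2 : δ ≤ r' / r := (min_le_left _ _).trans (min_le_right _ _)
  have hδ3 : δ ≤ τ / (4 * r) := min_le_right _ _
  set v := (volume E).toReal with hv
  set U : ℂ → ℝ := fun ζ => Real.log (max (F ζ) (Real.exp (-t))) with hU
  have hlow : ∀ ζ : ℂ, ‖ζ‖ ≤ r → - Sko1_p r δ E ζ ≤ v * M := by
    intro ζ hζ
    refine (Sko1_p_lower hr' hr hδ hδ1 hEm hE hEf hE0 hζ).trans ?_
    exact mul_le_mul_of_nonneg_left hM2 hE0.le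
  have hcb : closedBall (0 : ℂ) r ⊆ ball 0 ρ := closedBall_subset_ball hρ
  have key : ∀ ε : ℝ, 0 < ε → Real.log (r / r') * t ≤ A * M + ε := by
    intro ε' hε'
    set ε := ε' / (M * r ^ 2) with hε
    have hε0 : 0 < ε := by positivity
    set c := t / (v * M) with hc
    have hc0 : 0 < c := by positivity
    set W : ℂ → ℝ := fun ζ => U ζ + (- c * Sko1_p r δ E ζ + ε * ‖ζ‖ ^ 2) with hW
    have hUu : UpperSemicontinuousOn U (closedBall 0 r) := by
      have h1 : Continuous (fun x : ℝ => Real.log (max x (Real.exp (-t)))) := by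
        refine Continuous.log (by fun_prop) ?_
        intro x
        exact ((Real.exp_pos _).trans_le (le_max_right _ _)).ne'
      have h2 : Monotone (fun x : ℝ => Real.log (max x (Real.exp (-t)))) := by
        intro x y hxy
        exact Real.log_le_log ((Real.exp_pos _).trans_le (le_max_right _ _))
          (max_le_max_right _ hxy)
      exact h1.comp_upperSemicontinuousOn (hFu.mono hcb) h2
    have hpc := Sko1_p_cont hr' hr hδ hδ1 hEm hE hEf
    have hWu : UpperSemicontinuousOn W (closedBall 0 r) := by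
      refine UpperSemicontinuousOn.add hUu (ContinuousOn.upperSemicontinuousOn ?_)
      exact (continuousOn_const.mul hpc).add (by fun_prop)
    obtain ⟨a, ha, hmax⟩ := hWu.exists_isMaxOn ⟨0, mem_closedBall_self hr0.le⟩
      (isCompact_closedBall (0 : ℂ) r)
    have ha' : ‖a‖ ≤ r := mem_closedBall_zero_iff.mp ha
    have hWle : ∀ ζ : ℂ, ‖ζ‖ ≤ r → W ζ ≤ W a := fun ζ hζ =>
      hmax (mem_closedBall_zero_iff.mpr hζ)
    have hWa : W a ≤ ε * r ^ 2 := by
      by_cases haG : a ∈ G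
      · have h1 : U a = -t := by
          simp only [hU]
          rw [max_eq_right haG.2.le, Real.log_exp]
        have h2 : - c * Sko1_p r δ E a ≤ t := by
          calc - c * Sko1_p r δ E a = c * (- Sko1_p r δ E a) := by ring
            _ ≤ c * (v * M) := mul_le_mul_of_nonneg_left (hlow a ha') hc0.le
            _ = t := by
                rw [hc]
                field_simp
        have h3 : ε * ‖a‖ ^ 2 ≤ ε * r ^ 2 :=
          mul_le_mul_of_nonneg_left (pow_le_pow_left₀ (norm_nonneg _) ha' 2) hε0.le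
        simp only [hW, h1]
        linarith
      · rcases ha'.lt_or_eq with hlt | heq
        · exfalso
          set s := min (r - ‖a‖) (τ / 2) with hs
          have hs0 : 0 < s := lt_min (by linarith) (by positivity)
          have hs1 : ‖a‖ + s ≤ r := by
            have := min_le_left (r - ‖a‖) (τ / 2)
            linarith
          have hs2 : s ≤ τ / 2 := min_le_right _ _
          have hfar : ∀ η ∈ E, ∀ ζ ∈ closedBall a s, δ ≤ ‖Sko1_bl r η ζ‖ := by
            intro η hη ζ hζ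
            have h1 : ‖ζ - a‖ ≤ s := by rwa [mem_closedBall, dist_eq_norm] at hζ
            have h2 : τ < ‖a - η‖ := by
              by_contra hcon
              push Not at hcon
              apply haG
              apply hτG
              refine mem_cthickening_of_dist_le a η τ E hη ?_
              rwa [dist_eq_norm]
            have h3 : ‖a - η‖ ≤ ‖ζ - η‖ + ‖ζ - a‖ := by
              have := norm_sub_le (ζ - η) (ζ - a)
              rwa [sub_sub_sub_cancel_left] at this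
            have h4 : ‖ζ‖ ≤ r := by
              have := norm_add_le (ζ - a) a
              rw [sub_add_cancel] at this
              linarith
            refine le_trans ?_ (Sko1_bl_lower hr' hr (hE η hη) h4)
            refine hδ3.trans ?_
            rw [div_le_div_iff₀ (by positivity) (by positivity)]
            nlinarith
          have hmean := Sko1_p_mean hr' hr hδ hδ1 hEm hE hEf hs0 hs1 hfar
          have hcs : ∀ θ : ℝ, ‖a + Complex.exp (θ * Complex.I) * s‖ ≤ r := by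
            intro θ
            refine (norm_add_le _ _).trans ?_
            rw [norm_mul, Complex.norm_exp_ofReal_mul_I, one_mul, Complex.norm_real,
              Real.norm_of_nonneg hs0.le]
            exact hs1
          have hball : closedBall a s ⊆ ball 0 ρ := by
            intro ζ hζ
            apply hcb
            have h1 : ‖ζ - a‖ ≤ s := by rwa [mem_closedBall, dist_eq_norm] at hζ
            rw [mem_closedBall_zero_iff]
            have := norm_add_le (ζ - a) a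
            rw [sub_add_cancel] at this
            linarith
          have hsm := hsub (Real.exp (-t)) (Real.exp_pos _) a s hs0 hball
          have hle : ∀ θ : ℝ, U (a + Complex.exp (θ * Complex.I) * s) ≤
              W a + c * Sko1_p r δ E (a + Complex.exp (θ * Complex.I) * s) -
                ε * ‖a + Complex.exp (θ * Complex.I) * s‖ ^ 2 := by
            intro θ
            have := hWle _ (hcs θ)
            simp only [hW] at this ⊢
            linarith
          have hpcθ : Continuous (fun θ : ℝ =>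
              Sko1_p r δ E (a + Complex.exp (θ * Complex.I) * s)) := by
            have h1 : Continuous (fun θ : ℝ => a + Complex.exp (θ * Complex.I) * s) := by fun_prop
            have h2 := ContinuousOn.comp_continuous (g := Sko1_p r δ E) hpc h1
              (fun θ => mem_closedBall_zero_iff.mpr (hcs θ))
            exact h2
          have hUi : IntervalIntegrable (fun θ : ℝ => U (a + Complex.exp (θ * Complex.I) * s))
              volume 0 (2 * Real.pi) := by
            have hus : UpperSemicontinuous (fun θ : ℝ =>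
                U (a + Complex.exp (θ * Complex.I) * s)) := by
              intro θ y hy
              have hmem : a + Complex.exp (θ * Complex.I) * s ∈ ball (0 : ℂ) ρ := by
                rw [mem_ball_zero_iff]
                exact (hcs θ).trans_lt hρ
              have h1 : ∀ᶠ z in 𝓝[closedBall 0 r] (a + Complex.exp (θ * Complex.I) * s), U z < y :=
                hUu _ (mem_closedBall_zero_iff.mpr (hcs θ)) y hy
              have h2 : Filter.Tendsto (fun θ : ℝ => a + Complex.exp (θ * Complex.I) * s) (𝓝 θ)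
                  (𝓝[closedBall 0 r] (a + Complex.exp (θ * Complex.I) * s)) := by
                refine tendsto_nhdsWithin_iff.mpr ⟨?_, ?_⟩
                · exact (by fun_prop : Continuous fun θ : ℝ =>
                    a + Complex.exp (θ * Complex.I) * s).continuousAt
                · exact Filter.Eventually.of_forall
                    (fun θ' => mem_closedBall_zero_iff.mpr (hcs θ'))
              exact h2.eventually h1
            rw [intervalIntegrable_iff]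
            refine Measure.integrableOn_of_bounded (M := t) (by
              rw [uIoc_of_le (by positivity)]
              exact measure_Ioc_lt_top.ne) ?_ ?_
            · exact hus.measurable.aestronglyMeasurable
            · refine Filter.Eventually.of_forall ?_
              intro θ
              have hmem : a + Complex.exp (θ * Complex.I) * s ∈ ball (0 : ℂ) ρ := by
                rw [mem_ball_zero_iff]
                exact (hcs θ).trans_lt hρ
              rw [Real.norm_eq_abs, abs_le]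
              constructor
              · simp only [hU]
                rw [← Real.log_exp (-t)]
                exact Real.log_le_log (Real.exp_pos _) (by rw [Real.log_exp]; exact le_max_right _ _)
              · simp only [hU]
                refine le_trans (Real.log_nonpos ?_ ?_) ht.le
                · exact ((Real.exp_pos _).trans_le (le_max_right _ _)).le
                · refine max_le (hF1 _ hmem) ?_
                  rw [Real.exp_le_one_iff]
                  linarith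
          have hint := intervalIntegral.integral_mono_on (a := 0) (b := 2 * Real.pi)
            (by positivity) hUi (g := fun θ : ℝ => W a +
              c * Sko1_p r δ E (a + Complex.exp (θ * Complex.I) * s) -
                ε * ‖a + Complex.exp (θ * Complex.I) * s‖ ^ 2)
            (by
              refine Continuous.intervalIntegrable ?_ _ _
              exact (continuous_const.add (continuous_const.mul hpcθ)).sub (by fun_prop))
            (fun θ _ => hle θ)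
          rw [intervalIntegral.integral_sub, intervalIntegral.integral_add,
            intervalIntegral.integral_const, intervalIntegral.integral_const_mul,
            intervalIntegral.integral_const_mul, Sko1_sq_mean, smul_eq_mul] at hint
          · have hpi : 0 < 2 * Real.pi := by positivity
            have h5 : (2 * Real.pi)⁻¹ * ∫ θ in (0 : ℝ)..(2 * Real.pi),
                U (a + Complex.exp (θ * Complex.I) * s) ≤
                W a + c * Sko1_p r δ E a - ε * (‖a‖ ^ 2 + s ^ 2) := by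
              have hI : ∫ θ in (0 : ℝ)..(2 * Real.pi),
                  Sko1_p r δ E (a + Complex.exp (θ * Complex.I) * s) =
                  2 * Real.pi * Sko1_p r δ E a := by
                rw [← hmean, mul_inv_cancel_left₀ hpi.ne']
              rw [hI] at hint
              rw [inv_mul_le_iff₀ hpi]
              refine hint.trans (le_of_eq ?_)
              ring
            have h6 : U a ≤ W a + c * Sko1_p r δ E a - ε * (‖a‖ ^ 2 + s ^ 2) := hsm.trans h5
            simp only [hW] at h6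
            have h7 : 0 < ε * s ^ 2 := by positivity
            nlinarith
          · exact continuous_const.intervalIntegrable _ _
          · exact (continuous_const.mul hpcθ).intervalIntegrable _ _
          · exact (continuous_const.add (continuous_const.mul hpcθ)).intervalIntegrable _ _
          · exact (by fun_prop : Continuous fun θ : ℝ =>
              ε * ‖a + Complex.exp (θ * Complex.I) * s‖ ^ 2).intervalIntegrable _ _
        · have h1 : U a ≤ 0 := by
            simp only [hU]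
            refine Real.log_nonpos ((Real.exp_pos _).trans_le (le_max_right _ _)).le ?_
            refine max_le (hF1 _ (hcb ha)) ?_
            rw [Real.exp_le_one_iff]
            linarith
          have h2 : Sko1_p r δ E a = 0 := Sko1_p_bdry hr' hr hδ1 hEm hE heq
          simp only [hW, h2, heq]
          linarith
    have hW0 : W 0 ≤ ε * r ^ 2 := (hWle 0 (by simpa using hr0.le)).trans hWa
    have hU0 : -A ≤ U 0 := by
      simp only [hU]
      rw [← Real.log_exp (-A)]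
      refine Real.log_le_log (Real.exp_pos _) ?_
      exact hFA.trans (le_max_left _ _)
    have hp0 := Sko1_p_zero hr' hr hδ hδ1 hδ2 hEm hE hEf
    have hlog : Real.log (r' / r) = - Real.log (r / r') := by
      rw [← Real.log_inv, inv_div]
    rw [hlog] at hp0
    have h8 : c * (v * Real.log (r / r')) ≤ - c * Sko1_p r δ E 0 := by
      have : c * Sko1_p r δ E 0 ≤ c * (v * - Real.log (r / r')) :=
        mul_le_mul_of_nonneg_left hp0 hc0.le
      linarith
    have h9 : c * (v * Real.log (r / r')) ≤ A + ε * r ^ 2 := by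
      simp only [hW, norm_zero] at hW0
      have : ε * (0 : ℝ) ^ 2 = 0 := by ring
      rw [this] at hW0
      linarith
    have h10 : c * (v * Real.log (r / r')) * M = Real.log (r / r') * t := by
      rw [hc]
      field_simp
    have h11 : ε * r ^ 2 * M = ε' := by
      rw [hε]
      field_simp
    rw [← h10]
    calc c * (v * Real.log (r / r')) * M ≤ (A + ε * r ^ 2) * M :=
          mul_le_mul_of_nonneg_right h9 hM.le
      _ = A * M + ε * r ^ 2 * M := by ring
      _ = A * M + ε' := by rw [h11]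
  exact le_of_forall_pos_le_add key

/-- `u = log F` subharmonic in the disc of radius `ρ`, `u ≤ 0`, `u 0 ≥ -A` -/
theorem sub_decay {ρ ρ' : ℝ} (hρ' : 0 < ρ') (hρ : ρ' < ρ) : ∃ c K : ℝ, 0 < c ∧ 0 < K ∧
    ∀ (F : ℂ → ℝ) (A : ℝ), 0 ≤ A → (∀ ζ ∈ ball 0 ρ, 0 ≤ F ζ) →
      UpperSemicontinuousOn F (ball 0 ρ) →
      (∀ δ : ℝ, 0 < δ → ∀ (a : ℂ) (s : ℝ), 0 < s → closedBall a s ⊆ ball 0 ρ →
        Real.log (max (F a) δ) ≤ (2 * Real.pi)⁻¹ *
          ∫ θ in (0 : ℝ)..(2 * Real.pi), Real.log (max (F (a + Complex.exp (θ * Complex.I) * s)) δ)) →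
      (∀ ζ ∈ ball 0 ρ, F ζ ≤ 1) → Real.exp (-A) ≤ F 0 →
      ∀ t : ℝ, 0 < t → volume {ζ : ℂ | ‖ζ‖ < ρ' ∧ F ζ < Real.exp (-t)} ≤
        ENNReal.ofReal (K * Real.exp (-(c / (1 + A)) * t)) := by
  set r := (ρ + ρ') / 2 with hr
  have hr1 : ρ' < r := by rw [hr]; linarith
  have hr2 : r < ρ := by rw [hr]; linarith
  have hr0 : 0 < r := hρ'.trans hr1
  set κ := Real.log (r / ρ') with hκ
  have hκ0 : 0 < κ := Real.log_pos (by rw [lt_div_iff₀ hρ']; linarith)
  set C := 8 * Real.pi * r ^ 2 + 1 / 2 * |Real.log (Real.pi * ρ' ^ 2)| + 1 with hC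
  refine ⟨2 * κ, Real.exp (2 * C), by positivity, Real.exp_pos _, ?_⟩
  intro F A hA hF0 hFu hsub hF1 hFA t ht
  by_contra hcon
  push Not at hcon
  have hGo : IsOpen {ζ : ℂ | ‖ζ‖ < ρ' ∧ F ζ < Real.exp (-t)} := by
    rw [isOpen_iff_mem_nhds]
    intro ζ hζ
    have hζρ : ζ ∈ ball (0 : ℂ) ρ := by
      rw [mem_ball_zero_iff]
      exact hζ.1.trans hρ
    have h1 : ∀ᶠ z in 𝓝 ζ, F z < Real.exp (-t) := by
      have := hFu ζ hζρ (Real.exp (-t)) hζ.2
      rwa [isOpen_ball.nhdsWithin_eq hζρ] at this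
    have h2 : ∀ᶠ z in 𝓝 ζ, ‖z‖ < ρ' :=
      (continuous_norm.continuousAt).eventually_lt continuousAt_const hζ.1
    filter_upwards [h1, h2] with z hz1 hz2
    exact ⟨hz2, hz1⟩
  obtain ⟨E, hEs, hEc, hEv⟩ := hGo.exists_lt_isCompact hcon
  have hEf : volume E < ⊤ := hEc.measure_lt_top
  have hexp : 0 < Real.exp (2 * C) * Real.exp (-(2 * κ / (1 + A)) * t) := by positivity
  have hvlt : Real.exp (2 * C) * Real.exp (-(2 * κ / (1 + A)) * t) < (volume E).toReal := by
    have := (ENNReal.toReal_lt_toReal ENNReal.ofReal_ne_top hEf.ne).mpr hEv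
    rwa [ENNReal.toReal_ofReal hexp.le] at this
  have hE0 : 0 < (volume E).toReal := hexp.trans hvlt
  have hvle : (volume E).toReal ≤ Real.pi * ρ' ^ 2 := by
    have h1 : volume E ≤ volume (ball (0 : ℂ) ρ') := by
      refine measure_mono ?_
      intro ζ hζ
      rw [mem_ball_zero_iff]
      exact (hEs hζ).1
    have h2 := ENNReal.toReal_mono measure_ball_lt_top.ne h1
    rw [Complex.volume_ball, ENNReal.toReal_mul, ENNReal.toReal_pow,
      ENNReal.toReal_ofReal hρ'.le] at h2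
    have h3 : ((NNReal.pi : ℝ≥0∞)).toReal = Real.pi := rfl
    rw [h3] at h2
    linarith
  set M := -(1 / 2) * Real.log (volume E).toReal + C with hM
  have hlogv : Real.log (volume E).toReal ≤ |Real.log (Real.pi * ρ' ^ 2)| :=
    (Real.log_le_log hE0 hvle).trans (le_abs_self _)
  have hM1 : 0 < M := by
    have : 0 < 8 * Real.pi * r ^ 2 := by positivity
    rw [hM, hC]
    linarith
  have hM2 : -(1 / 2) * Real.log (volume E).toReal + 8 * Real.pi * r ^ 2 ≤ M := by
    have : 0 ≤ |Real.log (Real.pi * ρ' ^ 2)| := abs_nonneg _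
    rw [hM, hC]
    linarith
  have hmain := Sko1_main hρ' hr1 hr2 hA ht hF0 hFu hsub hF1 hFA hEc hEs hE0 hM1 hM2
  have h1 : κ * t ≤ (1 + A) * M := by
    have : A * M ≤ (1 + A) * M := mul_le_mul_of_nonneg_right (by linarith) hM1.le
    exact hmain.trans this
  have h2 : κ * t / (1 + A) ≤ M := by
    rw [div_le_iff₀ (by linarith)]
    linarith
  have h3 : Real.log (volume E).toReal ≤ 2 * C - 2 * (κ * t / (1 + A)) := by
    rw [hM] at h2
    linarith
  have h4 : (volume E).toReal ≤ Real.exp (2 * C - 2 * (κ * t / (1 + A))) := by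
    rw [← Real.exp_log hE0]
    exact Real.exp_le_exp.mpr h3
  have h5 : Real.exp (2 * C - 2 * (κ * t / (1 + A))) =
      Real.exp (2 * C) * Real.exp (-(2 * κ / (1 + A)) * t) := by
    rw [← Real.exp_add]
    congr 1
    ring
  rw [h5] at h4
  linarith

end HMA

end S_MA_Sko1

section S_MA_Sko2

/-! # Module SKO2: exponential decay of the sublevel sets of psh functions -/

open MeasureTheory Metric Set
open scoped ENNReal Topology ContDiff

namespace HMA

/-- multiplication by `ζ` with `0 < ‖ζ‖ ≤ 1`: preimages have larger volume -/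
theorem Sko2_smul {n : ℕ} {ζ : ℂ} (h0 : ζ ≠ 0) (h1 : ‖ζ‖ ≤ 1) (S : Set (Cn n)) :
    volume S ≤ volume ((fun x : Cn n => ζ • x) ⁻¹' S) := by
  set f : Cn n →ₗ[ℝ] Cn n :=
    (LinearMap.lsmul ℂ (Cn n) ζ).restrictScalars ℝ with hf
  have hfx : ∀ x, f x = ζ • x := fun x => rfl
  have hdet : LinearMap.det f ≠ 0 := by
    have hinj : Function.Injective f := by
      intro x y hxy
      rw [hfx, hfx] at hxy
      exact smul_right_injective _ h0 hxy
    intro hd
    have hk := LinearMap.bot_lt_ker_of_det_eq_zero hd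
    rw [LinearMap.ker_eq_bot.mpr hinj] at hk
    exact lt_irrefl _ hk
  have key := Measure.addHaar_preimage_linearMap (volume : Measure (Cn n)) hdet
  have hball : ball (0 : Cn n) 1 ⊆ f ⁻¹' ball (0 : Cn n) 1 := by
    intro x hx
    rw [mem_preimage, hfx, mem_ball_zero_iff, norm_smul]
    rw [mem_ball_zero_iff] at hx
    have := norm_nonneg x
    nlinarith [norm_nonneg ζ]
  have h2 : volume (ball (0 : Cn n) 1) ≤
      ENNReal.ofReal |(LinearMap.det f)⁻¹| * volume (ball (0 : Cn n) 1) := by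
    rw [← key]; exact measure_mono hball
  have hpos : volume (ball (0 : Cn n) 1) ≠ 0 := (measure_ball_pos _ _ one_pos).ne'
  have hfin : volume (ball (0 : Cn n) 1) ≠ ⊤ := measure_ball_lt_top.ne
  have h3 : 1 ≤ ENNReal.ofReal |(LinearMap.det f)⁻¹| := by
    by_contra hlt
    rw [not_le] at hlt
    have h4 := ENNReal.mul_lt_mul_left hpos hfin hlt
    rw [one_mul] at h4
    exact absurd h2 (not_le.mpr h4)
  have h5 := key S
  have e : (fun x : Cn n => ζ • x) ⁻¹' S = f ⁻¹' S := rfl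
  rw [e, h5]
  calc volume S = 1 * volume S := (one_mul _).symm
    _ ≤ _ := mul_le_mul_left h3 _

theorem Sko2_open {n : ℕ} {F : Cn n → ℝ} (hF : PshOn (ball 0 2) F) (b : ℝ) :
    IsOpen {y : Cn n | y ∈ ball (0 : Cn n) 2 ∧ F y < b} := by
  obtain ⟨u, hu, he⟩ := upperSemicontinuousOn_iff_preimage_Iio.mp hF.usc b
  have e : {y : Cn n | y ∈ ball (0 : Cn n) 2 ∧ F y < b} = ball 0 2 ∩ F ⁻¹' Iio b := by
    ext y; rfl
  rw [e, he]
  exact isOpen_ball.inter hu

/-- decay on a smaller ball around a point where `F` is not small -/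
theorem Sko2_step (n : ℕ) {ρ ρ' κ : ℝ} (hρ' : 0 < ρ') (hρ : ρ' < ρ) (hκ : 0 < κ) (hκ1 : κ < 1)
    {A : ℝ} (hA : 0 ≤ A) : ∃ c K : ℝ, 0 < c ∧ 0 < K ∧
    ∀ (F : Cn n → ℝ) (z : Cn n), PshOn (ball 0 2) F → (∀ x ∈ ball 0 2, F x ≤ 1) →
      ball z ρ ⊆ ball 0 2 → Real.exp (-A) ≤ F z → ∀ t : ℝ, 0 < t →
        volume {y : Cn n | ‖y‖ < (1 - κ) * ρ' ∧ F (z + y) < Real.exp (-t)} ≤
          ENNReal.ofReal (K * Real.exp (-c * t)) := by
  have hR1 : (1 : ℝ) < ρ / ρ' := by rw [lt_div_iff₀ hρ']; linarith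
  obtain ⟨c, K, hc, hK, hdec⟩ := sub_decay one_pos hR1
  set ann : Set ℂ := ball (0 : ℂ) 1 \ closedBall 0 (1 - κ) with hann
  have hannO : IsOpen ann := isOpen_ball.sdiff isClosed_closedBall
  have hannN : ann.Nonempty := by
    refine ⟨((1 - κ / 2 : ℝ) : ℂ), ?_, ?_⟩
    · rw [mem_ball_zero_iff, Complex.norm_real, Real.norm_eq_abs, abs_of_pos (by linarith)]
      linarith
    · rw [mem_closedBall_zero_iff, Complex.norm_real, Real.norm_eq_abs, abs_of_pos (by linarith)]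
      linarith
  have hann0 : volume ann ≠ 0 := (hannO.measure_pos volume hannN).ne'
  have hannT : volume ann ≠ ⊤ :=
    ((measure_mono sdiff_subset).trans_lt (measure_ball_lt_top (μ := volume) (x := (0 : ℂ)) (r := 1))).ne
  have hBT : volume (ball (0 : Cn n) ρ') ≠ ⊤ := measure_ball_lt_top.ne
  have hB0 : volume (ball (0 : Cn n) ρ') ≠ 0 := (measure_ball_pos _ _ hρ').ne'
  set M : ℝ := (volume (ball (0 : Cn n) ρ') / volume ann).toReal with hM
  have hMT : volume (ball (0 : Cn n) ρ') / volume ann ≠ ⊤ := ENNReal.div_ne_top hBT hann0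
  have hM0 : 0 < M := ENNReal.toReal_pos (ENNReal.div_ne_zero.mpr ⟨hB0, hannT⟩) hMT
  refine ⟨c / (1 + A), K * M, by positivity, by positivity, ?_⟩
  intro F z hF hF1 hz hFz t ht
  -- the open set `U`
  set U : Set (Cn n) := {y : Cn n | y ∈ ball (0 : Cn n) 2 ∧ F y < Real.exp (-t)} with hU
  have hUo : IsOpen U := Sko2_open hF _
  set O : Set (ℂ × Cn n) :=
    {p | ‖p.1‖ < 1 ∧ ‖p.2‖ < ρ' ∧ z + p.1 • p.2 ∈ U} with hO
  have hOo : IsOpen O := by
    have o1 : IsOpen {p : ℂ × Cn n | ‖p.1‖ < 1} :=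
      isOpen_lt (continuous_norm.comp continuous_fst) continuous_const
    have o2 : IsOpen {p : ℂ × Cn n | ‖p.2‖ < ρ'} :=
      isOpen_lt (continuous_norm.comp continuous_snd) continuous_const
    have o3 : IsOpen {p : ℂ × Cn n | z + p.1 • p.2 ∈ U} :=
      hUo.preimage (continuous_const.add (continuous_fst.smul continuous_snd))
    exact o1.inter (o2.inter o3)
  have hOm : MeasurableSet O := hOo.measurableSet
  have e1 := Measure.prod_apply (μ := (volume : Measure ℂ)) (ν := (volume : Measure (Cn n))) hOm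
  have e2 := Measure.prod_apply_symm (μ := (volume : Measure ℂ)) (ν := (volume : Measure (Cn n))) hOm
  -- upper bound
  have hup : (∫⁻ x : Cn n, volume ((fun ζ : ℂ => (ζ, x)) ⁻¹' O)) ≤
      ENNReal.ofReal (K * Real.exp (-(c / (1 + A)) * t)) * volume (ball (0 : Cn n) ρ') := by
    rw [← setLIntegral_const, ← lintegral_indicator measurableSet_ball]
    refine lintegral_mono ?_
    intro x
    by_cases hx : x ∈ ball (0 : Cn n) ρ'
    · rw [indicator_of_mem hx]
      have hxn : ‖x‖ < ρ' := by simpa using hx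
      have hin : ∀ ζ : ℂ, ζ ∈ ball (0 : ℂ) (ρ / ρ') → z + ζ • x ∈ ball (0 : Cn n) 2 := by
        intro ζ hζ
        apply hz
        rw [mem_ball_iff_norm, add_sub_cancel_left, norm_smul]
        have h1 : ‖ζ‖ < ρ / ρ' := by simpa using hζ
        rcases (norm_nonneg x).eq_or_lt with h2 | h2
        · rw [← h2, mul_zero]; linarith
        · calc ‖ζ‖ * ‖x‖ < ρ / ρ' * ‖x‖ := by gcongr
            _ ≤ ρ / ρ' * ρ' := by gcongr
            _ = ρ := div_mul_cancel₀ _ hρ'.ne'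
      refine (measure_mono ?_).trans (hdec (fun ζ => F (z + ζ • x)) A hA ?_ ?_ ?_ ?_ ?_ t ht)
      · intro ζ hζ
        exact ⟨hζ.1, hζ.2.2.2⟩
      · intro ζ hζ
        exact hF.nonneg _ (hin ζ hζ)
      · exact hF.usc.comp (by fun_prop : Continuous (fun ζ : ℂ => z + ζ • x)).continuousOn
          (fun ζ hζ => hin ζ hζ)
      · intro δ hδ a s hs hsub
        have h := hF.submean δ hδ (z + a • x) ((s : ℂ) • x) ?_
        · refine h.trans (le_of_eq ?_)
          congr 1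
          refine intervalIntegral.integral_congr (fun θ _ => ?_)
          have e4 : z + a • x + Complex.exp (θ * Complex.I) • (s : ℂ) • x =
              z + (a + Complex.exp (θ * Complex.I) * s) • x := by
            rw [add_smul, mul_smul, add_assoc]
          show Real.log (max (F (z + a • x + Complex.exp (θ * Complex.I) • (s : ℂ) • x)) δ) = _
          rw [e4]
        · intro ζ hζ
          have h3 : a + ζ * s ∈ closedBall a s := by
            rw [mem_closedBall_iff_norm, add_sub_cancel_left, norm_mul, Complex.norm_real,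
              Real.norm_eq_abs, abs_of_pos hs]
            nlinarith
          have h4 := hin _ (hsub h3)
          rwa [add_smul, mul_smul, ← add_assoc] at h4
      · intro ζ hζ
        exact hF1 _ (hin ζ hζ)
      · simpa using hFz
    · rw [indicator_of_notMem hx]
      have : (fun ζ : ℂ => (ζ, x)) ⁻¹' O = ∅ := by
        ext ζ
        simp only [mem_preimage, mem_empty_iff_false, iff_false]
        intro hζ
        exact hx (by simpa using hζ.2.1)
      show volume ((fun ζ : ℂ => (ζ, x)) ⁻¹' O) ≤ 0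
      rw [this, measure_empty]
  -- lower bound
  have hlow : volume ann * volume {y : Cn n | ‖y‖ < (1 - κ) * ρ' ∧ F (z + y) < Real.exp (-t)} ≤
      ∫⁻ ζ : ℂ, volume (Prod.mk ζ ⁻¹' O) := by
    rw [mul_comm, ← setLIntegral_const, ← lintegral_indicator hannO.measurableSet]
    refine lintegral_mono ?_
    intro ζ
    by_cases hζ : ζ ∈ ann
    · rw [indicator_of_mem hζ]
      have h1 : ‖ζ‖ < 1 := by simpa using hζ.1
      have h2 : 1 - κ < ‖ζ‖ := by simpa using hζ.2
      have h0 : ζ ≠ 0 := by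
        intro h; rw [h, norm_zero] at h2; linarith
      refine (Sko2_smul h0 h1.le _).trans (measure_mono ?_)
      rintro x ⟨hx1, hx2⟩
      simp only at hx1 hx2
      have h3 : ‖x‖ < ρ' := by
        by_contra hge
        rw [not_lt] at hge
        rw [norm_smul] at hx1
        nlinarith
      refine ⟨h1, h3, ?_, hx2⟩
      apply hz
      rw [mem_ball_iff_norm, add_sub_cancel_left]
      nlinarith
    · rw [indicator_of_notMem hζ]
      exact zero_le
  have hfin : volume ann * volume {y : Cn n | ‖y‖ < (1 - κ) * ρ' ∧ F (z + y) < Real.exp (-t)} ≤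
      ENNReal.ofReal (K * Real.exp (-(c / (1 + A)) * t)) * volume (ball (0 : Cn n) ρ') := by
    refine hlow.trans ?_
    rw [← e1, e2]
    exact hup
  have hres : volume {y : Cn n | ‖y‖ < (1 - κ) * ρ' ∧ F (z + y) < Real.exp (-t)} ≤
      ENNReal.ofReal (K * Real.exp (-(c / (1 + A)) * t)) *
        (volume (ball (0 : Cn n) ρ') / volume ann) := by
    rw [← mul_div_assoc, ENNReal.le_div_iff_mul_le (Or.inl hann0) (Or.inl hannT), mul_comm]
    exact hfin
  refine hres.trans (le_of_eq ?_)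
  rw [← ENNReal.ofReal_toReal hMT, ← hM, ← ENNReal.ofReal_mul (by positivity)]
  congr 1
  ring

theorem psh_decay (n : ℕ) (hn : 1 ≤ n) {A : ℝ} (hA : 0 ≤ A) : ∃ c K : ℝ, 0 < c ∧ 0 < K ∧
    ∀ F : Cn n → ℝ, PshOn (ball 0 2) F → (∀ x ∈ ball 0 2, F x ≤ 1) →
      (∃ x, ‖x‖ ≤ 1 ∧ Real.exp (-A) ≤ F x) → ∀ t : ℝ, 0 < t →
        volume {x : Cn n | ‖x‖ < 3 / 2 ∧ F x < Real.exp (-t)} ≤
          ENNReal.ofReal (K * Real.exp (-c * t)) := by
  -- step 1
  obtain ⟨c₀, K₀, hc₀, hK₀, h₀⟩ := Sko2_step n (ρ := 1) (ρ' := 99 / 100) (κ := 1 / 50)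
    (by norm_num) (by norm_num) (by norm_num) (by norm_num) hA
  have hv : 0 < volume (ball (0 : Cn n) (1 / 100)) := measure_ball_pos _ _ (by norm_num)
  obtain ⟨A₁, hA₁, hA₁'⟩ : ∃ A₁ : ℝ, 0 < A₁ ∧
      ENNReal.ofReal (K₀ * Real.exp (-c₀ * A₁)) < volume (ball (0 : Cn n) (1 / 100)) := by
    have hlim : Filter.Tendsto (fun a : ℝ => ENNReal.ofReal (K₀ * Real.exp (-c₀ * a)))
        Filter.atTop (𝓝 0) := by
      rw [← ENNReal.ofReal_zero]
      refine ENNReal.tendsto_ofReal ?_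
      have h1 : Filter.Tendsto (fun a : ℝ => -c₀ * a) Filter.atTop Filter.atBot :=
        Filter.tendsto_id.const_mul_atTop_of_neg (by linarith)
      have h2 := (Real.tendsto_exp_atBot.comp h1).const_mul K₀
      simpa using h2
    have h3 := (hlim.eventually_lt_const hv).and (Filter.eventually_gt_atTop (0 : ℝ))
    obtain ⟨a, ha1, ha2⟩ := h3.exists
    exact ⟨a, ha2, ha1⟩
  -- step 2
  obtain ⟨c₁, K₁, hc₁, hK₁, h₁⟩ := Sko2_step n (ρ := 193 / 100) (ρ' := 17 / 10) (κ := 1 / 20)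
    (by norm_num) (by norm_num) (by norm_num) (by norm_num) hA₁.le
  refine ⟨c₁, K₁, hc₁, hK₁, ?_⟩
  rintro F hF hF1 ⟨z₀, hz₀, hFz₀⟩ t ht
  obtain ⟨z₁, hz₁, hFz₁⟩ : ∃ z₁ : Cn n, ‖z₁‖ ≤ 7 / 100 ∧ Real.exp (-A₁) ≤ F z₁ := by
    by_contra hcon
    push Not at hcon
    have hsub : ball z₀ 1 ⊆ ball (0 : Cn n) 2 := by
      intro x hx
      rw [mem_ball_iff_norm] at hx
      rw [mem_ball_zero_iff]
      have := norm_le_norm_add_norm_sub' x z₀
      linarith
    have h2 := h₀ F z₀ hF hF1 hsub hFz₀ A₁ hA₁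
    have h3 : volume (ball (0 : Cn n) (1 / 100)) ≤
        volume {y : Cn n | ‖y‖ < (1 - 1 / 50) * (99 / 100) ∧ F (z₀ + y) < Real.exp (-A₁)} := by
      have e : ball (-(47 / 50 : ℝ) • z₀) (1 / 100) ⊆
          {y : Cn n | ‖y‖ < (1 - 1 / 50) * (99 / 100) ∧ F (z₀ + y) < Real.exp (-A₁)} := by
        intro y hy
        rw [mem_ball_iff_norm] at hy
        have n1 : ‖(-(47 / 50 : ℝ)) • z₀‖ = 47 / 50 * ‖z₀‖ := by
          rw [norm_smul, norm_neg, Real.norm_eq_abs, abs_of_pos (by norm_num)]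
        constructor
        · have := norm_le_norm_add_norm_sub' y ((-(47 / 50 : ℝ)) • z₀)
          rw [n1] at this
          linarith
        · apply hcon
          have e2 : z₀ + y = (3 / 50 : ℝ) • z₀ + (y - (-(47 / 50 : ℝ)) • z₀) := by
            module
          rw [e2]
          refine (norm_add_le _ _).trans ?_
          rw [norm_smul, Real.norm_eq_abs, abs_of_pos (by norm_num : (0 : ℝ) < 3 / 50)]
          linarith
      have e3 : volume (ball (-(47 / 50 : ℝ) • z₀) (1 / 100)) =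
          volume (ball (0 : Cn n) (1 / 100)) :=
        Measure.addHaar_ball_center _ _ _
      rw [← e3]
      exact measure_mono e
    exact absurd (h3.trans h2) (not_le.mpr hA₁')
  have hsub : ball z₁ (193 / 100) ⊆ ball (0 : Cn n) 2 := by
    intro x hx
    rw [mem_ball_iff_norm] at hx
    rw [mem_ball_zero_iff]
    have := norm_le_norm_add_norm_sub' x z₁
    linarith
  have h2 := h₁ F z₁ hF hF1 hsub hFz₁ t ht
  refine le_trans ?_ h2
  rw [← measure_preimage_add volume z₁]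
  refine measure_mono ?_
  rintro y ⟨hy1, hy2⟩
  refine ⟨?_, hy2⟩
  have h3 : ‖y‖ ≤ ‖z₁ + y‖ + ‖z₁‖ := by
    have := norm_sub_le (z₁ + y) z₁
    rwa [add_sub_cancel_left] at this
  linarith

end HMA

end S_MA_Sko2

section S_MA_OmegaL1

/-! # Module OML1: integrability of `ω`-plurisubharmonic functions -/

open MeasureTheory Metric Set
open scoped ENNReal Topology ContDiff

namespace HMA

theorem OmegaL1_zero {n : ℕ} {F : Cn (n + 1) → ℝ} (hF : OmegaPsh n F) : F 0 = 0 := by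
  have := hF.hom 0 0
  simpa using this

/-- the maximum on the unit sphere is attained -/
theorem omega_max {n : ℕ} {F : Cn (n + 1) → ℝ} (hF : OmegaPsh n F) :
    ∃ p : Cn (n + 1), ‖p‖ = 1 ∧ 0 < F p ∧ ∀ x, F x ≤ F p * ‖x‖ := by
  have hne : (sphere (0 : Cn (n + 1)) 1).Nonempty := by
    have : ‖bv (n + 1) 0‖ = 1 := by simp [bv]
    exact ⟨bv (n + 1) 0, by simp [this]⟩
  obtain ⟨p, hp, hmax⟩ := (hF.psh.usc.upperSemicontinuousOn (sphere (0 : Cn (n + 1)) 1)).exists_isMaxOn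
    hne (isCompact_sphere _ _)
  have hp1 : ‖p‖ = 1 := by simpa using hp
  have hle : ∀ x, F x ≤ F p * ‖x‖ := by
    intro x
    rcases eq_or_ne x 0 with rfl | hx
    · rw [OmegaL1_zero hF]; simp
    · have hx0 : ‖x‖ ≠ 0 := norm_ne_zero_iff.mpr hx
      have h1 : x = ((‖x‖ : ℝ) : ℂ) • (((‖x‖ : ℝ) : ℂ)⁻¹ • x) := by
        rw [smul_smul, mul_inv_cancel₀ (by exact_mod_cast hx0), one_smul]
      have h2 : (((‖x‖ : ℝ) : ℂ)⁻¹ • x) ∈ sphere (0 : Cn (n + 1)) 1 := by
        rw [mem_sphere, dist_zero_right, norm_smul, norm_inv, Complex.norm_real, norm_norm]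
        exact inv_mul_cancel₀ hx0
      have h3 := hmax h2
      rw [mem_ofPred_eq] at h3
      calc F x = F (((‖x‖ : ℝ) : ℂ) • (((‖x‖ : ℝ) : ℂ)⁻¹ • x)) := by rw [← h1]
        _ = ‖x‖ * F (((‖x‖ : ℝ) : ℂ)⁻¹ • x) := by
            rw [hF.hom, Complex.norm_real, norm_norm]
        _ ≤ ‖x‖ * F p := mul_le_mul_of_nonneg_left h3 (norm_nonneg _)
        _ = F p * ‖x‖ := mul_comm _ _
  refine ⟨p, hp1, ?_, hle⟩
  obtain ⟨x, hx⟩ := hF.nontrivial
  have h4 : 0 < F x := lt_of_le_of_ne (hF.psh.nonneg x) (Ne.symm hx)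
  have h5 := h4.trans_le (hle x)
  exact pos_of_mul_pos_left h5 (norm_nonneg _)

theorem OmegaL1_meas {n : ℕ} {F : Cn (n + 1) → ℝ} (hF : OmegaPsh n F) : Measurable F :=
  hF.psh.usc.measurable

/-- integrability on circles -/
theorem OmegaL1_circ {n : ℕ} {F : Cn (n + 1) → ℝ} (hF : OmegaPsh n F) {δ : ℝ} (hδ : 0 < δ)
    (a b : Cn (n + 1)) :
    IntervalIntegrable (fun θ : ℝ => Real.log (max (F (a + Complex.exp (θ * Complex.I) • b)) δ))
      volume 0 (2 * Real.pi) := by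
  obtain ⟨p, hp, hp0, hle⟩ := omega_max hF
  have hm : Measurable (fun θ : ℝ => Real.log (max (F (a + Complex.exp (θ * Complex.I) • b)) δ)) := by
    apply Real.measurable_log.comp
    apply Measurable.max _ measurable_const
    apply (OmegaL1_meas hF).comp
    apply Continuous.measurable
    fun_prop
  have hb : ∀ θ : ℝ, ‖Real.log (max (F (a + Complex.exp (θ * Complex.I) • b)) δ)‖ ≤
      |Real.log δ| + |Real.log (max (F p * (‖a‖ + ‖b‖)) δ)| := by
    intro θ
    have h1 : Real.log δ ≤ Real.log (max (F (a + Complex.exp (θ * Complex.I) • b)) δ) :=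
      Real.log_le_log hδ (le_max_right _ _)
    have h2 : Real.log (max (F (a + Complex.exp (θ * Complex.I) • b)) δ) ≤
        Real.log (max (F p * (‖a‖ + ‖b‖)) δ) := by
      apply Real.log_le_log (lt_max_of_lt_right hδ)
      apply max_le_max _ le_rfl
      refine (hle _).trans (mul_le_mul_of_nonneg_left ?_ hp0.le)
      refine (norm_add_le _ _).trans ?_
      rw [norm_smul, Complex.norm_exp_ofReal_mul_I, one_mul]
    rw [Real.norm_eq_abs, abs_le]
    constructor
    · have := neg_abs_le (Real.log δ)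
      have := abs_nonneg (Real.log (max (F p * (‖a‖ + ‖b‖)) δ))
      linarith
    · have := le_abs_self (Real.log (max (F p * (‖a‖ + ‖b‖)) δ))
      have := abs_nonneg (Real.log δ)
      linarith
  rw [intervalIntegrable_iff]
  apply Measure.integrableOn_of_bounded (M := |Real.log δ| + |Real.log (max (F p * (‖a‖ + ‖b‖)) δ)|)
  · rw [uIoc]
    exact measure_Ioc_lt_top.ne
  · exact hm.aestronglyMeasurable
  · exact Filter.Eventually.of_forall hb

theorem omega_smul {n : ℕ} {F : Cn (n + 1) → ℝ} (hF : OmegaPsh n F) {c : ℝ} (hc : 0 < c) :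
    OmegaPsh n (fun x => c * F x) := by
  refine ⟨⟨fun x => mul_nonneg hc.le (hF.psh.nonneg x), ?_, ?_⟩, ?_, ?_⟩
  · exact (continuous_const.mul continuous_id).comp_upperSemicontinuous hF.psh.usc
      (fun x y hxy => mul_le_mul_of_nonneg_left hxy hc.le)
  · intro δ hδ a b
    have hdc : 0 < δ / c := div_pos hδ hc
    have key : ∀ y : ℝ, Real.log (max (c * y) δ) = Real.log c + Real.log (max y (δ / c)) := by
      intro y
      have h1 : max (c * y) δ = c * max y (δ / c) := by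
        rw [mul_max_of_nonneg _ _ hc.le, mul_div_cancel₀ _ hc.ne']
      rw [h1, Real.log_mul hc.ne' (lt_max_of_lt_right hdc).ne']
    simp only [key]
    rw [intervalIntegral.integral_add (by simp) (OmegaL1_circ hF hdc a b),
      intervalIntegral.integral_const, smul_eq_mul, mul_add]
    have h2 := hF.psh.submean (δ / c) hdc a b
    have h3 : (2 * Real.pi)⁻¹ * ((2 * Real.pi - 0) * Real.log c) = Real.log c := by
      have := Real.pi_pos
      field_simp
      ring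
    rw [h3]
    linarith
  · intro z x
    show c * F (z • x) = ‖z‖ * (c * F x)
    rw [hF.hom]; ring
  · obtain ⟨x, hx⟩ := hF.nontrivial
    exact ⟨x, mul_ne_zero hc.ne' hx⟩

theorem OmegaL1_bd {n : ℕ} {F : Cn (n + 1) → ℝ} {p : Cn (n + 1)} (hp : ‖p‖ = 1) (hp0 : 0 < F p)
    (hle : ∀ x, F x ≤ F p * ‖x‖) {R : ℝ} {x : Cn (n + 1)} (hx : x ∈ ball p (R + 1)) :
    F x ≤ F p * (R + 2) := by
  refine (hle x).trans (mul_le_mul_of_nonneg_left ?_ hp0.le)
  rw [mem_ball, dist_eq_norm] at hx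
  have : ‖x‖ ≤ ‖x - p‖ + ‖p‖ := by
    simpa using norm_add_le (x - p) p
  linarith

theorem OmegaL1_main {n : ℕ} {F : Cn (n + 1) → ℝ} (hF : OmegaPsh n F) {p : Cn (n + 1)}
    (hp : ‖p‖ = 1) (hp0 : 0 < F p) (hle : ∀ x, F x ≤ F p * ‖x‖) {R : ℝ} (hR : 0 ≤ R) {δ : ℝ}
    (hδ : 0 < δ) (hδM : δ ≤ F p * (R + 2)) :
    ∫⁻ x in ball p (R + 1),
        ENNReal.ofReal (Real.log (F p * (R + 2)) - Real.log (max (F x) δ)) ≤
      ENNReal.ofReal (Real.log (R + 2) * volume.real (ball p (R + 1))) := by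
  have hu := pshR_log_max hF.psh hδ
  have hR1 : 0 < R + 1 := by linarith
  obtain ⟨hint, hsub⟩ := submean_ball hu.usc hu.bdd hR1 (fun a b _ => hu.submean a b) p
  have : IsFiniteMeasure (volume.restrict (ball p (R + 1))) :=
    ⟨by rw [Measure.restrict_apply_univ]; exact measure_ball_lt_top⟩
  have hc : Integrable (fun _ : Cn (n + 1) => Real.log (F p * (R + 2)))
      (volume.restrict (ball p (R + 1))) := integrable_const _
  have hcs : Integrable (fun x => Real.log (F p * (R + 2)) - Real.log (max (F x) δ))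
      (volume.restrict (ball p (R + 1))) := hc.sub hint
  rw [← ofReal_integral_eq_lintegral_ofReal hcs]
  · apply ENNReal.ofReal_le_ofReal
    rw [integral_sub hc hint, integral_const, smul_eq_mul]
    have h1 : Real.log (F p) ≤ Real.log (max (F p) δ) := Real.log_le_log hp0 (le_max_left _ _)
    have h2 : Real.log (F p * (R + 2)) = Real.log (F p) + Real.log (R + 2) :=
      Real.log_mul hp0.ne' (by linarith)
    have h3 : (volume.restrict (ball p (R + 1))).real univ = volume.real (ball p (R + 1)) := by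
      simp [Measure.real]
    rw [h3, h2]
    have h4 : 0 ≤ volume.real (ball p (R + 1)) := measureReal_nonneg
    nlinarith
  · filter_upwards [ae_restrict_mem measurableSet_ball] with x hx
    have h1 := OmegaL1_bd hp hp0 hle hx
    have h2 : Real.log (max (F x) δ) ≤ Real.log (F p * (R + 2)) :=
      Real.log_le_log (lt_max_of_lt_right hδ) (max_le h1 hδM)
    simpa using h2

theorem OmegaL1_est {n : ℕ} {F : Cn (n + 1) → ℝ} (hF : OmegaPsh n F) {p : Cn (n + 1)}
    (hp : ‖p‖ = 1) (hp0 : 0 < F p) (hle : ∀ x, F x ≤ F p * ‖x‖) {R : ℝ} (hR : 0 ≤ R) :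
    volume ({x | F x = 0} ∩ ball p (R + 1)) = 0 ∧
    IntegrableOn (fun x => Real.log (F x)) (ball p (R + 1)) volume ∧
    ∫ x in ball p (R + 1), |Real.log (F x)| ≤
      (Real.log (R + 2) + |Real.log (F p * (R + 2))|) * volume.real (ball p (R + 1)) := by
  set c : ℝ := Real.log (F p * (R + 2)) with hc
  set K : ℝ := Real.log (R + 2) * volume.real (ball p (R + 1)) with hK
  have hMR : 0 < F p * (R + 2) := mul_pos hp0 (by linarith)
  have hm : Measurable F := OmegaL1_meas hF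
  have hK0 : 0 ≤ K := mul_nonneg (Real.log_nonneg (by linarith)) measureReal_nonneg
  have hfin : volume (ball p (R + 1)) < ⊤ := measure_ball_lt_top
  have : IsFiniteMeasure (volume.restrict (ball p (R + 1))) :=
    ⟨by rw [Measure.restrict_apply_univ]; exact hfin⟩
  -- null set
  have hZm : MeasurableSet ({x | F x = 0} ∩ ball p (R + 1)) :=
    (hm (measurableSet_singleton 0)).inter measurableSet_ball
  have hZfin : volume ({x | F x = 0} ∩ ball p (R + 1)) < ⊤ :=
    (measure_mono inter_subset_right).trans_lt hfin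
  have hnull : volume ({x | F x = 0} ∩ ball p (R + 1)) = 0 := by
    by_contra hne
    set v : ℝ := volume.real ({x | F x = 0} ∩ ball p (R + 1)) with hv
    have hv0 : 0 < v := by
      rw [hv, Measure.real]
      exact ENNReal.toReal_pos hne hZfin.ne
    have key : ∀ t : ℝ, 0 ≤ t → t * v ≤ K := by
      intro t ht
      have hδ : 0 < F p * (R + 2) * Real.exp (-t) := mul_pos hMR (Real.exp_pos _)
      have hδM : F p * (R + 2) * Real.exp (-t) ≤ F p * (R + 2) := by
        apply mul_le_of_le_one_right hMR.le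
        rw [Real.exp_le_one_iff]; linarith
      have h1 := OmegaL1_main hF hp hp0 hle hR hδ hδM
      have h2 : ∫⁻ x in {x | F x = 0} ∩ ball p (R + 1), ENNReal.ofReal t ≤
          ENNReal.ofReal K := by
        refine le_trans ?_ h1
        refine le_trans ?_ (lintegral_mono_set (inter_subset_right (s := {x | F x = 0})))
        apply setLIntegral_mono_ae' hZm
        filter_upwards with x hx
        apply ENNReal.ofReal_le_ofReal
        have hx0 : F x = 0 := hx.1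
        rw [hx0, max_eq_right hδ.le, Real.log_mul hMR.ne' (Real.exp_pos _).ne', Real.log_exp]
        linarith
      rw [setLIntegral_const] at h2
      rw [hv, Measure.real]
      have h3 := ENNReal.toReal_mono ENNReal.ofReal_ne_top h2
      rwa [ENNReal.toReal_mul, ENNReal.toReal_ofReal ht, ENNReal.toReal_ofReal hK0] at h3
    have h4 := key (K / v + 1) (by positivity)
    rw [add_mul, div_mul_cancel₀ _ hv0.ne'] at h4
    linarith
  refine ⟨hnull, ?_⟩
  -- Fatou
  have haepos : ∀ᵐ x ∂(volume.restrict (ball p (R + 1))), F x ≠ 0 := by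
    rw [ae_restrict_iff' measurableSet_ball]
    filter_upwards [measure_eq_zero_iff_ae_notMem.mp hnull] with x hx hxb h0
    exact hx ⟨h0, hxb⟩
  have hF1 : ∫⁻ x in ball p (R + 1), ENNReal.ofReal (c - Real.log (F x)) ≤ ENNReal.ofReal K := by
    set δ : ℕ → ℝ := fun k => F p * (R + 2) * (1 / ((k : ℝ) + 1)) with hδd
    have hδ0 : ∀ k, 0 < δ k := fun k => mul_pos hMR (by positivity)
    have hδM : ∀ k, δ k ≤ F p * (R + 2) := by
      intro k
      apply mul_le_of_le_one_right hMR.le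
      rw [div_le_one (by positivity)]
      have : (0 : ℝ) ≤ k := Nat.cast_nonneg k
      linarith
    have hδt : Filter.Tendsto δ Filter.atTop (𝓝 0) := by
      have := tendsto_one_div_add_atTop_nhds_zero_nat (𝕜 := ℝ)
      have h2 := this.const_mul (F p * (R + 2))
      rwa [mul_zero] at h2
    have hmk : ∀ k, Measurable (fun x => ENNReal.ofReal (c - Real.log (max (F x) (δ k)))) := by
      intro k
      exact ENNReal.measurable_ofReal.comp
        (measurable_const.sub (Real.measurable_log.comp (hm.max measurable_const)))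
    calc ∫⁻ x in ball p (R + 1), ENNReal.ofReal (c - Real.log (F x))
        = ∫⁻ x in ball p (R + 1), Filter.liminf
            (fun k => ENNReal.ofReal (c - Real.log (max (F x) (δ k)))) Filter.atTop := by
          apply lintegral_congr_ae
          filter_upwards [haepos] with x hx
          symm
          apply Filter.Tendsto.liminf_eq
          apply (ENNReal.continuous_ofReal.tendsto _).comp
          apply Filter.Tendsto.const_sub
          have h5 : Filter.Tendsto (fun k => max (F x) (δ k)) Filter.atTop (𝓝 (F x)) := by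
            have h6 := (tendsto_const_nhds (x := F x) (f := Filter.atTop)).max hδt
            rwa [max_eq_left (hF.psh.nonneg x)] at h6
          exact (Real.continuousAt_log hx).tendsto.comp h5
      _ ≤ Filter.liminf (fun k => ∫⁻ x in ball p (R + 1),
            ENNReal.ofReal (c - Real.log (max (F x) (δ k)))) Filter.atTop :=
          lintegral_liminf_le hmk
      _ ≤ ENNReal.ofReal K := by
          apply Filter.liminf_le_of_le
          · exact Filter.isBoundedUnder_of ⟨0, fun _ => bot_le⟩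
          · intro b hb
            obtain ⟨k, hk⟩ := hb.exists
            exact hk.trans (OmegaL1_main hF hp hp0 hle hR (hδ0 k) (hδM k))
  have hw0 : 0 ≤ᵐ[volume.restrict (ball p (R + 1))] fun x => c - Real.log (F x) := by
    filter_upwards [haepos, ae_restrict_mem measurableSet_ball] with x hx hxb
    have h1 := OmegaL1_bd hp hp0 hle hxb
    have h2 : 0 < F x := lt_of_le_of_ne (hF.psh.nonneg x) (Ne.symm hx)
    have h3 := Real.log_le_log h2 h1
    simpa using h3
  have hwm : AEStronglyMeasurable (fun x => c - Real.log (F x))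
      (volume.restrict (ball p (R + 1))) :=
    (measurable_const.sub (Real.measurable_log.comp hm)).aestronglyMeasurable
  have hwi : Integrable (fun x => c - Real.log (F x)) (volume.restrict (ball p (R + 1))) :=
    ⟨hwm, (hasFiniteIntegral_iff_ofReal hw0).mpr (hF1.trans_lt ENNReal.ofReal_lt_top)⟩
  have hci : Integrable (fun _ : Cn (n + 1) => c) (volume.restrict (ball p (R + 1))) :=
    integrable_const _
  have hli : Integrable (fun x => Real.log (F x)) (volume.restrict (ball p (R + 1))) := by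
    have := hci.sub hwi
    refine this.congr (Filter.Eventually.of_forall fun x => ?_)
    simp
  refine ⟨hli, ?_⟩
  have hwK : ∫ x in ball p (R + 1), (c - Real.log (F x)) ≤ K := by
    rw [integral_eq_lintegral_of_nonneg_ae hw0 hwm]
    exact ENNReal.toReal_le_of_le_ofReal hK0 hF1
  calc ∫ x in ball p (R + 1), |Real.log (F x)|
      ≤ ∫ x in ball p (R + 1), ((c - Real.log (F x)) + |c|) := by
        apply integral_mono_ae hli.abs (hwi.add (integrable_const _))
        filter_upwards [hw0] with x hx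
        simp only [Pi.zero_apply] at hx
        show |Real.log (F x)| ≤ (c - Real.log (F x)) + |c|
        rw [abs_le]
        constructor
        · have := neg_abs_le c
          have := abs_nonneg c
          rcases le_total 0 (Real.log (F x)) with h | h
          · linarith
          · linarith [le_abs_self c]
        · rcases le_total 0 (Real.log (F x)) with h | h
          · linarith [le_abs_self c]
          · linarith [abs_nonneg c]
    _ = (∫ x in ball p (R + 1), (c - Real.log (F x))) + |c| * volume.real (ball p (R + 1)) := by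
        rw [integral_add hwi (integrable_const _), integral_const, smul_eq_mul]
        simp [Measure.real, mul_comm]
    _ ≤ (Real.log (R + 2) + |c|) * volume.real (ball p (R + 1)) := by
        rw [add_mul]
        linarith

theorem omega_null {n : ℕ} {F : Cn (n + 1) → ℝ} (hF : OmegaPsh n F) :
    volume {x | F x = 0} = 0 := by
  obtain ⟨p, hp, hp0, hle⟩ := omega_max hF
  have h1 : {x | F x = 0} ⊆ ⋃ k : ℕ, ({x | F x = 0} ∩ ball p ((k : ℝ) + 1)) := by
    intro x hx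
    rw [mem_iUnion]
    obtain ⟨k, hk⟩ := exists_nat_gt (dist x p)
    exact ⟨k, hx, by rw [mem_ball]; linarith⟩
  exact measure_mono_null h1 (measure_iUnion_null fun k =>
    (OmegaL1_est hF hp hp0 hle (Nat.cast_nonneg k)).1)

theorem omega_intOn {n : ℕ} {F : Cn (n + 1) → ℝ} (hF : OmegaPsh n F) (a : Cn (n + 1)) (ρ : ℝ) :
    IntegrableOn (fun x => Real.log (F x)) (ball a ρ) volume := by
  obtain ⟨p, hp, hp0, hle⟩ := omega_max hF
  have h1 : (0 : ℝ) ≤ |ρ| + dist a p := by positivity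
  refine (OmegaL1_est hF hp hp0 hle h1).2.1.mono_set ?_
  intro x hx
  rw [mem_ball] at hx ⊢
  have := dist_triangle x a p
  have := le_abs_self ρ
  linarith

theorem omega_ball {n : ℕ} {F : Cn (n + 1) → ℝ} (hF : OmegaPsh n F) {x : Cn (n + 1)}
    (hx : 0 < F x) {ρ : ℝ} (hρ : 0 < ρ) :
    Real.log (F x) * volume.real (ball x ρ) ≤ ∫ y in ball x ρ, Real.log (F y) := by
  have hm : Measurable F := OmegaL1_meas hF
  set δ : ℕ → ℝ := fun k => 1 / ((k : ℝ) + 1) with hδd
  have hδ0 : ∀ k, 0 < δ k := fun k => by positivity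
  have hδ1 : ∀ k, δ k ≤ 1 := by
    intro k
    rw [hδd]
    show 1 / ((k : ℝ) + 1) ≤ 1
    rw [div_le_one (by positivity)]
    have : (0 : ℝ) ≤ k := Nat.cast_nonneg k
    linarith
  have hδt : Filter.Tendsto δ Filter.atTop (𝓝 0) := tendsto_one_div_add_atTop_nhds_zero_nat (𝕜 := ℝ)
  have hae : ∀ᵐ y ∂(volume.restrict (ball x ρ)), F y ≠ 0 := by
    apply ae_restrict_of_ae
    exact measure_eq_zero_iff_ae_notMem.mp (omega_null hF)
  have hlim : Filter.Tendsto (fun k => ∫ y in ball x ρ, Real.log (max (F y) (δ k))) Filter.atTop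
      (𝓝 (∫ y in ball x ρ, Real.log (F y))) := by
    apply tendsto_integral_of_dominated_convergence (fun y => |Real.log (F y)|)
    · intro k
      exact (Real.measurable_log.comp (hm.max measurable_const)).aestronglyMeasurable
    · exact (omega_intOn hF x ρ).abs
    · intro k
      filter_upwards [hae] with y hy
      have hy0 : 0 < F y := lt_of_le_of_ne (hF.psh.nonneg y) (Ne.symm hy)
      rw [Real.norm_eq_abs]
      rcases le_total (δ k) (F y) with h | h
      · rw [max_eq_left h]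
      · rw [max_eq_right h]
        have h1 : Real.log (F y) ≤ Real.log (δ k) := Real.log_le_log hy0 h
        have h2 : Real.log (δ k) ≤ 0 := Real.log_nonpos (hδ0 k).le (hδ1 k)
        rw [abs_of_nonpos h2, abs_of_nonpos (h1.trans h2)]
        linarith
    · filter_upwards [hae] with y hy
      have h5 : Filter.Tendsto (fun k => max (F y) (δ k)) Filter.atTop (𝓝 (F y)) := by
        have h6 := (tendsto_const_nhds (x := F y) (f := Filter.atTop)).max hδt
        rwa [max_eq_left (hF.psh.nonneg y)] at h6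
      exact (Real.continuousAt_log hy).tendsto.comp h5
  apply ge_of_tendsto' hlim
  intro k
  have hu := pshR_log_max hF.psh (hδ0 k)
  have h1 := (submean_ball hu.usc hu.bdd hρ (fun a b _ => hu.submean a b) x).2
  refine le_trans ?_ h1
  apply mul_le_mul_of_nonneg_right _ measureReal_nonneg
  exact Real.log_le_log hx (le_max_left _ _)

/-- uniform bound; use the ball of radius `2` around a maximum point on the unit sphere -/
theorem omega_L1 (n : ℕ) {A : ℝ} (hA : 1 ≤ A) : ∃ C : ℝ, 0 < C ∧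
    ∀ F : Cn (n + 1) → ℝ, OmegaPsh n F → Nrm A F →
      ∫ x in ball (0 : Cn (n + 1)) 1, |Real.log (F x)| ≤ C := by
  have hlA : 0 ≤ Real.log A := Real.log_nonneg hA
  have hl3 : 0 ≤ Real.log 3 := Real.log_nonneg (by norm_num)
  refine ⟨(2 * Real.log 3 + Real.log A) * volume.real (ball (0 : Cn (n + 1)) 2) + 1, ?_, ?_⟩
  · have : 0 ≤ volume.real (ball (0 : Cn (n + 1)) 2) := measureReal_nonneg
    positivity
  · intro F hF hN
    obtain ⟨p, hp, hp0, hle⟩ := omega_max hF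
    have hpA : F p ≤ A := by
      have := hN.le p
      rwa [hp, mul_one] at this
    have hpA' : A⁻¹ ≤ F p := by
      obtain ⟨x, hx, hxA⟩ := hN.ge
      have h1 := hxA.trans (hle x)
      exact le_of_mul_le_mul_right h1 (norm_pos_iff.mpr hx)
    have hA0 : 0 < A := by linarith
    obtain ⟨-, hint, hest⟩ := OmegaL1_est hF hp hp0 hle (zero_le_one (α := ℝ))
    have hvol : volume.real (ball p (1 + 1)) = volume.real (ball (0 : Cn (n + 1)) 2) := by
      rw [Measure.real, Measure.real, Measure.addHaar_ball_center]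
      norm_num
    have hsub : ball (0 : Cn (n + 1)) 1 ⊆ ball p (1 + 1) := by
      intro x hx
      rw [mem_ball, dist_zero_right] at hx
      rw [mem_ball, dist_eq_norm]
      have := norm_sub_le x p
      linarith
    have hlogp : |Real.log (F p)| ≤ Real.log A := by
      rw [abs_le]
      constructor
      · rw [← Real.log_inv]
        exact Real.log_le_log (by positivity) hpA'
      · exact Real.log_le_log hp0 hpA
    calc ∫ x in ball (0 : Cn (n + 1)) 1, |Real.log (F x)|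
        ≤ ∫ x in ball p (1 + 1), |Real.log (F x)| :=
          setIntegral_mono_set hint.abs (Filter.Eventually.of_forall fun x => abs_nonneg _)
            hsub.eventuallyLE
      _ ≤ (Real.log (1 + 2) + |Real.log (F p * (1 + 2))|) * volume.real (ball p (1 + 1)) := hest
      _ ≤ (2 * Real.log 3 + Real.log A) * volume.real (ball (0 : Cn (n + 1)) 2) := by
          rw [hvol]
          apply mul_le_mul_of_nonneg_right _ measureReal_nonneg
          have h12 : (1 : ℝ) + 2 = 3 := by norm_num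
          rw [h12, Real.log_mul hp0.ne' (by norm_num)]
          have := abs_add_le (Real.log (F p)) (Real.log 3)
          rw [abs_of_nonneg hl3] at this
          linarith
      _ ≤ _ := by linarith

end HMA

end S_MA_OmegaL1

section S_MA_ProdPsh

/-! # Module PRODP: infinite geometric means of `ω`-psh functions -/

open MeasureTheory Metric Set
open scoped ENNReal Topology ContDiff

namespace HMA

section ProdPshAux

open Filter

variable {V : Type} [NormedAddCommGroup V] [NormedSpace ℂ V]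

/-- limits of sub-mean value inequalities -/
theorem ProdPsh_lim {f : ℕ → ℝ → ℝ} {g : ℝ → ℝ} {x : ℕ → ℝ} {y C : ℝ}
    (hm : ∀ k, Measurable (f k)) (hC : ∀ k θ, |f k θ| ≤ C)
    (hlim : ∀ θ, Tendsto (fun k => f k θ) atTop (𝓝 (g θ))) (hx : Tendsto x atTop (𝓝 y))
    (h : ∀ k, x k ≤ (2 * Real.pi)⁻¹ * ∫ θ in (0 : ℝ)..(2 * Real.pi), f k θ) :
    y ≤ (2 * Real.pi)⁻¹ * ∫ θ in (0 : ℝ)..(2 * Real.pi), g θ := by
  have h1 : Tendsto (fun k => ∫ θ in (0 : ℝ)..(2 * Real.pi), f k θ) atTop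
      (𝓝 (∫ θ in (0 : ℝ)..(2 * Real.pi), g θ)) := by
    apply intervalIntegral.tendsto_integral_filter_of_dominated_convergence (fun _ => C)
    · exact Eventually.of_forall fun k => (hm k).aestronglyMeasurable
    · exact Eventually.of_forall fun k => Eventually.of_forall fun θ _ => hC k θ
    · exact intervalIntegrable_const
    · exact Eventually.of_forall fun θ _ => hlim θ
  exact le_of_tendsto_of_tendsto' hx (h1.const_mul _) h

theorem ProdPsh_int {f : ℝ → ℝ} {C : ℝ} (hm : Measurable f) (hC : ∀ θ, |f θ| ≤ C) :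
    IntervalIntegrable f volume 0 (2 * Real.pi) := by
  refine (intervalIntegrable_const (c := C)).mono_fun hm.aestronglyMeasurable ?_
  refine Eventually.of_forall fun θ => ?_
  show ‖f θ‖ ≤ ‖C‖
  rw [Real.norm_eq_abs, Real.norm_eq_abs]
  exact (hC θ).trans (le_abs_self C)

theorem ProdPsh_mono {f g : ℝ → ℝ} {C C' : ℝ} (hm : Measurable f) (hC : ∀ θ, |f θ| ≤ C)
    (hm' : Measurable g) (hC' : ∀ θ, |g θ| ≤ C') (h : ∀ θ, f θ ≤ g θ) :
    (2 * Real.pi)⁻¹ * ∫ θ in (0 : ℝ)..(2 * Real.pi), f θ ≤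
      (2 * Real.pi)⁻¹ * ∫ θ in (0 : ℝ)..(2 * Real.pi), g θ := by
  refine mul_le_mul_of_nonneg_left ?_ (by positivity)
  exact intervalIntegral.integral_mono (by positivity) (ProdPsh_int hm hC) (ProdPsh_int hm' hC') h

theorem ProdPsh_mean_const (c : ℝ) :
    (2 * Real.pi)⁻¹ * ∫ _θ in (0 : ℝ)..(2 * Real.pi), c = c := by
  rw [intervalIntegral.integral_const, smul_eq_mul, sub_zero, ← mul_assoc,
    inv_mul_cancel₀ (by positivity), one_mul]

theorem ProdPsh_bdd {F : V → ℝ} (hF : UpperSemicontinuous F) (a b : V) :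
    ∃ M : ℝ, 1 ≤ M ∧ ∀ θ : ℝ, F (a + Complex.exp (θ * Complex.I) • b) ≤ M := by
  have hK : IsCompact ((fun ζ : ℂ => a + ζ • b) '' sphere 0 1) :=
    (isCompact_sphere 0 1).image (by fun_prop)
  obtain ⟨M, hM⟩ := (hF.upperSemicontinuousOn _).bddAbove_of_isCompact hK
  refine ⟨max M 1, le_max_right _ _, fun θ => le_max_of_le_left (hM ⟨_, ⟨_, ?_, rfl⟩, rfl⟩)⟩
  rw [mem_sphere_zero_iff_norm, Complex.norm_exp_ofReal_mul_I]

theorem ProdPsh_meas {F : V → ℝ} (hF : UpperSemicontinuous F) (a b : V) :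
    Measurable (fun θ : ℝ => F (a + Complex.exp (θ * Complex.I) • b)) :=
  (hF.comp (g := fun θ : ℝ => a + Complex.exp (θ * Complex.I) • b) (by fun_prop)).measurable

theorem ProdPsh_logb {t η M : ℝ} (hη : 0 < η) (ht : t ≤ M) :
    |Real.log (max t η)| ≤ |Real.log η| + |Real.log (max M η)| := by
  have h1 : Real.log (max t η) ≤ Real.log (max M η) :=
    Real.log_le_log (lt_of_lt_of_le hη (le_max_right _ _)) (max_le_max_right η ht)
  have h2 : Real.log η ≤ Real.log (max t η) := Real.log_le_log hη (le_max_right _ _)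
  have h3 := neg_abs_le (Real.log η)
  have h4 := le_abs_self (Real.log (max M η))
  have h5 := abs_nonneg (Real.log η)
  have h6 := abs_nonneg (Real.log (max M η))
  rw [abs_le]
  constructor <;> linarith

omit [NormedSpace ℂ V] in
theorem ProdPsh_usc_mul {F F' : V → ℝ} (hF : UpperSemicontinuous F)
    (hF' : UpperSemicontinuous F') (h0 : ∀ x, 0 ≤ F x) (h0' : ∀ x, 0 ≤ F' x) :
    UpperSemicontinuous (fun x => F x * F' x) := by
  intro x y hy
  have hc : Continuous (fun ε : ℝ => (F x + ε) * (F' x + ε)) := by fun_prop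
  have hev : ∀ᶠ ε in 𝓝 (0 : ℝ), (F x + ε) * (F' x + ε) < y := by
    apply hc.continuousAt.eventually_lt continuousAt_const
    simpa using hy
  obtain ⟨ε, hε', hε⟩ := ((hev.filter_mono nhdsWithin_le_nhds).and
    (self_mem_nhdsWithin : Ioi (0 : ℝ) ∈ 𝓝[>] 0)).exists
  have hε0 : 0 < ε := hε
  filter_upwards [hF x (F x + ε) (by linarith), hF' x (F' x + ε) (by linarith)] with z hz hz'
  calc F z * F' z ≤ (F x + ε) * (F' x + ε) :=
        mul_le_mul hz.le hz'.le (h0' z) (by linarith [h0 x])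
    _ < y := hε'

omit [NormedSpace ℂ V] in
theorem ProdPsh_usc_rpow {F : V → ℝ} (hF : UpperSemicontinuous F) (h0 : ∀ x, 0 ≤ F x) {c : ℝ}
    (hc : 0 < c) : UpperSemicontinuous (fun x => F x ^ c) := by
  have h1 : (fun x => F x ^ c) = (fun t : ℝ => (max t 0) ^ c) ∘ F := by
    funext x
    simp only [Function.comp_apply]
    rw [max_eq_left (h0 x)]
  rw [h1]
  refine Continuous.comp_upperSemicontinuous ?_ hF ?_
  · exact (continuous_id.max continuous_const).rpow_const (fun _ => Or.inr hc.le)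
  · intro s t hst
    exact Real.rpow_le_rpow (le_max_right _ _) (max_le_max_right 0 hst) hc.le

/-- truncated sub-mean value inequality for a product of powers -/
theorem ProdPsh_trunc {F F' : V → ℝ} (hF : LogPsh F) (hF' : LogPsh F') {c c' : ℝ} (hc : 0 < c)
    (hc' : 0 < c') {δ η : ℝ} (hδ : 0 < δ) (hη : 0 < η) (a b : V) :
    Real.log (max (max (F a) η ^ c * max (F' a) η ^ c') δ) ≤ (2 * Real.pi)⁻¹ *
      ∫ θ in (0 : ℝ)..(2 * Real.pi), Real.log (max (max (F (a + Complex.exp (θ * Complex.I) • b)) η ^ c *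
        max (F' (a + Complex.exp (θ * Complex.I) • b)) η ^ c') δ) := by
  obtain ⟨M, hM1, hM⟩ := ProdPsh_bdd hF.usc a b
  obtain ⟨M', hM1', hM'⟩ := ProdPsh_bdd hF'.usc a b
  have hpos : ∀ z, 0 < max (F z) η := fun z => lt_of_lt_of_le hη (le_max_right _ _)
  have hpos' : ∀ z, 0 < max (F' z) η := fun z => lt_of_lt_of_le hη (le_max_right _ _)
  have hform : ∀ z, Real.log (max (max (F z) η ^ c * max (F' z) η ^ c') δ) =
      max (c * Real.log (max (F z) η) + c' * Real.log (max (F' z) η)) (Real.log δ) := by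
    intro z
    have h1 : 0 < max (F z) η ^ c * max (F' z) η ^ c' :=
      mul_pos (Real.rpow_pos_of_pos (hpos z) _) (Real.rpow_pos_of_pos (hpos' z) _)
    have h2 : Real.log (max (F z) η ^ c * max (F' z) η ^ c') =
        c * Real.log (max (F z) η) + c' * Real.log (max (F' z) η) := by
      rw [Real.log_mul (Real.rpow_pos_of_pos (hpos z) _).ne'
        (Real.rpow_pos_of_pos (hpos' z) _).ne', Real.log_rpow (hpos z), Real.log_rpow (hpos' z)]
    rw [← h2]
    rcases le_total (max (F z) η ^ c * max (F' z) η ^ c') δ with h | h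
    · rw [max_eq_right h, max_eq_right (Real.log_le_log h1 h)]
    · rw [max_eq_left h, max_eq_left (Real.log_le_log hδ h)]
  have hm : Measurable (fun θ : ℝ => F (a + Complex.exp (θ * Complex.I) • b)) :=
    ProdPsh_meas hF.usc a b
  have hm' : Measurable (fun θ : ℝ => F' (a + Complex.exp (θ * Complex.I) • b)) :=
    ProdPsh_meas hF'.usc a b
  simp only [hform]
  have hu : Measurable (fun θ : ℝ =>
      Real.log (max (F (a + Complex.exp (θ * Complex.I) • b)) η)) :=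
    Real.measurable_log.comp (hm.max measurable_const)
  have hu' : Measurable (fun θ : ℝ =>
      Real.log (max (F' (a + Complex.exp (θ * Complex.I) • b)) η)) :=
    Real.measurable_log.comp (hm'.max measurable_const)
  have hub : ∀ θ : ℝ, |Real.log (max (F (a + Complex.exp (θ * Complex.I) • b)) η)| ≤
      |Real.log η| + |Real.log (max M η)| := fun θ => ProdPsh_logb hη (hM θ)
  have hub' : ∀ θ : ℝ, |Real.log (max (F' (a + Complex.exp (θ * Complex.I) • b)) η)| ≤
      |Real.log η| + |Real.log (max M' η)| := fun θ => ProdPsh_logb hη (hM' θ)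
  set B := |Real.log η| + |Real.log (max M η)| with hB
  set B' := |Real.log η| + |Real.log (max M' η)| with hB'
  -- the function `v`
  have hv : Measurable (fun θ : ℝ =>
      c * Real.log (max (F (a + Complex.exp (θ * Complex.I) • b)) η) +
        c' * Real.log (max (F' (a + Complex.exp (θ * Complex.I) • b)) η)) :=
    (hu.const_mul c).add (hu'.const_mul c')
  have hvb : ∀ θ : ℝ, |c * Real.log (max (F (a + Complex.exp (θ * Complex.I) • b)) η) +
        c' * Real.log (max (F' (a + Complex.exp (θ * Complex.I) • b)) η)| ≤ c * B + c' * B' := by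
    intro θ
    refine (abs_add_le _ _).trans (add_le_add ?_ ?_)
    · rw [abs_mul, abs_of_pos hc]
      exact mul_le_mul_of_nonneg_left (hub θ) hc.le
    · rw [abs_mul, abs_of_pos hc']
      exact mul_le_mul_of_nonneg_left (hub' θ) hc'.le
  have hwb : ∀ θ : ℝ, |max (c * Real.log (max (F (a + Complex.exp (θ * Complex.I) • b)) η) +
        c' * Real.log (max (F' (a + Complex.exp (θ * Complex.I) • b)) η)) (Real.log δ)| ≤
        max (c * B + c' * B') |Real.log δ| := fun θ =>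
    (abs_max_le_max_abs_abs).trans (max_le_max_right _ (hvb θ))
  refine max_le ?_ ?_
  · have h1 := hF.submean η hη a b
    have h2 := hF'.submean η hη a b
    have h3 : (2 * Real.pi)⁻¹ * ∫ θ in (0 : ℝ)..(2 * Real.pi),
        (c * Real.log (max (F (a + Complex.exp (θ * Complex.I) • b)) η) +
        c' * Real.log (max (F' (a + Complex.exp (θ * Complex.I) • b)) η)) =
        c * ((2 * Real.pi)⁻¹ * ∫ θ in (0 : ℝ)..(2 * Real.pi),
          Real.log (max (F (a + Complex.exp (θ * Complex.I) • b)) η)) +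
        c' * ((2 * Real.pi)⁻¹ * ∫ θ in (0 : ℝ)..(2 * Real.pi),
          Real.log (max (F' (a + Complex.exp (θ * Complex.I) • b)) η)) := by
      rw [intervalIntegral.integral_add ((ProdPsh_int hu hub).const_mul c)
        ((ProdPsh_int hu' hub').const_mul c'), intervalIntegral.integral_const_mul,
        intervalIntegral.integral_const_mul]
      ring
    have h4 := mul_le_mul_of_nonneg_left h1 hc.le
    have h5 := mul_le_mul_of_nonneg_left h2 hc'.le
    refine le_trans (add_le_add h4 h5) ?_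
    rw [← h3]
    exact ProdPsh_mono hv hvb (hv.max measurable_const) hwb fun θ => le_max_left _ _
  · have h1 := ProdPsh_mean_const (Real.log δ)
    rw [← h1]
    conv_rhs => rw [h1]
    exact ProdPsh_mono measurable_const (fun _ => le_refl |Real.log δ|)
      (hv.max measurable_const) hwb fun θ => le_max_right _ _

theorem ProdPsh_mul {F F' : V → ℝ} (hF : LogPsh F) (hF' : LogPsh F') {c c' : ℝ} (hc : 0 < c)
    (hc' : 0 < c') : LogPsh (fun x => F x ^ c * F' x ^ c') where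
  nonneg x := mul_nonneg (Real.rpow_nonneg (hF.nonneg x) _) (Real.rpow_nonneg (hF'.nonneg x) _)
  usc := ProdPsh_usc_mul (ProdPsh_usc_rpow hF.usc hF.nonneg hc)
    (ProdPsh_usc_rpow hF'.usc hF'.nonneg hc') (fun x => Real.rpow_nonneg (hF.nonneg x) _)
    (fun x => Real.rpow_nonneg (hF'.nonneg x) _)
  submean := by
    intro δ hδ a b
    obtain ⟨M, hM1, hM⟩ := ProdPsh_bdd hF.usc a b
    obtain ⟨M', hM1', hM'⟩ := ProdPsh_bdd hF'.usc a b
    have hη : ∀ m : ℕ, (0 : ℝ) < 1 / ((m : ℝ) + 1) := fun m => Nat.one_div_pos_of_nat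
    have hη1 : ∀ m : ℕ, 1 / ((m : ℝ) + 1) ≤ 1 := fun m => by
      rw [div_le_one (by positivity)]
      have : (0 : ℝ) ≤ m := Nat.cast_nonneg m
      linarith
    have hlim : ∀ z, Tendsto (fun m : ℕ => Real.log (max (max (F z) (1 / ((m : ℝ) + 1)) ^ c *
        max (F' z) (1 / ((m : ℝ) + 1)) ^ c') δ)) atTop
        (𝓝 (Real.log (max (F z ^ c * F' z ^ c') δ))) := by
      intro z
      have h1 : Tendsto (fun m : ℕ => max (F z) (1 / ((m : ℝ) + 1))) atTop (𝓝 (F z)) := by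
        have h2 : Tendsto (fun m : ℕ => max (F z) (1 / ((m : ℝ) + 1))) atTop
            (𝓝 (max (F z) 0)) := tendsto_const_nhds.max tendsto_one_div_add_atTop_nhds_zero_nat
        rwa [max_eq_left (hF.nonneg z)] at h2
      have h1' : Tendsto (fun m : ℕ => max (F' z) (1 / ((m : ℝ) + 1))) atTop (𝓝 (F' z)) := by
        have h2 : Tendsto (fun m : ℕ => max (F' z) (1 / ((m : ℝ) + 1))) atTop
            (𝓝 (max (F' z) 0)) := tendsto_const_nhds.max tendsto_one_div_add_atTop_nhds_zero_nat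
        rwa [max_eq_left (hF'.nonneg z)] at h2
      have h3 := (h1.rpow_const (p := c) (Or.inr hc.le)).mul
        (h1'.rpow_const (p := c') (Or.inr hc'.le))
      have h4 := h3.max (tendsto_const_nhds (x := δ))
      exact h4.log (ne_of_gt (lt_of_lt_of_le hδ (le_max_right _ _)))
    refine ProdPsh_lim (C := |Real.log δ| + |Real.log (max (M ^ c * M' ^ c') δ)|) ?_ ?_
      (fun θ => hlim (a + Complex.exp (θ * Complex.I) • b)) (hlim a)
      (fun m => ProdPsh_trunc hF hF' hc hc' hδ (hη m) a b)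
    · intro m
      have h1 := (ProdPsh_meas hF.usc a b).max (measurable_const (a := 1 / ((m : ℝ) + 1)))
      have h2 := (ProdPsh_meas hF'.usc a b).max (measurable_const (a := 1 / ((m : ℝ) + 1)))
      exact Real.measurable_log.comp
        (((h1.pow_const c).mul (h2.pow_const c')).max measurable_const)
    · intro m θ
      refine ProdPsh_logb hδ (mul_le_mul ?_ ?_ ?_ ?_)
      · exact Real.rpow_le_rpow ((hη m).le.trans (le_max_right _ _))
          (max_le (hM θ) ((hη1 m).trans hM1)) hc.le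
      · exact Real.rpow_le_rpow ((hη m).le.trans (le_max_right _ _))
          (max_le (hM' θ) ((hη1 m).trans hM1')) hc'.le
      · exact Real.rpow_nonneg ((hη m).le.trans (le_max_right _ _)) _
      · exact Real.rpow_nonneg (zero_le_one.trans hM1) _

theorem ProdPsh_inf {F : ℕ → V → ℝ} (hF : ∀ k, LogPsh (F k))
    (ha : ∀ x, Antitone (fun k => F k x)) : LogPsh (fun x => ⨅ k, F k x) where
  nonneg x := Real.iInf_nonneg fun k => (hF k).nonneg x
  usc := upperSemicontinuous_ciInf (fun x => ⟨0, by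
    rintro _ ⟨k, rfl⟩
    exact (hF k).nonneg x⟩) fun k => (hF k).usc
  submean := by
    intro δ hδ a b
    obtain ⟨M, hM1, hM⟩ := ProdPsh_bdd (hF 0).usc a b
    have hlim : ∀ z, Tendsto (fun k : ℕ => Real.log (max (F k z) δ)) atTop
        (𝓝 (Real.log (max (⨅ k, F k z) δ))) := by
      intro z
      have h1 : Tendsto (fun k => F k z) atTop (𝓝 (⨅ k, F k z)) :=
        tendsto_atTop_ciInf (ha z) ⟨0, by
          rintro _ ⟨k, rfl⟩
          exact (hF k).nonneg z⟩
      have h4 := h1.max (tendsto_const_nhds (x := δ))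
      exact h4.log (ne_of_gt (lt_of_lt_of_le hδ (le_max_right _ _)))
    refine ProdPsh_lim (C := |Real.log δ| + |Real.log (max M δ)|) ?_ ?_
      (fun θ => hlim (a + Complex.exp (θ * Complex.I) • b)) (hlim a)
      (fun k => (hF k).submean δ hδ a b)
    · intro k
      exact Real.measurable_log.comp ((ProdPsh_meas (hF k).usc a b).max measurable_const)
    · intro k θ
      exact ProdPsh_logb hδ ((ha _ (Nat.zero_le k)).trans (hM θ))

theorem ProdPsh_one : LogPsh (fun _ : V => (1 : ℝ)) where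
  nonneg _ := zero_le_one
  usc := upperSemicontinuous_const
  submean := by
    intro δ _ a b
    rw [ProdPsh_mean_const]

theorem ProdPsh_norm (n : ℕ) : LogPsh (fun x : Cn n => ‖x‖) where
  nonneg x := norm_nonneg x
  usc := continuous_norm.upperSemicontinuous
  submean := by
    intro δ hδ a b
    obtain ⟨e, he, he'⟩ : ∃ e : Cn n, ‖e‖ ≤ 1 ∧ ‖inner ℂ e a‖ = ‖a‖ := by
      by_cases h : a = 0
      · exact ⟨0, by simp, by simp [h]⟩
      · have h0 : ‖a‖ ≠ 0 := norm_ne_zero_iff.2 h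
        refine ⟨((‖a‖⁻¹ : ℝ) : ℂ) • a, ?_, ?_⟩
        · rw [norm_smul, Complex.norm_real, norm_inv, norm_norm, inv_mul_cancel₀ h0]
        · rw [inner_smul_left, inner_self_eq_norm_sq_to_K]
          simp only [Complex.conj_ofReal, norm_mul, Complex.norm_real, norm_inv, norm_norm,
            norm_pow, Complex.coe_algebraMap]
          field_simp
    have h1 := jensen_poly (Polynomial.C (inner ℂ e a) + Polynomial.C (inner ℂ e b) * Polynomial.X)
      (s := 1) one_pos hδ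
    simp only [Polynomial.eval_add, Polynomial.eval_mul, Polynomial.eval_C, Polynomial.eval_X,
      mul_zero, add_zero, Real.rpow_one, he'] at h1
    refine h1.trans ?_
    obtain ⟨M, hM1, hM⟩ := ProdPsh_bdd (continuous_norm (E := Cn n)).upperSemicontinuous a b
    have hle : ∀ θ : ℝ, ‖inner ℂ e a + inner ℂ e b * Complex.exp (θ * Complex.I)‖ ≤
        ‖a + Complex.exp (θ * Complex.I) • b‖ := by
      intro θ
      have h2 : inner ℂ e a + inner ℂ e b * Complex.exp (θ * Complex.I) =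
          inner ℂ e (a + Complex.exp (θ * Complex.I) • b) := by
        rw [inner_add_right, inner_smul_right, mul_comm]
      rw [h2]
      refine (norm_inner_le_norm _ _).trans ?_
      exact mul_le_of_le_one_left (norm_nonneg _) he
    refine ProdPsh_mono (C := |Real.log δ| + |Real.log (max M δ)|)
      (C' := |Real.log δ| + |Real.log (max M δ)|) ?_ ?_ ?_ ?_ ?_
    · have : Continuous fun θ : ℝ =>
          ‖inner ℂ e a + inner ℂ e b * Complex.exp (θ * Complex.I)‖ := by fun_prop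
      exact Real.measurable_log.comp (this.measurable.max measurable_const)
    · intro θ
      exact ProdPsh_logb hδ ((hle θ).trans (hM θ))
    · have : Continuous fun θ : ℝ => ‖a + Complex.exp (θ * Complex.I) • b‖ := by fun_prop
      exact Real.measurable_log.comp (this.measurable.max measurable_const)
    · intro θ
      exact ProdPsh_logb hδ (hM θ)
    · intro θ
      exact Real.log_le_log (lt_of_lt_of_le hδ (le_max_right _ _)) (max_le_max_right δ (hle θ))

end ProdPshAux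

section ProdPshMain

open Filter

variable {n : ℕ}

/-- partial products -/
noncomputable def ProdPshD (F : ℕ → Cn (n + 1) → ℝ) (k : ℕ) (x : Cn (n + 1)) : ℝ :=
  ‖x‖ * ∏ j ∈ Finset.range k, (F j x / ‖x‖) ^ ((1 / 2 : ℝ) ^ (j + 1))

theorem ProdPsh_D_form (F : ℕ → Cn (n + 1) → ℝ) (h0 : ∀ j x, 0 ≤ F j x) (k : ℕ)
    (x : Cn (n + 1)) : ProdPshD F k x = ‖x‖ ^ ((1 / 2 : ℝ) ^ k) *
      (∏ j ∈ Finset.range k, F j x ^ ((1 / 2 : ℝ) ^ (j + 1))) ^ (1 : ℝ) := by
  rw [Real.rpow_one]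
  by_cases hx : ‖x‖ = 0
  · unfold ProdPshD
    rw [hx, zero_mul, Real.zero_rpow (by positivity), zero_mul]
  · have hx0 : 0 < ‖x‖ := lt_of_le_of_ne (norm_nonneg x) (Ne.symm hx)
    induction k with
    | zero => simp [ProdPshD]
    | succ k ih =>
      have h1 : ProdPshD F (k + 1) x =
          ProdPshD F k x * (F k x / ‖x‖) ^ ((1 / 2 : ℝ) ^ (k + 1)) := by
        unfold ProdPshD
        rw [Finset.prod_range_succ, mul_assoc]
      have h2 : ‖x‖ ^ ((1 / 2 : ℝ) ^ k) =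
          ‖x‖ ^ ((1 / 2 : ℝ) ^ (k + 1)) * ‖x‖ ^ ((1 / 2 : ℝ) ^ (k + 1)) := by
        rw [← Real.rpow_add hx0]
        congr 1
        rw [pow_succ]
        ring
      have h3 : 0 < ‖x‖ ^ ((1 / 2 : ℝ) ^ (k + 1)) := Real.rpow_pos_of_pos hx0 _
      rw [h1, ih, h2, Finset.prod_range_succ, Real.div_rpow (h0 k x) (norm_nonneg x)]
      field_simp

theorem ProdPsh_D_psh (F : ℕ → Cn (n + 1) → ℝ) (hF : ∀ j, LogPsh (F j)) (k : ℕ) :
    LogPsh (ProdPshD F k) := by
  have h1 : LogPsh (fun x => ∏ j ∈ Finset.range k, F j x ^ ((1 / 2 : ℝ) ^ (j + 1))) := by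
    induction k with
    | zero =>
      simp only [Finset.range_zero, Finset.prod_empty]
      exact ProdPsh_one
    | succ k ih =>
      have h2 := ProdPsh_mul ih (hF k) one_pos (c' := (1 / 2 : ℝ) ^ (k + 1)) (by positivity)
      simp only [Real.rpow_one] at h2
      simp only [Finset.prod_range_succ]
      exact h2
  have h2 := ProdPsh_mul (ProdPsh_norm (n + 1)) h1 (c := (1 / 2 : ℝ) ^ k) (by positivity) one_pos
  have h3 : ProdPshD F k = fun x => ‖x‖ ^ ((1 / 2 : ℝ) ^ k) *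
      (∏ j ∈ Finset.range k, F j x ^ ((1 / 2 : ℝ) ^ (j + 1))) ^ (1 : ℝ) :=
    funext fun x => ProdPsh_D_form F (fun j => (hF j).nonneg) k x
  rw [h3]
  exact h2

theorem ProdPsh_ratio {F : ℕ → Cn (n + 1) → ℝ} (hF : ∀ j, OmegaPsh n (F j))
    (hN : ∀ j, Nrm 1 (F j)) (j : ℕ) (x : Cn (n + 1)) :
    0 ≤ (F j x / ‖x‖) ^ ((1 / 2 : ℝ) ^ (j + 1)) ∧
      (F j x / ‖x‖) ^ ((1 / 2 : ℝ) ^ (j + 1)) ≤ 1 := by
  have h1 : 0 ≤ F j x / ‖x‖ := div_nonneg ((hF j).psh.nonneg x) (norm_nonneg x)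
  have h2 : F j x / ‖x‖ ≤ 1 := by
    apply div_le_one_of_le₀ _ (norm_nonneg x)
    have := (hN j).le x
    rwa [one_mul] at this
  exact ⟨Real.rpow_nonneg h1 _, Real.rpow_le_one h1 h2 (by positivity)⟩

theorem ProdPsh_D_succ (F : ℕ → Cn (n + 1) → ℝ) (k : ℕ) (x : Cn (n + 1)) :
    ProdPshD F (k + 1) x = ProdPshD F k x * (F k x / ‖x‖) ^ ((1 / 2 : ℝ) ^ (k + 1)) := by
  unfold ProdPshD
  rw [Finset.prod_range_succ, mul_assoc]

theorem ProdPsh_D_anti {F : ℕ → Cn (n + 1) → ℝ} (hF : ∀ j, OmegaPsh n (F j))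
    (hN : ∀ j, Nrm 1 (F j)) (x : Cn (n + 1)) : Antitone (fun k => ProdPshD F k x) := by
  apply antitone_nat_of_succ_le
  intro k
  rw [ProdPsh_D_succ]
  exact mul_le_of_le_one_right ((ProdPsh_D_psh F (fun j => (hF j).psh) k).nonneg x)
    (ProdPsh_ratio hF hN k x).2

theorem ProdPsh_D_hom {F : ℕ → Cn (n + 1) → ℝ} (hF : ∀ j, OmegaPsh n (F j)) (k : ℕ) (c : ℂ)
    (x : Cn (n + 1)) : ProdPshD F k (c • x) = ‖c‖ * ProdPshD F k x := by
  unfold ProdPshD
  by_cases hc : c = 0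
  · rw [hc]
    simp
  · have h1 : ‖c‖ ≠ 0 := norm_ne_zero_iff.2 hc
    rw [norm_smul, mul_assoc]
    congr 2
    refine Finset.prod_congr rfl fun j _ => ?_
    rw [(hF j).hom, mul_div_mul_left _ _ h1]

theorem ProdPsh_nontrivial {F : ℕ → Cn (n + 1) → ℝ} (hF : ∀ j, OmegaPsh n (F j))
    (hN : ∀ j, Nrm 1 (F j)) : ∃ x, (⨅ k, ProdPshD F k x) ≠ 0 := by
  obtain ⟨C, hC0, hC⟩ := omega_L1 n (A := 1) le_rfl
  have hint : ∀ j, Integrable (fun x => (1 / 2 : ℝ) ^ (j + 1) * |Real.log (F j x)|)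
      (volume.restrict (ball (0 : Cn (n + 1)) 1)) := fun j =>
    (omega_intOn (hF j) 0 1).abs.const_mul _
  have hj : ∀ j, ∫⁻ x in ball (0 : Cn (n + 1)) 1,
      ENNReal.ofReal ((1 / 2 : ℝ) ^ (j + 1) * |Real.log (F j x)|) ≤
        ENNReal.ofReal ((1 / 2 : ℝ) ^ (j + 1) * C) := by
    intro j
    rw [← ofReal_integral_eq_lintegral_ofReal (hint j)
      (Eventually.of_forall fun x => by positivity), integral_const_mul]
    exact ENNReal.ofReal_le_ofReal
      (mul_le_mul_of_nonneg_left (hC (F j) (hF j) (hN j)) (by positivity))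
  have hmeas : ∀ j, AEMeasurable
      (fun x => ENNReal.ofReal ((1 / 2 : ℝ) ^ (j + 1) * |Real.log (F j x)|))
      (volume.restrict (ball (0 : Cn (n + 1)) 1)) := fun j =>
    (hint j).aestronglyMeasurable.aemeasurable.ennreal_ofReal
  have hsum : ∫⁻ x in ball (0 : Cn (n + 1)) 1,
      ∑' j, ENNReal.ofReal ((1 / 2 : ℝ) ^ (j + 1) * |Real.log (F j x)|) ≠ ⊤ := by
    rw [lintegral_tsum hmeas]
    refine ne_top_of_le_ne_top ?_ (ENNReal.tsum_le_tsum hj)
    apply Summable.tsum_ofReal_ne_top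
    exact ((summable_geometric_of_lt_one (by norm_num) (by norm_num : (1 / 2 : ℝ) < 1)).comp_injective
      (add_left_injective 1)).mul_right C
  have hae1 : ∀ᵐ x ∂(volume.restrict (ball (0 : Cn (n + 1)) 1)),
      ∑' j, ENNReal.ofReal ((1 / 2 : ℝ) ^ (j + 1) * |Real.log (F j x)|) < ⊤ :=
    ae_lt_top' (AEMeasurable.tsum hmeas) hsum
  have hae2 : ∀ᵐ x ∂(volume.restrict (ball (0 : Cn (n + 1)) 1)), ∀ j, F j x ≠ 0 := by
    rw [ae_all_iff]
    intro j
    apply ae_restrict_of_ae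
    exact measure_eq_zero_iff_ae_notMem.1 (omega_null (hF j))
  have hae3 : ∀ᵐ x ∂(volume.restrict (ball (0 : Cn (n + 1)) 1)), x ∈ ball (0 : Cn (n + 1)) 1 :=
    ae_restrict_mem measurableSet_ball
  have hne : NeBot (ae (volume.restrict (ball (0 : Cn (n + 1)) 1))) := by
    rw [ae_neBot]
    intro h
    rw [Measure.restrict_eq_zero] at h
    exact (measure_ball_pos volume (0 : Cn (n + 1)) one_pos).ne' h
  obtain ⟨x, hx1, hx2, hx3⟩ := (hae1.and (hae2.and hae3)).exists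
  refine ⟨x, ?_⟩
  have hpos : ∀ j, 0 < F j x := fun j =>
    lt_of_le_of_ne ((hF j).psh.nonneg x) (Ne.symm (hx2 j))
  have hxn : 0 < ‖x‖ := by
    have h1 := (hN 0).le x
    have h2 := hpos 0
    linarith
  have hxn1 : ‖x‖ ≤ 1 := by
    rw [mem_ball_zero_iff] at hx3
    exact hx3.le
  set S : ℝ := (∑' j, ENNReal.ofReal ((1 / 2 : ℝ) ^ (j + 1) * |Real.log (F j x)|)).toReal with hS
  have hpart : ∀ k, ∑ j ∈ Finset.range k, (1 / 2 : ℝ) ^ (j + 1) * |Real.log (F j x)| ≤ S := by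
    intro k
    rw [hS, ← ENNReal.ofReal_le_iff_le_toReal hx1.ne,
      ENNReal.ofReal_sum_of_nonneg fun j _ => by positivity]
    exact ENNReal.sum_le_tsum _
  have hlow : ∀ k, ‖x‖ * Real.exp (-S) ≤ ProdPshD F k x := by
    intro k
    rw [ProdPsh_D_form F (fun j => (hF j).psh.nonneg), Real.rpow_one]
    refine mul_le_mul ?_ ?_ (Real.exp_pos _).le (by positivity)
    · have h1 := Real.rpow_le_rpow_of_exponent_ge hxn hxn1
        (pow_le_one₀ (n := k) (by norm_num) (by norm_num : (1 / 2 : ℝ) ≤ 1))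
      rwa [Real.rpow_one] at h1
    · calc Real.exp (-S) ≤ Real.exp (∑ j ∈ Finset.range k,
            -((1 / 2 : ℝ) ^ (j + 1) * |Real.log (F j x)|)) := by
            apply Real.exp_le_exp.2
            rw [Finset.sum_neg_distrib]
            exact neg_le_neg (hpart k)
        _ = ∏ j ∈ Finset.range k, Real.exp (-((1 / 2 : ℝ) ^ (j + 1) * |Real.log (F j x)|)) :=
            Real.exp_sum _ _
        _ ≤ _ := by
            refine Finset.prod_le_prod (fun j _ => (Real.exp_pos _).le) fun j _ => ?_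
            rw [Real.rpow_def_of_pos (hpos j)]
            apply Real.exp_le_exp.2
            have h1 := neg_abs_le (Real.log (F j x))
            have h2 : (0 : ℝ) ≤ (1 / 2) ^ (j + 1) := by positivity
            nlinarith
  have h1 : ‖x‖ * Real.exp (-S) ≤ ⨅ k, ProdPshD F k x := le_ciInf hlow
  have h2 : 0 < ‖x‖ * Real.exp (-S) := by positivity
  exact (lt_of_lt_of_le h2 h1).ne'

end ProdPshMain

/-- `G = ‖x‖ * ∏ (F_j / ‖x‖) ^ (2^(-j-1))` -/
theorem omega_prod {n : ℕ} (F : ℕ → Cn (n + 1) → ℝ) (hF : ∀ j, OmegaPsh n (F j))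
    (hN : ∀ j, Nrm 1 (F j)) : ∃ G : Cn (n + 1) → ℝ, OmegaPsh n G ∧
      ∀ j x, x ≠ 0 → G x / ‖x‖ ≤ (F j x / ‖x‖) ^ ((1 / 2 : ℝ) ^ (j + 1)) := by
  refine ⟨fun x => ⨅ k, ProdPshD F k x, ⟨?_, ?_, ProdPsh_nontrivial hF hN⟩, ?_⟩
  · exact ProdPsh_inf (fun k => ProdPsh_D_psh F (fun j => (hF j).psh) k) (ProdPsh_D_anti hF hN)
  · intro c x
    show (⨅ k, ProdPshD F k (c • x)) = ‖c‖ * ⨅ k, ProdPshD F k x
    rw [Real.mul_iInf_of_nonneg (norm_nonneg c)]
    exact iInf_congr fun k => ProdPsh_D_hom hF k c x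
  · intro j x hx
    have hx0 : 0 < ‖x‖ := norm_pos_iff.2 hx
    rw [div_le_iff₀ hx0]
    have hb : BddBelow (range fun k => ProdPshD F k x) := ⟨0, by
      rintro _ ⟨k, rfl⟩
      exact (ProdPsh_D_psh F (fun j => (hF j).psh) k).nonneg x⟩
    refine (ciInf_le hb (j + 1)).trans ?_
    rw [ProdPsh_D_succ, mul_comm]
    refine mul_le_mul_of_nonneg_left ?_ (ProdPsh_ratio hF hN j x).1
    unfold ProdPshD
    exact mul_le_of_le_one_right (norm_nonneg x)
      (Finset.prod_le_one (fun i _ => (ProdPsh_ratio hF hN i x).1)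
        fun i _ => (ProdPsh_ratio hF hN i x).2)

end HMA

end S_MA_ProdPsh

section S_MA_Geo

/-! # Module GEO: geometry of the induction step -/

open MeasureTheory Metric Set
open scoped ENNReal Topology ContDiff

namespace HMA

theorem Geo_normalize {E : Type} [NormedAddCommGroup E] [NormedSpace ℂ E] (a b : E)
    (ha : a ≠ 0) (hb : b ≠ 0) :
    ‖((‖a‖⁻¹ : ℝ) : ℂ) • a - ((‖b‖⁻¹ : ℝ) : ℂ) • b‖ ≤ 2 * ‖a - b‖ / ‖a‖ := by
  have hna : 0 < ‖a‖ := norm_pos_iff.mpr ha
  have hnb : 0 < ‖b‖ := norm_pos_iff.mpr hb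
  have h1 : ((‖a‖⁻¹ : ℝ) : ℂ) • a - ((‖b‖⁻¹ : ℝ) : ℂ) • b =
      ((‖a‖⁻¹ : ℝ) : ℂ) • (a - b) + ((‖a‖⁻¹ - ‖b‖⁻¹ : ℝ) : ℂ) • b := by
    rw [smul_sub, Complex.ofReal_sub, sub_smul]
    abel
  rw [h1]
  refine (norm_add_le _ _).trans ?_
  rw [norm_smul, norm_smul, Complex.norm_real, Complex.norm_real, Real.norm_eq_abs,
    Real.norm_eq_abs, abs_of_pos (inv_pos.mpr hna)]
  have h2 : |‖a‖⁻¹ - ‖b‖⁻¹| * ‖b‖ = |‖b‖ - ‖a‖| / ‖a‖ := by
    have h3 : ‖a‖⁻¹ - ‖b‖⁻¹ = (‖b‖ - ‖a‖) / (‖a‖ * ‖b‖) := by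
      field_simp
    rw [h3, abs_div, abs_of_pos (mul_pos hna hnb)]
    field_simp
  rw [h2]
  have h3 : |‖b‖ - ‖a‖| ≤ ‖a - b‖ := by
    rw [abs_sub_comm]
    exact abs_norm_sub_norm_le a b
  have h4 : |‖b‖ - ‖a‖| / ‖a‖ ≤ ‖a - b‖ / ‖a‖ := div_le_div_of_nonneg_right h3 hna.le
  calc ‖a‖⁻¹ * ‖a - b‖ + |‖b‖ - ‖a‖| / ‖a‖ ≤ ‖a‖⁻¹ * ‖a - b‖ + ‖a - b‖ / ‖a‖ := by linarith
    _ = 2 * ‖a - b‖ / ‖a‖ := by ring

/-- decomposition along `p` -/
theorem Geo_decomp {V : Type} [NormedAddCommGroup V] [InnerProductSpace ℂ V]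
    [FiniteDimensional ℂ V] {p : V} (hp : ‖p‖ = 1) (y : V) :
    (((ℂ ∙ p)ᗮ.orthogonalProjectionOnto y : ↥(ℂ ∙ p)ᗮ) : V) = y - (inner ℂ p y : ℂ) • p := by
  have hmem : y - (inner ℂ p y : ℂ) • p ∈ (ℂ ∙ p)ᗮ := by
    rw [Submodule.mem_orthogonal_singleton_iff_inner_right, inner_sub_right, inner_smul_right,
      inner_self_eq_norm_sq_to_K, hp]
    simp
  have h1 : y = ((⟨_, hmem⟩ : ↥(ℂ ∙ p)ᗮ) : V) + (inner ℂ p y : ℂ) • p := by simp
  conv_lhs => rw [h1]
  rw [map_add, map_smul, Submodule.orthogonalProjectionOnto_mem_subspace_eq_self,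
    Submodule.orthogonalProjectionOnto_orthogonalComplement_singleton_eq_zero, smul_zero, add_zero]

/-- A point near the zero set of `P` whose projection is not near the zero set of `D` is, after
scaling, near a zero of `P` over the slice `e + u`, `u ⊥ e`, for some `e` of the net. -/
theorem geo {V : Type} [NormedAddCommGroup V] [InnerProductSpace ℂ V] [FiniteDimensional ℂ V]
    {d : ℕ} (hd : 1 ≤ d) {P : V → ℂ} (hP : HP V d P) (hbd : ∀ x, ‖P x‖ ≤ 2 * ‖x‖ ^ d)
    {p : V} (hp : ‖p‖ = 1) (hPp : 1 / 2 ≤ ‖P p‖) {e' : ℕ} {D : ↥(ℂ ∙ p)ᗮ → ℂ}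
    (hD : HP ↥(ℂ ∙ p)ᗮ e' D) {ρ ρ₁ r : ℝ} (hρ : 0 < ρ) (hρ1 : 0 < ρ₁) (hρ₁ : ρ₁ ≤ 1 / 16)
    (hr : 0 < r) (hr1 : 16 * (1 + 16 * d) * r ≤ ρ₁)
    (T : Set ↥(ℂ ∙ p)ᗮ)
    (hT : ∀ e : ↥(ℂ ∙ p)ᗮ, ‖e‖ = 1 → e ∉ nearZ D ρ → ∃ e₁ ∈ T, ‖e - e₁‖ ≤ ρ₁)
    (hT1 : ∀ e ∈ T, ‖e‖ = 1)
    {x : V} (hx : x ∈ nearZ P r)
    (hx' : (ℂ ∙ p)ᗮ.orthogonalProjectionOnto x ∉ nearZ D ρ) :
    ∃ e ∈ T, ∃ c : ℂ, c ≠ 0 ∧ ∃ u : ↥(ℂ ∙ p)ᗮ, inner ℂ e u = 0 ∧ ‖u‖ ≤ 4 * ρ₁ ∧
      ∃ v : ℂ, P (((e + u : ↥(ℂ ∙ p)ᗮ) : V) + v • p) = 0 ∧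
        ‖c • x - ((e + u : ↥(ℂ ∙ p)ᗮ) : V) - v • p‖ ≤ 8 * (1 + 16 * d) * r := by
  obtain ⟨hx0, y, hy0, hyx⟩ := hx
  set z : ↥(ℂ ∙ p)ᗮ := (ℂ ∙ p)ᗮ.orthogonalProjectionOnto x with hz
  set zy : ↥(ℂ ∙ p)ᗮ := (ℂ ∙ p)ᗮ.orthogonalProjectionOnto y with hzy
  set w : ℂ := inner ℂ p y with hw
  have hdR : (1 : ℝ) ≤ d := by exact_mod_cast hd
  have hr' : 16 * 17 * r ≤ ρ₁ := by
    have : 16 * 17 * r ≤ 16 * (1 + 16 * d) * r := by
      apply mul_le_mul_of_nonneg_right _ hr.le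
      linarith
    linarith
  have hyd : y = (zy : V) + w • p := by
    rw [hzy, Geo_decomp hp y]
    simp [hw]
  have hpz : inner ℂ p (zy : V) = 0 :=
    Submodule.mem_orthogonal_singleton_iff_inner_right.mp zy.2
  have hPy : P ((zy : V) + w • p) = 0 := by rw [← hyd]; exact hy0
  have hwb : ‖w‖ ≤ 16 * d * ‖(zy : V)‖ := root_bound hd hP hbd hp hPp hpz hPy
  have hyn : ‖y‖ ≤ (1 + 16 * d) * ‖zy‖ := by
    calc ‖y‖ = ‖(zy : V) + w • p‖ := by rw [← hyd]
      _ ≤ ‖(zy : V)‖ + ‖w • p‖ := norm_add_le _ _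
      _ = ‖(zy : V)‖ + ‖w‖ := by rw [norm_smul, hp, mul_one]
      _ ≤ ‖(zy : V)‖ + 16 * d * ‖(zy : V)‖ := by linarith
      _ = (1 + 16 * d) * ‖zy‖ := by rw [Submodule.coe_norm]; ring
  have hxn : 0 < ‖x‖ := norm_pos_iff.mpr hx0
  have hxy : ‖x‖ ≤ 2 * ‖y‖ := by
    have h1 : ‖x‖ ≤ ‖y‖ + ‖y - x‖ := by
      calc ‖x‖ = ‖y - (y - x)‖ := by rw [sub_sub_cancel]
        _ ≤ ‖y‖ + ‖y - x‖ := norm_sub_le _ _
    have h2 : r * ‖x‖ ≤ 1 / 2 * ‖x‖ := mul_le_mul_of_nonneg_right (by linarith) hxn.le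
    linarith
  have hzyn : 0 < ‖zy‖ := by
    by_contra h
    have h1 : ‖zy‖ = 0 := le_antisymm (not_lt.mp h) (norm_nonneg _)
    rw [h1, mul_zero] at hyn
    linarith
  have hrx : r * ‖x‖ ≤ 2 * (1 + 16 * d) * r * ‖zy‖ := by
    have h1 : ‖x‖ ≤ 2 * ((1 + 16 * d) * ‖zy‖) := by linarith
    calc r * ‖x‖ ≤ r * (2 * ((1 + 16 * d) * ‖zy‖)) := mul_le_mul_of_nonneg_left h1 hr.le
      _ = _ := by ring
  have hzz : ‖zy - z‖ ≤ r * ‖x‖ := by
    rw [hzy, hz, ← map_sub]
    exact (Submodule.norm_orthogonalProjectionOnto_apply_le _ _).trans hyx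
  have hzz' : ‖zy - z‖ ≤ ρ₁ / 8 * ‖zy‖ := by
    have h1 : 2 * (1 + 16 * d) * r ≤ ρ₁ / 8 := by linarith
    exact hzz.trans (hrx.trans (mul_le_mul_of_nonneg_right h1 hzyn.le))
  have hz0 : z ≠ 0 := by
    intro h
    rw [h, sub_zero] at hzz'
    nlinarith
  have hzn : 0 < ‖z‖ := norm_pos_iff.mpr hz0
  have hzy0 : zy ≠ 0 := norm_pos_iff.mp hzyn
  -- the unit vector `e₀`
  set e₀ : ↥(ℂ ∙ p)ᗮ := ((‖z‖⁻¹ : ℝ) : ℂ) • z with he₀
  have he₀n : ‖e₀‖ = 1 := by
    rw [he₀, norm_smul, Complex.norm_real, Real.norm_eq_abs, abs_of_pos (inv_pos.mpr hzn)]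
    exact inv_mul_cancel₀ hzn.ne'
  have he₀D : e₀ ∉ nearZ D ρ := by
    rintro ⟨-, y', hy', hy'2⟩
    refine hx' ⟨hz0, ((‖z‖ : ℝ) : ℂ) • y', ?_, ?_⟩
    · rw [hD.hom, hy', mul_zero]
    · have h1 : ((‖z‖ : ℝ) : ℂ) • y' - z = ((‖z‖ : ℝ) : ℂ) • (y' - e₀) := by
        rw [smul_sub, he₀, smul_smul, ← Complex.ofReal_mul, mul_inv_cancel₀ hzn.ne',
          Complex.ofReal_one, one_smul]
      rw [h1, norm_smul, Complex.norm_real, Real.norm_eq_abs, abs_of_pos hzn]
      rw [he₀n, mul_one] at hy'2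
      calc ‖z‖ * ‖y' - e₀‖ ≤ ‖z‖ * ρ := mul_le_mul_of_nonneg_left hy'2 hzn.le
        _ = ρ * ‖z‖ := mul_comm _ _
  obtain ⟨e₁, he₁T, he₁⟩ := hT e₀ he₀n he₀D
  have he₁n := hT1 e₁ he₁T
  set η : ↥(ℂ ∙ p)ᗮ := ((‖zy‖⁻¹ : ℝ) : ℂ) • zy with hη
  have hηn : ‖η‖ = 1 := by
    rw [hη, norm_smul, Complex.norm_real, Real.norm_eq_abs, abs_of_pos (inv_pos.mpr hzyn)]
    exact inv_mul_cancel₀ hzyn.ne'
  have hηe₀ : ‖η - e₀‖ ≤ ρ₁ / 4 := by
    have h1 := Geo_normalize zy z hzy0 hz0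
    have h2 : 2 * ‖zy - z‖ / ‖zy‖ ≤ ρ₁ / 4 := by
      rw [div_le_iff₀ hzyn]
      linarith
    exact h1.trans h2
  have hηe₁ : ‖η - e₁‖ ≤ 5 / 4 * ρ₁ := by
    calc ‖η - e₁‖ = ‖(η - e₀) + (e₀ - e₁)‖ := by congr 1; abel
      _ ≤ ‖η - e₀‖ + ‖e₀ - e₁‖ := norm_add_le _ _
      _ ≤ 5 / 4 * ρ₁ := by linarith
  set q : ℂ := inner ℂ e₁ η with hq
  have hq1 : ‖q - 1‖ ≤ 5 / 4 * ρ₁ := by
    have h1 : q - 1 = inner ℂ e₁ (η - e₁) := by
      rw [inner_sub_right, inner_self_eq_norm_sq_to_K, he₁n, hq]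
      simp
    rw [h1]
    calc ‖inner ℂ e₁ (η - e₁)‖ ≤ ‖e₁‖ * ‖η - e₁‖ := norm_inner_le_norm _ _
      _ ≤ 5 / 4 * ρ₁ := by rw [he₁n, one_mul]; exact hηe₁
  have hqn : 59 / 64 ≤ ‖q‖ := by
    have h1 : (1 : ℝ) ≤ ‖q‖ + ‖q - 1‖ := by
      calc (1 : ℝ) = ‖(1 : ℂ)‖ := norm_one.symm
        _ = ‖q - (q - 1)‖ := by congr 1; ring
        _ ≤ ‖q‖ + ‖q - 1‖ := norm_sub_le _ _
    linarith
  have hqpos : 0 < ‖q‖ := by linarith
  have hq0 : q ≠ 0 := norm_pos_iff.mp hqpos
  have hc'n : ‖q⁻¹‖ ≤ 64 / 59 := by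
    rw [norm_inv, inv_le_comm₀ hqpos (by norm_num)]
    linarith
  have hc'1 : ‖q⁻¹ - 1‖ ≤ 64 / 59 * (5 / 4 * ρ₁) := by
    have h1 : q⁻¹ - 1 = q⁻¹ * (1 - q) := by
      field_simp
    rw [h1, norm_mul, norm_sub_rev 1 q]
    exact mul_le_mul hc'n hq1 (norm_nonneg _) (by norm_num)
  -- the final data
  refine ⟨e₁, he₁T, q⁻¹ * ((‖zy‖⁻¹ : ℝ) : ℂ), ?_, q⁻¹ • η - e₁, ?_, ?_,
    q⁻¹ * ((‖zy‖⁻¹ : ℝ) : ℂ) * w, ?_, ?_⟩
  · refine mul_ne_zero (inv_ne_zero hq0) ?_
    rw [Ne, Complex.ofReal_eq_zero]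
    exact inv_ne_zero hzyn.ne'
  · rw [inner_sub_right, inner_smul_right, inner_self_eq_norm_sq_to_K, he₁n, ← hq,
      inv_mul_cancel₀ hq0]
    simp
  · have h1 : q⁻¹ • η - e₁ = (q⁻¹ - 1) • η + (η - e₁) := by
      rw [sub_smul, one_smul]
      abel
    rw [h1]
    refine (norm_add_le _ _).trans ?_
    rw [norm_smul, hηn, mul_one]
    linarith
  · have h1 : ((e₁ + (q⁻¹ • η - e₁) : ↥(ℂ ∙ p)ᗮ) : V) +
        (q⁻¹ * ((‖zy‖⁻¹ : ℝ) : ℂ) * w) • p = (q⁻¹ * ((‖zy‖⁻¹ : ℝ) : ℂ)) • y := by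
      rw [add_sub_cancel, hη, smul_smul]
      conv_rhs => rw [hyd]
      rw [smul_add, smul_smul]
      rfl
    rw [h1, hP.hom, hy0, mul_zero]
  · have h1 : ((e₁ + (q⁻¹ • η - e₁) : ↥(ℂ ∙ p)ᗮ) : V) +
        (q⁻¹ * ((‖zy‖⁻¹ : ℝ) : ℂ) * w) • p = (q⁻¹ * ((‖zy‖⁻¹ : ℝ) : ℂ)) • y := by
      rw [add_sub_cancel, hη, smul_smul]
      conv_rhs => rw [hyd]
      rw [smul_add, smul_smul]
      rfl
    rw [sub_sub, h1, ← smul_sub, norm_smul, norm_mul, Complex.norm_real, Real.norm_eq_abs,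
      abs_of_pos (inv_pos.mpr hzyn)]
    have h2 : ‖x - y‖ ≤ 2 * (1 + 16 * d) * r * ‖zy‖ := by
      rw [norm_sub_rev]
      exact hyx.trans hrx
    calc ‖q⁻¹‖ * ‖zy‖⁻¹ * ‖x - y‖ ≤ 64 / 59 * ‖zy‖⁻¹ * (2 * (1 + 16 * d) * r * ‖zy‖) := by
          apply mul_le_mul _ h2 (norm_nonneg _) (by positivity)
          exact mul_le_mul_of_nonneg_right hc'n (inv_nonneg.mpr hzyn.le)
      _ = 64 / 59 * 2 * ((1 + 16 * d) * r) := by
          field_simp
      _ ≤ 8 * (1 + 16 * d) * r := by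
          have h3 : 0 ≤ (1 + 16 * d) * r := by positivity
          nlinarith

end HMA

end S_MA_Geo

section S_MA_StepB

/-! # Module STEPB: the measure estimate at one scale -/

open MeasureTheory Metric Set
open scoped ENNReal Topology ContDiff

namespace HMA

theorem StepB_pol_eval {d : ℕ} (c : ℕ → ℂ) (w : ℂ) :
    (pol d c).eval w = ∑ k ∈ Finset.range (d + 1), c k * w ^ k := by
  unfold pol
  rw [Polynomial.eval_finsetSum]
  refine Finset.sum_congr rfl (fun k _ => ?_)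
  rw [Polynomial.eval_mul, Polynomial.eval_C, Polynomial.eval_pow, Polynomial.eval_X]

/-- the root functions as a finite set -/
theorem StepB_roots {W : Type} [NormedAddCommGroup W] [NormedSpace ℂ W]
    [FiniteDimensional ℂ W] {d : ℕ} (f : ℕ → W → ℂ) (hf : ∀ k ≤ d, f k ∈ PF W)
    {a : ℂ} (ha : a ≠ 0) (hfd : ∀ z, f d z = a) (z₀ : W) {ρ : ℝ} (hρ : 0 < ρ)
    (hs : ∀ z ∈ ball z₀ ρ, ∀ w : ℂ, (pol d (fun k => f k z)).eval w = 0 →
      (Polynomial.derivative (pol d (fun k => f k z))).eval w ≠ 0) :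
    ∃ Hs : Finset (W → ℂ), Hs.card ≤ d ∧
      (∀ h ∈ Hs, ∀ z ∈ ball z₀ ρ, AnalyticAt ℂ h z) ∧
      (∀ h ∈ Hs, ∀ z ∈ ball z₀ ρ, (pol d (fun k => f k z)).eval (h z) = 0) ∧
      ∀ z ∈ ball z₀ ρ, ∀ w : ℂ, (pol d (fun k => f k z)).eval w = 0 → ∃ h ∈ Hs, h z = w := by
  classical
  obtain ⟨ι, hι, h, hc, h1, h2, h3⟩ := roots_on_ball f hf ha hfd z₀ hρ hs
  refine ⟨Finset.univ.image h, ?_, ?_, ?_, ?_⟩
  · exact Finset.card_image_le.trans (by rw [Finset.card_univ]; exact hc)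
  · intro g hg
    obtain ⟨i, -, rfl⟩ := Finset.mem_image.mp hg
    exact h1 i
  · intro g hg
    obtain ⟨i, -, rfl⟩ := Finset.mem_image.mp hg
    exact h2 i
  · intro z hz w hw
    obtain ⟨i, hi⟩ := h3 z hz w hw
    exact ⟨h i, Finset.mem_image_of_mem h (Finset.mem_univ i), hi⟩

/-- the numerical estimate -/
theorem StepB_num {m d t : ℕ} {B C Λ ρ : ℝ} (hB : 1 ≤ B) (hC : 0 < C)
    (hΛ : 4 * (m + 1) + 1 ≤ Λ) (hd : 1 ≤ d) (hρ : 0 < ρ) (hρ4 : ρ ≤ 1 / 4)
    (ht : (t : ℝ) ≤ (B / (ρ ^ 2 / 4)) ^ (2 * (m + 1))) :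
    (t : ℝ) * (d * (C * (32 * (d : ℝ)) ^ C * ρ ^ Λ)) ≤
      max (1 + C) ((4 * B) ^ (2 * (m + 1)) * (C * (32 : ℝ) ^ C)) *
        (d : ℝ) ^ (max (1 + C) ((4 * B) ^ (2 * (m + 1)) * (C * (32 : ℝ) ^ C))) * ρ := by
  have hd0 : (0 : ℝ) < d := by exact_mod_cast hd
  have hd1 : (1 : ℝ) ≤ d := by exact_mod_cast hd
  set K : ℝ := max (1 + C) ((4 * B) ^ (2 * (m + 1)) * (C * (32 : ℝ) ^ C)) with hK
  have hρΛ : ρ ^ Λ ≤ ρ ^ (4 * (m + 1)) * ρ := by
    have h1 : ρ ^ Λ ≤ ρ ^ ((4 * (m + 1) + 1 : ℕ) : ℝ) := by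
      apply Real.rpow_le_rpow_of_exponent_ge hρ (by linarith)
      push_cast
      linarith
    rw [Real.rpow_natCast, pow_succ] at h1
    exact h1
  have hpow : (B / (ρ ^ 2 / 4)) ^ (2 * (m + 1)) * (ρ ^ (4 * (m + 1))) =
      (4 * B) ^ (2 * (m + 1)) := by
    have h1 : ρ ^ (4 * (m + 1)) = (ρ ^ 2) ^ (2 * (m + 1)) := by
      rw [← pow_mul]
      congr 1
      ring
    rw [h1, ← mul_pow]
    congr 1
    field_simp
  have h32 : (32 * (d : ℝ)) ^ C = (32 : ℝ) ^ C * (d : ℝ) ^ C :=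
    Real.mul_rpow (by norm_num) hd0.le
  have hdC : (d : ℝ) * (d : ℝ) ^ C ≤ (d : ℝ) ^ K := by
    have h1 : (d : ℝ) * (d : ℝ) ^ C = (d : ℝ) ^ (1 + C) := by
      rw [Real.rpow_add hd0, Real.rpow_one]
    rw [h1]
    exact Real.rpow_le_rpow_of_exponent_le hd1 (le_max_left _ _)
  have hpos1 : (0 : ℝ) ≤ C * (32 : ℝ) ^ C := by positivity
  calc (t : ℝ) * (d * (C * (32 * (d : ℝ)) ^ C * ρ ^ Λ))
      ≤ (B / (ρ ^ 2 / 4)) ^ (2 * (m + 1)) *
        (d * (C * (32 * (d : ℝ)) ^ C * (ρ ^ (4 * (m + 1)) * ρ))) := by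
        apply mul_le_mul ht _ (by positivity) (by positivity)
        apply mul_le_mul_of_nonneg_left _ hd0.le
        exact mul_le_mul_of_nonneg_left hρΛ (by positivity)
    _ = ((B / (ρ ^ 2 / 4)) ^ (2 * (m + 1)) * (ρ ^ (4 * (m + 1)))) * (C * (32 : ℝ) ^ C) *
        ((d : ℝ) * (d : ℝ) ^ C) * ρ := by
        rw [h32]
        ring
    _ = ((4 * B) ^ (2 * (m + 1)) * (C * (32 : ℝ) ^ C)) * ((d : ℝ) * (d : ℝ) ^ C) * ρ := by
        rw [hpow]
    _ ≤ K * (d : ℝ) ^ K * ρ := by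
        apply mul_le_mul_of_nonneg_right _ hρ.le
        apply mul_le_mul (le_max_right _ _) hdC (by positivity)
        exact le_trans (by positivity) (le_max_left _ _)

theorem step_measure (m N : ℕ) {C Λ : ℝ} (hC : 0 < C) (hN : 3 ≤ N) (hΛ : 4 * (m + 1) + 1 ≤ Λ) :
    ∃ C₂ : ℝ, 0 < C₂ ∧
    ∀ (V : Type) [NormedAddCommGroup V] [InnerProductSpace ℂ V] [MeasurableSpace V]
      (μ : Measure V) (W : Type) [NormedAddCommGroup W] [InnerProductSpace ℂ W]
      [FiniteDimensional ℂ W] (L : V →ₗ[ℂ] W),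
      Coi L → Module.finrank ℂ W = m + 2 → Tub V μ N C Λ →
      ∀ (d : ℕ) (P : W → ℂ) (p : W) (f : ℕ → ↥(ℂ ∙ p)ᗮ → ℂ) (D : ↥(ℂ ∙ p)ᗮ → ℂ) (ρ r : ℝ),
        1 ≤ d → HP W d P → (∀ x, ‖P x‖ ≤ 2 * ‖x‖ ^ d) → ‖p‖ = 1 → 1 / 2 ≤ ‖P p‖ →
        (∀ k ≤ d, HP ↥(ℂ ∙ p)ᗮ (d - k) (f k)) → (∀ z, f d z = P p) →
        (∀ (z : ↥(ℂ ∙ p)ᗮ) (w : ℂ),
          P (z + w • p) = ∑ k ∈ Finset.range (d + 1), f k z * w ^ k) →
        HP ↥(ℂ ∙ p)ᗮ (d * (d - 1)) D →
        (∀ z, D z ≠ 0 → ∀ w : ℂ, P (z + w • p) = 0 →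
          (Polynomial.derivative (pol d (fun k => f k z))).eval w ≠ 0) →
        0 < ρ → ρ ≤ 1 / 4 → 0 < r → 64 * (1 + 16 * d) * r ≤ ρ ^ N →
        μ {x | L x ∈ nearZ P r ∧ (ℂ ∙ p)ᗮ.orthogonalProjectionOnto (L x) ∉ nearZ D ρ} ≤
          ENNReal.ofReal (C₂ * (d : ℝ) ^ C₂ * ρ) := by
  obtain ⟨B, hB, hnet⟩ := net (m + 1)
  refine ⟨max (1 + C) ((4 * B) ^ (2 * (m + 1)) * (C * (32 : ℝ) ^ C)),
    lt_of_lt_of_le (by linarith) (le_max_left _ _), ?_⟩
  intro V _ _ _ μ W _ _ _ L hL hfin hTub d P p f D ρ r hd hP hbd hp hPp hf hfd hPf hD hDs hρ hρ4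
    hr hr64
  have hd0 : (0 : ℝ) < d := by exact_mod_cast hd
  have hd1 : (1 : ℝ) ≤ d := by exact_mod_cast hd
  have hp0 : p ≠ 0 := by
    rintro rfl
    simp at hp
  have hfinE : Module.finrank ℂ ↥(ℂ ∙ p)ᗮ = m + 1 := by
    have h1 := Submodule.finrank_add_finrank_orthogonal (ℂ ∙ p)
    rw [finrank_span_singleton hp0, hfin] at h1
    omega
  -- the scales
  have hρ1 : ρ < 1 := by linarith
  set ρ₁ : ℝ := ρ ^ 2 / 4 with hρ₁
  have hρ₁0 : 0 < ρ₁ := by positivity
  have hρsq : ρ ^ 2 ≤ 1 / 16 := by nlinarith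
  have hρ₁16 : ρ₁ ≤ 1 / 16 := by
    rw [hρ₁]
    linarith
  have hρN : ρ ^ N ≤ ρ ^ 2 := pow_le_pow_of_le_one hρ.le hρ1.le (by omega)
  -- the net
  obtain ⟨T, hTS, hTcard, hTnet⟩ := hnet ↥(ℂ ∙ p)ᗮ hfinE
    {e : ↥(ℂ ∙ p)ᗮ | ‖e‖ = 1 ∧ e ∉ nearZ D ρ} (fun e he => he.1.le) ρ₁ hρ₁0 (by linarith)
  -- the root functions
  have hroots : ∀ e : ↥(ℂ ∙ p)ᗮ, ∃ Hs : Finset (↥(ℂ ∙ p)ᗮ → ℂ), e ∈ T → (Hs.card ≤ d ∧
      (∀ h ∈ Hs, ∀ z ∈ ball e ρ, AnalyticAt ℂ h z) ∧
      (∀ h ∈ Hs, ∀ z ∈ ball e ρ, (pol d (fun k => f k z)).eval (h z) = 0) ∧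
      ∀ z ∈ ball e ρ, ∀ w : ℂ, (pol d (fun k => f k z)).eval w = 0 → ∃ h ∈ Hs, h z = w) := by
    intro e
    by_cases he : e ∈ T
    · obtain ⟨he1, he2⟩ := hTS he
      have hDne : ∀ z ∈ ball e ρ, D z ≠ 0 := by
        intro z hz h0
        apply he2
        refine ⟨?_, z, h0, ?_⟩
        · rintro rfl
          simp at he1
        · rw [he1, mul_one]
          rw [mem_ball, dist_eq_norm] at hz
          exact hz.le
      have hPp0 : P p ≠ 0 := by
        intro h0
        rw [h0, norm_zero] at hPp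
        linarith
      obtain ⟨Hs, h1⟩ := StepB_roots f (fun k hk => (hf k hk).poly) hPp0 hfd e hρ (by
        intro z hz w hw
        refine hDs z (hDne z hz) w ?_
        rw [hPf, ← StepB_pol_eval]
        exact hw)
      exact ⟨Hs, fun _ => h1⟩
    · exact ⟨∅, fun h => absurd h he⟩
  choose Hs hHs using hroots
  -- the covering
  have hcover : {x | L x ∈ nearZ P r ∧
      (ℂ ∙ p)ᗮ.orthogonalProjectionOnto (L x) ∉ nearZ D ρ} ⊆
      ⋃ e ∈ T, ⋃ h ∈ Hs e, {x | L x ∈ tube p e h (ρ ^ 2) (ρ ^ N)} := by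
    rintro x ⟨hx1, hx2⟩
    obtain ⟨e, he, c, hc, u, hu1, hu2, v, hv1, hv2⟩ := geo hd hP hbd hp hPp hD hρ hρ₁0 hρ₁16 hr
      (by rw [hρ₁]; linarith) (T : Set ↥(ℂ ∙ p)ᗮ)
      (fun e he1 he2 => hTnet e ⟨he1, he2⟩) (fun e he => (hTS he).1) hx1 hx2
    have heT : e ∈ T := he
    have hu3 : ‖u‖ ≤ ρ ^ 2 := by
      refine hu2.trans (le_of_eq ?_)
      rw [hρ₁]
      ring
    have hball : e + u ∈ ball e ρ := by
      rw [mem_ball, dist_eq_norm, add_sub_cancel_left]
      refine lt_of_le_of_lt hu3 ?_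
      nlinarith
    have hroot : (pol d (fun k => f k (e + u))).eval v = 0 := by
      rw [StepB_pol_eval, ← hPf]
      exact hv1
    obtain ⟨h, hh, hhv⟩ := (hHs e heT).2.2.2 (e + u) hball v hroot
    simp only [Set.mem_iUnion]
    refine ⟨e, heT, h, hh, hx1.1, c, hc, u, hu1, hu3, ?_⟩
    rw [hhv]
    refine hv2.trans ?_
    have hpos : 0 ≤ (1 + 16 * (d : ℝ)) * r := by positivity
    linarith
  -- the measure of the tubes
  have htube : ∀ e ∈ T, ∀ h ∈ Hs e, μ {x | L x ∈ tube p e h (ρ ^ 2) (ρ ^ N)} ≤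
      ENNReal.ofReal (C * (32 * (d : ℝ)) ^ C * ρ ^ Λ) := by
    intro e he h hh
    have he1 := (hTS he).1
    refine hTub W L hL p e h ρ (32 * d) hp he1 hρ hρ4 (by linarith)
      ((hHs e he).2.1 h hh) ?_
    intro z hz
    have h1 := (hHs e he).2.2.1 h hh z hz
    rw [StepB_pol_eval, ← hPf] at h1
    have hz0 : inner ℂ p (z : W) = 0 :=
      (Submodule.mem_orthogonal_singleton_iff_inner_right).mp z.2
    have h2 := root_bound hd hP hbd hp hPp hz0 h1
    refine h2.trans ?_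
    have h3 : ‖(z : W)‖ ≤ 2 := by
      rw [mem_ball, dist_eq_norm] at hz
      have h4 : ‖z‖ ≤ ‖z - e‖ + ‖e‖ := by
        have := norm_add_le (z - e) e
        rwa [sub_add_cancel] at this
      rw [he1] at h4
      have h5 : ‖(z : W)‖ = ‖z‖ := rfl
      rw [h5]
      linarith
    nlinarith
  -- the sum
  have hsum : μ {x | L x ∈ nearZ P r ∧
      (ℂ ∙ p)ᗮ.orthogonalProjectionOnto (L x) ∉ nearZ D ρ} ≤
      ENNReal.ofReal ((T.card : ℝ) * (d * (C * (32 * (d : ℝ)) ^ C * ρ ^ Λ))) := by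
    refine (measure_mono hcover).trans ?_
    refine (measure_biUnion_finset_le _ _).trans ?_
    have h1 : ∀ e ∈ T, μ (⋃ h ∈ Hs e, {x | L x ∈ tube p e h (ρ ^ 2) (ρ ^ N)}) ≤
        ENNReal.ofReal (d * (C * (32 * (d : ℝ)) ^ C * ρ ^ Λ)) := by
      intro e he
      refine (measure_biUnion_finset_le _ _).trans ?_
      refine (Finset.sum_le_sum (htube e he)).trans ?_
      rw [Finset.sum_const, nsmul_eq_mul, ENNReal.ofReal_mul hd0.le, ENNReal.ofReal_natCast]
      exact mul_le_mul_left (by exact_mod_cast (hHs e he).1) _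
    refine (Finset.sum_le_sum h1).trans ?_
    rw [Finset.sum_const, nsmul_eq_mul, ENNReal.ofReal_mul (p := (T.card : ℝ))
      (Nat.cast_nonneg _), ENNReal.ofReal_natCast]
  exact hsum.trans (ENNReal.ofReal_le_ofReal (StepB_num hB hC hΛ hd hρ hρ4 hTcard))

end HMA

end S_MA_StepB

section S_MA_StepC

/-! # Module STEPC: the induction step -/

open MeasureTheory Metric Set
open scoped ENNReal Topology ContDiff

namespace HMA

/-- the numerical part of the trivial case -/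
theorem StepC_trivial {N : ℕ} {C C₂ C₀ c₁ r : ℝ} {d : ℕ} (hd : 1 ≤ d) (hC : 0 < C) (hC₂ : 0 < C₂)
    (hC₀ : 0 < C₀) (hc₁1 : c₁ ≤ 1) (hr : 0 < r) (hr1 : r < 1)
    (h : (1 / 4 : ℝ) ^ N < 2176 * d * r) :
    C ≤ (2176 * 4 ^ N * (C + C₂ + C₀) + C₂ + 2 * C₀ + 1) *
      (d : ℝ) ^ (2176 * 4 ^ N * (C + C₂ + C₀) + C₂ + 2 * C₀ + 1) * r ^ c₁ := by
  set C₁ := 2176 * 4 ^ N * (C + C₂ + C₀) + C₂ + 2 * C₀ + 1 with hC₁
  have h4 : (0 : ℝ) < 4 ^ N := by positivity
  have hd1 : (1 : ℝ) ≤ d := by exact_mod_cast hd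
  have hC₁C : 2176 * 4 ^ N * C ≤ C₁ := by
    rw [hC₁]
    have : 0 ≤ 2176 * 4 ^ N * (C₂ + C₀) := by positivity
    nlinarith
  have hC₁1 : 1 ≤ C₁ := by
    rw [hC₁]
    have : 0 ≤ 2176 * 4 ^ N * (C + C₂ + C₀) := by positivity
    nlinarith
  have h1 : r ≤ r ^ c₁ := by
    have := Real.rpow_le_rpow_of_exponent_ge hr hr1.le hc₁1
    rwa [Real.rpow_one] at this
  have h2 : (d : ℝ) ≤ (d : ℝ) ^ C₁ := by
    have := Real.rpow_le_rpow_of_exponent_le hd1 hC₁1
    rwa [Real.rpow_one] at this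
  have h3 : 1 < 2176 * 4 ^ N * (d * r) := by
    have h5 : (1 / 4 : ℝ) ^ N * 4 ^ N = 1 := by
      rw [← mul_pow]; norm_num
    nlinarith [mul_lt_mul_of_pos_right h h4]
  calc C ≤ C * (2176 * 4 ^ N * (d * r)) := by nlinarith
    _ = (2176 * 4 ^ N * C) * (d * r) := by ring
    _ ≤ C₁ * (d * r) := by
        have : 0 ≤ (d : ℝ) * r := by positivity
        exact mul_le_mul_of_nonneg_right hC₁C this
    _ ≤ C₁ * ((d : ℝ) ^ C₁ * r ^ c₁) := by
        refine mul_le_mul_of_nonneg_left ?_ (by linarith)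
        exact mul_le_mul h2 h1 hr.le (by positivity)
    _ = C₁ * (d : ℝ) ^ C₁ * r ^ c₁ := by ring

/-- the numerical part of the main case -/
theorem StepC_num {N : ℕ} (hN : 3 ≤ N) {C C₂ C₀ c₀ r ρ : ℝ} {d : ℕ} (hd : 1 ≤ d) (hC : 0 < C)
    (hC₂ : 0 < C₂) (hC₀ : 0 < C₀) (hc₀ : 0 < c₀) (hr : 0 < r)
    (hρ : ρ = (2176 * d * r) ^ ((N : ℝ)⁻¹)) (hρ0 : 0 < ρ) (hρ1 : ρ ≤ 1) :
    C₂ * (d : ℝ) ^ C₂ * ρ + C₀ * ((d * (d - 1) : ℕ) : ℝ) ^ C₀ * ρ ^ c₀ ≤
      (2176 * 4 ^ N * (C + C₂ + C₀) + C₂ + 2 * C₀ + 1) *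
      (d : ℝ) ^ (2176 * 4 ^ N * (C + C₂ + C₀) + C₂ + 2 * C₀ + 1) * r ^ (min c₀ 1 / N) := by
  set C₁ := 2176 * 4 ^ N * (C + C₂ + C₀) + C₂ + 2 * C₀ + 1 with hC₁
  have h4 : (1 : ℝ) ≤ 4 ^ N := one_le_pow₀ (by norm_num)
  have hd1 : (1 : ℝ) ≤ d := by exact_mod_cast hd
  have hd0 : (0 : ℝ) < d := by linarith
  have hNr : (3 : ℝ) ≤ N := by exact_mod_cast hN
  have hprod : 2176 * (C₂ + C₀) ≤ 2176 * 4 ^ N * (C + C₂ + C₀) := by nlinarith
  have hCC : 2176 * (C₂ + C₀) ≤ C₁ := by rw [hC₁]; nlinarith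
  have hCa : C₂ + 1 ≤ C₁ := by rw [hC₁]; nlinarith
  have hCb : C₀ * 2 + 1 ≤ C₁ := by rw [hC₁]; nlinarith
  set c := min c₀ 1 with hc
  have hc0 : 0 < c := lt_min hc₀ one_pos
  have hc1 : c ≤ 1 := min_le_right _ _
  have h1 : ρ ≤ ρ ^ c := by
    have := Real.rpow_le_rpow_of_exponent_ge hρ0 hρ1 hc1
    rwa [Real.rpow_one] at this
  have h2 : ρ ^ c₀ ≤ ρ ^ c := Real.rpow_le_rpow_of_exponent_ge hρ0 hρ1 (min_le_left _ _)
  have h3 : ρ ^ c ≤ 2176 * d * r ^ (c / N) := by
    have e1 : ρ ^ c = (2176 * d) ^ (c / N) * r ^ (c / N) := by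
      rw [hρ, ← Real.rpow_mul (by positivity), inv_mul_eq_div,
        Real.mul_rpow (by positivity) hr.le]
    rw [e1]
    refine mul_le_mul_of_nonneg_right ?_ (Real.rpow_nonneg hr.le _)
    have h6 : c / N ≤ 1 := by
      rw [div_le_one (by linarith)]; linarith
    have := Real.rpow_le_rpow_of_exponent_le (x := 2176 * (d : ℝ)) (by linarith) h6
    rwa [Real.rpow_one] at this
  have h5 : ((d * (d - 1) : ℕ) : ℝ) ^ C₀ ≤ (d : ℝ) ^ (C₀ * 2) := by
    have e2 : (d : ℝ) ^ (C₀ * 2) = ((d : ℝ) ^ (2 : ℝ)) ^ C₀ := by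
      rw [← Real.rpow_mul hd0.le, mul_comm]
    rw [e2]
    refine Real.rpow_le_rpow (Nat.cast_nonneg _) ?_ hC₀.le
    rw [Real.rpow_two, pow_two]
    have : d * (d - 1) ≤ d * d := Nat.mul_le_mul_left _ (Nat.sub_le _ _)
    exact_mod_cast this
  have h7 : (d : ℝ) ^ C₂ * d ≤ (d : ℝ) ^ C₁ := by
    have : (d : ℝ) ^ C₂ * d = (d : ℝ) ^ (C₂ + 1) := by
      rw [Real.rpow_add hd0, Real.rpow_one]
    rw [this]
    exact Real.rpow_le_rpow_of_exponent_le hd1 hCa
  have h8 : (d : ℝ) ^ (C₀ * 2) * d ≤ (d : ℝ) ^ C₁ := by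
    have : (d : ℝ) ^ (C₀ * 2) * d = (d : ℝ) ^ (C₀ * 2 + 1) := by
      rw [Real.rpow_add hd0, Real.rpow_one]
    rw [this]
    exact Real.rpow_le_rpow_of_exponent_le hd1 hCb
  have hrp : 0 ≤ r ^ (c / N) := Real.rpow_nonneg hr.le _
  have hdC : 0 ≤ (d : ℝ) ^ C₁ := by positivity
  have a1 : C₂ * (d : ℝ) ^ C₂ * ρ ≤ 2176 * C₂ * (d : ℝ) ^ C₁ * r ^ (c / N) := by
    calc C₂ * (d : ℝ) ^ C₂ * ρ ≤ C₂ * (d : ℝ) ^ C₂ * (2176 * d * r ^ (c / N)) :=
          mul_le_mul_of_nonneg_left (h1.trans h3) (by positivity)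
      _ = 2176 * C₂ * r ^ (c / N) * ((d : ℝ) ^ C₂ * d) := by ring
      _ ≤ 2176 * C₂ * r ^ (c / N) * (d : ℝ) ^ C₁ :=
          mul_le_mul_of_nonneg_left h7 (by positivity)
      _ = 2176 * C₂ * (d : ℝ) ^ C₁ * r ^ (c / N) := by ring
  have a2 : C₀ * ((d * (d - 1) : ℕ) : ℝ) ^ C₀ * ρ ^ c₀ ≤
      2176 * C₀ * (d : ℝ) ^ C₁ * r ^ (c / N) := by
    calc C₀ * ((d * (d - 1) : ℕ) : ℝ) ^ C₀ * ρ ^ c₀
        ≤ C₀ * (d : ℝ) ^ (C₀ * 2) * (2176 * d * r ^ (c / N)) := by
          refine mul_le_mul (mul_le_mul_of_nonneg_left h5 hC₀.le) (h2.trans h3)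
            (Real.rpow_nonneg hρ0.le _) (by positivity)
      _ = 2176 * C₀ * r ^ (c / N) * ((d : ℝ) ^ (C₀ * 2) * d) := by ring
      _ ≤ 2176 * C₀ * r ^ (c / N) * (d : ℝ) ^ C₁ :=
          mul_le_mul_of_nonneg_left h8 (by positivity)
      _ = 2176 * C₀ * (d : ℝ) ^ C₁ * r ^ (c / N) := by ring
  calc C₂ * (d : ℝ) ^ C₂ * ρ + C₀ * ((d * (d - 1) : ℕ) : ℝ) ^ C₀ * ρ ^ c₀
      ≤ 2176 * C₂ * (d : ℝ) ^ C₁ * r ^ (c / N) + 2176 * C₀ * (d : ℝ) ^ C₁ * r ^ (c / N) :=
        add_le_add a1 a2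
    _ = (2176 * (C₂ + C₀)) * ((d : ℝ) ^ C₁ * r ^ (c / N)) := by ring
    _ ≤ C₁ * ((d : ℝ) ^ C₁ * r ^ (c / N)) :=
        mul_le_mul_of_nonneg_right hCC (mul_nonneg hdC hrp)
    _ = C₁ * (d : ℝ) ^ C₁ * r ^ (c / N) := by ring

/-- zero sets of proportional functions -/
theorem StepC_nearZ {W : Type} [NormedAddCommGroup W] {P P₁ : W → ℂ}
    (h : ∀ x, P x = 0 ↔ P₁ x = 0) (r : ℝ) : nearZ P r = nearZ P₁ r := by
  unfold nearZ
  ext x
  simp only [Set.mem_ofPred_eq, h]

/-- the measure of the bad part -/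
theorem StepC_ih {m N : ℕ} {C Λ C₀ c₀ : ℝ} (hC₀ : 0 < C₀) (ih : StN (m + 1) N C Λ C₀ c₀)
    {V : Type} [NormedAddCommGroup V] [InnerProductSpace ℂ V] [MeasurableSpace V]
    (μ : Measure V) {W : Type} [NormedAddCommGroup W] [InnerProductSpace ℂ W]
    [FiniteDimensional ℂ W] {L : V →ₗ[ℂ] W} (hL : Coi L) (hW : Module.finrank ℂ W = m + 2)
    (hμ : μ {x | x ≠ 0} ≤ ENNReal.ofReal C) (hT : Tub V μ N C Λ) {d : ℕ} (hd : 1 ≤ d) {p : W}
    (hp : ‖p‖ = 1) {D : ↥(ℂ ∙ p)ᗮ → ℂ} (hD : HP ↥(ℂ ∙ p)ᗮ (d * (d - 1)) D)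
    (hD0 : ∃ z, D z ≠ 0) {ρ : ℝ} (hρ0 : 0 < ρ) (hρ1 : ρ < 1) :
    μ {x | (ℂ ∙ p)ᗮ.orthogonalProjectionOnto (L x) ∈ nearZ D ρ} ≤
      ENNReal.ofReal (C₀ * ((d * (d - 1) : ℕ) : ℝ) ^ C₀ * ρ ^ c₀) := by
  rcases Nat.lt_or_ge d 2 with h | h
  · have hd1 : d = 1 := by omega
    subst hd1
    have hne : ∀ z, D z ≠ 0 := by
      obtain ⟨z₀, hz₀⟩ := hD0
      intro z
      have hD' : HP ↥(ℂ ∙ p)ᗮ 0 D := by simpa using hD
      rw [hD'.eq_const z, ← hD'.eq_const z₀]
      exact hz₀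
    have : {x | (ℂ ∙ p)ᗮ.orthogonalProjectionOnto (L x) ∈ nearZ D ρ} = (∅ : Set V) := by
      ext x
      simp only [Set.mem_ofPred_eq, Set.mem_empty_iff_false, iff_false]
      rintro ⟨-, y, hy, -⟩
      exact hne y hy
    rw [this, measure_empty]
    exact bot_le
  · obtain ⟨L', hL', hLL'⟩ := hL.proj p
    have hp0 : p ≠ 0 := by
      intro h0; rw [h0, norm_zero] at hp; exact zero_ne_one hp
    have hfin : Module.finrank ℂ ↥(ℂ ∙ p)ᗮ = m + 1 := by
      have h1 := Submodule.finrank_add_finrank_orthogonal (ℂ ∙ p)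
      rw [finrank_span_singleton hp0, hW] at h1
      omega
    have h2 := ih V μ ↥(ℂ ∙ p)ᗮ L' hL' hfin hμ hT (d * (d - 1))
      (Nat.mul_pos (by omega) (by omega)) D hD hD0 ρ hρ0 hρ1
    refine le_trans (le_of_eq ?_) h2
    congr 1
    ext x
    simp only [Set.mem_ofPred_eq, hLL']

theorem stN_succ (m N : ℕ) {C Λ C₀ c₀ : ℝ} (hC : 0 < C) (hN : 3 ≤ N)
    (hΛ : 4 * (m + 1) + 1 ≤ Λ) (hC₀ : 0 < C₀) (hc₀ : 0 < c₀)
    (ih : StN (m + 1) N C Λ C₀ c₀) :
    ∃ C₁ c₁ : ℝ, 0 < C₁ ∧ 0 < c₁ ∧ StN (m + 2) N C Λ C₁ c₁ := by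
  obtain ⟨C₂, hC₂, hstep⟩ := step_measure m N hC hN hΛ
  have hNr : (3 : ℝ) ≤ N := by exact_mod_cast hN
  have hN0 : (0 : ℝ) < N := by linarith
  have hc₁ : 0 < min c₀ 1 / N := div_pos (lt_min hc₀ one_pos) hN0
  refine ⟨2176 * 4 ^ N * (C + C₂ + C₀) + C₂ + 2 * C₀ + 1, min c₀ 1 / N, by positivity, hc₁, ?_⟩
  intro V _ _ _ μ W _ _ _ L hL hW hμ hT d hd P hP hP0 r hr hr1
  have hd1 : (1 : ℝ) ≤ d := by exact_mod_cast hd
  rcases lt_or_ge ((1 / 4 : ℝ) ^ N) (2176 * d * r) with hcase | hcase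
  · -- the trivial case
    refine le_trans (measure_mono ?_) (hμ.trans (ENNReal.ofReal_le_ofReal
      (StepC_trivial hd hC hC₂ hC₀ ?_ hr hr1 hcase)))
    · rintro x ⟨hx, -⟩
      intro h0
      exact hx (by rw [h0, map_zero])
    · rw [div_le_one hN0]
      exact (min_le_right _ _).trans (by linarith)
  -- the main case
  set ρ : ℝ := (2176 * d * r) ^ ((N : ℝ)⁻¹) with hρ
  have hbase : 0 < 2176 * (d : ℝ) * r := by positivity
  have hρ0 : 0 < ρ := Real.rpow_pos_of_pos hbase _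
  have hρN : ρ ^ N = 2176 * d * r := by
    rw [hρ]
    exact Real.rpow_inv_natCast_pow hbase.le (by omega)
  have hρ4 : ρ ≤ 1 / 4 := by
    have : ρ ^ N ≤ (1 / 4) ^ N := by rw [hρN]; exact hcase
    exact le_of_pow_le_pow_left₀ (by omega) (by norm_num) this
  have hr2 : r ≤ 1 / 2 := by
    have h1 : (1 / 4 : ℝ) ^ N ≤ 1 := pow_le_one₀ (by norm_num) (by norm_num)
    nlinarith
  have : Nontrivial W := by
    apply Module.nontrivial_of_finrank_pos (R := ℂ)
    rw [hW]; omega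
  obtain ⟨p, hp, hmax⟩ := hP.exists_max
  have hPp : P p ≠ 0 := by
    intro h0
    obtain ⟨x, hx⟩ := hP0
    have := hmax x
    rw [h0, norm_zero, zero_mul] at this
    exact hx (norm_le_zero_iff.1 this)
  have hp0 : p ≠ 0 := by
    intro h0; rw [h0, norm_zero] at hp; exact zero_ne_one hp
  have hfin : Module.finrank ℂ ↥(ℂ ∙ p)ᗮ = m + 1 := by
    have h1 := Submodule.finrank_add_finrank_orthogonal (ℂ ∙ p)
    rw [finrank_span_singleton hp0, hW] at h1
    omega
  have : Nontrivial ↥(ℂ ∙ p)ᗮ := by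
    apply Module.nontrivial_of_finrank_pos (R := ℂ)
    rw [hfin]; omega
  obtain ⟨e, he⟩ : ∃ e : ↥(ℂ ∙ p)ᗮ, ‖e‖ = 1 := exists_norm_eq _ zero_le_one
  have hpe : inner ℂ p (e : W) = 0 :=
    (Submodule.mem_orthogonal_singleton_iff_inner_right).1 e.2
  have he' : ‖(e : W)‖ = 1 := by rw [← he]; rfl
  -- normalisation
  set P₁ : W → ℂ := fun x => (P p)⁻¹ * P x with hP₁def
  have hP₁ : HP W d P₁ := hP.const_mul _
  have hP₁p : P₁ p = 1 := inv_mul_cancel₀ hPp
  have hP₁le : ∀ x, ‖P₁ x‖ ≤ ‖x‖ ^ d := by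
    intro x
    rw [hP₁def]
    simp only [norm_mul, norm_inv]
    have hpos : 0 < ‖P p‖ := norm_pos_iff.2 hPp
    rw [inv_mul_le_iff₀ hpos]
    exact hmax x
  have hZ : nearZ P r = nearZ P₁ r := by
    refine StepC_nearZ (fun x => ?_) r
    simp [hP₁def, hPp]
  set τ : ℝ := min ((r / 4) ^ d) (1 / 2) with hτ
  have hτ0 : 0 < τ := lt_min (by positivity) (by norm_num)
  obtain ⟨P', f, D, hP', hclose, -, hf, hexp, hfd, hD, hD0, hsimple⟩ :=
    pert hd hP₁ hp he' hpe (by rw [hP₁p]; exact one_ne_zero) hτ0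
  have hP'p : 1 / 2 ≤ ‖P' p‖ := by
    have h1 := hclose p
    rw [hp, one_pow, mul_one, hP₁p] at h1
    have h2 : τ ≤ 1 / 2 := min_le_right _ _
    have h3 : ‖(1 : ℂ)‖ ≤ ‖P' p‖ + ‖P' p - 1‖ := by
      have : (1 : ℂ) = P' p - (P' p - 1) := by ring
      calc ‖(1 : ℂ)‖ = ‖P' p - (P' p - 1)‖ := by rw [← this]
        _ ≤ ‖P' p‖ + ‖P' p - 1‖ := norm_sub_le _ _
    rw [norm_one] at h3
    linarith
  have hP'le : ∀ x, ‖P' x‖ ≤ 2 * ‖x‖ ^ d := by
    intro x
    have h1 := hclose x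
    have h2 : τ ≤ 1 / 2 := min_le_right _ _
    have h3 : ‖P' x‖ ≤ ‖P' x - P₁ x‖ + ‖P₁ x‖ := by
      have : P' x = (P' x - P₁ x) + P₁ x := by ring
      calc ‖P' x‖ = ‖(P' x - P₁ x) + P₁ x‖ := by rw [← this]
        _ ≤ _ := norm_add_le _ _
    have h4 : 0 ≤ ‖x‖ ^ d := by positivity
    nlinarith [hP₁le x]
  have hsub := nearZ_pert hd hP₁ hP' hp hP'p hr hr2 (min_le_left _ _ : τ ≤ (r / 4) ^ d) hclose
  have hst := hstep V μ W L hL hW hT d P' p f D ρ (2 * r) hd hP' hP'le hp hP'p hf hfd hexp hD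
    hsimple hρ0 hρ4 (by linarith) (by
      rw [hρN]
      nlinarith)
  have hih := StepC_ih hC₀ ih μ hL hW hμ hT hd hp hD hD0 hρ0 (by linarith)
  have hcov : {x | L x ∈ nearZ P r} ⊆
      {x | L x ∈ nearZ P' (2 * r) ∧ (ℂ ∙ p)ᗮ.orthogonalProjectionOnto (L x) ∉ nearZ D ρ} ∪
      {x | (ℂ ∙ p)ᗮ.orthogonalProjectionOnto (L x) ∈ nearZ D ρ} := by
    intro x hx
    by_cases h : (ℂ ∙ p)ᗮ.orthogonalProjectionOnto (L x) ∈ nearZ D ρ
    · exact Or.inr h
    · refine Or.inl ⟨hsub ?_, h⟩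
      rw [← hZ]; exact hx
  calc μ {x | L x ∈ nearZ P r}
      ≤ μ {x | L x ∈ nearZ P' (2 * r) ∧ (ℂ ∙ p)ᗮ.orthogonalProjectionOnto (L x) ∉ nearZ D ρ} +
        μ {x | (ℂ ∙ p)ᗮ.orthogonalProjectionOnto (L x) ∈ nearZ D ρ} :=
        (measure_mono hcov).trans (measure_union_le _ _)
    _ ≤ ENNReal.ofReal (C₂ * (d : ℝ) ^ C₂ * ρ) +
        ENNReal.ofReal (C₀ * ((d * (d - 1) : ℕ) : ℝ) ^ C₀ * ρ ^ c₀) := add_le_add hst hih
    _ = ENNReal.ofReal (C₂ * (d : ℝ) ^ C₂ * ρ +
        C₀ * ((d * (d - 1) : ℕ) : ℝ) ^ C₀ * ρ ^ c₀) :=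
        (ENNReal.ofReal_add (by positivity) (by positivity)).symm
    _ ≤ _ := ENNReal.ofReal_le_ofReal
        (StepC_num hN hd hC hC₂ hC₀ hc₀ hr hρ hρ0 (by linarith))

end HMA

end S_MA_StepC

section S_MA_ThmN

/-! # Theorem N (assembled) -/

open MeasureTheory Metric Set
open scoped ENNReal Topology ContDiff

namespace HMA

theorem thmN (n N : ℕ) {C Λ : ℝ} (hC : 0 < C) (hN : 3 ≤ N) (hΛ : 4 * n + 1 ≤ Λ) :
    ∃ C₁ c₁ : ℝ, 0 < C₁ ∧ 0 < c₁ ∧ StN (n + 1) N C Λ C₁ c₁ := by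
  induction n with
  | zero => exact ⟨1, 1, one_pos, one_pos, stN_one N C Λ⟩
  | succ m ih =>
    have h1 : 4 * ((m : ℝ) + 1) + 1 ≤ Λ := by push_cast at hΛ; linarith
    obtain ⟨C₀, c₀, h1', h2, h3⟩ := ih (by linarith)
    exact stN_succ m N hC hN h1 h1' h2 h3

end HMA

end S_MA_ThmN

section S_MA_Unif

/-! # Module UNIF: uniform integrability -/

open MeasureTheory Metric Set
open scoped ENNReal Topology ContDiff

namespace HMA

theorem Unif_pow (y : ℝ≥0∞) {a b : ℝ} (ha : 0 ≤ a) (hab : a ≤ b) : y ^ (-a) ≤ 1 + y ^ (-b) := by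
  rcases le_total y 1 with h | h
  · have h1 : 1 ≤ y⁻¹ := ENNReal.one_le_inv.mpr h
    rw [ENNReal.rpow_neg, ENNReal.rpow_neg, ← ENNReal.inv_rpow, ← ENNReal.inv_rpow]
    exact (ENNReal.rpow_le_rpow_of_exponent_le h1 hab).trans le_add_self
  · have h1 : y⁻¹ ≤ 1 := ENNReal.inv_le_one.mpr h
    rw [ENNReal.rpow_neg, ← ENNReal.inv_rpow]
    exact (ENNReal.rpow_le_one h1 ha).trans le_self_add

theorem Unif_one {n : ℕ} {μ : Measure (Cn (n + 1))} [IsProbabilityMeasure μ] (h0 : μ {0} = 0)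
    (hm : Moderate n μ) : ∃ ε : ℝ, 0 < ε ∧ ε ≤ 1 ∧ ∃ C : ℝ, 0 < C ∧
      ∀ F : Cn (n + 1) → ℝ, OmegaPsh n F → Nrm 1 F →
        ∫⁻ x, (ENNReal.ofReal (F x / ‖x‖)) ^ (-ε) ∂μ ≤ ENNReal.ofReal C := by
  obtain ⟨ε₀, hε₀, hmod⟩ := hm
  set ε₁ : ℝ := min ε₀ 1 with hε₁
  have h1pos : 0 < ε₁ := lt_min hε₀ one_pos
  have h1le : ε₁ ≤ 1 := min_le_right _ _
  have h1le0 : ε₁ ≤ ε₀ := min_le_left _ _
  have hfin : ∀ F : Cn (n + 1) → ℝ, OmegaPsh n F →
      ∫⁻ x, (ENNReal.ofReal (F x / ‖x‖)) ^ (-ε₁) ∂μ < ⊤ := by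
    intro F hF
    calc ∫⁻ x, (ENNReal.ofReal (F x / ‖x‖)) ^ (-ε₁) ∂μ
        ≤ ∫⁻ x, (1 + (ENNReal.ofReal (F x / ‖x‖)) ^ (-ε₀)) ∂μ :=
          lintegral_mono (fun x => Unif_pow _ h1pos.le h1le0)
      _ = 1 + ∫⁻ x, (ENNReal.ofReal (F x / ‖x‖)) ^ (-ε₀) ∂μ := by
          rw [lintegral_add_left measurable_const, lintegral_const, measure_univ, mul_one]
      _ < ⊤ := ENNReal.add_lt_top.mpr ⟨ENNReal.one_lt_top, hmod F hF⟩
  by_contra hcon
  push Not at hcon
  have hex : ∀ j : ℕ, ∃ F : Cn (n + 1) → ℝ, OmegaPsh n F ∧ Nrm 1 F ∧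
      ENNReal.ofReal ((j : ℝ) + 1) <
        ∫⁻ x, (ENNReal.ofReal (F x / ‖x‖)) ^ (-(ε₁ * (1 / 2 : ℝ) ^ (j + 1))) ∂μ := by
    intro j
    refine hcon (ε₁ * (1 / 2 : ℝ) ^ (j + 1)) (by positivity) ?_ ((j : ℝ) + 1) (by positivity)
    have h2 : (1 / 2 : ℝ) ^ (j + 1) ≤ 1 := pow_le_one₀ (by norm_num) (by norm_num)
    calc ε₁ * (1 / 2 : ℝ) ^ (j + 1) ≤ 1 * 1 := by
          apply mul_le_mul h1le h2 (by positivity) zero_le_one
      _ = 1 := one_mul _
  choose F hF hN hI using hex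
  obtain ⟨G, hG, hGF⟩ := omega_prod F hF hN
  have hlow : ∀ j : ℕ, ENNReal.ofReal ((j : ℝ) + 1) ≤
      ∫⁻ x, (ENNReal.ofReal (G x / ‖x‖)) ^ (-ε₁) ∂μ := by
    intro j
    refine (hI j).le.trans (lintegral_mono_ae ?_)
    have hae : ∀ᵐ x ∂μ, x ≠ 0 := by
      rw [ae_iff]
      simpa using h0
    filter_upwards [hae] with x hx
    have h3 := hGF j x hx
    have h4 : 0 ≤ F j x / ‖x‖ := div_nonneg ((hF j).psh.nonneg x) (norm_nonneg x)
    have h5 : (0 : ℝ) ≤ (1 / 2 : ℝ) ^ (j + 1) := by positivity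
    have h6 : ENNReal.ofReal (G x / ‖x‖) ≤ ENNReal.ofReal (F j x / ‖x‖) ^ ((1 / 2 : ℝ) ^ (j + 1)) := by
      rw [ENNReal.ofReal_rpow_of_nonneg h4 h5]
      exact ENNReal.ofReal_le_ofReal h3
    rw [ENNReal.rpow_neg, ENNReal.rpow_neg, ENNReal.inv_le_inv, mul_comm ε₁, ENNReal.rpow_mul]
    exact ENNReal.rpow_le_rpow h6 h1pos.le
  have htop := hfin G hG
  obtain ⟨N, hNat⟩ := ENNReal.exists_nat_gt htop.ne
  have h7 := hlow N
  have h8 : ((N : ℕ) : ℝ≥0∞) ≤ ENNReal.ofReal ((N : ℝ) + 1) := by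
    rw [← ENNReal.ofReal_natCast]
    exact ENNReal.ofReal_le_ofReal (by linarith)
  exact absurd (h8.trans h7) (not_le.mpr hNat)

theorem unif {n : ℕ} {μ : Measure (Cn (n + 1))} [IsProbabilityMeasure μ] (h0 : μ {0} = 0)
    (hm : Moderate n μ) : ∃ ε : ℝ, 0 < ε ∧ ε ≤ 1 ∧ ∀ A : ℝ, 1 ≤ A → ∃ C : ℝ, 0 < C ∧
      ∀ F : Cn (n + 1) → ℝ, OmegaPsh n F → Nrm A F →
        ∫⁻ x, (ENNReal.ofReal (F x / ‖x‖)) ^ (-ε) ∂μ ≤ ENNReal.ofReal C := by
  obtain ⟨ε, hε, hε1, C, hC, hU⟩ := Unif_one h0 hm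
  refine ⟨ε, hε, hε1, fun A hA => ?_⟩
  have hA0 : 0 < A := by linarith
  have hAε : 0 < A ^ ε := Real.rpow_pos_of_pos hA0 _
  refine ⟨A ^ ε * C, by positivity, ?_⟩
  intro F hF hN
  obtain ⟨p, hp, hpos, hmax⟩ := omega_max hF
  have hMinv : 0 < (F p)⁻¹ := inv_pos.mpr hpos
  have hF' : OmegaPsh n (fun x => (F p)⁻¹ * F x) := omega_smul hF hMinv
  have hN' : Nrm 1 (fun x => (F p)⁻¹ * F x) := by
    constructor
    · intro x
      calc (F p)⁻¹ * F x ≤ (F p)⁻¹ * (F p * ‖x‖) := mul_le_mul_of_nonneg_left (hmax x) hMinv.le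
        _ = 1 * ‖x‖ := by rw [← mul_assoc, inv_mul_cancel₀ hpos.ne']
    · refine ⟨p, ?_, ?_⟩
      · intro h
        rw [h, norm_zero] at hp
        exact zero_ne_one hp
      · show (1 : ℝ)⁻¹ * ‖p‖ ≤ (F p)⁻¹ * F p
        rw [inv_mul_cancel₀ hpos.ne', hp]
        norm_num
  have hMA : (F p)⁻¹ ≤ A := by
    obtain ⟨x, hx, hge⟩ := hN.ge
    have hxn : 0 < ‖x‖ := norm_pos_iff.mpr hx
    have h1 : A⁻¹ * ‖x‖ ≤ F p * ‖x‖ := hge.trans (hmax x)
    have h2 : A⁻¹ ≤ F p := le_of_mul_le_mul_right h1 hxn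
    exact inv_le_of_inv_le₀ hA0 h2
  have hpt : ∀ x, (ENNReal.ofReal (F x / ‖x‖)) ^ (-ε) ≤
      ENNReal.ofReal (A ^ ε) * (ENNReal.ofReal (((F p)⁻¹ * F x) / ‖x‖)) ^ (-ε) := by
    intro x
    have h1 : ((F p)⁻¹ * F x) / ‖x‖ ≤ A * (F x / ‖x‖) := by
      rw [mul_div_assoc]
      exact mul_le_mul_of_nonneg_right hMA (div_nonneg (hF.psh.nonneg x) (norm_nonneg x))
    have h2 : ENNReal.ofReal (((F p)⁻¹ * F x) / ‖x‖) ≤
        ENNReal.ofReal A * ENNReal.ofReal (F x / ‖x‖) := by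
      rw [← ENNReal.ofReal_mul hA0.le]
      exact ENNReal.ofReal_le_ofReal h1
    have hA1 : ENNReal.ofReal A ≠ 0 := by
      rw [Ne, ENNReal.ofReal_eq_zero, not_le]
      exact hA0
    have hA2 : ENNReal.ofReal A ≠ ⊤ := ENNReal.ofReal_ne_top
    have h3 : (ENNReal.ofReal (F x / ‖x‖))⁻¹ ≤
        ENNReal.ofReal A * (ENNReal.ofReal (((F p)⁻¹ * F x) / ‖x‖))⁻¹ := by
      have h4 : (ENNReal.ofReal A * ENNReal.ofReal (F x / ‖x‖))⁻¹ ≤
          (ENNReal.ofReal (((F p)⁻¹ * F x) / ‖x‖))⁻¹ := ENNReal.inv_le_inv.mpr h2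
      rw [ENNReal.mul_inv (Or.inl hA1) (Or.inl hA2)] at h4
      calc (ENNReal.ofReal (F x / ‖x‖))⁻¹
          = ENNReal.ofReal A * ((ENNReal.ofReal A)⁻¹ * (ENNReal.ofReal (F x / ‖x‖))⁻¹) := by
            rw [← mul_assoc, ENNReal.mul_inv_cancel hA1 hA2, one_mul]
        _ ≤ _ := by gcongr
    rw [ENNReal.rpow_neg, ENNReal.rpow_neg, ← ENNReal.inv_rpow, ← ENNReal.inv_rpow,
      ← ENNReal.ofReal_rpow_of_pos hA0, ← ENNReal.mul_rpow_of_nonneg _ _ hε.le]
    exact ENNReal.rpow_le_rpow h3 hε.le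
  calc ∫⁻ x, (ENNReal.ofReal (F x / ‖x‖)) ^ (-ε) ∂μ
      ≤ ∫⁻ x, ENNReal.ofReal (A ^ ε) * (ENNReal.ofReal (((F p)⁻¹ * F x) / ‖x‖)) ^ (-ε) ∂μ :=
        lintegral_mono hpt
    _ = ENNReal.ofReal (A ^ ε) * ∫⁻ x, (ENNReal.ofReal (((F p)⁻¹ * F x) / ‖x‖)) ^ (-ε) ∂μ :=
        lintegral_const_mul' _ _ ENNReal.ofReal_ne_top
    _ ≤ ENNReal.ofReal (A ^ ε) * ENNReal.ofReal C := by
        gcongr
        exact hU _ hF' hN'
    _ = ENNReal.ofReal (A ^ ε * C) := (ENNReal.ofReal_mul hAε.le).symm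

end HMA

end S_MA_Unif

section S_KM_EnvA

/-! # Module EnvA: the envelope is plurisubharmonic -/

open MeasureTheory Metric Set
open scoped ENNReal Topology ContDiff ComplexOrder

namespace HMA

variable {n : ℕ} {Ω : Set (Cn n)} {u f v : Cn n → ℝ}

theorem le_envP (hv : EnvF Ω u f v) {z : Cn n} (hz : z ∈ Ω) : v z ≤ envP Ω u f z := by
  refine le_csSup ⟨f z, ?_⟩ ⟨v, hv, rfl⟩
  rintro t ⟨w, hw, rfl⟩
  exact hw.le z hz

theorem enva_self (hu : ContinuousOn u Ω) (hus : SubOn Ω u) (huf : ∀ z ∈ Ω, u z ≤ f z) :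
    EnvF Ω u f u :=
  ⟨hu.upperSemicontinuousOn, hus, huf, fun _ _ => le_rfl⟩

theorem enva_le_f (hu : ContinuousOn u Ω) (hus : SubOn Ω u) (huf : ∀ z ∈ Ω, u z ≤ f z)
    {z : Cn n} (hz : z ∈ Ω) : envP Ω u f z ≤ f z := by
  refine csSup_le ⟨u z, u, enva_self hu hus huf, rfl⟩ ?_
  rintro t ⟨w, hw, rfl⟩
  exact hw.le z hz

/-- upper semicontinuous regularisation -/
noncomputable def envaQ (Ω : Set (Cn n)) (u f : Cn n → ℝ) (z : Cn n) : ℝ :=
  sInf {y | ∀ᶠ w in 𝓝 z, w ∈ Ω → envP Ω u f w < y}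

theorem enva_bddBelow (hu : ContinuousOn u Ω) (hus : SubOn Ω u) (huf : ∀ z ∈ Ω, u z ≤ f z)
    {z : Cn n} (hz : z ∈ Ω) :
    BddBelow {y | ∀ᶠ w in 𝓝 z, w ∈ Ω → envP Ω u f w < y} := by
  refine ⟨envP Ω u f z, ?_⟩
  intro y hy
  exact (hy.self_of_nhds hz).le

theorem enva_nonempty (hΩ : IsOpen Ω) (hu : ContinuousOn u Ω) (hf : ContinuousOn f Ω)
    (hus : SubOn Ω u) (huf : ∀ z ∈ Ω, u z ≤ f z)
    {z : Cn n} (hz : z ∈ Ω) {c : ℝ} (hc : f z < c) :
    ∀ᶠ w in 𝓝 z, w ∈ Ω → envP Ω u f w < c := by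
  have h1 : ContinuousAt f z := hf.continuousAt (hΩ.mem_nhds hz)
  filter_upwards [h1.eventually_lt continuousAt_const hc] with w hw hwΩ
  exact lt_of_le_of_lt (enva_le_f hu hus huf hwΩ) hw

theorem enva_Q_le_f (hΩ : IsOpen Ω) (hu : ContinuousOn u Ω) (hf : ContinuousOn f Ω)
    (hus : SubOn Ω u) (huf : ∀ z ∈ Ω, u z ≤ f z)
    {z : Cn n} (hz : z ∈ Ω) : envaQ Ω u f z ≤ f z := by
  refine le_of_forall_gt_imp_ge_of_dense ?_
  intro c hc
  exact csInf_le (enva_bddBelow hu hus huf hz) (enva_nonempty hΩ hu hf hus huf hz hc)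

theorem enva_P_le_Q (hΩ : IsOpen Ω) (hu : ContinuousOn u Ω) (hf : ContinuousOn f Ω)
    (hus : SubOn Ω u) (huf : ∀ z ∈ Ω, u z ≤ f z)
    {z : Cn n} (hz : z ∈ Ω) : envP Ω u f z ≤ envaQ Ω u f z := by
  refine le_csInf ⟨f z + 1, enva_nonempty hΩ hu hf hus huf hz (by linarith)⟩ ?_
  intro y hy
  exact (hy.self_of_nhds hz).le

theorem enva_lt_of_Q_lt (hΩ : IsOpen Ω) (hu : ContinuousOn u Ω) (hf : ContinuousOn f Ω)
    (hus : SubOn Ω u) (huf : ∀ z ∈ Ω, u z ≤ f z)
    {z : Cn n} (hz : z ∈ Ω) {y : ℝ} (hy : envaQ Ω u f z < y) :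
    ∀ᶠ w in 𝓝 z, w ∈ Ω → envP Ω u f w < y := by
  obtain ⟨y', hy', hlt⟩ := exists_lt_of_csInf_lt
    ⟨f z + 1, enva_nonempty hΩ hu hf hus huf hz (by linarith)⟩ hy
  filter_upwards [hy'] with w hw hwΩ
  exact (hw hwΩ).trans hlt

theorem enva_Q_usc (hΩ : IsOpen Ω) (hu : ContinuousOn u Ω) (hf : ContinuousOn f Ω)
    (hus : SubOn Ω u) (huf : ∀ z ∈ Ω, u z ≤ f z) : UpperSemicontinuousOn (envaQ Ω u f) Ω := by
  intro z hz y hy
  obtain ⟨y', h1, h2⟩ := exists_between hy
  have h3 := enva_lt_of_Q_lt hΩ hu hf hus huf hz h1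
  rw [eventually_nhdsWithin_iff]
  filter_upwards [h3.eventually_nhds] with w hw hwΩ
  exact lt_of_le_of_lt (csInf_le (enva_bddBelow hu hus huf hwΩ) hw) h2

/-- an upper semicontinuous function along a continuous curve -/
theorem enva_usc_comp (w : Cn n → ℝ) (hw : UpperSemicontinuousOn w Ω) {c : ℝ → Cn n}
    (hc : Continuous c) (hcΩ : ∀ θ, c θ ∈ Ω) : UpperSemicontinuous (fun θ => w (c θ)) := by
  intro θ y hy
  have h1 := hw (c θ) (hcΩ θ) y hy
  have h2 : Filter.Tendsto c (𝓝 θ) (𝓝[Ω] (c θ)) :=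
    tendsto_nhdsWithin_iff.2 ⟨hc.continuousAt, Filter.Eventually.of_forall hcΩ⟩
  exact h2.eventually h1

theorem enva_curve (a b : Cn n) :
    Continuous (fun θ : ℝ => a + Complex.exp (θ * Complex.I) • b) := by
  fun_prop

theorem enva_norm (θ : ℝ) : ‖Complex.exp (θ * Complex.I)‖ = 1 :=
  Complex.norm_exp_ofReal_mul_I θ

theorem enva_intble (w : Cn n → ℝ) (hw : UpperSemicontinuousOn w Ω) {a b : Cn n}
    (hcΩ : ∀ θ : ℝ, a + Complex.exp (θ * Complex.I) • b ∈ Ω) {M : ℝ}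
    (hM : ∀ θ : ℝ, |w (a + Complex.exp (θ * Complex.I) • b)| ≤ M) (x y : ℝ) :
    IntervalIntegrable (fun θ : ℝ => w (a + Complex.exp (θ * Complex.I) • b)) volume x y := by
  have h1 := (enva_usc_comp w hw (enva_curve a b) hcΩ).measurable
  refine ⟨?_, ?_⟩ <;>
  · refine Measure.integrableOn_of_bounded (M := M) (by simp) h1.aestronglyMeasurable ?_
    exact Filter.Eventually.of_forall fun θ => by simpa using hM θ

theorem enva_exists_seq (hΩ : IsOpen Ω) (hu : ContinuousOn u Ω) (hf : ContinuousOn f Ω)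
    (hus : SubOn Ω u) (huf : ∀ z ∈ Ω, u z ≤ f z) {a : Cn n} (ha : a ∈ Ω) {ε : ℝ} (hε : 0 < ε) :
    ∃ a' ∈ Ω, ‖a' - a‖ < ε ∧ ∃ w, EnvF Ω u f w ∧ envaQ Ω u f a - ε < w a' := by
  by_contra hcon
  push Not at hcon
  have h1 : ∀ᶠ w in 𝓝 a, w ∈ Ω → envP Ω u f w < envaQ Ω u f a - ε / 2 := by
    filter_upwards [Metric.ball_mem_nhds a hε] with z hz hzΩ
    have h2 : envP Ω u f z ≤ envaQ Ω u f a - ε := by
      refine csSup_le ⟨u z, u, enva_self hu hus huf, rfl⟩ ?_
      rintro t ⟨w, hw, rfl⟩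
      exact hcon z hzΩ (by simpa [dist_eq_norm] using hz) w hw
    linarith
  have h2 : envaQ Ω u f a ≤ envaQ Ω u f a - ε / 2 :=
    csInf_le (enva_bddBelow hu hus huf ha) h1
  linarith

theorem enva_key (hΩ : IsOpen Ω) {Q : Cn n → ℝ} (hQ : UpperSemicontinuousOn Q Ω) {a b : Cn n}
    {A : ℕ → Cn n} (hA : Filter.Tendsto A Filter.atTop (𝓝 a)) {M : ℝ}
    (hc : ∀ θ : ℝ, a + Complex.exp (θ * Complex.I) • b ∈ Ω)
    (hcA : ∀ k, ∀ θ : ℝ, A k + Complex.exp (θ * Complex.I) • b ∈ Ω)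
    (hM : ∀ θ : ℝ, |Q (a + Complex.exp (θ * Complex.I) • b)| ≤ M)
    (hMA : ∀ k, ∀ θ : ℝ, |Q (A k + Complex.exp (θ * Complex.I) • b)| ≤ M)
    {t : ℝ} {s : ℕ → ℝ} (hs : Filter.Tendsto s Filter.atTop (𝓝 t))
    (h : ∀ k, s k ≤ (2 * Real.pi)⁻¹ *
      ∫ θ in (0 : ℝ)..(2 * Real.pi), Q (A k + Complex.exp (θ * Complex.I) • b)) :
    t ≤ (2 * Real.pi)⁻¹ *
      ∫ θ in (0 : ℝ)..(2 * Real.pi), Q (a + Complex.exp (θ * Complex.I) • b) := by
  have hpi : 0 < 2 * Real.pi := by positivity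
  have hM0 : 0 ≤ M := (abs_nonneg _).trans (hM 0)
  set F : ℕ → ℝ → ℝ≥0∞ := fun k θ =>
    ENNReal.ofReal (Q (A k + Complex.exp (θ * Complex.I) • b) + M) with hF
  set G : ℝ → ℝ≥0∞ := fun θ =>
    ENNReal.ofReal (Q (a + Complex.exp (θ * Complex.I) • b) + M) with hG
  -- integrals as lower integrals
  have key : ∀ a' : Cn n, (∀ θ : ℝ, a' + Complex.exp (θ * Complex.I) • b ∈ Ω) →
      (∀ θ : ℝ, |Q (a' + Complex.exp (θ * Complex.I) • b)| ≤ M) →
      ∫⁻ θ in Set.Ioc 0 (2 * Real.pi),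
        ENNReal.ofReal (Q (a' + Complex.exp (θ * Complex.I) • b) + M) =
      ENNReal.ofReal ((∫ θ in (0 : ℝ)..(2 * Real.pi),
        Q (a' + Complex.exp (θ * Complex.I) • b)) + 2 * Real.pi * M) := by
    intro a' h1 h2
    have h3 := enva_intble Q hQ h1 h2 0 (2 * Real.pi)
    have h4 : IntegrableOn (fun θ : ℝ => Q (a' + Complex.exp (θ * Complex.I) • b) + M)
        (Set.Ioc 0 (2 * Real.pi)) volume := by
      have := h3.1
      exact this.add (integrableOn_const measure_Ioc_lt_top.ne)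
    rw [← ofReal_integral_eq_lintegral_ofReal h4]
    · congr 1
      rw [← intervalIntegral.integral_of_le hpi.le, intervalIntegral.integral_add h3
        (by simp)]
      simp
    · refine Filter.Eventually.of_forall fun θ => ?_
      have := (abs_le.1 (h2 θ)).1
      simp only [Pi.zero_apply]
      linarith
  have hmeas : ∀ k, Measurable (F k) := fun k =>
    ((enva_usc_comp Q hQ (enva_curve (A k) b) (hcA k)).measurable.add_const M).ennreal_ofReal
  have h1 : Filter.limsup (fun k => ∫⁻ θ in Set.Ioc 0 (2 * Real.pi), F k θ) Filter.atTop ≤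
      ∫⁻ θ in Set.Ioc 0 (2 * Real.pi), Filter.limsup (fun k => F k θ) Filter.atTop := by
    refine limsup_lintegral_le (fun _ => ENNReal.ofReal (2 * M)) hmeas ?_ ?_
    · intro k
      refine Filter.Eventually.of_forall fun θ => ?_
      refine ENNReal.ofReal_le_ofReal ?_
      have := (abs_le.1 (hMA k θ)).2
      linarith
    · simp [ENNReal.mul_eq_top]
  have h2 : ∫⁻ θ in Set.Ioc 0 (2 * Real.pi), Filter.limsup (fun k => F k θ) Filter.atTop ≤
      ∫⁻ θ in Set.Ioc 0 (2 * Real.pi), G θ := by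
    refine lintegral_mono fun θ => ?_
    have h3 : ∀ y : ℝ, Q (a + Complex.exp (θ * Complex.I) • b) < y →
        Filter.limsup (fun k => F k θ) Filter.atTop ≤ ENNReal.ofReal (y + M) := by
      intro y hy
      refine Filter.limsup_le_of_le (by isBoundedDefault) ?_
      have h4 := hQ _ (hc θ) y hy
      have h5 : Filter.Tendsto (fun k => A k + Complex.exp (θ * Complex.I) • b) Filter.atTop
          (𝓝[Ω] (a + Complex.exp (θ * Complex.I) • b)) := by
        refine tendsto_nhdsWithin_iff.2 ⟨hA.add_const _, ?_⟩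
        exact Filter.Eventually.of_forall fun k => hcA k θ
      filter_upwards [h5.eventually h4] with k hk
      exact ENNReal.ofReal_le_ofReal (by linarith)
    have h6 : Filter.Tendsto (fun y : ℝ => ENNReal.ofReal (y + M))
        (𝓝[>] (Q (a + Complex.exp (θ * Complex.I) • b))) (𝓝 (G θ)) := by
      have : ContinuousAt (fun y : ℝ => ENNReal.ofReal (y + M))
          (Q (a + Complex.exp (θ * Complex.I) • b)) :=
        (ENNReal.continuous_ofReal.comp (continuous_id.add continuous_const)).continuousAt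
      exact this.tendsto.mono_left nhdsWithin_le_nhds
    refine ge_of_tendsto h6 ?_
    filter_upwards [self_mem_nhdsWithin] with y hy
    exact h3 y hy
  have h7 := h1.trans h2
  rw [key a hc hM] at h7
  have h8 : Filter.limsup (fun k => ENNReal.ofReal (2 * Real.pi * s k + 2 * Real.pi * M))
      Filter.atTop ≤ Filter.limsup (fun k => ∫⁻ θ in Set.Ioc 0 (2 * Real.pi), F k θ)
      Filter.atTop := by
    refine Filter.limsup_le_limsup (Filter.Eventually.of_forall fun k => ?_)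
      (by isBoundedDefault) (by isBoundedDefault)
    simp only [hF]
    rw [key (A k) (hcA k) (hMA k)]
    refine ENNReal.ofReal_le_ofReal ?_
    have := h k
    rw [inv_mul_eq_div, le_div_iff₀ hpi] at this
    linarith
  have h9 : Filter.Tendsto (fun k => ENNReal.ofReal (2 * Real.pi * s k + 2 * Real.pi * M))
      Filter.atTop (𝓝 (ENNReal.ofReal (2 * Real.pi * t + 2 * Real.pi * M))) :=
    ENNReal.tendsto_ofReal ((hs.const_mul _).add_const _)
  rw [h9.limsup_eq] at h8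
  have h10 := h8.trans h7
  have h11 : 0 ≤ (∫ θ in (0 : ℝ)..(2 * Real.pi),
      Q (a + Complex.exp (θ * Complex.I) • b)) + 2 * Real.pi * M := by
    have h12 := enva_intble Q hQ hc hM 0 (2 * Real.pi)
    have h13 : ∫ θ in (0 : ℝ)..(2 * Real.pi), (-M : ℝ) ≤ ∫ θ in (0 : ℝ)..(2 * Real.pi),
        Q (a + Complex.exp (θ * Complex.I) • b) := by
      refine intervalIntegral.integral_mono_on hpi.le (by simp) h12 ?_
      intro θ _
      exact (abs_le.1 (hM θ)).1
    simp at h13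
    linarith
  rw [ENNReal.ofReal_le_ofReal_iff h11] at h10
  rw [inv_mul_eq_div, le_div_iff₀ hpi]
  linarith

theorem envP_mem (hΩ : IsOpen Ω) (hu : ContinuousOn u Ω) (hf : ContinuousOn f Ω)
    (hus : SubOn Ω u) (huf : ∀ z ∈ Ω, u z ≤ f z) : EnvF Ω u f (envP Ω u f) := by
  have hQu : UpperSemicontinuousOn (envaQ Ω u f) Ω := enva_Q_usc hΩ hu hf hus huf
  have huP : ∀ z ∈ Ω, u z ≤ envP Ω u f z := fun z hz => le_envP (enva_self hu hus huf) hz
  have hPQ : ∀ z ∈ Ω, envP Ω u f z ≤ envaQ Ω u f z :=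
    fun z hz => enva_P_le_Q hΩ hu hf hus huf hz
  have hQf : ∀ z ∈ Ω, envaQ Ω u f z ≤ f z := fun z hz => enva_Q_le_f hΩ hu hf hus huf hz
  -- bounds on compact sets
  have hbd : ∀ L ⊆ Ω, IsCompact L → ∃ M : ℝ, ∀ z ∈ L, -M ≤ u z ∧ f z ≤ M := by
    intro L hL hLc
    obtain ⟨M1, hM1⟩ := hLc.exists_bound_of_continuousOn (hu.mono hL)
    obtain ⟨M2, hM2⟩ := hLc.exists_bound_of_continuousOn (hf.mono hL)
    refine ⟨max M1 M2, fun z hz => ⟨?_, ?_⟩⟩
    · have := (abs_le.1 (hM1 z hz)).1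
      have := le_max_left M1 M2
      linarith
    · have := (abs_le.1 (hM2 z hz)).2
      have := le_max_right M1 M2
      linarith
  have hsub : SubOn Ω (envaQ Ω u f) := by
    refine loc_glob hΩ hQu ?_ ?_
    · intro L hL hLc
      obtain ⟨M, hM⟩ := hbd L hL hLc
      refine ⟨M, fun z hz => ?_⟩
      exact (hM z hz).1.trans ((huP z (hL hz)).trans (hPQ z (hL hz)))
    · intro a ha
      obtain ⟨R, hR, hRΩ⟩ := Metric.isOpen_iff.1 hΩ a ha
      refine ⟨R / 4, by positivity, fun b hb => ?_⟩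
      have hL : closedBall a (R / 2) ⊆ Ω :=
        (Metric.closedBall_subset_ball (by linarith)).trans hRΩ
      obtain ⟨M, hM⟩ := hbd _ hL (isCompact_closedBall a (R / 2))
      have hmem : ∀ a' : Cn n, ‖a' - a‖ ≤ R / 4 → ∀ θ : ℝ,
          a' + Complex.exp (θ * Complex.I) • b ∈ closedBall a (R / 2) := by
        intro a' ha' θ
        rw [mem_closedBall, dist_eq_norm]
        have h1 : a' + Complex.exp (θ * Complex.I) • b - a =
            (a' - a) + Complex.exp (θ * Complex.I) • b := by abel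
        rw [h1]
        refine (norm_add_le _ _).trans ?_
        rw [norm_smul, enva_norm, one_mul]
        linarith
      have hbQ : ∀ z ∈ closedBall a (R / 2), |envaQ Ω u f z| ≤ M := by
        intro z hz
        rw [abs_le]
        exact ⟨(hM z hz).1.trans ((huP z (hL hz)).trans (hPQ z (hL hz))),
          (hQf z (hL hz)).trans (hM z hz).2⟩
      have hex : ∀ k : ℕ, ∃ a' ∈ Ω, ‖a' - a‖ < min (R / 4) (1 / (k + 1)) ∧
          ∃ w, EnvF Ω u f w ∧ envaQ Ω u f a - min (R / 4) (1 / (k + 1)) < w a' := by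
        intro k
        exact enva_exists_seq hΩ hu hf hus huf ha (by positivity)
      choose A hAΩ hA w hw hwA using hex
      have hA0 : ∀ k, ‖A k - a‖ ≤ R / 4 := fun k => (hA k).le.trans (min_le_left _ _)
      have hAt : Filter.Tendsto A Filter.atTop (𝓝 a) := by
        rw [tendsto_iff_norm_sub_tendsto_zero]
        refine squeeze_zero (fun _ => norm_nonneg _)
          (fun k => (hA k).le.trans (min_le_right _ _)) tendsto_one_div_add_atTop_nhds_zero_nat
      have hs : Filter.Tendsto (fun k : ℕ => envaQ Ω u f a - 1 / ((k : ℝ) + 1)) Filter.atTop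
          (𝓝 (envaQ Ω u f a)) := by
        simpa using tendsto_one_div_add_atTop_nhds_zero_nat.const_sub (envaQ Ω u f a)
      refine enva_key hΩ hQu hAt (M := M) (fun θ => hL (hmem a (by simp; positivity) θ))
        (fun k θ => hL (hmem (A k) (hA0 k) θ)) (fun θ => hbQ _ (hmem a (by simp; positivity) θ))
        (fun k θ => hbQ _ (hmem (A k) (hA0 k) θ)) hs ?_
      intro k
      have hdisc : ∀ ζ : ℂ, ‖ζ‖ ≤ 1 → A k + ζ • b ∈ Ω := by
        intro ζ hζ
        refine hL ?_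
        rw [mem_closedBall, dist_eq_norm]
        have h1 : A k + ζ • b - a = (A k - a) + ζ • b := by abel
        rw [h1]
        refine (norm_add_le _ _).trans ?_
        rw [norm_smul]
        have := hA0 k
        have h2 : ‖ζ‖ * ‖b‖ ≤ 1 * (R / 4) := by gcongr
        linarith
      have h1 := (hw k).sub (A k) b hdisc
      have h2 : envaQ Ω u f a - 1 / ((k : ℝ) + 1) ≤ w k (A k) := by
        have := hwA k
        have := min_le_right (R / 4) (1 / ((k : ℝ) + 1))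
        linarith
      refine h2.trans (h1.trans ?_)
      have hmk := hmem (A k) (hA0 k)
      refine mul_le_mul_of_nonneg_left ?_ (by positivity)
      refine intervalIntegral.integral_mono_on (by positivity) ?_ ?_ ?_
      · refine enva_intble (w k) (hw k).usc (fun θ => hL (hmk θ)) (M := M) ?_ _ _
        intro θ
        rw [abs_le]
        exact ⟨(hM _ (hmk θ)).1.trans ((hw k).ge _ (hL (hmk θ))),
          ((hw k).le _ (hL (hmk θ))).trans (hM _ (hmk θ)).2⟩
      · exact enva_intble _ hQu (fun θ => hL (hmk θ)) (fun θ => hbQ _ (hmk θ)) _ _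
      · intro θ _
        exact (le_envP (hw k) (hL (hmk θ))).trans (hPQ _ (hL (hmk θ)))
  have hQmem : EnvF Ω u f (envaQ Ω u f) :=
    ⟨hQu, hsub, hQf, fun z hz => (huP z hz).trans (hPQ z hz)⟩
  have heq : ∀ z ∈ Ω, envP Ω u f z = envaQ Ω u f z := fun z hz =>
    le_antisymm (hPQ z hz) (le_envP hQmem hz)
  refine ⟨?_, ?_, fun z hz => (heq z hz).trans_le (hQf z hz), huP⟩
  · intro z hz y hy
    rw [heq z hz] at hy
    filter_upwards [hQu z hz y hy, self_mem_nhdsWithin] with w hw hwΩ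
    rw [heq w hwΩ]
    exact hw
  · intro a b hab
    have h0 : a ∈ Ω := by simpa using hab 0 (by simp)
    rw [heq a h0]
    refine (hsub a b hab).trans (le_of_eq ?_)
    congr 1
    refine intervalIntegral.integral_congr fun θ _ => ?_
    exact (heq _ (hab _ (enva_norm θ).le)).symm

end HMA

end S_KM_EnvA
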