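import Mathlib
import Pool.Agent.H85.MG.G2a
import Pool.Agent.H85.MG.G3a
import Pool.Agent.H85.MG.G3c

/-! Moderate measures and Hölder continuous potentials, part G4a: this file joins several modules to save build time. -/

section S_KM_C11M

/-! # Module C11M: mollification of `C^{1,1}` functions -/

open MeasureTheory Metric Set
open scoped ENNReal Topology ContDiff ComplexOrder Convolution

namespace HMA

section C11MAux

variable {n : ℕ} {F : Type} [NormedAddCommGroup F] [NormedSpace ℝ F]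

/-- convolution with the mollifier -/
noncomputable def C11M_c (k : ℕ) (g : Cn n → F) : Cn n → F :=
  Moll_eta n k ⋆[ContinuousLinearMap.lsmul ℝ ℝ, volume] g

theorem C11M_c_eq (k : ℕ) (g : Cn n → F) (z : Cn n) :
    C11M_c k g z = ∫ t, Moll_eta n k t • g (z - t) := rfl

theorem C11M_smooth [CompleteSpace F] (k : ℕ) {g : Cn n → F} (hg : LocallyIntegrable g volume) :
    ContDiff ℝ ∞ (C11M_c k g) :=
  (Moll_eta_supp k).contDiff_convolution_left _ (Moll_eta_smooth k) hg

theorem C11M_eta_int (k : ℕ) : ∫ t, Moll_eta n k t = 1 :=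
  (Moll_bump n k).integral_normed

theorem C11M_eta_integrable (k : ℕ) : Integrable (Moll_eta n k) volume :=
  (Moll_eta_smooth k).continuous.integrable_of_hasCompactSupport (Moll_eta_supp k)

theorem C11M_norm_le (k : ℕ) {g : Cn n → F} {C : ℝ} (hg : ∀ z, ‖g z‖ ≤ C) (z : Cn n) :
    ‖C11M_c k g z‖ ≤ C := by
  rw [C11M_c_eq]
  have h : ∀ t, ‖Moll_eta n k t • g (z - t)‖ ≤ Moll_eta n k t * C := by
    intro t
    rw [norm_smul, Real.norm_of_nonneg (Moll_eta_nonneg k t)]
    exact mul_le_mul_of_nonneg_left (hg _) (Moll_eta_nonneg k t)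
  calc ‖∫ t, Moll_eta n k t • g (z - t)‖ ≤ ∫ t, Moll_eta n k t * C :=
        norm_integral_le_of_norm_le ((C11M_eta_integrable k).mul_const C)
          (Filter.Eventually.of_forall h)
    _ = C := by rw [integral_mul_const, C11M_eta_int, one_mul]

/-- derivative of the convolution with a Lipschitz function -/
theorem C11M_deriv [FiniteDimensional ℝ F] (k : ℕ) {g : Cn n → F} {C : NNReal}
    (hg : LipschitzWith C g) (z : Cn n) :
    HasFDerivAt (C11M_c k g) (C11M_c k (fderiv ℝ g) z) z := by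
  have hgc : Continuous g := hg.continuous
  have hηc : Continuous (Moll_eta n k) := (Moll_eta_smooth k).continuous
  have hc : ∀ x : Cn n, Continuous fun t => Moll_eta n k t • g (x - t) := fun x =>
    hηc.smul (hgc.comp (continuous_const.sub continuous_id))
  have hcs : ∀ x : Cn n, HasCompactSupport fun t => Moll_eta n k t • g (x - t) := fun x =>
    (Moll_eta_supp k).smul_right
  have hae : ∀ᵐ t : Cn n, DifferentiableAt ℝ g (z - t) :=
    (quasiMeasurePreserving_sub_left volume z).ae hg.ae_differentiableAt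
  have hmeas : Measurable fun t : Cn n => fderiv ℝ g (z - t) :=
    (measurable_fderiv ℝ g).comp (measurable_const.sub measurable_id)
  have key := hasFDerivAt_integral_of_dominated_loc_of_lip (μ := (volume : Measure (Cn n)))
    (𝕜 := ℝ) (F := fun x t => Moll_eta n k t • g (x - t))
    (F' := fun t => Moll_eta n k t • fderiv ℝ g (z - t)) (x₀ := z)
    (bound := fun t => Moll_eta n k t * C) (s := univ) Filter.univ_mem
    (Filter.Eventually.of_forall fun x => (hc x).aestronglyMeasurable)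
    ((hc z).integrable_of_hasCompactSupport (hcs z))
    (hηc.aestronglyMeasurable.smul hmeas.aestronglyMeasurable)
    (Filter.Eventually.of_forall fun t => ?_) ((C11M_eta_integrable k).mul_const _) ?_
  · exact key.2
  · refine LipschitzOnWith.of_dist_le_mul fun x _ y _ => ?_
    rw [dist_eq_norm, ← smul_sub, norm_smul, Real.coe_nnabs, abs_mul, mul_assoc,
      ← Real.norm_eq_abs]
    refine mul_le_mul_of_nonneg_left ?_ (norm_nonneg _)
    rw [NNReal.abs_eq, ← dist_eq_norm]
    refine (hg.dist_le_mul _ _).trans (le_of_eq ?_)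
    rw [dist_sub_right]
  · filter_upwards [hae] with t ht
    have h1 : HasFDerivAt (fun x => x - t) (ContinuousLinearMap.id ℝ (Cn n)) z :=
      (hasFDerivAt_id z).sub_const t
    have h2 := (ht.hasFDerivAt.comp z h1).const_smul (Moll_eta n k t)
    rw [ContinuousLinearMap.comp_id] at h2
    exact h2

theorem C11M_lip {u : Cn n → ℝ} (hu : C11 univ u) (hc : HasCompactSupport u) :
    ∃ C : NNReal, LipschitzWith C (fderiv ℝ u) := by
  obtain ⟨R, hR⟩ := hc.isCompact.isBounded.subset_closedBall (0 : Cn n)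
  have hz : ∀ x : Cn n, R < ‖x‖ → fderiv ℝ u x = 0 := by
    intro x hx
    by_contra hne
    have h1 : x ∈ tsupport u := support_fderiv_subset ℝ (Function.mem_support.2 hne)
    have h2 := hR h1
    rw [mem_closedBall_zero_iff] at h2
    linarith
  obtain ⟨C, hC⟩ := hu.lip (closedBall 0 (R + 1)) (isCompact_closedBall _ _) (subset_univ _)
  obtain ⟨B, hB⟩ : ∃ B : NNReal, ∀ x : Cn n, ‖x‖ ≤ R → ‖fderiv ℝ u x‖ ≤ B := by
    have hcont : ContinuousOn (fderiv ℝ u) (closedBall 0 R) :=
      hC.continuousOn.mono (closedBall_subset_closedBall (by linarith))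
    obtain ⟨B, hB⟩ := (isCompact_closedBall (0 : Cn n) R).exists_bound_of_continuousOn hcont
    refine ⟨B.toNNReal, fun x hx => ?_⟩
    exact (hB x (mem_closedBall_zero_iff.2 hx)).trans (Real.le_coe_toNNReal B)
  have main : ∀ x y : Cn n, ‖x‖ ≤ R + 1 → R + 1 < ‖y‖ →
      dist (fderiv ℝ u x) (fderiv ℝ u y) ≤ B * dist x y := by
    intro x y hx hy
    rw [hz y (by linarith), dist_zero_right]
    by_cases hxR : ‖x‖ ≤ R
    · have h1 : 1 ≤ dist x y := by
        rw [dist_eq_norm]
        have := norm_sub_norm_le y x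
        rw [norm_sub_rev] at this
        linarith
      calc ‖fderiv ℝ u x‖ ≤ B := hB x hxR
        _ = B * 1 := (mul_one _).symm
        _ ≤ B * dist x y := mul_le_mul_of_nonneg_left h1 B.2
    · rw [hz x (not_le.1 hxR), norm_zero]
      positivity
  refine ⟨max C B, LipschitzWith.of_dist_le_mul fun x y => ?_⟩
  have hC' : (C : ℝ) ≤ (max C B : NNReal) := by exact_mod_cast le_max_left C B
  have hB' : (B : ℝ) ≤ (max C B : NNReal) := by exact_mod_cast le_max_right C B
  by_cases hx : ‖x‖ ≤ R + 1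
  · by_cases hy : ‖y‖ ≤ R + 1
    · refine (hC.dist_le_mul x (mem_closedBall_zero_iff.2 hx) y
        (mem_closedBall_zero_iff.2 hy)).trans ?_
      exact mul_le_mul_of_nonneg_right hC' dist_nonneg
    · refine (main x y hx (not_le.1 hy)).trans ?_
      exact mul_le_mul_of_nonneg_right hB' dist_nonneg
  · by_cases hy : ‖y‖ ≤ R + 1
    · rw [dist_comm, dist_comm x y]
      refine (main y x hy (not_le.1 hx)).trans ?_
      exact mul_le_mul_of_nonneg_right hB' dist_nonneg
    · rw [hz x (by linarith [not_le.1 hx]), hz y (by linarith [not_le.1 hy]), dist_self]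
      positivity

theorem C11M_lip0 {u : Cn n → ℝ} (hu : C11 univ u) (hc : HasCompactSupport u) :
    ∃ C : NNReal, LipschitzWith C u := by
  obtain ⟨C, hC⟩ := C11M_lip hu hc
  have hcs : HasCompactSupport (fderiv ℝ u) := hc.fderiv ℝ
  obtain ⟨B, hB⟩ := hcs.exists_bound_of_continuous hC.continuous
  refine ⟨B.toNNReal, ?_⟩
  refine lipschitzWith_of_nnnorm_fderiv_le (𝕜 := ℝ) (fun z => hu.diff z (mem_univ z)) fun z => ?_
  rw [← NNReal.coe_le_coe]
  exact (hB z).trans (Real.le_coe_toNNReal B)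

theorem C11M_zero (k : ℕ) {g : Cn n → F} {R : ℝ} (hg : ∀ z, R < ‖z‖ → g z = 0) {z : Cn n}
    (hz : R + 1 < ‖z‖) : C11M_c k g z = 0 := by
  rw [C11M_c_eq]
  have : ∀ t, Moll_eta n k t • g (z - t) = 0 := by
    intro t
    by_cases ht : 1 ≤ ‖t‖
    · rw [Moll_eta_zero' k ht, zero_smul]
    · rw [hg, smul_zero]
      have := norm_sub_norm_le z t
      linarith
  simp [this]

theorem C11M_ae [CompleteSpace F] {g : Cn n → F} {C : ℝ} (hg : ∀ z, ‖g z‖ ≤ C)
    (hm : AEStronglyMeasurable g volume) :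
    ∀ᵐ z : Cn n, Filter.Tendsto (fun k => C11M_c k g z) Filter.atTop (𝓝 (g z)) := by
  have hli : LocallyIntegrable g volume := by
    rw [locallyIntegrable_iff]
    intro K hK
    exact Measure.integrableOn_of_bounded hK.measure_lt_top.ne hm
      (Filter.Eventually.of_forall hg)
  refine ContDiffBump.ae_convolution_tendsto_right_of_locallyIntegrable
    (μ := (volume : Measure (Cn n))) (φ := fun k => Moll_bump n k) (l := Filter.atTop) (K := 2)
    (g := g) ?_ ?_ hli
  · exact tendsto_one_div_add_atTop_nhds_zero_nat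
  · refine Filter.Eventually.of_forall fun k => ?_
    change 1 / ((k : ℝ) + 1) ≤ 2 * (1 / (2 * ((k : ℝ) + 1)))
    have h5 : (0 : ℝ) < (k : ℝ) + 1 := by positivity
    rw [mul_one_div, div_le_div_iff₀ h5 (by positivity)]
    linarith

end C11MAux

theorem c11_moll {n : ℕ} {u : Cn n → ℝ} (hu : C11 univ u) (hc : HasCompactSupport u) :
    ∃ U : ℕ → Cn n → ℝ, (∀ k, ContDiff ℝ ∞ (U k) ∧ HasCompactSupport (U k)) ∧
      (∃ R : ℝ, ∀ k z, R < ‖z‖ → U k z = 0) ∧
      (∀ ε > 0, ∃ k₀ : ℕ, ∀ k ≥ k₀, ∀ z, |U k z - u z| ≤ ε) ∧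
      (∃ C : ℝ, ∀ k z, ‖hes (U k) z‖ ≤ C) ∧
      (∀ᵐ z, Filter.Tendsto (fun k => hes (U k) z) Filter.atTop (𝓝 (hes u z))) := by
  obtain ⟨C0, hC0⟩ := C11M_lip0 hu hc
  obtain ⟨C1, hC1⟩ := C11M_lip hu hc
  obtain ⟨R, hR⟩ := hc.isCompact.isBounded.subset_closedBall (0 : Cn n)
  have hz : ∀ x : Cn n, R < ‖x‖ → u x = 0 := by
    intro x hx
    by_contra hne
    have h2 := hR (subset_tsupport u (Function.mem_support.2 hne))
    rw [mem_closedBall_zero_iff] at h2
    linarith
  have hzero : ∀ k z, R + 1 < ‖z‖ → C11M_c k u z = 0 := fun k z h => C11M_zero k hz h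
  have hfd : ∀ k, fderiv ℝ (C11M_c k u) = C11M_c k (fderiv ℝ u) := by
    intro k
    funext z
    exact (C11M_deriv k hC0 z).fderiv
  have hhes : ∀ k z, hes (C11M_c k u) z = C11M_c k (hes u) z := by
    intro k z
    unfold hes
    rw [hfd k]
    exact (C11M_deriv k hC1 z).fderiv
  have hbd : ∀ z, ‖hes u z‖ ≤ C1 := fun z => norm_fderiv_le_of_lipschitz ℝ hC1
  refine ⟨fun k => C11M_c k u, fun k => ⟨?_, ?_⟩, ⟨R + 1, hzero⟩, ?_, ⟨C1, ?_⟩, ?_⟩
  · exact C11M_smooth k hC0.continuous.locallyIntegrable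
  · refine HasCompactSupport.intro (isCompact_closedBall (0 : Cn n) (R + 1)) fun z hz' => ?_
    refine hzero k z ?_
    rw [mem_closedBall_zero_iff] at hz'
    exact not_le.1 hz'
  · intro ε hε
    obtain ⟨k₀, hk₀⟩ := exists_nat_ge ((C0 : ℝ) / ε)
    refine ⟨k₀, fun k hk z => ?_⟩
    have h1 : dist (C11M_c k u z) (u z) ≤ ε := by
      apply (Moll_bump n k).dist_normed_convolution_le hC0.continuous.aestronglyMeasurable
      intro x hx
      rw [mem_ball] at hx
      have h2 : dist x z < 1 / ((k : ℝ) + 1) := hx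
      refine (hC0.dist_le_mul x z).trans ?_
      have h3 : (C0 : ℝ) / ε ≤ (k : ℝ) := hk₀.trans (by exact_mod_cast hk)
      have h4 : (C0 : ℝ) ≤ k * ε := by rwa [div_le_iff₀ hε] at h3
      have h5 : (0 : ℝ) < (k : ℝ) + 1 := by positivity
      have h6 : (0 : ℝ) ≤ C0 := C0.2
      calc (C0 : ℝ) * dist x z ≤ C0 * (1 / ((k : ℝ) + 1)) := mul_le_mul_of_nonneg_left h2.le h6
        _ ≤ ε := by
          rw [mul_one_div, div_le_iff₀ h5]
          nlinarith
    rwa [Real.dist_eq] at h1
  · intro k z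
    change ‖hes (C11M_c k u) z‖ ≤ C1
    rw [hhes k z]
    exact C11M_norm_le k hbd z
  · have hmeas : Measurable (hes u) := measurable_fderiv ℝ (fderiv ℝ u)
    filter_upwards [C11M_ae (F := Cn n →L[ℝ] Cn n →L[ℝ] ℝ) (g := hes u) hbd
      hmeas.aestronglyMeasurable] with z hz
    refine hz.congr fun k => ?_
    exact (hhes k z).symm

end HMA

end S_KM_C11M

section S_KM_Sub11

/-! # Module Sub11: sub-mean value property and positivity of the Levi matrix -/

open MeasureTheory Metric Set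
open scoped ENNReal Topology ContDiff ComplexOrder

namespace HMA

variable {n : ℕ} {Ω : Set (Cn n)} {u : Cn n → ℝ}

/-- rotated vectors -/
theorem sub11_rot (θ : ℝ) (ξ : Cn n) : Complex.exp (θ * Complex.I) • ξ =
    Real.cos θ • ξ + Real.sin θ • (Complex.I • ξ) := by
  rw [Complex.exp_mul_I, add_smul, ← Complex.ofReal_cos, ← Complex.ofReal_sin, mul_smul]
  rfl

theorem sub11_rot_norm (θ : ℝ) (ξ : Cn n) : ‖Complex.exp (θ * Complex.I) • ξ‖ = ‖ξ‖ := by
  rw [norm_smul, Complex.norm_exp_ofReal_mul_I, one_mul]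

/-- second order Taylor formula with Peano remainder -/
theorem sub11_taylor {z : Cn n} (h : TwD u z) {ε : ℝ} (hε : 0 < ε) :
    ∃ δ > 0, ∀ η : Cn n, ‖η‖ ≤ δ →
      |u (z + η) - u z - fderiv ℝ u z η - hes u z η η / 2| ≤ ε * ‖η‖ ^ 2 := by
  obtain ⟨h1, h2⟩ := h
  have h3 := h2.hasFDerivAt
  rw [hasFDerivAt_iff_isLittleO_nhds_zero] at h3
  have h4 := h3.def hε
  rw [Metric.eventually_nhds_iff] at h1 h4
  obtain ⟨δ1, hδ1, h1⟩ := h1
  obtain ⟨δ2, hδ2, h4⟩ := h4
  refine ⟨min δ1 δ2 / 2, by positivity, fun η hη => ?_⟩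
  have hη1 : ‖η‖ < δ1 := lt_of_le_of_lt hη (by
    have := min_le_left δ1 δ2
    linarith)
  have hη2 : ‖η‖ < δ2 := lt_of_le_of_lt hη (by
    have := min_le_right δ1 δ2
    have := lt_min hδ1 hδ2
    linarith)
  set f : ℝ → ℝ := fun s => u (z + s • η) - u z - s * fderiv ℝ u z η -
    s ^ 2 / 2 * hes u z η η with hf
  set f' : ℝ → ℝ := fun s => fderiv ℝ u (z + s • η) η - fderiv ℝ u z η -
    s * hes u z η η with hf'
  have hd : ∀ s ∈ Icc (0 : ℝ) 1, HasDerivAt f (f' s) s := by
    intro s hs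
    have hline : HasDerivAt (fun s : ℝ => z + s • η) η s := by
      simpa using ((hasDerivAt_id s).smul_const η).const_add z
    have hdu : DifferentiableAt ℝ u (z + s • η) := by
      apply h1
      rw [dist_eq_norm, add_sub_cancel_left, norm_smul, Real.norm_eq_abs, abs_of_nonneg hs.1]
      calc s * ‖η‖ ≤ 1 * ‖η‖ := by
            gcongr
            exact hs.2
        _ < δ1 := by rw [one_mul]; exact hη1
    have e1 := hdu.hasFDerivAt.comp_hasDerivAt s hline
    have e2 := (hasDerivAt_id s).mul_const (fderiv ℝ u z η)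
    have e3 := ((hasDerivAt_pow 2 s).div_const 2).mul_const (hes u z η η)
    have e4 := ((e1.sub_const (u z)).sub e2).sub e3
    refine e4.congr_deriv ?_
    simp only [hf', Nat.cast_ofNat, Nat.add_one_sub_one, pow_one]
    ring
  have hb : ∀ s ∈ Ico (0 : ℝ) 1, ‖f' s‖ ≤ ε * ‖η‖ ^ 2 := by
    intro s hs
    have hsn : ‖s • η‖ ≤ ‖η‖ := by
      rw [norm_smul, Real.norm_eq_abs, abs_of_nonneg hs.1]
      calc s * ‖η‖ ≤ 1 * ‖η‖ := by
            gcongr
            exact hs.2.le
        _ = ‖η‖ := one_mul _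
    have e1 : dist (s • η) 0 < δ2 := by
      rw [dist_zero_right]
      exact lt_of_le_of_lt hsn hη2
    have e2 := h4 e1
    have e3 : f' s = (fderiv ℝ u (z + s • η) - fderiv ℝ u z -
        fderiv ℝ (fderiv ℝ u) z (s • η)) η := by
      simp only [hf', hes, sub_apply, map_smul, smul_apply, smul_eq_mul]
    rw [e3]
    calc ‖(fderiv ℝ u (z + s • η) - fderiv ℝ u z - fderiv ℝ (fderiv ℝ u) z (s • η)) η‖
        ≤ ‖fderiv ℝ u (z + s • η) - fderiv ℝ u z - fderiv ℝ (fderiv ℝ u) z (s • η)‖ * ‖η‖ :=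
          ContinuousLinearMap.le_opNorm _ _
      _ ≤ (ε * ‖s • η‖) * ‖η‖ := by gcongr
      _ ≤ (ε * ‖η‖) * ‖η‖ := by gcongr
      _ = ε * ‖η‖ ^ 2 := by ring
  have key := norm_image_sub_le_of_norm_deriv_le_segment' (f := f) (f' := f') (a := 0) (b := 1)
    (C := ε * ‖η‖ ^ 2) (fun s hs => (hd s hs).hasDerivWithinAt) hb 1 (right_mem_Icc.2 zero_le_one)
  have hf1 : f 1 - f 0 = u (z + η) - u z - fderiv ℝ u z η - hes u z η η / 2 := by
    simp only [hf, one_smul, zero_smul, add_zero]
    ring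
  rw [hf1, Real.norm_eq_abs] at key
  simpa using key

theorem sub11_twD_smooth (hΩ : IsOpen Ω) (hu : ContDiffOn ℝ ∞ u Ω) {z : Cn n} (hz : z ∈ Ω) :
    TwD u z := by
  have h1 : ContDiffAt ℝ ∞ u z := hu.contDiffAt (hΩ.mem_nhds hz)
  refine ⟨?_, ?_⟩
  · filter_upwards [hΩ.mem_nhds hz] with w hw
    exact (hu.contDiffAt (hΩ.mem_nhds hw)).differentiableAt (by simp)
  · exact (h1.fderiv_right (m := ∞) le_rfl).differentiableAt (by simp)

/-- expansion of the mean over small circles -/
theorem sub11_expand (ξ : Cn n) (t e : ℝ) (θ : ℝ) (D : Cn n →L[ℝ] ℝ)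
    (H : Cn n →L[ℝ] Cn n →L[ℝ] ℝ) (c : ℝ) :
    c + D (Complex.exp (θ * Complex.I) • (t • ξ)) +
      H (Complex.exp (θ * Complex.I) • (t • ξ)) (Complex.exp (θ * Complex.I) • (t • ξ)) / 2 +
        e * t ^ 2 / 2 =
      c + t * (Real.cos θ * D ξ + Real.sin θ * D (Complex.I • ξ)) +
      t ^ 2 / 2 * (Real.cos θ ^ 2 * H ξ ξ + Real.cos θ * Real.sin θ *
        (H ξ (Complex.I • ξ) + H (Complex.I • ξ) ξ) +
        Real.sin θ ^ 2 * H (Complex.I • ξ) (Complex.I • ξ) + e) := by
  have e1 : Complex.exp (θ * Complex.I) • (t • ξ) =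
      (t * Real.cos θ) • ξ + (t * Real.sin θ) • (Complex.I • ξ) := by
    rw [smul_comm, sub11_rot, smul_add, smul_smul, smul_smul]
  rw [e1]
  simp only [map_add, map_smul, add_apply, smul_apply, smul_eq_mul]
  ring

theorem smooth_sub (hΩ : IsOpen Ω) (hu : ContDiffOn ℝ ∞ u Ω)
    (h : ∀ z ∈ Ω, ∀ ξ : Cn n, 0 ≤ lev u z ξ) : SubOn Ω u := by
  have hc : ContinuousOn u Ω := hu.continuousOn
  have hpi : (0 : ℝ) < 2 * Real.pi := by positivity
  -- the perturbed function
  have main : ∀ ε : ℝ, 0 < ε → SubOn Ω (fun z => u z + ε * ‖z‖ ^ 2) := by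
    intro ε hε
    have hcε : ContinuousOn (fun z => u z + ε * ‖z‖ ^ 2) Ω :=
      hc.add (Continuous.continuousOn (by fun_prop))
    refine loc_glob hΩ hcε.upperSemicontinuousOn ?_ ?_
    · intro L hL hLc
      obtain ⟨M, hM⟩ := (hLc.image_of_continuousOn (hcε.mono hL)).bddBelow
      refine ⟨-M, fun z hz => ?_⟩
      rw [neg_neg]
      exact hM (mem_image_of_mem _ hz)
    · intro a ha
      have hT : TwD u a := sub11_twD_smooth hΩ hu ha
      obtain ⟨δ, hδ, hδ'⟩ := sub11_taylor hT hε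
      obtain ⟨r, hr, hr'⟩ := Metric.nhds_basis_closedBall.mem_iff.1 (hΩ.mem_nhds ha)
      refine ⟨min δ r, lt_min hδ hr, fun b hb => ?_⟩
      have hb1 : ‖b‖ ≤ δ := hb.trans (min_le_left _ _)
      have hb2 : ‖b‖ ≤ r := hb.trans (min_le_right _ _)
      have hmem : ∀ θ : ℝ, a + Complex.exp (θ * Complex.I) • b ∈ Ω := by
        intro θ
        apply hr'
        rw [mem_closedBall, dist_eq_norm, add_sub_cancel_left, sub11_rot_norm]
        exact hb2
      have hcirc : Continuous fun θ : ℝ => a + Complex.exp (θ * Complex.I) • b := by fun_prop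
      have hcu : Continuous fun θ : ℝ => u (a + Complex.exp (θ * Complex.I) • b) :=
        hc.comp_continuous hcirc hmem
      -- mean of the norm
      have hnsq : ∀ θ : ℝ, ‖a + Complex.exp (θ * Complex.I) • b‖ ^ 2 = ‖a‖ ^ 2 +
          2 * (Real.cos θ * (inner ℝ a b : ℝ) + Real.sin θ * (inner ℝ a (Complex.I • b) : ℝ)) +
            ‖b‖ ^ 2 := by
        intro θ
        have e1 := @norm_add_sq_real (Cn n) _ _ a (Complex.exp (θ * Complex.I) • b)
        rw [e1, sub11_rot_norm, sub11_rot, inner_add_right, real_inner_smul_right,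
          real_inner_smul_right]
      -- lower bound
      have hlow : ∀ θ : ℝ, (u a + ε * ‖a‖ ^ 2) + 1 * (Real.cos θ * (fderiv ℝ u a b +
          2 * ε * (inner ℝ a b : ℝ)) + Real.sin θ * (fderiv ℝ u a (Complex.I • b) +
            2 * ε * (inner ℝ a (Complex.I • b) : ℝ))) +
          1 ^ 2 / 2 * (Real.cos θ ^ 2 * hes u a b b + Real.cos θ * Real.sin θ *
        (hes u a b (Complex.I • b) + hes u a (Complex.I • b) b) +
        Real.sin θ ^ 2 * hes u a (Complex.I • b) (Complex.I • b) + 0) ≤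
          u (a + Complex.exp (θ * Complex.I) • b) +
            ε * ‖a + Complex.exp (θ * Complex.I) • b‖ ^ 2 := by
        intro θ
        have e1 := hδ' (Complex.exp (θ * Complex.I) • b) (by rw [sub11_rot_norm]; exact hb1)
        rw [sub11_rot_norm] at e1
        have e2 := (abs_le.1 e1).1
        have e3 := sub11_expand b 1 0 θ (fderiv ℝ u a) (hes u a) (u a)
        rw [one_smul] at e3
        rw [hnsq]
        nlinarith [e2, e3]
      have hcu2 : Continuous fun θ : ℝ => u (a + Complex.exp (θ * Complex.I) • b) +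
          ε * ‖a + Complex.exp (θ * Complex.I) • b‖ ^ 2 := hcu.add (by fun_prop)
      have h1 := intervalIntegral.integral_mono (μ := volume) (a := 0) (b := 2 * Real.pi) hpi.le
        (Continuous.intervalIntegrable (by fun_prop) _ _)
        (hcu2.intervalIntegrable _ _) hlow
      rw [Smooth1_mean] at h1
      have h2 := h a ha b
      rw [hT.lev] at h2
      have h3 : u a + ε * ‖a‖ ^ 2 ≤ (u a + ε * ‖a‖ ^ 2) + 1 ^ 2 / 2 * ((hes u a b b +
          hes u a (Complex.I • b) (Complex.I • b)) / 2 + 0) := by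
        linarith
      refine h3.trans ?_
      rw [← div_eq_inv_mul, le_div_iff₀ hpi]
      linarith
  -- the limit
  intro a b hab
  have hmem : ∀ θ : ℝ, a + Complex.exp (θ * Complex.I) • b ∈ Ω := fun θ =>
    hab _ (by rw [Complex.norm_exp_ofReal_mul_I])
  have hcirc : Continuous fun θ : ℝ => a + Complex.exp (θ * Complex.I) • b := by fun_prop
  have hcu : Continuous fun θ : ℝ => u (a + Complex.exp (θ * Complex.I) • b) :=
    hc.comp_continuous hcirc hmem
  have hcn : Continuous fun θ : ℝ => ‖a + Complex.exp (θ * Complex.I) • b‖ ^ 2 := by fun_prop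
  refine le_of_forall_pos_le_add fun ε hε => ?_
  set S : ℝ := (2 * Real.pi)⁻¹ * ∫ θ in (0 : ℝ)..(2 * Real.pi),
    ‖a + Complex.exp (θ * Complex.I) • b‖ ^ 2 with hS
  have hS0 : 0 ≤ S := by
    rw [hS]
    exact mul_nonneg (by positivity) (intervalIntegral.integral_nonneg hpi.le
      fun θ _ => by positivity)
  have h1 := main (ε / (S + 1)) (by positivity) a b hab
  have h2 : ∫ θ in (0 : ℝ)..(2 * Real.pi), (u (a + Complex.exp (θ * Complex.I) • b) +
      ε / (S + 1) * ‖a + Complex.exp (θ * Complex.I) • b‖ ^ 2) =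
      (∫ θ in (0 : ℝ)..(2 * Real.pi), u (a + Complex.exp (θ * Complex.I) • b)) +
        ε / (S + 1) * ∫ θ in (0 : ℝ)..(2 * Real.pi),
          ‖a + Complex.exp (θ * Complex.I) • b‖ ^ 2 := by
    have hcn' : Continuous fun θ : ℝ =>
      ε / (S + 1) * ‖a + Complex.exp (θ * Complex.I) • b‖ ^ 2 := continuous_const.mul hcn
    rw [intervalIntegral.integral_add (hcu.intervalIntegrable _ _)
      (hcn'.intervalIntegrable _ _), intervalIntegral.integral_const_mul]
  have h3 : ε / (S + 1) * S ≤ ε := by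
    rw [div_mul_eq_mul_div, div_le_iff₀ (by positivity)]
    nlinarith
  have h4 : (0 : ℝ) ≤ ε / (S + 1) * ‖a‖ ^ 2 := by positivity
  simp only at h1
  rw [h2, mul_add] at h1
  have h5 : (2 * Real.pi)⁻¹ * (ε / (S + 1) * ∫ θ in (0 : ℝ)..(2 * Real.pi),
      ‖a + Complex.exp (θ * Complex.I) • b‖ ^ 2) = ε / (S + 1) * S := by
    rw [hS]
    ring
  rw [h5] at h1
  linarith

/-- uniform limits -/
theorem sub_of_tendsto (U : ℕ → Cn n → ℝ) (hU : ∀ k, SubOn Ω (U k))
    (hc : ∀ k, ContinuousOn (U k) Ω)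
    (h : ∀ L ⊆ Ω, IsCompact L → TendstoUniformlyOn U u Filter.atTop L) : SubOn Ω u := by
  intro a b hab
  have hpi : (0 : ℝ) < 2 * Real.pi := by positivity
  set L : Set (Cn n) := (fun ζ : ℂ => a + ζ • b) '' closedBall 0 1 with hL
  have hLΩ : L ⊆ Ω := by
    rintro _ ⟨ζ, hζ, rfl⟩
    exact hab ζ (by simpa using hζ)
  have hLc : IsCompact L := (isCompact_closedBall (0 : ℂ) 1).image (by fun_prop)
  have hmem : ∀ θ : ℝ, a + Complex.exp (θ * Complex.I) • b ∈ L := fun θ =>
    ⟨Complex.exp (θ * Complex.I), by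
      rw [mem_closedBall, dist_zero_right, Complex.norm_exp_ofReal_mul_I], rfl⟩
  have haL : a ∈ L := ⟨0, by simp, by simp⟩
  have hunif := h L hLΩ hLc
  have hcu : ContinuousOn u L :=
    hunif.continuousOn (Filter.Frequently.of_forall fun k => (hc k).mono hLΩ)
  have hcirc : Continuous fun θ : ℝ => a + Complex.exp (θ * Complex.I) • b := by fun_prop
  have hcu' : Continuous fun θ : ℝ => u (a + Complex.exp (θ * Complex.I) • b) :=
    hcu.comp_continuous hcirc hmem
  refine le_of_forall_pos_le_add fun ε hε => ?_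
  rw [Metric.tendstoUniformlyOn_iff] at hunif
  obtain ⟨k, hk⟩ := (hunif (ε / 2) (by positivity)).exists
  have hcU : Continuous fun θ : ℝ => U k (a + Complex.exp (θ * Complex.I) • b) :=
    ((hc k).mono hLΩ).comp_continuous hcirc hmem
  have h1 := hU k a b hab
  have h2 : ∫ θ in (0 : ℝ)..(2 * Real.pi), U k (a + Complex.exp (θ * Complex.I) • b) ≤
      ∫ θ in (0 : ℝ)..(2 * Real.pi), (u (a + Complex.exp (θ * Complex.I) • b) + ε / 2) := by
    refine intervalIntegral.integral_mono hpi.le (hcU.intervalIntegrable _ _)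
      ((hcu'.add continuous_const).intervalIntegrable _ _) fun θ => ?_
    have := hk _ (hmem θ)
    rw [Real.dist_eq, abs_lt] at this
    simp only
    linarith [this.1]
  rw [intervalIntegral.integral_add (hcu'.intervalIntegrable _ _)
    (continuous_const.intervalIntegrable _ _), intervalIntegral.integral_const, sub_zero,
    smul_eq_mul] at h2
  have h3 := hk a haL
  rw [Real.dist_eq, abs_lt] at h3
  have h4 : (2 * Real.pi)⁻¹ * ∫ θ in (0 : ℝ)..(2 * Real.pi),
      U k (a + Complex.exp (θ * Complex.I) • b) ≤ (2 * Real.pi)⁻¹ *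
      ((∫ θ in (0 : ℝ)..(2 * Real.pi), u (a + Complex.exp (θ * Complex.I) • b)) +
        2 * Real.pi * (ε / 2)) := by gcongr
  have h5 : (2 * Real.pi)⁻¹ *
      ((∫ θ in (0 : ℝ)..(2 * Real.pi), u (a + Complex.exp (θ * Complex.I) • b)) +
        2 * Real.pi * (ε / 2)) = (2 * Real.pi)⁻¹ *
      (∫ θ in (0 : ℝ)..(2 * Real.pi), u (a + Complex.exp (θ * Complex.I) • b)) + ε / 2 := by
    rw [mul_add, inv_mul_cancel_left₀ hpi.ne']
  linarith [h3.2]

/-- the derivative of a convolution with a Lipschitz function -/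
theorem sub11_conv {g : Cn n → ℝ} {C : NNReal} (hg : LipschitzWith C g) {ψ : Cn n → ℝ}
    (hψ : ContDiff ℝ ∞ ψ) (hψc : HasCompactSupport ψ) (z ξ : Cn n) :
    fderiv ℝ (fun w => ∫ y, ψ y * g (w - y)) z ξ = ∫ y, ψ y * lineDeriv ℝ g (z - y) ξ := by
  have hsm : ContDiff ℝ ∞ (fun w => ∫ y, ψ y * g (w - y)) :=
    hψc.contDiff_convolution_left (ContinuousLinearMap.lsmul ℝ ℝ) hψ
      hg.continuous.locallyIntegrable
  have hd : Differentiable ℝ (fun w => ∫ y, ψ y * g (w - y)) := hsm.differentiable (by simp)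
  have hint : ∀ w, Integrable (fun y => ψ y * g (w - y)) := fun w =>
    Continuous.integrable_of_hasCompactSupport
      (hψ.continuous.mul (hg.continuous.comp (by fun_prop))) hψc.mul_right
  have hline : HasDerivAt (fun s : ℝ => z + s • ξ) ξ 0 := by
    simpa using ((hasDerivAt_id (0 : ℝ)).smul_const ξ).const_add z
  have hd0 : DifferentiableAt ℝ (fun w => ∫ y, ψ y * g (w - y)) (z + (0 : ℝ) • ξ) := hd _
  have h1 := (hd0.hasFDerivAt.comp_hasDerivAt (0 : ℝ) hline).tendsto_slope_zero_right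
  have hlip : LipschitzWith (C * 1) (fun y => g (z - y)) := hg.comp (by
    refine LipschitzWith.of_dist_le_mul fun x y => ?_
    rw [NNReal.coe_one, one_mul, dist_eq_norm, dist_eq_norm]
    rw [sub_sub_sub_cancel_left, norm_sub_rev])
  have h2 := hlip.integral_inv_smul_sub_mul_tendsto_integral_lineDeriv_mul (μ := volume)
    (hψ.continuous.integrable_of_hasCompactSupport hψc) (-ξ)
  have h3 : ∀ t : ℝ, ∫ y, (t⁻¹ • (g (z - (y + t • (-ξ))) - g (z - y))) * ψ y =
      t⁻¹ • (((fun w => ∫ y, ψ y * g (w - y)) ∘ fun s : ℝ => z + s • ξ) (0 + t) -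
        ((fun w => ∫ y, ψ y * g (w - y)) ∘ fun s : ℝ => z + s • ξ) 0) := by
    intro t
    simp only [Function.comp, zero_add, zero_smul, add_zero]
    rw [← integral_sub (hint _) (hint _), ← integral_smul]
    refine integral_congr_ae (Filter.Eventually.of_forall fun y => ?_)
    have : z - (y + t • (-ξ)) = z + t • ξ - y := by
      rw [smul_neg]
      abel
    simp only [this, smul_eq_mul]
    ring
  have h4 := tendsto_nhds_unique h1 (h2.congr h3)
  have h5 : fderiv ℝ (fun w => ∫ y, ψ y * g (w - y)) (z + (0 : ℝ) • ξ) ξ =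
      fderiv ℝ (fun w => ∫ y, ψ y * g (w - y)) z ξ := by
    rw [zero_smul, add_zero]
  rw [← h5, h4]
  refine integral_congr_ae (Filter.Eventually.of_forall fun y => ?_)
  have h6 : (fun t : ℝ => g (z - (y + t • (-ξ)))) = fun t : ℝ => g (z - y + t • ξ) := by
    funext t
    have : z - (y + t • (-ξ)) = z - y + t • ξ := by
      rw [smul_neg]
      abel
    rw [this]
  simp only [lineDeriv, h6]
  exact mul_comm _ _

/-- a compactly supported `C^{1,1}` function is Lipschitz together with its derivative -/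
theorem sub11_lip {g : Cn n → ℝ} (hg : C11 univ g) (hc : HasCompactSupport g) :
    ∃ C : NNReal, LipschitzWith C (fderiv ℝ g) := by
  obtain ⟨R, hR⟩ := hc.isCompact.isBounded.subset_closedBall (0 : Cn n)
  obtain ⟨C, hC⟩ := hg.lip (closedBall 0 (R + 1)) (isCompact_closedBall _ _) (subset_univ _)
  have hcont : ContinuousOn (fderiv ℝ g) (closedBall 0 (R + 1)) := hC.continuousOn
  obtain ⟨M, hM⟩ := (isCompact_closedBall (0 : Cn n) (R + 1)).exists_bound_of_continuousOn hcont
  have hzero : ∀ w, w ∉ closedBall (0 : Cn n) R → fderiv ℝ g w = 0 := by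
    intro w hw
    have h1 : w ∉ tsupport g := fun h => hw (hR h)
    have h2 : w ∉ tsupport (fderiv ℝ g) := fun h => h1 (tsupport_fderiv_subset ℝ h)
    exact image_eq_zero_of_notMem_tsupport h2
  have hbd : ∀ w, ‖fderiv ℝ g w‖ ≤ |M| := by
    intro w
    by_cases hw : w ∈ closedBall (0 : Cn n) (R + 1)
    · exact (hM w hw).trans (le_abs_self M)
    · rw [hzero w (fun h => hw (closedBall_subset_closedBall (by linarith) h))]
      have : ‖(0 : Cn n →L[ℝ] ℝ)‖ = 0 := norm_zero (E := (Cn n →L[ℝ] ℝ))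
      rw [this]
      exact abs_nonneg M
  refine ⟨max C (Real.toNNReal |M|), LipschitzWith.of_dist_le_mul fun x y => ?_⟩
  have aux : ∀ x y : Cn n, x ∈ closedBall (0 : Cn n) (R + 1) →
      y ∉ closedBall (0 : Cn n) (R + 1) → dist (fderiv ℝ g x) (fderiv ℝ g y) ≤
        (max C (Real.toNNReal |M|) : NNReal) * dist x y := by
    intro x y _ hy
    rw [hzero y (fun h => hy (closedBall_subset_closedBall (by linarith) h))]
    by_cases hx' : x ∈ closedBall (0 : Cn n) R
    · have h1 : 1 ≤ dist x y := by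
        have h2 := dist_triangle y x 0
        rw [mem_closedBall] at hx' hy
        rw [dist_comm x y]
        linarith
      have h2 : dist (fderiv ℝ g x) 0 ≤ |M| := by
        rw [dist_zero_right]
        exact hbd x
      refine h2.trans ?_
      rw [NNReal.coe_max, Real.coe_toNNReal _ (abs_nonneg M)]
      calc |M| = |M| * 1 := (mul_one _).symm
        _ ≤ max (C : ℝ) |M| * dist x y := by
            gcongr
            exact le_max_right _ _
    · rw [hzero x hx', dist_self]
      positivity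
  by_cases hx : x ∈ closedBall (0 : Cn n) (R + 1)
  · by_cases hy : y ∈ closedBall (0 : Cn n) (R + 1)
    · refine (hC.dist_le_mul x hx y hy).trans ?_
      gcongr
      exact le_max_left _ _
    · exact aux x y hx hy
  · by_cases hy : y ∈ closedBall (0 : Cn n) (R + 1)
    · rw [dist_comm (fderiv ℝ g x), dist_comm x y]
      exact aux y x hy hx
    · rw [hzero y (fun h => hy (closedBall_subset_closedBall (by linarith) h)),
        hzero x (fun h => hx (closedBall_subset_closedBall (by linarith) h)), dist_self]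
      positivity

theorem sub11_lip0 {g : Cn n → ℝ} (hg : C11 univ g) (hc : HasCompactSupport g) :
    ∃ C : NNReal, LipschitzWith C g := by
  obtain ⟨C, hC⟩ := sub11_lip hg hc
  obtain ⟨M, hM⟩ := hC.continuous.bounded_above_of_compact_support (hc.fderiv ℝ)
  refine ⟨Real.toNNReal |M|, ?_⟩
  refine lipschitzWith_of_nnnorm_fderiv_le (𝕜 := ℝ) (fun z => hg.diff z (mem_univ z))
    fun z => ?_
  rw [← NNReal.coe_le_coe, coe_nnnorm, Real.coe_toNNReal _ (abs_nonneg M)]
  exact (hM z).trans (le_abs_self M)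

/-- the Levi form of a mollification -/
theorem sub11_lev {g : Cn n → ℝ} (hg : C11 univ g) (hc : HasCompactSupport g) {ψ : Cn n → ℝ}
    (hψ : ContDiff ℝ ∞ ψ) (hψc : HasCompactSupport ψ) (z ξ : Cn n) :
    lev (fun w => ∫ y, ψ y * g (w - y)) z ξ = ∫ y, ψ y *
      ((hes g (z - y) ξ ξ + hes g (z - y) (Complex.I • ξ) (Complex.I • ξ)) / 4) := by
  obtain ⟨C, hC⟩ := sub11_lip hg hc
  obtain ⟨C0, hC0⟩ := sub11_lip0 hg hc
  have hlip1 : ∀ η : Cn n, LipschitzWith (‖η‖₊ * C) (fun w => fderiv ℝ g w η) := by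
    intro η
    refine LipschitzWith.of_dist_le_mul fun x y => ?_
    rw [dist_eq_norm, ← sub_apply]
    refine (ContinuousLinearMap.le_opNorm _ _).trans ?_
    have := hC.dist_le_mul x y
    rw [dist_eq_norm] at this
    rw [NNReal.coe_mul, coe_nnnorm]
    calc ‖fderiv ℝ g x - fderiv ℝ g y‖ * ‖η‖ ≤ (C * dist x y) * ‖η‖ := by gcongr
      _ = ‖η‖ * C * dist x y := by ring
  have h1 : ∀ η : Cn n, (fun w => fderiv ℝ (fun w => ∫ y, ψ y * g (w - y)) w η) =
      fun w => ∫ y, ψ y * fderiv ℝ g (w - y) η := by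
    intro η
    funext w
    rw [sub11_conv hC0 hψ hψc]
    refine integral_congr_ae (Filter.Eventually.of_forall fun y => ?_)
    simp only
    rw [(hg.diff (w - y) (mem_univ _)).lineDeriv_eq_fderiv]
  have htw : ∀ᵐ w : Cn n, TwD g w := by
    filter_upwards [C11.ae_twD isOpen_univ hg] with w hw using hw (mem_univ w)
  have htw' : ∀ᵐ y : Cn n, TwD g (z - y) :=
    (quasiMeasurePreserving_sub_left volume z).ae htw
  have h2 : ∀ η : Cn n, fderiv ℝ (fun w => fderiv ℝ (fun w => ∫ y, ψ y * g (w - y)) w η) z η =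
      ∫ y, ψ y * hes g (z - y) η η := by
    intro η
    rw [h1 η, sub11_conv (hlip1 η) hψ hψc]
    refine integral_congr_ae ?_
    filter_upwards [htw'] with y hy
    have h3 : HasFDerivAt (fun w => fderiv ℝ g w η)
        ((ContinuousLinearMap.apply ℝ ℝ η).comp (fderiv ℝ (fderiv ℝ g) (z - y))) (z - y) :=
      (ContinuousLinearMap.apply ℝ ℝ η).hasFDerivAt.comp _ hy.2.hasFDerivAt
    rw [h3.differentiableAt.lineDeriv_eq_fderiv, h3.fderiv]
    rfl
  have hint : ∀ η : Cn n, Integrable (fun y => ψ y * hes g (z - y) η η) := by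
    intro η
    have hbd : ∀ y, ‖hes g (z - y) η η‖ ≤ C * ‖η‖ * ‖η‖ := by
      intro y
      refine (ContinuousLinearMap.le_opNorm₂ _ _ _).trans ?_
      gcongr
      exact norm_fderiv_le_of_lipschitz ℝ hC
    have hm : Measurable fun y => hes g (z - y) η η := by
      have h3 : Measurable (fderiv ℝ (fderiv ℝ g)) := measurable_fderiv ℝ _
      have h4 : Measurable (fun w => fderiv ℝ (fderiv ℝ g) w η η) := by
        have h5 : Measurable (fun w => fderiv ℝ (fderiv ℝ g) w η) := by
          exact (ContinuousLinearMap.apply ℝ (Cn n →L[ℝ] ℝ) η).continuous.measurable.comp h3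
        exact (ContinuousLinearMap.apply ℝ ℝ η).continuous.measurable.comp h5
      exact h4.comp (measurable_const.sub measurable_id)
    exact (hψ.continuous.integrable_of_hasCompactSupport hψc).mul_bdd
      hm.aestronglyMeasurable (Filter.Eventually.of_forall hbd)
  unfold lev
  rw [h2, h2, ← integral_add (hint _) (hint _), ← integral_div]
  refine integral_congr_ae (Filter.Eventually.of_forall fun y => ?_)
  simp only
  ring

theorem c11_sub_iff (hΩ : IsOpen Ω) (hu : C11 Ω u) :
    SubOn Ω u ↔ ∀ᵐ z : Cn n, z ∈ Ω → (LM u z).PosSemidef := by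
  have hcu : ContinuousOn u Ω := hu.continuousOn
  have hpi : (0 : ℝ) < 2 * Real.pi := by positivity
  constructor
  · intro hs
    filter_upwards [C11.ae_twD hΩ hu] with z hz hzΩ
    have hT : TwD u z := hz hzΩ
    rw [hT.psd_iff]
    intro ξ
    have key : ∀ e : ℝ, 0 < e → 0 ≤ (hes u z ξ ξ + hes u z (Complex.I • ξ) (Complex.I • ξ)) / 2 +
        e := by
      intro e he
      obtain ⟨δ, hδ, hδ'⟩ := sub11_taylor hT (ε := e / (2 * (‖ξ‖ ^ 2 + 1))) (by positivity)
      obtain ⟨r, hr, hr'⟩ := Metric.nhds_basis_closedBall.mem_iff.1 (hΩ.mem_nhds hzΩ)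
      set t : ℝ := min δ r / (‖ξ‖ + 1) with ht
      have hξ1 : 0 < ‖ξ‖ + 1 := by positivity
      have ht0 : 0 < t := div_pos (lt_min hδ hr) hξ1
      have htn : ‖t • ξ‖ ≤ min δ r := by
        rw [norm_smul, Real.norm_eq_abs, abs_of_pos ht0]
        calc t * ‖ξ‖ ≤ t * (‖ξ‖ + 1) := by
              gcongr
              linarith
          _ = min δ r := by rw [ht]; field_simp
      have hb1 : ‖t • ξ‖ ≤ δ := htn.trans (min_le_left _ _)
      have hb2 : ‖t • ξ‖ ≤ r := htn.trans (min_le_right _ _)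
      have hball : ∀ ζ : ℂ, ‖ζ‖ ≤ 1 → z + ζ • (t • ξ) ∈ Ω := by
        intro ζ hζ
        apply hr'
        rw [mem_closedBall, dist_eq_norm, add_sub_cancel_left, norm_smul]
        calc ‖ζ‖ * ‖t • ξ‖ ≤ 1 * ‖t • ξ‖ := by gcongr
          _ ≤ r := by rw [one_mul]; exact hb2
      have hmem : ∀ θ : ℝ, z + Complex.exp (θ * Complex.I) • (t • ξ) ∈ Ω := fun θ =>
        hball _ (by rw [Complex.norm_exp_ofReal_mul_I])
      have hcirc : Continuous fun θ : ℝ => z + Complex.exp (θ * Complex.I) • (t • ξ) := by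
        fun_prop
      have hcu1 : Continuous fun θ : ℝ => u (z + Complex.exp (θ * Complex.I) • (t • ξ)) :=
        hcu.comp_continuous hcirc hmem
      have hup : ∀ θ : ℝ, u (z + Complex.exp (θ * Complex.I) • (t • ξ)) ≤
          u z + t * (Real.cos θ * fderiv ℝ u z ξ + Real.sin θ * fderiv ℝ u z (Complex.I • ξ)) +
          t ^ 2 / 2 * (Real.cos θ ^ 2 * hes u z ξ ξ + Real.cos θ * Real.sin θ *
            (hes u z ξ (Complex.I • ξ) + hes u z (Complex.I • ξ) ξ) +
            Real.sin θ ^ 2 * hes u z (Complex.I • ξ) (Complex.I • ξ) + e) := by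
        intro θ
        have e1 := hδ' (Complex.exp (θ * Complex.I) • (t • ξ)) (by
          rw [sub11_rot_norm]; exact hb1)
        rw [sub11_rot_norm] at e1
        have e2 := (abs_le.1 e1).2
        have e3 := sub11_expand ξ t e θ (fderiv ℝ u z) (hes u z) (u z)
        have e4 : e / (2 * (‖ξ‖ ^ 2 + 1)) * ‖t • ξ‖ ^ 2 ≤ e * t ^ 2 / 2 := by
          rw [norm_smul, Real.norm_eq_abs, mul_pow, sq_abs]
          have e5 : ‖ξ‖ ^ 2 / (‖ξ‖ ^ 2 + 1) ≤ 1 := by
            rw [div_le_one (by positivity)]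
            linarith
          calc e / (2 * (‖ξ‖ ^ 2 + 1)) * (t ^ 2 * ‖ξ‖ ^ 2) =
                e * t ^ 2 / 2 * (‖ξ‖ ^ 2 / (‖ξ‖ ^ 2 + 1)) := by
                field_simp
            _ ≤ e * t ^ 2 / 2 * 1 := by gcongr
            _ = e * t ^ 2 / 2 := mul_one _
        rw [← e3]
        linarith
      have h1 := intervalIntegral.integral_mono (μ := volume) (a := 0) (b := 2 * Real.pi) hpi.le
        (hcu1.intervalIntegrable _ _)
        (Continuous.intervalIntegrable (by fun_prop) _ _) hup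
      rw [Smooth1_mean] at h1
      have h2 := hs z (t • ξ) hball
      have h3 : u z ≤ u z + t ^ 2 / 2 * ((hes u z ξ ξ +
          hes u z (Complex.I • ξ) (Complex.I • ξ)) / 2 + e) := by
        refine h2.trans ?_
        rw [← div_eq_inv_mul, div_le_iff₀ hpi]
        linarith
      have h4 : 0 ≤ t ^ 2 / 2 * ((hes u z ξ ξ +
          hes u z (Complex.I • ξ) (Complex.I • ξ)) / 2 + e) := by linarith
      exact nonneg_of_mul_nonneg_right h4 (by positivity)
    have h0 : 0 ≤ (hes u z ξ ξ + hes u z (Complex.I • ξ) (Complex.I • ξ)) / 2 :=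
      le_of_forall_pos_le_add fun ε hε => by
        have := key ε hε
        linarith
    rw [hT.lev]
    linarith
  · intro hae
    refine loc_glob hΩ hcu.upperSemicontinuousOn ?_ ?_
    · intro L hL hLc
      obtain ⟨M, hM⟩ := (hLc.image_of_continuousOn (hcu.mono hL)).bddBelow
      refine ⟨-M, fun z hz => ?_⟩
      rw [neg_neg]
      exact hM (mem_image_of_mem _ hz)
    · intro a ha
      obtain ⟨R, hR, hR'⟩ := Metric.nhds_basis_closedBall.mem_iff.1 (hΩ.mem_nhds ha)
      set r : ℝ := R / 4 with hr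
      have hr0 : 0 < r := by positivity
      let χ : ContDiffBump a := ⟨3 * r, 4 * r, by positivity, by linarith⟩
      have hχs : tsupport (χ : Cn n → ℝ) ⊆ Ω := by
        rw [χ.tsupport_eq]
        refine Subset.trans (closedBall_subset_closedBall ?_) hR'
        change 4 * r ≤ R
        rw [hr]
        linarith
      set g : Cn n → ℝ := fun z => χ z * u z with hg
      have hg11 : C11 univ g := hu.cutoff hΩ χ.contDiff χ.hasCompactSupport hχs
      have hgc : HasCompactSupport g := χ.hasCompactSupport.mul_right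
      have hgu : ∀ z ∈ ball a (3 * r), g z = u z := by
        intro z hz
        have : χ z = 1 := χ.one_of_mem_closedBall (ball_subset_closedBall hz)
        rw [hg]
        simp only [this, one_mul]
      obtain ⟨C0, hC0⟩ := sub11_lip0 hg11 hgc
      let η : ℕ → ContDiffBump (0 : Cn n) := fun k =>
        ⟨r / (2 * (k + 1)), r / (k + 1), by positivity, by
          gcongr
          linarith⟩
      have hηr : ∀ k, (η k).rOut ≤ r := by
        intro k
        change r / ((k : ℝ) + 1) ≤ r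
        exact div_le_self hr0.le (by
          have : (0 : ℝ) ≤ k := Nat.cast_nonneg k
          linarith)
      set Φ : ℕ → Cn n → ℝ := fun k z => ∫ y, (η k).normed volume y * g (z - y) with hΦ
      have hψ : ∀ k, ContDiff ℝ ∞ ((η k).normed (volume : Measure (Cn n))) := fun k =>
        (η k).contDiff_normed
      have hψc : ∀ k, HasCompactSupport ((η k).normed (volume : Measure (Cn n))) := fun k =>
        (η k).hasCompactSupport_normed
      have hΦs : ∀ k, ContDiff ℝ ∞ (Φ k) := fun k =>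
        (hψc k).contDiff_convolution_left (ContinuousLinearMap.lsmul ℝ ℝ) (hψ k)
          hC0.continuous.locallyIntegrable
      have hΦsub : ∀ k, SubOn (ball a r) (Φ k) := by
        intro k
        refine smooth_sub isOpen_ball (hΦs k).contDiffOn fun z hz ξ => ?_
        rw [hΦ]
        simp only
        rw [sub11_lev hg11 hgc (hψ k) (hψc k)]
        refine integral_nonneg_of_ae ?_
        have hae' := (quasiMeasurePreserving_sub_left volume z).ae hae
        have htw : ∀ᵐ y : Cn n, z - y ∈ Ω → TwD u (z - y) :=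
          (quasiMeasurePreserving_sub_left volume z).ae (C11.ae_twD hΩ hu)
        filter_upwards [hae', htw] with y hy hty
        simp only [Pi.zero_apply]
        by_cases hyr : y ∈ ball (0 : Cn n) r
        · have hzy : z - y ∈ ball a (3 * r) := by
            rw [mem_ball, dist_eq_norm] at hz hyr ⊢
            rw [sub_zero] at hyr
            calc ‖z - y - a‖ = ‖(z - a) - y‖ := by congr 1; abel
              _ ≤ ‖z - a‖ + ‖y‖ := norm_sub_le _ _
              _ < 3 * r := by linarith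
          have hzyΩ : z - y ∈ Ω := by
            apply hR'
            rw [mem_closedBall]
            rw [mem_ball] at hzy
            have : 3 * r ≤ R := by rw [hr]; linarith
            linarith
          have hev : g =ᶠ[𝓝 (z - y)] u := by
            filter_upwards [isOpen_ball.mem_nhds hzy] with w hw using hgu w hw
          have hh : hes g (z - y) = hes u (z - y) := by
            unfold hes
            exact (hev.fderiv (𝕜 := ℝ)).fderiv_eq
          have hT := hty hzyΩ
          have hp := (hT.psd_iff.1 (hy hzyΩ)) ξ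
          rw [hT.lev] at hp
          rw [hh]
          exact mul_nonneg ((η k).nonneg_normed y) hp
        · have : (η k).normed volume y = 0 := by
            have h5 : y ∉ Function.support ((η k).normed (volume : Measure (Cn n))) := by
              rw [(η k).support_normed_eq]
              intro h6
              exact hyr (ball_subset_ball (hηr k) h6)
            exact Function.notMem_support.1 h5
          rw [this, zero_mul]
      have hunif : ∀ ε > 0, ∃ k₀ : ℕ, ∀ k ≥ k₀, ∀ z, dist (Φ k z) (g z) < ε := by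
        intro ε hε
        obtain ⟨k₀, hk₀⟩ := exists_nat_gt (C0 * r / ε)
        refine ⟨k₀, fun k hk z => ?_⟩
        have h5 : dist (Φ k z) (g z) ≤ C0 * (r / (k + 1)) := by
          refine (η k).dist_normed_convolution_le (μ := volume)
            hC0.continuous.aestronglyMeasurable fun x hx => ?_
          refine (hC0.dist_le_mul x z).trans ?_
          gcongr
          exact (mem_ball.1 hx).le
        refine lt_of_le_of_lt h5 ?_
        have hk1 : (0 : ℝ) < (k : ℝ) + 1 := by positivity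
        rw [← mul_div_assoc, div_lt_iff₀ hk1]
        have h6 : C0 * r / ε < (k : ℝ) + 1 := by
          have : (k₀ : ℝ) ≤ k := by exact_mod_cast hk
          linarith
        rw [div_lt_iff₀ hε] at h6
        linarith
      have hsub : SubOn (ball a r) u := by
        refine sub_of_tendsto Φ hΦsub (fun k => (hΦs k).continuous.continuousOn) ?_
        intro L hL _
        rw [Metric.tendstoUniformlyOn_iff]
        intro ε hε
        obtain ⟨k₀, hk₀⟩ := hunif ε hε
        filter_upwards [Filter.eventually_ge_atTop k₀] with k hk x hx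
        have h5 : x ∈ ball a (3 * r) := ball_subset_ball (by linarith) (hL hx)
        rw [← hgu x h5, dist_comm]
        exact hk₀ k hk x
      refine ⟨r / 2, by positivity, fun b hb => hsub a b fun ζ hζ => ?_⟩
      rw [mem_ball, dist_eq_norm, add_sub_cancel_left, norm_smul]
      calc ‖ζ‖ * ‖b‖ ≤ 1 * (r / 2) := by gcongr
        _ < r := by linarith

end HMA

end S_KM_Sub11

section S_KM_IBP11

/-! # Module IBP11: integration by parts for `C^{1,1}` functions -/

open MeasureTheory Metric Set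
open scoped ENNReal Topology ContDiff ComplexOrder

namespace HMA

/-- smooth cut off functions -/
theorem IBP11_cut {n : ℕ} {Ω L : Set (Cn n)} (hΩ : IsOpen Ω) (hL : IsCompact L) (hLΩ : L ⊆ Ω) :
    ∃ χ : Cn n → ℝ, ContDiff ℝ ∞ χ ∧ HasCompactSupport χ ∧ tsupport χ ⊆ Ω ∧
      ∃ V : Set (Cn n), IsOpen V ∧ L ⊆ V ∧ ∀ z ∈ V, χ z = 1 := by
  obtain ⟨K1, hK1, hL1, hK1Ω⟩ := exists_compact_between hL hΩ hLΩ
  obtain ⟨K2, hK2, h12, hK2Ω⟩ := exists_compact_between hK1 hΩ hK1Ω
  obtain ⟨χ, h0, h1, -⟩ := exists_contMDiffMap_zero_one_of_isClosed (n := (⊤ : ℕ∞))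
    (modelWithCornersSelf ℝ (Cn n)) (s := (interior K2)ᶜ) (t := K1)
    isOpen_interior.isClosed_compl hK1.isClosed
    (by rw [Set.disjoint_left]; intro z hz hz'; exact hz (h12 hz'))
  have hsub : tsupport χ ⊆ K2 := by
    apply closure_minimal _ hK2.isClosed
    intro z hz
    by_contra hzK
    exact hz (h0 (fun h => hzK (interior_subset h)))
  refine ⟨χ, χ.contMDiff.contDiff, ?_, hsub.trans hK2Ω, interior K1, isOpen_interior, hL1,
    fun z hz => h1 (interior_subset hz)⟩
  exact hK2.of_isClosed_subset (isClosed_tsupport _) hsub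

/-- the Levi matrix as a function of the second derivative -/
noncomputable def IBP11_LH {n : ℕ} (A : Cn n →L[ℝ] Cn n →L[ℝ] ℝ) : Matrix (Fin n) (Fin n) ℂ :=
  fun j k =>
    (((A (bv n j) (bv n k) +
        A (Complex.I • bv n j) (Complex.I • bv n k) : ℝ) : ℂ) +
      Complex.I * ((A (bv n j) (Complex.I • bv n k) -
        A (Complex.I • bv n j) (bv n k) : ℝ) : ℂ)) / 4

theorem IBP11_LH_cont {n : ℕ} : Continuous (IBP11_LH (n := n)) := by
  refine continuous_pi fun j => continuous_pi fun k => ?_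
  unfold IBP11_LH
  have h : ∀ a b : Cn n, Continuous fun A : Cn n →L[ℝ] Cn n →L[ℝ] ℝ => A a b := fun a b => by
    fun_prop
  have h1 := h (bv n j) (bv n k)
  have h2 := h (Complex.I • bv n j) (Complex.I • bv n k)
  have h3 := h (bv n j) (Complex.I • bv n k)
  have h4 := h (Complex.I • bv n j) (bv n k)
  exact ((Complex.continuous_ofReal.comp (h1.add h2)).add
    (continuous_const.mul (Complex.continuous_ofReal.comp (h3.sub h4)))).div_const 4

theorem IBP11_mal_cont {n : ℕ} : Continuous fun p : (Cn n →L[ℝ] Cn n →L[ℝ] ℝ) ×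
    (Cn n →L[ℝ] Cn n →L[ℝ] ℝ) => (((IBP11_LH p.1).adjugate * IBP11_LH p.2).trace).re := by
  apply Complex.continuous_re.comp
  apply Continuous.matrix_trace
  exact ((IBP11_LH_cont.comp continuous_fst).matrix_adjugate).matrix_mul
    (IBP11_LH_cont.comp continuous_snd)

theorem IBP11_mal_tendsto {n : ℕ} {U W : ℕ → Cn n → ℝ} {u w : Cn n → ℝ} {z : Cn n}
    (hu : Filter.Tendsto (fun k => hes (U k) z) Filter.atTop (𝓝 (hes u z)))
    (hw : Filter.Tendsto (fun k => hes (W k) z) Filter.atTop (𝓝 (hes w z))) :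
    Filter.Tendsto (fun k => mal (U k) (W k) z) Filter.atTop (𝓝 (mal u w z)) := by
  have := (IBP11_mal_cont.tendsto (hes u z, hes w z)).comp (hu.prodMk_nhds hw)
  exact this

theorem IBP11_bdd {n : ℕ} {v : Cn n → ℝ} (hv : C11 univ v) (hc : HasCompactSupport v) :
    ∃ C : ℝ, 0 ≤ C ∧ ∀ z, |v z| ≤ C := by
  have h1 : Continuous v := continuousOn_univ.1 hv.continuousOn
  obtain ⟨C, hC⟩ := hc.exists_bound_of_continuous h1
  exact ⟨|C|, abs_nonneg _, fun z => (hC z).trans (le_abs_self _)⟩

theorem IBP11_supp {n : ℕ} {v : Cn n → ℝ} (hc : HasCompactSupport v) :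
    ∃ R : ℝ, ∀ z, R < ‖z‖ → v z = 0 := by
  obtain ⟨R, hR⟩ := hc.isCompact.isBounded.subset_closedBall 0
  refine ⟨R, fun z hz => ?_⟩
  apply image_eq_zero_of_notMem_tsupport
  intro h
  have := hR h
  rw [mem_closedBall, dist_zero_right] at this
  linarith

theorem IBP11_int {n : ℕ} {u v w : Cn n → ℝ} (hu : C11 univ u) (hv : C11 univ v)
    (hw : C11 univ w) (hcv : HasCompactSupport v) :
    Integrable (fun z => v z * mal u w z) := by
  obtain ⟨Cv, hCv, hv1⟩ := IBP11_bdd hv hcv
  obtain ⟨R, hR⟩ := IBP11_supp hcv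
  obtain ⟨C1, hC1, h1⟩ := hu.hes_bdd isOpen_univ (isCompact_closedBall (0 : Cn n) R)
    (subset_univ _)
  obtain ⟨C2, hC2, h2⟩ := hw.hes_bdd isOpen_univ (isCompact_closedBall (0 : Cn n) R)
    (subset_univ _)
  obtain ⟨B, hB, h3⟩ := mad_bdd n (max C1 C2)
  have hint : Integrable ((closedBall (0 : Cn n) R).indicator fun _ => Cv * B) := by
    rw [integrable_indicator_iff measurableSet_closedBall]
    exact integrableOn_const (measure_closedBall_lt_top.ne) enorm_ne_top
  refine hint.mono' ?_ (Filter.Eventually.of_forall fun z => ?_)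
  · exact ((continuousOn_univ.1 hv.continuousOn).measurable.mul
      (measurable_mal u w)).aestronglyMeasurable
  · by_cases hz : z ∈ closedBall (0 : Cn n) R
    · rw [indicator_of_mem hz, Real.norm_eq_abs, abs_mul]
      exact mul_le_mul (hv1 z) (h3 u w z ((h1 z hz).trans (le_max_left _ _))
        ((h2 z hz).trans (le_max_right _ _))).2 (abs_nonneg _) hCv
    · rw [indicator_of_notMem hz]
      have : v z = 0 := hR z (by
        rw [mem_closedBall, dist_zero_right, not_le] at hz
        exact hz)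
      rw [this]; simp

/-- the dominated convergence step -/
theorem IBP11_lim {n : ℕ} {u v w : Cn n → ℝ} {U V W : ℕ → Cn n → ℝ} (hv : C11 univ v)
    (hcv : HasCompactSupport v)
    (hV1 : ∀ k, ContDiff ℝ ∞ (V k)) (hV2 : ∃ R : ℝ, ∀ k z, R < ‖z‖ → V k z = 0)
    (hV3 : ∀ ε > 0, ∃ k₀ : ℕ, ∀ k ≥ k₀, ∀ z, |V k z - v z| ≤ ε)
    (hU4 : ∃ C : ℝ, ∀ k z, ‖hes (U k) z‖ ≤ C)
    (hU5 : ∀ᵐ z, Filter.Tendsto (fun k => hes (U k) z) Filter.atTop (𝓝 (hes u z)))
    (hW4 : ∃ C : ℝ, ∀ k z, ‖hes (W k) z‖ ≤ C)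
    (hW5 : ∀ᵐ z, Filter.Tendsto (fun k => hes (W k) z) Filter.atTop (𝓝 (hes w z))) :
    Filter.Tendsto (fun k => ∫ z, V k z * mal (U k) (W k) z) Filter.atTop
      (𝓝 (∫ z, v z * mal u w z)) := by
  obtain ⟨Cv, hCv, hv1⟩ := IBP11_bdd hv hcv
  obtain ⟨R, hR⟩ := hV2
  obtain ⟨C1, h1⟩ := hU4
  obtain ⟨C2, h2⟩ := hW4
  obtain ⟨B, hB, h3⟩ := mad_bdd n (max C1 C2)
  have hint : Integrable ((closedBall (0 : Cn n) R).indicator fun _ => (Cv + 1) * B) := by
    rw [integrable_indicator_iff measurableSet_closedBall]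
    exact integrableOn_const (measure_closedBall_lt_top.ne) enorm_ne_top
  obtain ⟨k₀, hk₀⟩ := hV3 1 one_pos
  refine tendsto_integral_filter_of_dominated_convergence _ ?_ ?_ hint ?_
  · exact Filter.Eventually.of_forall fun k => ((hV1 k).continuous.measurable.mul
      (measurable_mal (U k) (W k))).aestronglyMeasurable
  · filter_upwards [Filter.eventually_ge_atTop k₀] with k hk
    refine Filter.Eventually.of_forall fun z => ?_
    by_cases hz : z ∈ closedBall (0 : Cn n) R
    · rw [indicator_of_mem hz, Real.norm_eq_abs, abs_mul]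
      refine mul_le_mul ?_ (h3 (U k) (W k) z ((h1 k z).trans (le_max_left _ _))
        ((h2 k z).trans (le_max_right _ _))).2 (abs_nonneg _) (by linarith)
      have e1 := hk₀ k hk z
      have e2 := hv1 z
      have e3 : |V k z| ≤ |V k z - v z| + |v z| := by
        have := abs_add_le (V k z - v z) (v z)
        simpa using this
      linarith
    · rw [indicator_of_notMem hz]
      have : V k z = 0 := hR k z (by
        rw [mem_closedBall, dist_zero_right, not_le] at hz
        exact hz)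
      rw [this]; simp
  · filter_upwards [hU5, hW5] with z hz1 hz2
    refine Filter.Tendsto.mul ?_ (IBP11_mal_tendsto hz1 hz2)
    rw [Metric.tendsto_atTop]
    intro ε hε
    obtain ⟨k₁, hk₁⟩ := hV3 (ε / 2) (by positivity)
    refine ⟨k₁, fun k hk => ?_⟩
    rw [Real.dist_eq]
    have := hk₁ k hk z
    linarith

/-- the global version -/
theorem IBP11_glob {n : ℕ} {u v w : Cn n → ℝ} (hu : C11 univ u) (hv : C11 univ v)
    (hw : C11 univ w) (hcu : HasCompactSupport u) (hcv : HasCompactSupport v)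
    (hcw : HasCompactSupport w) :
    ∫ z, v z * mal u w z = ∫ z, w z * mal u v z := by
  obtain ⟨U, hU1, hU2, hU3, hU4, hU5⟩ := c11_moll hu hcu
  obtain ⟨V, hV1, hV2, hV3, hV4, hV5⟩ := c11_moll hv hcv
  obtain ⟨W, hW1, hW2, hW3, hW4, hW5⟩ := c11_moll hw hcw
  have l1 := IBP11_lim hv hcv (fun k => (hV1 k).1) hV2 hV3 hU4 hU5 hW4 hW5
  have l2 := IBP11_lim hw hcw (fun k => (hW1 k).1) hW2 hW3 hU4 hU5 hV4 hV5
  have l3 : (fun k => ∫ z, V k z * mal (U k) (W k) z) =
      fun k => ∫ z, W k z * mal (U k) (V k) z := by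
    funext k
    exact ibp_mal (hU1 k).1 (hV1 k).1 (hW1 k).1 (hV1 k).2
  rw [l3] at l1
  exact tendsto_nhds_unique l1 l2

theorem ibp11 {n : ℕ} {Ω : Set (Cn n)} (hΩ : IsOpen Ω) {u v w : Cn n → ℝ} (hu : C11 Ω u)
    (hv : C11 Ω v) (hw : C11 Ω w) {L : Set (Cn n)} (hL : IsCompact L) (hLΩ : L ⊆ Ω)
    (h0 : ∀ z, z ∉ L → v z = 0) :
    IntegrableOn (fun z => v z * mal u w z) Ω ∧ IntegrableOn (fun z => w z * mal u v z) Ω ∧
      ∫ z in Ω, v z * mal u w z = ∫ z in Ω, w z * mal u v z := by
  obtain ⟨χ, hχ, hχc, hχs, V, hVo, hLV, hV1⟩ := IBP11_cut hΩ hL hLΩ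
  have hχ2 : ContDiff ℝ 2 χ := hχ.of_le (WithTop.coe_le_coe.2 (le_top (a := (2 : ℕ∞))))
  set u' : Cn n → ℝ := fun z => χ z * u z with hu'
  set v' : Cn n → ℝ := fun z => χ z * v z with hv'
  set w' : Cn n → ℝ := fun z => χ z * w z with hw'
  have cu : C11 univ u' := hu.cutoff hΩ hχ2 hχc hχs
  have cv : C11 univ v' := hv.cutoff hΩ hχ2 hχc hχs
  have cw : C11 univ w' := hw.cutoff hΩ hχ2 hχc hχs
  have su : HasCompactSupport u' := hχc.mul_right
  have sv : HasCompactSupport v' := hχc.mul_right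
  have sw : HasCompactSupport w' := hχc.mul_right
  have eu : ∀ z ∈ L, LM u' z = LM u z := by
    intro z hz
    apply LM_congr
    filter_upwards [hVo.mem_nhds (hLV hz)] with y hy
    simp [hu', hV1 y hy]
  have ev : ∀ z ∈ L, LM v' z = LM v z := by
    intro z hz
    apply LM_congr
    filter_upwards [hVo.mem_nhds (hLV hz)] with y hy
    simp [hv', hV1 y hy]
  have ew : ∀ z ∈ L, LM w' z = LM w z := by
    intro z hz
    apply LM_congr
    filter_upwards [hVo.mem_nhds (hLV hz)] with y hy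
    simp [hw', hV1 y hy]
  have zv : ∀ z, z ∉ L → LM v z = 0 := by
    intro z hz
    rw [← LM_const 0 z]
    apply LM_congr
    filter_upwards [hL.isClosed.isOpen_compl.mem_nhds hz] with y hy
    exact h0 y hy
  have zv' : ∀ z, z ∉ L → LM v' z = 0 := by
    intro z hz
    rw [← LM_const 0 z]
    apply LM_congr
    filter_upwards [hL.isClosed.isOpen_compl.mem_nhds hz] with y hy
    simp [hv', h0 y hy]
  have f1 : ∀ z, v z * mal u w z = v' z * mal u' w' z := by
    intro z
    by_cases hz : z ∈ L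
    · have : v' z = v z := by simp [hv', hV1 z (hLV hz)]
      rw [this, mal, mal, eu z hz, ew z hz]
    · have : v' z = 0 := by simp [hv', h0 z hz]
      rw [this, h0 z hz]; simp
  have f2 : ∀ z, w z * mal u v z = w' z * mal u' v' z := by
    intro z
    by_cases hz : z ∈ L
    · have : w' z = w z := by simp [hw', hV1 z (hLV hz)]
      rw [this, mal, mal, eu z hz, ev z hz]
    · rw [mal, mal, zv z hz, zv' z hz]; simp
  have i1 := IBP11_int cu cv cw sv
  have i2 := IBP11_int cu cw cv sw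
  have g1 : ∀ z, z ∉ Ω → v z * mal u w z = 0 := by
    intro z hz
    rw [h0 z (fun h => hz (hLΩ h))]; simp
  have g2 : ∀ z, z ∉ Ω → w z * mal u v z = 0 := by
    intro z hz
    rw [mal, zv z (fun h => hz (hLΩ h))]; simp
  have j1 : Integrable (fun z => v z * mal u w z) := by
    simpa only [f1] using i1
  have j2 : Integrable (fun z => w z * mal u v z) := by
    simpa only [f2] using i2
  refine ⟨j1.integrableOn, j2.integrableOn, ?_⟩
  rw [setIntegral_eq_integral_of_forall_compl_eq_zero g1,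
    setIntegral_eq_integral_of_forall_compl_eq_zero g2]
  simp only [f1, f2]
  exact IBP11_glob cu cv cw su sv sw

end HMA

end S_KM_IBP11

section S_KM_Seg

/-! # Module Seg: variation of the Monge-Ampère measure along segments -/

open MeasureTheory Metric Set
open scoped ENNReal Topology ContDiff ComplexOrder

namespace HMA

variable {n : ℕ} {Ω : Set (Cn n)} {u w g : Cn n → ℝ}

/-- the derivative of the determinant along a segment of matrices -/
noncomputable def Seg_H (A B : Matrix (Fin n) (Fin n) ℂ) (s : ℝ) : ℝ :=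
  (((A + (s : ℂ) • B).adjugate * B).trace).re

theorem Seg_LM {z : Cn n} (hu : TwD u z) (hw : TwD w z) (s : ℝ) :
    LM (fun y => u y + s * w y) z = LM u z + (s : ℂ) • LM w z := by
  have h1 := hw.const_mul s
  have h2 := hu.add h1.1
  rw [h2.2, h1.2]

theorem Seg_mal {z : Cn n} (hu : TwD u z) (hw : TwD w z) (s : ℝ) :
    mal (fun y => u y + s * w y) w z = Seg_H (LM u z) (LM w z) s := by
  unfold mal Seg_H
  rw [Seg_LM hu hw s]

theorem Seg_hes {z : Cn n} (hu : TwD u z) (hw : TwD w z) (s : ℝ) :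
    hes (fun y => u y + s * w y) z = hes u z + s • hes w z := by
  have h : fderiv ℝ (fun y => u y + s * w y) =ᶠ[𝓝 z] fun y => fderiv ℝ u y + s • fderiv ℝ w y := by
    filter_upwards [hu.1, hw.1] with y hy1 hy2
    exact (hy1.hasFDerivAt.add (hy2.hasFDerivAt.const_mul s)).fderiv
  unfold hes
  rw [h.fderiv_eq]
  exact (hu.2.hasFDerivAt.add (hw.2.hasFDerivAt.const_smul s)).fderiv

/-- joint continuity -/
theorem Seg_cont : Continuous fun p : ((Fin n → Fin n → ℂ) × (Fin n → Fin n → ℂ)) × ℝ =>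
    Seg_H (Matrix.of p.1.1) (Matrix.of p.1.2) p.2 := by
  unfold Seg_H
  have h1 : Continuous fun p : ((Fin n → Fin n → ℂ) × (Fin n → Fin n → ℂ)) × ℝ =>
      (Matrix.of p.1.1 : Matrix (Fin n) (Fin n) ℂ) := continuous_fst.comp continuous_fst
  have h2 : Continuous fun p : ((Fin n → Fin n → ℂ) × (Fin n → Fin n → ℂ)) × ℝ =>
      (Matrix.of p.1.2 : Matrix (Fin n) (Fin n) ℂ) := continuous_snd.comp continuous_fst
  have h3 : Continuous fun p : ((Fin n → Fin n → ℂ) × (Fin n → Fin n → ℂ)) × ℝ =>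
      ((p.2 : ℝ) : ℂ) := Complex.continuous_ofReal.comp continuous_snd
  exact Complex.continuous_re.comp (((h1.add (h3.smul h2)).matrix_adjugate.matrix_mul h2).matrix_trace)

/-- the Levi matrix as a function of two indices -/
noncomputable def Seg_L (u : Cn n → ℝ) (z : Cn n) : Fin n → Fin n → ℂ := fun j k => LM u z j k

theorem Seg_L_eq (u : Cn n → ℝ) (z : Cn n) : Matrix.of (Seg_L u z) = LM u z := rfl

theorem Seg_measL (u : Cn n → ℝ) : Measurable (Seg_L u) := by
  have hm : ∀ a b : Cn n, Measurable fun z => hes u z a b := by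
    intro a b
    have h1 : Measurable fun z => hes u z := measurable_fderiv ℝ (fderiv ℝ u)
    have h2 : Measurable fun z => hes u z a := h1.apply_continuousLinearMap a
    exact h2.apply_continuousLinearMap b
  refine measurable_pi_iff.2 fun j => measurable_pi_iff.2 fun k => ?_
  unfold Seg_L LM
  exact ((Complex.measurable_ofReal.comp ((hm _ _).add (hm _ _))).add
    (measurable_const.mul (Complex.measurable_ofReal.comp ((hm _ _).sub (hm _ _))))).div_const _

theorem Seg_measH (u w : Cn n → ℝ) :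
    Measurable fun p : Cn n × ℝ => Seg_H (LM u p.1) (LM w p.1) p.2 := by
  have h1 : Measurable fun p : Cn n × ℝ => ((Seg_L u p.1, Seg_L w p.1), p.2) :=
    (((Seg_measL u).comp measurable_fst).prodMk ((Seg_measL w).comp measurable_fst)).prodMk
      measurable_snd
  have h2 := (Seg_cont (n := n)).measurable.comp h1
  have h3 : (fun p : Cn n × ℝ => Seg_H (LM u p.1) (LM w p.1) p.2) =
      (fun p : ((Fin n → Fin n → ℂ) × (Fin n → Fin n → ℂ)) × ℝ =>
        Seg_H (Matrix.of p.1.1) (Matrix.of p.1.2) p.2) ∘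
        fun p : Cn n × ℝ => ((Seg_L u p.1, Seg_L w p.1), p.2) := by
    funext p
    simp only [Function.comp_apply, Seg_L_eq]
  rw [h3]
  exact h2

/-- pointwise formula -/
theorem seg_point {z : Cn n} (hu : TwD u z) (hw : TwD w z) :
    mad (fun y => u y + w y) z - mad u z =
      ∫ s in (0 : ℝ)..1, mal (fun y => u y + s * w y) w z := by
  have h1 : (fun s : ℝ => mal (fun y => u y + s * w y) w z) =
      fun s => Seg_H (LM u z) (LM w z) s := by
    funext s
    exact Seg_mal hu hw s
  have hc : Continuous fun s : ℝ => Seg_H (LM u z) (LM w z) s := by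
    have h2 := (Seg_cont (n := n)).comp
      ((continuous_const (y := (Seg_L u z, Seg_L w z))).prodMk (continuous_id (X := ℝ)))
    refine h2.congr fun s => ?_
    simp only [Function.comp_apply, Seg_L_eq, id]
  have h3 := intervalIntegral.integral_eq_sub_of_hasDerivAt (a := 0) (b := 1)
    (f := fun s : ℝ => (LM u z + (s : ℂ) • LM w z).det.re)
    (f' := fun s : ℝ => Seg_H (LM u z) (LM w z) s)
    (fun s _ => mat_det_deriv (LM u z) (LM w z) s) (hc.intervalIntegrable _ _)
  rw [h1, h3]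
  unfold mad
  rw [(hu.add hw).2]
  simp

theorem Seg_off {L : Set (Cn n)} (hL : IsCompact L) (h0 : ∀ z, z ∉ L → w z = 0) {z : Cn n}
    (hz : z ∉ L) : LM w z = 0 ∧ ∀ u : Cn n → ℝ, mad (fun y => u y + w y) z = mad u z := by
  have hev : ∀ᶠ y in 𝓝 z, w y = 0 := by
    filter_upwards [hL.isClosed.isOpen_compl.mem_nhds hz] with y hy
    exact h0 y hy
  constructor
  · have : w =ᶠ[𝓝 z] fun _ => (0 : ℝ) := hev
    rw [LM_congr this, LM_const]
  · intro u
    have : (fun y => u y + w y) =ᶠ[𝓝 z] u := by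
      filter_upwards [hev] with y hy
      rw [hy, add_zero]
    unfold mad
    rw [LM_congr this]

theorem Seg_mal_off {L : Set (Cn n)} (hL : IsCompact L) (h0 : ∀ z, z ∉ L → w z = 0) {z : Cn n}
    (hz : z ∉ L) (U : Cn n → ℝ) : mal U w z = 0 := by
  unfold mal
  rw [(Seg_off hL h0 hz).1]
  simp

theorem seg_mad (hΩ : IsOpen Ω) (hu : C11 Ω u) (hw : C11 Ω w) (hg : C11 Ω g) {L : Set (Cn n)}
    (hL : IsCompact L) (hLΩ : L ⊆ Ω) (h0 : ∀ z, z ∉ L → w z = 0) :
    ∫ z in Ω, g z * (mad (fun y => u y + w y) z - mad u z) =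
      ∫ s in (0 : ℝ)..1, ∫ z in Ω, w z * mal (fun y => u y + s * w y) g z := by
  have : IsFiniteMeasure ((volume : Measure (Cn n)).restrict L) :=
    ⟨by rw [Measure.restrict_apply_univ]; exact hL.measure_lt_top⟩
  have hTw : ∀ᵐ z ∂((volume : Measure (Cn n)).restrict L), z ∈ L ∧ TwD u z ∧ TwD w z := by
    rw [ae_restrict_iff' hL.measurableSet]
    filter_upwards [hu.ae_twD hΩ, hw.ae_twD hΩ] with z h1 h2 hz
    exact ⟨hz, h1 (hLΩ hz), h2 (hLΩ hz)⟩
  -- step 1
  have e1 : ∫ z in Ω, g z * (mad (fun y => u y + w y) z - mad u z) =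
      ∫ z in L, g z * (mad (fun y => u y + w y) z - mad u z) := by
    refine setIntegral_eq_of_subset_of_forall_sdiff_eq_zero hΩ.measurableSet hLΩ fun z hz => ?_
    rw [(Seg_off hL h0 hz.2).2 u, sub_self, mul_zero]
  -- step 2
  have e2 : ∫ z in L, g z * (mad (fun y => u y + w y) z - mad u z) =
      ∫ z in L, ∫ s in Ioc (0 : ℝ) 1, g z * Seg_H (LM u z) (LM w z) s := by
    refine integral_congr_ae ?_
    filter_upwards [hTw] with z hz
    rw [seg_point hz.2.1 hz.2.2, intervalIntegral.integral_of_le zero_le_one,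
      ← integral_const_mul]
    refine integral_congr_ae (Filter.Eventually.of_forall fun s => ?_)
    simp only
    rw [Seg_mal hz.2.1 hz.2.2 s]
  -- integrability on the product
  have hgc : ContinuousOn g L := hg.continuousOn.mono hLΩ
  obtain ⟨Bg, hBg⟩ := hL.exists_bound_of_continuousOn hgc
  obtain ⟨Cu, hCu0, hCu⟩ := hu.hes_bdd hΩ hL hLΩ
  obtain ⟨Cw, hCw0, hCw⟩ := hw.hes_bdd hΩ hL hLΩ
  obtain ⟨B, hB0, hB⟩ := mad_bdd n (Cu + Cw)
  have hint : Integrable (Function.uncurry fun (z : Cn n) (s : ℝ) =>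
      g z * Seg_H (LM u z) (LM w z) s)
      (((volume : Measure (Cn n)).restrict L).prod ((volume : Measure ℝ).restrict (Ioc 0 1))) := by
    have hm1 : AEStronglyMeasurable (fun p : Cn n × ℝ => g p.1)
        (((volume : Measure (Cn n)).restrict L).prod ((volume : Measure ℝ).restrict (Ioc 0 1))) :=
      (hgc.aestronglyMeasurable hL.measurableSet).comp_fst
    have hm2 : AEStronglyMeasurable (fun p : Cn n × ℝ => Seg_H (LM u p.1) (LM w p.1) p.2)
        (((volume : Measure (Cn n)).restrict L).prod ((volume : Measure ℝ).restrict (Ioc 0 1))) :=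
      (Seg_measH u w).aestronglyMeasurable
    have hae1 : ∀ᵐ p ∂(((volume : Measure (Cn n)).restrict L).prod
        ((volume : Measure ℝ).restrict (Ioc 0 1))), p.1 ∈ L ∧ TwD u p.1 ∧ TwD w p.1 :=
      Measure.quasiMeasurePreserving_fst.ae hTw
    have hae2 : ∀ᵐ p ∂(((volume : Measure (Cn n)).restrict L).prod
        ((volume : Measure ℝ).restrict (Ioc 0 1))), p.2 ∈ Ioc (0 : ℝ) 1 :=
      Measure.quasiMeasurePreserving_snd.ae (ae_restrict_mem measurableSet_Ioc)
    refine Integrable.of_bound (hm1.mul hm2) (|Bg| * B) ?_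
    filter_upwards [hae1, hae2] with p hp1 hp2
    change ‖g p.1 * Seg_H (LM u p.1) (LM w p.1) p.2‖ ≤ |Bg| * B
    rw [norm_mul]
    refine mul_le_mul ((hBg p.1 hp1.1).trans (le_abs_self _)) ?_ (norm_nonneg _) (abs_nonneg _)
    rw [← Seg_mal hp1.2.1 hp1.2.2 p.2, Real.norm_eq_abs]
    refine (hB _ _ _ ?_ ?_).2
    · rw [Seg_hes hp1.2.1 hp1.2.2 p.2]
      refine (norm_add_le (hes u p.1) (p.2 • hes w p.1)).trans ?_
      refine add_le_add (hCu _ hp1.1) ?_
      have h9 : ‖p.2 • hes w p.1‖ ≤ ‖p.2‖ * ‖hes w p.1‖ := ContinuousLinearMap.opNorm_smul_le _ _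
      rw [Real.norm_eq_abs, abs_of_pos hp2.1] at h9
      have h10 : p.2 * ‖hes w p.1‖ ≤ 1 * ‖hes w p.1‖ :=
        mul_le_mul_of_nonneg_right hp2.2 (ContinuousLinearMap.opNorm_nonneg _)
      have h11 := hCw _ hp1.1
      linarith
    · have := hCw _ hp1.1
      linarith
  -- step 3
  have e3 := integral_integral_swap hint
  rw [e1, e2, e3, intervalIntegral.integral_of_le zero_le_one]
  refine integral_congr_ae (Filter.Eventually.of_forall fun s => ?_)
  simp only
  have hus : C11 Ω (fun y => u y + s * w y) := hu.add hΩ (hw.const_mul hΩ s)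
  rw [(ibp11 hΩ hus hw hg hL hLΩ h0).2.2]
  have e4 : ∫ z in Ω, g z * mal (fun y => u y + s * w y) w z =
      ∫ z in L, g z * mal (fun y => u y + s * w y) w z := by
    refine setIntegral_eq_of_subset_of_forall_sdiff_eq_zero hΩ.measurableSet hLΩ fun z hz => ?_
    rw [Seg_mal_off hL h0 hz.2, mul_zero]
  rw [e4]
  refine integral_congr_ae ?_
  filter_upwards [hTw] with z hz
  rw [Seg_mal hz.2.1 hz.2.2 s]

theorem Seg_mad_int (hΩ : IsOpen Ω) (hu : C11 Ω u) {L : Set (Cn n)}
    (hL : IsCompact L) (hLΩ : L ⊆ Ω) : IntegrableOn (fun z => mad u z) L := by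
  obtain ⟨Cu, hCu0, hCu⟩ := hu.hes_bdd hΩ hL hLΩ
  obtain ⟨B, hB0, hB⟩ := mad_bdd n Cu
  refine Measure.integrableOn_of_bounded (M := B) hL.measure_lt_top.ne
    (measurable_mad u).aestronglyMeasurable ?_
  filter_upwards [ae_restrict_mem hL.measurableSet] with z hz
  rw [Real.norm_eq_abs]
  exact (hB u u z (hCu z hz) (hCu z hz)).1

/-- equality of masses -/
theorem seg_mass (hΩ : IsOpen Ω) (hu : C11 Ω u) (hw : C11 Ω w) {L : Set (Cn n)}
    (hL : IsCompact L) (hLΩ : L ⊆ Ω) (h0 : ∀ z, z ∉ L → w z = 0) :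
    ∫ z in L, mad (fun y => u y + w y) z = ∫ z in L, mad u z := by
  have hg : C11 Ω (fun _ : Cn n => (1 : ℝ)) := c11_of_contDiffOn hΩ contDiffOn_const
  have h := seg_mad hΩ hu hw hg hL hLΩ h0
  have hr : ∫ s in (0 : ℝ)..1, ∫ z in Ω, w z * mal (fun y => u y + s * w y)
      (fun _ : Cn n => (1 : ℝ)) z = 0 := by
    have : ∀ (s : ℝ) (z : Cn n), mal (fun y => u y + s * w y) (fun _ : Cn n => (1 : ℝ)) z = 0 := by
      intro s z
      unfold mal
      rw [LM_const]
      simp
    simp [this]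
  rw [hr] at h
  have e1 : ∫ z in Ω, (1 : ℝ) * (mad (fun y => u y + w y) z - mad u z) =
      ∫ z in L, (1 : ℝ) * (mad (fun y => u y + w y) z - mad u z) := by
    refine setIntegral_eq_of_subset_of_forall_sdiff_eq_zero hΩ.measurableSet hLΩ fun z hz => ?_
    rw [(Seg_off hL h0 hz.2).2 u, sub_self, mul_zero]
  rw [e1] at h
  simp only [one_mul] at h
  rw [integral_sub (Seg_mad_int hΩ (hu.add hΩ hw) hL hLΩ) (Seg_mad_int hΩ hu hL hLΩ)] at h
  linarith

end HMA

end S_KM_Seg

section S_KM_CPn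

/-! # Module CPn: comparison of Monge-Ampère masses -/

open MeasureTheory Metric Set
open scoped ENNReal Topology ContDiff ComplexOrder

namespace HMA

/-- the derivative of `θ` -/
noncomputable def cpn_t (η x : ℝ) : ℝ := Real.smoothTransition ((x + η) / (2 * η))

theorem cpn_t_smooth (η : ℝ) : ContDiff ℝ ∞ (cpn_t η) := by
  unfold cpn_t
  have h1 : ContDiff ℝ ∞ Real.smoothTransition := Real.smoothTransition.contDiff
  exact h1.comp ((contDiff_id.add contDiff_const).div_const _)

theorem cpn_t_mono {η : ℝ} (hη : 0 < η) : Monotone (cpn_t η) := by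
  intro x y hxy
  unfold cpn_t
  refine Real.smoothTransition.monotone ?_
  exact div_le_div_of_nonneg_right (by linarith) (by positivity)

theorem cpn_t_neg {η : ℝ} (hη : 0 < η) {x : ℝ} (hx : x ≤ -η) : cpn_t η x = 0 := by
  unfold cpn_t
  refine Real.smoothTransition.zero_of_nonpos ?_
  exact div_nonpos_of_nonpos_of_nonneg (by linarith) (by positivity)

theorem cpn_t_pos {η : ℝ} (hη : 0 < η) {x : ℝ} (hx : η ≤ x) : cpn_t η x = 1 := by
  unfold cpn_t
  refine Real.smoothTransition.one_of_one_le ?_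
  rw [le_div_iff₀ (by positivity)]
  linarith

theorem cpn_t_symm {η : ℝ} (hη : 0 < η) (x : ℝ) : cpn_t η x + cpn_t η (-x) = 1 := by
  unfold cpn_t
  have h1 : (-x + η) / (2 * η) = 1 - (x + η) / (2 * η) := by
    field_simp
    ring
  rw [h1]
  generalize (x + η) / (2 * η) = y
  unfold Real.smoothTransition
  have h2 := Real.smoothTransition.pos_denom y
  have h3 : expNegInvGlue (1 - y) + expNegInvGlue (1 - (1 - y)) =
      expNegInvGlue y + expNegInvGlue (1 - y) := by
    rw [sub_sub_cancel]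
    ring
  rw [h3, ← add_div, div_self h2.ne']

/-- a smooth convex function with `θ x = 0` for `x ≤ -η`, `θ x = x` for `x ≥ η` -/
theorem exists_theta {η : ℝ} (hη : 0 < η) : ∃ θ : ℝ → ℝ, ContDiff ℝ ∞ θ ∧
    (∀ x, x ≤ -η → θ x = 0) ∧ (∀ x, η ≤ x → θ x = x) ∧
    (∀ x, 0 ≤ deriv θ x ∧ deriv θ x ≤ 1) ∧ (∀ x, 0 ≤ deriv (deriv θ) x) ∧
    ∀ x, max x 0 ≤ θ x ∧ θ x ≤ max x 0 + η := by
  have hcont : Continuous (cpn_t η) := (cpn_t_smooth η).continuous
  have hint : ∀ a b : ℝ, IntervalIntegrable (cpn_t η) volume a b := fun a b =>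
    hcont.intervalIntegrable a b
  let θ : ℝ → ℝ := fun x => ∫ y in (-η)..x, cpn_t η y
  have hd : ∀ x, HasDerivAt θ (cpn_t η x) x := fun x =>
    intervalIntegral.integral_hasDerivAt_right (hint _ _)
      (hcont.stronglyMeasurableAtFilter _ _) hcont.continuousAt
  have hderiv : deriv θ = cpn_t η := funext fun x => (hd x).deriv
  have hsm : ContDiff ℝ ∞ θ := by
    rw [contDiff_infty_iff_deriv]
    exact ⟨fun x => (hd x).differentiableAt, by rw [hderiv]; exact cpn_t_smooth η⟩
  have h01 : ∀ x, 0 ≤ cpn_t η x ∧ cpn_t η x ≤ 1 := fun x =>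
    ⟨Real.smoothTransition.nonneg _, Real.smoothTransition.le_one _⟩
  have hθ0 : ∀ x, x ≤ -η → θ x = 0 := by
    intro x hx
    show ∫ y in (-η)..x, cpn_t η y = 0
    rw [intervalIntegral.integral_congr (g := fun _ => (0 : ℝ))]
    · simp
    · intro y hy
      rw [uIcc_of_ge hx] at hy
      exact cpn_t_neg hη hy.2
  have hθη : θ η = η := by
    have h1 : θ η = ∫ y in (-η)..η, cpn_t η y := rfl
    have h2 : ∫ y in (-η)..η, cpn_t η (-y) = ∫ y in (-η)..η, cpn_t η y := by
      have h3 := intervalIntegral.integral_comp_neg (a := -η) (b := η) (f := cpn_t η)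
      rw [neg_neg] at h3
      exact h3
    have h4 : (∫ y in (-η)..η, cpn_t η y) + ∫ y in (-η)..η, cpn_t η (-y) = 2 * η := by
      have hint' : IntervalIntegrable (fun y => cpn_t η (-y)) volume (-η) η :=
        (hcont.comp continuous_neg).intervalIntegrable _ _
      rw [← intervalIntegral.integral_add (hint _ _) hint']
      rw [intervalIntegral.integral_congr (g := fun _ => (1 : ℝ)) (fun y _ => cpn_t_symm hη y)]
      simp
      ring
    rw [h2] at h4
    rw [h1]
    linarith
  have hθ1 : ∀ x, η ≤ x → θ x = x := by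
    intro x hx
    have h1 : θ x = θ η + ∫ y in η..x, cpn_t η y :=
      (intervalIntegral.integral_add_adjacent_intervals (hint _ _) (hint _ _)).symm
    have h2 : ∫ y in η..x, cpn_t η y = x - η := by
      rw [intervalIntegral.integral_congr (g := fun _ => (1 : ℝ))]
      · simp
      · intro y hy
        rw [uIcc_of_le hx] at hy
        exact cpn_t_pos hη hy.1
    rw [h1, h2, hθη]
    ring
  have hmono : Monotone θ := by
    refine monotone_of_deriv_nonneg (fun x => (hd x).differentiableAt) (fun x => ?_)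
    rw [hderiv]
    exact (h01 x).1
  have hanti : Antitone (fun x => θ x - x) := by
    refine antitone_of_deriv_nonpos
      (fun x => ((hd x).sub (hasDerivAt_id x)).differentiableAt) (fun x => ?_)
    have h1 : deriv (fun x => θ x - x) x = cpn_t η x - 1 :=
      ((hd x).sub (hasDerivAt_id x)).deriv
    rw [h1]
    linarith [(h01 x).2]
  refine ⟨θ, hsm, hθ0, hθ1, fun x => by rw [hderiv]; exact h01 x, fun x => ?_, fun x => ?_⟩
  · rw [hderiv]
    exact (cpn_t_mono hη).deriv_nonneg
  · have hnn : 0 ≤ θ x := by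
      rcases le_total x (-η) with h | h
      · rw [hθ0 x h]
      · rw [← hθ0 (-η) le_rfl]
        exact hmono h
    rcases le_total x η with h | h
    · have h1 : x ≤ θ x := by
        have h2 := hanti h
        simp only [hθη, sub_self] at h2
        linarith
      refine ⟨max_le h1 hnn, ?_⟩
      have h3 : θ x ≤ η := by
        rw [← hθη]
        exact (hmono h).trans (le_of_eq (by rw [hθη]))
      have h4 := le_max_right x 0
      linarith
    · rw [hθ1 x h]
      have h4 : max x 0 = x := max_eq_left (by linarith)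
      rw [h4]
      exact ⟨le_refl _, by linarith⟩

theorem cpn_int {n : ℕ} {Ω : Set (Cn n)} (hΩ : IsOpen Ω) {u : Cn n → ℝ} (hu : C11 Ω u)
    {L : Set (Cn n)} (hL : IsCompact L) (hLΩ : L ⊆ Ω) : IntegrableOn (mad u) L := by
  obtain ⟨C, hC0, hC⟩ := C11.hes_bdd hΩ hu hL hLΩ
  obtain ⟨B, hB0, hB⟩ := mad_bdd n C
  have hfin : volume L < ⊤ := hL.measure_lt_top
  refine Measure.integrableOn_of_bounded (M := B) hfin.ne
    (measurable_mad u).aestronglyMeasurable ?_
  rw [ae_restrict_iff' hL.measurableSet]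
  exact Filter.Eventually.of_forall (fun z hz => (hB u u z (hC z hz) (hC z hz)).1)

theorem cp {n : ℕ} {Ω : Set (Cn n)} (hΩ : IsOpen Ω) {v h : Cn n → ℝ} (hv : C11 Ω v)
    (hh : C11 Ω h) (hvs : SubOn Ω v) (hhs : SubOn Ω h) {L : Set (Cn n)} (hL : IsCompact L)
    (hLΩ : L ⊆ Ω) {η : ℝ} (hη : 0 < η) (h1 : ∀ z ∈ Ω, z ∉ L → v z ≤ h z - η) :
    ∫⁻ z in {z | z ∈ Ω ∧ h z + η < v z}, ENNReal.ofReal (mad v z) ≤
      ∫⁻ z in L, ENNReal.ofReal (mad h z) := by
  classical
  obtain ⟨θ, hθ, hθ0, hθ1, hθ2, hθ3, -⟩ := exists_theta hη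
  have hθ2' : ContDiff ℝ 2 θ := by exact_mod_cast contDiff_infty.1 hθ 2
  let d : Cn n → ℝ := fun z => v z + (-1) * h z
  have hd : C11 Ω d := C11.add hΩ hv (C11.const_mul hΩ hh (-1))
  have hθd : C11 Ω (fun z => θ (d z)) := C11.comp_real hΩ hd hθ2'
  let w : Cn n → ℝ := fun z => if z ∈ Ω then θ (d z) else 0
  have hwΩ : ∀ z ∈ Ω, w z = θ (d z) := fun z hz => if_pos hz
  have hw : C11 Ω w := C11.congr hΩ hθd hwΩ
  have hw0 : ∀ z, z ∉ L → w z = 0 := by
    intro z hz
    by_cases hzΩ : z ∈ Ω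
    · rw [hwΩ z hzΩ]
      refine hθ0 _ ?_
      have h2 := h1 z hzΩ hz
      show v z + (-1) * h z ≤ -η
      linarith
    · exact if_neg hzΩ
  have hm : C11 Ω (fun z => h z + w z) := C11.add hΩ hh hw
  have hmass := seg_mass hΩ hh hw hL hLΩ hw0
  -- positivity
  have hpos_h : ∀ᵐ z : Cn n, z ∈ Ω → 0 ≤ mad h z := by
    filter_upwards [(c11_sub_iff hΩ hh).1 hhs] with z hz hzΩ
    exact (mat_det_nonneg (hz hzΩ)).1
  have hpos_m : ∀ᵐ z : Cn n, z ∈ Ω → 0 ≤ mad (fun z => h z + w z) z := by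
    filter_upwards [(c11_sub_iff hΩ hh).1 hhs, (c11_sub_iff hΩ hv).1 hvs, C11.ae_twD hΩ hv,
      C11.ae_twD hΩ hh] with z hz1 hz2 hz3 hz4 hzΩ
    obtain ⟨h5, h6⟩ := (hz4 hzΩ).const_mul (-1)
    obtain ⟨h7, h8⟩ := (hz3 hzΩ).add h5
    obtain ⟨h9, G, hG, h10⟩ := h7.comp_real hθ2'
    obtain ⟨-, h11⟩ := (hz4 hzΩ).add h9
    have h12 : LM (fun z => h z + w z) z = LM (fun z => h z + θ (v z + (-1) * h z)) z := by
      refine LM_congr ?_
      filter_upwards [hΩ.mem_nhds hzΩ] with y hy
      rw [hwΩ y hy]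
    have h13 : LM (fun z => h z + w z) z =
        ((1 - deriv θ (v z + (-1) * h z) : ℝ) : ℂ) • LM h z +
        ((deriv θ (v z + (-1) * h z) : ℝ) : ℂ) • LM v z +
        ((deriv (deriv θ) (v z + (-1) * h z) : ℝ) : ℂ) • G := by
      rw [h12, h11, h10, h8, h6]
      push_cast
      rw [smul_add, smul_smul, sub_smul, one_smul]
      have h14 : (((deriv θ (v z + (-1) * h z) : ℝ) : ℂ) * (-1)) • LM h z =
          -(((deriv θ (v z + (-1) * h z) : ℝ) : ℂ) • LM h z) := by
        rw [mul_neg, mul_one, neg_smul]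
      rw [h14]
      abel
    have h15 : (LM (fun z => h z + w z) z).PosSemidef := by
      rw [h13]
      have ht := hθ2 (v z + (-1) * h z)
      refine ((Matrix.PosSemidef.smul (hz1 hzΩ) ?_).add
        (Matrix.PosSemidef.smul (hz2 hzΩ) ?_)).add (Matrix.PosSemidef.smul hG ?_)
      · exact Complex.zero_le_real.2 (by linarith [ht.2])
      · exact Complex.zero_le_real.2 ht.1
      · exact Complex.zero_le_real.2 (hθ3 _)
    exact (mat_det_nonneg h15).1
  -- the set
  set U : Set (Cn n) := {z | z ∈ Ω ∧ h z + η < v z} with hU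
  have hUL : U ⊆ L := by
    rintro z ⟨hz1, hz2⟩
    by_contra hzL
    have := h1 z hz1 hzL
    linarith
  have hUopen : IsOpen U := by
    have h2 : ContinuousOn (fun z => v z - (h z + η)) Ω :=
      hv.continuousOn.sub (hh.continuousOn.add continuousOn_const)
    have h3 : U = Ω ∩ (fun z => v z - (h z + η)) ⁻¹' (Ioi 0) := by
      ext z
      simp only [hU, mem_ofPred_eq, mem_inter_iff, mem_preimage, mem_Ioi, sub_pos]
    rw [h3]
    exact h2.isOpen_inter_preimage hΩ isOpen_Ioi
  have hmv : ∀ z ∈ U, mad v z = mad (fun z => h z + w z) z := by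
    intro z hz
    unfold mad
    rw [LM_congr (z := z) (u := v) (v := fun z => h z + w z)]
    filter_upwards [hUopen.mem_nhds hz] with y hy
    rw [hwΩ y hy.1, hθ1]
    · show v y = h y + (v y + (-1) * h y)
      ring
    · show η ≤ v y + (-1) * h y
      linarith [hy.2]
  have hposL : ∀ u : Cn n → ℝ, (∀ᵐ z : Cn n, z ∈ Ω → 0 ≤ mad u z) →
      0 ≤ᵐ[volume.restrict L] mad u := by
    intro u hu
    rw [Filter.EventuallyLE, ae_restrict_iff' hL.measurableSet]
    filter_upwards [hu] with z hz hzL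
    exact hz (hLΩ hzL)
  calc ∫⁻ z in U, ENNReal.ofReal (mad v z) =
        ∫⁻ z in U, ENNReal.ofReal (mad (fun z => h z + w z) z) :=
        setLIntegral_congr_fun hUopen.measurableSet (fun z hz => by rw [hmv z hz])
    _ ≤ ∫⁻ z in L, ENNReal.ofReal (mad (fun z => h z + w z) z) := lintegral_mono_set hUL
    _ = ENNReal.ofReal (∫ z in L, mad (fun z => h z + w z) z) :=
        (ofReal_integral_eq_lintegral_ofReal (cpn_int hΩ hm hL hLΩ) (hposL _ hpos_m)).symm
    _ = ENNReal.ofReal (∫ z in L, mad h z) := by rw [hmass]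
    _ = ∫⁻ z in L, ENNReal.ofReal (mad h z) :=
        ofReal_integral_eq_lintegral_ofReal (cpn_int hΩ hh hL hLΩ) (hposL _ hpos_h)

end HMA

end S_KM_CPn
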