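import Mathlib
import Pool.Agent.H85.MG.G3a
import Pool.Agent.H85.MG.G3c

/-! Moderate measures and Hölder continuous potentials, part G4b: this file joins several modules to save build time. -/

section S_MA_ClosedIneq

/-! # Module CLOSED: the inequality for weakly closed `L²` forms (cut off and mollify) -/

set_option autoImplicit false
open MeasureTheory Metric Set
open scoped ENNReal Topology ContDiff

namespace HMA

/-- `L²` convergence of functions supported in `K` -/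
private structure Cvl {n : ℕ} (K : Set (Cn n)) (u : ℕ → Cn n → ℂ) (v : Cn n → ℂ) : Prop where
  mu : ∀ k, MemLp (u k) 2 volume
  mv : MemLp v 2 volume
  sk : ∀ k, ∀ z ∉ K, u k z = 0
  sv : ∀ z ∉ K, v z = 0
  lim : Filter.Tendsto (fun k => eLpNorm (fun z => u k z - v z) 2 volume) Filter.atTop (𝓝 0)

private theorem Cvl.add {n : ℕ} {K : Set (Cn n)} {u u' : ℕ → Cn n → ℂ} {v v' : Cn n → ℂ}
    (h : Cvl K u v) (h' : Cvl K u' v') :
    Cvl K (fun k z => u k z + u' k z) (fun z => v z + v' z) where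
  mu k := (h.mu k).add (h'.mu k)
  mv := h.mv.add h'.mv
  sk k z hz := by rw [h.sk k z hz, h'.sk k z hz, add_zero]
  sv z hz := by rw [h.sv z hz, h'.sv z hz, add_zero]
  lim := by
    have h0 : Filter.Tendsto (fun k => eLpNorm (fun z => u k z - v z) 2 volume +
        eLpNorm (fun z => u' k z - v' z) 2 volume) Filter.atTop (𝓝 0) := by
      simpa using h.lim.add h'.lim
    refine tendsto_of_tendsto_of_tendsto_of_le_of_le tendsto_const_nhds h0 (fun _ => zero_le)
      (fun k => ?_)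
    have h1 : (fun z => u k z + u' k z - (v z + v' z)) =
        (fun z => u k z - v z) + (fun z => u' k z - v' z) := by
      ext z; simp only [Pi.add_apply]; ring
    show eLpNorm (fun z => u k z + u' k z - (v z + v' z)) 2 volume ≤ _
    rw [h1]
    exact eLpNorm_add_le ((h.mu k).sub h.mv).1 ((h'.mu k).sub h'.mv).1 (by norm_num)

private theorem Cvl.mul {n : ℕ} {K : Set (Cn n)} (hK : IsCompact K) {u : ℕ → Cn n → ℂ}
    {v : Cn n → ℂ} (h : Cvl K u v) {c : Cn n → ℂ} (hc : Continuous c) :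
    Cvl K (fun k z => c z * u k z) (fun z => c z * v z) := by
  obtain ⟨C, hC⟩ := hK.exists_bound_of_continuousOn hc.continuousOn
  have hb : ∀ {f : Cn n → ℂ}, (∀ z ∉ K, f z = 0) → ∀ z, ‖c z * f z‖ ≤ C * ‖f z‖ := by
    intro f hf z
    by_cases hz : z ∈ K
    · rw [norm_mul]; exact mul_le_mul_of_nonneg_right (hC z hz) (norm_nonneg _)
    · rw [hf z hz]; simp
  refine ⟨fun k => ?_, ?_, fun k z hz => by rw [h.sk k z hz, mul_zero], fun z hz => by
    rw [h.sv z hz, mul_zero], ?_⟩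
  · exact MemLp.of_le_mul (h.mu k) (hc.aestronglyMeasurable.mul (h.mu k).1)
      (Filter.Eventually.of_forall (hb (h.sk k)))
  · exact MemLp.of_le_mul h.mv (hc.aestronglyMeasurable.mul h.mv.1)
      (Filter.Eventually.of_forall (hb h.sv))
  · have h0 : Filter.Tendsto (fun k => ENNReal.ofReal C * eLpNorm (fun z => u k z - v z) 2 volume)
        Filter.atTop (𝓝 0) := by
      have := ENNReal.Tendsto.const_mul (a := ENNReal.ofReal C) h.lim (Or.inr ENNReal.ofReal_ne_top)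
      simpa using this
    refine tendsto_of_tendsto_of_tendsto_of_le_of_le tendsto_const_nhds h0 (fun _ => zero_le)
      (fun k => ?_)
    apply eLpNorm_le_mul_eLpNorm_of_ae_le_mul
    refine Filter.Eventually.of_forall fun z => ?_
    have h1 := hb (f := fun z => u k z - v z) (fun z hz => by rw [h.sk k z hz, h.sv z hz, sub_zero]) z
    rwa [mul_sub] at h1

private theorem Cvl.zero {n : ℕ} (K : Set (Cn n)) : Cvl K (fun _ _ => 0) (fun _ => 0) where
  mu _ := MemLp.zero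
  mv := MemLp.zero
  sk _ _ _ := rfl
  sv _ _ := rfl
  lim := by simp

private theorem Cvl.sum {n : ℕ} {K : Set (Cn n)} {ι : Type*} (s : Finset ι)
    {u : ι → ℕ → Cn n → ℂ} {v : ι → Cn n → ℂ} (h : ∀ i ∈ s, Cvl K (u i) (v i)) :
    Cvl K (fun k z => ∑ i ∈ s, u i k z) (fun z => ∑ i ∈ s, v i z) := by
  classical
  induction s using Finset.induction_on with
  | empty => simpa using Cvl.zero K
  | insert a s ha ih =>
    simp only [Finset.sum_insert ha]
    exact (h a (Finset.mem_insert_self a s)).add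
      (ih fun i hi => h i (Finset.mem_insert_of_mem hi))

private theorem Cvl.sq {n : ℕ} {K : Set (Cn n)} {u : ℕ → Cn n → ℂ}
    {v : Cn n → ℂ} (h : Cvl K u v) :
    Filter.Tendsto (fun k => ∫ z, ‖u k z‖ ^ 2) Filter.atTop (𝓝 (∫ z, ‖v z‖ ^ 2)) := by
  have hn : ∀ {f : Cn n → ℂ} (hf : MemLp f 2 volume), ‖hf.toLp f‖ ^ 2 = ∫ z, ‖f z‖ ^ 2 := by
    intro f hf
    rw [← @inner_self_eq_norm_sq ℂ, L2.inner_def]
    have h1 : ∫ a, inner ℂ ((hf.toLp f : Cn n → ℂ) a) ((hf.toLp f : Cn n → ℂ) a) =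
        ((∫ z, ‖f z‖ ^ 2 : ℝ) : ℂ) := by
      rw [← integral_complex_ofReal]
      apply integral_congr_ae
      filter_upwards [hf.coeFn_toLp] with z hz
      rw [hz, inner_self_eq_norm_sq_to_K]
      push_cast
      rfl
    rw [h1]
    simp
  have h2 := (Lp.tendsto_Lp_iff_tendsto_eLpNorm'' (fi := Filter.atTop) u h.mu v h.mv).2 h.lim
  have h3 := (h2.norm).pow 2
  simpa only [hn] using h3

/-- integrability of weighted squares -/
private theorem cl_int {n : ℕ} {K : Set (Cn n)} (hK : IsCompact K) {v : Cn n → ℂ}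
    (hv : MemLp v 2 volume) (hs : ∀ z ∉ K, v z = 0) {w : Cn n → ℝ} (hw : Continuous w) :
    Integrable (fun z => w z * ‖v z‖ ^ 2) volume := by
  obtain ⟨C, hC⟩ := hK.exists_bound_of_continuousOn hw.continuousOn
  have h1 : Integrable (fun z => ‖v z‖ ^ 2) volume := by
    have := hv.norm.integrable_sq
    exact this
  refine Integrable.mono' (h1.const_mul C) (hw.aestronglyMeasurable.mul h1.1) ?_
  refine Filter.Eventually.of_forall fun z => ?_
  by_cases hz : z ∈ K
  · rw [norm_mul, Real.norm_eq_abs (‖v z‖ ^ 2), abs_of_nonneg (by positivity)]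
    exact mul_le_mul_of_nonneg_right (hC z hz) (by positivity)
  · rw [hs z hz]; simp

private theorem Cvl.wsq {n : ℕ} {K : Set (Cn n)} (hK : IsCompact K) {u : ℕ → Cn n → ℂ}
    {v : Cn n → ℂ} (h : Cvl K u v) {w : Cn n → ℝ} (hw : Continuous w) (hw0 : ∀ z, 0 ≤ w z) :
    Filter.Tendsto (fun k => ∫ z, w z * ‖u k z‖ ^ 2) Filter.atTop
      (𝓝 (∫ z, w z * ‖v z‖ ^ 2)) := by
  have h1 := (h.mul hK (c := fun z => ((Real.sqrt (w z) : ℝ) : ℂ))
    (Complex.continuous_ofReal.comp (Real.continuous_sqrt.comp hw))).sq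
  have h2 : ∀ (f : Cn n → ℂ) (z : Cn n), ‖((Real.sqrt (w z) : ℝ) : ℂ) * f z‖ ^ 2 =
      w z * ‖f z‖ ^ 2 := by
    intro f z
    rw [norm_mul, mul_pow, Complex.norm_real, Real.norm_eq_abs, sq_abs, Real.sq_sqrt (hw0 z)]
  simpa only [h2] using h1

/-- locally square integrable times test function -/
private theorem cl_memLp {n : ℕ} {φ : Cn n → ℝ} (hφ : Continuous φ) {b : Cn n → ℂ}
    (hbm : AEStronglyMeasurable b volume)
    (hb : Integrable (fun z => ‖b z‖ ^ 2 * Real.exp (-φ z)) volume) {c : Cn n → ℂ}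
    (hc : Continuous c) (hcs : HasCompactSupport c) : MemLp (fun z => b z * c z) 2 volume := by
  have hE : Continuous (fun z => Real.exp (-φ z / 2)) := by fun_prop
  have h1 : MemLp (fun z => ‖b z‖ * Real.exp (-φ z / 2)) 2 volume := by
    refine (memLp_two_iff_integrable_sq (f := fun z => ‖b z‖ * Real.exp (-φ z / 2))
      (hbm.norm.mul hE.aestronglyMeasurable)).2 ?_
    refine hb.congr (Filter.Eventually.of_forall fun z => ?_)
    show ‖b z‖ ^ 2 * Real.exp (-φ z) = (‖b z‖ * Real.exp (-φ z / 2)) ^ 2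
    rw [mul_pow, ← Real.exp_nat_mul]
    congr 2
    push_cast
    ring
  have hcc : Continuous (fun z => c z * ((Real.exp (φ z / 2) : ℝ) : ℂ)) := by fun_prop
  have hccs : HasCompactSupport (fun z => c z * ((Real.exp (φ z / 2) : ℝ) : ℂ)) := hcs.mul_right
  obtain ⟨C, hC⟩ := hccs.exists_bound_of_continuous hcc
  refine MemLp.of_le_mul (c := C) h1 (hbm.mul hc.aestronglyMeasurable)
    (Filter.Eventually.of_forall fun z => ?_)
  have h2 : ‖b z * c z‖ = ‖c z * ((Real.exp (φ z / 2) : ℝ) : ℂ)‖ * (‖b z‖ * Real.exp (-φ z / 2)) := by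
    rw [norm_mul, norm_mul, Complex.norm_real, Real.norm_eq_abs, abs_of_pos (Real.exp_pos _)]
    have h3 : Real.exp (φ z / 2) * Real.exp (-φ z / 2) = 1 := by
      rw [← Real.exp_add, show φ z / 2 + -φ z / 2 = 0 by ring, Real.exp_zero]
    calc ‖b z‖ * ‖c z‖ = ‖c z‖ * ‖b z‖ * 1 := by ring
      _ = ‖c z‖ * ‖b z‖ * (Real.exp (φ z / 2) * Real.exp (-φ z / 2)) := by rw [h3]
      _ = _ := by ring
  rw [h2, Real.norm_eq_abs, abs_of_nonneg (by positivity)]
  exact mul_le_mul_of_nonneg_right (hC z) (by positivity)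

private theorem cl_comp_int {n : ℕ} {φ : Cn n → ℝ} (hφ : Continuous φ) {β : Cn n → Cn n}
    (hβm : AEStronglyMeasurable β volume)
    (hβ : Integrable (fun z => ‖β z‖ ^ 2 * Real.exp (-φ z)) volume) (j : Fin n) :
    AEStronglyMeasurable (fun z => β z j) volume ∧
      Integrable (fun z => ‖β z j‖ ^ 2 * Real.exp (-φ z)) volume := by
  have h1 : AEStronglyMeasurable (fun z => β z j) volume := by
    have h2 : Continuous (fun x : Cn n => x j) := by fun_prop
    exact h2.comp_aestronglyMeasurable hβm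
  have hE : Continuous (fun z => Real.exp (-φ z)) := by fun_prop
  refine ⟨h1, hβ.mono' ((h1.norm.pow 2).mul hE.aestronglyMeasurable)
    (Filter.Eventually.of_forall fun z => ?_)⟩
  rw [Real.norm_eq_abs, abs_of_nonneg (by positivity)]
  have h3 : ‖β z j‖ ≤ ‖β z‖ := PiLp.norm_apply_le (β z) j
  exact mul_le_mul_of_nonneg_right (pow_le_pow_left₀ (norm_nonneg _) h3 2) (Real.exp_pos _).le

private theorem cl_lev_cont {n : ℕ} {φ : Cn n → ℝ} (hφ : ContDiff ℝ ∞ φ) {α : Fin n → Cn n → ℂ}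
    (hα : ∀ j, Continuous (α j)) : Continuous (fun z => lev φ z (vec (fun j => α j z))) := by
  have hφc : ContDiff ℝ ∞ (fun w => (φ w : ℂ)) := Complex.ofRealCLM.contDiff.comp hφ
  have h1 : Continuous (fun z => ((lev φ z (vec (fun j => α j z)) : ℝ) : ℂ)) := by
    simp only [lev_eq hφ]
    refine continuous_finsetSum _ fun j _ => continuous_finsetSum _ fun k _ => ?_
    have h2 : Continuous (db k (dd j (fun w => (φ w : ℂ)))) := (smooth_db (smooth_dd hφc j) k).continuous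
    have h3 : ∀ i, Continuous (fun z => (vec (fun j => α j z) : Cn n) i) := fun i => hα i
    exact (h2.mul (h3 j)).mul (Complex.continuous_conj.comp (h3 k))
  have h4 := Complex.continuous_re.comp h1
  exact h4

/-- the inequality after cutting off -/
private theorem cl_cut {n : ℕ} {φ : Cn n → ℝ} (hφ : ContDiff ℝ ∞ φ) {κ : Cn n → ℝ}
    (hκc : Continuous κ) (hκ0 : ∀ z, 0 < κ z) (hκ : ∀ z ξ, κ z * ‖ξ‖ ^ 2 ≤ lev φ z ξ)
    {β : Cn n → Cn n} (hβm : AEStronglyMeasurable β volume)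
    (hβ : Integrable (fun z => ‖β z‖ ^ 2 * Real.exp (-φ z)) volume)
    (hcl : ∀ j k : Fin n, ∀ f : Cn n → ℂ, Tst f →
      ∫ z, (β z k * db j f z - β z j * db k f z) = 0)
    {g : Cn n → ℂ} (hgm : AEStronglyMeasurable g volume)
    (hg : Integrable (fun z => ‖g z‖ ^ 2 * Real.exp (-φ z)) volume)
    (hadj : ∀ f : Cn n → ℂ, Tst f →
      ∫ z, ∑ j, β z j * (dd j f z + dd j (fun w => (φ w : ℂ)) z * f z) = ∫ z, g z * f z)
    {θ : Cn n → ℂ} (hθ : Tst θ) :
    (∀ j, Integrable (fun z => (κ z * Real.exp (-φ z)) * ‖β z j * θ z‖ ^ 2) volume) ∧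
    Integrable (fun z => Real.exp (-φ z) * ‖g z * θ z - ∑ j, β z j * dd j θ z‖ ^ 2) volume ∧
    (∀ j k, Integrable (fun z => Real.exp (-φ z) *
      ‖β z k * db j θ z - β z j * db k θ z‖ ^ 2) volume) ∧
    ∑ j, ∫ z, (κ z * Real.exp (-φ z)) * ‖β z j * θ z‖ ^ 2 ≤
      (∫ z, Real.exp (-φ z) * ‖g z * θ z - ∑ j, β z j * dd j θ z‖ ^ 2) +
      (1 / 2) * ∑ j, ∑ k, ∫ z, Real.exp (-φ z) * ‖β z k * db j θ z - β z j * db k θ z‖ ^ 2 := by
  classical
  have hφ0 : Continuous φ := hφ.continuous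
  have hE : Continuous (fun z => Real.exp (-φ z)) := by fun_prop
  have hφc : ContDiff ℝ ∞ (fun w => (φ w : ℂ)) := Complex.ofRealCLM.contDiff.comp hφ
  have hθc : Continuous θ := hθ.smooth.continuous
  have hddθ : ∀ j, Tst (dd j θ) := fun j => hθ.dd j
  have hdbθ : ∀ j, Tst (db j θ) := fun j => hθ.db j
  have hφj : ∀ j, Continuous (dd j (fun w => (φ w : ℂ))) := fun j => (smooth_dd hφc j).continuous
  have hβj := fun j => cl_comp_int hφ0 hβm hβ j
  -- the compact set
  set K : Set (Cn n) := tsupport θ with hKdef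
  have hK : IsCompact K := hθ.supp
  have hθ0 : ∀ z ∉ K, θ z = 0 := fun z hz => image_eq_zero_of_notMem_tsupport hz
  have hdd0 : ∀ j, ∀ z ∉ K, dd j θ z = 0 := by
    intro j z hz
    have h1 : fderiv ℝ θ z = 0 := by
      have : z ∉ tsupport (fderiv ℝ θ) := fun h => hz (tsupport_fderiv_subset ℝ h)
      exact image_eq_zero_of_notMem_tsupport this
    simp [dd, h1]
  have hdb0 : ∀ j, ∀ z ∉ K, db j θ z = 0 := by
    intro j z hz
    have h1 : fderiv ℝ θ z = 0 := by
      have : z ∉ tsupport (fderiv ℝ θ) := fun h => hz (tsupport_fderiv_subset ℝ h)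
      exact image_eq_zero_of_notMem_tsupport this
    simp [db, h1]
  -- square integrability
  have mG : ∀ j, MemLp (fun z => β z j * θ z) 2 volume := fun j =>
    cl_memLp hφ0 (hβj j).1 (hβj j).2 hθc hθ.supp
  have mg : MemLp (fun z => g z * θ z) 2 volume := cl_memLp hφ0 hgm hg hθc hθ.supp
  have mD : ∀ i j, MemLp (fun z => β z i * dd j θ z) 2 volume := fun i j =>
    cl_memLp hφ0 (hβj i).1 (hβj i).2 (hddθ j).smooth.continuous (hddθ j).supp
  have mB : ∀ i j, MemLp (fun z => β z i * db j θ z) 2 volume := fun i j =>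
    cl_memLp hφ0 (hβj i).1 (hβj i).2 (hdbθ j).smooth.continuous (hdbθ j).supp
  have mP : ∀ j, MemLp (fun z => β z j * (θ z * dd j (fun w => (φ w : ℂ)) z)) 2 volume := fun j =>
    cl_memLp hφ0 (hβj j).1 (hβj j).2 (hθc.mul (hφj j)) (hθ.supp.mul_right)
  set W : Cn n → ℂ := fun z => - (g z * θ z) +
    (∑ j, β z j * (θ z * dd j (fun w => (φ w : ℂ)) z) + ∑ j, β z j * dd j θ z) with hW
  have mW : MemLp W 2 volume := mg.neg.add
    ((memLp_finsetSum _ fun j _ => mP j).add (memLp_finsetSum _ fun j _ => mD j j))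
  have sG : ∀ j, ∀ z ∉ K, β z j * θ z = 0 := fun j z hz => by rw [hθ0 z hz, mul_zero]
  have sW : ∀ z ∉ K, W z = 0 := by
    intro z hz
    simp only [hW, hθ0 z hz, hdd0 _ z hz, zero_mul, mul_zero, Finset.sum_const_zero, neg_zero, add_zero]
  have mV : ∀ j k, MemLp (fun z => β z k * db j θ z - β z j * db k θ z) 2 volume := fun j k =>
    (mB k j).sub (mB j k)
  have sV : ∀ j k, ∀ z ∉ K, β z k * db j θ z - β z j * db k θ z = 0 := fun j k z hz => by
    rw [hdb0 j z hz, hdb0 k z hz]; ring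
  -- weak identities
  have wk1 : ∀ f : Cn n → ℂ, Tst f →
      ∫ z, ∑ j, (β z j * θ z) * dd j f z = - ∫ z, W z * f z := by
    intro f hf
    have hff : MemLp f 2 volume := hf.smooth.continuous.memLp_of_hasCompactSupport hf.supp
    have hdf : ∀ j, MemLp (dd j f) 2 volume := fun j =>
      (hf.dd j).smooth.continuous.memLp_of_hasCompactSupport (hf.dd j).supp
    have i1 : Integrable (fun z => ∑ j, (β z j * θ z) * dd j f z) volume :=
      integrable_finsetSum _ fun j _ => (mG j).integrable_mul (hdf j)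
    have i2 : Integrable (fun z => W z * f z) volume := mW.integrable_mul hff
    have i3 : Integrable (fun z => g z * (θ z * f z)) volume := by
      have := mg.integrable_mul hff
      refine this.congr (Filter.Eventually.of_forall fun z => ?_)
      show g z * θ z * f z = g z * (θ z * f z)
      ring
    have h1 := hadj (fun z => θ z * f z) (hθ.mul_smooth hf.smooth)
    have h2 : ∀ z, ∑ j, β z j * (dd j (fun z => θ z * f z) z +
        dd j (fun w => (φ w : ℂ)) z * (θ z * f z)) =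
        (∑ j, (β z j * θ z) * dd j f z + W z * f z) + g z * (θ z * f z) := by
      intro z
      simp only [dd_mul hθ.smooth hf.smooth, hW]
      rw [add_mul, add_mul, Finset.sum_mul, Finset.sum_mul]
      have h3 : ∀ j, β z j * (dd j θ z * f z + θ z * dd j f z +
          dd j (fun w => (φ w : ℂ)) z * (θ z * f z)) =
          β z j * θ z * dd j f z + (β z j * (θ z * dd j (fun w => (φ w : ℂ)) z) * f z +
          β z j * dd j θ z * f z) := by intro j; ring
      simp only [h3]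
      rw [Finset.sum_add_distrib, Finset.sum_add_distrib]
      ring
    simp only [h2] at h1
    have i12 : Integrable (fun z => ∑ j, (β z j * θ z) * dd j f z + W z * f z) volume := i1.add i2
    rw [integral_add i12 i3] at h1
    have h4 : ∫ z, (∑ j, (β z j * θ z) * dd j f z + W z * f z) = 0 := by
      simpa using h1
    rw [integral_add i1 i2] at h4
    exact eq_neg_of_add_eq_zero_left h4
  have wk2 : ∀ j k, ∀ f : Cn n → ℂ, Tst f →
      ∫ z, ((β z k * θ z) * db j f z - (β z j * θ z) * db k f z) =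
        - ∫ z, (β z k * db j θ z - β z j * db k θ z) * f z := by
    intro j k f hf
    have hff : MemLp f 2 volume := hf.smooth.continuous.memLp_of_hasCompactSupport hf.supp
    have hdf : ∀ j, MemLp (db j f) 2 volume := fun j =>
      (hf.db j).smooth.continuous.memLp_of_hasCompactSupport (hf.db j).supp
    have i1 : Integrable (fun z => (β z k * θ z) * db j f z - (β z j * θ z) * db k f z) volume :=
      ((mG k).integrable_mul (hdf j)).sub ((mG j).integrable_mul (hdf k))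
    have i2 : Integrable (fun z => (β z k * db j θ z - β z j * db k θ z) * f z) volume :=
      (mV j k).integrable_mul hff
    have h1 := hcl j k (fun z => θ z * f z) (hθ.mul_smooth hf.smooth)
    have h2 : ∀ z, β z k * db j (fun z => θ z * f z) z - β z j * db k (fun z => θ z * f z) z =
        ((β z k * θ z) * db j f z - (β z j * θ z) * db k f z) +
        (β z k * db j θ z - β z j * db k θ z) * f z := by
      intro z
      simp only [db_mul hθ.smooth hf.smooth]
      ring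
    simp only [h2] at h1
    rw [integral_add i1 i2] at h1
    exact eq_neg_of_add_eq_zero_left h1
  -- mollification
  obtain ⟨mol, hmol⟩ := moll_exists n
  obtain ⟨K', hK', hKK', m1, m2, m3, m4⟩ := hmol K hK
  have cv : ∀ G : Cn n → ℂ, MemLp G 2 volume → (∀ z ∉ K, G z = 0) → Cvl K' (fun k => mol k G) G := by
    intro G hG hs
    exact ⟨fun k => (m1 G hG hs k).1.smooth.continuous.memLp_of_hasCompactSupport (m1 G hG hs k).1.supp,
      hG, fun k => (m1 G hG hs k).2, fun z hz => hs z fun h => hz (hKK' h), m2 G hG hs⟩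
  have cG := fun j => cv _ (mG j) (sG j)
  have cW := cv _ mW sW
  have cV := fun j k => cv _ (mV j k) (sV j k)
  have cA : Cvl K' (fun m z => (-1 : ℂ) * mol m W z +
      ∑ j, dd j (fun w => (φ w : ℂ)) z * mol m (fun z => β z j * θ z) z)
      (fun z => (-1 : ℂ) * W z + ∑ j, dd j (fun w => (φ w : ℂ)) z * (β z j * θ z)) :=
    (cW.mul hK' continuous_const).add (Cvl.sum _ fun j _ => (cG j).mul hK' (hφj j))
  have hlimval : ∀ z, (-1 : ℂ) * W z + ∑ j, dd j (fun w => (φ w : ℂ)) z * (β z j * θ z) =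
      g z * θ z - ∑ j, β z j * dd j θ z := by
    intro z
    simp only [hW]
    have : ∑ j, dd j (fun w => (φ w : ℂ)) z * (β z j * θ z) =
      ∑ j, β z j * (θ z * dd j (fun w => (φ w : ℂ)) z) := Finset.sum_congr rfl fun j _ => by ring
    rw [this]; ring
  have hwc : Continuous (fun z => κ z * Real.exp (-φ z)) := hκc.mul hE
  have hw0 : ∀ z, 0 ≤ κ z * Real.exp (-φ z) := fun z => (mul_pos (hκ0 z) (Real.exp_pos _)).le
  refine ⟨fun j => cl_int hK (mG j) (sG j) hwc, ?_, fun j k => cl_int hK (mV j k) (sV j k) hE, ?_⟩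
  · have := cl_int hK' cA.mv cA.sv hE
    simpa only [hlimval] using this
  have L1 := tendsto_finsetSum Finset.univ (fun j _ => (cG j).wsq hK' hwc hw0)
  have L2 := cA.wsq hK' hE (fun z => (Real.exp_pos _).le)
  have L3 := tendsto_finsetSum Finset.univ (fun j _ => tendsto_finsetSum Finset.univ
    (fun k _ => (cV j k).wsq hK' hE (fun z => (Real.exp_pos _).le)))
  simp only [hlimval] at L2
  refine le_of_tendsto_of_tendsto' L1 (L2.add (L3.const_mul (1 / 2 : ℝ))) fun m => ?_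
  have hT : ∀ j, Tst (mol m (fun z => β z j * θ z)) := fun j => (m1 _ (mG j) (sG j) m).1
  have hB := basic_ineq hφ hT
  have e1 : ∀ z, adj φ (fun j => mol m (fun z => β z j * θ z)) z = (-1 : ℂ) * mol m W z +
      ∑ j, dd j (fun w => (φ w : ℂ)) z * mol m (fun z => β z j * θ z) z := by
    intro z
    unfold adj
    rw [Finset.sum_sub_distrib, m3 (fun j z => β z j * θ z) W mG mW sG sW wk1 m z]
    ring
  have e2 : ∀ j k z, db j (mol m (fun z => β z k * θ z)) z - db k (mol m (fun z => β z j * θ z)) z =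
      mol m (fun z => β z k * db j θ z - β z j * db k θ z) z := by
    intro j k z
    exact m4 _ _ _ j k (mG k) (mG j) (mV j k) (sG k) (sG j) (sV j k) (wk2 j k) m z
  simp only [e1, e2] at hB
  have e3 : ∑ j, ∫ z, (κ z * Real.exp (-φ z)) * ‖mol m (fun z => β z j * θ z) z‖ ^ 2 ≤
      ∫ z, lev φ z (vec (fun j => mol m (fun z => β z j * θ z) z)) * Real.exp (-φ z) := by
    have i4 : ∀ j, Integrable (fun z => (κ z * Real.exp (-φ z)) *
        ‖mol m (fun z => β z j * θ z) z‖ ^ 2) volume := fun j =>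
      cl_int hK' ((cG j).mu m) ((cG j).sk m) hwc
    rw [← integral_finsetSum _ fun j _ => i4 j]
    refine integral_mono (integrable_finsetSum _ fun j _ => i4 j) ?_ ?_
    · have hcont : Continuous (fun z => lev φ z (vec (fun j => mol m (fun z => β z j * θ z) z)) *
          Real.exp (-φ z)) := (cl_lev_cont hφ fun j => (hT j).smooth.continuous).mul hE
      refine hcont.integrable_of_hasCompactSupport ?_
      refine HasCompactSupport.intro hK' fun z hz => ?_
      have h5 : vec (fun j => mol m (fun z => β z j * θ z) z) = (0 : Cn n) := by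
        have h6 : (fun j => mol m (fun z => β z j * θ z) z) = fun _ => (0 : ℂ) := by
          funext j; exact (cG j).sk m z hz
        rw [h6]; rfl
      rw [h5]
      simp [lev]
    · intro z
      show ∑ j, (κ z * Real.exp (-φ z)) * ‖mol m (fun z => β z j * θ z) z‖ ^ 2 ≤ _
      have h7 := hκ z (vec (fun j => mol m (fun z => β z j * θ z) z))
      have h8 : ‖(vec (fun j => mol m (fun z => β z j * θ z) z) : Cn n)‖ ^ 2 =
          ∑ j, ‖mol m (fun z => β z j * θ z) z‖ ^ 2 := by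
        rw [EuclideanSpace.norm_sq_eq]
        rfl
      rw [h8] at h7
      rw [← Finset.mul_sum]
      calc κ z * Real.exp (-φ z) * ∑ j, ‖mol m (fun z => β z j * θ z) z‖ ^ 2 =
          (κ z * ∑ j, ‖mol m (fun z => β z j * θ z) z‖ ^ 2) * Real.exp (-φ z) := by ring
        _ ≤ _ := mul_le_mul_of_nonneg_right h7 (Real.exp_pos _).le
  refine e3.trans (hB.trans (le_of_eq ?_))
  simp only [mul_comm (Real.exp _)]

private theorem cl_norm_dd {n : ℕ} (θ : Cn n → ℂ) (j : Fin n) (z : Cn n) :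
    ‖dd j θ z‖ ≤ ‖fderiv ℝ θ z‖ ∧ ‖db j θ z‖ ≤ ‖fderiv ℝ θ z‖ := by
  have hb : ‖bv n j‖ = 1 := by simp [bv]
  have h1 : ‖fderiv ℝ θ z (bv n j)‖ ≤ ‖fderiv ℝ θ z‖ := by
    have := (fderiv ℝ θ z).le_opNorm (bv n j)
    rwa [hb, mul_one] at this
  have h2 : ‖fderiv ℝ θ z (Complex.I • bv n j)‖ ≤ ‖fderiv ℝ θ z‖ := by
    have := (fderiv ℝ θ z).le_opNorm (Complex.I • bv n j)
    rwa [norm_smul, Complex.norm_I, one_mul, hb, mul_one] at this
  have h3 : ‖Complex.I * fderiv ℝ θ z (Complex.I • bv n j)‖ ≤ ‖fderiv ℝ θ z‖ := by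
    rw [norm_mul, Complex.norm_I, one_mul]; exact h2
  constructor
  · unfold dd
    rw [norm_div, Complex.norm_ofNat]
    have := norm_sub_le (fderiv ℝ θ z (bv n j)) (Complex.I * fderiv ℝ θ z (Complex.I • bv n j))
    linarith
  · unfold db
    rw [norm_div, Complex.norm_ofNat]
    have := norm_add_le (fderiv ℝ θ z (bv n j)) (Complex.I * fderiv ℝ θ z (Complex.I • bv n j))
    linarith

private theorem cl_cutoff (n : ℕ) : ∃ C : ℝ, 0 ≤ C ∧ ∀ r : ℝ, 0 < r → ∃ θ : Cn n → ℂ, Tst θ ∧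
    (∀ z, ‖θ z‖ ≤ 1) ∧ (∀ z, ‖z‖ ≤ 1 / r → θ z = 1) ∧
    ∀ j z, ‖dd j θ z‖ ≤ C * r ∧ ‖db j θ z‖ ≤ C * r := by
  let f : ContDiffBump (0 : Cn n) := ⟨1, 2, by norm_num, by norm_num⟩
  let χ : Cn n → ℂ := fun z => ((f z : ℝ) : ℂ)
  have hχ : ContDiff ℝ ∞ χ := Complex.ofRealCLM.contDiff.comp f.contDiff
  have hχs : HasCompactSupport χ := f.hasCompactSupport.comp_left (g := fun x : ℝ => (x : ℂ)) rfl
  obtain ⟨C, hC⟩ := (hχs.fderiv ℝ).exists_bound_of_continuous (hχ.continuous_fderiv (by simp))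
  refine ⟨C, (norm_nonneg _).trans (hC 0), fun r hr => ?_⟩
  refine ⟨fun z => χ (r • z), ⟨hχ.comp (contDiff_const_smul r), ?_⟩, ?_, ?_, ?_⟩
  · refine HasCompactSupport.intro (isCompact_closedBall (0 : Cn n) (2 / r)) fun z hz => ?_
    have h1 : 2 / r < ‖z‖ := by simpa using hz
    have h2 : (2 : ℝ) ≤ dist (r • z) 0 := by
      rw [dist_zero_right, norm_smul, Real.norm_eq_abs, abs_of_pos hr]
      rw [div_lt_iff₀ hr] at h1
      linarith
    have h3 : f (r • z) = 0 := f.zero_of_le_dist h2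
    show ((f (r • z) : ℝ) : ℂ) = 0
    rw [h3]; rfl
  · intro z
    show ‖((f (r • z) : ℝ) : ℂ)‖ ≤ 1
    rw [Complex.norm_real, Real.norm_eq_abs, abs_of_nonneg f.nonneg]
    exact f.le_one
  · intro z hz
    have h1 : r • z ∈ closedBall (0 : Cn n) 1 := by
      rw [mem_closedBall, dist_zero_right, norm_smul, Real.norm_eq_abs, abs_of_pos hr]
      rw [le_div_iff₀ hr] at hz
      linarith
    show ((f (r • z) : ℝ) : ℂ) = 1
    rw [f.one_of_mem_closedBall h1]; rfl
  · have key : ∀ z, ‖fderiv ℝ (fun z => χ (r • z)) z‖ ≤ C * r := by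
      intro z
      have h1 : HasFDerivAt χ (fderiv ℝ χ (r • z)) (r • z) :=
        (hχ.differentiable (by simp) (r • z)).hasFDerivAt
      have h2 : HasFDerivAt (fun z : Cn n => r • z) (r • ContinuousLinearMap.id ℝ (Cn n)) z :=
        (hasFDerivAt_id z).const_smul r
      have h3 := h1.comp z h2
      have h4 : fderiv ℝ (fun z => χ (r • z)) z =
          (fderiv ℝ χ (r • z)).comp (r • ContinuousLinearMap.id ℝ (Cn n)) := h3.fderiv
      rw [h4]
      refine (ContinuousLinearMap.opNorm_comp_le _ _).trans ?_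
      refine mul_le_mul (hC _) ?_ (norm_nonneg _) ((norm_nonneg _).trans (hC 0))
      rw [norm_smul, Real.norm_eq_abs, abs_of_pos hr]
      have := ContinuousLinearMap.norm_id_le (𝕜 := ℝ) (E := Cn n)
      nlinarith
    intro j z
    exact ⟨(cl_norm_dd _ j z).1.trans (key z), (cl_norm_dd _ j z).2.trans (key z)⟩

private theorem cl_bound {n : ℕ} {φ : Cn n → ℝ} (hφ : ContDiff ℝ ∞ φ) {κ : Cn n → ℝ}
    (hκc : Continuous κ) (hκ0 : ∀ z, 0 < κ z) (hκ : ∀ z ξ, κ z * ‖ξ‖ ^ 2 ≤ lev φ z ξ)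
    {β : Cn n → Cn n} (hβm : AEStronglyMeasurable β volume)
    (hβ : Integrable (fun z => ‖β z‖ ^ 2 * Real.exp (-φ z)) volume)
    (hcl : ∀ j k : Fin n, ∀ f : Cn n → ℂ, Tst f →
      ∫ z, (β z k * db j f z - β z j * db k f z) = 0)
    {g : Cn n → ℂ} (hgm : AEStronglyMeasurable g volume)
    (hg : Integrable (fun z => ‖g z‖ ^ 2 * Real.exp (-φ z)) volume)
    (hadj : ∀ f : Cn n → ℂ, Tst f →
      ∫ z, ∑ j, β z j * (dd j f z + dd j (fun w => (φ w : ℂ)) z * f z) = ∫ z, g z * f z) :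
    ∃ T : ℝ, ∀ r : ℝ, 0 < r → r ≤ 1 →
      ∫⁻ z in closedBall (0 : Cn n) (1 / r), ENNReal.ofReal (κ z * ‖β z‖ ^ 2 * Real.exp (-φ z)) ≤
        ENNReal.ofReal ((∫ z, ‖g z‖ ^ 2 * Real.exp (-φ z)) + r * T) := by
  obtain ⟨C, hC, hcut⟩ := cl_cutoff n
  set Ig := ∫ z, ‖g z‖ ^ 2 * Real.exp (-φ z) with hIg
  set Ib := ∫ z, ‖β z‖ ^ 2 * Real.exp (-φ z) with hIb
  have hIb0 : 0 ≤ Ib := integral_nonneg fun z => by positivity
  have hIg0 : 0 ≤ Ig := integral_nonneg fun z => by positivity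
  refine ⟨Ig + 4 * ((n : ℝ) * C) ^ 2 * Ib, fun r hr hr1 => ?_⟩
  obtain ⟨θ, hθ, hθ1, hθb, hθd⟩ := hcut r hr
  obtain ⟨i1, i2, i3, hmain⟩ := cl_cut hφ hκc hκ0 hκ hβm hβ hcl hgm hg hadj hθ
  -- right-hand side
  have b1 : ∫ z, Real.exp (-φ z) * ‖g z * θ z - ∑ j, β z j * dd j θ z‖ ^ 2 ≤
      (1 + r) * Ig + 2 * ((n : ℝ) * C) ^ 2 * r * Ib := by
    have h1 : ∫ z, Real.exp (-φ z) * ‖g z * θ z - ∑ j, β z j * dd j θ z‖ ^ 2 ≤
        ∫ z, ((1 + r) * (‖g z‖ ^ 2 * Real.exp (-φ z)) +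
          2 * ((n : ℝ) * C) ^ 2 * r * (‖β z‖ ^ 2 * Real.exp (-φ z))) := by
      refine integral_mono i2 ((hg.const_mul _).add (hβ.const_mul _)) fun z => ?_
      have h2 : ‖∑ j, β z j * dd j θ z‖ ≤ (n : ℝ) * C * r * ‖β z‖ := by
        refine (norm_sum_le _ _).trans ?_
        have h3 : ∀ j ∈ (Finset.univ : Finset (Fin n)), ‖β z j * dd j θ z‖ ≤ ‖β z‖ * (C * r) := by
          intro j _
          rw [norm_mul]
          exact mul_le_mul (PiLp.norm_apply_le (β z) j) (hθd j z).1 (norm_nonneg _) (norm_nonneg _)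
        refine (Finset.sum_le_sum h3).trans (le_of_eq ?_)
        rw [Finset.sum_const, Finset.card_univ, Fintype.card_fin, nsmul_eq_mul]
        ring
      have h4 : ‖g z * θ z‖ ≤ ‖g z‖ := by
        rw [norm_mul]; exact mul_le_of_le_one_right (norm_nonneg _) (hθ1 z)
      have h5 : ‖g z * θ z - ∑ j, β z j * dd j θ z‖ ≤ ‖g z‖ + (n : ℝ) * C * r * ‖β z‖ :=
        (norm_sub_le _ _).trans (add_le_add h4 h2)
      have h6 : ‖g z * θ z - ∑ j, β z j * dd j θ z‖ ^ 2 ≤
          (1 + r) * ‖g z‖ ^ 2 + 2 * ((n : ℝ) * C) ^ 2 * r * ‖β z‖ ^ 2 := by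
        refine (pow_le_pow_left₀ (norm_nonneg _) h5 2).trans ?_
        have h7 : 0 ≤ r * (‖g z‖ - (n : ℝ) * C * ‖β z‖) ^ 2 := by positivity
        have h8 : (n : ℝ) * C * r * ‖β z‖ * ((n : ℝ) * C * r * ‖β z‖) ≤
            ((n : ℝ) * C) ^ 2 * r * ‖β z‖ ^ 2 := by
          have : (n : ℝ) * C * r * ‖β z‖ * ((n : ℝ) * C * r * ‖β z‖) =
            (((n : ℝ) * C) ^ 2 * r * ‖β z‖ ^ 2) * r := by ring
          rw [this]
          exact mul_le_of_le_one_right (by positivity) hr1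
        nlinarith
      have h9 := mul_le_mul_of_nonneg_left h6 (Real.exp_pos (-φ z)).le
      show Real.exp (-φ z) * ‖g z * θ z - ∑ j, β z j * dd j θ z‖ ^ 2 ≤ _
      refine h9.trans (le_of_eq ?_)
      ring
    refine h1.trans (le_of_eq ?_)
    rw [integral_add (hg.const_mul _) (hβ.const_mul _), integral_const_mul, integral_const_mul]
  have b2 : ∀ j k, ∫ z, Real.exp (-φ z) * ‖β z k * db j θ z - β z j * db k θ z‖ ^ 2 ≤
      4 * C ^ 2 * r * Ib := by
    intro j k
    have h1 : ∫ z, Real.exp (-φ z) * ‖β z k * db j θ z - β z j * db k θ z‖ ^ 2 ≤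
        ∫ z, 4 * C ^ 2 * r * (‖β z‖ ^ 2 * Real.exp (-φ z)) := by
      refine integral_mono (i3 j k) (hβ.const_mul _) fun z => ?_
      have h3 : ∀ i i', ‖β z i * db i' θ z‖ ≤ ‖β z‖ * (C * r) := by
        intro i i'
        rw [norm_mul]
        exact mul_le_mul (PiLp.norm_apply_le (β z) i) (hθd i' z).2 (norm_nonneg _) (norm_nonneg _)
      have h4 : ‖β z k * db j θ z - β z j * db k θ z‖ ≤ 2 * (‖β z‖ * (C * r)) :=
        (norm_sub_le _ _).trans (by linarith [h3 k j, h3 j k])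
      have h5 : ‖β z k * db j θ z - β z j * db k θ z‖ ^ 2 ≤ 4 * C ^ 2 * r * ‖β z‖ ^ 2 := by
        refine (pow_le_pow_left₀ (norm_nonneg _) h4 2).trans ?_
        have : (2 * (‖β z‖ * (C * r))) ^ 2 = (4 * C ^ 2 * r * ‖β z‖ ^ 2) * r := by ring
        rw [this]
        exact mul_le_of_le_one_right (by positivity) hr1
      have h9 := mul_le_mul_of_nonneg_left h5 (Real.exp_pos (-φ z)).le
      show Real.exp (-φ z) * ‖β z k * db j θ z - β z j * db k θ z‖ ^ 2 ≤
        4 * C ^ 2 * r * (‖β z‖ ^ 2 * Real.exp (-φ z))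
      refine h9.trans (le_of_eq ?_)
      ring
    refine h1.trans (le_of_eq ?_)
    rw [integral_const_mul]
  have b3 : ∑ j : Fin n, ∑ k : Fin n, ∫ z, Real.exp (-φ z) *
      ‖β z k * db j θ z - β z j * db k θ z‖ ^ 2 ≤ (n : ℝ) * ((n : ℝ) * (4 * C ^ 2 * r * Ib)) := by
    refine (Finset.sum_le_sum fun j _ => Finset.sum_le_sum fun k _ => b2 j k).trans (le_of_eq ?_)
    simp [Finset.sum_const, Finset.card_univ, nsmul_eq_mul]
  have b4 : ∑ j, ∫ z, (κ z * Real.exp (-φ z)) * ‖β z j * θ z‖ ^ 2 ≤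
      Ig + r * (Ig + 4 * ((n : ℝ) * C) ^ 2 * Ib) := by
    refine hmain.trans ?_
    have h1 : (1 / 2 : ℝ) * ((n : ℝ) * ((n : ℝ) * (4 * C ^ 2 * r * Ib))) =
        2 * ((n : ℝ) * C) ^ 2 * r * Ib := by ring
    nlinarith [b1, b3]
  -- left-hand side
  have iS : Integrable (fun z => ∑ j, (κ z * Real.exp (-φ z)) * ‖β z j * θ z‖ ^ 2) volume :=
    integrable_finsetSum _ fun j _ => i1 j
  have hS0 : ∀ z, 0 ≤ ∑ j, (κ z * Real.exp (-φ z)) * ‖β z j * θ z‖ ^ 2 := fun z =>
    Finset.sum_nonneg fun j _ => mul_nonneg (mul_pos (hκ0 z) (Real.exp_pos _)).le (by positivity)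
  have c1 : ∫⁻ z in closedBall (0 : Cn n) (1 / r),
      ENNReal.ofReal (κ z * ‖β z‖ ^ 2 * Real.exp (-φ z)) ≤
      ∫⁻ z in closedBall (0 : Cn n) (1 / r),
        ENNReal.ofReal (∑ j, (κ z * Real.exp (-φ z)) * ‖β z j * θ z‖ ^ 2) := by
    refine setLIntegral_mono_ae' measurableSet_closedBall
      (Filter.Eventually.of_forall fun z hz => ENNReal.ofReal_le_ofReal (le_of_eq ?_))
    have h1 : θ z = 1 := hθb z (by simpa using hz)
    rw [h1]
    simp only [mul_one]
    rw [← Finset.mul_sum, ← EuclideanSpace.norm_sq_eq]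
    ring
  refine c1.trans ((setLIntegral_le_lintegral _ _).trans ?_)
  rw [← ofReal_integral_eq_lintegral_ofReal iS (Filter.Eventually.of_forall hS0),
    integral_finsetSum _ fun j _ => i1 j]
  exact ENNReal.ofReal_le_ofReal b4

theorem closed_ineq {n : ℕ} {φ : Cn n → ℝ} (hφ : ContDiff ℝ ∞ φ) {κ : Cn n → ℝ}
    (hκc : Continuous κ) (hκ0 : ∀ z, 0 < κ z) (hκ : ∀ z ξ, κ z * ‖ξ‖ ^ 2 ≤ lev φ z ξ)
    {β : Cn n → Cn n} (hβm : AEStronglyMeasurable β volume)
    (hβ : Integrable (fun z => ‖β z‖ ^ 2 * Real.exp (-φ z)) volume)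
    (hcl : ∀ j k : Fin n, ∀ f : Cn n → ℂ, Tst f →
      ∫ z, (β z k * db j f z - β z j * db k f z) = 0)
    {g : Cn n → ℂ} (hgm : AEStronglyMeasurable g volume)
    (hg : Integrable (fun z => ‖g z‖ ^ 2 * Real.exp (-φ z)) volume)
    (hadj : ∀ f : Cn n → ℂ, Tst f →
      ∫ z, ∑ j, β z j * (dd j f z + dd j (fun w => (φ w : ℂ)) z * f z) = ∫ z, g z * f z) :
    Integrable (fun z => κ z * ‖β z‖ ^ 2 * Real.exp (-φ z)) volume ∧
      ∫ z, κ z * ‖β z‖ ^ 2 * Real.exp (-φ z) ≤ ∫ z, ‖g z‖ ^ 2 * Real.exp (-φ z) := by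
  obtain ⟨T, hT⟩ := cl_bound hφ hκc hκ0 hκ hβm hβ hcl hgm hg hadj
  set Ig := ∫ z, ‖g z‖ ^ 2 * Real.exp (-φ z) with hIg
  have hIg0 : 0 ≤ Ig := integral_nonneg fun z => by positivity
  have hE : Continuous (fun z => Real.exp (-φ z)) := by
    have := hφ.continuous
    fun_prop
  have hm : AEStronglyMeasurable (fun z => κ z * ‖β z‖ ^ 2 * Real.exp (-φ z)) volume :=
    (hκc.aestronglyMeasurable.mul (hβm.norm.pow 2)).mul hE.aestronglyMeasurable
  have h0 : ∀ z, 0 ≤ κ z * ‖β z‖ ^ 2 * Real.exp (-φ z) := fun z =>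
    mul_nonneg (mul_nonneg (hκ0 z).le (by positivity)) (Real.exp_pos _).le
  have h1 : ∀ m : ℕ, ∫⁻ z in closedBall (0 : Cn n) m,
      ENNReal.ofReal (κ z * ‖β z‖ ^ 2 * Real.exp (-φ z)) ≤ ENNReal.ofReal Ig := by
    intro m
    have hlim : Filter.Tendsto (fun k : ℕ => ENNReal.ofReal (Ig + 1 / ((k : ℝ) + 1) * T))
        Filter.atTop (𝓝 (ENNReal.ofReal Ig)) := by
      apply ENNReal.tendsto_ofReal
      have := (tendsto_one_div_add_atTop_nhds_zero_nat (𝕜 := ℝ)).mul_const T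
      simpa using (tendsto_const_nhds (x := Ig)).add this
    refine ge_of_tendsto hlim ?_
    filter_upwards [Filter.eventually_ge_atTop m] with k hk
    have hk0 : (0 : ℝ) < (k : ℝ) + 1 := by positivity
    refine le_trans ?_ (hT (1 / ((k : ℝ) + 1)) (by positivity) (by
      rw [div_le_one hk0]; linarith [Nat.cast_nonneg (α := ℝ) k]))
    apply lintegral_mono_set
    apply closedBall_subset_closedBall
    rw [one_div_one_div]
    have : (m : ℝ) ≤ k := by exact_mod_cast hk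
    linarith
  have h2 : ∫⁻ z, ENNReal.ofReal (κ z * ‖β z‖ ^ 2 * Real.exp (-φ z)) ≤ ENNReal.ofReal Ig := by
    rw [← setLIntegral_univ, ← iUnion_closedBall_nat (0 : Cn n),
      setLIntegral_iUnion_of_directed]
    · exact iSup_le h1
    · intro a b
      refine ⟨max a b, closedBall_subset_closedBall ?_, closedBall_subset_closedBall ?_⟩
      · exact_mod_cast le_max_left a b
      · exact_mod_cast le_max_right a b
  have h3 : Integrable (fun z => κ z * ‖β z‖ ^ 2 * Real.exp (-φ z)) volume := by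
    refine ⟨hm, ?_⟩
    rw [hasFiniteIntegral_iff_ofReal (Filter.Eventually.of_forall h0)]
    exact lt_of_le_of_lt h2 ENNReal.ofReal_lt_top
  refine ⟨h3, ?_⟩
  rw [integral_eq_lintegral_of_nonneg_ae (Filter.Eventually.of_forall h0) hm]
  exact ENNReal.toReal_le_of_le_ofReal hIg0 h2

end HMA

end S_MA_ClosedIneq

section S_MA_Horm

/-! # Module HORM: Hörmander theorem for `∂bar χ`, `χ` a test function -/

open MeasureTheory Metric Set
open scoped ENNReal Topology ContDiff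

namespace HMA

section HormAux

variable {n : ℕ}

/-- complex valued weights -/
noncomputable def Horm_w (φ : Cn n → ℝ) (c : ℝ) (z : Cn n) : ℂ :=
  Complex.exp ((c : ℂ) * (φ z : ℂ))

theorem Horm_cast {φ : Cn n → ℝ} (hφ : ContDiff ℝ ∞ φ) :
    ContDiff ℝ ∞ (fun z => (φ z : ℂ)) :=
  Complex.ofRealCLM.contDiff.comp hφ

theorem Horm_w_smooth {φ : Cn n → ℝ} (hφ : ContDiff ℝ ∞ φ) (c : ℝ) :
    ContDiff ℝ ∞ (Horm_w φ c) := by
  unfold Horm_w
  exact (contDiff_const.mul (Horm_cast hφ)).cexp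

theorem Horm_w_eq (φ : Cn n → ℝ) (c : ℝ) (z : Cn n) :
    Horm_w φ c z = ((Real.exp (c * φ z) : ℝ) : ℂ) := by
  unfold Horm_w
  push_cast
  rfl

theorem Horm_w_ne (φ : Cn n → ℝ) (c : ℝ) (z : Cn n) : Horm_w φ c z ≠ 0 := Complex.exp_ne_zero _

theorem Horm_w_add (φ : Cn n → ℝ) (c c' : ℝ) (z : Cn n) :
    Horm_w φ c z * Horm_w φ c' z = Horm_w φ (c + c') z := by
  unfold Horm_w
  rw [← Complex.exp_add]
  congr 1
  push_cast
  ring

theorem Horm_w_zero (φ : Cn n → ℝ) (z : Cn n) : Horm_w φ 0 z = 1 := by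
  unfold Horm_w
  simp

theorem Horm_w_conj (φ : Cn n → ℝ) (c : ℝ) (z : Cn n) :
    (starRingEnd ℂ) (Horm_w φ c z) = Horm_w φ c z := by
  rw [Horm_w_eq, Complex.conj_ofReal]

theorem Horm_w_norm (φ : Cn n → ℝ) (c : ℝ) (z : Cn n) :
    ‖Horm_w φ c z‖ = Real.exp (c * φ z) := by
  rw [Horm_w_eq, Complex.norm_real, Real.norm_of_nonneg (Real.exp_pos _).le]

theorem Horm_w_norm_sq (φ : Cn n → ℝ) (z : Cn n) (x : ℂ) :
    ‖x * Horm_w φ (-(1 / 2)) z‖ ^ 2 = ‖x‖ ^ 2 * Real.exp (-φ z) := by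
  rw [norm_mul, mul_pow, Horm_w_norm, ← Real.exp_nat_mul]
  congr 2
  push_cast
  ring

theorem Horm_dd_const (c : ℂ) (j : Fin n) (z : Cn n) : dd j (fun _ => c) z = 0 := by
  unfold dd
  simp

theorem Horm_db_const (c : ℂ) (j : Fin n) (z : Cn n) : db j (fun _ => c) z = 0 := by
  unfold db
  simp

theorem Horm_dd_w {φ : Cn n → ℝ} (hφ : ContDiff ℝ ∞ φ) (c : ℝ) (j : Fin n) (z : Cn n) :
    dd j (Horm_w φ c) z = Horm_w φ c z * ((c : ℂ) * dd j (fun w => (φ w : ℂ)) z) := by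
  have h1 : dd j (Horm_w φ c) z = Horm_w φ c z * dd j (fun w => (c : ℂ) * (φ w : ℂ)) z :=
    dd_exp (contDiff_const.mul (Horm_cast hφ)) j z
  rw [h1, dd_mul contDiff_const (Horm_cast hφ), Horm_dd_const]
  ring

theorem Horm_db_w {φ : Cn n → ℝ} (hφ : ContDiff ℝ ∞ φ) (c : ℝ) (j : Fin n) (z : Cn n) :
    db j (Horm_w φ c) z = Horm_w φ c z * ((c : ℂ) * db j (fun w => (φ w : ℂ)) z) := by
  have h1 : db j (Horm_w φ c) z = Horm_w φ c z * db j (fun w => (c : ℂ) * (φ w : ℂ)) z :=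
    db_exp (contDiff_const.mul (Horm_cast hφ)) j z
  rw [h1, db_mul contDiff_const (Horm_cast hφ), Horm_db_const]
  ring

theorem Horm_db_real {φ : Cn n → ℝ} (hφ : ContDiff ℝ ∞ φ) (j : Fin n) (z : Cn n) :
    db j (fun w => (φ w : ℂ)) z = (starRingEnd ℂ) (dd j (fun w => (φ w : ℂ)) z) := by
  rw [← db_conj (Horm_cast hφ)]
  simp only [Complex.conj_ofReal]

/-! ### test functions -/

theorem Horm_tst_int {f : Cn n → ℂ} (hf : Tst f) : Integrable f volume :=
  hf.smooth.continuous.integrable_of_hasCompactSupport hf.supp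

theorem Horm_tst_memLp {f : Cn n → ℂ} (hf : Tst f) : MemLp f 2 volume :=
  hf.smooth.continuous.memLp_of_hasCompactSupport hf.supp

theorem Horm_tst_zero : Tst (fun _ : Cn n => (0 : ℂ)) :=
  ⟨contDiff_const, HasCompactSupport.zero⟩

theorem Horm_tst_add {f g : Cn n → ℂ} (hf : Tst f) (hg : Tst g) : Tst (fun z => f z + g z) :=
  ⟨hf.smooth.add hg.smooth, hf.supp.add hg.supp⟩

theorem Horm_tst_const_mul {f : Cn n → ℂ} (hf : Tst f) (c : ℂ) : Tst (fun z => c * f z) := by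
  have := hf.mul_smooth (g := fun _ => c) contDiff_const
  have h2 : (fun z => f z * c) = fun z => c * f z := by
    funext z; ring
  rwa [h2] at this

theorem Horm_tst_neg {f : Cn n → ℂ} (hf : Tst f) : Tst (fun z => - f z) := by
  have := Horm_tst_const_mul hf (-1)
  simpa using this

theorem Horm_tst_sub {f g : Cn n → ℂ} (hf : Tst f) (hg : Tst g) : Tst (fun z => f z - g z) := by
  have := Horm_tst_add hf (Horm_tst_neg hg)
  simpa [sub_eq_add_neg] using this

theorem Horm_tst_sum {ι : Type} (s : Finset ι) {f : ι → Cn n → ℂ} (hf : ∀ i ∈ s, Tst (f i)) :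
    Tst (fun z => ∑ i ∈ s, f i z) := by
  classical
  induction s using Finset.induction_on with
  | empty => simpa using Horm_tst_zero
  | insert a s ha ih =>
    have h1 : (fun z => ∑ i ∈ insert a s, f i z) = fun z => f a z + ∑ i ∈ s, f i z := by
      funext z
      rw [Finset.sum_insert ha]
    rw [h1]
    exact Horm_tst_add (hf a (Finset.mem_insert_self a s))
      (ih fun i hi => hf i (Finset.mem_insert_of_mem hi))

theorem Horm_tst_mul {f g : Cn n → ℂ} (hf : Tst f) (hg : ContDiff ℝ ∞ g) :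
    Tst (fun z => g z * f z) := by
  have h := hf.mul_smooth hg
  have h2 : (fun z => f z * g z) = fun z => g z * f z := by
    funext z; ring
  rwa [h2] at h

theorem Horm_adj_tst {φ : Cn n → ℝ} (hφ : ContDiff ℝ ∞ φ) {α : Fin n → Cn n → ℂ}
    (hα : ∀ j, Tst (α j)) : Tst (adj φ α) := by
  unfold adj
  refine Horm_tst_neg (Horm_tst_sum _ fun j _ => Horm_tst_sub ((hα j).dd j) ?_)
  exact Horm_tst_mul (hα j) (smooth_dd (Horm_cast hφ) j)

theorem Horm_adj_add {φ : Cn n → ℝ} {α β : Fin n → Cn n → ℂ}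
    (hα : ∀ j, Tst (α j)) (hβ : ∀ j, Tst (β j)) (z : Cn n) :
    adj φ (fun j z => α j z + β j z) z = adj φ α z + adj φ β z := by
  unfold adj
  rw [← neg_add, ← Finset.sum_add_distrib]
  congr 1
  refine Finset.sum_congr rfl fun j _ => ?_
  rw [dd_add (hα j).smooth (hβ j).smooth]
  ring

theorem Horm_adj_smul {φ : Cn n → ℝ} {α : Fin n → Cn n → ℂ}
    (hα : ∀ j, Tst (α j)) (c : ℂ) (z : Cn n) :
    adj φ (fun j z => c * α j z) z = c * adj φ α z := by
  unfold adj
  rw [mul_neg, Finset.mul_sum]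
  congr 1
  refine Finset.sum_congr rfl fun j _ => ?_
  rw [dd_mul contDiff_const (hα j).smooth, Horm_dd_const]
  ring

theorem Horm_adj_zero {φ : Cn n → ℝ} (z : Cn n) :
    adj φ (fun (_ : Fin n) (_ : Cn n) => (0 : ℂ)) z = 0 := by
  unfold adj
  simp [Horm_dd_const]

theorem Horm_adj_w {φ : Cn n → ℝ} (hφ : ContDiff ℝ ∞ φ) {α : Fin n → Cn n → ℂ}
    (hα : ∀ j, Tst (α j)) (z : Cn n) :
    adj φ α z * Horm_w φ (-1) z = - ∑ j, dd j (fun z => α j z * Horm_w φ (-1) z) z := by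
  unfold adj
  rw [neg_mul, Finset.sum_mul]
  congr 1
  refine Finset.sum_congr rfl fun j _ => ?_
  rw [dd_mul (hα j).smooth (Horm_w_smooth hφ _), Horm_dd_w hφ]
  push_cast
  ring

/-- the formal adjoint identity -/
theorem Horm_ibp {φ : Cn n → ℝ} (hφ : ContDiff ℝ ∞ φ) {α : Fin n → Cn n → ℂ}
    (hα : ∀ j, Tst (α j)) {g : Cn n → ℂ} (hg : Tst g) :
    ∫ z, adj φ α z * Horm_w φ (-1) z * g z = ∫ z, ∑ j, α j z * Horm_w φ (-1) z * dd j g z := by
  have h1 : ∀ j, Tst (fun z => α j z * Horm_w φ (-1) z) := fun j =>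
    (hα j).mul_smooth (Horm_w_smooth hφ _)
  have h2 : ∀ z, adj φ α z * Horm_w φ (-1) z * g z =
      - ∑ j, dd j (fun z => α j z * Horm_w φ (-1) z) z * g z := by
    intro z
    rw [Horm_adj_w hφ hα, neg_mul, Finset.sum_mul]
  simp only [h2]
  rw [integral_neg, integral_finsetSum _ fun j _ =>
      Horm_tst_int (((h1 j).dd j).mul_smooth hg.smooth),
    integral_finsetSum _ fun j _ => Horm_tst_int ((h1 j).mul_smooth (hg.dd j).smooth),
    ← Finset.sum_neg_distrib]
  refine Finset.sum_congr rfl fun j _ => ?_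
  rw [ibp_dd (h1 j).smooth hg, neg_neg]

theorem Horm_ibp_conj {φ : Cn n → ℝ} (hφ : ContDiff ℝ ∞ φ) {α : Fin n → Cn n → ℂ}
    (hα : ∀ j, Tst (α j)) {g : Cn n → ℂ} (hg : Tst g) :
    ∫ z, (starRingEnd ℂ) (adj φ α z) * Horm_w φ (-1) z * g z =
      ∫ z, ∑ j, (starRingEnd ℂ) (α j z) * Horm_w φ (-1) z * db j g z := by
  have h := Horm_ibp hφ hα hg.conj
  have h2 := congrArg (starRingEnd ℂ) h
  rw [← integral_conj, ← integral_conj] at h2
  have h3 : ∀ z, (starRingEnd ℂ) (adj φ α z * Horm_w φ (-1) z * (starRingEnd ℂ) (g z)) =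
      (starRingEnd ℂ) (adj φ α z) * Horm_w φ (-1) z * g z := by
    intro z
    rw [map_mul, map_mul, Horm_w_conj, Complex.conj_conj]
  have h4 : ∀ z, (starRingEnd ℂ) (∑ j, α j z * Horm_w φ (-1) z *
      dd j (fun z => (starRingEnd ℂ) (g z)) z) =
      ∑ j, (starRingEnd ℂ) (α j z) * Horm_w φ (-1) z * db j g z := by
    intro z
    rw [map_sum]
    refine Finset.sum_congr rfl fun j _ => ?_
    rw [map_mul, map_mul, Horm_w_conj, dd_conj hg.smooth, Complex.conj_conj]
  simp only [h3, h4] at h2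
  exact h2


/-! ### square integrable functions -/

open scoped Classical in
/-- the class of `f` in `L²` -/
noncomputable def Horm_L (f : Cn n → ℂ) : Lp ℂ 2 (volume : Measure (Cn n)) :=
  if h : MemLp f 2 volume then h.toLp f else 0

open scoped Classical in
/-- the class of the vector field with components `a j` in `L²` -/
noncomputable def Horm_V (a : Fin n → Cn n → ℂ) : Lp (Cn n) 2 (volume : Measure (Cn n)) :=
  if h : MemLp (fun z => vec (fun j => a j z)) 2 volume then h.toLp _ else 0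

theorem Horm_L_coe {f : Cn n → ℂ} (hf : Tst f) : Horm_L f =ᵐ[volume] f := by
  unfold Horm_L
  rw [dif_pos (Horm_tst_memLp hf)]
  exact MemLp.coeFn_toLp _

theorem Horm_vec_memLp {a : Fin n → Cn n → ℂ} (ha : ∀ j, Tst (a j)) :
    MemLp (fun z => vec (fun j => a j z)) 2 volume := by
  apply Continuous.memLp_of_hasCompactSupport
  · unfold vec
    exact (PiLp.continuous_toLp 2 _).comp (continuous_pi fun j => (ha j).smooth.continuous)
  · have hK : IsCompact (⋃ j, tsupport (a j)) := isCompact_iUnion fun j => (ha j).supp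
    refine HasCompactSupport.intro hK fun x hx => ?_
    have h1 : (fun j => a j x) = 0 := by
      funext j
      have : x ∉ tsupport (a j) := fun h => hx (mem_iUnion.2 ⟨j, h⟩)
      exact image_eq_zero_of_notMem_tsupport this
    rw [h1]
    unfold vec
    rfl

theorem Horm_V_coe {a : Fin n → Cn n → ℂ} (ha : ∀ j, Tst (a j)) :
    Horm_V a =ᵐ[volume] fun z => vec (fun j => a j z) := by
  unfold Horm_V
  rw [dif_pos (Horm_vec_memLp ha)]
  exact MemLp.coeFn_toLp _

theorem Horm_inner_L {f : Cn n → ℂ} (hf : Tst f) (u : Lp ℂ 2 (volume : Measure (Cn n))) :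
    inner ℂ (Horm_L f) u = ∫ z, (starRingEnd ℂ) (f z) * u z := by
  rw [L2.inner_def]
  refine integral_congr_ae ?_
  filter_upwards [Horm_L_coe hf] with z hz
  rw [hz, RCLike.inner_apply']

theorem Horm_inner_Cn (x y : Cn n) : inner ℂ x y = ∑ j, (starRingEnd ℂ) (x j) * y j := by
  rw [PiLp.inner_apply]
  refine Finset.sum_congr rfl fun j _ => ?_
  rw [RCLike.inner_apply']

theorem Horm_inner_V {a : Fin n → Cn n → ℂ} (ha : ∀ j, Tst (a j))
    (u : Lp (Cn n) 2 (volume : Measure (Cn n))) :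
    inner ℂ (Horm_V a) u = ∫ z, ∑ j, (starRingEnd ℂ) (a j z) * u z j := by
  rw [L2.inner_def]
  refine integral_congr_ae ?_
  filter_upwards [Horm_V_coe ha] with z hz
  rw [hz, Horm_inner_Cn]
  rfl

theorem Horm_norm_sq {E : Type} [NormedAddCommGroup E] [InnerProductSpace ℂ E]
    (u : Lp E 2 (volume : Measure (Cn n))) : ‖u‖ ^ 2 = ∫ z, ‖u z‖ ^ 2 := by
  have h := inner_self_eq_norm_sq_to_K (𝕜 := ℂ) u
  rw [L2.inner_def] at h
  have h2 : ∀ z, inner ℂ (u z) (u z) = ((‖u z‖ ^ 2 : ℝ) : ℂ) := fun z => by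
    rw [inner_self_eq_norm_sq_to_K]; push_cast; rfl
  simp only [h2] at h
  rw [integral_complex_ofReal] at h
  have h3 : (((∫ z, ‖u z‖ ^ 2 : ℝ)) : ℂ) = ((‖u‖ ^ 2 : ℝ) : ℂ) := by
    rw [h]; push_cast; rfl
  exact (Complex.ofReal_injective h3).symm

theorem Horm_int_sq {E : Type} [NormedAddCommGroup E] [InnerProductSpace ℂ E]
    (u : Lp E 2 (volume : Measure (Cn n))) : Integrable (fun z => ‖u z‖ ^ 2) volume :=
  (memLp_two_iff_integrable_sq_norm (Lp.aestronglyMeasurable u)).1 (Lp.memLp u)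

/-- the weighted class of a test function -/
noncomputable def Horm_G (φ : Cn n → ℝ) (f : Cn n → ℂ) : Lp ℂ 2 (volume : Measure (Cn n)) :=
  Horm_L fun z => f z * Horm_w φ (-(1 / 2)) z

/-- the weighted class of a test form -/
noncomputable def Horm_F (φ : Cn n → ℝ) (a : Fin n → Cn n → ℂ) :
    Lp (Cn n) 2 (volume : Measure (Cn n)) :=
  Horm_V fun j z => a j z * Horm_w φ (-(1 / 2)) z

section
variable {φ : Cn n → ℝ} (hφ : ContDiff ℝ ∞ φ)
include hφ

theorem Horm_tst_w {f : Cn n → ℂ} (hf : Tst f) (c : ℝ) : Tst (fun z => f z * Horm_w φ c z) :=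
  hf.mul_smooth (Horm_w_smooth hφ c)

theorem Horm_G_coe {f : Cn n → ℂ} (hf : Tst f) :
    Horm_G φ f =ᵐ[volume] fun z => f z * Horm_w φ (-(1 / 2)) z :=
  Horm_L_coe (Horm_tst_w hφ hf _)

theorem Horm_F_coe {a : Fin n → Cn n → ℂ} (ha : ∀ j, Tst (a j)) :
    Horm_F φ a =ᵐ[volume] fun z => vec (fun j => a j z * Horm_w φ (-(1 / 2)) z) :=
  Horm_V_coe fun j => Horm_tst_w hφ (ha j) _

omit hφ in
theorem Horm_w_half (z : Cn n) :
    Horm_w φ (-(1 / 2)) z * Horm_w φ (-(1 / 2)) z = Horm_w φ (-1) z := by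
  rw [Horm_w_add]
  norm_num

/-- the formal adjoint identity in `L²` -/
theorem Horm_adj_L2 {α : Fin n → Cn n → ℂ} (hα : ∀ j, Tst (α j)) {g : Cn n → ℂ} (hg : Tst g) :
    inner ℂ (Horm_G φ (adj φ α)) (Horm_G φ g) =
      inner ℂ (Horm_F φ α) (Horm_F φ fun j => db j g) := by
  have h1 : inner ℂ (Horm_G φ (adj φ α)) (Horm_G φ g) =
      ∫ z, (starRingEnd ℂ) (adj φ α z) * Horm_w φ (-1) z * g z := by
    unfold Horm_G
    rw [Horm_inner_L (Horm_tst_w hφ (Horm_adj_tst hφ hα) _)]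
    refine integral_congr_ae ?_
    filter_upwards [Horm_L_coe (Horm_tst_w hφ hg (-(1 / 2)))] with z hz
    rw [hz, map_mul, Horm_w_conj, ← Horm_w_half]
    ring
  have h2 : inner ℂ (Horm_F φ α) (Horm_F φ fun j => db j g) =
      ∫ z, ∑ j, (starRingEnd ℂ) (α j z) * Horm_w φ (-1) z * db j g z := by
    unfold Horm_F
    rw [Horm_inner_V fun j => Horm_tst_w hφ (hα j) _]
    refine integral_congr_ae ?_
    filter_upwards [Horm_V_coe fun j => Horm_tst_w hφ (hg.db j) (-(1 / 2))] with z hz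
    rw [hz]
    refine Finset.sum_congr rfl fun j _ => ?_
    show (starRingEnd ℂ) (α j z * Horm_w φ (-(1 / 2)) z) * (db j g z * Horm_w φ (-(1 / 2)) z) = _
    rw [map_mul, Horm_w_conj, ← Horm_w_half]
    ring
  rw [h1, h2, Horm_ibp_conj hφ hα hg]

end

theorem Horm_L_add {f g : Cn n → ℂ} (hf : Tst f) (hg : Tst g) :
    Horm_L (fun z => f z + g z) = Horm_L f + Horm_L g := by
  apply Lp.ext
  filter_upwards [Horm_L_coe (Horm_tst_add hf hg), Horm_L_coe hf, Horm_L_coe hg,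
    Lp.coeFn_add (Horm_L f) (Horm_L g)] with z h1 h2 h3 h4
  rw [h1, h4, Pi.add_apply, h2, h3]

theorem Horm_L_smul {f : Cn n → ℂ} (hf : Tst f) (c : ℂ) :
    Horm_L (fun z => c * f z) = c • Horm_L f := by
  apply Lp.ext
  filter_upwards [Horm_L_coe (Horm_tst_const_mul hf c), Horm_L_coe hf,
    Lp.coeFn_smul c (Horm_L f)] with z h1 h2 h4
  rw [h1, h4, Pi.smul_apply, h2, smul_eq_mul]

theorem Horm_L_zero : Horm_L (fun _ : Cn n => (0 : ℂ)) = 0 := by
  apply Lp.ext
  filter_upwards [Horm_L_coe (Horm_tst_zero (n := n)), Lp.coeFn_zero ℂ 2 (volume : Measure (Cn n))]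
    with z h1 h2
  rw [h1, h2]
  rfl

/-- the range of the formal adjoint -/
noncomputable def Horm_S (φ : Cn n → ℝ) (hφ : ContDiff ℝ ∞ φ) :
    Submodule ℂ (Lp ℂ 2 (volume : Measure (Cn n))) where
  carrier := {x | ∃ α : Fin n → Cn n → ℂ, (∀ j, Tst (α j)) ∧ x = Horm_G φ (adj φ α)}
  add_mem' := by
    rintro x y ⟨α, hα, rfl⟩ ⟨β, hβ, rfl⟩
    refine ⟨fun j z => α j z + β j z, fun j => Horm_tst_add (hα j) (hβ j), ?_⟩
    unfold Horm_G
    rw [← Horm_L_add (Horm_tst_w hφ (Horm_adj_tst hφ hα) _) (Horm_tst_w hφ (Horm_adj_tst hφ hβ) _)]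
    congr 1
    funext z
    rw [Horm_adj_add hα hβ]
    ring
  zero_mem' := by
    refine ⟨fun _ _ => 0, fun _ => Horm_tst_zero, ?_⟩
    unfold Horm_G
    rw [← Horm_L_zero]
    congr 1
    funext z
    rw [Horm_adj_zero, zero_mul]
  smul_mem' := by
    rintro c x ⟨α, hα, rfl⟩
    refine ⟨fun j z => c * α j z, fun j => Horm_tst_const_mul (hα j) c, ?_⟩
    unfold Horm_G
    rw [← Horm_L_smul (Horm_tst_w hφ (Horm_adj_tst hφ hα) _)]
    congr 1
    funext z
    rw [Horm_adj_smul hα]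
    ring

/-- the coefficients of the test forms which test closedness -/
noncomputable def Horm_c (φ : Cn n → ℝ) (j k : Fin n) (f : Cn n → ℂ) (l : Fin n) (z : Cn n) : ℂ :=
  (if l = k then (starRingEnd ℂ) (db j f z) * Horm_w φ (1 / 2) z else 0) -
    (if l = j then (starRingEnd ℂ) (db k f z) * Horm_w φ (1 / 2) z else 0)

theorem Horm_c_tst {φ : Cn n → ℝ} (hφ : ContDiff ℝ ∞ φ) (j k : Fin n) {f : Cn n → ℂ} (hf : Tst f)
    (l : Fin n) : Tst (Horm_c φ j k f l) := by
  unfold Horm_c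
  apply Horm_tst_sub
  · by_cases h : l = k
    · simp only [if_pos h]
      exact Horm_tst_w hφ (hf.db j).conj _
    · simp only [if_neg h]
      exact Horm_tst_zero
  · by_cases h : l = j
    · simp only [if_pos h]
      exact Horm_tst_w hφ (hf.db k).conj _
    · simp only [if_neg h]
      exact Horm_tst_zero

theorem Horm_c_sum (φ : Cn n → ℝ) (j k : Fin n) (f : Cn n → ℂ) (z u : Cn n) :
    ∑ l, (starRingEnd ℂ) (Horm_c φ j k f l z) * u l =
      (Horm_w φ (1 / 2) z * u k) * db j f z - (Horm_w φ (1 / 2) z * u j) * db k f z := by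
  have h1 : ∀ l, (starRingEnd ℂ) (Horm_c φ j k f l z) * u l =
      (if l = k then db j f z * Horm_w φ (1 / 2) z * u l else 0) -
        (if l = j then db k f z * Horm_w φ (1 / 2) z * u l else 0) := by
    intro l
    unfold Horm_c
    rw [map_sub, sub_mul]
    congr 1
    · split_ifs with h
      · rw [map_mul, Complex.conj_conj, Horm_w_conj]
      · rw [map_zero, zero_mul]
    · split_ifs with h
      · rw [map_mul, Complex.conj_conj, Horm_w_conj]
      · rw [map_zero, zero_mul]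
  simp only [h1]
  rw [Finset.sum_sub_distrib, Finset.sum_ite_eq' Finset.univ k, Finset.sum_ite_eq' Finset.univ j,
    if_pos (Finset.mem_univ _), if_pos (Finset.mem_univ _)]
  ring

/-- the closed subspace of weakly closed forms -/
noncomputable def Horm_Z (φ : Cn n → ℝ) : Submodule ℂ (Lp (Cn n) 2 (volume : Measure (Cn n))) :=
  (Submodule.span ℂ {x | ∃ (j k : Fin n) (f : Cn n → ℂ), Tst f ∧ x = Horm_V (Horm_c φ j k f)})ᗮ

theorem Horm_mem_Z {φ : Cn n → ℝ} (hφ : ContDiff ℝ ∞ φ) {u : Lp (Cn n) 2 (volume : Measure (Cn n))} :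
    u ∈ Horm_Z φ ↔ ∀ (j k : Fin n) (f : Cn n → ℂ), Tst f →
      ∫ z, ((Horm_w φ (1 / 2) z * u z k) * db j f z - (Horm_w φ (1 / 2) z * u z j) * db k f z) = 0 := by
  unfold Horm_Z
  have h1 : ∀ (j k : Fin n) (f : Cn n → ℂ), Tst f → inner ℂ (Horm_V (Horm_c φ j k f)) u =
      ∫ z, ((Horm_w φ (1 / 2) z * u z k) * db j f z - (Horm_w φ (1 / 2) z * u z j) * db k f z) := by
    intro j k f hf
    rw [Horm_inner_V (Horm_c_tst hφ j k hf)]
    simp only [Horm_c_sum]
  rw [Submodule.mem_orthogonal]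
  constructor
  · intro h j k f hf
    rw [← h1 j k f hf]
    exact h _ (Submodule.subset_span ⟨j, k, f, hf, rfl⟩)
  · intro h x hx
    induction hx using Submodule.span_induction with
    | mem x hx =>
      obtain ⟨j, k, f, hf, rfl⟩ := hx
      rw [h1 j k f hf]
      exact h j k f hf
    | zero => exact inner_zero_left _
    | add x y _ _ hx hy => rw [inner_add_left, hx, hy, add_zero]
    | smul c x _ hx => rw [inner_smul_left, hx, mul_zero]

/-- `∂bar g` is weakly closed -/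
theorem Horm_db_mem_Z {φ : Cn n → ℝ} (hφ : ContDiff ℝ ∞ φ) {g : Cn n → ℂ} (hg : Tst g) :
    Horm_F φ (fun j => db j g) ∈ Horm_Z φ := by
  rw [Horm_mem_Z hφ]
  intro j k f hf
  have h1 : ∫ z, ((Horm_w φ (1 / 2) z * (Horm_F φ (fun j => db j g)) z k) * db j f z -
      (Horm_w φ (1 / 2) z * (Horm_F φ (fun j => db j g)) z j) * db k f z) =
      ∫ z, (db k g z * db j f z - db j g z * db k f z) := by
    refine integral_congr_ae ?_
    filter_upwards [Horm_F_coe hφ fun j => hg.db j] with z hz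
    rw [hz]
    show (Horm_w φ (1 / 2) z * (db k g z * Horm_w φ (-(1 / 2)) z)) * db j f z -
      (Horm_w φ (1 / 2) z * (db j g z * Horm_w φ (-(1 / 2)) z)) * db k f z = _
    have h2 : Horm_w φ (1 / 2) z * Horm_w φ (-(1 / 2)) z = 1 := by
      rw [Horm_w_add, add_neg_cancel, Horm_w_zero]
    linear_combination (db k g z * db j f z - db j g z * db k f z) * h2
  rw [h1, integral_sub (Horm_tst_int ((hg.db k).mul_smooth (hf.db j).smooth))
    (Horm_tst_int ((hg.db j).mul_smooth (hf.db k).smooth)),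
    ibp_db hg.smooth (hf.db j), ibp_db hg.smooth (hf.db k)]
  have h3 : ∀ z, db k (db j f) z = db j (db k f) z := fun z => db_db_comm hf.smooth k j z
  simp only [h3]
  ring


theorem Horm_proj_inner {H : Type} [NormedAddCommGroup H] [InnerProductSpace ℂ H]
    (P : Submodule ℂ H) [P.HasOrthogonalProjection] {x : H} (hx : x ∈ P) (y : H) :
    inner ℂ x (P.starProjection y) = inner ℂ x y := by
  rw [← Submodule.inner_starProjection_left_eq_right, Submodule.starProjection_eq_self_iff.2 hx]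

theorem Horm_proj_inner' {H : Type} [NormedAddCommGroup H] [InnerProductSpace ℂ H]
    (P : Submodule ℂ H) [P.HasOrthogonalProjection] {x : H} (hx : x ∈ P) (y : H) :
    inner ℂ (P.starProjection y) x = inner ℂ y x := by
  rw [Submodule.inner_starProjection_left_eq_right, Submodule.starProjection_eq_self_iff.2 hx]

noncomputable instance Horm_Z_proj (φ : Cn n → ℝ) : (Horm_Z φ).HasOrthogonalProjection := by
  unfold Horm_Z
  infer_instance

/-- the weak adjoint identity for the projection of a test form to the closed forms -/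
theorem Horm_weak_adj {φ : Cn n → ℝ} (hφ : ContDiff ℝ ∞ φ) {α : Fin n → Cn n → ℂ}
    (hα : ∀ j, Tst (α j)) {f : Cn n → ℂ} (hf : Tst f) :
    ∫ z, ∑ j, (Horm_w φ (1 / 2) z * ((Horm_Z φ).starProjection (Horm_F φ α)) z j) *
        (dd j f z + dd j (fun w => (φ w : ℂ)) z * f z) = ∫ z, adj φ α z * f z := by
  have hf' : Tst (fun z => (starRingEnd ℂ) (f z) * Horm_w φ 1 z) := Horm_tst_w hφ hf.conj 1
  set u := (Horm_Z φ).starProjection (Horm_F φ α) with hu
  have h1 : inner ℂ (Horm_F φ fun j => db j (fun z => (starRingEnd ℂ) (f z) * Horm_w φ 1 z)) u =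
      ∫ z, ∑ j, (Horm_w φ (1 / 2) z * u z j) *
        (dd j f z + dd j (fun w => (φ w : ℂ)) z * f z) := by
    unfold Horm_F
    rw [Horm_inner_V fun j => Horm_tst_w hφ (hf'.db j) _]
    refine integral_congr_ae (Filter.Eventually.of_forall fun z => ?_)
    refine Finset.sum_congr rfl fun j _ => ?_
    simp only []
    rw [db_mul hf.conj.smooth (Horm_w_smooth hφ 1), Horm_db_w hφ, Horm_db_real hφ,
      db_conj hf.smooth]
    simp only [map_mul, map_add, Complex.conj_conj, Horm_w_conj, Complex.conj_ofReal]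
    have h2 : Horm_w φ 1 z * Horm_w φ (-(1 / 2)) z = Horm_w φ (1 / 2) z := by
      rw [Horm_w_add]; norm_num
    rw [← h2]
    push_cast
    ring
  rw [← h1, hu, Horm_proj_inner _ (Horm_db_mem_Z hφ hf'), ← inner_conj_symm,
    ← Horm_adj_L2 hφ hα hf', inner_conj_symm]
  unfold Horm_G
  rw [Horm_inner_L (Horm_tst_w hφ hf' _)]
  refine integral_congr_ae ?_
  filter_upwards [Horm_L_coe (Horm_tst_w hφ (Horm_adj_tst hφ hα) (-(1 / 2)))] with z hz
  rw [hz]
  simp only [map_mul, Complex.conj_conj, Horm_w_conj]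
  have h3 : Horm_w φ 1 z * (Horm_w φ (-(1 / 2)) z * Horm_w φ (-(1 / 2)) z) = 1 := by
    rw [Horm_w_half, Horm_w_add, add_neg_cancel, Horm_w_zero]
  linear_combination (adj φ α z * f z) * h3

theorem Horm_norm_G {φ : Cn n → ℝ} (hφ : ContDiff ℝ ∞ φ) {f : Cn n → ℂ} (hf : Tst f) :
    ‖Horm_G φ f‖ ^ 2 = ∫ z, ‖f z‖ ^ 2 * Real.exp (-φ z) := by
  rw [Horm_norm_sq]
  refine integral_congr_ae ?_
  filter_upwards [Horm_G_coe hφ hf] with z hz
  rw [hz, Horm_w_norm_sq]

theorem Horm_int_G {φ : Cn n → ℝ} (hφ : ContDiff ℝ ∞ φ) {f : Cn n → ℂ} (hf : Tst f) :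
    Integrable (fun z => ‖f z‖ ^ 2 * Real.exp (-φ z)) volume := by
  refine (Horm_int_sq (Horm_G φ f)).congr ?_
  filter_upwards [Horm_G_coe hφ hf] with z hz
  rw [hz, Horm_w_norm_sq]

theorem Horm_half_norm (φ : Cn n → ℝ) (z x : Cn n) :
    ‖Horm_w φ (1 / 2) z • x‖ ^ 2 * Real.exp (-φ z) = ‖x‖ ^ 2 := by
  rw [norm_smul, mul_pow, Horm_w_norm, ← Real.exp_nat_mul]
  have h : Real.exp (((2 : ℕ) : ℝ) * (1 / 2 * φ z)) * Real.exp (-φ z) = 1 := by
    rw [← Real.exp_add]
    have h2 : ((2 : ℕ) : ℝ) * (1 / 2 * φ z) + -φ z = 0 := by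
      push_cast
      ring
    rw [h2, Real.exp_zero]
  calc _ = ‖x‖ ^ 2 * (Real.exp (((2 : ℕ) : ℝ) * (1 / 2 * φ z)) * Real.exp (-φ z)) := by ring
    _ = _ := by rw [h, mul_one]

/-- the inequality for the closed part of a test form -/
theorem Horm_key {φ : Cn n → ℝ} (hφ : ContDiff ℝ ∞ φ) {κ : Cn n → ℝ}
    (hκc : Continuous κ) (hκ0 : ∀ z, 0 < κ z) (hκ : ∀ z ξ, κ z * ‖ξ‖ ^ 2 ≤ lev φ z ξ)
    {α : Fin n → Cn n → ℂ} (hα : ∀ j, Tst (α j)) :
    Integrable (fun z => κ z * ‖((Horm_Z φ).starProjection (Horm_F φ α)) z‖ ^ 2) volume ∧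
      ∫ z, κ z * ‖((Horm_Z φ).starProjection (Horm_F φ α)) z‖ ^ 2 ≤
        ‖Horm_G φ (adj φ α)‖ ^ 2 := by
  set u := (Horm_Z φ).starProjection (Horm_F φ α) with hu
  have huZ : u ∈ Horm_Z φ := Submodule.starProjection_apply_mem _ _
  have hadj := Horm_adj_tst hφ hα
  have h := closed_ineq (β := fun z => Horm_w φ (1 / 2) z • u z) (g := adj φ α) hφ hκc hκ0 hκ
    ((Horm_w_smooth hφ _).continuous.aestronglyMeasurable.smul (Lp.aestronglyMeasurable u))
    (by
      simp only [Horm_half_norm]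
      exact Horm_int_sq u)
    (fun j k f hf => (Horm_mem_Z hφ).1 huZ j k f hf)
    hadj.smooth.continuous.aestronglyMeasurable
    (Horm_int_G hφ hadj)
    (fun f hf => Horm_weak_adj hφ hα hf)
  have h2 : ∀ z, κ z * ‖Horm_w φ (1 / 2) z • u z‖ ^ 2 * Real.exp (-φ z) = κ z * ‖u z‖ ^ 2 := by
    intro z
    rw [mul_assoc, Horm_half_norm]
  simp only [h2] at h
  rw [Horm_norm_G hφ hadj]
  exact h

theorem Horm_norm_vec (a : Fin n → ℂ) : ‖vec a‖ ^ 2 = ∑ j, ‖a j‖ ^ 2 := by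
  unfold vec
  rw [EuclideanSpace.norm_sq_eq]

/-- the a priori estimate -/
theorem Horm_apriori {φ : Cn n → ℝ} (hφ : ContDiff ℝ ∞ φ) {κ : Cn n → ℝ}
    (hκc : Continuous κ) (hκ0 : ∀ z, 0 < κ z) (hκ : ∀ z ξ, κ z * ‖ξ‖ ^ 2 ≤ lev φ z ξ)
    {χ : Cn n → ℂ} (hχ : Tst χ) {α : Fin n → Cn n → ℂ} (hα : ∀ j, Tst (α j)) :
    2 * (inner ℂ (Horm_G φ (adj φ α)) (Horm_G φ χ)).re ≤ ‖Horm_G φ (adj φ α)‖ ^ 2 +
      ∫ z, (κ z)⁻¹ * (∑ j, ‖db j χ z‖ ^ 2) * Real.exp (-φ z) := by
  obtain ⟨hk1, hk2⟩ := Horm_key hφ hκc hκ0 hκ hα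
  rw [Horm_adj_L2 hφ hα hχ, ← Horm_proj_inner' _ (Horm_db_mem_Z hφ hχ)]
  set u := (Horm_Z φ).starProjection (Horm_F φ α) with hu
  have hD : ∀ᵐ z, ‖(Horm_F φ fun j => db j χ) z‖ ^ 2 = (∑ j, ‖db j χ z‖ ^ 2) * Real.exp (-φ z) := by
    filter_upwards [Horm_F_coe hφ fun j => hχ.db j] with z hz
    rw [hz, Horm_norm_vec, Finset.sum_mul]
    refine Finset.sum_congr rfl fun j _ => ?_
    rw [Horm_w_norm_sq]
  have hint : Integrable (fun z => (κ z)⁻¹ * (∑ j, ‖db j χ z‖ ^ 2) * Real.exp (-φ z)) volume := by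
    apply Continuous.integrable_of_hasCompactSupport
    · refine ((hκc.inv₀ fun z => (hκ0 z).ne').mul ?_).mul (Real.continuous_exp.comp hφ.continuous.neg)
      exact continuous_finsetSum _ fun j _ => ((hχ.db j).smooth.continuous.norm.pow 2)
    · have hK : IsCompact (⋃ j, tsupport (db j χ)) := isCompact_iUnion fun j => (hχ.db j).supp
      refine HasCompactSupport.intro hK fun x hx => ?_
      have h1 : ∀ j, db j χ x = 0 := by
        intro j
        have : x ∉ tsupport (db j χ) := fun h => hx (mem_iUnion.2 ⟨j, h⟩)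
        exact image_eq_zero_of_notMem_tsupport this
      simp [h1]
  have h1 : ‖inner ℂ u (Horm_F φ fun j => db j χ)‖ ≤
      ∫ z, (1 / 2) * (κ z * ‖u z‖ ^ 2 + (κ z)⁻¹ * (∑ j, ‖db j χ z‖ ^ 2) * Real.exp (-φ z)) := by
    rw [L2.inner_def]
    refine norm_integral_le_of_norm_le ((hk1.add hint).const_mul _) ?_
    filter_upwards [hD] with z hz
    refine le_trans (norm_inner_le_norm _ _) ?_
    rw [mul_assoc, ← hz]
    set x := ‖u z‖
    set y := ‖(Horm_F φ fun j => db j χ) z‖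
    have hκz := hκ0 z
    have h2 : 0 ≤ (κ z)⁻¹ * (κ z * x - y) ^ 2 := by positivity
    have h3 : (κ z)⁻¹ * (κ z * x - y) ^ 2 = κ z * x ^ 2 + (κ z)⁻¹ * y ^ 2 - 2 * (x * y) := by
      field_simp
      ring
    linarith
  rw [integral_const_mul, integral_add hk1 hint] at h1
  have h2 := Complex.re_le_norm (inner ℂ u (Horm_F φ fun j => db j χ))
  linarith

end HormAux

theorem hormander {n : ℕ} {φ : Cn n → ℝ} (hφ : ContDiff ℝ ∞ φ) {κ : Cn n → ℝ}
    (hκc : Continuous κ) (hκ0 : ∀ z, 0 < κ z) (hκ : ∀ z ξ, κ z * ‖ξ‖ ^ 2 ≤ lev φ z ξ)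
    {χ : Cn n → ℂ} (hχ : Tst χ) :
    ∃ f : Cn n → ℂ, Differentiable ℂ f ∧
      Integrable (fun z => ‖χ z - f z‖ ^ 2 * Real.exp (-φ z)) volume ∧
      ∫ z, ‖χ z - f z‖ ^ 2 * Real.exp (-φ z) ≤
        ∫ z, (κ z)⁻¹ * (∑ j, ‖db j χ z‖ ^ 2) * Real.exp (-φ z) := by
  set A := ∫ z, (κ z)⁻¹ * (∑ j, ‖db j χ z‖ ^ 2) * Real.exp (-φ z) with hA
  set P := (Horm_S φ hφ).topologicalClosure with hP
  set v := P.starProjection (Horm_G φ χ) with hv
  have hvP : v ∈ P := Submodule.starProjection_apply_mem _ _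
  have hGP : ∀ {α : Fin n → Cn n → ℂ}, (∀ j, Tst (α j)) → Horm_G φ (adj φ α) ∈ P :=
    fun {α} hα => Submodule.le_topologicalClosure _ ⟨α, hα, rfl⟩
  -- the estimate
  have hest : ‖v‖ ^ 2 ≤ A := by
    have hcl : IsClosed {x : Lp ℂ 2 (volume : Measure (Cn n)) |
        2 * (inner ℂ x v).re ≤ ‖x‖ ^ 2 + A} := by
      refine isClosed_le ?_ ?_
      · exact continuous_const.mul (Complex.continuous_re.comp (continuous_id.inner continuous_const))
      · exact (continuous_norm.pow 2).add continuous_const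
    have hsub : (Horm_S φ hφ : Set (Lp ℂ 2 (volume : Measure (Cn n)))) ⊆
        {x | 2 * (inner ℂ x v).re ≤ ‖x‖ ^ 2 + A} := by
      rintro x ⟨α, hα, rfl⟩
      rw [Set.mem_ofPred_eq, hv, Horm_proj_inner _ (hGP hα)]
      exact Horm_apriori hφ hκc hκ0 hκ hχ hα
    have h1 : v ∈ {x : Lp ℂ 2 (volume : Measure (Cn n)) | 2 * (inner ℂ x v).re ≤ ‖x‖ ^ 2 + A} := by
      refine closure_minimal hsub hcl ?_
      rw [← Submodule.topologicalClosure_coe]
      exact hvP
    rw [Set.mem_ofPred_eq, inner_self_eq_norm_sq_to_K] at h1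
    have h2 : (((‖v‖ : ℂ)) ^ 2).re = ‖v‖ ^ 2 := by
      rw [← Complex.ofReal_pow, Complex.ofReal_re]
    have h3 : 2 * ‖v‖ ^ 2 ≤ ‖v‖ ^ 2 + A := by
      rw [← h2]
      rw [h2]
      have h4 : 2 * (((‖v‖ : ℂ)) ^ 2).re ≤ ‖v‖ ^ 2 + A := h1
      rw [h2] at h4
      exact h4
    linarith
  -- the difference is weakly holomorphic
  have hlocv : LocallyIntegrable (v : Cn n → ℂ) volume :=
    (Lp.memLp v).locallyIntegrable (by norm_num)
  have hloc : LocallyIntegrable (fun z => χ z - Horm_w φ (1 / 2) z * v z) volume := by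
    refine LocallyIntegrable.sub hχ.smooth.continuous.locallyIntegrable ?_
    exact hlocv.continuous_mul (Horm_w_smooth hφ _).continuous
  have hweak : ∀ j : Fin n, ∀ f : Cn n → ℂ, Tst f →
      ∫ z, (χ z - Horm_w φ (1 / 2) z * v z) * db j f z = 0 := by
    intro j f hf
    have hf' : Tst (fun z => (starRingEnd ℂ) (f z) * Horm_w φ 1 z) := Horm_tst_w hφ hf.conj 1
    set α : Fin n → Cn n → ℂ := fun l z => if l = j then (starRingEnd ℂ) (f z) * Horm_w φ 1 z else 0
      with hαdef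
    have hα : ∀ l, Tst (α l) := by
      intro l
      by_cases h : l = j
      · simp only [hαdef, if_pos h]
        exact hf'
      · simp only [hαdef, if_neg h]
        exact Horm_tst_zero
    have hadj : ∀ z, adj φ α z = - ((starRingEnd ℂ) (db j f z) * Horm_w φ 1 z) := by
      intro z
      unfold adj
      rw [Finset.sum_eq_single j]
      · have h1 : α j = fun z => (starRingEnd ℂ) (f z) * Horm_w φ 1 z := by
          funext z
          simp only [hαdef, if_true]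
        rw [h1]
        rw [dd_mul hf.conj.smooth (Horm_w_smooth hφ 1), Horm_dd_w hφ, dd_conj hf.smooth]
        push_cast
        ring
      · intro l _ hl
        have h1 : α l = fun _ => 0 := by
          funext z
          simp only [hαdef, if_neg hl]
        rw [h1, Horm_dd_const]
        ring
      · intro h
        exact absurd (Finset.mem_univ j) h
    have horth : inner ℂ (Horm_G φ (adj φ α)) (Horm_G φ χ - v) = 0 := by
      rw [inner_sub_right, hv, Horm_proj_inner _ (hGP hα), sub_self]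
    unfold Horm_G at horth
    rw [Horm_inner_L (Horm_tst_w hφ (Horm_adj_tst hφ hα) _)] at horth
    have h2 : ∫ z, (χ z - Horm_w φ (1 / 2) z * v z) * db j f z =
        - ∫ z, (starRingEnd ℂ) (adj φ α z * Horm_w φ (-(1 / 2)) z) *
          (Horm_L (fun z => χ z * Horm_w φ (-(1 / 2)) z) - v : Lp ℂ 2 (volume : Measure (Cn n))) z := by
      rw [← integral_neg]
      refine integral_congr_ae ?_
      filter_upwards [Horm_L_coe (Horm_tst_w hφ hχ (-(1 / 2))),
        Lp.coeFn_sub (Horm_L (fun z => χ z * Horm_w φ (-(1 / 2)) z)) v] with z h3 h4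
      rw [h4, Pi.sub_apply, h3, hadj]
      simp only [map_mul, map_neg, Complex.conj_conj, Horm_w_conj]
      have h5 : Horm_w φ 1 z * Horm_w φ (-(1 / 2)) z = Horm_w φ (1 / 2) z := by
        rw [Horm_w_add]; norm_num
      have h6 : Horm_w φ 1 z * (Horm_w φ (-(1 / 2)) z * Horm_w φ (-(1 / 2)) z) = 1 := by
        rw [Horm_w_half, Horm_w_add, add_neg_cancel, Horm_w_zero]
      linear_combination (-(χ z * db j f z)) * h6 + (db j f z * v z) * h5
    rw [h2]
    unfold Horm_G at hv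
    rw [neg_eq_zero]
    exact horth
  obtain ⟨H, hH, hae⟩ := weyl hloc hweak
  have hpt : (fun z => ‖χ z - H z‖ ^ 2 * Real.exp (-φ z)) =ᵐ[volume] fun z => ‖v z‖ ^ 2 := by
    filter_upwards [hae] with z hz
    rw [← hz]
    have h1 : χ z - (χ z - Horm_w φ (1 / 2) z * v z) = v z * Horm_w φ (1 / 2) z := by ring
    rw [h1, norm_mul, mul_pow, Horm_w_norm, ← Real.exp_nat_mul, mul_assoc, ← Real.exp_add]
    have h2 : ((2 : ℕ) : ℝ) * (1 / 2 * φ z) + -φ z = 0 := by
      push_cast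
      ring
    rw [h2, Real.exp_zero, mul_one]
  refine ⟨H, hH, (Horm_int_sq v).congr hpt.symm, ?_⟩
  rw [integral_congr_ae hpt, ← Horm_norm_sq]
  exact hest

end HMA

end S_MA_Horm

section S_KM_EnvB

/-! # Module EnvB: semiconcavity of the envelope -/

open MeasureTheory Metric Set
open scoped ENNReal Topology ContDiff ComplexOrder

namespace HMA

theorem EnvB_sd {n : ℕ} {u : Cn n → ℝ} (hu : C11 (ball 0 3) u) :
    ∃ C : ℝ, 0 ≤ C ∧ ∀ z : Cn n, ‖z‖ < 14 / 5 → ∀ h : Cn n, ‖h‖ ≤ 1 / 10 →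
      u (z + h) + u (z - h) - 2 * u z ≤ C * ‖h‖ ^ 2 := by
  obtain ⟨K, hK⟩ := hu.lip (closedBall 0 (29 / 10)) (isCompact_closedBall _ _)
    (closedBall_subset_ball (by norm_num))
  refine ⟨2 * K, by positivity, fun z hz h hh => ?_⟩
  have hin : ∀ s : ℝ, |s| ≤ 1 → ‖z + s • h‖ ≤ 29 / 10 := by
    intro s hs
    have h1 : ‖s • h‖ ≤ 1 / 10 := by
      rw [norm_smul, Real.norm_eq_abs]
      calc |s| * ‖h‖ ≤ 1 * (1 / 10) := mul_le_mul hs hh (norm_nonneg _) zero_le_one
        _ = 1 / 10 := one_mul _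
    have h2 := norm_add_le z (s • h)
    linarith
  have hlin : ∀ s : ℝ, |s| ≤ 1 → HasDerivAt (fun s : ℝ => u (z + s • h))
      (fderiv ℝ u (z + s • h) h) s := by
    intro s hs
    have h1 : HasDerivAt (fun s : ℝ => z + s • h) h s := by
      simpa using ((hasDerivAt_id s).smul_const h).const_add z
    have h2 : DifferentiableAt ℝ u (z + s • h) := hu.diff _ (by
      rw [mem_ball_zero_iff]
      have := hin s hs
      linarith)
    exact h2.hasFDerivAt.comp_hasDerivAt s h1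
  have key := norm_image_sub_le_of_norm_deriv_le_segment_01'
    (f := fun s : ℝ => u (z + s • h) + u (z + (-s) • h))
    (f' := fun s : ℝ => fderiv ℝ u (z + s • h) h - fderiv ℝ u (z + (-s) • h) h)
    (C := 2 * K * ‖h‖ ^ 2) ?_ ?_
  · simp only [one_smul, zero_smul, neg_zero, add_zero, neg_smul] at key
    rw [← sub_eq_add_neg, Real.norm_eq_abs] at key
    have := le_abs_self (u (z + h) + u (z - h) - (u z + u z))
    linarith
  · intro s hs
    have hs1 : |s| ≤ 1 := by rw [abs_of_nonneg hs.1]; exact hs.2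
    have hs2 : |-s| ≤ 1 := by rwa [abs_neg]
    have h1 := hlin s hs1
    have h2 := (hlin (-s) hs2).scomp s (hasDerivAt_neg s)
    have h3 := h1.add h2
    refine HasDerivAt.hasDerivWithinAt ?_
    have e1 : fderiv ℝ u (z + s • h) h - fderiv ℝ u (z + (-s) • h) h =
        fderiv ℝ u (z + s • h) h + (-1 : ℝ) • fderiv ℝ u (z + (-s) • h) h := by
      rw [smul_eq_mul]; ring
    rw [e1]
    exact h3
  · intro s hs
    have hs1 : |s| ≤ 1 := by rw [abs_of_nonneg hs.1]; exact hs.2.le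
    have hs2 : |-s| ≤ 1 := by rwa [abs_neg]
    have h1 := hK.dist_le_mul (z + s • h) (by
      rw [mem_closedBall_zero_iff]; exact hin s hs1) (z + (-s) • h) (by
      rw [mem_closedBall_zero_iff]; exact hin (-s) hs2)
    rw [dist_eq_norm, dist_eq_norm] at h1
    have h2 : ‖z + s • h - (z + (-s) • h)‖ ≤ 2 * ‖h‖ := by
      have : z + s • h - (z + (-s) • h) = (2 * s) • h := by
        module
      rw [this, norm_smul, Real.norm_eq_abs, abs_mul]
      have : |(2 : ℝ)| = 2 := by norm_num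
      rw [this]
      have := mul_le_mul_of_nonneg_right hs1 (norm_nonneg h)
      linarith
    have h3 : fderiv ℝ u (z + s • h) h - fderiv ℝ u (z + (-s) • h) h =
        (fderiv ℝ u (z + s • h) - fderiv ℝ u (z + (-s) • h)) h := by
      rfl
    rw [h3]
    calc ‖(fderiv ℝ u (z + s • h) - fderiv ℝ u (z + (-s) • h)) h‖
        ≤ ‖fderiv ℝ u (z + s • h) - fderiv ℝ u (z + (-s) • h)‖ * ‖h‖ :=
          ContinuousLinearMap.le_opNorm _ _
      _ ≤ (K * (2 * ‖h‖)) * ‖h‖ := mul_le_mul_of_nonneg_right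
          (h1.trans (mul_le_mul_of_nonneg_left h2 K.coe_nonneg)) (norm_nonneg _)
      _ = 2 * K * ‖h‖ ^ 2 := by ring

theorem EnvB_int {n : ℕ} {Ω : Set (Cn n)} {v : Cn n → ℝ}
    (hv : UpperSemicontinuousOn v Ω)
    (hb : ∀ L ⊆ Ω, IsCompact L → ∃ M : ℝ, ∀ z ∈ L, -M ≤ v z) {a b : Cn n}
    (h : ∀ ζ : ℂ, ‖ζ‖ ≤ 1 → a + ζ • b ∈ Ω) :
    IntervalIntegrable (fun θ : ℝ => v (a + Complex.exp (θ * Complex.I) • b)) volume
      0 (2 * Real.pi) := by
  have hcirc : ∀ θ : ℝ, a + Complex.exp (θ * Complex.I) • b ∈ Ω := fun θ =>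
    h _ (Complex.norm_exp_ofReal_mul_I θ).le
  have hmeas : Measurable (fun θ : ℝ => v (a + Complex.exp (θ * Complex.I) • b)) := by
    have h1 : UpperSemicontinuousOn (v ∘ fun θ : ℝ => a + Complex.exp (θ * Complex.I) • b) univ :=
      hv.comp (lext_circ_cont a b).continuousOn (fun θ _ => hcirc θ)
    exact (upperSemicontinuousOn_univ_iff.1 h1).measurable
  have hK : IsCompact ((fun ζ : ℂ => a + ζ • b) '' sphere 0 1) :=
    (isCompact_sphere 0 1).image (by fun_prop)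
  have hKΩ : (fun ζ : ℂ => a + ζ • b) '' sphere 0 1 ⊆ Ω := by
    rintro _ ⟨ζ, hζ, rfl⟩
    exact h ζ (mem_sphere_zero_iff_norm.1 hζ).le
  obtain ⟨M, hM⟩ := (hv.mono hKΩ).bddAbove_of_isCompact hK
  obtain ⟨M', hM'⟩ := hb _ hKΩ hK
  have hmem : ∀ θ : ℝ, a + Complex.exp (θ * Complex.I) • b ∈
      (fun ζ : ℂ => a + ζ • b) '' sphere 0 1 := fun θ =>
    ⟨_, mem_sphere_zero_iff_norm.2 (Complex.norm_exp_ofReal_mul_I θ), rfl⟩
  refine (intervalIntegrable_const (c := max |M| |M'|)).mono_fun hmeas.aestronglyMeasurable ?_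
  refine Filter.Eventually.of_forall fun θ => ?_
  have h1 := hM (mem_image_of_mem v (hmem θ))
  have h2 := hM' _ (hmem θ)
  show ‖v (a + Complex.exp (θ * Complex.I) • b)‖ ≤ ‖max |M| |M'|‖
  rw [Real.norm_eq_abs, Real.norm_eq_abs,
    abs_of_nonneg (le_max_of_le_left (abs_nonneg M) : (0 : ℝ) ≤ max |M| |M'|), abs_le]
  have h3 := le_abs_self M
  have h4 := le_abs_self M'
  have h5 := le_max_left |M| |M'|
  have h6 := le_max_right |M| |M'|
  constructor <;> linarith

/-- the averaged translates -/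
theorem EnvB_avg {n : ℕ} {Ω Ω' : Set (Cn n)} {P : Cn n → ℝ}
    (hP : UpperSemicontinuousOn P Ω)
    (hb : ∀ L ⊆ Ω, IsCompact L → ∃ M : ℝ, ∀ z ∈ L, -M ≤ P z) (hs : SubOn Ω P) (h : Cn n) (c : ℝ)
    (h1 : ∀ z ∈ Ω', z + h ∈ Ω) (h2 : ∀ z ∈ Ω', z - h ∈ Ω) :
    UpperSemicontinuousOn (fun z => (P (z + h) + P (z - h)) / 2 - c) Ω' ∧
    (∀ L ⊆ Ω', IsCompact L → ∃ M : ℝ, ∀ z ∈ L, -M ≤ (P (z + h) + P (z - h)) / 2 - c) ∧
    SubOn Ω' (fun z => (P (z + h) + P (z - h)) / 2 - c) := by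
  refine ⟨?_, ?_, ?_⟩
  · have h3 : UpperSemicontinuousOn (P ∘ fun z => z + h) Ω' :=
      hP.comp (by fun_prop) h1
    have h4 : UpperSemicontinuousOn (P ∘ fun z => z - h) Ω' :=
      hP.comp (by fun_prop) h2
    have h5 := h3.add h4
    have hg : Continuous (fun x : ℝ => x / 2 - c) := by fun_prop
    exact hg.comp_upperSemicontinuousOn h5 (fun x y hxy => by
      show x / 2 - c ≤ y / 2 - c
      linarith)
  · intro L hL hLc
    obtain ⟨M1, hM1⟩ := hb ((fun z => z + h) '' L) (by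
      rintro _ ⟨z, hz, rfl⟩
      exact h1 z (hL hz)) (hLc.image (by fun_prop))
    obtain ⟨M2, hM2⟩ := hb ((fun z => z - h) '' L) (by
      rintro _ ⟨z, hz, rfl⟩
      exact h2 z (hL hz)) (hLc.image (by fun_prop))
    refine ⟨(M1 + M2) / 2 + c, fun z hz => ?_⟩
    have h3 := hM1 _ (mem_image_of_mem _ hz)
    have h4 := hM2 _ (mem_image_of_mem _ hz)
    linarith
  · intro a b hab
    have ha : ∀ ζ : ℂ, ‖ζ‖ ≤ 1 → (a + h) + ζ • b ∈ Ω := fun ζ hζ => by
      have := h1 _ (hab ζ hζ)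
      rwa [add_right_comm] at this
    have hb' : ∀ ζ : ℂ, ‖ζ‖ ≤ 1 → (a - h) + ζ • b ∈ Ω := fun ζ hζ => by
      have := h2 _ (hab ζ hζ)
      rwa [← sub_add_eq_add_sub] at this
    have i1 := EnvB_int hP hb ha
    have i2 := EnvB_int hP hb hb'
    have s1 := hs _ _ ha
    have s2 := hs _ _ hb'
    have e : ∫ θ in (0 : ℝ)..(2 * Real.pi),
        ((P (a + Complex.exp (θ * Complex.I) • b + h) +
          P (a + Complex.exp (θ * Complex.I) • b - h)) / 2 - c) =
        (∫ θ in (0 : ℝ)..(2 * Real.pi), P (a + h + Complex.exp (θ * Complex.I) • b)) / 2 +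
        (∫ θ in (0 : ℝ)..(2 * Real.pi), P (a - h + Complex.exp (θ * Complex.I) • b)) / 2 -
        2 * Real.pi * c := by
      have e1 : (fun θ : ℝ => (P (a + Complex.exp (θ * Complex.I) • b + h) +
          P (a + Complex.exp (θ * Complex.I) • b - h)) / 2 - c) = fun θ : ℝ =>
          (P (a + h + Complex.exp (θ * Complex.I) • b) / 2 +
          P (a - h + Complex.exp (θ * Complex.I) • b) / 2) - c := by
        funext θ
        rw [add_right_comm a _ h, ← sub_add_eq_add_sub a h]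
        ring
      rw [e1, intervalIntegral.integral_sub ((i1.div_const 2).add (i2.div_const 2))
        intervalIntegrable_const, intervalIntegral.integral_add (i1.div_const 2)
        (i2.div_const 2), intervalIntegral.integral_div, intervalIntegral.integral_div,
        intervalIntegral.integral_const]
      simp
    show (P (a + h) + P (a - h)) / 2 - c ≤ (2 * Real.pi)⁻¹ * ∫ θ in (0 : ℝ)..(2 * Real.pi),
        ((P (a + Complex.exp (θ * Complex.I) • b + h) +
          P (a + Complex.exp (θ * Complex.I) • b - h)) / 2 - c)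
    rw [e]
    have hpi : (0 : ℝ) < 2 * Real.pi := by positivity
    have e2 : ∀ A B : ℝ, (2 * Real.pi)⁻¹ * (A / 2 + B / 2 - 2 * Real.pi * c) =
        ((2 * Real.pi)⁻¹ * A + (2 * Real.pi)⁻¹ * B) / 2 - c := by
      intro A B
      field_simp
    rw [e2]
    linarith

/-- glueing: `g = max P v` on a smaller open set, `g = P` elsewhere -/
theorem EnvB_glue {n : ℕ} {Ω Ω' Ω'' : Set (Cn n)} {P v : Cn n → ℝ} (hΩ : IsOpen Ω)
    (hΩ' : IsOpen Ω') (hΩ'' : IsOpen Ω'') (hsub : Ω' ⊆ Ω) (hsub'' : Ω'' ⊆ Ω)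
    (hcov : Ω ⊆ Ω' ∪ Ω'')
    (hP : UpperSemicontinuousOn P Ω)
    (hb : ∀ L ⊆ Ω, IsCompact L → ∃ M : ℝ, ∀ z ∈ L, -M ≤ P z) (hs : SubOn Ω P)
    (hv : UpperSemicontinuousOn v Ω')
    (hbv : ∀ L ⊆ Ω', IsCompact L → ∃ M : ℝ, ∀ z ∈ L, -M ≤ v z) (hsv : SubOn Ω' v)
    {g : Cn n → ℝ} (hg1 : ∀ z ∈ Ω', g z = max (P z) (v z)) (hg2 : ∀ z ∈ Ω'', g z = P z) :
    UpperSemicontinuousOn g Ω ∧ SubOn Ω g := by
  have hPg : ∀ z ∈ Ω, P z ≤ g z := by
    intro z hz
    rcases hcov hz with h | h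
    · rw [hg1 z h]; exact le_max_left _ _
    · rw [hg2 z h]
  have husc : UpperSemicontinuousOn g Ω := by
    intro z hz
    rcases hcov hz with h | h
    · have h1 : UpperSemicontinuousWithinAt (fun z => P z ⊔ v z) Ω' z :=
        UpperSemicontinuousWithinAt.sup (hP.mono hsub z h) (hv z h)
      have h2 : UpperSemicontinuousWithinAt g Ω' z := by
        refine UpperSemicontinuousWithinAt.congr_of_eventuallyEq h1 h ?_
        filter_upwards [self_mem_nhdsWithin] with w hw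
        rw [hg1 w hw]
      intro y hy
      have h3 := h2 y hy
      rw [hΩ'.nhdsWithin_eq h] at h3
      rw [hΩ.nhdsWithin_eq hz]
      exact h3
    · have h2 : UpperSemicontinuousWithinAt g Ω'' z := by
        refine UpperSemicontinuousWithinAt.congr_of_eventuallyEq (hP.mono hsub'' z h) h ?_
        filter_upwards [self_mem_nhdsWithin] with w hw
        rw [hg2 w hw]
      intro y hy
      have h3 := h2 y hy
      rw [hΩ''.nhdsWithin_eq h] at h3
      rw [hΩ.nhdsWithin_eq hz]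
      exact h3
  refine ⟨husc, ?_⟩
  have hbg : ∀ L ⊆ Ω, IsCompact L → ∃ M : ℝ, ∀ z ∈ L, -M ≤ g z := by
    intro L hL hLc
    obtain ⟨M, hM⟩ := hb L hL hLc
    exact ⟨M, fun z hz => (hM z hz).trans (hPg z (hL hz))⟩
  refine loc_glob hΩ husc hbg fun a ha => ?_
  have hmaxsub := sub_max (hP.mono hsub) hv (fun L hL => hb L (hL.trans hsub)) hbv
    (fun a b hab => hs a b (fun ζ hζ => hsub (hab ζ hζ))) hsv
  have hdisc : ∀ (U : Set (Cn n)), IsOpen U → a ∈ U → ∃ r > 0, ∀ b : Cn n, ‖b‖ ≤ r →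
      ∀ ζ : ℂ, ‖ζ‖ ≤ 1 → a + ζ • b ∈ U := by
    intro U hU haU
    obtain ⟨r, hr, hrU⟩ := Metric.isOpen_iff.1 hU a haU
    refine ⟨r / 2, by positivity, fun b hb ζ hζ => hrU ?_⟩
    rw [mem_ball, dist_eq_norm, add_sub_cancel_left, norm_smul]
    have := mul_le_mul hζ hb (norm_nonneg _) zero_le_one
    linarith
  rcases hcov ha with h | h
  · obtain ⟨r, hr, hrU⟩ := hdisc Ω' hΩ' h
    refine ⟨r, hr, fun b hb => ?_⟩
    have h1 := hmaxsub a b (hrU b hb)
    rw [hg1 a h]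
    refine h1.trans (le_of_eq ?_)
    congr 1
    apply intervalIntegral.integral_congr
    intro θ _
    exact (hg1 _ (hrU b hb _ (Complex.norm_exp_ofReal_mul_I θ).le)).symm
  · obtain ⟨r, hr, hrU⟩ := hdisc Ω'' hΩ'' h
    refine ⟨r, hr, fun b hb => ?_⟩
    have h1 := hs a b (fun ζ hζ => hsub'' (hrU b hb ζ hζ))
    rw [hg2 a h]
    refine h1.trans (le_of_eq ?_)
    congr 1
    apply intervalIntegral.integral_congr
    intro θ _
    exact (hg2 _ (hrU b hb _ (Complex.norm_exp_ofReal_mul_I θ).le)).symm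

theorem envP_semi {n : ℕ} {u χ : Cn n → ℝ} (hu : C11 (ball 0 3) u) (hus : SubOn (ball 0 3) u)
    (hχ : ContDiff ℝ ∞ χ) (hχ0 : ∀ z, 0 ≤ χ z) (hχs : tsupport χ ⊆ ball 0 2) {t : ℝ}
    (ht : 0 < t) : ∃ C : ℝ, 0 ≤ C ∧ ∀ z : Cn n, ‖z‖ < 14 / 5 → ∀ h : Cn n, ‖h‖ ≤ 1 / 10 →
      envP (ball 0 3) u (fun z => u z + t * χ z) (z + h) +
        envP (ball 0 3) u (fun z => u z + t * χ z) (z - h) -
        2 * envP (ball 0 3) u (fun z => u z + t * χ z) z ≤ C * ‖h‖ ^ 2 := by
  have hf : C11 (ball (0 : Cn n) 3) (fun z => u z + t * χ z) :=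
    hu.add isOpen_ball ((c11_of_contDiffOn isOpen_ball
      ((hχ.of_le (WithTop.coe_le_coe.2 (le_top : (2 : ℕ∞) ≤ ⊤))).contDiffOn)).const_mul isOpen_ball t)
  have hP : EnvF (ball 0 3) u (fun z => u z + t * χ z)
      (envP (ball 0 3) u (fun z => u z + t * χ z)) :=
    envP_mem isOpen_ball hu.continuousOn hf.continuousOn hus (fun z _ => by
      have := mul_nonneg ht.le (hχ0 z)
      linarith)
  have hzero : ∀ z : Cn n, 2 ≤ ‖z‖ → χ z = 0 := by
    intro z hz
    by_contra h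
    have h1 := hχs (subset_tsupport χ h)
    rw [mem_ball_zero_iff] at h1
    linarith
  obtain ⟨C, hC0, hC⟩ := EnvB_sd hf
  refine ⟨C, hC0, fun z₀ hz₀ h hh => ?_⟩
  set f : Cn n → ℝ := fun z => u z + t * χ z with hfdef
  set P : Cn n → ℝ := envP (ball 0 3) u f with hPdef
  have hbP : ∀ L ⊆ ball (0 : Cn n) 3, IsCompact L → ∃ M : ℝ, ∀ z ∈ L, -M ≤ P z := by
    intro L hL hLc
    obtain ⟨M, hM⟩ := (hLc.image_of_continuousOn (hu.continuousOn.mono hL)).bddBelow
    refine ⟨-M, fun z hz => ?_⟩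
    rw [neg_neg]
    exact (hM (mem_image_of_mem u hz)).trans (hP.ge z (hL hz))
  have hin1 : ∀ z ∈ ball (0 : Cn n) (14 / 5), z + h ∈ ball (0 : Cn n) 3 := by
    intro z hz
    rw [mem_ball_zero_iff] at hz ⊢
    have := norm_add_le z h
    linarith
  have hin2 : ∀ z ∈ ball (0 : Cn n) (14 / 5), z - h ∈ ball (0 : Cn n) 3 := by
    intro z hz
    rw [mem_ball_zero_iff] at hz ⊢
    have := norm_sub_le z h
    linarith
  obtain ⟨v1, v2, v3⟩ := EnvB_avg (Ω' := ball (0 : Cn n) (14 / 5)) hP.usc hbP hP.sub h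
    (C / 2 * ‖h‖ ^ 2) hin1 hin2
  set v : Cn n → ℝ := fun z => (P (z + h) + P (z - h)) / 2 - C / 2 * ‖h‖ ^ 2 with hv
  have hvf : ∀ z ∈ ball (0 : Cn n) (14 / 5), v z ≤ f z := by
    intro z hz
    have h1 := hP.le _ (hin1 z hz)
    have h2 := hP.le _ (hin2 z hz)
    have h3 := hC z (by rwa [mem_ball_zero_iff] at hz) h hh
    rw [hv]
    simp only
    linarith
  have hvP : ∀ z ∈ ball (0 : Cn n) (14 / 5), 21 / 10 < ‖z‖ → v z ≤ P z := by
    intro z hz hz2
    have h1 := hvf z hz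
    have h2 : f z = u z := by
      rw [hfdef]
      simp only
      rw [hzero z (by linarith), mul_zero, add_zero]
    rw [h2] at h1
    exact h1.trans (hP.ge z (by
      rw [mem_ball_zero_iff] at hz ⊢
      linarith))
  classical
  let g : Cn n → ℝ := fun z => if ‖z‖ < 14 / 5 then max (P z) (v z) else P z
  have hg1 : ∀ z ∈ ball (0 : Cn n) (14 / 5), g z = max (P z) (v z) := by
    intro z hz
    rw [mem_ball_zero_iff] at hz
    exact if_pos hz
  have hg2 : ∀ z ∈ ball (0 : Cn n) 3 \ closedBall 0 (21 / 10), g z = P z := by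
    intro z hz
    have h2 : 21 / 10 < ‖z‖ := by
      have := hz.2
      rw [mem_closedBall_zero_iff, not_le] at this
      exact this
    show (if ‖z‖ < 14 / 5 then max (P z) (v z) else P z) = P z
    split_ifs with h3
    · exact max_eq_left (hvP z (by rwa [mem_ball_zero_iff]) h2)
    · rfl
  have hcov : ball (0 : Cn n) 3 ⊆ ball 0 (14 / 5) ∪ (ball (0 : Cn n) 3 \ closedBall 0 (21 / 10)) := by
    intro z hz
    by_cases h3 : ‖z‖ < 14 / 5
    · left; rwa [mem_ball_zero_iff]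
    · right
      refine ⟨hz, ?_⟩
      rw [mem_closedBall_zero_iff, not_le]
      rw [not_lt] at h3
      linarith
  obtain ⟨g1, g2⟩ := EnvB_glue isOpen_ball isOpen_ball
    (isOpen_ball.sdiff isClosed_closedBall) (ball_subset_ball (by norm_num)) sdiff_subset hcov
    hP.usc hbP hP.sub v1 v2 v3 hg1 hg2
  have hgF : EnvF (ball 0 3) u f g := by
    refine ⟨g1, g2, fun z hz => ?_, fun z hz => ?_⟩
    · rcases hcov hz with h3 | h3
      · rw [hg1 z h3]
        exact max_le (hP.le z hz) (hvf z h3)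
      · rw [hg2 z h3]
        exact hP.le z hz
    · rcases hcov hz with h3 | h3
      · rw [hg1 z h3]
        exact (hP.ge z hz).trans (le_max_left _ _)
      · rw [hg2 z h3]
        exact hP.ge z hz
  have hz₀' : z₀ ∈ ball (0 : Cn n) (14 / 5) := by rwa [mem_ball_zero_iff]
  have h1 := le_envP hgF (z := z₀) (ball_subset_ball (by norm_num) hz₀')
  rw [hg1 z₀ hz₀'] at h1
  have h2 := (le_max_right (P z₀) (v z₀)).trans h1
  rw [hv] at h2
  simp only at h2
  rw [← hPdef] at h2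
  linarith

end HMA

end S_KM_EnvB
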