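import Mathlib
import Pool.Agent.H85.MG.G1a
import Pool.Agent.H85.MG.G2a
import Pool.Agent.H85.MG.G2b
import Pool.Agent.H85.MG.G3a

/-! Moderate measures and Hölder continuous potentials, part G4c: this file joins several modules to save build time. -/

section S_KM_Cov

/-! # Module Cov: holomorphic changes of variables -/

open MeasureTheory Metric Set
open scoped ENNReal Topology ContDiff ComplexOrder

namespace HMA

variable {n : ℕ}

/-- the sesquilinear form of a real bilinear form -/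
noncomputable def covL (H : Cn n →L[ℝ] Cn n →L[ℝ] ℝ) (a b : Cn n) : ℂ :=
  (((H a b + H (Complex.I • a) (Complex.I • b) : ℝ) : ℂ) +
      Complex.I * ((H a (Complex.I • b) - H (Complex.I • a) b : ℝ) : ℂ)) / 4

theorem covL_I (H : Cn n →L[ℝ] Cn n →L[ℝ] ℝ) (a b : Cn n) :
    covL H (Complex.I • a) b = Complex.I * covL H a b := by
  simp only [covL, smul_smul, Complex.I_mul_I, neg_smul, one_smul, map_neg,
    ContinuousLinearMap.neg_apply]
  push_cast
  ring_nf
  rw [Complex.I_sq]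
  ring

theorem covL_I' (H : Cn n →L[ℝ] Cn n →L[ℝ] ℝ) (a b : Cn n) :
    covL H a (Complex.I • b) = - Complex.I * covL H a b := by
  simp only [covL, smul_smul, Complex.I_mul_I, neg_smul, one_smul, map_neg,
    ContinuousLinearMap.neg_apply]
  push_cast
  ring_nf
  rw [Complex.I_sq]
  ring

theorem covL_add (H : Cn n →L[ℝ] Cn n →L[ℝ] ℝ) (a a' b : Cn n) :
    covL H (a + a') b = covL H a b + covL H a' b := by
  simp only [covL, smul_add, map_add, ContinuousLinearMap.add_apply]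
  push_cast
  ring

theorem covL_add' (H : Cn n →L[ℝ] Cn n →L[ℝ] ℝ) (a b b' : Cn n) :
    covL H a (b + b') = covL H a b + covL H a b' := by
  simp only [covL, smul_add, map_add]
  push_cast
  ring

theorem covL_real (H : Cn n →L[ℝ] Cn n →L[ℝ] ℝ) (c : ℝ) (a b : Cn n) :
    covL H (c • a) b = c * covL H a b := by
  simp only [covL, smul_comm Complex.I c, map_smul, ContinuousLinearMap.smul_apply, smul_eq_mul]
  push_cast
  ring

theorem covL_real' (H : Cn n →L[ℝ] Cn n →L[ℝ] ℝ) (c : ℝ) (a b : Cn n) :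
    covL H a (c • b) = c * covL H a b := by
  simp only [covL, smul_comm Complex.I c, map_smul, smul_eq_mul]
  push_cast
  ring

theorem cov_smul_eq (c : ℂ) (a : Cn n) : c • a = c.re • a + c.im • (Complex.I • a) := by
  conv_lhs => rw [← Complex.re_add_im c]
  rw [add_smul, mul_smul]
  simp only [Complex.real_smul, ← Complex.coe_smul]

theorem covL_smul (H : Cn n →L[ℝ] Cn n →L[ℝ] ℝ) (c : ℂ) (a b : Cn n) :
    covL H (c • a) b = c * covL H a b := by
  rw [cov_smul_eq, covL_add, covL_real, covL_real, covL_I, ← mul_assoc, ← add_mul,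
    Complex.re_add_im]

theorem covL_smul' (H : Cn n →L[ℝ] Cn n →L[ℝ] ℝ) (c : ℂ) (a b : Cn n) :
    covL H a (c • b) = (starRingEnd ℂ) c * covL H a b := by
  rw [cov_smul_eq, covL_add', covL_real', covL_real', covL_I', ← mul_assoc, ← add_mul]
  congr 1
  apply Complex.ext <;> simp

theorem covL_zero (H : Cn n →L[ℝ] Cn n →L[ℝ] ℝ) (b : Cn n) : covL H 0 b = 0 := by
  simpa using covL_smul H 0 0 b

theorem covL_zero' (H : Cn n →L[ℝ] Cn n →L[ℝ] ℝ) (b : Cn n) : covL H b 0 = 0 := by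
  simpa using covL_smul' H 0 b 0

theorem covL_sum {ι : Type*} (s : Finset ι) (H : Cn n →L[ℝ] Cn n →L[ℝ] ℝ) (f : ι → Cn n)
    (b : Cn n) : covL H (∑ i ∈ s, f i) b = ∑ i ∈ s, covL H (f i) b := by
  classical
  induction s using Finset.induction_on with
  | empty => simp [covL_zero]
  | insert i s hi ih => rw [Finset.sum_insert hi, Finset.sum_insert hi, covL_add, ih]

theorem covL_sum' {ι : Type*} (s : Finset ι) (H : Cn n →L[ℝ] Cn n →L[ℝ] ℝ) (f : ι → Cn n)
    (a : Cn n) : covL H a (∑ i ∈ s, f i) = ∑ i ∈ s, covL H a (f i) := by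
  classical
  induction s using Finset.induction_on with
  | empty => simp [covL_zero']
  | insert i s hi ih => rw [Finset.sum_insert hi, Finset.sum_insert hi, covL_add', ih]

theorem cov_LM_eq (u : Cn n → ℝ) (z : Cn n) (j k : Fin n) :
    LM u z j k = covL (hes u z) (bv n j) (bv n k) := rfl

theorem cov_expand (x : Cn n) : x = ∑ a, x a • bv n a := by
  ext i
  simp [bv, Finset.sum_apply, Pi.single_apply]

/-- second derivative of a composition -/
theorem cov_hes {F : Cn n → Cn n} {u : Cn n → ℝ} {z : Cn n} (hF : ContDiffAt ℂ 2 F z)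
    (hu : TwD u (F z)) : TwD (fun w => u (F w)) z ∧ ∀ a b : Cn n,
      hes (fun w => u (F w)) z a b = hes u (F z) (fderiv ℂ F z a) (fderiv ℂ F z b) +
        fderiv ℝ u (F z) (fderiv ℂ (fderiv ℂ F) z a b) := by
  have hFc : ContinuousAt F z := hF.continuousAt
  have hFd : ∀ᶠ w in 𝓝 z, DifferentiableAt ℂ F w := by
    have := (hF.eventually (by simp)).mono fun w hw => hw.differentiableAt (by simp)
    exact this
  have hFr : ∀ᶠ w in 𝓝 z, fderiv ℝ F w = (fderiv ℂ F w).restrictScalars ℝ :=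
    hFd.mono fun w hw => hw.fderiv_restrictScalars ℝ
  have hud : ∀ᶠ w in 𝓝 z, DifferentiableAt ℝ u (F w) := hFc.eventually hu.1
  have hcd : ∀ᶠ w in 𝓝 z, DifferentiableAt ℝ (fun w => u (F w)) w := by
    filter_upwards [hFd, hud] with w h1 h2
    exact h2.comp w (h1.restrictScalars ℝ)
  have hder : fderiv ℝ (fun w => u (F w)) =ᶠ[𝓝 z]
      fun w => (fderiv ℝ u (F w)).comp ((fderiv ℂ F w).restrictScalars ℝ) := by
    filter_upwards [hFd, hud, hFr] with w h1 h2 h3
    rw [← h3]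
    exact fderiv_comp w h2 (h1.restrictScalars ℝ)
  have hF2 : DifferentiableAt ℂ (fderiv ℂ F) z :=
    (hF.fderiv_right (m := 1) (by norm_num)).differentiableAt (by simp)
  have hd : HasFDerivAt (fun w => (fderiv ℂ F w).restrictScalars ℝ)
      ((ContinuousLinearMap.restrictScalarsL ℂ (Cn n) (Cn n) ℝ ℝ).comp
        ((fderiv ℂ (fderiv ℂ F) z).restrictScalars ℝ)) z :=
    (ContinuousLinearMap.restrictScalarsL ℂ (Cn n) (Cn n) ℝ ℝ).hasFDerivAt.comp z
      (hF2.hasFDerivAt.restrictScalars ℝ)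
  have hc : HasFDerivAt (fun w => fderiv ℝ u (F w))
      ((fderiv ℝ (fderiv ℝ u) (F z)).comp ((fderiv ℂ F z).restrictScalars ℝ)) z :=
    hu.2.hasFDerivAt.comp z ((hFd.self_of_nhds.hasFDerivAt).restrictScalars ℝ)
  have hcomp := hc.clm_comp hd
  have hcomp' := hcomp.congr_of_eventuallyEq hder
  refine ⟨⟨hcd, hcomp'.differentiableAt⟩, fun a b => ?_⟩
  unfold hes
  rw [hcomp'.fderiv]
  simp [ContinuousLinearMap.add_apply, ContinuousLinearMap.comp_apply, add_comm]

/-- chain rule for the Levi matrix -/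
theorem LM_comp {F : Cn n → Cn n} {u : Cn n → ℝ} {z : Cn n} (hF : ContDiffAt ℂ 2 F z)
    (hu : TwD u (F z)) : TwD (fun w => u (F w)) z ∧
      LM (fun w => u (F w)) z = jac F z * LM u (F z) * (jac F z).conjTranspose := by
  obtain ⟨h1, h2⟩ := cov_hes hF hu
  refine ⟨h1, ?_⟩
  ext j k
  have e1 : LM (fun w => u (F w)) z j k =
      covL (hes u (F z)) (fderiv ℂ F z (bv n j)) (fderiv ℂ F z (bv n k)) := by
    rw [cov_LM_eq]
    unfold covL
    simp only [h2, map_smul, ContinuousLinearMap.smul_apply, smul_smul, Complex.I_mul_I, neg_smul,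
      one_smul, map_neg, ContinuousLinearMap.neg_apply]
    push_cast
    ring
  rw [e1]
  conv_lhs => rw [cov_expand (fderiv ℂ F z (bv n j)), cov_expand (fderiv ℂ F z (bv n k))]
  rw [covL_sum, Matrix.mul_apply]
  simp only [covL_sum', covL_smul, covL_smul', Matrix.mul_apply, Matrix.conjTranspose_apply,
    ← cov_LM_eq, jac, Finset.sum_mul]
  rw [Finset.sum_comm]
  refine Finset.sum_congr rfl fun b _ => Finset.sum_congr rfl fun a _ => ?_
  simp only [starRingEnd_apply]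
  ring

theorem mad_comp {F : Cn n → Cn n} {u : Cn n → ℝ} {z : Cn n} (hF : ContDiffAt ℂ 2 F z)
    (hu : TwD u (F z)) : mad (fun w => u (F w)) z = ‖(jac F z).det‖ ^ 2 * mad u (F z) := by
  unfold mad
  rw [(LM_comp hF hu).2, mat_det_conj, Complex.re_ofReal_mul]

theorem mal_comp {F : Cn n → Cn n} {u w : Cn n → ℝ} {z : Cn n} (hF : ContDiffAt ℂ 2 F z)
    (hu : TwD u (F z)) (hw : TwD w (F z)) :
    mal (fun y => u (F y)) (fun y => w (F y)) z = ‖(jac F z).det‖ ^ 2 * mal u w (F z) := by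
  unfold mal
  rw [(LM_comp hF hu).2, (LM_comp hF hw).2, mat_adj_conj, Complex.re_ofReal_mul]

theorem jac_det_ne_zero {F : Cn n → Cn n} {z : Cn n} (h : Function.Injective (fderiv ℂ F z)) :
    (jac F z).det ≠ 0 := by
  intro h0
  obtain ⟨v, hv, hv0⟩ := Matrix.exists_vecMul_eq_zero_iff.mpr h0
  apply hv
  have h1 : fderiv ℂ F z (∑ j, v j • bv n j) = 0 := by
    ext a
    have := congrFun hv0 a
    simp only [Matrix.vecMul, dotProduct, jac, Pi.zero_apply] at this
    rw [map_sum]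
    simp only [map_smul]
    simpa [Finset.sum_apply] using this
  have h2 : ∑ j, v j • bv n j = 0 := h (by rw [h1, map_zero])
  ext a
  have h3 := congrArg (fun x : Cn n => x a) h2
  simpa [bv, Finset.sum_apply, Pi.single_apply] using h3

theorem cov_det (L : Cn n →L[ℂ] Cn n) (M : Matrix (Fin n) (Fin n) ℂ)
    (hM : ∀ j a, M j a = (L (bv n j)) a) :
    |(L.restrictScalars ℝ).det| = ‖M.det‖ ^ 2 := by
  have h1 : (L.restrictScalars ℝ).det = Algebra.norm ℝ (LinearMap.det (L : Cn n →ₗ[ℂ] Cn n)) := by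
    rw [← LinearMap.det_restrictScalars]
    rfl
  have h2 : LinearMap.det (L : Cn n →ₗ[ℂ] Cn n) = M.det := by
    rw [← LinearMap.det_toMatrix (EuclideanSpace.basisFun (Fin n) ℂ).toBasis, ← Matrix.det_transpose]
    congr 1
    ext j a
    rw [Matrix.transpose_apply, LinearMap.toMatrix_apply, hM]
    simp [bv]
  rw [h1, h2, Algebra.norm_complex_apply, ← Complex.sq_norm, abs_of_nonneg (by positivity)]

/-- change of variables in integrals -/
theorem lintegral_hol {Ω : Set (Cn n)} (hΩ : IsOpen Ω) {F : Cn n → Cn n}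
    (hF : DifferentiableOn ℂ F Ω) {E : Set (Cn n)} (hE : MeasurableSet E) (hEΩ : E ⊆ Ω)
    (hi : InjOn F E) (g : Cn n → ℝ≥0∞) :
    ∫⁻ y in F '' E, g y = ∫⁻ z in E, ENNReal.ofReal (‖(jac F z).det‖ ^ 2) * g (F z) := by
  rw [lintegral_image_eq_lintegral_abs_det_fderiv_mul volume hE
    (f' := fun z => (fderiv ℂ F z).restrictScalars ℝ) _ hi g]
  · refine lintegral_congr fun z => ?_
    rw [cov_det (fderiv ℂ F z) (jac F z) fun j a => rfl]
  · intro z hz
    exact (((hF.differentiableAt (hΩ.mem_nhds (hEΩ hz))).hasFDerivAt).restrictScalars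
      ℝ).hasFDerivWithinAt

theorem cov_meas_det (F : Cn n → Cn n) :
    Measurable fun z => ENNReal.ofReal (‖(jac F z).det‖ ^ 2) := by
  have h1 : ∀ j a, Measurable fun z => jac F z j a := by
    intro j a
    have h := measurable_fderiv_apply_const ℂ F (bv n j)
    exact (PiLp.continuous_apply 2 _ a).measurable.comp h
  have h2 : Measurable fun z => (jac F z).det := by
    simp only [Matrix.det_apply]
    refine Finset.measurable_sum _ fun σ _ => ?_
    refine Measurable.const_smul ?_ _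
    exact Finset.measurable_prod _ fun i _ => h1 _ _
  exact (h2.norm.pow_const 2).ennreal_ofReal

/-- null sets under holomorphic maps with invertible derivative -/
theorem ae_comp_hol {Ω : Set (Cn n)} (hΩ : IsOpen Ω) {F : Cn n → Cn n}
    (hF : DifferentiableOn ℂ F Ω) (hi : InjOn F Ω)
    (hd : ∀ z ∈ Ω, Function.Injective (fderiv ℂ F z)) {p : Cn n → Prop}
    (hp : ∀ᵐ y : Cn n, y ∈ F '' Ω → p y) : ∀ᵐ z : Cn n, z ∈ Ω → p (F z) := by
  set N : Set (Cn n) := toMeasurable volume {y | ¬ (y ∈ F '' Ω → p y)} with hN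
  have hN0 : volume N = 0 := by
    rw [hN, measure_toMeasurable]
    exact hp
  have hNm : MeasurableSet N := measurableSet_toMeasurable _ _
  have hres : Measurable (Ω.restrict F) :=
    (continuousOn_iff_continuous_restrict.mp hF.continuousOn).measurable
  set E : Set (Cn n) := Subtype.val '' ((Ω.restrict F) ⁻¹' N) with hE
  have hEm : MeasurableSet E := hΩ.measurableSet.subtype_image (hres hNm)
  have hEs : ∀ z, z ∈ E ↔ z ∈ Ω ∧ F z ∈ N := by
    intro z
    constructor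
    · rintro ⟨y, hy, rfl⟩
      exact ⟨y.2, hy⟩
    · rintro ⟨h1, h2⟩
      exact ⟨⟨z, h1⟩, h2, rfl⟩
  have hEΩ : E ⊆ Ω := fun z hz => ((hEs z).mp hz).1
  have hint : ∫⁻ z in E, ENNReal.ofReal (‖(jac F z).det‖ ^ 2) = 0 := by
    have h := lintegral_hol hΩ hF hEm hEΩ (hi.mono hEΩ) (fun _ => 1)
    simp only [mul_one] at h
    rw [← h, setLIntegral_one]
    refine measure_mono_null ?_ hN0
    rintro _ ⟨z, hz, rfl⟩
    exact ((hEs z).mp hz).2
  have hae := (lintegral_eq_zero_iff (cov_meas_det F)).mp hint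
  have hae' := (ae_restrict_iff' hEm).mp hae
  filter_upwards [hae'] with z hz hzΩ
  by_contra hpz
  have hzE : z ∈ E := by
    refine (hEs z).mpr ⟨hzΩ, subset_toMeasurable _ _ ?_⟩
    intro h
    exact hpz (h ⟨z, hzΩ, rfl⟩)
  have h0 := hz hzE
  simp only [Pi.zero_apply, ENNReal.ofReal_eq_zero] at h0
  have h1 : 0 < ‖(jac F z).det‖ := norm_pos_iff.mpr (jac_det_ne_zero (hd z hzΩ))
  have h2 : 0 < ‖(jac F z).det‖ ^ 2 := by positivity
  linarith

/-- images of open sets -/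
theorem isOpen_image_hol {Ω : Set (Cn n)} (hΩ : IsOpen Ω) {F : Cn n → Cn n}
    (hF : DifferentiableOn ℂ F Ω) (hd : ∀ z ∈ Ω, Function.Injective (fderiv ℂ F z))
    {U : Set (Cn n)} (hU : IsOpen U) (hUΩ : U ⊆ Ω) : IsOpen (F '' U) := by
  rw [isOpen_iff_mem_nhds]
  rintro _ ⟨z, hz, rfl⟩
  have hzΩ := hUΩ hz
  have hsm : ContDiffAt ℂ 1 F z :=
    ((hol_contDiffOn hΩ hF).contDiffAt (hΩ.mem_nhds hzΩ)).of_le (by simp)
  have hstr := hsm.hasStrictFDerivAt (by simp)
  have hinj := hd z hzΩ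
  let e : Cn n ≃L[ℂ] Cn n :=
    (LinearEquiv.ofInjectiveEndo (fderiv ℂ F z : Cn n →ₗ[ℂ] Cn n) hinj).toContinuousLinearEquiv
  have he : (e : Cn n →L[ℂ] Cn n) = fderiv ℂ F z := by
    ext x
    rfl
  have hstr' : HasStrictFDerivAt F (e : Cn n →L[ℂ] Cn n) z := by rw [he]; exact hstr
  rw [← hstr'.map_nhds_eq_of_equiv]
  exact Filter.image_mem_map (hU.mem_nhds hz)

end HMA

end S_KM_Cov

section S_KM_XTop

/-! # Module XTop: topology of the charts -/

open MeasureTheory Metric Set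
open scoped ENNReal Topology ContDiff ComplexOrder

namespace HMA

variable {n : ℕ} {X : Type} [TopologicalSpace X] (K : KM n X)

theorem KM.isOpen_range (i : Fin K.N) : IsOpen (K.κ i '' ball 0 3) :=
  K.isOpen_image i _ subset_rfl isOpen_ball

theorem xtop_linv (i : Fin K.N) {z : Cn n} (hz : z ∈ ball (0 : Cn n) 3) :
    Function.invFunOn (K.κ i) (ball 0 3) (K.κ i z) = z :=
  (K.injOn i).leftInvOn_invFunOn hz

theorem KM.inv_cont (i : Fin K.N) :
    ContinuousOn (Function.invFunOn (K.κ i) (ball 0 3)) (K.κ i '' ball 0 3) := by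
  rintro x ⟨z, hz, rfl⟩
  rw [ContinuousWithinAt, xtop_linv K i hz]
  intro V hV
  obtain ⟨U, hUV, hU, hzU⟩ := _root_.mem_nhds_iff.1 hV
  have ho : IsOpen (K.κ i '' (U ∩ ball 0 3)) :=
    K.isOpen_image i _ inter_subset_right (hU.inter isOpen_ball)
  have hm : K.κ i '' (U ∩ ball 0 3) ∈ 𝓝 (K.κ i z) := ho.mem_nhds ⟨z, ⟨hzU, hz⟩, rfl⟩
  refine Filter.mem_map.2 (mem_nhdsWithin_of_mem_nhds (Filter.mem_of_superset hm ?_))
  rintro y ⟨w, ⟨hwU, hw⟩, rfl⟩
  rw [mem_preimage, xtop_linv K i hw]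
  exact hUV hwU

theorem KM.isOpen_overlap (i j : Fin K.N) :
    IsOpen (ball (0 : Cn n) 3 ∩ K.κ i ⁻¹' (K.κ j '' ball 0 3)) :=
  (K.cont i).isOpen_inter_preimage isOpen_ball (K.isOpen_range j)

theorem KM.τ_inv (i j : Fin K.N) {z : Cn n} (hz : z ∈ ball (0 : Cn n) 3)
    (h : K.κ i z ∈ K.κ j '' ball 0 3) : K.τ i j z ∈ ball (0 : Cn n) 3 ∧
      K.κ j (K.τ i j z) ∈ K.κ i '' ball 0 3 ∧ K.τ j i (K.τ i j z) = z := by
  obtain ⟨h1, h2⟩ := K.τ_spec i j z hz h
  have h3 : K.κ j (K.τ i j z) ∈ K.κ i '' ball 0 3 := ⟨z, hz, h2.symm⟩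
  obtain ⟨h4, h5⟩ := K.τ_spec j i _ h1 h3
  exact ⟨h1, h3, K.injOn i h4 hz (h5.trans h2)⟩

theorem KM.τ_inj (i j : Fin K.N) :
    InjOn (K.τ i j) (ball 0 3 ∩ K.κ i ⁻¹' (K.κ j '' ball 0 3)) := by
  intro z hz w hw h
  have h1 := (K.τ_inv i j hz.1 hz.2).2.2
  have h2 := (K.τ_inv i j hw.1 hw.2).2.2
  rw [← h1, ← h2, h]

theorem KM.τ_fderiv (i j : Fin K.N) {z : Cn n}
    (hz : z ∈ ball (0 : Cn n) 3 ∩ K.κ i ⁻¹' (K.κ j '' ball 0 3)) :
    Function.Injective (fderiv ℂ (K.τ i j) z) := by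
  have h1 : DifferentiableAt ℂ (K.τ i j) z :=
    (K.τ_hol i j z hz).differentiableAt ((K.isOpen_overlap i j).mem_nhds hz)
  obtain ⟨h2, h3, h4⟩ := K.τ_inv i j hz.1 hz.2
  have h5 : DifferentiableAt ℂ (K.τ j i) (K.τ i j z) :=
    (K.τ_hol j i _ ⟨h2, h3⟩).differentiableAt ((K.isOpen_overlap j i).mem_nhds ⟨h2, h3⟩)
  have h6 : (fun w => K.τ j i (K.τ i j w)) =ᶠ[𝓝 z] fun w => w := by
    filter_upwards [(K.isOpen_overlap i j).mem_nhds hz] with w hw
    exact (K.τ_inv i j hw.1 hw.2).2.2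
  have h7 : HasFDerivAt (fun w => K.τ j i (K.τ i j w))
      ((fderiv ℂ (K.τ j i) (K.τ i j z)).comp (fderiv ℂ (K.τ i j) z)) z :=
    h5.hasFDerivAt.comp z h1.hasFDerivAt
  have h8 : (fderiv ℂ (K.τ j i) (K.τ i j z)).comp (fderiv ℂ (K.τ i j) z) =
      ContinuousLinearMap.id ℂ (Cn n) :=
    (h7.congr_of_eventuallyEq h6.symm).unique (hasFDerivAt_id z)
  intro a b hab
  have := congrArg (fun L : Cn n →L[ℂ] Cn n => L a) h8
  have h9 := congrArg (fun L : Cn n →L[ℂ] Cn n => L b) h8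
  simp only [ContinuousLinearMap.comp_apply, ContinuousLinearMap.id_apply] at this h9
  rw [← this, ← h9, hab]

theorem KM.ix_spec (x : X) : x ∈ K.κ (K.ix x) '' ball 0 1 ∧
    ∀ j < K.ix x, x ∉ K.κ j '' ball 0 1 := by
  exact (K.exists_ix x).choose_spec

theorem KM.ix_eq (x : X) (i : Fin K.N) (h1 : x ∈ K.κ i '' ball 0 1)
    (h2 : ∀ j < i, x ∉ K.κ j '' ball 0 1) : K.ix x = i := by
  obtain ⟨h3, h4⟩ := K.ix_spec x
  rcases lt_trichotomy (K.ix x) i with h | h | h
  · exact absurd h3 (h2 _ h)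
  · exact h
  · exact absurd h1 (h4 _ h)

theorem KM.co_spec (x : X) : K.co x ∈ ball (0 : Cn n) 1 ∧ K.κ (K.ix x) (K.co x) = x :=
  ⟨Function.invFunOn_mem (K.ix_spec x).1, Function.invFunOn_eq (K.ix_spec x).1⟩

theorem KM.measurableSet_ix [MeasurableSpace X] [BorelSpace X] (i : Fin K.N) :
    MeasurableSet {x : X | K.ix x = i} := by
  have hsub : ball (0 : Cn n) 1 ⊆ ball 0 3 := ball_subset_ball (by norm_num)
  have h : {x : X | K.ix x = i} = K.κ i '' ball 0 1 \ ⋃ j ∈ {j : Fin K.N | j < i}, K.κ j '' ball 0 1 := by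
    ext x
    simp only [Set.mem_ofPred_eq, Set.mem_sdiff, mem_iUnion, exists_prop, not_exists, not_and]
    constructor
    · rintro rfl
      exact ⟨(K.ix_spec x).1, fun j hj => (K.ix_spec x).2 j hj⟩
    · rintro ⟨h1, h2⟩
      exact K.ix_eq x i h1 h2
  rw [h]
  refine (K.isOpen_image i _ hsub isOpen_ball).measurableSet.diff ?_
  exact MeasurableSet.biUnion (Set.to_countable _)
    (fun j _ => (K.isOpen_image j _ hsub isOpen_ball).measurableSet)

theorem KM.compact_image (i : Fin K.N) {L : Set (Cn n)} (hL : IsCompact L) (h : L ⊆ ball 0 3) :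
    IsCompact (K.κ i '' L) :=
  hL.image_of_continuousOn ((K.cont i).mono h)

theorem KM.ext_κ (i : Fin K.N) (w : Cn n → ℝ) {z : Cn n} (hz : z ∈ ball (0 : Cn n) 3) :
    K.ext i w (K.κ i z) = w z := by
  unfold KM.ext
  rw [if_pos ⟨z, hz, rfl⟩, xtop_linv K i hz]

theorem KM.ext_off (i : Fin K.N) (w : Cn n → ℝ) {x : X} (hx : x ∉ K.κ i '' ball 0 3) :
    K.ext i w x = 0 := by
  unfold KM.ext
  rw [if_neg hx]

/-- the potential is bounded on smaller balls and its Monge-Ampère density is positive -/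
theorem KM.ρ_c11 (i : Fin K.N) : C11 (ball 0 3) (K.ρ i) :=
  c11_of_contDiffOn isOpen_ball ((K.ρ_smooth i).of_le (by norm_cast))

theorem xtop_smoothAt (i : Fin K.N) {z : Cn n} (hz : z ∈ ball (0 : Cn n) 3) :
    ContDiffAt ℝ ∞ (K.ρ i) z :=
  (K.ρ_smooth i).contDiffAt (isOpen_ball.mem_nhds hz)

theorem xtop_twD (i : Fin K.N) {z : Cn n} (hz : z ∈ ball (0 : Cn n) 3) : TwD (K.ρ i) z := by
  constructor
  · filter_upwards [isOpen_ball.mem_nhds hz] with w hw
    exact (xtop_smoothAt K i hw).differentiableAt (by simp)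
  · have h := (xtop_smoothAt K i hz).fderiv_right (m := ∞) (by simp)
    exact h.differentiableAt (by simp)

theorem xtop_posDef {u : Cn n → ℝ} {z : Cn n} (h : TwD u z) (hpos : ∀ ξ : Cn n, ξ ≠ 0 → 0 < lev u z ξ) :
    (LM u z).PosDef := by
  refine Matrix.PosDef.of_dotProduct_mulVec_pos h.herm (fun x hx => ?_)
  set ξ : Cn n := WithLp.toLp 2 (star x) with hξ
  have hξ0 : ξ ≠ 0 := by
    intro h0
    apply hx
    have h1 : star x = 0 := by
      have := congrArg (WithLp.ofLp) h0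
      simpa [hξ] using this
    exact star_eq_zero.1 h1
  have h2 := hpos ξ hξ0
  have h3 := h.lev_LM ξ
  have h4 : star x ⬝ᵥ ((LM u z).mulVec x) = ((lev u z ξ : ℝ) : ℂ) := by
    rw [h3]
    simp only [dotProduct, Matrix.mulVec, Finset.mul_sum]
    refine Finset.sum_congr rfl (fun j _ => Finset.sum_congr rfl (fun k _ => ?_))
    simp only [hξ, Pi.star_apply, RCLike.star_def, Complex.conj_conj]
    ring
  rw [h4]
  exact_mod_cast h2

theorem KM.mad_ρ_pos (i : Fin K.N) {z : Cn n} (hz : z ∈ ball (0 : Cn n) 3) :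
    TwD (K.ρ i) z ∧ (LM (K.ρ i) z).PosDef ∧ 0 < mad (K.ρ i) z := by
  have h1 := xtop_twD K i hz
  have h2 := xtop_posDef h1 (K.ρ_pos i z hz)
  refine ⟨h1, h2, ?_⟩
  unfold mad
  have := h2.det_pos
  exact (Complex.pos_iff.1 this).1

theorem KM.mad_ρ_bdd (i : Fin K.N) {L : Set (Cn n)} (hL : IsCompact L) (h : L ⊆ ball 0 3) :
    ∃ a b : ℝ, 0 < a ∧ 0 < b ∧ ∀ z ∈ L, a ≤ mad (K.ρ i) z ∧ mad (K.ρ i) z ≤ b := by
  have hc : ContinuousOn (mad (K.ρ i)) L := by
    intro z hz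
    apply ContinuousAt.continuousWithinAt
    have h1 : ContinuousAt (hes (K.ρ i)) z := by
      have h2 := ((xtop_smoothAt K i (h hz)).fderiv_right (m := ∞) (by simp)).fderiv_right (m := ∞) (by simp)
      exact h2.continuousAt
    have h3 : ∀ a b : Cn n, ContinuousAt (fun w => hes (K.ρ i) w a b) z := fun a b =>
      (h1.clm_apply continuousAt_const).clm_apply continuousAt_const
    have h4 : ContinuousAt (LM (K.ρ i)) z := by
      refine continuousAt_pi.2 (fun j => continuousAt_pi.2 (fun k => ?_))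
      unfold LM
      refine ContinuousAt.div_const ?_ _
      refine ContinuousAt.add ?_ (ContinuousAt.mul continuousAt_const ?_)
      · exact Complex.continuous_ofReal.continuousAt.comp ((h3 _ _).add (h3 _ _))
      · exact Complex.continuous_ofReal.continuousAt.comp ((h3 _ _).sub (h3 _ _))
    have h5 : ContinuousAt (fun w => (LM (K.ρ i) w).det.re) z :=
      ((Complex.continuous_re.comp (continuous_id.matrix_det)).continuousAt (x := LM (K.ρ i) z)).comp h4
    exact h5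
  rcases L.eq_empty_or_nonempty with rfl | hne
  · exact ⟨1, 1, one_pos, one_pos, by simp⟩
  obtain ⟨z0, hz0, hmin⟩ := hL.exists_isMinOn hne hc
  obtain ⟨z1, hz1, hmax⟩ := hL.exists_isMaxOn hne hc
  exact ⟨mad (K.ρ i) z0, mad (K.ρ i) z1, (K.mad_ρ_pos i (h hz0)).2.2, (K.mad_ρ_pos i (h hz1)).2.2,
    fun z hz => ⟨hmin hz, hmax hz⟩⟩

end HMA

end S_KM_XTop

section S_KW_OvL

/-! # Module OvL: the overlaps of the charts -/

open MeasureTheory Metric Set Filter
open scoped ENNReal Topology ContDiff ComplexOrder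

namespace HMA

variable {n : ℕ} {X : Type} [TopologicalSpace X] (K : KM n X)

theorem OvL_lip {G : Type*} [NormedAddCommGroup G] [NormedSpace ℝ G] {L O : Set (Cn n)}
    (hL : IsCompact L) (hO : IsOpen O) (hLO : L ⊆ O) {F : Cn n → G}
    (hF : ContDiffOn ℝ 1 F O) : ∃ C r : ℝ, 0 < r ∧ ∀ z ∈ L, ∀ y : Cn n, ‖y - z‖ ≤ r →
      y ∈ O ∧ ‖F y - F z‖ ≤ C * ‖y - z‖ := by
  obtain ⟨r, hr, hrO⟩ := hL.exists_cthickening_subset_open hO hLO
  have hK : IsCompact (cthickening r L) := hL.cthickening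
  have hcont : ContinuousOn (fderiv ℝ F) O := hF.continuousOn_fderiv_of_isOpen hO le_rfl
  obtain ⟨C, hC⟩ := hK.exists_bound_of_continuousOn (hcont.mono hrO)
  refine ⟨C, r, hr, fun z hz y hy => ?_⟩
  have hsub : closedBall z r ⊆ cthickening r L := closedBall_subset_cthickening hz r
  have hyb : y ∈ closedBall z r := by rw [mem_closedBall, dist_eq_norm]; exact hy
  refine ⟨hrO (hsub hyb), ?_⟩
  refine (convex_closedBall z r).norm_image_sub_le_of_norm_fderiv_le (𝕜 := ℝ)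
    (fun x hx => ?_) (fun x hx => hC x (hsub hx)) (mem_closedBall_self hr.le) hyb
  exact (hF.differentiableOn (by norm_num)).differentiableAt (hO.mem_nhds (hrO (hsub hx)))

theorem OvL_pair [T2Space X] (i j : Fin K.N) : ∃ Λ C r : ℝ, 0 < r ∧
    ∀ (z w : Cn n), ‖z‖ ≤ 7 / 4 → ‖w‖ ≤ 7 / 4 → K.κ i z = K.κ j w →
      ∀ y : Cn n, ‖y - z‖ ≤ r → ∃ y' : Cn n, ‖y'‖ < 3 ∧ K.κ j y' = K.κ i y ∧
        ‖y' - w‖ ≤ Λ * ‖y - z‖ ∧
        |(K.ρ i y - K.ρ j y') - (K.ρ i z - K.ρ j w)| ≤ C * ‖y - z‖ := by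
  set O : Set (Cn n) := ball (0 : Cn n) 3 ∩ K.κ i ⁻¹' (K.κ j '' ball 0 3) with hOdef
  have hO : IsOpen O := K.isOpen_overlap i j
  set B : Set (Cn n) := closedBall (0 : Cn n) (7 / 4) with hB
  have hB3 : B ⊆ ball (0 : Cn n) 3 := closedBall_subset_ball (by norm_num)
  have hBc : IsCompact B := isCompact_closedBall _ _
  set L : Set (Cn n) := B ∩ K.κ i ⁻¹' (K.κ j '' B) with hLdef
  have hLO : L ⊆ O := fun z hz => ⟨hB3 hz.1, image_mono hB3 hz.2⟩
  have hjB : IsClosed (K.κ j '' B) := (hBc.image_of_continuousOn ((K.cont j).mono hB3)).isClosed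
  have hL : IsCompact L := by
    have h1 : IsClosed L :=
      ((K.cont i).mono hB3).preimage_isClosed_of_isClosed hBc.isClosed hjB
    exact hBc.of_isClosed_subset h1 inter_subset_left
  have hτ : ContDiffOn ℝ ∞ (K.τ i j) O := (hol_contDiffOn hO (K.τ_hol i j)).restrict_scalars ℝ
  have hτm : MapsTo (K.τ i j) O (ball (0 : Cn n) 3) := fun z hz => (K.τ_spec i j z hz.1 hz.2).1
  have hg : ContDiffOn ℝ ∞ (fun z => K.ρ i z - K.ρ j (K.τ i j z)) O :=
    ((K.ρ_smooth i).mono inter_subset_left).sub ((K.ρ_smooth j).comp hτ hτm)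
  have h1inf : (1 : WithTop ℕ∞) ≤ ((⊤ : ℕ∞) : WithTop ℕ∞) := by exact_mod_cast le_top
  obtain ⟨Λ, r1, hr1, h1⟩ := OvL_lip hL hO hLO (hτ.of_le h1inf)
  obtain ⟨C, r2, hr2, h2⟩ := OvL_lip hL hO hLO (hg.of_le h1inf)
  refine ⟨Λ, C, min r1 r2, lt_min hr1 hr2, fun z w hz hw hzw y hy => ?_⟩
  have hzB : z ∈ B := by rw [hB, mem_closedBall_zero_iff]; exact hz
  have hwB : w ∈ B := by rw [hB, mem_closedBall_zero_iff]; exact hw
  have hzL : z ∈ L := ⟨hzB, by rw [mem_preimage, hzw]; exact mem_image_of_mem _ hwB⟩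
  obtain ⟨hyO, h3⟩ := h1 z hzL y (hy.trans (min_le_left _ _))
  obtain ⟨_, h4⟩ := h2 z hzL y (hy.trans (min_le_right _ _))
  obtain ⟨h5, h6⟩ := K.τ_spec i j y hyO.1 hyO.2
  obtain ⟨h7, h8⟩ := K.τ_spec i j z (hLO hzL).1 (hLO hzL).2
  have h9 : K.τ i j z = w := K.injOn j h7 (hB3 hwB) (h8.trans hzw)
  rw [h9] at h3 h4
  exact ⟨K.τ i j y, by rwa [mem_ball_zero_iff] at h5, h6, h3, h4⟩

theorem KM.overlap [T2Space X] : ∃ Λ C r₁ : ℝ, 1 < Λ ∧ 0 < C ∧ 0 < r₁ ∧ r₁ ≤ 1 / 4 ∧
    ∀ (i j : Fin K.N) (z w : Cn n), ‖z‖ ≤ 7 / 4 → ‖w‖ ≤ 7 / 4 → K.κ i z = K.κ j w →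
      ∀ y : Cn n, ‖y - z‖ ≤ r₁ → ∃ y' : Cn n, ‖y'‖ < 3 ∧ K.κ j y' = K.κ i y ∧
        ‖y' - w‖ ≤ Λ * ‖y - z‖ ∧
        |(K.ρ i y - K.ρ j y') - (K.ρ i z - K.ρ j w)| ≤ C * ‖y - z‖ := by
  choose Λ C r hr h using OvL_pair K
  have e1 : ∀ᶠ a : ℝ in atTop, 1 < a ∧ ∀ i j, Λ i j ≤ a :=
    (eventually_gt_atTop 1).and
      (eventually_all.2 fun i => eventually_all.2 fun j => eventually_ge_atTop _)
  have e2 : ∀ᶠ a : ℝ in atTop, 0 < a ∧ ∀ i j, C i j ≤ a :=
    (eventually_gt_atTop 0).and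
      (eventually_all.2 fun i => eventually_all.2 fun j => eventually_ge_atTop _)
  have e3 : ∀ᶠ a : ℝ in 𝓝[>] 0, 0 < a ∧ a < 1 / 4 ∧ ∀ i j, a < r i j := by
    refine (eventually_mem_nhdsWithin).and (Eventually.and ?_ ?_)
    · exact nhdsWithin_le_nhds (Iio_mem_nhds (by norm_num))
    · exact eventually_all.2 fun i => eventually_all.2 fun j =>
        nhdsWithin_le_nhds (Iio_mem_nhds (hr i j))
  obtain ⟨a, ha1, ha⟩ := e1.exists
  obtain ⟨b, hb1, hb⟩ := e2.exists
  obtain ⟨c, hc1, hc2, hc⟩ := e3.exists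
  refine ⟨a, b, c, ha1, hb1, hc1, hc2.le, fun i j z w hz hw hzw y hy => ?_⟩
  obtain ⟨y', h1, h2, h3, h4⟩ := h i j z w hz hw hzw y (hy.trans (hc i j).le)
  exact ⟨y', h1, h2, h3.trans (mul_le_mul_of_nonneg_right (ha i j) (norm_nonneg _)),
    h4.trans (mul_le_mul_of_nonneg_right (hb i j) (norm_nonneg _))⟩

end HMA

end S_KW_OvL

section S_KM_XVol

/-! # Module XVol: the volume measure -/

open MeasureTheory Metric Set
open scoped ENNReal Topology ContDiff ComplexOrder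

namespace HMA

variable {n : ℕ} {X : Type} [TopologicalSpace X] (K : KM n X)

/-- a matrix is determined by its quadratic form -/
theorem xvol_pol {A B : Matrix (Fin n) (Fin n) ℂ}
    (h : ∀ ξ : Cn n, ∑ j, ∑ k, A j k * ξ j * (starRingEnd ℂ) (ξ k) =
      ∑ j, ∑ k, B j k * ξ j * (starRingEnd ℂ) (ξ k)) : A = B := by
  classical
  set M : Matrix (Fin n) (Fin n) ℂ := fun k j => (starRingEnd ℂ) (A k j - B k j) with hM
  have h0 : Matrix.toEuclideanLin M = 0 := by
    rw [← inner_map_self_eq_zero]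
    intro x
    have h1 : inner ℂ (Matrix.toEuclideanLin M x) x =
        ∑ j, ∑ k, (A j k - B j k) * x j * (starRingEnd ℂ) (x k) := by
      rw [PiLp.inner_apply]
      refine Finset.sum_congr rfl fun j _ => ?_
      rw [RCLike.inner_apply, Matrix.toEuclideanLin_apply]
      simp only [Matrix.mulVec, dotProduct, map_sum, map_mul, hM, Complex.conj_conj,
        Finset.mul_sum]
      refine Finset.sum_congr rfl fun k _ => ?_
      ring
    rw [h1]
    simp only [sub_mul, Finset.sum_sub_distrib]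
    rw [h x, sub_self]
  have h2 : M = 0 := by
    apply Matrix.toEuclideanLin.injective
    rw [h0, map_zero]
  ext j k
  have h3 : M j k = 0 := by rw [h2]; rfl
  have h4 : (starRingEnd ℂ) (A j k - B j k) = 0 := h3
  rw [map_eq_zero] at h4
  exact sub_eq_zero.1 h4

/-- the density in two charts -/
theorem xvol_mad (i j : Fin K.N) {z : Cn n}
    (hz : z ∈ ball (0 : Cn n) 3 ∩ K.κ i ⁻¹' (K.κ j '' ball 0 3)) :
    mad (K.ρ i) z = ‖(jac (K.τ i j) z).det‖ ^ 2 * mad (K.ρ j) (K.τ i j z) := by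
  have hop := K.isOpen_overlap i j
  have hs := hol_contDiffOn hop (K.τ_hol i j)
  have hF : ContDiffAt ℂ 2 (K.τ i j) z :=
    (hs.contDiffAt (hop.mem_nhds hz)).of_le (by decide)
  obtain ⟨h1, h2⟩ := K.τ_spec i j z hz.1 hz.2
  have hT := (K.mad_ρ_pos j h1).1
  rw [← mad_comp hF hT]
  have hL := LM_comp hF hT
  have hi := (K.mad_ρ_pos i hz.1).1
  have : LM (K.ρ i) z = LM (fun w => K.ρ j (K.τ i j w)) z := by
    apply xvol_pol
    intro ξ
    rw [← hi.lev_LM ξ, ← hL.1.lev_LM ξ, K.ρ_compat i j z hz ξ]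
  rw [mad, mad, this]

theorem xvol_b13 : ball (0 : Cn n) 1 ⊆ ball 0 3 := ball_subset_ball (by norm_num)

/-- the pieces -/
def xS (j : Fin K.N) : Set (Cn n) := ball 0 1 ∩ K.κ j ⁻¹' {x | K.ix x = j}

theorem xS_sub (j : Fin K.N) : xS K j ⊆ ball 0 3 := inter_subset_left.trans xvol_b13

theorem xvol_dens (j : Fin K.N) :
    Measurable (fun z : Cn n => ENNReal.ofReal (mad (K.ρ j) z)) :=
  (measurable_mad _).ennreal_ofReal

variable [MeasurableSpace X] [BorelSpace X]

theorem xvol_pre (j : Fin K.N) {T : Set X} (hT : MeasurableSet T) {U : Set (Cn n)}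
    (hU : IsOpen U) (hU3 : U ⊆ ball 0 3) : MeasurableSet (U ∩ K.κ j ⁻¹' T) := by
  have hc : Continuous (U.domRestrict (K.κ j)) := ((K.cont j).mono hU3).domRestrict
  have h1 : MeasurableSet (U.domRestrict (K.κ j) ⁻¹' T) := hc.measurable hT
  have h2 := hU.measurableSet.subtype_image h1
  convert h2 using 1
  ext z
  constructor
  · rintro ⟨hz, hz'⟩
    exact ⟨⟨z, hz⟩, hz', rfl⟩
  · rintro ⟨⟨w, hw⟩, hw', rfl⟩
    exact ⟨hw, hw'⟩

theorem xvol_image (j : Fin K.N) {T : Set (Cn n)} (hT : MeasurableSet T) (hT3 : T ⊆ ball 0 3) :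
    MeasurableSet (K.κ j '' T) := by
  have ho := K.isOpen_range j
  have hc : Continuous ((K.κ j '' ball 0 3).domRestrict (Function.invFunOn (K.κ j) (ball 0 3))) :=
    (K.inv_cont j).domRestrict
  have h1 := ho.measurableSet.subtype_image (hc.measurable hT)
  convert h1 using 1
  ext x
  constructor
  · rintro ⟨z, hz, rfl⟩
    refine ⟨⟨K.κ j z, mem_image_of_mem _ (hT3 hz)⟩, ?_, rfl⟩
    have : Function.invFunOn (K.κ j) (ball 0 3) (K.κ j z) = z :=
      (K.injOn j).leftInvOn_invFunOn (hT3 hz)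
    change Function.invFunOn (K.κ j) (ball 0 3) (K.κ j z) ∈ T
    rw [this]
    exact hz
  · rintro ⟨⟨x, hx⟩, hx', rfl⟩
    refine ⟨Function.invFunOn (K.κ j) (ball 0 3) x, hx', ?_⟩
    exact Function.invFunOn_eq hx

theorem xS_meas (j : Fin K.N) : MeasurableSet (xS K j) :=
  xvol_pre K j (K.measurableSet_ix j) isOpen_ball xvol_b13

theorem xvol_aem (j : Fin K.N) {T : Set (Cn n)} (hT : MeasurableSet T) (hT3 : T ⊆ ball 0 3)
    (μ : Measure (Cn n)) : AEMeasurable (K.κ j) (μ.restrict T) :=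
  ((K.cont j).mono hT3).aemeasurable hT

theorem xvol_lint {g : X → ℝ≥0∞} (hg : Measurable g) :
    ∫⁻ x, g x ∂K.vol =
      ∑ j, ∫⁻ z in xS K j, g (K.κ j z) * ENNReal.ofReal (mad (K.ρ j) z) := by
  rw [KM.vol, lintegral_finsetSum_measure]
  refine Finset.sum_congr rfl fun j _ => ?_
  change ∫⁻ x, g x ∂Measure.map (K.κ j)
    ((volume.withDensity fun z => ENNReal.ofReal (mad (K.ρ j) z)).restrict (xS K j)) = _
  rw [lintegral_map' hg.aemeasurable (xvol_aem K j (xS_meas K j) (xS_sub K j) _),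
    restrict_withDensity (xS_meas K j), lintegral_withDensity_eq_lintegral_mul₀
      (xvol_dens K j).aemeasurable]
  · refine lintegral_congr fun z => ?_
    simp only [Pi.mul_apply]
    rw [mul_comm]
  · exact hg.comp_aemeasurable (xvol_aem K j (xS_meas K j) (xS_sub K j) _)

theorem KM.vol_finite : IsFiniteMeasure K.vol := by
  constructor
  have h1 := xvol_lint K (g := fun _ => 1) measurable_const
  rw [lintegral_one] at h1
  rw [h1]
  refine ENNReal.sum_lt_top.2 fun j _ => ?_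
  obtain ⟨a, b, ha, hb, hab⟩ := K.mad_ρ_bdd j (isCompact_closedBall (0 : Cn n) 1)
    (closedBall_subset_ball (by norm_num))
  calc ∫⁻ z in xS K j, 1 * ENNReal.ofReal (mad (K.ρ j) z)
      ≤ ∫⁻ z in xS K j, ENNReal.ofReal b := by
        refine setLIntegral_mono' (xS_meas K j) fun z hz => ?_
        rw [one_mul]
        exact ENNReal.ofReal_le_ofReal (hab z (ball_subset_closedBall hz.1)).2
    _ = ENNReal.ofReal b * volume (xS K j) := setLIntegral_const _ _
    _ ≤ ENNReal.ofReal b * volume (ball (0 : Cn n) 1) := by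
        gcongr
        exact inter_subset_left
    _ < ⊤ := ENNReal.mul_lt_top ENNReal.ofReal_lt_top measure_ball_lt_top

/-- one piece in two charts -/
theorem xvol_piece (i j : Fin K.N) (g : X → ℝ≥0∞) :
    ∫⁻ z in ball 0 3 ∩ K.κ i ⁻¹' {x | K.ix x = j}, g (K.κ i z) * ENNReal.ofReal (mad (K.ρ i) z) =
      ∫⁻ z in xS K j ∩ K.κ j ⁻¹' (K.κ i '' ball 0 3),
        g (K.κ j z) * ENNReal.ofReal (mad (K.ρ j) z) := by
  set D : Set (Cn n) := ball 0 3 ∩ K.κ i ⁻¹' {x | K.ix x = j} with hD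
  set Ω : Set (Cn n) := ball (0 : Cn n) 3 ∩ K.κ i ⁻¹' (K.κ j '' ball 0 3) with hΩ
  have hDΩ : D ⊆ Ω := by
    rintro z ⟨hz, hz'⟩
    refine ⟨hz, ?_⟩
    have h1 := (K.ix_spec (K.κ i z)).1
    have h2 : K.ix (K.κ i z) = j := hz'
    rw [h2] at h1
    exact image_mono xvol_b13 h1
  have hDm : MeasurableSet D := xvol_pre K i (K.measurableSet_ix j) isOpen_ball subset_rfl
  have him : K.τ i j '' D = xS K j ∩ K.κ j ⁻¹' (K.κ i '' ball 0 3) := by
    ext w
    constructor
    · rintro ⟨z, hz, rfl⟩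
      have hz2 := hDΩ hz
      obtain ⟨h1, h2⟩ := K.τ_spec i j z hz2.1 hz2.2
      have h3 : K.ix (K.κ i z) = j := hz.2
      have h4 := (K.ix_spec (K.κ i z)).1
      rw [h3] at h4
      obtain ⟨w, hw, hw'⟩ := h4
      have h5 : K.τ i j z = w := K.injOn j h1 (xvol_b13 hw) (h2.trans hw'.symm)
      refine ⟨⟨?_, ?_⟩, ?_⟩
      · rw [h5]; exact hw
      · change K.ix (K.κ j (K.τ i j z)) = j
        rw [h2]; exact h3
      · change K.κ j (K.τ i j z) ∈ K.κ i '' ball 0 3
        rw [h2]; exact mem_image_of_mem _ hz2.1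
    · rintro ⟨⟨h1, h2⟩, h3⟩
      obtain ⟨h4, h5, h6⟩ := K.τ_inv j i (xvol_b13 h1) h3
      obtain ⟨h7, h8⟩ := K.τ_spec j i w (xvol_b13 h1) h3
      refine ⟨K.τ j i w, ⟨h4, ?_⟩, h6⟩
      change K.ix (K.κ i (K.τ j i w)) = j
      rw [h8]
      exact h2
  rw [← him, lintegral_hol (K.isOpen_overlap i j) (K.τ_hol i j) hDm hDΩ
    ((K.τ_inj i j).mono hDΩ)]
  refine setLIntegral_congr_fun hDm fun z hz => ?_
  have hz2 := hDΩ hz
  obtain ⟨h1, h2⟩ := K.τ_spec i j z hz2.1 hz2.2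
  rw [xvol_mad K i j hz2, h2, ENNReal.ofReal_mul (by positivity)]
  ring

/-- the volume measure in an arbitrary chart -/
theorem KM.vol_chart (i : Fin K.N) {g : X → ℝ≥0∞} (hg : Measurable g) :
    ∫⁻ x in K.κ i '' ball 0 3, g x ∂K.vol =
      ∫⁻ z in ball 0 3, g (K.κ i z) * ENNReal.ofReal (mad (K.ρ i) z) := by
  have hA : MeasurableSet (K.κ i '' ball 0 3) := (K.isOpen_range i).measurableSet
  have hR : ball (0 : Cn n) 3 = ⋃ j ∈ (Finset.univ : Finset (Fin K.N)),
      ball (0 : Cn n) 3 ∩ K.κ i ⁻¹' {x | K.ix x = j} := by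
    ext z
    simp
  conv_rhs => rw [hR]
  rw [lintegral_biUnion_finset]
  · rw [← lintegral_indicator hA, xvol_lint K (hg.indicator hA)]
    refine Finset.sum_congr rfl fun j _ => ?_
    rw [xvol_piece K i j g]
    have h1 : MeasurableSet (xS K j ∩ K.κ j ⁻¹' (K.κ i '' ball 0 3)) := by
      have := xvol_pre K j hA isOpen_ball (xvol_b13 (n := n))
      have h2 : xS K j ∩ K.κ j ⁻¹' (K.κ i '' ball 0 3) =
          xS K j ∩ (ball 0 1 ∩ K.κ j ⁻¹' (K.κ i '' ball 0 3)) := by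
        ext z
        constructor
        · rintro ⟨h, h'⟩
          exact ⟨h, h.1, h'⟩
        · rintro ⟨h, _, h'⟩
          exact ⟨h, h'⟩
      rw [h2]
      exact (xS_meas K j).inter this
    rw [← lintegral_indicator (xS_meas K j), ← lintegral_indicator h1]
    refine lintegral_congr fun z => ?_
    by_cases hz : z ∈ xS K j
    · by_cases hz' : K.κ j z ∈ K.κ i '' ball 0 3
      · rw [indicator_of_mem hz, indicator_of_mem (show z ∈ xS K j ∩ _ from ⟨hz, hz'⟩),
          indicator_of_mem hz']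
      · rw [indicator_of_mem hz, indicator_of_notMem hz', zero_mul,
          indicator_of_notMem (show z ∉ xS K j ∩ K.κ j ⁻¹' (K.κ i '' ball 0 3) from
            fun h => hz' h.2)]
    · rw [indicator_of_notMem hz,
        indicator_of_notMem (show z ∉ xS K j ∩ K.κ j ⁻¹' (K.κ i '' ball 0 3) from
          fun h => hz h.1)]
  · intro a _ b _ hab
    refine Set.disjoint_left.2 ?_
    rintro z ⟨_, h1⟩ ⟨_, h2⟩
    exact hab ((show K.ix (K.κ i z) = a from h1).symm.trans h2)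
  · intro j _
    exact xvol_pre K i (K.measurableSet_ix j) isOpen_ball subset_rfl

theorem KM.vol_pos [Nonempty X] : 0 < K.vol univ := by
  obtain ⟨x⟩ := ‹Nonempty X›
  set i := K.ix x
  have h1 := K.vol_chart i (g := fun _ => 1) measurable_const
  obtain ⟨a, b, ha, hb, hab⟩ := K.mad_ρ_bdd i (isCompact_closedBall (0 : Cn n) 1)
    (closedBall_subset_ball (by norm_num))
  calc 0 < ENNReal.ofReal a * volume (ball (0 : Cn n) 1) :=
        ENNReal.mul_pos (ENNReal.ofReal_pos.2 ha).ne'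
          (measure_ball_pos volume _ one_pos).ne'
    _ = ∫⁻ z in ball (0 : Cn n) 1, ENNReal.ofReal a := (setLIntegral_const _ _).symm
    _ ≤ ∫⁻ z in ball (0 : Cn n) 1, 1 * ENNReal.ofReal (mad (K.ρ i) z) := by
        refine setLIntegral_mono' measurableSet_ball fun z hz => ?_
        rw [one_mul]
        exact ENNReal.ofReal_le_ofReal (hab z (ball_subset_closedBall hz)).1
    _ ≤ ∫⁻ z in ball (0 : Cn n) 3, 1 * ENNReal.ofReal (mad (K.ρ i) z) :=
        lintegral_mono_set xvol_b13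
    _ = ∫⁻ x in K.κ i '' ball 0 3, 1 ∂K.vol := h1.symm
    _ ≤ K.vol univ := by
        rw [setLIntegral_one]
        exact measure_mono (subset_univ _)

/-- null sets -/
theorem KM.vol_ae (p : X → Prop) (h : ∀ i, ∀ᵐ z : Cn n, z ∈ ball (0 : Cn n) 1 → p (K.κ i z)) :
    ∀ᵐ x ∂K.vol, p x := by
  rw [ae_iff, KM.vol, Measure.coe_finsetSum, Finset.sum_apply]
  refine Finset.sum_eq_zero fun j _ => ?_
  change Measure.map (K.κ j) ((volume.withDensity fun z =>
    ENNReal.ofReal (mad (K.ρ j) z)).restrict (xS K j)) _ = 0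
  obtain ⟨t, ht1, ht2, ht3⟩ := exists_measurable_superset_of_null (ae_iff.1 (h j))
  have hm : MeasurableSet (K.κ j '' (t ∩ ball 0 1)) :=
    xvol_image K j (ht2.inter measurableSet_ball) (inter_subset_right.trans xvol_b13)
  have hb : MeasurableSet (K.κ j '' ball 0 1) :=
    xvol_image K j measurableSet_ball xvol_b13
  have hT : MeasurableSet (K.κ j '' (t ∩ ball 0 1) ∪ (K.κ j '' ball 0 1)ᶜ) := hm.union hb.compl
  refine measure_mono_null (t := K.κ j '' (t ∩ ball 0 1) ∪ (K.κ j '' ball 0 1)ᶜ) ?_ ?_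
  · intro x hx
    by_cases hx1 : x ∈ K.κ j '' ball 0 1
    · left
      obtain ⟨z, hz, rfl⟩ := hx1
      refine ⟨z, ⟨ht1 ?_, hz⟩, rfl⟩
      intro h'
      exact hx (h' hz)
    · exact Or.inr hx1
  · rw [Measure.map_apply_of_aemeasurable (xvol_aem K j (xS_meas K j) (xS_sub K j) _) hT]
    rw [Measure.restrict_apply' (xS_meas K j)]
    have hac : (volume.withDensity fun z => ENNReal.ofReal (mad (K.ρ j) z)) t = 0 :=
      withDensity_absolutelyContinuous _ _ ht3
    refine measure_mono_null ?_ hac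
    rintro z ⟨h1, h2⟩
    rcases h1 with h1 | h1
    · obtain ⟨w, hw, hw'⟩ := h1
      have : w = z := K.injOn j (xvol_b13 hw.2) (xS_sub K j h2) hw'
      rw [← this]
      exact hw.1
    · exact absurd (mem_image_of_mem _ h2.1) h1

theorem KM.vol_ae_chart {p : X → Prop} (h : ∀ᵐ x ∂K.vol, p x) (i : Fin K.N) :
    ∀ᵐ z : Cn n, z ∈ ball (0 : Cn n) 3 → p (K.κ i z) := by
  obtain ⟨t, ht1, ht2, ht3⟩ := exists_measurable_superset_of_null (ae_iff.1 h)
  have h1 := K.vol_chart i (g := t.indicator fun _ => 1) (measurable_const.indicator ht2)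
  have h2 : ∫⁻ x in K.κ i '' ball 0 3, t.indicator (fun _ => 1) x ∂K.vol = 0 := by
    refine le_antisymm ?_ bot_le
    refine (setLIntegral_le_lintegral _ _).trans ?_
    rw [lintegral_indicator ht2, setLIntegral_one, ht3]
  rw [h2] at h1
  have hm : MeasurableSet (ball (0 : Cn n) 3 ∩ K.κ i ⁻¹' t) :=
    xvol_pre K i ht2 isOpen_ball subset_rfl
  have h3 : ∫⁻ z in ball (0 : Cn n) 3 ∩ K.κ i ⁻¹' t, ENNReal.ofReal (mad (K.ρ i) z) = 0 := by
    refine le_antisymm ?_ bot_le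
    rw [h1]
    rw [← lintegral_indicator hm, ← lintegral_indicator measurableSet_ball]
    refine lintegral_mono fun z => ?_
    by_cases hz : z ∈ ball (0 : Cn n) 3 ∩ K.κ i ⁻¹' t
    · rw [indicator_of_mem hz, indicator_of_mem hz.1,
        indicator_of_mem (show K.κ i z ∈ t from hz.2), one_mul]
    · rw [indicator_of_notMem hz]
      exact bot_le
  rw [lintegral_eq_zero_iff (xvol_dens K i)] at h3
  have h4 := (ae_restrict_iff' hm).1 h3
  filter_upwards [h4] with z hz hz3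
  by_contra hp
  have h5 := hz ⟨hz3, ht1 hp⟩
  simp only [Pi.zero_apply, ENNReal.ofReal_eq_zero] at h5
  exact absurd (K.mad_ρ_pos i hz3).2.2 (not_lt.2 h5)

/-- the restriction of the volume to a chart -/
theorem xvol_map (i : Fin K.N) : K.vol.restrict (K.κ i '' ball 0 3) =
    Measure.map (K.κ i) ((volume.restrict (ball (0 : Cn n) 3)).withDensity
      fun z => ENNReal.ofReal (mad (K.ρ i) z)) := by
  have ham : AEMeasurable (K.κ i) ((volume.restrict (ball (0 : Cn n) 3)).withDensity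
      fun z => ENNReal.ofReal (mad (K.ρ i) z)) :=
    (xvol_aem K i measurableSet_ball subset_rfl _).mono_ac
      (withDensity_absolutelyContinuous _ _)
  ext s hs
  rw [Measure.map_apply_of_aemeasurable ham hs, Measure.restrict_apply hs]
  have h1 := K.vol_chart i (g := s.indicator fun _ => 1) (measurable_const.indicator hs)
  have h2 : ∫⁻ x in K.κ i '' ball 0 3, s.indicator (fun _ => 1) x ∂K.vol =
      K.vol (s ∩ K.κ i '' ball 0 3) := by
    rw [setLIntegral_indicator hs, setLIntegral_one]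
  rw [← h2, h1]
  have hm : MeasurableSet (ball (0 : Cn n) 3 ∩ K.κ i ⁻¹' s) :=
    xvol_pre K i hs isOpen_ball subset_rfl
  rw [← restrict_withDensity measurableSet_ball, Measure.restrict_apply' measurableSet_ball,
    inter_comm, withDensity_apply _ hm, ← lintegral_indicator hm,
    ← lintegral_indicator measurableSet_ball]
  refine lintegral_congr fun z => ?_
  by_cases hz : z ∈ ball (0 : Cn n) 3
  · by_cases hz' : K.κ i z ∈ s
    · rw [indicator_of_mem hz, indicator_of_mem (show z ∈ ball (0 : Cn n) 3 ∩ _ from ⟨hz, hz'⟩),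
        indicator_of_mem hz', one_mul]
    · rw [indicator_of_mem hz, indicator_of_notMem hz', zero_mul,
        indicator_of_notMem (show z ∉ ball (0 : Cn n) 3 ∩ K.κ i ⁻¹' s from fun h => hz' h.2)]
  · rw [indicator_of_notMem hz,
      indicator_of_notMem (show z ∉ ball (0 : Cn n) 3 ∩ K.κ i ⁻¹' s from fun h => hz h.1)]

theorem KM.integral_chart (i : Fin K.N) {g : X → ℝ} (hg : Integrable g K.vol)
    (h0 : ∀ x, x ∉ K.κ i '' ball 0 3 → g x = 0) :
    IntegrableOn (fun z => g (K.κ i z) * mad (K.ρ i) z) (ball 0 3) ∧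
      ∫ x, g x ∂K.vol = ∫ z in ball 0 3, g (K.κ i z) * mad (K.ρ i) z := by
  have ham : AEMeasurable (K.κ i) ((volume.restrict (ball (0 : Cn n) 3)).withDensity
      fun z => ENNReal.ofReal (mad (K.ρ i) z)) :=
    (xvol_aem K i measurableSet_ball subset_rfl _).mono_ac
      (withDensity_absolutelyContinuous _ _)
  have h1 : Integrable g (Measure.map (K.κ i) ((volume.restrict (ball (0 : Cn n) 3)).withDensity
      fun z => ENNReal.ofReal (mad (K.ρ i) z))) := by
    rw [← xvol_map]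
    exact hg.restrict
  have hfin : ∀ᵐ z ∂(volume.restrict (ball (0 : Cn n) 3)),
      ENNReal.ofReal (mad (K.ρ i) z) < ⊤ :=
    Filter.Eventually.of_forall fun z => ENNReal.ofReal_lt_top
  have hpt : EqOn (fun z => (ENNReal.ofReal (mad (K.ρ i) z)).toReal • g (K.κ i z))
      (fun z => g (K.κ i z) * mad (K.ρ i) z) (ball 0 3) := by
    intro z hz
    simp only [smul_eq_mul]
    rw [ENNReal.toReal_ofReal (K.mad_ρ_pos i hz).2.2.le, mul_comm]
  constructor
  · have h2 := (integrable_map_measure h1.aestronglyMeasurable ham).1 h1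
    rw [integrable_withDensity_iff_integrable_smul₀' (xvol_dens K i).aemeasurable hfin] at h2
    exact (integrableOn_congr_fun hpt measurableSet_ball).1 h2
  · rw [← setIntegral_eq_integral_of_forall_compl_eq_zero h0, xvol_map K i,
      integral_map ham h1.aestronglyMeasurable,
      integral_withDensity_eq_integral_toReal_smul₀ (xvol_dens K i).aemeasurable hfin]
    exact setIntegral_congr_fun measurableSet_ball hpt

end HMA

end S_KM_XVol

section S_KM_EnvC

/-! # Module EnvC: semiconcave plurisubharmonic functions are `C^{1,1}` -/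

open MeasureTheory Metric Set
open scoped ENNReal Topology ContDiff ComplexOrder

namespace HMA

section SecondDiff

variable {E : Type*} [NormedAddCommGroup E] [NormedSpace ℝ E]

/-- two-sided second difference bounds give a first order Taylor expansion -/
theorem EnvC_taylor {v : E → ℝ} {z : E} {ρ C M : ℝ} (hρ : 0 < ρ) (hC : 0 ≤ C)
    (H : ∀ y h : E, ‖y - z‖ < ρ → ‖h‖ < ρ → |v (y + h) + v (y - h) - 2 * v y| ≤ C * ‖h‖ ^ 2)
    (B : ∀ y : E, ‖y - z‖ < ρ → |v y| ≤ M) :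
    ∃ L : E →L[ℝ] ℝ, ∀ h : E, ‖h‖ < ρ → |v (z + h) - v z - L h| ≤ C * ‖h‖ ^ 2 := by
  set a : ℕ → E → ℝ := fun n h => 2 ^ n * (v (z + ((1 / 2 : ℝ) ^ n) • h) - v z) with ha
  have hhalf : ∀ n : ℕ, (0 : ℝ) < (1 / 2) ^ n := fun n => by positivity
  have hhalf1 : ∀ n : ℕ, ((1 : ℝ) / 2) ^ n ≤ 1 := fun n => pow_le_one₀ (by norm_num) (by norm_num)
  have h2half : ∀ n : ℕ, (2 : ℝ) ^ n * (1 / 2) ^ n = 1 := fun n => by
    rw [← mul_pow]; norm_num
  have hnorm : ∀ (n : ℕ) (h : E), ‖((1 / 2 : ℝ) ^ n) • h‖ = (1 / 2 : ℝ) ^ n * ‖h‖ := fun n h => by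
    rw [norm_smul, Real.norm_eq_abs, abs_of_pos (hhalf n)]
  -- geometric estimate
  have hgeo : ∀ h : E, ‖h‖ < ρ → ∀ n, dist (a n h) (a (n + 1) h) ≤ (C * ‖h‖ ^ 2 / 4) * (1 / 2) ^ n := by
    intro h hh n
    have e1 : z + ((1 / 2 : ℝ) ^ (n + 1)) • h + ((1 / 2 : ℝ) ^ (n + 1)) • h = z + ((1 / 2 : ℝ) ^ n) • h := by
      rw [add_assoc, ← add_smul]
      congr 2
      ring
    have e2 : z + ((1 / 2 : ℝ) ^ (n + 1)) • h - ((1 / 2 : ℝ) ^ (n + 1)) • h = z := by
      rw [add_sub_cancel_right]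
    have hs : ‖((1 / 2 : ℝ) ^ (n + 1)) • h‖ < ρ := by
      rw [hnorm]
      calc (1 / 2 : ℝ) ^ (n + 1) * ‖h‖ ≤ 1 * ‖h‖ :=
            mul_le_mul_of_nonneg_right (hhalf1 _) (norm_nonneg _)
        _ < ρ := by rw [one_mul]; exact hh
    have key := H (z + ((1 / 2 : ℝ) ^ (n + 1)) • h) (((1 / 2 : ℝ) ^ (n + 1)) • h)
      (by rw [add_sub_cancel_left]; exact hs) hs
    rw [e1, e2, hnorm] at key
    have e3 : a n h - a (n + 1) h = 2 ^ n * (v (z + ((1 / 2 : ℝ) ^ n) • h) + v z -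
        2 * v (z + ((1 / 2 : ℝ) ^ (n + 1)) • h)) := by
      simp only [ha]
      ring
    rw [Real.dist_eq, e3, abs_mul, abs_of_pos (by positivity : (0 : ℝ) < 2 ^ n)]
    calc 2 ^ n * |v (z + ((1 / 2 : ℝ) ^ n) • h) + v z - 2 * v (z + ((1 / 2 : ℝ) ^ (n + 1)) • h)|
        ≤ 2 ^ n * (C * ((1 / 2 : ℝ) ^ (n + 1) * ‖h‖) ^ 2) :=
          mul_le_mul_of_nonneg_left key (by positivity)
      _ = (2 ^ n * (1 / 2) ^ n) * ((C * ‖h‖ ^ 2 / 4) * (1 / 2) ^ n) := by ring
      _ = _ := by rw [h2half, one_mul]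
  have hlim0 : ∀ h : E, ‖h‖ < ρ → ∃ l, Filter.Tendsto (fun n => a n h) Filter.atTop (𝓝 l) ∧
      |v (z + h) - v z - l| ≤ C * ‖h‖ ^ 2 / 2 := by
    intro h hh
    obtain ⟨l, hl⟩ := cauchySeq_tendsto_of_complete
      (cauchySeq_of_le_geometric (1 / 2) _ (by norm_num) (hgeo h hh))
    refine ⟨l, hl, ?_⟩
    have h1 := dist_le_of_le_geometric_of_tendsto₀ (1 / 2) _ (by norm_num) (hgeo h hh) hl
    have h2 : a 0 h = v (z + h) - v z := by simp [ha]
    rw [h2, Real.dist_eq] at h1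
    refine h1.trans (le_of_eq ?_)
    ring
  have hlim : ∀ h : E, ∃ l, Filter.Tendsto (fun n => a n h) Filter.atTop (𝓝 l) := by
    intro h
    obtain ⟨m, hm⟩ : ∃ m : ℕ, (1 / 2 : ℝ) ^ m * ‖h‖ < ρ := by
      have h1 : Filter.Tendsto (fun m : ℕ => (1 / 2 : ℝ) ^ m * ‖h‖) Filter.atTop (𝓝 (0 * ‖h‖)) :=
        (tendsto_pow_atTop_nhds_zero_of_lt_one (by norm_num) (by norm_num)).mul_const _
      rw [zero_mul] at h1
      exact ((h1.eventually (gt_mem_nhds hρ)).exists)
    obtain ⟨l, hl, -⟩ := hlim0 (((1 / 2 : ℝ) ^ m) • h) (by rw [hnorm]; exact hm)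
    refine ⟨2 ^ m * l, ?_⟩
    rw [← Filter.tendsto_add_atTop_iff_nat m]
    refine (hl.const_mul (2 ^ m)).congr fun n => ?_
    simp only [ha]
    rw [smul_smul, ← pow_add, pow_add (2 : ℝ) n m]
    ring
  choose l hl using hlim
  have hadd : ∀ h k : E, l (h + k) = l h + l k := by
    intro h k
    have h1 : Filter.Tendsto (fun n => a n h + a n k - a (n + 1) (h + k)) Filter.atTop
        (𝓝 (l h + l k - l (h + k))) :=
      ((hl h).add (hl k)).sub ((hl (h + k)).comp (Filter.tendsto_add_atTop_nat 1))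
    have hz : ∀ x : E, Filter.Tendsto (fun n : ℕ => (1 / 2 : ℝ) ^ (n + 1) * ‖x‖) Filter.atTop
        (𝓝 0) := by
      intro x
      have h2 : Filter.Tendsto (fun m : ℕ => (1 / 2 : ℝ) ^ m * ‖x‖) Filter.atTop (𝓝 (0 * ‖x‖)) :=
        (tendsto_pow_atTop_nhds_zero_of_lt_one (by norm_num) (by norm_num)).mul_const _
      rw [zero_mul] at h2
      exact h2.comp (Filter.tendsto_add_atTop_nat 1)
    have h0 : Filter.Tendsto (fun n => a n h + a n k - a (n + 1) (h + k)) Filter.atTop (𝓝 0) := by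
      rw [tendsto_zero_iff_abs_tendsto_zero]
      have hb : Filter.Tendsto (fun n : ℕ => (C * ‖h - k‖ ^ 2 / 4) * (1 / 2) ^ n) Filter.atTop
          (𝓝 0) := by
        have := (tendsto_pow_atTop_nhds_zero_of_lt_one (r := (1 / 2 : ℝ)) (by norm_num)
          (by norm_num)).const_mul (C * ‖h - k‖ ^ 2 / 4)
        rwa [mul_zero] at this
      refine squeeze_zero' (Filter.Eventually.of_forall fun n => abs_nonneg _) ?_ hb
      filter_upwards [(hz (h + k)).eventually (gt_mem_nhds hρ),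
        (hz (h - k)).eventually (gt_mem_nhds hρ)] with n hn1 hn2
      have e1 : z + ((1 / 2 : ℝ) ^ (n + 1)) • (h + k) + ((1 / 2 : ℝ) ^ (n + 1)) • (h - k) =
          z + ((1 / 2 : ℝ) ^ n) • h := by
        rw [add_assoc, ← smul_add, show h + k + (h - k) = (2 : ℝ) • h by rw [two_smul]; abel, smul_smul]
        congr 2
        ring
      have e2 : z + ((1 / 2 : ℝ) ^ (n + 1)) • (h + k) - ((1 / 2 : ℝ) ^ (n + 1)) • (h - k) =
          z + ((1 / 2 : ℝ) ^ n) • k := by
        rw [add_sub_assoc, ← smul_sub, show h + k - (h - k) = (2 : ℝ) • k by rw [two_smul]; abel, smul_smul]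
        congr 2
        ring
      have key := H (z + ((1 / 2 : ℝ) ^ (n + 1)) • (h + k)) (((1 / 2 : ℝ) ^ (n + 1)) • (h - k))
        (by rw [add_sub_cancel_left, hnorm]; exact hn1) (by rw [hnorm]; exact hn2)
      rw [e1, e2, hnorm] at key
      have e3 : a n h + a n k - a (n + 1) (h + k) = 2 ^ n * (v (z + ((1 / 2 : ℝ) ^ n) • h) +
          v (z + ((1 / 2 : ℝ) ^ n) • k) - 2 * v (z + ((1 / 2 : ℝ) ^ (n + 1)) • (h + k))) := by
        simp only [ha]
        ring
      show |a n h + a n k - a (n + 1) (h + k)| ≤ _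
      rw [e3, abs_mul, abs_of_pos (by positivity : (0 : ℝ) < 2 ^ n)]
      calc 2 ^ n * |v (z + ((1 / 2 : ℝ) ^ n) • h) + v (z + ((1 / 2 : ℝ) ^ n) • k) -
            2 * v (z + ((1 / 2 : ℝ) ^ (n + 1)) • (h + k))|
          ≤ 2 ^ n * (C * ((1 / 2 : ℝ) ^ (n + 1) * ‖h - k‖) ^ 2) :=
            mul_le_mul_of_nonneg_left key (by positivity)
        _ = (2 ^ n * (1 / 2) ^ n) * ((C * ‖h - k‖ ^ 2 / 4) * (1 / 2) ^ n) := by ring
        _ = _ := by rw [h2half, one_mul]
    have := tendsto_nhds_unique h1 h0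
    linarith
  have happ : ∀ h : E, ‖h‖ < ρ → |v (z + h) - v z - l h| ≤ C * ‖h‖ ^ 2 := by
    intro h hh
    obtain ⟨l', hl', hb⟩ := hlim0 h hh
    rw [tendsto_nhds_unique (hl h) hl']
    refine hb.trans ?_
    have : 0 ≤ C * ‖h‖ ^ 2 := by positivity
    linarith
  let lh : E →+ ℝ := AddMonoidHom.mk' l hadd
  have hlh : ∀ h, lh h = l h := fun _ => rfl
  have hbd : ∀ h : E, ‖h‖ < ρ → |lh h| ≤ 2 * M + C * ρ ^ 2 := by
    intro h hh
    have h1 := abs_le.1 (happ h hh)
    have h2 := abs_le.1 (B (z + h) (by rw [add_sub_cancel_left]; exact hh))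
    have h3 := abs_le.1 (B z (by rw [sub_self, norm_zero]; exact hρ))
    have h4 : C * ‖h‖ ^ 2 ≤ C * ρ ^ 2 := by gcongr
    rw [hlh, abs_le]
    constructor <;> linarith [h1.1, h1.2, h2.1, h2.2, h3.1, h3.2]
  have hcont : Continuous lh := by
    apply continuous_of_continuousAt_zero
    rw [ContinuousAt, map_zero, Metric.tendsto_nhds_nhds]
    intro ε hε
    obtain ⟨n, hn⟩ := exists_nat_gt ((2 * M + C * ρ ^ 2) / ε)
    have hn1 : (0 : ℝ) < (n : ℝ) + 1 := by positivity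
    refine ⟨ρ / (n + 1), by positivity, fun h hh => ?_⟩
    rw [dist_zero_right] at hh
    rw [dist_zero_right, Real.norm_eq_abs]
    have h1 : ‖(n + 1) • h‖ < ρ := by
      refine (norm_nsmul_le).trans_lt ?_
      rw [lt_div_iff₀ hn1] at hh
      push_cast
      linarith [mul_comm ((n : ℝ) + 1) ‖h‖]
    have h2 := hbd _ h1
    rw [map_nsmul, nsmul_eq_mul, abs_mul, Nat.abs_cast] at h2
    push_cast at h2
    rw [div_lt_iff₀ hε] at hn
    by_contra hcon
    push Not at hcon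
    have h3 : ((n : ℝ) + 1) * ε ≤ ((n : ℝ) + 1) * |lh h| := mul_le_mul_of_nonneg_left hcon hn1.le
    nlinarith
  refine ⟨lh.toRealLinearMap hcont, fun h hh => ?_⟩
  exact happ h hh

/-- ... and a Lipschitz derivative -/
theorem EnvC_c11 {v : E → ℝ} {z₀ : E} {ρ C M : ℝ} (hρ : 0 < ρ) (hC : 0 ≤ C)
    (H : ∀ y h : E, ‖y - z₀‖ < 2 * ρ → ‖h‖ < ρ → |v (y + h) + v (y - h) - 2 * v y| ≤ C * ‖h‖ ^ 2)
    (B : ∀ y : E, ‖y - z₀‖ < 2 * ρ → |v y| ≤ M) :
    (∀ z ∈ ball z₀ (ρ / 4), DifferentiableAt ℝ v z) ∧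
      LipschitzOnWith (Real.toNNReal (6 * C)) (fderiv ℝ v) (ball z₀ (ρ / 4)) := by
  have hT : ∀ z ∈ ball z₀ (ρ / 4), ∃ L : E →L[ℝ] ℝ, ∀ h : E, ‖h‖ < ρ →
      |v (z + h) - v z - L h| ≤ C * ‖h‖ ^ 2 := by
    intro z hz
    rw [mem_ball_iff_norm] at hz
    refine EnvC_taylor (M := M) hρ hC (fun y h hy hh => H y h ?_ hh) (fun y hy => B y ?_)
    · calc ‖y - z₀‖ = ‖(y - z) + (z - z₀)‖ := by congr 1; abel
        _ ≤ ‖y - z‖ + ‖z - z₀‖ := norm_add_le _ _
        _ < 2 * ρ := by linarith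
    · calc ‖y - z₀‖ = ‖(y - z) + (z - z₀)‖ := by congr 1; abel
        _ ≤ ‖y - z‖ + ‖z - z₀‖ := norm_add_le _ _
        _ < 2 * ρ := by linarith
  choose! L hL using hT
  have hder : ∀ z ∈ ball z₀ (ρ / 4), HasFDerivAt v (L z) z := by
    intro z hz
    rw [hasFDerivAt_iff_isLittleO_nhds_zero]
    have h1 : (fun h : E => v (z + h) - v z - L z h) =O[𝓝 0] fun h : E => ‖h‖ ^ 2 := by
      refine Asymptotics.IsBigO.of_bound C ?_
      filter_upwards [ball_mem_nhds (0 : E) hρ] with h hh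
      rw [mem_ball_zero_iff] at hh
      rw [Real.norm_eq_abs, Real.norm_eq_abs, abs_of_nonneg (by positivity : (0 : ℝ) ≤ ‖h‖ ^ 2)]
      exact hL z hz h hh
    exact h1.trans_isLittleO (Asymptotics.isLittleO_norm_pow_id one_lt_two)
  refine ⟨fun z hz => (hder z hz).differentiableAt, ?_⟩
  refine LipschitzOnWith.of_dist_le_mul fun z hz z' hz' => ?_
  rw [(hder z hz).fderiv, (hder z' hz').fderiv, dist_eq_norm, dist_eq_norm,
    Real.coe_toNNReal _ (by positivity)]
  set d := ‖z - z'‖ with hd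
  have hdρ : 2 * d < ρ := by
    have h1 := mem_ball_iff_norm.1 hz
    have h2 := mem_ball_iff_norm.1 hz'
    have : d ≤ ‖z - z₀‖ + ‖z' - z₀‖ := by
      rw [hd]
      calc ‖z - z'‖ = ‖(z - z₀) - (z' - z₀)‖ := by congr 1; abel
        _ ≤ _ := norm_sub_le _ _
    linarith
  have hd0 : 0 ≤ d := norm_nonneg _
  -- estimate for vectors of length `d`
  have hkey : ∀ h : E, ‖h‖ = d → |(L z - L z') h| ≤ 6 * C * d * ‖h‖ := by
    intro h hh
    have e1 := abs_le.1 (hL z hz h (by rw [hh]; linarith))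
    have hn2 : ‖z - z' + h‖ ≤ 2 * d := by
      refine (norm_add_le _ _).trans ?_
      rw [hh]; linarith
    have e2 := abs_le.1 (hL z' hz' (z - z' + h) (by linarith))
    have e3 := abs_le.1 (hL z' hz' (z - z') (by rw [← hd]; linarith))
    have f1 : z' + (z - z' + h) = z + h := by abel
    have f2 : z' + (z - z') = z := by abel
    rw [f1, map_add] at e2
    rw [f2] at e3
    have hn2' : C * ‖z - z' + h‖ ^ 2 ≤ C * (2 * d) ^ 2 := by gcongr
    rw [← hd] at e3
    rw [hh] at e1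
    have f3 : (L z - L z') h = L z h - L z' h := rfl
    rw [f3, hh, abs_le]
    constructor <;> nlinarith [e1.1, e1.2, e2.1, e2.2, e3.1, e3.2]
  refine ContinuousLinearMap.opNorm_le_bound _ (by positivity) fun h => ?_
  rw [Real.norm_eq_abs]
  by_cases hd1 : d = 0
  · have : z = z' := by rwa [hd, norm_eq_zero, sub_eq_zero] at hd1
    subst this
    simp only [sub_self, zero_apply, abs_zero]
    positivity
  by_cases hh : h = 0
  · subst hh; simp
  have hdpos : 0 < d := lt_of_le_of_ne hd0 (Ne.symm hd1)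
  have hhpos : 0 < ‖h‖ := norm_pos_iff.2 hh
  have h1 := hkey ((d / ‖h‖) • h) (by
    rw [norm_smul, Real.norm_eq_abs, abs_of_pos (by positivity)]
    field_simp)
  rw [map_smul, smul_eq_mul, abs_mul, abs_of_pos (by positivity : 0 < d / ‖h‖), norm_smul,
    Real.norm_eq_abs, abs_of_pos (by positivity : 0 < d / ‖h‖)] at h1
  have h2 : (d / ‖h‖) * |(L z - L z') h| ≤ (d / ‖h‖) * (6 * C * d * ‖h‖) := by
    refine h1.trans (le_of_eq ?_)
    ring
  exact le_of_mul_le_mul_left h2 (by positivity)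

end SecondDiff

/-- the monotonicity of even midpoint concave functions -/
theorem EnvC_even {φ : ℝ → ℝ} {c M : ℝ} (hc : 0 ≤ c) (he : ∀ t, φ (-t) = φ t)
    (hM : ∀ t ∈ Icc (-c) c, M ≤ φ t)
    (hm : ∀ t s, t + s ∈ Icc (-c) c → t - s ∈ Icc (-c) c → φ (t + s) + φ (t - s) ≤ 2 * φ t) :
    ∀ t ∈ Icc (-c) c, φ c ≤ φ t := by
  have hbdd : BddBelow (φ '' Icc (-c) c) := ⟨M, by rintro _ ⟨t, ht, rfl⟩; exact hM t ht⟩
  have hne : (φ '' Icc (-c) c).Nonempty := ⟨_, ⟨c, ⟨by linarith, le_rfl⟩, rfl⟩⟩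
  set m := sInf (φ '' Icc (-c) c) with hmdef
  have hlow : ∀ t ∈ Icc (-c) c, m ≤ φ t := fun t ht => csInf_le hbdd ⟨t, ht, rfl⟩
  have hpos : ∀ t ∈ Icc (0 : ℝ) c, (φ c + m) / 2 ≤ φ t := by
    intro t ht
    have h1 := hm t (c - t) ⟨by linarith, by linarith⟩ ⟨by linarith [ht.1], by linarith [ht.2]⟩
    have h2 := hlow (t - (c - t)) ⟨by linarith [ht.1], by linarith [ht.2]⟩
    rw [add_sub_cancel] at h1
    linarith
  have hall : ∀ t ∈ Icc (-c) c, (φ c + m) / 2 ≤ φ t := by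
    intro t ht
    rcases le_total 0 t with h | h
    · exact hpos t ⟨h, ht.2⟩
    · rw [← he t]
      exact hpos (-t) ⟨by linarith, by linarith [ht.1]⟩
  have h3 : (φ c + m) / 2 ≤ m := le_csInf hne (by rintro _ ⟨t, ht, rfl⟩; exact hall t ht)
  intro t ht
  have := hlow t ht
  linarith

/-- integrability on circles -/
theorem EnvC_int {n : ℕ} {R : ℝ} {v : Cn n → ℝ} (hv : UpperSemicontinuousOn v (ball 0 R))
    (hb : ∀ L ⊆ ball (0 : Cn n) R, IsCompact L → ∃ M : ℝ, ∀ z ∈ L, |v z| ≤ M)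
    {a b : Cn n} (hab : closedBall a ‖b‖ ⊆ ball 0 R) (s t : ℝ) :
    IntervalIntegrable (fun θ : ℝ => v (a + Complex.exp (θ * Complex.I) • b)) volume s t := by
  obtain ⟨M, hM⟩ := hb _ hab (isCompact_closedBall _ _)
  have hmem : ∀ θ : ℝ, a + Complex.exp (θ * Complex.I) • b ∈ closedBall a ‖b‖ := by
    intro θ
    rw [mem_closedBall_iff_norm, add_sub_cancel_left, norm_smul, Complex.norm_exp_ofReal_mul_I,
      one_mul]
  have hcont : Continuous fun θ : ℝ => a + Complex.exp (θ * Complex.I) • b := by fun_prop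
  have husc : UpperSemicontinuous fun θ : ℝ => v (a + Complex.exp (θ * Complex.I) • b) := by
    intro θ y hy
    have h1 := hv _ (hab (hmem θ)) y hy
    have h2 : Filter.Tendsto (fun θ : ℝ => a + Complex.exp (θ * Complex.I) • b) (𝓝 θ)
        (𝓝[ball 0 R] (a + Complex.exp (θ * Complex.I) • b)) :=
      tendsto_nhdsWithin_iff.2 ⟨hcont.tendsto θ, Filter.Eventually.of_forall fun θ' =>
        hab (hmem θ')⟩
    exact h2.eventually h1
  have hmeas := husc.measurable
  rw [intervalIntegrable_iff]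
  refine Measure.integrableOn_of_bounded (M := M) ?_ hmeas.aestronglyMeasurable ?_
  · rw [uIoc]; exact measure_Ioc_lt_top.ne
  · exact Filter.Eventually.of_forall fun θ => by
      rw [Real.norm_eq_abs]; exact hM _ (hmem θ)

/-- the lower bound on second differences -/
theorem EnvC_lower {n : ℕ} {R R' δ C : ℝ} (hC0 : 0 ≤ C) (hR : R' ≤ R)
    {v : Cn n → ℝ} (hv : UpperSemicontinuousOn v (ball 0 R))
    (hb : ∀ L ⊆ ball (0 : Cn n) R, IsCompact L → ∃ M : ℝ, ∀ z ∈ L, |v z| ≤ M)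
    (hs : SubOn (ball 0 R) v)
    (hC : ∀ z : Cn n, ‖z‖ < R' → ∀ h : Cn n, ‖h‖ ≤ δ →
      v (z + h) + v (z - h) - 2 * v z ≤ C * ‖h‖ ^ 2)
    {a k : Cn n} (hak : ‖a‖ + 2 * ‖k‖ < R') (hk : 2 * ‖k‖ ≤ δ) :
    |v (a + k) + v (a - k) - 2 * v a| ≤ 12 * C * ‖k‖ ^ 2 := by
  set b : Cn n := (2 : ℝ) • k with hbdef
  have hnb : ‖b‖ = 2 * ‖k‖ := by rw [hbdef, norm_smul]; norm_num
  have hball : closedBall a ‖b‖ ⊆ ball 0 R := by
    intro z hz
    rw [mem_closedBall_iff_norm] at hz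
    rw [mem_ball_zero_iff]
    calc ‖z‖ = ‖a + (z - a)‖ := by congr 1; abel
      _ ≤ ‖a‖ + ‖z - a‖ := norm_add_le _ _
      _ < R := by linarith
  obtain ⟨M, hM⟩ := hb _ hball (isCompact_closedBall _ _)
  set D : Cn n → ℝ := fun p => 2 * v a - v (a + p) - v (a - p) + C * ‖p‖ ^ 2 with hD
  have ha : ‖a‖ < R' := by linarith [norm_nonneg k]
  have hD0 : ∀ p : Cn n, ‖p‖ ≤ ‖b‖ → 0 ≤ D p := by
    intro p hp
    have := hC a ha p (by linarith)
    simp only [hD]
    linarith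
  have hDneg : ∀ p : Cn n, D (-p) = D p := by
    intro p
    simp only [hD, norm_neg, sub_neg_eq_add, ← sub_eq_add_neg]
    ring
  -- monotonicity along the ray
  have hray : ∀ c : ℝ, 1 / 2 ≤ c → c ≤ 1 → D k ≤ D (c • b) := by
    intro c hc1 hc2
    have hsm : ∀ t ∈ Icc (-c) c, ‖t • b‖ ≤ ‖b‖ := by
      intro t ht
      rw [norm_smul, Real.norm_eq_abs]
      have : |t| ≤ 1 := abs_le.2 ⟨by linarith [ht.1], by linarith [ht.2]⟩
      nlinarith [norm_nonneg b]
    have hM' : ∀ t ∈ Icc (-c) c, -(2 * M) - C * ‖b‖ ^ 2 ≤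
        v (a + t • b) + v (a - t • b) - C * ‖t • b‖ ^ 2 := by
      intro t ht
      have h1 := abs_le.1 (hM (a + t • b) (by
        rw [mem_closedBall_iff_norm, add_sub_cancel_left]; exact hsm t ht))
      have h2 := abs_le.1 (hM (a - t • b) (by
        rw [mem_closedBall_iff_norm, sub_sub_cancel_left, norm_neg]; exact hsm t ht))
      have h3 : C * ‖t • b‖ ^ 2 ≤ C * ‖b‖ ^ 2 := by
        have := hsm t ht
        gcongr
      linarith [h1.1, h2.1]
    have key := EnvC_even (φ := fun t => v (a + t • b) + v (a - t • b) - C * ‖t • b‖ ^ 2)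
      (c := c) (M := -(2 * M) - C * ‖b‖ ^ 2) (by linarith)
      (fun t => by
        simp only [neg_smul, norm_neg, sub_neg_eq_add, ← sub_eq_add_neg]
        ring) hM'
      (fun t s h1 h2 => by
        have ht : |t| ≤ 1 := abs_le.2 ⟨by linarith [h1.1, h2.1], by linarith [h1.2, h2.2]⟩
        have hs' : |s| ≤ 1 := abs_le.2 ⟨by linarith [h1.1, h2.2], by linarith [h1.2, h2.1]⟩
        have htb : ‖t • b‖ ≤ ‖b‖ := by
          rw [norm_smul, Real.norm_eq_abs]; nlinarith [norm_nonneg b]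
        have hsb : ‖s • b‖ ≤ δ := by
          rw [norm_smul, Real.norm_eq_abs]; nlinarith [norm_nonneg b]
        have e1 := hC (a + t • b) ((norm_add_le _ _).trans_lt (by linarith)) (s • b) hsb
        have e2 := hC (a - t • b) ((norm_sub_le _ _).trans_lt (by linarith)) (-(s • b))
          (by rw [norm_neg]; exact hsb)
        have f1 : a + t • b + s • b = a + (t + s) • b := by rw [add_smul]; abel
        have f2 : a + t • b - s • b = a + (t - s) • b := by rw [sub_smul]; abel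
        have f3 : a - t • b + -(s • b) = a - (t + s) • b := by rw [add_smul]; abel
        have f4 : a - t • b - -(s • b) = a - (t - s) • b := by rw [sub_smul]; abel
        rw [f1, f2, norm_smul, mul_pow, Real.norm_eq_abs, sq_abs] at e1
        rw [f3, f4, norm_neg, norm_smul, mul_pow, Real.norm_eq_abs, sq_abs] at e2
        simp only [norm_smul, mul_pow, Real.norm_eq_abs, sq_abs]
        nlinarith [e1, e2])
    have h4 := key (1 / 2) ⟨by linarith, hc1⟩
    have e5 : (1 / 2 : ℝ) • b = k := by rw [hbdef, smul_smul]; norm_num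
    simp only [e5] at h4
    simp only [hD]
    linarith
  -- the midpoint inequality
  set g : ℝ → ℝ := fun θ => D (Complex.exp (θ * Complex.I) • b) with hg
  have hmid : ∀ θ : ℝ, 2 * D (Real.cos θ • b) ≤ g θ + g (Real.pi - θ) := by
    intro θ
    have hexp : Complex.exp (θ * Complex.I) • b = Real.cos θ • b + (Real.sin θ * Complex.I) • b := by
      rw [Complex.exp_mul_I, add_smul, ← Complex.ofReal_cos, ← Complex.ofReal_sin,
        Complex.coe_smul]
    have hexp2 : Complex.exp (((Real.pi - θ : ℝ) : ℂ) * Complex.I) • b =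
        -(Real.cos θ • b) + (Real.sin θ * Complex.I) • b := by
      rw [Complex.exp_mul_I, add_smul, ← Complex.ofReal_cos, ← Complex.ofReal_sin,
        Complex.coe_smul, Real.cos_pi_sub, Real.sin_pi_sub, neg_smul]
    have hn1 : ‖Real.cos θ • b‖ ≤ ‖b‖ := by
      rw [norm_smul, Real.norm_eq_abs]
      nlinarith [norm_nonneg b, Real.abs_cos_le_one θ]
    have hn2 : ‖((Real.sin θ : ℂ) * Complex.I) • b‖ = |Real.sin θ| * ‖b‖ := by
      rw [norm_smul, norm_mul, Complex.norm_I, mul_one, Complex.norm_real, Real.norm_eq_abs]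
    have hn3 : ‖((Real.sin θ : ℂ) * Complex.I) • b‖ ≤ δ := by
      rw [hn2]
      nlinarith [norm_nonneg b, Real.abs_sin_le_one θ]
    have e1 := hC (a + Real.cos θ • b) ((norm_add_le _ _).trans_lt (by linarith))
      (((Real.sin θ : ℂ) * Complex.I) • b) hn3
    have e2 := hC (a - Real.cos θ • b) ((norm_sub_le _ _).trans_lt (by linarith))
      (((Real.sin θ : ℂ) * Complex.I) • b) hn3
    rw [hn2, mul_pow, sq_abs] at e1 e2
    have hgn : ∀ θ : ℝ, ‖Complex.exp (θ * Complex.I) • b‖ = ‖b‖ := fun θ => by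
      rw [norm_smul, Complex.norm_exp_ofReal_mul_I, one_mul]
    simp only [hg, hD]
    rw [hgn, hgn, hexp, hexp2, norm_smul, Real.norm_eq_abs, mul_pow, sq_abs]
    have hcs := Real.sin_sq_add_cos_sq θ
    have f1 : a + (Real.cos θ • b + ((Real.sin θ : ℂ) * Complex.I) • b) =
      a + Real.cos θ • b + ((Real.sin θ : ℂ) * Complex.I) • b := by abel
    have f2 : a - (Real.cos θ • b + ((Real.sin θ : ℂ) * Complex.I) • b) =
      a - Real.cos θ • b - ((Real.sin θ : ℂ) * Complex.I) • b := by abel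
    have f3 : a + (-(Real.cos θ • b) + ((Real.sin θ : ℂ) * Complex.I) • b) =
      a - Real.cos θ • b + ((Real.sin θ : ℂ) * Complex.I) • b := by abel
    have f4 : a - (-(Real.cos θ • b) + ((Real.sin θ : ℂ) * Complex.I) • b) =
      a + Real.cos θ • b - ((Real.sin θ : ℂ) * Complex.I) • b := by abel
    rw [f1, f2, f3, f4]
    have hcs2 : Real.sin θ ^ 2 = 1 - Real.cos θ ^ 2 := by linarith
    rw [hcs2] at e1 e2
    nlinarith [e1, e2]
  -- integrals
  have hball' : closedBall a ‖-b‖ ⊆ ball 0 R := by rw [norm_neg]; exact hball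
  have hi1 := fun s t => EnvC_int hv hb hball s t
  have hi2 := fun s t => EnvC_int hv hb hball' s t
  have hgeq : ∀ θ, g θ = (2 * v a + C * ‖b‖ ^ 2) - v (a + Complex.exp (θ * Complex.I) • b) -
      v (a + Complex.exp (θ * Complex.I) • (-b)) := by
    intro θ
    simp only [hg, hD, smul_neg, ← sub_eq_add_neg, norm_smul, Complex.norm_exp_ofReal_mul_I,
      one_mul]
    ring
  have hgi : ∀ s t : ℝ, IntervalIntegrable g volume s t := by
    intro s t
    have h1 := (intervalIntegrable_const (c := 2 * v a + C * ‖b‖ ^ 2).sub (hi1 s t)).sub (hi2 s t)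
    exact h1.congr fun θ _ => (hgeq θ).symm
  have hg0 : ∀ θ, 0 ≤ g θ := fun θ => hD0 _ (by
    rw [norm_smul, Complex.norm_exp_ofReal_mul_I, one_mul])
  have hpi := Real.pi_pos
  have htot : ∫ θ in (0 : ℝ)..(2 * Real.pi), g θ ≤ 2 * Real.pi * (C * ‖b‖ ^ 2) := by
    have h1 := hs a b (fun ζ hζ => hball (by
      rw [mem_closedBall_iff_norm, add_sub_cancel_left, norm_smul]
      nlinarith [norm_nonneg b]))
    have h2 := hs a (-b) (fun ζ hζ => hball (by
      rw [mem_closedBall_iff_norm, add_sub_cancel_left, norm_smul, norm_neg]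
      nlinarith [norm_nonneg b]))
    simp only [hgeq]
    rw [intervalIntegral.integral_sub (intervalIntegrable_const.sub (hi1 _ _)) (hi2 _ _),
      intervalIntegral.integral_sub intervalIntegrable_const (hi1 _ _),
      intervalIntegral.integral_const, smul_eq_mul]
    have h2pi : (0 : ℝ) < 2 * Real.pi := by positivity
    rw [inv_mul_eq_div, le_div_iff₀ h2pi] at h1 h2
    linarith
  have hsplit : (∫ θ in (0 : ℝ)..(Real.pi / 3), g θ) +
      (∫ θ in (Real.pi - Real.pi / 3)..Real.pi, g θ) ≤ ∫ θ in (0 : ℝ)..(2 * Real.pi), g θ := by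
    rw [← intervalIntegral.integral_add_adjacent_intervals (hgi 0 (Real.pi / 3))
        (hgi (Real.pi / 3) (2 * Real.pi)),
      ← intervalIntegral.integral_add_adjacent_intervals (hgi (Real.pi / 3) (Real.pi - Real.pi / 3))
        (hgi (Real.pi - Real.pi / 3) (2 * Real.pi)),
      ← intervalIntegral.integral_add_adjacent_intervals (hgi (Real.pi - Real.pi / 3) Real.pi)
        (hgi Real.pi (2 * Real.pi))]
    have h1 : 0 ≤ ∫ θ in (Real.pi / 3)..(Real.pi - Real.pi / 3), g θ :=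
      intervalIntegral.integral_nonneg (by linarith) fun θ _ => hg0 θ
    have h2 : 0 ≤ ∫ θ in Real.pi..(2 * Real.pi), g θ :=
      intervalIntegral.integral_nonneg (by linarith) fun θ _ => hg0 θ
    linarith
  have hrefl : ∫ θ in (0 : ℝ)..(Real.pi / 3), g (Real.pi - θ) =
      ∫ θ in (Real.pi - Real.pi / 3)..Real.pi, g θ := by
    rw [intervalIntegral.integral_comp_sub_left (fun θ => g θ) Real.pi, sub_zero]
  have hgi' : IntervalIntegrable (fun θ => g (Real.pi - θ)) volume 0 (Real.pi / 3) := by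
    have := (hgi Real.pi (Real.pi - Real.pi / 3)).comp_sub_left Real.pi
    simpa using this
  have hlow : (Real.pi / 3) * (2 * D k) ≤ (∫ θ in (0 : ℝ)..(Real.pi / 3), g θ) +
      (∫ θ in (Real.pi - Real.pi / 3)..Real.pi, g θ) := by
    rw [← hrefl, ← intervalIntegral.integral_add (hgi _ _) hgi']
    have h1 : ∫ θ in (0 : ℝ)..(Real.pi / 3), (2 * D k) = (Real.pi / 3) * (2 * D k) := by
      rw [intervalIntegral.integral_const, smul_eq_mul, sub_zero]
    rw [← h1]
    refine intervalIntegral.integral_mono_on (by positivity) intervalIntegrable_const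
      ((hgi _ _).add hgi') fun θ hθ => ?_
    refine le_trans ?_ (hmid θ)
    have hc : 1 / 2 ≤ Real.cos θ := by
      rw [← Real.cos_pi_div_three]
      exact Real.cos_le_cos_of_nonneg_of_le_pi hθ.1 (by linarith) hθ.2
    linarith [hray _ hc (Real.cos_le_one θ)]
  have hDk : D k ≤ 12 * C * ‖k‖ ^ 2 := by
    have h1 : (Real.pi / 3) * (2 * D k) ≤ 2 * Real.pi * (C * ‖b‖ ^ 2) := by linarith
    rw [hnb] at h1
    have h2 : Real.pi * D k ≤ Real.pi * (12 * C * ‖k‖ ^ 2) := by nlinarith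
    exact le_of_mul_le_mul_left h2 hpi
  have hup := hC a ha k (by linarith [norm_nonneg k])
  simp only [hD] at hDk
  have h0 : 0 ≤ C * ‖k‖ ^ 2 := by positivity
  rw [abs_le]
  constructor <;> linarith

theorem c11_of_semi {n : ℕ} {R R' δ C : ℝ} (hδ : 0 < δ) (hR' : 0 < R') (hR : R' + δ ≤ R)
    {v : Cn n → ℝ} (hv : UpperSemicontinuousOn v (ball 0 R))
    (hb : ∀ L ⊆ ball (0 : Cn n) R, IsCompact L → ∃ M : ℝ, ∀ z ∈ L, |v z| ≤ M)
    (hs : SubOn (ball 0 R) v)
    (hC : ∀ z : Cn n, ‖z‖ < R' → ∀ h : Cn n, ‖h‖ ≤ δ →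
      v (z + h) + v (z - h) - 2 * v z ≤ C * ‖h‖ ^ 2) : C11 (ball 0 R') v := by
  set C' := max C 0 with hC'
  have hC0 : 0 ≤ C' := le_max_right _ _
  have hCC : ∀ z : Cn n, ‖z‖ < R' → ∀ h : Cn n, ‖h‖ ≤ δ →
      v (z + h) + v (z - h) - 2 * v z ≤ C' * ‖h‖ ^ 2 := fun z hz h hh =>
    (hC z hz h hh).trans (mul_le_mul_of_nonneg_right (le_max_left _ _) (by positivity))
  have hRR : R' ≤ R := by linarith
  refine c11_of_local isOpen_ball fun z₀ hz₀ => ?_
  rw [mem_ball_zero_iff] at hz₀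
  obtain ⟨ρ, hρ0, hρ1, hρ2⟩ : ∃ ρ : ℝ, 0 < ρ ∧ ‖z₀‖ + 4 * ρ < R' ∧ 2 * ρ ≤ δ := by
    refine ⟨min (δ / 2) ((R' - ‖z₀‖) / 8), lt_min (by positivity) (by linarith), ?_, ?_⟩
    · have := min_le_right (δ / 2) ((R' - ‖z₀‖) / 8)
      linarith
    · have := min_le_left (δ / 2) ((R' - ‖z₀‖) / 8)
      linarith
  have hcb : closedBall z₀ (2 * ρ) ⊆ ball 0 R := by
    intro z hz
    rw [mem_closedBall_iff_norm] at hz
    rw [mem_ball_zero_iff]
    calc ‖z‖ = ‖z₀ + (z - z₀)‖ := by congr 1; abel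
      _ ≤ ‖z₀‖ + ‖z - z₀‖ := norm_add_le _ _
      _ < R := by linarith
  obtain ⟨M, hM⟩ := hb _ hcb (isCompact_closedBall _ _)
  have key := EnvC_c11 (v := v) (z₀ := z₀) (ρ := ρ) (C := 12 * C') (M := M) hρ0 (by positivity)
    (fun y h hy hh => EnvC_lower hC0 hRR hv hb hs hCC (by
      have : ‖y‖ ≤ ‖z₀‖ + ‖y - z₀‖ := by
        calc ‖y‖ = ‖z₀ + (y - z₀)‖ := by congr 1; abel
          _ ≤ ‖z₀‖ + ‖y - z₀‖ := norm_add_le _ _
      linarith) (by linarith))
    (fun y hy => hM y (by rw [mem_closedBall_iff_norm]; exact hy.le))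
  refine ⟨ρ / 4, by positivity, _, ?_, key.1, key.2⟩
  intro z hz
  rw [mem_ball_iff_norm] at hz
  rw [mem_ball_zero_iff]
  calc ‖z‖ = ‖z₀ + (z - z₀)‖ := by congr 1; abel
    _ ≤ ‖z₀‖ + ‖z - z₀‖ := norm_add_le _ _
    _ < R' := by linarith

end HMA

end S_KM_EnvC

section S_KW_Exh

/-! # Module Exh: exhaustion of open sets by compact sets -/

open MeasureTheory Metric Set Filter
open scoped ENNReal Topology ContDiff ComplexOrder

namespace HMA

variable {n : ℕ} {X : Type} [TopologicalSpace X] (K : KM n X)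

include K in
theorem KM.exhaust [T2Space X] {U : Set X} (hU : IsOpen U) : ∃ Q : ℕ → Set X,
    (∀ m, IsCompact (Q m)) ∧ Monotone Q ∧ ⋃ m, Q m = U := by
  have hO : ∀ i, IsOpen (ball (0 : Cn n) 3 ∩ K.κ i ⁻¹' U) := fun i =>
    (K.cont i).isOpen_inter_preimage isOpen_ball hU
  choose F hF1 hF2 hF3 hF4 using fun i => (hO i).exists_iUnion_isClosed
  refine ⟨fun m => ⋃ i, K.κ i '' (closedBall 0 1 ∩ F i m), fun m => ?_, ?_, ?_⟩
  · refine isCompact_iUnion fun i => K.compact_image i ?_ ?_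
    · exact (isCompact_closedBall _ _).inter_right (hF1 i m)
    · exact fun z hz => (hF2 i m hz.2).1
  · intro m m' hm
    refine iUnion_mono fun i => image_mono ?_
    exact inter_subset_inter_right _ (hF4 i hm)
  · ext x
    constructor
    · intro hx
      obtain ⟨m, hm⟩ := mem_iUnion.1 hx
      obtain ⟨i, z, hz, rfl⟩ := mem_iUnion.1 hm
      exact (hF2 i m hz.2).2
    · intro hx
      obtain ⟨i, z, hz, rfl⟩ := K.cover x
      have h1 : z ∈ ⋃ m, F i m := by
        rw [hF3 i]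
        exact ⟨ball_subset_ball (by norm_num) hz, hx⟩
      obtain ⟨m, hm⟩ := mem_iUnion.1 h1
      exact mem_iUnion.2 ⟨m, mem_iUnion.2 ⟨i, z, ⟨ball_subset_closedBall hz, hm⟩, rfl⟩⟩

end HMA

end S_KW_Exh
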