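import Mathlib
import Pool.Agent.H85.MG.G1a
import Pool.Agent.H85.MG.G2a
import Pool.Agent.H85.MG.G3a
import Pool.Agent.H85.MG.G3c
import Pool.Agent.H85.MG.G4a
import Pool.Agent.H85.MG.G4b
import Pool.Agent.H85.MG.G4c

/-! Moderate measures and Hölder continuous potentials, part G5a: this file joins several modules to save build time. -/

section S_KM_SubComp

/-! # Module SubComp: composition with holomorphic maps -/

open MeasureTheory Metric Set
open scoped ENNReal Topology ContDiff ComplexOrder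

namespace HMA

variable {n : ℕ} {Ω Ω' : Set (Cn n)} {F : Cn n → Cn n} {u : Cn n → ℝ}

theorem c11_comp (hΩ : IsOpen Ω) (hΩ' : IsOpen Ω') (hu : C11 Ω u)
    (hF : DifferentiableOn ℂ F Ω') (hm : MapsTo F Ω' Ω) : C11 Ω' (fun z => u (F z)) := by
  have hsm : ContDiffOn ℂ ∞ F Ω' := hol_contDiffOn hΩ' hF
  have hFr : ∀ z ∈ Ω', DifferentiableAt ℝ F z := fun z hz =>
    (hF.differentiableAt (hΩ'.mem_nhds hz)).restrictScalars ℝ
  have hd : ∀ z ∈ Ω', DifferentiableAt ℝ (fun z => u (F z)) z := fun z hz =>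
    (hu.diff _ (hm hz)).comp z (hFr z hz)
  have hder : ∀ z ∈ Ω', fderiv ℝ (fun z => u (F z)) z = (fderiv ℝ u (F z)).comp (fderiv ℝ F z) :=
    fun z hz => fderiv_comp z (hu.diff _ (hm hz)) (hFr z hz)
  refine c11_of_local hΩ' fun z hz => ?_
  have hz1 : ContDiffAt ℝ 2 F z :=
    (contDiffAt_infty.mp (hsm.contDiffAt (hΩ'.mem_nhds hz)) 2).restrict_scalars ℝ
  obtain ⟨K1, t1, ht1, hK1⟩ := (hz1.of_le (by norm_num : (1 : ℕ∞ω) ≤ 2)).exists_lipschitzOnWith
  have hz2 : ContDiffAt ℝ 1 (fderiv ℝ F) z := hz1.fderiv_right (by norm_num)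
  obtain ⟨K2, t2, ht2, hK2⟩ := hz2.exists_lipschitzOnWith
  obtain ⟨s, hs, hsΩ⟩ := Metric.nhds_basis_closedBall.mem_iff.mp (hΩ.mem_nhds (hm hz))
  obtain ⟨C, hC⟩ := hu.lip (closedBall (F z) s) (isCompact_closedBall _ _) hsΩ
  have hFc : ContinuousAt F z := (hFr z hz).continuousAt
  have ht3 : F ⁻¹' (closedBall (F z) s) ∈ 𝓝 z := hFc.preimage_mem_nhds (closedBall_mem_nhds _ hs)
  obtain ⟨r, hr, hrs⟩ := Metric.nhds_basis_ball.mem_iff.mp
    (Filter.inter_mem (Filter.inter_mem (Filter.inter_mem ht1 ht2) ht3) (hΩ'.mem_nhds hz))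
  -- bounds
  set D : NNReal := ‖fderiv ℝ F z‖₊ + K2 * Real.toNNReal r with hD
  set M : NNReal := ‖fderiv ℝ u (F z)‖₊ + C * Real.toNNReal s with hM
  have hDb : ∀ w ∈ ball z r, ‖fderiv ℝ F w‖ ≤ D := by
    intro w hw
    have h1 := hK2.dist_le_mul w (hrs hw).1.1.2 z (hrs (mem_ball_self hr)).1.1.2
    have h2 : ‖fderiv ℝ F w‖ ≤ ‖fderiv ℝ F z‖ + dist (fderiv ℝ F w) (fderiv ℝ F z) := by
      rw [dist_eq_norm]
      have := norm_add_le (fderiv ℝ F z) (fderiv ℝ F w - fderiv ℝ F z)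
      simpa using this
    have h3 : (K2 : ℝ) * dist w z ≤ K2 * r :=
      mul_le_mul_of_nonneg_left (mem_ball.mp hw).le K2.2
    rw [hD]
    push_cast
    rw [Real.coe_toNNReal _ hr.le]
    simp only [coe_nnnorm] at *
    linarith
  have hMb : ∀ y ∈ closedBall (F z) s, ‖fderiv ℝ u y‖ ≤ M := by
    intro y hy
    have h1 := hC.dist_le_mul y hy (F z) (mem_closedBall_self hs.le)
    have h2 : ‖fderiv ℝ u y‖ ≤ ‖fderiv ℝ u (F z)‖ + dist (fderiv ℝ u y) (fderiv ℝ u (F z)) := by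
      rw [dist_eq_norm]
      have := norm_add_le (fderiv ℝ u (F z)) (fderiv ℝ u y - fderiv ℝ u (F z))
      simpa using this
    have h3 : (C : ℝ) * dist y (F z) ≤ C * s :=
      mul_le_mul_of_nonneg_left (mem_closedBall.mp hy) C.2
    rw [hM]
    push_cast
    rw [Real.coe_toNNReal _ hs.le]
    simp only [coe_nnnorm] at *
    linarith
  refine ⟨r, hr, C * K1 * D + M * K2, fun w hw => (hrs hw).2, fun w hw => hd w (hrs hw).2, ?_⟩
  refine LipschitzOnWith.of_dist_le_mul fun x hx y hy => ?_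
  rw [hder x (hrs hx).2, hder y (hrs hy).2, dist_eq_norm]
  have e : (fderiv ℝ u (F x)).comp (fderiv ℝ F x) - (fderiv ℝ u (F y)).comp (fderiv ℝ F y) =
      (fderiv ℝ u (F x) - fderiv ℝ u (F y)).comp (fderiv ℝ F x) +
        (fderiv ℝ u (F y)).comp (fderiv ℝ F x - fderiv ℝ F y) := by
    ext v
    simp
  rw [e]
  have hx1 := hC.dist_le_mul _ (hrs hx).1.2 _ (hrs hy).1.2
  have hx2 := hK1.dist_le_mul x (hrs hx).1.1.1 y (hrs hy).1.1.1
  have hx3 := hK2.dist_le_mul x (hrs hx).1.1.2 y (hrs hy).1.1.2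
  rw [dist_eq_norm] at hx1 hx3
  have n1 : ‖(fderiv ℝ u (F x) - fderiv ℝ u (F y)).comp (fderiv ℝ F x)‖ ≤
      (C * (K1 * dist x y)) * D := by
    refine (ContinuousLinearMap.opNorm_comp_le _ _).trans ?_
    refine mul_le_mul ?_ (hDb x hx) (norm_nonneg _) (by positivity)
    exact hx1.trans (mul_le_mul_of_nonneg_left hx2 C.2)
  have n2 : ‖(fderiv ℝ u (F y)).comp (fderiv ℝ F x - fderiv ℝ F y)‖ ≤ M * (K2 * dist x y) := by
    refine (ContinuousLinearMap.opNorm_comp_le _ _).trans ?_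
    exact mul_le_mul (hMb _ (hrs hy).1.2) hx3 (norm_nonneg _) (by positivity)
  refine (norm_add_le _ _).trans ?_
  push_cast
  nlinarith [n1, n2]

theorem sub_comp (hΩ : IsOpen Ω) (hΩ' : IsOpen Ω') (hu : C11 Ω u) (hs : SubOn Ω u)
    (hF : DifferentiableOn ℂ F Ω') (hm : MapsTo F Ω' Ω) : SubOn Ω' (fun z => u (F z)) := by
  intro a b hab
  -- the compact disc and a compact neighbourhood
  set D : Set (Cn n) := (fun ζ : ℂ => a + ζ • b) '' closedBall (0 : ℂ) 1 with hD
  have hDc : IsCompact D := by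
    refine (isCompact_closedBall (0 : ℂ) 1).image ?_
    fun_prop
  have hDΩ : D ⊆ Ω' := by
    rintro _ ⟨ζ, hζ, rfl⟩
    exact hab ζ (by simpa using hζ)
  obtain ⟨L, hL, hDL, hLΩ⟩ := exists_compact_between hDc hΩ' hDΩ
  have hFL : IsCompact (F '' L) := hL.image_of_continuousOn (hF.continuousOn.mono hLΩ)
  have hFLΩ : F '' L ⊆ Ω := by
    rintro _ ⟨z, hz, rfl⟩
    exact hm (hLΩ hz)
  obtain ⟨δ, hδ, hδΩ⟩ := hFL.exists_cthickening_subset_open hΩ hFLΩ
  set T := cthickening δ (F '' L) with hT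
  have hTc : IsCompact T := hFL.cthickening
  have hin : ∀ τ : Cn n, ‖τ‖ ≤ δ → ∀ z ∈ L, F z + τ ∈ T := by
    intro τ hτ z hz
    refine mem_cthickening_of_dist_le (F z + τ) (F z) δ _ ⟨z, hz, rfl⟩ ?_
    simpa [dist_eq_norm] using hτ
  -- bad set
  have hbad : ∀ᵐ y : Cn n, y ∈ Ω → TwD u y ∧ (LM u y).PosSemidef := by
    filter_upwards [hu.ae_twD hΩ, (c11_sub_iff hΩ hu).mp hs] with y h1 h2 hy
    exact ⟨h1 hy, h2 hy⟩
  set N : Set (Cn n) := toMeasurable volume {y | ¬ (y ∈ Ω → TwD u y ∧ (LM u y).PosSemidef)} with hN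
  have hN0 : volume N = 0 := by
    rw [hN, measure_toMeasurable]
    exact hbad
  have hNm : MeasurableSet N := measurableSet_toMeasurable _ _
  -- measurable version of `F`
  have hio : IsOpen (interior L) := isOpen_interior
  classical
  set F' : Cn n → Cn n := (interior L).piecewise F (fun _ => 0) with hF'
  have hF'm : Measurable F' := by
    refine ContinuousOn.measurable_piecewise ?_ continuousOn_const hio.measurableSet
    exact hF.continuousOn.mono (interior_subset.trans hLΩ)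
  have hae : ∀ᵐ τ : Cn n, ∀ᵐ z : Cn n, F' z + τ ∉ N := by
    have hmeas : MeasurableSet {x : Cn n × Cn n | F' x.1 + x.2 ∉ N} := by
      have : Measurable fun x : Cn n × Cn n => F' x.1 + x.2 :=
        (hF'm.comp measurable_fst).add measurable_snd
      exact this hNm.compl
    rw [← Measure.ae_ae_comm (μ := (volume : Measure (Cn n))) (ν := (volume : Measure (Cn n)))
      (p := fun z τ => F' z + τ ∉ N) hmeas]
    refine Filter.Eventually.of_forall fun z => ?_
    rw [ae_iff]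
    simp only [not_not]
    have : {τ : Cn n | F' z + τ ∈ N} = (fun τ => F' z + τ) ⁻¹' N := rfl
    rw [this, measure_preimage_add]
    exact hN0
  have hdense := Measure.dense_of_ae hae
  have hseq : ∀ k : ℕ, ∃ τ : Cn n, (∀ᵐ z : Cn n, F' z + τ ∉ N) ∧ ‖τ‖ < min δ (1 / (k + 1)) := by
    intro k
    have hpos : 0 < min δ (1 / ((k : ℝ) + 1)) := lt_min hδ (by positivity)
    obtain ⟨τ, hτ1, hτ2⟩ := hdense.exists_mem_open isOpen_ball
      ⟨(0 : Cn n), mem_ball_self hpos⟩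
    exact ⟨τ, hτ1, by simpa using hτ2⟩
  choose τ hτ1 hτ2 using hseq
  have hτδ : ∀ k, ‖τ k‖ ≤ δ := fun k => ((hτ2 k).trans_le (min_le_left _ _)).le
  have hτ0 : ∀ k : ℕ, ‖τ k‖ < 1 / ((k : ℝ) + 1) := fun k => (hτ2 k).trans_le (min_le_right _ _)
  have hLi : interior L ⊆ Ω' := interior_subset.trans hLΩ
  have hmap : ∀ k, MapsTo (fun z => F z + τ k) (interior L) Ω := fun k z hz =>
    hδΩ (hin (τ k) (hτδ k) z (interior_subset hz))
  have hFk : ∀ k, DifferentiableOn ℂ (fun z => F z + τ k) (interior L) := fun k =>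
    (hF.mono hLi).add (differentiableOn_const _)
  have hC : ∀ k, C11 (interior L) (fun z => u (F z + τ k)) := fun k =>
    c11_comp hΩ hio hu (hFk k) (hmap k)
  have hSub : ∀ k, SubOn (interior L) (fun z => u (F z + τ k)) := by
    intro k
    refine (c11_sub_iff hio (hC k)).mpr ?_
    filter_upwards [hτ1 k] with z hz hzL
    have hzF : F' z = F z := by
      rw [hF']
      exact Set.piecewise_eq_of_mem _ _ _ hzL
    have hgood : TwD u (F z + τ k) ∧ (LM u (F z + τ k)).PosSemidef := by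
      by_contra hcon
      apply hz
      rw [hzF]
      refine subset_toMeasurable _ _ ?_
      exact fun h => hcon (h (hmap k hzL))
    have hcd : ContDiffAt ℂ 2 (fun z => F z + τ k) z :=
      contDiffAt_infty.mp ((hol_contDiffOn hio (hFk k)).contDiffAt (hio.mem_nhds hzL)) 2
    have h3 := LM_comp hcd hgood.1
    rw [h3.2]
    exact hgood.2.mul_mul_conjTranspose_same _
  have hlim : SubOn (interior L) (fun z => u (F z)) := by
    refine sub_of_tendsto (fun k z => u (F z + τ k)) hSub (fun k => (hC k).continuousOn) ?_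
    intro M hM hMc
    have huc : UniformContinuousOn u T :=
      hTc.uniformContinuousOn_of_continuous (hu.continuousOn.mono hδΩ)
    rw [Metric.tendstoUniformlyOn_iff]
    intro ε hε
    obtain ⟨δ', hδ', huni⟩ := Metric.uniformContinuousOn_iff.mp huc ε hε
    obtain ⟨k0, hk0⟩ := exists_nat_one_div_lt hδ'
    filter_upwards [Filter.eventually_ge_atTop k0] with k hk z hz
    have hzL : z ∈ L := interior_subset (hM hz)
    refine huni (F z) ?_ (F z + τ k) (hin (τ k) (hτδ k) z hzL) ?_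
    · simpa using hin 0 (by simpa using hδ.le) z hzL
    · rw [dist_eq_norm]
      have h1 : (1 : ℝ) / (k + 1) ≤ 1 / (k0 + 1) := by
        refine one_div_le_one_div_of_le (by positivity) ?_
        have : (k0 : ℝ) ≤ k := by exact_mod_cast hk
        linarith
      have h2 : ‖F z - (F z + τ k)‖ = ‖τ k‖ := by
        rw [sub_add_cancel_left, norm_neg]
      rw [h2]
      linarith [hτ0 k]
  refine hlim a b fun ζ hζ => hDL ⟨ζ, by simpa using hζ, rfl⟩

end HMA

end S_KM_SubComp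

section S_KM_XC11

/-! # Module XC11: the classes `C11X` and `WK` -/

open MeasureTheory Metric Set
open scoped ENNReal Topology ContDiff ComplexOrder

namespace HMA

variable {n : ℕ} {X : Type} [TopologicalSpace X] (K : KM n X)

variable {ψ v w : X → ℝ}

theorem xc11_local {Ω : Set (Cn n)} {u : Cn n → ℝ} (hΩ : IsOpen Ω)
    (h : ∀ z ∈ Ω, ∃ U : Set (Cn n), IsOpen U ∧ z ∈ U ∧ U ⊆ Ω ∧ C11 U u) : C11 Ω u := by
  refine c11_of_local hΩ fun z hz => ?_
  obtain ⟨U, hU, hzU, hUΩ, hu⟩ := h z hz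
  obtain ⟨r, hr, hrU⟩ := Metric.nhds_basis_closedBall.mem_iff.mp (hU.mem_nhds hzU)
  obtain ⟨C, hC⟩ := hu.lip (closedBall z r) (isCompact_closedBall z r) hrU
  exact ⟨r, hr, C, (ball_subset_closedBall.trans hrU).trans hUΩ,
    fun w hw => hu.diff w (hrU (ball_subset_closedBall hw)), hC.mono ball_subset_closedBall⟩

theorem xc11_lev_add {u₁ u₂ : Cn n → ℝ} {z : Cn n} (h1 : TwD u₁ z) (h2 : TwD u₂ z) (ξ : Cn n) :
    lev (fun w => u₁ w + u₂ w) z ξ = lev u₁ z ξ + lev u₂ z ξ := by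
  have h3 := TwD.add h1 h2
  have e := h3.1.lev_LM ξ
  rw [h3.2] at e
  have e1 := h1.lev_LM ξ
  have e2 := h2.lev_LM ξ
  have : ((lev (fun w => u₁ w + u₂ w) z ξ : ℝ) : ℂ) = ((lev u₁ z ξ + lev u₂ z ξ : ℝ) : ℂ) := by
    rw [e]
    push_cast
    rw [e1, e2, ← Finset.sum_add_distrib]
    refine Finset.sum_congr rfl fun j _ => ?_
    rw [← Finset.sum_add_distrib]
    refine Finset.sum_congr rfl fun k _ => ?_
    rw [Matrix.add_apply]
    ring
  exact_mod_cast this

theorem xc11_TwD_congr {u₁ u₂ : Cn n → ℝ} {z : Cn n} (h : u₁ =ᶠ[𝓝 z] u₂) (h1 : TwD u₁ z) :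
    TwD u₂ z := by
  refine ⟨?_, ?_⟩
  · filter_upwards [h.eventuallyEq_nhds, h1.1] with w hw hd
    exact hw.symm.differentiableAt_iff.mpr hd
  · exact h1.2.congr_of_eventuallyEq h.symm.fderiv

theorem c11X_const (c : ℝ) : C11X K (fun _ => c) := by
  intro i
  exact c11_of_contDiffOn isOpen_ball contDiffOn_const

theorem C11X.add (hv : C11X K v) (hw : C11X K w) : C11X K (fun x => v x + w x) := by
  intro i
  exact (hv i).add isOpen_ball (hw i)

theorem C11X.const_mul (hv : C11X K v) (c : ℝ) : C11X K (fun x => c * v x) := by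
  intro i
  exact (hv i).const_mul isOpen_ball c

theorem C11X.mul (hv : C11X K v) (hw : C11X K w) : C11X K (fun x => v x * w x) := by
  intro i
  exact (hv i).mul isOpen_ball (hw i)

theorem C11X.continuous (hv : C11X K v) : Continuous v := by
  rw [continuous_iff_continuousAt]
  intro x
  obtain ⟨i, z, hz, rfl⟩ := K.cover x
  have hz3 : z ∈ ball (0 : Cn n) 3 := ball_subset_ball (by norm_num) hz
  have hopen := K.isOpen_range i
  have hmem : K.κ i z ∈ K.κ i '' ball 0 3 := ⟨z, hz3, rfl⟩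
  have h1 : ContinuousOn (fun y => v (K.κ i (Function.invFunOn (K.κ i) (ball 0 3) y)))
      (K.κ i '' ball 0 3) := by
    refine (hv i).continuousOn.comp (K.inv_cont i) ?_
    intro y hy
    exact Function.invFunOn_mem hy
  have h2 : ContinuousOn v (K.κ i '' ball 0 3) := by
    refine h1.congr fun y hy => ?_
    simp only []
    rw [Function.invFunOn_eq hy]
  exact h2.continuousAt (hopen.mem_nhds hmem)

/-- extension by zero; `X` is Hausdorff -/
theorem c11X_ext [T2Space X] (i : Fin K.N) {g : Cn n → ℝ} (hg : C11 (ball 0 3) g)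
    {L : Set (Cn n)} (hL : IsCompact L) (hL3 : L ⊆ ball 0 3) (h0 : ∀ z, z ∉ L → g z = 0) :
    C11X K (K.ext i g) := by
  intro j
  refine xc11_local isOpen_ball fun z hz => ?_
  by_cases hzi : K.κ j z ∈ K.κ i '' ball 0 3
  · refine ⟨ball (0 : Cn n) 3 ∩ K.κ j ⁻¹' (K.κ i '' ball 0 3), K.isOpen_overlap j i, ⟨hz, hzi⟩,
      inter_subset_left, ?_⟩
    have h1 : C11 (ball (0 : Cn n) 3 ∩ K.κ j ⁻¹' (K.κ i '' ball 0 3))
        (fun y => g (K.τ j i y)) :=
      c11_comp isOpen_ball (K.isOpen_overlap j i) hg (K.τ_hol j i)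
        (fun y hy => (K.τ_spec j i y hy.1 hy.2).1)
    refine h1.congr (K.isOpen_overlap j i) fun y hy => ?_
    obtain ⟨h2, h3⟩ := K.τ_spec j i y hy.1 hy.2
    rw [← h3, K.ext_κ i g h2]
  · have hcl : IsClosed (K.κ i '' L) := (K.compact_image i hL hL3).isClosed
    have hop : IsOpen (ball (0 : Cn n) 3 ∩ K.κ j ⁻¹' (K.κ i '' L)ᶜ) :=
      (K.cont j).isOpen_inter_preimage isOpen_ball hcl.isOpen_compl
    refine ⟨_, hop, ⟨hz, fun hmem => hzi (image_mono hL3 hmem)⟩, inter_subset_left, ?_⟩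
    have h1 : C11 (ball (0 : Cn n) 3 ∩ K.κ j ⁻¹' (K.κ i '' L)ᶜ) (fun _ => (0 : ℝ)) :=
      c11_of_contDiffOn hop contDiffOn_const
    refine h1.congr hop fun y hy => ?_
    by_cases hyi : K.κ j y ∈ K.κ i '' ball 0 3
    · obtain ⟨w, hw, hwy⟩ := hyi
      rw [← hwy, K.ext_κ i g hw]
      refine h0 w fun hwL => hy.2 ⟨w, hwL, hwy⟩
    · exact K.ext_off i g hyi

theorem wk_const (c : ℝ) : WK K (fun _ => c) := by
  refine ⟨c11X_const K c, fun i => ?_⟩
  refine (c11_sub_iff isOpen_ball ((K.ρ_c11 i).add isOpen_ball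
    (c11_of_contDiffOn isOpen_ball contDiffOn_const))).mpr (Filter.Eventually.of_forall ?_)
  intro z hz
  obtain ⟨h1, h2, -⟩ := K.mad_ρ_pos i hz
  have hc : TwD (fun _ : Cn n => c) z :=
    ⟨Filter.Eventually.of_forall fun w => differentiableAt_const c, by
      have : fderiv ℝ (fun _ : Cn n => c) = fun _ => 0 := by
        ext1 w
        exact fderiv_const_apply c
      rw [this]
      exact differentiableAt_const _⟩
  rw [(TwD.add h1 hc).2, LM_const, add_zero]
  exact h2.posSemidef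

theorem xc11_c11 (hv : C11X K v) (i : Fin K.N) :
    C11 (ball 0 3) (fun z => K.ρ i z + v (K.κ i z)) :=
  (K.ρ_c11 i).add isOpen_ball (hv i)

theorem WK.convex (hv : WK K v) (hw : WK K w) {s : ℝ} (h0 : 0 ≤ s) (h1 : s ≤ 1) :
    WK K (fun x => (1 - s) * v x + s * w x) := by
  have hc : C11X K (fun x => (1 - s) * v x + s * w x) :=
    C11X.add K (C11X.const_mul K hv.c11 _) (C11X.const_mul K hw.c11 _)
  refine ⟨hc, fun i => ?_⟩
  refine (c11_sub_iff isOpen_ball (xc11_c11 K hc i)).mpr ?_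
  have a1 := (c11_sub_iff isOpen_ball (xc11_c11 K hv.c11 i)).mp (hv.sub i)
  have a2 := (c11_sub_iff isOpen_ball (xc11_c11 K hw.c11 i)).mp (hw.sub i)
  have a3 := (xc11_c11 K hv.c11 i).ae_twD isOpen_ball
  have a4 := (xc11_c11 K hw.c11 i).ae_twD isOpen_ball
  filter_upwards [a1, a2, a3, a4] with z b1 b2 b3 b4 hz
  have e : (fun z => K.ρ i z + ((1 - s) * v (K.κ i z) + s * w (K.κ i z))) =
      fun z => (1 - s) * (K.ρ i z + v (K.κ i z)) + s * (K.ρ i z + w (K.κ i z)) := by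
    ext z
    ring
  rw [e]
  have c1 := (b3 hz).const_mul (1 - s)
  have c2 := (b4 hz).const_mul s
  rw [(TwD.add c1.1 c2.1).2, c1.2, c2.2]
  refine Matrix.PosSemidef.add ?_ ?_
  · exact (b1 hz).smul (by exact_mod_cast (by linarith : (0 : ℝ) ≤ 1 - s))
  · exact (b2 hz).smul (by exact_mod_cast h0)

/-- local criterion: it suffices to check the sub-mean value property on a neighbourhood of each
point in some chart -/
theorem wk_of_local (hv : C11X K v) (h : ∀ x : X, ∃ (i : Fin K.N) (z : Cn n) (r : ℝ), 0 < r ∧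
    ball z r ⊆ ball 0 3 ∧ K.κ i z = x ∧ SubOn (ball z r) (fun y => K.ρ i y + v (K.κ i y))) :
    WK K v := by
  refine ⟨hv, fun j => ?_⟩
  refine (c11_sub_iff isOpen_ball (xc11_c11 K hv j)).mpr ?_
  have hloc : ∀ y ∈ ball (0 : Cn n) 3, ∃ U : Set (Cn n), IsOpen U ∧ y ∈ U ∧
      ∀ᵐ z : Cn n, z ∈ U → (LM (fun z => K.ρ j z + v (K.κ j z)) z).PosSemidef := by
    intro y hy
    obtain ⟨i, z0, r, hr, hball, hz0, hsub⟩ := h (K.κ j y)
    set V : Set (Cn n) := ball (0 : Cn n) 3 ∩ K.κ j ⁻¹' (K.κ i '' ball 0 3) with hV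
    have hVo : IsOpen V := K.isOpen_overlap j i
    have hz03 : z0 ∈ ball (0 : Cn n) 3 := hball (mem_ball_self hr)
    have hyV : y ∈ V := ⟨hy, z0, hz03, hz0⟩
    have hτc : ContinuousOn (K.τ j i) V := (K.τ_hol j i).continuousOn
    set W : Set (Cn n) := V ∩ K.τ j i ⁻¹' (ball z0 r) with hW
    have hWo : IsOpen W := hτc.isOpen_inter_preimage hVo isOpen_ball
    have hτy : K.τ j i y = z0 := by
      obtain ⟨s1, s2⟩ := K.τ_spec j i y hyV.1 hyV.2
      exact K.injOn i s1 hz03 (by rw [s2, hz0])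
    have hyW : y ∈ W := ⟨hyV, by rw [mem_preimage, hτy]; exact mem_ball_self hr⟩
    refine ⟨W, hWo, hyW, ?_⟩
    have hWV : W ⊆ V := inter_subset_left
    have a1 : ∀ᵐ z : Cn n, z ∈ ball z0 r → (LM (fun z => K.ρ i z + v (K.κ i z)) z).PosSemidef :=
      (c11_sub_iff isOpen_ball ((xc11_c11 K hv i).mono hball)).mp hsub
    have a2 : ∀ᵐ z : Cn n, z ∈ ball z0 r → TwD (fun z => v (K.κ i z)) z :=
      ((hv i).mono hball).ae_twD isOpen_ball
    have a3 : ∀ᵐ z : Cn n, z ∈ W → (LM (fun z => K.ρ i z + v (K.κ i z)) (K.τ j i z)).PosSemidef ∧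
        TwD (fun z => v (K.κ i z)) (K.τ j i z) := by
      refine ae_comp_hol (p := fun y => (LM (fun z => K.ρ i z + v (K.κ i z)) y).PosSemidef ∧
        TwD (fun z => v (K.κ i z)) y) hWo ((K.τ_hol j i).mono hWV) ((K.τ_inj j i).mono hWV)
        (fun z hz => K.τ_fderiv j i (hWV hz)) ?_
      filter_upwards [a1, a2] with z b1 b2 hz
      obtain ⟨w, hw, rfl⟩ := hz
      exact ⟨b1 hw.2, b2 hw.2⟩
    filter_upwards [a3] with z b3 hzW
    obtain ⟨p1, p2⟩ := b3 hzW
    have hzV := hWV hzW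
    obtain ⟨s1, s2⟩ := K.τ_spec j i z hzV.1 hzV.2
    have hsm : ContDiffAt ℂ 2 (K.τ j i) z :=
      contDiffAt_infty.mp ((hol_contDiffOn hVo (K.τ_hol j i)).contDiffAt (hVo.mem_nhds hzV)) 2
    obtain ⟨t1, t2, -⟩ := K.mad_ρ_pos i s1
    obtain ⟨t1', t2', -⟩ := K.mad_ρ_pos j hzV.1
    have m1 := LM_comp hsm (TwD.add t1 p2).1
    have m2 := LM_comp hsm t1
    have m3 := LM_comp hsm p2
    -- `v ∘ κ_j` near `z`
    have ev : (fun y => v (K.κ i (K.τ j i y))) =ᶠ[𝓝 z] fun y => v (K.κ j y) := by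
      filter_upwards [hVo.mem_nhds hzV] with y hy
      rw [(K.τ_spec j i y hy.1 hy.2).2]
    have q1 : TwD (fun y => v (K.κ j y)) z := xc11_TwD_congr ev m3.1
    have q2 : LM (fun y => v (K.κ j y)) z = LM (fun y => v (K.κ i (K.τ j i y))) z :=
      (LM_congr ev).symm
    refine ((TwD.add t1' q1).1.psd_iff).mpr fun ξ => ?_
    rw [xc11_lev_add t1' q1, ← K.ρ_compat j i z hzV ξ]
    have e1 : lev (fun y => v (K.κ j y)) z ξ = lev (fun y => v (K.κ i (K.τ j i y))) z ξ := by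
      have c1 := q1.lev_LM ξ
      rw [q2, ← m3.1.lev_LM ξ] at c1
      exact_mod_cast c1
    rw [e1, ← xc11_lev_add m2.1 m3.1]
    refine (m1.1.psd_iff.mp ?_) ξ
    rw [m1.2]
    exact p1.mul_mul_conjTranspose_same _
  rw [ae_iff]
  refine measure_null_of_locally_null _ fun z hz => ?_
  simp only [Classical.not_imp, mem_setOf_eq] at hz
  obtain ⟨U, hU, hzU, hae⟩ := hloc z hz.1
  refine ⟨U ∩ {a | ¬ (a ∈ ball (0 : Cn n) 3 →
    (LM (fun z => K.ρ j z + v (K.κ j z)) a).PosSemidef)}, ?_, ?_⟩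
  · exact Filter.inter_mem (mem_nhdsWithin_of_mem_nhds (hU.mem_nhds hzU)) self_mem_nhdsWithin
  · refine measure_mono_null ?_ hae
    rintro a ⟨ha1, ha2⟩
    simp only [Classical.not_imp, mem_setOf_eq] at ha2
    simp only [mem_compl_iff, mem_setOf_eq, Classical.not_imp]
    exact ⟨ha1, ha2.2⟩

end HMA

end S_KM_XC11

section S_KM_XKp

/-! # Module XKp: functions of `WK` define `ω`-psh functions -/

open MeasureTheory Metric Set
open scoped ENNReal Topology ContDiff ComplexOrder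

namespace HMA

variable {n : ℕ} {X : Type} [TopologicalSpace X] (K : KM n X)

theorem xkp_cont {n : ℕ} (a b : Cn n) :
    Continuous (fun θ : ℝ => a + Complex.exp (θ * Complex.I) • b) := by
  fun_prop

theorem xkp_circ {n : ℕ} {Ω : Set (Cn n)} {F : Cn n → ℝ} (hF : PshOn Ω F) {δ : ℝ} (hδ : 0 < δ)
    (a b : Cn n) (hab : ∀ ζ : ℂ, ‖ζ‖ ≤ 1 → a + ζ • b ∈ Ω) :
    IntervalIntegrable (fun θ : ℝ => Real.log (max (F (a + Complex.exp (θ * Complex.I) • b)) δ))
      volume 0 (2 * Real.pi) := by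
  have hmem : ∀ θ : ℝ, a + Complex.exp (θ * Complex.I) • b ∈ Ω := fun θ =>
    hab _ (Complex.norm_exp_ofReal_mul_I θ).le
  have husc : UpperSemicontinuous (fun θ : ℝ => F (a + Complex.exp (θ * Complex.I) • b)) := by
    intro θ y hy
    have h1 := hF.usc _ (hmem θ) y hy
    have h2 : Filter.Tendsto (fun θ : ℝ => a + Complex.exp (θ * Complex.I) • b) (𝓝 θ)
        (𝓝[Ω] (a + Complex.exp (θ * Complex.I) • b)) :=
      tendsto_nhdsWithin_iff.2 ⟨(xkp_cont a b).tendsto θ, Filter.Eventually.of_forall hmem⟩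
    exact h2.eventually h1
  obtain ⟨M, hM⟩ := (husc.upperSemicontinuousOn (Icc (0 : ℝ) (2 * Real.pi))).bddAbove_of_isCompact
    isCompact_Icc
  rw [intervalIntegrable_iff_integrableOn_Ioc_of_le (by positivity)]
  refine Measure.integrableOn_of_bounded (M := |Real.log δ| + |Real.log (max M δ)|)
    measure_Ioc_lt_top.ne
    (Real.measurable_log.comp (husc.measurable.max measurable_const)).aestronglyMeasurable ?_
  refine (ae_restrict_iff' measurableSet_Ioc).2 (Filter.Eventually.of_forall fun θ hθ => ?_)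
  have h1 : F (a + Complex.exp (θ * Complex.I) • b) ≤ M :=
    hM ⟨θ, Ioc_subset_Icc_self hθ, rfl⟩
  have h2 : Real.log δ ≤ Real.log (max (F (a + Complex.exp (θ * Complex.I) • b)) δ) :=
    Real.log_le_log hδ (le_max_right _ _)
  have h3 : Real.log (max (F (a + Complex.exp (θ * Complex.I) • b)) δ) ≤ Real.log (max M δ) :=
    Real.log_le_log (lt_max_of_lt_right hδ) (max_le_max_right δ h1)
  rw [Real.norm_eq_abs, abs_le]
  have h4 := neg_abs_le (Real.log δ)
  have h5 := le_abs_self (Real.log (max M δ))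
  have h6 := abs_nonneg (Real.log δ)
  have h7 := abs_nonneg (Real.log (max M δ))
  constructor <;> linarith

theorem xkp_mul {n : ℕ} {Ω : Set (Cn n)} {F : Cn n → ℝ} (hF : PshOn Ω F) {c : ℝ} (hc : 0 < c) :
    PshOn Ω (fun x => c * F x) := by
  refine ⟨fun x hx => mul_nonneg hc.le (hF.nonneg x hx), ?_, ?_⟩
  · have hg : Continuous (fun x : ℝ => c * x) := continuous_const.mul continuous_id
    exact hg.comp_upperSemicontinuousOn hF.usc (fun x y hxy => mul_le_mul_of_nonneg_left hxy hc.le)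
  · intro δ hδ a b hab
    have hdc : 0 < δ / c := div_pos hδ hc
    have key : ∀ y : ℝ, Real.log (max (c * y) δ) = Real.log c + Real.log (max y (δ / c)) := by
      intro y
      have h1 : max (c * y) δ = c * max y (δ / c) := by
        rw [mul_max_of_nonneg _ _ hc.le, mul_div_cancel₀ _ hc.ne']
      rw [h1, Real.log_mul hc.ne' (lt_max_of_lt_right hdc).ne']
    simp only [key]
    rw [intervalIntegral.integral_add (by simp) (xkp_circ hF hdc a b hab),
      intervalIntegral.integral_const, smul_eq_mul, mul_add]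
    have h2 := hF.submean (δ / c) hdc a b hab
    have h3 : (2 * Real.pi)⁻¹ * ((2 * Real.pi - 0) * Real.log c) = Real.log c := by
      have := Real.pi_pos
      field_simp
      ring
    rw [h3]
    linarith

theorem xkp_restrict {n : ℕ} {Ω Ω' : Set (Cn n)} {F : Cn n → ℝ} (hF : PshOn Ω F) (h : Ω' ⊆ Ω) :
    PshOn Ω' F :=
  ⟨fun x hx => hF.nonneg x (h hx), hF.usc.mono h,
    fun δ hδ a b hab => hF.submean δ hδ a b fun ζ hζ => h (hab ζ hζ)⟩

theorem xkp_u_cont {ψ : X → ℝ} (hψ : WK K ψ) (i : Fin K.N) :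
    ContinuousOn (fun z => K.ρ i z + ψ (K.κ i z)) (ball 0 3) := by
  refine (K.ρ_smooth i).continuousOn.add ?_
  intro z hz
  exact ((hψ.c11 i).diff z hz).continuousAt.continuousWithinAt

theorem xkp_bdd {n : ℕ} {Ω : Set (Cn n)} {u : Cn n → ℝ} (hu : ContinuousOn u Ω) :
    ∀ L ⊆ Ω, IsCompact L → ∃ M : ℝ, ∀ z ∈ L, -M ≤ u z := by
  intro L hL hLc
  obtain ⟨m, hm⟩ := (hLc.image_of_continuousOn (hu.mono hL)).bddBelow
  refine ⟨-m, fun z hz => ?_⟩
  rw [neg_neg]
  exact hm ⟨z, hz, rfl⟩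

theorem xkp_const {n : ℕ} (Ω : Set (Cn n)) (c : ℝ) : SubOn Ω (fun _ => c) := by
  intro a b _
  rw [intervalIntegral.integral_const, smul_eq_mul, sub_zero, ← mul_assoc,
    inv_mul_cancel₀ (by positivity), one_mul]

theorem kpsh_of_wk {ψ : X → ℝ} (hψ : WK K ψ) [Nonempty X] : KPsh K (fun x => Real.exp (ψ x)) := by
  constructor
  · intro i
    have he : (fun z => Real.exp (ψ (K.κ i z)) * Real.exp (K.ρ i z)) =
        fun z => Real.exp (K.ρ i z + ψ (K.κ i z)) := by
      funext z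
      rw [← Real.exp_add, add_comm]
    show PshOn (ball 0 3) (fun z => Real.exp (ψ (K.κ i z)) * Real.exp (K.ρ i z))
    rw [he]
    have hc := xkp_u_cont K hψ i
    refine ⟨fun x _ => (Real.exp_pos _).le, ?_, ?_⟩
    · exact (Real.continuous_exp.comp_continuousOn hc).upperSemicontinuousOn
    · intro δ hδ a b hab
      have h1 : ∀ t : ℝ, Real.log (max (Real.exp t) δ) = max t (Real.log δ) := by
        intro t
        rcases le_total (Real.exp t) δ with h | h
        · rw [max_eq_right h, max_eq_right]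
          rw [Real.le_log_iff_exp_le hδ]
          exact h
        · rw [max_eq_left h, Real.log_exp, max_eq_left]
          rw [Real.log_le_iff_le_exp hδ]
          exact h
      simp only [h1]
      exact sub_max hc.upperSemicontinuousOn
        (continuousOn_const (c := Real.log δ)).upperSemicontinuousOn (xkp_bdd hc)
        (xkp_bdd continuousOn_const) (hψ.sub i) (xkp_const _ _) a b hab
  · obtain ⟨x⟩ := ‹Nonempty X›
    exact ⟨x, (Real.exp_pos _).ne'⟩

theorem KPsh.const_mul {F : X → ℝ} (hF : KPsh K F) {c : ℝ} (hc : 0 < c) :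
    KPsh K (fun x => c * F x) := by
  constructor
  · intro i
    have h := xkp_mul (hF.loc i) hc
    have he : (fun z => c * F (K.κ i z) * Real.exp (K.ρ i z)) =
        fun z => c * (F (K.κ i z) * Real.exp (K.ρ i z)) := by
      funext z
      ring
    show PshOn (ball 0 3) (fun z => c * F (K.κ i z) * Real.exp (K.ρ i z))
    rw [he]
    exact h
  · obtain ⟨x, hx⟩ := hF.nontrivial
    exact ⟨x, mul_ne_zero hc.ne' hx⟩

theorem xkp_nonneg {F : X → ℝ} (hF : KPsh K F) (x : X) : 0 ≤ F x := by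
  obtain ⟨i, z, hz, rfl⟩ := K.cover x
  have h := (hF.loc i).nonneg z (ball_subset_ball (by norm_num) hz)
  exact nonneg_of_mul_nonneg_left h (Real.exp_pos _)

/-- upper semicontinuity in a chart -/
theorem xkp_usc_chart {F : X → ℝ} (hF : KPsh K F) (i : Fin K.N) :
    UpperSemicontinuousOn (fun z => F (K.κ i z)) (ball 0 3) := by
  intro z hz y hy
  -- `F < y` near `z`: choose `y'` between
  obtain ⟨y', h1, h2⟩ := exists_between hy
  have hy'0 : 0 < y' := lt_of_le_of_lt (xkp_nonneg K hF _) h1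
  have h3 : ∀ᶠ w in 𝓝[ball (0 : Cn n) 3] z,
      F (K.κ i w) * Real.exp (K.ρ i w) < y' * Real.exp (K.ρ i z) :=
    (hF.loc i).usc z hz _ (mul_lt_mul_of_pos_right h1 (Real.exp_pos _))
  have h4 : ∀ᶠ w in 𝓝[ball (0 : Cn n) 3] z,
      y' * Real.exp (K.ρ i z) < y * Real.exp (K.ρ i w) := by
    have hc : ContinuousWithinAt (fun w => y * Real.exp (K.ρ i w)) (ball (0 : Cn n) 3) z :=
      (continuousWithinAt_const.mul
        (Real.continuous_exp.continuousAt.comp_continuousWithinAt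
          ((K.ρ_smooth i).continuousOn z hz)))
    have h5 : y' * Real.exp (K.ρ i z) < y * Real.exp (K.ρ i z) :=
      mul_lt_mul_of_pos_right h2 (Real.exp_pos _)
    exact hc.eventually (lt_mem_nhds h5)
  filter_upwards [h3, h4] with w h5 h6
  exact lt_of_mul_lt_mul_right (h5.trans h6) (Real.exp_pos _).le

theorem KPsh.usc {F : X → ℝ} (hF : KPsh K F) : UpperSemicontinuous F := by
  intro x y hy
  obtain ⟨i, z, hz, rfl⟩ := K.cover x
  have hz3 : z ∈ ball (0 : Cn n) 3 := ball_subset_ball (by norm_num) hz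
  have h1 := xkp_usc_chart K hF i z hz3 y hy
  rw [isOpen_ball.nhdsWithin_eq hz3] at h1
  obtain ⟨t, ht1, ht2, ht3⟩ := _root_.eventually_nhds_iff.1 (h1.and (isOpen_ball.mem_nhds hz3))
  have h2 : IsOpen (K.κ i '' t) := K.isOpen_image i t (fun w hw => (ht1 w hw).2) ht2
  filter_upwards [h2.mem_nhds (mem_image_of_mem _ ht3)] with w hw
  obtain ⟨w', hw', rfl⟩ := hw
  exact (ht1 w' hw').1

theorem KPsh.exists_max [CompactSpace X] {F : X → ℝ} (hF : KPsh K F) :
    ∃ x₀, 0 < F x₀ ∧ ∀ x, F x ≤ F x₀ := by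
  obtain ⟨x, hx⟩ := hF.nontrivial
  obtain ⟨x₀, -, h⟩ := UpperSemicontinuousOn.exists_isMaxOn (s := (univ : Set X)) ⟨x, mem_univ x⟩
    isCompact_univ ((KPsh.usc K hF).upperSemicontinuousOn _)
  have h' : ∀ x, F x ≤ F x₀ := fun y => h (mem_univ y)
  refine ⟨x₀, ?_, h'⟩
  exact lt_of_lt_of_le (lt_of_le_of_ne (xkp_nonneg K hF x) (Ne.symm hx)) (h' x)

/-- normalised functions in a chart: there is `a` (depending on `K` only) such that for `F ≤ 1`
`a * F * exp ρ` is a competitor of the local theory -/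
theorem KPsh.chart [CompactSpace X] (i : Fin K.N) : ∃ a : ℝ, 0 < a ∧ ∀ F : X → ℝ, KPsh K F →
    (∀ x, F x ≤ 1) → PshOn (ball 0 2) (fun z => a * (F (K.κ i z) * Real.exp (K.ρ i z))) ∧
      ∀ z ∈ ball (0 : Cn n) 2, a * (F (K.κ i z) * Real.exp (K.ρ i z)) ≤ 1 := by
  have hsub : closedBall (0 : Cn n) 2 ⊆ ball 0 3 := closedBall_subset_ball (by norm_num)
  obtain ⟨B, hB⟩ := ((isCompact_closedBall (0 : Cn n) 2).image_of_continuousOn
    ((K.ρ_smooth i).continuousOn.mono hsub)).bddAbove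
  refine ⟨Real.exp (-B), Real.exp_pos _, fun F hF h1 => ⟨?_, fun z hz => ?_⟩⟩
  · exact xkp_mul (xkp_restrict (hF.loc i) (ball_subset_ball (by norm_num))) (Real.exp_pos _)
  · have h2 : K.ρ i z ≤ B := hB ⟨z, ball_subset_closedBall hz, rfl⟩
    have h3 : Real.exp (K.ρ i z) ≤ Real.exp B := Real.exp_le_exp.2 h2
    calc Real.exp (-B) * (F (K.κ i z) * Real.exp (K.ρ i z))
        ≤ Real.exp (-B) * (1 * Real.exp B) :=
          mul_le_mul_of_nonneg_left (mul_le_mul (h1 _) h3 (Real.exp_pos _).le zero_le_one)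
            (Real.exp_pos _).le
      _ = 1 := by rw [one_mul, ← Real.exp_add]; simp

end HMA

end S_KM_XKp

section S_KM_XRel

/-! # Module XRel: relative Monge-Ampère densities -/

open MeasureTheory Metric Set
open scoped ENNReal Topology ContDiff ComplexOrder

namespace HMA

variable {n : ℕ} {X : Type} [TopologicalSpace X] (K : KM n X)

/-! ### auxiliary facts on twice differentiable functions -/

theorem xRel_twD_congr {u v : Cn n → ℝ} {z : Cn n} (h : u =ᶠ[𝓝 z] v) (hu : TwD u z) :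
    TwD v z := by
  refine ⟨?_, ?_⟩
  · filter_upwards [hu.1, h.eventually_nhds] with w h1 h2
    have h3 : u =ᶠ[𝓝 w] v := h2
    exact h3.differentiableAt_iff.1 h1
  · exact h.fderiv.differentiableAt_iff.1 hu.2

theorem xRel_twD_const (c : ℝ) (z : Cn n) : TwD (fun _ : Cn n => c) z := by
  refine ⟨Filter.Eventually.of_forall fun w => differentiableAt_const c, ?_⟩
  have : fderiv ℝ (fun _ : Cn n => c) = fun _ => 0 := by
    funext w
    exact fderiv_const_apply c
  rw [this]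
  exact differentiableAt_const _

theorem xRel_eq_zero {A : Matrix (Fin n) (Fin n) ℂ} (h1 : A.PosSemidef) (h2 : (-A).PosSemidef) :
    A = 0 := by
  open scoped MatrixOrder in
  have a1 : (0 : Matrix (Fin n) (Fin n) ℂ) ≤ A := by
    rw [Matrix.le_iff, sub_zero]; exact h1
  have a2 : A ≤ 0 := by
    rw [Matrix.le_iff, zero_sub]; exact h2
  exact le_antisymm a2 a1

/-- the Levi matrix is determined by the Levi form -/
theorem xRel_LM_eq {u v : Cn n → ℝ} {z : Cn n} (hu : TwD u z) (hv : TwD v z)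
    (h : ∀ ξ, lev u z ξ = lev v z ξ) : LM u z = LM v z := by
  have key : ∀ {u v : Cn n → ℝ}, TwD u z → TwD v z → (∀ ξ, lev u z ξ = lev v z ξ) →
      (LM u z - LM v z).PosSemidef := by
    intro u v hu hv h
    obtain ⟨m1, m2⟩ := hv.const_mul (-1)
    obtain ⟨m3, m4⟩ := hu.add m1
    have e : LM u z - LM v z = LM (fun w => u w + -1 * v w) z := by
      rw [m4, m2]
      simp [sub_eq_add_neg]
    rw [e, m3.psd_iff]
    intro ξ
    have e2 : ((lev (fun w => u w + -1 * v w) z ξ : ℝ) : ℂ) = 0 := by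
      rw [m3.lev_LM, m4, m2]
      have e3 := hu.lev_LM ξ
      have e4 := hv.lev_LM ξ
      rw [h ξ, e4] at e3
      have e5 : ∑ j, ∑ k, (LM u z + ((-1 : ℝ) : ℂ) • LM v z) j k * ξ j * (starRingEnd ℂ) (ξ k) =
          (∑ j, ∑ k, LM u z j k * ξ j * (starRingEnd ℂ) (ξ k)) -
          ∑ j, ∑ k, LM v z j k * ξ j * (starRingEnd ℂ) (ξ k) := by
        rw [← Finset.sum_sub_distrib]
        refine Finset.sum_congr rfl fun j _ => ?_
        rw [← Finset.sum_sub_distrib]
        refine Finset.sum_congr rfl fun k _ => ?_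
        simp only [Matrix.add_apply, Matrix.smul_apply, smul_eq_mul]
        push_cast
        ring
      rw [e5, ← e3, sub_self]
    have : lev (fun w => u w + -1 * v w) z ξ = 0 := by exact_mod_cast e2
    exact this.ge
  have h1 := key hu hv h
  have h2 := key hv hu (fun ξ => (h ξ).symm)
  rw [← neg_sub (LM u z) (LM v z)] at h2
  exact sub_eq_zero.1 (xRel_eq_zero h1 h2)

/-! ### transport between charts -/

section transport

variable {i j : Fin K.N} {z : Cn n}

theorem xRel_smooth (hz : z ∈ ball (0 : Cn n) 3 ∩ K.κ i ⁻¹' (K.κ j '' ball 0 3)) :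
    ContDiffAt ℂ 2 (K.τ i j) z := by
  have h := hol_contDiffOn (K.isOpen_overlap i j) (K.τ_hol i j)
  exact (h.contDiffAt ((K.isOpen_overlap i j).mem_nhds hz)).of_le (by norm_cast)

theorem xRel_LM_ρ (hz : z ∈ ball (0 : Cn n) 3 ∩ K.κ i ⁻¹' (K.κ j '' ball 0 3)) :
    TwD (fun y => K.ρ j (K.τ i j y)) z ∧ LM (fun y => K.ρ j (K.τ i j y)) z = LM (K.ρ i) z := by
  have h1 := (K.τ_spec i j z hz.1 hz.2).1
  have h2 := (LM_comp (xRel_smooth K hz) (K.mad_ρ_pos j h1).1).1
  exact ⟨h2, xRel_LM_eq h2 (K.mad_ρ_pos i hz.1).1 (K.ρ_compat i j z hz)⟩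

theorem xRel_ev (f : X → ℝ) (hz : z ∈ ball (0 : Cn n) 3 ∩ K.κ i ⁻¹' (K.κ j '' ball 0 3)) :
    (fun y => f (K.κ j (K.τ i j y))) =ᶠ[𝓝 z] fun y => f (K.κ i y) := by
  filter_upwards [(K.isOpen_overlap i j).mem_nhds hz] with y hy
  rw [(K.τ_spec i j y hy.1 hy.2).2]

theorem xRel_LM_w (f : X → ℝ) (hz : z ∈ ball (0 : Cn n) 3 ∩ K.κ i ⁻¹' (K.κ j '' ball 0 3))
    (h : TwD (fun y => f (K.κ j y)) (K.τ i j z)) :
    TwD (fun y => f (K.κ i y)) z ∧
      LM (fun y => f (K.κ i y)) z =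
        jac (K.τ i j) z * LM (fun y => f (K.κ j y)) (K.τ i j z) *
          (jac (K.τ i j) z).conjTranspose := by
  obtain ⟨h1, h2⟩ := LM_comp (xRel_smooth K hz) h
  refine ⟨xRel_twD_congr (xRel_ev K f hz) h1, ?_⟩
  rw [← h2]
  exact (LM_congr (xRel_ev K f hz)).symm

theorem xRel_LM_add (f : X → ℝ) (hz : z ∈ ball (0 : Cn n) 3 ∩ K.κ i ⁻¹' (K.κ j '' ball 0 3))
    (h : TwD (fun y => f (K.κ j y)) (K.τ i j z)) :
    LM (fun y => K.ρ i y + f (K.κ i y)) z =
        jac (K.τ i j) z * LM (fun y => K.ρ j y + f (K.κ j y)) (K.τ i j z) *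
          (jac (K.τ i j) z).conjTranspose := by
  have h1 := (K.τ_spec i j z hz.1 hz.2).1
  obtain ⟨a1, a2⟩ := xRel_LM_w K f hz h
  obtain ⟨b1, b2⟩ := xRel_LM_ρ K hz
  have c := (LM_comp (xRel_smooth K hz) (K.mad_ρ_pos j h1).1).2
  rw [((K.mad_ρ_pos i hz.1).1.add a1).2, ((K.mad_ρ_pos j h1).1.add h).2, a2, ← b2, c]
  rw [Matrix.mul_add, Matrix.add_mul]

theorem xRel_LM_ρ' (hz : z ∈ ball (0 : Cn n) 3 ∩ K.κ i ⁻¹' (K.κ j '' ball 0 3)) :
    LM (K.ρ i) z = jac (K.τ i j) z * LM (K.ρ j) (K.τ i j z) *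
          (jac (K.τ i j) z).conjTranspose := by
  have h1 := (K.τ_spec i j z hz.1 hz.2).1
  obtain ⟨b1, b2⟩ := xRel_LM_ρ K hz
  have c := (LM_comp (xRel_smooth K hz) (K.mad_ρ_pos j h1).1).2
  rw [← b2, c]

theorem xRel_RM (f : X → ℝ) (hz : z ∈ ball (0 : Cn n) 3 ∩ K.κ i ⁻¹' (K.κ j '' ball 0 3))
    (h : TwD (fun y => f (K.κ j y)) (K.τ i j z)) :
    mad (fun y => K.ρ j y + f (K.κ j y)) (K.τ i j z) / mad (K.ρ j) (K.τ i j z) =
      mad (fun y => K.ρ i y + f (K.κ i y)) z / mad (K.ρ i) z := by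
  have hd := jac_det_ne_zero (K.τ_fderiv i j hz)
  have hJ : ‖(jac (K.τ i j) z).det‖ ^ 2 ≠ 0 := pow_ne_zero _ (norm_ne_zero_iff.2 hd)
  have e1 : mad (fun y => K.ρ i y + f (K.κ i y)) z =
      ‖(jac (K.τ i j) z).det‖ ^ 2 * mad (fun y => K.ρ j y + f (K.κ j y)) (K.τ i j z) := by
    simp only [mad]
    rw [xRel_LM_add K f hz h, mat_det_conj, Complex.re_ofReal_mul]
  have e2 : mad (K.ρ i) z = ‖(jac (K.τ i j) z).det‖ ^ 2 * mad (K.ρ j) (K.τ i j z) := by
    simp only [mad]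
    rw [xRel_LM_ρ' K hz, mat_det_conj, Complex.re_ofReal_mul]
  rw [e1, e2, mul_div_mul_left _ _ hJ]

theorem xRel_RL (f g : X → ℝ) (hz : z ∈ ball (0 : Cn n) 3 ∩ K.κ i ⁻¹' (K.κ j '' ball 0 3))
    (h : TwD (fun y => f (K.κ j y)) (K.τ i j z)) (hg : TwD (fun y => g (K.κ j y)) (K.τ i j z)) :
    mal (fun y => K.ρ j y + f (K.κ j y)) (fun y => g (K.κ j y)) (K.τ i j z) /
        mad (K.ρ j) (K.τ i j z) =
      mal (fun y => K.ρ i y + f (K.κ i y)) (fun y => g (K.κ i y)) z / mad (K.ρ i) z := by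
  have hd := jac_det_ne_zero (K.τ_fderiv i j hz)
  have hJ : ‖(jac (K.τ i j) z).det‖ ^ 2 ≠ 0 := pow_ne_zero _ (norm_ne_zero_iff.2 hd)
  have e1 : mal (fun y => K.ρ i y + f (K.κ i y)) (fun y => g (K.κ i y)) z =
      ‖(jac (K.τ i j) z).det‖ ^ 2 *
        mal (fun y => K.ρ j y + f (K.κ j y)) (fun y => g (K.κ j y)) (K.τ i j z) := by
    simp only [mal]
    rw [xRel_LM_add K f hz h, (xRel_LM_w K g hz hg).2, mat_adj_conj, Complex.re_ofReal_mul]
  have e2 : mad (K.ρ i) z = ‖(jac (K.τ i j) z).det‖ ^ 2 * mad (K.ρ j) (K.τ i j z) := by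
    simp only [mad]
    rw [xRel_LM_ρ' K hz, mat_det_conj, Complex.re_ofReal_mul]
  rw [e1, e2, mul_div_mul_left _ _ hJ]

end transport

/-! ### almost everywhere statements -/

theorem xRel_co {i : Fin K.N} {z : Cn n} (hz : z ∈ ball (0 : Cn n) 3) :
    z ∈ ball (0 : Cn n) 3 ∩ K.κ i ⁻¹' (K.κ (K.ix (K.κ i z)) '' ball 0 3) ∧
      K.co (K.κ i z) = K.τ i (K.ix (K.κ i z)) z := by
  have h13 : ball (0 : Cn n) 1 ⊆ ball (0 : Cn n) 3 := ball_subset_ball (by norm_num)
  obtain ⟨h1, h2⟩ := K.co_spec (K.κ i z)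
  have hm : K.κ i z ∈ K.κ (K.ix (K.κ i z)) '' ball 0 3 := ⟨_, h13 h1, h2⟩
  refine ⟨⟨hz, hm⟩, ?_⟩
  obtain ⟨h3, h4⟩ := K.τ_spec i _ z hz hm
  exact K.injOn _ (h13 h1) h3 (h2.trans h4.symm)

theorem xRel_ae_chart (p : Fin K.N → Cn n → Prop)
    (h : ∀ j, ∀ᵐ z : Cn n, z ∈ ball (0 : Cn n) 3 → p j z) (i : Fin K.N) :
    ∀ᵐ z : Cn n, z ∈ ball (0 : Cn n) 3 → p (K.ix (K.κ i z)) (K.τ i (K.ix (K.κ i z)) z) := by
  have h1 : ∀ j : Fin K.N, ∀ᵐ z : Cn n, z ∈ ball (0 : Cn n) 3 ∩ K.κ i ⁻¹' (K.κ j '' ball 0 3) →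
      p j (K.τ i j z) := by
    intro j
    refine ae_comp_hol (K.isOpen_overlap i j) (K.τ_hol i j) (K.τ_inj i j)
      (fun z hz => K.τ_fderiv i j hz) ?_
    filter_upwards [h j] with y hy hy2
    obtain ⟨z, hz, rfl⟩ := hy2
    exact hy (K.τ_spec i j z hz.1 hz.2).1
  filter_upwards [ae_all_iff.2 h1] with z hz hz3
  exact hz _ (xRel_co K hz3).1

section meas

variable [MeasurableSpace X] [BorelSpace X] {ψ v w : X → ℝ}

theorem xRel_ae (p : Fin K.N → Cn n → Prop)
    (h : ∀ j, ∀ᵐ z : Cn n, z ∈ ball (0 : Cn n) 3 → p j z) :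
    ∀ᵐ x ∂K.vol, p (K.ix x) (K.co x) := by
  refine K.vol_ae _ fun i => ?_
  have h13 : ball (0 : Cn n) 1 ⊆ ball (0 : Cn n) 3 := ball_subset_ball (by norm_num)
  filter_upwards [xRel_ae_chart K p h i] with z hz hz1
  rw [(xRel_co K (h13 hz1)).2]
  exact hz (h13 hz1)

theorem xRel_ae_twD (hψ : C11X K ψ) :
    ∀ᵐ x ∂K.vol, TwD (fun z => ψ (K.κ (K.ix x) z)) (K.co x) :=
  xRel_ae K (fun j z => TwD (fun y => ψ (K.κ j y)) z)
    (fun j => C11.ae_twD isOpen_ball (hψ j))

theorem xRel_co3 (x : X) : K.co x ∈ ball (0 : Cn n) 3 :=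
  ball_subset_ball (by norm_num) (K.co_spec x).1

theorem KM.RM_chart (hψ : C11X K ψ) (i : Fin K.N) : ∀ᵐ z : Cn n, z ∈ ball (0 : Cn n) 3 →
    K.RM ψ (K.κ i z) = mad (fun y => K.ρ i y + ψ (K.κ i y)) z / mad (K.ρ i) z := by
  filter_upwards [xRel_ae_chart K (fun j z => TwD (fun y => ψ (K.κ j y)) z)
    (fun j => C11.ae_twD isOpen_ball (hψ j)) i] with z hz hz3
  obtain ⟨h1, h2⟩ := xRel_co K hz3
  simp only [KM.RM]
  rw [h2]
  exact xRel_RM K ψ h1 (hz hz3)

theorem KM.RL_chart (hψ : C11X K ψ) (hw : C11X K w) (i : Fin K.N) :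
    ∀ᵐ z : Cn n, z ∈ ball (0 : Cn n) 3 → K.RL ψ w (K.κ i z) =
      mal (fun y => K.ρ i y + ψ (K.κ i y)) (fun y => w (K.κ i y)) z / mad (K.ρ i) z := by
  filter_upwards [xRel_ae_chart K (fun j z => TwD (fun y => ψ (K.κ j y)) z)
    (fun j => C11.ae_twD isOpen_ball (hψ j)) i, xRel_ae_chart K
    (fun j z => TwD (fun y => w (K.κ j y)) z)
    (fun j => C11.ae_twD isOpen_ball (hw j)) i] with z hz hz' hz3
  obtain ⟨h1, h2⟩ := xRel_co K hz3
  simp only [KM.RL]
  rw [h2]
  exact xRel_RL K ψ w h1 (hz hz3) (hz' hz3)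

/-- the Lipschitz constant of a combination bounds the second derivative -/
theorem xRel_hes_bdd {a b c : Cn n → ℝ} (ha : C11 (ball 0 3) a) (hb : C11 (ball 0 3) b)
    (hc : C11 (ball 0 3) c) : ∃ C : ℝ, 0 ≤ C ∧ ∀ s t : ℝ, |s| ≤ 1 → |t| ≤ 1 →
      ∀ z ∈ closedBall (0 : Cn n) 1, ‖hes (fun y => a y + (s * b y + t * c y)) z‖ ≤ C := by
  have hL : IsCompact (closedBall (0 : Cn n) 2) := isCompact_closedBall _ _
  have hL3 : closedBall (0 : Cn n) 2 ⊆ ball 0 3 := closedBall_subset_ball (by norm_num)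
  obtain ⟨Ca, hCa⟩ := ha.lip _ hL hL3
  obtain ⟨Cb, hCb⟩ := hb.lip _ hL hL3
  obtain ⟨Cc, hCc⟩ := hc.lip _ hL hL3
  refine ⟨(Ca + (Cb + Cc) : NNReal), NNReal.coe_nonneg _, fun s t hs ht z hz => ?_⟩
  have hnhds : closedBall (0 : Cn n) 2 ∈ 𝓝 z :=
    Filter.mem_of_superset (isOpen_ball.mem_nhds
      (closedBall_subset_ball (by norm_num : (1 : ℝ) < 2) hz)) ball_subset_closedBall
  refine norm_fderiv_le_of_lipschitzOn ℝ hnhds ?_
  have hfd : ∀ y ∈ closedBall (0 : Cn n) 2, fderiv ℝ (fun y => a y + (s * b y + t * c y)) y =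
      fderiv ℝ a y + (s • fderiv ℝ b y + t • fderiv ℝ c y) := by
    intro y hy
    have h1 := (ha.diff y (hL3 hy)).hasFDerivAt
    have h2 := ((hb.diff y (hL3 hy)).hasFDerivAt).const_mul s
    have h3 := ((hc.diff y (hL3 hy)).hasFDerivAt).const_mul t
    exact (h1.add (h2.add h3)).fderiv
  refine LipschitzOnWith.of_dist_le_mul fun y hy y' hy' => ?_
  rw [hfd y hy, hfd y' hy', dist_eq_norm]
  have e : fderiv ℝ a y + (s • fderiv ℝ b y + t • fderiv ℝ c y) -
      (fderiv ℝ a y' + (s • fderiv ℝ b y' + t • fderiv ℝ c y')) =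
      (fderiv ℝ a y - fderiv ℝ a y') + (s • (fderiv ℝ b y - fderiv ℝ b y') +
        t • (fderiv ℝ c y - fderiv ℝ c y')) := by
    rw [smul_sub, smul_sub]; abel
  rw [e]
  have d1 := hCa.dist_le_mul y hy y' hy'
  have d2 := hCb.dist_le_mul y hy y' hy'
  have d3 := hCc.dist_le_mul y hy y' hy'
  rw [dist_eq_norm] at d1 d2 d3
  calc _ ≤ ‖fderiv ℝ a y - fderiv ℝ a y'‖ + (‖s • (fderiv ℝ b y - fderiv ℝ b y')‖ +
        ‖t • (fderiv ℝ c y - fderiv ℝ c y')‖) :=
        (norm_add_le _ _).trans (add_le_add le_rfl (norm_add_le _ _))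
    _ ≤ ‖fderiv ℝ a y - fderiv ℝ a y'‖ + (1 * ‖fderiv ℝ b y - fderiv ℝ b y'‖ +
        1 * ‖fderiv ℝ c y - fderiv ℝ c y'‖) := by
        rw [norm_smul, norm_smul, Real.norm_eq_abs, Real.norm_eq_abs]
        gcongr
    _ ≤ Ca * dist y y' + (1 * (Cb * dist y y') + 1 * (Cc * dist y y')) := by gcongr
    _ = _ := by push_cast; ring

theorem xRel_bdd (hψ : C11X K ψ) (hw : C11X K w) (hv : C11X K v) :
    ∃ C : ℝ, 0 < C ∧ ∀ s t : ℝ, |s| ≤ 1 → |t| ≤ 1 → ∀ x,
      |K.RM (fun y => s * ψ y + t * w y) x| ≤ C ∧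
      |K.RL (fun y => s * ψ y + t * w y) v x| ≤ C := by
  have hj : ∀ j : Fin K.N, ∃ C : ℝ, 0 < C ∧ ∀ s t : ℝ, |s| ≤ 1 → |t| ≤ 1 →
      ∀ z ∈ closedBall (0 : Cn n) 1,
      |mad (fun y => K.ρ j y + (s * ψ (K.κ j y) + t * w (K.κ j y))) z / mad (K.ρ j) z| ≤ C ∧
      |mal (fun y => K.ρ j y + (s * ψ (K.κ j y) + t * w (K.κ j y))) (fun y => v (K.κ j y)) z /
        mad (K.ρ j) z| ≤ C := by
    intro j
    obtain ⟨C1, hC1, h1⟩ := xRel_hes_bdd (K.ρ_c11 j) (hψ j) (hw j)
    obtain ⟨C2, hC2, h2⟩ := xRel_hes_bdd (hv j) (hψ j) (hw j)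
    obtain ⟨B, hB, hB2⟩ := mad_bdd n (max C1 C2)
    obtain ⟨α, β, hα, hβ, hαβ⟩ := K.mad_ρ_bdd j (isCompact_closedBall (0 : Cn n) 1)
      (closedBall_subset_ball (by norm_num))
    refine ⟨B / α + 1, by positivity, fun s t hs ht z hz => ?_⟩
    have hv2 : ‖hes (fun y => v (K.κ j y)) z‖ ≤ max C1 C2 := by
      have := h2 0 0 (by norm_num) (by norm_num) z hz
      simp only [zero_mul, add_zero] at this
      exact this.trans (le_max_right _ _)
    obtain ⟨e1, e2⟩ := hB2 _ _ z ((h1 s t hs ht z hz).trans (le_max_left _ _)) hv2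
    have hpos : 0 < mad (K.ρ j) z := hα.trans_le (hαβ z hz).1
    have key : ∀ r : ℝ, |r| ≤ B → |r / mad (K.ρ j) z| ≤ B / α + 1 := by
      intro r hr
      rw [abs_div, abs_of_pos hpos]
      have : |r| / mad (K.ρ j) z ≤ B / α := div_le_div₀ hB hr hα (hαβ z hz).1
      linarith
    exact ⟨key _ e1, key _ e2⟩
  choose C hC h using hj
  refine ⟨(∑ j, C j) + 1, by
    have := Finset.sum_nonneg (fun j (_ : j ∈ Finset.univ) => (hC j).le)
    linarith, fun s t hs ht x => ?_⟩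
  have hx := h (K.ix x) s t hs ht (K.co x) (ball_subset_closedBall (K.co_spec x).1)
  have hle : C (K.ix x) ≤ ∑ j, C j :=
    Finset.single_le_sum (fun j _ => (hC j).le) (Finset.mem_univ (K.ix x))
  exact ⟨hx.1.trans (by linarith), hx.2.trans (by linarith)⟩

/-- bounds, uniformly for combinations with coefficients in `[-1, 1]` -/
theorem KM.RM_bdd [CompactSpace X] (hψ : C11X K ψ) (hw : C11X K w) : ∃ C : ℝ, 0 < C ∧
    ∀ s t : ℝ, |s| ≤ 1 → |t| ≤ 1 → ∀ x, |K.RM (fun y => s * ψ y + t * w y) x| ≤ C := by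
  obtain ⟨C, hC, h⟩ := xRel_bdd K hψ hw hw
  exact ⟨C, hC, fun s t hs ht x => (h s t hs ht x).1⟩

theorem KM.RL_bdd [CompactSpace X] (hψ : C11X K ψ) (hw : C11X K w) (hv : C11X K v) :
    ∃ C : ℝ, 0 < C ∧
    ∀ s t : ℝ, |s| ≤ 1 → |t| ≤ 1 → ∀ x, |K.RL (fun y => s * ψ y + t * w y) v x| ≤ C := by
  obtain ⟨C, hC, h⟩ := xRel_bdd K hψ hw hv
  exact ⟨C, hC, fun s t hs ht x => (h s t hs ht x).2⟩

/-- measurability of functions given in the distinguished chart -/
theorem xRel_meas (m : Fin K.N → Cn n → ℝ) (hm : ∀ j, Measurable (m j)) :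
    Measurable (fun x : X => m (K.ix x) (K.co x)) := by
  classical
  have h13 : ball (0 : Cn n) 1 ⊆ ball (0 : Cn n) 3 := ball_subset_ball (by norm_num)
  let P : Fin K.N → X → Cn n := fun j =>
    (K.κ j '' ball 0 3).piecewise (Function.invFunOn (K.κ j) (ball 0 3)) (fun _ => 0)
  have hP : ∀ j, Measurable (P j) := fun j =>
    ContinuousOn.measurable_piecewise (K.inv_cont j) continuousOn_const
      (K.isOpen_range j).measurableSet
  have hix : Measurable K.ix := by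
    refine measurable_to_countable' fun j => ?_
    exact K.measurableSet_ix j
  have e : (fun x : X => m (K.ix x) (K.co x)) =
      (fun q : Fin K.N × X => m q.1 (P q.1 q.2)) ∘ fun x => (K.ix x, x) := by
    funext x
    have hm : x ∈ K.κ (K.ix x) '' ball 0 3 := by
      obtain ⟨h1, h2⟩ := K.co_spec x
      exact ⟨_, h13 h1, h2⟩
    have hco : P (K.ix x) x = K.co x := by
      simp only [P]
      rw [Set.piecewise_eq_of_mem _ _ _ hm]
      obtain ⟨h1, h2⟩ := K.co_spec x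
      have h3 := Function.invFunOn_mem hm
      have h4 := Function.invFunOn_eq hm
      exact K.injOn _ h3 (h13 h1) (h4.trans h2.symm)
    simp only [Function.comp_apply]
    rw [hco]
  rw [e]
  refine Measurable.comp ?_ (hix.prodMk measurable_id)
  exact measurable_from_prod_countable_right fun j => (hm j).comp (hP j)

theorem KM.RM_meas (hψ : C11X K ψ) : AEStronglyMeasurable (K.RM ψ) K.vol := by
  have h : Measurable (K.RM ψ) := xRel_meas K
    (fun j z => mad (fun z => K.ρ j z + ψ (K.κ j z)) z / mad (K.ρ j) z)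
    (fun j => (measurable_mad _).div (measurable_mad _))
  exact h.aestronglyMeasurable

theorem KM.RL_meas (hψ : C11X K ψ) (hw : C11X K w) : AEStronglyMeasurable (K.RL ψ w) K.vol := by
  have h : Measurable (K.RL ψ w) := xRel_meas K
    (fun j z => mal (fun z => K.ρ j z + ψ (K.κ j z)) (fun z => w (K.κ j z)) z / mad (K.ρ j) z)
    (fun j => (measurable_mal _ _).div (measurable_mad _))
  exact h.aestronglyMeasurable

theorem xRel_psd (hψ : WK K ψ) :
    ∀ᵐ x ∂K.vol, (LM (fun z => K.ρ (K.ix x) z + ψ (K.κ (K.ix x) z)) (K.co x)).PosSemidef :=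
  xRel_ae K (fun j z => (LM (fun z => K.ρ j z + ψ (K.κ j z)) z).PosSemidef) (fun j =>
    (c11_sub_iff isOpen_ball (C11.add isOpen_ball (K.ρ_c11 j) (hψ.c11 j))).1 (hψ.sub j))

theorem KM.RM_nonneg (hψ : WK K ψ) : ∀ᵐ x ∂K.vol, 0 ≤ K.RM ψ x := by
  filter_upwards [xRel_psd K hψ] with x hx
  exact div_nonneg (mat_det_nonneg hx).1 (K.mad_ρ_pos (K.ix x) (xRel_co3 K x)).2.2.le

theorem KM.RM_zero : ∀ᵐ x ∂K.vol, K.RM (fun _ => (0 : ℝ)) x = 1 := by
  refine Filter.Eventually.of_forall fun x => ?_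
  simp only [KM.RM, add_zero]
  exact div_self (K.mad_ρ_pos (K.ix x) (xRel_co3 K x)).2.2.ne'

theorem KM.RM_add_const (hψ : C11X K ψ) (c : ℝ) :
    ∀ᵐ x ∂K.vol, K.RM (fun y => ψ y + c) x = K.RM ψ x := by
  filter_upwards [xRel_ae_twD K hψ] with x hx
  simp only [KM.RM, mad]
  have h0 := (K.mad_ρ_pos (K.ix x) (xRel_co3 K x)).1
  have h1 := hx.add (xRel_twD_const c (K.co x))
  rw [(h0.add h1.1).2, h1.2, LM_const, add_zero, ← (h0.add hx).2]

theorem KM.RL_add (hψ : C11X K ψ) (hv : C11X K v) (hw : C11X K w) :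
    ∀ᵐ x ∂K.vol, K.RL ψ (fun y => v y + w y) x = K.RL ψ v x + K.RL ψ w x := by
  filter_upwards [xRel_ae_twD K hv, xRel_ae_twD K hw] with x h1 h2
  simp only [KM.RL, mal]
  rw [(h1.add h2).2, Matrix.mul_add, Matrix.trace_add, Complex.add_re, add_div]

theorem KM.RL_const_mul (hψ : C11X K ψ) (hv : C11X K v) (c : ℝ) :
    ∀ᵐ x ∂K.vol, K.RL ψ (fun y => c * v y) x = c * K.RL ψ v x := by
  filter_upwards [xRel_ae_twD K hv] with x h1
  simp only [KM.RL, mal]
  rw [(h1.const_mul c).2, Matrix.mul_smul, Matrix.trace_smul, smul_eq_mul, Complex.re_ofReal_mul,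
    mul_div_assoc]

/-- derivative in the direction of `w` -/
theorem KM.RM_deriv (hψ : C11X K ψ) (hw : C11X K w) : ∀ᵐ x ∂K.vol, ∀ s : ℝ,
    HasDerivAt (fun s : ℝ => K.RM (fun y => ψ y + s * w y) x)
      (K.RL (fun y => ψ y + s * w y) w x) s := by
  filter_upwards [xRel_ae_twD K hψ, xRel_ae_twD K hw] with x h1 h2 s
  have h0 := (K.mad_ρ_pos (K.ix x) (xRel_co3 K x)).1
  have e : ∀ s : ℝ, LM (fun z => K.ρ (K.ix x) z +
      (ψ (K.κ (K.ix x) z) + s * w (K.κ (K.ix x) z))) (K.co x) =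
      (LM (K.ρ (K.ix x)) (K.co x) + LM (fun z => ψ (K.κ (K.ix x) z)) (K.co x)) +
        (s : ℂ) • LM (fun z => w (K.κ (K.ix x) z)) (K.co x) := by
    intro s
    have h3 := h2.const_mul s
    have h4 := h1.add h3.1
    rw [(h0.add h4.1).2, h4.2, h3.2, add_assoc]
  simp only [KM.RM, KM.RL, mad, mal, e]
  exact (mat_det_deriv _ _ s).div_const _

/-- joint polynomial dependence: derivative of `s ↦ R_{r (ψ + s w)}` and of `r ↦ R_{r φ}` -/
theorem KM.RM_deriv_scale (hψ : C11X K ψ) : ∀ᵐ x ∂K.vol, ∀ r : ℝ,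
    HasDerivAt (fun r : ℝ => K.RM (fun y => r * ψ y) x) (K.RL (fun y => r * ψ y) ψ x) r := by
  filter_upwards [xRel_ae_twD K hψ] with x h1 r
  have h0 := (K.mad_ρ_pos (K.ix x) (xRel_co3 K x)).1
  have e : ∀ s : ℝ, LM (fun z => K.ρ (K.ix x) z + s * ψ (K.κ (K.ix x) z)) (K.co x) =
      LM (K.ρ (K.ix x)) (K.co x) + (s : ℂ) • LM (fun z => ψ (K.κ (K.ix x) z)) (K.co x) := by
    intro s
    have h3 := h1.const_mul s
    rw [(h0.add h3.1).2, h3.2]
  simp only [KM.RM, KM.RL, mad, mal, e]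
  exact (mat_det_deriv _ _ r).div_const _

/-- convexity -/
theorem KM.RM_convex (hψ : WK K ψ) (hw : WK K w) {s : ℝ} (h0 : 0 ≤ s) (h1 : s ≤ 1) :
    ∀ᵐ x ∂K.vol, s ^ n * K.RM w x ≤ K.RM (fun y => (1 - s) * ψ y + s * w y) x := by
  filter_upwards [xRel_ae_twD K hψ.c11, xRel_ae_twD K hw.c11, xRel_psd K hψ, xRel_psd K hw] with
    x t1 t2 p1 p2
  obtain ⟨hρ, -, hpos⟩ := K.mad_ρ_pos (K.ix x) (xRel_co3 K x)
  have e : LM (fun z => K.ρ (K.ix x) z +
      ((1 - s) * ψ (K.κ (K.ix x) z) + s * w (K.κ (K.ix x) z))) (K.co x) =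
      ((1 - s : ℝ) : ℂ) • LM (fun z => K.ρ (K.ix x) z + ψ (K.κ (K.ix x) z)) (K.co x) +
        (s : ℂ) • LM (fun z => K.ρ (K.ix x) z + w (K.κ (K.ix x) z)) (K.co x) := by
    have a1 := t1.const_mul (1 - s)
    have a2 := t2.const_mul s
    have a3 := a1.1.add a2.1
    rw [(hρ.add a3.1).2, a3.2, a1.2, a2.2, (hρ.add t1).2, (hρ.add t2).2, smul_add, smul_add]
    have : LM (K.ρ (K.ix x)) (K.co x) = ((1 - s : ℝ) : ℂ) • LM (K.ρ (K.ix x)) (K.co x) +
        (s : ℂ) • LM (K.ρ (K.ix x)) (K.co x) := by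
      rw [← add_smul]
      push_cast
      rw [sub_add_cancel, one_smul]
    nth_rewrite 1 [this]
    abel
  simp only [KM.RM, mad]
  rw [e, ← mul_div_assoc]
  exact div_le_div_of_nonneg_right (mat_det_convex p1 p2 h0 h1) hpos.le

end meas

end HMA

end S_KM_XRel

section S_KM_EnvD

/-! # Module EnvD: the Monge-Ampère measure vanishes off the contact set -/

open MeasureTheory Metric Set
open scoped ENNReal Topology ContDiff ComplexOrder

namespace HMA

/-- quadratic functions -/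
theorem EnvD_quad {n : ℕ} (S : Cn n →L[ℝ] Cn n →L[ℝ] ℝ) (hS : ∀ a b, S a b = S b a)
    (L : Cn n →L[ℝ] ℝ) (c : ℝ) (z₀ : Cn n) :
    ContDiff ℝ ∞ (fun z => c + L (z - z₀) + 1 / 2 * S (z - z₀) (z - z₀)) ∧
    (∀ w, HasFDerivAt (fun z => c + L (z - z₀) + 1 / 2 * S (z - z₀) (z - z₀))
      (L + S (w - z₀)) w) ∧
    ∀ z ξ : Cn n, lev (fun z => c + L (z - z₀) + 1 / 2 * S (z - z₀) (z - z₀)) z ξ =
      (S ξ ξ + S (Complex.I • ξ) (Complex.I • ξ)) / 4 := by
  have hd : ∀ w, HasFDerivAt (fun z => c + L (z - z₀) + 1 / 2 * S (z - z₀) (z - z₀))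
      (L + S (w - z₀)) w := by
    intro w
    have h1 : HasFDerivAt (fun z : Cn n => z - z₀) (ContinuousLinearMap.id ℝ (Cn n)) w :=
      (hasFDerivAt_id w).sub_const z₀
    have h2 : HasFDerivAt (fun z : Cn n => L (z - z₀)) L w := by
      have h := (L.hasFDerivAt (x := w - z₀)).comp w h1
      rwa [ContinuousLinearMap.comp_id] at h
    have h3 : HasFDerivAt (fun z : Cn n => S (z - z₀) (z - z₀))
        ((2 : ℝ) • S (w - z₀)) w := by
      have h4 := S.hasFDerivAt_of_bilinear h1 h1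
      refine h4.congr_fderiv ?_
      ext v
      change S (w - z₀) v + S v (w - z₀) = 2 * S (w - z₀) v
      rw [hS v (w - z₀)]
      ring
    have h5 := (h2.const_add c).add (h3.const_mul (1 / 2 : ℝ))
    refine h5.congr_fderiv ?_
    ext v
    simp only [add_apply, smul_apply, smul_eq_mul]
    ring
  refine ⟨?_, hd, ?_⟩
  · have h1 : ContDiff ℝ ∞ (fun z : Cn n => z - z₀) := contDiff_id.sub contDiff_const
    have h2 : ContDiff ℝ ∞ (fun z : Cn n => L (z - z₀)) := L.contDiff.comp h1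
    have h3 : ContDiff ℝ ∞ (fun z : Cn n => S (z - z₀) (z - z₀)) :=
      (S.contDiff.comp h1).clm_apply h1
    exact (contDiff_const.add h2).add (contDiff_const.mul h3)
  · intro z ξ
    have h1 : ∀ η : Cn n, fderiv ℝ (fun w => fderiv ℝ
        (fun z => c + L (z - z₀) + 1 / 2 * S (z - z₀) (z - z₀)) w η) z η = S η η := by
      intro η
      have h2 : (fun w => fderiv ℝ
          (fun z => c + L (z - z₀) + 1 / 2 * S (z - z₀) (z - z₀)) w η)
          = fun w => L η + S (w - z₀) η := by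
        funext w
        rw [(hd w).fderiv]
        rfl
      rw [h2]
      have h3 : HasFDerivAt (fun w : Cn n => L η + S (w - z₀) η) (S.flip η) z := by
        have h4 : HasFDerivAt (fun w : Cn n => (S.flip η) (w - z₀)) (S.flip η) z := by
          have h := ((S.flip η).hasFDerivAt (x := z - z₀)).comp z
            ((hasFDerivAt_id z).sub_const z₀)
          rwa [ContinuousLinearMap.comp_id] at h
        exact h4.const_add (L η)
      rw [h3.fderiv]
      rfl
    rw [lev, h1 ξ, h1 (Complex.I • ξ)]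

/-- second order Taylor expansion -/
theorem EnvD_taylor {n : ℕ} {P : Cn n → ℝ} {z₀ : Cn n} (h : TwD P z₀) {ε : ℝ} (hε : 0 < ε) :
    ∃ r > 0, ∀ w ∈ ball z₀ r, |P w - (P z₀ + fderiv ℝ P z₀ (w - z₀) +
      1 / 2 * hes P z₀ (w - z₀) (w - z₀))| ≤ ε * ‖w - z₀‖ ^ 2 := by
  have hsymm : ∀ a b, hes P z₀ a b = hes P z₀ b a := h.symm
  obtain ⟨-, hq, -⟩ := EnvD_quad (hes P z₀) hsymm (fderiv ℝ P z₀) (P z₀) z₀
  have h2 : HasFDerivAt (fderiv ℝ P) (hes P z₀) z₀ := h.2.hasFDerivAt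
  have h3 := h2.isLittleO.def hε
  have h4 := h.1.and h3
  obtain ⟨r, hr, hball⟩ := Metric.eventually_nhds_iff_ball.1 h4
  refine ⟨r, hr, fun w hw => ?_⟩
  set q : Cn n → ℝ := fun z => P z₀ + fderiv ℝ P z₀ (z - z₀) +
    1 / 2 * hes P z₀ (z - z₀) (z - z₀) with hqdef
  have h5 : ∀ x ∈ closedBall z₀ ‖w - z₀‖, HasFDerivWithinAt (fun z => P z - q z)
      (fderiv ℝ P x - (fderiv ℝ P z₀ + hes P z₀ (x - z₀))) (closedBall z₀ ‖w - z₀‖) x := by
    intro x hx
    have hx' : x ∈ ball z₀ r := by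
      rw [mem_closedBall, dist_eq_norm] at hx
      rw [mem_ball, dist_eq_norm] at hw ⊢
      exact lt_of_le_of_lt hx hw
    exact ((hball x hx').1.hasFDerivAt.sub (hq x)).hasFDerivWithinAt
  have h6 : ∀ x ∈ closedBall z₀ ‖w - z₀‖,
      ‖fderiv ℝ P x - (fderiv ℝ P z₀ + hes P z₀ (x - z₀))‖ ≤ ε * ‖w - z₀‖ := by
    intro x hx
    have hx' : x ∈ ball z₀ r := by
      rw [mem_closedBall, dist_eq_norm] at hx
      rw [mem_ball, dist_eq_norm] at hw ⊢
      exact lt_of_le_of_lt hx hw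
    have h7 := (hball x hx').2
    rw [mem_closedBall, dist_eq_norm] at hx
    rw [← sub_sub]
    exact h7.trans (by gcongr)
  have h8 := (convex_closedBall z₀ ‖w - z₀‖).norm_image_sub_le_of_norm_hasFDerivWithin_le h5 h6
    (mem_closedBall_self (norm_nonneg _)) (y := w) (by rw [mem_closedBall, dist_eq_norm])
  have h9 : P z₀ - q z₀ = 0 := by
    simp [hqdef]
  rw [h9, sub_zero, Real.norm_eq_abs] at h8
  calc |P w - q w| ≤ ε * ‖w - z₀‖ * ‖w - z₀‖ := h8
    _ = ε * ‖w - z₀‖ ^ 2 := by ring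

/-- strict positivity of the Levi form -/
theorem EnvD_pos {n : ℕ} {P : Cn n → ℝ} {z₀ : Cn n} (h : TwD P z₀)
    (hpsd : (LM P z₀).PosSemidef) (hdet : mad P z₀ ≠ 0) :
    ∃ lam > 0, ∀ ξ : Cn n, lam * ‖ξ‖ ^ 2 ≤
      (hes P z₀ ξ ξ + hes P z₀ (Complex.I • ξ) (Complex.I • ξ)) / 4 := by
  have hd : (LM P z₀).det ≠ 0 := by
    intro h0
    apply hdet
    rw [mad, h0]
    rfl
  have hpd : (LM P z₀).PosDef := hpsd.posDef_iff_det_ne_zero.2 hd
  have hpos : ∀ ξ : Cn n, ξ ≠ 0 → 0 < lev P z₀ ξ := by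
    intro ξ hξ
    have hx : (fun k => (starRingEnd ℂ) (ξ k)) ≠ 0 := by
      intro h0
      apply hξ
      ext k
      have h1 := congrFun h0 k
      simpa using h1
    have h1 := hpd.dotProduct_mulVec_pos hx
    have h2 : star (fun k => (starRingEnd ℂ) (ξ k)) ⬝ᵥ
        (LM P z₀).mulVec (fun k => (starRingEnd ℂ) (ξ k)) = (lev P z₀ ξ : ℂ) := by
      rw [h.lev_LM, dotProduct]
      refine Finset.sum_congr rfl fun j _ => ?_
      rw [Matrix.mulVec, dotProduct, Finset.mul_sum]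
      refine Finset.sum_congr rfl fun k _ => ?_
      simp only [Pi.star_apply, RCLike.star_def, Complex.conj_conj]
      ring
    rw [h2] at h1
    exact_mod_cast h1
  have hcont : Continuous fun ξ : Cn n =>
      (hes P z₀ ξ ξ + hes P z₀ (Complex.I • ξ) (Complex.I • ξ)) / 4 := by
    have h1 : Continuous fun ξ : Cn n => Complex.I • ξ := continuous_const_smul _
    have h2 : Continuous fun ξ : Cn n => hes P z₀ ξ ξ :=
      (hes P z₀).continuous.clm_apply continuous_id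
    have h3 : Continuous fun ξ : Cn n => hes P z₀ (Complex.I • ξ) (Complex.I • ξ) :=
      ((hes P z₀).continuous.comp h1).clm_apply h1
    exact (h2.add h3).div_const 4
  have hhom : ∀ (c : ℝ) (ξ : Cn n),
      (hes P z₀ (c • ξ) (c • ξ) + hes P z₀ (Complex.I • (c • ξ)) (Complex.I • (c • ξ))) / 4
        = c ^ 2 * ((hes P z₀ ξ ξ + hes P z₀ (Complex.I • ξ) (Complex.I • ξ)) / 4) := by
    intro c ξ
    have h1 : Complex.I • (c • ξ) = c • (Complex.I • ξ) := smul_comm _ _ _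
    rw [h1]
    simp only [map_smul, smul_apply, smul_eq_mul]
    ring
  by_cases hne : (sphere (0 : Cn n) 1).Nonempty
  · obtain ⟨η, hη, hmin⟩ := (isCompact_sphere (0 : Cn n) 1).exists_isMinOn hne hcont.continuousOn
    have hη0 : η ≠ 0 := by
      rintro rfl
      simp at hη
    refine ⟨(hes P z₀ η η + hes P z₀ (Complex.I • η) (Complex.I • η)) / 4, ?_, ?_⟩
    · have := hpos η hη0
      rwa [h.lev] at this
    · intro ξ
      by_cases hξ : ξ = 0
      · subst hξ
        simp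
      · have hn : 0 < ‖ξ‖ := norm_pos_iff.2 hξ
        have h1 : (‖ξ‖⁻¹ : ℝ) • ξ ∈ sphere (0 : Cn n) 1 := by
          rw [mem_sphere_zero_iff_norm, norm_smul, norm_inv, norm_norm, inv_mul_cancel₀ hn.ne']
        have h2 := hmin h1
        rw [mem_ofPred_eq] at h2
        beta_reduce at h2
        rw [hhom] at h2
        have h3 := mul_le_mul_of_nonneg_right h2 (sq_nonneg ‖ξ‖)
        refine h3.trans (le_of_eq ?_)
        field_simp
  · refine ⟨1, one_pos, fun ξ => ?_⟩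
    have hξ : ξ = 0 := by
      by_contra hξ
      apply hne
      have hn : 0 < ‖ξ‖ := norm_pos_iff.2 hξ
      refine ⟨(‖ξ‖⁻¹ : ℝ) • ξ, ?_⟩
      rw [mem_sphere_zero_iff_norm, norm_smul, norm_inv, norm_norm, inv_mul_cancel₀ hn.ne']
    subst hξ
    simp

theorem EnvD_disc {n : ℕ} {Ω : Set (Cn n)} (hΩ : IsOpen Ω) {a : Cn n} (ha : a ∈ Ω) :
    ∃ r > 0, ∀ b : Cn n, ‖b‖ ≤ r → ∀ ζ : ℂ, ‖ζ‖ ≤ 1 → a + ζ • b ∈ Ω := by
  obtain ⟨r, hr, hball⟩ := Metric.isOpen_iff.1 hΩ a ha
  refine ⟨r / 2, by positivity, fun b hb ζ hζ => hball ?_⟩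
  rw [mem_ball, dist_eq_norm, add_sub_cancel_left, norm_smul]
  calc ‖ζ‖ * ‖b‖ ≤ 1 * (r / 2) := by gcongr
    _ < r := by linarith

theorem EnvD_circ (θ : ℝ) : ‖Complex.exp (θ * Complex.I)‖ ≤ 1 := by
  rw [Complex.norm_exp_ofReal_mul_I]

/-- gluing -/
theorem EnvD_glue {n : ℕ} {Ω : Set (Cn n)} (hΩ : IsOpen Ω) {P q : Cn n → ℝ} {z₀ : Cn n} {r : ℝ}
    (hr : 0 < r) (hball : ball z₀ r ⊆ Ω) (hP : ContinuousOn P Ω) (hPs : SubOn Ω P)
    (hq : Continuous q) (hqs : SubOn univ q)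
    (h : ∀ w ∈ ball z₀ r, 7 / 8 * r ≤ ‖w - z₀‖ → q w ≤ P w) :
    ∃ g : Cn n → ℝ, ContinuousOn g Ω ∧ SubOn Ω g ∧ (∀ w ∈ ball z₀ r, g w = max (P w) (q w)) ∧
      (∀ w ∉ ball z₀ r, g w = P w) := by
  classical
  set g : Cn n → ℝ := fun w => if w ∈ ball z₀ r then max (P w) (q w) else P w with hg
  have hg1 : ∀ w ∈ ball z₀ r, g w = max (P w) (q w) := fun w hw => if_pos hw
  have hg2 : ∀ w ∉ ball z₀ r, g w = P w := fun w hw => if_neg hw
  have hg3 : ∀ w, 7 / 8 * r < ‖w - z₀‖ → g w = P w := by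
    intro w hw
    by_cases hwr : w ∈ ball z₀ r
    · rw [hg1 w hwr]
      exact max_eq_left (h w hwr hw.le)
    · exact hg2 w hwr
  have hopen : IsOpen {w : Cn n | 7 / 8 * r < ‖w - z₀‖} :=
    isOpen_lt continuous_const ((continuous_id.sub continuous_const).norm)
  have hcov : ∀ w : Cn n, w ∈ ball z₀ r ∨ w ∈ {w : Cn n | 7 / 8 * r < ‖w - z₀‖} := by
    intro w
    by_cases hwr : w ∈ ball z₀ r
    · exact Or.inl hwr
    · right
      rw [mem_ball, dist_eq_norm, not_lt] at hwr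
      rw [mem_ofPred_eq]
      linarith
  have hgc : ContinuousOn g Ω := by
    intro w hw
    have hPw : ContinuousAt P w := hP.continuousAt (hΩ.mem_nhds hw)
    refine ContinuousAt.continuousWithinAt ?_
    rcases hcov w with hw1 | hw1
    · have h1 : ContinuousAt (fun w => max (P w) (q w)) w := hPw.max hq.continuousAt
      refine h1.congr ?_
      filter_upwards [isOpen_ball.mem_nhds hw1] with y hy
      exact (hg1 y hy).symm
    · refine hPw.congr ?_
      filter_upwards [hopen.mem_nhds hw1] with y hy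
      exact (hg3 y hy).symm
  have hle : ∀ w, P w ≤ g w := by
    intro w
    by_cases hwr : w ∈ ball z₀ r
    · rw [hg1 w hwr]
      exact le_max_left _ _
    · rw [hg2 w hwr]
  have hqb : ∀ s : Set (Cn n), ∀ L ⊆ s, IsCompact L → ∃ M : ℝ, ∀ z ∈ L, -M ≤ q z := by
    intro s L _ hL
    obtain ⟨C, hC⟩ := hL.exists_bound_of_continuousOn hq.continuousOn
    exact ⟨C, fun z hz => neg_le_of_abs_le (hC z hz)⟩
  have hPb : ∀ L ⊆ Ω, IsCompact L → ∃ M : ℝ, ∀ z ∈ L, -M ≤ P z := by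
    intro L hLΩ hL
    obtain ⟨C, hC⟩ := hL.exists_bound_of_continuousOn (hP.mono hLΩ)
    exact ⟨C, fun z hz => neg_le_of_abs_le (hC z hz)⟩
  have hmax : SubOn (ball z₀ r) (fun z => max (P z) (q z)) := by
    refine sub_max ?_ ?_ ?_ (hqb _) ?_ ?_
    · exact (hP.mono hball).upperSemicontinuousOn
    · exact hq.continuousOn.upperSemicontinuousOn
    · exact fun L hL hLc => hPb L (hL.trans hball) hLc
    · exact fun a b hab => hPs a b fun ζ hζ => hball (hab ζ hζ)
    · exact fun a b _ => hqs a b fun ζ _ => mem_univ _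
  refine ⟨g, hgc, ?_, hg1, hg2⟩
  refine loc_glob hΩ hgc.upperSemicontinuousOn ?_ ?_
  · intro L hL hLc
    obtain ⟨M, hM⟩ := hPb L hL hLc
    exact ⟨M, fun z hz => (hM z hz).trans (hle z)⟩
  · intro a ha
    rcases hcov a with ha1 | ha1
    · obtain ⟨ρ, hρ, hdisc⟩ := EnvD_disc isOpen_ball ha1
      refine ⟨ρ, hρ, fun b hb => ?_⟩
      have h1 := hmax a b (hdisc b hb)
      have h2 : ∫ θ in (0 : ℝ)..(2 * Real.pi), g (a + Complex.exp (θ * Complex.I) • b)
          = ∫ θ in (0 : ℝ)..(2 * Real.pi), max (P (a + Complex.exp (θ * Complex.I) • b))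
            (q (a + Complex.exp (θ * Complex.I) • b)) := by
        refine intervalIntegral.integral_congr fun θ _ => ?_
        exact hg1 _ (hdisc b hb _ (EnvD_circ θ))
      rw [h2, hg1 a ha1]
      exact h1
    · obtain ⟨ρ, hρ, hdisc⟩ := EnvD_disc (hopen.inter hΩ) ⟨ha1, ha⟩
      refine ⟨ρ, hρ, fun b hb => ?_⟩
      have h1 := hPs a b fun ζ hζ => (hdisc b hb ζ hζ).2
      have h2 : ∫ θ in (0 : ℝ)..(2 * Real.pi), g (a + Complex.exp (θ * Complex.I) • b)
          = ∫ θ in (0 : ℝ)..(2 * Real.pi), P (a + Complex.exp (θ * Complex.I) • b) := by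
        refine intervalIntegral.integral_congr fun θ _ => ?_
        exact hg3 _ (hdisc b hb _ (EnvD_circ θ)).1
      rw [h2, hg3 a ha1]
      exact h1

theorem envP_det {n : ℕ} {u χ : Cn n → ℝ} (hu : C11 (ball 0 3) u) (hus : SubOn (ball 0 3) u)
    (hχ : ContDiff ℝ ∞ χ) (hχ0 : ∀ z, 0 ≤ χ z) (hχs : tsupport χ ⊆ ball 0 2) {t : ℝ}
    (ht : 0 < t) (hP : C11 (ball 0 3) (envP (ball 0 3) u (fun z => u z + t * χ z))) :
    ∀ᵐ z : Cn n, z ∈ ball (0 : Cn n) 3 →
      envP (ball 0 3) u (fun z => u z + t * χ z) z < u z + t * χ z →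
        mad (envP (ball 0 3) u (fun z => u z + t * χ z)) z = 0 := by
  have hΩ : IsOpen (ball (0 : Cn n) 3) := isOpen_ball
  have hfc : ContinuousOn (fun z => u z + t * χ z) (ball 0 3) :=
    hu.continuousOn.add (continuous_const.mul hχ.continuous).continuousOn
  have huf : ∀ z ∈ ball (0 : Cn n) 3, u z ≤ u z + t * χ z := fun z _ =>
    le_add_of_nonneg_right (mul_nonneg ht.le (hχ0 z))
  have hE := envP_mem hΩ hu.continuousOn hfc hus huf
  revert hP hE
  set f : Cn n → ℝ := fun z => u z + t * χ z with hf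
  set P := envP (ball 0 3) u f with hPdef
  intro hP hE
  filter_upwards [hP.ae_twD hΩ, (c11_sub_iff hΩ hP).1 hE.sub] with z₀ h1 h2 hz hlt
  by_contra hdet
  obtain ⟨lam, hlam, hpos⟩ := EnvD_pos (h1 hz) (h2 hz) hdet
  obtain ⟨r₁, hr₁, htay⟩ := EnvD_taylor (h1 hz) (ε := lam / 16) (by positivity)
  set δ : ℝ := (f z₀ - P z₀) / 2 with hδ
  have hδ0 : 0 < δ := by
    have : P z₀ < f z₀ := hlt
    rw [hδ]
    linarith
  have hgc : ContinuousAt (fun z => f z - P z) z₀ :=
    (hfc.continuousAt (hΩ.mem_nhds hz)).sub (hP.continuousOn.continuousAt (hΩ.mem_nhds hz))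
  have hev : ∀ᶠ w in 𝓝 z₀, w ∈ ball (0 : Cn n) 3 ∧ δ < f w - P w := by
    refine Filter.Eventually.and (hΩ.mem_nhds hz) ?_
    refine hgc.eventually (lt_mem_nhds ?_)
    rw [hδ]
    have : P z₀ < f z₀ := hlt
    linarith
  obtain ⟨r₂, hr₂, hgap⟩ := Metric.eventually_nhds_iff_ball.1 hev
  obtain ⟨r, hr, hrr₁, hrr₂, hrδ⟩ : ∃ r > 0, r < r₁ ∧ r < r₂ ∧ lam * r ^ 2 ≤ δ := by
    refine ⟨min (min (r₁ / 2) (r₂ / 2)) (min 1 (δ / lam)), by positivity, ?_, ?_, ?_⟩
    · exact lt_of_le_of_lt ((min_le_left _ _).trans (min_le_left _ _)) (by linarith)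
    · exact lt_of_le_of_lt ((min_le_left _ _).trans (min_le_right _ _)) (by linarith)
    · set r := min (min (r₁ / 2) (r₂ / 2)) (min 1 (δ / lam)) with hrdef
      have hr0 : 0 ≤ r := by positivity
      have hr1 : r ≤ 1 := (min_le_right _ _).trans (min_le_left _ _)
      have hr2 : r ≤ δ / lam := (min_le_right _ _).trans (min_le_right _ _)
      have hr3 : r ^ 2 ≤ r := by nlinarith
      calc lam * r ^ 2 ≤ lam * (δ / lam) := by gcongr; exact hr3.trans hr2
        _ = δ := by field_simp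
  -- the quadratic function
  set S : Cn n →L[ℝ] Cn n →L[ℝ] ℝ := hes P z₀ -
    lam • (isBoundedBilinearMap_inner (𝕜 := ℝ) (E := Cn n)).toContinuousLinearMap with hS
  have hSa : ∀ a b, S a b = hes P z₀ a b - lam * inner ℝ a b := fun a b => by
    rw [hS]
    rfl
  have hSs : ∀ a b, S a b = S b a := by
    intro a b
    rw [hSa, hSa, (h1 hz).symm a b, real_inner_comm]
  have hSn : ∀ a, S a a = hes P z₀ a a - lam * ‖a‖ ^ 2 := by
    intro a
    rw [hSa, real_inner_self_eq_norm_sq]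
  obtain ⟨hqsm, -, hqlev⟩ := EnvD_quad S hSs (fderiv ℝ P z₀) (P z₀ + lam / 4 * r ^ 2) z₀
  set q : Cn n → ℝ := fun z => P z₀ + lam / 4 * r ^ 2 + fderiv ℝ P z₀ (z - z₀) +
    1 / 2 * S (z - z₀) (z - z₀) with hq
  have hqs : SubOn univ q := by
    refine smooth_sub isOpen_univ hqsm.contDiffOn fun z _ ξ => ?_
    rw [hqlev, hSn, hSn, norm_smul, Complex.norm_I, one_mul]
    have h3 := hpos ξ
    nlinarith [mul_nonneg hlam.le (sq_nonneg ‖ξ‖)]
  have hqP : ∀ w ∈ ball z₀ r, q w ≤ P w + lam / 16 * ‖w - z₀‖ ^ 2 - lam / 2 * ‖w - z₀‖ ^ 2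
      + lam / 4 * r ^ 2 := by
    intro w hw
    have hw1 : w ∈ ball z₀ r₁ := ball_subset_ball hrr₁.le hw
    have h3 := (abs_le.1 (htay w hw1)).1
    rw [hq]
    beta_reduce
    rw [hSn]
    linarith
  have hann : ∀ w ∈ ball z₀ r, 7 / 8 * r ≤ ‖w - z₀‖ → q w ≤ P w := by
    intro w hw hw2
    have h3 := hqP w hw
    have h4 : (7 / 8 * r) ^ 2 ≤ ‖w - z₀‖ ^ 2 := by gcongr
    have h5 := mul_le_mul_of_nonneg_left h4 hlam.le
    have h6 : 0 ≤ lam * r ^ 2 := by positivity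
    nlinarith
  have hball : ball z₀ r ⊆ ball (0 : Cn n) 3 := fun w hw =>
    (hgap w (ball_subset_ball hrr₂.le hw)).1
  obtain ⟨g, hgc, hgs, hg1, hg2⟩ := EnvD_glue hΩ hr hball hP.continuousOn hE.sub
    hqsm.continuous hqs hann
  have hEg : EnvF (ball 0 3) u f g := by
    refine ⟨hgc.upperSemicontinuousOn, hgs, fun w hw => ?_, fun w hw => ?_⟩
    · by_cases hwr : w ∈ ball z₀ r
      · rw [hg1 w hwr]
        refine max_le (hE.le w hw) ?_
        have h3 := hqP w hwr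
        have h4 := (hgap w (ball_subset_ball hrr₂.le hwr)).2
        have h5 : 0 ≤ lam * ‖w - z₀‖ ^ 2 := by positivity
        have h6 : 0 ≤ lam * r ^ 2 := by positivity
        nlinarith
      · rw [hg2 w hwr]
        exact hE.le w hw
    · by_cases hwr : w ∈ ball z₀ r
      · rw [hg1 w hwr]
        exact (hE.ge w hw).trans (le_max_left _ _)
      · rw [hg2 w hwr]
        exact hE.ge w hw
  have h3 := le_envP hEg hz
  rw [hg1 z₀ (mem_ball_self hr)] at h3
  have h4 : q z₀ ≤ P z₀ := (le_max_right _ _).trans h3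
  have h5 : q z₀ = P z₀ + lam / 4 * r ^ 2 := by
    rw [hq]
    simp
  have h6 : 0 < lam / 4 * r ^ 2 := by positivity
  linarith

end HMA

end S_KM_EnvD

section S_KM_Env

/-! # Module Env: the envelope (assembly) -/

open MeasureTheory Metric Set
open scoped ENNReal Topology ContDiff ComplexOrder

namespace HMA

theorem env_union {n : ℕ} {Ω₁ Ω₂ : Set (Cn n)} (h1 : IsOpen Ω₁) (h2 : IsOpen Ω₂) {u : Cn n → ℝ}
    (hu1 : C11 Ω₁ u) (hu2 : C11 Ω₂ u) : C11 (Ω₁ ∪ Ω₂) u := by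
  refine c11_of_local (h1.union h2) ?_
  have key : ∀ Ω : Set (Cn n), IsOpen Ω → C11 Ω u → ∀ z ∈ Ω, ∃ r > 0, ∃ C : NNReal,
      ball z r ⊆ Ω ∧ (∀ w ∈ ball z r, DifferentiableAt ℝ u w) ∧
        LipschitzOnWith C (fderiv ℝ u) (ball z r) := by
    intro Ω hΩ hu z hz
    obtain ⟨R, hR, hRΩ⟩ := Metric.isOpen_iff.1 hΩ z hz
    have hL : closedBall z (R / 2) ⊆ Ω := (closedBall_subset_ball (by linarith)).trans hRΩ
    obtain ⟨C, hC⟩ := hu.lip _ (isCompact_closedBall z (R / 2)) hL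
    exact ⟨R / 2, by positivity, C, ball_subset_closedBall.trans hL,
      fun w hw => hu.diff w (hL (ball_subset_closedBall hw)), hC.mono ball_subset_closedBall⟩
  rintro z (hz | hz)
  · obtain ⟨r, hr, C, h3, h4, h5⟩ := key Ω₁ h1 hu1 z hz
    exact ⟨r, hr, C, h3.trans subset_union_left, h4, h5⟩
  · obtain ⟨r, hr, C, h3, h4, h5⟩ := key Ω₂ h2 hu2 z hz
    exact ⟨r, hr, C, h3.trans subset_union_right, h4, h5⟩

theorem envelope {n : ℕ} {u χ : Cn n → ℝ} (hu : C11 (ball 0 3) u) (hus : SubOn (ball 0 3) u)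
    (hχ : ContDiff ℝ ∞ χ) (hχ0 : ∀ z, 0 ≤ χ z) (hχs : tsupport χ ⊆ ball 0 2) {t : ℝ}
    (ht : 0 < t) : ∃ P : Cn n → ℝ, C11 (ball 0 3) P ∧ SubOn (ball 0 3) P ∧
      (∀ z, u z ≤ P z ∧ P z ≤ u z + t * χ z) ∧
      ∀ᵐ z : Cn n, z ∈ ball (0 : Cn n) 3 → P z < u z + t * χ z → mad P z = 0 := by
  classical
  set f : Cn n → ℝ := fun z => u z + t * χ z with hf
  have huc : ContinuousOn u (ball 0 3) := hu.continuousOn
  have hfc : ContinuousOn f (ball 0 3) :=
    huc.add (continuous_const.mul hχ.continuous).continuousOn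
  have huf : ∀ z, u z ≤ f z := fun z => by
    have : 0 ≤ t * χ z := mul_nonneg ht.le (hχ0 z)
    simp only [hf]
    linarith
  have hE : EnvF (ball 0 3) u f (envP (ball 0 3) u f) :=
    envP_mem isOpen_ball huc hfc hus (fun z _ => huf z)
  set P₀ : Cn n → ℝ := envP (ball 0 3) u f with hP₀
  obtain ⟨C, hC0, hC⟩ := envP_semi hu hus hχ hχ0 hχs ht
  have hb : ∀ L ⊆ ball (0 : Cn n) 3, IsCompact L → ∃ M : ℝ, ∀ z ∈ L, |P₀ z| ≤ M := by
    intro L hL hLc
    obtain ⟨M1, hM1⟩ := hLc.exists_bound_of_continuousOn (huc.mono hL)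
    obtain ⟨M2, hM2⟩ := hLc.exists_bound_of_continuousOn (hfc.mono hL)
    refine ⟨max M1 M2, fun z hz => abs_le.2 ⟨?_, ?_⟩⟩
    · have h1 := (abs_le.1 (hM1 z hz)).1
      have h2 := le_max_left M1 M2
      have h3 := hE.ge z (hL hz)
      linarith
    · have h1 := (abs_le.1 (hM2 z hz)).2
      have h2 := le_max_right M1 M2
      have h3 := hE.le z (hL hz)
      linarith
  have hc1 : C11 (ball 0 (14 / 5)) P₀ :=
    c11_of_semi (R := 3) (R' := 14 / 5) (δ := 1 / 10) (C := C) (by norm_num) (by norm_num)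
      (by norm_num) hE.usc hb hE.sub hC
  have hχz : ∀ z, z ∉ ball (0 : Cn n) 2 → χ z = 0 := fun z hz =>
    image_eq_zero_of_notMem_tsupport fun h => hz (hχs h)
  have hopen : IsOpen (ball (0 : Cn n) 3 \ closedBall 0 2) :=
    isOpen_ball.sdiff isClosed_closedBall
  have hc2 : C11 (ball (0 : Cn n) 3 \ closedBall 0 2) P₀ := by
    refine (hu.mono Set.sdiff_subset).congr hopen ?_
    intro z hz
    have h1 := hE.ge z hz.1
    have h2 := hE.le z hz.1
    have h3 : χ z = 0 := hχz z fun h => hz.2 (ball_subset_closedBall h)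
    simp only [hf, h3, mul_zero, add_zero] at h2
    exact le_antisymm h2 h1
  have hc3 : C11 (ball (0 : Cn n) 3) P₀ := by
    have h1 := env_union isOpen_ball hopen hc1 hc2
    refine h1.mono ?_
    intro z hz
    by_cases h : z ∈ ball (0 : Cn n) (14 / 5)
    · exact Or.inl h
    · refine Or.inr ⟨hz, fun h2 => h ?_⟩
      rw [mem_ball]
      rw [mem_closedBall] at h2
      linarith
  have hdet := envP_det hu hus hχ hχ0 hχs ht hc3
  refine ⟨fun z => if z ∈ ball (0 : Cn n) 3 then P₀ z else u z, ?_, ?_, ?_, ?_⟩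
  · refine hc3.congr isOpen_ball ?_
    intro z hz
    simp only [if_pos hz]
  · intro a b hab
    have h0 : a ∈ ball (0 : Cn n) 3 := by simpa using hab 0 (by simp)
    simp only [if_pos h0]
    refine (hE.sub a b hab).trans (le_of_eq ?_)
    congr 1
    refine intervalIntegral.integral_congr fun θ _ => ?_
    have h1 := hab _ (Complex.norm_exp_ofReal_mul_I θ).le
    simp only [if_pos h1]
  · intro z
    by_cases hz : z ∈ ball (0 : Cn n) 3
    · simp only [if_pos hz]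
      exact ⟨hE.ge z hz, hE.le z hz⟩
    · simp only [if_neg hz]
      exact ⟨le_rfl, huf z⟩
  · filter_upwards [hdet] with z hz hzB hlt
    simp only [if_pos hzB] at hlt
    have h1 := hz hzB hlt
    have h2 : (fun z => if z ∈ ball (0 : Cn n) 3 then P₀ z else u z) =ᶠ[𝓝 z] P₀ := by
      filter_upwards [isOpen_ball.mem_nhds hzB] with w hw
      simp only [if_pos hw]
    unfold mad at h1 ⊢
    rw [LM_congr h2]
    exact h1

end HMA

end S_KM_Env

section S_KM_CLN

/-! # Module CLN: Chern-Levine-Nirenberg inequality -/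

open MeasureTheory Metric Set
open scoped ENNReal Topology ContDiff ComplexOrder

namespace HMA

theorem CLN_smooth {n : ℕ} (c : ℝ) : ContDiff ℝ ∞ (fun z : Cn n => ‖z‖ ^ 2 + c) :=
  (contDiff_norm_sq ℂ).add contDiff_const

theorem CLN_line {n : ℕ} (w η : Cn n) (t : ℝ) :
    ‖w + t • η‖ ^ 2 = ‖w‖ ^ 2 + 2 * t * (inner ℂ w η).re + t ^ 2 * ‖η‖ ^ 2 := by
  have h1 : w + t • η = w + (t : ℂ) • η := by
    rw [← Complex.coe_smul]
  rw [h1, norm_add_sq (𝕜 := ℂ), inner_smul_right, norm_smul, mul_pow]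
  simp only [RCLike.re_eq_complex_re, Complex.re_ofReal_mul, Complex.norm_real, Real.norm_eq_abs,
    sq_abs]
  ring

theorem CLN_fderiv {n : ℕ} (c : ℝ) (w η : Cn n) :
    fderiv ℝ (fun z : Cn n => ‖z‖ ^ 2 + c) w η = 2 * (inner ℂ w η).re := by
  have hd : DifferentiableAt ℝ (fun z : Cn n => ‖z‖ ^ 2 + c) w :=
    (CLN_smooth c).differentiable (by simp) w
  rw [← hd.lineDeriv_eq_fderiv]
  unfold lineDeriv
  have h1 : (fun t : ℝ => ‖w + t • η‖ ^ 2 + c) = fun t : ℝ =>
      (‖w‖ ^ 2 + 2 * t * (inner ℂ w η).re + t ^ 2 * ‖η‖ ^ 2) + c := by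
    funext t
    rw [CLN_line]
  rw [h1]
  have h2 : HasDerivAt (fun t : ℝ => (‖w‖ ^ 2 + 2 * t * (inner ℂ w η).re +
      t ^ 2 * ‖η‖ ^ 2) + c) (2 * (inner ℂ w η).re) 0 := by
    have a1 : HasDerivAt (fun t : ℝ => 2 * t * (inner ℂ w η).re)
        (2 * (inner ℂ w η).re) 0 := by
      have := ((hasDerivAt_id (0 : ℝ)).const_mul 2).mul_const ((inner ℂ w η).re)
      simpa using this
    have a2 : HasDerivAt (fun t : ℝ => t ^ 2 * ‖η‖ ^ 2) 0 0 := by
      have := (hasDerivAt_pow 2 (0 : ℝ)).mul_const (‖η‖ ^ 2)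
      simpa using this
    have a3 := ((a1.const_add (‖w‖ ^ 2)).add a2).add_const c
    simpa using a3
  exact h2.deriv

theorem CLN_fderiv_diff {n : ℕ} (c : ℝ) (z : Cn n) :
    DifferentiableAt ℝ (fderiv ℝ (fun z : Cn n => ‖z‖ ^ 2 + c)) z := by
  have h : ContDiff ℝ 1 (fderiv ℝ (fun z : Cn n => ‖z‖ ^ 2 + c)) :=
    (CLN_smooth c).fderiv_right (by norm_cast)
  exact h.differentiable (by simp) z

theorem CLN_twD {n : ℕ} (c : ℝ) (z : Cn n) : TwD (fun z : Cn n => ‖z‖ ^ 2 + c) z :=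
  ⟨Filter.Eventually.of_forall fun w => (CLN_smooth c).differentiable (by simp) w,
    CLN_fderiv_diff c z⟩

theorem CLN_hes {n : ℕ} (c : ℝ) (z a b : Cn n) :
    hes (fun z : Cn n => ‖z‖ ^ 2 + c) z a b = 2 * (inner ℂ a b).re := by
  unfold hes
  have h1 : fderiv ℝ (fderiv ℝ (fun z : Cn n => ‖z‖ ^ 2 + c)) z a b =
      fderiv ℝ (fun w => fderiv ℝ (fun z : Cn n => ‖z‖ ^ 2 + c) w b) z a := by
    rw [fderiv_clm_apply (CLN_fderiv_diff c z) (differentiableAt_const b)]
    simp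
  rw [h1]
  have h2 : (fun w => fderiv ℝ (fun z : Cn n => ‖z‖ ^ 2 + c) w b) = fun w =>
      2 * (inner ℂ w b).re := by
    funext w
    rw [CLN_fderiv]
  rw [h2]
  let L : Cn n →ₗ[ℝ] ℝ :=
    { toFun := fun w => 2 * (inner ℂ w b).re
      map_add' := fun x y => by
        rw [inner_add_left, Complex.add_re]; ring
      map_smul' := fun t x => by
        have : t • x = (t : ℂ) • x := by rw [← Complex.coe_smul]
        rw [this, inner_smul_left, Complex.conj_ofReal, Complex.re_ofReal_mul]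
        simp only [RingHom.id_apply, smul_eq_mul]
        ring }
  have h3 : (fun w : Cn n => 2 * (inner ℂ w b).re) = (LinearMap.toContinuousLinearMap L) := rfl
  rw [h3, ContinuousLinearMap.fderiv]
  rfl

theorem CLN_LM {n : ℕ} (c : ℝ) (z : Cn n) : LM (fun z : Cn n => ‖z‖ ^ 2 + c) z = 1 := by
  ext j k
  unfold LM
  rw [CLN_hes, CLN_hes, CLN_hes, CLN_hes]
  unfold bv
  simp only [inner_smul_left, inner_smul_right, EuclideanSpace.inner_single_left]
  by_cases hjk : j = k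
  · subst hjk
    simp
    norm_num
  · rw [Matrix.one_apply_ne hjk]
    simp [hjk]

theorem cln (n : ℕ) : ∃ C : ℝ, 0 < C ∧ ∀ (u : Cn n → ℝ) (M : ℝ), 1 ≤ M →
    C11 (ball 0 (5 / 2)) u → SubOn (ball 0 (5 / 2)) u → (∀ z ∈ ball (0 : Cn n) (5 / 2), |u z| ≤ M) →
      ∫⁻ z in ball (0 : Cn n) 2, ENNReal.ofReal (((LM u z).adjugate.trace).re) ≤
        ENNReal.ofReal (C * M ^ n) := by
  set V : ℝ := (volume (closedBall (0 : Cn n) (12 / 5))).toReal with hV
  have hVfin : volume (closedBall (0 : Cn n) (12 / 5)) ≠ ⊤ := measure_closedBall_lt_top.ne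
  refine ⟨9 ^ n * (V + 1), by positivity, ?_⟩
  intro u M hM hu hus hub
  have hΩ : IsOpen (ball (0 : Cn n) (5 / 2)) := isOpen_ball
  set a : ℝ := 2 * M + 7 with ha
  have ha0 : 0 < a := by linarith
  set q : Cn n → ℝ := fun z => ‖z‖ ^ 2 + (-(M + 25 / 4)) with hq
  set w : Cn n → ℝ := fun z => a⁻¹ * (u z + q z) with hw
  set g : Cn n → ℝ := fun z => ‖z‖ ^ 2 + (-(11 / 2)) with hg
  have hqC : C11 (ball 0 (5 / 2)) q :=
    c11_of_contDiffOn hΩ ((CLN_smooth _).of_le (by norm_cast)).contDiffOn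
  have hgC : C11 (ball 0 (5 / 2)) g :=
    c11_of_contDiffOn hΩ ((CLN_smooth _).of_le (by norm_cast)).contDiffOn
  have hwC : C11 (ball 0 (5 / 2)) w := (hu.add hΩ hqC).const_mul hΩ a⁻¹
  have hone : (1 : Matrix (Fin n) (Fin n) ℂ).PosSemidef := Matrix.PosSemidef.one
  have hpsd := (c11_sub_iff hΩ hu).1 hus
  have htw := hu.ae_twD hΩ
  have hLMw : ∀ z, TwD u z → LM w z = ((a⁻¹ : ℝ) : ℂ) • (LM u z + 1) := by
    intro z hz
    have h1 := hz.add (CLN_twD (-(M + 25 / 4)) z)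
    have h2 := h1.1.const_mul a⁻¹
    rw [hw, hq]
    rw [h2.2, h1.2, CLN_LM]
  have hwS : SubOn (ball 0 (5 / 2)) w := by
    rw [c11_sub_iff hΩ hwC]
    filter_upwards [hpsd, htw] with z h1 h2 hz
    rw [hLMw z (h2 hz)]
    exact mat_smul_psd ((h1 hz).add hone) (by positivity)
  have hgS : SubOn (ball 0 (5 / 2)) g := by
    rw [c11_sub_iff hΩ hgC]
    refine Filter.Eventually.of_forall fun z _ => ?_
    rw [hg, CLN_LM]
    exact hone
  have hw1 : ∀ z ∈ ball (0 : Cn n) (5 / 2), -1 ≤ w z ∧ w z ≤ 0 := by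
    intro z hz
    have h1 := abs_le.1 (hub z hz)
    rw [mem_ball_zero_iff] at hz
    have h2 : ‖z‖ ^ 2 ≤ 25 / 4 := by nlinarith [norm_nonneg z]
    have h3 : 0 ≤ ‖z‖ ^ 2 := by positivity
    constructor
    · have h4 : -a ≤ u z + q z := by
        rw [hq, ha]; simp only; linarith
      have h5 : a⁻¹ * (-a) ≤ a⁻¹ * (u z + q z) :=
        mul_le_mul_of_nonneg_left h4 (by positivity)
      have h6 : a⁻¹ * (-a) = -1 := by field_simp
      rw [h6] at h5
      exact h5
    · have h4 : u z + q z ≤ 0 := by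
        rw [hq]; simp only; linarith
      exact mul_nonpos_of_nonneg_of_nonpos (by positivity) h4
  have hcp := cp hΩ hwC hgC hwS hgS (isCompact_closedBall (0 : Cn n) (12 / 5))
    (closedBall_subset_ball (by norm_num)) (η := 1 / 10) (by norm_num) (by
      intro z hz hzL
      rw [mem_closedBall_zero_iff, not_le] at hzL
      have h1 := (hw1 z hz).2
      have h2 : (144 : ℝ) / 25 ≤ ‖z‖ ^ 2 := by nlinarith
      have h3 : g z = ‖z‖ ^ 2 + (-(11 / 2)) := rfl
      rw [h3]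
      linarith)
  have hmg : ∀ z, mad g z = 1 := by
    intro z
    unfold mad
    rw [hg, CLN_LM, Matrix.det_one, Complex.one_re]
  have hR : ∫⁻ z in closedBall (0 : Cn n) (12 / 5), ENNReal.ofReal (mad g z) =
      volume (closedBall (0 : Cn n) (12 / 5)) := by
    simp only [hmg, ENNReal.ofReal_one, setLIntegral_one]
  rw [hR] at hcp
  have hsub : ball (0 : Cn n) 2 ⊆ {z | z ∈ ball (0 : Cn n) (5 / 2) ∧ g z + 1 / 10 < w z} := by
    intro z hz
    have hz2 : z ∈ ball (0 : Cn n) (5 / 2) := ball_subset_ball (by norm_num) hz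
    refine ⟨hz2, ?_⟩
    have h1 := (hw1 z hz2).1
    rw [mem_ball_zero_iff] at hz
    have h2 : ‖z‖ ^ 2 ≤ 4 := by nlinarith [norm_nonneg z]
    have h3 : g z = ‖z‖ ^ 2 + (-(11 / 2)) := rfl
    rw [h3]
    linarith
  have hmw : ∀ z, TwD u z → (LM u z + 1).det.re = a ^ n * mad w z := by
    intro z hz
    unfold mad
    rw [hLMw z hz, Matrix.det_smul, Fintype.card_fin, ← Complex.ofReal_pow, Complex.re_ofReal_mul,
      ← mul_assoc, ← mul_pow, mul_inv_cancel₀ ha0.ne', one_pow, one_mul]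
  calc ∫⁻ z in ball (0 : Cn n) 2, ENNReal.ofReal (((LM u z).adjugate.trace).re)
      ≤ ∫⁻ z in ball (0 : Cn n) 2, ENNReal.ofReal (a ^ n) * ENNReal.ofReal (mad w z) := by
        apply setLIntegral_mono_ae' measurableSet_ball
        filter_upwards [hpsd, htw] with z h1 h2 hz
        have hz2 : z ∈ ball (0 : Cn n) (5 / 2) := ball_subset_ball (by norm_num) hz
        rw [← ENNReal.ofReal_mul (by positivity), ← hmw z (h2 hz2)]
        exact ENNReal.ofReal_le_ofReal (mat_trace_adj_le (h1 hz2)).2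
    _ = ENNReal.ofReal (a ^ n) * ∫⁻ z in ball (0 : Cn n) 2, ENNReal.ofReal (mad w z) :=
        lintegral_const_mul' _ _ ENNReal.ofReal_ne_top
    _ ≤ ENNReal.ofReal (a ^ n) * volume (closedBall (0 : Cn n) (12 / 5)) := by
        gcongr
        exact (lintegral_mono_set hsub).trans hcp
    _ = ENNReal.ofReal (a ^ n * V) := by
        rw [ENNReal.ofReal_mul (by positivity), hV, ENNReal.ofReal_toReal hVfin]
    _ ≤ ENNReal.ofReal (9 ^ n * (V + 1) * M ^ n) := by
        apply ENNReal.ofReal_le_ofReal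
        have h1 : a ^ n ≤ (9 * M) ^ n := pow_le_pow_left₀ ha0.le (by rw [ha]; linarith) n
        have h2 : 0 ≤ V := ENNReal.toReal_nonneg
        calc a ^ n * V ≤ (9 * M) ^ n * (V + 1) := by
              apply mul_le_mul h1 (by linarith) h2 (by positivity)
          _ = 9 ^ n * (V + 1) * M ^ n := by rw [mul_pow]; ring

end HMA

end S_KM_CLN

section S_KM_XLoc

/-! # Module XLoc: local modifications -/

open MeasureTheory Metric Set
open scoped ENNReal Topology ContDiff ComplexOrder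

namespace HMA

variable {n : ℕ} {X : Type} [TopologicalSpace X] (K : KM n X)

variable [MeasurableSpace X] [BorelSpace X] [T2Space X] [CompactSpace X] {ψ : X → ℝ}

omit [TopologicalSpace X] [MeasurableSpace X] [BorelSpace X] [T2Space X] [CompactSpace X] in
theorem xLoc_sub_congr {Ω Ω' : Set (Cn n)} {u v : Cn n → ℝ} (hu : SubOn Ω u) (h : Ω' ⊆ Ω)
    (he : ∀ z ∈ Ω', v z = u z) : SubOn Ω' v := by
  intro a c hac
  have h1 := hu a c (fun ζ hζ => h (hac ζ hζ))
  have ha : a ∈ Ω' := by simpa using hac 0 (by simp)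
  rw [he a ha]
  refine h1.trans (le_of_eq ?_)
  congr 1
  refine intervalIntegral.integral_congr (fun θ _ => ?_)
  exact (he _ (hac _ (by rw [Complex.norm_exp_ofReal_mul_I]))).symm

/-- integrability of `v RM ψ` -/
theorem KM.xLoc_int {v : X → ℝ} (hψ : C11X K ψ) (hv : C11X K v) :
    Integrable (fun x => v x * K.RM ψ x) K.vol := by
  obtain ⟨C, hC0, hC⟩ := K.RM_bdd hψ hψ
  have hRM : ∀ x, |K.RM ψ x| ≤ C := by
    intro x
    have h1 := hC 1 0 (by simp) (by simp) x
    have h2 : (fun y => 1 * ψ y + 0 * ψ y) = ψ := by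
      funext y
      ring
    rw [h2] at h1
    exact h1
  have hfin : IsFiniteMeasure K.vol := K.vol_finite
  obtain ⟨B, hB⟩ := isCompact_univ.exists_bound_of_continuousOn (C11X.continuous K hv).continuousOn
  refine Integrable.of_bound
    ((C11X.continuous K hv).aestronglyMeasurable.mul (K.RM_meas hψ)) (B * C) ?_
  refine Filter.Eventually.of_forall (fun x => ?_)
  rw [norm_mul]
  have h3 := hB x (mem_univ x)
  exact mul_le_mul h3 (hRM x) (abs_nonneg _) ((norm_nonneg _).trans h3)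

/-- the integral of `b (ω + dd^c ψ)^n` in the chart -/
theorem KM.xLoc_chart (hψ : C11X K ψ) (i : Fin K.N) {b : Cn n → ℝ} (hb : C11X K (K.ext i b)) :
    IntegrableOn (fun z => b z * mad (fun y => K.ρ i y + ψ (K.κ i y)) z) (ball 0 3) ∧
    ∫ x, K.ext i b x * K.RM ψ x ∂K.vol =
      ∫ z in ball 0 3, b z * mad (fun y => K.ρ i y + ψ (K.κ i y)) z := by
  obtain ⟨h1, h2⟩ := K.integral_chart i (K.xLoc_int hψ hb)
    (fun x hx => by rw [K.ext_off i b hx, zero_mul])
  have h3 : ∀ᵐ z : Cn n, z ∈ ball (0 : Cn n) 3 →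
      K.ext i b (K.κ i z) * K.RM ψ (K.κ i z) * mad (K.ρ i) z =
        b z * mad (fun y => K.ρ i y + ψ (K.κ i y)) z := by
    filter_upwards [K.RM_chart hψ i] with z hz hz3
    rw [K.ext_κ i b hz3, hz hz3]
    have h4 := (K.mad_ρ_pos i hz3).2.2
    field_simp
  constructor
  · refine (integrableOn_congr_fun_ae ?_).1 h1
    rw [Filter.EventuallyEq, ae_restrict_iff' measurableSet_ball]
    exact h3
  · rw [h2]
    exact setIntegral_congr_ae measurableSet_ball h3

/-- the modified function in the chart -/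
theorem KM.xLoc_mod (i : Fin K.N) {g : Cn n → ℝ} {z : Cn n} (hz : z ∈ ball (0 : Cn n) 3) :
    mad (fun y => K.ρ i y + (ψ (K.κ i y) + K.ext i g (K.κ i y))) z =
      mad (fun y => (K.ρ i y + ψ (K.κ i y)) + g y) z := by
  unfold mad
  rw [LM_congr (z := z) (u := fun y => K.ρ i y + (ψ (K.κ i y) + K.ext i g (K.κ i y)))
    (v := fun y => (K.ρ i y + ψ (K.κ i y)) + g y)]
  filter_upwards [isOpen_ball.mem_nhds hz] with y hy
  rw [K.ext_κ i g hy]
  ring

theorem xLoc_supp {b g : Cn n → ℝ} {t : ℝ} (hg : ∀ z, 0 ≤ g z ∧ g z ≤ t * b z) :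
    ∀ z, z ∉ tsupport b → g z = 0 := by
  intro z hz
  have h1 := hg z
  rw [image_eq_zero_of_notMem_tsupport hz, mul_zero] at h1
  linarith

theorem xLoc_compact {b : Cn n → ℝ} (hbs : tsupport b ⊆ ball 0 2) : IsCompact (tsupport b) :=
  (isCompact_closedBall (0 : Cn n) 2).of_isClosed_subset (isClosed_tsupport b)
    (hbs.trans ball_subset_closedBall)

theorem xLoc_c11 {b : Cn n → ℝ} (hb : ContDiff ℝ ∞ b) (Ω : Set (Cn n)) (hΩ : IsOpen Ω) :
    C11 Ω b := by
  refine c11_of_contDiffOn hΩ ?_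
  exact (show ContDiff ℝ 2 b from by exact_mod_cast contDiff_infty.1 hb 2).contDiffOn

theorem KM.xLoc_wk (hψ : WK K ψ) (i : Fin K.N) {P g : Cn n → ℝ} {L : Set (Cn n)}
    (hL : IsCompact L) (hL3 : L ⊆ ball 0 3) (hg : C11 (ball 0 3) g) (h0 : ∀ z, z ∉ L → g z = 0)
    (hP : SubOn (ball 0 3) P) (hgP : ∀ z, g z = P z - (K.ρ i z + ψ (K.κ i z))) :
    WK K (fun x => ψ x + K.ext i g x) := by
  have hc : C11X K (fun x => ψ x + K.ext i g x) :=
    C11X.add K hψ.c11 (c11X_ext K i hg hL hL3 h0)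
  refine wk_of_local K hc (fun x => ?_)
  by_cases hx : x ∈ K.κ i '' ball 0 3
  · obtain ⟨z, hz, rfl⟩ := hx
    obtain ⟨r, hr, hr3⟩ := Metric.isOpen_iff.1 (isOpen_ball (x := (0 : Cn n)) (ε := 3)) z hz
    refine ⟨i, z, r, hr, hr3, rfl, ?_⟩
    refine xLoc_sub_congr hP hr3 (fun y hy => ?_)
    show K.ρ i y + (ψ (K.κ i y) + K.ext i g (K.κ i y)) = P y
    rw [K.ext_κ i g (hr3 hy), hgP y]
    ring
  · obtain ⟨j, z, hz, rfl⟩ := K.cover x
    have hz3 : z ∈ ball (0 : Cn n) 3 := ball_subset_ball (by norm_num) hz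
    have hcl : IsClosed (K.κ i '' L) := (K.compact_image i hL hL3).isClosed
    have hopen : IsOpen (ball (0 : Cn n) 3 ∩ K.κ j ⁻¹' (K.κ i '' L)ᶜ) :=
      (K.cont j).isOpen_inter_preimage isOpen_ball hcl.isOpen_compl
    have hzmem : z ∈ ball (0 : Cn n) 3 ∩ K.κ j ⁻¹' (K.κ i '' L)ᶜ := by
      refine ⟨hz3, fun h => hx ?_⟩
      exact image_mono hL3 h
    obtain ⟨r, hr, hr3⟩ := Metric.isOpen_iff.1 hopen z hzmem
    refine ⟨j, z, r, hr, hr3.trans inter_subset_left, rfl, ?_⟩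
    refine xLoc_sub_congr (hψ.sub j) (hr3.trans inter_subset_left) (fun y hy => ?_)
    show K.ρ j y + (ψ (K.κ j y) + K.ext i g (K.κ j y)) = K.ρ j y + ψ (K.κ j y)
    have h1 : K.ext i g (K.κ j y) = 0 := by
      by_cases h2 : K.κ j y ∈ K.κ i '' ball 0 3
      · obtain ⟨y', hy', hyy⟩ := h2
        rw [← hyy, K.ext_κ i g hy']
        refine h0 y' (fun hy'L => (hr3 hy).2 ?_)
        exact ⟨y', hy'L, hyy⟩
      · exact K.ext_off i g h2
    rw [h1, add_zero]

/-- modification of `ψ` in the chart `i` by the envelope with obstacle `ψ + t b` -/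
theorem KM.loc_mod (hψ : WK K ψ) (i : Fin K.N) {b : Cn n → ℝ} (hb : ContDiff ℝ ∞ b)
    (hb0 : ∀ z, 0 ≤ b z) (hbs : tsupport b ⊆ ball 0 2) {t : ℝ} (ht : 0 < t) :
    ∃ g : Cn n → ℝ, C11 (ball 0 3) g ∧ (∀ z, 0 ≤ g z ∧ g z ≤ t * b z) ∧
      WK K (fun x => ψ x + K.ext i g x) ∧
      ∫ x, K.ext i g x * K.RM (fun y => ψ y + K.ext i g y) x ∂K.vol =
        t * ∫ x, K.ext i b x * K.RM (fun y => ψ y + K.ext i g y) x ∂K.vol := by
  have hu0 : C11 (ball 0 3) (fun z => K.ρ i z + ψ (K.κ i z)) :=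
    C11.add isOpen_ball (K.ρ_c11 i) (hψ.c11 i)
  obtain ⟨P, hP1, hP2, hP3, hP4⟩ := envelope hu0 (hψ.sub i) hb hb0 hbs ht
  have hL := xLoc_compact hbs
  have hL3 : tsupport b ⊆ ball 0 3 := hbs.trans (ball_subset_ball (by norm_num))
  let g : Cn n → ℝ := fun z => P z + (-1) * (K.ρ i z + ψ (K.κ i z))
  have hgdef : ∀ z, g z = P z + (-1) * (K.ρ i z + ψ (K.κ i z)) := fun z => rfl
  have hg : C11 (ball 0 3) g := C11.add isOpen_ball hP1 (C11.const_mul isOpen_ball hu0 (-1))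
  have hgb : ∀ z, 0 ≤ g z ∧ g z ≤ t * b z := by
    intro z
    have h1 := hP3 z
    rw [hgdef]
    constructor <;> linarith [h1.1, h1.2]
  have h0 := xLoc_supp hgb
  have hWK : WK K (fun x => ψ x + K.ext i g x) :=
    K.xLoc_wk hψ i hL hL3 hg h0 hP2 (fun z => by rw [hgdef]; ring)
  refine ⟨g, hg, hgb, hWK, ?_⟩
  have hextg : C11X K (K.ext i g) := c11X_ext K i hg hL hL3 h0
  have hextb : C11X K (K.ext i b) := c11X_ext K i (xLoc_c11 hb _ isOpen_ball) hL hL3
    (fun z hz => image_eq_zero_of_notMem_tsupport hz)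
  rw [(K.xLoc_chart hWK.c11 i hextg).2, (K.xLoc_chart hWK.c11 i hextb).2, ← integral_const_mul]
  refine setIntegral_congr_ae measurableSet_ball ?_
  filter_upwards [hP4] with z hz hz3
  rw [K.xLoc_mod i hz3]
  have h5 : (fun y => (K.ρ i y + ψ (K.κ i y)) + g y) = P := by
    funext y
    rw [hgdef]
    ring
  rw [h5]
  rcases lt_or_ge (P z) (K.ρ i z + ψ (K.κ i z) + t * b z) with h6 | h6
  · rw [hz hz3 h6]
    ring
  · have h7 : g z = t * b z := by
      refine le_antisymm (hgb z).2 ?_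
      rw [hgdef]
      linarith
    rw [h7]
    ring

/-- the entries of the Levi matrix are bounded by the second derivative -/
theorem xLoc_entry {b : Cn n → ℝ} {z : Cn n} {C : ℝ} (hC : ‖hes b z‖ ≤ C) (j k : Fin n) :
    ‖LM b z j k‖ ≤ C := by
  have hbv : ∀ j, ‖bv n j‖ = 1 := by
    intro j
    unfold bv
    rw [EuclideanSpace.norm_single]
    simp
  have hbI : ∀ j, ‖Complex.I • bv n j‖ = 1 := by
    intro j
    rw [norm_smul, hbv j]
    simp
  have h1 : ∀ a c : Cn n, ‖a‖ = 1 → ‖c‖ = 1 → |hes b z a c| ≤ C := by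
    intro a c ha hc
    have h2 := (hes b z a).le_opNorm c
    have h3 := (hes b z).le_opNorm a
    rw [hc, mul_one] at h2
    rw [ha, mul_one] at h3
    exact (h2.trans h3).trans hC
  unfold LM
  rw [norm_div]
  have h4 : ‖(4 : ℂ)‖ = 4 := by simp
  rw [h4, div_le_iff₀ (by norm_num)]
  refine (norm_add_le _ _).trans ?_
  rw [norm_mul, Complex.norm_I, one_mul, Complex.norm_real, Complex.norm_real,
    Real.norm_eq_abs, Real.norm_eq_abs]
  have h5 := abs_add_le (hes b z (bv n j) (bv n k)) (hes b z (Complex.I • bv n j) (Complex.I • bv n k))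
  have h6 := abs_sub (hes b z (bv n j) (Complex.I • bv n k)) (hes b z (Complex.I • bv n j) (bv n k))
  have h7 := h1 _ _ (hbv j) (hbv k)
  have h8 := h1 _ _ (hbI j) (hbI k)
  have h9 := h1 _ _ (hbv j) (hbI k)
  have h10 := h1 _ _ (hbI j) (hbv k)
  linarith

theorem xLoc_twD {b : Cn n → ℝ} (hb : ContDiff ℝ ∞ b) (z : Cn n) : TwD b z := by
  have h1 : ContDiff ℝ 2 b := by exact_mod_cast contDiff_infty.1 hb 2
  constructor
  · exact Filter.Eventually.of_forall (fun w => (h1.differentiable (by norm_num)) w)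
  · exact ((h1.fderiv_right (m := 1) (by norm_num)).differentiable (by norm_num)) z

/-- pointwise bound of the mixed term -/
theorem xLoc_mal {u b : Cn n → ℝ} {z : Cn n} (hb : ContDiff ℝ ∞ b) {C : ℝ}
    (hC : ‖hes b z‖ ≤ C) (hu : (LM u z).PosSemidef) :
    |mal u b z| ≤ (n * C) * (((LM u z).adjugate.trace).re) := by
  obtain ⟨h1, h2⟩ := mat_herm_bound (xLoc_twD hb z).herm (xLoc_entry hC)
  exact mat_trace_adj hu h1 h2

/-- the Monge-Ampère mass changes by at most `C t` -/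
theorem KM.loc_mass (i : Fin K.N) {b : Cn n → ℝ} (hb : ContDiff ℝ ∞ b)
    (hb0 : ∀ z, 0 ≤ b z) (hbs : tsupport b ⊆ ball 0 2) (M : ℝ) : ∃ C : ℝ, 0 < C ∧
    ∀ ψ : X → ℝ, WK K ψ → (∀ x, |ψ x| ≤ M) → ∀ t : ℝ, 0 < t → t ≤ 1 → ∀ g : Cn n → ℝ,
      C11 (ball 0 3) g → (∀ z, 0 ≤ g z ∧ g z ≤ t * b z) → WK K (fun x => ψ x + K.ext i g x) →
      |(∫ x, K.ext i b x * K.RM (fun y => ψ y + K.ext i g y) x ∂K.vol) -
        ∫ x, K.ext i b x * K.RM ψ x ∂K.vol| ≤ C * t := by
  have hL := xLoc_compact hbs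
  have hL3 : tsupport b ⊆ ball 0 3 := hbs.trans (ball_subset_ball (by norm_num))
  have hbc : HasCompactSupport b := hL
  obtain ⟨B, hB⟩ := hb.continuous.bounded_above_of_compact_support hbc
  have hB0 : 0 ≤ B := (norm_nonneg _).trans (hB 0)
  have hbB : ∀ z, b z ≤ B := fun z => (le_abs_self _).trans (hB z)
  have hb11 : C11 (ball (0 : Cn n) 3) b := xLoc_c11 hb _ isOpen_ball
  have hcl23 : closedBall (0 : Cn n) 2 ⊆ ball 0 3 := closedBall_subset_ball (by norm_num)
  have hcl53 : closedBall (0 : Cn n) (5 / 2) ⊆ ball 0 3 := closedBall_subset_ball (by norm_num)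
  obtain ⟨H, hH0, hH⟩ := C11.hes_bdd isOpen_ball hb11 (isCompact_closedBall (0 : Cn n) 2) hcl23
  obtain ⟨R, hR⟩ := (isCompact_closedBall (0 : Cn n) (5 / 2)).exists_bound_of_continuousOn
    ((K.ρ_c11 i).continuousOn.mono hcl53)
  have hR0 : 0 ≤ R := (norm_nonneg _).trans (hR 0 (by
    rw [mem_closedBall, dist_self]; norm_num))
  obtain ⟨C₁, hC₁, hcln⟩ := cln n
  set M' : ℝ := |M| + R + B + 1 with hM'
  have hM'1 : 1 ≤ M' := by
    have := abs_nonneg M
    rw [hM']
    linarith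
  set D : ℝ := B * (n * H) * (C₁ * M' ^ n) with hD
  have hD0 : 0 ≤ D := by positivity
  refine ⟨D + 1, by linarith, ?_⟩
  intro ψ hψ hψM t ht ht1 g hg hgb hWK
  have h0 := xLoc_supp hgb
  have hextb : C11X K (K.ext i b) := c11X_ext K i hb11 hL hL3
    (fun z hz => image_eq_zero_of_notMem_tsupport hz)
  set u0 : Cn n → ℝ := fun z => K.ρ i z + ψ (K.κ i z) with hu0d
  have hu0 : C11 (ball 0 3) u0 := C11.add isOpen_ball (K.ρ_c11 i) (hψ.c11 i)
  obtain ⟨hi1, he1⟩ := K.xLoc_chart hWK.c11 i hextb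
  obtain ⟨hi2, he2⟩ := K.xLoc_chart hψ.c11 i hextb
  have he3 : (∫ x, K.ext i b x * K.RM (fun y => ψ y + K.ext i g y) x ∂K.vol) -
      ∫ x, K.ext i b x * K.RM ψ x ∂K.vol =
      ∫ z in ball 0 3, b z * (mad (fun y => u0 y + g y) z - mad u0 z) := by
    rw [he1, he2, ← integral_sub hi1 hi2]
    refine setIntegral_congr_fun measurableSet_ball (fun z hz => ?_)
    show b z * mad (fun y => K.ρ i y + (ψ (K.κ i y) + K.ext i g (K.κ i y))) z - b z * mad u0 z =
      b z * (mad (fun y => u0 y + g y) z - mad u0 z)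
    rw [K.xLoc_mod i hz]
    ring
  rw [he3, seg_mad isOpen_ball hu0 hg hb11 hL hL3 h0]
  -- the bound for each `s`
  have hkey : ∀ s ∈ Set.uIoc (0 : ℝ) 1,
      ‖∫ z in ball (0 : Cn n) 3, g z * mal (fun y => u0 y + s * g y) b z‖ ≤ D * t := by
    intro s hs
    rw [Set.uIoc_of_le (by norm_num)] at hs
    have hs0 : 0 ≤ s := hs.1.le
    have hs1 : s ≤ 1 := hs.2
    have hc : C11 (ball 0 3) (fun y => u0 y + s * g y) :=
      C11.add isOpen_ball hu0 (C11.const_mul isOpen_ball hg s)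
    have hsub : SubOn (ball 0 3) (fun y => u0 y + s * g y) := by
      have h1 := (WK.convex K hψ hWK hs0 hs1).sub i
      refine xLoc_sub_congr h1 (subset_refl _) (fun y hy => ?_)
      show K.ρ i y + ψ (K.κ i y) + s * g y = K.ρ i y +
        ((1 - s) * ψ (K.κ i y) + s * (ψ (K.κ i y) + K.ext i g (K.κ i y)))
      rw [K.ext_κ i g hy]
      ring
    have hpsd := (c11_sub_iff isOpen_ball hc).1 hsub
    have hb52 : ball (0 : Cn n) (5 / 2) ⊆ ball 0 3 := ball_subset_ball (by norm_num)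
    have hclnu := hcln (fun y => u0 y + s * g y) M' hM'1 (hc.mono hb52)
      (xLoc_sub_congr hsub hb52 (fun _ _ => rfl)) (fun z hz => by
        have h1 : |K.ρ i z| ≤ R := hR z (ball_subset_closedBall hz)
        have h2 : |ψ (K.κ i z)| ≤ |M| := (hψM _).trans (le_abs_self _)
        have h3 : |s * g z| ≤ B := by
          rw [abs_mul, abs_of_nonneg hs0, abs_of_nonneg (hgb z).1]
          have h4 : g z ≤ B := by
            have h5 : t * b z ≤ 1 * b z := mul_le_mul_of_nonneg_right ht1 (hb0 z)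
            linarith [(hgb z).2, hbB z]
          calc s * g z ≤ 1 * g z := mul_le_mul_of_nonneg_right hs1 (hgb z).1
            _ ≤ B := by linarith
        show |K.ρ i z + ψ (K.κ i z) + s * g z| ≤ M'
        have h6 := abs_add_le (K.ρ i z + ψ (K.κ i z)) (s * g z)
        have h7 := abs_add_le (K.ρ i z) (ψ (K.κ i z))
        rw [hM']
        linarith)
    have hpt : ∀ᵐ z : Cn n, z ∈ ball (0 : Cn n) 3 →
        ENNReal.ofReal ‖g z * mal (fun y => u0 y + s * g y) b z‖ ≤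
          (ball (0 : Cn n) 2).indicator (fun z => ENNReal.ofReal (t * (B * (n * H))) *
            ENNReal.ofReal (((LM (fun y => u0 y + s * g y) z).adjugate.trace).re)) z := by
      filter_upwards [hpsd] with z hz hz3
      by_cases hz2 : z ∈ ball (0 : Cn n) 2
      · rw [indicator_of_mem hz2, ← ENNReal.ofReal_mul (by positivity)]
        refine ENNReal.ofReal_le_ofReal ?_
        rw [norm_mul]
        have h1 : ‖g z‖ ≤ t * B := by
          rw [Real.norm_eq_abs, abs_of_nonneg (hgb z).1]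
          exact (hgb z).2.trans (mul_le_mul_of_nonneg_left (hbB z) ht.le)
        have h2 := xLoc_mal hb (hH z (ball_subset_closedBall hz2)) (hz hz3)
        have h3 := mul_le_mul h1 h2 (abs_nonneg _) (by positivity)
        refine h3.trans (le_of_eq ?_)
        ring
      · have h1 : g z = 0 := h0 z (fun h => hz2 (hbs h))
        rw [h1, zero_mul, norm_zero, ENNReal.ofReal_zero]
        exact zero_le
    have hlin : ∫⁻ z in ball (0 : Cn n) 3,
        ENNReal.ofReal ‖g z * mal (fun y => u0 y + s * g y) b z‖ ≤ ENNReal.ofReal (D * t) := by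
      calc ∫⁻ z in ball (0 : Cn n) 3,
            ENNReal.ofReal ‖g z * mal (fun y => u0 y + s * g y) b z‖ ≤
          ∫⁻ z in ball (0 : Cn n) 3, (ball (0 : Cn n) 2).indicator
            (fun z => ENNReal.ofReal (t * (B * (n * H))) *
            ENNReal.ofReal (((LM (fun y => u0 y + s * g y) z).adjugate.trace).re)) z := by
            refine lintegral_mono_ae ?_
            rw [ae_restrict_iff' measurableSet_ball]
            exact hpt
        _ ≤ ∫⁻ z, (ball (0 : Cn n) 2).indicator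
            (fun z => ENNReal.ofReal (t * (B * (n * H))) *
            ENNReal.ofReal (((LM (fun y => u0 y + s * g y) z).adjugate.trace).re)) z :=
            setLIntegral_le_lintegral _ _
        _ = ∫⁻ z in ball (0 : Cn n) 2, ENNReal.ofReal (t * (B * (n * H))) *
            ENNReal.ofReal (((LM (fun y => u0 y + s * g y) z).adjugate.trace).re) :=
            lintegral_indicator measurableSet_ball _
        _ = ENNReal.ofReal (t * (B * (n * H))) * ∫⁻ z in ball (0 : Cn n) 2,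
            ENNReal.ofReal (((LM (fun y => u0 y + s * g y) z).adjugate.trace).re) :=
            lintegral_const_mul' _ _ ENNReal.ofReal_ne_top
        _ ≤ ENNReal.ofReal (t * (B * (n * H))) * ENNReal.ofReal (C₁ * M' ^ n) := by
            gcongr
        _ = ENNReal.ofReal (D * t) := by
            rw [← ENNReal.ofReal_mul (by positivity)]
            congr 1
            rw [hD]
            ring
    refine (norm_integral_le_lintegral_norm _).trans ?_
    refine (ENNReal.toReal_mono ENNReal.ofReal_ne_top hlin).trans ?_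
    rw [ENNReal.toReal_ofReal (by positivity)]
  have hfin := intervalIntegral.norm_integral_le_of_norm_le_const hkey
  rw [sub_zero, abs_one, mul_one] at hfin
  have hfin' : |∫ s in (0 : ℝ)..1, ∫ z in ball (0 : Cn n) 3,
      g z * mal (fun y => u0 y + s * g y) b z| ≤ D * t := hfin
  refine hfin'.trans ?_
  nlinarith

end HMA

end S_KM_XLoc

section S_KM_XPart

/-! # Module XPart: partition of unity -/

open MeasureTheory Metric Set
open scoped ENNReal Topology ContDiff ComplexOrder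

namespace HMA

variable {n : ℕ} {X : Type} [TopologicalSpace X] (K : KM n X)

theorem XPart_cut {Q W : Set (Cn n)} (hQ : IsCompact Q) (hW : IsOpen W) (hQW : Q ⊆ W) :
    ∃ B : Cn n → ℝ, HasCompactSupport B ∧ tsupport B ⊆ W ∧ (∀ z, 0 ≤ B z ∧ B z ≤ 1) ∧
      ContDiff ℝ ∞ B ∧ ∀ z ∈ Q, B z = 1 := by
  obtain ⟨K', hK'c, hQK, hKW⟩ := exists_compact_between hQ hW hQW
  have hd : Disjoint (interior K')ᶜ Q := by
    rw [Set.disjoint_left]
    intro x hx hxQ
    exact hx (hQK hxQ)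
  obtain ⟨f, hf0, hf1, hf⟩ := exists_contMDiffMap_zero_one_of_isClosed (n := (⊤ : ℕ∞))
    (modelWithCornersSelf ℝ (Cn n)) isOpen_interior.isClosed_compl hQ.isClosed hd
  have hs : Function.support f ⊆ K' := by
    intro x hx
    by_contra hx'
    exact hx (hf0 (fun h => hx' (interior_subset h)))
  have hts : tsupport f ⊆ K' := closure_minimal hs hK'c.isClosed
  refine ⟨f, HasCompactSupport.of_support_subset_isCompact hK'c hs, hts.trans hKW, ?_, ?_, ?_⟩
  · intro z; exact ⟨(hf z).1, (hf z).2⟩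
  · exact f.contMDiff.contDiff
  · intro z hz; exact hf1 hz

theorem XPart_ext_zero (i : Fin K.N) {w : Cn n → ℝ} {x : X} {L : Set (Cn n)}
    (hw : ∀ z, z ∉ L → w z = 0) (hx : x ∉ K.κ i '' L) : K.ext i w x = 0 := by
  by_cases h : x ∈ K.κ i '' ball 0 3
  · obtain ⟨z, hz, rfl⟩ := h
    rw [K.ext_κ i w hz]
    exact hw z (fun hzL => hx ⟨z, hzL, rfl⟩)
  · exact K.ext_off i w h

/-- smoothness of extensions in the other charts -/
theorem XPart_smooth [T2Space X] (i j : Fin K.N) {w : Cn n → ℝ} (hw : ContDiff ℝ ∞ w)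
    (hc : HasCompactSupport w) (hs : tsupport w ⊆ ball 0 3) :
    ContDiffOn ℝ ∞ (fun z => K.ext i w (K.κ j z)) (ball 0 3) := by
  intro z hz
  by_cases h : K.κ j z ∈ K.κ i '' ball 0 3
  · set O : Set (Cn n) := ball (0 : Cn n) 3 ∩ K.κ j ⁻¹' (K.κ i '' ball 0 3) with hO
    have hOo : IsOpen O := K.isOpen_overlap j i
    have hzO : z ∈ O := ⟨hz, h⟩
    have h1 : ContDiffOn ℝ ∞ (K.τ j i) O :=
      (hol_contDiffOn hOo (K.τ_hol j i)).restrict_scalars ℝ
    have h2 : ContDiffOn ℝ ∞ (fun z => w (K.τ j i z)) O := hw.comp_contDiffOn h1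
    have h3 : EqOn (fun z => K.ext i w (K.κ j z)) (fun z => w (K.τ j i z)) O := by
      intro y hy
      obtain ⟨h4, h5⟩ := K.τ_spec j i y hy.1 hy.2
      simp only
      rw [← h5, K.ext_κ i w h4]
    have h4 : ContDiffAt ℝ ∞ (fun z => K.ext i w (K.κ j z)) z :=
      (h2.congr h3).contDiffAt (hOo.mem_nhds hzO)
    exact h4.contDiffWithinAt
  · have hcomp : IsCompact (K.κ i '' tsupport w) := K.compact_image i hc hs
    have h0 : K.κ j z ∉ K.κ i '' tsupport w := fun h' => h (image_mono hs h')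
    have h1 : IsOpen (ball (0 : Cn n) 3 ∩ K.κ j ⁻¹' (K.κ i '' tsupport w)ᶜ) :=
      (K.cont j).isOpen_inter_preimage isOpen_ball hcomp.isClosed.isOpen_compl
    have h2 : (fun z => K.ext i w (K.κ j z)) =ᶠ[𝓝 z] fun _ => 0 := by
      filter_upwards [h1.mem_nhds ⟨hz, h0⟩] with y hy
      exact XPart_ext_zero K i (fun z hz => image_eq_zero_of_notMem_tsupport hz) hy.2
    exact (contDiffAt_const.congr_of_eventuallyEq h2).contDiffWithinAt

theorem XPart_ext_range (i : Fin K.N) {w : Cn n → ℝ} (hw : ∀ z, 0 ≤ w z ∧ w z ≤ 1) (x : X) :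
    0 ≤ K.ext i w x ∧ K.ext i w x ≤ 1 := by
  by_cases h : x ∈ K.κ i '' ball 0 3
  · obtain ⟨z, hz, rfl⟩ := h
    rw [K.ext_κ i w hz]
    exact hw z
  · rw [K.ext_off i w h]
    exact ⟨le_rfl, zero_le_one⟩

/-- a function which is smooth on the ball and vanishes off a compact subset is smooth -/
theorem XPart_glob {b : Cn n → ℝ} {L : Set (Cn n)} (hL : IsCompact L) (hL3 : L ⊆ ball 0 3)
    (h : ContDiffOn ℝ ∞ b (ball 0 3)) (h0 : ∀ z, z ∉ L → b z = 0) : ContDiff ℝ ∞ b := by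
  rw [contDiff_iff_contDiffAt]
  intro z
  by_cases hz : z ∈ L
  · exact h.contDiffAt (isOpen_ball.mem_nhds (hL3 hz))
  · have h2 : b =ᶠ[𝓝 z] fun _ => 0 := by
      filter_upwards [hL.isClosed.isOpen_compl.mem_nhds hz] with y hy
      exact h0 y hy
    exact contDiffAt_const.congr_of_eventuallyEq h2

/-- the basic construction -/
theorem XPart_main [T2Space X] : ∃ (b : Fin K.N → Cn n → ℝ) (L : Set (Cn n)), IsCompact L ∧
    L ⊆ ball 0 2 ∧ (∀ i z, z ∉ L → b i z = 0) ∧ (∀ i z, 0 ≤ b i z ∧ b i z ≤ 1) ∧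
    (∀ i, ContDiff ℝ ∞ (b i)) ∧ ∀ x, ∑ i, K.ext i (b i) x = 1 := by
  obtain ⟨B, hBc, hBs, hB01, hBsm, hB1⟩ := XPart_cut (n := n) (isCompact_closedBall (0 : Cn n) 1)
    (isOpen_ball (x := (0 : Cn n)) (ε := 2)) (closedBall_subset_ball (by norm_num))
  have hL3 : tsupport B ⊆ ball 0 3 := hBs.trans (ball_subset_ball (by norm_num))
  set S : X → ℝ := fun x => ∑ j, K.ext j B x with hS
  have hS1 : ∀ x, 1 ≤ S x := by
    intro x
    obtain ⟨i, z, hz, rfl⟩ := K.cover x
    have hz3 : z ∈ ball (0 : Cn n) 3 := ball_subset_ball (by norm_num) hz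
    have h1 : K.ext i B (K.κ i z) = 1 := by
      rw [K.ext_κ i B hz3]
      exact hB1 z (ball_subset_closedBall hz)
    rw [hS, ← h1]
    exact Finset.single_le_sum (f := fun j => K.ext j B (K.κ i z))
      (fun j _ => (XPart_ext_range K j hB01 _).1) (Finset.mem_univ i)
  have hSpos : ∀ x, 0 < S x := fun x => zero_lt_one.trans_le (hS1 x)
  have hSs : ∀ j, ContDiffOn ℝ ∞ (fun z => S (K.κ j z)) (ball 0 3) := by
    intro j
    exact ContDiffOn.sum fun i _ => XPart_smooth K i j hBsm hBc hL3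
  refine ⟨fun i z => B z * (S (K.κ i z))⁻¹, tsupport B, hBc, hBs, ?_, ?_, ?_, ?_⟩
  · intro i z hz
    simp only
    rw [image_eq_zero_of_notMem_tsupport hz, zero_mul]
  · intro i z
    have h1 : (S (K.κ i z))⁻¹ ≤ 1 := inv_le_one_of_one_le₀ (hS1 _)
    have h2 : 0 ≤ (S (K.κ i z))⁻¹ := (inv_pos.2 (hSpos _)).le
    exact ⟨mul_nonneg (hB01 z).1 h2, mul_le_one₀ (hB01 z).2 h2 h1⟩
  · intro i
    refine XPart_glob hBc hL3 ?_ ?_
    · exact hBsm.contDiffOn.mul ((hSs i).inv fun z _ => (hSpos _).ne')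
    · intro z hz
      simp only
      rw [image_eq_zero_of_notMem_tsupport hz, zero_mul]
  · intro x
    have h1 : ∀ i, K.ext i (fun z => B z * (S (K.κ i z))⁻¹) x = K.ext i B x * (S x)⁻¹ := by
      intro i
      by_cases h : x ∈ K.κ i '' ball 0 3
      · obtain ⟨z, hz, rfl⟩ := h
        rw [K.ext_κ i _ hz, K.ext_κ i _ hz]
      · rw [K.ext_off i _ h, K.ext_off i _ h, zero_mul]
    simp_rw [h1]
    rw [← Finset.sum_mul]
    exact mul_inv_cancel₀ (hSpos x).ne'

theorem exists_partition [T2Space X] [CompactSpace X] : ∃ (b : Fin K.N → Cn n → ℝ) ,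
    (∀ i, HasCompactSupport (b i) ∧ tsupport (b i) ⊆ ball 0 2 ∧ (∀ z, 0 ≤ b i z ∧ b i z ≤ 1) ∧
      ContDiff ℝ ∞ (b i)) ∧ (∀ i, C11X K (K.ext i (b i))) ∧
    ∀ x, ∑ i, K.ext i (b i) x = 1 := by
  obtain ⟨b, L, hL, hL2, h0, h01, hsm, hsum⟩ := XPart_main K
  have hsupp : ∀ i, Function.support (b i) ⊆ L := by
    intro i z hz
    by_contra h
    exact hz (h0 i z h)
  refine ⟨b, fun i => ⟨HasCompactSupport.of_support_subset_isCompact hL (hsupp i),
    (closure_minimal (hsupp i) hL.isClosed).trans hL2, h01 i, hsm i⟩, fun i => ?_, hsum⟩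
  refine c11X_ext K i ?_ hL (hL2.trans (ball_subset_ball (by norm_num))) (h0 i)
  exact c11_of_contDiffOn isOpen_ball (contDiff_infty.1 (hsm i) 2).contDiffOn

/-- partition of unity adapted to a compact set `Q` in an open subset of a chart -/
theorem exists_partition' [T2Space X] [CompactSpace X] (i₀ : Fin K.N) {Q W : Set (Cn n)}
    (hQ : IsCompact Q) (hW : IsOpen W) (hQW : Q ⊆ W) (hW2 : W ⊆ ball 0 2) :
    ∃ (b₀ : Cn n → ℝ) (b : Fin K.N → Cn n → ℝ),
      (HasCompactSupport b₀ ∧ tsupport b₀ ⊆ W ∧ (∀ z, 0 ≤ b₀ z ∧ b₀ z ≤ 1) ∧ ContDiff ℝ ∞ b₀) ∧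
      (∀ i, HasCompactSupport (b i) ∧ tsupport (b i) ⊆ ball 0 2 ∧ (∀ z, 0 ≤ b i z ∧ b i z ≤ 1) ∧
        ContDiff ℝ ∞ (b i) ∧ ∀ z ∈ ball (0 : Cn n) 3, K.κ i z ∈ K.κ i₀ '' Q → b i z = 0) ∧
      ∀ x, K.ext i₀ b₀ x + ∑ i, K.ext i (b i) x = 1 := by
  obtain ⟨b, L, hL, hL2, h0, h01, hsm, hsum⟩ := XPart_main K
  obtain ⟨B₀, hBc, hBs, hB01, hBsm, hB1⟩ := XPart_cut hQ hW hQW
  have hB3 : tsupport B₀ ⊆ ball 0 3 := (hBs.trans hW2).trans (ball_subset_ball (by norm_num))
  have hL3 : L ⊆ ball 0 3 := hL2.trans (ball_subset_ball (by norm_num))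
  set b' : Fin K.N → Cn n → ℝ := fun i z => (1 - K.ext i₀ B₀ (K.κ i z)) * b i z with hb'
  have h0' : ∀ i z, z ∉ L → b' i z = 0 := by
    intro i z hz
    simp only [hb']
    rw [h0 i z hz, mul_zero]
  have hsupp : ∀ i, Function.support (b' i) ⊆ L := by
    intro i z hz
    by_contra h
    exact hz (h0' i z h)
  refine ⟨B₀, b', ⟨hBc, hBs, hB01, hBsm⟩, fun i => ⟨HasCompactSupport.of_support_subset_isCompact
    hL (hsupp i), (closure_minimal (hsupp i) hL.isClosed).trans hL2, ?_, ?_, ?_⟩, ?_⟩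
  · intro z
    obtain ⟨h1, h2⟩ := XPart_ext_range K i₀ hB01 (K.κ i z)
    obtain ⟨h3, h4⟩ := h01 i z
    simp only [hb']
    constructor
    · exact mul_nonneg (by linarith) h3
    · exact mul_le_one₀ (by linarith) h3 h4
  · refine XPart_glob hL hL3 ?_ (h0' i)
    exact (contDiffOn_const.sub (XPart_smooth K i₀ i hBsm hBc hB3)).mul (hsm i).contDiffOn
  · rintro z hz ⟨q, hq, hqz⟩
    have hq3 : q ∈ ball (0 : Cn n) 3 := ball_subset_ball (by norm_num) (hW2 (hQW hq))
    simp only [hb']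
    rw [← hqz, K.ext_κ i₀ _ hq3, hB1 q hq, sub_self, zero_mul]
  · intro x
    have h1 : ∀ i, K.ext i (b' i) x = (1 - K.ext i₀ B₀ x) * K.ext i (b i) x := by
      intro i
      by_cases h : x ∈ K.κ i '' ball 0 3
      · obtain ⟨z, hz, rfl⟩ := h
        rw [K.ext_κ i _ hz, K.ext_κ i _ hz]
      · rw [K.ext_off i _ h, K.ext_off i _ h, mul_zero]
    simp_rw [h1]
    rw [← Finset.mul_sum, hsum x]
    ring

end HMA

end S_KM_XPart

section S_KM_XSym

/-! # Module XSym: global integration by parts, total mass -/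

open MeasureTheory Metric Set
open scoped ENNReal Topology ContDiff ComplexOrder

namespace HMA

variable {n : ℕ} {X : Type} [TopologicalSpace X] (K : KM n X)

/-- `RL` in the direction of a function vanishing near `x` -/
theorem xSym_RL_off {v : X → ℝ} (ψ : X → ℝ) {x : X} {S : Set X} (hS : IsClosed S) (hx : x ∉ S)
    (h0 : ∀ y, y ∉ S → v y = 0) : K.RL ψ v x = 0 := by
  obtain ⟨hco, hκ⟩ := K.co_spec x
  have hco3 : K.co x ∈ ball (0 : Cn n) 3 := ball_subset_ball (by norm_num) hco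
  have hcont : ContinuousAt (K.κ (K.ix x)) (K.co x) :=
    (K.cont (K.ix x)).continuousAt (isOpen_ball.mem_nhds hco3)
  have hev : (fun z => v (K.κ (K.ix x) z)) =ᶠ[𝓝 (K.co x)] fun _ => (0 : ℝ) := by
    have h1 : ∀ᶠ z in 𝓝 (K.co x), K.κ (K.ix x) z ∈ Sᶜ := by
      apply hcont.eventually_mem
      rw [hκ]
      exact hS.isOpen_compl.mem_nhds hx
    filter_upwards [h1] with z hz
    exact h0 _ hz
  unfold KM.RL mal
  rw [LM_congr hev, LM_const, mul_zero, Matrix.trace_zero, Complex.zero_re, zero_div]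

theorem xSym_RL_const (ψ : X → ℝ) (c : ℝ) (x : X) : K.RL ψ (fun _ => c) x = 0 := by
  unfold KM.RL mal
  rw [LM_const, mul_zero, Matrix.trace_zero, Complex.zero_re, zero_div]

variable [MeasurableSpace X] [BorelSpace X] [T2Space X] [CompactSpace X] {ψ v w : X → ℝ}

omit [T2Space X] in
theorem xSym_int (hψ : C11X K ψ) (hv : C11X K v) (hw : C11X K w) :
    Integrable (fun x => v x * K.RL ψ w x) K.vol := by
  have := K.vol_finite
  obtain ⟨A, hA⟩ := isCompact_univ.exists_bound_of_continuousOn (hv.continuous K).continuousOn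
  obtain ⟨B, hB0, hB⟩ := K.RL_bdd hψ (c11X_const K 0) hw
  refine Integrable.of_bound ((hv.continuous K).aestronglyMeasurable.mul
    (K.RL_meas hψ hw)) (A * B) (Filter.Eventually.of_forall fun x => ?_)
  have h1 := hA x (mem_univ x)
  have h2 : |K.RL ψ w x| ≤ B := by
    have := hB 1 0 (by norm_num) (by norm_num) x
    simpa using this
  rw [norm_mul, Real.norm_eq_abs (K.RL ψ w x)]
  exact mul_le_mul h1 h2 (abs_nonneg _) ((norm_nonneg _).trans h1)

omit [T2Space X] in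
theorem xSym_RL_sum {ι : Type} (s : Finset ι) (f : ι → X → ℝ) (hψ : C11X K ψ)
    (hf : ∀ i, C11X K (f i)) : C11X K (fun x => ∑ i ∈ s, f i x) ∧
      ∀ᵐ x ∂K.vol, K.RL ψ (fun y => ∑ i ∈ s, f i y) x = ∑ i ∈ s, K.RL ψ (f i) x := by
  classical
  induction s using Finset.induction_on with
  | empty =>
    simp only [Finset.sum_empty]
    exact ⟨c11X_const K 0, Filter.Eventually.of_forall fun x => xSym_RL_const K ψ 0 x⟩
  | insert i s hi ih =>
    have h1 : (fun x => ∑ j ∈ insert i s, f j x) = fun x => f i x + ∑ j ∈ s, f j x := by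
      funext x
      rw [Finset.sum_insert hi]
    rw [h1]
    refine ⟨(hf i).add K ih.1, ?_⟩
    filter_upwards [ih.2, K.RL_add hψ (hf i) ih.1] with x hx hx2
    rw [hx2, hx, Finset.sum_insert hi]

/-- the local case -/
theorem xSym_local (hψ : C11X K ψ) (hv : C11X K v) (hw : C11X K w) (i : Fin K.N) {b : Cn n → ℝ}
    (hbc : HasCompactSupport b) (hb3 : tsupport b ⊆ ball 0 3) (hbs : ContDiff ℝ ∞ b)
    (hext : C11X K (K.ext i b)) :
    ∫ x, (K.ext i b x * v x) * K.RL ψ w x ∂K.vol =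
      ∫ x, w x * K.RL ψ (fun y => K.ext i b y * v y) x ∂K.vol := by
  have hv1 : C11X K (fun y => K.ext i b y * v y) := hext.mul K hv
  have h2 : (2 : WithTop ℕ∞) ≤ ((⊤ : ℕ∞) : WithTop ℕ∞) := WithTop.coe_le_coe.2 le_top
  have hb11 : C11 (ball (0 : Cn n) 3) b :=
    c11_of_contDiffOn isOpen_ball ((hbs.of_le h2).contDiffOn)
  have hvκ : C11 (ball (0 : Cn n) 3) (fun z => b z * v (K.κ i z)) := hb11.mul isOpen_ball (hv i)
  have hu11 : C11 (ball (0 : Cn n) 3) (fun y => K.ρ i y + ψ (K.κ i y)) :=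
    (K.ρ_c11 i).add isOpen_ball (hψ i)
  have hS : IsClosed (K.κ i '' tsupport b) :=
    (K.compact_image i (L := tsupport b) hbc hb3).isClosed
  have hzero : ∀ y, y ∉ K.κ i '' tsupport b → K.ext i b y * v y = 0 := by
    intro y hy
    by_cases hy3 : y ∈ K.κ i '' ball 0 3
    · obtain ⟨z, hz, rfl⟩ := hy3
      rw [K.ext_κ i b hz, image_eq_zero_of_notMem_tsupport (fun h => hy ⟨z, h, rfl⟩), zero_mul]
    · rw [K.ext_off i b hy3, zero_mul]
  have hsub : K.κ i '' tsupport b ⊆ K.κ i '' ball 0 3 := image_mono hb3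
  -- the left hand side in the chart
  obtain ⟨-, h3⟩ := K.integral_chart i (xSym_int K hψ hv1 hw) (by
    intro x hx
    rw [hzero x (fun h => hx (hsub h)), zero_mul])
  obtain ⟨-, h4⟩ := K.integral_chart i (xSym_int K hψ hw hv1) (by
    intro x hx
    rw [xSym_RL_off K ψ hS (fun h => hx (hsub h)) hzero, mul_zero])
  rw [h3, h4]
  have h5 : ∫ z in ball (0 : Cn n) 3, (K.ext i b (K.κ i z) * v (K.κ i z)) *
      K.RL ψ w (K.κ i z) * mad (K.ρ i) z = ∫ z in ball (0 : Cn n) 3, (b z * v (K.κ i z)) *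
        mal (fun y => K.ρ i y + ψ (K.κ i y)) (fun y => w (K.κ i y)) z := by
    apply setIntegral_congr_ae measurableSet_ball
    filter_upwards [K.RL_chart hψ hw i] with z hz hz3
    rw [hz hz3, K.ext_κ i b hz3]
    have h4 := (K.mad_ρ_pos i hz3).2.2
    field_simp
  have h6 : ∫ z in ball (0 : Cn n) 3, w (K.κ i z) *
      K.RL ψ (fun y => K.ext i b y * v y) (K.κ i z) * mad (K.ρ i) z =
        ∫ z in ball (0 : Cn n) 3, w (K.κ i z) *
          mal (fun y => K.ρ i y + ψ (K.κ i y)) (fun y => b y * v (K.κ i y)) z := by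
    apply setIntegral_congr_ae measurableSet_ball
    filter_upwards [K.RL_chart hψ hv1 i] with z hz hz3
    rw [hz hz3]
    have h4 := (K.mad_ρ_pos i hz3).2.2
    have h7 : mal (fun y => K.ρ i y + ψ (K.κ i y))
        (fun y => K.ext i b (K.κ i y) * v (K.κ i y)) z =
        mal (fun y => K.ρ i y + ψ (K.κ i y)) (fun y => b y * v (K.κ i y)) z := by
      unfold mal
      rw [LM_congr (u := fun y => K.ext i b (K.κ i y) * v (K.κ i y))
        (v := fun y => b y * v (K.κ i y))]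
      filter_upwards [isOpen_ball.mem_nhds hz3] with y hy
      rw [K.ext_κ i b hy]
    rw [h7]
    field_simp
  refine h5.trans (Eq.trans ?_ h6.symm)
  exact (ibp11 isOpen_ball hu11 hvκ (hw i) (L := tsupport b) hbc hb3 (fun z hz => by
    rw [image_eq_zero_of_notMem_tsupport hz, zero_mul])).2.2

theorem KM.sym (hψ : C11X K ψ) (hv : C11X K v) (hw : C11X K w) :
    ∫ x, v x * K.RL ψ w x ∂K.vol = ∫ x, w x * K.RL ψ v x ∂K.vol := by
  obtain ⟨b, hb, hb11, hsum⟩ := exists_partition K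
  have h23 : ball (0 : Cn n) 2 ⊆ ball 0 3 := ball_subset_ball (by norm_num)
  have hvi : ∀ i, C11X K (fun y => K.ext i (b i) y * v y) := fun i => (hb11 i).mul K hv
  have hveq : v = fun x => ∑ i, K.ext i (b i) x * v x := by
    funext x
    rw [← Finset.sum_mul, hsum x, one_mul]
  obtain ⟨-, hRL⟩ := xSym_RL_sum K Finset.univ (fun i y => K.ext i (b i) y * v y) hψ hvi
  have h1 : ∫ x, v x * K.RL ψ w x ∂K.vol =
      ∑ i, ∫ x, (K.ext i (b i) x * v x) * K.RL ψ w x ∂K.vol := by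
    rw [← integral_finsetSum _ (fun i _ => xSym_int K hψ (hvi i) hw)]
    congr 1
    funext x
    rw [← Finset.sum_mul, ← Finset.sum_mul, hsum x, one_mul]
  have h2 : ∫ x, w x * K.RL ψ v x ∂K.vol =
      ∑ i, ∫ x, w x * K.RL ψ (fun y => K.ext i (b i) y * v y) x ∂K.vol := by
    rw [← integral_finsetSum _ (fun i _ => xSym_int K hψ hw (hvi i))]
    apply integral_congr_ae
    filter_upwards [hRL] with x hx
    rw [← Finset.mul_sum, ← hx, ← hveq]
  rw [h1, h2]
  refine Finset.sum_congr rfl fun i _ => ?_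
  exact xSym_local K hψ hv hw i (hb i).1 ((hb i).2.1.trans h23) (hb i).2.2.2 (hb11 i)

theorem KM.RL_mass (hψ : C11X K ψ) (hw : C11X K w) : ∫ x, K.RL ψ w x ∂K.vol = 0 := by
  have h := K.sym hψ (c11X_const K 1) hw
  simp only [one_mul, xSym_RL_const, mul_zero, integral_zero] at h
  exact h

/-- the total mass does not depend on `ψ` -/
theorem KM.mass (hψ : C11X K ψ) : ∫ x, K.RM ψ x ∂K.vol = K.vol.real univ := by
  have := K.vol_finite
  have hφ : C11X K (fun x => 2 * ψ x) := hψ.const_mul K 2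
  obtain ⟨A, hA0, hA⟩ := K.RM_bdd hφ (c11X_const K 0)
  obtain ⟨B, hB0, hB⟩ := K.RL_bdd hφ (c11X_const K 0) hφ
  have hA' : ∀ s : ℝ, |s| ≤ 1 → ∀ x, |K.RM (fun y => s * (2 * ψ y)) x| ≤ A := by
    intro s hs x
    have := hA s 0 hs (by norm_num) x
    simpa using this
  have hB' : ∀ s : ℝ, |s| ≤ 1 → ∀ x,
      |K.RL (fun y => s * (2 * ψ y)) (fun x => 2 * ψ x) x| ≤ B := by
    intro s hs x
    have := hB s 0 hs (by norm_num) x
    simpa using this
  have hder : ∀ s ∈ ball (0 : ℝ) 1, HasDerivAt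
      (fun s : ℝ => ∫ x, K.RM (fun y => s * (2 * ψ y)) x ∂K.vol) 0 s := by
    intro s hs
    have hs1 : |s| ≤ 1 := by
      rw [mem_ball_zero_iff, Real.norm_eq_abs] at hs
      exact hs.le
    have hm : ∀ᶠ t in 𝓝 s, AEStronglyMeasurable
        ((fun (s : ℝ) x => K.RM (fun y => s * (2 * ψ y)) x) t) K.vol :=
      Filter.Eventually.of_forall fun t => K.RM_meas (hφ.const_mul K t)
    have hi : Integrable ((fun (s : ℝ) x => K.RM (fun y => s * (2 * ψ y)) x) s) K.vol :=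
      Integrable.of_bound (K.RM_meas (hφ.const_mul K s)) A
        (Filter.Eventually.of_forall fun x => hA' s hs1 x)
    have hm' : AEStronglyMeasurable
        ((fun (s : ℝ) x => K.RL (fun y => s * (2 * ψ y)) (fun x => 2 * ψ x) x) s) K.vol :=
      K.RL_meas (hφ.const_mul K s) hφ
    have hb : ∀ᵐ x ∂K.vol, ∀ t ∈ ball (0 : ℝ) 1,
        ‖(fun (s : ℝ) x => K.RL (fun y => s * (2 * ψ y)) (fun x => 2 * ψ x) x) t x‖ ≤
          (fun _ => B) x := by
      refine Filter.Eventually.of_forall fun x t ht => ?_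
      rw [mem_ball_zero_iff, Real.norm_eq_abs] at ht
      exact hB' t ht.le x
    have hdd : ∀ᵐ x ∂K.vol, ∀ t ∈ ball (0 : ℝ) 1, HasDerivAt
        (fun t => (fun (s : ℝ) x => K.RM (fun y => s * (2 * ψ y)) x) t x)
        ((fun (s : ℝ) x => K.RL (fun y => s * (2 * ψ y)) (fun x => 2 * ψ x) x) t x) t := by
      filter_upwards [K.RM_deriv_scale hφ] with x hx t _
      exact hx t
    have h1 := hasDerivAt_integral_of_dominated_loc_of_deriv_le (isOpen_ball.mem_nhds hs)
      hm hi hm' hb (integrable_const B) hdd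
    have h2 := h1.2
    rw [K.RL_mass (hφ.const_mul K s) hφ] at h2
    exact h2
  have hconst : (fun s : ℝ => ∫ x, K.RM (fun y => s * (2 * ψ y)) x ∂K.vol) (1 / 2) =
      (fun s : ℝ => ∫ x, K.RM (fun y => s * (2 * ψ y)) x ∂K.vol) 0 := by
    have hd : DifferentiableOn ℝ (fun s : ℝ => ∫ x, K.RM (fun y => s * (2 * ψ y)) x ∂K.vol)
        (ball (0 : ℝ) 1) := fun s hs => (hder s hs).differentiableAt.differentiableWithinAt
    exact isOpen_ball.is_const_of_deriv_eq_zero (convex_ball 0 1).isPreconnected hd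
      (fun s hs => (hder s hs).deriv) (by norm_num) (by norm_num)
  have h1 : (fun y => (1 / 2 : ℝ) * (2 * ψ y)) = ψ := by
    funext y
    ring
  have h2 : (fun y => (0 : ℝ) * (2 * ψ y)) = fun _ => (0 : ℝ) := by
    funext y
    ring
  simp only [h1, h2] at hconst
  rw [hconst]
  rw [integral_congr_ae (g := fun _ => (1 : ℝ)) K.RM_zero]
  simp

end HMA

end S_KM_XSym

section S_KM_XEn

/-! # Module XEn: the energy functional -/

open MeasureTheory Metric Set
open scoped ENNReal Topology ContDiff ComplexOrder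

namespace HMA

variable {n : ℕ} {X : Type} [TopologicalSpace X] (K : KM n X)

variable [MeasurableSpace X] [BorelSpace X] [T2Space X] [CompactSpace X] {ψ v w : X → ℝ}

omit [MeasurableSpace X] [BorelSpace X] [T2Space X] in
theorem XEn_bdd (hv : C11X K v) : ∃ C : ℝ, 0 ≤ C ∧ ∀ x, |v x| ≤ C := by
  obtain ⟨C, hC⟩ := (isCompact_univ (X := X)).exists_bound_of_continuousOn
    (C11X.continuous K hv).continuousOn
  refine ⟨max C 0, le_max_right _ _, fun x => ?_⟩
  exact (hC x (mem_univ _)).trans (le_max_left _ _)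

omit [T2Space X] in
theorem XEn_RM_bdd (hψ : C11X K ψ) (hw : C11X K w) (A : ℝ) : ∃ C : ℝ, 0 ≤ C ∧
    ∀ a b : ℝ, |a| ≤ A → |b| ≤ A → ∀ x, |K.RM (fun y => a * ψ y + b * w y) x| ≤ C := by
  set B : ℝ := |A| + 1 with hB
  have hB0 : 0 < B := by positivity
  obtain ⟨C, hC0, hC⟩ := K.RM_bdd (C11X.const_mul K hψ B) (C11X.const_mul K hw B)
  refine ⟨C, hC0.le, fun a b ha hb x => ?_⟩
  have hAB : A ≤ B := by rw [hB]; linarith [le_abs_self A]
  have h1 : |a / B| ≤ 1 := by
    rw [abs_div, abs_of_pos hB0, div_le_one hB0]; linarith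
  have h2 : |b / B| ≤ 1 := by
    rw [abs_div, abs_of_pos hB0, div_le_one hB0]; linarith
  have := hC (a / B) (b / B) h1 h2 x
  have e : (fun y => a / B * (B * ψ y) + b / B * (B * w y)) = (fun y => a * ψ y + b * w y) := by
    funext y; field_simp
  rwa [e] at this

omit [T2Space X] in
theorem XEn_RL_bdd (hψ : C11X K ψ) (hw : C11X K w) (hv : C11X K v) (A : ℝ) : ∃ C : ℝ, 0 ≤ C ∧
    ∀ a b : ℝ, |a| ≤ A → |b| ≤ A → ∀ x, |K.RL (fun y => a * ψ y + b * w y) v x| ≤ C := by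
  set B : ℝ := |A| + 1 with hB
  have hB0 : 0 < B := by positivity
  obtain ⟨C, hC0, hC⟩ := K.RL_bdd (C11X.const_mul K hψ B) (C11X.const_mul K hw B) hv
  refine ⟨C, hC0.le, fun a b ha hb x => ?_⟩
  have hAB : A ≤ B := by rw [hB]; linarith [le_abs_self A]
  have h1 : |a / B| ≤ 1 := by
    rw [abs_div, abs_of_pos hB0, div_le_one hB0]; linarith
  have h2 : |b / B| ≤ 1 := by
    rw [abs_div, abs_of_pos hB0, div_le_one hB0]; linarith
  have := hC (a / B) (b / B) h1 h2 x
  have e : (fun y => a / B * (B * ψ y) + b / B * (B * w y)) = (fun y => a * ψ y + b * w y) := by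
    funext y; field_simp
  rwa [e] at this

omit [T2Space X] [CompactSpace X] in
theorem XEn_int_of_bdd {f : X → ℝ} (hf : AEStronglyMeasurable f K.vol) {C : ℝ}
    (h : ∀ x, |f x| ≤ C) : Integrable f K.vol := by
  have := K.vol_finite
  exact Integrable.of_bound hf C (Filter.Eventually.of_forall h)

omit [T2Space X] [CompactSpace X] in
/-- differentiation under the integral sign -/
theorem XEn_deriv {F F' : ℝ → X → ℝ} {s₀ C C' : ℝ}
    (hm : ∀ s, AEStronglyMeasurable (F s) K.vol) (hm' : AEStronglyMeasurable (F' s₀) K.vol)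
    (hb : ∀ s ∈ ball s₀ 1, ∀ x, |F' s x| ≤ C) (hF : ∀ x, |F s₀ x| ≤ C')
    (hd : ∀ᵐ x ∂K.vol, ∀ s, HasDerivAt (fun s => F s x) (F' s x) s) :
    HasDerivAt (fun s => ∫ x, F s x ∂K.vol) (∫ x, F' s₀ x ∂K.vol) s₀ := by
  have := K.vol_finite
  have h := hasDerivAt_integral_of_dominated_loc_of_deriv_le (μ := K.vol) (F := F) (F' := F')
    (x₀ := s₀) (bound := fun _ => C) (s := ball s₀ 1) (ball_mem_nhds s₀ one_pos)
    (Filter.Eventually.of_forall hm) (XEn_int_of_bdd K (hm s₀) hF) hm'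
    (Filter.Eventually.of_forall fun x s hs => hb s hs x) (integrable_const C)
    (hd.mono fun x hx s _ => hx s)
  exact h.2

omit [T2Space X] in
/-- derivative in the scale -/
theorem XEn_D1 (hψ : C11X K ψ) (hw : C11X K w) (r : ℝ) :
    HasDerivAt (fun r => ∫ x, w x * K.RM (fun y => r * ψ y) x ∂K.vol)
      (∫ x, w x * K.RL (fun y => r * ψ y) ψ x ∂K.vol) r := by
  obtain ⟨Cw, hCw0, hCw⟩ := XEn_bdd K hw
  obtain ⟨C1, hC10, hC1⟩ := XEn_RM_bdd K hψ hψ (|r| + 1)
  obtain ⟨C2, hC20, hC2⟩ := XEn_RL_bdd K hψ hψ hψ (|r| + 1)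
  have e : ∀ s : ℝ, (fun y => s * ψ y + 0 * ψ y) = (fun y => s * ψ y) := fun s => by
    funext y; ring
  have h0 : |(0 : ℝ)| ≤ |r| + 1 := by rw [abs_zero]; positivity
  refine XEn_deriv K (F := fun r x => w x * K.RM (fun y => r * ψ y) x)
    (F' := fun r x => w x * K.RL (fun y => r * ψ y) ψ x) (C := Cw * C2) (C' := Cw * C1)
    ?_ ?_ ?_ ?_ ?_
  · intro s
    exact (C11X.continuous K hw).aestronglyMeasurable.mul (K.RM_meas (C11X.const_mul K hψ s))
  · exact (C11X.continuous K hw).aestronglyMeasurable.mul (K.RL_meas (C11X.const_mul K hψ r) hψ)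
  · intro s hs x
    have hs' : |s| ≤ |r| + 1 := by
      have h1 : |s - r| < 1 := by simpa [Real.dist_eq] using hs
      have h2 : |s| ≤ |s - r| + |r| := by
        have := abs_add_le (s - r) r
        simpa using this
      linarith
    have := hC2 s 0 hs' h0 x
    rw [e] at this
    rw [abs_mul]
    exact mul_le_mul (hCw x) this (abs_nonneg _) hCw0
  · intro x
    have := hC1 r 0 (by linarith) h0 x
    rw [e] at this
    rw [abs_mul]
    exact mul_le_mul (hCw x) this (abs_nonneg _) hCw0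
  · filter_upwards [K.RM_deriv_scale hψ] with x hx s
    exact (hx s).const_mul (w x)

omit [T2Space X] in
/-- derivative in the direction of `w` -/
theorem XEn_D2 (hψ : C11X K ψ) (hw : C11X K w) (r s : ℝ) :
    HasDerivAt (fun s => ∫ x, (ψ x + s * w x) * K.RM (fun y => r * (ψ y + s * w y)) x ∂K.vol)
      (∫ x, (w x * K.RM (fun y => r * (ψ y + s * w y)) x +
        r * ((ψ x + s * w x) * K.RL (fun y => r * (ψ y + s * w y)) w x)) ∂K.vol) s := by
  obtain ⟨Cψ, hCψ0, hCψ⟩ := XEn_bdd K hψ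
  obtain ⟨Cw, hCw0, hCw⟩ := XEn_bdd K hw
  have hrψ := C11X.const_mul K hψ r
  have hrw := C11X.const_mul K hw r
  set A : ℝ := |s| + 1 with hA
  have hA1 : 1 ≤ A := by rw [hA]; linarith [abs_nonneg s]
  obtain ⟨C1, hC10, hC1⟩ := XEn_RM_bdd K hrψ hrw A
  obtain ⟨C2, hC20, hC2⟩ := XEn_RL_bdd K hrψ hrw hrw A
  have e : ∀ s : ℝ, (fun y => r * (ψ y + s * w y)) = (fun y => r * ψ y + s * (r * w y)) :=
    fun s => by funext y; ring
  have e1 : ∀ s : ℝ, (fun y => 1 * (r * ψ y) + s * (r * w y)) =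
      (fun y => r * ψ y + s * (r * w y)) := fun s => by funext y; ring
  have hsum : ∀ s : ℝ, C11X K (fun y => ψ y + s * w y) := fun s =>
    C11X.add K hψ (C11X.const_mul K hw s)
  have hsum' : ∀ s : ℝ, C11X K (fun y => r * ψ y + s * (r * w y)) := fun s =>
    C11X.add K hrψ (C11X.const_mul K hrw s)
  have key := XEn_deriv K (s₀ := s)
    (F := fun s x => (ψ x + s * w x) * K.RM (fun y => r * ψ y + s * (r * w y)) x)
    (F' := fun s x => w x * K.RM (fun y => r * ψ y + s * (r * w y)) x +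
      (ψ x + s * w x) * K.RL (fun y => r * ψ y + s * (r * w y)) (fun y => r * w y) x)
    (C := Cw * C1 + (Cψ + A * Cw) * C2) (C' := (Cψ + A * Cw) * C1) ?_ ?_ ?_ ?_ ?_
  · have hfun : (fun s => ∫ x, (ψ x + s * w x) * K.RM (fun y => r * (ψ y + s * w y)) x ∂K.vol) =
        fun s => ∫ x, (ψ x + s * w x) * K.RM (fun y => r * ψ y + s * (r * w y)) x ∂K.vol := by
      funext s; rw [e s]
    rw [hfun]
    have hval : (∫ x, (w x * K.RM (fun y => r * (ψ y + s * w y)) x +
        r * ((ψ x + s * w x) * K.RL (fun y => r * (ψ y + s * w y)) w x)) ∂K.vol) =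
        ∫ x, (w x * K.RM (fun y => r * ψ y + s * (r * w y)) x +
      (ψ x + s * w x) * K.RL (fun y => r * ψ y + s * (r * w y)) (fun y => r * w y) x) ∂K.vol := by
      rw [e s]
      refine integral_congr_ae ?_
      filter_upwards [K.RL_const_mul (hsum' s) hw r] with x hx
      rw [hx]; ring
    rw [hval]
    exact key
  · intro s
    exact (C11X.continuous K (hsum s)).aestronglyMeasurable.mul (K.RM_meas (hsum' s))
  · exact ((C11X.continuous K hw).aestronglyMeasurable.mul (K.RM_meas (hsum' s))).add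
      ((C11X.continuous K (hsum s)).aestronglyMeasurable.mul (K.RL_meas (hsum' s) hrw))
  · intro t ht x
    have ht' : |t| ≤ A := by
      have h1 : |t - s| < 1 := by simpa [Real.dist_eq] using ht
      have h2 : |t| ≤ |t - s| + |s| := by
        have := abs_add_le (t - s) s
        simpa using this
      rw [hA]; linarith
    have b1 := hC1 1 t (by rw [abs_one]; exact hA1) ht' x
    have b2 := hC2 1 t (by rw [abs_one]; exact hA1) ht' x
    rw [e1] at b1 b2
    have b3 : |ψ x + t * w x| ≤ Cψ + A * Cw := by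
      refine (abs_add_le _ _).trans (add_le_add (hCψ x) ?_)
      rw [abs_mul]
      exact mul_le_mul ht' (hCw x) (abs_nonneg _) (by linarith)
    refine (abs_add_le _ _).trans (add_le_add ?_ ?_)
    · rw [abs_mul]; exact mul_le_mul (hCw x) b1 (abs_nonneg _) hCw0
    · rw [abs_mul]; exact mul_le_mul b3 b2 (abs_nonneg _) (by positivity)
  · intro x
    have hs' : |s| ≤ A := by rw [hA]; linarith
    have b1 := hC1 1 s (by rw [abs_one]; exact hA1) hs' x
    rw [e1] at b1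
    have b3 : |ψ x + s * w x| ≤ Cψ + A * Cw := by
      refine (abs_add_le _ _).trans (add_le_add (hCψ x) ?_)
      rw [abs_mul]
      exact mul_le_mul hs' (hCw x) (abs_nonneg _) (by linarith)
    rw [abs_mul]; exact mul_le_mul b3 b1 (abs_nonneg _) (by positivity)
  · filter_upwards [K.RM_deriv hrψ hrw] with x hx t
    have h1 : HasDerivAt (fun t : ℝ => ψ x + t * w x) (w x) t := by
      simpa using ((hasDerivAt_id t).mul_const (w x)).const_add (ψ x)
    have := h1.mul (hx t)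
    exact this

/-- the value of the derivative of the energy, before integration in the scale -/
theorem XEn_D3 (hψ : C11X K ψ) (hw : C11X K w) (r s : ℝ) :
    HasDerivAt (fun r => r * ∫ x, w x * K.RM (fun y => r * (ψ y + s * w y)) x ∂K.vol)
      (∫ x, (w x * K.RM (fun y => r * (ψ y + s * w y)) x +
        r * ((ψ x + s * w x) * K.RL (fun y => r * (ψ y + s * w y)) w x)) ∂K.vol) r := by
  have hφ : C11X K (fun y => ψ y + s * w y) := C11X.add K hψ (C11X.const_mul K hw s)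
  have hrφ := C11X.const_mul K hφ r
  have h1 := (hasDerivAt_id r).mul (XEn_D1 K hφ hw r)
  have h2 := K.sym hrφ hw hφ
  obtain ⟨Cφ, hCφ0, hCφ⟩ := XEn_bdd K hφ
  obtain ⟨Cw, hCw0, hCw⟩ := XEn_bdd K hw
  obtain ⟨C1, hC10, hC1⟩ := XEn_RM_bdd K hφ hφ (|r| + 1)
  obtain ⟨C2, hC20, hC2⟩ := XEn_RL_bdd K hφ hφ hw (|r| + 1)
  have e : ∀ s' : ℝ, (fun y => s' * (ψ y + s * w y) + 0 * (ψ y + s * w y)) =
      (fun y => s' * (ψ y + s * w y)) := fun s => by
    funext y; ring
  have h0 : |(0 : ℝ)| ≤ |r| + 1 := by rw [abs_zero]; positivity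
  have hr : |r| ≤ |r| + 1 := by linarith
  have i1 : Integrable (fun x => w x * K.RM (fun y => r * (ψ y + s * w y)) x) K.vol := by
    refine XEn_int_of_bdd K ((C11X.continuous K hw).aestronglyMeasurable.mul (K.RM_meas hrφ))
      (C := Cw * C1) fun x => ?_
    have := hC1 r 0 hr h0 x
    rw [e] at this
    rw [abs_mul]
    exact mul_le_mul (hCw x) this (abs_nonneg _) hCw0
  have i2 : Integrable (fun x => (ψ x + s * w x) * K.RL (fun y => r * (ψ y + s * w y)) w x)
      K.vol := by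
    refine XEn_int_of_bdd K ((C11X.continuous K hφ).aestronglyMeasurable.mul (K.RL_meas hrφ hw))
      (C := Cφ * C2) fun x => ?_
    have := hC2 r 0 hr h0 x
    rw [e] at this
    rw [abs_mul]
    exact mul_le_mul (hCφ x) this (abs_nonneg _) hCφ0
  rw [integral_add i1 (i2.const_mul r), integral_const_mul, ← h2]
  have h3 : HasDerivAt (fun r => r * ∫ x, w x * K.RM (fun y => r * (ψ y + s * w y)) x ∂K.vol)
      (1 * (∫ x, w x * K.RM (fun y => r * (ψ y + s * w y)) x ∂K.vol) +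
        r * ∫ x, w x * K.RL (fun y => r * (ψ y + s * w y)) (fun y => ψ y + s * w y) x ∂K.vol)
      r := h1
  rw [one_mul] at h3
  exact h3

theorem XEn_bound (hψ : C11X K ψ) (hw : C11X K w) (s₀ : ℝ) : ∃ C : ℝ, ∀ r ∈ Icc (0 : ℝ) 1,
    ∀ s ∈ ball s₀ 1, ‖∫ x, (w x * K.RM (fun y => r * (ψ y + s * w y)) x +
        r * ((ψ x + s * w x) * K.RL (fun y => r * (ψ y + s * w y)) w x)) ∂K.vol‖ ≤ C := by
  have := K.vol_finite
  obtain ⟨Cψ, hCψ0, hCψ⟩ := XEn_bdd K hψ
  obtain ⟨Cw, hCw0, hCw⟩ := XEn_bdd K hw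
  set A : ℝ := |s₀| + 1 with hA
  have hA1 : 1 ≤ A := by rw [hA]; linarith [abs_nonneg s₀]
  obtain ⟨C1, hC10, hC1⟩ := XEn_RM_bdd K hψ hw A
  obtain ⟨C2, hC20, hC2⟩ := XEn_RL_bdd K hψ hw hw A
  refine ⟨(Cw * C1 + (Cψ + A * Cw) * C2) * K.vol.real univ, fun r hr s hs => ?_⟩
  refine norm_integral_le_of_norm_le_const (Filter.Eventually.of_forall fun x => ?_)
  have hs' : |s| ≤ A := by
    have h1 : |s - s₀| < 1 := by simpa [Real.dist_eq] using hs
    have h2 : |s| ≤ |s - s₀| + |s₀| := by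
      have := abs_add_le (s - s₀) s₀
      simpa using this
    rw [hA]; linarith
  have hr' : |r| ≤ 1 := by rw [abs_of_nonneg hr.1]; exact hr.2
  have hrs : |r * s| ≤ A := by
    rw [abs_mul]
    calc |r| * |s| ≤ 1 * A := mul_le_mul hr' hs' (abs_nonneg _) zero_le_one
      _ = A := one_mul _
  have e : (fun y => r * ψ y + (r * s) * w y) = (fun y => r * (ψ y + s * w y)) := by
    funext y; ring
  have b1 := hC1 r (r * s) (hr'.trans hA1) hrs x
  have b2 := hC2 r (r * s) (hr'.trans hA1) hrs x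
  rw [e] at b1 b2
  have b3 : |ψ x + s * w x| ≤ Cψ + A * Cw := by
    refine (abs_add_le _ _).trans (add_le_add (hCψ x) ?_)
    rw [abs_mul]
    exact mul_le_mul hs' (hCw x) (abs_nonneg _) (by linarith)
  rw [Real.norm_eq_abs]
  refine (abs_add_le _ _).trans (add_le_add ?_ ?_)
  · rw [abs_mul]; exact mul_le_mul (hCw x) b1 (abs_nonneg _) hCw0
  · rw [abs_mul, abs_mul]
    calc |r| * (|ψ x + s * w x| * |K.RL (fun y => r * (ψ y + s * w y)) w x|)
        ≤ 1 * ((Cψ + A * Cw) * C2) :=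
          mul_le_mul hr' (mul_le_mul b3 b2 (abs_nonneg _) (by positivity)) (by positivity)
            zero_le_one
      _ = (Cψ + A * Cw) * C2 := one_mul _

theorem XEn_Econt (hψ : C11X K ψ) (hw : C11X K w) :
    Continuous (fun r : ℝ => ∫ x, w x * K.RM (fun y => r * ψ y) x ∂K.vol) :=
  continuous_iff_continuousAt.mpr fun r => (XEn_D1 K hψ hw r).continuousAt

/-- the derivative of the energy along a segment -/
theorem XEn_Ederiv (hψ : C11X K ψ) (hw : C11X K w) (s : ℝ) :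
    HasDerivAt (fun s => K.E (fun x => ψ x + s * w x))
      (∫ x, w x * K.RM (fun y => ψ y + s * w y) x ∂K.vol) s := by
  have hφ : ∀ s : ℝ, C11X K (fun y => ψ y + s * w y) := fun s =>
    C11X.add K hψ (C11X.const_mul K hw s)
  obtain ⟨C, hC⟩ := XEn_bound K hψ hw s
  have hgm : Measurable (fun r : ℝ => ∫ x, (w x * K.RM (fun y => r * (ψ y + s * w y)) x +
        r * ((ψ x + s * w x) * K.RL (fun y => r * (ψ y + s * w y)) w x)) ∂K.vol) := by
    have : (fun r : ℝ => ∫ x, (w x * K.RM (fun y => r * (ψ y + s * w y)) x +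
        r * ((ψ x + s * w x) * K.RL (fun y => r * (ψ y + s * w y)) w x)) ∂K.vol) =
        deriv (fun r => r * ∫ x, w x * K.RM (fun y => r * (ψ y + s * w y)) x ∂K.vol) := by
      funext r
      exact (XEn_D3 K hψ hw r s).deriv.symm
    rw [this]
    exact measurable_deriv _
  have hIcc : ∀ r ∈ Set.uIoc (0 : ℝ) 1, r ∈ Icc (0 : ℝ) 1 := fun r hr => by
    rw [uIoc_of_le zero_le_one] at hr
    exact ⟨hr.1.le, hr.2⟩
  have h := intervalIntegral.hasDerivAt_integral_of_dominated_loc_of_deriv_le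
    (μ := volume) (a := 0) (b := 1) (x₀ := s) (bound := fun _ => C) (s := ball s 1)
    (F := fun s r => ∫ x, (ψ x + s * w x) * K.RM (fun y => r * (ψ y + s * w y)) x ∂K.vol)
    (F' := fun s r => ∫ x, (w x * K.RM (fun y => r * (ψ y + s * w y)) x +
        r * ((ψ x + s * w x) * K.RL (fun y => r * (ψ y + s * w y)) w x)) ∂K.vol)
    (ball_mem_nhds s one_pos)
    (Filter.Eventually.of_forall fun s =>
      (XEn_Econt K (hφ s) (hφ s)).aestronglyMeasurable)
    ((XEn_Econt K (hφ s) (hφ s)).intervalIntegrable 0 1)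
    hgm.aestronglyMeasurable
    (Filter.Eventually.of_forall fun r hr s hs => hC r (hIcc r hr) s hs)
    (intervalIntegrable_const)
    (Filter.Eventually.of_forall fun r hr s hs => XEn_D2 K hψ hw r s)
  have h2 := h.2
  have hval : (∫ r in (0 : ℝ)..1, ∫ x, (w x * K.RM (fun y => r * (ψ y + s * w y)) x +
        r * ((ψ x + s * w x) * K.RL (fun y => r * (ψ y + s * w y)) w x)) ∂K.vol) =
      ∫ x, w x * K.RM (fun y => ψ y + s * w y) x ∂K.vol := by
    rw [intervalIntegral.integral_eq_sub_of_hasDerivAt (fun r _ => XEn_D3 K hψ hw r s)]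
    · simp
    · rw [intervalIntegrable_iff]
      have : IsFiniteMeasure (volume.restrict (Set.uIoc (0 : ℝ) 1)) := by
        rw [uIoc_of_le zero_le_one]; infer_instance
      refine Integrable.of_bound hgm.aestronglyMeasurable C ?_
      filter_upwards [ae_restrict_mem measurableSet_uIoc] with r hr
      exact hC r (hIcc r hr) s (mem_ball_self one_pos)
  rw [hval] at h2
  exact h2

theorem XEn_Hcont (hψ : C11X K ψ) (hw : C11X K w) :
    Continuous (fun s : ℝ => ∫ x, w x * K.RM (fun y => ψ y + s * w y) x ∂K.vol) := by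
  rw [continuous_iff_continuousAt]
  intro s
  obtain ⟨Cw, hCw0, hCw⟩ := XEn_bdd K hw
  set A : ℝ := |s| + 1 with hA
  have hA1 : 1 ≤ A := by rw [hA]; linarith [abs_nonneg s]
  obtain ⟨C1, hC10, hC1⟩ := XEn_RM_bdd K hψ hw A
  obtain ⟨C2, hC20, hC2⟩ := XEn_RL_bdd K hψ hw hw A
  have e1 : ∀ s : ℝ, (fun y => 1 * ψ y + s * w y) = (fun y => ψ y + s * w y) := fun s => by
    funext y; ring
  have hsum : ∀ s : ℝ, C11X K (fun y => ψ y + s * w y) := fun s =>
    C11X.add K hψ (C11X.const_mul K hw s)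
  have key := XEn_deriv K (s₀ := s)
    (F := fun s x => w x * K.RM (fun y => ψ y + s * w y) x)
    (F' := fun s x => w x * K.RL (fun y => ψ y + s * w y) w x)
    (C := Cw * C2) (C' := Cw * C1) ?_ ?_ ?_ ?_ ?_
  · exact key.continuousAt
  · intro s
    exact (C11X.continuous K hw).aestronglyMeasurable.mul (K.RM_meas (hsum s))
  · exact (C11X.continuous K hw).aestronglyMeasurable.mul (K.RL_meas (hsum s) hw)
  · intro t ht x
    have ht' : |t| ≤ A := by
      have h1 : |t - s| < 1 := by simpa [Real.dist_eq] using ht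
      have h2 : |t| ≤ |t - s| + |s| := by
        have := abs_add_le (t - s) s
        simpa using this
      rw [hA]; linarith
    have b2 := hC2 1 t (by rw [abs_one]; exact hA1) ht' x
    rw [e1] at b2
    rw [abs_mul]; exact mul_le_mul (hCw x) b2 (abs_nonneg _) hCw0
  · intro x
    have hs' : |s| ≤ A := by rw [hA]; linarith
    have b1 := hC1 1 s (by rw [abs_one]; exact hA1) hs' x
    rw [e1] at b1
    rw [abs_mul]; exact mul_le_mul (hCw x) b1 (abs_nonneg _) hCw0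
  · filter_upwards [K.RM_deriv hψ hw] with x hx t
    exact (hx t).const_mul (w x)

theorem KM.E_diff (hψ : C11X K ψ) (hw : C11X K w) :
    K.E (fun x => ψ x + w x) - K.E ψ =
      ∫ s in (0 : ℝ)..1, ∫ x, w x * K.RM (fun y => ψ y + s * w y) x ∂K.vol := by
  rw [intervalIntegral.integral_eq_sub_of_hasDerivAt (fun s _ => XEn_Ederiv K hψ hw s)
    ((XEn_Hcont K hψ hw).intervalIntegrable 0 1)]
  simp

theorem KM.E_add_const (hψ : C11X K ψ) (c : ℝ) :
    K.E (fun x => ψ x + c) = K.E ψ + c * K.vol.real univ := by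
  have h := K.E_diff hψ (c11X_const K c)
  have h2 : ∀ s : ℝ, ∫ x, c * K.RM (fun y => ψ y + s * c) x ∂K.vol = c * K.vol.real univ := by
    intro s
    rw [integral_const_mul, K.mass (C11X.add K hψ (c11X_const K (s * c)))]
  simp only [h2] at h
  rw [intervalIntegral.integral_const, smul_eq_mul] at h
  linarith

theorem XEn_RM_int (hψ : C11X K ψ) : Integrable (K.RM ψ) K.vol := by
  obtain ⟨C1, hC10, hC1⟩ := XEn_RM_bdd K hψ hψ 1
  refine XEn_int_of_bdd K (K.RM_meas hψ) (C := C1) fun x => ?_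
  have := hC1 1 0 (by simp) (by simp) x
  have e : (fun y => 1 * ψ y + 0 * ψ y) = ψ := by funext y; ring
  rwa [e] at this

theorem XEn_mul_int (hψ : C11X K ψ) (hw : C11X K w) :
    Integrable (fun x => w x * K.RM ψ x) K.vol := by
  obtain ⟨Cw, hCw0, hCw⟩ := XEn_bdd K hw
  exact (XEn_RM_int K hψ).bdd_mul (C11X.continuous K hw).aestronglyMeasurable
    (Filter.Eventually.of_forall hCw)

theorem KM.E_le (hψ : WK K ψ) {M : ℝ} (hM : 0 ≤ M) (h : ∀ x, ψ x ≤ M) :
    K.E ψ ≤ M * K.vol.real univ := by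
  have h1 : ∀ r ∈ Icc (0 : ℝ) 1, ∫ x, ψ x * K.RM (fun y => r * ψ y) x ∂K.vol ≤
      M * K.vol.real univ := by
    intro r hr
    have hr' : WK K (fun y => r * ψ y) := by
      have := WK.convex K (wk_const K 0) hψ hr.1 hr.2
      simpa using this
    have hc := hr'.c11
    rw [← K.mass hc, ← integral_const_mul]
    refine integral_mono_ae (XEn_mul_int K hc hψ.c11) ((XEn_RM_int K hc).const_mul M) ?_
    filter_upwards [K.RM_nonneg hr'] with x hx
    exact mul_le_mul_of_nonneg_right (h x) hx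
  have h2 := intervalIntegral.integral_mono_on zero_le_one
    ((XEn_Econt K hψ.c11 hψ.c11).intervalIntegrable 0 1)
    (intervalIntegrable_const (μ := volume) (c := M * K.vol.real univ)) h1
  rw [intervalIntegral.integral_const, smul_eq_mul] at h2
  unfold KM.E
  linarith

theorem KM.E_mono (hv : WK K v) (hw : WK K w) (h : ∀ x, v x ≤ w x) :
    (1 / (n + 1 : ℝ)) * ∫ x, (w x - v x) * K.RM w x ∂K.vol ≤ K.E w - K.E v := by
  have hd : C11X K (fun x => w x + (-1) * v x) := C11X.add K hw.c11 (C11X.const_mul K hv.c11 (-1))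
  have hd' : (fun x => w x + (-1) * v x) = fun x => w x - v x := by funext x; ring
  rw [hd'] at hd
  have h1 := K.E_diff hv.c11 hd
  have e1 : (fun x => v x + (w x - v x)) = w := by funext x; ring
  rw [e1] at h1
  rw [h1]
  have e2 : ∀ s : ℝ, (fun y => v y + s * (w y - v y)) = fun y => (1 - s) * v y + s * w y :=
    fun s => by funext y; ring
  set c := ∫ x, (w x - v x) * K.RM w x ∂K.vol with hc
  have h2 : ∀ s ∈ Icc (0 : ℝ) 1, s ^ n * c ≤
      ∫ x, (w x - v x) * K.RM (fun y => v y + s * (w y - v y)) x ∂K.vol := by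
    intro s hs
    rw [hc, ← integral_const_mul]
    refine integral_mono_ae ((XEn_mul_int K hw.c11 hd).const_mul _)
      (XEn_mul_int K (C11X.add K hv.c11 (C11X.const_mul K hd s)) hd) ?_
    filter_upwards [K.RM_convex hv hw hs.1 hs.2] with x hx
    rw [e2]
    have h3 : 0 ≤ w x - v x := sub_nonneg.mpr (h x)
    nlinarith [mul_le_mul_of_nonneg_left hx h3]
  have h3 := intervalIntegral.integral_mono_on zero_le_one
    (Continuous.intervalIntegrable (μ := volume) (u := fun s : ℝ => s ^ n * c) (by fun_prop) 0 1)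
    ((XEn_Hcont K hv.c11 hd).intervalIntegrable 0 1) h2
  rw [intervalIntegral.integral_mul_const, integral_pow] at h3
  simpa using h3

theorem KM.E_mono' (hv : WK K v) (hw : WK K w) (h : ∀ x, v x ≤ w x) : K.E v ≤ K.E w := by
  have h1 := K.E_mono hv hw h
  have h2 : 0 ≤ ∫ x, (w x - v x) * K.RM w x ∂K.vol := by
    refine integral_nonneg_of_ae ?_
    filter_upwards [K.RM_nonneg hw] with x hx
    exact mul_nonneg (sub_nonneg.mpr (h x)) hx
  have h3 : 0 ≤ (1 / (n + 1 : ℝ)) * ∫ x, (w x - v x) * K.RM w x ∂K.vol := by positivity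
  linarith

end HMA

end S_KM_XEn

section S_KM_XTheta

/-! # Module XTheta: composition with convex functions -/

open MeasureTheory Metric Set
open scoped ENNReal Topology ContDiff ComplexOrder

namespace HMA

variable {n : ℕ} {X : Type} [TopologicalSpace X] (K : KM n X)

theorem xtheta_rho_psd (i : Fin K.N) {z : Cn n} (hz : z ∈ ball (0 : Cn n) 3)
    (h : TwD (K.ρ i) z) : (LM (K.ρ i) z).PosSemidef := by
  rw [h.psd_iff]
  intro ξ
  by_cases hξ : ξ = 0
  · rw [h.lev, hξ]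
    simp
  · exact (K.ρ_pos i z hz ξ hξ).le

theorem xtheta_smul {A : Matrix (Fin n) (Fin n) ℂ} (hA : A.PosSemidef) {s : ℝ} (hs : 0 ≤ s) :
    ((s : ℂ) • A).PosSemidef := by
  apply hA.smul
  exact_mod_cast hs

theorem WK.theta {ψ : X → ℝ} (hψ : WK K ψ) {θ : ℝ → ℝ} (hθ : ContDiff ℝ ∞ θ)
    (h1 : ∀ x, 0 ≤ deriv θ x ∧ deriv θ x ≤ 1) (h2 : ∀ x, 0 ≤ deriv (deriv θ) x) :
    WK K (fun x => θ (ψ x)) := by
  have hθ2 : ContDiff ℝ 2 θ := (contDiff_infty.1 hθ) 2
  have hc : C11X K (fun x => θ (ψ x)) := fun i => C11.comp_real isOpen_ball (hψ.c11 i) hθ2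
  refine ⟨hc, fun i => ?_⟩
  have hρ : C11 (ball 0 3) (K.ρ i) := KM.ρ_c11 K i
  rw [c11_sub_iff isOpen_ball (C11.add isOpen_ball hρ (hc i))]
  have h3 := (c11_sub_iff isOpen_ball (C11.add isOpen_ball hρ (hψ.c11 i))).1 (hψ.sub i)
  filter_upwards [h3, C11.ae_twD isOpen_ball hρ, C11.ae_twD isOpen_ball (hψ.c11 i)]
    with z hz1 hz2 hz3 hz
  have t1 := hz2 hz
  have t2 := hz3 hz
  have p1 := hz1 hz
  obtain ⟨t3, G, hG, hG2⟩ := TwD.comp_real t2 hθ2
  rw [(TwD.add t1 t2).2] at p1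
  rw [(TwD.add t1 t3).2, hG2]
  set θ1 : ℝ := deriv θ (ψ (K.κ i z)) with hθ1
  set θ2 : ℝ := deriv (deriv θ) (ψ (K.κ i z)) with hθ22
  have e : LM (K.ρ i) z + (((θ1 : ℝ) : ℂ) • LM (fun z => ψ (K.κ i z)) z + ((θ2 : ℝ) : ℂ) • G) =
      (((1 - θ1 : ℝ) : ℂ) • LM (K.ρ i) z + ((θ1 : ℝ) : ℂ) • (LM (K.ρ i) z +
        LM (fun z => ψ (K.κ i z)) z)) + ((θ2 : ℝ) : ℂ) • G := by
    rw [smul_add]
    push_cast
    rw [sub_smul, one_smul]
    abel
  rw [e]
  exact ((xtheta_smul (xtheta_rho_psd K i hz t1) (sub_nonneg.2 (h1 _).2)).add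
    (xtheta_smul p1 (h1 _).1)).add (xtheta_smul hG (h2 _))

end HMA

end S_KM_XTheta

section S_KM_XMass

/-! # Module XMass: almost extremal functions -/

open MeasureTheory Metric Set
open scoped ENNReal Topology ContDiff ComplexOrder

namespace HMA

variable {n : ℕ} {X : Type} [TopologicalSpace X] (K : KM n X)

theorem xmass_sub_const {ψ : X → ℝ} (hψ : WK K ψ) (c : ℝ) : WK K (fun x => ψ x - c) := by
  have h1 : deriv (fun x : ℝ => x - c) = fun _ => 1 := by
    funext x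
    simp
  have := WK.theta K hψ (θ := fun x => x - c) (by fun_prop) (fun x => by rw [h1]; norm_num)
    (fun x => by rw [h1]; simp)
  exact this

theorem xmass_cut {ψ : X → ℝ} (hψ : WK K ψ) {η : ℝ} (hη : 0 < η) :
    ∃ ψ₁ : X → ℝ, WK K ψ₁ ∧ ∀ x, max (ψ x) (-1) - η ≤ ψ₁ x ∧ ψ₁ x ≤ max (ψ x) (-1) := by
  obtain ⟨θ, hθ, -, -, h1, h2, h3⟩ := exists_theta hη
  have hd1 : deriv (fun x : ℝ => θ (x + 1) - 1 - η) = fun x => deriv θ (x + 1) := by
    funext x
    rw [deriv_sub_const, deriv_sub_const, deriv_comp_add_const]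
  refine ⟨fun x => θ (ψ x + 1) - 1 - η, ?_, ?_⟩
  · refine WK.theta K hψ (θ := fun x => θ (x + 1) - 1 - η) ?_ ?_ ?_
    · exact ((hθ.comp (contDiff_id.add contDiff_const)).sub contDiff_const).sub contDiff_const
    · intro x
      rw [hd1]
      exact h1 _
    · intro x
      rw [hd1, deriv_comp_add_const]
      exact h2 _
  · intro x
    obtain ⟨h4, h5⟩ := h3 (ψ x + 1)
    have h6 : max (ψ x + 1) 0 = max (ψ x) (-1) + 1 := by
      rw [← max_add_add_right]
      norm_num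
    rw [h6] at h4 h5
    constructor
    · show max (ψ x) (-1) - η ≤ θ (ψ x + 1) - 1 - η
      linarith
    · show θ (ψ x + 1) - 1 - η ≤ max (ψ x) (-1)
      linarith

variable [MeasurableSpace X] [BorelSpace X] [T2Space X] [CompactSpace X]

/-- Let `Q` be a subset of `X` and suppose that the functions of `WK` with `ψ ≤ 0` on `Q` are bounded by
`M`. Then there is such a function, with values in `[-2, M]`, whose Monge-Ampère measure has
arbitrarily small integral against finitely many bumps vanishing on `Q`. -/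
theorem KM.almost_extremal [Nonempty X] (Q : Set X) {M : ℝ} (hM : 0 ≤ M)
    (hQ : ∀ ψ : X → ℝ, WK K ψ → (∀ x ∈ Q, ψ x ≤ 0) → ∀ x, ψ x ≤ M)
    (b : Fin K.N → Cn n → ℝ) (hb : ∀ i, ContDiff ℝ ∞ (b i)) (hb0 : ∀ i z, 0 ≤ b i z)
    (hbs : ∀ i, tsupport (b i) ⊆ ball 0 2)
    (hbQ : ∀ i, ∀ z ∈ ball (0 : Cn n) 3, K.κ i z ∈ Q → b i z = 0) {η : ℝ} (hη : 0 < η) :
    ∃ ψ : X → ℝ, WK K ψ ∧ (∀ x ∈ Q, ψ x ≤ 0) ∧ (∀ x, -2 ≤ ψ x ∧ ψ x ≤ M) ∧
      ∀ i, ∫ x, K.ext i (b i) x * K.RM ψ x ∂K.vol ≤ η := by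
  classical
  -- the constants of `loc_mass`
  choose C hC0 hC using fun i => KM.loc_mass K i (hb i) (hb0 i) (hbs i) (max M 2)
  obtain ⟨D, hD0, hD⟩ : ∃ D : ℝ, 0 < D ∧ ∀ i, C i ≤ D := by
    refine ⟨∑ i, C i + 1, ?_, fun i => ?_⟩
    · have : 0 ≤ ∑ i, C i := Finset.sum_nonneg fun i _ => (hC0 i).le
      linarith
    · have : C i ≤ ∑ i, C i :=
        Finset.single_le_sum (f := C) (fun j _ => (hC0 j).le) (Finset.mem_univ i)
      linarith
  set t : ℝ := min 1 (η / (2 * D)) with ht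
  have ht0 : 0 < t := lt_min one_pos (by positivity)
  have ht1 : t ≤ 1 := min_le_left _ _
  have htD : D * t ≤ η / 2 := by
    have h1 : t ≤ η / (2 * D) := min_le_right _ _
    calc D * t ≤ D * (η / (2 * D)) := mul_le_mul_of_nonneg_left h1 hD0.le
      _ = η / 2 := by field_simp
  set δ : ℝ := t * η / (2 * (n + 1)) with hδ
  have hδ0 : 0 < δ := by positivity
  set V : ℝ := K.vol.real univ with hV
  have hV0 : 0 ≤ V := measureReal_nonneg
  -- the supremum of the energy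
  set A : Set ℝ := {e | ∃ ψ : X → ℝ, WK K ψ ∧ (∀ x ∈ Q, ψ x ≤ 0) ∧ K.E ψ = e} with hA
  have hAne : A.Nonempty := ⟨K.E (fun _ => 0), fun _ => 0, wk_const K 0, fun _ _ => le_rfl, rfl⟩
  have hAb : BddAbove A := by
    refine ⟨M * V, ?_⟩
    rintro e ⟨ψ, hψ, hψQ, rfl⟩
    exact KM.E_le K hψ hM (hQ ψ hψ hψQ)
  obtain ⟨e, ⟨ψ₀, hψ₀, hψ₀Q, rfl⟩, he⟩ := exists_lt_of_lt_csSup hAne
    (show sSup A - δ / 2 < sSup A by linarith)
  -- cutting from below
  set η' : ℝ := min 1 (δ / (2 * (V + 1))) with hη'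
  have hη'0 : 0 < η' := lt_min one_pos (by positivity)
  have hη'1 : η' ≤ 1 := min_le_left _ _
  have hη'V : η' * V ≤ δ / 2 := by
    have h1 : η' ≤ δ / (2 * (V + 1)) := min_le_right _ _
    calc η' * V ≤ η' * (V + 1) := mul_le_mul_of_nonneg_left (by linarith) hη'0.le
      _ ≤ δ / (2 * (V + 1)) * (V + 1) := mul_le_mul_of_nonneg_right h1 (by linarith)
      _ = δ / 2 := by field_simp
  obtain ⟨ψ₁, hψ₁, hψ₁b⟩ := xmass_cut K hψ₀ hη'0
  have hψ₀M := hQ ψ₀ hψ₀ hψ₀Q
  have hψ₁Q : ∀ x ∈ Q, ψ₁ x ≤ 0 := fun x hx =>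
    (hψ₁b x).2.trans (max_le (hψ₀Q x hx) (by norm_num))
  have hψ₁2 : ∀ x, -2 ≤ ψ₁ x := by
    intro x
    have h1 := (hψ₁b x).1
    have h2 : (-1 : ℝ) ≤ max (ψ₀ x) (-1) := le_max_right _ _
    linarith
  have hψ₁M : ∀ x, ψ₁ x ≤ M := fun x =>
    (hψ₁b x).2.trans (max_le (hψ₀M x) (by linarith))
  have hψ₁abs : ∀ x, |ψ₁ x| ≤ max M 2 := by
    intro x
    rw [abs_le]
    constructor
    · have h1 : (2 : ℝ) ≤ max M 2 := le_max_right _ _
      have h2 := hψ₁2 x
      linarith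
    · exact (hψ₁M x).trans (le_max_left _ _)
  have hE1 : sSup A - δ ≤ K.E ψ₁ := by
    have h1 : WK K (fun x => ψ₀ x - η') := xmass_sub_const K hψ₀ η'
    have h2 : K.E (fun x => ψ₀ x - η') ≤ K.E ψ₁ := by
      refine KM.E_mono' K h1 hψ₁ fun x => ?_
      have h3 := (hψ₁b x).1
      have h4 : ψ₀ x ≤ max (ψ₀ x) (-1) := le_max_left _ _
      linarith
    have h3 : K.E (fun x => ψ₀ x + (-η')) = K.E ψ₀ + (-η') * K.vol.real univ :=
      KM.E_add_const K hψ₀.c11 (-η')
    have h4 : (fun x => ψ₀ x - η') = fun x => ψ₀ x + (-η') := by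
      funext x
      ring
    rw [h4, h3] at h2
    linarith
  refine ⟨ψ₁, hψ₁, hψ₁Q, fun x => ⟨hψ₁2 x, hψ₁M x⟩, fun i => ?_⟩
  obtain ⟨g, hg, hgb, hWK, hint⟩ := KM.loc_mod K hψ₁ i (hb i) (hb0 i) (hbs i) ht0
  have hext0 : ∀ x, 0 ≤ K.ext i g x := by
    intro x
    unfold KM.ext
    split_ifs
    · exact (hgb _).1
    · exact le_rfl
  have hextQ : ∀ x ∈ Q, K.ext i g x = 0 := by
    intro x hx
    unfold KM.ext
    split_ifs with h
    · have h1 := Function.invFunOn_mem h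
      have h2 := Function.invFunOn_eq h
      have h3 := hbQ i _ h1 (by rw [h2]; exact hx)
      have h4 := hgb (Function.invFunOn (K.κ i) (ball 0 3) x)
      rw [h3, mul_zero] at h4
      exact le_antisymm h4.2 h4.1
    · rfl
  have hE2 : K.E (fun x => ψ₁ x + K.ext i g x) ≤ sSup A := by
    refine le_csSup hAb ⟨_, hWK, fun x hx => ?_, rfl⟩
    rw [hextQ x hx, add_zero]
    exact hψ₁Q x hx
  have hE3 := KM.E_mono K hψ₁ hWK (fun x => by
    have := hext0 x
    linarith)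
  have hE4 : (fun x => (ψ₁ x + K.ext i g x - ψ₁ x) *
      K.RM (fun x => ψ₁ x + K.ext i g x) x) = fun x => K.ext i g x *
      K.RM (fun x => ψ₁ x + K.ext i g x) x := by
    funext x
    ring
  rw [hE4, hint] at hE3
  set J : ℝ := ∫ x, K.ext i (b i) x * K.RM (fun y => ψ₁ y + K.ext i g y) x ∂K.vol with hJ
  have hE5 : 1 / (n + 1 : ℝ) * (t * J) ≤ δ := by
    refine hE3.trans ?_
    linarith
  have hJle : J ≤ η / 2 := by
    have hn1 : (0 : ℝ) < n + 1 := by positivity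
    have h1 : t * J ≤ (n + 1) * δ := by
      have := mul_le_mul_of_nonneg_left hE5 hn1.le
      calc t * J = (n + 1) * (1 / (n + 1 : ℝ) * (t * J)) := by field_simp
        _ ≤ (n + 1) * δ := this
    have h2 : ((n : ℝ) + 1) * δ = t * (η / 2) := by
      rw [hδ]
      field_simp
    rw [h2] at h1
    exact le_of_mul_le_mul_left h1 ht0
  have h6 := hC i ψ₁ hψ₁ hψ₁abs t ht0 ht1 g hg hgb hWK
  have h7 := (abs_le.1 h6).1
  have h8 : C i * t ≤ D * t := mul_le_mul_of_nonneg_right (hD i) ht0.le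
  linarith

end HMA

end S_KM_XMass

section S_KM_HFun2

/-! # Module HFun2: powers of the coordinates -/

open MeasureTheory Metric Set
open scoped ENNReal Topology ContDiff ComplexOrder

namespace HMA

/-- the map `(z_i) ↦ (z_i ^ (a i))` -/
noncomputable def pw {n : ℕ} (a : Fin n → ℕ) (z : Cn n) : Cn n :=
  WithLp.toLp 2 (fun i => z i ^ a i)

theorem pw_diff {n : ℕ} (a : Fin n → ℕ) : Differentiable ℂ (pw (n := n) a) := by
  rw [differentiable_euclidean]
  intro i
  exact ((EuclideanSpace.proj i : EuclideanSpace ℂ (Fin n) →L[ℂ] ℂ).differentiable).pow (a i)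

/-- the number of the sector of a complex number, `a` sectors -/
noncomputable def hfun2_sec (a : ℕ) (ζ : ℂ) : ℕ :=
  ⌈(Complex.arg ζ + Real.pi) * a / (2 * Real.pi)⌉₊

theorem hfun2_sec_bd {a : ℕ} (ha : 1 ≤ a) (ζ : ℂ) :
    1 ≤ hfun2_sec a ζ ∧ hfun2_sec a ζ ≤ a := by
  have hpi := Real.pi_pos
  have h1 : -Real.pi < Complex.arg ζ := Complex.neg_pi_lt_arg ζ
  have h2 : Complex.arg ζ ≤ Real.pi := Complex.arg_le_pi ζ
  have ha' : (0 : ℝ) < a := by exact_mod_cast ha
  unfold hfun2_sec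
  constructor
  · rw [Nat.one_le_ceil_iff]
    have h3 : 0 < Complex.arg ζ + Real.pi := by linarith
    positivity
  · rw [Nat.ceil_le, div_le_iff₀ (by positivity)]
    have h3 : Complex.arg ζ + Real.pi ≤ 2 * Real.pi := by linarith
    calc (Complex.arg ζ + Real.pi) * a ≤ 2 * Real.pi * a :=
          mul_le_mul_of_nonneg_right h3 ha'.le
      _ = a * (2 * Real.pi) := by ring

theorem hfun2_ceil {x y : ℝ} (hx : 0 ≤ x) (hy : 0 ≤ y) (h : ⌈x⌉₊ = ⌈y⌉₊) : |x - y| < 1 := by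
  have h1 := Nat.le_ceil x
  have h2 := Nat.le_ceil y
  have h3 := Nat.ceil_lt_add_one hx
  have h4 := Nat.ceil_lt_add_one hy
  rw [h] at h1 h3
  rw [abs_lt]
  constructor <;> linarith

theorem hfun2_inj {a : ℕ} (ha : 1 ≤ a) {z w : ℂ} (h : z ^ a = w ^ a)
    (hs : hfun2_sec a z = hfun2_sec a w) : z = w := by
  have hpi := Real.pi_pos
  have ha' : (0 : ℝ) < a := by exact_mod_cast ha
  have ha0 : a ≠ 0 := by omega
  by_cases hz : z = 0
  · rw [hz, zero_pow ha0] at h
    rw [hz, pow_eq_zero_iff ha0 |>.1 h.symm]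
  have hw : w ≠ 0 := by
    rintro rfl
    rw [zero_pow ha0] at h
    exact hz ((pow_eq_zero_iff ha0).1 h)
  have hnorm : ‖z‖ = ‖w‖ := by
    have h1 : ‖z‖ ^ a = ‖w‖ ^ a := by rw [← norm_pow, ← norm_pow, h]
    exact (pow_left_inj₀ (norm_nonneg _) (norm_nonneg _) ha0).1 h1
  refine Complex.ext_norm_arg hnorm ?_
  -- the arguments
  have h2 : z ^ a = (‖z‖ : ℂ) ^ a * Complex.exp ((a : ℂ) * (Complex.arg z * Complex.I)) := by
    conv_lhs => rw [← Complex.norm_mul_exp_arg_mul_I z]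
    rw [mul_pow, ← Complex.exp_nat_mul]
  have h3 : w ^ a = (‖w‖ : ℂ) ^ a * Complex.exp ((a : ℂ) * (Complex.arg w * Complex.I)) := by
    conv_lhs => rw [← Complex.norm_mul_exp_arg_mul_I w]
    rw [mul_pow, ← Complex.exp_nat_mul]
  have hn0 : (‖w‖ : ℂ) ^ a ≠ 0 := by
    refine pow_ne_zero _ ?_
    exact_mod_cast (norm_pos_iff.2 hw).ne'
  have h4 : Complex.exp ((a : ℂ) * (Complex.arg z * Complex.I)) =
      Complex.exp ((a : ℂ) * (Complex.arg w * Complex.I)) := by
    rw [h2, h3, hnorm] at h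
    exact mul_left_cancel₀ hn0 h
  obtain ⟨m, hm⟩ := Complex.exp_eq_exp_iff_exists_int.1 h4
  have h5 : (a : ℝ) * (Complex.arg z - Complex.arg w) = m * (2 * Real.pi) := by
    have h6 : (((a : ℝ) * (Complex.arg z - Complex.arg w) : ℝ) : ℂ) * Complex.I =
        ((m * (2 * Real.pi) : ℝ) : ℂ) * Complex.I := by
      push_cast
      linear_combination hm
    have h7 := mul_right_cancel₀ Complex.I_ne_zero h6
    exact_mod_cast h7
  have h8 := hfun2_ceil (x := (Complex.arg z + Real.pi) * a / (2 * Real.pi))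
    (y := (Complex.arg w + Real.pi) * a / (2 * Real.pi))
    (div_nonneg (mul_nonneg (by linarith [Complex.neg_pi_lt_arg z]) ha'.le) (by positivity))
    (div_nonneg (mul_nonneg (by linarith [Complex.neg_pi_lt_arg w]) ha'.le) (by positivity)) hs
  have h9 : (Complex.arg z + Real.pi) * a / (2 * Real.pi) -
      (Complex.arg w + Real.pi) * a / (2 * Real.pi) = m := by
    rw [← sub_div, div_eq_iff (by positivity)]
    linarith
  rw [h9] at h8
  have h10 : m = 0 := by
    have h11 : |m| < 1 := by exact_mod_cast h8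
    exact Int.abs_lt_one_iff.1 h11
  rw [h10] at h5
  simp only [Int.cast_zero, zero_mul] at h5
  rcases mul_eq_zero.1 h5 with h12 | h12
  · exact absurd h12 ha'.ne'
  · linarith

/-- the integral over the polydisc of a pull back, multiplicity `∏ a i` -/
theorem lintegral_pw {n : ℕ} (a : Fin n → ℕ) (ha : ∀ i, 1 ≤ a i) (g : Cn n → ℝ≥0∞)
    (hg : Measurable g) :
    ∫⁻ z in pdisc n, ENNReal.ofReal (‖(jac (pw a) z).det‖ ^ 2) * g (pw a z) ≤
      (∏ i, (a i : ℝ≥0∞)) * ∫⁻ z, g z := by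
  let E : (∀ i, Fin (a i)) → Set (Cn n) := fun k =>
    {z | ∀ i, hfun2_sec (a i) (z i) = (k i : ℕ) + 1} ∩ pdisc n
  have hpd : MeasurableSet (pdisc n) := by
    have h1 : pdisc n = ⋂ i, {ζ : Cn n | ‖ζ i‖ < 1} := by
      ext ζ
      simp [pdisc]
    rw [h1]
    refine MeasurableSet.iInter (fun i => ?_)
    refine (isOpen_lt ?_ continuous_const).measurableSet
    exact ((EuclideanSpace.proj i : EuclideanSpace ℂ (Fin n) →L[ℂ] ℂ).continuous).norm
  have hE : ∀ k, MeasurableSet (E k) := by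
    intro k
    refine MeasurableSet.inter ?_ hpd
    have h1 : {z : Cn n | ∀ i, hfun2_sec (a i) (z i) = (k i : ℕ) + 1} =
        ⋂ i, {z : Cn n | hfun2_sec (a i) (z i) = (k i : ℕ) + 1} := by
      ext z
      simp
    rw [h1]
    refine MeasurableSet.iInter (fun i => ?_)
    have h2 : Measurable (fun z : Cn n => hfun2_sec (a i) (z i)) := by
      unfold hfun2_sec
      refine Nat.measurable_ceil.comp ?_
      have h3 : Measurable (fun z : Cn n => z i) :=
        ((EuclideanSpace.proj i : EuclideanSpace ℂ (Fin n) →L[ℂ] ℂ).continuous).measurable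
      exact (((Complex.measurable_arg.comp h3).add_const _).mul_const _).div_const _
    exact h2 (measurableSet_singleton _)
  have hcov : pdisc n ⊆ ⋃ k, E k := by
    intro z hz
    rw [mem_iUnion]
    refine ⟨fun i => ⟨hfun2_sec (a i) (z i) - 1, ?_⟩, fun i => ?_, hz⟩
    · have h1 := hfun2_sec_bd (ha i) (z i)
      omega
    · have h1 := hfun2_sec_bd (ha i) (z i)
      show hfun2_sec (a i) (z i) = hfun2_sec (a i) (z i) - 1 + 1
      omega
  have hpiece : ∀ k, ∫⁻ z in E k, ENNReal.ofReal (‖(jac (pw a) z).det‖ ^ 2) * g (pw a z) ≤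
      ∫⁻ z, g z := by
    intro k
    have h1 : InjOn (pw a) (E k) := by
      intro z hz w hw hzw
      have h2 : ∀ i, z i = w i := by
        intro i
        refine hfun2_inj (ha i) ?_ ((hz.1 i).trans (hw.1 i).symm)
        have h3 := congrArg (fun x : Cn n => x i) hzw
        exact h3
      ext i
      exact h2 i
    rw [← lintegral_hol isOpen_univ (pw_diff a).differentiableOn (hE k) (subset_univ _) h1 g]
    exact setLIntegral_le_lintegral _ _
  calc ∫⁻ z in pdisc n, ENNReal.ofReal (‖(jac (pw a) z).det‖ ^ 2) * g (pw a z) ≤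
        ∫⁻ z in ⋃ k, E k, ENNReal.ofReal (‖(jac (pw a) z).det‖ ^ 2) * g (pw a z) :=
        lintegral_mono_set hcov
    _ ≤ ∑' k, ∫⁻ z in E k, ENNReal.ofReal (‖(jac (pw a) z).det‖ ^ 2) * g (pw a z) :=
        lintegral_iUnion_le _ _
    _ = ∑ k, ∫⁻ z in E k, ENNReal.ofReal (‖(jac (pw a) z).det‖ ^ 2) * g (pw a z) :=
        tsum_fintype _
    _ ≤ ∑ _k : (∀ i, Fin (a i)), ∫⁻ z, g z := Finset.sum_le_sum (fun k _ => hpiece k)
    _ = (∏ i, (a i : ℝ≥0∞)) * ∫⁻ z, g z := by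
        rw [Finset.sum_const, Finset.card_univ, Fintype.card_pi, nsmul_eq_mul]
        congr 1
        push_cast
        refine Finset.prod_congr rfl (fun i _ => ?_)
        rw [Fintype.card_fin]

end HMA

end S_KM_HFun2

section S_KM_HFun

/-! # Module HFun: a comparison function on the polydisc -/

open MeasureTheory Metric Set
open scoped ENNReal Topology ContDiff ComplexOrder

namespace HMA

theorem hFun_pw_contDiff {n : ℕ} (a : Fin n → ℕ) : ContDiff ℂ ∞ (pw (n := n) a) :=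
  contDiffOn_univ.1 (hol_contDiffOn isOpen_univ (pw_diff a).differentiableOn)

theorem hFun_log {n : ℕ} {τ : ℝ} (hτ : 0 < τ) :
    ContDiff ℝ ∞ (fun z : Cn n => Real.log (τ + ‖z‖ ^ 2)) := by
  simpa using smooth_log hτ (0 : Cn n)

theorem hFun_twD {n : ℕ} {u : Cn n → ℝ} (hu : ContDiff ℝ ∞ u) (z : Cn n) : TwD u z := by
  refine ⟨Filter.Eventually.of_forall fun w => (hu.differentiable (by simp)) w, ?_⟩
  have h1 : ContDiff ℝ 1 (fderiv ℝ u) := hu.fderiv_right (m := 1) (by norm_cast)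
  exact (h1.differentiable (by simp)) z

theorem hFun_mad_smul {n : ℕ} {u : Cn n → ℝ} {z : Cn n} (hu : TwD u z) (c : ℝ) :
    mad (fun w => c * u w) z = c ^ n * mad u z := by
  unfold mad
  rw [(hu.const_mul c).2, Matrix.det_smul, Fintype.card_fin, ← Complex.ofReal_pow,
    Complex.re_ofReal_mul]

theorem hFun_mad_log_nonneg {n : ℕ} {τ : ℝ} (hτ : 0 < τ) (z : Cn n) :
    0 ≤ mad (fun z : Cn n => Real.log (τ + ‖z‖ ^ 2)) z := by
  rw [mad_log hτ]
  positivity

theorem hFun_sub {n : ℕ} (a : Fin n → ℕ) {τ : ℝ} (hτ : 0 < τ) {c : ℝ} (hc : 0 ≤ c) :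
    SubOn univ (fun z : Cn n => c * Real.log (τ + ‖pw a z‖ ^ 2)) := by
  have h1 : SubOn univ (fun z : Cn n => Real.log (τ + ‖z‖ ^ 2)) := by
    refine smooth_sub isOpen_univ (hFun_log hτ).contDiffOn fun z _ ξ => ?_
    have h2 := lev_log_ge hτ (0 : Cn n) z ξ
    simp only [sub_zero] at h2
    refine le_trans ?_ h2
    positivity
  have h3 := sub_comp isOpen_univ isOpen_univ
    (c11_of_contDiffOn isOpen_univ ((hFun_log (n := n) hτ).of_le (by norm_cast)).contDiffOn) h1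
    (pw_diff a).differentiableOn (mapsTo_univ _ _)
  intro x b hb
  have h4 := h3 x b hb
  rw [intervalIntegral.integral_const_mul, ← mul_assoc, mul_comm (2 * Real.pi)⁻¹ c, mul_assoc]
  exact mul_le_mul_of_nonneg_left h4 hc

theorem hFun_mass (n : ℕ) (hn : 1 ≤ n) : ∃ C : ℝ, 0 < C ∧ ∀ (a : Fin n → ℕ), (∀ i, 1 ≤ a i) →
    ∀ (τ c : ℝ), 0 < τ → 0 ≤ c →
    ∫⁻ z in pdisc n, ENNReal.ofReal (mad (fun z : Cn n => c * Real.log (τ + ‖pw a z‖ ^ 2)) z) ≤
      ENNReal.ofReal (C * (c ^ n * ∏ i, (a i : ℝ))) := by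
  obtain ⟨C, hC, hm⟩ := mass_log n hn
  refine ⟨C, hC, fun a ha τ c hτ hc => ?_⟩
  set g : Cn n → ℝ≥0∞ := fun z => ENNReal.ofReal (mad (fun z : Cn n => Real.log (τ + ‖z‖ ^ 2)) z)
    with hg
  have hgm : Measurable g := (measurable_mad _).ennreal_ofReal
  have h1 : ∀ z : Cn n, ENNReal.ofReal (mad (fun z : Cn n => c * Real.log (τ + ‖pw a z‖ ^ 2)) z) =
      ENNReal.ofReal (c ^ n) * (ENNReal.ofReal (‖(jac (pw a) z).det‖ ^ 2) * g (pw a z)) := by
    intro z
    have h2 : TwD (fun z : Cn n => Real.log (τ + ‖z‖ ^ 2)) (pw a z) := hFun_twD (hFun_log hτ) _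
    have h3 : ContDiffAt ℂ 2 (pw a) z := (hFun_pw_contDiff a).contDiffAt.of_le (by norm_cast)
    have h4 : TwD (fun z : Cn n => Real.log (τ + ‖pw a z‖ ^ 2)) z := (LM_comp h3 h2).1
    rw [hFun_mad_smul h4, mad_comp (u := fun z : Cn n => Real.log (τ + ‖z‖ ^ 2)) h3 h2,
      ENNReal.ofReal_mul (by positivity), ENNReal.ofReal_mul (by positivity)]
  simp only [h1]
  have hmeas : Measurable fun z : Cn n => ENNReal.ofReal (‖(jac (pw a) z).det‖ ^ 2) * g (pw a z) :=
    (cov_meas_det _).mul (hgm.comp (pw_diff a).continuous.measurable)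
  rw [lintegral_const_mul _ hmeas]
  calc ENNReal.ofReal (c ^ n) * ∫⁻ z in pdisc n, ENNReal.ofReal (‖(jac (pw a) z).det‖ ^ 2) *
        g (pw a z)
      ≤ ENNReal.ofReal (c ^ n) * ((∏ i, (a i : ℝ≥0∞)) * ∫⁻ z, g z) := by
        gcongr
        exact lintegral_pw a ha g hgm
    _ ≤ ENNReal.ofReal (c ^ n) * ((∏ i, (a i : ℝ≥0∞)) * ENNReal.ofReal C) := by
        gcongr
        exact hm τ hτ
    _ = ENNReal.ofReal (C * (c ^ n * ∏ i, (a i : ℝ))) := by
        have h5 : (∏ i, (a i : ℝ≥0∞)) = ENNReal.ofReal (∏ i, (a i : ℝ)) := by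
          rw [ENNReal.ofReal_prod_of_nonneg fun i _ => by positivity]
          simp
        rw [h5, ← ENNReal.ofReal_mul (by positivity), ← ENNReal.ofReal_mul (by positivity)]
        congr 1
        ring

theorem hFun_compact {n : ℕ} (r : ℝ) : IsCompact {ζ : Cn n | ∀ i, ‖ζ i‖ ≤ r} := by
  refine Metric.isCompact_of_isClosed_isBounded ?_ ?_
  · have h1 : {ζ : Cn n | ∀ i, ‖ζ i‖ ≤ r} = ⋂ i : Fin n, {ζ : Cn n | ‖ζ i‖ ≤ r} := by
      ext; simp
    rw [h1]
    refine isClosed_iInter fun i => ?_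
    exact isClosed_le (by fun_prop) continuous_const
  · refine (Metric.isBounded_iff_subset_closedBall 0).2 ⟨Real.sqrt (n * r ^ 2), ?_⟩
    intro ζ hζ
    rw [mem_closedBall_zero_iff, EuclideanSpace.norm_eq]
    refine Real.sqrt_le_sqrt ?_
    calc ∑ i, ‖ζ i‖ ^ 2 ≤ ∑ _i : Fin n, r ^ 2 :=
          Finset.sum_le_sum fun i _ => pow_le_pow_left₀ (norm_nonneg _) (hζ i) 2
      _ = n * r ^ 2 := by simp

theorem hFun_open {n : ℕ} (r : ℝ) : IsOpen {ζ : Cn n | ∀ i, ‖ζ i‖ < r} := by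
  have h1 : {ζ : Cn n | ∀ i, ‖ζ i‖ < r} = ⋂ i : Fin n, {ζ : Cn n | ‖ζ i‖ < r} := by
    ext; simp
  rw [h1]
  exact isOpen_iInter_of_finite fun i => isOpen_lt (by fun_prop) continuous_const

theorem hfun (n : ℕ) (hn : 1 ≤ n) : ∃ C : ℝ, 0 < C ∧ ∀ s : Fin n → ℝ,
    (∀ i, 0 < s i ∧ s i < 1) → ∀ η : ℝ, 0 < η → ∃ (h : Cn n → ℝ) (U L : Set (Cn n)),
      IsOpen U ∧ IsCompact L ∧ {ζ : Cn n | ∀ i, ‖ζ i‖ ≤ s i} ⊆ U ∧ U ⊆ L ∧ L ⊆ pdisc n ∧
      ContDiff ℝ ∞ h ∧ SubOn univ h ∧ (∀ z ∈ U, h z < -1 + η) ∧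
      (∀ z ∈ pdisc n, z ∉ L → -η ≤ h z) ∧
      ∫⁻ z in L, ENNReal.ofReal (mad h z) ≤
        ENNReal.ofReal (C * (∏ i, Real.log (1 / s i))⁻¹) := by
  obtain ⟨C, hC, hm⟩ := hFun_mass n hn
  refine ⟨C * 2 ^ n, by positivity, fun s hs η hη => ?_⟩
  set ℓ : Fin n → ℝ := fun i => Real.log (1 / s i) with hℓ
  have hℓpos : ∀ i, 0 < ℓ i := fun i => Real.log_pos (by
    rw [lt_div_iff₀ (hs i).1, one_mul]; exact (hs i).2)
  have hsℓ : ∀ i, s i = Real.exp (-ℓ i) := by
    intro i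
    rw [hℓ]
    simp only
    rw [one_div, Real.log_inv, neg_neg, Real.exp_log (hs i).1]
  set A : ℝ := 2 * n + ∑ i, ℓ i with hA
  have hn1 : (1 : ℝ) ≤ n := by exact_mod_cast hn
  have hAn : 2 * (n : ℝ) ≤ A := by
    have : 0 ≤ ∑ i, ℓ i := Finset.sum_nonneg fun i _ => (hℓpos i).le
    linarith
  have hAℓ : ∀ i, ℓ i ≤ A := by
    intro i
    have : ℓ i ≤ ∑ i, ℓ i :=
      Finset.single_le_sum (f := ℓ) (fun j _ => (hℓpos j).le) (Finset.mem_univ i)
    linarith
  have hA0 : 0 < A := by linarith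
  set a : Fin n → ℕ := fun i => ⌈A / ℓ i⌉₊ with ha
  have ha1 : ∀ i, 1 ≤ a i := fun i => Nat.one_le_ceil_iff.2 (div_pos hA0 (hℓpos i))
  have ha2 : ∀ i, (a i : ℝ) ≤ 2 * A / ℓ i := by
    intro i
    have h1 := (Nat.ceil_lt_add_one (div_pos hA0 (hℓpos i)).le).le
    have h2 : 1 ≤ A / ℓ i := by
      rw [le_div_iff₀ (hℓpos i), one_mul]; exact hAℓ i
    have h3 : 2 * A / ℓ i = A / ℓ i + A / ℓ i := by ring
    rw [h3]
    exact h1.trans (by linarith)
  have ha3 : ∀ i, A ≤ a i * ℓ i := by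
    intro i
    have h1 := Nat.le_ceil (A / ℓ i)
    rwa [div_le_iff₀ (hℓpos i)] at h1
  set τ : ℝ := Real.exp (-(2 * A)) with hτ
  have hτ0 : 0 < τ := Real.exp_pos _
  set A' : ℝ := A - n with hA'
  have hA'0 : 0 < A' := by linarith
  have hA'A : A ≤ 2 * A' := by linarith
  set c : ℝ := (2 * A')⁻¹ with hc
  have hc0 : 0 < c := by positivity
  set h : Cn n → ℝ := fun z => c * Real.log (τ + ‖pw a z‖ ^ 2) with hh
  have hsm : ContDiff ℝ ∞ h := by
    have h1 : ContDiff ℝ ∞ (pw (n := n) a) := (hFun_pw_contDiff a).restrict_scalars ℝ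
    exact contDiff_const.mul ((hFun_log hτ0).comp h1)
  -- values on the small polydisc
  have hin : ∀ z : Cn n, (∀ i, ‖z i‖ ≤ s i) → h z ≤ -1 := by
    intro z hz
    have h1 : ‖pw a z‖ ^ 2 ≤ n * Real.exp (-(2 * A)) := by
      rw [EuclideanSpace.norm_sq_eq]
      calc ∑ i, ‖(pw a z) i‖ ^ 2 ≤ ∑ _i : Fin n, Real.exp (-(2 * A)) := by
            refine Finset.sum_le_sum fun i _ => ?_
            have h2 : ‖(pw a z) i‖ = ‖z i‖ ^ a i := by
              show ‖z i ^ a i‖ = _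
              rw [norm_pow]
            rw [h2]
            have h3 : ‖z i‖ ^ a i ≤ Real.exp (-A) := by
              calc ‖z i‖ ^ a i ≤ (s i) ^ a i := pow_le_pow_left₀ (norm_nonneg _) (hz i) _
                _ = Real.exp (-(a i * ℓ i)) := by
                    rw [hsℓ i, ← Real.exp_nat_mul]; ring_nf
                _ ≤ Real.exp (-A) := Real.exp_le_exp.2 (by linarith [ha3 i])
            calc (‖z i‖ ^ a i) ^ 2 ≤ (Real.exp (-A)) ^ 2 :=
                  pow_le_pow_left₀ (by positivity) h3 2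
              _ = Real.exp (-(2 * A)) := by
                  rw [← Real.exp_nat_mul]; push_cast; ring_nf
        _ = n * Real.exp (-(2 * A)) := by simp
    have h4 : τ + ‖pw a z‖ ^ 2 ≤ (n + 1) * Real.exp (-(2 * A)) := by
      rw [hτ]; linarith
    have h5 : Real.log (τ + ‖pw a z‖ ^ 2) ≤ 2 * n - 2 * A := by
      calc Real.log (τ + ‖pw a z‖ ^ 2) ≤ Real.log ((n + 1) * Real.exp (-(2 * A))) :=
            Real.log_le_log (by positivity) h4
        _ = Real.log (n + 1) - 2 * A := by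
            rw [Real.log_mul (by positivity) (Real.exp_pos _).ne', Real.log_exp]; ring
        _ ≤ 2 * n - 2 * A := by
            have h6 := Real.log_le_sub_one_of_pos (show (0 : ℝ) < n + 1 by positivity)
            linarith
    show c * Real.log (τ + ‖pw a z‖ ^ 2) ≤ -1
    calc c * Real.log (τ + ‖pw a z‖ ^ 2) ≤ c * (2 * n - 2 * A) :=
          mul_le_mul_of_nonneg_left h5 hc0.le
      _ = -1 := by
          have h7 : 2 * (n : ℝ) - 2 * A = -(2 * A') := by rw [hA']; ring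
          have h8 : 2 * A' ≠ 0 := by positivity
          rw [hc, h7, mul_neg, inv_mul_cancel₀ h8]
  -- the radius
  obtain ⟨r, hr0, hr1, hrs, hrη⟩ : ∃ r : ℝ, 0 < r ∧ r < 1 ∧ (∀ i, s i < r) ∧
      (∀ i, -η ≤ c * (2 * a i) * Real.log r) := by
    have e1 : ∀ᶠ r : ℝ in 𝓝[<] 1, 0 < r := by
      exact nhdsWithin_le_nhds (lt_mem_nhds one_pos)
    have e2 : ∀ᶠ r : ℝ in 𝓝[<] 1, r < 1 := self_mem_nhdsWithin
    have e3 : ∀ᶠ r : ℝ in 𝓝[<] 1, ∀ i, s i < r :=
      Filter.eventually_all.2 fun i => nhdsWithin_le_nhds (lt_mem_nhds (hs i).2)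
    have e4 : ∀ᶠ r : ℝ in 𝓝[<] 1, ∀ i, -η ≤ c * (2 * a i) * Real.log r := by
      refine Filter.eventually_all.2 fun i => ?_
      have h1 : Filter.Tendsto (fun r : ℝ => c * (2 * a i) * Real.log r) (𝓝[<] 1) (𝓝 0) := by
        have h2 : ContinuousAt (fun r : ℝ => c * (2 * a i) * Real.log r) 1 :=
          continuousAt_const.mul (Real.continuousAt_log one_ne_zero)
        have h3 := h2.tendsto
        simp only [Real.log_one, mul_zero] at h3
        exact h3.mono_left nhdsWithin_le_nhds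
      exact h1.eventually (le_mem_nhds (by linarith))
    exact (e1.and (e2.and (e3.and e4))).exists
  refine ⟨h, {ζ | ∀ i, ‖ζ i‖ < r} ∩ {ζ | h ζ < -1 + η}, {ζ | ∀ i, ‖ζ i‖ ≤ r}, ?_, hFun_compact r,
    ?_, ?_, ?_, hsm, hFun_sub a hτ0 hc0.le, ?_, ?_, ?_⟩
  · exact (hFun_open r).inter (isOpen_lt hsm.continuous continuous_const)
  · intro z hz
    refine ⟨fun i => (hz i).trans_lt (hrs i), ?_⟩
    show h z < -1 + η
    have := hin z hz
    linarith
  · intro z hz i
    exact (hz.1 i).le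
  · intro z hz i
    exact (hz i).trans_lt hr1
  · intro z hz
    exact hz.2
  · intro z hz hzL
    simp only [mem_setOf_eq, not_forall, not_le] at hzL
    obtain ⟨i, hi⟩ := hzL
    have hzi : 0 < ‖z i‖ := hr0.trans hi
    have h1 : (‖z i‖ ^ a i) ^ 2 ≤ τ + ‖pw a z‖ ^ 2 := by
      have h2 : ‖(pw a z) i‖ = ‖z i‖ ^ a i := by
        show ‖z i ^ a i‖ = _
        rw [norm_pow]
      have h3 : ‖(pw a z) i‖ ^ 2 ≤ ‖pw a z‖ ^ 2 := by
        rw [EuclideanSpace.norm_sq_eq (pw a z)]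
        exact Finset.single_le_sum (f := fun j => ‖(pw a z) j‖ ^ 2)
          (fun j _ => by positivity) (Finset.mem_univ i)
      rw [h2] at h3
      linarith
    have h4 : Real.log ((‖z i‖ ^ a i) ^ 2) ≤ Real.log (τ + ‖pw a z‖ ^ 2) :=
      Real.log_le_log (by positivity) h1
    have h5 : Real.log ((‖z i‖ ^ a i) ^ 2) = (2 * a i) * Real.log ‖z i‖ := by
      rw [Real.log_pow, Real.log_pow]; push_cast; ring
    have h6 : Real.log r ≤ Real.log ‖z i‖ := Real.log_le_log hr0 hi.le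
    calc -η ≤ c * (2 * a i) * Real.log r := hrη i
      _ ≤ c * (2 * a i) * Real.log ‖z i‖ := mul_le_mul_of_nonneg_left h6 (by positivity)
      _ = c * Real.log ((‖z i‖ ^ a i) ^ 2) := by rw [h5]; ring
      _ ≤ c * Real.log (τ + ‖pw a z‖ ^ 2) := mul_le_mul_of_nonneg_left h4 hc0.le
  · calc ∫⁻ z in {ζ : Cn n | ∀ i, ‖ζ i‖ ≤ r}, ENNReal.ofReal (mad h z)
        ≤ ∫⁻ z in pdisc n, ENNReal.ofReal (mad h z) := by
          refine lintegral_mono_set ?_
          intro z hz i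
          exact (hz i).trans_lt hr1
      _ ≤ ENNReal.ofReal (C * (c ^ n * ∏ i, (a i : ℝ))) := hm a ha1 τ c hτ0 hc0.le
      _ ≤ ENNReal.ofReal (C * 2 ^ n * (∏ i, ℓ i)⁻¹) := by
          refine ENNReal.ofReal_le_ofReal ?_
          rw [mul_assoc]
          refine mul_le_mul_of_nonneg_left ?_ hC.le
          have h1 : ∏ i, (a i : ℝ) ≤ ∏ i, (2 * A / ℓ i) :=
            Finset.prod_le_prod (fun i _ => by positivity) fun i _ => ha2 i
          have h2 : ∏ i, (2 * A / ℓ i) = (2 * A) ^ n * (∏ i, ℓ i)⁻¹ := by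
            rw [Finset.prod_div_distrib, Finset.prod_const, Finset.card_univ, Fintype.card_fin,
              div_eq_mul_inv]
          have h3 : c ^ n * (2 * A) ^ n ≤ 2 ^ n := by
            rw [← mul_pow]
            refine pow_le_pow_left₀ (by positivity) ?_ n
            rw [hc, inv_mul_le_iff₀ (by positivity)]
            linarith
          have hP : 0 ≤ (∏ i, ℓ i)⁻¹ :=
            inv_nonneg.2 (Finset.prod_nonneg fun i _ => (hℓpos i).le)
          calc c ^ n * ∏ i, (a i : ℝ) ≤ c ^ n * ((2 * A) ^ n * (∏ i, ℓ i)⁻¹) := by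
                rw [← h2]
                exact mul_le_mul_of_nonneg_left h1 (by positivity)
            _ = (c ^ n * (2 * A) ^ n) * (∏ i, ℓ i)⁻¹ := by ring
            _ ≤ 2 ^ n * (∏ i, ℓ i)⁻¹ := mul_le_mul_of_nonneg_right h3 hP

end HMA

end S_KM_HFun

section S_KM_XWell

/-! # Module XWell: deep wells on embedded polydiscs -/

open MeasureTheory Metric Set
open scoped ENNReal Topology ContDiff ComplexOrder

namespace HMA

variable {n : ℕ} {X : Type} [TopologicalSpace X] (K : KM n X)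

theorem xWell_two_le : (2 : WithTop ℕ∞) ≤ ((⊤ : ℕ∞) : WithTop ℕ∞) :=
  WithTop.coe_le_coe.2 le_top

theorem xWell_isOpen_pdisc (n : ℕ) : IsOpen (pdisc n) := by
  have h : pdisc n = ⋂ i : Fin n, {ζ : Cn n | ‖ζ i‖ < 1} := by
    ext ζ
    simp [pdisc]
  rw [h]
  refine isOpen_iInter_of_finite fun i => ?_
  exact isOpen_lt (by fun_prop) continuous_const

theorem xWell_rho_bdd (i : Fin K.N) : ∃ C : ℝ, 0 ≤ C ∧ ∀ z ∈ ball (0 : Cn n) 2, |K.ρ i z| ≤ C := by
  have h1 : ContinuousOn (K.ρ i) (closedBall (0 : Cn n) 2) :=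
    (K.ρ_smooth i).continuousOn.mono (closedBall_subset_ball (by norm_num))
  obtain ⟨C, hC⟩ := (isCompact_closedBall (0 : Cn n) 2).exists_bound_of_continuousOn h1
  refine ⟨max C 0, le_max_right _ _, fun z hz => ?_⟩
  have := hC z (ball_subset_closedBall hz)
  rw [Real.norm_eq_abs] at this
  exact this.trans (le_max_left _ _)

/-- scaling of the Monge-Ampere density -/
theorem xWell_mad_affine {u : Cn n → ℝ} {z : Cn n} (hu : TwD u z) (c d : ℝ) :
    mad (fun w => c * u w + d) z = c ^ n * mad u z := by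
  have h1 := hu.const_mul c
  have hconst : TwD (fun _ : Cn n => d) z := by
    refine ⟨Filter.Eventually.of_forall fun w => differentiableAt_const _, ?_⟩
    have : fderiv ℝ (fun _ : Cn n => d) = fun _ => 0 := by
      funext w
      simp
    rw [this]
    exact differentiableAt_const _
  have h2 := (h1.1.add hconst).2
  unfold mad
  rw [h2, h1.2, LM_const, add_zero, Matrix.det_smul, Fintype.card_fin]
  rw [← Complex.ofReal_pow, Complex.re_ofReal_mul]

/-- combination of the change of variables and of the chain rule -/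
theorem xWell_change {Φ : Cn n → Cn n} (hΦ : DifferentiableOn ℂ Φ (pdisc n))
    (hi : InjOn Φ (pdisc n)) (hd : ∀ ζ ∈ pdisc n, Function.Injective (fderiv ℂ Φ ζ))
    {Ω : Set (Cn n)} (hΩ : IsOpen Ω) (hm : MapsTo Φ (pdisc n) Ω) {u : Cn n → ℝ} (hu : C11 Ω u)
    {U : Set (Cn n)} (hU : IsOpen U) (hUp : U ⊆ pdisc n) :
    ∫⁻ z in Φ '' U, ENNReal.ofReal (mad u z) =
      ∫⁻ z in U, ENNReal.ofReal (mad (fun w => u (Φ w)) z) := by
  have hpo := xWell_isOpen_pdisc n
  rw [lintegral_hol hpo hΦ hU.measurableSet hUp (hi.mono hUp)]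
  apply lintegral_congr_ae
  rw [Filter.EventuallyEq, ae_restrict_iff' hU.measurableSet]
  have h1 : ∀ᵐ z : Cn n, z ∈ pdisc n → TwD u (Φ z) := by
    refine ae_comp_hol hpo hΦ hi hd ?_
    filter_upwards [hu.ae_twD hΩ] with y hy hy2
    obtain ⟨x, hx, rfl⟩ := hy2
    exact hy (hm hx)
  filter_upwards [h1] with z hz hzU
  have hz1 := hz (hUp hzU)
  have h2 : ContDiffAt ℂ 2 Φ z := by
    have h3 := (hol_contDiffOn hpo hΦ).contDiffAt (hpo.mem_nhds (hUp hzU))
    exact h3.of_le xWell_two_le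
  rw [mad_comp h2 hz1, ENNReal.ofReal_mul (by positivity)]

variable [MeasurableSpace X] [BorelSpace X] [T2Space X] [CompactSpace X] [Nonempty X]

/-- upper bound for the mass near an embedded polydisc (comparison with `hfun`) -/
theorem KM.polydisc_mass (hn : 1 ≤ n) (i : Fin K.N) : ∃ C : ℝ, 1 ≤ C ∧
    ∀ (Φ : Cn n → Cn n) (s : Fin n → ℝ), DifferentiableOn ℂ Φ (pdisc n) → InjOn Φ (pdisc n) →
      (∀ ζ ∈ pdisc n, Function.Injective (fderiv ℂ Φ ζ)) →
      MapsTo Φ (pdisc n) (ball 0 2) → (∀ j, 0 < s j ∧ s j < 1) →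
      ∃ W : Set (Cn n), IsOpen W ∧ W ⊆ ball 0 2 ∧ Φ '' {ζ | ∀ j, ‖ζ j‖ ≤ s j} ⊆ W ∧
        ∀ (ψ : X → ℝ) (M : ℝ), WK K ψ → 0 ≤ M → (∀ x, -2 ≤ ψ x ∧ ψ x ≤ M) →
          ∫⁻ z in W, ENNReal.ofReal (mad (fun y => K.ρ i y + ψ (K.κ i y)) z) ≤
            ENNReal.ofReal ((M + C) ^ n * C * (∏ j, Real.log (1 / s j))⁻¹) := by
  obtain ⟨C₀, hC₀, hh⟩ := hfun n hn
  obtain ⟨R, hR0, hR⟩ := xWell_rho_bdd K i
  set C : ℝ := max 1 (max (2 + 2 * R) (2 ^ n * C₀)) with hCdef
  have hC1 : 1 ≤ C := le_max_left _ _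
  have hC2 : 2 + 2 * R ≤ C := (le_max_left _ _).trans (le_max_right _ _)
  have hC3 : 2 ^ n * C₀ ≤ C := (le_max_right _ _).trans (le_max_right _ _)
  refine ⟨C, hC1, ?_⟩
  intro Φ s hΦ hinj hder hmaps hs
  obtain ⟨h, U, L, hUo, hLc, hsU, hUL, hLp, hhs, hhsub, hhU, hhL, hmass⟩ := hh s hs (1 / 8)
    (by norm_num)
  have hpo := xWell_isOpen_pdisc n
  have hUp : U ⊆ pdisc n := hUL.trans hLp
  refine ⟨Φ '' U, isOpen_image_hol hpo hΦ hder hUo hUp, ?_, image_mono hsU, ?_⟩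
  · rintro _ ⟨ζ, hζ, rfl⟩
    exact hmaps (hUp hζ)
  intro ψ M hψ hM hψM
  set T : ℝ := ∏ j, Real.log (1 / s j) with hT
  have hTpos : 0 < T := by
    refine Finset.prod_pos fun j _ => Real.log_pos ?_
    rw [lt_div_iff₀ (hs j).1, one_mul]
    exact (hs j).2
  set u : Cn n → ℝ := fun y => K.ρ i y + ψ (K.κ i y) with hu
  have hb3 : IsOpen (ball (0 : Cn n) 3) := isOpen_ball
  have hu11 : C11 (ball 0 3) u := (K.ρ_c11 i).add hb3 (hψ.c11 i)
  have husub : SubOn (ball 0 3) u := hψ.sub i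
  have h23 : ball (0 : Cn n) 2 ⊆ ball 0 3 := ball_subset_ball (by norm_num)
  have hm3 : MapsTo Φ (pdisc n) (ball 0 3) := fun z hz => h23 (hmaps hz)
  have hv11 : C11 (pdisc n) (fun z => u (Φ z)) := c11_comp hb3 hpo hu11 hΦ hm3
  have hvsub : SubOn (pdisc n) (fun z => u (Φ z)) := sub_comp hb3 hpo hu11 husub hΦ hm3
  have hub : ∀ z ∈ pdisc n, -(2 + R) ≤ u (Φ z) ∧ u (Φ z) ≤ M + R := by
    intro z hz
    have h1 := abs_le.1 (hR (Φ z) (hmaps hz))
    have h2 := hψM (K.κ i (Φ z))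
    simp only [hu]
    constructor <;> linarith [h1.1, h1.2, h2.1, h2.2]
  set a : ℝ := M + 2 + 2 * R with ha
  have ha0 : 0 < a := by positivity
  set c : ℝ := 1 / (2 * a) with hc
  have hc0 : 0 < c := by positivity
  set d : ℝ := -(c * (M + R)) - 1 / 4 with hd
  have hca : c * a = 1 / 2 := by rw [hc]; field_simp
  set v : Cn n → ℝ := fun z => c * u (Φ z) + d with hv
  have hv1 : ∀ z ∈ pdisc n, -(3 / 4) ≤ v z ∧ v z ≤ -(1 / 4) := by
    intro z hz
    obtain ⟨h1, h2⟩ := hub z hz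
    simp only [hv, hd]
    have h3 := mul_le_mul_of_nonneg_left h1 hc0.le
    have h4 := mul_le_mul_of_nonneg_left h2 hc0.le
    constructor
    · nlinarith
    · linarith
  have hV11 : C11 (pdisc n) v := by
    have h1 := hv11.const_mul hpo c
    have h2 : C11 (pdisc n) (fun _ : Cn n => d) := c11_of_contDiffOn hpo contDiffOn_const
    exact h1.add hpo h2
  have hVsub : SubOn (pdisc n) v := by
    intro p q hpq
    have h1 := hvsub p q hpq
    have hint : IntervalIntegrable (fun θ : ℝ => u (Φ (p + Complex.exp (θ * Complex.I) • q)))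
        volume 0 (2 * Real.pi) := by
      apply ContinuousOn.intervalIntegrable
      have h2 : ContinuousOn (fun z => u (Φ z)) (pdisc n) := hv11.continuousOn
      refine h2.comp (by fun_prop) ?_
      intro θ _
      apply hpq
      rw [Complex.norm_exp_ofReal_mul_I]
    have h3 : ∫ θ in (0 : ℝ)..(2 * Real.pi), v (p + Complex.exp (θ * Complex.I) • q) =
        c * (∫ θ in (0 : ℝ)..(2 * Real.pi), u (Φ (p + Complex.exp (θ * Complex.I) • q))) +
          2 * Real.pi * d := by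
      simp only [hv]
      rw [intervalIntegral.integral_add (hint.const_mul c) intervalIntegrable_const,
        intervalIntegral.integral_const_mul, intervalIntegral.integral_const]
      simp
    rw [h3]
    have hpi := Real.pi_pos
    have h4 : ∀ J : ℝ, (2 * Real.pi)⁻¹ * (c * J + 2 * Real.pi * d) =
        c * ((2 * Real.pi)⁻¹ * J) + d := by
      intro J
      field_simp
    rw [h4]
    simp only [hv]
    have h5 := mul_le_mul_of_nonneg_left h1 hc0.le
    linarith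
  have hh11 : C11 (pdisc n) h := c11_of_contDiffOn hpo
    ((hhs.of_le xWell_two_le).contDiffOn)
  have hhsub' : SubOn (pdisc n) h := fun p q _ => hhsub p q (fun _ _ => mem_univ _)
  have hcp := cp hpo hV11 hh11 hVsub hhsub' hLc hLp (η := 1 / 8) (by norm_num) (by
    intro z hz hzL
    have h1 := hhL z hz hzL
    have h2 := (hv1 z hz).2
    linarith)
  have hUsub : U ⊆ {z | z ∈ pdisc n ∧ h z + 1 / 8 < v z} := by
    intro z hz
    refine ⟨hUp hz, ?_⟩
    have h1 := hhU z hz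
    have h2 := (hv1 z (hUp hz)).1
    linarith
  have hbd : ∫⁻ z in U, ENNReal.ofReal (mad v z) ≤ ENNReal.ofReal (C₀ * T⁻¹) :=
    ((lintegral_mono_set hUsub).trans hcp).trans hmass
  have hscale : ∫⁻ z in U, ENNReal.ofReal (mad v z) =
      ENNReal.ofReal (c ^ n) * ∫⁻ z in U, ENNReal.ofReal (mad (fun w => u (Φ w)) z) := by
    rw [← lintegral_const_mul' _ _ ENNReal.ofReal_ne_top]
    apply lintegral_congr_ae
    rw [Filter.EventuallyEq, ae_restrict_iff' hUo.measurableSet]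
    filter_upwards [hv11.ae_twD hpo] with z hz hzU
    rw [← ENNReal.ofReal_mul (by positivity)]
    congr 1
    exact xWell_mad_affine (hz (hUp hzU)) c d
  rw [xWell_change hΦ hinj hder hb3 hm3 hu11 hUo hUp]
  have hcn : 0 < c ^ n := by positivity
  have h1 : ∫⁻ z in U, ENNReal.ofReal (mad (fun w => u (Φ w)) z) ≤
      ENNReal.ofReal ((c ^ n)⁻¹) * ENNReal.ofReal (C₀ * T⁻¹) := by
    rw [hscale] at hbd
    calc ∫⁻ z in U, ENNReal.ofReal (mad (fun w => u (Φ w)) z)
        = ENNReal.ofReal ((c ^ n)⁻¹) * (ENNReal.ofReal (c ^ n) *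
          ∫⁻ z in U, ENNReal.ofReal (mad (fun w => u (Φ w)) z)) := by
          rw [← mul_assoc, ← ENNReal.ofReal_mul (by positivity), inv_mul_cancel₀ hcn.ne',
            ENNReal.ofReal_one, one_mul]
      _ ≤ _ := by gcongr
  refine h1.trans ?_
  rw [← ENNReal.ofReal_mul (by positivity)]
  apply ENNReal.ofReal_le_ofReal
  have h2 : (c ^ n)⁻¹ = 2 ^ n * a ^ n := by
    rw [hc, one_div, inv_pow, inv_inv, mul_pow]
  rw [h2]
  have h3 : a ^ n ≤ (M + C) ^ n := by
    apply pow_le_pow_left₀ ha0.le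
    rw [ha]
    linarith
  have h4 : 0 < T⁻¹ := by positivity
  calc 2 ^ n * a ^ n * (C₀ * T⁻¹) = a ^ n * (2 ^ n * C₀) * T⁻¹ := by ring
    _ ≤ (M + C) ^ n * C * T⁻¹ := by
        apply mul_le_mul_of_nonneg_right _ h4.le
        apply mul_le_mul h3 hC3 (by positivity) (by positivity)

/-- the integral of a function supported in the chart `i` against the Monge-Ampere density -/
theorem xWell_local_mass (i : Fin K.N) {b : Cn n → ℝ} {W : Set (Cn n)} (hW : IsOpen W)
    (hW2 : W ⊆ ball 0 2) (hbc : HasCompactSupport b) (hbW : tsupport b ⊆ W)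
    (hb1 : ∀ z, 0 ≤ b z ∧ b z ≤ 1) (hbs : ContDiff ℝ ∞ b) {ψ : X → ℝ} (hψ : WK K ψ) :
    Integrable (fun x => K.ext i b x * K.RM ψ x) K.vol ∧
      ENNReal.ofReal (∫ x, K.ext i b x * K.RM ψ x ∂K.vol) ≤
        ∫⁻ z in W, ENNReal.ofReal (mad (fun y => K.ρ i y + ψ (K.κ i y)) z) := by
  haveI := K.vol_finite
  have h23 : ball (0 : Cn n) 2 ⊆ ball 0 3 := ball_subset_ball (by norm_num)
  have hb11 : C11 (ball (0 : Cn n) 3) b :=
    c11_of_contDiffOn isOpen_ball ((hbs.of_le xWell_two_le).contDiffOn)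
  have hext : C11X K (K.ext i b) := c11X_ext K i hb11 (L := tsupport b) hbc
    ((hbW.trans hW2).trans h23) (fun z hz => image_eq_zero_of_notMem_tsupport hz)
  have hext0 : ∀ x, |K.ext i b x| ≤ 1 := by
    intro x
    by_cases hx : x ∈ K.κ i '' ball 0 3
    · obtain ⟨z, hz, rfl⟩ := hx
      rw [K.ext_κ i b hz, abs_le]
      constructor <;> linarith [(hb1 z).1, (hb1 z).2]
    · rw [K.ext_off i b hx]
      simp
  obtain ⟨B, hB0, hB⟩ := K.RM_bdd hψ.c11 (c11X_const K 0)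
  have hB' : ∀ x, |K.RM ψ x| ≤ B := by
    intro x
    have := hB 1 0 (by norm_num) (by norm_num) x
    simpa using this
  have hint : Integrable (fun x => K.ext i b x * K.RM ψ x) K.vol := by
    refine Integrable.of_bound ((hext.continuous K).aestronglyMeasurable.mul
      (K.RM_meas hψ.c11)) B (Filter.Eventually.of_forall fun x => ?_)
    rw [Real.norm_eq_abs, abs_mul]
    calc |K.ext i b x| * |K.RM ψ x| ≤ 1 * B :=
          mul_le_mul (hext0 x) (hB' x) (abs_nonneg _) zero_le_one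
      _ = B := one_mul B
  refine ⟨hint, ?_⟩
  obtain ⟨h1, h2⟩ := K.integral_chart i hint (by
    intro x hx
    rw [K.ext_off i b hx, zero_mul])
  have h3 : ∀ᵐ z : Cn n, z ∈ ball (0 : Cn n) 3 →
      (K.ext i b (K.κ i z) * K.RM ψ (K.κ i z)) * mad (K.ρ i) z =
        b z * mad (fun y => K.ρ i y + ψ (K.κ i y)) z := by
    filter_upwards [K.RM_chart hψ.c11 i] with z hz hz3
    rw [hz hz3, K.ext_κ i b hz3]
    have h4 := (K.mad_ρ_pos i hz3).2.2
    field_simp
  have h4 : ∫ z in ball (0 : Cn n) 3,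
      (K.ext i b (K.κ i z) * K.RM ψ (K.κ i z)) * mad (K.ρ i) z =
        ∫ z in ball (0 : Cn n) 3, b z * mad (fun y => K.ρ i y + ψ (K.κ i y)) z := by
    apply setIntegral_congr_ae measurableSet_ball h3
  have h5 : IntegrableOn (fun z => b z * mad (fun y => K.ρ i y + ψ (K.κ i y)) z)
      (ball (0 : Cn n) 3) := by
    refine h1.congr_fun_ae ?_
    rw [Filter.EventuallyEq, ae_restrict_iff' measurableSet_ball]
    exact h3
  rw [h2, h4]
  have h6 : ∫ z in ball (0 : Cn n) 3, b z * mad (fun y => K.ρ i y + ψ (K.κ i y)) z ≤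
      (∫⁻ z in ball (0 : Cn n) 3,
        ENNReal.ofReal (b z * mad (fun y => K.ρ i y + ψ (K.κ i y)) z)).toReal := by
    rw [integral_eq_lintegral_pos_part_sub_lintegral_neg_part h5]
    exact sub_le_self _ ENNReal.toReal_nonneg
  refine (ENNReal.ofReal_le_ofReal h6).trans (ENNReal.ofReal_toReal_le.trans ?_)
  calc ∫⁻ z in ball (0 : Cn n) 3,
        ENNReal.ofReal (b z * mad (fun y => K.ρ i y + ψ (K.κ i y)) z)
      ≤ ∫⁻ z, ENNReal.ofReal (b z * mad (fun y => K.ρ i y + ψ (K.κ i y)) z) :=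
        setLIntegral_le_lintegral _ _
    _ ≤ ∫⁻ z, W.indicator
        (fun z => ENNReal.ofReal (mad (fun y => K.ρ i y + ψ (K.κ i y)) z)) z := by
        apply lintegral_mono
        intro z
        by_cases hz : z ∈ W
        · simp only [indicator_of_mem hz]
          rcases le_total 0 (mad (fun y => K.ρ i y + ψ (K.κ i y)) z) with h | h
          · apply ENNReal.ofReal_le_ofReal
            exact mul_le_of_le_one_left h (hb1 z).2
          · rw [ENNReal.ofReal_of_nonpos (mul_nonpos_of_nonneg_of_nonpos (hb1 z).1 h)]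
            exact bot_le
        · have : b z = 0 := image_eq_zero_of_notMem_tsupport (fun h => hz (hbW h))
          simp [this]
    _ = _ := lintegral_indicator hW.measurableSet _

theorem KM.deep_well (hn : 1 ≤ n) (i : Fin K.N) : ∃ c C : ℝ, 0 < c ∧ 0 < C ∧
    ∀ (Φ : Cn n → Cn n) (s : Fin n → ℝ), DifferentiableOn ℂ Φ (pdisc n) → InjOn Φ (pdisc n) →
      (∀ ζ ∈ pdisc n, Function.Injective (fderiv ℂ Φ ζ)) →
      MapsTo Φ (pdisc n) (ball 0 2) → (∀ j, 0 < s j ∧ s j < 1) →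
      ∃ ψ : X → ℝ, WK K ψ ∧ (∀ ζ : Cn n, (∀ j, ‖ζ j‖ ≤ s j) → ψ (K.κ i (Φ ζ)) ≤ 0) ∧
        ∃ x, c * (∏ j, Real.log (1 / s j)) ^ ((n : ℝ)⁻¹) - C ≤ ψ x := by
  obtain ⟨C, hC1, hmass⟩ := K.polydisc_mass hn i
  haveI := K.vol_finite
  have hC0 : 0 < C := by linarith
  set V : ℝ := K.vol.real univ with hV
  have hV0 : 0 < V := by
    rw [hV, measureReal_def]
    exact ENNReal.toReal_pos K.vol_pos.ne' (measure_ne_top _ _)
  set c : ℝ := 1 / 2 * (V / (2 * C)) ^ ((n : ℝ)⁻¹) with hc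
  have hc0 : 0 < c := by positivity
  have hn0 : n ≠ 0 := by omega
  have hcn : c ^ n = (1 / 2) ^ n * (V / (2 * C)) := by
    rw [hc, mul_pow, Real.rpow_inv_natCast_pow (by positivity) hn0]
  refine ⟨c, C, hc0, hC0, ?_⟩
  intro Φ s hΦ hinj hder hmaps hs
  obtain ⟨W, hWo, hW2, hsW, hW⟩ := hmass Φ s hΦ hinj hder hmaps hs
  set T : ℝ := ∏ j, Real.log (1 / s j) with hT
  have hTpos : 0 < T := by
    refine Finset.prod_pos fun j _ => Real.log_pos ?_
    rw [lt_div_iff₀ (hs j).1, one_mul]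
    exact (hs j).2
  set M : ℝ := c * T ^ ((n : ℝ)⁻¹) - C with hM
  obtain ⟨x0⟩ := (inferInstance : Nonempty X)
  rcases lt_or_ge M 0 with hM0 | hM0
  · exact ⟨fun _ => 0, wk_const K 0, fun _ _ => le_refl _, x0, hM0.le⟩
  by_contra hcon
  push Not at hcon
  set Q : Set (Cn n) := Φ '' {ζ | ∀ j, ‖ζ j‖ ≤ s j} with hQ
  have hQc : IsCompact Q := by
    have h1 : IsCompact {ζ : Cn n | ∀ j, ‖ζ j‖ ≤ s j} := by
      apply Metric.isCompact_of_isClosed_isBounded
      · have : {ζ : Cn n | ∀ j, ‖ζ j‖ ≤ s j} = ⋂ j, {ζ : Cn n | ‖ζ j‖ ≤ s j} := by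
          ext ζ
          simp
        rw [this]
        refine isClosed_iInter fun j => ?_
        exact isClosed_le (by fun_prop) continuous_const
      · refine (isBounded_iff_forall_norm_le).2 ⟨Real.sqrt n, fun ζ hζ => ?_⟩
        rw [EuclideanSpace.norm_eq]
        apply Real.sqrt_le_sqrt
        calc ∑ j, ‖ζ j‖ ^ 2 ≤ ∑ _j : Fin n, (1 : ℝ) := by
              apply Finset.sum_le_sum
              intro j _
              have h2 : ‖ζ j‖ ≤ 1 := (hζ j).trans (hs j).2.le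
              exact pow_le_one₀ (norm_nonneg _) h2
          _ = n := by simp
    refine h1.image_of_continuousOn (hΦ.continuousOn.mono ?_)
    intro ζ hζ j
    exact (hζ j).trans_lt (hs j).2
  obtain ⟨b₀, b, ⟨hb0c, hb0W, hb01, hb0s⟩, hb, hsum⟩ := exists_partition' K i hQc hWo hsW hW2
  set η : ℝ := V / (4 * (K.N + 1)) with hη
  have hη0 : 0 < η := by positivity
  obtain ⟨ψ, hψ, hψQ, hψM, hψη⟩ := K.almost_extremal (K.κ i '' Q) hM0 (by
      intro ψ hψ hψ0 x
      refine (hcon ψ hψ ?_ x).le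
      intro ζ hζ
      exact hψ0 _ ⟨Φ ζ, ⟨ζ, hζ, rfl⟩, rfl⟩) b (fun j => (hb j).2.2.2.1)
    (fun j z => ((hb j).2.2.1 z).1) (fun j => (hb j).2.1) (fun j => (hb j).2.2.2.2) hη0
  obtain ⟨hi0, hle0⟩ := xWell_local_mass K i hWo hW2 hb0c hb0W hb01 hb0s hψ
  have hij : ∀ j, Integrable (fun x => K.ext j (b j) x * K.RM ψ x) K.vol := fun j =>
    (xWell_local_mass K j isOpen_ball subset_rfl (hb j).1 (hb j).2.1 (hb j).2.2.1
      (hb j).2.2.2.1 hψ).1
  have hle0' := hle0.trans (hW ψ M hψ hM0 hψM)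
  rw [ENNReal.ofReal_le_ofReal_iff (by positivity)] at hle0'
  have hVeq : V = (∫ x, K.ext i b₀ x * K.RM ψ x ∂K.vol) +
      ∑ j, ∫ x, K.ext j (b j) x * K.RM ψ x ∂K.vol := by
    rw [hV, ← K.mass hψ.c11, ← integral_finset_sum _ (fun j _ => hij j),
      ← integral_add hi0 (integrable_finset_sum _ fun j _ => hij j)]
    congr 1
    funext x
    rw [← Finset.sum_mul, ← add_mul, hsum x, one_mul]
  have hsumle : ∑ j, ∫ x, K.ext j (b j) x * K.RM ψ x ∂K.vol ≤ V / 4 := by
    calc ∑ j, ∫ x, K.ext j (b j) x * K.RM ψ x ∂K.vol ≤ ∑ _j : Fin K.N, η :=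
          Finset.sum_le_sum fun j _ => hψη j
      _ = K.N * η := by simp
      _ ≤ V / 4 := by
          rw [hη]
          have : (0 : ℝ) < K.N + 1 := by positivity
          rw [mul_div_assoc', div_le_div_iff₀ (by positivity) (by norm_num)]
          nlinarith
  have hmain : (M + C) ^ n * C * T⁻¹ ≤ V / 4 := by
    have h1 : M + C = c * T ^ ((n : ℝ)⁻¹) := by rw [hM]; ring
    have h2 : (M + C) ^ n = c ^ n * T := by
      rw [h1, mul_pow, Real.rpow_inv_natCast_pow hTpos.le hn0]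
    rw [h2, hcn]
    have h3 : ((1 : ℝ) / 2) ^ n ≤ 1 / 2 := by
      calc ((1 : ℝ) / 2) ^ n ≤ (1 / 2) ^ 1 :=
            pow_le_pow_of_le_one (by norm_num) (by norm_num) hn
        _ = 1 / 2 := pow_one _
    have h4 : (1 / 2) ^ n * (V / (2 * C)) * T * C * T⁻¹ = (1 / 2) ^ n * (V / 2) := by
      field_simp
    rw [h4]
    nlinarith
  linarith

end HMA

end S_KM_XWell

section S_KW_CapB

/-! # Module CapB: elementary properties of the capacity -/

open MeasureTheory Metric Set Filter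
open scoped ENNReal Topology ContDiff ComplexOrder

namespace HMA

variable {n : ℕ} {X : Type} [TopologicalSpace X] (K : KM n X)

variable [MeasurableSpace X] [BorelSpace X] [T2Space X] [CompactSpace X]

variable {U U' : Set X} {v : X → ℝ}

theorem KM.cap_bdd (U : Set X) : BddAbove {t | ∃ v : X → ℝ, WK K v ∧
    (∀ x, -1 ≤ v x ∧ v x ≤ 0) ∧ ∫ x in U, K.RM v x ∂K.vol = t} := by
  refine ⟨K.vol.real univ, ?_⟩
  rintro t ⟨v, hv, _, rfl⟩
  rw [← K.mass hv.c11]
  exact setIntegral_le_integral (XEn_RM_int K hv.c11) (K.RM_nonneg hv)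

theorem KM.le_cap (hv : WK K v) (h : ∀ x, -1 ≤ v x ∧ v x ≤ 0) :
    ∫ x in U, K.RM v x ∂K.vol ≤ K.cap U :=
  le_csSup (K.cap_bdd U) ⟨v, hv, h, rfl⟩

theorem capb_zero : (WK K (fun _ : X => (0 : ℝ))) ∧
    ∀ x : X, -1 ≤ (fun _ : X => (0 : ℝ)) x ∧ (fun _ : X => (0 : ℝ)) x ≤ 0 :=
  ⟨wk_const K 0, fun _ => ⟨by norm_num, le_refl _⟩⟩

theorem KM.cap_le {c : ℝ} (h : ∀ v : X → ℝ, WK K v → (∀ x, -1 ≤ v x ∧ v x ≤ 0) →
    ∫ x in U, K.RM v x ∂K.vol ≤ c) : K.cap U ≤ c := by
  refine csSup_le ?_ ?_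
  · exact ⟨_, fun _ => 0, (capb_zero K).1, (capb_zero K).2, rfl⟩
  · rintro t ⟨v, hv, hv', rfl⟩
    exact h v hv hv'

theorem KM.cap_nonneg (U : Set X) : 0 ≤ K.cap U := by
  refine le_trans ?_ (K.le_cap (capb_zero K).1 (capb_zero K).2)
  exact integral_nonneg_of_ae (ae_restrict_of_ae (K.RM_nonneg (capb_zero K).1))

theorem KM.cap_mono (h : U ⊆ U') : K.cap U ≤ K.cap U' := by
  refine K.cap_le fun v hv hv' => le_trans ?_ (K.le_cap hv hv')
  exact setIntegral_mono_set (XEn_RM_int K hv.c11).integrableOn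
    (ae_restrict_of_ae (K.RM_nonneg hv)) (HasSubset.Subset.eventuallyLE h)

theorem capb_vol_pos (hU : IsOpen U) (h : U.Nonempty) : 0 < K.vol U := by
  obtain ⟨x, hx⟩ := h
  set i := K.ix x
  obtain ⟨hc1, hc2⟩ := K.co_spec x
  have hco3 : K.co x ∈ ball (0 : Cn n) 3 := xvol_b13 hc1
  have hpre : ∃ r : ℝ, 0 < r ∧ ball (K.co x) r ⊆ ball 0 1 ∩ K.κ i ⁻¹' U := by
    have h1 : K.κ i ⁻¹' U ∈ 𝓝 (K.co x) := by
      have hcont : ContinuousAt (K.κ i) (K.co x) :=
        (K.cont i).continuousAt (isOpen_ball.mem_nhds hco3)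
      refine hcont.preimage_mem_nhds (hU.mem_nhds ?_)
      rw [hc2]
      exact hx
    have h2 : ball (0 : Cn n) 1 ∈ 𝓝 (K.co x) := isOpen_ball.mem_nhds hc1
    exact Metric.mem_nhds_iff.1 (Filter.inter_mem h2 h1)
  obtain ⟨r, hr, hsub⟩ := hpre
  have hg : Measurable (U.indicator (fun _ => (1 : ℝ≥0∞))) :=
    measurable_const.indicator hU.measurableSet
  have h1 := K.vol_chart i hg
  obtain ⟨a, b, ha, hb, hab⟩ := K.mad_ρ_bdd i (isCompact_closedBall (0 : Cn n) 1)
    (closedBall_subset_ball (by norm_num))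
  calc 0 < ENNReal.ofReal a * volume (ball (K.co x) r) :=
        ENNReal.mul_pos (ENNReal.ofReal_pos.2 ha).ne'
          (measure_ball_pos volume _ hr).ne'
    _ = ∫⁻ z in ball (K.co x) r, ENNReal.ofReal a := (setLIntegral_const _ _).symm
    _ ≤ ∫⁻ z in ball (K.co x) r, U.indicator (fun _ => (1 : ℝ≥0∞)) (K.κ i z) *
          ENNReal.ofReal (mad (K.ρ i) z) := by
        refine setLIntegral_mono' measurableSet_ball fun z hz => ?_
        have hz' := hsub hz
        rw [indicator_of_mem (show K.κ i z ∈ U from hz'.2), one_mul]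
        exact ENNReal.ofReal_le_ofReal (hab z (ball_subset_closedBall hz'.1)).1
    _ ≤ ∫⁻ z in ball (0 : Cn n) 3, U.indicator (fun _ => (1 : ℝ≥0∞)) (K.κ i z) *
          ENNReal.ofReal (mad (K.ρ i) z) :=
        lintegral_mono_set ((hsub.trans inter_subset_left).trans xvol_b13)
    _ = ∫⁻ x in K.κ i '' ball 0 3, U.indicator (fun _ => (1 : ℝ≥0∞)) x ∂K.vol := h1.symm
    _ ≤ ∫⁻ x, U.indicator (fun _ => (1 : ℝ≥0∞)) x ∂K.vol := setLIntegral_le_lintegral _ _
    _ = K.vol U := by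
        rw [lintegral_indicator hU.measurableSet, setLIntegral_one]

theorem KM.cap_pos (hU : IsOpen U) (h : U.Nonempty) : 0 < K.cap U := by
  have := K.vol_finite
  refine lt_of_lt_of_le ?_ (K.le_cap (capb_zero K).1 (capb_zero K).2)
  have h1 : ∫ x in U, K.RM (fun _ => (0 : ℝ)) x ∂K.vol = ∫ x in U, (1 : ℝ) ∂K.vol :=
    integral_congr_ae (ae_restrict_of_ae K.RM_zero)
  rw [h1, setIntegral_const, smul_eq_mul, mul_one]
  exact ENNReal.toReal_pos (capb_vol_pos K hU h).ne' (measure_ne_top _ _)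

end HMA

end S_KW_CapB

section S_KW_PartO

/-! # Module PartO: partition of unity for a compact set in an open set -/

open MeasureTheory Metric Set Filter
open scoped ENNReal Topology ContDiff ComplexOrder

namespace HMA

variable {n : ℕ} {X : Type} [TopologicalSpace X] (K : KM n X)

theorem KM.partition_open [T2Space X] [CompactSpace X] {Q U : Set X} (hQ : IsCompact Q)
    (hU : IsOpen U) (hQU : Q ⊆ U) : ∃ b c : Fin K.N → Cn n → ℝ,
      (∀ i, ContDiff ℝ ∞ (b i) ∧ (∀ z, 0 ≤ b i z) ∧ tsupport (b i) ⊆ ball 0 2 ∧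
        ∀ z ∈ ball (0 : Cn n) 3, K.κ i z ∈ Q → b i z = 0) ∧
      (∀ i, ContDiff ℝ ∞ (c i) ∧ (∀ z, 0 ≤ c i z) ∧ tsupport (c i) ⊆ ball 0 2 ∧
        ∀ z ∈ ball (0 : Cn n) 3, K.κ i z ∉ U → c i z = 0) ∧
      ∀ x, ∑ i, (K.ext i (b i) x + K.ext i (c i) x) = 1 := by
  obtain ⟨β, L, hLc, hL2, hβL, hβ01, hβs, hβ1⟩ := XPart_main K
  have hL3 : L ⊆ ball 0 3 := hL2.trans (ball_subset_ball (by norm_num))
  have hts : ∀ i, tsupport (β i) ⊆ L := by
    intro i
    refine closure_minimal ?_ hLc.isClosed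
    intro z hz
    by_contra hzL
    exact hz (hβL i z hzL)
  -- the cut off functions
  have hcut : ∀ i, ∃ χ : Cn n → ℝ, HasCompactSupport χ ∧
      tsupport χ ⊆ ball (0 : Cn n) 3 ∩ K.κ i ⁻¹' U ∧
      (∀ z, 0 ≤ χ z ∧ χ z ≤ 1) ∧ ContDiff ℝ ∞ χ ∧ ∀ z ∈ L ∩ K.κ i ⁻¹' Q, χ z = 1 := by
    intro i
    refine XPart_cut ?_ ((K.cont i).isOpen_inter_preimage isOpen_ball hU) ?_
    · have h1 : IsClosed (L ∩ K.κ i ⁻¹' Q) :=
        ((K.cont i).mono hL3).preimage_isClosed_of_isClosed hLc.isClosed hQ.isClosed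
      exact hLc.of_isClosed_subset h1 inter_subset_left
    · rintro z ⟨h1, h2⟩
      exact ⟨hL3 h1, hQU h2⟩
  choose χ hχc hχs hχ01 hχsm hχ1 using hcut
  refine ⟨fun i z => (1 - χ i z) * β i z, fun i z => χ i z * β i z, ?_, ?_, ?_⟩
  · intro i
    refine ⟨(contDiff_const.sub (hχsm i)).mul (hβs i), ?_, ?_, ?_⟩
    · intro z
      exact mul_nonneg (by linarith [(hχ01 i z).2]) (hβ01 i z).1
    · exact ((tsupport_mul_subset_right (f := fun z => 1 - χ i z) (g := β i)).trans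
        (hts i)).trans hL2
    · intro z hz hzQ
      by_cases hzL : z ∈ L
      · simp only
        rw [hχ1 i z ⟨hzL, hzQ⟩, sub_self, zero_mul]
      · simp only
        rw [hβL i z hzL, mul_zero]
  · intro i
    refine ⟨(hχsm i).mul (hβs i), ?_, ?_, ?_⟩
    · intro z
      exact mul_nonneg (hχ01 i z).1 (hβ01 i z).1
    · exact ((tsupport_mul_subset_right (f := fun z => χ i z) (g := β i)).trans
        (hts i)).trans hL2
    · intro z hz hzU
      have h1 : z ∉ tsupport (χ i) := fun h => hzU (hχs i h).2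
      simp only
      rw [image_eq_zero_of_notMem_tsupport h1, zero_mul]
  · intro x
    refine Eq.trans (Finset.sum_congr rfl fun i _ => ?_) (hβ1 x)
    by_cases h : x ∈ K.κ i '' ball 0 3
    · obtain ⟨z, hz, rfl⟩ := h
      rw [K.ext_κ i _ hz, K.ext_κ i _ hz, K.ext_κ i _ hz]
      ring
    · rw [K.ext_off i _ h, K.ext_off i _ h, K.ext_off i _ h, add_zero]

end HMA

end S_KW_PartO

section S_KW_WellO

/-! # Module WellO: deep wells on compact subsets of open sets of small capacity -/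

open MeasureTheory Metric Set Filter
open scoped ENNReal Topology ContDiff ComplexOrder

namespace HMA

variable {n : ℕ} {X : Type} [TopologicalSpace X] (K : KM n X)

theorem wellO_ext_nonneg (i : Fin K.N) {w : Cn n → ℝ} (hw : ∀ z, 0 ≤ w z) (x : X) :
    0 ≤ K.ext i w x := by
  by_cases h : x ∈ K.κ i '' ball 0 3
  · obtain ⟨z, hz, rfl⟩ := h
    rw [K.ext_κ i w hz]
    exact hw z
  · rw [K.ext_off i w h]

theorem wellO_c11X [T2Space X] (i : Fin K.N) {w : Cn n → ℝ} (hw : ContDiff ℝ ∞ w)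
    (hs : tsupport w ⊆ ball 0 2) : C11X K (K.ext i w) := by
  have hc : IsCompact (tsupport w) :=
    (isCompact_closedBall (0 : Cn n) 2).of_isClosed_subset (isClosed_tsupport w)
      (hs.trans ball_subset_closedBall)
  refine c11X_ext K i (c11_of_contDiffOn isOpen_ball ?_) hc
    (hs.trans (ball_subset_ball (by norm_num))) (fun z hz => image_eq_zero_of_notMem_tsupport hz)
  exact (hw.of_le (by norm_cast)).contDiffOn

variable [MeasurableSpace X] [BorelSpace X] [T2Space X] [CompactSpace X]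

theorem KM.well_open [Nonempty X] {Q U : Set X} (hQ : IsCompact Q) (hU : IsOpen U)
    (hQU : Q ⊆ U) {M : ℝ} (hM : 0 ≤ M) (h : (M + 2) ^ n * K.cap U < K.vol.real univ) :
    ∃ ψ : X → ℝ, WK K ψ ∧ (∀ x ∈ Q, ψ x ≤ 0) ∧ ∃ x, M < ψ x := by
  by_contra hcon
  push Not at hcon
  have hfin := K.vol_finite
  obtain ⟨b, c, hb, hc, hsum⟩ := K.partition_open hQ hU hQU
  have hM2 : 0 < M + 2 := by linarith
  have key : ∀ η : ℝ, 0 < η → K.vol.real univ ≤ (K.N : ℝ) * η + (M + 2) ^ n * K.cap U := by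
    intro η hη
    obtain ⟨ψ, hψ, -, hψb, hψη⟩ := K.almost_extremal Q hM hcon b (fun i => (hb i).1)
      (fun i => (hb i).2.1) (fun i => (hb i).2.2.1) (fun i => (hb i).2.2.2) hη
    have hRM := K.RM_nonneg hψ
    have hbi : ∀ i, Integrable (fun x => K.ext i (b i) x * K.RM ψ x) K.vol := fun i =>
      XEn_mul_int K hψ.c11 (wellO_c11X K i (hb i).1 (hb i).2.2.1)
    have hci : ∀ i, Integrable (fun x => K.ext i (c i) x * K.RM ψ x) K.vol := fun i =>
      XEn_mul_int K hψ.c11 (wellO_c11X K i (hc i).1 (hc i).2.2.1)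
    have hI := XEn_RM_int K hψ.c11
    -- decomposition of the mass
    have e1 : ∀ x, K.RM ψ x = (∑ i, K.ext i (b i) x * K.RM ψ x) +
        ∑ i, K.ext i (c i) x * K.RM ψ x := by
      intro x
      rw [← Finset.sum_mul, ← Finset.sum_mul, ← add_mul, ← Finset.sum_add_distrib, hsum x,
        one_mul]
    have e2 : K.vol.real univ = (∑ i, ∫ x, K.ext i (b i) x * K.RM ψ x ∂K.vol) +
        ∫ x, ∑ i, K.ext i (c i) x * K.RM ψ x ∂K.vol := by
      rw [← K.mass hψ.c11, ← integral_finsetSum _ (fun i _ => hbi i), ← integral_add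
        (integrable_finsetSum _ fun i _ => hbi i) (integrable_finsetSum _ fun i _ => hci i)]
      exact integral_congr_ae (Filter.Eventually.of_forall e1)
    have e3 : ∑ i, ∫ x, K.ext i (b i) x * K.RM ψ x ∂K.vol ≤ (K.N : ℝ) * η := by
      calc ∑ i, ∫ x, K.ext i (b i) x * K.RM ψ x ∂K.vol ≤ ∑ _i : Fin K.N, η :=
            Finset.sum_le_sum fun i _ => hψη i
        _ = (K.N : ℝ) * η := by
            rw [Finset.sum_const, Finset.card_univ, Fintype.card_fin, nsmul_eq_mul]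
    have e4 : ∫ x, ∑ i, K.ext i (c i) x * K.RM ψ x ∂K.vol ≤ ∫ x in U, K.RM ψ x ∂K.vol := by
      rw [← integral_indicator hU.measurableSet]
      refine integral_mono_ae (integrable_finsetSum _ fun i _ => hci i)
        (hI.indicator hU.measurableSet) ?_
      filter_upwards [hRM] with x hx
      by_cases hxU : x ∈ U
      · rw [indicator_of_mem hxU, ← Finset.sum_mul]
        have h1 : ∑ i, K.ext i (c i) x ≤ 1 := by
          have h2 := hsum x
          rw [Finset.sum_add_distrib] at h2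
          have h3 : 0 ≤ ∑ i, K.ext i (b i) x :=
            Finset.sum_nonneg fun i _ => wellO_ext_nonneg K i (hb i).2.1 x
          linarith
        calc (∑ i, K.ext i (c i) x) * K.RM ψ x ≤ 1 * K.RM ψ x :=
              mul_le_mul_of_nonneg_right h1 hx
          _ = K.RM ψ x := one_mul _
      · rw [indicator_of_notMem hxU]
        refine le_of_eq (Finset.sum_eq_zero fun i _ => ?_)
        have h1 : K.ext i (c i) x = 0 := by
          by_cases hx3 : x ∈ K.κ i '' ball 0 3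
          · obtain ⟨z, hz, rfl⟩ := hx3
            rw [K.ext_κ i _ hz]
            exact (hc i).2.2.2 z hz hxU
          · exact K.ext_off i _ hx3
        rw [h1, zero_mul]
    -- the competitor
    set s : ℝ := 1 / (M + 2) with hs
    have hs0 : 0 < s := by positivity
    have hs1 : s ≤ 1 := by
      rw [hs, div_le_one hM2]
      linarith
    have hsM : s * (M + 2) = 1 := by rw [hs]; field_simp
    have hw : WK K (fun x => (1 - s) * (0 : ℝ) + s * ψ x) := WK.convex K (wk_const K 0) hψ hs0.le hs1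
    have hv : WK K (fun x => (1 - s) * (0 : ℝ) + s * ψ x - s * M) := xmass_sub_const K hw (s * M)
    have hv01 : ∀ x, -1 ≤ (1 - s) * (0 : ℝ) + s * ψ x - s * M ∧
        (1 - s) * (0 : ℝ) + s * ψ x - s * M ≤ 0 := by
      intro x
      obtain ⟨h1, h2⟩ := hψb x
      have h3 := mul_le_mul_of_nonneg_left h1 hs0.le
      have h4 := mul_le_mul_of_nonneg_left h2 hs0.le
      constructor <;> nlinarith
    have e5 : s ^ n * ∫ x in U, K.RM ψ x ∂K.vol ≤ K.cap U := by
      refine le_trans ?_ (K.le_cap hv hv01)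
      rw [← integral_const_mul]
      refine integral_mono_ae (hI.integrableOn.const_mul _) (XEn_RM_int K hv.c11).integrableOn ?_
      have h1 := K.RM_convex (wk_const K 0) hψ hs0.le hs1
      have h2 := K.RM_add_const hw.c11 (-(s * M))
      refine ae_restrict_of_ae ?_
      filter_upwards [h1, h2] with x hx1 hx2
      have e6 : (fun y => (1 - s) * (0 : ℝ) + s * ψ y + -(s * M)) =
          fun y => (1 - s) * (0 : ℝ) + s * ψ y - s * M := by
        funext y; ring
      rw [e6] at hx2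
      rw [hx2]
      exact hx1
    have e7 : ∫ x in U, K.RM ψ x ∂K.vol ≤ (M + 2) ^ n * K.cap U := by
      have h1 := mul_le_mul_of_nonneg_left e5 (show (0 : ℝ) ≤ (M + 2) ^ n by positivity)
      rw [← mul_assoc, ← mul_pow, mul_comm (M + 2) s, hsM, one_pow, one_mul] at h1
      exact h1
    rw [e2]
    linarith
  have hlim : K.vol.real univ ≤ (M + 2) ^ n * K.cap U := by
    refine le_of_forall_pos_le_add fun ε hε => ?_
    have h1 := key (ε / ((K.N : ℝ) + 1)) (by positivity)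
    have h2 : (K.N : ℝ) * (ε / ((K.N : ℝ) + 1)) ≤ ε := by
      rw [mul_div_assoc', div_le_iff₀ (by positivity)]
      nlinarith
    linarith
  linarith

end HMA

end S_KW_WellO

section S_KW_KIm

/-! # Module KIm: the key inequality for almost maximal functions -/

open MeasureTheory Metric Set Filter
open scoped ENNReal Topology ContDiff ComplexOrder

namespace HMA

variable {n : ℕ} {X : Type} [TopologicalSpace X] (K : KM n X)

variable [MeasurableSpace X] [BorelSpace X] [T2Space X] [CompactSpace X]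

variable {ψ h : X → ℝ}

omit [MeasurableSpace X] [BorelSpace X] [T2Space X] [CompactSpace X] in
theorem KIm_diff (hψ : C11X K ψ) (hh : C11X K h) : C11X K (fun x => h x - ψ x) := by
  have h1 := C11X.add K hh (C11X.const_mul K hψ (-1))
  have e : (fun x => h x + (-1) * ψ x) = fun x => h x - ψ x := by funext x; ring
  rwa [e] at h1

omit [MeasurableSpace X] [BorelSpace X] [T2Space X] [CompactSpace X] in
theorem KIm_c11 (hψ : C11X K ψ) (hh : C11X K h) {θ : ℝ → ℝ} (hθ : ContDiff ℝ ∞ θ) :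
    C11X K (fun x => ψ x + θ (h x - ψ x)) := by
  have hθ2 : ContDiff ℝ 2 θ := (contDiff_infty.1 hθ) 2
  exact C11X.add K hψ (fun i => C11.comp_real isOpen_ball (KIm_diff K hψ hh i) hθ2)

theorem WK.theta2 (hψ : WK K ψ) (hh : WK K h) {θ : ℝ → ℝ} (hθ : ContDiff ℝ ∞ θ)
    (h1 : ∀ x, 0 ≤ deriv θ x ∧ deriv θ x ≤ 1) (h2 : ∀ x, 0 ≤ deriv (deriv θ) x) :
    WK K (fun x => ψ x + θ (h x - ψ x)) := by
  have hθ2 : ContDiff ℝ 2 θ := (contDiff_infty.1 hθ) 2
  have hc := KIm_c11 K hψ.c11 hh.c11 hθ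
  refine ⟨hc, fun i => ?_⟩
  have hρ : C11 (ball 0 3) (K.ρ i) := KM.ρ_c11 K i
  rw [c11_sub_iff isOpen_ball (C11.add isOpen_ball hρ (hc i))]
  have h3 := (c11_sub_iff isOpen_ball (C11.add isOpen_ball hρ (hψ.c11 i))).1 (hψ.sub i)
  have h4 := (c11_sub_iff isOpen_ball (C11.add isOpen_ball hρ (hh.c11 i))).1 (hh.sub i)
  filter_upwards [h3, h4, C11.ae_twD isOpen_ball hρ, C11.ae_twD isOpen_ball (hψ.c11 i),
    C11.ae_twD isOpen_ball (hh.c11 i)] with z hz1 hz1' hz2 hz3 hz4 hz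
  have t1 := hz2 hz
  have t2 := hz3 hz
  have t3 := hz4 hz
  have p1 := hz1 hz
  have p2 := hz1' hz
  have t4 := TwD.const_mul t2 (-1)
  have t5 := TwD.add t3 t4.1
  have e5 : (fun z => h (K.κ i z) + (-1) * ψ (K.κ i z)) = fun z => h (K.κ i z) - ψ (K.κ i z) := by
    funext z; ring
  rw [e5] at t5
  obtain ⟨t6, G, hG, hG2⟩ := TwD.comp_real t5.1 hθ2
  rw [(TwD.add t1 t2).2] at p1
  rw [(TwD.add t1 t3).2] at p2
  have t7 := TwD.add t2 t6
  rw [(TwD.add t1 t7.1).2, t7.2, hG2, t5.2, t4.2]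
  set θ1 : ℝ := deriv θ (h (K.κ i z) - ψ (K.κ i z)) with hθ1
  set θ2 : ℝ := deriv (deriv θ) (h (K.κ i z) - ψ (K.κ i z)) with hθ22
  set P := LM (fun z => ψ (K.κ i z)) z with hP
  set H := LM (fun z => h (K.κ i z)) z with hH
  set R := LM (K.ρ i) z with hR
  have e : R + (P + (((θ1 : ℝ) : ℂ) • (H + (((-1 : ℝ) : ℝ) : ℂ) • P) + ((θ2 : ℝ) : ℂ) • G)) =
      (((1 - θ1 : ℝ) : ℂ) • (R + P) + ((θ1 : ℝ) : ℂ) • (R + H)) + ((θ2 : ℝ) : ℂ) • G := by
    push_cast
    module
  rw [e]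
  exact ((xtheta_smul p1 (sub_nonneg.2 (h1 _).2)).add
    (xtheta_smul p2 (h1 _).1)).add (xtheta_smul hG (h2 _))

/-- `RM` is local -/
theorem KM.RM_local {u v : X → ℝ} {x : X} (h : ∀ᶠ y in 𝓝 x, u y = v y) :
    K.RM u x = K.RM v x := by
  have hco := K.co_spec x
  have hc : ContinuousAt (K.κ (K.ix x)) (K.co x) :=
    (K.cont (K.ix x)).continuousAt (isOpen_ball.mem_nhds (xRel_co3 K x))
  have h0 : ∀ᶠ y in 𝓝 (K.κ (K.ix x) (K.co x)), u y = v y := by
    rw [hco.2]
    exact h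
  have h1 : ∀ᶠ z in 𝓝 (K.co x), u (K.κ (K.ix x) z) = v (K.κ (K.ix x) z) := hc.eventually h0
  have h2 : (fun z => K.ρ (K.ix x) z + u (K.κ (K.ix x) z)) =ᶠ[𝓝 (K.co x)]
      fun z => K.ρ (K.ix x) z + v (K.κ (K.ix x) z) := by
    filter_upwards [h1] with z hz
    rw [hz]
  simp only [KM.RM, mad]
  rw [LM_congr h2]

omit [T2Space X] in
theorem KIm_int {μ : Measure X} [IsFiniteMeasure μ] {f : X → ℝ} (hf : Continuous f) :
    Integrable f μ := by
  obtain ⟨C, hC⟩ := (isCompact_univ (X := X)).exists_bound_of_continuousOn hf.continuousOn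
  exact Integrable.of_bound hf.aestronglyMeasurable C
    (Filter.Eventually.of_forall fun x => hC x (mem_univ x))

theorem KIm_step {μ : Measure X} [IsProbabilityMeasure μ] {δ : ℝ} (hψ : Amax K μ δ ψ)
    (hh : WK K h) {η : ℝ} (hη : 0 < η) :
    (1 / (n + 1 : ℝ)) * ∫ x, max (h x - ψ x) 0 * K.RM h x ∂K.vol ≤
      K.vol.real univ * ∫ x, max (h x - ψ x) 0 ∂μ + δ + 2 * K.vol.real univ * η := by
  obtain ⟨θ, hθ, hθ0, hθ1, hd1, hd2, hθb⟩ := exists_theta hη
  set V := K.vol.real univ with hV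
  have hV0 : 0 ≤ V := measureReal_nonneg
  have hχ : WK K (fun x => ψ x + θ (h x - ψ x)) := WK.theta2 K hψ.wk hh hθ hd1 hd2
  set χ : X → ℝ := fun x => ψ x + θ (h x - ψ x) with hχd
  have hcψ : Continuous ψ := C11X.continuous K hψ.wk.c11
  have hch : Continuous h := C11X.continuous K hh.c11
  have hcχ : Continuous χ := C11X.continuous K hχ.c11
  have hcm : Continuous (fun x => max (h x - ψ x) 0) := (hch.sub hcψ).max continuous_const
  -- energy
  have h1 := hψ.max χ hχ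
  unfold KM.J at h1
  have h2 : ∫ x, χ x ∂μ - ∫ x, ψ x ∂μ ≤ ∫ x, max (h x - ψ x) 0 ∂μ + η := by
    rw [← integral_sub (KIm_int hcχ) (KIm_int hcψ)]
    have e : ∫ x, max (h x - ψ x) 0 ∂μ + η = ∫ x, (max (h x - ψ x) 0 + η) ∂μ := by
      rw [integral_add (KIm_int hcm) (integrable_const η), integral_const]
      simp
    rw [e]
    refine integral_mono (KIm_int (hcχ.sub hcψ)) (KIm_int (hcm.add continuous_const)) ?_
    intro x
    have := (hθb (h x - ψ x)).2
    simp only [hχd]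
    linarith
  have h3 : K.E χ - K.E ψ ≤ V * ∫ x, max (h x - ψ x) 0 ∂μ + V * η + δ := by
    have h4 := mul_le_mul_of_nonneg_left h2 hV0
    rw [mul_sub, mul_add] at h4
    linarith
  have hle : ∀ x, ψ x ≤ χ x := by
    intro x
    have := (hθb (h x - ψ x)).1
    have h5 := le_max_right (h x - ψ x) 0
    simp only [hχd]
    linarith
  have h4 := K.E_mono hψ.wk hχ hle
  -- comparison of the integrals
  have hRh := XEn_RM_int K hh.c11
  have hI1 : Integrable (fun x => max (h x - ψ x) 0 * K.RM h x) K.vol := by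
    obtain ⟨C, hC⟩ := (isCompact_univ (X := X)).exists_bound_of_continuousOn hcm.continuousOn
    exact hRh.bdd_mul hcm.aestronglyMeasurable
      (Filter.Eventually.of_forall fun x => hC x (mem_univ x))
  have hdiff : C11X K (fun x => χ x - ψ x) := KIm_diff K hψ.wk.c11 hχ.c11
  have hI2 : Integrable (fun x => (χ x - ψ x) * K.RM χ x) K.vol := XEn_mul_int K hχ.c11 hdiff
  have h5 : ∫ x, max (h x - ψ x) 0 * K.RM h x ∂K.vol ≤
      ∫ x, (χ x - ψ x) * K.RM χ x ∂K.vol + η * V := by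
    rw [hV, ← K.mass hh.c11, ← integral_const_mul, ← integral_add hI2 (hRh.const_mul η)]
    refine integral_mono_ae hI1 (hI2.add (hRh.const_mul η)) ?_
    filter_upwards [K.RM_nonneg hh, K.RM_nonneg hχ] with x hx1 hx2
    by_cases hc : η < h x - ψ x
    · have hloc : K.RM χ x = K.RM h x := by
        apply K.RM_local
        have hev : ∀ᶠ y in 𝓝 x, η < h y - ψ y :=
          continuousAt_const.eventually_lt (hch.sub hcψ).continuousAt hc
        filter_upwards [hev] with y hy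
        simp only [hχd]
        rw [hθ1 _ hy.le]
        ring
      have hχx : χ x - ψ x = h x - ψ x := by
        simp only [hχd]
        rw [hθ1 _ hc.le]
        ring
      rw [hloc, hχx, max_eq_left (by linarith)]
      have : 0 ≤ η * K.RM h x := mul_nonneg hη.le hx1
      linarith
    · push Not at hc
      have h6 : max (h x - ψ x) 0 ≤ η := max_le hc hη.le
      have h7 : 0 ≤ (χ x - ψ x) * K.RM χ x := mul_nonneg (sub_nonneg.2 (hle x)) hx2
      have h8 : max (h x - ψ x) 0 * K.RM h x ≤ η * K.RM h x := mul_le_mul_of_nonneg_right h6 hx1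
      linarith
  have hn : (1 / (n + 1 : ℝ)) ≤ 1 := by
    rw [div_le_one (by positivity)]
    linarith [(Nat.cast_nonneg n : (0 : ℝ) ≤ n)]
  have hn0 : 0 ≤ (1 / (n + 1 : ℝ)) := by positivity
  calc (1 / (n + 1 : ℝ)) * ∫ x, max (h x - ψ x) 0 * K.RM h x ∂K.vol
      ≤ (1 / (n + 1 : ℝ)) * (∫ x, (χ x - ψ x) * K.RM χ x ∂K.vol + η * V) :=
        mul_le_mul_of_nonneg_left h5 hn0
    _ = (1 / (n + 1 : ℝ)) * ∫ x, (χ x - ψ x) * K.RM χ x ∂K.vol + (1 / (n + 1 : ℝ)) * (η * V) := by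
        ring
    _ ≤ (K.E χ - K.E ψ) + 1 * (η * V) :=
        add_le_add h4 (mul_le_mul_of_nonneg_right hn (by positivity))
    _ ≤ _ := by linarith

theorem KM.key_ineq {μ : Measure X} [IsProbabilityMeasure μ] {δ : ℝ} (hψ : Amax K μ δ ψ) :
    KIneq K μ δ ψ := by
  intro h hh
  set V := K.vol.real univ with hV
  have hV0 : 0 ≤ V := measureReal_nonneg
  refine le_of_forall_pos_le_add fun ε hε => ?_
  have h1 := KIm_step K hψ hh (η := ε / (2 * V + 1)) (by positivity)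
  refine h1.trans ?_
  have h2 : 2 * V * (ε / (2 * V + 1)) ≤ ε := by
    rw [mul_div_assoc', div_le_iff₀ (by positivity)]
    nlinarith
  linarith

end HMA

end S_KW_KIm

section S_KW_Conc

/-! # Module Conc: concavity of the energy -/

open MeasureTheory Metric Set Filter
open scoped ENNReal Topology ContDiff ComplexOrder

namespace HMA

variable {n : ℕ} {X : Type} [TopologicalSpace X] (K : KM n X)

variable [MeasurableSpace X] [BorelSpace X] [T2Space X] [CompactSpace X]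

variable {φ ψ w : X → ℝ}

omit [T2Space X] [CompactSpace X] in
theorem Conc_point (hφ : WK K φ) (hw : C11X K w) :
    ∀ᵐ x ∂K.vol, 2 * (w x * K.RL φ w x) ≤ K.RL φ (fun y => w y * w y) x := by
  have hθ : ContDiff ℝ 2 (fun t : ℝ => t * t) := contDiff_id.mul contDiff_id
  filter_upwards [xRel_ae_twD K hw, xRel_psd K hφ] with x h1 h2
  have hpos := (K.mad_ρ_pos (K.ix x) (xRel_co3 K x)).2.2
  obtain ⟨-, G, hG, hG2⟩ := h1.comp_real hθ
  have d1 : deriv (fun t : ℝ => t * t) = fun t => 2 * t := by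
    funext t
    have := (hasDerivAt_id t).mul (hasDerivAt_id t)
    simp only [id, one_mul, mul_one] at this
    have h3 : HasDerivAt (fun t : ℝ => t * t) (t + t) t := this
    rw [h3.deriv]; ring
  have d2 : deriv (deriv (fun t : ℝ => t * t)) = fun _ => 2 := by
    rw [d1]
    funext t
    have := (hasDerivAt_id t).const_mul (2 : ℝ)
    simp only [id, mul_one] at this
    exact this.deriv
  rw [d1] at hG2
  have d3 : deriv (fun t : ℝ => 2 * t) = fun _ => 2 := by rw [← d1, d2]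
  rw [d3] at hG2
  have hx : w (K.κ (K.ix x) (K.co x)) = w x := by rw [(K.co_spec x).2]
  simp only [KM.RL, mal]
  have e : (fun z => w (K.κ (K.ix x) z) * w (K.κ (K.ix x) z)) =
      fun z => (fun t : ℝ => t * t) (w (K.κ (K.ix x) z)) := rfl
  rw [e, hG2, Matrix.mul_add, Matrix.trace_add, Complex.add_re, Matrix.mul_smul, Matrix.mul_smul,
    Matrix.trace_smul, Matrix.trace_smul, smul_eq_mul, smul_eq_mul, Complex.re_ofReal_mul,
    Complex.re_ofReal_mul, hx, add_div]
  have h3 := mat_trace_mul (mat_adj_psd h2) hG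
  have h4 : 0 ≤ 2 * ((((LM (fun z => K.ρ (K.ix x) z + φ (K.κ (K.ix x) z)) (K.co x)).adjugate *
      G).trace).re) / mad (K.ρ (K.ix x)) (K.co x) := by positivity
  have h5 : ∀ a b c : ℝ, 2 * (a * (b / c)) = 2 * a * b / c := fun a b c => by ring
  rw [h5]
  linarith

theorem KM.RL_neg (hφ : WK K φ) (hw : C11X K w) : ∫ x, w x * K.RL φ w x ∂K.vol ≤ 0 := by
  have hw2 : C11X K (fun y => w y * w y) := hw.mul K hw
  have h1 := K.RL_mass hφ.c11 hw2
  have h2 : ∫ x, 2 * (w x * K.RL φ w x) ∂K.vol ≤ ∫ x, K.RL φ (fun y => w y * w y) x ∂K.vol := by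
    refine integral_mono_ae ((xSym_int K hφ.c11 hw hw).const_mul 2) ?_ (Conc_point K hφ hw)
    have := xSym_int K hφ.c11 (c11X_const K 1) hw2
    simpa using this
  rw [integral_const_mul, h1] at h2
  linarith

/-- the second derivative of the energy -/
theorem Conc_deriv (hψ : C11X K ψ) (hw : C11X K w) (s : ℝ) :
    HasDerivAt (fun s : ℝ => ∫ x, w x * K.RM (fun y => ψ y + s * w y) x ∂K.vol)
      (∫ x, w x * K.RL (fun y => ψ y + s * w y) w x ∂K.vol) s := by
  obtain ⟨Cw, hCw0, hCw⟩ := XEn_bdd K hw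
  set A : ℝ := |s| + 1 with hA
  have hA1 : 1 ≤ A := by rw [hA]; linarith [abs_nonneg s]
  obtain ⟨C1, hC10, hC1⟩ := XEn_RM_bdd K hψ hw A
  obtain ⟨C2, hC20, hC2⟩ := XEn_RL_bdd K hψ hw hw A
  have e1 : ∀ s : ℝ, (fun y => 1 * ψ y + s * w y) = (fun y => ψ y + s * w y) := fun s => by
    funext y; ring
  have hsum : ∀ s : ℝ, C11X K (fun y => ψ y + s * w y) := fun s =>
    C11X.add K hψ (C11X.const_mul K hw s)
  refine XEn_deriv K (s₀ := s)
    (F := fun s x => w x * K.RM (fun y => ψ y + s * w y) x)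
    (F' := fun s x => w x * K.RL (fun y => ψ y + s * w y) w x)
    (C := Cw * C2) (C' := Cw * C1) ?_ ?_ ?_ ?_ ?_
  · intro s
    exact (C11X.continuous K hw).aestronglyMeasurable.mul (K.RM_meas (hsum s))
  · exact (C11X.continuous K hw).aestronglyMeasurable.mul (K.RL_meas (hsum s) hw)
  · intro t ht x
    have ht' : |t| ≤ A := by
      have h1 : |t - s| < 1 := by simpa [Real.dist_eq] using ht
      have h2 : |t| ≤ |t - s| + |s| := by
        have := abs_add_le (t - s) s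
        simpa using this
      rw [hA]; linarith
    have b2 := hC2 1 t (by rw [abs_one]; exact hA1) ht' x
    rw [e1] at b2
    rw [abs_mul]; exact mul_le_mul (hCw x) b2 (abs_nonneg _) hCw0
  · intro x
    have hs' : |s| ≤ A := by rw [hA]; linarith
    have b1 := hC1 1 s (by rw [abs_one]; exact hA1) hs' x
    rw [e1] at b1
    rw [abs_mul]; exact mul_le_mul (hCw x) b1 (abs_nonneg _) hCw0
  · filter_upwards [K.RM_deriv hψ hw] with x hx t
    exact (hx t).const_mul (w x)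

theorem KM.E_concave (hψ : WK K ψ) (hφ : WK K φ) :
    K.E φ - K.E ψ ≤ ∫ x, (φ x - ψ x) * K.RM ψ x ∂K.vol := by
  have hd : C11X K (fun x => φ x + (-1) * ψ x) := C11X.add K hφ.c11 (C11X.const_mul K hψ.c11 (-1))
  have hd' : (fun x => φ x + (-1) * ψ x) = fun x => φ x - ψ x := by funext x; ring
  rw [hd'] at hd
  have h1 := K.E_diff hψ.c11 hd
  have e1 : (fun x => ψ x + (φ x - ψ x)) = φ := by funext x; ring
  rw [e1] at h1
  rw [h1]
  have e2 : ∀ s : ℝ, (fun y => ψ y + s * (φ y - ψ y)) = fun y => (1 - s) * ψ y + s * φ y :=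
    fun s => by funext y; ring
  have hder := Conc_deriv K hψ.c11 hd
  have hanti : AntitoneOn
      (fun s : ℝ => ∫ x, (φ x - ψ x) * K.RM (fun y => ψ y + s * (φ y - ψ y)) x ∂K.vol)
      (Icc 0 1) := by
    refine antitoneOn_of_deriv_nonpos (convex_Icc 0 1)
      (XEn_Hcont K hψ.c11 hd).continuousOn (fun s _ => (hder s).differentiableAt.differentiableWithinAt)
      fun s hs => ?_
    rw [interior_Icc] at hs
    rw [(hder s).deriv]
    refine K.RL_neg ?_ hd
    rw [e2]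
    exact WK.convex K hψ hφ hs.1.le hs.2.le
  have h3 := intervalIntegral.integral_mono_on zero_le_one
    ((XEn_Hcont K hψ.c11 hd).intervalIntegrable 0 1)
    (intervalIntegrable_const (μ := volume) (c := ∫ x, (φ x - ψ x) * K.RM ψ x ∂K.vol))
    (fun s hs => by
      have := hanti (left_mem_Icc.2 zero_le_one) hs hs.1
      simpa using this)
  rw [intervalIntegral.integral_const, smul_eq_mul] at h3
  linarith

end HMA

end S_KW_Conc

section S_KW_Bump

/-! # Module Bump: upper bound for the Monge-Ampère measure of almost maximal functions -/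

open MeasureTheory Metric Set Filter
open scoped ENNReal Topology ContDiff ComplexOrder

namespace HMA

variable {n : ℕ} {X : Type} [TopologicalSpace X] (K : KM n X)

variable [MeasurableSpace X] [BorelSpace X] [T2Space X] [CompactSpace X]

omit [T2Space X] in
theorem Bump_int {μ : Measure X} [IsProbabilityMeasure μ] {f : X → ℝ} (hf : Continuous f) :
    Integrable f μ := by
  obtain ⟨C, hC⟩ := (isCompact_univ (X := X)).exists_bound_of_continuousOn hf.continuousOn
  exact Integrable.of_bound hf.aestronglyMeasurable C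
    (Filter.Eventually.of_forall fun x => hC x (mem_univ x))

theorem KM.bump {μ : Measure X} [IsProbabilityMeasure μ] (i : Fin K.N) {b : Cn n → ℝ}
    (hb : ContDiff ℝ ∞ b) (hb0 : ∀ z, 0 ≤ b z) (hbs : tsupport b ⊆ ball 0 2) (M : ℝ) :
    ∃ C : ℝ, 0 < C ∧ ∀ (δ : ℝ) (φ : X → ℝ), 0 < δ → δ ≤ 1 → Amax K μ δ φ → (∀ x, |φ x| ≤ M) →
      ∫ x, K.ext i b x * K.RM φ x ∂K.vol ≤
        K.vol.real univ * ∫ x, K.ext i b x ∂μ + C * Real.sqrt δ := by
  obtain ⟨C, hC0, hC⟩ := KM.loc_mass K i hb hb0 hbs M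
  refine ⟨C + 1, by positivity, ?_⟩
  intro δ φ hδ0 hδ1 hA hφM
  set t : ℝ := Real.sqrt δ with ht
  have ht0 : 0 < t := Real.sqrt_pos.mpr hδ0
  have ht1 : t ≤ 1 := by
    rw [ht]
    exact Real.sqrt_le_one.mpr hδ1
  have htt : t * t = δ := Real.mul_self_sqrt hδ0.le
  obtain ⟨g, hg, hgb, hWK, hint⟩ := KM.loc_mod K hA.wk i hb hb0 hbs ht0
  have hV0 : 0 ≤ K.vol.real univ := measureReal_nonneg
  have hL : IsCompact (tsupport b) := xLoc_compact hbs
  have hL3 : tsupport b ⊆ ball 0 3 := hbs.trans (ball_subset_ball (by norm_num))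
  have hextb : C11X K (K.ext i b) := c11X_ext K i (xLoc_c11 hb _ isOpen_ball) hL hL3 (fun z hz => image_eq_zero_of_notMem_tsupport hz)
  have hcb : Continuous (K.ext i b) := C11X.continuous K hextb
  have hcφ : Continuous φ := C11X.continuous K hA.wk.c11
  have hcg' : Continuous (fun x => φ x + K.ext i g x) := C11X.continuous K hWK.c11
  have hcg : Continuous (K.ext i g) := by
    have h1 : Continuous (fun x => (φ x + K.ext i g x) - φ x) := hcg'.sub hcφ
    have h2 : (fun x => (φ x + K.ext i g x) - φ x) = K.ext i g := by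
      funext x
      ring
    rwa [h2] at h1
  have hgbx : ∀ x, K.ext i g x ≤ t * K.ext i b x := by
    intro x
    unfold KM.ext
    split_ifs
    · exact (hgb _).2
    · simp
  -- the inequality from the maximality
  have h1 := hA.max _ hWK
  unfold KM.J at h1
  rw [integral_add (Bump_int hcφ) (Bump_int hcg)] at h1
  have h2 : ∫ x, K.ext i g x ∂μ ≤ t * ∫ x, K.ext i b x ∂μ := by
    rw [← integral_const_mul]
    exact integral_mono (Bump_int hcg) ((Bump_int hcb).const_mul t) hgbx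
  have h3 := KM.E_concave K hWK hA.wk
  have h4 : (fun x => (φ x - (φ x + K.ext i g x)) * K.RM (fun y => φ y + K.ext i g y) x) =
      fun x => -(K.ext i g x * K.RM (fun y => φ y + K.ext i g y) x) := by
    funext x
    ring
  rw [h4, integral_neg, hint] at h3
  set J : ℝ := ∫ x, K.ext i b x * K.RM (fun y => φ y + K.ext i g y) x ∂K.vol with hJ
  have h5 : t * J ≤ t * (K.vol.real univ * ∫ x, K.ext i b x ∂μ + t) := by
    have h6 : K.vol.real univ * ∫ x, K.ext i g x ∂μ ≤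
        K.vol.real univ * (t * ∫ x, K.ext i b x ∂μ) := mul_le_mul_of_nonneg_left h2 hV0
    have h7 : t * (K.vol.real univ * ∫ x, K.ext i b x ∂μ + t) =
        K.vol.real univ * (t * ∫ x, K.ext i b x ∂μ) + δ := by
      rw [← htt]
      ring
    rw [h7]
    linarith
  have h6 : J ≤ K.vol.real univ * ∫ x, K.ext i b x ∂μ + t := le_of_mul_le_mul_left h5 ht0
  have h7 := (abs_le.1 (hC φ hA.wk hφM t ht0 ht1 g hg hgb hWK)).1
  have h8 : (C + 1) * t = C * t + t := by ring
  rw [h8]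
  linarith

end HMA

end S_KW_Bump

section S_KW_WeakL

/-! # Module WeakL: weak convergence -/

open MeasureTheory Metric Set Filter
open scoped ENNReal Topology ContDiff ComplexOrder

namespace HMA

variable {n : ℕ} {X : Type} [TopologicalSpace X] (K : KM n X)

theorem weakL_c11 {f : X → ℝ} (hf : ∀ j, ContDiffOn ℝ ∞ (fun z => f (K.κ j z)) (ball 0 3)) :
    C11X K f :=
  fun j => c11_of_contDiffOn isOpen_ball (contDiffOn_infty.1 (hf j) 2)

theorem weakL_ext_mul (j : Fin K.N) (b : Cn n → ℝ) (f : X → ℝ) (x : X) :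
    K.ext j (fun z => b z * f (K.κ j z)) x = K.ext j b x * f x := by
  by_cases h : x ∈ K.κ j '' ball 0 3
  · obtain ⟨z, hz, rfl⟩ := h
    rw [K.ext_κ j _ hz, K.ext_κ j _ hz]
  · rw [K.ext_off j _ h, K.ext_off j _ h, zero_mul]

variable [MeasurableSpace X] [BorelSpace X] [T2Space X] [CompactSpace X]

theorem weakL_upper {μ : Measure X} [IsProbabilityMeasure μ] {f : X → ℝ}
    (hf : ∀ j, ContDiffOn ℝ ∞ (fun z => f (K.κ j z)) (ball 0 3)) (hf0 : ∀ x, 0 ≤ f x) (M : ℝ) :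
    ∃ C : ℝ, ∀ (δ : ℝ) (φ : X → ℝ), 0 < δ → δ ≤ 1 → Amax K μ δ φ → (∀ x, |φ x| ≤ M) →
      ∫ x, f x * K.RM φ x ∂K.vol ≤ K.vol.real univ * ∫ x, f x ∂μ + C * Real.sqrt δ := by
  obtain ⟨b, hb, -, hsum⟩ := exists_partition K
  set b' : Fin K.N → Cn n → ℝ := fun j z => b j z * f (K.κ j z) with hb'
  have hb3 : ∀ j, tsupport (b j) ⊆ ball (0 : Cn n) 3 :=
    fun j => (hb j).2.1.trans (ball_subset_ball (by norm_num))
  have hzero : ∀ j z, z ∉ tsupport (b j) → b' j z = 0 := by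
    intro j z hz
    simp only [hb']
    rw [image_eq_zero_of_notMem_tsupport hz, zero_mul]
  have hsm : ∀ j, ContDiff ℝ ∞ (b' j) := fun j =>
    XPart_glob (hb j).1 (hb3 j) ((hb j).2.2.2.contDiffOn.mul (hf j)) (hzero j)
  have h0 : ∀ j z, 0 ≤ b' j z := fun j z => mul_nonneg ((hb j).2.2.1 z).1 (hf0 _)
  have hts : ∀ j, tsupport (b' j) ⊆ ball (0 : Cn n) 2 := by
    intro j
    refine (closure_minimal ?_ (hb j).1.isClosed).trans (hb j).2.1
    intro z hz
    by_contra h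
    exact hz (hzero j z h)
  have hext : ∀ j x, K.ext j (b' j) x = K.ext j (b j) x * f x :=
    fun j x => weakL_ext_mul K j (b j) f x
  have hC11 : ∀ j, C11X K (K.ext j (b' j)) := by
    intro j
    refine c11X_ext K j ?_ (hb j).1 (hb3 j) (hzero j)
    exact c11_of_contDiffOn isOpen_ball (contDiff_infty.1 (hsm j) 2).contDiffOn
  have hfsum : ∀ x, f x = ∑ j, K.ext j (b' j) x := by
    intro x
    simp_rw [hext]
    rw [← Finset.sum_mul, hsum x, one_mul]
  choose C hC0 hC using fun j => KM.bump K (μ := μ) j (hsm j) (h0 j) (hts j) M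
  refine ⟨∑ j, C j, fun δ φ hδ hδ1 hφ hM => ?_⟩
  have h1 : ∫ x, f x * K.RM φ x ∂K.vol = ∑ j, ∫ x, K.ext j (b' j) x * K.RM φ x ∂K.vol := by
    rw [← integral_finsetSum]
    · refine integral_congr_ae (Eventually.of_forall fun x => ?_)
      simp only
      rw [hfsum x, Finset.sum_mul]
    · intro j _
      exact K.xLoc_int hφ.wk.c11 (hC11 j)
  have h2 : ∫ x, f x ∂μ = ∑ j, ∫ x, K.ext j (b' j) x ∂μ := by
    rw [← integral_finsetSum]
    · refine integral_congr_ae (Eventually.of_forall fun x => ?_)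
      simp only
      rw [← hfsum x]
    · intro j _
      obtain ⟨B, -, hB⟩ := XEn_bdd K (hC11 j)
      exact Integrable.of_bound (C11X.continuous K (hC11 j)).aestronglyMeasurable B
        (Eventually.of_forall hB)
  rw [h1, h2, Finset.mul_sum, Finset.sum_mul, ← Finset.sum_add_distrib]
  exact Finset.sum_le_sum fun j _ => hC j δ φ hδ hδ1 hφ hM

theorem KM.weak_lim {μ : Measure X} [IsProbabilityMeasure μ] {φ : ℕ → X → ℝ} {δ : ℕ → ℝ}
    (hδ : Tendsto δ atTop (𝓝 0)) (h : ∀ k, Amax K μ (δ k) (φ k)) {M : ℝ}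
    (hM : ∀ k x, |φ k x| ≤ M) (i : Fin K.N) {χ : Cn n → ℝ} (hχ : ContDiff ℝ ∞ χ)
    (hc : HasCompactSupport χ) (hs : tsupport χ ⊆ ball 0 3) :
    Tendsto (fun k => ∫ x, K.ext i χ x * K.RM (φ k) x ∂K.vol) atTop
      (𝓝 (K.vol.real univ * ∫ x, K.ext i χ x ∂μ)) := by
  obtain ⟨R0, hR0⟩ := hc.exists_bound_of_continuous hχ.continuous
  set R : ℝ := |R0| + 1 with hR
  have hRpos : 0 < R := by positivity
  have hχR : ∀ z, |χ z| ≤ R := fun z => by
    have := hR0 z
    rw [Real.norm_eq_abs] at this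
    linarith [le_abs_self R0]
  have hextR : ∀ x, |K.ext i χ x| ≤ R := by
    intro x
    by_cases hx : x ∈ K.κ i '' ball 0 3
    · obtain ⟨z, hz, rfl⟩ := hx
      rw [K.ext_κ i _ hz]
      exact hχR z
    · rw [K.ext_off i _ hx, abs_zero]
      exact hRpos.le
  have hsm := XPart_smooth K i
  have hE : ∀ j, ContDiffOn ℝ ∞ (fun z => K.ext i χ (K.κ j z)) (ball 0 3) :=
    fun j => XPart_smooth K i j hχ hc hs
  set f : X → ℝ := fun x => (K.ext i χ x + R) / (2 * R) with hf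
  set g : X → ℝ := fun x => (R - K.ext i χ x) / (2 * R) with hg
  have hfs : ∀ j, ContDiffOn ℝ ∞ (fun z => f (K.κ j z)) (ball 0 3) :=
    fun j => ((hE j).add contDiffOn_const).div_const _
  have hgs : ∀ j, ContDiffOn ℝ ∞ (fun z => g (K.κ j z)) (ball 0 3) :=
    fun j => (contDiffOn_const.sub (hE j)).div_const _
  have hf0 : ∀ x, 0 ≤ f x := fun x =>
    div_nonneg (by have := (abs_le.1 (hextR x)).1; linarith) (by positivity)
  have hg0 : ∀ x, 0 ≤ g x := fun x =>
    div_nonneg (by have := (abs_le.1 (hextR x)).2; linarith) (by positivity)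
  have hfg : ∀ x, f x + g x = 1 := by
    intro x
    simp only [hf, hg]
    field_simp
    ring
  obtain ⟨C1, hC1⟩ := weakL_upper K (μ := μ) hfs hf0 M
  obtain ⟨C2, hC2⟩ := weakL_upper K (μ := μ) hgs hg0 M
  have hcf := weakL_c11 K hfs
  have hcg := weakL_c11 K hgs
  have hμint : ∀ {v : X → ℝ}, C11X K v → Integrable v μ := by
    intro v hv
    obtain ⟨B, -, hB⟩ := XEn_bdd K hv
    exact Integrable.of_bound (C11X.continuous K hv).aestronglyMeasurable B
      (Eventually.of_forall hB)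
  have hμfg : ∫ x, f x ∂μ + ∫ x, g x ∂μ = 1 := by
    rw [← integral_add (hμint hcf) (hμint hcg)]
    simp_rw [hfg]
    simp
  have hVfg : ∀ k, ∫ x, f x * K.RM (φ k) x ∂K.vol + ∫ x, g x * K.RM (φ k) x ∂K.vol =
      K.vol.real univ := by
    intro k
    rw [← integral_add (K.xLoc_int (h k).wk.c11 hcf) (K.xLoc_int (h k).wk.c11 hcg),
      ← K.mass (h k).wk.c11]
    refine integral_congr_ae (Eventually.of_forall fun x => ?_)
    simp only
    rw [← add_mul, hfg, one_mul]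
  -- the numbers `δ'`
  set δ' : ℕ → ℝ := fun k => |δ k| + 1 / ((k : ℝ) + 1) with hδ'
  have hδ't : Tendsto δ' atTop (𝓝 0) := by
    have h1 : Tendsto (fun k => |δ k|) atTop (𝓝 0) := by simpa using hδ.abs
    have h2 := h1.add tendsto_one_div_add_atTop_nhds_zero_nat
    simpa [hδ'] using h2
  have hδ'0 : ∀ k, 0 < δ' k := fun k => by
    simp only [hδ']
    positivity
  have hev : ∀ᶠ k in atTop, δ' k ≤ 1 := by
    filter_upwards [hδ't.eventually (gt_mem_nhds zero_lt_one)] with k hk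
    exact hk.le
  have hA : ∀ k, Amax K μ (δ' k) (φ k) := fun k => ⟨(h k).wk, fun χ' hχ' => by
    have h1 := (h k).max χ' hχ'
    have h2 : δ k ≤ δ' k := by
      simp only [hδ']
      have := le_abs_self (δ k)
      have h3 : (0 : ℝ) < 1 / ((k : ℝ) + 1) := by positivity
      linarith
    linarith⟩
  have hsq : Tendsto (fun k => Real.sqrt (δ' k)) atTop (𝓝 0) := by
    have h1 := (Real.continuous_sqrt.tendsto 0).comp hδ't
    rw [Real.sqrt_zero] at h1
    exact h1
  have hfl : Tendsto (fun k => ∫ x, f x * K.RM (φ k) x ∂K.vol) atTop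
      (𝓝 (K.vol.real univ * ∫ x, f x ∂μ)) := by
    have hlow : Tendsto (fun k => K.vol.real univ * ∫ x, f x ∂μ - C2 * Real.sqrt (δ' k)) atTop
        (𝓝 (K.vol.real univ * ∫ x, f x ∂μ)) := by
      simpa using tendsto_const_nhds.sub (hsq.const_mul C2)
    have hup : Tendsto (fun k => K.vol.real univ * ∫ x, f x ∂μ + C1 * Real.sqrt (δ' k)) atTop
        (𝓝 (K.vol.real univ * ∫ x, f x ∂μ)) := by
      simpa using tendsto_const_nhds.add (hsq.const_mul C1)
    refine tendsto_of_tendsto_of_tendsto_of_le_of_le' hlow hup ?_ ?_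
    · filter_upwards [hev] with k hk
      have h1 := hC2 (δ' k) (φ k) (hδ'0 k) hk (hA k) (hM k)
      have h2 := hVfg k
      have h3 : K.vol.real univ * ∫ x, f x ∂μ = K.vol.real univ -
          K.vol.real univ * ∫ x, g x ∂μ := by
        rw [← mul_one_sub, ← hμfg]
        ring
      rw [h3]
      linarith
    · filter_upwards [hev] with k hk
      exact hC1 (δ' k) (φ k) (hδ'0 k) hk (hA k) (hM k)
  have hχf : ∀ x, K.ext i χ x = 2 * R * f x - R := by
    intro x
    simp only [hf]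
    field_simp
    ring
  have h1 : ∀ k, ∫ x, K.ext i χ x * K.RM (φ k) x ∂K.vol =
      2 * R * ∫ x, f x * K.RM (φ k) x ∂K.vol - R * K.vol.real univ := by
    intro k
    rw [← K.mass (h k).wk.c11, ← integral_const_mul, ← integral_const_mul,
      ← integral_sub ((K.xLoc_int (h k).wk.c11 hcf).const_mul _)
        ((XEn_RM_int K (h k).wk.c11).const_mul _)]
    refine integral_congr_ae (Eventually.of_forall fun x => ?_)
    simp only
    rw [hχf x]
    ring
  have h2 : K.vol.real univ * ∫ x, K.ext i χ x ∂μ =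
      2 * R * (K.vol.real univ * ∫ x, f x ∂μ) - R * K.vol.real univ := by
    have h3 : ∫ x, K.ext i χ x ∂μ = 2 * R * ∫ x, f x ∂μ - R := by
      simp_rw [hχf]
      rw [integral_sub ((hμint hcf).const_mul _) (integrable_const _), integral_const_mul]
      simp
    rw [h3]
    ring
  simp_rw [h1]
  rw [h2]
  exact (hfl.const_mul _).sub tendsto_const_nhds

end HMA

end S_KW_WeakL

section S_KW_CLNloc

/-! # Module CLNloc: the Chern-Levine-Nirenberg inequality on compact sets -/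

open MeasureTheory Metric Set Filter
open scoped ENNReal Topology ContDiff ComplexOrder

namespace HMA

/-- dilation -/
noncomputable def clnloc_F {n : ℕ} (a : Cn n) (ε : ℝ) (z : Cn n) : Cn n := a + (ε : ℂ) • z

theorem clnloc_fderiv {n : ℕ} (a : Cn n) (ε : ℝ) (z : Cn n) :
    HasFDerivAt (clnloc_F a ε) ((ε : ℂ) • ContinuousLinearMap.id ℂ (Cn n)) z :=
  ((hasFDerivAt_id z).const_smul (ε : ℂ)).const_add a

theorem clnloc_diff {n : ℕ} (a : Cn n) (ε : ℝ) : Differentiable ℂ (clnloc_F a ε) := fun z =>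
  (clnloc_fderiv a ε z).differentiableAt

theorem clnloc_jac {n : ℕ} (a : Cn n) (ε : ℝ) (z : Cn n) :
    jac (clnloc_F a ε) z = (ε : ℂ) • (1 : Matrix (Fin n) (Fin n) ℂ) := by
  ext j k
  unfold jac
  rw [(clnloc_fderiv a ε z).fderiv]
  simp [bv, Matrix.one_apply, Pi.single_apply, eq_comm]

theorem clnloc_contDiff {n : ℕ} (a : Cn n) (ε : ℝ) : ContDiff ℂ 2 (clnloc_F a ε) := by
  unfold clnloc_F
  fun_prop

theorem clnloc_LM {n : ℕ} (a : Cn n) {ε : ℝ} (hε : 0 < ε) {u : Cn n → ℝ} {z : Cn n}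
    (hu : TwD u (clnloc_F a ε z)) :
    ((LM u (clnloc_F a ε z)).adjugate.trace).re =
      ((ε ^ 2) ^ (n - 1))⁻¹ *
        ((LM (fun w => u (clnloc_F a ε w)) z).adjugate.trace).re := by
  have h1 := (LM_comp (clnloc_contDiff a ε).contDiffAt hu).2
  rw [h1, clnloc_jac]
  have h2 : ((ε : ℂ) • (1 : Matrix (Fin n) (Fin n) ℂ)) * LM u (clnloc_F a ε z) *
      ((ε : ℂ) • (1 : Matrix (Fin n) (Fin n) ℂ)).conjTranspose =
        (((ε ^ 2 : ℝ)) : ℂ) • LM u (clnloc_F a ε z) := by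
    rw [Matrix.conjTranspose_smul, Matrix.conjTranspose_one, Matrix.smul_mul, Matrix.one_mul,
      Matrix.mul_smul, Matrix.mul_one, smul_smul]
    congr 1
    simp only [RCLike.star_def, Complex.conj_ofReal]
    push_cast
    ring
  rw [h2, Matrix.adjugate_smul, Matrix.trace_smul, Fintype.card_fin, smul_eq_mul]
  have h3 : (((ε ^ 2 : ℝ)) : ℂ) ^ (n - 1) = (((ε ^ 2) ^ (n - 1) : ℝ) : ℂ) := by push_cast; rfl
  rw [h3, Complex.re_ofReal_mul, ← mul_assoc, inv_mul_cancel₀ (by positivity), one_mul]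

theorem clnloc_image {n : ℕ} (a : Cn n) {ε : ℝ} (hε : 0 < ε) (r : ℝ) :
    clnloc_F a ε '' ball 0 r = ball a (ε * r) := by
  ext y
  constructor
  · rintro ⟨z, hz, rfl⟩
    rw [mem_ball_zero_iff] at hz
    rw [mem_ball, dist_eq_norm]
    have : clnloc_F a ε z - a = (ε : ℂ) • z := by unfold clnloc_F; abel
    rw [this, norm_smul, Complex.norm_real, Real.norm_eq_abs, abs_of_pos hε]
    exact mul_lt_mul_of_pos_left hz hε
  · intro hy
    rw [mem_ball, dist_eq_norm] at hy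
    have hε' : (ε : ℂ) ≠ 0 := by exact_mod_cast hε.ne'
    refine ⟨(ε : ℂ)⁻¹ • (y - a), ?_, ?_⟩
    · rw [mem_ball_zero_iff, norm_smul, norm_inv, Complex.norm_real, Real.norm_eq_abs,
        abs_of_pos hε, inv_mul_lt_iff₀ hε]
      exact hy
    · unfold clnloc_F
      rw [smul_smul, mul_inv_cancel₀ hε', one_smul]
      abel

theorem clnloc_inj {n : ℕ} (a : Cn n) {ε : ℝ} (hε : 0 < ε) : Function.Injective (clnloc_F a ε) := by
  intro x y h
  have hε' : (ε : ℂ) ≠ 0 := by exact_mod_cast hε.ne'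
  unfold clnloc_F at h
  exact smul_right_injective _ hε' (add_left_cancel h)

theorem clnloc_one {n : ℕ} {Ω : Set (Cn n)} (hΩ : IsOpen Ω) (M : ℝ) {a : Cn n} (ha : a ∈ Ω) :
    ∃ r : ℝ, 0 < r ∧ ∃ C : ℝ, 0 < C ∧ ∀ u : Cn n → ℝ, C11 Ω u → SubOn Ω u →
      (∀ z ∈ Ω, |u z| ≤ M) →
        ∫⁻ z in ball a r, ENNReal.ofReal (((LM u z).adjugate.trace).re) ≤ ENNReal.ofReal C := by
  obtain ⟨R, hR, hRΩ⟩ := Metric.isOpen_iff.1 hΩ a ha
  obtain ⟨C, hC, hcln⟩ := cln n
  set ε : ℝ := R * (2 / 5) with hεdef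
  have hε : 0 < ε := by positivity
  have hεR : ε * (5 / 2) = R := by rw [hεdef]; ring
  set M' : ℝ := max M 1 with hM'
  set D : ℝ := (ε ^ n) ^ 2 * ((ε ^ 2) ^ (n - 1))⁻¹ with hD
  have hD0 : 0 < D := by positivity
  have hM'1 : 1 ≤ M' := le_max_right _ _
  refine ⟨ε * 2, by positivity, D * (C * M' ^ n), by positivity, fun u hu hsub hM => ?_⟩
  have hmaps : MapsTo (clnloc_F a ε) (ball 0 (5 / 2)) Ω := by
    intro z hz
    apply hRΩ
    rw [← hεR, ← clnloc_image a hε]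
    exact ⟨z, hz, rfl⟩
  have hFd : DifferentiableOn ℂ (clnloc_F a ε) (ball 0 (5 / 2)) :=
    (clnloc_diff a ε).differentiableOn
  have h1 := hcln (fun z => u (clnloc_F a ε z)) M' hM'1 (c11_comp hΩ isOpen_ball hu hFd hmaps)
    (sub_comp hΩ isOpen_ball hu hsub hFd hmaps)
    (fun z hz => (hM _ (hmaps hz)).trans (le_max_left _ _))
  have hinj2 : ∀ z ∈ ball (0 : Cn n) (5 / 2), Function.Injective (fderiv ℂ (clnloc_F a ε) z) := by
    intro z _ x y hxy
    rw [(clnloc_fderiv a ε z).fderiv] at hxy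
    have hε' : (ε : ℂ) ≠ 0 := by exact_mod_cast hε.ne'
    exact smul_right_injective _ hε' hxy
  have h2 : ∀ᵐ z : Cn n, z ∈ ball (0 : Cn n) (5 / 2) → TwD u (clnloc_F a ε z) := by
    refine ae_comp_hol isOpen_ball hFd (clnloc_inj a hε).injOn hinj2 (p := fun y => TwD u y) ?_
    filter_upwards [hu.ae_twD hΩ] with y hy
    rintro ⟨z, hz, rfl⟩
    exact hy (hmaps hz)
  have hsub2 : ball (0 : Cn n) 2 ⊆ ball 0 (5 / 2) := ball_subset_ball (by norm_num)
  rw [← clnloc_image a hε, lintegral_hol isOpen_ball hFd measurableSet_ball hsub2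
    (clnloc_inj a hε).injOn]
  have h3 : ∫⁻ z in ball (0 : Cn n) 2, ENNReal.ofReal (‖(jac (clnloc_F a ε) z).det‖ ^ 2) *
      ENNReal.ofReal (((LM u (clnloc_F a ε z)).adjugate.trace).re) =
      ∫⁻ z in ball (0 : Cn n) 2, ENNReal.ofReal D *
        ENNReal.ofReal (((LM (fun w => u (clnloc_F a ε w)) z).adjugate.trace).re) := by
    refine setLIntegral_congr_fun_ae measurableSet_ball ?_
    filter_upwards [h2] with z hz hz2
    rw [clnloc_LM a hε (hz (hsub2 hz2)), clnloc_jac, Matrix.det_smul, Matrix.det_one, mul_one,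
      Fintype.card_fin, norm_pow, Complex.norm_real, Real.norm_eq_abs, abs_of_pos hε,
      ENNReal.ofReal_mul (by positivity), ← mul_assoc, ← ENNReal.ofReal_mul (by positivity)]
  rw [h3, lintegral_const_mul' _ _ ENNReal.ofReal_ne_top, ENNReal.ofReal_mul hD0.le]
  exact mul_le_mul_right h1 _

theorem cln_loc {n : ℕ} {Ω : Set (Cn n)} (hΩ : IsOpen Ω) {L : Set (Cn n)} (hL : IsCompact L)
    (hLΩ : L ⊆ Ω) (M : ℝ) : ∃ C : ℝ, 0 < C ∧ ∀ u : Cn n → ℝ, C11 Ω u → SubOn Ω u →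
      (∀ z ∈ Ω, |u z| ≤ M) →
        ∫⁻ z in L, ENNReal.ofReal (((LM u z).adjugate.trace).re) ≤ ENNReal.ofReal C := by
  have h := hL.induction_on (p := fun s => ∃ C : ℝ, 0 < C ∧ ∀ u : Cn n → ℝ, C11 Ω u → SubOn Ω u →
      (∀ z ∈ Ω, |u z| ≤ M) →
        ∫⁻ z in s, ENNReal.ofReal (((LM u z).adjugate.trace).re) ≤ ENNReal.ofReal C) ?_ ?_ ?_ ?_
  · exact h
  · refine ⟨1, one_pos, fun u _ _ _ => ?_⟩
    simp
  · rintro s t hst ⟨C, hC, h⟩
    exact ⟨C, hC, fun u h1 h2 h3 => (lintegral_mono_set hst).trans (h u h1 h2 h3)⟩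
  · rintro s t ⟨C, hC, h⟩ ⟨C', hC', h'⟩
    refine ⟨C + C', by positivity, fun u h1 h2 h3 => ?_⟩
    refine (lintegral_union_le _ s t).trans ?_
    rw [ENNReal.ofReal_add hC.le hC'.le]
    exact add_le_add (h u h1 h2 h3) (h' u h1 h2 h3)
  · intro a ha
    obtain ⟨r, hr, C, hC, h⟩ := clnloc_one hΩ M (hLΩ ha)
    exact ⟨ball a r, mem_nhdsWithin_of_mem_nhds (ball_mem_nhds a hr), C, hC, h⟩

end HMA

end S_KW_CLNloc
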