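import Mathlib
import Pool.Agent.H85.MG.G1a
import Pool.Agent.H85.MG.G2a
import Pool.Agent.H85.MG.G2b
import Pool.Agent.H85.MG.G2c
import Pool.Agent.H85.MG.G3a
import Pool.Agent.H85.MG.G3b
import Pool.Agent.H85.MG.G3c
import Pool.Agent.H85.MG.G4b

/-! Moderate measures and Hölder continuous potentials, part G5b: this file joins several modules to save build time. -/

section S_MA_Peak

/-! # Module PEAK: entire functions with prescribed size at a point -/

open MeasureTheory Metric Set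
open scoped ENNReal Topology ContDiff

namespace HMA

theorem peak_fderiv_zero {n : ℕ} {χ : Cn n → ℂ} {z : Cn n} (h : fderiv ℝ χ z = 0) :
    ∑ j, ‖db j χ z‖ ^ 2 = 0 := by
  apply Finset.sum_eq_zero
  intro j _
  unfold db
  rw [h]
  simp

theorem peak_cut (n : ℕ) : ∃ C : ℝ, 0 ≤ C ∧ ∀ (y : Cn n) (ρ : ℝ), 0 < ρ →
    ∃ χ : Cn n → ℂ, Tst χ ∧ (∀ z, ‖χ z‖ ≤ 1) ∧ (∀ z ∈ ball y (ρ / 2), χ z = 1) ∧
      (∀ z, z ∉ ball y ρ → χ z = 0) ∧ (∀ z, ∑ j, ‖db j χ z‖ ^ 2 ≤ C * (ρ ^ 2)⁻¹) ∧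
      (∀ z, z ∉ ball y ρ \ ball y (ρ / 2) → ∑ j, ‖db j χ z‖ ^ 2 = 0) := by
  let b : ContDiffBump (0 : Cn n) := ⟨1 / 2, 3 / 4, by norm_num, by norm_num⟩
  have hb1 : ContDiff ℝ ∞ (fun x : Cn n => (b x : ℂ)) :=
    Complex.ofRealCLM.contDiff.comp b.contDiff
  have hb2 : HasCompactSupport (fun x : Cn n => (b x : ℂ)) :=
    b.hasCompactSupport.comp_left (g := fun t : ℝ => (t : ℂ)) (by simp)
  have hb : Tst (fun x : Cn n => (b x : ℂ)) := ⟨hb1, hb2⟩
  have hbd : ∀ j : Fin n, ∃ C : ℝ, ∀ x, ‖db j (fun x : Cn n => (b x : ℂ)) x‖ ≤ C := fun j =>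
    (hb.db j).supp.exists_bound_of_continuous (hb.db j).smooth.continuous
  choose Cj hCj using hbd
  refine ⟨∑ j, Cj j ^ 2, Finset.sum_nonneg (fun j _ => sq_nonneg _), ?_⟩
  intro y ρ hρ
  have hρ' : 0 < ρ⁻¹ := inv_pos.2 hρ
  set χ : Cn n → ℂ := fun z => (b (ρ⁻¹ • (z - y)) : ℂ) with hχ
  have hder : ∀ z, fderiv ℝ χ z = (fderiv ℝ (fun x : Cn n => (b x : ℂ)) (ρ⁻¹ • (z - y))).comp
      (ρ⁻¹ • ContinuousLinearMap.id ℝ (Cn n)) := by
    intro z
    have h1 : HasFDerivAt (fun z : Cn n => ρ⁻¹ • (z - y))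
        (ρ⁻¹ • ContinuousLinearMap.id ℝ (Cn n)) z :=
      ((hasFDerivAt_id z).sub_const y).const_smul ρ⁻¹
    have h2 : HasFDerivAt (fun x : Cn n => (b x : ℂ))
        (fderiv ℝ (fun x : Cn n => (b x : ℂ)) (ρ⁻¹ • (z - y))) (ρ⁻¹ • (z - y)) :=
      (hb1.differentiable (by simp) _).hasFDerivAt
    exact (h2.comp z h1).fderiv
  have hdb : ∀ j z, ‖db j χ z‖ = ρ⁻¹ * ‖db j (fun x : Cn n => (b x : ℂ)) (ρ⁻¹ • (z - y))‖ := by
    intro j z
    have h1 : db j χ z = (ρ⁻¹ : ℝ) • db j (fun x : Cn n => (b x : ℂ)) (ρ⁻¹ • (z - y)) := by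
      unfold db
      rw [hder z]
      simp only [ContinuousLinearMap.comp_smul, ContinuousLinearMap.comp_id,
        _root_.smul_apply, Complex.real_smul]
      ring
    rw [h1, norm_smul, Real.norm_of_nonneg hρ'.le]
  have hnorm : ∀ z, ‖ρ⁻¹ • (z - y)‖ = ρ⁻¹ * dist z y := by
    intro z
    rw [norm_smul, Real.norm_of_nonneg hρ'.le, dist_eq_norm]
  have hone : ∀ z ∈ ball y (ρ / 2), χ z = 1 := by
    intro z hz
    rw [mem_ball] at hz
    have : b (ρ⁻¹ • (z - y)) = 1 := by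
      apply b.one_of_mem_closedBall
      rw [mem_closedBall, dist_zero_right, hnorm]
      show ρ⁻¹ * dist z y ≤ 1 / 2
      rw [inv_mul_le_iff₀ hρ]
      linarith
    rw [hχ]
    simp only
    rw [this, Complex.ofReal_one]
  have hzero : ∀ z, 3 / 4 * ρ < dist z y → χ z = 0 := by
    intro z hz
    have : b (ρ⁻¹ • (z - y)) = 0 := by
      apply b.zero_of_le_dist
      rw [dist_zero_right, hnorm]
      show 3 / 4 ≤ ρ⁻¹ * dist z y
      rw [le_inv_mul_iff₀ hρ]
      linarith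
    rw [hχ]
    simp only
    rw [this, Complex.ofReal_zero]
  refine ⟨χ, ⟨?_, ?_⟩, ?_, hone, ?_, ?_, ?_⟩
  · exact hb1.comp ((contDiff_id.sub contDiff_const).const_smul ρ⁻¹)
  · apply HasCompactSupport.of_support_subset_isCompact (isCompact_closedBall y ρ)
    intro z hz
    rw [Function.mem_support] at hz
    rw [mem_closedBall]
    by_contra hcon
    exact hz (hzero z (by linarith))
  · intro z
    rw [hχ]
    simp only
    rw [Complex.norm_real, Real.norm_of_nonneg b.nonneg]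
    exact b.le_one
  · intro z hz
    rw [mem_ball, not_lt] at hz
    exact hzero z (by linarith)
  · intro z
    rw [Finset.sum_mul]
    refine Finset.sum_le_sum (fun j _ => ?_)
    rw [hdb j z, mul_pow, inv_pow, mul_comm]
    apply mul_le_mul_of_nonneg_right _ (by positivity)
    exact pow_le_pow_left₀ (norm_nonneg _) (hCj j _) 2
  · intro z hz
    apply peak_fderiv_zero
    by_cases h1 : z ∈ ball y (ρ / 2)
    · have h2 : χ =ᶠ[𝓝 z] fun _ => (1 : ℂ) := by
        filter_upwards [isOpen_ball.mem_nhds h1] with w hw using hone w hw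
      rw [h2.fderiv_eq]
      simp
    · have h3 : z ∉ ball y ρ := fun h => hz ⟨h, h1⟩
      rw [mem_ball, not_lt] at h3
      have h4 : {w : Cn n | 3 / 4 * ρ < dist w y} ∈ 𝓝 z :=
        (isOpen_lt continuous_const (continuous_id.dist continuous_const)).mem_nhds
          (show 3 / 4 * ρ < dist z y by linarith)
      have h2 : χ =ᶠ[𝓝 z] fun _ => (0 : ℂ) := by
        filter_upwards [h4] with w hw using hzero w hw
      rw [h2.fderiv_eq]
      simp

theorem peak_weight {n : ℕ} (a A D : ℝ) (hA : 0 < A) (hD : 0 < D) :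
    Real.exp (-(a + ((n : ℝ) * Real.log A + Real.log D))) =
      Real.exp (-a) * (A ^ n)⁻¹ * D⁻¹ := by
  have h1 : -(a + ((n : ℝ) * Real.log A + Real.log D)) =
      -a + -((n : ℝ) * Real.log A) + -Real.log D := by ring
  rw [h1, Real.exp_add, Real.exp_add, Real.exp_neg (Real.log D), Real.exp_log hD,
    Real.exp_neg ((n : ℝ) * Real.log A), Real.exp_nat_mul, Real.exp_log hA]

theorem peak_norm_sq_sub {n : ℕ} (z y : Cn n) : ‖z - y‖ ^ 2 ≤ 2 * ‖z‖ ^ 2 + 2 * ‖y‖ ^ 2 := by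
  have h1 := norm_sub_le z y
  have h2 : ‖z - y‖ ^ 2 ≤ (‖z‖ + ‖y‖) ^ 2 := pow_le_pow_left₀ (norm_nonneg _) h1 2
  nlinarith [sq_nonneg (‖z‖ - ‖y‖)]

/-- smooth weight with positive Levi form -/
theorem peak_lev {n : ℕ} {φ : Cn n → ℝ} (hφ : ContDiff ℝ ∞ φ) (hlev : ∀ z ξ, 0 ≤ lev φ z ξ)
    {τ : ℝ} (hτ : 0 < τ) (y : Cn n) :
    ContDiff ℝ ∞ (fun z : Cn n => φ z + ((n : ℝ) * Real.log (τ + ‖z - y‖ ^ 2) +
      Real.log (1 + ‖z - 0‖ ^ 2))) ∧
    ∀ z ξ, ((1 + ‖z‖ ^ 2) ^ 2)⁻¹ * ‖ξ‖ ^ 2 ≤ lev (fun z : Cn n => φ z +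
      ((n : ℝ) * Real.log (τ + ‖z - y‖ ^ 2) + Real.log (1 + ‖z - 0‖ ^ 2))) z ξ := by
  have h1 : ContDiff ℝ ∞ (fun z : Cn n => Real.log (τ + ‖z - y‖ ^ 2)) := smooth_log hτ y
  have h2 : ContDiff ℝ ∞ (fun z : Cn n => Real.log (1 + ‖z - 0‖ ^ 2)) :=
    smooth_log one_pos (0 : Cn n)
  have h3 : ContDiff ℝ ∞ (fun z : Cn n => (n : ℝ) * Real.log (τ + ‖z - y‖ ^ 2)) :=
    contDiff_const.mul h1
  have h4 : ContDiff ℝ ∞ (fun z : Cn n => (n : ℝ) * Real.log (τ + ‖z - y‖ ^ 2) +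
      Real.log (1 + ‖z - 0‖ ^ 2)) := h3.add h2
  refine ⟨hφ.add h4, ?_⟩
  intro z ξ
  rw [lev_add hφ h4, lev_add h3 h2, lev_const_mul h1]
  have h5 := lev_log_ge hτ y z ξ
  have h6 := lev_log_ge one_pos (0 : Cn n) z ξ
  have h7 : 0 ≤ τ * ‖ξ‖ ^ 2 / (τ + ‖z - y‖ ^ 2) ^ 2 := by positivity
  have h8 : 0 ≤ (n : ℝ) * lev (fun z : Cn n => Real.log (τ + ‖z - y‖ ^ 2)) z ξ :=
    mul_nonneg (Nat.cast_nonneg n) (h7.trans h5)
  have h9 : ((1 + ‖z‖ ^ 2) ^ 2)⁻¹ * ‖ξ‖ ^ 2 = 1 * ‖ξ‖ ^ 2 / (1 + ‖z - 0‖ ^ 2) ^ 2 := by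
    rw [sub_zero, one_mul, div_eq_inv_mul]
  rw [h9]
  have h10 := hlev z ξ
  linarith

/-- the solution of the dbar equation, with all constants -/
theorem peak_solve {n : ℕ} {c K₀ C R : ℝ} (hK₀ : 0 < K₀) (hC : 0 ≤ C) (hR : 1 ≤ R)
    (φ : Cn n → ℝ) (y : Cn n) (ρ τ : ℝ) (hφ : ContDiff ℝ ∞ φ) (hlev : ∀ z ξ, 0 ≤ lev φ z ξ)
    (hy : ‖y‖ ≤ R) (hρ : 0 < ρ) (hρ1 : ρ ≤ 1) (hball : ∀ z ∈ ball y ρ, |φ z - φ y| ≤ 1)
    (hτ : 0 < τ)
    (hrad1 : ∫ z in ball y ρ \ ball y (ρ / 2), ((‖z - y‖ ^ 2 + τ) ^ n)⁻¹ ≤ K₀)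
    (hrad2 : c * Real.log (ρ ^ 2 / τ) - K₀ ≤ ∫ z in ball y (ρ / 2), ((‖z - y‖ ^ 2 + τ) ^ n)⁻¹)
    (χ : Cn n → ℂ) (hχ : Tst χ) (hχ1 : ∀ z ∈ ball y (ρ / 2), χ z = 1)
    (hχ3 : ∀ z, ∑ j, ‖db j χ z‖ ^ 2 ≤ C * (ρ ^ 2)⁻¹)
    (hχ4 : ∀ z, z ∉ ball y ρ \ ball y (ρ / 2) → ∑ j, ‖db j χ z‖ ^ 2 = 0) :
    ∃ f : Cn n → ℂ, Differentiable ℂ f ∧
      Integrable (fun z => ‖χ z - f z‖ ^ 2 * (Real.exp (-φ z) *
        ((τ + ‖z - y‖ ^ 2) ^ n)⁻¹ * (1 + ‖z‖ ^ 2)⁻¹)) volume ∧
      ∫ z, ‖χ z - f z‖ ^ 2 * (Real.exp (-φ z) * ((τ + ‖z - y‖ ^ 2) ^ n)⁻¹ * (1 + ‖z‖ ^ 2)⁻¹) ≤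
        C * (1 + (R + 1) ^ 2) * Real.exp 1 * K₀ * ((ρ ^ 2)⁻¹ * Real.exp (-φ y)) ∧
      ‖χ y - f y‖ ^ 2 * (c * Real.log (ρ ^ 2 / τ) - K₀) ≤
        (1 + (R + 1) ^ 2) * Real.exp 1 * (C * (1 + (R + 1) ^ 2) * Real.exp 1 * K₀) *
          (ρ ^ 2)⁻¹ := by
  obtain ⟨hΦ, hΦlev⟩ := peak_lev hφ hlev hτ y
  have hκc : Continuous (fun z : Cn n => ((1 + ‖z‖ ^ 2) ^ 2)⁻¹) := by
    apply Continuous.inv₀
    · fun_prop
    · intro z
      positivity
  obtain ⟨f, hf, hI, hle⟩ := hormander hΦ hκc (fun z => by positivity) hΦlev hχ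
  have hW : ∀ z : Cn n, Real.exp (-(φ z + ((n : ℝ) * Real.log (τ + ‖z - y‖ ^ 2) +
      Real.log (1 + ‖z - 0‖ ^ 2)))) = Real.exp (-φ z) * ((τ + ‖z - y‖ ^ 2) ^ n)⁻¹ *
        (1 + ‖z‖ ^ 2)⁻¹ := by
    intro z
    rw [sub_zero]
    exact peak_weight _ _ _ (by positivity) (by positivity)
  simp only [hW] at hI hle
  have hMpos : (0 : ℝ) < 1 + (R + 1) ^ 2 := by positivity
  have hzR : ∀ z ∈ ball y ρ, 1 + ‖z‖ ^ 2 ≤ 1 + (R + 1) ^ 2 := by
    intro z hz
    rw [mem_ball, dist_eq_norm] at hz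
    have h1 : ‖z‖ ≤ R + 1 := by
      have : ‖z‖ ≤ ‖z - y‖ + ‖y‖ := by
        have := norm_add_le (z - y) y
        rwa [sub_add_cancel] at this
      linarith
    have := pow_le_pow_left₀ (norm_nonneg z) h1 2
    linarith
  have hexp : ∀ z ∈ ball y ρ, Real.exp (-φ z) ≤ Real.exp 1 * Real.exp (-φ y) := by
    intro z hz
    rw [← Real.exp_add]
    apply Real.exp_le_exp.2
    have := abs_le.1 (hball z hz)
    linarith
  have hexp2 : ∀ z ∈ ball y ρ, Real.exp (-φ y) ≤ Real.exp 1 * Real.exp (-φ z) := by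
    intro z hz
    rw [← Real.exp_add]
    apply Real.exp_le_exp.2
    have := abs_le.1 (hball z hz)
    linarith
  have hmeas : MeasurableSet (ball y ρ \ ball y (ρ / 2)) := measurableSet_ball.diff
    measurableSet_ball
  have hwc : Continuous (fun z : Cn n => ((‖z - y‖ ^ 2 + τ) ^ n)⁻¹) := by
    apply Continuous.inv₀
    · fun_prop
    · intro z
      positivity
  have hA1 : ∫ z, ‖χ z - f z‖ ^ 2 * (Real.exp (-φ z) * ((τ + ‖z - y‖ ^ 2) ^ n)⁻¹ *
      (1 + ‖z‖ ^ 2)⁻¹) ≤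
        C * (1 + (R + 1) ^ 2) * Real.exp 1 * K₀ * ((ρ ^ 2)⁻¹ * Real.exp (-φ y)) := by
    refine hle.trans ?_
    have hg : Integrable ((ball y ρ \ ball y (ρ / 2)).indicator (fun z : Cn n =>
        (C * (1 + (R + 1) ^ 2) * Real.exp 1 * ((ρ ^ 2)⁻¹ * Real.exp (-φ y))) *
          ((‖z - y‖ ^ 2 + τ) ^ n)⁻¹)) volume := by
      rw [integrable_indicator_iff hmeas]
      exact ((continuous_const.mul hwc).continuousOn.integrableOn_compact
        (isCompact_closedBall y ρ)).mono_set (sdiff_subset.trans ball_subset_closedBall)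
    calc ∫ z, (((1 + ‖z‖ ^ 2) ^ 2)⁻¹)⁻¹ * (∑ j, ‖db j χ z‖ ^ 2) * (Real.exp (-φ z) *
          ((τ + ‖z - y‖ ^ 2) ^ n)⁻¹ * (1 + ‖z‖ ^ 2)⁻¹)
        ≤ ∫ z, (ball y ρ \ ball y (ρ / 2)).indicator (fun z : Cn n =>
          (C * (1 + (R + 1) ^ 2) * Real.exp 1 * ((ρ ^ 2)⁻¹ * Real.exp (-φ y))) *
          ((‖z - y‖ ^ 2 + τ) ^ n)⁻¹) z := by
          apply integral_mono_of_nonneg _ hg
          · refine Filter.Eventually.of_forall (fun z => ?_)
            by_cases hz : z ∈ ball y ρ \ ball y (ρ / 2)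
            · simp only
              rw [indicator_of_mem hz, inv_inv]
              have hD : (0 : ℝ) < 1 + ‖z‖ ^ 2 := by positivity
              have e1 : (1 + ‖z‖ ^ 2) ^ 2 * (∑ j, ‖db j χ z‖ ^ 2) * (Real.exp (-φ z) *
                  ((τ + ‖z - y‖ ^ 2) ^ n)⁻¹ * (1 + ‖z‖ ^ 2)⁻¹) =
                  ((∑ j, ‖db j χ z‖ ^ 2) * ((1 + ‖z‖ ^ 2) * Real.exp (-φ z))) *
                    ((‖z - y‖ ^ 2 + τ) ^ n)⁻¹ := by
                rw [add_comm τ]
                field_simp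
              rw [e1]
              apply mul_le_mul_of_nonneg_right _ (by positivity)
              calc (∑ j, ‖db j χ z‖ ^ 2) * ((1 + ‖z‖ ^ 2) * Real.exp (-φ z))
                  ≤ (C * (ρ ^ 2)⁻¹) * ((1 + (R + 1) ^ 2) * (Real.exp 1 * Real.exp (-φ y))) := by
                    apply mul_le_mul (hχ3 z) _ (by positivity) (by positivity)
                    exact mul_le_mul (hzR z hz.1) (hexp z hz.1) (Real.exp_pos _).le hMpos.le
                _ = _ := by ring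
            · simp only
              rw [indicator_of_notMem hz, hχ4 z hz]
              simp
          · refine Filter.Eventually.of_forall (fun z => ?_)
            simp only [Pi.zero_apply]
            positivity
      _ = (C * (1 + (R + 1) ^ 2) * Real.exp 1 * ((ρ ^ 2)⁻¹ * Real.exp (-φ y))) *
          ∫ z in ball y ρ \ ball y (ρ / 2), ((‖z - y‖ ^ 2 + τ) ^ n)⁻¹ := by
          rw [integral_indicator hmeas, integral_const_mul]
      _ ≤ (C * (1 + (R + 1) ^ 2) * Real.exp 1 * ((ρ ^ 2)⁻¹ * Real.exp (-φ y))) * K₀ :=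
          mul_le_mul_of_nonneg_left hrad1 (by positivity)
      _ = _ := by ring
  refine ⟨f, hf, hI, hA1, ?_⟩
  -- the value at `y`
  have hρ2 : (0 : ℝ) < ρ / 2 := by linarith
  have hsub : ball y (ρ / 2) ⊆ ball y ρ := ball_subset_ball (by linarith)
  have hvc : Continuous (fun z => χ z - f z) := hχ.smooth.continuous.sub hf.continuous
  have hvd : DifferentiableOn ℂ (fun z => χ z - f z) (ball y (ρ / 2)) := by
    have h1 : DifferentiableOn ℂ (fun z => 1 - f z) (ball y (ρ / 2)) :=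
      ((differentiable_const 1).sub hf).differentiableOn
    refine h1.congr (fun z hz => ?_)
    rw [hχ1 z hz]
  have hwR : Continuous (fun t : ℝ => ((t ^ 2 + τ) ^ n)⁻¹) := by
    apply Continuous.inv₀
    · fun_prop
    · intro t
      positivity
  have hIw : IntegrableOn (fun z => ‖χ z - f z‖ ^ 2 * ((‖z - y‖ ^ 2 + τ) ^ n)⁻¹)
      (ball y (ρ / 2)) volume :=
    (((hvc.norm.pow 2).mul hwc).continuousOn.integrableOn_compact
      (isCompact_closedBall y (ρ / 2))).mono_set ball_subset_closedBall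
  have hsq := sq_submean (fun z => χ z - f z) y hρ2 hvd (fun t => ((t ^ 2 + τ) ^ n)⁻¹) hwR
    (fun t => by positivity) hIw
  have hle2 : ∫ z in ball y (ρ / 2), ‖χ z - f z‖ ^ 2 * ((‖z - y‖ ^ 2 + τ) ^ n)⁻¹ ≤
      (1 + (R + 1) ^ 2) * Real.exp 1 * Real.exp (φ y) *
        ∫ z, ‖χ z - f z‖ ^ 2 * (Real.exp (-φ z) * ((τ + ‖z - y‖ ^ 2) ^ n)⁻¹ *
          (1 + ‖z‖ ^ 2)⁻¹) := by
    calc ∫ z in ball y (ρ / 2), ‖χ z - f z‖ ^ 2 * ((‖z - y‖ ^ 2 + τ) ^ n)⁻¹
        ≤ ∫ z in ball y (ρ / 2), (1 + (R + 1) ^ 2) * Real.exp 1 * Real.exp (φ y) *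
          (‖χ z - f z‖ ^ 2 * (Real.exp (-φ z) * ((τ + ‖z - y‖ ^ 2) ^ n)⁻¹ *
          (1 + ‖z‖ ^ 2)⁻¹)) := by
          apply setIntegral_mono_on hIw (hI.const_mul _).integrableOn measurableSet_ball
          intro z hz
          have hz' := hsub hz
          have hD : (0 : ℝ) < 1 + ‖z‖ ^ 2 := by positivity
          have e2 : (1 + (R + 1) ^ 2) * Real.exp 1 * Real.exp (φ y) *
              (‖χ z - f z‖ ^ 2 * (Real.exp (-φ z) * ((τ + ‖z - y‖ ^ 2) ^ n)⁻¹ *
              (1 + ‖z‖ ^ 2)⁻¹)) = (‖χ z - f z‖ ^ 2 * ((‖z - y‖ ^ 2 + τ) ^ n)⁻¹) *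
              (((1 + (R + 1) ^ 2) * (1 + ‖z‖ ^ 2)⁻¹) *
                ((Real.exp 1 * Real.exp (-φ z)) * Real.exp (φ y))) := by
            rw [add_comm τ]
            ring
          rw [e2]
          apply le_mul_of_one_le_right (by positivity)
          have e3 : 1 ≤ (1 + (R + 1) ^ 2) * (1 + ‖z‖ ^ 2)⁻¹ := by
            rw [← div_eq_mul_inv, one_le_div hD]
            exact hzR z hz'
          have e4 : 1 ≤ (Real.exp 1 * Real.exp (-φ z)) * Real.exp (φ y) := by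
            have := mul_le_mul_of_nonneg_right (hexp2 z hz') (Real.exp_pos (φ y)).le
            rwa [← Real.exp_add, neg_add_cancel, Real.exp_zero] at this
          calc (1 : ℝ) = 1 * 1 := by ring
            _ ≤ _ := mul_le_mul e3 e4 zero_le_one (by positivity)
      _ = (1 + (R + 1) ^ 2) * Real.exp 1 * Real.exp (φ y) *
          ∫ z in ball y (ρ / 2), ‖χ z - f z‖ ^ 2 * (Real.exp (-φ z) *
            ((τ + ‖z - y‖ ^ 2) ^ n)⁻¹ * (1 + ‖z‖ ^ 2)⁻¹) := by
          rw [integral_const_mul]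
      _ ≤ _ := by
          apply mul_le_mul_of_nonneg_left _ (by positivity)
          apply setIntegral_le_integral hI
          refine Filter.Eventually.of_forall (fun z => ?_)
          simp only [Pi.zero_apply]
          positivity
  calc ‖χ y - f y‖ ^ 2 * (c * Real.log (ρ ^ 2 / τ) - K₀)
      ≤ ‖χ y - f y‖ ^ 2 * ∫ z in ball y (ρ / 2), ((‖z - y‖ ^ 2 + τ) ^ n)⁻¹ :=
        mul_le_mul_of_nonneg_left hrad2 (by positivity)
    _ ≤ ∫ z in ball y (ρ / 2), ‖χ z - f z‖ ^ 2 * ((‖z - y‖ ^ 2 + τ) ^ n)⁻¹ := hsq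
    _ ≤ _ := hle2
    _ ≤ (1 + (R + 1) ^ 2) * Real.exp 1 * Real.exp (φ y) *
        (C * (1 + (R + 1) ^ 2) * Real.exp 1 * K₀ * ((ρ ^ 2)⁻¹ * Real.exp (-φ y))) :=
        mul_le_mul_of_nonneg_left hA1 (by positivity)
    _ = (1 + (R + 1) ^ 2) * Real.exp 1 * (C * (1 + (R + 1) ^ 2) * Real.exp 1 * K₀) *
          (ρ ^ 2)⁻¹ * (Real.exp (φ y) * Real.exp (-φ y)) := by ring
    _ = _ := by
        rw [← Real.exp_add, add_neg_cancel, Real.exp_zero, mul_one]

theorem peak (n : ℕ) (hn : 1 ≤ n) (R : ℝ) (hR : 1 ≤ R) : ∃ K : ℝ, 1 ≤ K ∧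
    ∀ (φ : Cn n → ℝ) (y : Cn n) (ρ : ℝ), ContDiff ℝ ∞ φ → (∀ z ξ, 0 ≤ lev φ z ξ) → ‖y‖ ≤ R →
      0 < ρ → ρ ≤ 1 → (∀ z ∈ ball y ρ, |φ z - φ y| ≤ 1) →
      ∃ f : Cn n → ℂ, Differentiable ℂ f ∧ 1 / 2 ≤ ‖f y‖ ∧
        Integrable (fun z => ‖f z‖ ^ 2 * (Real.exp (-φ z) * ((1 + ‖z‖ ^ 2) ^ (n + 1))⁻¹)) volume ∧
        ∫ z, ‖f z‖ ^ 2 * (Real.exp (-φ z) * ((1 + ‖z‖ ^ 2) ^ (n + 1))⁻¹) ≤
          K * (ρ ^ 2)⁻¹ * Real.exp (-φ y) := by
  obtain ⟨c, K₀, hc, hK₀, hrad⟩ := rad_int n hn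
  obtain ⟨C, hC, hcut⟩ := peak_cut n
  set M : ℝ := 1 + (R + 1) ^ 2 with hM
  have hMpos : 0 < M := by positivity
  set A₁ : ℝ := C * M * Real.exp 1 * K₀ with hA₁
  have hA₁0 : 0 ≤ A₁ := by positivity
  set A₂ : ℝ := M * Real.exp 1 * A₁ + 1 with hA₂
  have hA₂0 : 0 < A₂ := by positivity
  set B : ℝ := (4 * A₂ + K₀) / c with hB
  have hB0 : 0 < B := by positivity
  set V : ℝ := volume.real (ball (0 : Cn n) 1) with hV
  have hV0 : 0 ≤ V := measureReal_nonneg
  refine ⟨2 * (2 * R ^ 2 + 2) ^ n * A₁ + 2 * Real.exp 1 * V + 1, ?_, ?_⟩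
  · have : 0 ≤ 2 * (2 * R ^ 2 + 2) ^ n * A₁ + 2 * Real.exp 1 * V := by positivity
    linarith
  intro φ y ρ hφ hlev hy hρ hρ1 hball
  have hρ2 : (1 : ℝ) ≤ (ρ ^ 2)⁻¹ := by
    rw [one_le_inv₀ (by positivity)]
    exact pow_le_one₀ hρ.le hρ1
  set τ : ℝ := ρ ^ 2 * Real.exp (-(B * (ρ ^ 2)⁻¹)) with hτdef
  have hτ : 0 < τ := by positivity
  have hτle : τ ≤ ρ ^ 2 := by
    apply mul_le_of_le_one_right (by positivity)
    rw [Real.exp_le_one_iff, neg_nonpos]
    positivity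
  have hlog : Real.log (ρ ^ 2 / τ) = B * (ρ ^ 2)⁻¹ := by
    rw [hτdef]
    have h1 : ρ ^ 2 / (ρ ^ 2 * Real.exp (-(B * (ρ ^ 2)⁻¹))) = Real.exp (B * (ρ ^ 2)⁻¹) := by
      rw [Real.exp_neg]
      field_simp
    rw [h1, Real.log_exp]
  obtain ⟨hr1, hr2⟩ := hrad ρ τ y hρ hρ1 hτ hτle
  obtain ⟨χ, hχ, hχn, hχ1, hχ0, hχ3, hχ4⟩ := hcut y ρ hρ
  obtain ⟨f, hf, hI, hle, hval⟩ := peak_solve (c := c) hK₀ hC hR φ y ρ τ hφ hlev hy hρ hρ1 hball hτ
    hr1 hr2 χ hχ hχ1 hχ3 hχ4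
  have hyb : y ∈ ball y (ρ / 2) := mem_ball_self (by linarith)
  refine ⟨f, hf, ?_, ?_⟩
  · rw [hlog, hχ1 y hyb] at hval
    have h1 : 4 * A₂ * (ρ ^ 2)⁻¹ ≤ c * (B * (ρ ^ 2)⁻¹) - K₀ := by
      have h2 : c * (B * (ρ ^ 2)⁻¹) = (4 * A₂ + K₀) * (ρ ^ 2)⁻¹ := by
        rw [hB]
        field_simp
      rw [h2]
      nlinarith
    have h3 : ‖1 - f y‖ ^ 2 * (4 * A₂ * (ρ ^ 2)⁻¹) ≤ A₂ * (ρ ^ 2)⁻¹ := by
      calc ‖1 - f y‖ ^ 2 * (4 * A₂ * (ρ ^ 2)⁻¹)
          ≤ ‖1 - f y‖ ^ 2 * (c * (B * (ρ ^ 2)⁻¹) - K₀) :=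
            mul_le_mul_of_nonneg_left h1 (by positivity)
        _ ≤ M * Real.exp 1 * A₁ * (ρ ^ 2)⁻¹ := hval
        _ ≤ A₂ * (ρ ^ 2)⁻¹ := by
            apply mul_le_mul_of_nonneg_right _ (by positivity)
            rw [hA₂]
            linarith
    have h4 : ‖1 - f y‖ ^ 2 ≤ 1 / 4 := by
      have h5 : 0 < A₂ * (ρ ^ 2)⁻¹ := by positivity
      have h6 : (‖1 - f y‖ ^ 2 * 4) * (A₂ * (ρ ^ 2)⁻¹) ≤ 1 * (A₂ * (ρ ^ 2)⁻¹) := by
        calc (‖1 - f y‖ ^ 2 * 4) * (A₂ * (ρ ^ 2)⁻¹) =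
            ‖1 - f y‖ ^ 2 * (4 * A₂ * (ρ ^ 2)⁻¹) := by ring
          _ ≤ _ := h3
          _ = _ := by ring
      have h7 := le_of_mul_le_mul_right h6 h5
      linarith
    have h8 : ‖1 - f y‖ ≤ 1 / 2 := by
      nlinarith [norm_nonneg (1 - f y)]
    have h9 : (1 : ℝ) ≤ ‖1 - f y‖ + ‖f y‖ := by
      have := norm_add_le (1 - f y) (f y)
      rwa [sub_add_cancel, norm_one] at this
    linarith
  · -- the weighted norm
    have hpt : ∀ z : Cn n, ‖f z‖ ^ 2 * (Real.exp (-φ z) * ((1 + ‖z‖ ^ 2) ^ (n + 1))⁻¹) ≤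
        2 * (2 * R ^ 2 + 2) ^ n * (‖χ z - f z‖ ^ 2 * (Real.exp (-φ z) *
          ((τ + ‖z - y‖ ^ 2) ^ n)⁻¹ * (1 + ‖z‖ ^ 2)⁻¹)) +
        (ball y ρ).indicator (fun _ => 2 * (Real.exp 1 * Real.exp (-φ y))) z := by
      intro z
      have hD : (1 : ℝ) ≤ 1 + ‖z‖ ^ 2 := by
        have : 0 ≤ ‖z‖ ^ 2 := by positivity
        linarith
      have hA : 0 < τ + ‖z - y‖ ^ 2 := by positivity
      have hAD : τ + ‖z - y‖ ^ 2 ≤ (2 * R ^ 2 + 2) * (1 + ‖z‖ ^ 2) := by
        have h1 := peak_norm_sq_sub z y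
        have h2 : ‖y‖ ^ 2 ≤ R ^ 2 := pow_le_pow_left₀ (norm_nonneg _) hy 2
        have h3 : τ ≤ 1 := hτle.trans (pow_le_one₀ hρ.le hρ1)
        have h4 : 0 ≤ ‖z‖ ^ 2 := by positivity
        have h5 : 0 ≤ R ^ 2 := by positivity
        nlinarith
      have h1 : ‖f z‖ ^ 2 ≤ 2 * ‖χ z - f z‖ ^ 2 + 2 * ‖χ z‖ ^ 2 := by
        have h2 : ‖f z‖ ≤ ‖χ z - f z‖ + ‖χ z‖ := by
          have := norm_sub_le (χ z) (χ z - f z)
          rw [sub_sub_cancel] at this
          linarith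
        have h3 := pow_le_pow_left₀ (norm_nonneg (f z)) h2 2
        nlinarith [sq_nonneg (‖χ z - f z‖ - ‖χ z‖)]
      have h2 : Real.exp (-φ z) * ((1 + ‖z‖ ^ 2) ^ (n + 1))⁻¹ ≤
          (2 * R ^ 2 + 2) ^ n * (Real.exp (-φ z) *
          ((τ + ‖z - y‖ ^ 2) ^ n)⁻¹ * (1 + ‖z‖ ^ 2)⁻¹) := by
        have h3 : ((1 + ‖z‖ ^ 2) ^ n)⁻¹ ≤ (2 * R ^ 2 + 2) ^ n * ((τ + ‖z - y‖ ^ 2) ^ n)⁻¹ := by
          rw [← div_eq_mul_inv, inv_eq_one_div, div_le_div_iff₀ (by positivity) (by positivity),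
            one_mul, ← mul_pow]
          exact pow_le_pow_left₀ hA.le hAD n
        calc Real.exp (-φ z) * ((1 + ‖z‖ ^ 2) ^ (n + 1))⁻¹ =
            (Real.exp (-φ z) * (1 + ‖z‖ ^ 2)⁻¹) * ((1 + ‖z‖ ^ 2) ^ n)⁻¹ := by
              rw [pow_succ, mul_inv]
              ring
          _ ≤ (Real.exp (-φ z) * (1 + ‖z‖ ^ 2)⁻¹) *
              ((2 * R ^ 2 + 2) ^ n * ((τ + ‖z - y‖ ^ 2) ^ n)⁻¹) :=
              mul_le_mul_of_nonneg_left h3 (by positivity)
          _ = _ := by ring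
      have h3 : 2 * ‖χ z‖ ^ 2 * (Real.exp (-φ z) * ((1 + ‖z‖ ^ 2) ^ (n + 1))⁻¹) ≤
          (ball y ρ).indicator (fun _ => 2 * (Real.exp 1 * Real.exp (-φ y))) z := by
        by_cases hz : z ∈ ball y ρ
        · rw [indicator_of_mem hz]
          have h4 : ‖χ z‖ ^ 2 ≤ 1 := pow_le_one₀ (norm_nonneg _) (hχn z)
          have h5 : ((1 + ‖z‖ ^ 2) ^ (n + 1))⁻¹ ≤ 1 := inv_le_one_of_one_le₀ (one_le_pow₀ hD)
          have h6 : Real.exp (-φ z) ≤ Real.exp 1 * Real.exp (-φ y) := by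
            rw [← Real.exp_add]
            apply Real.exp_le_exp.2
            have := abs_le.1 (hball z hz)
            linarith
          have h7 : Real.exp (-φ z) * ((1 + ‖z‖ ^ 2) ^ (n + 1))⁻¹ ≤
              (Real.exp 1 * Real.exp (-φ y)) * 1 :=
            mul_le_mul h6 h5 (by positivity) (by positivity)
          calc 2 * ‖χ z‖ ^ 2 * (Real.exp (-φ z) * ((1 + ‖z‖ ^ 2) ^ (n + 1))⁻¹)
              ≤ 2 * 1 * ((Real.exp 1 * Real.exp (-φ y)) * 1) := by
                apply mul_le_mul _ h7 (by positivity) (by norm_num)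
                linarith
            _ = _ := by ring
        · rw [indicator_of_notMem hz, hχ0 z hz]
          simp
      have hpos : 0 ≤ Real.exp (-φ z) * ((1 + ‖z‖ ^ 2) ^ (n + 1))⁻¹ := by positivity
      calc ‖f z‖ ^ 2 * (Real.exp (-φ z) * ((1 + ‖z‖ ^ 2) ^ (n + 1))⁻¹)
          ≤ (2 * ‖χ z - f z‖ ^ 2 + 2 * ‖χ z‖ ^ 2) *
            (Real.exp (-φ z) * ((1 + ‖z‖ ^ 2) ^ (n + 1))⁻¹) :=
            mul_le_mul_of_nonneg_right h1 hpos
        _ = 2 * ‖χ z - f z‖ ^ 2 * (Real.exp (-φ z) * ((1 + ‖z‖ ^ 2) ^ (n + 1))⁻¹) +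
            2 * ‖χ z‖ ^ 2 * (Real.exp (-φ z) * ((1 + ‖z‖ ^ 2) ^ (n + 1))⁻¹) := by ring
        _ ≤ 2 * ‖χ z - f z‖ ^ 2 * ((2 * R ^ 2 + 2) ^ n * (Real.exp (-φ z) *
          ((τ + ‖z - y‖ ^ 2) ^ n)⁻¹ * (1 + ‖z‖ ^ 2)⁻¹)) +
            (ball y ρ).indicator (fun _ => 2 * (Real.exp 1 * Real.exp (-φ y))) z :=
            add_le_add (mul_le_mul_of_nonneg_left h2 (by positivity)) h3
        _ = _ := by ring
    have hind : Integrable ((ball y ρ).indicator
        (fun _ : Cn n => 2 * (Real.exp 1 * Real.exp (-φ y)))) volume := by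
      rw [integrable_indicator_iff measurableSet_ball]
      exact integrableOn_const measure_ball_lt_top.ne
    have hgint := (hI.const_mul (2 * (2 * R ^ 2 + 2) ^ n)).add hind
    have hGc : Continuous (fun z : Cn n => ‖f z‖ ^ 2 *
        (Real.exp (-φ z) * ((1 + ‖z‖ ^ 2) ^ (n + 1))⁻¹)) := by
      apply Continuous.mul (hf.continuous.norm.pow 2)
      apply Continuous.mul
      · exact Real.continuous_exp.comp hφ.continuous.neg
      · apply Continuous.inv₀
        · fun_prop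
        · intro z
          positivity
    refine ⟨?_, ?_⟩
    · refine Integrable.mono' hgint hGc.aestronglyMeasurable
        (Filter.Eventually.of_forall (fun z => ?_))
      rw [Real.norm_of_nonneg (by positivity)]
      exact hpt z
    · calc ∫ z, ‖f z‖ ^ 2 * (Real.exp (-φ z) * ((1 + ‖z‖ ^ 2) ^ (n + 1))⁻¹)
          ≤ ∫ z, (2 * (2 * R ^ 2 + 2) ^ n * (‖χ z - f z‖ ^ 2 * (Real.exp (-φ z) *
          ((τ + ‖z - y‖ ^ 2) ^ n)⁻¹ * (1 + ‖z‖ ^ 2)⁻¹)) +
        (ball y ρ).indicator (fun _ => 2 * (Real.exp 1 * Real.exp (-φ y))) z) := by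
            apply integral_mono_of_nonneg _ hgint
            · exact Filter.Eventually.of_forall hpt
            · refine Filter.Eventually.of_forall (fun z => ?_)
              simp only [Pi.zero_apply]
              positivity
        _ = 2 * (2 * R ^ 2 + 2) ^ n * (∫ z, ‖χ z - f z‖ ^ 2 * (Real.exp (-φ z) *
          ((τ + ‖z - y‖ ^ 2) ^ n)⁻¹ * (1 + ‖z‖ ^ 2)⁻¹)) +
            2 * (Real.exp 1 * Real.exp (-φ y)) * volume.real (ball y ρ) := by
            rw [integral_add (hI.const_mul _) hind, integral_const_mul,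
              integral_indicator measurableSet_ball, setIntegral_const, smul_eq_mul]
            ring
        _ ≤ 2 * (2 * R ^ 2 + 2) ^ n * (A₁ * ((ρ ^ 2)⁻¹ * Real.exp (-φ y))) +
            2 * (Real.exp 1 * Real.exp (-φ y)) * (V * (ρ ^ 2)⁻¹) := by
            apply add_le_add
            · exact mul_le_mul_of_nonneg_left hle (by positivity)
            · apply mul_le_mul_of_nonneg_left _ (by positivity)
              have h1 : volume.real (ball y ρ) ≤ V := by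
                have h2 : volume (ball y ρ) ≤ volume (ball (0 : Cn n) 1) := by
                  rw [Measure.addHaar_ball_center volume y ρ]
                  exact measure_mono (ball_subset_ball hρ1)
                exact ENNReal.toReal_mono measure_ball_lt_top.ne h2
              exact h1.trans (le_mul_of_one_le_right hV0 hρ2)
        _ ≤ _ := by
            have h1 : 0 ≤ (ρ ^ 2)⁻¹ * Real.exp (-φ y) := by positivity
            nlinarith

end HMA

end S_MA_Peak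

section S_MA_Approx

/-! # Module APPROX: quantitative approximation of psh functions by logarithms of polynomials -/

open MeasureTheory Metric Set
open scoped ENNReal Topology ContDiff

namespace HMA

/-- absorbing constants -/
theorem Approx_const {C X s : ℝ} {K p q : ℕ} (hCK : C ≤ K) (hK : 1 ≤ K) (hp : p ≤ K)
    (hq : q ≤ K) (hX : 1 ≤ X) (hs : 0 < s) (hs1 : s ≤ 1) :
    C * X ^ p * (s ^ q)⁻¹ ≤ (K * X / s) ^ K := by
  have hK1 : (1 : ℝ) ≤ K := by exact_mod_cast hK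
  have hsi : 1 ≤ s⁻¹ := (one_le_inv₀ hs).mpr hs1
  have h1 : (K * X / s) ^ K = (K : ℝ) ^ K * X ^ K * (s⁻¹) ^ K := by
    rw [div_eq_mul_inv, mul_pow, mul_pow]
  have h2 : (K : ℝ) ≤ (K : ℝ) ^ K := le_self_pow₀ hK1 (by omega)
  have h3 : X ^ p ≤ X ^ K := pow_le_pow_right₀ hX hp
  have h4 : (s ^ q)⁻¹ ≤ (s⁻¹) ^ K := by
    rw [← inv_pow]
    exact pow_le_pow_right₀ hsi hq
  rw [h1]
  have h5 : C * X ^ p ≤ (K : ℝ) ^ K * X ^ K :=
    mul_le_mul (hCK.trans h2) h3 (by positivity) (by positivity)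
  exact mul_le_mul h5 h4 (by positivity) (by positivity)

theorem Approx_ev_diff {n : ℕ} (P : MvPolynomial (Fin n) ℂ) :
    Differentiable ℂ (fun z : Cn n => ev P z) := by
  unfold ev
  induction P using MvPolynomial.induction_on with
  | C a => simp only [MvPolynomial.eval_C]; exact differentiable_const a
  | add p q hp hq => simp only [map_add]; exact hp.add hq
  | mul_X p i hp =>
    simp only [map_mul, MvPolynomial.eval_X]
    refine hp.mul ?_
    exact (EuclideanSpace.proj (𝕜 := ℂ) i : Cn n →L[ℂ] ℂ).differentiable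

theorem Approx_ev_cont {n : ℕ} (P : MvPolynomial (Fin n) ℂ) :
    Continuous (fun z : Cn n => ev P z) := (Approx_ev_diff P).continuous

/-- maximum of an usc function on a closed ball -/
theorem Approx_max {n : ℕ} {u : Cn n → ℝ} (hu : UpperSemicontinuous u) (z : Cn n) {r : ℝ}
    (hr : 0 ≤ r) : ∃ z', ‖z' - z‖ ≤ r ∧ ∀ x, ‖x - z‖ ≤ r → u x ≤ u z' := by
  have hne : (closedBall z r).Nonempty := ⟨z, mem_closedBall_self hr⟩
  obtain ⟨z', hz', hmax⟩ := UpperSemicontinuousOn.exists_isMaxOn hne (isCompact_closedBall z r)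
    (hu.upperSemicontinuousOn _)
  refine ⟨z', by rwa [mem_closedBall, dist_eq_norm] at hz', fun x hx => ?_⟩
  exact hmax (by rwa [mem_closedBall, dist_eq_norm])

/-- the weight -/
noncomputable def ApproxW {n : ℕ} (m : ℕ) (v : Cn n → ℝ) (z : Cn n) : ℝ :=
  Real.exp (-(2 * m * v z)) * ((1 + ‖z‖ ^ 2) ^ (n + 1))⁻¹

theorem ApproxW_pos {n : ℕ} (m : ℕ) (v : Cn n → ℝ) (z : Cn n) : 0 < ApproxW m v z := by
  unfold ApproxW
  positivity

theorem ApproxW_cont {n : ℕ} (m : ℕ) {v : Cn n → ℝ} (hv : Continuous v) :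
    Continuous (ApproxW m v) := by
  unfold ApproxW
  refine (Real.continuous_exp.comp (by fun_prop)).mul ?_
  refine Continuous.inv₀ (by fun_prop) (fun z => by positivity)

/-- lower bound of the weight -/
theorem ApproxW_low {n : ℕ} (m : ℕ) {v : Cn n → ℝ} {a : ℝ}
    (hv : ∀ z, v z ≤ Real.log (1 + ‖z‖ ^ 2) / 2 + a + 1) (z : Cn n) :
    Real.exp (-(2 * m * (a + 1))) * ((1 + ‖z‖ ^ 2) ^ (m + n + 1))⁻¹ ≤ ApproxW m v z := by
  unfold ApproxW
  have h0 : 0 < 1 + ‖z‖ ^ 2 := by positivity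
  have h1 : ((1 + ‖z‖ ^ 2) ^ (m + n + 1))⁻¹ =
      Real.exp (-(m * Real.log (1 + ‖z‖ ^ 2))) * ((1 + ‖z‖ ^ 2) ^ (n + 1))⁻¹ := by
    rw [add_assoc, pow_add, mul_inv, Real.exp_neg, mul_comm (m : ℝ), Real.exp_mul,
      Real.exp_log h0, Real.rpow_natCast]
  rw [h1, ← mul_assoc, ← Real.exp_add]
  refine mul_le_mul_of_nonneg_right ?_ (by positivity)
  apply Real.exp_le_exp.mpr
  have h2 := hv z
  have h3 : (m : ℝ) * v z ≤ m * (Real.log (1 + ‖z‖ ^ 2) / 2 + a + 1) :=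
    mul_le_mul_of_nonneg_left h2 (Nat.cast_nonneg m)
  linarith

/-- inverse of the weight, upper bound -/
theorem ApproxW_up {n : ℕ} (m : ℕ) {v : Cn n → ℝ} {x : Cn n} {R t : ℝ} (_hR : 0 ≤ R)
    (hx : ‖x‖ ≤ R) (ht : v x ≤ t) (y : ℝ) (hy : 0 ≤ y) :
    y ≤ Real.exp (2 * m * t) * (1 + R ^ 2) ^ (n + 1) * (y * ApproxW m v x) := by
  have h1 : 1 ≤ Real.exp (2 * m * t) * (1 + R ^ 2) ^ (n + 1) * ApproxW m v x := by
    unfold ApproxW
    have h2 : 1 ≤ Real.exp (2 * m * t) * Real.exp (-(2 * m * v x)) := by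
      rw [← Real.exp_add]
      apply Real.one_le_exp
      have : (m : ℝ) * v x ≤ m * t := mul_le_mul_of_nonneg_left ht (Nat.cast_nonneg m)
      linarith
    have h3 : 1 ≤ (1 + R ^ 2) ^ (n + 1) * ((1 + ‖x‖ ^ 2) ^ (n + 1))⁻¹ := by
      rw [← div_eq_mul_inv, one_le_div (by positivity)]
      gcongr
    calc (1 : ℝ) = 1 * 1 := by ring
      _ ≤ (Real.exp (2 * m * t) * Real.exp (-(2 * m * v x))) *
          ((1 + R ^ 2) ^ (n + 1) * ((1 + ‖x‖ ^ 2) ^ (n + 1))⁻¹) :=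
          mul_le_mul h2 h3 (by norm_num) (by positivity)
      _ = _ := by ring
  calc y = y * 1 := by ring
    _ ≤ y * (Real.exp (2 * m * t) * (1 + R ^ 2) ^ (n + 1) * ApproxW m v x) :=
        mul_le_mul_of_nonneg_left h1 hy
    _ = _ := by ring

theorem approx (n : ℕ) (hn : 1 ≤ n) (R : ℝ) (hR : 1 ≤ R) : ∃ K : ℕ, 1 ≤ K ∧
    ∀ (u : Cn n → ℝ) (L a s : ℝ) (m : ℕ), PshS u → 0 ≤ L → 0 ≤ a → 0 < s → s ≤ 1 / 16 → 1 ≤ m →
      (∀ z, -L ≤ u z) → (∀ z, u z ≤ Real.log (1 + ‖z‖ ^ 2) / 2 + a) →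
      ∃ (N : ℕ) (P : Fin N → MvPolynomial (Fin n) ℂ), N ≤ (m + K) ^ n ∧
        (∀ j, P j ≠ 0 ∧ (P j).totalDegree ≤ m + K) ∧
        ∀ z : Cn n, ‖z‖ ≤ R →
          Real.exp (2 * m * u z) ≤ (K * (m + L + a + 1) / s) ^ K * ∑ j, ‖ev (P j) z‖ ^ 2 ∧
          ∃ z' : Cn n, ‖z' - z‖ ≤ 2 * s ∧ ∑ j, ‖ev (P j) z‖ ^ 2 ≤
            (K * (m + L + a + 1) / s) ^ K * Real.exp (2 * m * u z') := by
  obtain ⟨K₁, hK₁, hsm⟩ := smoothing n R hR
  obtain ⟨K₂, hK₂, hpk⟩ := peak n hn R hR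
  obtain ⟨K₃, hK₃, hsq⟩ := sq_le_ball n
  obtain ⟨Ka, hKa⟩ := exists_nat_ge (16 * K₁ ^ 2 * K₂)
  obtain ⟨Kb, hKb⟩ := exists_nat_ge ((n + 3 : ℝ) ^ n * K₃ * (1 + (R + 1) ^ 2) ^ (n + 1))
  refine ⟨Ka + Kb + (4 * n + 6), by omega, ?_⟩
  intro u L a s m hu hL ha hs hs16 hm hlow hup
  set K : ℕ := Ka + Kb + (4 * n + 6) with hK
  have hKr : (K : ℝ) = Ka + Kb + (4 * n + 6) := by rw [hK]; push_cast; ring
  have hKa0 : (0 : ℝ) ≤ Ka := Nat.cast_nonneg _
  have hKb0 : (0 : ℝ) ≤ Kb := Nat.cast_nonneg _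
  have hn0 : (0 : ℝ) ≤ n := Nat.cast_nonneg _
  have hm1 : (1 : ℝ) ≤ m := by exact_mod_cast hm
  set X : ℝ := m + L + a + 1 with hX
  have hX1 : 1 ≤ X := by rw [hX]; linarith
  obtain ⟨v, hvs, hvl, huv, hvu, hvb, hvL⟩ := hsm u L a s hu hL ha hs hs16 hlow hup
  have hvc : Continuous v := hvs.continuous
  obtain ⟨N, P, hN, hdeg, hone, hber⟩ := bergman (n := n) (M := m + n + 1) (ApproxW_cont m hvc)
    (ApproxW_pos m v) ⟨Real.exp (-(2 * m * (a + 1))), Real.exp_pos _, ApproxW_low m hvb⟩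
  refine ⟨N, P, hN.trans (Nat.pow_le_pow_left (by omega) n), ?_, ?_⟩
  · intro j
    refine ⟨?_, (hdeg j).trans (by omega)⟩
    intro h0
    have h1 := (hone j).2
    rw [h0] at h1
    simp [ev] at h1
  intro z hz
  have hs1 : s ≤ 1 := by linarith
  constructor
  · -- lower estimate
    set ρ : ℝ := s ^ (2 * n + 1) / (2 * m * K₁ * (L + a + 1)) with hρ
    have hLa : 1 ≤ L + a + 1 := by linarith
    have hden : 1 ≤ 2 * m * K₁ * (L + a + 1) := by
      calc (1 : ℝ) ≤ 1 * 1 * 1 * 1 := by norm_num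
        _ ≤ 2 * m * K₁ * (L + a + 1) := by gcongr; norm_num
    have hsp : 0 < s ^ (2 * n + 1) := pow_pos hs _
    have hρ0 : 0 < ρ := by rw [hρ]; positivity
    have hρ1 : ρ ≤ 1 := by
      rw [hρ, div_le_one (by linarith)]
      exact (pow_le_one₀ hs.le hs1).trans hden
    have hφs : ContDiff ℝ ∞ (fun w => 2 * m * v w) := contDiff_const.mul hvs
    have hφl : ∀ z ξ, 0 ≤ lev (fun w => 2 * m * v w) z ξ := by
      intro z ξ
      rw [lev_const_mul hvs]
      exact mul_nonneg (by positivity) (hvl z ξ)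
    obtain ⟨f, hfd, hf2, hfi, hfb⟩ := hpk (fun w => 2 * m * v w) z ρ hφs hφl hz hρ0 hρ1 (by
      intro y hy
      have hyz : ‖y - z‖ < ρ := by rwa [mem_ball, dist_eq_norm] at hy
      have hyR : ‖y‖ ≤ R + 1 := by
        have : ‖y‖ ≤ ‖y - z‖ + ‖z‖ := by
          calc ‖y‖ = ‖(y - z) + z‖ := by rw [sub_add_cancel]
            _ ≤ _ := norm_add_le _ _
        linarith
      have h1 := hvL y z hyR (by linarith)
      rw [← mul_sub, abs_mul, abs_of_nonneg (by positivity : (0 : ℝ) ≤ 2 * m)]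
      calc 2 * m * |v y - v z| ≤ 2 * m * (K₁ * (L + a + 1) * (s ^ (2 * n + 1))⁻¹ * ‖y - z‖) :=
            mul_le_mul_of_nonneg_left h1 (by positivity)
        _ ≤ 2 * m * (K₁ * (L + a + 1) * (s ^ (2 * n + 1))⁻¹ * ρ) := by gcongr
        _ = 1 := by
            rw [hρ]
            field_simp)
    have hb := hber f hfd hfi z
    have hS0 : 0 ≤ ∑ j, ‖ev (P j) z‖ ^ 2 := Finset.sum_nonneg (fun j _ => sq_nonneg _)
    have h1 : (1 / 4 : ℝ) ≤ K₂ * (ρ ^ 2)⁻¹ * Real.exp (-(2 * m * v z)) *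
        ∑ j, ‖ev (P j) z‖ ^ 2 := by
      have h2 : (1 / 4 : ℝ) ≤ ‖f z‖ ^ 2 := by nlinarith
      refine h2.trans (hb.trans ?_)
      exact mul_le_mul_of_nonneg_right hfb hS0
    have h2 : Real.exp (2 * m * v z) ≤ 4 * K₂ * (ρ ^ 2)⁻¹ * ∑ j, ‖ev (P j) z‖ ^ 2 := by
      have h3 := mul_le_mul_of_nonneg_left h1 (Real.exp_pos (2 * m * v z)).le
      have h4 : Real.exp (2 * m * v z) * Real.exp (-(2 * m * v z)) = 1 := by
        rw [← Real.exp_add, add_neg_cancel, Real.exp_zero]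
      have h5 : Real.exp (2 * m * v z) * (K₂ * (ρ ^ 2)⁻¹ * Real.exp (-(2 * m * v z)) *
          ∑ j, ‖ev (P j) z‖ ^ 2) = (Real.exp (2 * m * v z) * Real.exp (-(2 * m * v z))) *
          (K₂ * (ρ ^ 2)⁻¹ * ∑ j, ‖ev (P j) z‖ ^ 2) := by ring
      rw [h5, h4, one_mul] at h3
      linarith
    have h3 : Real.exp (2 * m * u z) ≤ Real.exp (2 * m * v z) := by
      apply Real.exp_le_exp.mpr
      exact mul_le_mul_of_nonneg_left (huv z) (by positivity)
    refine h3.trans (h2.trans (mul_le_mul_of_nonneg_right ?_ hS0))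
    have h6 : 4 * K₂ * (ρ ^ 2)⁻¹ = 16 * K₁ ^ 2 * K₂ * (m ^ 2 * (L + a + 1) ^ 2) *
        (s ^ (2 * (2 * n + 1)))⁻¹ := by
      rw [hρ]
      have hne : s ^ (2 * n + 1) ≠ 0 := hsp.ne'
      have hne2 : (m : ℝ) ≠ 0 := by positivity
      have hne3 : (L + a + 1) ≠ 0 := by positivity
      have hne4 : K₁ ≠ 0 := by positivity
      rw [mul_comm 2 (2 * n + 1), pow_mul]
      field_simp
      ring
    rw [h6]
    have h7 : (m : ℝ) ^ 2 * (L + a + 1) ^ 2 ≤ X ^ 4 := by
      have h8 : (m : ℝ) ≤ X := by rw [hX]; linarith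
      have h9 : L + a + 1 ≤ X := by rw [hX]; linarith
      calc (m : ℝ) ^ 2 * (L + a + 1) ^ 2 ≤ X ^ 2 * X ^ 2 := by gcongr
        _ = X ^ 4 := by ring
    calc 16 * K₁ ^ 2 * K₂ * (m ^ 2 * (L + a + 1) ^ 2) * (s ^ (2 * (2 * n + 1)))⁻¹
        ≤ 16 * K₁ ^ 2 * K₂ * X ^ 4 * (s ^ (2 * (2 * n + 1)))⁻¹ := by gcongr
      _ ≤ (K * X / s) ^ K := Approx_const (by rw [hKr]; linarith) (by omega) (by omega) (by omega)
          hX1 hs hs1
  · -- upper estimate
    obtain ⟨z', hz', hmax⟩ := Approx_max hu.usc z (show (0 : ℝ) ≤ 2 * s by linarith)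
    refine ⟨z', hz', ?_⟩
    set B : ℝ := Real.exp (2 * m * u z') * (1 + (R + 1) ^ 2) ^ (n + 1) with hB
    have hB0 : 0 ≤ B := by rw [hB]; positivity
    have hterm : ∀ j, ‖ev (P j) z‖ ^ 2 ≤ K₃ * (s ^ (2 * n))⁻¹ * B := by
      intro j
      have h1 := hsq (fun x => ev (P j) x) z s (Approx_ev_diff (P j)) hs
      refine h1.trans (mul_le_mul_of_nonneg_left ?_ (by positivity))
      obtain ⟨hi, hi1⟩ := hone j
      have hpt : ∀ x ∈ ball z s, ‖ev (P j) x‖ ^ 2 ≤ B * (‖ev (P j) x‖ ^ 2 * ApproxW m v x) := by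
        intro x hx
        have hxz : ‖x - z‖ < s := by rwa [mem_ball, dist_eq_norm] at hx
        obtain ⟨x', hx', hvx⟩ := hvu x
        have hx'z : ‖x' - z‖ ≤ 2 * s := by
          calc ‖x' - z‖ = ‖(x' - x) + (x - z)‖ := by congr 1; abel
            _ ≤ ‖x' - x‖ + ‖x - z‖ := norm_add_le _ _
            _ ≤ 2 * s := by linarith
        have hxR : ‖x‖ ≤ R + 1 := by
          have : ‖x‖ ≤ ‖x - z‖ + ‖z‖ := by
            calc ‖x‖ = ‖(x - z) + z‖ := by rw [sub_add_cancel]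
              _ ≤ _ := norm_add_le _ _
          linarith
        exact ApproxW_up m (by linarith) hxR (hvx.trans (hmax x' hx'z)) _ (sq_nonneg _)
      have hBi : Integrable (fun x => B * (‖ev (P j) x‖ ^ 2 * ApproxW m v x)) volume :=
        hi.const_mul B
      have hnn : ∀ x : Cn n, 0 ≤ B * (‖ev (P j) x‖ ^ 2 * ApproxW m v x) := fun x =>
        mul_nonneg hB0 (mul_nonneg (sq_nonneg _) (ApproxW_pos m v x).le)
      have hii : IntegrableOn (fun x => ‖ev (P j) x‖ ^ 2) (ball z s) volume := by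
        refine Integrable.mono' hBi.integrableOn
          ((Approx_ev_cont (P j)).norm.pow 2).aestronglyMeasurable ?_
        refine (ae_restrict_mem measurableSet_ball).mono (fun x hx => ?_)
        rw [Real.norm_eq_abs, abs_of_nonneg (sq_nonneg _)]
        exact hpt x hx
      calc ∫ x in ball z s, ‖ev (P j) x‖ ^ 2
          ≤ ∫ x in ball z s, B * (‖ev (P j) x‖ ^ 2 * ApproxW m v x) :=
            setIntegral_mono_on hii hBi.integrableOn measurableSet_ball hpt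
        _ ≤ ∫ x, B * (‖ev (P j) x‖ ^ 2 * ApproxW m v x) :=
            setIntegral_le_integral hBi (Filter.Eventually.of_forall hnn)
        _ = B := by rw [integral_const_mul, hi1, mul_one]
    have hsum : ∑ j, ‖ev (P j) z‖ ^ 2 ≤ N * (K₃ * (s ^ (2 * n))⁻¹ * B) := by
      calc ∑ j, ‖ev (P j) z‖ ^ 2 ≤ ∑ _j : Fin N, K₃ * (s ^ (2 * n))⁻¹ * B :=
            Finset.sum_le_sum (fun j _ => hterm j)
        _ = N * (K₃ * (s ^ (2 * n))⁻¹ * B) := by simp
    have hNr : (N : ℝ) ≤ (n + 3 : ℝ) ^ n * X ^ n := by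
      have h1 : (N : ℝ) ≤ ((m + n + 1 + 1 : ℕ) : ℝ) ^ n := by exact_mod_cast hN
      refine h1.trans ?_
      rw [← mul_pow]
      apply pow_le_pow_left₀ (by positivity)
      push_cast
      have h8 : (m : ℝ) ≤ X := by rw [hX]; linarith
      nlinarith
    refine hsum.trans ?_
    calc (N : ℝ) * (K₃ * (s ^ (2 * n))⁻¹ * B)
        ≤ ((n + 3 : ℝ) ^ n * X ^ n) * (K₃ * (s ^ (2 * n))⁻¹ * B) := by
          refine mul_le_mul_of_nonneg_right hNr ?_
          positivity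
      _ = ((n + 3 : ℝ) ^ n * K₃ * (1 + (R + 1) ^ 2) ^ (n + 1)) * X ^ n * (s ^ (2 * n))⁻¹ *
          Real.exp (2 * m * u z') := by rw [hB]; ring
      _ ≤ (K * X / s) ^ K * Real.exp (2 * m * u z') := by
          refine mul_le_mul_of_nonneg_right ?_ (Real.exp_pos _).le
          exact Approx_const (by rw [hKr]; linarith) (by omega) (by omega) (by omega) hX1 hs hs1

end HMA

end S_MA_Approx

section S_MA_OneStep

/-! # Module ONESTEP: comparison of the scales `r` and `2 r^2` -/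

open MeasureTheory Metric Set
open scoped ENNReal Topology ContDiff

namespace HMA

/-- pointwise estimate off the bad set -/
theorem OneStep_aux1 {n : ℕ} {R : ℝ} {K : ℕ} {g : Cn n → ℝ} (hg : PshS g)
    {r : ℝ} (hr : 0 < r) (hr4 : r ≤ 1 / 4) {m : ℕ} (hm : 1 ≤ m) {N : ℕ}
    {P : Fin N → MvPolynomial (Fin n) ℂ} (hP : ∀ j, (P j).totalDegree ≤ m + K)
    {E : ℝ} (hE : 0 < E)
    (h : ∀ z : Cn n, ‖z‖ ≤ R + 1 →
      Real.exp (2 * m * g z) ≤ E * ∑ j, ‖ev (P j) z‖ ^ 2 ∧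
      ∃ z' : Cn n, ‖z' - z‖ ≤ 2 * r ^ 2 ∧
        ∑ j, ‖ev (P j) z‖ ^ 2 ≤ E * Real.exp (2 * m * g z'))
    {z : Cn n} (hz : ‖z‖ ≤ R) (hzB : ∀ j, z ∉ affZ (P j) (Real.sqrt r)) :
    supB g r z - supB g (2 * r ^ 2) z ≤ (Real.log E + ((m : ℝ) + K) * Real.sqrt r) / m := by
  obtain ⟨z₁, hz₁, hs⟩ := supB_attained hg.usc hr.le z
  have hz₁R : ‖z₁‖ ≤ R + 1 := by
    have : ‖z₁‖ ≤ ‖z₁ - z‖ + ‖z‖ := by
      simpa using norm_add_le (z₁ - z) z
    linarith
  obtain ⟨h1, -⟩ := h z₁ hz₁R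
  obtain ⟨-, z', hz', h2⟩ := h z (by linarith)
  have hle : g z' ≤ supB g (2 * r ^ 2) z := le_supB hg.usc hz'
  have hsr : 0 < Real.sqrt r := Real.sqrt_pos.mpr hr
  have hm' : (0 : ℝ) < m := by exact_mod_cast hm
  have hrat : ∀ j, ‖ev (P j) z₁‖ ^ 2 ≤
      Real.exp (2 * (((m : ℝ) + K) * Real.sqrt r)) * ‖ev (P j) z‖ ^ 2 := by
    intro j
    have h3 := ratio (hP j) hr hsr (hzB j) hz₁
    rw [Real.div_sqrt] at h3
    have h4 : (1 + Real.sqrt r) ^ (m + K) ≤ Real.exp (((m : ℝ) + K) * Real.sqrt r) := by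
      have h5 : 1 + Real.sqrt r ≤ Real.exp (Real.sqrt r) := by
        have := Real.add_one_le_exp (Real.sqrt r); linarith
      calc (1 + Real.sqrt r) ^ (m + K) ≤ (Real.exp (Real.sqrt r)) ^ (m + K) :=
            pow_le_pow_left₀ (by positivity) h5 _
        _ = Real.exp (((m : ℝ) + K) * Real.sqrt r) := by
            rw [← Real.exp_nat_mul]; push_cast; ring_nf
    have h6 : ‖ev (P j) z₁‖ ≤ Real.exp (((m : ℝ) + K) * Real.sqrt r) * ‖ev (P j) z‖ :=
      h3.trans (mul_le_mul_of_nonneg_right h4 (norm_nonneg _))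
    calc ‖ev (P j) z₁‖ ^ 2 ≤ (Real.exp (((m : ℝ) + K) * Real.sqrt r) * ‖ev (P j) z‖) ^ 2 :=
          pow_le_pow_left₀ (norm_nonneg _) h6 2
      _ = Real.exp (2 * (((m : ℝ) + K) * Real.sqrt r)) * ‖ev (P j) z‖ ^ 2 := by
          rw [mul_pow, ← Real.exp_nat_mul]; push_cast; ring_nf
  have hsum : ∑ j, ‖ev (P j) z₁‖ ^ 2 ≤
      Real.exp (2 * (((m : ℝ) + K) * Real.sqrt r)) * ∑ j, ‖ev (P j) z‖ ^ 2 := by
    rw [Finset.mul_sum]
    exact Finset.sum_le_sum fun j _ => hrat j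
  have hEe : E = Real.exp (Real.log E) := (Real.exp_log hE).symm
  have hfin : Real.exp (2 * m * g z₁) ≤ Real.exp (Real.log E +
      2 * (((m : ℝ) + K) * Real.sqrt r) + Real.log E + 2 * m * g z') := by
    calc Real.exp (2 * m * g z₁) ≤ E * ∑ j, ‖ev (P j) z₁‖ ^ 2 := h1
      _ ≤ E * (Real.exp (2 * (((m : ℝ) + K) * Real.sqrt r)) * ∑ j, ‖ev (P j) z‖ ^ 2) := by
          gcongr
      _ ≤ E * (Real.exp (2 * (((m : ℝ) + K) * Real.sqrt r)) * (E * Real.exp (2 * m * g z'))) := by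
          gcongr
      _ = _ := by
          rw [Real.exp_add, Real.exp_add, Real.exp_add, Real.exp_log hE]; ring
  have hfin2 := Real.exp_le_exp.mp hfin
  rw [hs, le_div_iff₀ hm']
  nlinarith [mul_le_mul_of_nonneg_left hle hm'.le]

/-- numerical estimate of the error -/
theorem OneStep_aux2 {η : ℝ} (hη : 0 < η) (hη1 : η ≤ 1) {K : ℕ} (hK : 1 ≤ K) {a : ℝ} (ha : 0 ≤ a)
    {r : ℝ} (hr : 0 < r) (hr4 : r ≤ 1 / 4) {m : ℕ} (hm1 : r ^ (-η) ≤ m) (hm2 : (m : ℝ) ≤ 2 * r ^ (-η)) :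
    (Real.log ((K * (m + 1 + a + 1) / r ^ 2) ^ K) + ((m : ℝ) + K) * Real.sqrt r) / m ≤
      (K * (K * (4 + a) + 6 / η) + 1 + K) * r ^ (η / 2) := by
  have hr1 : r ≤ 1 := by linarith
  have hK' : (1 : ℝ) ≤ K := by exact_mod_cast hK
  set y : ℝ := r ^ (-(η / 2)) with hy
  have hy1 : 1 ≤ y := Real.one_le_rpow_of_pos_of_le_one_of_nonpos hr hr1 (by linarith)
  have hy0 : 0 < y := by linarith
  have hyy : r ^ (-η) = y * y := by
    rw [hy, ← Real.rpow_add hr]; ring_nf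
  have hyinv : r ^ (η / 2) = y⁻¹ := by
    rw [hy, ← Real.rpow_neg hr.le, neg_neg]
  have hm0 : (0 : ℝ) < m := lt_of_lt_of_le (Real.rpow_pos_of_pos hr _) hm1
  have hlogr : Real.log (1 / r) ≤ 2 / η * y := by
    have h1 := Real.log_le_rpow_div (x := 1 / r) (ε := η / 2) (by positivity) (by positivity)
    have h2 : (1 / r) ^ (η / 2) = y := by
      rw [hy, one_div, Real.inv_rpow hr.le, Real.rpow_neg hr.le]
    rw [h2] at h1
    calc Real.log (1 / r) ≤ y / (η / 2) := h1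
      _ = 2 / η * y := by field_simp
  have hlogE : Real.log ((K * (m + 1 + a + 1) / r ^ 2) ^ K) ≤ K * (K * (4 + a) + 6 / η) * y := by
    rw [Real.log_pow]
    have hpos : 0 < (K * ((m : ℝ) + 1 + a + 1) / r ^ 2) := by positivity
    have h1 : (K * ((m : ℝ) + 1 + a + 1) / r ^ 2) ≤ (K * (4 + a)) * (1 / r) ^ 3 := by
      have h2 : r ^ (-η) ≤ 1 / r := by
        calc r ^ (-η) ≤ r ^ (-1 : ℝ) := Real.rpow_le_rpow_of_exponent_ge hr hr1 (by linarith)
          _ = 1 / r := by rw [Real.rpow_neg_one, one_div]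
      have h3 : 1 ≤ 1 / r := by rw [le_div_iff₀ hr]; linarith
      have h4 : (m : ℝ) + 1 + a + 1 ≤ (4 + a) * (1 / r) := by nlinarith
      calc (K * ((m : ℝ) + 1 + a + 1) / r ^ 2) ≤ (K * ((4 + a) * (1 / r)) / r ^ 2) := by
            gcongr
        _ = (K * (4 + a)) * (1 / r) ^ 3 := by field_simp
    have h5 : Real.log (K * ((m : ℝ) + 1 + a + 1) / r ^ 2) ≤
        K * (4 + a) + 3 * Real.log (1 / r) := by
      calc Real.log (K * ((m : ℝ) + 1 + a + 1) / r ^ 2) ≤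
            Real.log ((K * (4 + a)) * (1 / r) ^ 3) := Real.log_le_log hpos h1
        _ = Real.log (K * (4 + a)) + 3 * Real.log (1 / r) := by
            rw [Real.log_mul (by positivity) (by positivity), Real.log_pow]; norm_num
        _ ≤ K * (4 + a) + 3 * Real.log (1 / r) := by
            have := Real.log_le_self (x := K * (4 + a)) (by positivity)
            linarith
    have h6 : Real.log (K * ((m : ℝ) + 1 + a + 1) / r ^ 2) ≤ (K * (4 + a) + 6 / η) * y := by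
      have h7 : (K : ℝ) * (4 + a) ≤ K * (4 + a) * y := by
        have : 0 ≤ (K : ℝ) * (4 + a) := by positivity
        nlinarith
      have h8 : 3 * Real.log (1 / r) ≤ 6 / η * y := by
        calc 3 * Real.log (1 / r) ≤ 3 * (2 / η * y) := by linarith
          _ = 6 / η * y := by ring
      nlinarith
    calc (K : ℝ) * Real.log (K * ((m : ℝ) + 1 + a + 1) / r ^ 2) ≤
          K * ((K * (4 + a) + 6 / η) * y) := by gcongr
      _ = K * (K * (4 + a) + 6 / η) * y := by ring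
  have hsq : Real.sqrt r ≤ y⁻¹ := by
    rw [← hyinv, Real.sqrt_eq_rpow]
    exact Real.rpow_le_rpow_of_exponent_ge hr hr1 (by linarith)
  have hm1' : 1 ≤ (m : ℝ) := by
    have : (1 : ℝ) ≤ y * y := by nlinarith
    linarith [hyy ▸ hm1]
  have h9 : ((m : ℝ) + K) * Real.sqrt r ≤ (1 + K) * y⁻¹ * m := by
    have h10 : (m : ℝ) + K ≤ (1 + K) * m := by nlinarith
    calc ((m : ℝ) + K) * Real.sqrt r ≤ ((1 + K) * m) * y⁻¹ := by gcongr
      _ = (1 + K) * y⁻¹ * m := by ring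
  have h11 : K * (K * (4 + a) + 6 / η) * y ≤ K * (K * (4 + a) + 6 / η) * y⁻¹ * m := by
    have h12 : y ≤ y⁻¹ * m := by
      rw [inv_mul_eq_div, le_div_iff₀ hy0, ← hyy]; exact hm1
    have h13 : 0 ≤ K * (K * (4 + a) + 6 / η) := by positivity
    calc K * (K * (4 + a) + 6 / η) * y ≤ K * (K * (4 + a) + 6 / η) * (y⁻¹ * m) := by gcongr
      _ = K * (K * (4 + a) + 6 / η) * y⁻¹ * m := by ring
  rw [hyinv, div_le_iff₀ hm0]
  calc Real.log ((K * (m + 1 + a + 1) / r ^ 2) ^ K) + ((m : ℝ) + K) * Real.sqrt r ≤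
        K * (K * (4 + a) + 6 / η) * y⁻¹ * m + (1 + K) * y⁻¹ * m := by linarith
    _ = _ := by ring

theorem one_step (n : ℕ) (hn : 1 ≤ n) {C c : ℝ} (hC : 0 < C) (hc : 0 < c) : ∃ b : ℝ, 0 < b ∧
    ∀ R a : ℝ, 1 ≤ R → 0 ≤ a → ∃ K : ℝ, 0 < K ∧
    ∀ (ν : Measure (Cn n)), ν univ ≤ 1 → ν {z | R < ‖z‖} = 0 → AffN n ν C c →
      ∀ g : Cn n → ℝ, PshS g → (∀ z, -1 ≤ g z) → (∀ z, g z ≤ Real.log (1 + ‖z‖ ^ 2) / 2 + a) →
        ∀ r : ℝ, 0 < r → r ≤ 1 / 4 →
          ∫⁻ z, ENNReal.ofReal (supB g r z - supB g (2 * r ^ 2) z) ∂ν ≤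
            ENNReal.ofReal (K * r ^ b) := by
  have hnC : (0 : ℝ) < n + C := by positivity
  set η : ℝ := min (c / (4 * (n + C))) 1 with hη
  have hη0 : 0 < η := lt_min (by positivity) one_pos
  have hη1 : η ≤ 1 := min_le_right _ _
  have hηc : η * (n + C) ≤ c / 4 := by
    have : η ≤ c / (4 * (n + C)) := min_le_left _ _
    calc η * (n + C) ≤ c / (4 * (n + C)) * (n + C) := by gcongr
      _ = c / 4 := by field_simp
  refine ⟨min (η / 2) (c / 4), lt_min (by positivity) (by positivity), ?_⟩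
  intro R a hR ha
  obtain ⟨K, hK, hA⟩ := approx n hn (R + 1) (by linarith)
  set K₂ : ℝ := K * (K * (4 + a) + 6 / η) + 1 + K with hK₂
  set M : ℝ := Real.log (1 + (R + 1) ^ 2) / 2 + a + 1 with hM
  set K₃ : ℝ := C * (2 + K) ^ ((n : ℝ) + C) with hK₃
  have hK₂0 : 0 < K₂ := by positivity
  have hlogpos : 0 ≤ Real.log (1 + (R + 1) ^ 2) := Real.log_nonneg (by nlinarith)
  have hM0 : 0 < M := by linarith
  have hK₃0 : 0 < K₃ := by positivity
  refine ⟨K₂ + M * K₃, by positivity, ?_⟩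
  intro ν hν1 hνR hN g hg hg1 hgu r hr hr4
  have hr1 : r ≤ 1 := by linarith
  have hx1 : 1 ≤ r ^ (-η) := Real.one_le_rpow_of_pos_of_le_one_of_nonpos hr hr1 (by linarith)
  set m : ℕ := ⌈r ^ (-η)⌉₊ with hm
  have hm1 : r ^ (-η) ≤ m := Nat.le_ceil _
  have hm2 : (m : ℝ) ≤ 2 * r ^ (-η) := by
    have := Nat.ceil_lt_add_one (a := r ^ (-η)) (by linarith)
    linarith
  have hm1' : 1 ≤ m := by
    have : (1 : ℝ) ≤ m := hx1.trans hm1
    exact_mod_cast this
  obtain ⟨N, P, hNle, hPj, hPz⟩ := hA g 1 a (r ^ 2) m hg zero_le_one ha (by positivity)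
    (by nlinarith) hm1' hg1 hgu
  set E : ℝ := (K * (m + 1 + a + 1) / r ^ 2) ^ K with hE
  have hK' : (1 : ℝ) ≤ K := by exact_mod_cast hK
  have hE0 : 0 < E := by positivity
  set B : Set (Cn n) := ⋃ j, affZ (P j) (Real.sqrt r) with hB
  have hgood : ∀ z : Cn n, ‖z‖ ≤ R → z ∉ B →
      supB g r z - supB g (2 * r ^ 2) z ≤ K₂ * r ^ (η / 2) := by
    intro z hz hzB
    have h1 := OneStep_aux1 (R := R) hg hr hr4 hm1' (fun j => (hPj j).2) hE0 hPz hz
      (fun j hj => hzB (mem_iUnion.mpr ⟨j, hj⟩))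
    exact h1.trans (OneStep_aux2 hη0 hη1 hK ha hr hr4 hm1 hm2)
  have hall : ∀ z : Cn n, ‖z‖ ≤ R → supB g r z - supB g (2 * r ^ 2) z ≤ M := by
    intro z hz
    obtain ⟨z₁, hz₁, hs⟩ := supB_attained hg.usc hr.le z
    have hz₁R : ‖z₁‖ ≤ R + 1 := by
      have : ‖z₁‖ ≤ ‖z₁ - z‖ + ‖z‖ := by
        simpa using norm_add_le (z₁ - z) z
      linarith
    have h2 : g z ≤ supB g (2 * r ^ 2) z := le_supB hg.usc (by simp; positivity)
    have h3 := hgu z₁
    have h4 : Real.log (1 + ‖z₁‖ ^ 2) ≤ Real.log (1 + (R + 1) ^ 2) := by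
      apply Real.log_le_log (by positivity)
      gcongr
    rw [hs, hM]
    linarith [hg1 z]
  have hνB : ν B ≤ ENNReal.ofReal (K₃ * r ^ (c / 4)) := by
    have hsq0 : 0 < Real.sqrt r := Real.sqrt_pos.mpr hr
    have hsq1 : Real.sqrt r < 1 := by
      rw [Real.sqrt_lt' one_pos]; linarith
    have hD : 1 ≤ m + K := by omega
    have h1 : ∀ j, ν (affZ (P j) (Real.sqrt r)) ≤
        ENNReal.ofReal (C * ((m + K : ℕ) : ℝ) ^ C * (Real.sqrt r) ^ c) := fun j =>
      hN (m + K) (P j) hD (hPj j).1 (hPj j).2 _ hsq0 hsq1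
    have h2 : ν B ≤ ∑ j : Fin N, ENNReal.ofReal (C * ((m + K : ℕ) : ℝ) ^ C * (Real.sqrt r) ^ c) :=
      (measure_iUnion_fintype_le ν _).trans (Finset.sum_le_sum fun j _ => h1 j)
    refine h2.trans ?_
    rw [Finset.sum_const, Finset.card_univ, Fintype.card_fin, nsmul_eq_mul,
      ← ENNReal.ofReal_natCast, ← ENNReal.ofReal_mul (by positivity)]
    apply ENNReal.ofReal_le_ofReal
    have hMK : ((m + K : ℕ) : ℝ) ≤ (2 + K) * r ^ (-η) := by
      push_cast; nlinarith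
    have hsqr : (Real.sqrt r) ^ c = r ^ (c / 2) := by
      rw [Real.sqrt_eq_rpow, ← Real.rpow_mul hr.le]; ring_nf
    have hNr : (N : ℝ) ≤ ((m + K : ℕ) : ℝ) ^ (n : ℝ) := by
      rw [Real.rpow_natCast]; exact_mod_cast hNle
    have hDpos : (0 : ℝ) < ((m + K : ℕ) : ℝ) := by exact_mod_cast hD
    calc (N : ℝ) * (C * ((m + K : ℕ) : ℝ) ^ C * (Real.sqrt r) ^ c) ≤
          ((m + K : ℕ) : ℝ) ^ (n : ℝ) * (C * ((m + K : ℕ) : ℝ) ^ C * (Real.sqrt r) ^ c) := by
          gcongr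
      _ = C * ((m + K : ℕ) : ℝ) ^ ((n : ℝ) + C) * r ^ (c / 2) := by
          rw [Real.rpow_add hDpos, hsqr]; ring
      _ ≤ C * ((2 + K) * r ^ (-η)) ^ ((n : ℝ) + C) * r ^ (c / 2) := by
          gcongr
      _ = K₃ * (r ^ (-η * (n + C)) * r ^ (c / 2)) := by
          rw [Real.mul_rpow (by positivity) (by positivity), ← Real.rpow_mul hr.le, hK₃]; ring
      _ = K₃ * r ^ (-η * (n + C) + c / 2) := by rw [← Real.rpow_add hr]
      _ ≤ K₃ * r ^ (c / 4) := by
          have h5 : c / 4 ≤ -η * (n + C) + c / 2 := by linarith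
          exact mul_le_mul_of_nonneg_left (Real.rpow_le_rpow_of_exponent_ge hr hr1 h5) hK₃0.le
  have hae : ∀ᵐ z ∂ν, ENNReal.ofReal (supB g r z - supB g (2 * r ^ 2) z) ≤
      ENNReal.ofReal (K₂ * r ^ (η / 2)) + B.indicator (fun _ => ENNReal.ofReal M) z := by
    have h0 : ∀ᵐ z ∂ν, z ∉ {z : Cn n | R < ‖z‖} := measure_eq_zero_iff_ae_notMem.mp hνR
    filter_upwards [h0] with z hz
    have hz' : ‖z‖ ≤ R := not_lt.mp hz
    by_cases hzB : z ∈ B
    · rw [indicator_of_mem hzB]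
      exact (ENNReal.ofReal_le_ofReal (hall z hz')).trans le_add_self
    · exact (ENNReal.ofReal_le_ofReal (hgood z hz' hzB)).trans le_self_add
  calc ∫⁻ z, ENNReal.ofReal (supB g r z - supB g (2 * r ^ 2) z) ∂ν ≤
        ∫⁻ z, (ENNReal.ofReal (K₂ * r ^ (η / 2)) +
          B.indicator (fun _ => ENNReal.ofReal M) z) ∂ν := lintegral_mono_ae hae
    _ = ENNReal.ofReal (K₂ * r ^ (η / 2)) * ν univ +
          ∫⁻ z, B.indicator (fun _ => ENNReal.ofReal M) z ∂ν := by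
        rw [lintegral_add_left measurable_const, lintegral_const]
    _ ≤ ENNReal.ofReal (K₂ * r ^ (η / 2)) * 1 +
          ENNReal.ofReal M * ENNReal.ofReal (K₃ * r ^ (c / 4)) := by
        gcongr
        exact (lintegral_indicator_const_le B _).trans (by gcongr)
    _ = ENNReal.ofReal (K₂ * r ^ (η / 2) + M * (K₃ * r ^ (c / 4))) := by
        rw [mul_one, ← ENNReal.ofReal_mul hM0.le, ← ENNReal.ofReal_add (by positivity)
          (by positivity)]
    _ ≤ ENNReal.ofReal ((K₂ + M * K₃) * r ^ (min (η / 2) (c / 4))) := by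
        apply ENNReal.ofReal_le_ofReal
        have h1 : r ^ (η / 2) ≤ r ^ (min (η / 2) (c / 4)) :=
          Real.rpow_le_rpow_of_exponent_ge hr hr1 (min_le_left _ _)
        have h2 : r ^ (c / 4) ≤ r ^ (min (η / 2) (c / 4)) :=
          Real.rpow_le_rpow_of_exponent_ge hr hr1 (min_le_right _ _)
        calc K₂ * r ^ (η / 2) + M * (K₃ * r ^ (c / 4)) ≤
              K₂ * r ^ (min (η / 2) (c / 4)) + M * (K₃ * r ^ (min (η / 2) (c / 4))) := by
              gcongr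
          _ = _ := by ring

end HMA

end S_MA_OneStep

section S_MA_LIter

/-! # Module LITER: iteration of the one step estimate for bounded functions -/

open MeasureTheory Metric Set
open scoped ENNReal Topology ContDiff

namespace HMA

/-- the scales `r`, `2 r ^ 2`, ... -/
noncomputable def LIter_seq (r : ℝ) : ℕ → ℝ
  | 0 => r
  | j + 1 => 2 * (LIter_seq r j) ^ 2

theorem LIter_seq_succ (r : ℝ) (j : ℕ) : LIter_seq r (j + 1) = 2 * (LIter_seq r j) ^ 2 := rfl

theorem LIter_seq_prop {r : ℝ} (h0 : 0 < r) (h1 : r ≤ 1 / 4) (j : ℕ) :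
    0 < LIter_seq r j ∧ LIter_seq r j ≤ 1 / 4 ∧ LIter_seq r j ≤ r * (1 / 2) ^ j ∧
      LIter_seq r (j + 1) ≤ LIter_seq r j := by
  induction j with
  | zero =>
    refine ⟨h0, h1, by simp [LIter_seq], ?_⟩
    rw [LIter_seq_succ]
    show 2 * r ^ 2 ≤ r
    nlinarith
  | succ j ih =>
    obtain ⟨h2, h3, h4, h5⟩ := ih
    have h6 : LIter_seq r (j + 1) ≤ LIter_seq r j / 2 := by
      rw [LIter_seq_succ]; nlinarith
    have h7 : 0 < LIter_seq r (j + 1) := by
      rw [LIter_seq_succ]; positivity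
    refine ⟨h7, by linarith, ?_, ?_⟩
    · rw [pow_succ]; linarith
    · rw [LIter_seq_succ r (j + 1)]
      nlinarith

theorem LIter_seq_tendsto {r : ℝ} (h0 : 0 < r) (h1 : r ≤ 1 / 4) :
    Filter.Tendsto (LIter_seq r) Filter.atTop (𝓝[>] 0) := by
  refine tendsto_nhdsWithin_iff.2 ⟨?_, Filter.Eventually.of_forall fun j =>
    (LIter_seq_prop h0 h1 j).1⟩
  have h2 : Filter.Tendsto (fun j : ℕ => r * (1 / 2 : ℝ) ^ j) Filter.atTop (𝓝 (r * 0)) :=
    (tendsto_pow_atTop_nhds_zero_of_lt_one (by norm_num) (by norm_num)).const_mul r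
  rw [mul_zero] at h2
  exact squeeze_zero (fun j => (LIter_seq_prop h0 h1 j).1.le)
    (fun j => (LIter_seq_prop h0 h1 j).2.2.1) h2

theorem LIter_sum {r : ℝ} (h0 : 0 < r) (h1 : r ≤ 1 / 4) {β K : ℝ} (hβ : 0 < β) (hK : 0 ≤ K) :
    ∑' j, ENNReal.ofReal (K * LIter_seq r j ^ β) ≤
      ENNReal.ofReal (K * (1 - (1 / 2) ^ β)⁻¹ * r ^ β) := by
  have hq0 : (0 : ℝ) ≤ (1 / 2) ^ β := by positivity
  have hq1 : (1 / 2 : ℝ) ^ β < 1 := Real.rpow_lt_one (by norm_num) (by norm_num) hβ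
  have h2 : ∀ j, ENNReal.ofReal (K * LIter_seq r j ^ β) ≤
      ENNReal.ofReal (K * r ^ β * ((1 / 2) ^ β) ^ j) := by
    intro j
    refine ENNReal.ofReal_le_ofReal ?_
    rw [mul_assoc]
    refine mul_le_mul_of_nonneg_left ?_ hK
    obtain ⟨h3, -, h4, -⟩ := LIter_seq_prop h0 h1 j
    refine (Real.rpow_le_rpow h3.le h4 hβ.le).trans (le_of_eq ?_)
    rw [Real.mul_rpow h0.le (by positivity), ← Real.rpow_natCast, ← Real.rpow_natCast,
      ← Real.rpow_mul (by norm_num), ← Real.rpow_mul (by norm_num), mul_comm β]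
  refine (ENNReal.tsum_le_tsum h2).trans (le_of_eq ?_)
  rw [← ENNReal.ofReal_tsum_of_nonneg (fun j => by positivity)
    ((summable_geometric_of_lt_one hq0 hq1).mul_left _), tsum_mul_left,
    tsum_geometric_of_lt_one hq0 hq1]
  congr 1
  ring

theorem LIter_supB_mono {n : ℕ} {f : Cn n → ℝ} (hf : UpperSemicontinuous f) {r r' : ℝ} (h0 : 0 ≤ r)
    (h : r ≤ r') (z : Cn n) : supB f r z ≤ supB f r' z := by
  obtain ⟨z', h1, h2⟩ := supB_attained hf h0 z
  rw [h2]
  exact le_supB hf (h1.trans h)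

theorem loc_iter (n : ℕ) (hn : 1 ≤ n) {C c : ℝ} (hC : 0 < C) (hc : 0 < c) : ∃ b : ℝ, 0 < b ∧
    ∀ R a : ℝ, 1 ≤ R → 0 ≤ a → ∃ K : ℝ, 0 < K ∧
    ∀ (ν : Measure (Cn n)), ν univ ≤ 1 → ν {z | R < ‖z‖} = 0 → AffN n ν C c →
      ∀ g : Cn n → ℝ, PshS g → (∀ z, -1 ≤ g z) → (∀ z, g z ≤ Real.log (1 + ‖z‖ ^ 2) / 2 + a) →
        ∀ r : ℝ, 0 < r → r ≤ 1 / 4 →
          ∫⁻ z, ENNReal.ofReal (supB g r z - g z) ∂ν ≤ ENNReal.ofReal (K * r ^ b) := by
  obtain ⟨b, hb, H⟩ := one_step n hn hC hc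
  have hq1 : (1 / 2 : ℝ) ^ b < 1 := Real.rpow_lt_one (by norm_num) (by norm_num) hb
  have hq2 : 0 < (1 - (1 / 2 : ℝ) ^ b)⁻¹ := inv_pos.2 (by linarith)
  refine ⟨b, hb, fun R a hR ha => ?_⟩
  obtain ⟨K, hK, H⟩ := H R a hR ha
  refine ⟨K * (1 - (1 / 2) ^ b)⁻¹, by positivity, fun ν hν1 hν2 hν3 g hg hg1 hg2 r hr0 hr1 => ?_⟩
  have hmeas : ∀ ρ : ℝ, 0 ≤ ρ → Measurable (supB g ρ) := fun ρ hρ =>
    (supB_usc hg.usc hρ).measurable
  -- pointwise
  have hpt : ∀ z, ENNReal.ofReal (supB g r z - g z) ≤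
      ∑' j, ENNReal.ofReal (supB g (LIter_seq r j) z - supB g (2 * (LIter_seq r j) ^ 2) z) := by
    intro z
    have h1 : Filter.Tendsto (fun N => ENNReal.ofReal (supB g r z - supB g (LIter_seq r N) z))
        Filter.atTop (𝓝 (ENNReal.ofReal (supB g r z - g z))) := by
      refine ENNReal.tendsto_ofReal ?_
      exact ((supB_tendsto hg.usc z).comp (LIter_seq_tendsto hr0 hr1)).const_sub _
    refine le_of_tendsto' h1 fun N => ?_
    have h2 : supB g r z - supB g (LIter_seq r N) z =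
        ∑ j ∈ Finset.range N, (supB g (LIter_seq r j) z - supB g (LIter_seq r (j + 1)) z) :=
      (Finset.sum_range_sub' (fun j => supB g (LIter_seq r j) z) N).symm
    rw [h2, ENNReal.ofReal_sum_of_nonneg]
    · exact ENNReal.sum_le_tsum _
    · intro j _
      have h3 := LIter_seq_prop hr0 hr1 j
      have h4 := LIter_seq_prop hr0 hr1 (j + 1)
      exact sub_nonneg.2 (LIter_supB_mono hg.usc h4.1.le h3.2.2.2 z)
  refine (lintegral_mono hpt).trans ?_
  rw [lintegral_tsum]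
  · refine (ENNReal.tsum_le_tsum fun j => ?_).trans (LIter_sum hr0 hr1 hb hK.le)
    obtain ⟨h3, h4, -, -⟩ := LIter_seq_prop hr0 hr1 j
    exact H ν hν1 hν2 hν3 g hg hg1 hg2 _ h3 h4
  · intro j
    obtain ⟨h3, h4, -, -⟩ := LIter_seq_prop hr0 hr1 j
    exact (((hmeas _ h3.le).sub (hmeas _ (by positivity))).ennreal_ofReal).aemeasurable

end HMA

end S_MA_LIter

section S_MA_LCmp

/-! # Module LCMP: Hölder estimate for bounded psh functions -/

open MeasureTheory Metric Set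
open scoped ENNReal Topology ContDiff

namespace HMA

theorem LCmp_vol {n : ℕ} (a : Cn n) {r : ℝ} (hr : 0 < r) :
    volume.real (ball a r) = r ^ (2 * n) * volume.real (ball (0 : Cn n) 1) := by
  have h1 : (volume : Measure (Cn n)) (ball a r) =
      ENNReal.ofReal (r ^ Module.finrank ℝ (Cn n)) * volume (ball (0 : Cn n) 1) :=
    Measure.addHaar_ball_of_pos _ a hr
  have h2 : Module.finrank ℝ (Cn n) = 2 * n := by
    rw [finrank_real_of_complex, finrank_euclideanSpace_fin]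
  unfold Measure.real
  rw [h1, h2, ENNReal.toReal_mul, ENNReal.toReal_ofReal (by positivity)]

theorem LCmp_vol_pos (n : ℕ) : 0 < volume.real (ball (0 : Cn n) 1) :=
  ENNReal.toReal_pos (isOpen_ball.measure_pos volume ⟨0, mem_ball_self one_pos⟩).ne'
    measure_ball_lt_top.ne

/-- bounded measurable functions for measures on the unit ball -/
theorem LCmp_int {n : ℕ} {ν : Measure (Cn n)} (hν : ν univ ≤ 1) (hν0 : ν {z | 1 < ‖z‖} = 0)
    {g : Cn n → ℝ} (hg : AEStronglyMeasurable g ν) {M : ℝ} (hM : ∀ z, ‖z‖ ≤ 1 → |g z| ≤ M) :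
    Integrable g ν := by
  have : IsFiniteMeasure ν := ⟨lt_of_le_of_lt hν ENNReal.one_lt_top⟩
  refine Integrable.of_bound hg M ?_
  have h1 : ∀ᵐ z ∂ν, ¬ (1 < ‖z‖) := by
    rw [ae_iff]
    simpa using hν0
  filter_upwards [h1] with z hz
  exact hM z (not_lt.1 hz)

theorem LCmp_ae {n : ℕ} {ν : Measure (Cn n)} (hν0 : ν {z | 1 < ‖z‖} = 0) :
    ∀ᵐ z ∂ν, ‖z‖ ≤ 1 := by
  rw [ae_iff]
  simpa using hν0

/-- the estimate at scale `r` -/
theorem LCmp_scale {n : ℕ} {ν : Measure (Cn n)} (hν : ν univ ≤ 1)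
    (hν0 : ν {z | 1 < ‖z‖} = 0) {g h : Cn n → ℝ} (hg : PshS g) (hh : PshS h)
    (hg1 : ∀ z, -1 ≤ g z) (hh1 : ∀ z, -1 ≤ h z)
    (hg2 : ∀ z, g z ≤ Real.log (1 + ‖z‖ ^ 2) / 2) (hh2 : ∀ z, h z ≤ Real.log (1 + ‖z‖ ^ 2) / 2)
    {r B : ℝ} (hr : 0 < r) (hr1 : r ≤ 1 / 16) (hB : 0 ≤ B)
    (hsup : ∫⁻ z, ENNReal.ofReal (supB h r z - h z) ∂ν ≤ ENNReal.ofReal B) :
    (∫ z, g z ∂ν) - ∫ z, h z ∂ν ≤ B + (∫ x in ball (0 : Cn n) (3 / 2), |g x - h x|) /
      (r ^ (2 * n) * volume.real (ball (0 : Cn n) 1)) := by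
  have hfin : IsFiniteMeasure ν := ⟨lt_of_le_of_lt hν ENNReal.one_lt_top⟩
  have hνr : ν.real univ ≤ 1 := by
    unfold Measure.real
    exact ENNReal.toReal_le_of_le_ofReal zero_le_one (by simpa using hν)
  set δ := ∫ x in ball (0 : Cn n) (3 / 2), |g x - h x| with hδ
  have hδ0 : 0 ≤ δ := integral_nonneg fun _ => abs_nonneg _
  set V := r ^ (2 * n) * volume.real (ball (0 : Cn n) 1) with hV
  have hV0 : 0 < V := mul_pos (by positivity) (LCmp_vol_pos n)
  -- bounds on the unit ball and measurability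
  have hlog : ∀ z : Cn n, ‖z‖ ≤ 2 → Real.log (1 + ‖z‖ ^ 2) / 2 ≤ 1 := by
    intro z hz
    have h1 : Real.log (1 + ‖z‖ ^ 2) ≤ Real.log 5 := by
      apply Real.log_le_log (by positivity)
      nlinarith [norm_nonneg z]
    have h2 : Real.log 5 ≤ 2 := by
      rw [Real.log_le_iff_le_exp (by norm_num)]
      have h3 : (2.7 : ℝ) < Real.exp 1 := lt_trans (by norm_num) Real.exp_one_gt_d9
      have h4 : Real.exp 2 = Real.exp 1 * Real.exp 1 := by
        rw [← Real.exp_add]; norm_num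
      rw [h4]
      nlinarith
    linarith
  have hgint : Integrable g ν := LCmp_int hν hν0 hg.usc.measurable.aestronglyMeasurable (M := 1)
    fun z hz => abs_le.2 ⟨hg1 z, le_trans (hg2 z) (hlog z (by linarith))⟩
  have hhint : Integrable h ν := LCmp_int hν hν0 hh.usc.measurable.aestronglyMeasurable (M := 1)
    fun z hz => abs_le.2 ⟨hh1 z, le_trans (hh2 z) (hlog z (by linarith))⟩
  have hsint : Integrable (supB h r) ν := by
    refine LCmp_int hν hν0 (supB_usc hh.usc hr.le).measurable.aestronglyMeasurable (M := 1) ?_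
    intro z hz
    obtain ⟨z', hz', heq⟩ := supB_attained hh.usc hr.le z
    rw [heq]
    refine abs_le.2 ⟨hh1 z', le_trans (hh2 z') (hlog z' ?_)⟩
    have h1 := norm_le_norm_add_norm_sub' z' z
    linarith
  have hsup' : ∫ z, (supB h r z - h z) ∂ν ≤ B := by
    rw [integral_eq_lintegral_of_nonneg_ae]
    · exact ENNReal.toReal_le_of_le_ofReal hB hsup
    · refine Filter.Eventually.of_forall fun z => ?_
      have : h z ≤ supB h r z := le_supB hh.usc (by simpa using hr.le)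
      show (0 : ℝ) ≤ supB h r z - h z
      linarith
    · exact (hsint.sub hhint).aestronglyMeasurable
  -- the pointwise estimate
  have hgh : IntegrableOn (fun x => |g x - h x|) (ball (0 : Cn n) (3 / 2)) volume := by
    have h1 := usc_locInt hg.usc hg.bdd
    have h2 := usc_locInt hh.usc hh.bdd
    have h3 := ((h1.sub h2).integrableOn_isCompact (isCompact_closedBall (0 : Cn n) (3 / 2)))
    exact (h3.mono_set ball_subset_closedBall).norm
  have hpt : ∀ z, ‖z‖ ≤ 1 → g z ≤ supB h r z + δ / V := by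
    intro z hz
    obtain ⟨h1, h2⟩ := submean_ball hg.usc hg.bdd hr
      (fun a b hb => hg.submean a b (le_trans hb hr1)) z
    rw [LCmp_vol z hr, ← hV] at h2
    have hsubset : ball z r ⊆ ball (0 : Cn n) (3 / 2) := by
      intro x hx
      rw [mem_ball_zero_iff]
      rw [mem_ball, dist_eq_norm] at hx
      have := norm_le_norm_add_norm_sub' x z
      linarith
    have h3 : ∫ x in ball z r, g x ≤ ∫ x in ball z r, (supB h r z + |g x - h x|) := by
      refine setIntegral_mono_on h1 ?_ measurableSet_ball fun x hx => ?_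
      · exact (integrableOn_const (by exact measure_ball_lt_top.ne)).add (hgh.mono_set hsubset)
      · have h4 : h x ≤ supB h r z := le_supB hh.usc (by
          rw [mem_ball, dist_eq_norm] at hx
          exact hx.le)
        have h5 := le_abs_self (g x - h x)
        linarith
    have h4 : ∫ x in ball z r, (supB h r z + |g x - h x|) ≤ V * supB h r z + δ := by
      have hci : Integrable (fun _ : Cn n => supB h r z) (volume.restrict (ball z r)) :=
        integrableOn_const measure_ball_lt_top.ne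
      have hgi : Integrable (fun x => |g x - h x|) (volume.restrict (ball z r)) :=
        hgh.mono_set hsubset
      rw [integral_add hci hgi, setIntegral_const, LCmp_vol z hr, ← hV, smul_eq_mul]
      have h5 : ∫ x in ball z r, |g x - h x| ≤ δ :=
        setIntegral_mono_set hgh (Filter.Eventually.of_forall fun _ => abs_nonneg _)
          hsubset.eventuallyLE
      linarith
    have h5 : g z * V ≤ V * supB h r z + δ := by linarith
    have h6 : g z ≤ (V * supB h r z + δ) / V := by rwa [le_div_iff₀ hV0]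
    rw [add_div, mul_div_cancel_left₀ _ hV0.ne'] at h6
    exact h6
  have h1 : (∫ z, g z ∂ν) ≤ ∫ z, (supB h r z + δ / V) ∂ν := by
    refine integral_mono_ae hgint (hsint.add (integrable_const _)) ?_
    filter_upwards [LCmp_ae hν0] with z hz
    exact hpt z hz
  rw [integral_add hsint (integrable_const _), integral_const, smul_eq_mul] at h1
  rw [integral_sub hsint hhint] at hsup'
  have h2 : ν.real univ * (δ / V) ≤ δ / V := by
    have : 0 ≤ δ / V := div_nonneg hδ0 hV0.le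
    nlinarith
  linarith

theorem loc_comp (n : ℕ) (hn : 1 ≤ n) {C c : ℝ} (hC : 0 < C) (hc : 0 < c) : ∃ α : ℝ, 0 < α ∧
    α ≤ 1 ∧ ∃ K : ℝ, 0 < K ∧
    ∀ (ν : Measure (Cn n)), ν univ ≤ 1 → ν {z | 1 < ‖z‖} = 0 → AffN n ν C c →
      ∀ F G : Cn n → ℝ, PshOn (ball 0 2) F → PshOn (ball 0 2) G → (∀ x ∈ ball 0 2, F x ≤ 1) →
        (∀ x ∈ ball 0 2, G x ≤ 1) → ∀ t : ℝ, 1 ≤ t →
        (∫ z, Real.log (max (F z) (Real.exp (-t))) ∂ν) -
            (∫ z, Real.log (max (G z) (Real.exp (-t))) ∂ν) ≤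
          K * t * (∫ x in ball (0 : Cn n) (3 / 2), |Real.log (max (F x) (Real.exp (-t))) -
            Real.log (max (G x) (Real.exp (-t)))|) ^ α := by
  obtain ⟨b, hb, H⟩ := loc_iter n hn hC hc
  obtain ⟨K', hK', H'⟩ := H 1 0 le_rfl le_rfl
  set w := volume.real (ball (0 : Cn n) 1) with hw
  have hw0 : 0 < w := LCmp_vol_pos n
  have hnb : (0 : ℝ) < 2 * n + b := by positivity
  have h16 : (0 : ℝ) < 16 ^ b := by positivity
  refine ⟨b / (2 * n + b), by positivity, ?_, 16 * K' + 1 / w + 16 ^ b, by positivity, ?_⟩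
  · rw [div_le_one hnb]
    have : (0 : ℝ) ≤ n := Nat.cast_nonneg n
    linarith
  intro ν hν hν0 hAff F G hF hG hF1 hG1 t ht
  have hfin : IsFiniteMeasure ν := ⟨lt_of_le_of_lt hν ENNReal.one_lt_top⟩
  have hνr : ν.real univ ≤ 1 := by
    unfold Measure.real
    exact ENNReal.toReal_le_of_le_ofReal zero_le_one (by simpa using hν)
  obtain ⟨g, hg, hg1, hg2, hgF⟩ := psh_ext hF hF1 ht
  obtain ⟨h, hh, hh1, hh2, hhG⟩ := psh_ext hG hG1 ht
  have ht0 : (0 : ℝ) < 16 * t := by linarith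
  set δ := ∫ x in ball (0 : Cn n) (3 / 2), |Real.log (max (F x) (Real.exp (-t))) -
    Real.log (max (G x) (Real.exp (-t)))| with hδ
  have hδ0 : 0 ≤ δ := integral_nonneg fun _ => abs_nonneg _
  have hδeq : δ = 16 * t * ∫ x in ball (0 : Cn n) (3 / 2), |g x - h x| := by
    rw [hδ, ← integral_const_mul]
    refine setIntegral_congr_fun measurableSet_ball fun x hx => ?_
    rw [mem_ball_zero_iff] at hx
    show |Real.log (max (F x) (Real.exp (-t))) - Real.log (max (G x) (Real.exp (-t)))| =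
      16 * t * |g x - h x|
    rw [← hgF x hx, ← hhG x hx, ← mul_sub, abs_mul, abs_of_pos ht0]
  have hFint : ∫ z, Real.log (max (F z) (Real.exp (-t))) ∂ν = 16 * t * ∫ z, g z ∂ν := by
    rw [← integral_const_mul]
    refine integral_congr_ae ?_
    filter_upwards [LCmp_ae hν0] with z hz
    rw [hgF z (by linarith)]
  have hGint : ∫ z, Real.log (max (G z) (Real.exp (-t))) ∂ν = 16 * t * ∫ z, h z ∂ν := by
    rw [← integral_const_mul]
    refine integral_congr_ae ?_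
    filter_upwards [LCmp_ae hν0] with z hz
    rw [hhG z (by linarith)]
  rw [hFint, hGint, ← mul_sub]
  -- the estimate for all scales
  have hscale : ∀ r : ℝ, 0 < r → r ≤ 1 / 16 →
      16 * t * ((∫ z, g z ∂ν) - ∫ z, h z ∂ν) ≤ 16 * t * (K' * r ^ b) + δ / (r ^ (2 * n) * w) := by
    intro r hr hr1
    have h1 := LCmp_scale hν hν0 hg hh hg1 hh1 hg2 hh2 hr hr1
      (B := K' * r ^ b) (by positivity)
      (H' ν hν hν0 hAff h hh hh1 (fun z => by simpa using hh2 z) r hr (by linarith))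
    have h2 := mul_le_mul_of_nonneg_left h1 ht0.le
    rw [mul_add, ← mul_div_assoc, ← hδeq] at h2
    exact h2
  have hα : (0 : ℝ) < b / (2 * n + b) := by positivity
  rcases eq_or_lt_of_le hδ0 with h0 | hpos
  · -- `δ = 0`
    rw [← h0, Real.zero_rpow hα.ne', mul_zero]
    have hlim : Filter.Tendsto (fun r : ℝ => 16 * t * (K' * r ^ b)) (𝓝[>] 0)
        (𝓝 (16 * t * (K' * 0))) := by
      refine ((Filter.Tendsto.const_mul K' ?_).const_mul (16 * t))
      have h1 : Filter.Tendsto (fun r : ℝ => r ^ b) (𝓝 0) (𝓝 ((0 : ℝ) ^ b)) :=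
        (Real.continuousAt_rpow_const 0 b (Or.inr hb.le)).tendsto
      rw [Real.zero_rpow hb.ne'] at h1
      exact h1.mono_left nhdsWithin_le_nhds
    rw [mul_zero, mul_zero] at hlim
    refine ge_of_tendsto hlim ?_
    have h2 : ∀ᶠ r : ℝ in 𝓝[>] 0, r ∈ Ioc (0 : ℝ) (1 / 16) := Ioc_mem_nhdsGT (by norm_num)
    filter_upwards [h2] with r hr
    have h3 := hscale r hr.1 hr.2
    rw [← h0, zero_div, add_zero] at h3
    exact h3
  · set r := δ ^ (1 / (2 * n + b)) with hr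
    have hr0 : 0 < r := by positivity
    have hrb : r ^ b = δ ^ (b / (2 * n + b)) := by
      rw [hr, ← Real.rpow_mul hpos.le]
      congr 1
      ring
    have hrn : δ / r ^ (2 * n) = δ ^ (b / (2 * n + b)) := by
      have h1 : r ^ (2 * n) = δ ^ (2 * n / (2 * n + b)) := by
        rw [hr, ← Real.rpow_natCast, ← Real.rpow_mul hpos.le]
        congr 1
        push_cast
        ring
      rw [h1]
      nth_rewrite 1 [← Real.rpow_one δ]
      rw [← Real.rpow_sub hpos]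
      congr 1
      field_simp
      ring
    have hδα : 0 < δ ^ (b / (2 * n + b)) := by positivity
    by_cases hr1 : r ≤ 1 / 16
    · have h1 := hscale r hr0 hr1
      rw [hrb, ← div_div, hrn] at h1
      refine le_trans h1 ?_
      have h2 : δ ^ (b / (2 * n + b)) / w ≤ t * (1 / w * δ ^ (b / (2 * n + b))) := by
        have h3 : 0 < 1 / w * δ ^ (b / (2 * n + b)) := by positivity
        have h4 : δ ^ (b / (2 * n + b)) / w = 1 / w * δ ^ (b / (2 * n + b)) := by ring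
        rw [h4]
        nlinarith
      have h3 : 0 ≤ t * (16 ^ b * δ ^ (b / (2 * n + b))) := by positivity
      calc 16 * t * (K' * δ ^ (b / (2 * n + b))) + δ ^ (b / (2 * n + b)) / w
          ≤ 16 * t * (K' * δ ^ (b / (2 * n + b))) + t * (1 / w * δ ^ (b / (2 * n + b))) +
            t * (16 ^ b * δ ^ (b / (2 * n + b))) := by linarith
        _ = _ := by ring
    · push Not at hr1
      have h1 : (1 / 16 : ℝ) ^ b ≤ δ ^ (b / (2 * n + b)) := by
        rw [← hrb]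
        exact Real.rpow_le_rpow (by norm_num) hr1.le hb.le
      have h2 : 1 ≤ 16 ^ b * δ ^ (b / (2 * n + b)) := by
        have h3 : (16 : ℝ) ^ b * (1 / 16 : ℝ) ^ b = 1 := by
          rw [← Real.mul_rpow (by norm_num) (by norm_num)]
          norm_num
        calc (1 : ℝ) = 16 ^ b * (1 / 16 : ℝ) ^ b := h3.symm
          _ ≤ _ := mul_le_mul_of_nonneg_left h1 h16.le
      -- the trivial bound
      have h3 : 16 * t * ((∫ z, g z ∂ν) - ∫ z, h z ∂ν) ≤ t := by
        rw [mul_sub, ← hFint, ← hGint]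
        have h4 : ∫ z, Real.log (max (F z) (Real.exp (-t))) ∂ν ≤ 0 := by
          refine integral_nonpos_of_ae ?_
          filter_upwards [LCmp_ae hν0] with z hz
          have h5 : max (F z) (Real.exp (-t)) ≤ 1 := max_le
            (hF1 z (by rw [mem_ball_zero_iff]; linarith))
            (Real.exp_le_one_iff.2 (by linarith))
          exact Real.log_nonpos (le_trans (Real.exp_pos _).le (le_max_right _ _)) h5
        have h5 : -t ≤ ∫ z, Real.log (max (G z) (Real.exp (-t))) ∂ν := by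
          have h6 : ∀ z, -t ≤ Real.log (max (G z) (Real.exp (-t))) := fun z => by
            rw [← Real.log_exp (-t)]
            exact Real.log_le_log (Real.exp_pos _) (le_trans (by rw [Real.log_exp]) (le_max_right _ _))
          have h7 : Integrable (fun z => Real.log (max (G z) (Real.exp (-t)))) ν := by
            refine Integrable.congr (f := fun z => 16 * t * h z) ?_ ?_
            · refine (LCmp_int hν hν0 hh.usc.measurable.aestronglyMeasurable (M := 1) fun z hz =>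
                abs_le.2 ⟨hh1 z, le_trans (hh2 z) ?_⟩).const_mul _
              have h8 : Real.log (1 + ‖z‖ ^ 2) ≤ Real.log 2 := by
                apply Real.log_le_log (by positivity)
                nlinarith [norm_nonneg z]
              have h9 := Real.log_two_lt_d9
              linarith
            · filter_upwards [LCmp_ae hν0] with z hz
              rw [hhG z (by linarith)]
          have h8 : ∫ z, (-t) ∂ν ≤ ∫ z, Real.log (max (G z) (Real.exp (-t))) ∂ν :=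
            integral_mono (integrable_const _) h7 h6
          rw [integral_const, smul_eq_mul] at h8
          have h9 : (0 : ℝ) ≤ ν.real univ := measureReal_nonneg
          nlinarith
        linarith
      refine le_trans h3 ?_
      have h4 : t * 1 ≤ t * (16 ^ b * δ ^ (b / (2 * n + b))) :=
        mul_le_mul_of_nonneg_left h2 (by linarith)
      have h5 : 0 ≤ t * (16 * K' + 1 / w) * δ ^ (b / (2 * n + b)) := by positivity
      calc t = t * 1 := (mul_one t).symm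
        _ ≤ t * (16 ^ b * δ ^ (b / (2 * n + b))) + t * (16 * K' + 1 / w) * δ ^ (b / (2 * n + b)) := by
          linarith
        _ = _ := by ring

end HMA

end S_MA_LCmp

section S_MA_LTail

/-! # Module LTAIL: exponential decay of the measure of the sublevel sets -/

open MeasureTheory Metric Set
open scoped ENNReal Topology ContDiff

namespace HMA

theorem LTail_pmax {n : ℕ} {Ω : Set (Cn n)} {F : Cn n → ℝ} (hF : PshOn Ω F) (c : ℝ) :
    PshOn Ω (fun x => max (F x) c) := by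
  refine ⟨fun x hx => le_max_of_le_left (hF.nonneg x hx), ?_, ?_⟩
  · intro x hx y hy
    obtain ⟨h1, h2⟩ := max_lt_iff.1 hy
    filter_upwards [hF.usc x hx y h1] with z hz
    exact max_lt hz h2
  · intro δ hδ a b h
    have h1 := hF.submean (max c δ) (lt_max_of_lt_right hδ) a b h
    simpa only [max_assoc] using h1

theorem LTail_open {n : ℕ} {F : Cn n → ℝ} (hF : PshOn (ball 0 2) F) (a : ℝ) :
    IsOpen {x : Cn n | x ∈ ball (0 : Cn n) 2 ∧ F x < a} := by
  rw [isOpen_iff_mem_nhds]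
  rintro x ⟨hx, hxa⟩
  have h1 := hF.usc x hx a hxa
  rw [isOpen_ball.nhdsWithin_eq hx] at h1
  filter_upwards [h1, isOpen_ball.mem_nhds hx] with z hz hz'
  exact ⟨hz', hz⟩

theorem LTail_meas {n : ℕ} {F : Cn n → ℝ} (hF : PshOn (ball 0 2) F) :
    Measurable ((ball (0 : Cn n) 2).indicator F) := by
  refine measurable_of_Iio fun a => ?_
  have h : (ball (0 : Cn n) 2).indicator F ⁻¹' Iio a =
      {x : Cn n | x ∈ ball (0 : Cn n) 2 ∧ F x < a} ∪
        ((ball (0 : Cn n) 2)ᶜ ∩ {_x : Cn n | (0 : ℝ) < a}) := by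
    ext x
    by_cases hx : x ∈ ball (0 : Cn n) 2
    · rw [mem_preimage, indicator_of_mem hx]
      constructor
      · intro h
        exact Or.inl ⟨hx, h⟩
      · rintro (h | h)
        · exact h.2
        · exact absurd hx h.1
    · rw [mem_preimage, indicator_of_notMem hx]
      constructor
      · intro h
        exact Or.inr ⟨hx, h⟩
      · rintro (h | h)
        · exact absurd h.1 hx
        · exact h.2
  rw [h]
  exact (LTail_open hF a).measurableSet.union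
    (measurableSet_ball.compl.inter (MeasurableSet.const _))

theorem LTail_aemeas {n : ℕ} {F : Cn n → ℝ} (hF : PshOn (ball 0 2) F) {ρ : Measure (Cn n)}
    (hρ : ρ (ball (0 : Cn n) 2)ᶜ = 0) : AEMeasurable F ρ := by
  refine ⟨_, LTail_meas hF, ?_⟩
  have h : ∀ᵐ x ∂ρ, x ∈ ball (0 : Cn n) 2 := by
    rw [ae_iff]
    exact hρ
  filter_upwards [h] with x hx
  rw [indicator_of_mem hx]

theorem LTail_int {n : ℕ} {F : Cn n → ℝ} (hF : PshOn (ball 0 2) F)
    (hF1 : ∀ x ∈ ball (0 : Cn n) 2, F x ≤ 1) {ρ : Measure (Cn n)} [IsFiniteMeasure ρ]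
    (hρ : ρ (ball (0 : Cn n) 2)ᶜ = 0) {t : ℝ} (ht : 0 ≤ t) :
    Integrable (fun z => Real.log (max (F z) (Real.exp (-t)))) ρ := by
  have h : ∀ᵐ x ∂ρ, x ∈ ball (0 : Cn n) 2 := by
    rw [ae_iff]
    exact hρ
  refine Integrable.of_bound ?_ t ?_
  · exact (Real.measurable_log.comp_aemeasurable
      ((LTail_aemeas hF hρ).max aemeasurable_const)).aestronglyMeasurable
  · filter_upwards [h] with x hx
    have h1 : Real.exp (-t) ≤ max (F x) (Real.exp (-t)) := le_max_right _ _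
    have h2 : max (F x) (Real.exp (-t)) ≤ 1 :=
      max_le (hF1 x hx) (Real.exp_le_one_iff.2 (by linarith))
    have h3 : -t ≤ Real.log (max (F x) (Real.exp (-t))) := by
      rw [Real.le_log_iff_exp_le (lt_of_lt_of_le (Real.exp_pos _) h1)]
      exact h1
    have h4 : Real.log (max (F x) (Real.exp (-t))) ≤ 0 :=
      Real.log_nonpos (le_trans (Real.exp_pos _).le h1) h2
    rw [Real.norm_eq_abs, abs_le]
    constructor <;> linarith

/-- the difference of two consecutive truncations -/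
theorem LTail_diff (y N : ℝ) :
    0 ≤ Real.log (max y (Real.exp (-N))) - Real.log (max y (Real.exp (-(N + 1)))) ∧
    Real.log (max y (Real.exp (-N))) - Real.log (max y (Real.exp (-(N + 1)))) ≤ 1 ∧
    (y < Real.exp (-(N + 1)) →
      Real.log (max y (Real.exp (-N))) - Real.log (max y (Real.exp (-(N + 1)))) = 1) ∧
    (Real.exp (-N) ≤ y →
      Real.log (max y (Real.exp (-N))) - Real.log (max y (Real.exp (-(N + 1)))) = 0) := by
  have h0 : Real.exp (-(N + 1)) ≤ Real.exp (-N) := Real.exp_le_exp.2 (by linarith)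
  have hp1 : 0 < Real.exp (-(N + 1)) := Real.exp_pos _
  have hp : 0 < Real.exp (-N) := Real.exp_pos _
  have hm : Real.log (max y (Real.exp (-(N + 1)))) ≤ Real.log (max y (Real.exp (-N))) :=
    Real.log_le_log (lt_max_of_lt_right hp1) (max_le_max le_rfl h0)
  refine ⟨by linarith, ?_, ?_, ?_⟩
  · have h1 : max y (Real.exp (-N)) ≤ Real.exp 1 * max y (Real.exp (-(N + 1))) := by
      refine max_le ?_ ?_
      · rcases le_total y 0 with hy | hy
        · exact hy.trans (by positivity)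
        · calc y ≤ Real.exp 1 * y := by
                have : 1 ≤ Real.exp 1 := Real.one_le_exp (by norm_num)
                nlinarith
            _ ≤ _ := by gcongr; exact le_max_left _ _
      · calc Real.exp (-N) = Real.exp 1 * Real.exp (-(N + 1)) := by
              rw [← Real.exp_add]; congr 1; ring
          _ ≤ _ := by gcongr; exact le_max_right _ _
    have h2 := Real.log_le_log (lt_max_of_lt_right hp) h1
    rw [Real.log_mul (Real.exp_pos _).ne' (lt_max_of_lt_right hp1).ne', Real.log_exp] at h2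
    linarith
  · intro hy
    rw [max_eq_right hy.le, max_eq_right (hy.le.trans h0), Real.log_exp, Real.log_exp]
    ring
  · intro hy
    rw [max_eq_left hy, max_eq_left (h0.trans hy), sub_self]

theorem loc_tail (n : ℕ) (hn : 1 ≤ n) {C c : ℝ} (hC : 0 < C) (hc : 0 < c) {A : ℝ} (hA : 0 ≤ A) :
    ∃ c' K : ℝ, 0 < c' ∧ 0 < K ∧
    ∀ (ν : Measure (Cn n)), ν univ ≤ 1 → ν {z | 1 < ‖z‖} = 0 → AffN n ν C c →
      ∀ F : Cn n → ℝ, PshOn (ball 0 2) F → (∀ x ∈ ball 0 2, F x ≤ 1) →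
        (∃ x, ‖x‖ ≤ 1 ∧ Real.exp (-A) ≤ F x) → ∀ t : ℝ, 0 < t →
          ν {z | F z < Real.exp (-t)} ≤ ENNReal.ofReal (K * Real.exp (-c' * t)) := by
  obtain ⟨α, hα, -, K₁, hK₁, hcomp⟩ := loc_comp n hn hC hc
  obtain ⟨c₂, K₂, hc₂, hK₂, hdec⟩ := psh_decay n hn hA
  have hc2α : 0 < c₂ * α := mul_pos hc₂ hα
  set K₃ : ℝ := K₁ * (K₂ ^ α * Real.exp (2 * (c₂ * α))) * (2 / (c₂ * α)) with hK₃
  have hK₃0 : 0 < K₃ := by positivity
  refine ⟨c₂ * α / 2, K₃ + Real.exp (c₂ * α), by positivity, by positivity, ?_⟩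
  intro ν hν hν0 hA' F hF hF1 hFA t ht
  have : IsFiniteMeasure ν := ⟨lt_of_le_of_lt hν ENNReal.one_lt_top⟩
  have hball : ν (ball (0 : Cn n) 2)ᶜ = 0 := by
    refine measure_mono_null ?_ hν0
    intro x hx
    simp only [mem_compl_iff, mem_ball_zero_iff, not_lt] at hx
    show 1 < ‖x‖
    linarith
  -- the discrete estimate
  have key : ∀ N : ℕ, 1 ≤ N → ν {z | F z < Real.exp (-((N : ℝ) + 1))} ≤
      ENNReal.ofReal (K₁ * ((N : ℝ) + 1) * (K₂ * Real.exp (-c₂ * N)) ^ α) := by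
    intro N hN
    have hN0 : (0 : ℝ) < N := by exact_mod_cast hN
    have h1 := hcomp ν hν hν0 hA' (fun x => max (F x) (Real.exp (-(N : ℝ)))) F (LTail_pmax hF _) hF
      (fun x hx => max_le (hF1 x hx) (Real.exp_le_one_iff.2 (by linarith))) hF1 ((N : ℝ) + 1)
      (by linarith)
    have e0 : Real.exp (-((N : ℝ) + 1)) ≤ Real.exp (-(N : ℝ)) := Real.exp_le_exp.2 (by linarith)
    have e1 : ∀ x, max (max (F x) (Real.exp (-(N : ℝ)))) (Real.exp (-((N : ℝ) + 1))) =
        max (F x) (Real.exp (-(N : ℝ))) := by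
      intro x
      rw [max_assoc, max_eq_left e0]
    simp only [e1] at h1
    have i1 : Integrable (fun z => Real.log (max (F z) (Real.exp (-(N : ℝ))))) ν :=
      LTail_int hF hF1 hball hN0.le
    have i2 : Integrable (fun z => Real.log (max (F z) (Real.exp (-((N : ℝ) + 1))))) ν :=
      LTail_int hF hF1 hball (by linarith)
    rw [← integral_sub i1 i2] at h1
    -- left hand side
    have h2 : ν {z | F z < Real.exp (-((N : ℝ) + 1))} ≤ ENNReal.ofReal
        (∫ z, (Real.log (max (F z) (Real.exp (-(N : ℝ)))) -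
          Real.log (max (F z) (Real.exp (-((N : ℝ) + 1))))) ∂ν) := by
      have i3 : Integrable (fun z => Real.log (max (F z) (Real.exp (-(N : ℝ)))) -
          Real.log (max (F z) (Real.exp (-((N : ℝ) + 1))))) ν := i1.sub i2
      rw [ofReal_integral_eq_lintegral_ofReal i3
        (Filter.Eventually.of_forall fun x => (LTail_diff (F x) N).1)]
      have h3 := mul_meas_ge_le_lintegral₀
        (i3.aestronglyMeasurable.aemeasurable.ennreal_ofReal) 1
      rw [one_mul] at h3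
      refine le_trans (measure_mono ?_) h3
      intro z hz
      have h4 := (LTail_diff (F z) N).2.2.1 hz
      show 1 ≤ ENNReal.ofReal (Real.log (max (F z) (Real.exp (-(N : ℝ)))) -
          Real.log (max (F z) (Real.exp (-((N : ℝ) + 1)))))
      rw [h4, ENNReal.ofReal_one]
    -- right hand side
    have h5 : ∫ x in ball (0 : Cn n) (3 / 2), |Real.log (max (F x) (Real.exp (-(N : ℝ)))) -
        Real.log (max (F x) (Real.exp (-((N : ℝ) + 1))))| ≤ K₂ * Real.exp (-c₂ * N) := by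
      set S : Set (Cn n) := {x : Cn n | x ∈ ball (0 : Cn n) 2 ∧ F x < Real.exp (-(N : ℝ))} with hS
      have hSm : MeasurableSet S := (LTail_open hF _).measurableSet
      have hsub : S ∩ ball (0 : Cn n) (3 / 2) ⊆
          {x : Cn n | ‖x‖ < 3 / 2 ∧ F x < Real.exp (-(N : ℝ))} := by
        rintro x ⟨⟨-, h6⟩, h7⟩
        exact ⟨mem_ball_zero_iff.1 h7, h6⟩
      have hv : volume (S ∩ ball (0 : Cn n) (3 / 2)) ≤
          ENNReal.ofReal (K₂ * Real.exp (-c₂ * N)) :=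
        (measure_mono hsub).trans (hdec F hF hF1 hFA N hN0)
      have hv2 : (volume.restrict (ball (0 : Cn n) (3 / 2))).real S ≤
          K₂ * Real.exp (-c₂ * N) := by
        rw [measureReal_restrict_apply hSm]
        exact ENNReal.toReal_le_of_le_ofReal (by positivity) hv
      refine le_trans ?_ hv2
      rw [← integral_indicator_one hSm]
      refine integral_mono_of_nonneg (Filter.Eventually.of_forall fun x => abs_nonneg _) ?_ ?_
      · refine (integrable_indicator_iff hSm).2 ?_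
        refine integrableOn_const ?_
        rw [Measure.restrict_apply hSm]
        exact (lt_of_le_of_lt hv ENNReal.ofReal_lt_top).ne
      · filter_upwards [ae_restrict_mem measurableSet_ball] with x hx
        have h8 := LTail_diff (F x) N
        rw [abs_of_nonneg h8.1]
        by_cases hxS : x ∈ S
        · rw [indicator_of_mem hxS]
          exact h8.2.1
        · rw [indicator_of_notMem hxS]
          refine (h8.2.2.2 ?_).le
          by_contra hlt
          refine hxS ⟨?_, not_le.1 hlt⟩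
          rw [mem_ball_zero_iff] at hx ⊢
          linarith
    have h9 : (0 : ℝ) ≤ ∫ x in ball (0 : Cn n) (3 / 2),
        |Real.log (max (F x) (Real.exp (-(N : ℝ)))) -
        Real.log (max (F x) (Real.exp (-((N : ℝ) + 1))))| := integral_nonneg fun x => abs_nonneg _
    refine h2.trans (ENNReal.ofReal_le_ofReal (h1.trans ?_))
    have h10 := Real.rpow_le_rpow h9 h5 hα.le
    exact mul_le_mul_of_nonneg_left h10 (by positivity)
  rcases le_total t 2 with h2 | h2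
  · refine (measure_mono (subset_univ _)).trans (hν.trans ?_)
    rw [← ENNReal.ofReal_one]
    refine ENNReal.ofReal_le_ofReal ?_
    have h3 : 1 ≤ Real.exp (c₂ * α) * Real.exp (-(c₂ * α / 2) * t) := by
      rw [← Real.exp_add]
      refine Real.one_le_exp ?_
      nlinarith
    have h4 : 0 ≤ K₃ * Real.exp (-(c₂ * α / 2) * t) := by positivity
    nlinarith
  · obtain ⟨N, hN1, hN2, hN3⟩ : ∃ N : ℕ, 1 ≤ N ∧ (N : ℝ) + 1 ≤ t ∧ t < (N : ℝ) + 2 := by
      have hf1 : ((⌊t⌋₊ : ℕ) : ℝ) ≤ t := Nat.floor_le ht.le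
      have hf2 : t < ((⌊t⌋₊ : ℕ) : ℝ) + 1 := Nat.lt_floor_add_one t
      have hf3 : 2 ≤ ⌊t⌋₊ := Nat.le_floor (by exact_mod_cast h2)
      refine ⟨⌊t⌋₊ - 1, by omega, ?_, ?_⟩
      · rw [Nat.cast_sub (by omega)]
        push_cast
        linarith
      · rw [Nat.cast_sub (by omega)]
        push_cast
        linarith
    have hsub : {z | F z < Real.exp (-t)} ⊆ {z | F z < Real.exp (-((N : ℝ) + 1))} := by
      intro z hz
      exact lt_of_lt_of_le hz (Real.exp_le_exp.2 (by linarith))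
    refine (measure_mono hsub).trans ((key N hN1).trans (ENNReal.ofReal_le_ofReal ?_))
    have h3 : (K₂ * Real.exp (-c₂ * N)) ^ α = K₂ ^ α * Real.exp (-(c₂ * α) * N) := by
      rw [Real.mul_rpow hK₂.le (Real.exp_pos _).le, ← Real.exp_mul]
      congr 2
      ring
    rw [h3]
    have h4 : Real.exp (-(c₂ * α) * N) ≤ Real.exp (2 * (c₂ * α)) * Real.exp (-(c₂ * α) * t) := by
      rw [← Real.exp_add]
      refine Real.exp_le_exp.2 ?_
      nlinarith
    have h5 : t * Real.exp (-(c₂ * α) * t) ≤ 2 / (c₂ * α) * Real.exp (-(c₂ * α / 2) * t) := by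
      have h6 : c₂ * α / 2 * t ≤ Real.exp (c₂ * α / 2 * t) := by
        have := Real.add_one_le_exp (c₂ * α / 2 * t)
        linarith
      have h7 : Real.exp (-(c₂ * α) * t) =
          Real.exp (-(c₂ * α / 2) * t) * Real.exp (-(c₂ * α / 2) * t) := by
        rw [← Real.exp_add]; congr 1; ring
      have h8 : Real.exp (c₂ * α / 2 * t) * Real.exp (-(c₂ * α / 2) * t) = 1 := by
        rw [← Real.exp_add, ← Real.exp_zero]; congr 1; ring
      rw [h7]
      have h9 : t * Real.exp (-(c₂ * α / 2) * t) ≤ 2 / (c₂ * α) := by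
        rw [le_div_iff₀ hc2α]
        have h10 : 0 < Real.exp (-(c₂ * α / 2) * t) := Real.exp_pos _
        nlinarith
      have h11 : 0 < Real.exp (-(c₂ * α / 2) * t) := Real.exp_pos _
      nlinarith
    calc K₁ * ((N : ℝ) + 1) * (K₂ ^ α * Real.exp (-(c₂ * α) * N))
        ≤ K₁ * t * (K₂ ^ α * (Real.exp (2 * (c₂ * α)) * Real.exp (-(c₂ * α) * t))) := by
          gcongr
      _ = K₁ * (K₂ ^ α * Real.exp (2 * (c₂ * α))) * (t * Real.exp (-(c₂ * α) * t)) := by ring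
      _ ≤ K₁ * (K₂ ^ α * Real.exp (2 * (c₂ * α))) *
          (2 / (c₂ * α) * Real.exp (-(c₂ * α / 2) * t)) := by gcongr
      _ = K₃ * Real.exp (-(c₂ * α / 2) * t) := by rw [hK₃]; ring
      _ ≤ (K₃ + Real.exp (c₂ * α)) * Real.exp (-(c₂ * α / 2) * t) := by
          gcongr
          linarith [Real.exp_pos (c₂ * α)]

end HMA

end S_MA_LTail

section S_MA_LFin

/-! # Module LFIN: the local Hölder estimate -/

open MeasureTheory Metric Set
open scoped ENNReal Topology ContDiff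

namespace HMA

/-- functions which are upper semicontinuous on an open set are measurable there -/
theorem LFin_meas {n : ℕ} {Ω : Set (Cn n)} (hΩ : IsOpen Ω) {F : Cn n → ℝ}
    (hF : UpperSemicontinuousOn F Ω) : Measurable (Ω.indicator F) := by
  classical
  refine measurable_of_Iio fun a => ?_
  obtain ⟨u, hu, hus⟩ := upperSemicontinuousOn_iff_preimage_Iio.1 hF a
  have hmeas : MeasurableSet (Ω ∩ F ⁻¹' Iio a) := by
    rw [hus]
    exact (hΩ.inter hu).measurableSet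
  by_cases ha : 0 < a
  · have h1 : (Ω.indicator F) ⁻¹' Iio a = (Ω ∩ F ⁻¹' Iio a) ∪ Ωᶜ := by
      ext x
      by_cases hx : x ∈ Ω
      · simp [hx]
      · simp [hx, ha]
    rw [h1]
    exact hmeas.union hΩ.measurableSet.compl
  · have h1 : (Ω.indicator F) ⁻¹' Iio a = Ω ∩ F ⁻¹' Iio a := by
      ext x
      by_cases hx : x ∈ Ω
      · simp [hx]
      · simp [hx]
        exact not_lt.1 ha
    rw [h1]
    exact hmeas

theorem LFin_ae {n : ℕ} {ν : Measure (Cn n)} (hν0 : ν {z | 1 < ‖z‖} = 0) :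
    ∀ᵐ z ∂ν, ‖z‖ ≤ 1 := by
  rw [ae_iff]
  simpa using hν0

/-- the layer cake estimate for functions with exponentially small sublevel sets -/
theorem LFin_tail {n : ℕ} {m : Measure (Cn n)} {F : Cn n → ℝ} (hFm : AEMeasurable F m)
    (_h0 : ∀ᵐ z ∂m, 0 ≤ F z) (h1 : ∀ᵐ z ∂m, F z ≤ 1) {c K : ℝ} (hc : 0 < c) (hK : 0 < K)
    (hdec : ∀ t : ℝ, 0 < t → m {z | F z < Real.exp (-t)} ≤ ENNReal.ofReal (K * Real.exp (-c * t))) :
    (∀ᵐ z ∂m, 0 < F z) ∧ Integrable (fun z => Real.log (F z)) m ∧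
    ∀ t : ℝ, 0 ≤ t → Integrable (fun z => Real.log (max (F z) (Real.exp (-t)))) m ∧
      |(∫ z, Real.log (F z) ∂m) - ∫ z, Real.log (max (F z) (Real.exp (-t))) ∂m| ≤
        K / c * Real.exp (-c * t) := by
  -- positivity
  have hpos : ∀ᵐ z ∂m, 0 < F z := by
    have hz : m {z | F z ≤ 0} = 0 := by
      have hb : ∀ t : ℝ, 0 < t → m {z | F z ≤ 0} ≤ ENNReal.ofReal (K * Real.exp (-c * t)) := by
        intro t ht
        refine le_trans (measure_mono fun z hz => ?_) (hdec t ht)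
        exact lt_of_le_of_lt hz (Real.exp_pos _)
      have hlim : Filter.Tendsto (fun t : ℝ => ENNReal.ofReal (K * Real.exp (-c * t))) Filter.atTop
          (𝓝 0) := by
        rw [← ENNReal.ofReal_zero]
        refine ENNReal.tendsto_ofReal ?_
        have h2 : Filter.Tendsto (fun t : ℝ => Real.exp (-c * t)) Filter.atTop (𝓝 0) := by
          refine Real.tendsto_exp_atBot.comp ?_
          exact Filter.tendsto_id.const_mul_atTop_of_neg (by linarith)
        simpa using h2.const_mul K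
      refine le_antisymm (ge_of_tendsto hlim ?_) bot_le
      filter_upwards [Filter.eventually_gt_atTop 0] with t ht
      exact hb t ht
    rw [ae_iff]
    simpa using hz
  have hlm : AEMeasurable (fun z => Real.log (F z)) m := Real.measurable_log.comp_aemeasurable hFm
  -- the tails
  have htail : ∀ t : ℝ, 0 ≤ t →
      ∫⁻ z, ENNReal.ofReal (max (-Real.log (F z) - t) 0) ∂m ≤
        ENNReal.ofReal (K / c * Real.exp (-c * t)) := by
    intro t ht
    have hgm : AEMeasurable (fun z => max (-Real.log (F z) - t) 0) m :=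
      (hlm.neg.sub_const t).max aemeasurable_const
    rw [lintegral_eq_lintegral_meas_lt m (f := fun z => max (-Real.log (F z) - t) 0)
      (Filter.Eventually.of_forall fun z => le_max_right _ _) hgm]
    have hb : ∀ s ∈ Ioi (0 : ℝ), m {z | s < max (-Real.log (F z) - t) 0} ≤
        ENNReal.ofReal (K * Real.exp (-c * t) * Real.exp (-c * s)) := by
      intro s hs
      rw [mem_Ioi] at hs
      have h2 : m {z | s < max (-Real.log (F z) - t) 0} ≤ m {z | F z < Real.exp (-(s + t))} := by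
        refine measure_mono_ae ?_
        filter_upwards [hpos] with z hz
        intro (h3 : s < max (-Real.log (F z) - t) 0)
        show F z < Real.exp (-(s + t))
        rcases lt_max_iff.1 h3 with h4 | h4
        · rw [← Real.log_lt_iff_lt_exp hz]
          linarith
        · linarith
      refine le_trans h2 (le_trans (hdec (s + t) (by linarith)) ?_)
      apply ENNReal.ofReal_le_ofReal
      rw [mul_assoc, ← Real.exp_add]
      apply le_of_eq
      congr 2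
      ring
    refine le_trans (setLIntegral_mono_ae' measurableSet_Ioi (Filter.Eventually.of_forall hb)) ?_
    rw [← ofReal_integral_eq_lintegral_ofReal]
    · apply ENNReal.ofReal_le_ofReal
      rw [integral_const_mul]
      have h3 : ∫ s in Ioi (0 : ℝ), Real.exp (-c * s) = 1 / c := by
        have := integral_exp_mul_Ioi (a := -c) (by linarith) 0
        rw [this]
        simp
      rw [h3]
      apply le_of_eq
      ring
    · exact ((integrableOn_exp_mul_Ioi (by linarith) 0)).const_mul _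
    · exact Filter.Eventually.of_forall fun s => by positivity
  have hint : Integrable (fun z => Real.log (F z)) m := by
    have h2 : Integrable (fun z => -Real.log (F z)) m := by
      refine ⟨hlm.neg.aestronglyMeasurable, ?_⟩
      rw [hasFiniteIntegral_iff_ofReal]
      · refine lt_of_le_of_lt ?_ (lt_of_le_of_lt (htail 0 le_rfl) ENNReal.ofReal_lt_top)
        refine lintegral_mono fun z => ENNReal.ofReal_le_ofReal ?_
        rw [sub_zero]
        exact le_max_left _ _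
      · filter_upwards [hpos, h1] with z hz hz1
        show 0 ≤ -Real.log (F z)
        have := Real.log_nonpos hz.le hz1
        linarith
    have h3 := h2.neg
    simpa using h3
  refine ⟨hpos, hint, fun t ht => ?_⟩
  have hcomp : ∀ᵐ z ∂m, Real.log (max (F z) (Real.exp (-t))) - Real.log (F z) =
      max (-Real.log (F z) - t) 0 ∧ |Real.log (max (F z) (Real.exp (-t)))| ≤ |Real.log (F z)| := by
    filter_upwards [hpos, h1] with z hz hz1
    have hl := Real.log_nonpos hz.le hz1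
    rcases le_total (F z) (Real.exp (-t)) with h | h
    · rw [max_eq_right h, Real.log_exp]
      have h2 : Real.log (F z) ≤ -t := by
        rw [← Real.log_exp (-t)]
        exact Real.log_le_log hz h
      rw [max_eq_left (by linarith)]
      refine ⟨by ring, ?_⟩
      rw [abs_of_nonpos (by linarith), abs_of_nonpos hl]
      linarith
    · rw [max_eq_left h]
      have h2 : -t ≤ Real.log (F z) := by
        rw [← Real.log_exp (-t)]
        exact Real.log_le_log (Real.exp_pos _) h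
      rw [max_eq_right (by linarith)]
      exact ⟨by ring, le_rfl⟩
  have hint2 : Integrable (fun z => Real.log (max (F z) (Real.exp (-t)))) m := by
    refine Integrable.mono hint
      (Real.measurable_log.comp_aemeasurable (hFm.max aemeasurable_const)).aestronglyMeasurable ?_
    filter_upwards [hcomp] with z hz
    exact hz.2
  refine ⟨hint2, ?_⟩
  rw [abs_sub_comm, ← integral_sub hint2 hint]
  have h2 : ∫ z, (Real.log (max (F z) (Real.exp (-t))) - Real.log (F z)) ∂m =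
      ∫ z, max (-Real.log (F z) - t) 0 ∂m := by
    refine integral_congr_ae ?_
    filter_upwards [hcomp] with z hz
    exact hz.1
  rw [h2, abs_of_nonneg (integral_nonneg fun z => le_max_right _ _),
    integral_eq_lintegral_of_nonneg_ae (f := fun z => max (-Real.log (F z) - t) 0)
      (Filter.Eventually.of_forall fun z => le_max_right _ _)
      ((hlm.neg.sub_const t).max aemeasurable_const).aestronglyMeasurable]
  exact ENNReal.toReal_le_of_le_ofReal (by positivity) (htail t ht)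

/-- `t δ ^ α` is small for a suitable `t` -/
theorem LFin_opt {α c K₁ K₂ δ D : ℝ} (hα : 0 < α) (hc : 0 < c) (hK₁ : 0 < K₁)
    (hK₂ : 0 < K₂) (hδ : 0 ≤ δ) (h0 : D ≤ 2 * K₁)
    (h : ∀ t : ℝ, 1 ≤ t → D ≤ 2 * (K₁ * Real.exp (-c * t)) + K₂ * t * δ ^ α) :
    D ≤ (2 * K₁ + K₂ * (1 + 2 / c)) * δ ^ (α / 2) := by
  rcases eq_or_lt_of_le hδ with h1 | hpos
  · rw [← h1, Real.zero_rpow (by positivity), mul_zero]
    have hlim : Filter.Tendsto (fun t : ℝ => 2 * (K₁ * Real.exp (-c * t))) Filter.atTop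
        (𝓝 (2 * (K₁ * 0))) := by
      refine (Filter.Tendsto.const_mul K₁ ?_).const_mul 2
      refine Real.tendsto_exp_atBot.comp ?_
      exact Filter.tendsto_id.const_mul_atTop_of_neg (by linarith)
    rw [mul_zero, mul_zero] at hlim
    refine ge_of_tendsto hlim ?_
    filter_upwards [Filter.eventually_ge_atTop 1] with t ht
    have h2 := h t ht
    rw [← h1, Real.zero_rpow hα.ne', mul_zero, add_zero] at h2
    exact h2
  · have hp2 : 0 < δ ^ (α / 2) := by positivity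
    by_cases hδ1 : 1 ≤ δ
    · have h2 : 1 ≤ δ ^ (α / 2) := Real.one_le_rpow hδ1 (by positivity)
      have h3 : 0 ≤ K₂ * (1 + 2 / c) * δ ^ (α / 2) := by positivity
      nlinarith
    · push Not at hδ1
      have hlog : Real.log δ < 0 := Real.log_neg hpos hδ1
      set t := 1 + α / c * (-Real.log δ) with ht
      have ht1 : 1 ≤ t := by
        rw [ht]
        have : 0 ≤ α / c * (-Real.log δ) := mul_nonneg (by positivity) (by linarith)
        linarith
      have h2 := h t ht1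
      have hexp : Real.exp (-c * t) ≤ δ ^ (α / 2) := by
        rw [Real.rpow_def_of_pos hpos]
        apply Real.exp_le_exp.2
        rw [ht]
        have h3 : -c * (1 + α / c * (-Real.log δ)) = -c + α * Real.log δ := by
          field_simp
          ring
        rw [h3]
        nlinarith
      have hsq : δ ^ α = δ ^ (α / 2) * δ ^ (α / 2) := by
        rw [← Real.rpow_add hpos]
        congr 1
        ring
      have hδle : δ ^ (α / 2) ≤ 1 := Real.rpow_le_one hpos.le hδ1.le (by positivity)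
      have hlogb : (-Real.log δ) * δ ^ (α / 2) ≤ 2 / α := by
        have h3 := Real.log_le_rpow_div (x := δ⁻¹) (by positivity) (by positivity : 0 < α / 2)
        rw [Real.log_inv, Real.inv_rpow hpos.le] at h3
        calc (-Real.log δ) * δ ^ (α / 2) ≤ (δ ^ (α / 2))⁻¹ / (α / 2) * δ ^ (α / 2) :=
              mul_le_mul_of_nonneg_right h3 hp2.le
          _ = 2 / α := by
              field_simp
      have htb : t * δ ^ α ≤ (1 + 2 / c) * δ ^ (α / 2) := by
        rw [hsq, ← mul_assoc]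
        refine mul_le_mul_of_nonneg_right ?_ hp2.le
        rw [ht, add_mul, one_mul, mul_assoc]
        have h4 : α / c * (-Real.log δ * δ ^ (α / 2)) ≤ α / c * (2 / α) :=
          mul_le_mul_of_nonneg_left hlogb (by positivity)
        have h5 : α / c * (2 / α) = 2 / c := by
          field_simp
        linarith
      have h6 : K₂ * t * δ ^ α ≤ K₂ * ((1 + 2 / c) * δ ^ (α / 2)) := by
        rw [mul_assoc]
        exact mul_le_mul_of_nonneg_left htb hK₂.le
      have h7 : 2 * (K₁ * Real.exp (-c * t)) ≤ 2 * (K₁ * δ ^ (α / 2)) := by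
        have := mul_le_mul_of_nonneg_left hexp hK₁.le
        linarith
      calc D ≤ 2 * (K₁ * Real.exp (-c * t)) + K₂ * t * δ ^ α := h2
        _ ≤ 2 * (K₁ * δ ^ (α / 2)) + K₂ * ((1 + 2 / c) * δ ^ (α / 2)) := by linarith
        _ = _ := by ring

theorem loc_holder (n : ℕ) (hn : 1 ≤ n) {C c : ℝ} (hC : 0 < C) (hc : 0 < c) : ∃ α : ℝ, 0 < α ∧
    ∀ A : ℝ, 0 ≤ A → ∃ K : ℝ, 0 < K ∧
    ∀ (ν : Measure (Cn n)), ν univ ≤ 1 → ν {z | 1 < ‖z‖} = 0 → AffN n ν C c →
      ∀ F G : Cn n → ℝ, PshOn (ball 0 2) F → PshOn (ball 0 2) G → (∀ x ∈ ball 0 2, F x ≤ 1) →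
        (∀ x ∈ ball 0 2, G x ≤ 1) → (∃ x, ‖x‖ ≤ 1 ∧ Real.exp (-A) ≤ F x) →
        (∃ x, ‖x‖ ≤ 1 ∧ Real.exp (-A) ≤ G x) →
        Integrable (fun z => Real.log (F z)) ν ∧
        |(∫ z, Real.log (F z) ∂ν) - ∫ z, Real.log (G z) ∂ν| ≤
          K * (∫ x in ball (0 : Cn n) (3 / 2), |Real.log (F x) - Real.log (G x)|) ^ α := by
  obtain ⟨α, hα, -, K₂, hK₂, Hcomp⟩ := loc_comp n hn hC hc
  refine ⟨α / 2, by positivity, fun A hA => ?_⟩
  obtain ⟨c', K, hc', hK, Htail⟩ := loc_tail n hn hC hc hA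
  obtain ⟨c'', K'', hc'', hK'', Hdec⟩ := psh_decay n hn hA
  refine ⟨2 * (K / c') + K₂ * (1 + 2 / c'), by positivity, ?_⟩
  intro ν hν hν0 hAff F G hF hG hF1 hG1 hFA hGA
  have hballν : ∀ᵐ z ∂ν, z ∈ ball (0 : Cn n) 2 := by
    filter_upwards [LFin_ae hν0] with z hz
    rw [mem_ball_zero_iff]
    linarith
  set m := (volume : Measure (Cn n)).restrict (ball 0 (3 / 2)) with hm
  have hballm : ∀ᵐ z ∂m, z ∈ ball (0 : Cn n) 2 := by
    filter_upwards [ae_restrict_mem measurableSet_ball] with z hz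
    exact ball_subset_ball (by norm_num) hz
  have hFν : ∀ {H : Cn n → ℝ}, PshOn (ball 0 2) H → (∀ x ∈ ball 0 2, H x ≤ 1) →
      (∃ x, ‖x‖ ≤ 1 ∧ Real.exp (-A) ≤ H x) → _ := fun {H} hH hH1 hHA =>
    LFin_tail (m := ν) (F := H) (c := c') (K := K)
      (⟨(ball 0 2).indicator H, LFin_meas isOpen_ball hH.usc, by
        filter_upwards [hballν] with z hz
        rw [indicator_of_mem hz]⟩)
      (by filter_upwards [hballν] with z hz; exact hH.nonneg z hz)
      (by filter_upwards [hballν] with z hz; exact hH1 z hz) hc' hK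
      (Htail ν hν hν0 hAff H hH hH1 hHA)
  have hFm : ∀ {H : Cn n → ℝ}, PshOn (ball 0 2) H → (∀ x ∈ ball 0 2, H x ≤ 1) →
      (∃ x, ‖x‖ ≤ 1 ∧ Real.exp (-A) ≤ H x) → _ := fun {H} hH hH1 hHA =>
    LFin_tail (m := m) (F := H) (c := c'') (K := K'')
      (⟨(ball 0 2).indicator H, LFin_meas isOpen_ball hH.usc, by
        filter_upwards [hballm] with z hz
        rw [indicator_of_mem hz]⟩)
      (by filter_upwards [hballm] with z hz; exact hH.nonneg z hz)
      (by filter_upwards [hballm] with z hz; exact hH1 z hz) hc'' hK''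
      (fun t ht => by
        refine le_trans (le_of_eq ?_) (Hdec H hH hH1 hHA t ht)
        rw [hm, Measure.restrict_apply' measurableSet_ball]
        congr 1
        ext z
        simp only [mem_inter_iff, mem_ball_zero_iff]
        exact and_comm)
  obtain ⟨hFpos, hFint, hFt⟩ := hFν hF hF1 hFA
  obtain ⟨hGpos, hGint, hGt⟩ := hFν hG hG1 hGA
  obtain ⟨hFpos', hFint', hFt'⟩ := hFm hF hF1 hFA
  obtain ⟨hGpos', hGint', hGt'⟩ := hFm hG hG1 hGA
  refine ⟨hFint, ?_⟩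
  set δ := ∫ x in ball (0 : Cn n) (3 / 2), |Real.log (F x) - Real.log (G x)| with hδ
  have hδ0 : 0 ≤ δ := integral_nonneg fun _ => abs_nonneg _
  -- comparison of the truncated distances
  have hδt : ∀ t : ℝ, 0 ≤ t → (∫ x in ball (0 : Cn n) (3 / 2),
      |Real.log (max (F x) (Real.exp (-t))) - Real.log (max (G x) (Real.exp (-t)))|) ≤ δ := by
    intro t ht
    refine integral_mono_ae ((hFt' t ht).1.sub (hGt' t ht).1).abs (hFint'.sub hGint').abs ?_
    filter_upwards [hFpos', hGpos'] with z hz1 hz2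
    have hmax : ∀ a : ℝ, 0 < a → Real.log (max a (Real.exp (-t))) = max (Real.log a) (-t) := by
      intro a ha
      rcases le_total a (Real.exp (-t)) with h | h
      · rw [max_eq_right h, Real.log_exp, max_eq_right]
        rw [← Real.log_exp (-t)]
        exact Real.log_le_log ha h
      · rw [max_eq_left h, max_eq_left]
        rw [← Real.log_exp (-t)]
        exact Real.log_le_log (Real.exp_pos _) h
    show |Real.log (max (F z) (Real.exp (-t))) - Real.log (max (G z) (Real.exp (-t)))| ≤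
      |Real.log (F z) - Real.log (G z)|
    rw [hmax _ hz1, hmax _ hz2]
    exact abs_max_sub_max_le_abs _ _ _
  have hδt0 : ∀ t : ℝ, 0 ≤ (∫ x in ball (0 : Cn n) (3 / 2),
      |Real.log (max (F x) (Real.exp (-t))) - Real.log (max (G x) (Real.exp (-t)))|) := fun t =>
    integral_nonneg fun _ => abs_nonneg _
  have hcomp : ∀ t : ℝ, 1 ≤ t → |(∫ z, Real.log (max (F z) (Real.exp (-t))) ∂ν) -
      ∫ z, Real.log (max (G z) (Real.exp (-t))) ∂ν| ≤ K₂ * t * δ ^ α := by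
    intro t ht
    have h1 := Hcomp ν hν hν0 hAff F G hF hG hF1 hG1 t ht
    have h2 := Hcomp ν hν hν0 hAff G F hG hF hG1 hF1 t ht
    have h3 : (∫ x in ball (0 : Cn n) (3 / 2),
        |Real.log (max (G x) (Real.exp (-t))) - Real.log (max (F x) (Real.exp (-t)))|) =
        ∫ x in ball (0 : Cn n) (3 / 2),
        |Real.log (max (F x) (Real.exp (-t))) - Real.log (max (G x) (Real.exp (-t)))| := by
      refine integral_congr_ae (Filter.Eventually.of_forall fun x => ?_)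
      exact abs_sub_comm _ _
    rw [h3] at h2
    have h4 : K₂ * t * (∫ x in ball (0 : Cn n) (3 / 2),
        |Real.log (max (F x) (Real.exp (-t))) - Real.log (max (G x) (Real.exp (-t)))|) ^ α ≤
        K₂ * t * δ ^ α :=
      mul_le_mul_of_nonneg_left (Real.rpow_le_rpow (hδt0 t) (hδt t (by linarith)) hα.le)
        (by positivity)
    rw [abs_le]
    constructor
    · linarith
    · linarith
  refine LFin_opt hα hc' (by positivity) hK₂ hδ0 ?_ ?_
  · -- the trivial bound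
    have h1 := (hFt 0 le_rfl).2
    have h2 := (hGt 0 le_rfl).2
    have h3 : ∀ {H : Cn n → ℝ}, (∀ x ∈ ball 0 2, H x ≤ 1) →
        ∫ z, Real.log (max (H z) (Real.exp (-0))) ∂ν = 0 := by
      intro H hH1
      rw [integral_eq_zero_of_ae]
      filter_upwards [hballν] with z hz
      rw [neg_zero, Real.exp_zero, max_eq_right (hH1 z hz), Real.log_one]
      rfl
    rw [h3 hF1, sub_zero, mul_zero, Real.exp_zero, mul_one] at h1
    rw [h3 hG1, sub_zero, mul_zero, Real.exp_zero, mul_one] at h2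
    have h4 := abs_sub (∫ z, Real.log (F z) ∂ν) (∫ z, Real.log (G z) ∂ν)
    linarith
  · intro t ht
    have h1 := (hFt t (by linarith)).2
    have h2 := (hGt t (by linarith)).2
    have h3 := hcomp t ht
    rw [abs_le] at h1 h2 h3 ⊢
    constructor
    · linarith
    · linarith

end HMA

end S_MA_LFin

section S_MA_LMain

/-! # Module LMAIN: the local theorem -/

open MeasureTheory Metric Set
open scoped ENNReal Topology ContDiff

namespace HMA

theorem LMain_cha_same {n : ℕ} (i : Fin (n + 1)) (z : Cn n) : cha i z i = 1 := by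
  unfold cha
  simp

theorem LMain_cha_succ {n : ℕ} (i : Fin (n + 1)) (z : Cn n) (j : Fin n) :
    cha i z (i.succAbove j) = z j := by
  unfold cha
  simp

theorem LMain_aff_cha {n : ℕ} (i : Fin (n + 1)) (z : Cn n) : aff i (cha i z) = z := by
  ext j
  unfold aff
  simp only [LMain_cha_same, LMain_cha_succ, div_one]

theorem LMain_cha_part {n : ℕ} (i : Fin (n + 1)) (z : Cn n) (hz : ‖z‖ ≤ 1) : cha i z ∈ part i := by
  refine ⟨?_, fun j => ?_⟩
  · intro h
    have h1 := LMain_cha_same i z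
    rw [h] at h1
    simp at h1
  · rw [LMain_cha_same, norm_one]
    rcases Fin.eq_self_or_eq_succAbove i j with rfl | ⟨k, rfl⟩
    · rw [LMain_cha_same, norm_one]
    · rw [LMain_cha_succ]
      exact le_trans (PiLp.norm_apply_le z k) hz

theorem LMain_map {n : ℕ} {ν : Measure (Cn n)} (hν : ν {z | 1 < ‖z‖} = 0) :
    ((ν.map (cha 0)).restrict (part 0)).map (aff 0) = ν := by
  have hc : Measurable (cha (n := n) 0) := (cha_embedding 0).measurable
  have hae : ∀ᵐ x ∂(ν.map (cha 0)), x ∈ part (n := n) 0 := by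
    refine (ae_map_iff (p := fun x => x ∈ part (n := n) 0) hc.aemeasurable (part_meas 0)).2 ?_
    have h1 : ∀ᵐ z ∂ν, ¬ (1 < ‖z‖) := by
      rw [ae_iff]
      simpa using hν
    filter_upwards [h1] with z hz
    exact LMain_cha_part 0 z (not_lt.1 hz)
  rw [Measure.restrict_eq_self_of_ae_mem hae, Measure.map_map (aff_meas 0) hc]
  have e : aff (n := n) 0 ∘ cha 0 = id := by
    funext z
    exact LMain_aff_cha 0 z
  rw [e, Measure.map_id]

theorem LMain_polyB {n : ℕ} {μ ν : Measure (Cn n)} {C C' ε : ℝ} (hC : C ≤ C') (hν : ν ≤ μ)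
    (hP : PolyB n μ C ε) : PolyB n ν C' ε := by
  intro Φ s h1 h2 h3 h4 h5
  refine le_trans (hν _) (le_trans (hP Φ s h1 h2 h3 h4 h5) ?_)
  exact ENNReal.ofReal_le_ofReal (mul_le_mul_of_nonneg_right hC (Real.exp_pos _).le)

theorem local_holder {n : ℕ} (hn : 1 ≤ n) {μ : Measure (Cn n)} [IsFiniteMeasure μ]
    (hμ : μ {z | 1 < ‖z‖} = 0) {C ε : ℝ} (hC : 0 < C) (hε : 0 < ε) (hP : PolyB n μ C ε) :
    ∃ α : ℝ, 0 < α ∧ ∀ A : ℝ, 0 ≤ A → ∃ K : ℝ, 0 < K ∧
      ∀ F G : Cn n → ℝ, PshOn (ball 0 2) F → PshOn (ball 0 2) G → (∀ x ∈ ball 0 2, F x ≤ 1) →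
        (∀ x ∈ ball 0 2, G x ≤ 1) → (∃ x, ‖x‖ ≤ 1 ∧ Real.exp (-A) ≤ F x) →
        (∃ x, ‖x‖ ≤ 1 ∧ Real.exp (-A) ≤ G x) →
        Integrable (fun z => Real.log (F z)) μ ∧
        |(∫ z, Real.log (F z) ∂μ) - ∫ z, Real.log (G z) ∂μ| ≤
          K * (∫ x in ball (0 : Cn n) (3 / 2), |Real.log (F x) - Real.log (G x)|) ^ α := by
  obtain ⟨N, C₁, hN, hC₁, hT⟩ := tub_of_polyB n hn (C := max C 1) (ε := ε) (Λ := 4 * n + 1)
    (lt_max_of_lt_left hC) hε (by positivity)
  obtain ⟨C₂, c₂, hC₂, hc₂, hSt⟩ := thmN n N (C := C₁) (Λ := 4 * n + 1) hC₁ hN le_rfl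
  obtain ⟨α, hα, hA⟩ := loc_holder n hn hC₂ hc₂
  -- the scaling factor
  set c : ℝ≥0∞ := (1 + μ univ)⁻¹ with hcdef
  have hμt : 1 + μ univ ≠ ⊤ := ENNReal.add_ne_top.2 ⟨ENNReal.one_ne_top, measure_ne_top μ univ⟩
  have hμ1 : (1 : ℝ≥0∞) ≤ 1 + μ univ := le_self_add
  have hc0 : c ≠ 0 := ENNReal.inv_ne_zero.2 hμt
  have hc1 : c ≤ 1 := by
    rw [hcdef, ENNReal.inv_le_one]
    exact hμ1
  have hct : c ≠ ⊤ := ne_top_of_le_ne_top ENNReal.one_ne_top hc1
  have hcr : 0 < c.toReal := ENNReal.toReal_pos hc0 hct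
  set ν : Measure (Cn n) := c • μ with hν
  have hνle : ν ≤ μ := by
    intro s
    rw [hν, Measure.smul_apply, smul_eq_mul]
    calc c * μ s ≤ 1 * μ s := by gcongr
      _ = μ s := one_mul _
  have hν1 : ν univ ≤ 1 := by
    rw [hν, Measure.smul_apply, smul_eq_mul, hcdef, mul_comm, ← div_eq_mul_inv]
    exact ENNReal.div_le_of_le_mul (by rw [one_mul]; exact le_add_self)
  have hν0 : ν {z | 1 < ‖z‖} = 0 := le_antisymm (le_trans (hνle _) (le_of_eq hμ)) zero_le
  have hνP : PolyB n ν (max C 1) ε := LMain_polyB (le_max_left C 1) hνle hP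
  obtain ⟨hm, htub⟩ := hT ν (le_trans hν1 (by
    rw [← ENNReal.ofReal_one]
    exact ENNReal.ofReal_le_ofReal (le_max_right C 1))) hν0 hνP
  have hAff : AffN n ν C₂ c₂ := by
    have h := affN_of_stN hC₂ hc₂ hm htub hSt 0
    rwa [LMain_map hν0] at h
  refine ⟨α, hα, fun A hA0 => ?_⟩
  obtain ⟨K, hK, hKK⟩ := hA A hA0
  refine ⟨c.toReal⁻¹ * K, by positivity, ?_⟩
  intro F G hF hG hF1 hG1 hFA hGA
  obtain ⟨hi, hb⟩ := hKK ν hν1 hν0 hAff F G hF hG hF1 hG1 hFA hGA
  refine ⟨(integrable_smul_measure hc0 hct).1 hi, ?_⟩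
  rw [hν, integral_smul_measure, integral_smul_measure, smul_eq_mul, smul_eq_mul, ← mul_sub,
    abs_mul, abs_of_pos hcr] at hb
  rw [mul_assoc, inv_mul_eq_div, le_div_iff₀ hcr, mul_comm]
  exact hb

end HMA

end S_MA_LMain
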