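import Mathlib
import Pool.Agent.H85.MG.G1a
import Pool.Agent.H85.MG.G2a
import Pool.Agent.H85.MG.G2b
import Pool.Agent.H85.MG.G3a
import Pool.Agent.H85.MG.G3c
import Pool.Agent.H85.MG.G4a
import Pool.Agent.H85.MG.G4c
import Pool.Agent.H85.MG.G5a
import Pool.Agent.H85.MG.G5b

/-! Moderate measures and Hölder continuous potentials, part G6a: this file joins several modules to save build time. -/

section S_KM_UChain

/-! # Module UChain: normalisation in all charts -/

open MeasureTheory Metric Set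
open scoped ENNReal Topology ContDiff ComplexOrder

namespace HMA

variable {n : ℕ} {X : Type} [TopologicalSpace X] (K : KM n X)

theorem UChain_ρ_bdd (i : Fin K.N) : ∃ R : ℝ, 0 < R ∧ ∀ z ∈ closedBall (0 : Cn n) 2,
    |K.ρ i z| ≤ R := by
  have hsub : closedBall (0 : Cn n) 2 ⊆ ball 0 3 := closedBall_subset_ball (by norm_num)
  obtain ⟨C, hC⟩ := (isCompact_closedBall (0 : Cn n) 2).exists_bound_of_continuousOn
    ((K.ρ_smooth i).continuousOn.mono hsub)
  exact ⟨max C 1, lt_of_lt_of_le one_pos (le_max_right _ _), fun z hz =>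
    (hC z hz).trans (le_max_left _ _)⟩

/-- decay of the sublevel sets in a chart -/
theorem UChain_decay [CompactSpace X] (hn : 1 ≤ n) (i : Fin K.N) {A : ℝ} (hA : 0 < A) :
    ∃ c M : ℝ, 0 < c ∧ 0 < M ∧ ∀ F : X → ℝ, KPsh K F → (∀ x, F x ≤ 1) →
      (∃ z : Cn n, ‖z‖ ≤ 1 ∧ A ≤ F (K.κ i z)) → ∀ t : ℝ, 0 < t →
        volume {z : Cn n | ‖z‖ < 3 / 2 ∧ F (K.κ i z) < Real.exp (-t)} ≤
          ENNReal.ofReal (M * Real.exp (-c * t)) := by
  obtain ⟨R, hR, hρ⟩ := UChain_ρ_bdd K i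
  obtain ⟨a, ha, hchart⟩ := KPsh.chart K i
  set A₀ : ℝ := max 0 (-Real.log (a * (A * Real.exp (-R)))) with hA₀
  obtain ⟨c, M, hc, hM, hdec⟩ := psh_decay n hn (A := A₀) (le_max_left _ _)
  set s : ℝ := R + Real.log a with hs
  set V : ℝ := (volume (ball (0 : Cn n) (3 / 2))).toReal with hV
  have hV0 : 0 ≤ V := ENNReal.toReal_nonneg
  refine ⟨c, (M + V) * Real.exp (c * s), hc, by positivity, ?_⟩
  rintro F hF hF1 ⟨z₀, hz₀, hAz₀⟩ t ht
  obtain ⟨hG, hG1⟩ := hchart F hF hF1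
  have hz2 : ∀ z : Cn n, ‖z‖ ≤ 2 → |K.ρ i z| ≤ R := fun z hz =>
    hρ z (by rwa [mem_closedBall, dist_zero_right])
  by_cases hts : s < t
  · have h1 := hdec _ hG hG1 ⟨z₀, hz₀, ?_⟩ (t - s) (by linarith)
    · refine (measure_mono ?_).trans (h1.trans (ENNReal.ofReal_le_ofReal ?_))
      · rintro z ⟨hz, hFz⟩
        refine ⟨hz, ?_⟩
        have h2 := (abs_le.1 (hz2 z (by linarith))).2
        have h3 : Real.exp (K.ρ i z) ≤ Real.exp R := Real.exp_le_exp.2 h2
        have h4 : Real.exp (-(t - s)) = a * (Real.exp (-t) * Real.exp R) := by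
          have h5 : -(t - s) = Real.log a + (-t + R) := by rw [hs]; ring
          rw [h5, Real.exp_add, Real.exp_add, Real.exp_log ha]
        rw [h4]
        have h6 : F (K.κ i z) * Real.exp (K.ρ i z) < Real.exp (-t) * Real.exp R := by
          have h7 : F (K.κ i z) * Real.exp (K.ρ i z) < Real.exp (-t) * Real.exp (K.ρ i z) :=
            mul_lt_mul_of_pos_right hFz (Real.exp_pos _)
          exact lt_of_lt_of_le h7 (mul_le_mul_of_nonneg_left h3 (Real.exp_pos _).le)
        exact mul_lt_mul_of_pos_left h6 ha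
      · have h8 : Real.exp (-c * (t - s)) = Real.exp (c * s) * Real.exp (-c * t) := by
          rw [← Real.exp_add]
          congr 1
          ring
        rw [h8, ← mul_assoc]
        have h9 : M * Real.exp (c * s) ≤ (M + V) * Real.exp (c * s) := by
          gcongr
          linarith
        exact mul_le_mul_of_nonneg_right h9 (Real.exp_pos _).le
    · have h2 := (abs_le.1 (hz2 z₀ (by linarith))).1
      have h3 : Real.exp (-R) ≤ Real.exp (K.ρ i z₀) := Real.exp_le_exp.2 h2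
      have h4 : Real.exp (-A₀) ≤ a * (A * Real.exp (-R)) := by
        have h5 : -A₀ ≤ Real.log (a * (A * Real.exp (-R))) := by
          have := le_max_right 0 (-Real.log (a * (A * Real.exp (-R))))
          rw [← hA₀] at this
          linarith
        calc Real.exp (-A₀) ≤ Real.exp (Real.log (a * (A * Real.exp (-R)))) :=
              Real.exp_le_exp.2 h5
          _ = a * (A * Real.exp (-R)) := Real.exp_log (by positivity)
      refine h4.trans ?_
      refine mul_le_mul_of_nonneg_left ?_ ha.le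
      exact mul_le_mul hAz₀ h3 (Real.exp_pos _).le (hA.le.trans hAz₀)
  · rw [not_lt] at hts
    have h1 : volume {z : Cn n | ‖z‖ < 3 / 2 ∧ F (K.κ i z) < Real.exp (-t)} ≤
        ENNReal.ofReal V := by
      rw [hV, ENNReal.ofReal_toReal measure_ball_lt_top.ne]
      refine measure_mono ?_
      rintro z ⟨hz, -⟩
      rwa [mem_ball, dist_zero_right]
    refine h1.trans (ENNReal.ofReal_le_ofReal ?_)
    have h2 : 1 ≤ Real.exp (c * s) * Real.exp (-c * t) := by
      rw [← Real.exp_add]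
      apply Real.one_le_exp
      nlinarith
    rw [mul_assoc]
    nlinarith

/-- transition of lower bounds between overlapping charts -/
theorem UChain_step [CompactSpace X] (hn : 1 ≤ n) (i j : Fin K.N)
    (hij : (K.κ i '' ball 0 1 ∩ K.κ j '' ball 0 1).Nonempty) {A : ℝ} (hA : 0 < A) :
    ∃ B : ℝ, 0 < B ∧ ∀ F : X → ℝ, KPsh K F → (∀ x, F x ≤ 1) →
      (∃ z : Cn n, ‖z‖ ≤ 1 ∧ A ≤ F (K.κ i z)) → ∃ z : Cn n, ‖z‖ ≤ 1 ∧ B ≤ F (K.κ j z) := by
  obtain ⟨c, M, hc, hM, hdec⟩ := UChain_decay K hn i hA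
  set V : Set (Cn n) := ball 0 1 ∩ K.κ i ⁻¹' (K.κ j '' ball 0 1) with hV
  have h13 : ball (0 : Cn n) 1 ⊆ ball 0 3 := ball_subset_ball (by norm_num)
  have hopen : IsOpen (K.κ j '' ball 0 1) := K.isOpen_image j _ h13 isOpen_ball
  have hVo : IsOpen V := ((K.cont i).mono h13).isOpen_inter_preimage isOpen_ball hopen
  have hVne : V.Nonempty := by
    obtain ⟨x, ⟨z, hz, rfl⟩, hx2⟩ := hij
    exact ⟨z, hz, hx2⟩
  have hVpos : 0 < volume V := hVo.measure_pos volume hVne
  have hlim : Filter.Tendsto (fun t : ℝ => ENNReal.ofReal (M * Real.exp (-c * t)))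
      Filter.atTop (𝓝 0) := by
    rw [← ENNReal.ofReal_zero]
    refine ENNReal.tendsto_ofReal ?_
    have h1 : Filter.Tendsto (fun a : ℝ => -c * a) Filter.atTop Filter.atBot :=
      Filter.tendsto_id.const_mul_atTop_of_neg (by linarith)
    have h2 := (Real.tendsto_exp_atBot.comp h1).const_mul M
    simpa using h2
  obtain ⟨t, ht1, ht2⟩ :=
    ((hlim.eventually_lt_const hVpos).and (Filter.eventually_gt_atTop (0 : ℝ))).exists
  refine ⟨Real.exp (-t), Real.exp_pos _, fun F hF hF1 hz => ?_⟩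
  have h1 := hdec F hF hF1 hz t ht2
  have h2 : ∃ z ∈ V, ¬ F (K.κ i z) < Real.exp (-t) := by
    by_contra hcon
    push Not at hcon
    have h3 : V ⊆ {z : Cn n | ‖z‖ < 3 / 2 ∧ F (K.κ i z) < Real.exp (-t)} := by
      intro z hzV
      refine ⟨?_, hcon z hzV⟩
      have := hzV.1
      rw [mem_ball, dist_zero_right] at this
      linarith
    exact absurd ((measure_mono h3).trans h1) (not_le.2 ht1)
  obtain ⟨z, ⟨-, w, hw, hwz⟩, hFz⟩ := h2
  refine ⟨w, ?_, ?_⟩
  · rw [mem_ball, dist_zero_right] at hw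
    exact hw.le
  · rw [hwz]
    exact not_lt.1 hFz

/-- the set of charts to which lower bounds propagate is everything -/
theorem UChain_all [CompactSpace X] [ConnectedSpace X] (hn : 1 ≤ n) (i j : Fin K.N) :
    ∀ A : ℝ, 0 < A → ∃ B : ℝ, 0 < B ∧ ∀ F : X → ℝ, KPsh K F → (∀ x, F x ≤ 1) →
      (∃ z : Cn n, ‖z‖ ≤ 1 ∧ A ≤ F (K.κ i z)) → ∃ z : Cn n, ‖z‖ ≤ 1 ∧ B ≤ F (K.κ j z) := by
  by_contra hj
  set S : Set (Fin K.N) := {j | ∀ A : ℝ, 0 < A → ∃ B : ℝ, 0 < B ∧ ∀ F : X → ℝ, KPsh K F →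
    (∀ x, F x ≤ 1) → (∃ z : Cn n, ‖z‖ ≤ 1 ∧ A ≤ F (K.κ i z)) →
      ∃ z : Cn n, ‖z‖ ≤ 1 ∧ B ≤ F (K.κ j z)} with hS
  have hjS : j ∉ S := hj
  have hiS : i ∈ S := fun A hA => ⟨A, hA, fun F _ _ h => h⟩
  have h13 : ball (0 : Cn n) 1 ⊆ ball 0 3 := ball_subset_ball (by norm_num)
  have hopen : ∀ k, IsOpen (K.κ k '' ball 0 1) := fun k => K.isOpen_image k _ h13 isOpen_ball
  have h0 : (0 : Cn n) ∈ ball (0 : Cn n) 1 := mem_ball_self one_pos
  have hpre := (isPreconnected_univ : IsPreconnected (univ : Set X))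
    (⋃ k ∈ S, K.κ k '' ball 0 1) (⋃ k ∈ Sᶜ, K.κ k '' ball 0 1)
    (isOpen_biUnion fun k _ => hopen k) (isOpen_biUnion fun k _ => hopen k)
    (fun x _ => by
      obtain ⟨k, hk⟩ := K.cover x
      by_cases hkS : k ∈ S
      · exact Or.inl (mem_biUnion hkS hk)
      · exact Or.inr (mem_biUnion (show k ∈ Sᶜ from hkS) hk))
    ⟨K.κ i 0, mem_univ _, mem_biUnion hiS ⟨0, h0, rfl⟩⟩
    ⟨K.κ j 0, mem_univ _, mem_biUnion (show j ∈ Sᶜ from hjS) ⟨0, h0, rfl⟩⟩
  obtain ⟨x, -, hx1, hx2⟩ := hpre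
  simp only [mem_iUnion] at hx1 hx2
  obtain ⟨k, hk, hxk⟩ := hx1
  obtain ⟨l, hl, hxl⟩ := hx2
  apply hl
  intro A hA
  obtain ⟨B, hB, hAB⟩ := hk A hA
  obtain ⟨B', hB', hBB'⟩ := UChain_step K hn k l ⟨x, hxk, hxl⟩ hB
  exact ⟨B', hB', fun F hF hF1 hz => hBB' F hF hF1 (hAB F hF hF1 hz)⟩

/-- a positive lower bound of finitely many positive numbers -/
theorem UChain_min {ι : Type*} [Fintype ι] (b : ι → ℝ) (hb : ∀ i, 0 < b i) :
    ∃ B : ℝ, 0 < B ∧ ∀ i, B ≤ b i := by
  have h0 : 0 ≤ ∑ i, (b i)⁻¹ := Finset.sum_nonneg fun i _ => (inv_pos.2 (hb i)).le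
  refine ⟨(1 + ∑ i, (b i)⁻¹)⁻¹, by positivity, fun i => ?_⟩
  have h1 : (b i)⁻¹ ≤ 1 + ∑ i, (b i)⁻¹ := by
    have := Finset.single_le_sum (f := fun i => (b i)⁻¹)
      (fun i _ => (inv_pos.2 (hb i)).le) (Finset.mem_univ i)
    linarith
  exact (inv_le_comm₀ (by positivity) (hb i)).2 h1

/-- `X` connected: functions bounded from below at one point are bounded from below at some point of
each chart -/
theorem KM.chain [CompactSpace X] [ConnectedSpace X] (hn : 1 ≤ n) {A : ℝ} (hA : 0 < A) :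
    ∃ B : ℝ, 0 < B ∧ ∀ F : X → ℝ, KPsh K F → (∀ x, F x ≤ 1) → (∃ x, A ≤ F x) →
      ∀ i, ∃ z : Cn n, ‖z‖ ≤ 1 ∧ B ≤ F (K.κ i z) := by
  have h1 : ∀ p : Fin K.N × Fin K.N, ∃ B : ℝ, 0 < B ∧ ∀ F : X → ℝ, KPsh K F → (∀ x, F x ≤ 1) →
      (∃ z : Cn n, ‖z‖ ≤ 1 ∧ A ≤ F (K.κ p.1 z)) → ∃ z : Cn n, ‖z‖ ≤ 1 ∧ B ≤ F (K.κ p.2 z) :=
    fun p => UChain_all K hn p.1 p.2 A hA
  choose b hb hbF using h1
  obtain ⟨B, hB, hBb⟩ := UChain_min b hb
  refine ⟨B, hB, ?_⟩
  rintro F hF hF1 ⟨x, hx⟩ i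
  obtain ⟨j, w, hw, hwx⟩ := K.cover x
  obtain ⟨z, hz, hbz⟩ := hbF (j, i) F hF hF1 ⟨w, by
    rw [mem_ball, dist_zero_right] at hw
    exact hw.le, by
    rw [hwx]
    exact hx⟩
  exact ⟨z, hz, (hBb (j, i)).trans hbz⟩

/-- uniform integrability of the logarithms in the charts -/
theorem KM.log_L1 [CompactSpace X] [ConnectedSpace X] (hn : 1 ≤ n) {A : ℝ} (hA : 0 < A) :
    ∃ C : ℝ, 0 < C ∧ ∀ F : X → ℝ, KPsh K F → (∀ x, F x ≤ 1) → (∃ x, A ≤ F x) →
      ∀ i, IntegrableOn (fun z => Real.log (F (K.κ i z))) (ball 0 (3 / 2)) ∧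
        volume {z : Cn n | ‖z‖ < 3 / 2 ∧ F (K.κ i z) = 0} = 0 ∧
        ∫ z in ball (0 : Cn n) (3 / 2), |Real.log (F (K.κ i z))| ≤ C := by
  obtain ⟨B, hB, hchain⟩ := K.chain hn hA
  choose c M hc hM hdec using fun i => UChain_decay K hn i hB
  have hCpos : 0 ≤ ∑ i, M i / c i := Finset.sum_nonneg fun i _ => (div_pos (hM i) (hc i)).le
  refine ⟨1 + ∑ i, M i / c i, by positivity, ?_⟩
  intro F hF hF1 hx i
  have hz := hchain F hF hF1 hx i
  set m : Measure (Cn n) := volume.restrict (ball (0 : Cn n) (3 / 2)) with hm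
  have hb3 : ball (0 : Cn n) (3 / 2) ⊆ ball 0 3 := ball_subset_ball (by norm_num)
  have hnn : ∀ z ∈ ball (0 : Cn n) 3, 0 ≤ F (K.κ i z) := by
    intro z hz
    have h1 := (hF.loc i).nonneg z hz
    exact nonneg_of_mul_nonneg_left h1 (Real.exp_pos _)
  have hmeas : AEMeasurable (fun z => F (K.κ i z)) m := by
    have h1 := LFin_meas isOpen_ball (hF.loc i).usc
    have h2 : ContinuousOn (K.ρ i) (ball 0 3) := (K.ρ_smooth i).continuousOn
    have h3 : AEMeasurable (K.ρ i) m :=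
      (h2.mono hb3).aemeasurable measurableSet_ball
    have h4 : AEMeasurable (fun z => (ball (0 : Cn n) 3).indicator
        (fun z => F (K.κ i z) * Real.exp (K.ρ i z)) z * Real.exp (-K.ρ i z)) m :=
      h1.aemeasurable.mul (Real.measurable_exp.comp_aemeasurable h3.neg)
    refine h4.congr ?_
    rw [hm]
    filter_upwards [ae_restrict_mem measurableSet_ball] with z hz
    rw [indicator_of_mem (hb3 hz), mul_assoc, ← Real.exp_add, add_neg_cancel, Real.exp_zero,
      mul_one]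
  have hdec' : ∀ t : ℝ, 0 < t → m {z | F (K.κ i z) < Real.exp (-t)} ≤
      ENNReal.ofReal (M i * Real.exp (-c i * t)) := by
    intro t ht
    refine le_trans ?_ (hdec i F hF hF1 hz t ht)
    rw [hm, Measure.restrict_apply' measurableSet_ball]
    refine measure_mono ?_
    rintro z ⟨hz1, hz2⟩
    rw [mem_ball, dist_zero_right] at hz2
    exact ⟨hz2, hz1⟩
  have h0 : ∀ᵐ z ∂m, 0 ≤ F (K.κ i z) := by
    rw [hm]
    filter_upwards [ae_restrict_mem measurableSet_ball] with z hz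
    exact hnn z (hb3 hz)
  obtain ⟨hpos, hint, htail⟩ := LFin_tail hmeas h0 (Filter.Eventually.of_forall fun z => hF1 _)
    (hc i) (hM i) hdec'
  refine ⟨hint, ?_, ?_⟩
  · rw [hm, ae_restrict_iff' measurableSet_ball, ae_iff] at hpos
    refine measure_mono_null ?_ hpos
    rintro z ⟨hz1, hz2⟩
    rw [mem_ofPred_eq, Classical.not_imp]
    refine ⟨by rwa [mem_ball, dist_zero_right], ?_⟩
    rw [hz2]
    exact lt_irrefl _
  · have h1 := (htail 0 le_rfl).2
    have h2 : ∀ z, Real.log (max (F (K.κ i z)) (Real.exp (-0))) = 0 := by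
      intro z
      rw [neg_zero, Real.exp_zero, max_eq_right (hF1 _), Real.log_one]
    simp only [h2, integral_zero, sub_zero, mul_zero, Real.exp_zero, mul_one] at h1
    have h3 : ∫ z, |Real.log (F (K.κ i z))| ∂m = -∫ z, Real.log (F (K.κ i z)) ∂m := by
      rw [← integral_neg]
      refine integral_congr_ae ?_
      filter_upwards [h0] with z hz
      exact abs_of_nonpos (Real.log_nonpos hz (hF1 _))
    rw [h3]
    have h4 := (abs_le.1 h1).1
    have h5 := Finset.single_le_sum (f := fun i => M i / c i)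
      (fun i _ => (div_pos (hM i) (hc i)).le) (Finset.mem_univ i)
    linarith

end HMA

end S_KM_UChain

section S_KM_UProd

/-! # Module UProd: infinite geometric means -/

open MeasureTheory Metric Set
open scoped ENNReal Topology ContDiff ComplexOrder

namespace HMA

section UProdAux

open Filter

variable {n : ℕ} {Ω : Set (Cn n)}

theorem uprod_circ {a b : Cn n} (h : ∀ ζ : ℂ, ‖ζ‖ ≤ 1 → a + ζ • b ∈ Ω) (θ : ℝ) :
    a + Complex.exp (θ * Complex.I) • b ∈ Ω := h _ (by rw [Complex.norm_exp_ofReal_mul_I])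

theorem uprod_center {a b : Cn n} (h : ∀ ζ : ℂ, ‖ζ‖ ≤ 1 → a + ζ • b ∈ Ω) : a ∈ Ω := by
  simpa using h 0 (by simp)

theorem uprod_bdd {F : Cn n → ℝ} (hF : UpperSemicontinuousOn F Ω) {a b : Cn n}
    (h : ∀ ζ : ℂ, ‖ζ‖ ≤ 1 → a + ζ • b ∈ Ω) :
    ∃ M : ℝ, 1 ≤ M ∧ ∀ θ : ℝ, F (a + Complex.exp (θ * Complex.I) • b) ≤ M := by
  have hK : IsCompact ((fun ζ : ℂ => a + ζ • b) '' sphere 0 1) :=
    (isCompact_sphere 0 1).image (by fun_prop)
  have hs : ((fun ζ : ℂ => a + ζ • b) '' sphere 0 1) ⊆ Ω := by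
    rintro _ ⟨ζ, hζ, rfl⟩
    exact h ζ (by rw [mem_sphere_zero_iff_norm] at hζ; exact hζ.le)
  obtain ⟨M, hM⟩ := (hF.mono hs).bddAbove_of_isCompact hK
  refine ⟨max M 1, le_max_right _ _, fun θ => le_max_of_le_left (hM ⟨_, ⟨_, ?_, rfl⟩, rfl⟩)⟩
  rw [mem_sphere_zero_iff_norm, Complex.norm_exp_ofReal_mul_I]

theorem uprod_meas {F : Cn n → ℝ} (hF : UpperSemicontinuousOn F Ω) {a b : Cn n}
    (h : ∀ ζ : ℂ, ‖ζ‖ ≤ 1 → a + ζ • b ∈ Ω) :
    Measurable (fun θ : ℝ => F (a + Complex.exp (θ * Complex.I) • b)) := by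
  have hg : Continuous (fun θ : ℝ => a + Complex.exp (θ * Complex.I) • b) := by fun_prop
  have hu : UpperSemicontinuous (fun θ : ℝ => F (a + Complex.exp (θ * Complex.I) • b)) := by
    intro θ y hy
    have h1 := hF _ (uprod_circ h θ) y hy
    have h2 : Tendsto (fun θ : ℝ => a + Complex.exp (θ * Complex.I) • b) (𝓝 θ)
        (𝓝[Ω] (a + Complex.exp (θ * Complex.I) • b)) :=
      tendsto_nhdsWithin_iff.2 ⟨hg.continuousAt, Eventually.of_forall fun t => uprod_circ h t⟩
    exact h2.eventually h1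
  exact hu.measurable

theorem uprod_usc_mul {F F' : Cn n → ℝ} (hF : UpperSemicontinuousOn F Ω)
    (hF' : UpperSemicontinuousOn F' Ω) (h0 : ∀ x ∈ Ω, 0 ≤ F x) (h0' : ∀ x ∈ Ω, 0 ≤ F' x) :
    UpperSemicontinuousOn (fun x => F x * F' x) Ω := by
  intro x hx y hy
  have hc : Continuous (fun ε : ℝ => (F x + ε) * (F' x + ε)) := by fun_prop
  have hev : ∀ᶠ ε in 𝓝 (0 : ℝ), (F x + ε) * (F' x + ε) < y := by
    apply hc.continuousAt.eventually_lt continuousAt_const
    simpa using hy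
  obtain ⟨ε, hε', hε⟩ := ((hev.filter_mono nhdsWithin_le_nhds).and
    (self_mem_nhdsWithin : Ioi (0 : ℝ) ∈ 𝓝[>] 0)).exists
  have hε0 : 0 < ε := hε
  filter_upwards [hF x hx (F x + ε) (by linarith), hF' x hx (F' x + ε) (by linarith),
    self_mem_nhdsWithin] with z hz hz' hzΩ
  calc F z * F' z ≤ (F x + ε) * (F' x + ε) :=
        mul_le_mul hz.le hz'.le (h0' z hzΩ) (by linarith [h0 x hx])
    _ < y := hε'

theorem uprod_usc_rpow {F : Cn n → ℝ} (hF : UpperSemicontinuousOn F Ω) (h0 : ∀ x ∈ Ω, 0 ≤ F x)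
    {c : ℝ} (hc : 0 < c) : UpperSemicontinuousOn (fun x => F x ^ c) Ω := by
  intro x hx y hy
  have hcc : Continuous (fun ε : ℝ => (max (F x + ε) 0) ^ c) := by
    refine Continuous.rpow_const ?_ (fun _ => Or.inr hc.le)
    fun_prop
  have hev : ∀ᶠ ε in 𝓝 (0 : ℝ), (max (F x + ε) 0) ^ c < y := by
    apply hcc.continuousAt.eventually_lt continuousAt_const
    simp only [add_zero]
    rwa [max_eq_left (h0 x hx)]
  obtain ⟨ε, hε', hε⟩ := ((hev.filter_mono nhdsWithin_le_nhds).and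
    (self_mem_nhdsWithin : Ioi (0 : ℝ) ∈ 𝓝[>] 0)).exists
  have hε0 : 0 < ε := hε
  filter_upwards [hF x hx (F x + ε) (by linarith), self_mem_nhdsWithin] with z hz hzΩ
  calc F z ^ c ≤ (max (F x + ε) 0) ^ c :=
        Real.rpow_le_rpow (h0 z hzΩ) (hz.le.trans (le_max_left _ _)) hc.le
    _ < y := hε'

/-- truncated sub-mean value inequality for a product of powers -/
theorem uprod_trunc {F F' : Cn n → ℝ} (hF : PshOn Ω F) (hF' : PshOn Ω F') {c c' : ℝ} (hc : 0 < c)
    (hc' : 0 < c') {δ η : ℝ} (hδ : 0 < δ) (hη : 0 < η) {a b : Cn n}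
    (hab : ∀ ζ : ℂ, ‖ζ‖ ≤ 1 → a + ζ • b ∈ Ω) :
    Real.log (max (max (F a) η ^ c * max (F' a) η ^ c') δ) ≤ (2 * Real.pi)⁻¹ *
      ∫ θ in (0 : ℝ)..(2 * Real.pi), Real.log (max (max (F (a + Complex.exp (θ * Complex.I) • b)) η ^ c *
        max (F' (a + Complex.exp (θ * Complex.I) • b)) η ^ c') δ) := by
  obtain ⟨M, hM1, hM⟩ := uprod_bdd hF.usc hab
  obtain ⟨M', hM1', hM'⟩ := uprod_bdd hF'.usc hab
  have hpos : ∀ z, 0 < max (F z) η := fun z => lt_of_lt_of_le hη (le_max_right _ _)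
  have hpos' : ∀ z, 0 < max (F' z) η := fun z => lt_of_lt_of_le hη (le_max_right _ _)
  have hform : ∀ z, Real.log (max (max (F z) η ^ c * max (F' z) η ^ c') δ) =
      max (c * Real.log (max (F z) η) + c' * Real.log (max (F' z) η)) (Real.log δ) := by
    intro z
    have h1 : 0 < max (F z) η ^ c * max (F' z) η ^ c' :=
      mul_pos (Real.rpow_pos_of_pos (hpos z) _) (Real.rpow_pos_of_pos (hpos' z) _)
    have h2 : Real.log (max (F z) η ^ c * max (F' z) η ^ c') =
        c * Real.log (max (F z) η) + c' * Real.log (max (F' z) η) := by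
      rw [Real.log_mul (Real.rpow_pos_of_pos (hpos z) _).ne'
        (Real.rpow_pos_of_pos (hpos' z) _).ne', Real.log_rpow (hpos z), Real.log_rpow (hpos' z)]
    rw [← h2]
    rcases le_total (max (F z) η ^ c * max (F' z) η ^ c') δ with h | h
    · rw [max_eq_right h, max_eq_right (Real.log_le_log h1 h)]
    · rw [max_eq_left h, max_eq_left (Real.log_le_log hδ h)]
  have hm : Measurable (fun θ : ℝ => F (a + Complex.exp (θ * Complex.I) • b)) :=
    uprod_meas hF.usc hab
  have hm' : Measurable (fun θ : ℝ => F' (a + Complex.exp (θ * Complex.I) • b)) :=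
    uprod_meas hF'.usc hab
  simp only [hform]
  have hu : Measurable (fun θ : ℝ =>
      Real.log (max (F (a + Complex.exp (θ * Complex.I) • b)) η)) :=
    Real.measurable_log.comp (hm.max measurable_const)
  have hu' : Measurable (fun θ : ℝ =>
      Real.log (max (F' (a + Complex.exp (θ * Complex.I) • b)) η)) :=
    Real.measurable_log.comp (hm'.max measurable_const)
  have hub : ∀ θ : ℝ, |Real.log (max (F (a + Complex.exp (θ * Complex.I) • b)) η)| ≤
      |Real.log η| + |Real.log (max M η)| := fun θ => ProdPsh_logb hη (hM θ)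
  have hub' : ∀ θ : ℝ, |Real.log (max (F' (a + Complex.exp (θ * Complex.I) • b)) η)| ≤
      |Real.log η| + |Real.log (max M' η)| := fun θ => ProdPsh_logb hη (hM' θ)
  set B := |Real.log η| + |Real.log (max M η)| with hB
  set B' := |Real.log η| + |Real.log (max M' η)| with hB'
  have hv : Measurable (fun θ : ℝ =>
      c * Real.log (max (F (a + Complex.exp (θ * Complex.I) • b)) η) +
        c' * Real.log (max (F' (a + Complex.exp (θ * Complex.I) • b)) η)) :=
    (hu.const_mul c).add (hu'.const_mul c')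
  have hvb : ∀ θ : ℝ, |c * Real.log (max (F (a + Complex.exp (θ * Complex.I) • b)) η) +
        c' * Real.log (max (F' (a + Complex.exp (θ * Complex.I) • b)) η)| ≤ c * B + c' * B' := by
    intro θ
    refine (abs_add_le _ _).trans (add_le_add ?_ ?_)
    · rw [abs_mul, abs_of_pos hc]
      exact mul_le_mul_of_nonneg_left (hub θ) hc.le
    · rw [abs_mul, abs_of_pos hc']
      exact mul_le_mul_of_nonneg_left (hub' θ) hc'.le
  have hwb : ∀ θ : ℝ, |max (c * Real.log (max (F (a + Complex.exp (θ * Complex.I) • b)) η) +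
        c' * Real.log (max (F' (a + Complex.exp (θ * Complex.I) • b)) η)) (Real.log δ)| ≤
        max (c * B + c' * B') |Real.log δ| := fun θ =>
    (abs_max_le_max_abs_abs).trans (max_le_max_right _ (hvb θ))
  refine max_le ?_ ?_
  · have h1 := hF.submean η hη a b hab
    have h2 := hF'.submean η hη a b hab
    have h3 : (2 * Real.pi)⁻¹ * ∫ θ in (0 : ℝ)..(2 * Real.pi),
        (c * Real.log (max (F (a + Complex.exp (θ * Complex.I) • b)) η) +
        c' * Real.log (max (F' (a + Complex.exp (θ * Complex.I) • b)) η)) =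
        c * ((2 * Real.pi)⁻¹ * ∫ θ in (0 : ℝ)..(2 * Real.pi),
          Real.log (max (F (a + Complex.exp (θ * Complex.I) • b)) η)) +
        c' * ((2 * Real.pi)⁻¹ * ∫ θ in (0 : ℝ)..(2 * Real.pi),
          Real.log (max (F' (a + Complex.exp (θ * Complex.I) • b)) η)) := by
      rw [intervalIntegral.integral_add ((ProdPsh_int hu hub).const_mul c)
        ((ProdPsh_int hu' hub').const_mul c'), intervalIntegral.integral_const_mul,
        intervalIntegral.integral_const_mul]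
      ring
    have h4 := mul_le_mul_of_nonneg_left h1 hc.le
    have h5 := mul_le_mul_of_nonneg_left h2 hc'.le
    refine le_trans (add_le_add h4 h5) ?_
    rw [← h3]
    exact ProdPsh_mono hv hvb (hv.max measurable_const) hwb fun θ => le_max_left _ _
  · have h1 := ProdPsh_mean_const (Real.log δ)
    rw [← h1]
    conv_rhs => rw [h1]
    exact ProdPsh_mono measurable_const (fun _ => le_refl |Real.log δ|)
      (hv.max measurable_const) hwb fun θ => le_max_right _ _

theorem uprod_mul {F F' : Cn n → ℝ} (hF : PshOn Ω F) (hF' : PshOn Ω F') {c c' : ℝ} (hc : 0 < c)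
    (hc' : 0 < c') : PshOn Ω (fun x => F x ^ c * F' x ^ c') where
  nonneg x hx := mul_nonneg (Real.rpow_nonneg (hF.nonneg x hx) _)
    (Real.rpow_nonneg (hF'.nonneg x hx) _)
  usc := uprod_usc_mul (uprod_usc_rpow hF.usc hF.nonneg hc)
    (uprod_usc_rpow hF'.usc hF'.nonneg hc') (fun x hx => Real.rpow_nonneg (hF.nonneg x hx) _)
    (fun x hx => Real.rpow_nonneg (hF'.nonneg x hx) _)
  submean := by
    intro δ hδ a b hab
    obtain ⟨M, hM1, hM⟩ := uprod_bdd hF.usc hab
    obtain ⟨M', hM1', hM'⟩ := uprod_bdd hF'.usc hab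
    have hη : ∀ m : ℕ, (0 : ℝ) < 1 / ((m : ℝ) + 1) := fun m => Nat.one_div_pos_of_nat
    have hη1 : ∀ m : ℕ, 1 / ((m : ℝ) + 1) ≤ 1 := fun m => by
      rw [div_le_one (by positivity)]
      have : (0 : ℝ) ≤ m := Nat.cast_nonneg m
      linarith
    have hlim : ∀ z ∈ Ω, Tendsto (fun m : ℕ => Real.log (max (max (F z) (1 / ((m : ℝ) + 1)) ^ c *
        max (F' z) (1 / ((m : ℝ) + 1)) ^ c') δ)) atTop
        (𝓝 (Real.log (max (F z ^ c * F' z ^ c') δ))) := by
      intro z hz
      have h1 : Tendsto (fun m : ℕ => max (F z) (1 / ((m : ℝ) + 1))) atTop (𝓝 (F z)) := by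
        have h2 : Tendsto (fun m : ℕ => max (F z) (1 / ((m : ℝ) + 1))) atTop
            (𝓝 (max (F z) 0)) := tendsto_const_nhds.max tendsto_one_div_add_atTop_nhds_zero_nat
        rwa [max_eq_left (hF.nonneg z hz)] at h2
      have h1' : Tendsto (fun m : ℕ => max (F' z) (1 / ((m : ℝ) + 1))) atTop (𝓝 (F' z)) := by
        have h2 : Tendsto (fun m : ℕ => max (F' z) (1 / ((m : ℝ) + 1))) atTop
            (𝓝 (max (F' z) 0)) := tendsto_const_nhds.max tendsto_one_div_add_atTop_nhds_zero_nat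
        rwa [max_eq_left (hF'.nonneg z hz)] at h2
      have h3 := (h1.rpow_const (p := c) (Or.inr hc.le)).mul
        (h1'.rpow_const (p := c') (Or.inr hc'.le))
      have h4 := h3.max (tendsto_const_nhds (x := δ))
      exact h4.log (ne_of_gt (lt_of_lt_of_le hδ (le_max_right _ _)))
    refine ProdPsh_lim (C := |Real.log δ| + |Real.log (max (M ^ c * M' ^ c') δ)|) ?_ ?_
      (fun θ => hlim (a + Complex.exp (θ * Complex.I) • b) (uprod_circ hab θ))
      (hlim a (uprod_center hab))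
      (fun m => uprod_trunc hF hF' hc hc' hδ (hη m) hab)
    · intro m
      have h1 := (uprod_meas hF.usc hab).max (measurable_const (a := 1 / ((m : ℝ) + 1)))
      have h2 := (uprod_meas hF'.usc hab).max (measurable_const (a := 1 / ((m : ℝ) + 1)))
      exact Real.measurable_log.comp
        (((h1.pow_const c).mul (h2.pow_const c')).max measurable_const)
    · intro m θ
      refine ProdPsh_logb hδ (mul_le_mul ?_ ?_ ?_ ?_)
      · exact Real.rpow_le_rpow ((hη m).le.trans (le_max_right _ _))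
          (max_le (hM θ) ((hη1 m).trans hM1)) hc.le
      · exact Real.rpow_le_rpow ((hη m).le.trans (le_max_right _ _))
          (max_le (hM' θ) ((hη1 m).trans hM1')) hc'.le
      · exact Real.rpow_nonneg ((hη m).le.trans (le_max_right _ _)) _
      · exact Real.rpow_nonneg (zero_le_one.trans hM1) _

theorem uprod_usc_inf {F : ℕ → Cn n → ℝ} (hF : ∀ k, UpperSemicontinuousOn (F k) Ω)
    (h0 : ∀ k, ∀ x ∈ Ω, 0 ≤ F k x) : UpperSemicontinuousOn (fun x => ⨅ k, F k x) Ω := by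
  intro x hx y hy
  obtain ⟨k, hk⟩ := exists_lt_of_ciInf_lt hy
  filter_upwards [hF k x hx y hk, self_mem_nhdsWithin] with z hz hzΩ
  exact lt_of_le_of_lt (ciInf_le ⟨0, by
    rintro _ ⟨m, rfl⟩
    exact h0 m z hzΩ⟩ k) hz

theorem uprod_inf {F : ℕ → Cn n → ℝ} (hF : ∀ k, PshOn Ω (F k))
    (ha : ∀ x ∈ Ω, Antitone (fun k => F k x)) : PshOn Ω (fun x => ⨅ k, F k x) where
  nonneg x hx := Real.iInf_nonneg fun k => (hF k).nonneg x hx
  usc := uprod_usc_inf (fun k => (hF k).usc) (fun k => (hF k).nonneg)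
  submean := by
    intro δ hδ a b hab
    obtain ⟨M, hM1, hM⟩ := uprod_bdd (hF 0).usc hab
    have hlim : ∀ z ∈ Ω, Tendsto (fun k : ℕ => Real.log (max (F k z) δ)) atTop
        (𝓝 (Real.log (max (⨅ k, F k z) δ))) := by
      intro z hz
      have h1 : Tendsto (fun k => F k z) atTop (𝓝 (⨅ k, F k z)) :=
        tendsto_atTop_ciInf (ha z hz) ⟨0, by
          rintro _ ⟨k, rfl⟩
          exact (hF k).nonneg z hz⟩
      have h4 := h1.max (tendsto_const_nhds (x := δ))
      exact h4.log (ne_of_gt (lt_of_lt_of_le hδ (le_max_right _ _)))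
    refine ProdPsh_lim (C := |Real.log δ| + |Real.log (max M δ)|) ?_ ?_
      (fun θ => hlim (a + Complex.exp (θ * Complex.I) • b) (uprod_circ hab θ))
      (hlim a (uprod_center hab))
      (fun k => (hF k).submean δ hδ a b hab)
    · intro k
      exact Real.measurable_log.comp ((uprod_meas (hF k).usc hab).max measurable_const)
    · intro k θ
      exact ProdPsh_logb hδ ((ha _ (uprod_circ hab θ) (Nat.zero_le k)).trans (hM θ))

theorem uprod_one : PshOn Ω (fun _ : Cn n => (1 : ℝ)) where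
  nonneg _ _ := zero_le_one
  usc := fun x _ y hy => Eventually.of_forall fun _ => hy
  submean := by
    intro δ _ a b _
    rw [ProdPsh_mean_const]

theorem uprod_exp {u : Cn n → ℝ} (hu : SubOn Ω u) (hc : ContinuousOn u Ω) :
    PshOn Ω (fun z => Real.exp (u z)) where
  nonneg _ _ := (Real.exp_pos _).le
  usc := (Real.continuous_exp.comp_continuousOn hc).upperSemicontinuousOn
  submean := by
    intro δ hδ a b hab
    have hform : ∀ z, Real.log (max (Real.exp (u z)) δ) = max (u z) (Real.log δ) := by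
      intro z
      rcases le_total (Real.exp (u z)) δ with h | h
      · rw [max_eq_right h, max_eq_right]
        rw [← Real.log_exp (u z)]
        exact Real.log_le_log (Real.exp_pos _) h
      · rw [max_eq_left h, Real.log_exp, max_eq_left]
        rw [← Real.log_exp (u z)]
        exact Real.log_le_log hδ h
    simp only [hform]
    have hg : Continuous (fun θ : ℝ => u (a + Complex.exp (θ * Complex.I) • b)) := by
      have h1 : Continuous (fun θ : ℝ => a + Complex.exp (θ * Complex.I) • b) := by fun_prop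
      exact hc.comp_continuous h1 (fun θ => uprod_circ hab θ)
    have hK : ∃ M : ℝ, ∀ θ : ℝ, |u (a + Complex.exp (θ * Complex.I) • b)| ≤ M := by
      have hK : IsCompact ((fun ζ : ℂ => a + ζ • b) '' sphere 0 1) :=
        (isCompact_sphere 0 1).image (by fun_prop)
      have hs : ((fun ζ : ℂ => a + ζ • b) '' sphere 0 1) ⊆ Ω := by
        rintro _ ⟨ζ, hζ, rfl⟩
        exact hab ζ (by rw [mem_sphere_zero_iff_norm] at hζ; exact hζ.le)
      obtain ⟨M, hM⟩ := hK.exists_bound_of_continuousOn (hc.mono hs)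
      refine ⟨M, fun θ => ?_⟩
      have := hM (a + Complex.exp (θ * Complex.I) • b) ⟨_, by
        rw [mem_sphere_zero_iff_norm, Complex.norm_exp_ofReal_mul_I], rfl⟩
      rwa [Real.norm_eq_abs] at this
    obtain ⟨M, hM⟩ := hK
    have hwb : ∀ θ : ℝ, |max (u (a + Complex.exp (θ * Complex.I) • b)) (Real.log δ)| ≤
        max M |Real.log δ| := fun θ => (abs_max_le_max_abs_abs).trans (max_le_max_right _ (hM θ))
    refine max_le ?_ ?_
    · refine (hu a b hab).trans ?_
      exact ProdPsh_mono hg.measurable hM (hg.measurable.max measurable_const) hwb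
        fun θ => le_max_left _ _
    · have h1 := ProdPsh_mean_const (Real.log δ)
      rw [← h1]
      conv_rhs => rw [h1]
      exact ProdPsh_mono measurable_const (fun _ => le_refl |Real.log δ|)
        (hg.measurable.max measurable_const) hwb fun θ => le_max_right _ _

theorem uprod_congr {F G : Cn n → ℝ} (hF : PshOn Ω F) (h : ∀ z ∈ Ω, F z = G z) : PshOn Ω G where
  nonneg x hx := by rw [← h x hx]; exact hF.nonneg x hx
  usc := by
    intro x hx y hy
    have hy' : F x < y := by rw [h x hx]; exact hy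
    filter_upwards [hF.usc x hx y hy', self_mem_nhdsWithin] with z hz hzΩ
    rwa [← h z hzΩ]
  submean := by
    intro δ hδ a b hab
    have h1 := hF.submean δ hδ a b hab
    rw [h a (uprod_center hab)] at h1
    refine h1.trans (le_of_eq ?_)
    congr 1
    refine intervalIntegral.integral_congr fun θ _ => ?_
    have h2 := h _ (uprod_circ hab θ)
    rw [h2]

end UProdAux

variable {n : ℕ} {X : Type} [TopologicalSpace X] (K : KM n X)

section UProdMain

open Filter

theorem uprod_nonneg {F : X → ℝ} (hF : KPsh K F) (x : X) : 0 ≤ F x := by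
  obtain ⟨i, z, hz, rfl⟩ := K.cover x
  have h := (hF.loc i).nonneg z (ball_subset_ball (by norm_num) hz)
  exact nonneg_of_mul_nonneg_left h (Real.exp_pos _)

/-- partial products -/
noncomputable def uprodD (F : ℕ → X → ℝ) (k : ℕ) (x : X) : ℝ :=
  ∏ j ∈ Finset.range k, F j x ^ ((1 / 2 : ℝ) ^ (j + 1))

theorem uprod_ratio {F : ℕ → X → ℝ} (hF : ∀ j, KPsh K (F j)) (h1 : ∀ j x, F j x ≤ 1) (j : ℕ)
    (x : X) : 0 ≤ F j x ^ ((1 / 2 : ℝ) ^ (j + 1)) ∧ F j x ^ ((1 / 2 : ℝ) ^ (j + 1)) ≤ 1 :=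
  ⟨Real.rpow_nonneg (uprod_nonneg K (hF j) x) _,
    Real.rpow_le_one (uprod_nonneg K (hF j) x) (h1 j x) (by positivity)⟩

theorem uprod_D_nonneg {F : ℕ → X → ℝ} (hF : ∀ j, KPsh K (F j)) (k : ℕ) (x : X) :
    0 ≤ uprodD F k x :=
  Finset.prod_nonneg fun j _ => Real.rpow_nonneg (uprod_nonneg K (hF j) x) _

theorem uprod_D_anti {F : ℕ → X → ℝ} (hF : ∀ j, KPsh K (F j)) (h1 : ∀ j x, F j x ≤ 1) (x : X) :
    Antitone (fun k => uprodD F k x) := by
  apply antitone_nat_of_succ_le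
  intro k
  have h2 : uprodD F (k + 1) x = uprodD F k x * F k x ^ ((1 / 2 : ℝ) ^ (k + 1)) := by
    unfold uprodD
    rw [Finset.prod_range_succ]
  rw [h2]
  exact mul_le_of_le_one_right (uprod_D_nonneg K hF k x) (uprod_ratio K hF h1 k x).2

theorem uprod_rho (i : Fin K.N) : PshOn (ball 0 3) (fun z => Real.exp (K.ρ i z)) := by
  refine uprod_exp ?_ (K.ρ_smooth i).continuousOn
  refine smooth_sub isOpen_ball (K.ρ_smooth i) fun z hz ξ => ?_
  by_cases h : ξ = 0
  · subst h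
    unfold lev
    simp
  · exact (K.ρ_pos i z hz ξ h).le

theorem uprod_D_form {F : ℕ → X → ℝ} (hF : ∀ j, KPsh K (F j)) (i : Fin K.N) (k : ℕ) (z : Cn n) :
    uprodD F k (K.κ i z) * Real.exp (K.ρ i z) =
      Real.exp (K.ρ i z) ^ ((1 / 2 : ℝ) ^ k) *
        (∏ j ∈ Finset.range k, (F j (K.κ i z) * Real.exp (K.ρ i z)) ^ ((1 / 2 : ℝ) ^ (j + 1))) ^
          (1 : ℝ) := by
  rw [Real.rpow_one]
  induction k with
  | zero => simp [uprodD]
  | succ k ih =>
    have h1 : uprodD F (k + 1) (K.κ i z) =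
        uprodD F k (K.κ i z) * F k (K.κ i z) ^ ((1 / 2 : ℝ) ^ (k + 1)) := by
      unfold uprodD
      rw [Finset.prod_range_succ]
    have h2 : Real.exp (K.ρ i z) ^ ((1 / 2 : ℝ) ^ k) =
        Real.exp (K.ρ i z) ^ ((1 / 2 : ℝ) ^ (k + 1)) *
          Real.exp (K.ρ i z) ^ ((1 / 2 : ℝ) ^ (k + 1)) := by
      rw [← Real.rpow_add (Real.exp_pos _)]
      congr 1
      rw [pow_succ]
      ring
    rw [h1, mul_right_comm, ih, h2, Finset.prod_range_succ,
      Real.mul_rpow (uprod_nonneg K (hF k) _) (Real.exp_pos _).le]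
    ring

theorem uprod_D_psh {F : ℕ → X → ℝ} (hF : ∀ j, KPsh K (F j)) (i : Fin K.N) (k : ℕ) :
    PshOn (ball 0 3) (fun z => uprodD F k (K.κ i z) * Real.exp (K.ρ i z)) := by
  have h1 : PshOn (ball 0 3) (fun z => ∏ j ∈ Finset.range k,
      (F j (K.κ i z) * Real.exp (K.ρ i z)) ^ ((1 / 2 : ℝ) ^ (j + 1))) := by
    induction k with
    | zero =>
      simp only [Finset.range_zero, Finset.prod_empty]
      exact uprod_one
    | succ k ih =>
      have h2 := uprod_mul ih ((hF k).loc i) one_pos (c' := (1 / 2 : ℝ) ^ (k + 1)) (by positivity)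
      simp only [Real.rpow_one] at h2
      simp only [Finset.prod_range_succ]
      exact h2
  have h2 := uprod_mul (uprod_rho K i) h1 (c := (1 / 2 : ℝ) ^ k) (by positivity) one_pos
  exact uprod_congr h2 fun z _ => (uprod_D_form K hF i k z).symm

theorem uprod_nontrivial [CompactSpace X] [ConnectedSpace X] (hn : 1 ≤ n) {F : ℕ → X → ℝ}
    (hF : ∀ j, KPsh K (F j)) (h1 : ∀ j x, F j x ≤ 1) (h2 : ∀ j, ∃ x, F j x = 1) :
    ∃ x, (⨅ k, uprodD F k x) ≠ 0 := by
  obtain ⟨x₀, _⟩ := h2 0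
  obtain ⟨i, _, _, _⟩ := K.cover x₀
  obtain ⟨C, hC0, hC⟩ := K.log_L1 hn (A := 1) one_pos
  have hC' : ∀ j, IntegrableOn (fun z => Real.log (F j (K.κ i z))) (ball 0 (3 / 2)) ∧
        volume {z : Cn n | ‖z‖ < 3 / 2 ∧ F j (K.κ i z) = 0} = 0 ∧
        ∫ z in ball (0 : Cn n) (3 / 2), |Real.log (F j (K.κ i z))| ≤ C := by
    intro j
    obtain ⟨x, hx⟩ := h2 j
    exact hC (F j) (hF j) (h1 j) ⟨x, hx.ge⟩ i
  have hint : ∀ j, Integrable (fun z => (1 / 2 : ℝ) ^ (j + 1) * |Real.log (F j (K.κ i z))|)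
      (volume.restrict (ball (0 : Cn n) (3 / 2))) := fun j => (hC' j).1.abs.const_mul _
  have hj : ∀ j, ∫⁻ z in ball (0 : Cn n) (3 / 2),
      ENNReal.ofReal ((1 / 2 : ℝ) ^ (j + 1) * |Real.log (F j (K.κ i z))|) ≤
        ENNReal.ofReal ((1 / 2 : ℝ) ^ (j + 1) * C) := by
    intro j
    rw [← ofReal_integral_eq_lintegral_ofReal (hint j)
      (Eventually.of_forall fun x => by positivity), integral_const_mul]
    exact ENNReal.ofReal_le_ofReal
      (mul_le_mul_of_nonneg_left (hC' j).2.2 (by positivity))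
  have hmeas : ∀ j, AEMeasurable
      (fun z => ENNReal.ofReal ((1 / 2 : ℝ) ^ (j + 1) * |Real.log (F j (K.κ i z))|))
      (volume.restrict (ball (0 : Cn n) (3 / 2))) := fun j =>
    (hint j).aestronglyMeasurable.aemeasurable.ennreal_ofReal
  have hsum : ∫⁻ z in ball (0 : Cn n) (3 / 2),
      ∑' j, ENNReal.ofReal ((1 / 2 : ℝ) ^ (j + 1) * |Real.log (F j (K.κ i z))|) ≠ ⊤ := by
    rw [lintegral_tsum hmeas]
    refine ne_top_of_le_ne_top ?_ (ENNReal.tsum_le_tsum hj)
    apply Summable.tsum_ofReal_ne_top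
    exact ((summable_geometric_of_lt_one (by norm_num) (by norm_num : (1 / 2 : ℝ) < 1)).comp_injective
      (add_left_injective 1)).mul_right C
  have hae1 : ∀ᵐ z ∂(volume.restrict (ball (0 : Cn n) (3 / 2))),
      ∑' j, ENNReal.ofReal ((1 / 2 : ℝ) ^ (j + 1) * |Real.log (F j (K.κ i z))|) < ⊤ :=
    ae_lt_top' (AEMeasurable.tsum hmeas) hsum
  have hae3 : ∀ᵐ z ∂(volume.restrict (ball (0 : Cn n) (3 / 2))), z ∈ ball (0 : Cn n) (3 / 2) :=
    ae_restrict_mem measurableSet_ball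
  have hae2 : ∀ᵐ z ∂(volume.restrict (ball (0 : Cn n) (3 / 2))),
      ∀ j, ¬ (‖z‖ < 3 / 2 ∧ F j (K.κ i z) = 0) := by
    rw [ae_all_iff]
    intro j
    apply ae_restrict_of_ae
    exact measure_eq_zero_iff_ae_notMem.1 (hC' j).2.1
  have hne : NeBot (ae (volume.restrict (ball (0 : Cn n) (3 / 2)))) := by
    rw [ae_neBot]
    intro h
    rw [Measure.restrict_eq_zero] at h
    exact (measure_ball_pos volume (0 : Cn n) (by norm_num)).ne' h
  obtain ⟨z, hx1, hx2, hx3⟩ := (hae1.and (hae2.and hae3)).exists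
  refine ⟨K.κ i z, ?_⟩
  rw [mem_ball_zero_iff] at hx3
  have hpos : ∀ j, 0 < F j (K.κ i z) := fun j =>
    lt_of_le_of_ne (uprod_nonneg K (hF j) _) fun h => hx2 j ⟨hx3, h.symm⟩
  set S : ℝ := (∑' j, ENNReal.ofReal ((1 / 2 : ℝ) ^ (j + 1) *
    |Real.log (F j (K.κ i z))|)).toReal with hS
  have hpart : ∀ k, ∑ j ∈ Finset.range k, (1 / 2 : ℝ) ^ (j + 1) * |Real.log (F j (K.κ i z))| ≤ S := by
    intro k
    rw [hS, ← ENNReal.ofReal_le_iff_le_toReal hx1.ne,
      ENNReal.ofReal_sum_of_nonneg fun j _ => by positivity]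
    exact ENNReal.sum_le_tsum _
  have hlow : ∀ k, Real.exp (-S) ≤ uprodD F k (K.κ i z) := by
    intro k
    unfold uprodD
    calc Real.exp (-S) ≤ Real.exp (∑ j ∈ Finset.range k,
          -((1 / 2 : ℝ) ^ (j + 1) * |Real.log (F j (K.κ i z))|)) := by
          apply Real.exp_le_exp.2
          rw [Finset.sum_neg_distrib]
          exact neg_le_neg (hpart k)
      _ = ∏ j ∈ Finset.range k, Real.exp (-((1 / 2 : ℝ) ^ (j + 1) *
            |Real.log (F j (K.κ i z))|)) := Real.exp_sum _ _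
      _ ≤ _ := by
          refine Finset.prod_le_prod (fun j _ => (Real.exp_pos _).le) fun j _ => ?_
          rw [Real.rpow_def_of_pos (hpos j)]
          apply Real.exp_le_exp.2
          have h1 := neg_abs_le (Real.log (F j (K.κ i z)))
          have h2 : (0 : ℝ) ≤ (1 / 2) ^ (j + 1) := by positivity
          nlinarith
  have h3 : Real.exp (-S) ≤ ⨅ k, uprodD F k (K.κ i z) := le_ciInf hlow
  exact (lt_of_lt_of_le (Real.exp_pos _) h3).ne'

end UProdMain

theorem KM.prod [CompactSpace X] [ConnectedSpace X] (hn : 1 ≤ n) (F : ℕ → X → ℝ)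
    (hF : ∀ j, KPsh K (F j)) (h1 : ∀ j x, F j x ≤ 1) (h2 : ∀ j, ∃ x, F j x = 1) :
    ∃ G : X → ℝ, KPsh K G ∧ ∀ j x, G x ≤ F j x ^ ((1 / 2 : ℝ) ^ (j + 1)) := by
  have hb : ∀ x, BddBelow (range fun k => uprodD F k x) := fun x => ⟨0, by
    rintro _ ⟨k, rfl⟩
    exact uprod_D_nonneg K hF k x⟩
  refine ⟨fun x => ⨅ k, uprodD F k x, ⟨fun i => ?_, uprod_nontrivial K hn hF h1 h2⟩, ?_⟩
  · have h3 := uprod_inf (fun k => uprod_D_psh K hF i k) (fun z _ k l hkl =>
      mul_le_mul_of_nonneg_right (uprod_D_anti K hF h1 (K.κ i z) hkl) (Real.exp_pos _).le)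
    refine uprod_congr h3 fun z _ => ?_
    rw [Real.iInf_mul_of_nonneg (Real.exp_pos _).le]
  · intro j x
    refine (ciInf_le (hb x) (j + 1)).trans ?_
    have h4 : uprodD F (j + 1) x = uprodD F j x * F j x ^ ((1 / 2 : ℝ) ^ (j + 1)) := by
      unfold uprodD
      rw [Finset.prod_range_succ]
    rw [h4]
    refine mul_le_of_le_one_left (uprod_ratio K hF h1 j x).1 ?_
    unfold uprodD
    exact Finset.prod_le_one (fun i _ => (uprod_ratio K hF h1 i x).1)
      fun i _ => (uprod_ratio K hF h1 i x).2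

end HMA

end S_KM_UProd

section S_KW_SubL

/-! # Module SubL: elementary properties of `SubOn`, composition with convex functions -/

open MeasureTheory Metric Set Filter
open scoped ENNReal Topology ContDiff ComplexOrder

namespace HMA

variable {n : ℕ} {Ω Ω' : Set (Cn n)} {u v : Cn n → ℝ}

theorem kw_sub_mono (hu : SubOn Ω u) (h : Ω' ⊆ Ω) : SubOn Ω' u := by
  intro a b hab
  exact hu a b (fun ζ hζ => h (hab ζ hζ))

theorem kw_sub_congr (hu : SubOn Ω u) (h : ∀ z ∈ Ω, v z = u z) : SubOn Ω v := by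
  intro a b hab
  rw [h a (uprod_center hab)]
  refine (hu a b hab).trans (le_of_eq ?_)
  congr 1
  refine intervalIntegral.integral_congr fun θ _ => ?_
  exact (h _ (uprod_circ hab θ)).symm

theorem kw_sub_add_const (hu : SubOn Ω u) (hc : UpperSemicontinuousOn u Ω)
    (hb : ∀ L ⊆ Ω, IsCompact L → ∃ M : ℝ, ∀ z ∈ L, -M ≤ u z) (c : ℝ) :
    SubOn Ω (fun z => u z + c) := by
  intro a b hab
  have hi := (LocGlob_int hc hb a b (fun θ => uprod_circ hab θ)).1
  have h1 := hu a b hab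
  have h2 : (2 * Real.pi)⁻¹ * ∫ θ in (0 : ℝ)..(2 * Real.pi),
      (u (a + Complex.exp (θ * Complex.I) • b) + c) = (2 * Real.pi)⁻¹ *
      (∫ θ in (0 : ℝ)..(2 * Real.pi), u (a + Complex.exp (θ * Complex.I) • b)) + c := by
    rw [intervalIntegral.integral_add hi intervalIntegrable_const, mul_add,
      ProdPsh_mean_const]
  show u a + c ≤ _
  rw [h2]
  linarith

/-- continuity on circles -/
theorem subl_circ (hc : ContinuousOn u Ω) {a b : Cn n} (hab : ∀ ζ : ℂ, ‖ζ‖ ≤ 1 → a + ζ • b ∈ Ω) :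
    Continuous (fun θ : ℝ => u (a + Complex.exp (θ * Complex.I) • b)) := by
  have h1 : Continuous (fun θ : ℝ => a + Complex.exp (θ * Complex.I) • b) := by fun_prop
  exact hc.comp_continuous h1 (fun θ => uprod_circ hab θ)

theorem kw_sub_add (hu : SubOn Ω u) (hv : SubOn Ω v) (hcu : ContinuousOn u Ω)
    (hcv : ContinuousOn v Ω) : SubOn Ω (fun z => u z + v z) := by
  intro a b hab
  have hi1 := (subl_circ hcu hab).intervalIntegrable (μ := volume) 0 (2 * Real.pi)
  have hi2 := (subl_circ hcv hab).intervalIntegrable (μ := volume) 0 (2 * Real.pi)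
  have h1 := hu a b hab
  have h2 := hv a b hab
  show u a + v a ≤ _
  rw [intervalIntegral.integral_add hi1 hi2, mul_add]
  exact add_le_add h1 h2

theorem kw_sub_mul (hu : SubOn Ω u) {c : ℝ} (hc : 0 ≤ c) : SubOn Ω (fun z => c * u z) := by
  intro a b hab
  have h1 := mul_le_mul_of_nonneg_left (hu a b hab) hc
  show c * u a ≤ _
  rw [intervalIntegral.integral_const_mul]
  refine h1.trans (le_of_eq ?_)
  ring

theorem subl_average (f : ℝ → ℝ) : (2 * Real.pi)⁻¹ * ∫ θ in (0 : ℝ)..(2 * Real.pi), f θ =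
    ⨍ θ in Ioc 0 (2 * Real.pi), f θ := by
  rw [setAverage_eq, intervalIntegral.integral_of_le Real.two_pi_pos.le, smul_eq_mul]
  simp [Real.two_pi_pos.le]

/-- Jensen's inequality -/
theorem kw_sub_convex {N : ℕ} {w : Fin N → Cn n → ℝ} (hc : ∀ i, ContinuousOn (w i) Ω)
    (hw : ∀ i, SubOn Ω (w i)) {M : (Fin N → ℝ) → ℝ} (hM : Continuous M)
    (hcv : ConvexOn ℝ univ M) (hm : Monotone M) : SubOn Ω (fun z => M (fun i => w i z)) := by
  intro a b hab
  have hcont : ∀ i, Continuous (fun θ : ℝ => w i (a + Complex.exp (θ * Complex.I) • b)) :=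
    fun i => subl_circ (hc i) hab
  set f : ℝ → (Fin N → ℝ) := fun θ i => w i (a + Complex.exp (θ * Complex.I) • b) with hf
  have hfc : Continuous f := continuous_pi hcont
  have hfin : volume (Ioc 0 (2 * Real.pi)) ≠ ⊤ := measure_Ioc_lt_top.ne
  have h0 : volume (Ioc 0 (2 * Real.pi)) ≠ 0 := by
    rw [Real.volume_Ioc]
    simp [Real.pi_pos]
  have hfi : IntegrableOn f (Ioc 0 (2 * Real.pi)) volume :=
    (hfc.integrableOn_Icc (a := 0) (b := 2 * Real.pi)).mono_set Ioc_subset_Icc_self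
  have hgi : IntegrableOn (M ∘ f) (Ioc 0 (2 * Real.pi)) volume :=
    ((hM.comp hfc).integrableOn_Icc (a := 0) (b := 2 * Real.pi)).mono_set Ioc_subset_Icc_self
  have hJ := hcv.map_set_average_le hM.continuousOn isClosed_univ h0 hfin
    (ae_of_all _ fun θ => mem_univ _) hfi hgi
  have h1 : ∀ i, w i a ≤ (⨍ θ in Ioc 0 (2 * Real.pi), f θ) i := by
    intro i
    have h2 := hw i a b hab
    rw [subl_average] at h2
    refine h2.trans (le_of_eq ?_)
    rw [setAverage_eq, setAverage_eq, Pi.smul_apply]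
    congr 1
    have h3 := ContinuousLinearMap.integral_comp_comm
      (ContinuousLinearMap.proj (R := ℝ) (φ := fun _ : Fin N => ℝ) i) hfi
    exact h3
  show M (fun i => w i a) ≤ _
  rw [subl_average]
  exact (hm h1).trans hJ

/-- local bounds on a given ball -/
theorem subl_ball (hu : C11 Ω u) {z : Cn n} {r : ℝ} (hrΩ : closedBall z r ⊆ Ω) :
    (∃ C : NNReal, LipschitzOnWith C (fderiv ℝ u) (closedBall z r)) ∧
    (∃ D : NNReal, LipschitzOnWith D u (closedBall z r)) ∧
    (∃ A : ℝ, ∀ w ∈ closedBall z r, ‖fderiv ℝ u w‖ ≤ A ∧ |u w| ≤ A) := by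
  obtain ⟨C, hC⟩ := hu.lip _ (isCompact_closedBall z r) hrΩ
  obtain ⟨A, hA⟩ := (isCompact_closedBall z r).exists_bound_of_continuousOn hC.continuousOn
  obtain ⟨A', hA'⟩ := (isCompact_closedBall z r).exists_bound_of_continuousOn
    (hu.continuousOn.mono hrΩ)
  refine ⟨⟨C, hC⟩, ⟨Real.toNNReal A, ?_⟩, ⟨max A A', fun w hw => ⟨(hA w hw).trans
    (le_max_left _ _), (hA' w hw).trans (le_max_right _ _)⟩⟩⟩
  apply Convex.lipschitzOnWith_of_nnnorm_fderiv_le (𝕜 := ℝ) (fun w hw => hu.diff w (hrΩ hw)) ?_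
    (convex_closedBall z r)
  intro w hw
  rw [← NNReal.coe_le_coe, coe_nnnorm]
  exact (hA w hw).trans (Real.le_coe_toNNReal A)

theorem subl_lip_sum {ι E : Type*} [NormedAddCommGroup E] [NormedSpace ℝ E]
    {S : Set (Cn n)} (s : Finset ι) {f : ι → Cn n → E}
    (h : ∀ i, ∃ K : NNReal, LipschitzOnWith K (f i) S) :
    ∃ K : NNReal, LipschitzOnWith K (fun w => ∑ i ∈ s, f i w) S := by
  classical
  induction s using Finset.induction_on with
  | empty =>
    refine ⟨0, ?_⟩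
    simp only [Finset.sum_empty]
    exact (LipschitzWith.const 0).lipschitzOnWith
  | insert i s hi ih =>
    obtain ⟨K, hK⟩ := ih
    obtain ⟨K', hK'⟩ := h i
    refine ⟨K' + K, ?_⟩
    simp only [Finset.sum_insert hi]
    exact hK'.add hK

theorem kw_c11_pi (hΩ : IsOpen Ω) {N : ℕ} {w : Fin N → Cn n → ℝ} (hw : ∀ i, C11 Ω (w i))
    {M : (Fin N → ℝ) → ℝ} (hM : ContDiff ℝ ∞ M) : C11 Ω (fun z => M (fun i => w i z)) := by
  have hMd : Differentiable ℝ M := hM.differentiable (by simp)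
  have hMf : ContDiff ℝ 1 (fderiv ℝ M) := (hM.fderiv_right (m := ∞) le_rfl).of_le (by simp)
  apply c11_of_local hΩ
  intro z hz
  obtain ⟨r, hr, hrΩ⟩ := Metric.nhds_basis_closedBall.mem_iff.1 (hΩ.mem_nhds hz)
  have hb := fun i => subl_ball (hw i) hrΩ
  choose C hC using fun i => (hb i).1
  choose D hD using fun i => (hb i).2.1
  choose A hA using fun i => (hb i).2.2
  have hdiff : ∀ y ∈ closedBall z r, HasFDerivAt (fun z => M (fun i => w i z))
      (∑ i, (fderiv ℝ M (fun i => w i y) (Pi.single i 1)) • fderiv ℝ (w i) y) y := by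
    intro y hy
    have h1 : HasFDerivAt (fun z i => w i z)
        (ContinuousLinearMap.pi fun i => fderiv ℝ (w i) y) y :=
      hasFDerivAt_pi.2 fun i => ((hw i).diff y (hrΩ hy)).hasFDerivAt
    have h2 := (hMd (fun i => w i y)).hasFDerivAt.comp y h1
    refine h2.congr_fderiv ?_
    ext ξ
    rw [ContinuousLinearMap.comp_apply, _root_.sum_apply]
    have h3 : (ContinuousLinearMap.pi fun i => fderiv ℝ (w i) y) ξ =
        ∑ i, (fderiv ℝ (w i) y ξ) • (Pi.single i (1 : ℝ) : Fin N → ℝ) := by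
      ext j
      simp [Finset.sum_apply, Pi.single_apply]
    rw [h3, map_sum]
    refine Finset.sum_congr rfl fun i _ => ?_
    rw [map_smul, smul_eq_mul, _root_.smul_apply, smul_eq_mul, mul_comm]
  -- the vector function
  set W : Cn n → (Fin N → ℝ) := fun z i => w i z with hW
  set B : ℝ := ∑ i, |A i| with hB
  have hA' : ∀ i, |A i| ≤ B := fun i =>
    Finset.single_le_sum (f := fun i => |A i|) (fun j _ => abs_nonneg _) (Finset.mem_univ i)
  have hB0 : 0 ≤ B := Finset.sum_nonneg fun i _ => abs_nonneg _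
  have hmaps : MapsTo W (closedBall z r) (closedBall 0 B) := by
    intro y hy
    rw [mem_closedBall_zero_iff, pi_norm_le_iff_of_nonneg hB0]
    intro i
    rw [Real.norm_eq_abs]
    exact ((hA i y hy).2.trans (le_abs_self _)).trans (hA' i)
  have hWl : LipschitzOnWith (∑ i, D i) W (closedBall z r) := by
    apply LipschitzOnWith.of_dist_le_mul
    intro x hx y hy
    rw [dist_pi_le_iff (by positivity)]
    intro i
    refine ((hD i).dist_le_mul x hx y hy).trans ?_
    refine mul_le_mul_of_nonneg_right ?_ dist_nonneg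
    have : D i ≤ ∑ i, D i := Finset.single_le_sum (fun j _ => zero_le) (Finset.mem_univ i)
    exact_mod_cast this
  have hterm : ∀ i, ∃ K : NNReal, LipschitzOnWith K
      (fun y => (fderiv ℝ M (W y) (Pi.single i 1)) • fderiv ℝ (w i) y) (closedBall z r) := by
    intro i
    have h1 : ContDiff ℝ 1 (fun p => fderiv ℝ M p (Pi.single i (1 : ℝ))) :=
      hMf.clm_apply contDiff_const
    obtain ⟨E, hE⟩ := h1.contDiffOn.exists_lipschitzOnWith (s := closedBall 0 B) one_ne_zero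
      (convex_closedBall _ _) (isCompact_closedBall _ _)
    obtain ⟨F, hF⟩ := (isCompact_closedBall (0 : Fin N → ℝ) B).exists_bound_of_continuousOn
      h1.continuous.continuousOn
    exact C11B_smul_lip (hE.comp hWl hmaps) (hC i) (A := F) (B := A i)
      (fun y hy => hF _ (hmaps hy)) (fun y hy => (hA i y hy).1)
  obtain ⟨K, hK⟩ := subl_lip_sum Finset.univ hterm
  refine ⟨r, hr, K, ball_subset_closedBall.trans hrΩ, fun y hy => ?_, ?_⟩
  · exact (hdiff y (ball_subset_closedBall hy)).differentiableAt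
  · intro x hx y hy
    rw [(hdiff x (ball_subset_closedBall hx)).fderiv, (hdiff y (ball_subset_closedBall hy)).fderiv]
    exact hK (ball_subset_closedBall hx) (ball_subset_closedBall hy)

/-- exponentials of bounded functions -/
theorem kw_pshOn_exp (hs : SubOn Ω u) (hc : UpperSemicontinuousOn u Ω)
    (hb : ∀ L ⊆ Ω, IsCompact L → ∃ M : ℝ, ∀ z ∈ L, -M ≤ u z) :
    PshOn Ω (fun z => Real.exp (u z)) where
  nonneg _ _ := (Real.exp_pos _).le
  usc := by
    intro x hx y hy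
    have hy0 : 0 < y := (Real.exp_pos _).trans hy
    have h1 : u x < Real.log y := (Real.lt_log_iff_exp_lt hy0).2 hy
    filter_upwards [hc x hx _ h1] with z hz
    exact (Real.lt_log_iff_exp_lt hy0).1 hz
  submean := by
    intro δ hδ a b hab
    have hform : ∀ z, Real.log (max (Real.exp (u z)) δ) = max (u z) (Real.log δ) := by
      intro z
      rcases le_total (Real.exp (u z)) δ with h | h
      · rw [max_eq_right h, max_eq_right]
        rw [← Real.log_exp (u z)]
        exact Real.log_le_log (Real.exp_pos _) h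
      · rw [max_eq_left h, Real.log_exp, max_eq_left]
        rw [← Real.log_exp (u z)]
        exact Real.log_le_log hδ h
    simp only [hform]
    have hm : Measurable (fun θ : ℝ => u (a + Complex.exp (θ * Complex.I) • b)) :=
      uprod_meas hc hab
    obtain ⟨M, hM⟩ := (LocGlob_int hc hb a b (fun θ => uprod_circ hab θ)).2
    have hwb : ∀ θ : ℝ, |max (u (a + Complex.exp (θ * Complex.I) • b)) (Real.log δ)| ≤
        max M |Real.log δ| := fun θ => (abs_max_le_max_abs_abs).trans (max_le_max_right _ (hM θ))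
    refine max_le ?_ ?_
    · refine (hs a b hab).trans ?_
      exact ProdPsh_mono hm hM (hm.max measurable_const) hwb
        fun θ => le_max_left _ _
    · have h1 := ProdPsh_mean_const (Real.log δ)
      rw [← h1]
      conv_rhs => rw [h1]
      exact ProdPsh_mono measurable_const (fun _ => le_refl |Real.log δ|)
        (hm.max measurable_const) hwb fun θ => le_max_right _ _

end HMA

end S_KW_SubL

section S_KW_MollC

/-! # Module MollC: mollification of continuous plurisubharmonic functions -/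

open MeasureTheory Metric Set Filter
open scoped ENNReal Topology ContDiff ComplexOrder

namespace HMA

theorem mollC_ext {n : ℕ} {K : Set (Cn n)} (hK : IsCompact K) {u : Cn n → ℝ}
    (hc : ContinuousOn u K) : ∃ (g : Cn n → ℝ) (M : ℝ), Continuous g ∧ (∀ z, |g z| ≤ M) ∧
      ∀ z ∈ K, g z = u z := by
  obtain ⟨M, hM⟩ := hK.exists_bound_of_continuousOn hc
  obtain ⟨g, hg1, hg2⟩ := ContinuousMap.exists_restrict_eq_forall_mem_of_closed
    (⟨K.domRestrict u, continuousOn_iff_continuous_domRestrict.1 hc⟩ : C(K, ℝ))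
    (t := Icc (-|M|) |M|) (fun x => by
      have := hM x x.2
      rw [Real.norm_eq_abs] at this
      exact abs_le.1 (this.trans (le_abs_self M)))
    ⟨0, by constructor <;> simp⟩ hK.isClosed
  refine ⟨g, |M|, g.continuous, fun z => abs_le.2 (hg1 z), fun z hz => ?_⟩
  have := congrArg (fun f : C(K, ℝ) => f ⟨z, hz⟩) hg2
  exact this

theorem mollC_swap {n : ℕ} {g ψ : Cn n → ℝ} {M : ℝ} (hg : Continuous g) (hb : ∀ z, |g z| ≤ M)
    (hψi : Integrable ψ volume) (a b : Cn n) :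
    Integrable (fun y => ψ y *
      ∫ θ in (0 : ℝ)..(2 * Real.pi), g (a - y + Complex.exp (θ * Complex.I) • b)) ∧
    ∫ y, ψ y * (∫ θ in (0 : ℝ)..(2 * Real.pi), g (a - y + Complex.exp (θ * Complex.I) • b)) =
      ∫ θ in (0 : ℝ)..(2 * Real.pi), ∫ y, ψ y * g (a + Complex.exp (θ * Complex.I) • b - y) := by
  have hpi : (0 : ℝ) ≤ 2 * Real.pi := by positivity
  have hI : Integrable (Function.uncurry fun (y : Cn n) (θ : ℝ) =>
      ψ y * g (a - y + Complex.exp (θ * Complex.I) • b))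
      (volume.prod (volume.restrict (Ioc (0 : ℝ) (2 * Real.pi)))) := by
    have h1 : Integrable (fun p : Cn n × ℝ => ψ p.1 * (1 : ℝ))
        (volume.prod (volume.restrict (Ioc (0 : ℝ) (2 * Real.pi)))) :=
      hψi.mul_prod (integrable_const (1 : ℝ))
    simp only [mul_one] at h1
    refine h1.mul_bdd (g := fun p : Cn n × ℝ => g (a - p.1 + Complex.exp (p.2 * Complex.I) • b))
      (c := M) ?_ ?_
    · refine Continuous.aestronglyMeasurable ?_
      exact hg.comp (by fun_prop)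
    · exact Filter.Eventually.of_forall fun p => by
        rw [Real.norm_eq_abs]
        exact hb _
  have h2 : ∀ y : Cn n, ψ y *
      (∫ θ in (0 : ℝ)..(2 * Real.pi), g (a - y + Complex.exp (θ * Complex.I) • b)) =
      ∫ θ, ψ y * g (a - y + Complex.exp (θ * Complex.I) • b)
        ∂(volume.restrict (Ioc (0 : ℝ) (2 * Real.pi))) := by
    intro y
    rw [← intervalIntegral.integral_const_mul, intervalIntegral.integral_of_le hpi]
  constructor
  · refine hI.integral_prod_left.congr (Filter.Eventually.of_forall fun y => ?_)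
    exact (h2 y).symm
  · simp only [h2]
    rw [integral_integral_swap hI, intervalIntegral.integral_of_le hpi]
    refine integral_congr_ae (Filter.Eventually.of_forall fun θ => ?_)
    simp only
    refine integral_congr_ae (Filter.Eventually.of_forall fun y => ?_)
    simp only
    congr 2
    abel

theorem moll_cont {n : ℕ} {Ω : Set (Cn n)} (hΩ : IsOpen Ω) {u : Cn n → ℝ}
    (hc : ContinuousOn u Ω) (hs : SubOn Ω u) {L : Set (Cn n)} (hL : IsCompact L) (hLΩ : L ⊆ Ω)
    {ε : ℝ} (hε : 0 < ε) : ∃ (W : Set (Cn n)) (U : Cn n → ℝ), IsOpen W ∧ L ⊆ W ∧ W ⊆ Ω ∧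
      ContDiff ℝ ∞ U ∧ SubOn W U ∧ ∀ z ∈ W, |U z - u z| ≤ ε := by
  obtain ⟨δ₀, hδ₀, hδΩ⟩ := hL.exists_cthickening_subset_open hΩ hLΩ
  set δ : ℝ := δ₀ / 2 with hδ
  have hδ0 : 0 < δ := by positivity
  set K : Set (Cn n) := cthickening δ₀ L with hK
  have hKc : IsCompact K := hL.cthickening
  obtain ⟨g, M, hgc, hgb, hgu⟩ := mollC_ext hKc (hc.mono hδΩ)
  have huc : UniformContinuousOn g K := hKc.uniformContinuousOn_of_continuous hgc.continuousOn
  obtain ⟨δ₁, hδ₁, huc⟩ := Metric.uniformContinuousOn_iff.1 huc ε hε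
  set r : ℝ := min δ δ₁ with hr
  have hr0 : 0 < r := lt_min hδ0 hδ₁
  let η : ContDiffBump (0 : Cn n) := ⟨r / 2, r, by positivity, by linarith⟩
  have hηr : η.rOut = r := rfl
  set ψ : Cn n → ℝ := η.normed volume with hψdef
  have hψ : ContDiff ℝ ∞ ψ := η.contDiff_normed
  have hψc : HasCompactSupport ψ := η.hasCompactSupport_normed
  have hψi : Integrable ψ volume := hψ.continuous.integrable_of_hasCompactSupport hψc
  have hψ1 : ∫ y, ψ y = 1 := η.integral_normed
  have hψ0 : ∀ y, 0 ≤ ψ y := η.nonneg_normed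
  have hψs : ∀ y, ψ y ≠ 0 → ‖y‖ < r := by
    intro y hy
    have h5 : y ∈ Function.support (η.normed (volume : Measure (Cn n))) := hy
    rw [η.support_normed_eq, hηr, mem_ball_zero_iff] at h5
    exact h5
  have hthick : ∀ z ∈ thickening δ L, ∀ y : Cn n, ‖y‖ < r → z - y ∈ K := by
    intro z hz y hy
    obtain ⟨x, hx, hzx⟩ := mem_thickening_iff.1 hz
    refine mem_cthickening_of_dist_le (z - y) x δ₀ L hx ?_
    have h1 : ‖y‖ < δ := hy.trans_le (min_le_left _ _)
    rw [dist_eq_norm] at hzx ⊢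
    calc ‖z - y - x‖ = ‖(z - x) - y‖ := by congr 1; abel
      _ ≤ ‖z - x‖ + ‖y‖ := norm_sub_le _ _
      _ ≤ δ + δ := by linarith
      _ = δ₀ := by rw [hδ]; ring
  have hWK : thickening δ L ⊆ K := fun z hz => by
    have := hthick z hz 0 (by rw [norm_zero]; exact hr0)
    rwa [sub_zero] at this
  have hint : ∀ z, Integrable (fun y => ψ y * g (z - y)) := fun z =>
    hψi.mul_bdd (c := M) (hgc.comp (by fun_prop)).aestronglyMeasurable
      (Filter.Eventually.of_forall fun y => by rw [Real.norm_eq_abs]; exact hgb _)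
  refine ⟨thickening δ L, fun z => ∫ y, ψ y * g (z - y), isOpen_thickening,
    self_subset_thickening hδ0 L, hWK.trans hδΩ, ?_, ?_, ?_⟩
  · exact hψc.contDiff_convolution_left (ContinuousLinearMap.lsmul ℝ ℝ) hψ
      hgc.locallyIntegrable
  · intro a b hab
    obtain ⟨hJ1, hJ2⟩ := mollC_swap hgc hgb hψi a b
    rw [← hJ2, ← integral_const_mul]
    refine integral_mono (hint a) (hJ1.const_mul _) fun y => ?_
    simp only
    by_cases hy : ψ y = 0
    · rw [hy, zero_mul, zero_mul, mul_zero]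
    · have hyr := hψs y hy
      have hdisc : ∀ ζ : ℂ, ‖ζ‖ ≤ 1 → a - y + ζ • b ∈ K := by
        intro ζ hζ
        have := hthick _ (hab ζ hζ) y hyr
        rwa [show a + ζ • b - y = a - y + ζ • b by abel] at this
      have h1 := hs (a - y) b fun ζ hζ => hδΩ (hdisc ζ hζ)
      have h2 : ∫ θ in (0 : ℝ)..(2 * Real.pi), u (a - y + Complex.exp (θ * Complex.I) • b) =
          ∫ θ in (0 : ℝ)..(2 * Real.pi), g (a - y + Complex.exp (θ * Complex.I) • b) := by
        refine intervalIntegral.integral_congr fun θ _ => ?_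
        exact (hgu _ (hdisc _ (by rw [Complex.norm_exp_ofReal_mul_I]))).symm
      have h3 : g (a - y) = u (a - y) := by
        refine hgu _ ?_
        have := hdisc 0 (by simp)
        rwa [zero_smul, add_zero] at this
      rw [h2] at h1
      rw [h3, mul_left_comm]
      exact mul_le_mul_of_nonneg_left h1 (hψ0 y)
  · intro z hz
    have hzK := hWK hz
    have h1 : (∫ y, ψ y * g (z - y)) - u z = ∫ y, ψ y * (g (z - y) - g z) := by
      have h2 : ∫ y, ψ y * g z = g z := by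
        rw [integral_mul_const, hψ1, one_mul]
      calc (∫ y, ψ y * g (z - y)) - u z = (∫ y, ψ y * g (z - y)) - ∫ y, ψ y * g z := by
            rw [h2, hgu z hzK]
        _ = ∫ y, ψ y * (g (z - y) - g z) := by
            rw [← integral_sub (hint z) (hψi.mul_const _)]
            refine integral_congr_ae (Filter.Eventually.of_forall fun y => ?_)
            simp only
            ring
    rw [h1, ← Real.norm_eq_abs]
    have h3 : ∀ y, ‖ψ y * (g (z - y) - g z)‖ ≤ ψ y * ε := by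
      intro y
      rw [norm_mul, Real.norm_eq_abs, abs_of_nonneg (hψ0 y)]
      by_cases hy : ψ y = 0
      · rw [hy, zero_mul, zero_mul]
      · have hyr := hψs y hy
        refine mul_le_mul_of_nonneg_left ?_ (hψ0 y)
        have h4 := huc (z - y) (hthick z hz y hyr) z hzK (by
          rw [dist_eq_norm, sub_sub_cancel_left, norm_neg]
          exact hyr.trans_le (min_le_right _ _))
        rw [dist_eq_norm] at h4
        exact h4.le
    refine (norm_integral_le_of_norm_le (hψi.mul_const ε)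
      (Filter.Eventually.of_forall h3)).trans ?_
    rw [integral_mul_const, hψ1, one_mul]

end HMA

end S_KW_MollC

section S_KW_SubCC

/-! # Module SubCC: continuous plurisubharmonic functions and holomorphic maps -/

open MeasureTheory Metric Set Filter
open scoped ENNReal Topology ContDiff ComplexOrder

namespace HMA

theorem sub_comp_cont {n : ℕ} {Ω Ω' : Set (Cn n)} (hΩ : IsOpen Ω) (hΩ' : IsOpen Ω')
    {u : Cn n → ℝ} (hc : ContinuousOn u Ω) (hs : SubOn Ω u) {F : Cn n → Cn n}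
    (hF : DifferentiableOn ℂ F Ω') (hm : MapsTo F Ω' Ω) : SubOn Ω' (fun z => u (F z)) := by
  intro a b hab
  have hFc : ContinuousOn F Ω' := hF.continuousOn
  -- the closed disc
  set d : Set (Cn n) := (fun ζ : ℂ => a + ζ • b) '' closedBall 0 1 with hd
  have hdc : IsCompact d := (isCompact_closedBall (0 : ℂ) 1).image (by fun_prop)
  have hdΩ : d ⊆ Ω' := by
    rintro _ ⟨ζ, hζ, rfl⟩
    exact hab ζ (by rwa [mem_closedBall_zero_iff] at hζ)
  have hL : IsCompact (F '' d) := hdc.image_of_continuousOn (hFc.mono hdΩ)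
  have hLΩ : F '' d ⊆ Ω := by
    rintro _ ⟨z, hz, rfl⟩
    exact hm (hdΩ hz)
  have had : a ∈ d := ⟨0, by simp, by simp⟩
  have hcd : ∀ θ : ℝ, a + Complex.exp (θ * Complex.I) • b ∈ d := fun θ =>
    ⟨_, by rw [mem_closedBall_zero_iff, Complex.norm_exp_ofReal_mul_I], rfl⟩
  have hcurve : Continuous (fun θ : ℝ => a + Complex.exp (θ * Complex.I) • b) := by fun_prop
  have hint : IntervalIntegrable (fun θ : ℝ => u (F (a + Complex.exp (θ * Complex.I) • b)))
      volume 0 (2 * Real.pi) := by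
    refine Continuous.intervalIntegrable ?_ _ _
    exact (hc.comp hFc hm).comp_continuous hcurve fun θ => hdΩ (hcd θ)
  refine le_of_forall_pos_le_add fun ε hε => ?_
  obtain ⟨W, U, hW, hLW, hWΩ, hU1, hU2, hU3⟩ := moll_cont hΩ hc hs hL hLΩ
    (ε := ε / 2) (by positivity)
  have hO : IsOpen (Ω' ∩ F ⁻¹' W) := hFc.isOpen_inter_preimage hΩ' hW
  have h2inf : (2 : WithTop ℕ∞) ≤ ((⊤ : ℕ∞) : WithTop ℕ∞) :=
    WithTop.coe_le_coe.2 (le_top : (2 : ℕ∞) ≤ ⊤)
  have hU11 : C11 W U := c11_of_contDiffOn hW (hU1.contDiffOn.of_le h2inf)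
  have h1 : SubOn (Ω' ∩ F ⁻¹' W) (fun z => U (F z)) :=
    sub_comp hW hO hU11 hU2 (hF.mono inter_subset_left) fun z hz => hz.2
  have h2 := h1 a b fun ζ hζ => by
    have h3 : a + ζ • b ∈ d := ⟨ζ, by rwa [mem_closedBall_zero_iff], rfl⟩
    exact ⟨hdΩ h3, hLW ⟨_, h3, rfl⟩⟩
  have h3 : ∀ z ∈ d, |U (F z) - u (F z)| ≤ ε / 2 := fun z hz => hU3 _ (hLW ⟨z, hz, rfl⟩)
  have hpi : 0 < 2 * Real.pi := by positivity
  have hintU : IntervalIntegrable (fun θ : ℝ => U (F (a + Complex.exp (θ * Complex.I) • b)))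
      volume 0 (2 * Real.pi) := by
    refine Continuous.intervalIntegrable ?_ _ _
    have h4 : ContinuousOn (fun z => U (F z)) Ω' := hU1.continuous.comp_continuousOn hFc
    exact h4.comp_continuous hcurve fun θ => hdΩ (hcd θ)
  have h4 : ∫ θ in (0 : ℝ)..(2 * Real.pi), U (F (a + Complex.exp (θ * Complex.I) • b)) ≤
      ∫ θ in (0 : ℝ)..(2 * Real.pi), (u (F (a + Complex.exp (θ * Complex.I) • b)) + ε / 2) := by
    refine intervalIntegral.integral_mono_on hpi.le hintU
      (hint.add intervalIntegrable_const) fun θ _ => ?_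
    have := h3 _ (hcd θ)
    rw [abs_le] at this
    linarith [this.2]
  rw [intervalIntegral.integral_add hint intervalIntegrable_const,
    intervalIntegral.integral_const, smul_eq_mul, sub_zero] at h4
  have h5 := h3 a had
  rw [abs_le] at h5
  have h6 : (2 * Real.pi)⁻¹ *
      ∫ θ in (0 : ℝ)..(2 * Real.pi), U (F (a + Complex.exp (θ * Complex.I) • b)) ≤
      (2 * Real.pi)⁻¹ *
        ((∫ θ in (0 : ℝ)..(2 * Real.pi), u (F (a + Complex.exp (θ * Complex.I) • b))) +
          2 * Real.pi * (ε / 2)) :=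
    mul_le_mul_of_nonneg_left h4 (by positivity)
  have h7 : (2 * Real.pi)⁻¹ *
        ((∫ θ in (0 : ℝ)..(2 * Real.pi), u (F (a + Complex.exp (θ * Complex.I) • b))) +
          2 * Real.pi * (ε / 2)) = (2 * Real.pi)⁻¹ *
        (∫ θ in (0 : ℝ)..(2 * Real.pi), u (F (a + Complex.exp (θ * Complex.I) • b))) + ε / 2 := by
    rw [mul_add, ← mul_assoc (2 * Real.pi)⁻¹ (2 * Real.pi), inv_mul_cancel₀ hpi.ne', one_mul]
  linarith [h5.1, h5.2]

end HMA

end S_KW_SubCC

section S_KW_LocX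

/-! # Module LocX: local properties of functions on `X` -/

open MeasureTheory Metric Set Filter
open scoped ENNReal Topology ContDiff ComplexOrder

namespace HMA

variable {n : ℕ} {X : Type} [TopologicalSpace X] (K : KM n X)

variable {w w' : X → ℝ} {k k' : Fin K.N} {z z' : Cn n}

/-- the difference of the potentials is pluriharmonic -/
theorem locX_h (k k' : Fin K.N) {W : Set (Cn n)} (hW : IsOpen W)
    (hWV : W ⊆ ball (0 : Cn n) 3 ∩ K.κ k' ⁻¹' (K.κ k '' ball 0 3)) :
    ContDiffOn ℝ ∞ (fun y => K.ρ k' y + -1 * K.ρ k (K.τ k' k y)) W ∧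
      SubOn W (fun y => K.ρ k' y + -1 * K.ρ k (K.τ k' k y)) := by
  have hVo := K.isOpen_overlap k' k
  have hτ : ContDiffOn ℝ ∞ (K.τ k' k) W :=
    ((hol_contDiffOn hVo (K.τ_hol k' k)).restrict_scalars ℝ).mono hWV
  have h1 : ContDiffOn ℝ ∞ (fun y => K.ρ k (K.τ k' k y)) W :=
    (K.ρ_smooth k).comp hτ (fun y hy => (K.τ_spec k' k y (hWV hy).1 (hWV hy).2).1)
  have h2 : ContDiffOn ℝ ∞ (K.ρ k') W := (K.ρ_smooth k').mono (fun y hy => (hWV hy).1)
  have h3 : ContDiffOn ℝ ∞ (fun y => K.ρ k' y + -1 * K.ρ k (K.τ k' k y)) W :=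
    h2.add (contDiffOn_const.mul h1)
  refine ⟨h3, smooth_sub hW h3 fun y hy ξ => ?_⟩
  have t1 := sub11_twD_smooth hW h2 hy
  have t2 := sub11_twD_smooth hW h1 hy
  have t3 := t2.const_mul (-1)
  have e1 : lev (fun y => K.ρ k' y + -1 * K.ρ k (K.τ k' k y)) y ξ =
      lev (K.ρ k') y ξ + lev (fun y => -1 * K.ρ k (K.τ k' k y)) y ξ :=
    xc11_lev_add t1 t3.1 ξ
  have e2 : lev (fun y => -1 * K.ρ k (K.τ k' k y)) y ξ =
      -1 * lev (fun y => K.ρ k (K.τ k' k y)) y ξ := by
    have c1 := t3.1.lev_LM ξ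
    have c2 := t2.lev_LM ξ
    rw [t3.2] at c1
    have : ((lev (fun y => -1 * K.ρ k (K.τ k' k y)) y ξ : ℝ) : ℂ) =
        ((-1 * lev (fun y => K.ρ k (K.τ k' k y)) y ξ : ℝ) : ℂ) := by
      rw [c1]
      push_cast
      rw [c2, Finset.mul_sum]
      refine Finset.sum_congr rfl fun i _ => ?_
      rw [Finset.mul_sum]
      refine Finset.sum_congr rfl fun j _ => ?_
      simp only [Matrix.smul_apply, smul_eq_mul]
      push_cast
      ring
    exact_mod_cast this
  rw [e1, e2, K.ρ_compat k' k y (hWV hy) ξ]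
  linarith

/-- change of charts for the sub-mean value property -/
theorem locX_sub {k k' : Fin K.N} {z : Cn n} {r : ℝ} (hr : ball z r ⊆ ball 0 3)
    (hc : ContinuousOn (fun y => w (K.κ k y)) (ball z r))
    (hs : SubOn (ball z r) (fun y => K.ρ k y + w (K.κ k y))) {W : Set (Cn n)} (hW : IsOpen W)
    (hWV : W ⊆ ball (0 : Cn n) 3 ∩ K.κ k' ⁻¹' (K.κ k '' ball 0 3))
    (hm : MapsTo (K.τ k' k) W (ball z r)) :
    ContinuousOn (fun y => w (K.κ k' y)) W ∧ SubOn W (fun y => K.ρ k' y + w (K.κ k' y)) := by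
  have hρ : ContinuousOn (K.ρ k) (ball z r) := (K.ρ_smooth k).continuousOn.mono hr
  have hτd : DifferentiableOn ℂ (K.τ k' k) W := (K.τ_hol k' k).mono hWV
  have h1 : SubOn W (fun y => K.ρ k (K.τ k' k y) + w (K.κ k (K.τ k' k y))) :=
    sub_comp_cont (u := fun y => K.ρ k y + w (K.κ k y)) isOpen_ball hW (hρ.add hc) hs hτd hm
  have h2 : ContinuousOn (fun y => K.ρ k (K.τ k' k y) + w (K.κ k (K.τ k' k y))) W :=
    (hρ.add hc).comp hτd.continuousOn hm
  obtain ⟨h3, h4⟩ := locX_h K k k' hW hWV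
  have h5 := kw_sub_add h4 h1 h3.continuousOn h2
  have e : ∀ y ∈ W, w (K.κ k' y) = w (K.κ k (K.τ k' k y)) := fun y hy => by
    rw [(K.τ_spec k' k y (hWV hy).1 (hWV hy).2).2]
  refine ⟨(hc.comp hτd.continuousOn hm).congr e, kw_sub_congr h5 fun y hy => ?_⟩
  rw [e y hy]
  ring

/-- the neighbourhood in the new chart -/
theorem locX_nb {k k' : Fin K.N} {z z' : Cn n} {r : ℝ} (hr0 : 0 < r)
    (hz : z ∈ ball (0 : Cn n) 3) (hz' : z' ∈ ball (0 : Cn n) 3)
    (he : K.κ k' z' = K.κ k z) : ∃ s : ℝ, 0 < s ∧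
      ball z' s ⊆ ball (0 : Cn n) 3 ∩ K.κ k' ⁻¹' (K.κ k '' ball 0 3) ∧
      MapsTo (K.τ k' k) (ball z' s) (ball z r) := by
  set V : Set (Cn n) := ball (0 : Cn n) 3 ∩ K.κ k' ⁻¹' (K.κ k '' ball 0 3) with hV
  have hVo : IsOpen V := K.isOpen_overlap k' k
  have hzV : z' ∈ V := ⟨hz', z, hz, he.symm⟩
  have hτc : ContinuousOn (K.τ k' k) V := (K.τ_hol k' k).continuousOn
  have hWo : IsOpen (V ∩ K.τ k' k ⁻¹' (ball z r)) := hτc.isOpen_inter_preimage hVo isOpen_ball
  have hτz : K.τ k' k z' = z := by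
    obtain ⟨s1, s2⟩ := K.τ_spec k' k z' hzV.1 hzV.2
    exact K.injOn k s1 hz (by rw [s2, he])
  have hzW : z' ∈ V ∩ K.τ k' k ⁻¹' (ball z r) :=
    ⟨hzV, by rw [mem_preimage, hτz]; exact mem_ball_self hr0⟩
  obtain ⟨s, hs, hsub⟩ := Metric.isOpen_iff.mp hWo z' hzW
  exact ⟨s, hs, fun y hy => (hsub hy).1, fun y hy => (hsub hy).2⟩

theorem LW.change (h : LW K w k z) (hz : z ∈ ball (0 : Cn n) 3) (hz' : z' ∈ ball (0 : Cn n) 3)
    (he : K.κ k' z' = K.κ k z) : LW K w k' z' := by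
  obtain ⟨r, hr, hrb, hc, hs⟩ := h
  obtain ⟨s, hs0, hsV, hsm⟩ := locX_nb K hr hz hz' he
  have h1 := locX_sub K hrb hc.continuousOn hs isOpen_ball hsV hsm
  refine ⟨s, hs0, fun y hy => (hsV hy).1, ?_, h1.2⟩
  have h2 : C11 (ball z' s) (fun y => w (K.κ k (K.τ k' k y))) :=
    c11_comp (u := fun y => w (K.κ k y)) isOpen_ball isOpen_ball hc ((K.τ_hol k' k).mono hsV) hsm
  refine h2.congr isOpen_ball fun y hy => ?_
  rw [(K.τ_spec k' k y (hsV hy).1 (hsV hy).2).2]

theorem LC.change (h : LC K w k z) (hz : z ∈ ball (0 : Cn n) 3) (hz' : z' ∈ ball (0 : Cn n) 3)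
    (he : K.κ k' z' = K.κ k z) : LC K w k' z' := by
  obtain ⟨r, hr, hrb, hc, hs⟩ := h
  obtain ⟨s, hs0, hsV, hsm⟩ := locX_nb K hr hz hz' he
  have h1 := locX_sub K hrb hc hs isOpen_ball hsV hsm
  exact ⟨s, hs0, fun y hy => (hsV hy).1, h1.1, h1.2⟩

theorem locX_shrink {k : Fin K.N} {z : Cn n} {r : ℝ} (hr : 0 < r) (hz : z ∈ ball (0 : Cn n) 3)
    (he : ∀ᶠ x in 𝓝 (K.κ k z), w' x = w x) : ∃ s : ℝ, 0 < s ∧ s ≤ r ∧
      ∀ y ∈ ball z s, w' (K.κ k y) = w (K.κ k y) := by
  have h1 : ContinuousAt (K.κ k) z := (K.cont k).continuousAt (isOpen_ball.mem_nhds hz)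
  obtain ⟨s, hs, h2⟩ := Metric.eventually_nhds_iff_ball.mp (h1.eventually he)
  exact ⟨min s r, lt_min hs hr, min_le_right _ _, fun y hy =>
    h2 y (ball_subset_ball (min_le_left _ _) hy)⟩

theorem LW.congr (h : LW K w k z) (hz : z ∈ ball (0 : Cn n) 3)
    (he : ∀ᶠ x in 𝓝 (K.κ k z), w' x = w x) : LW K w' k z := by
  obtain ⟨r, hr, hrb, hc, hs⟩ := h
  obtain ⟨s, hs0, hsr, hse⟩ := locX_shrink K hr hz he
  have hb : ball z s ⊆ ball z r := ball_subset_ball hsr
  refine ⟨s, hs0, hb.trans hrb, ?_, ?_⟩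
  · exact (hc.mono hb).congr isOpen_ball hse
  · refine kw_sub_congr (kw_sub_mono hs hb) fun y hy => ?_
    rw [hse y hy]

theorem LC.congr (h : LC K w k z) (hz : z ∈ ball (0 : Cn n) 3)
    (he : ∀ᶠ x in 𝓝 (K.κ k z), w' x = w x) : LC K w' k z := by
  obtain ⟨r, hr, hrb, hc, hs⟩ := h
  obtain ⟨s, hs0, hsr, hse⟩ := locX_shrink K hr hz he
  have hb : ball z s ⊆ ball z r := ball_subset_ball hsr
  refine ⟨s, hs0, hb.trans hrb, ?_, ?_⟩
  · exact (hc.mono hb).congr hse
  · refine kw_sub_congr (kw_sub_mono hs hb) fun y hy => ?_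
    rw [hse y hy]

theorem wk_of_LW (h : ∀ x : X, ∃ (k : Fin K.N) (z : Cn n), z ∈ ball (0 : Cn n) 3 ∧ K.κ k z = x ∧
    LW K w k z) : WK K w := by
  have hc : C11X K w := by
    intro i
    refine xc11_local isOpen_ball fun y hy => ?_
    obtain ⟨k, z, hz, he, hl⟩ := h (K.κ i y)
    obtain ⟨r, hr, hrb, hcr, -⟩ := LW.change K hl hz hy he.symm
    exact ⟨ball y r, isOpen_ball, mem_ball_self hr, hrb, hcr⟩
  refine wk_of_local K hc fun x => ?_
  obtain ⟨k, z, hz, he, r, hr, hrb, -, hs⟩ := h x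
  exact ⟨k, z, r, hr, hrb, he, hs⟩

/-- continuity from continuity in a chart -/
theorem locX_cont (h : ∀ x : X, ∃ (k : Fin K.N) (z : Cn n), z ∈ ball (0 : Cn n) 3 ∧ K.κ k z = x ∧
    LC K w k z) : Continuous w := by
  rw [continuous_iff_continuousAt]
  intro x
  obtain ⟨k, z, hz, rfl, r, hr, hrb, hc, -⟩ := h x
  have h1 : ContinuousAt (fun y => w (K.κ k y)) z :=
    hc.continuousAt (isOpen_ball.mem_nhds (mem_ball_self hr))
  have h2 : ContinuousAt (Function.invFunOn (K.κ k) (ball 0 3)) (K.κ k z) :=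
    (K.inv_cont k).continuousAt ((K.isOpen_range k).mem_nhds ⟨z, hz, rfl⟩)
  have h3 : ContinuousAt (fun x => w (K.κ k (Function.invFunOn (K.κ k) (ball 0 3) x)))
      (K.κ k z) := by
    have h4 : ContinuousAt (fun y => w (K.κ k y))
        (Function.invFunOn (K.κ k) (ball 0 3) (K.κ k z)) := by
      rw [xtop_linv K k hz]
      exact h1
    exact ContinuousAt.comp (g := fun y => w (K.κ k y)) h4 h2
  refine h3.congr ?_
  filter_upwards [(K.isOpen_range k).mem_nhds ⟨z, hz, rfl⟩] with x hx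
  rw [Function.invFunOn_eq hx]

theorem locX_ρw (hw : Continuous w) (i : Fin K.N) :
    ContinuousOn (fun z => K.ρ i z + w (K.κ i z)) (ball 0 3) :=
  (K.ρ_smooth i).continuousOn.add (hw.comp_continuousOn (K.cont i))

theorem pc_of_LC (h : ∀ x : X, ∃ (k : Fin K.N) (z : Cn n), z ∈ ball (0 : Cn n) 3 ∧ K.κ k z = x ∧
    LC K w k z) : PC K w := by
  have hc := locX_cont K h
  refine ⟨hc, fun i => ?_⟩
  have hu := locX_ρw K hc i
  refine loc_glob isOpen_ball hu.upperSemicontinuousOn (xkp_bdd hu) fun a ha => ?_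
  obtain ⟨k, z, hz, he, hl⟩ := h (K.κ i a)
  obtain ⟨r, hr, hrb, -, hs⟩ := LC.change K hl hz ha he.symm
  refine ⟨r / 2, by positivity, fun b hb => ?_⟩
  refine hs a b fun ζ hζ => ?_
  rw [mem_ball, dist_eq_norm, add_sub_cancel_left, norm_smul]
  calc ‖ζ‖ * ‖b‖ ≤ 1 * (r / 2) := mul_le_mul hζ hb (norm_nonneg _) zero_le_one
    _ < r := by linarith

theorem locX_ball {z : Cn n} (hz : z ∈ ball (0 : Cn n) 3) : 0 < 3 - ‖z‖ ∧
    ball z (3 - ‖z‖) ⊆ ball 0 3 := by
  rw [mem_ball_zero_iff] at hz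
  refine ⟨by linarith, fun y hy => ?_⟩
  rw [mem_ball, dist_eq_norm] at hy
  rw [mem_ball_zero_iff]
  calc ‖y‖ = ‖(y - z) + z‖ := by rw [sub_add_cancel]
    _ ≤ ‖y - z‖ + ‖z‖ := norm_add_le _ _
    _ < 3 := by linarith

theorem WK.LW (h : WK K w) (hz : z ∈ ball (0 : Cn n) 3) : LW K w k z := by
  obtain ⟨h1, h2⟩ := locX_ball hz
  exact ⟨3 - ‖z‖, h1, h2, (h.c11 k).mono h2, kw_sub_mono (h.sub k) h2⟩

theorem PC.LC (h : PC K w) (hz : z ∈ ball (0 : Cn n) 3) : LC K w k z := by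
  obtain ⟨h1, h2⟩ := locX_ball hz
  exact ⟨3 - ‖z‖, h1, h2, (h.cont.comp_continuousOn (K.cont k)).mono h2,
    kw_sub_mono (h.sub k) h2⟩

theorem WK.pc (h : WK K w) : PC K w := by
  exact ⟨C11X.continuous K h.c11, h.sub⟩

theorem PC.pb [CompactSpace X] (h : PC K w) : PB K w := by
  refine ⟨h.cont.upperSemicontinuous, ?_, h.sub⟩
  obtain ⟨B, hB⟩ := isCompact_univ.exists_bound_of_continuousOn (h.cont.continuousOn (s := univ))
  exact ⟨B, fun x => hB x (mem_univ x)⟩

theorem locX_usc (hw : UpperSemicontinuous w) (i : Fin K.N) :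
    UpperSemicontinuousOn (fun z => K.ρ i z + w (K.κ i z)) (ball 0 3) := by
  have h1 : UpperSemicontinuousOn (fun z => w (K.κ i z)) (ball 0 3) := by
    intro z hz y hy
    exact (K.cont i z hz).eventually (hw (K.κ i z) y hy)
  exact (K.ρ_smooth i).continuousOn.upperSemicontinuousOn.add h1

theorem locX_bd (hb : ∃ B : ℝ, ∀ x, |w x| ≤ B) (i : Fin K.N) :
    ∀ L ⊆ ball (0 : Cn n) 3, IsCompact L → ∃ M : ℝ, ∀ z ∈ L, -M ≤ K.ρ i z + w (K.κ i z) := by
  intro L hL hLc
  obtain ⟨B, hB⟩ := hb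
  obtain ⟨M, hM⟩ := xkp_bdd (K.ρ_smooth i).continuousOn L hL hLc
  refine ⟨M + B, fun z hz => ?_⟩
  have h1 := hM z hz
  have h2 := (abs_le.mp (hB (K.κ i z))).1
  linarith

theorem PB.kpsh [Nonempty X] (h : PB K w) : KPsh K (fun x => Real.exp (w x)) := by
  constructor
  · intro i
    have he : (fun z => Real.exp (w (K.κ i z)) * Real.exp (K.ρ i z)) =
        fun z => Real.exp (K.ρ i z + w (K.κ i z)) := by
      funext z
      rw [← Real.exp_add, add_comm]
    show PshOn (ball 0 3) (fun z => Real.exp (w (K.κ i z)) * Real.exp (K.ρ i z))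
    rw [he]
    exact kw_pshOn_exp (h.sub i) (locX_usc K h.usc i) (locX_bd K h.bdd i)
  · obtain ⟨x⟩ := ‹Nonempty X›
    exact ⟨x, (Real.exp_pos _).ne'⟩

theorem PB.max (h : PB K w) (h' : PB K w') : PB K (fun x => max (w x) (w' x)) := by
  refine ⟨h.usc.sup h'.usc, ?_, fun i => ?_⟩
  · obtain ⟨B, hB⟩ := h.bdd
    obtain ⟨B', hB'⟩ := h'.bdd
    refine ⟨Max.max B B', fun x => ?_⟩
    exact (abs_max_le_max_abs_abs).trans (max_le_max (hB x) (hB' x))
  · have h1 := sub_max (locX_usc K h.usc i) (locX_usc K h'.usc i) (locX_bd K h.bdd i)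
      (locX_bd K h'.bdd i) (h.sub i) (h'.sub i)
    refine kw_sub_congr h1 fun z _ => ?_
    exact (max_add_add_left _ _ _).symm

theorem PB.add_const (h : PB K w) (c : ℝ) : PB K (fun x => w x + c) := by
  refine ⟨h.usc.add upperSemicontinuous_const, ?_, fun i => ?_⟩
  · obtain ⟨B, hB⟩ := h.bdd
    exact ⟨B + |c|, fun x => (abs_add_le _ _).trans (by linarith [hB x])⟩
  · have h1 := kw_sub_add_const (h.sub i) (locX_usc K h.usc i) (locX_bd K h.bdd i) c
    refine kw_sub_congr h1 fun z _ => ?_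
    ring

theorem PC.add_const (h : PC K w) (c : ℝ) : PC K (fun x => w x + c) := by
  refine ⟨h.cont.add continuous_const, fun i => ?_⟩
  have hu := locX_ρw K h.cont i
  have h1 := kw_sub_add_const (h.sub i) hu.upperSemicontinuousOn (xkp_bdd hu) c
  refine kw_sub_congr h1 fun z _ => ?_
  ring

theorem WK.add_const' (h : WK K w) (c : ℝ) : WK K (fun x => w x + c) :=
  ⟨C11X.add K h.c11 (c11X_const K c), (PC.add_const K (WK.pc K h) c).sub⟩

end HMA

end S_KW_LocX

section S_KW_Hada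

/-! # Module Hada: three circles theorem -/

open MeasureTheory Metric Set Filter
open scoped ENNReal Topology ContDiff ComplexOrder

namespace HMA

theorem hada_log {a : ℂ} {δ : ℝ} (hδ : 0 < δ) (h : δ < ‖a‖) :
    (2 * Real.pi)⁻¹ * ∫ θ in (0 : ℝ)..(2 * Real.pi),
      Real.log ‖a + δ * Complex.exp (θ * Complex.I)‖ = Real.log ‖a‖ := by
  have h1 : InnerProductSpace.HarmonicOnNhd (fun z : ℂ => Real.log ‖z‖) (closedBall a |δ|) := by
    intro x hx
    apply AnalyticAt.harmonicAt_log_norm analyticAt_id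
    rintro rfl
    rw [mem_closedBall, dist_comm, dist_zero_right, abs_of_pos hδ] at hx
    linarith
  have h2 := h1.circleAverage_eq
  rw [Real.circleAverage_def, smul_eq_mul] at h2
  simpa [circleMap] using h2

theorem hada_sq (a : ℂ) (δ : ℝ) :
    (2 * Real.pi)⁻¹ * ∫ θ in (0 : ℝ)..(2 * Real.pi),
      ‖a + δ * Complex.exp (θ * Complex.I)‖ ^ 2 = ‖a‖ ^ 2 + δ ^ 2 := by
  have h : ∀ θ : ℝ, ‖a + δ * Complex.exp (θ * Complex.I)‖ ^ 2 =
      (‖a‖ ^ 2 + δ ^ 2) + (2 * δ * a.re * Real.cos θ + 2 * δ * a.im * Real.sin θ) := by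
    intro θ
    have e1 : (a + δ * Complex.exp (θ * Complex.I)).re = a.re + δ * Real.cos θ := by
      simp [Complex.exp_ofReal_mul_I_re]
    have e2 : (a + δ * Complex.exp (θ * Complex.I)).im = a.im + δ * Real.sin θ := by
      simp [Complex.exp_ofReal_mul_I_im]
    rw [← Complex.normSq_eq_norm_sq, ← Complex.normSq_eq_norm_sq, Complex.normSq_apply,
      Complex.normSq_apply, e1, e2]
    linear_combination δ ^ 2 * Real.sin_sq_add_cos_sq θ
  simp_rw [h]
  have i1 : IntervalIntegrable (fun _ : ℝ => ‖a‖ ^ 2 + δ ^ 2) volume 0 (2 * Real.pi) :=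
    intervalIntegrable_const
  have i2 : IntervalIntegrable (fun θ : ℝ => 2 * δ * a.re * Real.cos θ) volume 0
      (2 * Real.pi) := by
    apply Continuous.intervalIntegrable; fun_prop
  have i3 : IntervalIntegrable (fun θ : ℝ => 2 * δ * a.im * Real.sin θ) volume 0
      (2 * Real.pi) := by
    apply Continuous.intervalIntegrable; fun_prop
  rw [intervalIntegral.integral_add i1 (i2.add i3), intervalIntegral.integral_add i2 i3,
    intervalIntegral.integral_const_mul, intervalIntegral.integral_const_mul, integral_cos,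
    integral_sin, intervalIntegral.integral_const]
  have hpi := Real.pi_pos
  simp
  field_simp

/-- integrability on circles -/
theorem hada_int {n : ℕ} {u : Cn n → ℝ} (hu : UpperSemicontinuous u) {M : ℝ}
    (hb : ∀ y, |u y| ≤ M) (a b : Cn n) :
    IntervalIntegrable (fun θ : ℝ => u (a + Complex.exp (θ * Complex.I) • b)) volume 0
      (2 * Real.pi) := by
  have hm : Measurable (fun θ : ℝ => u (a + Complex.exp (θ * Complex.I) • b)) := by
    apply hu.measurable.comp
    apply Continuous.measurable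
    fun_prop
  rw [intervalIntegrable_iff]
  refine Measure.integrableOn_of_bounded (M := M) ?_ hm.aestronglyMeasurable ?_
  · rw [uIoc_of_le (by positivity)]
    exact measure_Ioc_lt_top.ne
  · exact Eventually.of_forall fun θ => hb _

/-- the comparison on the annulus -/
theorem hada_ann {n : ℕ} {u : Cn n → ℝ} (hu : UpperSemicontinuous u) {z : Cn n} {R M : ℝ}
    (hs : SubOn (ball z R) u) (hb : ∀ y, |u y| ≤ M) {r₁ r₂ : ℝ} (h0 : 0 < r₁) (h1 : r₁ < r₂)
    (h3 : r₂ < R) {B : ℝ} (hB : supB u r₂ z = supB u r₁ z + B * Real.log (r₂ / r₁)) {ξ : Cn n}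
    (hξ : ‖ξ‖ = 1) {ε : ℝ} (hε : 0 < ε) {ζ₀ : ℂ} (hζ : r₁ ≤ ‖ζ₀‖) (hζ' : ‖ζ₀‖ ≤ r₂) :
    u (z + ζ₀ • ξ) ≤ supB u r₁ z + B * Real.log (‖ζ₀‖ / r₁) + ε * r₂ ^ 2 := by
  set w : ℂ → ℝ := fun ζ => u (z + ζ • ξ) + (ε * ‖ζ‖ ^ 2 - B * Real.log ‖ζ‖) with hw
  set Kc : Set ℂ := {ζ | r₁ ≤ ‖ζ‖} ∩ closedBall 0 r₂ with hK
  have hKc : IsCompact Kc :=
    (isCompact_closedBall (0 : ℂ) r₂).inter_left (isClosed_le continuous_const continuous_norm)
  have hmem : ∀ ζ : ℂ, ζ ∈ Kc ↔ r₁ ≤ ‖ζ‖ ∧ ‖ζ‖ ≤ r₂ := by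
    intro ζ
    rw [hK, mem_inter_iff, mem_closedBall, dist_zero_right]
    rfl
  have husc : UpperSemicontinuousOn w Kc := by
    have e1 : UpperSemicontinuousOn (fun ζ : ℂ => u (z + ζ • ξ)) Kc := by
      have hc : Continuous (fun ζ : ℂ => z + ζ • ξ) := by fun_prop
      exact (hu.comp hc).upperSemicontinuousOn _
    have e2 : ContinuousOn (fun ζ : ℂ => ε * ‖ζ‖ ^ 2 - B * Real.log ‖ζ‖) Kc := by
      apply ContinuousOn.sub (by fun_prop)
      apply ContinuousOn.mul continuousOn_const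
      apply ContinuousOn.log continuous_norm.continuousOn
      intro ζ hζ
      have := ((hmem ζ).1 hζ).1
      exact (lt_of_lt_of_le h0 this).ne'
    exact e1.add e2.upperSemicontinuousOn
  obtain ⟨ζm, hζm, hmax⟩ := husc.exists_isMaxOn ⟨ζ₀, (hmem _).2 ⟨hζ, hζ'⟩⟩ hKc
  have hmax' : ∀ ζ : ℂ, r₁ ≤ ‖ζ‖ → ‖ζ‖ ≤ r₂ → w ζ ≤ w ζm := fun ζ a b =>
    hmax ((hmem ζ).2 ⟨a, b⟩)
  obtain ⟨hm1, hm2⟩ := (hmem _).1 hζm
  have hr2 : 0 < r₂ := h0.trans h1
  have hlog : Real.log (r₂ / r₁) = Real.log r₂ - Real.log r₁ := Real.log_div hr2.ne' h0.ne'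
  -- the maximum is on the boundary
  have hbd : w ζm ≤ supB u r₁ z - B * Real.log r₁ + ε * r₂ ^ 2 := by
    rcases hm1.eq_or_lt with e1 | e1
    · have e2 : u (z + ζm • ξ) ≤ supB u r₁ z := by
        apply le_supB hu
        rw [add_sub_cancel_left, norm_smul, hξ, mul_one, ← e1]
      have e3 : ε * ‖ζm‖ ^ 2 ≤ ε * r₂ ^ 2 := by gcongr
      simp only [hw]
      rw [← e1] at e3 ⊢
      linarith
    · rcases hm2.eq_or_lt with e2 | e2
      · have e3 : u (z + ζm • ξ) ≤ supB u r₂ z := by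
          apply le_supB hu
          rw [add_sub_cancel_left, norm_smul, hξ, mul_one, e2]
        rw [hB, hlog] at e3
        simp only [hw]
        rw [e2]
        linarith
      · exfalso
        set δ := min (‖ζm‖ - r₁) (r₂ - ‖ζm‖) with hδ
        have hδ0 : 0 < δ := lt_min (by linarith) (by linarith)
        have hδ1 : δ ≤ ‖ζm‖ - r₁ := min_le_left _ _
        have hδ2 : δ ≤ r₂ - ‖ζm‖ := min_le_right _ _
        have hδ3 : δ < ‖ζm‖ := by linarith
        have k1 := hs (z + ζm • ξ) ((δ : ℂ) • ξ) (by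
          intro ζ hζ
          rw [mem_ball, dist_eq_norm]
          have e4 : z + ζm • ξ + ζ • ((δ : ℂ) • ξ) - z = (ζm + ζ * δ) • ξ := by
            rw [add_smul, mul_smul]; abel
          rw [e4, norm_smul, hξ, mul_one]
          calc ‖ζm + ζ * δ‖ ≤ ‖ζm‖ + ‖ζ * δ‖ := norm_add_le _ _
            _ ≤ ‖ζm‖ + 1 * δ := by
                rw [norm_mul, Complex.norm_real, Real.norm_eq_abs, abs_of_pos hδ0]
                gcongr
            _ < R := by linarith)
        have k2 : ∀ θ : ℝ, u (z + ζm • ξ + Complex.exp (θ * Complex.I) • ((δ : ℂ) • ξ)) ≤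
            w ζm - (ε * ‖ζm + δ * Complex.exp (θ * Complex.I)‖ ^ 2 -
              B * Real.log ‖ζm + δ * Complex.exp (θ * Complex.I)‖) := by
          intro θ
          have e5 : ‖(δ : ℂ) * Complex.exp (θ * Complex.I)‖ = δ := by
            rw [norm_mul, Complex.norm_exp_ofReal_mul_I, mul_one, Complex.norm_real,
              Real.norm_eq_abs, abs_of_pos hδ0]
          have e6 := norm_add_le ζm ((δ : ℂ) * Complex.exp (θ * Complex.I))
          have e7 := norm_sub_le (ζm + (δ : ℂ) * Complex.exp (θ * Complex.I))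
            ((δ : ℂ) * Complex.exp (θ * Complex.I))
          rw [add_sub_cancel_right] at e7
          rw [e5] at e6 e7
          have e8 := hmax' (ζm + (δ : ℂ) * Complex.exp (θ * Complex.I)) (by linarith)
            (by linarith)
          have e9 : z + ζm • ξ + Complex.exp (θ * Complex.I) • ((δ : ℂ) • ξ) =
              z + (ζm + (δ : ℂ) * Complex.exp (θ * Complex.I)) • ξ := by
            rw [add_smul, smul_smul, mul_comm (Complex.exp _), add_assoc]
          rw [e9]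
          have e10 : w (ζm + (δ : ℂ) * Complex.exp (θ * Complex.I)) =
            u (z + (ζm + (δ : ℂ) * Complex.exp (θ * Complex.I)) • ξ) +
            (ε * ‖ζm + (δ : ℂ) * Complex.exp (θ * Complex.I)‖ ^ 2 -
              B * Real.log ‖ζm + (δ : ℂ) * Complex.exp (θ * Complex.I)‖) := rfl
          linarith
        have hpi := Real.pi_pos
        have hne : ∀ θ : ℝ, ‖ζm + δ * Complex.exp (θ * Complex.I)‖ ≠ 0 := by
          intro θ h
          rw [norm_eq_zero] at h
          have e5 : ‖(δ : ℂ) * Complex.exp (θ * Complex.I)‖ = δ := by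
            rw [norm_mul, Complex.norm_exp_ofReal_mul_I, mul_one, Complex.norm_real,
              Real.norm_eq_abs, abs_of_pos hδ0]
          have : ζm = -((δ : ℂ) * Complex.exp (θ * Complex.I)) := eq_neg_of_add_eq_zero_left h
          rw [this, norm_neg, e5] at hδ3
          exact lt_irrefl _ hδ3
        have i1 : IntervalIntegrable (fun θ : ℝ =>
            ε * ‖ζm + δ * Complex.exp (θ * Complex.I)‖ ^ 2) volume 0 (2 * Real.pi) := by
          apply Continuous.intervalIntegrable; fun_prop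
        have i2 : IntervalIntegrable (fun θ : ℝ =>
            B * Real.log ‖ζm + δ * Complex.exp (θ * Complex.I)‖) volume 0 (2 * Real.pi) := by
          apply Continuous.intervalIntegrable
          apply Continuous.mul continuous_const
          exact Continuous.log (by fun_prop) hne
        have i3 : IntervalIntegrable (fun _ : ℝ => w ζm) volume 0 (2 * Real.pi) :=
          intervalIntegrable_const
        have k3 := intervalIntegral.integral_mono_on (by positivity : (0 : ℝ) ≤ 2 * Real.pi)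
          (hada_int hu hb (z + ζm • ξ) ((δ : ℂ) • ξ)) (i3.sub (i1.sub i2)) (fun θ _ => k2 θ)
        rw [intervalIntegral.integral_sub i3 (i1.sub i2), intervalIntegral.integral_sub i1 i2,
          intervalIntegral.integral_const_mul, intervalIntegral.integral_const_mul,
          intervalIntegral.integral_const, smul_eq_mul, sub_zero] at k3
        have k4 := hada_log hδ0 hδ3
        have k5 := hada_sq ζm δ
        have k6 : u (z + ζm • ξ) ≤ w ζm - (ε * (‖ζm‖ ^ 2 + δ ^ 2) - B * Real.log ‖ζm‖) := by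
          refine k1.trans ?_
          rw [← k4, ← k5]
          generalize (∫ θ in (0 : ℝ)..(2 * Real.pi),
            ‖ζm + δ * Complex.exp (θ * Complex.I)‖ ^ 2) = I1 at k3 ⊢
          generalize (∫ θ in (0 : ℝ)..(2 * Real.pi),
            Real.log ‖ζm + δ * Complex.exp (θ * Complex.I)‖) = I2 at k3 ⊢
          calc _ ≤ (2 * Real.pi)⁻¹ * _ := mul_le_mul_of_nonneg_left k3 (by positivity)
            _ = _ := by
              field_simp
        have k7 : w ζm = u (z + ζm • ξ) + (ε * ‖ζm‖ ^ 2 - B * Real.log ‖ζm‖) := rfl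
        have k8 : 0 < ε * δ ^ 2 := by positivity
        linarith
  have h5 := hmax' ζ₀ hζ hζ'
  have h6 : w ζ₀ = u (z + ζ₀ • ξ) + (ε * ‖ζ₀‖ ^ 2 - B * Real.log ‖ζ₀‖) := rfl
  have h7 : Real.log (‖ζ₀‖ / r₁) = Real.log ‖ζ₀‖ - Real.log r₁ :=
    Real.log_div (lt_of_lt_of_le h0 hζ).ne' h0.ne'
  have h8 : 0 ≤ ε * ‖ζ₀‖ ^ 2 := by positivity
  rw [h7]
  linarith

theorem hada {n : ℕ} {u : Cn n → ℝ} (hu : UpperSemicontinuous u) {z : Cn n} {R M : ℝ}
    (hs : SubOn (ball z R) u) (hb : ∀ y, |u y| ≤ M) {r₁ r r₂ : ℝ} (h0 : 0 < r₁) (h1 : r₁ ≤ r)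
    (h2 : r ≤ r₂) (h3 : r₂ < R) : supB u r z * Real.log (r₂ / r₁) ≤
      supB u r₁ z * Real.log (r₂ / r) + supB u r₂ z * Real.log (r / r₁) := by
  have hr : 0 < r := lt_of_lt_of_le h0 h1
  have hr2 : 0 < r₂ := lt_of_lt_of_le hr h2
  rcases (h1.trans h2).eq_or_lt with e | e
  · have e1 : r = r₁ := le_antisymm (by rw [e]; exact h2) h1
    simp only [← e, e1, div_self h0.ne', Real.log_one, mul_zero, add_zero, le_refl]
  · have hl21 : 0 < Real.log (r₂ / r₁) := Real.log_pos ((one_lt_div h0).2 e)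
    have hl1 : 0 ≤ Real.log (r / r₁) := Real.log_nonneg ((one_le_div h0).2 h1)
    have hmono : supB u r₁ z ≤ supB u r₂ z := by
      obtain ⟨y, hy1, hy2⟩ := supB_attained hu h0.le z
      rw [hy2]
      exact le_supB hu (hy1.trans e.le)
    set B := (supB u r₂ z - supB u r₁ z) / Real.log (r₂ / r₁) with hB
    have hB0 : 0 ≤ B := div_nonneg (by linarith) hl21.le
    have hB1 : supB u r₂ z = supB u r₁ z + B * Real.log (r₂ / r₁) := by
      rw [hB, div_mul_cancel₀ _ hl21.ne']; ring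
    have key : supB u r z ≤ supB u r₁ z + B * Real.log (r / r₁) := by
      obtain ⟨y, hy1, hy2⟩ := supB_attained hu hr.le z
      rw [hy2]
      rcases lt_or_ge ‖y - z‖ r₁ with h | h
      · have h5 := le_supB hu h.le
        have h6 := mul_nonneg hB0 hl1
        linarith
      · have hpos : 0 < ‖y - z‖ := lt_of_lt_of_le h0 h
        have hlim : ∀ ε : ℝ, 0 < ε → u y ≤ supB u r₁ z + B * Real.log (‖y - z‖ / r₁) +
            ε * r₂ ^ 2 := by
          intro ε hε
          have h5 := hada_ann hu hs hb h0 e h3 hB1 (ξ := ((‖y - z‖ : ℂ)⁻¹) • (y - z)) (by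
            rw [norm_smul, norm_inv, Complex.norm_real, norm_norm, inv_mul_cancel₀ hpos.ne'])
            hε (ζ₀ := (‖y - z‖ : ℂ)) (by rw [Complex.norm_real, norm_norm]; exact h)
            (by rw [Complex.norm_real, norm_norm]; exact hy1.trans h2)
          rw [smul_smul, mul_inv_cancel₀ (by exact_mod_cast hpos.ne'), one_smul,
            add_sub_cancel, Complex.norm_real, norm_norm] at h5
          exact h5
        have h6 : u y ≤ supB u r₁ z + B * Real.log (‖y - z‖ / r₁) := by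
          apply le_of_forall_pos_le_add
          intro η hη
          have h7 := hlim (η / r₂ ^ 2) (by positivity)
          rwa [div_mul_cancel₀ _ (by positivity)] at h7
        have h8 : Real.log (‖y - z‖ / r₁) ≤ Real.log (r / r₁) := by
          apply Real.log_le_log (by positivity)
          gcongr
        have h9 := mul_le_mul_of_nonneg_left h8 hB0
        linarith
    have h4 : Real.log (r₂ / r) = Real.log (r₂ / r₁) - Real.log (r / r₁) := by
      rw [Real.log_div hr2.ne' hr.ne', Real.log_div hr2.ne' h0.ne', Real.log_div hr.ne' h0.ne']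
      ring
    have h5 := mul_le_mul_of_nonneg_right key hl21.le
    rw [h4]
    have h6 : B * Real.log (r / r₁) * Real.log (r₂ / r₁) =
        (supB u r₂ z - supB u r₁ z) * Real.log (r / r₁) := by
      rw [hB]; field_simp
    nlinarith [h5, h6]

end HMA

end S_KW_Hada

section S_KW_SupR

/-! # Module SupR: suprema over balls -/

open MeasureTheory Metric Set Filter
open scoped ENNReal Topology ContDiff ComplexOrder

namespace HMA

variable {n : ℕ} {u : Cn n → ℝ} {M : ℝ}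

theorem supR_int {g : ℝ → ℝ} (hm : Measurable g) (hb : ∀ θ, |g θ| ≤ M) (a b : ℝ) :
    IntervalIntegrable g volume a b := by
  refine (intervalIntegrable_const (c := M)).mono_fun' hm.aestronglyMeasurable ?_
  exact Filter.Eventually.of_forall fun θ => hb θ

theorem supB_bdd (hu : UpperSemicontinuous u) (hb : ∀ y, |u y| ≤ M) {r : ℝ} (hr : 0 ≤ r)
    (z : Cn n) : |supB u r z| ≤ M := by
  obtain ⟨z', -, h⟩ := supB_attained hu hr z
  rw [h]
  exact hb z'

theorem supB_sub (hu : UpperSemicontinuous u) (hb : ∀ y, |u y| ≤ M) {Ω W : Set (Cn n)}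
    (hs : SubOn Ω u) {r : ℝ} (hr : 0 ≤ r) (hW : ∀ z ∈ W, closedBall z r ⊆ Ω) :
    SubOn W (supB u r) := by
  intro a b hab
  obtain ⟨a', ha', he⟩ := supB_attained hu hr a
  have hd : ∀ ζ : ℂ, ‖(a' + ζ • b) - (a + ζ • b)‖ ≤ r := by
    intro ζ
    have e : (a' + ζ • b) - (a + ζ • b) = a' - a := by abel
    rw [e]; exact ha'
  have h1 := hs a' b (fun ζ hζ => hW _ (hab ζ hζ) (by
    rw [mem_closedBall, dist_eq_norm]; exact hd ζ))
  rw [he]
  refine h1.trans ?_
  have hc : Continuous (fun θ : ℝ => a' + Complex.exp (θ * Complex.I) • b) := by fun_prop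
  have hc2 : Continuous (fun θ : ℝ => a + Complex.exp (θ * Complex.I) • b) := by fun_prop
  have hm1 : Measurable (fun θ : ℝ => u (a' + Complex.exp (θ * Complex.I) • b)) :=
    hu.measurable.comp hc.measurable
  have hm2 : Measurable (fun θ : ℝ => supB u r (a + Complex.exp (θ * Complex.I) • b)) :=
    (supB_usc hu hr).measurable.comp hc2.measurable
  refine mul_le_mul_of_nonneg_left ?_ (by positivity)
  refine intervalIntegral.integral_mono_on (by positivity)
    (supR_int hm1 (fun θ => hb _) _ _) (supR_int hm2 (fun θ => supB_bdd hu hb hr _) _ _) ?_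
  intro θ _
  exact le_supB hu (hd _)

theorem supR_lip (hu : UpperSemicontinuous u) (hb : ∀ y, |u y| ≤ M) {R R' r : ℝ}
    (hs : SubOn (ball 0 R) u) (hr : 0 < r) (hR : R' + r < R) :
    ∃ C δ : ℝ, 0 < C ∧ 0 < δ ∧ ∀ z ∈ ball (0 : Cn n) R', ∀ h, 0 ≤ h → h ≤ δ →
      supB u (r + h) z ≤ supB u r z + C * h := by
  have hM : 0 ≤ M := (abs_nonneg _).trans (hb 0)
  set r₂ : ℝ := (R - R' + r) / 2 with hr₂
  have h2 : r < r₂ := by rw [hr₂]; linarith
  have h3 : r₂ < R - R' := by rw [hr₂]; linarith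
  set r₃ : ℝ := (r + r₂) / 2 with hr₃
  have h4 : r < r₃ := by rw [hr₃]; linarith
  have h5 : r₃ < r₂ := by rw [hr₃]; linarith
  have hL : 0 < Real.log (r₂ / r₃) := Real.log_pos (by
    rw [lt_div_iff₀ (by linarith)]; linarith)
  set L : ℝ := Real.log (r₂ / r₃) with hLd
  refine ⟨2 * M / (L * r) + 1, r₃ - r, by positivity, by linarith, ?_⟩
  intro z hz h hh hhδ
  have hz' : ‖z‖ < R' := by simpa using hz
  have hsub : ball z (R - R') ⊆ ball (0 : Cn n) R := by
    refine ball_subset_ball' ?_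
    rw [dist_eq_norm, sub_zero]
    linarith
  have hs' : SubOn (ball z (R - R')) u := fun a b hab => hs a b fun ζ hζ => hsub (hab ζ hζ)
  have hrh : 0 < r + h := by linarith
  have hr2 : 0 < r₂ := by linarith
  have hr3 : 0 < r₃ := by linarith
  have hha := hada hu hs' hb hr (show r ≤ r + h by linarith) (show r + h ≤ r₂ by linarith) h3
  have e1 : Real.log (r₂ / r) = Real.log (r₂ / (r + h)) + Real.log ((r + h) / r) := by
    rw [← Real.log_mul (by positivity) (by positivity)]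
    congr 1
    field_simp
  rw [e1] at hha
  have hl1 : L ≤ Real.log (r₂ / (r + h)) := by
    rw [hLd]
    refine Real.log_le_log (by positivity) ?_
    exact div_le_div_of_nonneg_left hr2.le hrh (by linarith)
  have hl2 : Real.log ((r + h) / r) ≤ h / r := by
    have h6 := Real.log_le_sub_one_of_pos (show 0 < (r + h) / r by positivity)
    have e2 : (r + h) / r - 1 = h / r := by field_simp; ring
    rwa [e2] at h6
  have hl3 : 0 ≤ Real.log ((r + h) / r) := Real.log_nonneg (by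
    rw [le_div_iff₀ hr]; linarith)
  have hb1 := abs_le.1 (supB_bdd hu hb (show 0 ≤ r₂ by linarith) z)
  have hb2 := abs_le.1 (supB_bdd hu hb hrh.le z)
  set S1 := supB u (r + h) z
  set S0 := supB u r z
  set S2 := supB u r₂ z
  set l1 := Real.log (r₂ / (r + h))
  set l2 := Real.log ((r + h) / r)
  have h7 : (S1 - S0) * l1 ≤ 2 * M * l2 := by
    have : (S1 - S0) * l1 ≤ (S2 - S1) * l2 := by nlinarith
    exact this.trans (mul_le_mul_of_nonneg_right (by linarith [hb1.2, hb2.1]) hl3)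
  rcases le_or_gt S1 S0 with h8 | h8
  · have : 0 ≤ (2 * M / (L * r) + 1) * h := by positivity
    linarith
  · have h9 : (S1 - S0) * L ≤ 2 * M * (h / r) := by
      calc (S1 - S0) * L ≤ (S1 - S0) * l1 := mul_le_mul_of_nonneg_left hl1 (by linarith)
        _ ≤ 2 * M * l2 := h7
        _ ≤ 2 * M * (h / r) := mul_le_mul_of_nonneg_left hl2 (by positivity)
    have h10 : S1 - S0 ≤ 2 * M * (h / r) / L := by
      rw [le_div_iff₀ hL]; exact h9
    have e3 : 2 * M * (h / r) / L = 2 * M / (L * r) * h := by field_simp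
    rw [e3] at h10
    have : (2 * M / (L * r) + 1) * h = 2 * M / (L * r) * h + h := by ring
    rw [this]
    linarith

theorem supR_le (hu : UpperSemicontinuous u) {r : ℝ} (hr : 0 ≤ r) (z w : Cn n) :
    supB u r w ≤ supB u (r + ‖w - z‖) z := by
  obtain ⟨w', hw', he⟩ := supB_attained hu hr w
  rw [he]
  refine le_supB hu ?_
  have e : w' - z = (w' - w) + (w - z) := by abel
  rw [e]
  exact (norm_add_le _ _).trans (by linarith)

theorem supB_cont (hu : UpperSemicontinuous u) (hb : ∀ y, |u y| ≤ M) {R R' r : ℝ}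
    (hs : SubOn (ball 0 R) u) (hr : 0 < r) (hR : R' + r < R) :
    ContinuousOn (supB u r) (ball 0 R') := by
  obtain ⟨C, δ, hC, hδ, h⟩ := supR_lip hu hb hs hr hR
  rw [Metric.continuousOn_iff]
  intro z hz ε hε
  refine ⟨min δ (ε / (2 * C)), lt_min hδ (by positivity), fun w hw hwz => ?_⟩
  have h1 : ‖w - z‖ < min δ (ε / (2 * C)) := by rwa [dist_eq_norm] at hwz
  have h2 : ‖w - z‖ ≤ δ := (h1.trans_le (min_le_left _ _)).le
  have h3 : C * ‖w - z‖ < ε := by
    have h4 : ‖w - z‖ < ε / (2 * C) := h1.trans_le (min_le_right _ _)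
    have h5 : C * ‖w - z‖ ≤ C * (ε / (2 * C)) := mul_le_mul_of_nonneg_left h4.le hC.le
    have e : C * (ε / (2 * C)) = ε / 2 := by field_simp
    rw [e] at h5
    linarith
  have h6 := (supR_le hu hr.le z w).trans (h z hz _ (norm_nonneg _) h2)
  have h7 := supR_le hu hr.le w z
  rw [norm_sub_rev] at h7
  have h8 := h7.trans (h w hw _ (norm_nonneg _) h2)
  rw [Real.dist_eq, abs_lt]
  constructor <;> linarith

end HMA

end S_KW_SupR

section S_KW_LUs

/-! # Module LUs: existence of the local potentials -/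

open MeasureTheory Metric Set Filter
open scoped ENNReal Topology ContDiff ComplexOrder

namespace HMA

variable {n : ℕ} {X : Type} [TopologicalSpace X] (K : KM n X)

theorem lus_sub {Ω Ω' : Set (Cn n)} {u v : Cn n → ℝ} (hu : SubOn Ω u) (h' : Ω' ⊆ Ω)
    (h : ∀ z ∈ Ω', v z = u z) : SubOn Ω' v := by
  intro a b hab
  rw [h a (by simpa using hab 0 (by simp))]
  refine (hu a b (fun ζ hζ => h' (hab ζ hζ))).trans (le_of_eq ?_)
  congr 1
  refine intervalIntegral.integral_congr fun θ _ => ?_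
  exact (h _ (hab _ (by rw [Complex.norm_exp_ofReal_mul_I]))).symm

theorem KM.exists_LU {Φ : X → ℝ} (hΦ : PB K Φ) : ∃ (M : ℝ) (u : Fin K.N → Cn n → ℝ),
    0 < M ∧ LU K Φ M u := by
  classical
  obtain ⟨B, hB⟩ := hΦ.bdd
  have hsub : closedBall (0 : Cn n) (5 / 2) ⊆ ball 0 3 := closedBall_subset_ball (by norm_num)
  have hR : ∀ i, ∃ R : ℝ, ∀ z ∈ closedBall (0 : Cn n) (5 / 2), ‖K.ρ i z‖ ≤ R := fun i =>
    (isCompact_closedBall (0 : Cn n) (5 / 2)).exists_bound_of_continuousOn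
      ((K.ρ_smooth i).continuousOn.mono hsub)
  choose R hR using hR
  set M : ℝ := 1 + |B| + ∑ i, |R i| with hM
  have hsum0 : 0 ≤ ∑ i, |R i| := Finset.sum_nonneg fun i _ => abs_nonneg _
  have hM0 : 0 < M := by
    have := abs_nonneg B
    rw [hM]
    linarith
  have hRi : ∀ i, |R i| ≤ ∑ i, |R i| := fun i =>
    Finset.single_le_sum (f := fun i => |R i|) (fun j _ => abs_nonneg _) (Finset.mem_univ i)
  have hbd : ∀ i, ∀ z : Cn n, ‖z‖ ≤ 5 / 2 → |K.ρ i z + Φ (K.κ i z)| ≤ M := by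
    intro i z hz
    have h1 := hR i z (by rwa [mem_closedBall_zero_iff])
    rw [Real.norm_eq_abs] at h1
    have h2 := hB (K.κ i z)
    have h3 := abs_add_le (K.ρ i z) (Φ (K.κ i z))
    have h4 := le_abs_self (R i)
    have h5 := le_abs_self B
    have h6 := hRi i
    rw [hM]
    linarith
  set u : Fin K.N → Cn n → ℝ := fun i z =>
    if ‖z‖ ≤ 5 / 2 then K.ρ i z + Φ (K.κ i z) else -M with hu
  have hu1 : ∀ i z, ‖z‖ ≤ 5 / 2 → u i z = K.ρ i z + Φ (K.κ i z) := by
    intro i z hz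
    simp only [hu, if_pos hz]
  have hu2 : ∀ i z, ¬ ‖z‖ ≤ 5 / 2 → u i z = -M := by
    intro i z hz
    simp only [hu, if_neg hz]
  refine ⟨M, u, hM0, ?_, ?_, hu1, ?_⟩
  · intro i z
    by_cases hz : ‖z‖ ≤ 5 / 2
    · have hz3 : z ∈ ball (0 : Cn n) 3 := hsub (by rwa [mem_closedBall_zero_iff])
      have hn : ball (0 : Cn n) 3 ∈ 𝓝 z := isOpen_ball.mem_nhds hz3
      have hρ : ContinuousAt (K.ρ i) z := (K.ρ_smooth i).continuousOn.continuousAt hn
      have hκ : ContinuousAt (K.κ i) z := (K.cont i).continuousAt hn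
      intro y hy
      rw [hu1 i z hz] at hy
      set e : ℝ := (y - (K.ρ i z + Φ (K.κ i z))) / 2 with he
      have he0 : 0 < e := by rw [he]; linarith
      have h1 : ∀ᶠ w in 𝓝 z, K.ρ i w < K.ρ i z + e :=
        hρ.eventually (gt_mem_nhds (by linarith))
      have h2 : ∀ᶠ w in 𝓝 z, Φ (K.κ i w) < Φ (K.κ i z) + e :=
        hκ.eventually (hΦ.usc (K.κ i z) _ (by linarith))
      filter_upwards [h1, h2] with w h3 h4
      by_cases hw : ‖w‖ ≤ 5 / 2
      · rw [hu1 i w hw]
        rw [he] at h3 h4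
        linarith
      · rw [hu2 i w hw]
        have h5 := (abs_le.1 (hbd i z hz)).1
        linarith
    · intro y hy
      rw [hu2 i z hz] at hy
      have h1 : ∀ᶠ w in 𝓝 z, 5 / 2 < ‖w‖ :=
        continuous_norm.continuousAt.eventually (lt_mem_nhds (not_le.1 hz))
      filter_upwards [h1] with w hw
      rw [hu2 i w (not_le.2 hw)]
      exact hy
  · intro i z
    by_cases hz : ‖z‖ ≤ 5 / 2
    · rw [hu1 i z hz]
      exact hbd i z hz
    · rw [hu2 i z hz, abs_neg, abs_of_pos hM0]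
  · intro i
    refine lus_sub (hΦ.sub i) (ball_subset_ball (by norm_num)) ?_
    intro z hz
    exact hu1 i z (by rw [mem_ball_zero_iff] at hz; exact hz.le)

theorem md_bdd [Nonempty X] {Φ : X → ℝ} {M : ℝ} {u : Fin K.N → Cn n → ℝ} (hu : LU K Φ M u) {r : ℝ}
    (hr : 0 ≤ r) : (∀ i z, ‖z‖ ≤ 7 / 4 → supB (u i) r z - u i z ≤ md u r) ∧ 0 ≤ md u r ∧
      md u r ≤ 2 * M := by
  have h1 : ∀ t ∈ {t | ∃ (i : Fin K.N) (z : Cn n), ‖z‖ ≤ 7 / 4 ∧ supB (u i) r z - u i z = t},
      t ≤ 2 * M := by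
    rintro t ⟨i, z, hz, rfl⟩
    have h2 := (abs_le.1 (supB_bdd (hu.usc i) (hu.bdd i) hr z)).2
    have h3 := (abs_le.1 (hu.bdd i z)).1
    linarith
  have h4 : ∀ i z, ‖z‖ ≤ 7 / 4 → supB (u i) r z - u i z ≤ md u r := fun i z hz =>
    le_csSup ⟨2 * M, h1⟩ ⟨i, z, hz, rfl⟩
  obtain ⟨i, -⟩ := K.cover (Classical.arbitrary X)
  refine ⟨h4, ?_, csSup_le ⟨_, i, 0, by rw [norm_zero]; norm_num, rfl⟩ h1⟩
  refine le_trans ?_ (h4 i 0 (by rw [norm_zero]; norm_num))
  rw [sub_nonneg]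
  unfold supB
  refine le_csSup ⟨M, ?_⟩ ⟨0, mem_closedBall_self hr, rfl⟩
  rintro _ ⟨y, _, rfl⟩
  exact (abs_le.1 (hu.bdd i y)).2

end HMA

end S_KW_LUs

section S_KW_PrC

/-! # Module PrC: comparison of the regularisations in different charts -/

open MeasureTheory Metric Set Filter
open scoped ENNReal Topology ContDiff ComplexOrder

namespace HMA

variable {n : ℕ} {X : Type} [TopologicalSpace X] (K : KM n X)

/-- the three circles theorem gives the comparison of two radii -/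
theorem prC_hada {Φ : X → ℝ} {M : ℝ} {u : Fin K.N → Cn n → ℝ} (hu : LU K Φ M u)
    [Nonempty X] {Λ r T : ℝ} (hΛ : 1 < Λ) (hr : 0 < r) (hT : 0 < T)
    (hr1 : Λ * Real.exp T * r ≤ 1 / 4) (j : Fin K.N) (w : Cn n) (hw : ‖w‖ ≤ 7 / 4) :
    supB (u j) (Λ * r) w - supB (u j) r w ≤ Real.log Λ / T * md u (Λ * Real.exp T * r) := by
  have hL0 : 0 < Λ := by linarith
  have hE1 : 1 < Real.exp T := by
    rw [Real.one_lt_exp_iff]
    exact hT
  have hlog : 0 < Real.log Λ := Real.log_pos hΛ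
  have hΛr : r ≤ Λ * r := by nlinarith
  have hΛr0 : 0 < Λ * r := by positivity
  have hΛE : Λ * r ≤ Λ * Real.exp T * r := by nlinarith
  have hbig0 : 0 < Λ * Real.exp T * r := by positivity
  have hsub : SubOn (ball w (3 / 4)) (u j) := by
    intro a b hab
    refine hu.sub j a b fun ζ hζ => ?_
    have h1 := hab ζ hζ
    rw [mem_ball, dist_eq_norm] at h1
    rw [mem_ball, dist_zero_right]
    calc ‖a + ζ • b‖ = ‖(a + ζ • b - w) + w‖ := by congr 1; abel
      _ ≤ ‖a + ζ • b - w‖ + ‖w‖ := norm_add_le _ _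
      _ < 5 / 2 := by linarith
  have h1 := hada (hu.usc j) hsub (hu.bdd j) hr hΛr hΛE (by linarith)
  have e1 : Λ * Real.exp T * r / r = Λ * Real.exp T := by field_simp
  have e2 : Λ * Real.exp T * r / (Λ * r) = Real.exp T := by field_simp
  have e3 : Λ * r / r = Λ := by field_simp
  rw [e1, e2, e3, Real.log_mul hL0.ne' (Real.exp_pos T).ne', Real.log_exp] at h1
  have h2 : u j w ≤ supB (u j) (Λ * r) w :=
    le_supB (hu.usc j) (by rw [sub_self, norm_zero]; exact hΛr0.le)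
  have h3 := (md_bdd K hu hbig0.le).1 j w hw
  have h4 : T * (supB (u j) (Λ * r) w - supB (u j) r w) ≤
      Real.log Λ * md u (Λ * Real.exp T * r) := by
    have h5 : Real.log Λ * (supB (u j) (Λ * Real.exp T * r) w - supB (u j) (Λ * r) w) ≤
        Real.log Λ * md u (Λ * Real.exp T * r) := by
      refine mul_le_mul_of_nonneg_left ?_ hlog.le
      linarith
    nlinarith
  rw [div_mul_eq_mul_div, le_div_iff₀ hT]
  linarith

theorem prC_one {Φ : X → ℝ} {M : ℝ} {u : Fin K.N → Cn n → ℝ} (hu : LU K Φ M u)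
    [Nonempty X] {Λ C r₁ : ℝ} (hΛ : 1 < Λ) (hC : 0 < C) (hr₁ : r₁ ≤ 1 / 4)
    (hov : ∀ (i j : Fin K.N) (z w : Cn n), ‖z‖ ≤ 7 / 4 → ‖w‖ ≤ 7 / 4 → K.κ i z = K.κ j w →
      ∀ y : Cn n, ‖y - z‖ ≤ r₁ → ∃ y' : Cn n, ‖y'‖ < 3 ∧ K.κ j y' = K.κ i y ∧
        ‖y' - w‖ ≤ Λ * ‖y - z‖ ∧
        |(K.ρ i y - K.ρ j y') - (K.ρ i z - K.ρ j w)| ≤ C * ‖y - z‖)
    {r T : ℝ} (hr : 0 < r) (hT : 0 < T) (hr1 : Λ * Real.exp T * r ≤ r₁)
    (i j : Fin K.N) (z w : Cn n) (hz : ‖z‖ ≤ 7 / 4) (hw : ‖w‖ ≤ 7 / 4)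
    (he : K.κ i z = K.κ j w) :
    (supB (u i) r z - K.ρ i z) - (supB (u j) r w - K.ρ j w) ≤
          Real.log Λ / T * md u (Λ * Real.exp T * r) + C * r := by
  have hE1 : 1 < Real.exp T := by
    rw [Real.one_lt_exp_iff]
    exact hT
  have hΛr : r ≤ Λ * r := by nlinarith
  have hΛE : Λ * r ≤ Λ * Real.exp T * r := by nlinarith
  have h1 := prC_hada K hu hΛ hr hT (hr1.trans hr₁) j w hw
  obtain ⟨y, hy, hy2⟩ := supB_attained (hu.usc i) hr.le z
  obtain ⟨y', -, hκ, hy', hρ⟩ := hov i j z w hz hw he y (by linarith)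
  have hyr : Λ * ‖y - z‖ ≤ Λ * r := mul_le_mul_of_nonneg_left hy (by linarith)
  have hCr : C * ‖y - z‖ ≤ C * r := mul_le_mul_of_nonneg_left hy hC.le
  have hny : ‖y‖ ≤ 5 / 2 := by
    calc ‖y‖ = ‖(y - z) + z‖ := by congr 1; abel
      _ ≤ ‖y - z‖ + ‖z‖ := norm_add_le _ _
      _ ≤ 5 / 2 := by linarith
  have hny' : ‖y'‖ ≤ 5 / 2 := by
    calc ‖y'‖ = ‖(y' - w) + w‖ := by congr 1; abel
      _ ≤ ‖y' - w‖ + ‖w‖ := norm_add_le _ _
      _ ≤ 5 / 2 := by linarith
  have h2 := hu.eq i y hny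
  have h3 := hu.eq j y' hny'
  have h4 : u j y' ≤ supB (u j) (Λ * r) w := le_supB (hu.usc j) (hy'.trans hyr)
  rw [abs_le] at hρ
  rw [hκ] at h3
  rw [hy2]
  linarith [hρ.2]

theorem KM.pr_comp [T2Space X] {Φ : X → ℝ} {M : ℝ} {u : Fin K.N → Cn n → ℝ}
    (hu : LU K Φ M u) : ∃ Λ C r₁ : ℝ, 1 < Λ ∧ 0 < C ∧ 0 < r₁ ∧ ∀ r T : ℝ, 0 < r → 0 < T →
      Λ * Real.exp T * r ≤ r₁ → ∀ (i j : Fin K.N) (z w : Cn n), ‖z‖ ≤ 7 / 4 → ‖w‖ ≤ 7 / 4 →
        K.κ i z = K.κ j w → |(supB (u i) r z - K.ρ i z) - (supB (u j) r w - K.ρ j w)| ≤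
          Real.log Λ / T * md u (Λ * Real.exp T * r) + C * r := by
  obtain ⟨Λ, C, r₁, hΛ, hC, hr₁, hr₁4, hov⟩ := K.overlap
  refine ⟨Λ, C, r₁, hΛ, hC, hr₁, ?_⟩
  intro r T hr hT h1 i j z w hz hw he
  have : Nonempty X := ⟨K.κ i z⟩
  have h2 := prC_one K hu hΛ hC hr₁4 hov hr hT h1 i j z w hz hw he
  have h3 := prC_one K hu hΛ hC hr₁4 hov hr hT h1 j i w z hw hz he.symm
  rw [abs_le]
  constructor <;> linarith

end HMA

end S_KW_PrC

section S_KW_GlueC

/-! # Module GlueC: glueing with the maximum -/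

open MeasureTheory Metric Set Filter
open scoped ENNReal Topology ContDiff ComplexOrder

namespace HMA

variable {n : ℕ} {X : Type} [TopologicalSpace X] (K : KM n X)

theorem gluec_max {N : ℕ} (hN : (Finset.univ : Finset (Fin N)).Nonempty) (f : Fin N → ℝ)
    (I : Finset (Fin N)) (hI : ∀ i, i ∉ I → ∃ j, f i < f j) :
    ∃ h : I.Nonempty, Finset.univ.sup' hN f = I.sup' h f := by
  obtain ⟨i, -, hi⟩ := Finset.exists_mem_eq_sup' hN f
  have hiI : i ∈ I := by
    by_contra hcon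
    obtain ⟨j, hj⟩ := hI i hcon
    have h1 := Finset.le_sup' f (Finset.mem_univ j)
    rw [hi] at h1
    exact absurd hj (not_lt.2 h1)
  refine ⟨⟨i, hiI⟩, le_antisymm ?_ ?_⟩
  · rw [hi]
    exact Finset.le_sup' f hiI
  · exact Finset.sup'_le _ _ fun j _ => Finset.le_sup' f (Finset.mem_univ j)

theorem gluec_mono {Ω Ω' : Set (Cn n)} {u : Cn n → ℝ} (h : SubOn Ω u) (hΩ : Ω' ⊆ Ω) :
    SubOn Ω' u := fun a b hab => h a b fun ζ hζ => hΩ (hab ζ hζ)

theorem gluec_circle {Ω : Set (Cn n)} {u : Cn n → ℝ} (hu : ContinuousOn u Ω) {a b : Cn n}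
    (hab : ∀ ζ : ℂ, ‖ζ‖ ≤ 1 → a + ζ • b ∈ Ω) :
    IntervalIntegrable (fun θ : ℝ => u (a + Complex.exp (θ * Complex.I) • b)) volume
      0 (2 * Real.pi) := by
  refine Continuous.intervalIntegrable ?_ _ _
  refine hu.comp_continuous (by fun_prop) fun θ => hab _ ?_
  rw [Complex.norm_exp_ofReal_mul_I]

/-- the maximum of finitely many continuous subharmonic functions -/
theorem gluec_sub {Ω : Set (Cn n)} {u : Cn n → ℝ} (hu : ContinuousOn u Ω)
    (h : ∀ a ∈ Ω, ∃ v : Cn n → ℝ, ContinuousOn v Ω ∧ SubOn Ω v ∧ (∀ z ∈ Ω, v z ≤ u z) ∧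
      v a = u a) : SubOn Ω u := by
  intro a b hab
  have ha : a ∈ Ω := by
    have h1 := hab 0 (by simp)
    rwa [zero_smul, add_zero] at h1
  obtain ⟨v, hvc, hvs, hvu, hva⟩ := h a ha
  rw [← hva]
  refine (hvs a b hab).trans ?_
  refine mul_le_mul_of_nonneg_left ?_ (by positivity)
  refine intervalIntegral.integral_mono (by positivity) (gluec_circle hvc hab)
    (gluec_circle hu hab) fun θ => ?_
  refine hvu _ (hab _ ?_)
  rw [Complex.norm_exp_ofReal_mul_I]

theorem gluec_LC (w : Fin K.N → X → ℝ) (hN : (Finset.univ : Finset (Fin K.N)).Nonempty)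
    (I : Finset (Fin K.N)) (k : Fin K.N) (z : Cn n) (hz : z ∈ ball (0 : Cn n) 3)
    (hI : ∀ i ∈ I, LC K (w i) k z)
    (hnear : ∀ᶠ y in 𝓝 (K.κ k z), ∀ i, i ∉ I → ∃ j, w i y < w j y) :
    LC K (fun x => Finset.univ.sup' hN fun i => w i x) k z := by
  have hκ : ContinuousAt (K.κ k) z := (K.cont k).continuousAt (isOpen_ball.mem_nhds hz)
  obtain ⟨r', hr', hball⟩ := Metric.eventually_nhds_iff_ball.1 (hκ.eventually hnear)
  have hex : ∀ i, ∃ r : ℝ, 0 < r ∧ (i ∈ I → ball z r ⊆ ball 0 3 ∧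
      ContinuousOn (fun y => w i (K.κ k y)) (ball z r) ∧
      SubOn (ball z r) (fun y => K.ρ k y + w i (K.κ k y))) := by
    intro i
    by_cases hi : i ∈ I
    · obtain ⟨r, h0, h1, h2, h3⟩ := hI i hi
      exact ⟨r, h0, fun _ => ⟨h1, h2, h3⟩⟩
    · exact ⟨1, one_pos, fun h => absurd h hi⟩
  choose r hr0 hr using hex
  obtain ⟨R, hR⟩ : ∃ R : ℝ, R = min r' (Finset.univ.inf' hN r) := ⟨_, rfl⟩
  have hR0 : 0 < R := by
    rw [hR]
    exact lt_min hr' ((Finset.lt_inf'_iff _).2 fun i _ => hr0 i)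
  have hRr' : ball z R ⊆ ball z r' := ball_subset_ball (by rw [hR]; exact min_le_left _ _)
  have hRr : ∀ i, ball z R ⊆ ball z (r i) := fun i => ball_subset_ball (by
    rw [hR]
    exact (min_le_right _ _).trans (Finset.inf'_le _ (Finset.mem_univ i)))
  have hnear' : ∀ y ∈ ball z R, ∀ i, i ∉ I → ∃ j, w i (K.κ k y) < w j (K.κ k y) :=
    fun y hy => hball y (hRr' hy)
  obtain ⟨hIne, -⟩ := gluec_max hN (fun i => w i (K.κ k z)) I (hnear' z (mem_ball_self hR0))
  have hsub3 : ball z R ⊆ ball 0 3 := by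
    obtain ⟨i, hi⟩ := hIne
    exact (hRr i).trans (hr i hi).1
  have hcI : ∀ i ∈ I, ContinuousOn (fun y => w i (K.κ k y)) (ball z R) :=
    fun i hi => (hr i hi).2.1.mono (hRr i)
  have heq : ∀ y ∈ ball z R, (Finset.univ.sup' hN fun i => w i (K.κ k y)) =
      I.sup' hIne fun i => w i (K.κ k y) := by
    intro y hy
    obtain ⟨_, h2⟩ := gluec_max hN (fun i => w i (K.κ k y)) I (hnear' y hy)
    exact h2
  have hcont : ContinuousOn (fun y => Finset.univ.sup' hN fun i => w i (K.κ k y))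
      (ball z R) := by
    have h1 : ContinuousOn (fun y => I.sup' hIne fun i => w i (K.κ k y)) (ball z R) := by
      have := ContinuousOn.finset_sup'_apply hIne (f := fun i y => w i (K.κ k y)) hcI
      exact this
    exact h1.congr heq
  have hρ : ContinuousOn (K.ρ k) (ball z R) := ((K.ρ_smooth k).continuousOn).mono hsub3
  refine ⟨R, hR0, hsub3, hcont, gluec_sub (hρ.add hcont) fun a ha => ?_⟩
  obtain ⟨i, hi, hia⟩ := Finset.exists_mem_eq_sup' hIne fun i => w i (K.κ k a)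
  refine ⟨fun y => K.ρ k y + w i (K.κ k y), hρ.add (hcI i hi),
    gluec_mono (hr i hi).2.2 (hRr i), fun y _ => ?_, ?_⟩
  · exact add_le_add le_rfl (Finset.le_sup' (fun i => w i (K.κ k y)) (Finset.mem_univ i))
  · show K.ρ k a + w i (K.κ k a) = K.ρ k a + Finset.univ.sup' hN fun i => w i (K.κ k a)
    rw [heq a ha, hia]

theorem KM.glue_pc [Nonempty X] (w : Fin K.N → X → ℝ) (O : Fin K.N → Set X)
    (hO : ∀ i, IsOpen (O i))
    (h : ∀ i k, ∀ z ∈ ball (0 : Cn n) 3, K.κ k z ∈ O i → LC K (w i) k z)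
    (hd : ∀ i, ∀ x, x ∉ O i → ∀ᶠ y in 𝓝 x, ∃ j, w i y < w j y) :
    ∃ φ : X → ℝ, PC K φ ∧ ∀ x, (∀ i, w i x ≤ φ x) ∧ ∃ i, φ x = w i x := by
  classical
  have hN : (Finset.univ : Finset (Fin K.N)).Nonempty := by
    obtain ⟨x⟩ := ‹Nonempty X›
    obtain ⟨i, _⟩ := K.cover x
    exact ⟨i, Finset.mem_univ i⟩
  refine ⟨fun x => Finset.univ.sup' hN fun i => w i x, pc_of_LC K fun x => ?_,
    fun x => ⟨fun i => Finset.le_sup' (fun i => w i x) (Finset.mem_univ i), ?_⟩⟩
  · obtain ⟨k, z, hz1, hzx⟩ := K.cover x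
    have hz : z ∈ ball (0 : Cn n) 3 := ball_subset_ball (by norm_num) hz1
    refine ⟨k, z, hz, hzx, gluec_LC K w hN (Finset.univ.filter fun i => x ∈ O i) k z hz ?_ ?_⟩
    · intro i hi
      exact h i k z hz (by rw [hzx]; exact (Finset.mem_filter.1 hi).2)
    · rw [hzx]
      refine eventually_all.2 fun i => ?_
      by_cases hi : x ∈ O i
      · have hi' : i ∈ Finset.univ.filter fun i => x ∈ O i :=
          Finset.mem_filter.2 ⟨Finset.mem_univ i, hi⟩
        exact Eventually.of_forall fun y hy => absurd hi' hy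
      · exact (hd i x hi).mono fun y hy _ => hy
  · obtain ⟨i, _, hi⟩ := Finset.exists_mem_eq_sup' hN fun i => w i x
    exact ⟨i, hi⟩

end HMA

end S_KW_GlueC

section S_KW_CutR

/-! # Module CutR: cut off functions and strict plurisubharmonicity -/

open MeasureTheory Metric Set Filter
open scoped ENNReal Topology ContDiff ComplexOrder

namespace HMA

variable {n : ℕ} {X : Type} [TopologicalSpace X] (K : KM n X)

theorem cutR_smul {u : Cn n → ℝ} {z : Cn n} (h : TwD u z) (t : ℝ) (ξ : Cn n) :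
    lev u z (t • ξ) = t ^ 2 * lev u z ξ := by
  rw [h.lev, h.lev, smul_comm Complex.I t ξ]
  simp only [map_smul, _root_.smul_apply, smul_eq_mul]
  ring

theorem cutR_add {u v : Cn n → ℝ} {z : Cn n} (hu : TwD u z) (hv : TwD v z) (s : ℝ) (ξ : Cn n) :
    lev (fun w => u w + s * v w) z ξ = lev u z ξ + s * lev v z ξ := by
  have h0 := hv.const_mul s
  have h1 := hu.add h0.1
  have e := h1.1.lev_LM ξ
  rw [h1.2, h0.2] at e
  have e1 := hu.lev_LM ξ
  have e2 := hv.lev_LM ξ
  have : ((lev (fun w => u w + s * v w) z ξ : ℝ) : ℂ) = ((lev u z ξ + s * lev v z ξ : ℝ) : ℂ) := by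
    rw [e]
    push_cast
    rw [e1, e2, Finset.mul_sum, ← Finset.sum_add_distrib]
    refine Finset.sum_congr rfl fun j _ => ?_
    rw [Finset.mul_sum, ← Finset.sum_add_distrib]
    refine Finset.sum_congr rfl fun k _ => ?_
    rw [Matrix.add_apply, Matrix.smul_apply, smul_eq_mul]
    ring
  exact_mod_cast this

/-- joint continuity of the Levi form -/
theorem cutR_cont {Ω : Set (Cn n)} (hΩ : IsOpen Ω) {u : Cn n → ℝ} (hu : ContDiffOn ℝ ∞ u Ω) :
    ContinuousOn (fun p : Cn n × Cn n => lev u p.1 p.2) (Ω ×ˢ univ) := by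
  have h1 : ∀ p ∈ Ω ×ˢ (univ : Set (Cn n)), lev u p.1 p.2 = (hes u p.1 p.2 p.2 +
      hes u p.1 (Complex.I • p.2) (Complex.I • p.2)) / 4 := fun p hp =>
    (sub11_twD_smooth hΩ hu hp.1).lev p.2
  refine ContinuousOn.congr ?_ h1
  intro p hp
  apply ContinuousAt.continuousWithinAt
  have h2 : ContinuousAt (hes u) p.1 := by
    have h3 : ContDiffAt ℝ ∞ u p.1 := hu.contDiffAt (hΩ.mem_nhds hp.1)
    exact ((h3.fderiv_right (m := ∞) (by simp)).fderiv_right (m := ∞) (by simp)).continuousAt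
  have h3 : ContinuousAt (fun q : Cn n × Cn n => hes u q.1) p :=
    ContinuousAt.comp (f := Prod.fst) (g := hes u) h2 continuousAt_fst
  have h4 : ContinuousAt (fun q : Cn n × Cn n => Complex.I • q.2) p :=
    (continuous_snd.const_smul Complex.I).continuousAt
  exact (((h3.clm_apply continuousAt_snd).clm_apply continuousAt_snd).add
    ((h3.clm_apply h4).clm_apply h4)).div_const 4

theorem KM.exists_cut : ∃ (a : Cn n → ℝ) (c₀ : ℝ), 0 < c₀ ∧ ContDiff ℝ ∞ a ∧
    (∀ z, 0 ≤ a z ∧ a z ≤ 1) ∧ (∀ z, ‖z‖ ≤ 1 → a z = 0) ∧ (∀ z, 3 / 2 ≤ ‖z‖ → a z = 1) ∧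
    ∀ (i : Fin K.N) (s : ℝ), |s| ≤ c₀ → SubOn (ball 0 2) (fun z => K.ρ i z + s * a z) := by
  -- the cut off function
  let f : ContDiffBump (0 : Cn n) := ⟨1, 3 / 2, one_pos, by norm_num⟩
  set a : Cn n → ℝ := fun z => 1 - f z with ha
  have hac : ContDiff ℝ ∞ a := contDiff_const.sub f.contDiff
  set S : Set (Cn n × Cn n) := closedBall 0 2 ×ˢ sphere 0 1 with hS
  have hSc : IsCompact S := (isCompact_closedBall _ _).prod (isCompact_sphere _ _)
  have hsub : closedBall (0 : Cn n) 2 ⊆ ball 0 3 := closedBall_subset_ball (by norm_num)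
  -- bound for the cut off function
  obtain ⟨C, hC⟩ := hSc.exists_bound_of_continuousOn
    ((cutR_cont isOpen_univ hac.contDiffOn).mono (fun p hp => ⟨mem_univ _, mem_univ _⟩))
  -- lower bound for the potentials
  have hlow : ∀ i : Fin K.N, ∃ c : ℝ, 0 < c ∧ ∀ p ∈ S, c ≤ lev (K.ρ i) p.1 p.2 := by
    intro i
    rcases S.eq_empty_or_nonempty with h0 | hne
    · refine ⟨1, one_pos, fun p hp => ?_⟩
      rw [h0] at hp
      exact absurd hp (notMem_empty p)
    · obtain ⟨p, hp, hmin⟩ := hSc.exists_isMinOn hne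
        ((cutR_cont isOpen_ball (K.ρ_smooth i)).mono (fun q hq => ⟨hsub hq.1, mem_univ _⟩))
      refine ⟨lev (K.ρ i) p.1 p.2, K.ρ_pos i p.1 (hsub hp.1) p.2 ?_, fun q hq => hmin hq⟩
      intro h
      have := hp.2
      rw [h] at this
      simp at this
  choose c hc0 hc using hlow
  -- a common lower bound
  obtain ⟨c', hc'0, hc'⟩ : ∃ c' : ℝ, 0 < c' ∧ ∀ i, c' ≤ c i := by
    rcases isEmpty_or_nonempty (Fin K.N) with h | h
    · exact ⟨1, one_pos, fun i => (h.false i).elim⟩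
    · obtain ⟨i, hi⟩ := Finite.exists_min c
      exact ⟨c i, hc0 i, hi⟩
  have hC1 : 0 < |C| + 1 := by positivity
  refine ⟨a, c' / (|C| + 1), by positivity, hac, fun z => ⟨?_, ?_⟩, fun z hz => ?_, fun z hz => ?_,
    fun i s hs => ?_⟩
  · have := f.le_one (x := z)
    simp only [ha]
    linarith
  · have := f.nonneg (x := z)
    simp only [ha]
    linarith
  · have := f.one_of_mem_closedBall (x := z) (by simpa using hz)
    simp only [ha, this, sub_self]
  · have := f.zero_of_le_dist (x := z) (by simpa using hz)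
    simp only [ha, this, sub_zero]
  · have hsub2 : ball (0 : Cn n) 2 ⊆ ball 0 3 := ball_subset_ball (by norm_num)
    refine smooth_sub isOpen_ball (((K.ρ_smooth i).mono hsub2).add
      (contDiff_const.mul hac).contDiffOn) ?_
    intro z hz ξ
    have hT : TwD (K.ρ i) z := sub11_twD_smooth isOpen_ball (K.ρ_smooth i) (hsub2 hz)
    have hTa : TwD a z := sub11_twD_smooth isOpen_univ hac.contDiffOn (mem_univ z)
    rw [cutR_add hT hTa]
    rcases eq_or_ne ξ 0 with rfl | hξ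
    · have e1 := cutR_smul hT 0 (0 : Cn n)
      have e2 := cutR_smul hTa 0 (0 : Cn n)
      rw [smul_zero] at e1 e2
      rw [e1, e2]
      simp
    · have hξ' : 0 < ‖ξ‖ := norm_pos_iff.2 hξ
      set η : Cn n := ‖ξ‖⁻¹ • ξ with hη
      have hηn : ‖η‖ = 1 := by
        rw [hη, norm_smul, norm_inv, norm_norm, inv_mul_cancel₀ hξ'.ne']
      have hξη : ξ = ‖ξ‖ • η := by
        rw [hη, smul_smul, mul_inv_cancel₀ hξ'.ne', one_smul]
      have hmem : (z, η) ∈ S := ⟨ball_subset_closedBall hz, by simpa using hηn⟩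
      have h1 : c' ≤ lev (K.ρ i) z η := (hc' i).trans (hc i _ hmem)
      have h2 : |lev a z η| ≤ |C| + 1 := by
        have := hC _ hmem
        rw [Real.norm_eq_abs] at this
        have h3 := le_abs_self C
        simp only at this
        linarith
      have h3 : |s * lev a z η| ≤ c' := by
        rw [abs_mul]
        calc |s| * |lev a z η| ≤ c' / (|C| + 1) * (|C| + 1) := by gcongr
          _ = c' := div_mul_cancel₀ _ hC1.ne'
      have h4 := (abs_le.1 h3).1
      rw [hξη, cutR_smul hT, cutR_smul hTa]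
      have h5 : 0 ≤ lev (K.ρ i) z η + s * lev a z η := by linarith
      have h6 : ‖ξ‖ ^ 2 * lev (K.ρ i) z η + s * (‖ξ‖ ^ 2 * lev a z η) =
          ‖ξ‖ ^ 2 * (lev (K.ρ i) z η + s * lev a z η) := by ring
      rw [h6]
      positivity

end HMA

end S_KW_CutR

section S_KW_Glue2

/-! # Module Glue2: glueing of the local regularisations -/

open MeasureTheory Metric Set Filter
open scoped ENNReal Topology ContDiff ComplexOrder

namespace HMA

variable {n : ℕ} {X : Type} [TopologicalSpace X] (K : KM n X)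

open Classical in
/-- a function in the chart `i`, near the ball of radius `7/4`, extended by a constant -/
noncomputable def Glue2_g (i : Fin K.N) (f : Cn n → ℝ) (L : ℝ) (x : X) : ℝ :=
  if x ∈ K.κ i '' ball 0 (7 / 4) then f (Function.invFunOn (K.κ i) (ball 0 3) x) else -L

theorem Glue2_g_in (i : Fin K.N) (f : Cn n → ℝ) (L : ℝ) {z : Cn n}
    (hz : z ∈ ball (0 : Cn n) (7 / 4)) : Glue2_g K i f L (K.κ i z) = f z := by
  have h3 : z ∈ ball (0 : Cn n) 3 := ball_subset_ball (by norm_num) hz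
  rw [Glue2_g, if_pos ⟨z, hz, rfl⟩, (K.injOn i).leftInvOn_invFunOn h3]

theorem Glue2_g_out (i : Fin K.N) (f : Cn n → ℝ) (L : ℝ) {x : X}
    (hx : x ∉ K.κ i '' ball 0 (7 / 4)) : Glue2_g K i f L x = -L := by
  rw [Glue2_g, if_neg hx]

theorem Glue2_LC (i : Fin K.N) (f : Cn n → ℝ) (L : ℝ)
    (hc : ContinuousOn f (ball (0 : Cn n) (7 / 4)))
    (hs : SubOn (ball (0 : Cn n) (7 / 4)) (fun y => K.ρ i y + f y)) (k : Fin K.N) (z : Cn n)
    (hz : z ∈ ball (0 : Cn n) 3) (hx : K.κ k z ∈ K.κ i '' ball 0 (7 / 4)) :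
    LC K (Glue2_g K i f L) k z := by
  obtain ⟨y, hy, hyz⟩ := hx
  have hy3 : y ∈ ball (0 : Cn n) 3 := ball_subset_ball (by norm_num) hy
  have h1 : LC K (Glue2_g K i f L) i y := by
    obtain ⟨r, hr, hsub⟩ := Metric.isOpen_iff.1 (isOpen_ball (x := (0 : Cn n)) (ε := 7 / 4)) y hy
    refine ⟨r, hr, hsub.trans (ball_subset_ball (by norm_num)), ?_, ?_⟩
    · exact (hc.mono hsub).congr fun w hw => Glue2_g_in K i f L (hsub hw)
    · exact kw_sub_congr (kw_sub_mono hs hsub) fun w hw => by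
        rw [Glue2_g_in K i f L (hsub hw)]
  exact h1.change K hy3 hz hyz.symm

theorem Glue2_rho_bdd : ∃ B : ℝ, 0 ≤ B ∧ ∀ (i : Fin K.N) (z : Cn n), ‖z‖ ≤ 7 / 4 →
    |K.ρ i z| ≤ B := by
  have h : ∀ i : Fin K.N, ∃ C : ℝ, ∀ z : Cn n, ‖z‖ ≤ 7 / 4 → |K.ρ i z| ≤ C := by
    intro i
    have hsub : closedBall (0 : Cn n) (7 / 4) ⊆ ball 0 3 := closedBall_subset_ball (by norm_num)
    obtain ⟨C, hC⟩ := (isCompact_closedBall (0 : Cn n) (7 / 4)).exists_bound_of_continuousOn
      ((K.ρ_smooth i).continuousOn.mono hsub)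
    exact ⟨C, fun z hz => hC z (mem_closedBall_zero_iff.2 hz)⟩
  choose C hC using h
  refine ⟨∑ i, |C i|, Finset.sum_nonneg fun i _ => abs_nonneg _, fun i z hz => ?_⟩
  exact (hC i z hz).trans ((le_abs_self _).trans
    (Finset.single_le_sum (f := fun i => |C i|) (fun i _ => abs_nonneg _) (Finset.mem_univ i)))

theorem KM.glue_sup [CompactSpace X] [T2Space X] [Nonempty X] {Φ : X → ℝ} {M : ℝ}
    {u : Fin K.N → Cn n → ℝ} (hu : LU K Φ M u) : ∃ c₁ B₂ r₁ : ℝ, 0 < c₁ ∧ 0 < B₂ ∧ 0 < r₁ ∧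
      ∀ r D : ℝ, 0 < r → r ≤ r₁ → 0 ≤ D → c₁ * (2 * D + r) ≤ 1 →
      (∀ (i j : Fin K.N) (z w : Cn n), ‖z‖ ≤ 7 / 4 → ‖w‖ ≤ 7 / 4 → K.κ i z = K.κ j w →
        |(supB (u i) r z - K.ρ i z) - (supB (u j) r w - K.ρ j w)| ≤ D) →
      ∃ G : X → ℝ, PC K G ∧ (∀ x, |G x| ≤ B₂) ∧
        (∀ i z, ‖z‖ ≤ 7 / 4 → supB (u i) r z - K.ρ i z ≤
          G (K.κ i z) + D + B₂ * (c₁ * (2 * D + r))) ∧
        ∀ i z, ‖z‖ ≤ 1 → G (K.κ i z) ≤
          supB (u i) r z - K.ρ i z + D + B₂ * (c₁ * (2 * D + r)) := by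
  obtain ⟨a, c₀, hc₀, ha, ha01, ha0, ha1, hcut⟩ := K.exists_cut
  obtain ⟨Bρ, hBρ0, hBρ⟩ := Glue2_rho_bdd K
  have hM0 : 0 ≤ M := by
    obtain ⟨x⟩ := ‹Nonempty X›
    obtain ⟨i, -⟩ := K.cover x
    exact (abs_nonneg _).trans (hu.bdd i 0)
  refine ⟨1 / c₀, M + Bρ + 1, 1 / 2, by positivity, by positivity, by norm_num, ?_⟩
  intro r D hr hr1 hD hκ1 hcmp
  set lam : ℝ := 2 * D + r with hlam
  set κ : ℝ := 1 / c₀ * lam with hκ
  have hlam0 : 0 < lam := by positivity
  have hκ0 : 0 ≤ κ := by positivity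
  have hκlam : κ * c₀ = lam := by
    rw [hκ]
    field_simp
  -- the difference of the regularisation and the potential
  have hpr : ∀ (i : Fin K.N) (z : Cn n), ‖z‖ ≤ 7 / 4 → |supB (u i) r z - K.ρ i z| ≤ M + Bρ := by
    intro i z hz
    have h1 := supB_bdd (hu.usc i) (hu.bdd i) hr.le z
    have h2 := hBρ i z hz
    have h3 := abs_sub (supB (u i) r z) (K.ρ i z)
    linarith
  let f : Fin K.N → Cn n → ℝ := fun i z =>
    (1 - κ) * (supB (u i) r z - K.ρ i z) - lam * a z
  have hsubset : ball (0 : Cn n) (7 / 4) ⊆ ball 0 3 := ball_subset_ball (by norm_num)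
  have hρc : ∀ i, ContinuousOn (K.ρ i) (ball (0 : Cn n) (7 / 4)) := fun i =>
    (K.ρ_smooth i).continuousOn.mono hsubset
  have hsc : ∀ i, ContinuousOn (supB (u i) r) (ball (0 : Cn n) (7 / 4)) := fun i =>
    supB_cont (hu.usc i) (hu.bdd i) (R := 5 / 2) (hu.sub i) hr (by linarith)
  have hac : ContinuousOn a (ball (0 : Cn n) (7 / 4)) := ha.continuous.continuousOn
  have hfc : ∀ i, ContinuousOn (f i) (ball (0 : Cn n) (7 / 4)) := fun i =>
    (((hsc i).sub (hρc i)).const_mul _ |>.sub (hac.const_mul _))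
  have hfs : ∀ i, SubOn (ball (0 : Cn n) (7 / 4)) (fun y => K.ρ i y + f i y) := by
    intro i
    have h1 : SubOn (ball (0 : Cn n) (7 / 4)) (supB (u i) r) := by
      refine supB_sub (hu.usc i) (hu.bdd i) (hu.sub i) hr.le fun z hz => ?_
      intro y hy
      rw [mem_ball_zero_iff] at hz ⊢
      rw [mem_closedBall, dist_eq_norm] at hy
      have : ‖y‖ ≤ ‖y - z‖ + ‖z‖ := by
        have := norm_add_le (y - z) z
        rwa [sub_add_cancel] at this
      linarith
    have h2 : SubOn (ball (0 : Cn n) (7 / 4)) (fun z => K.ρ i z + (-c₀) * a z) := by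
      refine kw_sub_mono (hcut i (-c₀) ?_) (ball_subset_ball (by norm_num))
      rw [abs_neg, abs_of_pos hc₀]
    have h3 := kw_sub_add (kw_sub_mul h1 (show 0 ≤ 1 - κ by linarith)) (kw_sub_mul h2 hκ0)
      ((hsc i).const_mul _) (((hρc i).add (hac.const_mul _)).const_mul _)
    refine kw_sub_congr h3 fun z _ => ?_
    simp only [f]
    rw [← hκlam]
    ring
  let g : Fin K.N → X → ℝ := fun i => Glue2_g K i (f i) (M + Bρ + 1)
  have hgin : ∀ i (z : Cn n), ‖z‖ < 7 / 4 → g i (K.κ i z) =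
      (1 - κ) * (supB (u i) r z - K.ρ i z) - lam * a z := fun i z hz =>
    Glue2_g_in K i (f i) _ (mem_ball_zero_iff.2 hz)
  -- lower bound by the functions near the centre
  have hlow : ∀ x : X, ∃ (j : Fin K.N) (w : Cn n), ‖w‖ < 1 ∧ K.κ j w = x ∧
      g j x = (1 - κ) * (supB (u j) r w - K.ρ j w) ∧ -(M + Bρ) ≤ g j x := by
    intro x
    obtain ⟨j, w, hw, hwx⟩ := K.cover x
    have hw1 : ‖w‖ < 1 := mem_ball_zero_iff.1 hw
    have h1 : g j x = (1 - κ) * (supB (u j) r w - K.ρ j w) := by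
      rw [← hwx, hgin j w (by linarith), ha0 w hw1.le, mul_zero, sub_zero]
    refine ⟨j, w, hw1, hwx, h1, ?_⟩
    rw [h1]
    have h2 := abs_le.1 (hpr j w (by linarith))
    have h3 : 0 ≤ 1 - κ := by linarith
    have h4 : (1 - κ) * (-(M + Bρ)) ≤ (1 - κ) * (supB (u j) r w - K.ρ j w) :=
      mul_le_mul_of_nonneg_left h2.1 h3
    nlinarith
  obtain ⟨G, hG, hGx⟩ := K.glue_pc g (fun i => K.κ i '' ball 0 (7 / 4))
    (fun i => K.isOpen_image i _ hsubset isOpen_ball)
    (fun i k z hz hx => Glue2_LC K i (f i) _ (hfc i) (hfs i) k z hz hx) (by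
      intro i x hx
      have hcl : IsClosed (K.κ i '' closedBall 0 (3 / 2)) := by
        refine ((isCompact_closedBall (0 : Cn n) (3 / 2)).image_of_continuousOn
          ((K.cont i).mono ?_)).isClosed
        exact closedBall_subset_ball (by norm_num)
      have hxn : x ∉ K.κ i '' closedBall 0 (3 / 2) := fun h =>
        hx (image_mono (closedBall_subset_ball (by norm_num)) h)
      filter_upwards [hcl.isOpen_compl.mem_nhds hxn] with y hy
      obtain ⟨j, w, hw, hwy, hgj, hgl⟩ := hlow y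
      refine ⟨j, ?_⟩
      by_cases hyO : y ∈ K.κ i '' ball 0 (7 / 4)
      · obtain ⟨z, hz, hzy⟩ := hyO
        rw [mem_ball_zero_iff] at hz
        have hz2 : 3 / 2 < ‖z‖ := by
          by_contra hcon
          exact hy ⟨z, mem_closedBall_zero_iff.2 (not_lt.1 hcon), hzy⟩
        have h1 : g i y = (1 - κ) * (supB (u i) r z - K.ρ i z) - lam := by
          rw [← hzy, hgin i z hz, ha1 z hz2.le, mul_one]
        rw [h1, hgj]
        have h2 := (abs_le.1 (hcmp i j z w hz.le (by linarith) (hzy.trans hwy.symm))).2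
        have h3 : 0 ≤ 1 - κ := by linarith
        have h4 := mul_le_mul_of_nonneg_left h2 h3
        nlinarith
      · have h1 : g i y = -(M + Bρ + 1) := Glue2_g_out K i (f i) _ hyO
        rw [h1]
        linarith)
  -- the value of `G`
  have hGval : ∀ x : X, ∃ (j : Fin K.N) (w : Cn n), ‖w‖ < 7 / 4 ∧ K.κ j w = x ∧
      G x = (1 - κ) * (supB (u j) r w - K.ρ j w) - lam * a w := by
    intro x
    obtain ⟨j, w, -, -, -, hgl⟩ := hlow x
    obtain ⟨i, hi⟩ := (hGx x).2
    have h1 := (hGx x).1 j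
    by_cases hxO : x ∈ K.κ i '' ball 0 (7 / 4)
    · obtain ⟨z, hz, hzx⟩ := hxO
      rw [mem_ball_zero_iff] at hz
      refine ⟨i, z, hz, hzx, ?_⟩
      rw [hi, ← hzx, hgin i z hz]
    · exfalso
      have h2 : g i x = -(M + Bρ + 1) := Glue2_g_out K i (f i) _ hxO
      linarith
  refine ⟨G, hG, ?_, ?_, ?_⟩
  · intro x
    obtain ⟨j, w, hw, -, -, hgl⟩ := hlow x
    have h1 := (hGx x).1 j
    obtain ⟨i, z, hz, -, hGe⟩ := hGval x
    have h2 := (abs_le.1 (hpr i z hz.le)).2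
    have h3 : 0 ≤ 1 - κ := by linarith
    have h4 := mul_le_mul_of_nonneg_left h2 h3
    have h5 : 0 ≤ lam * a z := mul_nonneg hlam0.le (ha01 z).1
    have h6 : (1 - κ) * (M + Bρ) ≤ M + Bρ := by nlinarith
    rw [abs_le]
    constructor
    · linarith
    · rw [hGe]
      linarith
  · intro i z hz
    obtain ⟨j, w, hw, hwx, hgj, -⟩ := hlow (K.κ i z)
    have h1 := (hGx (K.κ i z)).1 j
    rw [hgj] at h1
    have h2 := (abs_le.1 (hcmp i j z w hz (by linarith) hwx.symm)).2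
    have h3 := (abs_le.1 (hpr j w (by linarith))).2
    have h4 : κ * (supB (u j) r w - K.ρ j w) ≤ κ * (M + Bρ) := mul_le_mul_of_nonneg_left h3 hκ0
    nlinarith
  · intro i z hz
    obtain ⟨j, w, hw, hwx, hGe⟩ := hGval (K.κ i z)
    rw [hGe]
    have h2 := (abs_le.1 (hcmp i j z w (by linarith) hw.le hwx.symm)).1
    have h3 := (abs_le.1 (hpr j w hw.le)).1
    have h4 : κ * (-(M + Bρ)) ≤ κ * (supB (u j) r w - K.ρ j w) := mul_le_mul_of_nonneg_left h3 hκ0
    have h5 : 0 ≤ lam * a w := mul_nonneg hlam0.le (ha01 w).1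
    nlinarith

end HMA

end S_KW_Glue2

section S_KW_LocR

/-! # Module LocR: the modulus of bounded plurisubharmonic functions in the mean -/

open MeasureTheory Metric Set Filter
open scoped ENNReal Topology ContDiff ComplexOrder

namespace HMA

theorem locR_aff (n : ℕ) (hn : 1 ≤ n) {C ε : ℝ} (hC : 0 < C) (hε : 0 < ε) :
    ∃ C₂ c₂ : ℝ, 0 < C₂ ∧ 0 < c₂ ∧ ∀ ν : Measure (Cn n), ν univ ≤ 1 →
      ν {z | 1 < ‖z‖} = 0 → PolyB n ν C ε → AffN n ν C₂ c₂ := by
  obtain ⟨N, C₁, hN, hC₁, hT⟩ := tub_of_polyB n hn (C := max C 1) (ε := ε) (Λ := 4 * n + 1)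
    (lt_max_of_lt_left hC) hε (by positivity)
  obtain ⟨C₂, c₂, hC₂, hc₂, hSt⟩ := thmN n N (C := C₁) (Λ := 4 * n + 1) hC₁ hN le_rfl
  refine ⟨C₂, c₂, hC₂, hc₂, fun ν hν1 hν0 hP => ?_⟩
  have hνP : PolyB n ν (max C 1) ε := LMain_polyB (le_max_left C 1) le_rfl hP
  obtain ⟨hm, htub⟩ := hT ν (le_trans hν1 (by
    rw [← ENNReal.ofReal_one]
    exact ENNReal.ofReal_le_ofReal (le_max_right C 1))) hν0 hνP
  have h := affN_of_stN hC₂ hc₂ hm htub hSt 0
  rwa [LMain_map hν0] at h

theorem loc_sup (n : ℕ) (hn : 1 ≤ n) {C ε : ℝ} (hC : 0 < C) (hε : 0 < ε) : ∃ b : ℝ, 0 < b ∧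
    ∀ M : ℝ, 0 ≤ M → ∃ K : ℝ, 0 < K ∧ ∀ ν : Measure (Cn n), ν univ ≤ 1 →
      ν {z | 1 < ‖z‖} = 0 → PolyB n ν C ε → ∀ u : Cn n → ℝ, UpperSemicontinuous u →
        SubOn (ball 0 2) u → (∀ z, |u z| ≤ M) → ∀ r : ℝ, 0 < r → r ≤ 1 / 4 →
          ∫⁻ z, ENNReal.ofReal (supB u r z - u z) ∂ν ≤ ENNReal.ofReal (K * r ^ b) := by
  obtain ⟨C₂, c₂, hC₂, hc₂, hAff⟩ := locR_aff n hn hC hε
  obtain ⟨b, hb, hit⟩ := loc_iter n hn hC₂ hc₂
  obtain ⟨K₀, hK₀, hit⟩ := hit 1 0 le_rfl le_rfl
  refine ⟨b, hb, fun M hM => ⟨16 * (2 * M + 1) * K₀, by positivity, ?_⟩⟩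
  intro ν hν1 hν0 hP u hu hs huM r hr hr1
  set t : ℝ := 2 * M + 1 with ht
  have ht1 : 1 ≤ t := by rw [ht]; linarith
  have hvs : SubOn (ball (0 : Cn n) 2) (fun z => u z + (-M)) := by
    refine kw_sub_add_const hs (hu.upperSemicontinuousOn _) ?_ (-M)
    intro L _ _
    exact ⟨M, fun z _ => (abs_le.1 (huM z)).1⟩
  have hvu : UpperSemicontinuous (fun z => u z + (-M)) := by
    have h1 : Continuous (fun x : ℝ => x + (-M)) := by fun_prop
    exact h1.comp_upperSemicontinuous hu (fun x y hxy => by simpa using hxy)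
  have hF : PshOn (ball (0 : Cn n) 2) (fun z => Real.exp (u z + (-M))) := by
    refine kw_pshOn_exp hvs (hvu.upperSemicontinuousOn _) ?_
    intro L _ _
    exact ⟨2 * M, fun z _ => by have := (abs_le.1 (huM z)).1; linarith⟩
  have hF1 : ∀ x ∈ ball (0 : Cn n) 2, Real.exp (u x + (-M)) ≤ 1 := by
    intro x _
    rw [Real.exp_le_one_iff]
    have := (abs_le.1 (huM x)).2
    linarith
  obtain ⟨g, hg, hg1, hg2, hg3⟩ := psh_ext hF hF1 ht1
  have hgu : ∀ z : Cn n, ‖z‖ < 3 / 2 → u z = 16 * t * g z + M := by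
    intro z hz
    have h1 := hg3 z hz
    rw [max_eq_left, Real.log_exp] at h1
    · linarith
    · apply Real.exp_le_exp.2
      have := (abs_le.1 (huM z)).1
      rw [ht]
      linarith
  have hae : ∀ᵐ z ∂ν, ¬ (1 < ‖z‖) := by
    rw [ae_iff]
    simpa using hν0
  have hpt : ∀ᵐ z ∂ν, ENNReal.ofReal (supB u r z - u z) ≤
      ENNReal.ofReal (16 * t) * ENNReal.ofReal (supB g r z - g z) := by
    filter_upwards [hae] with z hz
    rw [← ENNReal.ofReal_mul (by positivity)]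
    apply ENNReal.ofReal_le_ofReal
    obtain ⟨z', hz', he⟩ := supB_attained hu hr.le z
    have hz1 : ‖z‖ < 3 / 2 := by linarith [not_lt.1 hz]
    have hz2 : ‖z'‖ < 3 / 2 := by
      have h1 : ‖z'‖ ≤ ‖z' - z‖ + ‖z‖ := by
        have := norm_add_le (z' - z) z
        rwa [sub_add_cancel] at this
      linarith [not_lt.1 hz]
    have h2 : g z' ≤ supB g r z := le_supB hg.usc hz'
    rw [he, hgu z' hz2, hgu z hz1]
    have h3 : 16 * t * g z' ≤ 16 * t * supB g r z := mul_le_mul_of_nonneg_left h2 (by positivity)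
    linarith
  refine (lintegral_mono_ae hpt).trans ?_
  rw [lintegral_const_mul' _ _ ENNReal.ofReal_ne_top]
  have h := hit ν hν1 hν0 (hAff ν hν1 hν0 hP) g hg hg1 (fun z => by
    rw [add_zero]
    exact hg2 z) r hr hr1
  refine (mul_le_mul_right h (ENNReal.ofReal (16 * t))).trans ?_
  rw [← ENNReal.ofReal_mul (by positivity)]
  apply ENNReal.ofReal_le_ofReal
  rw [mul_assoc (16 * t)]

end HMA

end S_KW_LocR

section S_KM_UUnif

/-! # Module UUnif: uniform integrability -/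

open MeasureTheory Metric Set
open scoped ENNReal Topology ContDiff ComplexOrder

namespace HMA

variable {n : ℕ} {X : Type} [TopologicalSpace X] (K : KM n X)

theorem UUnif_one [CompactSpace X] [ConnectedSpace X] [MeasurableSpace X] [BorelSpace X]
    (hn : 1 ≤ n) {μ : Measure X} [IsProbabilityMeasure μ] (hμ : KModerate K μ) :
    ∃ ε : ℝ, 0 < ε ∧ ε ≤ 1 ∧ ∃ C : ℝ, 0 < C ∧ ∀ F : X → ℝ, KPsh K F →
      (∀ x, F x ≤ 1) → (∃ x, F x = 1) →
        ∫⁻ x, (ENNReal.ofReal (F x)) ^ (-ε) ∂μ ≤ ENNReal.ofReal C := by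
  obtain ⟨ε₀, hε₀, hmod⟩ := hμ
  set ε₁ : ℝ := min ε₀ 1 with hε₁
  have h1pos : 0 < ε₁ := lt_min hε₀ one_pos
  have h1le : ε₁ ≤ 1 := min_le_right _ _
  have h1le0 : ε₁ ≤ ε₀ := min_le_left _ _
  have hfin : ∀ F : X → ℝ, KPsh K F →
      ∫⁻ x, (ENNReal.ofReal (F x)) ^ (-ε₁) ∂μ < ⊤ := by
    intro F hF
    calc ∫⁻ x, (ENNReal.ofReal (F x)) ^ (-ε₁) ∂μ
        ≤ ∫⁻ x, (1 + (ENNReal.ofReal (F x)) ^ (-ε₀)) ∂μ :=
          lintegral_mono (fun x => Unif_pow _ h1pos.le h1le0)
      _ = 1 + ∫⁻ x, (ENNReal.ofReal (F x)) ^ (-ε₀) ∂μ := by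
          rw [lintegral_add_left measurable_const, lintegral_const, measure_univ, mul_one]
      _ < ⊤ := ENNReal.add_lt_top.mpr ⟨ENNReal.one_lt_top, hmod F hF⟩
  by_contra hcon
  push Not at hcon
  have hex : ∀ j : ℕ, ∃ F : X → ℝ, KPsh K F ∧ (∀ x, F x ≤ 1) ∧ (∃ x, F x = 1) ∧
      ENNReal.ofReal ((j : ℝ) + 1) <
        ∫⁻ x, (ENNReal.ofReal (F x)) ^ (-(ε₁ * (1 / 2 : ℝ) ^ (j + 1))) ∂μ := by
    intro j
    refine hcon (ε₁ * (1 / 2 : ℝ) ^ (j + 1)) (by positivity) ?_ ((j : ℝ) + 1) (by positivity)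
    have h2 : (1 / 2 : ℝ) ^ (j + 1) ≤ 1 := pow_le_one₀ (by norm_num) (by norm_num)
    calc ε₁ * (1 / 2 : ℝ) ^ (j + 1) ≤ 1 * 1 := by
          apply mul_le_mul h1le h2 (by positivity) zero_le_one
      _ = 1 := one_mul _
  choose F hF h1 h2 hI using hex
  obtain ⟨G, hG, hGF⟩ := K.prod hn F hF h1 h2
  have hlow : ∀ j : ℕ, ENNReal.ofReal ((j : ℝ) + 1) ≤
      ∫⁻ x, (ENNReal.ofReal (G x)) ^ (-ε₁) ∂μ := by
    intro j
    refine (hI j).le.trans (lintegral_mono fun x => ?_)
    have h3 := hGF j x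
    have h4 : 0 ≤ F j x := uprod_nonneg K (hF j) x
    have h5 : (0 : ℝ) ≤ (1 / 2 : ℝ) ^ (j + 1) := by positivity
    have h6 : ENNReal.ofReal (G x) ≤ ENNReal.ofReal (F j x) ^ ((1 / 2 : ℝ) ^ (j + 1)) := by
      rw [ENNReal.ofReal_rpow_of_nonneg h4 h5]
      exact ENNReal.ofReal_le_ofReal h3
    simp only
    rw [ENNReal.rpow_neg, ENNReal.rpow_neg, ENNReal.inv_le_inv, mul_comm ε₁, ENNReal.rpow_mul]
    exact ENNReal.rpow_le_rpow h6 h1pos.le
  have htop := hfin G hG
  obtain ⟨N, hNat⟩ := ENNReal.exists_nat_gt htop.ne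
  have h7 := hlow N
  have h8 : ((N : ℕ) : ℝ≥0∞) ≤ ENNReal.ofReal ((N : ℝ) + 1) := by
    rw [← ENNReal.ofReal_natCast]
    exact ENNReal.ofReal_le_ofReal (by linarith)
  exact absurd (h8.trans h7) (not_le.mpr hNat)

theorem KM.unif [CompactSpace X] [ConnectedSpace X] [MeasurableSpace X] [BorelSpace X]
    (hn : 1 ≤ n) {μ : Measure X} [IsProbabilityMeasure μ] (hμ : KModerate K μ) :
    ∃ ε : ℝ, 0 < ε ∧ ε ≤ 1 ∧ ∀ A : ℝ, 0 < A → ∃ C : ℝ, 0 < C ∧ ∀ F : X → ℝ, KPsh K F →
      (∀ x, F x ≤ 1) → (∃ x, A ≤ F x) →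
        ∫⁻ x, (ENNReal.ofReal (F x)) ^ (-ε) ∂μ ≤ ENNReal.ofReal C := by
  obtain ⟨ε, hε, hε1, C, hC, hU⟩ := UUnif_one K hn hμ
  refine ⟨ε, hε, hε1, fun A hA0 => ?_⟩
  have hAε : 0 < (A⁻¹) ^ ε := Real.rpow_pos_of_pos (inv_pos.2 hA0) _
  refine ⟨(A⁻¹) ^ ε * C, by positivity, ?_⟩
  intro F hF hF1 hFA
  obtain ⟨p, hpos, hmax⟩ := hF.exists_max K
  have hMinv : 0 < (F p)⁻¹ := inv_pos.mpr hpos
  have hF' : KPsh K (fun x => (F p)⁻¹ * F x) := hF.const_mul K hMinv
  have hFp : A ≤ F p := by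
    obtain ⟨x, hx⟩ := hFA
    exact hx.trans (hmax x)
  have hpt : ∀ x, (ENNReal.ofReal (F x)) ^ (-ε) ≤
      ENNReal.ofReal ((A⁻¹) ^ ε) * (ENNReal.ofReal ((F p)⁻¹ * F x)) ^ (-ε) := by
    intro x
    have hx0 : 0 ≤ F x := uprod_nonneg K hF x
    have h1 : A * ((F p)⁻¹ * F x) ≤ F x := by
      calc A * ((F p)⁻¹ * F x) ≤ F p * ((F p)⁻¹ * F x) :=
            mul_le_mul_of_nonneg_right hFp (by positivity)
        _ = F x := by rw [← mul_assoc, mul_inv_cancel₀ hpos.ne', one_mul]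
    have h2 : ENNReal.ofReal A * ENNReal.ofReal ((F p)⁻¹ * F x) ≤ ENNReal.ofReal (F x) := by
      rw [← ENNReal.ofReal_mul hA0.le]
      exact ENNReal.ofReal_le_ofReal h1
    have hA1 : ENNReal.ofReal A ≠ 0 := by
      rw [Ne, ENNReal.ofReal_eq_zero, not_le]
      exact hA0
    have hA2 : ENNReal.ofReal A ≠ ⊤ := ENNReal.ofReal_ne_top
    have h3 : (ENNReal.ofReal (F x))⁻¹ ≤
        ENNReal.ofReal A⁻¹ * (ENNReal.ofReal ((F p)⁻¹ * F x))⁻¹ := by
      have h4 : (ENNReal.ofReal (F x))⁻¹ ≤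
          (ENNReal.ofReal A * ENNReal.ofReal ((F p)⁻¹ * F x))⁻¹ := ENNReal.inv_le_inv.mpr h2
      rw [ENNReal.mul_inv (Or.inl hA1) (Or.inl hA2)] at h4
      rwa [ENNReal.ofReal_inv_of_pos hA0]
    rw [ENNReal.rpow_neg, ENNReal.rpow_neg, ← ENNReal.inv_rpow, ← ENNReal.inv_rpow,
      ← ENNReal.ofReal_rpow_of_pos (inv_pos.2 hA0), ← ENNReal.mul_rpow_of_nonneg _ _ hε.le]
    exact ENNReal.rpow_le_rpow h3 hε.le
  calc ∫⁻ x, (ENNReal.ofReal (F x)) ^ (-ε) ∂μ
      ≤ ∫⁻ x, ENNReal.ofReal ((A⁻¹) ^ ε) * (ENNReal.ofReal ((F p)⁻¹ * F x)) ^ (-ε) ∂μ :=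
        lintegral_mono hpt
    _ = ENNReal.ofReal ((A⁻¹) ^ ε) * ∫⁻ x, (ENNReal.ofReal ((F p)⁻¹ * F x)) ^ (-ε) ∂μ :=
        lintegral_const_mul' _ _ ENNReal.ofReal_ne_top
    _ ≤ ENNReal.ofReal ((A⁻¹) ^ ε) * ENNReal.ofReal C := by
        gcongr
        refine hU _ hF' (fun x => ?_) ⟨p, inv_mul_cancel₀ hpos.ne'⟩
        calc (F p)⁻¹ * F x ≤ (F p)⁻¹ * F p := mul_le_mul_of_nonneg_left (hmax x) hMinv.le
          _ = 1 := inv_mul_cancel₀ hpos.ne'
    _ = ENNReal.ofReal ((A⁻¹) ^ ε * C) := (ENNReal.ofReal_mul hAε.le).symm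

end HMA

end S_KM_UUnif

section S_KM_UPoly

/-! # Module UPoly: the capacity type condition in the charts -/

open MeasureTheory Metric Set
open scoped ENNReal Topology ContDiff ComplexOrder

namespace HMA

variable {n : ℕ} {X : Type} [TopologicalSpace X] (K : KM n X)

/-- the part of `μ` over the set `S`, in the chart `i` -/
noncomputable def KM.pull [MeasurableSpace X] (μ : Measure X) (i : Fin K.N) (S : Set X) :
    Measure (Cn n) :=
  (μ.restrict (S ∩ K.κ i '' ball 0 1)).map (Function.invFunOn (K.κ i) (ball 0 3))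

theorem uPoly_apply [MeasurableSpace X] [BorelSpace X] (μ : Measure X) (i : Fin K.N) {S : Set X}
    (hS : MeasurableSet S) {E : Set (Cn n)} (hE : MeasurableSet E) :
    K.pull μ i S E = μ (Function.invFunOn (K.κ i) (ball 0 3) ⁻¹' E ∩ (S ∩ K.κ i '' ball 0 1)) := by
  have h1 : IsOpen (K.κ i '' ball 0 1) :=
    K.isOpen_image i _ (ball_subset_ball (by norm_num)) isOpen_ball
  have h2 : MeasurableSet (S ∩ K.κ i '' ball 0 1) := hS.inter h1.measurableSet
  have h3 : ContinuousOn (Function.invFunOn (K.κ i) (ball 0 3)) (K.κ i '' ball 0 3) := K.inv_cont i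
  have h4 : AEMeasurable (Function.invFunOn (K.κ i) (ball 0 3))
      (μ.restrict (S ∩ K.κ i '' ball 0 1)) := by
    have h5 : AEMeasurable (Function.invFunOn (K.κ i) (ball 0 3))
      (μ.restrict (K.κ i '' ball 0 3)) := h3.aemeasurable (K.isOpen_range i).measurableSet
    refine h5.mono_measure ?_
    exact Measure.restrict_mono (inter_subset_right.trans
      (image_mono (ball_subset_ball (by norm_num)))) le_rfl
  rw [KM.pull, Measure.map_apply_of_aemeasurable h4 hE, Measure.restrict_apply' h2]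

theorem uPoly_one [CompactSpace X] [T2Space X] [ConnectedSpace X] [MeasurableSpace X]
    [BorelSpace X] {μ : Measure X} [IsProbabilityMeasure μ] {ε C₁ : ℝ} (hε : 0 < ε)
    (hC₁ : 0 < C₁)
    (hunif : ∀ F : X → ℝ, KPsh K F → (∀ x, F x ≤ 1) → (∃ x, 1 ≤ F x) →
        ∫⁻ x, (ENNReal.ofReal (F x)) ^ (-ε) ∂μ ≤ ENNReal.ofReal C₁)
    {ψ : X → ℝ} (hψ : WK K ψ) {M : ℝ} (hM : ∃ x, M ≤ ψ x) :
    μ {x | ψ x ≤ 0} ≤ ENNReal.ofReal (C₁ * Real.exp (-(ε * M))) := by
  have hF₀ : KPsh K (fun x => Real.exp (ψ x)) := kpsh_of_wk K hψ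
  obtain ⟨x₀, -, hx₀⟩ := hF₀.exists_max
  have hmax : ∀ x, ψ x ≤ ψ x₀ := fun x => Real.exp_le_exp.1 (hx₀ x)
  have hMx : M ≤ ψ x₀ := by
    obtain ⟨x, hx⟩ := hM
    exact hx.trans (hmax x)
  have hF : KPsh K (fun x => Real.exp (-ψ x₀) * Real.exp (ψ x)) :=
    KPsh.const_mul K hF₀ (Real.exp_pos _)
  have hF1 : ∀ x, Real.exp (-ψ x₀) * Real.exp (ψ x) ≤ 1 := by
    intro x
    rw [← Real.exp_add, Real.exp_le_one_iff]
    linarith [hmax x]
  have hF2 : ∃ x, 1 ≤ Real.exp (-ψ x₀) * Real.exp (ψ x) := by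
    refine ⟨x₀, ?_⟩
    rw [← Real.exp_add, neg_add_cancel, Real.exp_zero]
  have h := hunif _ hF hF1 hF2
  have hmeas : Measurable (fun x => (ENNReal.ofReal (Real.exp (-ψ x₀) * Real.exp (ψ x))) ^ (-ε)) := by
    have h1 : Measurable (fun x => Real.exp (-ψ x₀) * Real.exp (ψ x)) := (KPsh.usc K hF).measurable
    exact (ENNReal.measurable_ofReal.comp h1).pow_const _
  have hmk := mul_meas_ge_le_lintegral (μ := μ) hmeas (ENNReal.ofReal (Real.exp (ε * ψ x₀)))
  have hsub : {x | ψ x ≤ 0} ⊆ {x | ENNReal.ofReal (Real.exp (ε * ψ x₀)) ≤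
      (ENNReal.ofReal (Real.exp (-ψ x₀) * Real.exp (ψ x))) ^ (-ε)} := by
    intro x hx
    have hx' : ψ x ≤ 0 := hx
    rw [mem_ofPred_eq, ENNReal.ofReal_rpow_of_pos (by positivity)]
    refine ENNReal.ofReal_le_ofReal ?_
    rw [← Real.exp_add, ← Real.exp_mul, Real.exp_le_exp]
    nlinarith
  have h2 : ENNReal.ofReal (Real.exp (ε * ψ x₀)) * μ {x | ψ x ≤ 0} ≤ ENNReal.ofReal C₁ :=
    (mul_le_mul_right (measure_mono hsub) _).trans (hmk.trans h)
  calc μ {x | ψ x ≤ 0}
      = ENNReal.ofReal (Real.exp (-(ε * ψ x₀))) *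
        (ENNReal.ofReal (Real.exp (ε * ψ x₀)) * μ {x | ψ x ≤ 0}) := by
        rw [← mul_assoc, ← ENNReal.ofReal_mul (Real.exp_pos _).le, ← Real.exp_add,
          neg_add_cancel, Real.exp_zero, ENNReal.ofReal_one, one_mul]
    _ ≤ ENNReal.ofReal (Real.exp (-(ε * ψ x₀))) * ENNReal.ofReal C₁ := mul_le_mul_right h2 _
    _ = ENNReal.ofReal (C₁ * Real.exp (-(ε * ψ x₀))) := by
        rw [← ENNReal.ofReal_mul (Real.exp_pos _).le, mul_comm]
    _ ≤ ENNReal.ofReal (C₁ * Real.exp (-(ε * M))) := by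
        refine ENNReal.ofReal_le_ofReal (mul_le_mul_of_nonneg_left ?_ hC₁.le)
        rw [Real.exp_le_exp]
        nlinarith

theorem KM.pull_polyB [CompactSpace X] [T2Space X] [ConnectedSpace X] [MeasurableSpace X]
    [BorelSpace X] (hn : 1 ≤ n) {μ : Measure X} [IsProbabilityMeasure μ] (hμ : KModerate K μ) :
    ∃ C ε : ℝ, 0 < C ∧ 0 < ε ∧ ∀ (i : Fin K.N) (S : Set X), MeasurableSet S →
      K.pull μ i S univ ≤ 1 ∧ K.pull μ i S {z | 1 < ‖z‖} = 0 ∧ PolyB n (K.pull μ i S) C ε := by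
  obtain ⟨ε, hε, -, hunif⟩ := K.unif hn hμ
  obtain ⟨C₁, hC₁, hunif⟩ := hunif 1 one_pos
  choose c C hc hC hwell using fun i => K.deep_well hn i
  obtain ⟨Cm, hCm⟩ := Finite.bddAbove_range C
  obtain ⟨cm, hcm⟩ := Finite.bddAbove_range (fun i => (c i)⁻¹)
  have hCm' : ∀ i, C i ≤ Cm := fun i => hCm ⟨i, rfl⟩
  have hcm' : ∀ i, (c i)⁻¹ ≤ |cm| + 1 := fun i =>
    (hcm ⟨i, rfl⟩).trans ((le_abs_self _).trans (by linarith))
  have hcpos : (0 : ℝ) < (|cm| + 1)⁻¹ := by positivity
  have hcle : ∀ i, (|cm| + 1)⁻¹ ≤ c i := fun i => inv_le_of_inv_le₀ (hc i) (hcm' i)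
  refine ⟨C₁ * Real.exp (ε * Cm), ε * (|cm| + 1)⁻¹, by positivity, by positivity, ?_⟩
  intro i S hS
  refine ⟨?_, ?_, ?_⟩
  · rw [uPoly_apply K μ i hS MeasurableSet.univ]
    exact prob_le_one
  · rw [uPoly_apply K μ i hS (measurableSet_lt measurable_const measurable_norm)]
    have : Function.invFunOn (K.κ i) (ball 0 3) ⁻¹' {z | 1 < ‖z‖} ∩ (S ∩ K.κ i '' ball 0 1) = ∅ := by
      ext x
      simp only [mem_inter_iff, mem_preimage, mem_ofPred_eq, mem_empty_iff_false, iff_false]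
      rintro ⟨h1, -, z, hz, rfl⟩
      rw [xtop_linv K i (ball_subset_ball (by norm_num) hz)] at h1
      rw [mem_ball_zero_iff] at hz
      linarith
    rw [this, measure_empty]
  · intro Φ s hΦ hinj hder hmaps hs
    obtain ⟨ψ, hψ, hψ0, hψM⟩ := hwell i Φ s hΦ hinj hder hmaps hs
    have hsub : {ζ : Cn n | ∀ j, ‖ζ j‖ ≤ s j} ⊆ pdisc n := fun ζ hζ j => (hζ j).trans_lt (hs j).2
    have hcomp : IsCompact {ζ : Cn n | ∀ j, ‖ζ j‖ ≤ s j} := by
      refine Metric.isCompact_of_isClosed_isBounded ?_ ?_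
      · have : {ζ : Cn n | ∀ j, ‖ζ j‖ ≤ s j} = ⋂ j, {ζ : Cn n | ‖ζ j‖ ≤ s j} := by
          ext ζ
          simp
        rw [this]
        exact isClosed_iInter fun j => isClosed_le
          ((PiLp.continuous_apply 2 (fun _ : Fin n => ℂ) j).norm) continuous_const
      · rw [isBounded_iff_forall_norm_le]
        refine ⟨Real.sqrt (∑ _j : Fin n, (1 : ℝ) ^ 2), fun ζ hζ => ?_⟩
        rw [EuclideanSpace.norm_eq]
        refine Real.sqrt_le_sqrt (Finset.sum_le_sum fun j _ => ?_)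
        exact pow_le_pow_left₀ (norm_nonneg _) ((hζ j).trans (hs j).2.le) 2
    have hE : MeasurableSet (Φ '' {ζ : Cn n | ∀ j, ‖ζ j‖ ≤ s j}) :=
      (hcomp.image_of_continuousOn (hΦ.continuousOn.mono hsub)).isClosed.measurableSet
    rw [uPoly_apply K μ i hS hE]
    have h1 : Function.invFunOn (K.κ i) (ball 0 3) ⁻¹' (Φ '' {ζ : Cn n | ∀ j, ‖ζ j‖ ≤ s j}) ∩
        (S ∩ K.κ i '' ball 0 1) ⊆ {x | ψ x ≤ 0} := by
      rintro x ⟨h1, -, z, hz, rfl⟩
      rw [mem_preimage, xtop_linv K i (ball_subset_ball (by norm_num) hz)] at h1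
      obtain ⟨ζ, hζ, rfl⟩ := h1
      exact hψ0 ζ hζ
    refine (measure_mono h1).trans ((uPoly_one K hε hC₁ hunif hψ hψM).trans ?_)
    refine ENNReal.ofReal_le_ofReal ?_
    rw [mul_assoc, ← Real.exp_add]
    refine mul_le_mul_of_nonneg_left ?_ hC₁.le
    rw [Real.exp_le_exp]
    have hT : 0 ≤ (∏ j, Real.log (1 / s j)) ^ ((n : ℝ)⁻¹) := by
      refine Real.rpow_nonneg (Finset.prod_nonneg fun j _ => Real.log_nonneg ?_) _
      rw [le_div_iff₀ (hs j).1, one_mul]
      exact (hs j).2.le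
    set T := (∏ j, Real.log (1 / s j)) ^ ((n : ℝ)⁻¹) with hTdef
    have h3 : ε * ((|cm| + 1)⁻¹ * T) ≤ ε * (c i * T) :=
      mul_le_mul_of_nonneg_left (mul_le_mul_of_nonneg_right (hcle i) hT) hε.le
    have h4 : ε * C i ≤ ε * Cm := mul_le_mul_of_nonneg_left (hCm' i) hε.le
    nlinarith

end HMA

end S_KM_UPoly

section S_KM_UFin

/-! # Module UFin: the theorem on compact Kähler manifolds -/

open MeasureTheory Metric Set
open scoped ENNReal Topology ContDiff ComplexOrder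

namespace HMA

variable {n : ℕ} {X : Type} [TopologicalSpace X] (K : KM n X)

theorem ufin_nonneg {F : X → ℝ} (hF : KPsh K F) (x : X) : 0 ≤ F x := by
  obtain ⟨i, z, hz, rfl⟩ := K.cover x
  have hz3 : z ∈ ball (0 : Cn n) 3 := ball_subset_ball (by norm_num) hz
  have h := (hF.loc i).nonneg z hz3
  exact nonneg_of_mul_nonneg_left h (Real.exp_pos _)

theorem ufin_pos [MeasurableSpace X] [BorelSpace X] {μ : Measure X} (hμ : KModerate K μ)
    {F : X → ℝ} (hF : KPsh K F) : ∀ᵐ x ∂μ, 0 < F x := by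
  obtain ⟨ε, hε, h⟩ := hμ
  have h1 := h F hF
  have hm : Measurable F := (KPsh.usc K hF).measurable
  have h2 : ∀ᵐ x ∂μ, (ENNReal.ofReal (F x)) ^ (-ε) < ⊤ :=
    ae_lt_top (hm.ennreal_ofReal.pow_const _) h1.ne
  filter_upwards [h2] with x hx
  by_contra hcon
  push Not at hcon
  rw [ENNReal.ofReal_of_nonpos hcon, ENNReal.zero_rpow_of_neg (by linarith)] at hx
  exact lt_irrefl _ hx

/-- comparison of powers -/
theorem ufin_rpow {d D B a α : ℝ} (hd : 0 ≤ d) (hdD : d ≤ D) (hDB : D ≤ B) (hB : 1 ≤ B) (hα : 0 < α)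
    (ha : α ≤ a) : d ^ a ≤ B ^ a * D ^ α := by
  have hB0 : 0 < B := by linarith
  have hD0 : 0 ≤ D := hd.trans hdD
  have ha0 : 0 < a := lt_of_lt_of_le hα ha
  have h1 : d ^ a ≤ D ^ a := Real.rpow_le_rpow hd hdD ha0.le
  have h2 : D ^ a = B ^ a * (D / B) ^ a := by
    rw [← Real.mul_rpow hB0.le (div_nonneg hD0 hB0.le), mul_div_cancel₀ _ hB0.ne']
  have h3 : (D / B) ^ a ≤ (D / B) ^ α :=
    Real.rpow_le_rpow_of_exponent_ge' (div_nonneg hD0 hB0.le) ((div_le_one hB0).2 hDB) hα.le ha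
  have h4 : (D / B) ^ α ≤ D ^ α :=
    Real.rpow_le_rpow (div_nonneg hD0 hB0.le) (div_le_self hD0 hB) hα.le
  calc d ^ a ≤ D ^ a := h1
    _ = B ^ a * (D / B) ^ a := h2
    _ ≤ B ^ a * D ^ α := mul_le_mul_of_nonneg_left (h3.trans h4) (Real.rpow_nonneg hB0.le _)

/-- the pieces of `X` -/
def KM.ufin_S (i : Fin K.N) : Set X := {x | K.ix x = i}

theorem ufin_S_sub (i : Fin K.N) : K.ufin_S i ⊆ K.κ i '' ball 0 1 := by
  intro x hx
  have h := (K.ix_spec x).1
  rw [show K.ix x = i from hx] at h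
  exact h

theorem ufin_inter (i : Fin K.N) : K.ufin_S i ∩ K.κ i '' ball 0 1 = K.ufin_S i :=
  inter_eq_left.2 (ufin_S_sub K i)

theorem ufin_inv_ae [MeasurableSpace X] [BorelSpace X] (μ : Measure X) (i : Fin K.N) :
    AEMeasurable (Function.invFunOn (K.κ i) (ball 0 3)) (μ.restrict (K.ufin_S i)) := by
  have h1 : AEMeasurable (Function.invFunOn (K.κ i) (ball 0 3)) (μ.restrict (K.κ i '' ball 0 3)) :=
    (K.inv_cont i).aemeasurable (K.isOpen_range i).measurableSet
  refine h1.mono_measure (Measure.restrict_mono_set μ ?_)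
  exact (ufin_S_sub K i).trans (image_mono (ball_subset_ball (by norm_num)))

theorem ufin_pull [MeasurableSpace X] (μ : Measure X) (i : Fin K.N) :
    K.pull μ i (K.ufin_S i) = (μ.restrict (K.ufin_S i)).map (Function.invFunOn (K.κ i) (ball 0 3)) := by
  unfold KM.pull
  rw [ufin_inter]

/-- the logarithm in the chart -/
theorem ufin_log {F : X → ℝ} {i : Fin K.N} {a : ℝ} (ha : 0 < a) {x : X} (hx : x ∈ K.ufin_S i) (hFx : 0 < F x) :
    Real.log (a * (F (K.κ i (Function.invFunOn (K.κ i) (ball 0 3) x)) *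
      Real.exp (K.ρ i (Function.invFunOn (K.κ i) (ball 0 3) x)))) =
      Real.log a + Real.log (F x) + K.ρ i (Function.invFunOn (K.κ i) (ball 0 3) x) := by
  have h1 : x ∈ K.κ i '' ball 0 3 := image_mono (ball_subset_ball (by norm_num)) (ufin_S_sub K i hx)
  rw [Function.invFunOn_eq h1, Real.log_mul ha.ne' (mul_pos hFx (Real.exp_pos _)).ne',
    Real.log_mul hFx.ne' (Real.exp_pos _).ne', Real.log_exp]
  ring

theorem ufin_inv_mem {i : Fin K.N} {x : X} (hx : x ∈ K.ufin_S i) :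
    Function.invFunOn (K.κ i) (ball 0 3) x ∈ closedBall (0 : Cn n) 1 := by
  obtain ⟨z, hz, rfl⟩ := ufin_S_sub K i hx
  have hz3 : z ∈ ball (0 : Cn n) 3 := ball_subset_ball (by norm_num) hz
  have : Function.invFunOn (K.κ i) (ball 0 3) (K.κ i z) = z := (K.injOn i).leftInvOn_invFunOn hz3
  rw [this]
  exact ball_subset_closedBall hz

theorem ufin_rho_bdd (i : Fin K.N) : ∃ R : ℝ, 0 < R ∧ ∀ z ∈ closedBall (0 : Cn n) 1, |K.ρ i z| ≤ R := by
  have hc : ContinuousOn (fun z => |K.ρ i z|) (closedBall (0 : Cn n) 1) :=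
    ((K.ρ_smooth i).continuousOn.mono (closedBall_subset_ball (by norm_num))).abs
  obtain ⟨R, hR⟩ := (isCompact_closedBall (0 : Cn n) 1).bddAbove_image hc
  refine ⟨max R 1, lt_max_of_lt_right one_pos, fun z hz => ?_⟩
  exact (hR ⟨z, hz, rfl⟩).trans (le_max_left _ _)

theorem KM.moderate_holder [CompactSpace X] [T2Space X] [ConnectedSpace X] [MeasurableSpace X]
    [BorelSpace X] (hn : 1 ≤ n) {μ : Measure X} [IsProbabilityMeasure μ] (hμ : KModerate K μ) :
    ∃ α : ℝ, 0 < α ∧ ∀ A : ℝ, 0 < A → ∃ C : ℝ, 0 < C ∧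
      ∀ F G : X → ℝ, KPsh K F → KPsh K G → (∀ x, F x ≤ 1) → (∀ x, G x ≤ 1) →
        (∃ x, A ≤ F x) → (∃ x, A ≤ G x) →
        Integrable (fun x => Real.log (F x)) μ ∧
        |(∫ x, Real.log (F x) ∂μ) - ∫ x, Real.log (G x) ∂μ| ≤
          C * (∑ i, ∫ z in ball (0 : Cn n) (3 / 2),
            |Real.log (F (K.κ i z)) - Real.log (G (K.κ i z))|) ^ α := by
  classical
  obtain ⟨C, ε, hC, hε, hP⟩ := K.pull_polyB hn hμ
  have hSm : ∀ i, MeasurableSet (K.ufin_S i) := fun i => K.measurableSet_ix i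
  set inv : ∀ i : Fin K.N, X → Cn n := fun i => Function.invFunOn (K.κ i) (ball 0 3) with hinv
  have hfin : ∀ i, IsFiniteMeasure (K.pull μ i (K.ufin_S i)) := fun i =>
    ⟨lt_of_le_of_lt (hP i _ (hSm i)).1 ENNReal.one_lt_top⟩
  have hloc := fun i => @local_holder n hn (K.pull μ i (K.ufin_S i)) (hfin i)
    (hP i _ (hSm i)).2.1 C ε hC hε (hP i _ (hSm i)).2.2
  choose αi hαi hLoc using hloc
  -- the exponent
  obtain ⟨x0⟩ : Nonempty X := inferInstance
  have hne : (Finset.univ : Finset (Fin K.N)).Nonempty := ⟨K.ix x0, Finset.mem_univ _⟩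
  obtain ⟨i0, -, hi0⟩ := Finset.exists_min_image Finset.univ αi hne
  choose a ha hchart using fun i => KPsh.chart K i
  choose R hR0 hR using fun i => ufin_rho_bdd K i
  refine ⟨αi i0, hαi i0, fun A hA => ?_⟩
  obtain ⟨B, hB, hchain⟩ := K.chain hn hA
  obtain ⟨CL, hCL, hlog⟩ := K.log_L1 hn hA
  -- lower bounds in the charts
  set Ai : Fin K.N → ℝ := fun i => max 0 (-Real.log (a i * (B * Real.exp (-R i)))) with hAi
  have hAi0 : ∀ i, 0 ≤ Ai i := fun i => le_max_left _ _
  choose Ki hKi hmain using fun i => hLoc i (Ai i) (hAi0 i)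
  set D0 : ℝ := max 1 (∑ _i : Fin K.N, 2 * CL) with hD0
  have hD01 : 1 ≤ D0 := le_max_left _ _
  refine ⟨∑ i, Ki i * D0 ^ (αi i), Finset.sum_pos (fun i _ => mul_pos (hKi i)
    (Real.rpow_pos_of_pos (by linarith) _)) hne, ?_⟩
  -- facts for one function
  have hone : ∀ F : X → ℝ, KPsh K F → (∀ x, F x ≤ 1) → (∃ x, A ≤ F x) → ∀ i,
      PshOn (ball 0 2) (fun z => a i * (F (K.κ i z) * Real.exp (K.ρ i z))) ∧
      (∀ z ∈ ball (0 : Cn n) 2, a i * (F (K.κ i z) * Real.exp (K.ρ i z)) ≤ 1) ∧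
      (∃ z : Cn n, ‖z‖ ≤ 1 ∧ Real.exp (-(Ai i)) ≤ a i * (F (K.κ i z) * Real.exp (K.ρ i z))) := by
    intro F hF hF1 hFA i
    obtain ⟨h1, h2⟩ := hchart i F hF hF1
    obtain ⟨z, hz, hz2⟩ := hchain F hF hF1 hFA i
    refine ⟨h1, h2, z, hz, ?_⟩
    have h3 : a i * (B * Real.exp (-R i)) ≤ a i * (F (K.κ i z) * Real.exp (K.ρ i z)) := by
      refine mul_le_mul_of_nonneg_left ?_ (ha i).le
      refine mul_le_mul hz2 (Real.exp_le_exp.2 ?_) (Real.exp_pos _).le (hB.le.trans hz2)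
      have := (abs_le.1 (hR i z (by simpa using hz))).1
      linarith
    refine le_trans ?_ h3
    have h4 : 0 < a i * (B * Real.exp (-R i)) := mul_pos (ha i) (mul_pos hB (Real.exp_pos _))
    rw [← Real.exp_log h4]
    apply Real.exp_le_exp.2
    have : -Real.log (a i * (B * Real.exp (-R i))) ≤ Ai i := le_max_right _ _
    linarith
  -- integrability on the pieces
  have hmeas : ∀ F : X → ℝ, KPsh K F → Measurable (fun x => Real.log (F x)) := fun F hF =>
    Real.measurable_log.comp (KPsh.usc K hF).measurable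
  have hmap : ∀ (i : Fin K.N) (g : Cn n → ℝ), Integrable g (K.pull μ i (K.ufin_S i)) →
      Integrable (fun x => g (inv i x)) (μ.restrict (K.ufin_S i)) ∧
      ∫ z, g z ∂(K.pull μ i (K.ufin_S i)) = ∫ x in K.ufin_S i, g (inv i x) ∂μ := by
    intro i g hg
    rw [ufin_pull] at hg ⊢
    exact ⟨(integrable_map_measure hg.aestronglyMeasurable (ufin_inv_ae K μ i)).1 hg,
      integral_map (ufin_inv_ae K μ i) hg.aestronglyMeasurable⟩
  have hlogF : ∀ F : X → ℝ, KPsh K F → ∀ i, ∀ᵐ x ∂(μ.restrict (K.ufin_S i)),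
      Real.log (a i * (F (K.κ i (inv i x)) * Real.exp (K.ρ i (inv i x)))) =
        Real.log (a i) + Real.log (F x) + K.ρ i (inv i x) := by
    intro F hF i
    have h1 : ∀ᵐ x ∂(μ.restrict (K.ufin_S i)), 0 < F x := ae_restrict_of_ae (ufin_pos K hμ hF)
    filter_upwards [h1, ae_restrict_mem (hSm i)] with x hx hxS
    exact ufin_log K (ha i) hxS hx
  have hint : ∀ F : X → ℝ, KPsh K F → (∀ x, F x ≤ 1) → (∃ x, A ≤ F x) → ∀ i,
      Integrable (fun z => Real.log (a i * (F (K.κ i z) * Real.exp (K.ρ i z)))) (K.pull μ i (K.ufin_S i)) →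
      IntegrableOn (fun x => Real.log (F x)) (K.ufin_S i) μ := by
    intro F hF hF1 hFA i hg
    obtain ⟨h1, -⟩ := hmap i _ hg
    have h2 : Integrable (fun x => |Real.log (a i * (F (K.κ i (inv i x)) * Real.exp (K.ρ i (inv i x))))| +
        (|Real.log (a i)| + R i)) (μ.restrict (K.ufin_S i)) := h1.abs.add (integrable_const _)
    refine h2.mono' (hmeas F hF).aestronglyMeasurable ?_
    filter_upwards [hlogF F hF i, ae_restrict_mem (hSm i)] with x hx hxS
    have h3 := hR i (inv i x) (ufin_inv_mem K hxS)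
    rw [hx, Real.norm_eq_abs]
    have h4 : Real.log (F x) = (Real.log (a i) + Real.log (F x) + K.ρ i (inv i x)) -
        Real.log (a i) - K.ρ i (inv i x) := by ring
    calc |Real.log (F x)| = |(Real.log (a i) + Real.log (F x) + K.ρ i (inv i x)) -
        Real.log (a i) - K.ρ i (inv i x)| := by rw [← h4]
      _ ≤ |(Real.log (a i) + Real.log (F x) + K.ρ i (inv i x)) - Real.log (a i)| + |K.ρ i (inv i x)| := abs_sub _ _
      _ ≤ |Real.log (a i) + Real.log (F x) + K.ρ i (inv i x)| + |Real.log (a i)| + |K.ρ i (inv i x)| := by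
          gcongr
          exact abs_sub _ _
      _ ≤ _ := by linarith
  -- the partition
  have hdisj : Pairwise (Function.onFun Disjoint K.ufin_S) := by
    intro i j hij
    refine Set.disjoint_left.2 (fun x hx hy => hij ?_)
    exact (show K.ix x = i from hx).symm.trans hy
  have hunion : ⋃ i, K.ufin_S i = univ := by
    refine Set.eq_univ_of_forall (fun x => mem_iUnion.2 ⟨K.ix x, rfl⟩)
  intro F G hF hG hF1 hG1 hFA hGA
  have hFG := fun i => hmain i (fun z => a i * (F (K.κ i z) * Real.exp (K.ρ i z)))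
    (fun z => a i * (G (K.κ i z) * Real.exp (K.ρ i z))) (hone F hF hF1 hFA i).1 (hone G hG hG1 hGA i).1
    (hone F hF hF1 hFA i).2.1 (hone G hG hG1 hGA i).2.1 (hone F hF hF1 hFA i).2.2 (hone G hG hG1 hGA i).2.2
  have hGF := fun i => hmain i (fun z => a i * (G (K.κ i z) * Real.exp (K.ρ i z)))
    (fun z => a i * (F (K.κ i z) * Real.exp (K.ρ i z))) (hone G hG hG1 hGA i).1 (hone F hF hF1 hFA i).1
    (hone G hG hG1 hGA i).2.1 (hone F hF hF1 hFA i).2.1 (hone G hG hG1 hGA i).2.2 (hone F hF hF1 hFA i).2.2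
  have hIF : ∀ i, IntegrableOn (fun x => Real.log (F x)) (K.ufin_S i) μ := fun i =>
    hint F hF hF1 hFA i (hFG i).1
  have hIG : ∀ i, IntegrableOn (fun x => Real.log (G x)) (K.ufin_S i) μ := fun i =>
    hint G hG hG1 hGA i (hGF i).1
  have hFi : Integrable (fun x => Real.log (F x)) μ := by
    rw [← integrableOn_univ, ← hunion, integrableOn_finite_iUnion]
    exact hIF
  refine ⟨hFi, ?_⟩
  have hsumF : ∫ x, Real.log (F x) ∂μ = ∑ i, ∫ x in K.ufin_S i, Real.log (F x) ∂μ := by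
    rw [← setIntegral_univ, ← hunion, integral_iUnion_fintype hSm hdisj hIF]
  have hsumG : ∫ x, Real.log (G x) ∂μ = ∑ i, ∫ x in K.ufin_S i, Real.log (G x) ∂μ := by
    rw [← setIntegral_univ, ← hunion, integral_iUnion_fintype hSm hdisj hIG]
  rw [hsumF, hsumG, ← Finset.sum_sub_distrib]
  -- the difference on one piece
  have hpiece : ∀ i, (∫ x in K.ufin_S i, Real.log (F x) ∂μ) - ∫ x in K.ufin_S i, Real.log (G x) ∂μ =
      (∫ z, Real.log (a i * (F (K.κ i z) * Real.exp (K.ρ i z))) ∂(K.pull μ i (K.ufin_S i))) -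
        ∫ z, Real.log (a i * (G (K.κ i z) * Real.exp (K.ρ i z))) ∂(K.pull μ i (K.ufin_S i)) := by
    intro i
    obtain ⟨h1, h2⟩ := hmap i _ (hFG i).1
    obtain ⟨h3, h4⟩ := hmap i _ (hGF i).1
    rw [h2, h4, ← integral_sub h1 h3, ← integral_sub (hIF i) (hIG i)]
    refine integral_congr_ae ?_
    filter_upwards [hlogF F hF i, hlogF G hG i] with x hx hy
    rw [hx, hy]
    ring
  set d : Fin K.N → ℝ := fun i => ∫ z in ball (0 : Cn n) (3 / 2),
            |Real.log (F (K.κ i z)) - Real.log (G (K.κ i z))| with hd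
  have hd0 : ∀ i, 0 ≤ d i := fun i => integral_nonneg (fun z => abs_nonneg _)
  have hd1 : ∀ i, ∫ z in ball (0 : Cn n) (3 / 2), |Real.log (a i * (F (K.κ i z) * Real.exp (K.ρ i z))) -
      Real.log (a i * (G (K.κ i z) * Real.exp (K.ρ i z)))| = d i := by
    intro i
    refine integral_congr_ae ?_
    have e1 : ∀ H : X → ℝ, KPsh K H → (∀ x, H x ≤ 1) → (∃ x, A ≤ H x) →
        ∀ᵐ z ∂(volume.restrict (ball (0 : Cn n) (3 / 2))), 0 < H (K.κ i z) := by
      intro H hH hH1 hHA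
      have h5 := (hlog H hH hH1 hHA i).2.1
      rw [ae_restrict_iff' measurableSet_ball]
      rw [ae_iff]
      refine measure_mono_null ?_ h5
      intro z hz
      simp only [Set.mem_ofPred_eq, Classical.not_imp, not_lt] at hz
      have hz1 : ‖z‖ < 3 / 2 := by simpa using hz.1
      exact ⟨hz1, le_antisymm hz.2 (ufin_nonneg K hH _)⟩
    filter_upwards [e1 F hF hF1 hFA, e1 G hG hG1 hGA] with z hz hz'
    rw [Real.log_mul (ha i).ne' (mul_pos hz (Real.exp_pos _)).ne', Real.log_mul hz.ne' (Real.exp_pos _).ne',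
      Real.log_mul (ha i).ne' (mul_pos hz' (Real.exp_pos _)).ne', Real.log_mul hz'.ne' (Real.exp_pos _).ne']
    congr 1
    ring
  have hd2 : ∀ i, d i ≤ 2 * CL := by
    intro i
    obtain ⟨h1, -, h2⟩ := hlog F hF hF1 hFA i
    obtain ⟨h3, -, h4⟩ := hlog G hG hG1 hGA i
    have h5 : d i ≤ ∫ z in ball (0 : Cn n) (3 / 2), (|Real.log (F (K.κ i z))| + |Real.log (G (K.κ i z))|) := by
      refine integral_mono (h1.sub h3).abs (h1.abs.add h3.abs) (fun z => ?_)
      exact abs_sub _ _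
    rw [integral_add h1.abs h3.abs] at h5
    linarith
  have hD : ∑ i, d i ≤ D0 := (Finset.sum_le_sum (fun i _ => hd2 i)).trans (le_max_right _ _)
  refine (Finset.abs_sum_le_sum_abs _ _).trans ?_
  rw [Finset.sum_mul]
  refine Finset.sum_le_sum (fun i _ => ?_)
  rw [hpiece i]
  have h6 := (hFG i).2
  simp only [hd1] at h6
  refine h6.trans ?_
  rw [mul_assoc]
  refine mul_le_mul_of_nonneg_left ?_ (hKi i).le
  exact ufin_rpow (hd0 i) (Finset.single_le_sum (fun j _ => hd0 j) (Finset.mem_univ i)) hD hD01 (hαi i0)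
    (hi0 i (Finset.mem_univ i))

end HMA

end S_KM_UFin

section S_KW_MuInt

/-! # Module MuInt: the integral of the modulus -/

open MeasureTheory Metric Set Filter
open scoped ENNReal Topology ContDiff ComplexOrder

namespace HMA

variable {n : ℕ} {X : Type} [TopologicalSpace X] (K : KM n X)

variable [MeasurableSpace X] [BorelSpace X] [T2Space X] [CompactSpace X]

theorem muInt_le_supB {u : Cn n → ℝ} {M : ℝ} (hb : ∀ y, |u y| ≤ M) {r : ℝ} (hr : 0 ≤ r)
    (z : Cn n) : u z ≤ supB u r z := by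
  refine le_csSup ?_ ⟨z, mem_closedBall_self hr, rfl⟩
  refine ⟨M, ?_⟩
  rintro _ ⟨y, -, rfl⟩
  exact (le_abs_self _).trans (hb y)

theorem KM.mu_int [ConnectedSpace X] (hn : 1 ≤ n) {μ : Measure X} [IsProbabilityMeasure μ]
    (hμ : KModerate K μ) {Φ : X → ℝ} (hΦ : PB K Φ) {M : ℝ} {u : Fin K.N → Cn n → ℝ}
    (hu : LU K Φ M u) : ∃ b C : ℝ, 0 < b ∧ 0 < C ∧ ∀ r : ℝ, 0 < r → r ≤ 1 / 4 →
      ∀ G : X → ℝ, Continuous G → (∀ i z, ‖z‖ ≤ 1 → G (K.κ i z) ≤ supB (u i) r z - K.ρ i z) →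
        ∫ x, max (G x - Φ x) 0 ∂μ ≤ C * r ^ b := by
  classical
  obtain ⟨C, ε, hC, hε, hP⟩ := K.pull_polyB hn hμ
  obtain ⟨b, hb, hloc⟩ := loc_sup n hn hC hε
  obtain ⟨x0⟩ : Nonempty X := inferInstance
  have hM : 0 ≤ M := (abs_nonneg _).trans (hu.bdd (K.ix x0) 0)
  obtain ⟨K0, hK0, hK⟩ := hloc M hM
  have hSm : ∀ i, MeasurableSet (K.ufin_S i) := fun i => K.measurableSet_ix i
  refine ⟨b, K.N * K0 + 1, hb, by positivity, fun r hr hr4 G hG hGle => ?_⟩
  have hrb : 0 ≤ r ^ b := Real.rpow_nonneg hr.le _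
  have hrhs : 0 ≤ (K.N * K0 + 1) * r ^ b := by positivity
  by_cases hint : Integrable (fun x => max (G x - Φ x) 0) μ
  swap
  · rw [integral_undef hint]; exact hrhs
  have hkey : ENNReal.ofReal (∫ x, max (G x - Φ x) 0 ∂μ) ≤
      ENNReal.ofReal ((K.N * K0 + 1) * r ^ b) := by
    rw [ofReal_integral_eq_lintegral_ofReal hint (Eventually.of_forall fun x => le_max_right _ _)]
    have hcov : (⋃ i, K.ufin_S i) = univ := by
      ext x
      simp only [mem_iUnion, mem_univ, iff_true]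
      exact ⟨K.ix x, rfl⟩
    rw [← setLIntegral_univ, ← hcov]
    refine (lintegral_iUnion_le _ _).trans ?_
    rw [tsum_fintype]
    have hone : ∀ i, ∫⁻ x in K.ufin_S i, ENNReal.ofReal (max (G x - Φ x) 0) ∂μ ≤
        ENNReal.ofReal (K0 * r ^ b) := by
      intro i
      set inv := Function.invFunOn (K.κ i) (ball (0 : Cn n) 3) with hinv
      have h1 : ∫⁻ x in K.ufin_S i, ENNReal.ofReal (max (G x - Φ x) 0) ∂μ ≤
          ∫⁻ x in K.ufin_S i, ENNReal.ofReal (supB (u i) r (inv x) - u i (inv x)) ∂μ := by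
        refine setLIntegral_mono' (hSm i) fun x hx => ENNReal.ofReal_le_ofReal ?_
        have hz := ufin_inv_mem K hx
        rw [mem_closedBall_zero_iff] at hz
        have hx3 : x ∈ K.κ i '' ball 0 3 :=
          image_mono (ball_subset_ball (by norm_num)) (ufin_S_sub K i hx)
        have hκ : K.κ i (inv x) = x := Function.invFunOn_eq hx3
        have g1 := hGle i (inv x) hz
        rw [hκ] at g1
        have g2 := hu.eq i (inv x) (by linarith)
        rw [hκ] at g2
        refine max_le ?_ ?_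
        · linarith
        · linarith [muInt_le_supB (hu.bdd i) hr.le (inv x)]
      refine h1.trans ?_
      set ν := K.pull μ i (K.ufin_S i) with hν
      obtain ⟨p1, p2, p3⟩ := hP i (K.ufin_S i) (hSm i)
      have hνres : ν.restrict (ball 0 (3 / 2)) = ν := by
        refine Measure.restrict_eq_self_of_ae_mem ?_
        rw [ae_iff]
        refine measure_mono_null ?_ p2
        intro z hz
        simp only [mem_ofPred_eq, mem_ball_zero_iff, not_lt] at hz
        show 1 < ‖z‖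
        linarith
      have hmeas : AEMeasurable (fun z => ENNReal.ofReal (supB (u i) r z - u i z)) ν := by
        refine AEMeasurable.ennreal_ofReal ?_
        refine AEMeasurable.sub ?_ (hu.usc i).measurable.aemeasurable
        have hc := supB_cont (hu.usc i) (hu.bdd i) (R := 5 / 2) (R' := 3 / 2) (hu.sub i) hr
          (by linarith)
        have := hc.aemeasurable (μ := ν) measurableSet_ball
        rwa [hνres] at this
      have h2 : ∫⁻ x in K.ufin_S i, ENNReal.ofReal (supB (u i) r (inv x) - u i (inv x)) ∂μ =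
          ∫⁻ z, ENNReal.ofReal (supB (u i) r z - u i z) ∂ν := by
        have hpull := ufin_pull K μ i
        rw [hν, hpull] at hmeas
        rw [hν, hpull]
        exact (lintegral_map' hmeas (ufin_inv_ae K μ i)).symm
      rw [h2]
      have hs2 : SubOn (ball 0 2) (u i) := by
        intro a b hab
        refine hu.sub i a b fun ζ hζ => ?_
        exact ball_subset_ball (by norm_num) (hab ζ hζ)
      exact hK ν p1 p2 p3 (u i) (hu.usc i) hs2 (hu.bdd i) r hr hr4
    refine (Finset.sum_le_sum fun i _ => hone i).trans ?_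
    rw [Finset.sum_const, Finset.card_univ, Fintype.card_fin, nsmul_eq_mul,
      ← ENNReal.ofReal_natCast, ← ENNReal.ofReal_mul (Nat.cast_nonneg _)]
    refine ENNReal.ofReal_le_ofReal ?_
    nlinarith
  exact (ENNReal.ofReal_le_ofReal_iff hrhs).mp hkey

end HMA

end S_KW_MuInt

section S_KW_CapK

/-! # Module CapK: capacity estimate for sublevel sets -/

open MeasureTheory Metric Set Filter
open scoped ENNReal Topology ContDiff ComplexOrder

namespace HMA

variable {n : ℕ} {X : Type} [TopologicalSpace X] (K : KM n X)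

variable [MeasurableSpace X] [BorelSpace X] [T2Space X] [CompactSpace X]

omit [T2Space X] in
theorem capK_RM_bdd {w : X → ℝ} (hw : C11X K w) : ∃ C : ℝ, 0 < C ∧ ∀ x, |K.RM w x| ≤ C := by
  obtain ⟨C, hC, h⟩ := K.RM_bdd hw hw
  refine ⟨C, hC, fun x => ?_⟩
  have h1 := h 1 0 (by norm_num) (by norm_num) x
  simpa using h1

omit [T2Space X] in
theorem capK_RM_int {w : X → ℝ} (hw : C11X K w) : Integrable (K.RM w) K.vol := by
  obtain ⟨C, -, h⟩ := capK_RM_bdd K hw
  exact XEn_int_of_bdd K (K.RM_meas hw) h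

theorem KM.cap_ki {μ : Measure X} [IsProbabilityMeasure μ] {δ : ℝ} {Φ : X → ℝ}
    (hΦ : PB K Φ) (hK : KIneq K μ δ Φ) {g : X → ℝ} (hg : WK K g) {B : ℝ}
    (hB : ∀ x, 0 ≤ g x ∧ g x ≤ B) {s τ : ℝ} (h0 : 0 < τ) (h1 : τ ≤ 1) :
    τ ^ (n + 1) * K.cap {x | Φ x < g x - s - (B + 2) * τ} ≤
      (n + 1) * (K.aI μ g Φ s + δ) := by
  have hfin := K.vol_finite
  have hgc : Continuous g := C11X.continuous K hg.c11
  have hΦm : Measurable Φ := hΦ.usc.measurable
  obtain ⟨BΦ, hBΦ⟩ := hΦ.bdd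
  set U : Set X := {x | Φ x < g x - s - (B + 2) * τ} with hUdef
  have hU : MeasurableSet U :=
    measurableSet_lt hΦm (((hgc.sub continuous_const).sub continuous_const).measurable)
  have hτ : 0 < τ ^ (n + 1) := pow_pos h0 _
  have hcap : K.cap U ≤ ((n + 1 : ℝ) * (K.aI μ g Φ s + δ)) / τ ^ (n + 1) := by
    refine K.cap_le fun v hv hvb => ?_
    rw [le_div_iff₀ hτ]
    have hconv : WK K (fun x => (1 - τ) * g x + τ * v x) := WK.convex K hg hv h0.le h1
    have hh : WK K (fun x => (1 - τ) * g x + τ * v x + (-s)) := hconv.add_const' K (-s)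
    set h : X → ℝ := fun x => (1 - τ) * g x + τ * v x + (-s) with hhdef
    have hhc : Continuous h := C11X.continuous K hh.c11
    -- the function `(h - Φ)^+`
    have hpm : Measurable (fun x => max (h x - Φ x) 0) :=
      (hhc.measurable.sub hΦm).max measurable_const
    have hle : ∀ x, h x ≤ g x - s := by
      intro x
      have e1 := (hB x).1
      have e2 := (hvb x).2
      simp only [hhdef]
      nlinarith [mul_nonneg h0.le e1, mul_nonneg h0.le (neg_nonneg.mpr e2)]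
    obtain ⟨Bh, hBh0, hBh⟩ := XEn_bdd K hh.c11
    have hpb : ∀ x, |max (h x - Φ x) 0| ≤ Bh + |BΦ| := by
      intro x
      have e1 := abs_le.mp (hBh x)
      have e2 := abs_le.mp (hBΦ x)
      have e3 := le_abs_self BΦ
      rw [abs_of_nonneg (le_max_right _ _)]
      exact max_le (by linarith) (by positivity)
    obtain ⟨C, hC, hRC⟩ := capK_RM_bdd K hh.c11
    have hint1 : Integrable (fun x => max (h x - Φ x) 0 * K.RM h x) K.vol := by
      refine XEn_int_of_bdd K (hpm.aestronglyMeasurable.mul (K.RM_meas hh.c11))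
        (C := (Bh + |BΦ|) * C) fun x => ?_
      rw [abs_mul]
      exact mul_le_mul (hpb x) (hRC x) (abs_nonneg _) (by positivity)
    have hkey := hK h hh
    -- lower bound
    have hlow : (∫ x in U, K.RM v x ∂K.vol) * τ ^ (n + 1) ≤
        ∫ x, max (h x - Φ x) 0 * K.RM h x ∂K.vol := by
      have e1 : (∫ x in U, K.RM v x ∂K.vol) * τ ^ (n + 1) =
          ∫ x in U, K.RM v x * τ ^ (n + 1) ∂K.vol := (integral_mul_const _ _).symm
      rw [e1]
      calc ∫ x in U, K.RM v x * τ ^ (n + 1) ∂K.vol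
          ≤ ∫ x in U, max (h x - Φ x) 0 * K.RM h x ∂K.vol := by
            refine setIntegral_mono_ae_restrict ?_ hint1.integrableOn ?_
            · exact ((capK_RM_int K hv.c11).mul_const _).integrableOn
            · rw [EventuallyLE, ae_restrict_iff' hU]
              filter_upwards [K.RM_convex hg hv h0.le h1, K.RM_add_const hconv.c11 (-s),
                K.RM_nonneg hv] with x hx1 hx2 hx3 hxU
              have hxU' : Φ x < g x - s - (B + 2) * τ := hxU
              have e2 : τ ≤ h x - Φ x := by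
                have e3 := (hB x).2
                have e4 := (hvb x).1
                simp only [hhdef]
                nlinarith [mul_le_mul_of_nonneg_left e3 h0.le, mul_le_mul_of_nonneg_left e4 h0.le]
              have e5 : τ ≤ max (h x - Φ x) 0 := e2.trans (le_max_left _ _)
              have e6 : K.RM h x = K.RM (fun y => (1 - τ) * g y + τ * v y) x := hx2
              rw [e6]
              have e7 : 0 ≤ τ ^ n * K.RM v x := mul_nonneg (pow_nonneg h0.le _) hx3
              calc K.RM v x * τ ^ (n + 1) = τ * (τ ^ n * K.RM v x) := by ring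
                _ ≤ max (h x - Φ x) 0 * K.RM (fun y => (1 - τ) * g y + τ * v y) x :=
                    mul_le_mul e5 hx1 e7 (h0.le.trans e5)
        _ ≤ ∫ x, max (h x - Φ x) 0 * K.RM h x ∂K.vol := by
            refine setIntegral_le_integral hint1 ?_
            filter_upwards [K.RM_nonneg hh] with x hx
            exact mul_nonneg (le_max_right _ _) hx
    -- upper bound
    have hup : ∫ x, max (h x - Φ x) 0 ∂μ ≤ ∫ x, max (g x - s - Φ x) 0 ∂μ := by
      refine integral_mono ?_ ?_ fun x => ?_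
      · exact Integrable.of_bound hpm.aestronglyMeasurable _ (Eventually.of_forall hpb)
      · obtain ⟨Bg, hBg0, hBg⟩ := XEn_bdd K hg.c11
        refine Integrable.of_bound (C := Bg + |s| + |BΦ|)
          (((hgc.measurable.sub measurable_const).sub hΦm).max
            measurable_const).aestronglyMeasurable (Eventually.of_forall fun x => ?_)
        have e1 := abs_le.mp (hBg x)
        have e2 := abs_le.mp (hBΦ x)
        have e3 := le_abs_self BΦ
        have e4 := neg_abs_le s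
        rw [Real.norm_eq_abs, abs_of_nonneg (le_max_right _ _)]
        exact max_le (by linarith) (by positivity)
      · exact max_le_max (by linarith [hle x]) le_rfl
    have hV : 0 ≤ K.vol.real univ := measureReal_nonneg
    have hup' : K.vol.real univ * ∫ x, max (h x - Φ x) 0 ∂μ ≤ K.aI μ g Φ s :=
      mul_le_mul_of_nonneg_left hup hV
    have hn : (0 : ℝ) < n + 1 := by positivity
    have h2 : ∫ x, max (h x - Φ x) 0 * K.RM h x ∂K.vol ≤
        (n + 1 : ℝ) * (K.vol.real univ * ∫ x, max (h x - Φ x) 0 ∂μ + δ) := by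
      have h3 := mul_le_mul_of_nonneg_left hkey hn.le
      rw [← mul_assoc, mul_one_div_cancel hn.ne', one_mul] at h3
      exact h3
    calc (∫ x in U, K.RM v x ∂K.vol) * τ ^ (n + 1)
        ≤ (n + 1 : ℝ) * (K.vol.real univ * ∫ x, max (h x - Φ x) 0 ∂μ + δ) := hlow.trans h2
      _ ≤ (n + 1 : ℝ) * (K.aI μ g Φ s + δ) := by
          refine mul_le_mul_of_nonneg_left ?_ hn.le
          linarith
  calc τ ^ (n + 1) * K.cap U
      ≤ τ ^ (n + 1) * (((n + 1 : ℝ) * (K.aI μ g Φ s + δ)) / τ ^ (n + 1)) :=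
        mul_le_mul_of_nonneg_left hcap hτ.le
    _ = (n + 1) * (K.aI μ g Φ s + δ) := by field_simp

end HMA

end S_KW_CapK

section S_KW_Decay

/-! # Module Decay: exponential decay -/

open MeasureTheory Metric Set Filter
open scoped ENNReal Topology ContDiff ComplexOrder

namespace HMA

variable {n : ℕ} {X : Type} [TopologicalSpace X] (K : KM n X)

variable [CompactSpace X] [ConnectedSpace X] [MeasurableSpace X] [BorelSpace X]

theorem KM.exp_decay (hn : 1 ≤ n) {μ : Measure X} [IsProbabilityMeasure μ]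
    (hμ : KModerate K μ) : ∃ ε : ℝ, 0 < ε ∧ ∀ A : ℝ, 0 < A → ∃ C : ℝ, 0 < C ∧
      ∀ F : X → ℝ, KPsh K F → (∀ x, F x ≤ 1) → (∃ x, A ≤ F x) → ∀ t : ℝ,
        μ.real {x | F x ≤ Real.exp (-t)} ≤ C * Real.exp (-ε * t) := by
  obtain ⟨ε, hε, -, hU⟩ := K.unif hn hμ
  refine ⟨ε, hε, fun A hA => ?_⟩
  obtain ⟨C, hC, h⟩ := hU A hA
  refine ⟨C, hC, fun F hF h1 hA' t => ?_⟩
  have hm : Measurable fun x => (ENNReal.ofReal (F x)) ^ (-ε) :=
    (KPsh.usc K hF).measurable.ennreal_ofReal.pow_const _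
  have hmk := mul_meas_ge_le_lintegral (μ := μ) hm (ENNReal.ofReal (Real.exp (ε * t)))
  have hsub : {x | F x ≤ Real.exp (-t)} ⊆
      {x | ENNReal.ofReal (Real.exp (ε * t)) ≤ (ENNReal.ofReal (F x)) ^ (-ε)} := by
    intro x hx
    have e1 : ENNReal.ofReal (Real.exp (ε * t)) = (ENNReal.ofReal (Real.exp (-t))) ^ (-ε) := by
      rw [ENNReal.ofReal_rpow_of_pos (Real.exp_pos _), ← Real.exp_mul]
      congr 2
      ring
    rw [mem_setOf_eq] at hx ⊢
    rw [e1, ENNReal.rpow_neg, ENNReal.rpow_neg, ENNReal.inv_le_inv]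
    exact ENNReal.rpow_le_rpow (ENNReal.ofReal_le_ofReal hx) hε.le
  have h2 : ENNReal.ofReal (Real.exp (ε * t)) * μ {x | F x ≤ Real.exp (-t)} ≤ ENNReal.ofReal C :=
    (mul_le_mul_right (measure_mono hsub) _).trans (hmk.trans (h F hF h1 hA'))
  have h3 := ENNReal.toReal_mono ENNReal.ofReal_ne_top h2
  rw [ENNReal.toReal_mul, ENNReal.toReal_ofReal (Real.exp_pos _).le,
    ENNReal.toReal_ofReal hC.le] at h3
  have h4 : Real.exp (ε * t) * Real.exp (-ε * t) = 1 := by
    rw [← Real.exp_add, neg_mul, add_neg_cancel, Real.exp_zero]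
  have h5 := mul_le_mul_of_nonneg_right h3 (Real.exp_pos (-ε * t)).le
  calc μ.real {x | F x ≤ Real.exp (-t)}
      = (Real.exp (ε * t) * Real.exp (-ε * t)) * (μ {x | F x ≤ Real.exp (-t)}).toReal := by
        rw [h4, one_mul]; rfl
    _ = Real.exp (ε * t) * (μ {x | F x ≤ Real.exp (-t)}).toReal * Real.exp (-ε * t) := by ring
    _ ≤ C * Real.exp (-ε * t) := h5

end HMA

end S_KW_Decay

section S_KW_CapDom

/-! # Module CapDom: domination by the capacity -/

open MeasureTheory Metric Set Filter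
open scoped ENNReal Topology ContDiff ComplexOrder

namespace HMA

variable {n : ℕ} {X : Type} [TopologicalSpace X] (K : KM n X)

variable [MeasurableSpace X] [BorelSpace X] [T2Space X] [CompactSpace X]

theorem CapDom_vol_pos {U : Set X} (h : 0 < K.cap U) : 0 < K.vol.real univ := by
  have : IsFiniteMeasure K.vol := K.vol_finite
  rcases (measureReal_nonneg (μ := K.vol) (s := univ)).lt_or_eq with h0 | h0
  · exact h0
  · exfalso
    have h1 : K.vol univ = 0 := by
      rw [eq_comm, measureReal_eq_zero_iff] at h0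
      exact h0
    have h2 : K.vol = 0 := Measure.measure_univ_eq_zero.mp h1
    have h3 : K.cap U ≤ 0 := by
      apply K.cap_le
      intro v _ _
      rw [h2]
      simp
    linarith

theorem CapDom_aux {n : ℕ} {ε x : ℝ} (hε : 0 < ε) (hx : 0 < x) :
    Real.exp (-ε * (x - 3)) ≤
      Real.exp (3 * ε) * ((2 * n).factorial / (ε ^ (2 * n))) * (x ^ (2 * n))⁻¹ := by
  have h1 := Real.pow_div_factorial_le_exp (ε * x) (by positivity) (2 * n)
  have h2 : Real.exp (-ε * (x - 3)) = Real.exp (3 * ε) * (Real.exp (ε * x))⁻¹ := by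
    rw [← Real.exp_neg, ← Real.exp_add]
    congr 1; ring
  rw [h2, mul_assoc]
  apply mul_le_mul_of_nonneg_left _ (Real.exp_pos _).le
  have h3 : (0:ℝ) < (2 * n).factorial := by positivity
  have h4 : 0 < (ε * x) ^ (2 * n) / ((2 * n).factorial : ℝ) := by positivity
  calc (Real.exp (ε * x))⁻¹ ≤ ((ε * x) ^ (2 * n) / ((2 * n).factorial : ℝ))⁻¹ :=
        inv_anti₀ h4 h1
    _ = (2 * n).factorial / (ε ^ (2 * n)) * (x ^ (2 * n))⁻¹ := by
        rw [inv_div, mul_pow]
        field_simp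

theorem CapDom_compact [ConnectedSpace X] (hn : 1 ≤ n) {μ : Measure X} [IsProbabilityMeasure μ]
    {ε C V : ℝ} (hε : 0 < ε) (hC : 0 < C) (hV : V = K.vol.real univ)
    (hdec : ∀ F : X → ℝ, KPsh K F → (∀ x, F x ≤ 1) → (∃ x, 1 ≤ F x) → ∀ t : ℝ,
        μ.real {x | F x ≤ Real.exp (-t)} ≤ C * Real.exp (-ε * t))
    {Q U : Set X} (hQ : IsCompact Q) (hU : IsOpen U) (hQU : Q ⊆ U) (hne : 0 < K.cap U) :
    μ.real Q ≤ ((3 ^ n / V) ^ 2 +
      C * (Real.exp (3 * ε) * ((2 * n).factorial / (ε ^ (2 * n)))) / V ^ 2) * K.cap U ^ 2 := by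
  have hV0 : 0 < V := by rw [hV]; exact CapDom_vol_pos K hne
  set c : ℝ := K.cap U with hc
  have hn0 : n ≠ 0 := by omega
  set x : ℝ := (V / c) ^ ((n : ℝ)⁻¹) with hx
  have hx0 : 0 < x := Real.rpow_pos_of_pos (by positivity) _
  have hxn : x ^ n = V / c := by
    rw [hx]; exact Real.rpow_inv_natCast_pow (by positivity) hn0
  have hK2 : 0 ≤ C * (Real.exp (3 * ε) * ((2 * n).factorial / (ε ^ (2 * n)))) / V ^ 2 := by
    positivity
  by_cases hx3 : x ≤ 3
  · have h1 : V / c ≤ 3 ^ n := by rw [← hxn]; exact pow_le_pow_left₀ hx0.le hx3 n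
    have h2 : 1 ≤ 3 ^ n / V * c := by
      rw [div_le_iff₀ hne] at h1
      rw [div_mul_eq_mul_div, le_div_iff₀ hV0]; linarith
    have h3 : (1:ℝ) ≤ (3 ^ n / V * c) ^ 2 := one_le_pow₀ h2
    have h4 : μ.real Q ≤ 1 := measureReal_le_one
    have h5 : (3 ^ n / V * c) ^ 2 = (3 ^ n / V) ^ 2 * c ^ 2 := mul_pow _ _ _
    have h6 : 0 ≤ C * (Real.exp (3 * ε) * ((2 * n).factorial / (ε ^ (2 * n)))) / V ^ 2 * c ^ 2 :=
      mul_nonneg hK2 (sq_nonneg _)
    nlinarith
  · push Not at hx3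
    have hM : (0:ℝ) ≤ x - 3 := by linarith
    have hwell : (x - 3 + 2) ^ n * K.cap U < K.vol.real univ := by
      rw [← hV, ← hc]
      have h1 : (x - 3 + 2) ^ n < x ^ n := pow_lt_pow_left₀ (by linarith) (by linarith) hn0
      rw [hxn, lt_div_iff₀ hne] at h1
      exact h1
    obtain ⟨ψ, hψ, hψQ, x₀, hx₀⟩ := K.well_open hQ hU hQU hM hwell
    have hcont : Continuous ψ := C11X.continuous K hψ.c11
    obtain ⟨p, -, hp⟩ := isCompact_univ.exists_isMaxOn (univ_nonempty (α := X))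
      hcont.continuousOn
    have hp' : ∀ y, ψ y ≤ ψ p := fun y => hp (mem_univ y)
    have hW : WK K (fun y => ψ y + (-ψ p)) := hψ.add_const' K (-ψ p)
    have hF : KPsh K (fun y => Real.exp (ψ y + (-ψ p))) := kpsh_of_wk K hW
    have h1 := hdec _ hF (fun y => by
      rw [← Real.exp_zero]; exact Real.exp_le_exp.mpr (by linarith [hp' y]))
      ⟨p, by simp⟩ (x - 3)
    have h2 : Q ⊆ {y | Real.exp (ψ y + (-ψ p)) ≤ Real.exp (-(x - 3))} := by
      intro y hy
      have := hψQ y hy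
      have := hp' x₀
      exact Real.exp_le_exp.mpr (by linarith)
    have h3 : μ.real Q ≤ C * Real.exp (-ε * (x - 3)) := (measureReal_mono h2).trans h1
    have h4 := CapDom_aux (n := n) hε hx0
    have h5 : (x ^ (2 * n))⁻¹ = c ^ 2 / V ^ 2 := by
      rw [mul_comm 2 n, pow_mul, hxn, div_pow, inv_div]
    rw [h5] at h4
    have h6 : C * Real.exp (-ε * (x - 3)) ≤
        C * (Real.exp (3 * ε) * ((2 * n).factorial / (ε ^ (2 * n)))) / V ^ 2 * c ^ 2 := by
      calc C * Real.exp (-ε * (x - 3)) ≤ C * (Real.exp (3 * ε) *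
            ((2 * n).factorial / (ε ^ (2 * n))) * (c ^ 2 / V ^ 2)) :=
            mul_le_mul_of_nonneg_left h4 hC.le
        _ = _ := by ring
    have h7 : 0 ≤ (3 ^ n / V) ^ 2 * c ^ 2 := by positivity
    nlinarith

theorem KM.cap_dom [ConnectedSpace X] (hn : 1 ≤ n) {μ : Measure X} [IsProbabilityMeasure μ]
    (hμ : KModerate K μ) : ∃ C : ℝ, 0 < C ∧ ∀ U : Set X, IsOpen U →
      μ.real U ≤ C * K.cap U ^ 2 := by
  obtain ⟨ε, hε, hdec⟩ := K.exp_decay hn hμ
  obtain ⟨C, hC, hdec⟩ := hdec 1 one_pos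
  set V : ℝ := K.vol.real univ with hV
  refine ⟨(3 ^ n / V) ^ 2 +
      C * (Real.exp (3 * ε) * ((2 * n).factorial / (ε ^ (2 * n)))) / V ^ 2 + 1, by positivity, ?_⟩
  intro U hU
  rcases U.eq_empty_or_nonempty with rfl | hne
  · simp only [measureReal_empty]
    positivity
  · have hpos := K.cap_pos hU hne
    obtain ⟨Q, hQc, hQm, hQU⟩ := K.exhaust hU
    have hb : ∀ m, μ (Q m) ≤ ENNReal.ofReal (((3 ^ n / V) ^ 2 +
      C * (Real.exp (3 * ε) * ((2 * n).factorial / (ε ^ (2 * n)))) / V ^ 2 + 1) * K.cap U ^ 2) := by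
      intro m
      have h1 := CapDom_compact K hn hε hC hV hdec (hQc m) hU
        (by rw [← hQU]; exact subset_iUnion Q m) hpos
      rw [← ENNReal.ofReal_toReal (measure_ne_top μ (Q m))]
      apply ENNReal.ofReal_le_ofReal
      refine h1.trans ?_
      nlinarith [sq_nonneg (K.cap U)]
    have h2 : μ U ≤ ENNReal.ofReal (((3 ^ n / V) ^ 2 +
      C * (Real.exp (3 * ε) * ((2 * n).factorial / (ε ^ (2 * n)))) / V ^ 2 + 1) * K.cap U ^ 2) := by
      rw [← hQU, hQm.measure_iUnion]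
      rw [hQU]
      exact iSup_le hb
    exact ENNReal.toReal_le_of_le_ofReal (by positivity) h2

end HMA

end S_KW_CapDom

section S_KW_AStep

/-! # Module AStep: one step of the iteration -/

open MeasureTheory Metric Set Filter
open scoped ENNReal Topology ContDiff ComplexOrder

namespace HMA

variable {n : ℕ} {X : Type} [TopologicalSpace X] (K : KM n X)

variable [MeasurableSpace X] [BorelSpace X] [T2Space X] [CompactSpace X]

/-- interpolation between the two bounds of the measure of a sublevel set -/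
theorem astep_interp {m a b : ℝ} (hm : 0 ≤ m) (ha : m ≤ a) (hb : m ≤ b) :
    m ≤ a ^ (3 / 4 : ℝ) * b ^ (1 / 4 : ℝ) := by
  have h1 : m = m ^ (3 / 4 : ℝ) * m ^ (1 / 4 : ℝ) := by
    rw [← Real.rpow_add_of_nonneg hm (by norm_num) (by norm_num)]
    norm_num
  calc m = m ^ (3 / 4 : ℝ) * m ^ (1 / 4 : ℝ) := h1
    _ ≤ a ^ (3 / 4 : ℝ) * b ^ (1 / 4 : ℝ) := by
        apply mul_le_mul
        · exact Real.rpow_le_rpow hm ha (by norm_num)
        · exact Real.rpow_le_rpow hm hb (by norm_num)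
        · exact Real.rpow_nonneg hm _
        · exact Real.rpow_nonneg (hm.trans ha) _

theorem KM.a_step [ConnectedSpace X] (hn : 1 ≤ n) {μ : Measure X} [IsProbabilityMeasure μ]
    (hμ : KModerate K μ) {A ε B : ℝ} (hA : 0 < A) (hε : 0 < ε) (hB : 0 ≤ B) :
    ∃ C : ℝ, 0 < C ∧ ∀ (δ : ℝ) (Φ : X → ℝ), 0 ≤ δ → PB K Φ →
      (∀ t : ℝ, 0 ≤ t → μ.real {x | Φ x < -t} ≤ A * Real.exp (-ε * t)) → KIneq K μ δ Φ →
      ∀ g : X → ℝ, WK K g → (∀ x, 0 ≤ g x ∧ g x ≤ B) → ∀ s τ : ℝ, 0 ≤ s → 0 < τ → τ ≤ 1 →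
        K.aI μ g Φ (s + (B + 2) * τ) ≤
          C * ((K.aI μ g Φ s + δ) / τ ^ (n + 1)) ^ (3 / 2 : ℝ) := by
  obtain ⟨C0, hC0, hdom⟩ := K.cap_dom hn hμ
  set V : ℝ := K.vol.real univ with hV
  have hV0 : 0 ≤ V := measureReal_nonneg
  set A' : ℝ := max A 1 * Real.exp (ε * B) with hA'
  have hA'0 : 0 < A' := by positivity
  set D : ℝ := (C0 * ((n : ℝ) + 1) ^ 2) ^ (3 / 4 : ℝ) * A' ^ (1 / 4 : ℝ) with hD
  have hD0 : 0 < D := by positivity
  refine ⟨V * (D * (4 / ε)) + 1, by positivity, ?_⟩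
  intro δ Φ hδ hΦ hdec hK g hg hgB s τ hs hτ hτ1
  set s' : ℝ := s + (B + 2) * τ with hs'
  have hs's : 0 ≤ s' := by positivity
  -- the quantity Q
  have haI0 : 0 ≤ K.aI μ g Φ s := by
    unfold KM.aI
    apply mul_nonneg measureReal_nonneg
    exact integral_nonneg (fun x => le_max_right _ _)
  set Q : ℝ := (K.aI μ g Φ s + δ) / τ ^ (n + 1) with hQ
  have hQ0 : 0 ≤ Q := by positivity
  -- the function
  have hgc : Continuous g := hg.pc.cont
  have hΦm : Measurable Φ := hΦ.usc.measurable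
  set f : X → ℝ := fun x => max (g x - s' - Φ x) 0 with hf
  have hfm : Measurable f := by
    apply Measurable.max _ measurable_const
    exact ((hgc.measurable.sub measurable_const).sub hΦm)
  have hf0 : ∀ x, 0 ≤ f x := fun x => le_max_right _ _
  obtain ⟨M, hM⟩ := hΦ.bdd
  have hfb : ∀ x, ‖f x‖ ≤ B + |M| := by
    intro x
    rw [Real.norm_of_nonneg (hf0 x)]
    apply max_le
    · have h1 := (hgB x).2
      have h2 := (abs_le.1 (hM x)).1
      have h3 := le_abs_self M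
      linarith
    · positivity
  have hfi : Integrable f μ :=
    Integrable.of_bound hfm.aestronglyMeasurable (B + |M|) (Eventually.of_forall hfb)
  -- the sublevel sets
  set U : Set X := {x | Φ x < g x - s - (B + 2) * τ} with hU
  have hUo : IsOpen U := by
    have hu : UpperSemicontinuous (fun x => Φ x + (-(g x))) :=
      hΦ.usc.add (hgc.neg).upperSemicontinuous
    have : U = (fun x => Φ x + (-(g x))) ⁻¹' Iio (-(s + (B + 2) * τ)) := by
      ext x
      simp only [hU, mem_ofPred_eq, mem_preimage, mem_Iio]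
      constructor <;> intro h <;> linarith
    rw [this]
    exact hu.isOpen_preimage _
  have hcap : K.cap U ≤ ((n : ℝ) + 1) * Q := by
    have h1 := K.cap_ki hΦ hK hg hgB (s := s) hτ hτ1
    rw [hQ, ← mul_div_assoc, le_div_iff₀ (by positivity)]
    rw [mul_comm]
    exact h1
  have hcap2 : μ.real U ≤ C0 * ((n : ℝ) + 1) ^ 2 * Q ^ 2 := by
    have h1 := hdom U hUo
    have h2 : K.cap U ^ 2 ≤ (((n : ℝ) + 1) * Q) ^ 2 :=
      pow_le_pow_left₀ (K.cap_nonneg U) hcap 2
    calc μ.real U ≤ C0 * K.cap U ^ 2 := h1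
      _ ≤ C0 * (((n : ℝ) + 1) * Q) ^ 2 := by gcongr
      _ = C0 * ((n : ℝ) + 1) ^ 2 * Q ^ 2 := by ring
  have hlev1 : ∀ t : ℝ, 0 < t → μ.real {x | t < f x} ≤ C0 * ((n : ℝ) + 1) ^ 2 * Q ^ 2 := by
    intro t ht
    refine le_trans (measureReal_mono ?_) hcap2
    intro x hx
    simp only [mem_ofPred_eq, hf, lt_max_iff] at hx
    rcases hx with hx | hx
    · simp only [hU, mem_ofPred_eq]
      rw [hs'] at hx
      linarith
    · exact absurd hx (not_lt.2 ht.le)
  have hlev2 : ∀ t : ℝ, 0 < t → μ.real {x | t < f x} ≤ A' * Real.exp (-ε * t) := by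
    intro t ht
    by_cases hc : 0 ≤ s' + t - B
    · have h1 : μ.real {x | t < f x} ≤ μ.real {x | Φ x < -(s' + t - B)} := by
        refine measureReal_mono ?_ (measure_ne_top _ _)
        intro x hx
        simp only [mem_ofPred_eq, hf, lt_max_iff] at hx
        rcases hx with hx | hx
        · simp only [mem_ofPred_eq]
          have := (hgB x).2
          linarith
        · exact absurd hx (not_lt.2 ht.le)
      refine le_trans (h1.trans (hdec _ hc)) ?_
      rw [hA', mul_assoc, ← Real.exp_add]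
      apply mul_le_mul (le_max_left _ _) _ (Real.exp_pos _).le (by positivity)
      apply Real.exp_le_exp.2
      nlinarith [mul_nonneg hε.le hs's]
    · push Not at hc
      have h1 : μ.real {x | t < f x} ≤ 1 := measureReal_le_one
      refine h1.trans ?_
      rw [hA', mul_assoc, ← Real.exp_add]
      have h2 : 1 ≤ Real.exp (ε * B + -ε * t) := by
        apply Real.one_le_exp
        nlinarith [mul_nonneg hε.le (show 0 ≤ B - t by linarith)]
      have h3 : (1 : ℝ) ≤ max A 1 := le_max_right _ _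
      nlinarith
  have hlev : ∀ t : ℝ, 0 < t → μ.real {x | t < f x} ≤
      D * Q ^ (3 / 2 : ℝ) * Real.exp (-(ε / 4) * t) := by
    intro t ht
    have h := astep_interp (measureReal_nonneg) (hlev1 t ht) (hlev2 t ht)
    refine h.trans (le_of_eq ?_)
    rw [Real.mul_rpow (by positivity) (by positivity),
      Real.mul_rpow hA'0.le (Real.exp_pos _).le, ← Real.rpow_natCast Q 2, ← Real.rpow_mul hQ0,
      ← Real.exp_mul]
    have e1 : ((2 : ℕ) : ℝ) * (3 / 4) = 3 / 2 := by norm_num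
    have e2 : -ε * t * (1 / 4) = -(ε / 4) * t := by ring
    rw [e1, e2, hD]
    ring
  have hint : ∫ x, f x ∂μ ≤ D * Q ^ (3 / 2 : ℝ) * (4 / ε) := by
    rw [hfi.integral_eq_integral_meas_lt (Eventually.of_forall hf0)]
    have hexp : IntegrableOn (fun t : ℝ => Real.exp (-(ε / 4) * t)) (Ioi 0) :=
      exp_neg_integrableOn_Ioi 0 (by positivity)
    have hexpi : ∫ t in Ioi (0 : ℝ), Real.exp (-(ε / 4) * t) = 4 / ε := by
      rw [integral_exp_mul_Ioi (by linarith [hε]) 0]
      simp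
    calc ∫ t in Ioi (0 : ℝ), μ.real {x | t < f x}
        ≤ ∫ t in Ioi (0 : ℝ), D * Q ^ (3 / 2 : ℝ) * Real.exp (-(ε / 4) * t) := by
          apply integral_mono_of_nonneg
          · exact Eventually.of_forall (fun t => measureReal_nonneg)
          · exact hexp.const_mul _
          · exact (ae_restrict_iff' measurableSet_Ioi).2
              (Eventually.of_forall (fun t ht => hlev t ht))
      _ = D * Q ^ (3 / 2 : ℝ) * (4 / ε) := by
          rw [integral_const_mul, hexpi]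
  have hQr : 0 ≤ Q ^ (3 / 2 : ℝ) := Real.rpow_nonneg hQ0 _
  calc K.aI μ g Φ s' = V * ∫ x, f x ∂μ := rfl
    _ ≤ V * (D * Q ^ (3 / 2 : ℝ) * (4 / ε)) := by gcongr
    _ = V * (D * (4 / ε)) * Q ^ (3 / 2 : ℝ) := by ring
    _ ≤ (V * (D * (4 / ε)) + 1) * Q ^ (3 / 2 : ℝ) := by
        apply mul_le_mul_of_nonneg_right _ hQr
        linarith

end HMA

end S_KW_AStep

section S_KW_StabC

/-! # Module StabC: conclusion of the iteration -/

open MeasureTheory Metric Set Filter
open scoped ENNReal Topology ContDiff ComplexOrder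

namespace HMA

variable {n : ℕ} {X : Type} [TopologicalSpace X] (K : KM n X)

variable [MeasurableSpace X] [BorelSpace X] [T2Space X] [CompactSpace X]

omit [T2Space X] in
theorem StabC_int {μ : Measure X} [IsProbabilityMeasure μ] {Φ g : X → ℝ} (hΦ : PB K Φ)
    (hg : WK K g) (s : ℝ) : Integrable (fun x => max (g x - s - Φ x) 0) μ := by
  obtain ⟨B, hB⟩ := hΦ.bdd
  have hgc : Continuous g := C11X.continuous K hg.c11
  obtain ⟨B', hB'⟩ := isCompact_univ.exists_bound_of_continuousOn hgc.continuousOn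
  have hm : AEStronglyMeasurable (fun x => max (g x - s - Φ x) 0) μ := by
    refine (Measurable.aestronglyMeasurable ?_)
    exact ((hgc.measurable.sub_const s).sub hΦ.usc.measurable).max measurable_const
  refine Integrable.of_bound hm (B' + |s| + B) (Filter.Eventually.of_forall fun x => ?_)
  have h1 := hB' x (mem_univ x)
  have h2 := hB x
  rw [Real.norm_eq_abs] at h1 ⊢
  have h3 : 0 ≤ B' + |s| + B := by
    have := abs_nonneg (g x)
    have := abs_nonneg (Φ x)
    have := abs_nonneg s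
    linarith
  rw [abs_of_nonneg (le_max_right _ _)]
  refine max_le ?_ h3
  have h4 := le_abs_self (g x)
  have h5 := neg_abs_le (Φ x)
  have h6 := neg_abs_le s
  linarith

theorem KM.stab_core [ConnectedSpace X] (hn : 1 ≤ n) {μ : Measure X} [IsProbabilityMeasure μ]
    (hμ : KModerate K μ) {A ε B : ℝ} (hA : 0 < A) (hε : 0 < ε) (hB : 0 ≤ B) :
    ∃ c₀ C : ℝ, 0 < c₀ ∧ 0 < C ∧ ∀ (δ : ℝ) (Φ : X → ℝ), 0 ≤ δ → PB K Φ →
      (∀ t : ℝ, 0 ≤ t → μ.real {x | Φ x < -t} ≤ A * Real.exp (-ε * t)) → KIneq K μ δ Φ →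
      ∀ g : X → ℝ, WK K g → (∀ x, 0 ≤ g x ∧ g x ≤ B) → ∀ s₀ : ℝ, 0 ≤ s₀ →
        max (K.aI μ g Φ s₀) δ ≤ c₀ →
        K.aI μ g Φ (s₀ + C * (max (K.aI μ g Φ s₀) δ) ^ (1 / (3 * (n + 1)) : ℝ)) ≤ δ := by
  obtain ⟨C, hC, hstep⟩ := K.a_step hn hμ hA hε hB
  obtain ⟨c₀, C', hc₀, hC', hit⟩ := iter_num n (K := B + 2) hC (by linarith)
  refine ⟨c₀, C', hc₀, hC', fun δ Φ hδ hΦ hdec hKI g hg hgB s₀ hs₀ hmax => ?_⟩
  refine hit (fun s => K.aI μ g Φ s) ?_ ?_ δ hδ ?_ s₀ hs₀ hmax
  · intro s t _ hst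
    refine mul_le_mul_of_nonneg_left ?_ measureReal_nonneg
    refine integral_mono (StabC_int K hΦ hg t) (StabC_int K hΦ hg s) fun x => ?_
    exact max_le_max (by linarith) le_rfl
  · intro s
    exact mul_nonneg measureReal_nonneg (integral_nonneg fun x => le_max_right _ _)
  · intro s τ hs hτ hτ1
    exact hstep δ Φ hδ hΦ hdec hKI g hg hgB s τ hs hτ hτ1

end HMA

end S_KW_StabC

section S_KW_GlueW

/-! # Module GlueW: glueing with the regularised maximum -/

open MeasureTheory Metric Set Filter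
open scoped ENNReal Topology ContDiff ComplexOrder

namespace HMA

variable {n : ℕ} {X : Type} [TopologicalSpace X] (K : KM n X)

/-- the potentials are `SubOn`, also after adding a constant -/
theorem gluew_const (k : Fin K.N) (c : ℝ) {z : Cn n} {r : ℝ} (hb : ball z r ⊆ ball (0 : Cn n) 3) :
    SubOn (ball z r) (fun y => K.ρ k y + c) := by
  have h1 : SubOn (ball z r) (K.ρ k) :=
    smooth_sub isOpen_ball ((K.ρ_smooth k).mono hb) fun y hy ξ => by
      by_cases hξ : ξ = 0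
      · rw [hξ]
        unfold lev
        simp
      · exact (K.ρ_pos k y (hb hy) ξ hξ).le
  have hc : ContinuousOn (K.ρ k) (ball z r) := (K.ρ_smooth k).continuousOn.mono hb
  refine kw_sub_add_const h1 hc.upperSemicontinuousOn (fun L hL hLc => ?_) c
  obtain ⟨M, hM⟩ := (hLc.image_of_continuousOn (hc.mono hL)).bddBelow
  refine ⟨-M, fun z hz => ?_⟩
  rw [neg_neg]
  exact hM (mem_image_of_mem _ hz)

/-- the local statement -/
theorem gluew_local {M : (Fin K.N → ℝ) → ℝ} (hM : ContDiff ℝ ∞ M) (hMc : ConvexOn ℝ univ M)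
    (hMm : Monotone M) (hMt : ∀ t c, M (fun i => t i + c) = M t + c)
    (w : Fin K.N → X → ℝ) (I : Fin K.N → Prop) [DecidablePred I] (c : ℝ) {k : Fin K.N}
    {z : Cn n} (hz : z ∈ ball (0 : Cn n) 3) (hI : ∀ i, I i → LW K (w i) k z) :
    LW K (fun y => M (fun i => if I i then w i y else c)) k z := by
  have hex : ∃ R : Fin K.N → ℝ, ∀ i, 0 < R i ∧ ball z (R i) ⊆ ball (0 : Cn n) 3 ∧
      (I i → C11 (ball z (R i)) (fun y => w i (K.κ k y)) ∧
        SubOn (ball z (R i)) (fun y => K.ρ k y + w i (K.κ k y))) := by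
    refine Classical.axiom_of_choice (r := fun i R => 0 < R ∧ ball z R ⊆ ball (0 : Cn n) 3 ∧
      (I i → C11 (ball z R) (fun y => w i (K.κ k y)) ∧
        SubOn (ball z R) (fun y => K.ρ k y + w i (K.κ k y)))) fun i => ?_
    by_cases hi : I i
    · obtain ⟨r, hr, hb, h1, h2⟩ := hI i hi
      exact ⟨r, hr, hb, fun _ => ⟨h1, h2⟩⟩
    · obtain ⟨r, hr, hb⟩ := Metric.isOpen_iff.1 (isOpen_ball (x := (0 : Cn n)) (ε := 3)) z hz
      exact ⟨r, hr, hb, fun h => absurd h hi⟩
  obtain ⟨R, hR⟩ := hex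
  have : Nonempty (Fin K.N) := ⟨k⟩
  obtain ⟨i₀, hi₀⟩ := Finite.exists_min R
  set r : ℝ := R i₀ with hr
  have hr0 : 0 < r := (hR i₀).1
  have hb : ball z r ⊆ ball (0 : Cn n) 3 := (hR i₀).2.1
  have hsub : ∀ i, ball z r ⊆ ball z (R i) := fun i => ball_subset_ball (hi₀ i)
  have hκ : ContinuousOn (K.κ k) (ball z r) := (K.cont k).mono hb
  have hc11 : ∀ i, C11 (ball z r) (fun y => if I i then w i (K.κ k y) else c) := by
    intro i
    by_cases hi : I i
    · simp only [if_pos hi]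
      exact ((hR i).2.2 hi).1.mono (hsub i)
    · simp only [if_neg hi]
      exact c11_of_contDiffOn isOpen_ball contDiffOn_const
  have hρ11 : C11 (ball z r) (K.ρ k) := (KM.ρ_c11 K k).mono hb
  refine ⟨r, hr0, hb, kw_c11_pi isOpen_ball hc11 hM, ?_⟩
  have hsum : ∀ i, C11 (ball z r) (fun y => K.ρ k y + (if I i then w i (K.κ k y) else c)) :=
    fun i => hρ11.add isOpen_ball (hc11 i)
  have h1 := kw_sub_convex (Ω := ball z r)
    (w := fun i y => K.ρ k y + (if I i then w i (K.κ k y) else c))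
    (fun i => (hsum i).continuousOn) (fun i => by
      by_cases hi : I i
      · simp only [if_pos hi]
        exact kw_sub_mono ((hR i).2.2 hi).2 (hsub i)
      · simp only [if_neg hi]
        exact gluew_const K k c hb) hM.continuous hMc hMm
  refine kw_sub_congr h1 fun y _ => ?_
  have h2 := hMt (fun i => if I i then w i (K.κ k y) else c) (K.ρ k y)
  have h3 : (fun i => K.ρ k y + (if I i then w i (K.κ k y) else c)) =
      fun i => (if I i then w i (K.κ k y) else c) + K.ρ k y := by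
    funext i
    exact add_comm _ _
  simp only [h3]
  rw [h2]
  exact add_comm _ _

theorem KM.glue_wk [Nonempty X] (w : Fin K.N → X → ℝ) (O : Fin K.N → Set X)
    (hO : ∀ i, IsOpen (O i))
    (h : ∀ i k, ∀ z ∈ ball (0 : Cn n) 3, K.κ k z ∈ O i → LW K (w i) k z) {η : ℝ} (hη : 0 < η)
    (hd : ∀ i, ∀ x, x ∉ O i → ∀ᶠ y in 𝓝 x, ∃ j, w i y ≤ w j y - 2 * η) :
    ∃ ψ : X → ℝ, WK K ψ ∧ ∀ x, (∀ i, w i x ≤ ψ x) ∧ ∃ i, ψ x ≤ w i x + η := by
  classical
  obtain ⟨x₁⟩ := (inferInstance : Nonempty X)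
  obtain ⟨i₁, _⟩ := K.cover x₁
  have : Nonempty (Fin K.N) := ⟨i₁⟩
  have hN : 1 ≤ K.N := Nat.one_le_iff_ne_zero.2 (fun h0 => by
    have := i₁.2
    omega)
  obtain ⟨M, hM, hMc, hMm, hle, hge, hMt, hloc⟩ := exists_regmax K.N hN hη
  refine ⟨fun x => M (fun i => w i x), ?_, ?_⟩
  · refine wk_of_LW K fun x => ?_
    obtain ⟨k, z, hz1, hzx⟩ := K.cover x
    have hz : z ∈ ball (0 : Cn n) 3 := ball_subset_ball (by norm_num) hz1
    refine ⟨k, z, hz, hzx, ?_⟩
    -- the index of the maximum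
    have hmax : ∀ y, ∃ j, ∀ i, w i y ≤ w j y := fun y => Finite.exists_max (fun i => w i y)
    -- near x
    have hev : ∀ᶠ y in 𝓝 x, ∀ i, x ∉ O i → ∃ j, w i y ≤ w j y - 2 * η := by
      rw [Filter.eventually_all]
      intro i
      by_cases hi : x ∈ O i
      · exact Filter.Eventually.of_forall fun y hn => absurd hi hn
      · filter_upwards [hd i x hi] with y hy _ using hy
    have hstar : ∀ y, (∀ i, x ∉ O i → ∃ j, w i y ≤ w j y - 2 * η) → ∀ j, (∀ i, w i y ≤ w j y) →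
        x ∈ O j ∧ ∀ i, x ∉ O i → w i y ≤ w j y - 2 * η := by
      intro y hy j hj
      constructor
      · by_contra hcon
        obtain ⟨j', hj'⟩ := hy j hcon
        have := hj j'
        linarith
      · intro i hi
        obtain ⟨j', hj'⟩ := hy i hi
        have := hj j'
        linarith
    obtain ⟨j₀, hj₀⟩ := hmax x
    have hj₀O : x ∈ O j₀ := (hstar x hev.self_of_nhds j₀ hj₀).1
    set c : ℝ := w j₀ x - 1 - 2 * η with hc
    -- continuity of w j₀
    have hcont : ∀ᶠ y in 𝓝 x, w j₀ x - 1 < w j₀ y := by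
      obtain ⟨r, hr, hb, h1, _⟩ := h j₀ k z hz (by rw [hzx]; exact hj₀O)
      have h2 : ContinuousOn (fun y => w j₀ (K.κ k y)) (ball z r) := h1.continuousOn
      have h3 : IsOpen (ball z r ∩ (fun y => w j₀ (K.κ k y)) ⁻¹' Ioi (w j₀ x - 1)) :=
        h2.isOpen_inter_preimage isOpen_ball isOpen_Ioi
      have h4 := K.isOpen_image k _ (inter_subset_left.trans hb) h3
      have h5 : x ∈ K.κ k '' (ball z r ∩ (fun y => w j₀ (K.κ k y)) ⁻¹' Ioi (w j₀ x - 1)) := by
        refine ⟨z, ⟨mem_ball_self hr, ?_⟩, hzx⟩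
        simp only [mem_preimage, mem_Ioi]
        rw [hzx]
        linarith
      filter_upwards [h4.mem_nhds h5] with y hy
      obtain ⟨z', hz', rfl⟩ := hy
      exact hz'.2
    have hlocal := gluew_local K hM hMc hMm hMt w (fun i => x ∈ O i) c hz (k := k)
      (fun i hi => h i k z hz (by rw [hzx]; exact hi))
    refine LW.congr K hlocal hz ?_
    rw [hzx]
    filter_upwards [hev, hcont] with y hy1 hy2
    obtain ⟨j, hj⟩ := hmax y
    obtain ⟨h1, h2⟩ := hstar y hy1 j hj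
    refine hloc _ _ j ?_ fun i => ?_
    · rw [if_pos h1]
    · by_cases hi : x ∈ O i
      · left
        rw [if_pos hi]
      · right
        rw [if_neg hi, if_pos h1]
        refine ⟨h2 i hi, ?_⟩
        have := hj j₀
        rw [hc]
        linarith
  · intro x
    refine ⟨fun i => hle (fun i => w i x) i, ?_⟩
    obtain ⟨j, hj⟩ := Finite.exists_max (fun i => w i x)
    exact ⟨j, hge (fun i => w i x) (w j x) hj⟩

end HMA

end S_KW_GlueW

section S_KW_Rich

/-! # Module Rich: regularisation of continuous `ω`-psh functions -/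

open MeasureTheory Metric Set Filter
open scoped ENNReal Topology ContDiff ComplexOrder

namespace HMA

variable {n : ℕ} {X : Type} [TopologicalSpace X] (K : KM n X)

/-- the local function of the chart `i` -/
noncomputable def rich_w (δ c₀ L₀ : ℝ) (a : Cn n → ℝ) (U : Cn n → ℝ) (i : Fin K.N) (x : X) : ℝ :=
  open Classical in
  if x ∈ K.κ i '' ball 0 2 then
    (1 - δ) * (U (Function.invFunOn (K.κ i) (ball 0 3) x) -
      K.ρ i (Function.invFunOn (K.κ i) (ball 0 3) x)) -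
      δ * c₀ * a (Function.invFunOn (K.κ i) (ball 0 3) x)
  else -L₀

theorem rich_w_in (δ c₀ L₀ : ℝ) (a : Cn n → ℝ) (U : Cn n → ℝ) (i : Fin K.N) {z : Cn n}
    (hz : z ∈ ball (0 : Cn n) 2) :
    rich_w K δ c₀ L₀ a U i (K.κ i z) = (1 - δ) * (U z - K.ρ i z) - δ * c₀ * a z := by
  unfold rich_w
  rw [if_pos (mem_image_of_mem _ hz), xtop_linv K i (ball_subset_ball (by norm_num) hz)]

theorem rich_w_out (δ c₀ L₀ : ℝ) (a : Cn n → ℝ) (U : Cn n → ℝ) (i : Fin K.N) {x : X}
    (hx : x ∉ K.κ i '' ball 0 2) : rich_w K δ c₀ L₀ a U i x = -L₀ := by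
  unfold rich_w
  rw [if_neg hx]

theorem KM.rich [CompactSpace X] [T2Space X] [Nonempty X] {φ : X → ℝ} (hφ : PC K φ) {ε : ℝ}
    (hε : 0 < ε) : ∃ ψ : X → ℝ, WK K ψ ∧ ∀ x, |ψ x - φ x| ≤ ε := by
  -- the bound of `φ`
  obtain ⟨B, hB0, hB⟩ : ∃ B : ℝ, 0 < B ∧ ∀ x, |φ x| ≤ B := by
    obtain ⟨B, hB⟩ := (isCompact_univ (X := X)).bddAbove_image (hφ.cont.abs).continuousOn
    refine ⟨max B 1, lt_of_lt_of_le one_pos (le_max_right _ _), fun x => ?_⟩
    exact (hB (mem_image_of_mem _ (mem_univ x))).trans (le_max_left _ _)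
  obtain ⟨a, c₀, hc₀, ha, ha01, ha0, ha1, hcut⟩ := K.exists_cut
  obtain ⟨δ, hδ0, hδ1, hδB⟩ : ∃ δ : ℝ, 0 < δ ∧ δ < 1 ∧ δ * B ≤ ε / 4 := by
    refine ⟨min (1 / 2) (ε / (4 * B)), by positivity, ?_, ?_⟩
    · exact lt_of_le_of_lt (min_le_left _ _) (by norm_num)
    · calc min (1 / 2) (ε / (4 * B)) * B ≤ ε / (4 * B) * B :=
            mul_le_mul_of_nonneg_right (min_le_right _ _) hB0.le
        _ = ε / 4 := by field_simp
  obtain ⟨η, hη0, hη1, hη2⟩ : ∃ η : ℝ, 0 < η ∧ 4 * η ≤ δ * c₀ ∧ η ≤ ε / 8 := by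
    refine ⟨min (δ * c₀ / 4) (ε / 8), by positivity, ?_, min_le_right _ _⟩
    have := min_le_left (δ * c₀ / 4) (ε / 8)
    linarith
  have h1δ : 0 < 1 - δ := by linarith
  -- the mollifications
  have hmoll : ∀ i : Fin K.N, ∃ (W : Set (Cn n)) (U : Cn n → ℝ), IsOpen W ∧
      closedBall 0 2 ⊆ W ∧ W ⊆ ball 0 3 ∧ ContDiff ℝ ∞ U ∧ SubOn W U ∧
      ∀ z ∈ W, |U z - (K.ρ i z + φ (K.κ i z))| ≤ η := by
    intro i
    have hc : ContinuousOn (fun z => K.ρ i z + φ (K.κ i z)) (ball 0 3) :=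
      (K.ρ_smooth i).continuousOn.add (hφ.cont.comp_continuousOn (K.cont i))
    exact moll_cont isOpen_ball hc (hφ.sub i) (isCompact_closedBall 0 2)
      (closedBall_subset_ball (by norm_num)) hη0
  choose W U hWo hLW hW3 hUs hUsub hUap using hmoll
  have hb2W : ∀ i, ball (0 : Cn n) 2 ⊆ W i := fun i => ball_subset_closedBall.trans (hLW i)
  set L₀ := B + 3 * η with hL₀
  let w : Fin K.N → X → ℝ := fun i => rich_w K δ c₀ L₀ a (U i) i
  have hδc : 0 < δ * c₀ := by positivity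
  -- estimates
  have hup : ∀ i, ∀ z ∈ ball (0 : Cn n) 2, w i (K.κ i z) ≤
      (1 - δ) * (φ (K.κ i z) + η) - δ * c₀ * a z := by
    intro i z hz
    show rich_w K δ c₀ L₀ a (U i) i (K.κ i z) ≤ _
    rw [rich_w_in K δ c₀ L₀ a (U i) i hz]
    have h1 := (abs_le.1 (hUap i z (hb2W i hz))).2
    have h2 : (1 - δ) * (U i z - K.ρ i z) ≤ (1 - δ) * (φ (K.κ i z) + η) :=
      mul_le_mul_of_nonneg_left (by linarith) h1δ.le
    linarith
  have hlow : ∀ j, ∀ z ∈ ball (0 : Cn n) 1, (1 - δ) * (φ (K.κ j z) - η) ≤ w j (K.κ j z) := by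
    intro j z hz
    have hz2 : z ∈ ball (0 : Cn n) 2 := ball_subset_ball (by norm_num) hz
    show _ ≤ rich_w K δ c₀ L₀ a (U j) j (K.κ j z)
    rw [rich_w_in K δ c₀ L₀ a (U j) j hz2]
    have h1 := (abs_le.1 (hUap j z (hb2W j hz2))).1
    have h2 : (1 - δ) * (φ (K.κ j z) - η) ≤ (1 - δ) * (U j z - K.ρ j z) :=
      mul_le_mul_of_nonneg_left (by linarith) h1δ.le
    have h3 : a z = 0 := ha0 z (by
      have := mem_ball_zero_iff.1 hz
      linarith)
    rw [h3]
    linarith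
  have hmul : ∀ t : ℝ, |t| ≤ B → |δ * t| ≤ δ * B := by
    intro t ht
    rw [abs_mul, abs_of_pos hδ0]
    exact mul_le_mul_of_nonneg_left ht hδ0.le
  -- glueing
  obtain ⟨ψ, hψ, hψb⟩ := K.glue_wk w (fun i => K.κ i '' ball 0 2)
    (fun i => K.isOpen_image i _ (ball_subset_ball (by norm_num)) isOpen_ball) (by
      rintro i k z hz ⟨z₀, hz₀, he⟩
      have hz₀3 : z₀ ∈ ball (0 : Cn n) 3 := ball_subset_ball (by norm_num) hz₀
      refine LW.change K (k := i) (z := z₀) ?_ hz₀3 hz he.symm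
      obtain ⟨r, hr, hrb⟩ := Metric.isOpen_iff.1 (isOpen_ball (x := (0 : Cn n)) (ε := 2)) z₀ hz₀
      have hb3 : ball (0 : Cn n) 2 ⊆ ball 0 3 := ball_subset_ball (by norm_num)
      refine ⟨r, hr, hrb.trans hb3, ?_, ?_⟩
      · have h1 : ContDiffOn ℝ ∞ (fun y => (1 - δ) * (U i y - K.ρ i y) - δ * c₀ * a y)
            (ball z₀ r) := by
          have hρ : ContDiffOn ℝ ∞ (K.ρ i) (ball z₀ r) := (K.ρ_smooth i).mono (hrb.trans hb3)
          exact (contDiffOn_const.mul ((hUs i).contDiffOn.sub hρ)).sub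
            (contDiffOn_const.mul ha.contDiffOn)
        have h2 : C11 (ball z₀ r) (fun y => (1 - δ) * (U i y - K.ρ i y) - δ * c₀ * a y) :=
          c11_of_contDiffOn isOpen_ball (h1.of_le (by norm_cast))
        refine C11.congr isOpen_ball h2 fun y hy => ?_
        exact rich_w_in K δ c₀ L₀ a (U i) i (hrb hy)
      · have h1 : SubOn (ball z₀ r) (fun y => (1 - δ) * U i y) :=
          kw_sub_mul (kw_sub_mono (hUsub i) (hrb.trans (hb2W i))) h1δ.le
        have h2 : SubOn (ball z₀ r) (fun y => δ * (K.ρ i y + -c₀ * a y)) :=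
          kw_sub_mul (kw_sub_mono (hcut i (-c₀) (by rw [abs_neg, abs_of_pos hc₀])) hrb) hδ0.le
        have hc1 : ContinuousOn (fun y => (1 - δ) * U i y) (ball z₀ r) :=
          continuousOn_const.mul (hUs i).continuous.continuousOn
        have hc2 : ContinuousOn (fun y => δ * (K.ρ i y + -c₀ * a y)) (ball z₀ r) :=
          continuousOn_const.mul (((K.ρ_smooth i).continuousOn.mono (hrb.trans hb3)).add
            (continuousOn_const.mul ha.continuous.continuousOn))
        refine kw_sub_congr (kw_sub_add h1 h2 hc1 hc2) fun y hy => ?_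
        show K.ρ i y + rich_w K δ c₀ L₀ a (U i) i (K.κ i y) = _
        rw [rich_w_in K δ c₀ L₀ a (U i) i (hrb hy)]
        ring) hη0 (by
      intro i x hx
      have hcomp : IsCompact (K.κ i '' closedBall 0 (3 / 2)) :=
        K.compact_image i (isCompact_closedBall 0 (3 / 2)) (closedBall_subset_ball (by norm_num))
      have hnot : x ∉ K.κ i '' closedBall 0 (3 / 2) := by
        intro h
        exact hx (image_mono (closedBall_subset_ball (by norm_num)) h)
      filter_upwards [hcomp.isClosed.isOpen_compl.mem_nhds hnot] with y hy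
      obtain ⟨j, z', hz', rfl⟩ := K.cover y
      refine ⟨j, ?_⟩
      have h1 := hlow j z' hz'
      have hBy := hB (K.κ j z')
      have h2 := abs_le.1 hBy
      by_cases hyO : K.κ j z' ∈ K.κ i '' ball 0 2
      · obtain ⟨z, hz, hzy⟩ := hyO
        have h3 := hup i z hz
        rw [hzy] at h3
        have h4 : a z = 1 := by
          apply ha1
          by_contra hlt
          apply hy
          refine ⟨z, ?_, hzy⟩
          rw [mem_closedBall_zero_iff]
          linarith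
        rw [h4] at h3
        nlinarith
      · have h3 : w i (K.κ j z') = -L₀ := rich_w_out K δ c₀ L₀ a (U i) i hyO
        rw [h3, hL₀]
        have h4 := (abs_le.1 (hmul _ hBy))
        nlinarith)
  refine ⟨ψ, hψ, fun x => ?_⟩
  obtain ⟨hge, i, hi⟩ := hψb x
  have hBx := hB x
  have h2 := abs_le.1 hBx
  have h4 := abs_le.1 (hmul _ hBx)
  have hδη : 0 < δ * η := by positivity
  rw [abs_le]
  constructor
  · obtain ⟨j, z', hz', he⟩ := K.cover x
    have h1 := hlow j z' hz'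
    rw [he] at h1
    have h3 := hge j
    nlinarith
  · by_cases hxO : x ∈ K.κ i '' ball 0 2
    · obtain ⟨z, hz, hzx⟩ := hxO
      have h3 := hup i z hz
      rw [hzx] at h3
      have h5 := (ha01 z).1
      have h6 : 0 ≤ δ * c₀ * a z := mul_nonneg hδc.le h5
      nlinarith
    · have h3 : w i x = -L₀ := rich_w_out K δ c₀ L₀ a (U i) i hxO
      rw [h3, hL₀] at hi
      linarith

end HMA

end S_KW_Rich

section S_KW_Stab

/-! # Module Stab: stability estimate -/

open MeasureTheory Metric Set Filter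
open scoped ENNReal Topology ContDiff ComplexOrder

namespace HMA

variable {n : ℕ} {X : Type} [TopologicalSpace X] (K : KM n X)

variable [MeasurableSpace X] [BorelSpace X] [T2Space X] [CompactSpace X]

theorem stab_decay {μ : Measure X} [IsProbabilityMeasure μ] {Φ : X → ℝ} {B1 B : ℝ}
    (hB1 : ∀ x, |Φ x| ≤ B1) (hB : 0 ≤ B) (t : ℝ) :
    μ.real {x | Φ x + B < -t} ≤ Real.exp B1 * Real.exp (-1 * t) := by
  rw [← Real.exp_add]
  rcases le_or_gt t B1 with h | h
  · refine (measureReal_le_one (μ := μ)).trans ?_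
    exact Real.one_le_exp (by linarith)
  · have h1 : {x | Φ x + B < -t} = ∅ := by
      rw [eq_empty_iff_forall_notMem]
      intro x hx
      have h2 : Φ x + B < -t := hx
      have h3 := (abs_le.1 (hB1 x)).1
      linarith
    rw [h1, measureReal_empty]
    exact (Real.exp_pos _).le

theorem stab_open {Φ g : X → ℝ} (hΦ : UpperSemicontinuous Φ) (hg : Continuous g) :
    IsOpen {x | Φ x < g x} := by
  have h1 : UpperSemicontinuous (fun x => Φ x + -g x) :=
    hΦ.add hg.neg.upperSemicontinuous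
  have h2 : {x | Φ x < g x} = (fun x => Φ x + -g x) ⁻¹' Iio 0 := by
    ext x
    simp only [mem_ofPred_eq, mem_preimage, mem_Iio]
    constructor <;> intro h <;> linarith
  rw [h2]
  exact h1.isOpen_preimage 0

theorem stab_int {μ : Measure X} [IsProbabilityMeasure μ] {Φ G : X → ℝ} (hΦ : PB K Φ)
    (hG : Continuous G) {B : ℝ} (hGB : ∀ x, |G x| ≤ B) :
    Integrable (fun x => max (G x - Φ x) 0) μ := by
  obtain ⟨B1, hB1⟩ := hΦ.bdd
  have hmeas : Measurable (fun x => max (G x - Φ x) 0) :=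
    (hG.measurable.sub hΦ.usc.measurable).max measurable_const
  refine Integrable.of_bound hmeas.aestronglyMeasurable (B + B1) ?_
  refine Filter.Eventually.of_forall fun x => ?_
  have h1 := abs_le.1 (hGB x)
  have h2 := abs_le.1 (hB1 x)
  rw [Real.norm_of_nonneg (le_max_right _ _)]
  refine max_le (by linarith) (by linarith)

theorem KM.stab_wk [ConnectedSpace X] (hn : 1 ≤ n) {μ : Measure X} [IsProbabilityMeasure μ]
    (hμ : KModerate K μ) {Φ : X → ℝ} (hΦ : PB K Φ) (hK : KIneq K μ 0 Φ) {B : ℝ} (hB : 0 ≤ B) :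
    ∃ C γ : ℝ, 0 < C ∧ 0 < γ ∧ ∀ G : X → ℝ, WK K G → (∀ x, |G x| ≤ B) → ∀ x,
      G x - Φ x ≤ C * (∫ x, max (G x - Φ x) 0 ∂μ) ^ γ := by
  obtain ⟨B1, hB1⟩ := hΦ.bdd
  obtain ⟨x00⟩ : Nonempty X := inferInstance
  have hne : Nonempty X := ⟨x00⟩
  have hB10 : 0 ≤ B1 := (abs_nonneg _).trans (hB1 x00)
  have hΦ' : PB K (fun x => Φ x + B) := hΦ.add_const K B
  have hK' : KIneq K μ 0 (fun x => Φ x + B) := by
    intro h hh
    have h1 := hK (fun x => h x + -B) (hh.add_const' K (-B))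
    have h2 : ∫ x, max (h x - (Φ x + B)) 0 * K.RM h x ∂K.vol =
        ∫ x, max (h x + -B - Φ x) 0 * K.RM (fun x => h x + -B) x ∂K.vol := by
      refine integral_congr_ae ?_
      filter_upwards [K.RM_add_const hh.c11 (-B)] with x hx
      rw [hx]
      congr 2
      ring
    have h3 : ∫ x, max (h x - (Φ x + B)) 0 ∂μ = ∫ x, max (h x + -B - Φ x) 0 ∂μ := by
      congr 1
      ext x
      congr 1
      ring
    rw [h2, h3]
    exact h1
  obtain ⟨c₀, C, hc₀, hC, hcore⟩ := K.stab_core hn hμ (A := Real.exp B1) (ε := 1) (B := 2 * B)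
    (Real.exp_pos _) one_pos (by positivity)
  have hfin : IsFiniteMeasure K.vol := K.vol_finite
  have hV : 0 < K.vol.real univ := by
    rw [measureReal_def]
    exact ENNReal.toReal_pos (K.vol_pos).ne' (measure_ne_top _ _)
  obtain ⟨γ, hγ⟩ : ∃ γ : ℝ, γ = 1 / (3 * (n + 1)) := ⟨_, rfl⟩
  have hγ0 : 0 < γ := by rw [hγ]; positivity
  obtain ⟨C1, hC1⟩ : ∃ C1 : ℝ, C1 = max C ((B + B1) / c₀ ^ γ) := ⟨_, rfl⟩
  have hC1pos : 0 < C1 := by rw [hC1]; exact lt_of_lt_of_le hC (le_max_left _ _)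
  refine ⟨C1 * K.vol.real univ ^ γ, γ, by positivity, hγ0, ?_⟩
  intro G hG hGB x
  obtain ⟨I, hI⟩ : ∃ I : ℝ, I = ∫ x, max (G x - Φ x) 0 ∂μ := ⟨_, rfl⟩
  have hI0 : 0 ≤ I := by
    rw [hI]
    exact integral_nonneg fun x => le_max_right _ _
  rw [← hI]
  have hg : WK K (fun x => G x + B) := hG.add_const' K B
  have hgB : ∀ x, 0 ≤ G x + B ∧ G x + B ≤ 2 * B := fun x => by
    have := abs_le.1 (hGB x)
    constructor <;> linarith
  obtain ⟨a0, ha0⟩ : ∃ a0 : ℝ, a0 = K.vol.real univ * I := ⟨_, rfl⟩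
  have ha00 : 0 ≤ a0 := by rw [ha0]; positivity
  have haI : K.aI μ (fun x => G x + B) (fun x => Φ x + B) 0 = a0 := by
    unfold KM.aI
    rw [ha0, hI]
    congr 2
    ext x
    congr 1
    ring
  have hfinal : C1 * K.vol.real univ ^ γ * I ^ γ = C1 * a0 ^ γ := by
    rw [ha0, Real.mul_rpow hV.le hI0]
    ring
  rw [hfinal]
  have ha0γ : 0 ≤ a0 ^ γ := Real.rpow_nonneg ha00 γ
  rcases le_or_gt a0 c₀ with hle | hgt
  · have h1 := hcore 0 (fun x => Φ x + B) le_rfl hΦ'
      (fun t _ => stab_decay hB1 hB t) hK' (fun x => G x + B) hg hgB 0 le_rfl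
      (by rw [haI, max_eq_left ha00]; exact hle)
    rw [haI, max_eq_left ha00, ← hγ, zero_add] at h1
    have h2 : C * a0 ^ γ ≤ C1 * a0 ^ γ := by
      refine mul_le_mul_of_nonneg_right ?_ ha0γ
      rw [hC1]; exact le_max_left _ _
    refine le_trans ?_ h2
    by_contra hcon
    push Not at hcon
    -- choice of tau
    obtain ⟨τ, hτ0, hτ1, hτ⟩ : ∃ τ : ℝ, 0 < τ ∧ τ ≤ 1 ∧
        (2 * B + 2) * τ < G x - Φ x - C * a0 ^ γ := by
      refine ⟨min 1 ((G x - Φ x - C * a0 ^ γ) / (2 * (2 * B + 2))), lt_min one_pos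
        (div_pos (by linarith) (by positivity)), min_le_left _ _, ?_⟩
      have h3 : (2 * B + 2) * min 1 ((G x - Φ x - C * a0 ^ γ) / (2 * (2 * B + 2))) ≤
          (2 * B + 2) * ((G x - Φ x - C * a0 ^ γ) / (2 * (2 * B + 2))) :=
        mul_le_mul_of_nonneg_left (min_le_right _ _) (by positivity)
      have h4 : (2 * B + 2) * ((G x - Φ x - C * a0 ^ γ) / (2 * (2 * B + 2))) =
          (G x - Φ x - C * a0 ^ γ) / 2 := by
        field_simp
      rw [h4] at h3
      linarith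
    have h3 := K.cap_ki hΦ' hK' hg hgB (s := C * a0 ^ γ) hτ0 hτ1
    have hopen : IsOpen {y | Φ y + B < G y + B - C * a0 ^ γ - (2 * B + 2) * τ} :=
      stab_open hΦ'.usc (((hg.pc K).cont.sub continuous_const).sub continuous_const)
    have hpos := K.cap_pos hopen ⟨x, by
      show Φ x + B < G x + B - C * a0 ^ γ - (2 * B + 2) * τ
      linarith⟩
    have h4 : 0 < τ ^ (n + 1) *
        K.cap {y | Φ y + B < G y + B - C * a0 ^ γ - (2 * B + 2) * τ} :=
      mul_pos (pow_pos hτ0 _) hpos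
    have h5 : ((n : ℝ) + 1) * (K.aI μ (fun x => G x + B) (fun x => Φ x + B) (C * a0 ^ γ) + 0) ≤ 0 := by
      have : (0 : ℝ) ≤ (n : ℝ) + 1 := by positivity
      nlinarith
    exact absurd (h3.trans h5) (not_le.2 h4)
  · have h1 := abs_le.1 (hGB x)
    have h2 := abs_le.1 (hB1 x)
    have hcγ : 0 < c₀ ^ γ := Real.rpow_pos_of_pos hc₀ γ
    calc G x - Φ x ≤ B + B1 := by linarith
      _ = (B + B1) / c₀ ^ γ * c₀ ^ γ := by field_simp
      _ ≤ C1 * a0 ^ γ := by
        refine mul_le_mul ?_ (Real.rpow_le_rpow hc₀.le hgt.le hγ0.le) hcγ.le hC1pos.le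
        rw [hC1]; exact le_max_right _ _

theorem KM.stab [ConnectedSpace X] (hn : 1 ≤ n) {μ : Measure X} [IsProbabilityMeasure μ]
    (hμ : KModerate K μ) {Φ : X → ℝ} (hΦ : PB K Φ) (hK : KIneq K μ 0 Φ) {B : ℝ} (hB : 0 ≤ B) :
    ∃ C γ : ℝ, 0 < C ∧ 0 < γ ∧ ∀ G : X → ℝ, PC K G → (∀ x, |G x| ≤ B) → ∀ x,
      G x - Φ x ≤ C * (∫ x, max (G x - Φ x) 0 ∂μ) ^ γ := by
  obtain ⟨C, γ, hC, hγ, hwk⟩ := K.stab_wk hn hμ hΦ hK (B := B + 1) (by positivity)
  refine ⟨C, γ, hC, hγ, fun G hG hGB x => ?_⟩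
  have hne : Nonempty X := ⟨x⟩
  obtain ⟨I, hI⟩ : ∃ I : ℝ, I = ∫ x, max (G x - Φ x) 0 ∂μ := ⟨_, rfl⟩
  have hI0 : 0 ≤ I := by
    rw [hI]
    exact integral_nonneg fun x => le_max_right _ _
  rw [← hI]
  have hmain : ∀ η : ℝ, 0 < η → η ≤ 1 → G x - Φ x ≤ η + C * (I + η) ^ γ := by
    intro η hη hη1
    obtain ⟨ψ, hψ, hψG⟩ := K.rich hG hη
    have hψB : ∀ x, |ψ x| ≤ B + 1 := by
      intro y
      have h1 := abs_le.1 (hψG y)
      have h2 := abs_le.1 (hGB y)
      rw [abs_le]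
      constructor <;> linarith
    have h1 := hwk ψ hψ hψB x
    have h2 : ∫ x, max (ψ x - Φ x) 0 ∂μ ≤ I + η := by
      have h3 : I + η = ∫ x, (max (G x - Φ x) 0 + η) ∂μ := by
        rw [integral_add (stab_int K hΦ hG.cont hGB) (integrable_const _), integral_const, hI]
        simp
      rw [h3]
      refine integral_mono (stab_int K hΦ (hψ.pc K).cont hψB)
        ((stab_int K hΦ hG.cont hGB).add (integrable_const _)) fun y => ?_
      have h4 := abs_le.1 (hψG y)
      refine max_le ?_ ?_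
      · have := le_max_left (G y - Φ y) 0
        linarith
      · have := le_max_right (G y - Φ y) 0
        linarith
    have h3 : (∫ x, max (ψ x - Φ x) 0 ∂μ) ^ γ ≤ (I + η) ^ γ :=
      Real.rpow_le_rpow (integral_nonneg fun x => le_max_right _ _) h2 hγ.le
    have h4 : C * (∫ x, max (ψ x - Φ x) 0 ∂μ) ^ γ ≤ C * (I + η) ^ γ :=
      mul_le_mul_of_nonneg_left h3 hC.le
    have h5 := abs_le.1 (hψG x)
    linarith
  have hcont : Continuous (fun η : ℝ => η + C * (I + η) ^ γ) :=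
    continuous_id.add (continuous_const.mul
      ((Real.continuous_rpow_const hγ.le).comp (continuous_const.add continuous_id)))
  have hlim : Tendsto (fun η : ℝ => η + C * (I + η) ^ γ) (𝓝[>] 0) (𝓝 (C * I ^ γ)) := by
    have h1 := hcont.tendsto 0
    simp only [add_zero, zero_add] at h1
    exact h1.mono_left nhdsWithin_le_nhds
  refine ge_of_tendsto hlim ?_
  filter_upwards [Ioc_mem_nhdsGT (zero_lt_one' ℝ)] with η hη
  exact hmain η hη.1 hη.2

end HMA

end S_KW_Stab

section S_KW_JFun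

/-! # Module JFun: the functional `J` -/

open MeasureTheory Metric Set Filter
open scoped ENNReal Topology ContDiff ComplexOrder

namespace HMA

variable {n : ℕ} {X : Type} [TopologicalSpace X] (K : KM n X)

variable [MeasurableSpace X] [BorelSpace X] [T2Space X] [CompactSpace X]

variable {μ : Measure X} [IsProbabilityMeasure μ]

omit [T2Space X] in
theorem JFun_int {ψ : X → ℝ} (hψ : C11X K ψ) : Integrable ψ μ := by
  obtain ⟨C, hC0, hC⟩ := XEn_bdd K hψ
  exact Integrable.of_bound (C11X.continuous K hψ).aestronglyMeasurable C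
    (Filter.Eventually.of_forall hC)

theorem KM.J_add_const {ψ : X → ℝ} (hψ : WK K ψ) (c : ℝ) :
    K.J μ (fun x => ψ x + c) = K.J μ ψ := by
  have hint : Integrable ψ μ := JFun_int K hψ.c11
  unfold KM.J
  rw [K.E_add_const hψ.c11, integral_add hint (integrable_const c), integral_const]
  simp only [probReal_univ, one_smul]
  ring

/-- normalisation by the maximum -/
theorem JFun_norm [Nonempty X] {ψ : X → ℝ} (hψ : WK K ψ) : ∃ ψ' : X → ℝ, WK K ψ' ∧
    K.J μ ψ' = K.J μ ψ ∧ (∀ x, ψ' x ≤ 0) ∧ ∃ x, ψ' x = 0 := by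
  obtain ⟨x₀, -, h⟩ := (isCompact_univ (X := X)).exists_isMaxOn univ_nonempty
    (C11X.continuous K hψ.c11).continuousOn
  refine ⟨fun x => ψ x + (-ψ x₀), WK.add_const' K hψ _, K.J_add_const hψ _, fun x => ?_, x₀, ?_⟩
  · have : ψ x ≤ ψ x₀ := h (mem_univ x)
    show ψ x + (-ψ x₀) ≤ 0
    linarith
  · show ψ x₀ + (-ψ x₀) = 0
    ring

theorem KM.J_bdd [ConnectedSpace X] (hn : 1 ≤ n) (hμ : KModerate K μ) : ∃ S : ℝ,
    ∀ ψ : X → ℝ, WK K ψ → K.J μ ψ ≤ S := by
  obtain ⟨ε, hε, hε1, hU⟩ := K.unif hn hμ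
  obtain ⟨C, hC, hU1⟩ := hU 1 one_pos
  refine ⟨K.vol.real univ * (C / ε), fun ψ hψ => ?_⟩
  obtain ⟨ψ', hψ', hJ, h0, x₀, hx₀⟩ := JFun_norm K (μ := μ) hψ
  rw [← hJ]
  have hE := K.E_le hψ' le_rfl h0
  rw [zero_mul] at hE
  have hF : KPsh K (fun x => Real.exp (ψ' x)) := kpsh_of_wk K hψ'
  have h1 := hU1 _ hF (fun x => Real.exp_le_one_iff.2 (h0 x)) ⟨x₀, by rw [hx₀, Real.exp_zero]⟩
  have hcont := C11X.continuous K hψ'.c11
  have hce : Continuous (fun x => Real.exp (-ε * ψ' x)) :=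
    Real.continuous_exp.comp (continuous_const.mul hcont)
  have h2 : ∫ x, Real.exp (-ε * ψ' x) ∂μ ≤ C := by
    rw [integral_eq_lintegral_of_nonneg_ae (Filter.Eventually.of_forall fun x => (Real.exp_pos _).le)
      hce.aestronglyMeasurable]
    refine ENNReal.toReal_le_of_le_ofReal hC.le ?_
    refine le_trans (le_of_eq ?_) h1
    refine lintegral_congr fun x => ?_
    rw [ENNReal.ofReal_rpow_of_pos (Real.exp_pos _), ← Real.exp_mul, mul_comm]
  obtain ⟨A, hA0, hA⟩ := XEn_bdd K hψ'.c11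
  have hexp_int : Integrable (fun x => Real.exp (-ε * ψ' x)) μ := by
    refine Integrable.of_bound hce.aestronglyMeasurable
      (Real.exp (ε * A)) (Filter.Eventually.of_forall fun x => ?_)
    rw [Real.norm_eq_abs, abs_of_pos (Real.exp_pos _)]
    apply Real.exp_le_exp.2
    have h3 := (abs_le.1 (hA x)).1
    nlinarith
  have h3 : ∫ x, -ψ' x ∂μ ≤ ∫ x, Real.exp (-ε * ψ' x) / ε ∂μ := by
    refine integral_mono (JFun_int K hψ'.c11).neg (hexp_int.div_const ε) fun x => ?_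
    show -ψ' x ≤ Real.exp (-ε * ψ' x) / ε
    rw [le_div_iff₀ hε]
    have := Real.add_one_le_exp (-ε * ψ' x)
    linarith
  rw [integral_neg, integral_div] at h3
  have h4 : (∫ x, Real.exp (-ε * ψ' x) ∂μ) / ε ≤ C / ε := by gcongr
  have hV : 0 ≤ K.vol.real univ := measureReal_nonneg
  have h5 : K.vol.real univ * -(∫ x, ψ' x ∂μ) ≤ K.vol.real univ * (C / ε) :=
    mul_le_mul_of_nonneg_left (h3.trans h4) hV
  unfold KM.J
  linarith

theorem KM.exists_amax [ConnectedSpace X] (hn : 1 ≤ n) (hμ : KModerate K μ) {δ : ℝ}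
    (hδ : 0 < δ) : ∃ ψ : X → ℝ, Amax K μ δ ψ ∧ (∀ x, ψ x ≤ 0) ∧ ∃ x, ψ x = 0 := by
  obtain ⟨S, hS⟩ := K.J_bdd hn hμ
  set T : Set ℝ := {t | ∃ ψ : X → ℝ, WK K ψ ∧ K.J μ ψ = t} with hT
  have hne : T.Nonempty := ⟨_, _, wk_const K 0, rfl⟩
  have hbdd : BddAbove T := ⟨S, by rintro t ⟨ψ, hψ, rfl⟩; exact hS ψ hψ⟩
  obtain ⟨t, ⟨ψ, hψ, rfl⟩, ht⟩ := exists_lt_of_lt_csSup hne (show sSup T - δ < sSup T by linarith)
  obtain ⟨ψ', hψ', hJ, h0, x₀, hx₀⟩ := JFun_norm K (μ := μ) hψ
  refine ⟨ψ', ⟨hψ', fun χ hχ => ?_⟩, h0, x₀, hx₀⟩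
  rw [hJ]
  have := le_csSup hbdd ⟨χ, hχ, rfl⟩
  linarith

end HMA

end S_KW_JFun

section S_KW_BddMax

/-! # Module BddMax: bounded almost maximal functions -/

open MeasureTheory Metric Set Filter
open scoped ENNReal Topology ContDiff ComplexOrder

namespace HMA

variable {n : ℕ} {X : Type} [TopologicalSpace X] (K : KM n X)

variable [MeasurableSpace X] [BorelSpace X] [T2Space X] [CompactSpace X]

/-- integration of the exponential decay -/
theorem bddmax_tail {μ : Measure X} [IsProbabilityMeasure μ] {ψ : X → ℝ} (hc : Continuous ψ)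
    {C ε : ℝ} (hC : 0 < C) (hε : 0 < ε)
    (hd : ∀ t : ℝ, 0 ≤ t → μ.real {x | ψ x < -t} ≤ C * Real.exp (-ε * t)) {s : ℝ} (hs : 0 ≤ s) :
    ∫ x, max (0 - s - ψ x) 0 ∂μ ≤ C / ε * Real.exp (-ε * s) := by
  have hf : Continuous (fun x => max (0 - s - ψ x) 0) := by fun_prop
  have hint : Integrable (fun x => max (0 - s - ψ x) 0) μ := by
    obtain ⟨B, hB⟩ := (isCompact_univ (X := X)).exists_bound_of_continuousOn hf.continuousOn
    exact Integrable.of_bound hf.aestronglyMeasurable B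
      (Filter.Eventually.of_forall fun x => hB x (mem_univ _))
  rw [hint.integral_eq_integral_meas_lt (Filter.Eventually.of_forall fun x => le_max_right _ _)]
  have hg : IntegrableOn (fun t : ℝ => C * Real.exp (-ε * s) * Real.exp (-ε * t)) (Ioi 0) :=
    (integrableOn_exp_mul_Ioi (neg_lt_zero.2 hε) 0).const_mul _
  have h1 : ∫ t in Ioi (0 : ℝ), μ.real {a | t < max (0 - s - ψ a) 0} ≤
      ∫ t in Ioi (0 : ℝ), C * Real.exp (-ε * s) * Real.exp (-ε * t) := by
    refine integral_mono_of_nonneg (Filter.Eventually.of_forall fun t => measureReal_nonneg) hg ?_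
    filter_upwards [ae_restrict_mem measurableSet_Ioi] with t ht
    have ht0 : 0 < t := ht
    have e1 : {a | t < max (0 - s - ψ a) 0} ⊆ {x | ψ x < -(s + t)} := by
      intro x hx
      have hx' : t < max (0 - s - ψ x) 0 := hx
      rcases lt_max_iff.1 hx' with h | h
      · show ψ x < -(s + t)
        linarith
      · exact absurd h (not_lt.2 ht0.le)
    calc μ.real {a | t < max (0 - s - ψ a) 0} ≤ μ.real {x | ψ x < -(s + t)} :=
          measureReal_mono e1
      _ ≤ C * Real.exp (-ε * (s + t)) := hd _ (by linarith)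
      _ = C * Real.exp (-ε * s) * Real.exp (-ε * t) := by
          rw [mul_add, Real.exp_add, mul_assoc]
  refine h1.trans (le_of_eq ?_)
  rw [integral_const_mul, integral_exp_mul_Ioi (neg_lt_zero.2 hε)]
  rw [mul_zero, Real.exp_zero]
  field_simp

theorem bddmax_int {μ : Measure X} [IsProbabilityMeasure μ] {f : X → ℝ} (hf : Continuous f) :
    Integrable f μ := by
  obtain ⟨B, hB⟩ := (isCompact_univ (X := X)).exists_bound_of_continuousOn hf.continuousOn
  exact Integrable.of_bound hf.aestronglyMeasurable B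
    (Filter.Eventually.of_forall fun x => hB x (mem_univ _))

theorem KM.exists_bdd_max [ConnectedSpace X] (hn : 1 ≤ n) {μ : Measure X}
    [IsProbabilityMeasure μ] (hμ : KModerate K μ) : ∃ B₀ : ℝ, 0 < B₀ ∧ ∀ δ : ℝ, 0 < δ →
      ∃ ψ : X → ℝ, Amax K μ δ ψ ∧ ∀ x, |ψ x| ≤ B₀ := by
  have := K.vol_finite
  set V : ℝ := K.vol.real univ with hV
  have hVpos : 0 < V := ENNReal.toReal_pos K.vol_pos.ne' (measure_ne_top _ _)
  obtain ⟨ε, hε, hdec⟩ := K.exp_decay hn hμ
  obtain ⟨C, hC, hdec⟩ := hdec 1 one_pos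
  obtain ⟨c₀, C', hc₀, hC', hstab⟩ := K.stab_core hn hμ hC hε (le_refl (0 : ℝ))
  -- the starting level
  obtain ⟨s₀, hs₀, hs₀'⟩ : ∃ s₀ : ℝ, 0 ≤ s₀ ∧ V * (C / ε * Real.exp (-ε * s₀)) ≤ c₀ := by
    have h1 : Tendsto (fun s : ℝ => V * (C / ε * Real.exp (-ε * s))) atTop (𝓝 0) := by
      have h2 : Tendsto (fun s : ℝ => Real.exp (-ε * s)) atTop (𝓝 0) := by
        refine Real.tendsto_exp_atBot.comp ?_
        exact tendsto_id.const_mul_atTop_of_neg (neg_lt_zero.2 hε)
      have h3 := (h2.const_mul (C / ε)).const_mul V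
      simpa using h3
    obtain ⟨s, hs1, hs2⟩ := ((h1.eventually (ge_mem_nhds hc₀)).and (eventually_ge_atTop 0)).exists
    exact ⟨s, hs2, hs1⟩
  set γ : ℝ := (1 / (3 * (n + 1)) : ℝ) with hγ
  have hγ0 : 0 ≤ γ := by rw [hγ]; positivity
  set S : ℝ := s₀ + C' * c₀ ^ γ with hS
  have hS0 : 0 ≤ S := by rw [hS]; positivity
  refine ⟨S + 1, by linarith, fun δ hδ => ?_⟩
  set δ' : ℝ := min c₀ (δ / 4) with hδ'
  have hδ'pos : 0 < δ' := lt_min hc₀ (by linarith)
  set η : ℝ := min 1 (δ / (2 * V)) with hη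
  have hηpos : 0 < η := lt_min one_pos (by positivity)
  have hη1 : η ≤ 1 := min_le_left _ _
  have hVη : V * η ≤ δ / 2 := by
    calc V * η ≤ V * (δ / (2 * V)) := mul_le_mul_of_nonneg_left (min_le_right _ _) hVpos.le
      _ = δ / 2 := by field_simp
  obtain ⟨ψ, hψ, hψ0, hψ1⟩ := K.exists_amax hn hμ hδ'pos
  have hψc : Continuous ψ := C11X.continuous K hψ.wk.c11
  have hF1 : ∀ x, Real.exp (ψ x) ≤ 1 := fun x => Real.exp_le_one_iff.2 (hψ0 x)
  have hF2 : ∃ x, 1 ≤ Real.exp (ψ x) := by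
    obtain ⟨x, hx⟩ := hψ1
    exact ⟨x, by rw [hx, Real.exp_zero]⟩
  have hd : ∀ t : ℝ, 0 ≤ t → μ.real {x | ψ x < -t} ≤ C * Real.exp (-ε * t) := by
    intro t _
    refine (measureReal_mono ?_).trans (hdec _ (kpsh_of_wk K hψ.wk) hF1 hF2 t)
    intro x hx
    exact Real.exp_le_exp.2 (le_of_lt hx)
  have hpb : PB K ψ := PC.pb K (WK.pc K hψ.wk)
  -- values of `a`
  have ha0 : K.aI μ (fun _ => 0) ψ s₀ ≤ c₀ :=
    (mul_le_mul_of_nonneg_left (bddmax_tail hψc hC hε hd hs₀) hVpos.le).trans hs₀'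
  have hmax : max (K.aI μ (fun _ => 0) ψ s₀) δ' ≤ c₀ := max_le ha0 (min_le_left _ _)
  have hst := hstab δ' ψ hδ'pos.le hpb hd (K.key_ineq hψ) (fun _ => 0) (wk_const K 0)
    (fun x => ⟨le_refl 0, le_refl 0⟩) s₀ hs₀ hmax
  have hsS : s₀ + C' * (max (K.aI μ (fun _ => 0) ψ s₀) δ') ^ γ ≤ S := by
    have h1 : (max (K.aI μ (fun _ => 0) ψ s₀) δ') ^ γ ≤ c₀ ^ γ :=
      Real.rpow_le_rpow (hδ'pos.le.trans (le_max_right _ _)) hmax hγ0
    have h2 := mul_le_mul_of_nonneg_left h1 hC'.le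
    linarith
  have haS : V * ∫ x, max (-S - ψ x) 0 ∂μ ≤ δ' := by
    refine le_trans (mul_le_mul_of_nonneg_left ?_ hVpos.le) hst
    refine integral_mono (bddmax_int (by fun_prop)) (bddmax_int (by fun_prop)) fun x => ?_
    refine max_le_max ?_ le_rfl
    linarith
  -- the bounded function
  obtain ⟨θ, hθ, -, -, hθ1, hθ2, hθ3⟩ := exists_theta hηpos
  have hwk : WK K (fun x => ψ x + θ (-S - ψ x)) := WK.theta2 K hψ.wk (wk_const K (-S)) hθ hθ1 hθ2
  have hlow : ∀ x, ψ x ≤ ψ x + θ (-S - ψ x) := fun x => by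
    have := (hθ3 (-S - ψ x)).1
    have h2 := le_max_right (-S - ψ x) 0
    linarith
  refine ⟨fun x => ψ x + θ (-S - ψ x), ⟨hwk, fun χ hχ => ?_⟩, fun x => ?_⟩
  · have h1 := hψ.max χ hχ
    have h2 := K.E_mono' hψ.wk hwk hlow
    have h3 : ∫ x, (ψ x + θ (-S - ψ x)) ∂μ ≤ ∫ x, ψ x ∂μ + (∫ x, max (-S - ψ x) 0 ∂μ + η) := by
      have e1 : ∫ x, ψ x ∂μ + (∫ x, max (-S - ψ x) 0 ∂μ + η) =
          ∫ x, (ψ x + (max (-S - ψ x) 0 + η)) ∂μ := by
        have i1 : Integrable ψ μ := bddmax_int hψc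
        have i2 : Integrable (fun x => max (-S - ψ x) 0) μ := bddmax_int (by fun_prop)
        have i3 : Integrable (fun _ : X => η) μ := integrable_const _
        have e2 : ∫ x, (ψ x + (max (-S - ψ x) 0 + η)) ∂μ =
            ∫ x, ψ x ∂μ + ∫ x, (max (-S - ψ x) 0 + η) ∂μ := integral_add i1 (i2.add i3)
        have e3 : ∫ x, (max (-S - ψ x) 0 + η) ∂μ =
            ∫ x, max (-S - ψ x) 0 ∂μ + ∫ _ : X, η ∂μ := integral_add i2 i3
        rw [e2, e3]
        simp
      rw [e1]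
      have hθc : Continuous θ := hθ.continuous
      refine integral_mono (bddmax_int (by fun_prop)) (bddmax_int (by fun_prop)) fun x => ?_
      have := (hθ3 (-S - ψ x)).2
      show ψ x + θ (-S - ψ x) ≤ ψ x + (max (-S - ψ x) 0 + η)
      linarith
    have h4 := mul_le_mul_of_nonneg_left h3 hVpos.le
    have h5 : δ' ≤ δ / 4 := min_le_right _ _
    simp only [KM.J] at h1 ⊢
    rw [← hV] at h1 ⊢
    have h6 : V * (∫ x, ψ x ∂μ + (∫ x, max (-S - ψ x) 0 ∂μ + η)) =
        V * ∫ x, ψ x ∂μ + (V * ∫ x, max (-S - ψ x) 0 ∂μ + V * η) := by ring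
    rw [h6] at h4
    linarith
  · have h1 := hθ3 (-S - ψ x)
    have h2 := hψ0 x
    have h3 := le_max_left (-S - ψ x) 0
    rw [abs_le]
    constructor
    · linarith [h1.1]
    · have h4 : max (-S - ψ x) 0 ≤ -ψ x := max_le (by linarith) (by linarith)
      linarith [h1.2]

end HMA

end S_KW_BddMax

section S_KW_CpA

/-! # Module CpA: `L^1` modulus of mollification for bounded plurisubharmonic functions -/

open MeasureTheory Metric Set Filter
open scoped ENNReal Topology ContDiff ComplexOrder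

namespace HMA

/-- extension by zero -/
noncomputable def CpA_ext {n : ℕ} (u : Cn n → ℝ) : Cn n → ℝ :=
  (ball (0 : Cn n) (5 / 2)).indicator u

theorem CpA_meas {n : ℕ} {u : Cn n → ℝ} (hc : ContinuousOn u (ball 0 (5 / 2))) :
    Measurable (CpA_ext u) := by
  classical
  unfold CpA_ext
  rw [← Set.piecewise_eq_indicator]
  exact hc.measurable_piecewise continuousOn_const measurableSet_ball

theorem CpA_bdd {n : ℕ} {u : Cn n → ℝ} {M : ℝ} (hM : 0 ≤ M)
    (hb : ∀ z ∈ ball (0 : Cn n) (5 / 2), |u z| ≤ M) (z : Cn n) : ‖CpA_ext u z‖ ≤ M := by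
  unfold CpA_ext
  by_cases hz : z ∈ ball (0 : Cn n) (5 / 2)
  · rw [indicator_of_mem hz]
    exact hb z hz
  · rw [indicator_of_notMem hz, norm_zero]
    exact hM

/-- the submean inequality for the radial weight, at one point -/
theorem CpA_le {n : ℕ} {U : Cn n → ℝ} (hU : Measurable U) {M : ℝ} (hM : ∀ z, ‖U z‖ ≤ M)
    {s : ℝ} (hs : 0 < s) (a : Cn n)
    (h : ∀ b : Cn n, ‖b‖ < s → U a ≤ (2 * Real.pi)⁻¹ *
      ∫ θ in (0 : ℝ)..(2 * Real.pi), U (a + Complex.exp (θ * Complex.I) • b)) :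
    U a ≤ Smooth2_v U s a := by
  have hwi := Smooth2_w_integrable (n := n) hs
  have hw0 := Smooth2_w_nonneg (n := n) hs
  have hwm : Measurable (Smooth2_w (n := n) s) := (Smooth2_w_smooth s).continuous.measurable
  have hnorm : ∀ (θ : ℝ) (x : Cn n), ‖Complex.exp (θ * Complex.I) • x‖ = ‖x‖ := fun θ x => by
    rw [norm_smul, Complex.norm_exp_ofReal_mul_I, one_mul]
  have hwr : ∀ (θ : ℝ) (x : Cn n),
      Smooth2_w s (Complex.exp (θ * Complex.I) • x) = Smooth2_w s x := fun θ x =>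
    Smooth2_w_norm s (hnorm θ x)
  have hbound : ∀ x y : Cn n, ‖U x * Smooth2_w s y‖ ≤ M * Smooth2_w s y := by
    intro x y
    rw [norm_mul, Real.norm_of_nonneg (hw0 y)]
    exact mul_le_mul_of_nonneg_right (hM x) (hw0 y)
  set F : ℝ → Cn n → ℝ := fun θ x => U (a + Complex.exp (θ * Complex.I) • x) * Smooth2_w s x
    with hF
  have hFint : Integrable (Function.uncurry F)
      ((volume.restrict (Ioc 0 (2 * Real.pi))).prod volume) := by
    have h1 : Integrable (fun p : ℝ × Cn n => M * Smooth2_w s p.2)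
      ((volume.restrict (Ioc 0 (2 * Real.pi))).prod volume) := (hwi.const_mul M).comp_snd _
    refine h1.mono' ?_ (Filter.Eventually.of_forall fun p => hbound _ _)
    have hc : Continuous (fun p : ℝ × Cn n => a + Complex.exp (p.1 * Complex.I) • p.2) := by
      fun_prop
    exact ((hU.comp hc.measurable).mul (hwm.comp measurable_snd)).aestronglyMeasurable
  have hrot : ∀ θ : ℝ, ∫ x, F θ x = ∫ x, U (a + x) * Smooth2_w s x := by
    intro θ
    have h1 := (PshBall_mp (n := n) θ).integral_comp' (g := fun x => U (a + x) * Smooth2_w s x)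
      (f := (MeasurableEquiv.smul₀ (Complex.exp (θ * Complex.I)) (Complex.exp_ne_zero _)))
    rw [← h1]
    refine integral_congr_ae (Filter.Eventually.of_forall fun x => ?_)
    simp only [hF]
    change _ = U (a + Complex.exp (θ * Complex.I) • x) *
      Smooth2_w s (Complex.exp (θ * Complex.I) • x)
    rw [hwr]
  have hswap := integral_integral_swap (f := F) hFint
  have hpi : 0 < 2 * Real.pi := by positivity
  have h2 : ∫ x, U (a + x) * Smooth2_w s x =
      (2 * Real.pi)⁻¹ * ∫ x, ∫ θ in Ioc 0 (2 * Real.pi), F θ x := by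
    rw [← hswap]
    simp_rw [hrot]
    rw [integral_const]
    simp only [measureReal_restrict_apply_univ, Real.volume_real_Ioc, smul_eq_mul]
    rw [sub_zero, max_eq_left hpi.le, ← mul_assoc, inv_mul_cancel₀ hpi.ne', one_mul]
  have h3 : U a = ∫ x, U a * Smooth2_w (n := n) s x := by
    rw [integral_const_mul, Smooth2_w_int hs, mul_one]
  rw [h3]
  unfold Smooth2_v
  rw [h2, ← integral_const_mul]
  refine integral_mono (hwi.const_mul _) (hFint.integral_prod_right.const_mul _) (fun x => ?_)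
  by_cases hx : ‖x‖ < s
  · have h3 := h x hx
    rw [intervalIntegral.integral_of_le hpi.le] at h3
    have h4 : ∫ θ in Ioc 0 (2 * Real.pi), F θ x
        = (∫ θ in Ioc 0 (2 * Real.pi), U (a + Complex.exp (θ * Complex.I) • x)) *
          Smooth2_w s x := by
      rw [← integral_mul_const]
    simp only
    rw [h4, ← mul_assoc]
    exact mul_le_mul_of_nonneg_right h3 (hw0 x)
  · have hw : Smooth2_w s x = 0 := Smooth2_w_zero hs (le_of_not_gt hx)
    simp only [hF, hw, mul_zero, integral_zero, le_refl]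

/-- the mean of `χ (v - u)` -/
theorem CpA_pair {n : ℕ} {U χ : Cn n → ℝ} (hU : Measurable U) {M : ℝ} (hM : ∀ z, ‖U z‖ ≤ M)
    (hU0 : ∀ z, z ∉ ball (0 : Cn n) (5 / 2) → U z = 0)
    (hχ : Continuous χ) (hχc : HasCompactSupport χ) {B : ℝ} (hB0 : 0 ≤ B)
    (hB : ∀ x y, |χ x - χ y| ≤ B * ‖x - y‖) {s : ℝ} (hs : 0 < s) :
    Integrable (fun z => χ z * Smooth2_v U s z) ∧ Integrable (fun z => χ z * U z) ∧
    ∫ z, (χ z * Smooth2_v U s z - χ z * U z) ≤ B * s * (M * volume.real (ball (0 : Cn n) (5 / 2))) := by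
  have hwi := Smooth2_w_integrable (n := n) hs
  have hw0 := Smooth2_w_nonneg (n := n) hs
  have hwm : Measurable (Smooth2_w (n := n) s) := (Smooth2_w_smooth s).continuous.measurable
  have hM0 : 0 ≤ M := (norm_nonneg _).trans (hM 0)
  have hχi : Integrable χ volume := hχ.integrable_of_hasCompactSupport hχc
  have hχU : Integrable (fun z => χ z * U z) volume := by
    refine (hχi.norm.mul_const M).mono' (hχ.aestronglyMeasurable.mul hU.aestronglyMeasurable)
      (Filter.Eventually.of_forall fun z => ?_)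
    rw [norm_mul]
    exact mul_le_mul_of_nonneg_left (hM z) (norm_nonneg _)
  -- the product function
  set F : Cn n → Cn n → ℝ := fun z t => χ z * (U (z + t) * Smooth2_w s t) with hF
  have hFint : Integrable (Function.uncurry F) ((volume : Measure (Cn n)).prod volume) := by
    have h1 : Integrable (fun p : Cn n × Cn n => ‖χ p.1‖ * (M * Smooth2_w s p.2))
        ((volume : Measure (Cn n)).prod volume) := hχi.norm.mul_prod (hwi.const_mul M)
    refine h1.mono' ?_ (Filter.Eventually.of_forall fun p => ?_)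
    · exact ((hχ.measurable.comp measurable_fst).mul
        ((hU.comp (measurable_fst.add measurable_snd)).mul
          (hwm.comp measurable_snd))).aestronglyMeasurable
    · change ‖χ p.1 * (U (p.1 + p.2) * Smooth2_w s p.2)‖ ≤ _
      rw [norm_mul, norm_mul, Real.norm_of_nonneg (hw0 p.2)]
      refine mul_le_mul_of_nonneg_left ?_ (norm_nonneg _)
      exact mul_le_mul_of_nonneg_right (hM _) (hw0 _)
  have e1 : (fun z => χ z * Smooth2_v U s z) = fun z => ∫ t, F z t := by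
    funext z
    unfold Smooth2_v
    rw [← integral_const_mul]
  have hi1 : Integrable (fun z => χ z * Smooth2_v U s z) volume := by
    rw [e1]
    exact hFint.integral_prod_left
  refine ⟨hi1, hχU, ?_⟩
  rw [integral_sub hi1 hχU, e1, integral_integral_swap hFint]
  -- the inner integral
  have e2 : ∀ t : Cn n, ∫ z, F z t = (∫ y, χ (y - t) * U y) * Smooth2_w s t := by
    intro t
    have h1 := integral_add_right_eq_self (μ := (volume : Measure (Cn n)))
      (fun y => χ (y - t) * U y) t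
    simp only [add_sub_cancel_right] at h1
    rw [← h1, ← integral_mul_const]
    refine integral_congr_ae (Filter.Eventually.of_forall fun z => ?_)
    simp only [hF]
    ring
  have e3 : ∫ z, χ z * U z = ∫ t, (∫ y, χ y * U y) * Smooth2_w (n := n) s t := by
    rw [integral_const_mul, Smooth2_w_int hs, mul_one]
  have hit : Integrable (fun t : Cn n => (∫ y, χ (y - t) * U y) * Smooth2_w s t) volume := by
    have := hFint.integral_prod_right
    refine this.congr (Filter.Eventually.of_forall fun t => ?_)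
    exact e2 t
  simp_rw [e2]
  rw [e3, ← integral_sub hit (hwi.const_mul _)]
  have hχt : ∀ t : Cn n, Integrable (fun y => χ (y - t) * U y) volume := by
    intro t
    have h1 : Integrable (fun y => χ (y - t)) volume := hχi.comp_sub_right t
    refine (h1.norm.mul_const M).mono' (h1.aestronglyMeasurable.mul hU.aestronglyMeasurable)
      (Filter.Eventually.of_forall fun z => ?_)
    rw [norm_mul]
    exact mul_le_mul_of_nonneg_left (hM z) (norm_nonneg _)
  have hpt : ∀ t : Cn n, (∫ y, χ (y - t) * U y) * Smooth2_w s t -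
      (∫ y, χ y * U y) * Smooth2_w s t ≤
      (B * s * (M * volume.real (ball (0 : Cn n) (5 / 2)))) * Smooth2_w s t := by
    intro t
    by_cases ht : ‖t‖ < s
    · rw [← sub_mul, ← integral_sub (hχt t) hχU]
      refine mul_le_mul_of_nonneg_right ?_ (hw0 t)
      have h1 : ∀ y, ‖χ (y - t) * U y - χ y * U y‖ ≤
          (ball (0 : Cn n) (5 / 2)).indicator (fun _ => B * s * M) y := by
        intro y
        by_cases hy : y ∈ ball (0 : Cn n) (5 / 2)
        · rw [indicator_of_mem hy, ← sub_mul, norm_mul]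
          have h2 := hB (y - t) y
          rw [sub_sub_cancel_left, norm_neg] at h2
          have h3 : B * ‖t‖ ≤ B * s := mul_le_mul_of_nonneg_left ht.le hB0
          exact mul_le_mul (h2.trans h3) (hM y) (norm_nonneg _) (mul_nonneg hB0 hs.le)
        · rw [indicator_of_notMem hy, hU0 y hy]
          simp
      have hbi : Integrable ((ball (0 : Cn n) (5 / 2)).indicator (fun _ => B * s * M)) volume :=
        (integrable_indicator_iff measurableSet_ball).2
          (integrableOn_const (measure_ball_lt_top).ne)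
      have h2 := norm_integral_le_of_norm_le hbi (Filter.Eventually.of_forall h1)
      rw [integral_indicator measurableSet_ball, setIntegral_const, smul_eq_mul] at h2
      refine (le_abs_self _).trans (h2.trans (le_of_eq ?_))
      ring
    · rw [Smooth2_w_zero hs (le_of_not_gt ht)]
      simp
  have hfin := integral_mono (hit.sub (hwi.const_mul _)) (hwi.const_mul _) hpt
  rw [integral_const_mul, Smooth2_w_int hs, mul_one] at hfin
  exact hfin

theorem moll_L1 (n : ℕ) : ∃ β : ℕ → Cn n → ℝ, (∀ m, ContDiff ℝ ∞ (β m)) ∧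
    (∀ m, HasCompactSupport (β m)) ∧ ∀ M : ℝ, 0 ≤ M → ∃ C : ℝ, ∀ (m : ℕ) (u : Cn n → ℝ),
      ContinuousOn u (ball 0 (5 / 2)) → SubOn (ball 0 (5 / 2)) u →
      (∀ z ∈ ball (0 : Cn n) (5 / 2), |u z| ≤ M) →
      ∫ z in ball (0 : Cn n) (3 / 2), |u z - ∫ y in ball (0 : Cn n) (5 / 2), β m (z - y) * u y| ≤
        C / (m + 1) := by
  -- the cut off function
  obtain ⟨χ, hχs, hχc, hχ2, hχ1, hχ0⟩ : ∃ χ : Cn n → ℝ, ContDiff ℝ ∞ χ ∧ HasCompactSupport χ ∧
      (∀ z, 2 ≤ ‖z‖ → χ z = 0) ∧ (∀ z, ‖z‖ ≤ 3 / 2 → χ z = 1) ∧ ∀ z, 0 ≤ χ z := by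
    refine ⟨fun z => Real.smoothTransition (4 - ‖z‖ ^ 2), ?_, ?_, ?_, ?_, ?_⟩
    · exact Real.smoothTransition.contDiff.comp (contDiff_const.sub (contDiff_norm_sq ℂ))
    · refine HasCompactSupport.intro (isCompact_closedBall (0 : Cn n) 2) fun z hz => ?_
      rw [mem_closedBall_zero_iff, not_le] at hz
      exact Real.smoothTransition.zero_of_nonpos (by nlinarith)
    · intro z hz
      exact Real.smoothTransition.zero_of_nonpos (by nlinarith)
    · intro z hz
      exact Real.smoothTransition.one_of_one_le (by nlinarith [norm_nonneg z])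
    · intro z
      exact Real.smoothTransition.nonneg _
  obtain ⟨B, hB0, hB⟩ : ∃ B : ℝ, 0 ≤ B ∧ ∀ x y, |χ x - χ y| ≤ B * ‖x - y‖ := by
    have h1 : ContDiff ℝ 1 χ := hχs.of_le (by norm_cast)
    obtain ⟨B, hB⟩ := hχc.fderiv ℝ |>.exists_bound_of_continuous
      (h1.continuous_fderiv (by norm_num))
    refine ⟨B, (norm_nonneg _).trans (hB 0), fun x y => ?_⟩
    have := Convex.norm_image_sub_le_of_norm_fderiv_le (𝕜 := ℝ) (f := χ) (s := univ) (x := y)
      (y := x) (fun z _ => (h1.differentiable (by norm_num)) z) (fun z _ => hB z) convex_univ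
      (mem_univ _) (mem_univ _)
    exact this
  refine ⟨fun m => Smooth2_w (1 / ((m : ℝ) + 2)), fun m => Smooth2_w_smooth _,
    fun m => Smooth2_w_supp (by positivity), fun M hM0 => ?_⟩
  refine ⟨B * (M * volume.real (ball (0 : Cn n) (5 / 2))), fun m u hc hsub hb => ?_⟩
  set s : ℝ := 1 / ((m : ℝ) + 2) with hs
  have hs0 : 0 < s := by positivity
  have hs2 : s ≤ 1 / 2 := by
    rw [hs]
    apply one_div_le_one_div_of_le (by norm_num)
    have : (0 : ℝ) ≤ m := Nat.cast_nonneg m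
    linarith
  have hsm : s ≤ 1 / ((m : ℝ) + 1) := by
    rw [hs]
    apply one_div_le_one_div_of_le (by positivity)
    linarith
  have hUm := CpA_meas hc
  have hUb := CpA_bdd hM0 hb
  have hU1 : ∀ z ∈ ball (0 : Cn n) (5 / 2), CpA_ext u z = u z := fun z hz =>
    indicator_of_mem hz _
  have hU0 : ∀ z, z ∉ ball (0 : Cn n) (5 / 2) → CpA_ext u z = 0 := fun z hz =>
    indicator_of_notMem hz _
  have hv : ∀ z, ∫ y in ball (0 : Cn n) (5 / 2), Smooth2_w s (z - y) * u y =
      Smooth2_v (CpA_ext u) s z := by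
    intro z
    rw [Smooth2_v_eq, ← integral_indicator measurableSet_ball]
    refine integral_congr_ae (Filter.Eventually.of_forall fun y => ?_)
    simp only
    by_cases hy : y ∈ ball (0 : Cn n) (5 / 2)
    · rw [indicator_of_mem hy, hU1 y hy, mul_comm]
    · rw [indicator_of_notMem hy, hU0 y hy, zero_mul]
  have hle : ∀ z : Cn n, ‖z‖ < 2 → CpA_ext u z ≤ Smooth2_v (CpA_ext u) s z := by
    intro z hz
    refine CpA_le hUm hUb hs0 z fun b hb' => ?_
    have hdisc : ∀ ζ : ℂ, ‖ζ‖ ≤ 1 → z + ζ • b ∈ ball (0 : Cn n) (5 / 2) := by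
      intro ζ hζ
      rw [mem_ball_zero_iff]
      have h1 := norm_add_le z (ζ • b)
      have h2 : ‖ζ • b‖ ≤ 1 * ‖b‖ := by
        rw [norm_smul]
        exact mul_le_mul_of_nonneg_right hζ (norm_nonneg b)
      linarith
    have h1 := hsub z b hdisc
    have hz' : z ∈ ball (0 : Cn n) (5 / 2) := by simpa using hdisc 0 (by simp)
    rw [hU1 z hz']
    refine h1.trans (le_of_eq ?_)
    congr 1
    refine intervalIntegral.integral_congr fun θ _ => ?_
    exact (hU1 _ (hdisc _ (by rw [Complex.norm_exp_ofReal_mul_I]))).symm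
  obtain ⟨hi1, hi2, hi3⟩ := CpA_pair hUm hUb hU0 hχs.continuous hχc hB0 hB hs0
  have e1 : ∫ z in ball (0 : Cn n) (3 / 2), |u z - ∫ y in ball (0 : Cn n) (5 / 2),
      Smooth2_w s (z - y) * u y| =
      ∫ z in ball (0 : Cn n) (3 / 2),
        (χ z * Smooth2_v (CpA_ext u) s z - χ z * CpA_ext u z) := by
    refine setIntegral_congr_fun measurableSet_ball fun z hz => ?_
    rw [mem_ball_zero_iff] at hz
    have hz' : z ∈ ball (0 : Cn n) (5 / 2) := by
      rw [mem_ball_zero_iff]; linarith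
    have h1 := hle z (by linarith)
    rw [hv z, hχ1 z hz.le, one_mul, one_mul, ← hU1 z hz', abs_sub_comm,
      abs_of_nonneg (sub_nonneg.2 h1)]
  have e2 : ∫ z in ball (0 : Cn n) (3 / 2),
        (χ z * Smooth2_v (CpA_ext u) s z - χ z * CpA_ext u z) ≤
      ∫ z, (χ z * Smooth2_v (CpA_ext u) s z - χ z * CpA_ext u z) := by
    refine setIntegral_le_integral (hi1.sub hi2) (Filter.Eventually.of_forall fun z => ?_)
    change 0 ≤ χ z * Smooth2_v (CpA_ext u) s z - χ z * CpA_ext u z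
    by_cases hz : ‖z‖ < 2
    · rw [← mul_sub]
      exact mul_nonneg (hχ0 z) (sub_nonneg.2 (hle z hz))
    · rw [hχ2 z (le_of_not_gt hz)]
      simp
  have hV : 0 ≤ M * volume.real (ball (0 : Cn n) (5 / 2)) := mul_nonneg hM0 measureReal_nonneg
  calc _ = _ := e1
    _ ≤ _ := e2
    _ ≤ _ := hi3
    _ ≤ B * (1 / ((m : ℝ) + 1)) * (M * volume.real (ball (0 : Cn n) (5 / 2))) :=
        mul_le_mul_of_nonneg_right (mul_le_mul_of_nonneg_left hsm hB0) hV
    _ = B * (M * volume.real (ball (0 : Cn n) (5 / 2))) / ((m : ℝ) + 1) := by ring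

end HMA

end S_KW_CpA

section S_KW_CpB

/-! # Module CpB: compactness in `L^1` -/

open MeasureTheory Metric Set Filter
open scoped ENNReal Topology ContDiff ComplexOrder

namespace HMA

/-- convolution on the ball -/
noncomputable def CpB_T {n : ℕ} (β u : Cn n → ℝ) (z : Cn n) : ℝ :=
  ∫ y in ball (0 : Cn n) (5 / 2), β (z - y) * u y

theorem CpB_int {n : ℕ} {M : ℝ} {u : Cn n → ℝ} (hc : ContinuousOn u (ball 0 (5 / 2)))
    (hM : ∀ z ∈ ball (0 : Cn n) (5 / 2), |u z| ≤ M) :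
    IntegrableOn u (ball (0 : Cn n) (5 / 2)) := by
  have : IsFiniteMeasure (volume.restrict (ball (0 : Cn n) (5 / 2))) :=
    isFiniteMeasure_restrict.2 measure_ball_lt_top.ne
  refine Integrable.of_bound (hc.aestronglyMeasurable isOpen_ball.measurableSet) M ?_
  filter_upwards [ae_restrict_mem isOpen_ball.measurableSet] with z hz
  exact hM z hz

theorem CpB_intT {n : ℕ} {M : ℝ} {β u : Cn n → ℝ} (hβ : Continuous β) (hs : HasCompactSupport β)
    (hc : ContinuousOn u (ball 0 (5 / 2))) (hM : ∀ z ∈ ball (0 : Cn n) (5 / 2), |u z| ≤ M)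
    (z : Cn n) : IntegrableOn (fun y => β (z - y) * u y) (ball (0 : Cn n) (5 / 2)) := by
  obtain ⟨B, hB⟩ := hs.exists_bound_of_continuous hβ
  have h1 : ContinuousOn (fun y => β (z - y) * u y) (ball 0 (5 / 2)) :=
    (hβ.comp (by fun_prop)).continuousOn.mul hc
  refine CpB_int (M := B * M) h1 (fun y hy => ?_)
  rw [abs_mul]
  have h2 := hB (z - y)
  rw [Real.norm_eq_abs] at h2
  exact mul_le_mul h2 (hM y hy) (abs_nonneg _) ((abs_nonneg _).trans h2)

theorem CpB_bound {n : ℕ} (β : Cn n → ℝ) (hβ : Continuous β) (hs : HasCompactSupport β)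
    (M : ℝ) : ∃ A : ℝ, ∀ u : Cn n → ℝ, (∀ z ∈ ball (0 : Cn n) (5 / 2), |u z| ≤ M) →
      ∀ z, |CpB_T β u z| ≤ A := by
  obtain ⟨B, hB⟩ := hs.exists_bound_of_continuous hβ
  refine ⟨B * M * volume.real (ball (0 : Cn n) (5 / 2)), fun u hu z => ?_⟩
  have h1 := norm_setIntegral_le_of_norm_le_const (μ := volume) (s := ball (0 : Cn n) (5 / 2))
    (f := fun y => β (z - y) * u y) (C := B * M) measure_ball_lt_top (fun y hy => by
      rw [norm_mul]
      have h2 := hB (z - y)
      exact mul_le_mul h2 (hu y hy) (norm_nonneg _) ((norm_nonneg _).trans h2))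
  rwa [Real.norm_eq_abs] at h1

theorem CpB_equi {n : ℕ} (β : Cn n → ℝ) (hβ : Continuous β) (hs : HasCompactSupport β)
    (M : ℝ) (ε : ℝ) (hε : 0 < ε) : ∃ δ > 0, ∀ u : Cn n → ℝ,
      ContinuousOn u (ball 0 (5 / 2)) → (∀ z ∈ ball (0 : Cn n) (5 / 2), |u z| ≤ M) →
      ∀ z z', dist z z' < δ → |CpB_T β u z - CpB_T β u z'| ≤ ε := by
  have hu := hs.uniformContinuous_of_continuous hβ
  rw [Metric.uniformContinuous_iff] at hu
  let V : ℝ := volume.real (ball (0 : Cn n) (5 / 2))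
  have hV : 0 ≤ V := measureReal_nonneg
  let c : ℝ := (|M| + 1) * (V + 1)
  have hc0 : 0 < c := by positivity
  obtain ⟨δ, hδ, h1⟩ := hu (ε / c) (by positivity)
  refine ⟨δ, hδ, fun u hc hM z z' hz => ?_⟩
  have h2 : CpB_T β u z - CpB_T β u z' =
      ∫ y in ball (0 : Cn n) (5 / 2), (β (z - y) - β (z' - y)) * u y := by
    unfold CpB_T
    rw [← integral_sub (CpB_intT hβ hs hc hM z) (CpB_intT hβ hs hc hM z')]
    refine integral_congr_ae (Eventually.of_forall fun y => ?_)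
    show β (z - y) * u y - β (z' - y) * u y = (β (z - y) - β (z' - y)) * u y
    ring
  rw [h2]
  have h3 := norm_setIntegral_le_of_norm_le_const (μ := volume) (s := ball (0 : Cn n) (5 / 2))
    (f := fun y => (β (z - y) - β (z' - y)) * u y) (C := ε / c * (|M| + 1)) measure_ball_lt_top
    (fun y hy => by
      rw [norm_mul]
      have h4 : dist (z - y) (z' - y) < δ := by rwa [dist_sub_right]
      have h5 := (h1 h4).le
      rw [Real.dist_eq] at h5
      have h6 : |u y| ≤ |M| + 1 := (hM y hy).trans ((le_abs_self M).trans (by linarith))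
      exact mul_le_mul h5 h6 (norm_nonneg _) (by positivity))
  rw [Real.norm_eq_abs] at h3
  refine h3.trans ?_
  have h7 : ε / c * (|M| + 1) * V ≤ ε / c * (|M| + 1) * (V + 1) :=
    mul_le_mul_of_nonneg_left (by linarith) (by positivity)
  refine h7.trans (le_of_eq ?_)
  rw [mul_assoc]
  exact div_mul_cancel₀ ε hc0.ne'

theorem CpB_contT {n : ℕ} {M : ℝ} {β u : Cn n → ℝ} (hβ : Continuous β) (hs : HasCompactSupport β)
    (hc : ContinuousOn u (ball 0 (5 / 2))) (hM : ∀ z ∈ ball (0 : Cn n) (5 / 2), |u z| ≤ M) :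
    Continuous (CpB_T β u) := by
  rw [Metric.continuous_iff]
  intro z ε hε
  obtain ⟨δ, hδ, h⟩ := CpB_equi β hβ hs M (ε / 2) (by positivity)
  refine ⟨δ, hδ, fun w hw => ?_⟩
  rw [Real.dist_eq]
  exact (h u hc hM w z hw).trans_lt (by linarith)

/-- pointwise convergence of the convolutions along a subsequence -/
theorem CpB_diag {n N : ℕ} {M : ℝ} (β : ℕ → Cn n → ℝ) (hβ : ∀ m, Continuous (β m))
    (hs : ∀ m, HasCompactSupport (β m)) (u : ℕ → Fin N → Cn n → ℝ)
    (hc : ∀ k i, ContinuousOn (u k i) (ball 0 (5 / 2)))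
    (hM : ∀ k i, ∀ z ∈ ball (0 : Cn n) (5 / 2), |u k i z| ≤ M) :
    ∃ φ : ℕ → ℕ, StrictMono φ ∧ ∀ m i z, ∃ l : ℝ,
      Tendsto (fun k => CpB_T (β m) (u (φ k) i) z) atTop (𝓝 l) := by
  choose A hA using fun m => CpB_bound (β m) (hβ m) (hs m) M
  let x : ℕ → (ℕ × Fin N × ℕ → ℝ) := fun k p =>
    CpB_T (β p.1) (u k p.2.1) (TopologicalSpace.denseSeq (Cn n) p.2.2)
  have hK : IsCompact (Set.pi univ (fun p : ℕ × Fin N × ℕ => Icc (-A p.1) (A p.1))) :=
    isCompact_univ_pi (fun _ => isCompact_Icc)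
  have hx : ∀ k, x k ∈ Set.pi univ (fun p : ℕ × Fin N × ℕ => Icc (-A p.1) (A p.1)) := by
    intro k p _
    exact abs_le.1 (hA p.1 (u k p.2.1) (hM k p.2.1) _)
  obtain ⟨a, -, φ, hφ, hlim⟩ := hK.tendsto_subseq hx
  refine ⟨φ, hφ, fun m i z => ?_⟩
  refine cauchySeq_tendsto_of_complete ?_
  rw [Metric.cauchySeq_iff']
  intro ε hε
  obtain ⟨δ, hδ, hδ'⟩ := CpB_equi (β m) (hβ m) (hs m) M (ε / 4) (by positivity)
  obtain ⟨q, hq⟩ := (TopologicalSpace.denseRange_denseSeq (Cn n)).exists_dist_lt z hδ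
  have h1 : Tendsto (fun k => x (φ k) (m, i, q)) atTop (𝓝 (a (m, i, q))) :=
    (tendsto_pi_nhds.1 hlim) (m, i, q)
  have h2 := h1.cauchySeq
  rw [Metric.cauchySeq_iff'] at h2
  obtain ⟨K, hK'⟩ := h2 (ε / 4) (by positivity)
  refine ⟨K, fun k hk => ?_⟩
  have h3 := hK' k hk
  have h4 := hδ' (u (φ k) i) (hc _ _) (hM _ _) _ _ hq
  have h5 := hδ' (u (φ K) i) (hc _ _) (hM _ _) _ _ hq
  rw [Real.dist_eq] at h3 ⊢
  have h6 : |CpB_T (β m) (u (φ k) i) (TopologicalSpace.denseSeq (Cn n) q) -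
      CpB_T (β m) (u (φ K) i) (TopologicalSpace.denseSeq (Cn n) q)| < ε / 4 := h3
  rw [abs_le] at h4 h5
  rw [abs_lt] at h6 ⊢
  constructor <;> linarith [h4.1, h4.2, h5.1, h5.2, h6.1, h6.2]

theorem compact_L1 {n N : ℕ} {M : ℝ} (u : ℕ → Fin N → Cn n → ℝ)
    (hc : ∀ k i, ContinuousOn (u k i) (ball 0 (5 / 2)))
    (hs : ∀ k i, SubOn (ball 0 (5 / 2)) (u k i))
    (hM : ∀ k i, ∀ z ∈ ball (0 : Cn n) (5 / 2), |u k i z| ≤ M) :
    ∃ φ : ℕ → ℕ, StrictMono φ ∧ ∀ i k,
      ∫ z in ball (0 : Cn n) (3 / 2), |u (φ (k + 1)) i z - u (φ k) i z| ≤ (1 / 2) ^ k := by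
  obtain ⟨β, hβ1, hβ2, hβ3⟩ := moll_L1 n
  obtain ⟨C, hC⟩ := hβ3 |M| (abs_nonneg M)
  have hβc : ∀ m, Continuous (β m) := fun m => (hβ1 m).continuous
  obtain ⟨φ, hφ, hlim⟩ := CpB_diag β hβc hβ2 u hc hM
  choose g hg using hlim
  have hsub : ball (0 : Cn n) (3 / 2) ⊆ ball 0 (5 / 2) := ball_subset_ball (by norm_num)
  have hui : ∀ k i, IntegrableOn (u k i) (ball (0 : Cn n) (3 / 2)) := fun k i =>
    (CpB_int (hc k i) (hM k i)).mono_set hsub
  have hTc : ∀ m k i, Continuous (CpB_T (β m) (u k i)) := fun m k i =>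
    CpB_contT (hβc m) (hβ2 m) (hc k i) (hM k i)
  have hTi : ∀ m k i, IntegrableOn (CpB_T (β m) (u k i)) (ball (0 : Cn n) (3 / 2)) :=
    fun m k i => ((hTc m k i).continuousOn.integrableOn_compact
      (isCompact_closedBall _ _)).mono_set ball_subset_closedBall
  have hfin : IsFiniteMeasure (volume.restrict (ball (0 : Cn n) (3 / 2))) :=
    isFiniteMeasure_restrict.2 measure_ball_lt_top.ne
  -- dominated convergence
  have hdom : ∀ m i, Tendsto (fun k => ∫ z in ball (0 : Cn n) (3 / 2),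
      |CpB_T (β m) (u (φ k) i) z - g m i z|) atTop (𝓝 0) ∧
      IntegrableOn (g m i) (ball (0 : Cn n) (3 / 2)) := by
    intro m i
    obtain ⟨A, hA⟩ := CpB_bound (β m) (hβc m) (hβ2 m) M
    have hgA : ∀ z, |g m i z| ≤ A := fun z =>
      le_of_tendsto (hg m i z).abs (Eventually.of_forall fun k => hA _ (hM _ _) z)
    have hgm : AEStronglyMeasurable (g m i) (volume.restrict (ball (0 : Cn n) (3 / 2))) :=
      aestronglyMeasurable_of_tendsto_ae atTop
        (fun k => (hTc m (φ k) i).aestronglyMeasurable) (Eventually.of_forall fun z => hg m i z)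
    refine ⟨?_, Integrable.of_bound hgm A (Eventually.of_forall hgA)⟩
    have h1 := tendsto_integral_of_dominated_convergence
      (μ := volume.restrict (ball (0 : Cn n) (3 / 2)))
      (F := fun k z => |CpB_T (β m) (u (φ k) i) z - g m i z|) (f := fun _ => (0 : ℝ))
      (fun _ => 2 * A) (fun k => ((hTc m (φ k) i).aestronglyMeasurable.sub hgm).norm)
      (integrable_const _) (fun k => Eventually.of_forall fun z => by
        rw [Real.norm_eq_abs, abs_abs]
        have h2 := abs_sub (CpB_T (β m) (u (φ k) i) z) (g m i z)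
        have h3 := hA _ (hM (φ k) i) z
        have h4 := hgA z
        linarith)
      (Eventually.of_forall fun z => by
        have h2 := ((hg m i z).sub_const (g m i z)).abs
        rwa [sub_self, abs_zero] at h2)
    rwa [integral_zero] at h1
  -- triangle inequality for the integrals
  have htri : ∀ a b c : Cn n → ℝ, IntegrableOn a (ball (0 : Cn n) (3 / 2)) →
      IntegrableOn b (ball (0 : Cn n) (3 / 2)) → IntegrableOn c (ball (0 : Cn n) (3 / 2)) →
      ∫ z in ball (0 : Cn n) (3 / 2), |a z - c z| ≤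
        (∫ z in ball (0 : Cn n) (3 / 2), |a z - b z|) +
          ∫ z in ball (0 : Cn n) (3 / 2), |b z - c z| := by
    intro a b c ha hb hc'
    have e1 : Integrable (fun z => |a z - b z|) (volume.restrict (ball (0 : Cn n) (3 / 2))) :=
      (ha.sub hb).norm
    have e2 : Integrable (fun z => |b z - c z|) (volume.restrict (ball (0 : Cn n) (3 / 2))) :=
      (hb.sub hc').norm
    have e3 : Integrable (fun z => |a z - c z|) (volume.restrict (ball (0 : Cn n) (3 / 2))) :=
      (ha.sub hc').norm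
    rw [← integral_add e1 e2]
    exact integral_mono e3 (e1.add e2) (fun z => abs_sub_le (a z) (b z) (c z))
  have hsymm : ∀ a b : Cn n → ℝ, ∫ z in ball (0 : Cn n) (3 / 2), |a z - b z| =
      ∫ z in ball (0 : Cn n) (3 / 2), |b z - a z| := by
    intro a b
    congr 1
    funext z
    exact abs_sub_comm _ _
  -- Cauchy in mean
  have hcau : ∀ ε : ℝ, 0 < ε → ∃ K, ∀ k, K ≤ k → ∀ l, K ≤ l → ∀ i,
      ∫ z in ball (0 : Cn n) (3 / 2), |u (φ k) i z - u (φ l) i z| ≤ ε := by
    intro ε hε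
    obtain ⟨m, hm⟩ := exists_nat_gt (|C| / (ε / 4))
    have hCm : C / (m + 1) ≤ ε / 4 := by
      rw [div_le_iff₀ (by positivity)]
      rw [div_lt_iff₀ (by positivity)] at hm
      have := le_abs_self C
      nlinarith
    have h1 : ∀ᶠ k in atTop, ∀ i, ∫ z in ball (0 : Cn n) (3 / 2),
        |CpB_T (β m) (u (φ k) i) z - g m i z| < ε / 4 := by
      rw [eventually_all]
      intro i
      exact (hdom m i).1.eventually (gt_mem_nhds (by positivity))
    obtain ⟨K, hK⟩ := eventually_atTop.1 h1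
    refine ⟨K, fun k hk l hl i => ?_⟩
    have e1 : ∀ k, ∫ z in ball (0 : Cn n) (3 / 2),
        |u (φ k) i z - CpB_T (β m) (u (φ k) i) z| ≤ ε / 4 := fun k =>
      (hC m (u (φ k) i) (hc _ _) (hs _ _)
        (fun z hz => (hM _ _ z hz).trans (le_abs_self M))).trans hCm
    have e2 : ∀ k, K ≤ k → ∫ z in ball (0 : Cn n) (3 / 2),
        |u (φ k) i z - g m i z| ≤ ε / 4 + ε / 4 := fun k hk =>
      (htri _ (CpB_T (β m) (u (φ k) i)) _ (hui _ _) (hTi _ _ _) (hdom m i).2).trans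
        (add_le_add (e1 k) (hK k hk i).le)
    have e3 := htri (u (φ k) i) (g m i) (u (φ l) i) (hui _ _) (hdom m i).2 (hui _ _)
    rw [hsymm (g m i)] at e3
    linarith [e2 k hk, e2 l hl]
  obtain ⟨ψ, hψ, hψ'⟩ := extraction_forall_of_eventually
    (P := fun k a => ∀ b, a ≤ b → ∀ i, ∫ z in ball (0 : Cn n) (3 / 2),
      |u (φ b) i z - u (φ a) i z| ≤ (1 / 2 : ℝ) ^ k) (fun k => by
    obtain ⟨K, hK⟩ := hcau ((1 / 2 : ℝ) ^ k) (by positivity)
    filter_upwards [eventually_ge_atTop K] with a ha b hb i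
    exact hK b (ha.trans hb) a ha i)
  exact ⟨φ ∘ ψ, hφ.comp hψ, fun i k => hψ' k (ψ (k + 1)) (hψ (Nat.lt_succ_self k)).le i⟩

end HMA

end S_KW_CpB

section S_KW_CpC

/-! # Module CpC: upper semicontinuous regularisation of suprema -/

open MeasureTheory Metric Set Filter
open scoped ENNReal Topology ContDiff ComplexOrder

namespace HMA

/-- the sub-mean value inequality on closed balls -/
theorem CpC_ball {n : ℕ} {u : Cn n → ℝ} {y : Cn n} {r : ℝ}
    (hu : ContinuousOn u (closedBall y r))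
    (hs : ∀ b : Cn n, ‖b‖ ≤ r → u y ≤ (2 * Real.pi)⁻¹ *
      ∫ θ in (0 : ℝ)..(2 * Real.pi), u (y + Complex.exp (θ * Complex.I) • b)) :
    u y * volume.real (closedBall y r) ≤ ∫ x in closedBall y r, u x := by
  classical
  set W : Set (Cn n) := closedBall (0 : Cn n) r with hW
  have hadd : ∀ x ∈ W, y + x ∈ closedBall y r := by
    intro x hx
    rw [mem_closedBall, dist_eq_norm, add_sub_cancel_left]
    simpa [hW] using hx
  have hcW : ContinuousOn (fun x => u (y + x)) W :=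
    hu.comp (continuous_const.add continuous_id).continuousOn hadd
  set v : Cn n → ℝ := W.indicator (fun x => u (y + x)) with hv
  have hvm : Measurable v := by
    have h1 : Measurable (W.piecewise (fun x => u (y + x)) (fun _ => (0 : ℝ))) :=
      hcW.measurable_piecewise continuousOn_const measurableSet_closedBall
    have h2 : v = W.piecewise (fun x => u (y + x)) (fun _ => (0 : ℝ)) := by
      rw [hv]
      exact (piecewise_eq_indicator (f := fun x => u (y + x))).symm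
    rw [h2]
    exact h1
  obtain ⟨B, hB⟩ := (isCompact_closedBall y r).exists_bound_of_continuousOn hu
  have hvB : ∀ x z : Cn n, ‖x‖ = ‖z‖ → ‖v x‖ ≤ W.indicator (fun _ => B) z := by
    intro x z hxz
    by_cases hx : x ∈ W
    · have hz : z ∈ W := by simpa [hW, ← hxz] using hx
      rw [hv, indicator_of_mem hx, indicator_of_mem hz]
      exact hB _ (hadd x hx)
    · have hz : z ∉ W := by simpa [hW, ← hxz] using hx
      rw [hv, indicator_of_notMem hx, indicator_of_notMem hz, norm_zero]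
  have hBi : Integrable (W.indicator (fun _ => B)) (volume : Measure (Cn n)) :=
    (integrable_indicator_iff measurableSet_closedBall).2
      (integrableOn_const (measure_closedBall_lt_top).ne)
  set F : ℝ → Cn n → ℝ := fun θ x => v (Complex.exp (θ * Complex.I) • x) with hF
  have hnorm : ∀ (θ : ℝ) (x : Cn n), ‖Complex.exp (θ * Complex.I) • x‖ = ‖x‖ := fun θ x => by
    rw [norm_smul, Complex.norm_exp_ofReal_mul_I, one_mul]
  have hFint : Integrable (Function.uncurry F)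
      ((volume.restrict (Ioc 0 (2 * Real.pi))).prod volume) := by
    have h1 : Integrable (fun p : ℝ × Cn n => W.indicator (fun _ => B) p.2)
      ((volume.restrict (Ioc 0 (2 * Real.pi))).prod volume) := hBi.comp_snd _
    refine h1.mono' ?_ (Filter.Eventually.of_forall fun p => hvB _ _ (hnorm p.1 p.2))
    have hc : Continuous (fun p : ℝ × Cn n => Complex.exp (p.1 * Complex.I) • p.2) := by
      fun_prop
    exact (hvm.comp hc.measurable).aestronglyMeasurable
  have hrot : ∀ θ : ℝ, ∫ x, F θ x = ∫ x, v x := by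
    intro θ
    exact (PshBall_mp (n := n) θ).integral_comp' (g := v)
      (f := (MeasurableEquiv.smul₀ (Complex.exp (θ * Complex.I)) (Complex.exp_ne_zero _)))
  have hswap := integral_integral_swap (f := F) hFint
  have hpi : 0 < 2 * Real.pi := by positivity
  have h2 : ∫ x, v x = (2 * Real.pi)⁻¹ * ∫ x, ∫ θ in Ioc 0 (2 * Real.pi), F θ x := by
    rw [← hswap]
    simp_rw [hrot]
    rw [integral_const]
    simp only [measureReal_restrict_apply_univ, Real.volume_real_Ioc, smul_eq_mul]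
    rw [sub_zero, max_eq_left hpi.le, ← mul_assoc, inv_mul_cancel₀ hpi.ne', one_mul]
  have h3 : ∫ x, v x = ∫ x in closedBall y r, u x := by
    have hf : ∀ x, v x = (closedBall y r).indicator u (y + x) := by
      intro x
      by_cases hx : x ∈ W
      · rw [hv, indicator_of_mem hx, indicator_of_mem (hadd x hx)]
      · have hx' : y + x ∉ closedBall y r := by
          rw [mem_closedBall, dist_eq_norm, add_sub_cancel_left]; simpa [hW] using hx
        rw [hv, indicator_of_notMem hx, indicator_of_notMem hx']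
    simp_rw [hf]
    rw [integral_add_left_eq_self (fun x => (closedBall y r).indicator u x) y,
      integral_indicator measurableSet_closedBall]
  have h4 : volume.real (closedBall y r) = ∫ x : Cn n, W.indicator (fun _ => (1 : ℝ)) x := by
    rw [integral_indicator measurableSet_closedBall, setIntegral_const, smul_eq_mul, mul_one,
        measureReal_def, measureReal_def, Measure.addHaar_closedBall_center volume y]
  rw [← h3, h2, h4, ← integral_const_mul, ← integral_const_mul]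
  refine integral_mono ?_ (hFint.integral_prod_right.const_mul _) (fun x => ?_)
  · refine Integrable.const_mul ?_ _
    exact (integrable_indicator_iff measurableSet_closedBall).2
      (integrableOn_const (measure_closedBall_lt_top).ne)
  · simp only [hF]
    by_cases hx : x ∈ W
    · have h5 := hs x (by simpa [hW] using hx)
      rw [intervalIntegral.integral_of_le hpi.le] at h5
      rw [indicator_of_mem hx, mul_one]
      refine h5.trans (le_of_eq ?_)
      congr 1
      refine setIntegral_congr_fun measurableSet_Ioc fun θ _ => ?_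
      have h6 : Complex.exp (θ * Complex.I) • x ∈ W := by
        simpa [hW, hnorm] using hx
      rw [hv, indicator_of_mem h6]
    · have h6 : ∀ θ : ℝ, v (Complex.exp (θ * Complex.I) • x) = 0 := by
        intro θ
        rw [hv]
        refine indicator_of_notMem ?_ _
        simpa [hW, hnorm] using hx
      simp [h6, indicator_of_notMem hx]
/-- the upper semicontinuous regularisation -/
noncomputable def CpCG {X : Type} [TopologicalSpace X] (S : X → ℝ) (x : X) : ℝ :=
  sInf {y | ∀ᶠ w in 𝓝 x, S w < y}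

section CpCreg

variable {X : Type} [TopologicalSpace X] {S : X → ℝ} {B : ℝ}

theorem CpCG_bdd (x : X) : BddBelow {y | ∀ᶠ w in 𝓝 x, S w < y} :=
  ⟨S x, fun _ hy => (Filter.Eventually.self_of_nhds hy).le⟩

theorem CpCG_mem (hS : ∀ x, S x ≤ B) (x : X) {c : ℝ} (hc : B < c) :
    c ∈ {y | ∀ᶠ w in 𝓝 x, S w < y} :=
  Filter.Eventually.of_forall fun w => (hS w).trans_lt hc

theorem CpCG_le (hS : ∀ x, S x ≤ B) (x : X) : CpCG S x ≤ B :=
  le_of_forall_gt_imp_ge_of_dense fun _ hc => csInf_le (CpCG_bdd x) (CpCG_mem hS x hc)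

theorem CpCG_ge (hS : ∀ x, S x ≤ B) (x : X) : S x ≤ CpCG S x :=
  le_csInf ⟨B + 1, CpCG_mem hS x (by linarith)⟩
    fun _ hy => (Filter.Eventually.self_of_nhds hy).le

theorem CpCG_lt (hS : ∀ x, S x ≤ B) {x : X} {y : ℝ} (h : CpCG S x < y) :
    ∀ᶠ w in 𝓝 x, S w < y := by
  obtain ⟨y', hy', hlt⟩ := exists_lt_of_csInf_lt ⟨B + 1, CpCG_mem hS x (by linarith)⟩ h
  filter_upwards [hy'] with w hw
  exact hw.trans hlt

theorem CpCG_usc (hS : ∀ x, S x ≤ B) : UpperSemicontinuous (CpCG S) := by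
  intro x y hy
  obtain ⟨y', h1, h2⟩ := exists_between hy
  filter_upwards [(CpCG_lt hS h1).eventually_nhds] with w hw
  exact lt_of_le_of_lt (csInf_le (CpCG_bdd w) hw) h2

theorem CpCG_min {H : X → ℝ} (hH : UpperSemicontinuous H) (h : ∀ x, S x ≤ H x) (x : X) :
    CpCG S x ≤ H x := by
  refine le_of_forall_gt_imp_ge_of_dense fun c hc => csInf_le (CpCG_bdd x) ?_
  filter_upwards [hH x c hc] with w hw
  exact (h w).trans_lt hw

end CpCreg

variable {n : ℕ} {X : Type} [TopologicalSpace X] (K : KM n X)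

theorem CpC_ev (i : Fin K.N) {z : Cn n} (hz : z ∈ ball (0 : Cn n) 3) {p : X → Prop}
    (h : ∀ᶠ w in 𝓝 z, p (K.κ i w)) : ∀ᶠ x in 𝓝 (K.κ i z), p x := by
  obtain ⟨U, hUp, hU, hzU⟩ := _root_.mem_nhds_iff.1 h
  have ho : IsOpen (K.κ i '' (U ∩ ball 0 3)) :=
    K.isOpen_image i _ inter_subset_right (hU.inter isOpen_ball)
  refine Filter.mem_of_superset (ho.mem_nhds ⟨z, ⟨hzU, hz⟩, rfl⟩) ?_
  rintro y ⟨w, ⟨hwU, hw⟩, rfl⟩
  exact hUp hwU

theorem CpC_cont (i : Fin K.N) {z : Cn n} (hz : z ∈ ball (0 : Cn n) 3) :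
    ContinuousAt (K.κ i) z := (K.cont i).continuousAt (isOpen_ball.mem_nhds hz)

theorem CpC_ρ (i : Fin K.N) : ContinuousOn (K.ρ i) (ball 0 3) := (K.ρ_smooth i).continuousOn

theorem CpC_Q_usc {G : X → ℝ} (hG : UpperSemicontinuous G) (i : Fin K.N) :
    UpperSemicontinuousOn (fun z => K.ρ i z + G (K.κ i z)) (ball 0 3) := by
  refine UpperSemicontinuousOn.add (CpC_ρ K i).upperSemicontinuousOn ?_
  intro z hz y hy
  exact (((CpC_cont K i hz).eventually (hG (K.κ i z) y hy)).filter_mono nhdsWithin_le_nhds)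

/-- the regularised supremum is plurisubharmonic -/
theorem CpC_sub (ψ : ℕ → X → ℝ) (hψ : ∀ k, PC K (ψ k)) {B : ℝ}
    (hB : ∀ k x, |ψ k x| ≤ B) (i : Fin K.N) :
    SubOn (ball 0 3) (fun z => K.ρ i z + CpCG (fun x => ⨆ k, ψ k x) (K.κ i z)) := by
  set S : X → ℝ := fun x => ⨆ k, ψ k x with hSdef
  have hbA : ∀ x, BddAbove (range fun k => ψ k x) := fun x => ⟨B, by
    rintro _ ⟨k, rfl⟩
    exact (abs_le.1 (hB k x)).2⟩
  have hSB : ∀ x, S x ≤ B := fun x => ciSup_le fun k => (abs_le.1 (hB k x)).2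
  have hψS : ∀ k x, ψ k x ≤ S x := fun k x => le_ciSup (hbA x) k
  set G : X → ℝ := CpCG S with hG
  have hSG : ∀ x, S x ≤ G x := CpCG_ge hSB
  have hGB : ∀ x, |G x| ≤ B := fun x => abs_le.2
    ⟨(abs_le.1 (hB 0 x)).1.trans ((hψS 0 x).trans (hSG x)), CpCG_le hSB x⟩
  have hQu : UpperSemicontinuousOn (fun z => K.ρ i z + G (K.κ i z)) (ball 0 3) :=
    CpC_Q_usc K (CpCG_usc hSB) i
  have hρb : ∀ L ⊆ ball (0 : Cn n) 3, IsCompact L → ∃ M : ℝ, ∀ z ∈ L, |K.ρ i z| ≤ M :=
    fun L hL hLc => hLc.exists_bound_of_continuousOn ((CpC_ρ K i).mono hL)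
  refine loc_glob isOpen_ball hQu ?_ ?_
  · intro L hL hLc
    obtain ⟨M, hM⟩ := hρb L hL hLc
    refine ⟨M + B, fun z hz => ?_⟩
    have h1 := (abs_le.1 (hM z hz)).1
    have h2 := (abs_le.1 (hGB (K.κ i z))).1
    linarith
  · intro a ha
    obtain ⟨R, hR, hRΩ⟩ := Metric.isOpen_iff.1 isOpen_ball a ha
    refine ⟨R / 4, by positivity, fun b hb => ?_⟩
    have hL : closedBall a (R / 2) ⊆ ball (0 : Cn n) 3 :=
      (Metric.closedBall_subset_ball (by linarith)).trans hRΩ
    obtain ⟨M, hM⟩ := hρb _ hL (isCompact_closedBall a (R / 2))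
    have hdisc : ∀ a' : Cn n, ‖a' - a‖ ≤ R / 4 → ∀ ζ : ℂ, ‖ζ‖ ≤ 1 →
        a' + ζ • b ∈ closedBall a (R / 2) := by
      intro a' ha' ζ hζ
      rw [mem_closedBall, dist_eq_norm]
      have h1 : a' + ζ • b - a = (a' - a) + ζ • b := by abel
      rw [h1]
      refine (norm_add_le _ _).trans ?_
      rw [norm_smul]
      have h2 : ‖ζ‖ * ‖b‖ ≤ 1 * (R / 4) := by gcongr
      linarith
    have hmem : ∀ a' : Cn n, ‖a' - a‖ ≤ R / 4 → ∀ θ : ℝ,
        a' + Complex.exp (θ * Complex.I) • b ∈ closedBall a (R / 2) :=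
      fun a' ha' θ => hdisc a' ha' _ (Complex.norm_exp_ofReal_mul_I θ).le
    have hbQ : ∀ g : X → ℝ, (∀ x, |g x| ≤ B) → ∀ z ∈ closedBall a (R / 2),
        |K.ρ i z + g (K.κ i z)| ≤ M + B := by
      intro g hg z hz
      exact (abs_add_le _ _).trans (add_le_add (hM z hz) (hg _))
    have hex : ∀ k : ℕ, ∃ a' ∈ ball (0 : Cn n) 3, ‖a' - a‖ < min (R / 4) (1 / (k + 1)) ∧
        ∃ m, G (K.κ i a) - 1 / (k + 1) < ψ m (K.κ i a') := by
      intro k
      by_contra hcon
      push Not at hcon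
      have hε : (0 : ℝ) < 1 / (k + 1) := by positivity
      have h1 : ∀ᶠ w in 𝓝 a, S (K.κ i w) < G (K.κ i a) - 1 / (k + 1) / 2 := by
        filter_upwards [Metric.ball_mem_nhds a (show (0 : ℝ) < min (R / 4) (1 / (k + 1)) by
          positivity), isOpen_ball.mem_nhds ha] with z hz hz3
        have h2 : S (K.κ i z) ≤ G (K.κ i a) - 1 / (k + 1) :=
          ciSup_le fun m => hcon z hz3 (by simpa [dist_eq_norm] using hz) m
        linarith
      have h2 : G (K.κ i a) ≤ G (K.κ i a) - 1 / (k + 1) / 2 :=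
        csInf_le (CpCG_bdd _) (CpC_ev K i ha h1)
      linarith
    choose A hAΩ hA m hm using hex
    have hA0 : ∀ k, ‖A k - a‖ ≤ R / 4 := fun k => (hA k).le.trans (min_le_left _ _)
    have hAt : Filter.Tendsto A Filter.atTop (𝓝 a) := by
      rw [tendsto_iff_norm_sub_tendsto_zero]
      refine squeeze_zero (fun _ => norm_nonneg _)
        (fun k => (hA k).le.trans (min_le_right _ _)) tendsto_one_div_add_atTop_nhds_zero_nat
    have hs : Filter.Tendsto (fun k : ℕ => K.ρ i (A k) + (G (K.κ i a) - 1 / ((k : ℝ) + 1)))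
        Filter.atTop (𝓝 (K.ρ i a + G (K.κ i a))) := by
      have h1 : Filter.Tendsto (fun k : ℕ => G (K.κ i a) - 1 / ((k : ℝ) + 1)) Filter.atTop
          (𝓝 (G (K.κ i a))) := by
        simpa using tendsto_one_div_add_atTop_nhds_zero_nat.const_sub (G (K.κ i a))
      have h2 : ContinuousAt (K.ρ i) a := (CpC_ρ K i).continuousAt (isOpen_ball.mem_nhds ha)
      exact (h2.tendsto.comp hAt).add h1
    refine enva_key isOpen_ball hQu hAt (M := M + B)
      (fun θ => hL (hmem a (by simp; positivity) θ))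
      (fun k θ => hL (hmem (A k) (hA0 k) θ))
      (fun θ => hbQ G hGB _ (hmem a (by simp; positivity) θ))
      (fun k θ => hbQ G hGB _ (hmem (A k) (hA0 k) θ)) hs ?_
    intro k
    have h1 := (hψ (m k)).sub i (A k) b (fun ζ hζ => hL (hdisc _ (hA0 k) ζ hζ))
    have h2 : K.ρ i (A k) + (G (K.κ i a) - 1 / ((k : ℝ) + 1)) ≤
        K.ρ i (A k) + ψ (m k) (K.κ i (A k)) := by
      have := hm k
      linarith
    refine h2.trans (h1.trans ?_)
    have hmk := hmem (A k) (hA0 k)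
    refine mul_le_mul_of_nonneg_left ?_ (by positivity)
    refine intervalIntegral.integral_mono_on (by positivity) ?_ ?_ ?_
    · exact enva_intble (fun z => K.ρ i z + ψ (m k) (K.κ i z))
        (CpC_Q_usc K (hψ (m k)).cont.upperSemicontinuous i) (fun θ => hL (hmk θ))
        (fun θ => hbQ _ (hB (m k)) _ (hmk θ)) _ _
    · exact enva_intble _ hQu (fun θ => hL (hmk θ)) (fun θ => hbQ G hGB _ (hmk θ)) _ _
    · intro θ _
      have := (hψS (m k) (K.κ i (A k + Complex.exp (θ * Complex.I) • b))).trans (hSG _)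
      linarith

/-- the supremum is upper semicontinuous at almost all points -/
theorem CpC_ae (ψ : ℕ → X → ℝ) (hψ : ∀ k, PC K (ψ k)) {B : ℝ}
    (hB : ∀ k x, |ψ k x| ≤ B) (i : Fin K.N) :
    ∀ᵐ z : Cn n, z ∈ ball (0 : Cn n) 3 → ∀ c : ℝ,
      K.ρ i z + (⨆ k, ψ k (K.κ i z)) < c → ∀ᶠ y in 𝓝 z,
      K.ρ i y + (⨆ k, ψ k (K.κ i y)) < c := by
  classical
  set T : Cn n → ℝ := fun z => K.ρ i z + ⨆ k, ψ k (K.κ i z) with hT
  have hbA : ∀ x, BddAbove (range fun k => ψ k x) := fun x => ⟨B, by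
    rintro _ ⟨k, rfl⟩
    exact (abs_le.1 (hB k x)).2⟩
  have hψS : ∀ k x, ψ k x ≤ ⨆ k, ψ k x := fun k x => le_ciSup (hbA x) k
  have hSB : ∀ x, |⨆ k, ψ k x| ≤ B := fun x => abs_le.2
    ⟨(abs_le.1 (hB 0 x)).1.trans (hψS 0 x), ciSup_le fun k => (abs_le.1 (hB k x)).2⟩
  set R : ℕ → ℝ := fun m => 3 - 1 / (m + 1) with hR
  have hR3 : ∀ m, closedBall (0 : Cn n) (R m) ⊆ ball 0 3 := by
    intro m
    refine closedBall_subset_ball ?_
    have : (0 : ℝ) < 1 / (m + 1) := by positivity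
    simp only [hR]; linarith
  have hρb : ∀ m, ∃ M : ℝ, ∀ z ∈ closedBall (0 : Cn n) (R m), |K.ρ i z| ≤ M :=
    fun m => (isCompact_closedBall 0 (R m)).exists_bound_of_continuousOn
      ((CpC_ρ K i).mono (hR3 m))
  have huc : ∀ k, ContinuousOn (fun z => K.ρ i z + ψ k (K.κ i z)) (ball 0 3) := fun k =>
    (CpC_ρ K i).add ((hψ k).cont.comp_continuousOn (K.cont i))
  have hmeas : ∀ m, Measurable ((closedBall (0 : Cn n) (R m)).indicator T) := by
    intro m
    have h1 : (closedBall (0 : Cn n) (R m)).indicator T = fun z => ⨆ k,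
        (closedBall (0 : Cn n) (R m)).piecewise (fun z => K.ρ i z + ψ k (K.κ i z))
          (fun _ => (0 : ℝ)) z := by
      funext z
      by_cases hz : z ∈ closedBall (0 : Cn n) (R m)
      · rw [indicator_of_mem hz]
        simp only [piecewise_eq_of_mem _ _ _ hz]
        rw [hT]
        simp only
        exact (Monotone.map_ciSup_of_continuousAt (f := fun t : ℝ => K.ρ i z + t)
          (g := fun k => ψ k (K.κ i z))
          (continuous_const.add continuous_id).continuousAt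
          (fun a b hab => by simpa using hab) (hbA _))
      · rw [indicator_of_notMem hz]
        simp only [piecewise_eq_of_notMem _ _ _ hz]
        simp
    rw [h1]
    refine Measurable.iSup fun k => ?_
    exact ((huc k).mono (hR3 m)).measurable_piecewise continuousOn_const
      measurableSet_closedBall
  have hint : ∀ m, LocallyIntegrable ((closedBall (0 : Cn n) (R m)).indicator T) volume := by
    intro m
    obtain ⟨M, hM⟩ := hρb m
    refine Integrable.locallyIntegrable ?_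
    rw [integrable_indicator_iff measurableSet_closedBall]
    have h1 : IntegrableOn ((closedBall (0 : Cn n) (R m)).indicator T)
        (closedBall (0 : Cn n) (R m)) volume := by
      refine Measure.integrableOn_of_bounded (M := M + B) (measure_closedBall_lt_top).ne
        (hmeas m).aestronglyMeasurable ?_
      refine (ae_restrict_iff' measurableSet_closedBall).2 (Filter.Eventually.of_forall ?_)
      intro z hz
      rw [indicator_of_mem hz]
      exact (abs_add_le _ _).trans (add_le_add (hM z hz) (hSB _))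
    refine h1.congr_fun (fun z hz => indicator_of_mem hz _) measurableSet_closedBall
  have hae := ae_all_iff.2 fun m =>
    IsUnifLocDoublingMeasure.ae_tendsto_average (μ := (volume : Measure (Cn n))) (hint m) 1
  filter_upwards [hae] with z hz hz3 c hc
  have hz3' : ‖z‖ < 3 := by simpa using hz3
  obtain ⟨m, hm⟩ := exists_nat_one_div_lt (show (0 : ℝ) < (3 - ‖z‖) / 2 by linarith)
  have hRm : ‖z‖ + (3 - ‖z‖) / 2 < R m := by
    simp only [hR]; linarith
  have hzR : z ∈ closedBall (0 : Cn n) (R m) := by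
    rw [mem_closedBall_zero_iff]; linarith
  -- the ball inequality
  have hball : ∀ y : Cn n, ∀ r : ℝ, 0 < r → closedBall y r ⊆ closedBall (0 : Cn n) (R m) →
      T y ≤ ⨍ x in closedBall y r, (closedBall (0 : Cn n) (R m)).indicator T x := by
    intro y r hr hyr
    have hsub3 : closedBall y r ⊆ ball (0 : Cn n) 3 := hyr.trans (hR3 m)
    have hpos : 0 < volume.real (closedBall y r) := by
      rw [measureReal_def]
      exact ENNReal.toReal_pos (measure_closedBall_pos volume y hr).ne'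
        (measure_closedBall_lt_top).ne
    have hTi : IntegrableOn ((closedBall (0 : Cn n) (R m)).indicator T) (closedBall y r) volume :=
      (hint m).integrableOn_isCompact (isCompact_closedBall y r)
    rw [setAverage_eq, smul_eq_mul]
    have h1 : ∀ k, K.ρ i y + ψ k (K.κ i y) ≤ (volume.real (closedBall y r))⁻¹ *
        ∫ x in closedBall y r, (closedBall (0 : Cn n) (R m)).indicator T x := by
      intro k
      have h2 := CpC_ball (u := fun z => K.ρ i z + ψ k (K.κ i z)) (y := y) (r := r)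
        ((huc k).mono hsub3) (fun b hb => (hψ k).sub i y b fun ζ hζ => hsub3 (by
          rw [mem_closedBall, dist_eq_norm, add_sub_cancel_left, norm_smul]
          calc ‖ζ‖ * ‖b‖ ≤ 1 * r := by gcongr
            _ = r := one_mul r))
      rw [inv_mul_eq_div, le_div_iff₀ hpos]
      refine h2.trans ?_
      refine setIntegral_mono_on (((huc k).mono hsub3).integrableOn_compact
        (isCompact_closedBall y r)) hTi measurableSet_closedBall ?_
      intro x hx
      rw [indicator_of_mem (hyr hx)]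
      have := hψS k (K.κ i x)
      simp only [hT]
      linarith
    have h3 : (⨆ k, ψ k (K.κ i y)) ≤ (volume.real (closedBall y r))⁻¹ *
        (∫ x in closedBall y r, (closedBall (0 : Cn n) (R m)).indicator T x) - K.ρ i y :=
      ciSup_le fun k => by
        have := h1 k
        linarith
    simp only [hT] at h3 ⊢
    linarith
  have hlim := hz m (l := 𝓝[≠] z) (fun y : Cn n => y) (fun y : Cn n => dist y z) (by
      refine tendsto_nhdsWithin_iff.2 ⟨?_, ?_⟩
      · have h1 : Filter.Tendsto (fun y : Cn n => dist y z) (𝓝 z) (𝓝 (dist z z)) :=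
          (continuous_id.dist continuous_const).tendsto z
        rw [dist_self] at h1
        exact h1.mono_left nhdsWithin_le_nhds
      · filter_upwards [self_mem_nhdsWithin] with y hy
        exact dist_pos.2 hy)
    (Filter.Eventually.of_forall fun y => by
      rw [mem_closedBall, one_mul, dist_comm])
  rw [indicator_of_mem hzR] at hlim
  have h1 : ∀ᶠ y in 𝓝[≠] z, T y < c := by
    filter_upwards [hlim.eventually (gt_mem_nhds hc), self_mem_nhdsWithin,
      nhdsWithin_le_nhds (Metric.ball_mem_nhds z (show (0 : ℝ) < (3 - ‖z‖) / 4 by linarith))]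
      with y hy hyz hyb
    refine lt_of_le_of_lt (hball y (dist y z) (dist_pos.2 hyz) ?_) hy
    intro x hx
    rw [mem_closedBall] at hx
    rw [mem_ball] at hyb
    rw [mem_closedBall_zero_iff]
    have h2 : dist x z ≤ dist x y + dist y z := dist_triangle _ _ _
    have h3 : ‖x‖ ≤ dist x z + ‖z‖ := by
      rw [dist_eq_norm]
      have := norm_add_le (x - z) z
      simpa using this
    linarith
  rw [eventually_nhdsWithin_iff] at h1
  filter_upwards [h1] with y hy
  by_cases hyz : y = z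
  · rw [hyz]; exact hc
  · exact hy hyz

theorem KM.sup_reg [CompactSpace X] (ψ : ℕ → X → ℝ) (hψ : ∀ k, PC K (ψ k)) {B : ℝ}
    (hB : ∀ k x, |ψ k x| ≤ B) : ∃ G : X → ℝ, PB K G ∧ (∀ x, |G x| ≤ B) ∧ (∀ k x, ψ k x ≤ G x) ∧
      (∀ H : X → ℝ, UpperSemicontinuous H → (∀ k x, ψ k x ≤ H x) → ∀ x, G x ≤ H x) ∧
      ∀ i, ∀ᵐ z : Cn n, z ∈ ball (0 : Cn n) 3 → G (K.κ i z) = ⨆ k, ψ k (K.κ i z) := by
  have hbA : ∀ x, BddAbove (range fun k => ψ k x) := fun x => ⟨B, by
    rintro _ ⟨k, rfl⟩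
    exact (abs_le.1 (hB k x)).2⟩
  set S : X → ℝ := fun x => ⨆ k, ψ k x with hSdef
  have hSB : ∀ x, S x ≤ B := fun x => ciSup_le fun k => (abs_le.1 (hB k x)).2
  have hψS : ∀ k x, ψ k x ≤ S x := fun k x => le_ciSup (hbA x) k
  have hSG : ∀ x, S x ≤ CpCG S x := CpCG_ge hSB
  have hGB : ∀ x, |CpCG S x| ≤ B := fun x => abs_le.2
    ⟨(abs_le.1 (hB 0 x)).1.trans ((hψS 0 x).trans (hSG x)), CpCG_le hSB x⟩
  refine ⟨CpCG S, ⟨CpCG_usc hSB, ⟨B, hGB⟩, CpC_sub K ψ hψ hB⟩, hGB,
    fun k x => (hψS k x).trans (hSG x), ?_, ?_⟩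
  · intro H hH h x
    exact CpCG_min hH (fun x => ciSup_le fun k => h k x) x
  · intro i
    filter_upwards [CpC_ae K ψ hψ hB i] with z hz hz3
    refine le_antisymm ?_ (hSG _)
    refine le_of_forall_gt_imp_ge_of_dense fun c hc => ?_
    obtain ⟨c', h1, h2⟩ := exists_between hc
    have h3 : ∀ᶠ y in 𝓝 z, S (K.κ i y) < c := by
      have h4 := hz hz3 (K.ρ i z + c') (by simpa [hSdef] using h1)
      have h5 : ContinuousAt (K.ρ i) z := (CpC_ρ K i).continuousAt (isOpen_ball.mem_nhds hz3)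
      have h6 : ∀ᶠ y in 𝓝 z, K.ρ i z - (c - c') < K.ρ i y :=
        h5.eventually (lt_mem_nhds (by linarith))
      filter_upwards [h4, h6] with y hy hy'
      simp only [hSdef] at hy ⊢
      linarith
    exact csInf_le (CpCG_bdd _) (CpC_ev K i hz3 h3)

end HMA

end S_KW_CpC

section S_KW_CpE

/-! # Module CpE: compactness of bounded `ω`-psh functions -/

open MeasureTheory Metric Set Filter
open scoped ENNReal Topology ContDiff ComplexOrder

namespace HMA

variable {n : ℕ} {X : Type} [TopologicalSpace X] (K : KM n X)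

/-- decreasing limits -/
theorem cpe_sub_lim {g : ℕ → X → ℝ} {Φ : X → ℝ} {B : ℝ} (hg : ∀ m, UpperSemicontinuous (g m))
    (hΦ : UpperSemicontinuous Φ) (hB : ∀ m x, |g m x| ≤ B)
    (hlim : ∀ x, Tendsto (fun m => g m x) atTop (𝓝 (Φ x))) (i : Fin K.N)
    (hs : ∀ m, SubOn (ball 0 3) (fun z => K.ρ i z + g m (K.κ i z))) :
    SubOn (ball 0 3) (fun z => K.ρ i z + Φ (K.κ i z)) := by
  intro a b hab
  have hγ : Continuous (fun θ : ℝ => a + Complex.exp (θ * Complex.I) • b) := by fun_prop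
  have hm : ∀ θ : ℝ, a + Complex.exp (θ * Complex.I) • b ∈ ball (0 : Cn n) 3 := fun θ =>
    hab _ (by rw [Complex.norm_exp_ofReal_mul_I])
  have hκ : Continuous (fun θ : ℝ => K.κ i (a + Complex.exp (θ * Complex.I) • b)) :=
    (K.cont i).comp_continuous hγ hm
  have hρ : Continuous (fun θ : ℝ => K.ρ i (a + Complex.exp (θ * Complex.I) • b)) :=
    (K.ρ_smooth i).continuousOn.comp_continuous hγ hm
  have hmeas : ∀ h : X → ℝ, UpperSemicontinuous h → Measurable (fun θ : ℝ =>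
      K.ρ i (a + Complex.exp (θ * Complex.I) • b) +
        h (K.κ i (a + Complex.exp (θ * Complex.I) • b))) := fun h hh =>
    hρ.measurable.add (UpperSemicontinuous.measurable (hh.comp hκ))
  have h1 : Tendsto (fun m => ∫ θ in (0 : ℝ)..(2 * Real.pi),
      (K.ρ i (a + Complex.exp (θ * Complex.I) • b) +
        g m (K.κ i (a + Complex.exp (θ * Complex.I) • b)))) atTop
      (𝓝 (∫ θ in (0 : ℝ)..(2 * Real.pi),
      (K.ρ i (a + Complex.exp (θ * Complex.I) • b) +
        Φ (K.κ i (a + Complex.exp (θ * Complex.I) • b))))) := by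
    refine intervalIntegral.tendsto_integral_filter_of_dominated_convergence
      (fun θ => |K.ρ i (a + Complex.exp (θ * Complex.I) • b)| + B) ?_ ?_ ?_ ?_
    · exact Filter.Eventually.of_forall fun m => (hmeas _ (hg m)).aestronglyMeasurable
    · refine Filter.Eventually.of_forall fun m => Filter.Eventually.of_forall fun θ _ => ?_
      rw [Real.norm_eq_abs]
      exact (abs_add_le _ _).trans (by gcongr; exact hB _ _)
    · exact (hρ.abs.add continuous_const).intervalIntegrable _ _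
    · exact Filter.Eventually.of_forall fun θ _ => tendsto_const_nhds.add (hlim _)
  exact le_of_tendsto_of_tendsto' (tendsto_const_nhds.add (hlim (K.κ i a)))
    (h1.const_mul _) (fun m => hs m a b hab)

/-- almost everywhere convergence of sequences with summable differences -/
theorem cpe_ae {α : Type*} [MeasurableSpace α] {μ : Measure α} {f : ℕ → α → ℝ}
    (hf : ∀ k, Integrable (f k) μ)
    (h : ∀ k, ∫ z, |f (k + 1) z - f k z| ∂μ ≤ (1 / 2 : ℝ) ^ k) :
    ∀ᵐ z ∂μ, ∃ l : ℝ, Tendsto (fun k => f k z) atTop (𝓝 l) := by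
  have h1 : ∀ k, Integrable (fun z => f (k + 1) z - f k z) μ := fun k => (hf (k + 1)).sub (hf k)
  have h2 : ∑' k, ∫⁻ z, ENNReal.ofReal |f (k + 1) z - f k z| ∂μ < ⊤ := by
    have h3 : ∀ k, ∫⁻ z, ENNReal.ofReal |f (k + 1) z - f k z| ∂μ ≤ ENNReal.ofReal ((1 / 2) ^ k) := by
      intro k
      rw [← ofReal_integral_eq_lintegral_ofReal (h1 k).abs (ae_of_all _ fun z => abs_nonneg _)]
      exact ENNReal.ofReal_le_ofReal (h k)
    refine lt_of_le_of_lt (ENNReal.tsum_le_tsum h3) ?_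
    rw [← ENNReal.ofReal_tsum_of_nonneg (fun k => by positivity) summable_geometric_two]
    exact ENNReal.ofReal_lt_top
  rw [← lintegral_tsum (fun k => (h1 k).abs.aestronglyMeasurable.aemeasurable.ennreal_ofReal)] at h2
  have h3 := ae_lt_top' (AEMeasurable.tsum
    (fun k => (h1 k).abs.aestronglyMeasurable.aemeasurable.ennreal_ofReal)) h2.ne
  filter_upwards [h3] with z hz
  have h4 : Summable (fun k => |f (k + 1) z - f k z|) := by
    have h5 : ∑' k, ENNReal.ofReal |f (k + 1) z - f k z| ≠ ⊤ := hz.ne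
    have h6 := (ENNReal.summable_toReal h5)
    refine h6.congr fun k => ?_
    rw [ENNReal.toReal_ofReal (abs_nonneg _)]
  have h7 : CauchySeq (fun k => f k z) := by
    refine cauchySeq_of_summable_dist (h4.congr fun k => ?_)
    rw [Real.dist_eq, abs_sub_comm]
  exact ⟨_, h7.tendsto_limUnder⟩

/-- limits and suprema of tails -/
theorem cpe_tail {x : ℕ → ℝ} {l : ℝ} (h : Tendsto x atTop (𝓝 l)) :
    Tendsto (fun m => ⨆ k, x (m + k)) atTop (𝓝 l) := by
  rw [Metric.tendsto_atTop] at h ⊢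
  intro ε hε
  obtain ⟨N, hN⟩ := h (ε / 2) (half_pos hε)
  refine ⟨N, fun m hm => ?_⟩
  have h1 : ∀ k, x (m + k) ≤ l + ε / 2 := fun k => by
    have := hN (m + k) (by omega)
    rw [Real.dist_eq, abs_lt] at this
    linarith [this.2]
  have h2 : l - ε / 2 ≤ x (m + 0) := by
    have := hN (m + 0) (by omega)
    rw [Real.dist_eq, abs_lt] at this
    linarith [this.1]
  have h3 : ⨆ k, x (m + k) ≤ l + ε / 2 := ciSup_le h1
  have h4 : x (m + 0) ≤ ⨆ k, x (m + k) := le_ciSup (f := fun k => x (m + k))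
    ⟨l + ε / 2, by rintro _ ⟨k, rfl⟩; exact h1 k⟩ 0
  rw [Real.dist_eq, abs_lt]
  constructor <;> linarith

theorem cpe_bdd (i : Fin K.N) : ∃ M : ℝ, ∀ z ∈ ball (0 : Cn n) (5 / 2), |K.ρ i z| ≤ M := by
  have h1 : ContinuousOn (K.ρ i) (closedBall 0 (5 / 2)) :=
    (K.ρ_smooth i).continuousOn.mono (closedBall_subset_ball (by norm_num))
  obtain ⟨M, hM⟩ := (isCompact_closedBall (0 : Cn n) (5 / 2)).exists_bound_of_continuousOn h1
  exact ⟨M, fun z hz => by simpa using hM z (ball_subset_closedBall hz)⟩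

theorem KM.compact_seq [CompactSpace X] (ψ : ℕ → X → ℝ) (hψ : ∀ k, PC K (ψ k)) {B : ℝ}
    (hB : ∀ k x, |ψ k x| ≤ B) : ∃ (Φ : X → ℝ) (φ : ℕ → ℕ), StrictMono φ ∧ PB K Φ ∧
      (∀ x, |Φ x| ≤ B) ∧ ∀ i, Tendsto (fun k => ∫ z in ball (0 : Cn n) (3 / 2),
        |ψ (φ k) (K.κ i z) - Φ (K.κ i z)|) atTop (𝓝 0) := by
  classical
  have hM : ∃ M : ℝ, ∀ i, ∀ z ∈ ball (0 : Cn n) (5 / 2), |K.ρ i z| ≤ M := by
    choose M hM using cpe_bdd K
    refine ⟨∑ i, |M i|, fun i z hz => (hM i z hz).trans ((le_abs_self _).trans ?_)⟩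
    exact Finset.single_le_sum (f := fun i => |M i|) (fun j _ => abs_nonneg _) (Finset.mem_univ i)
  obtain ⟨M, hM⟩ := hM
  have h53 : ball (0 : Cn n) (5 / 2) ⊆ ball 0 3 := ball_subset_ball (by norm_num)
  have h33 : ball (0 : Cn n) (3 / 2) ⊆ ball 0 3 := ball_subset_ball (by norm_num)
  have hcκ : ∀ k i, ContinuousOn (fun z => ψ k (K.κ i z)) (ball (0 : Cn n) 3) := fun k i =>
    (hψ k).cont.comp_continuousOn (K.cont i)
  obtain ⟨φ, hφ, hφ1⟩ := compact_L1 (N := K.N) (M := M + B)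
    (fun k i z => K.ρ i z + ψ k (K.κ i z))
    (fun k i => ((K.ρ_smooth i).continuousOn.add (hcκ k i)).mono h53)
    (fun k i => kw_sub_mono ((hψ k).sub i) h53)
    (fun k i z hz => (abs_add_le _ _).trans (add_le_add (hM i z hz) (hB _ _)))
  have hφ2 : ∀ i k, ∫ z in ball (0 : Cn n) (3 / 2),
      |ψ (φ (k + 1)) (K.κ i z) - ψ (φ k) (K.κ i z)| ≤ (1 / 2) ^ k := by
    intro i k
    have := hφ1 i k
    simpa only [add_sub_add_left_eq_sub] using this
  choose G hG1 hG2 hG3 hG4 hG5 using fun m =>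
    K.sup_reg (fun k => ψ (φ (m + k))) (fun k => hψ _) (B := B) (fun k x => hB _ x)
  have hanti : ∀ x, Antitone (fun m => G m x) := by
    intro x
    refine antitone_nat_of_succ_le fun m => ?_
    refine hG4 (m + 1) (G m) (hG1 m).usc (fun k y => ?_) x
    have := hG3 m (k + 1) y
    rwa [show m + 1 + k = m + (k + 1) by ring]
  have hbd : ∀ x, BddBelow (range fun m => G m x) := fun x =>
    ⟨-B, by rintro _ ⟨m, rfl⟩; exact (abs_le.1 (hG2 m x)).1⟩
  set Φ : X → ℝ := fun x => ⨅ m, G m x with hΦ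
  have hlim : ∀ x, Tendsto (fun m => G m x) atTop (𝓝 (Φ x)) := fun x =>
    tendsto_atTop_ciInf (hanti x) (hbd x)
  have husc : UpperSemicontinuous Φ := upperSemicontinuous_ciInf hbd (fun m => (hG1 m).usc)
  have hΦB : ∀ x, |Φ x| ≤ B := fun x =>
    le_of_tendsto' (hlim x).abs (fun m => hG2 m x)
  have hae : ∀ i, ∀ᵐ z ∂(volume.restrict (ball (0 : Cn n) (3 / 2))),
      Tendsto (fun k => ψ (φ k) (K.κ i z)) atTop (𝓝 (Φ (K.κ i z))) := by
    intro i
    have hint : ∀ k, Integrable (fun z => ψ (φ k) (K.κ i z))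
        (volume.restrict (ball (0 : Cn n) (3 / 2))) := by
      intro k
      have h1 : ContinuousOn (fun z => ψ (φ k) (K.κ i z)) (closedBall (0 : Cn n) (3 / 2)) :=
        (hcκ _ i).mono (closedBall_subset_ball (by norm_num))
      exact (h1.integrableOn_compact (isCompact_closedBall _ _)).mono_set ball_subset_closedBall
    have h1 := cpe_ae hint (hφ2 i)
    have h2 : ∀ᵐ z ∂(volume.restrict (ball (0 : Cn n) (3 / 2))), ∀ m,
        z ∈ ball (0 : Cn n) 3 → G m (K.κ i z) = ⨆ k, ψ (φ (m + k)) (K.κ i z) :=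
      ae_restrict_of_ae (ae_all_iff.2 fun m => hG5 m i)
    filter_upwards [h1, h2, ae_restrict_mem measurableSet_ball] with z hz1 hz2 hz3
    obtain ⟨l, hl⟩ := hz1
    have h3 := cpe_tail hl
    have h4 : Tendsto (fun m => G m (K.κ i z)) atTop (𝓝 l) :=
      h3.congr fun m => (hz2 m (h33 hz3)).symm
    rw [tendsto_nhds_unique (hlim (K.κ i z)) h4]
    exact hl
  refine ⟨Φ, φ, hφ, ⟨husc, ⟨B, hΦB⟩, fun i => ?_⟩, hΦB, fun i => ?_⟩
  · exact cpe_sub_lim K (fun m => (hG1 m).usc) husc hG2 hlim i (fun m => (hG1 m).sub i)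
  · have hms : ∀ k, AEStronglyMeasurable (fun z => ψ (φ k) (K.κ i z))
        (volume.restrict (ball (0 : Cn n) (3 / 2))) := fun k =>
      ((hcκ _ i).mono h33).aestronglyMeasurable measurableSet_ball
    have hmΦ : AEStronglyMeasurable (fun z => Φ (K.κ i z))
        (volume.restrict (ball (0 : Cn n) (3 / 2))) :=
      aestronglyMeasurable_of_tendsto_ae atTop hms (hae i)
    have h1 : Tendsto (fun k => ∫ z in ball (0 : Cn n) (3 / 2),
        |ψ (φ k) (K.κ i z) - Φ (K.κ i z)|) atTop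
        (𝓝 (∫ z in ball (0 : Cn n) (3 / 2), (0 : ℝ))) := by
      refine tendsto_integral_of_dominated_convergence (fun _ => B + B)
        (fun k => ((hms k).sub hmΦ).norm) ?_ ?_ ?_
      · haveI : IsFiniteMeasure (volume.restrict (ball (0 : Cn n) (3 / 2))) :=
          ⟨by rw [Measure.restrict_apply_univ]; exact measure_ball_lt_top⟩
        exact integrable_const _
      · refine fun k => ae_of_all _ fun z => ?_
        rw [Real.norm_eq_abs, abs_abs]
        exact (abs_sub _ _).trans (add_le_add (hB _ _) (hΦB _))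
      · filter_upwards [hae i] with z hz
        have := (hz.sub_const (Φ (K.κ i z))).abs
        simpa using this
    simpa using h1

end HMA

end S_KW_CpE

section S_KW_Lim

/-! # Module Lim: passage to the limit in the key inequality -/

open MeasureTheory Metric Set Filter
open scoped ENNReal Topology ContDiff ComplexOrder

namespace HMA

variable {n : ℕ} {X : Type} [TopologicalSpace X] (K : KM n X)

variable [MeasurableSpace X] [BorelSpace X] [T2Space X] [CompactSpace X]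

omit [T2Space X] [CompactSpace X] in
theorem lim_meas {φ : X → ℝ} (h : PB K φ) : Measurable φ := h.usc.measurable

omit [T2Space X] [CompactSpace X] in
theorem lim_int {ν : Measure X} [IsFiniteMeasure ν] {φ : X → ℝ} (hm : AEStronglyMeasurable φ ν)
    {C : ℝ} (h : ∀ x, |φ x| ≤ C) : Integrable φ ν :=
  Integrable.of_bound hm C (Filter.Eventually.of_forall h)

omit [T2Space X] [CompactSpace X] in
theorem lim_gen {ν : Measure X} {f : ℕ → X → ℝ} {g : X → ℝ} {d : ℕ → X → ℝ} {C : ℝ}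
    (hf : ∀ k, Integrable (f k) ν) (hg : Integrable g ν) (hd : ∀ k, Integrable (d k) ν)
    (hfg : ∀ k x, |f k x - g x| ≤ C * d k x)
    (hL : Tendsto (fun k => ∫ x, d k x ∂ν) atTop (𝓝 0)) :
    Tendsto (fun k => ∫ x, f k x ∂ν) atTop (𝓝 (∫ x, g x ∂ν)) := by
  rw [tendsto_iff_norm_sub_tendsto_zero]
  have h1 := hL.const_mul C
  rw [mul_zero] at h1
  refine squeeze_zero (fun k => norm_nonneg _) (fun k => ?_) h1
  rw [← integral_sub (hf k) hg]
  calc ‖∫ x, (f k x - g x) ∂ν‖ ≤ ∫ x, ‖f k x - g x‖ ∂ν := norm_integral_le_integral_norm _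
    _ ≤ ∫ x, C * d k x ∂ν :=
        integral_mono ((hf k).sub hg).norm ((hd k).const_mul C) fun x => hfg k x
    _ = C * ∫ x, d k x ∂ν := integral_const_mul _ _

omit [T2Space X] [CompactSpace X] in
theorem lim_chart (i : Fin K.N) {φ : X → ℝ} (hm : Measurable φ) {C : ℝ} (h : ∀ x, |φ x| ≤ C)
    {T : Set (Cn n)} (hT : MeasurableSet T) (hT1 : T ⊆ ball 0 (3 / 2)) :
    IntegrableOn (fun z => φ (K.κ i z)) T := by
  have hfin : volume T < ⊤ := lt_of_le_of_lt (measure_mono hT1) measure_ball_lt_top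
  have hT3 : T ⊆ ball 0 3 := hT1.trans (ball_subset_ball (by norm_num))
  have h1 : AEMeasurable (fun z => φ (K.κ i z)) (volume.restrict T) :=
    hm.comp_aemeasurable (xvol_aem K i hT hT3 _)
  have hf : IsFiniteMeasure (volume.restrict T) := ⟨by rwa [Measure.restrict_apply_univ]⟩
  exact Integrable.of_bound h1.aestronglyMeasurable C (Filter.Eventually.of_forall fun z => h _)

variable [ConnectedSpace X] {μ : Measure X} [IsProbabilityMeasure μ] {ψ : ℕ → X → ℝ}
  {Φ : X → ℝ} {B : ℝ}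

theorem KM.lim_mu (hn : 1 ≤ n) (hμ : KModerate K μ) (hψ : ∀ k, PB K (ψ k)) (hΦ : PB K Φ)
    (hB : ∀ k x, |ψ k x| ≤ B) (hL : ∀ i, Tendsto (fun k => ∫ z in ball (0 : Cn n) (3 / 2),
      |ψ k (K.κ i z) - Φ (K.κ i z)|) atTop (𝓝 0)) :
    Tendsto (fun k => ∫ x, |ψ k x - Φ x| ∂μ) atTop (𝓝 0) := by
  classical
  have hne : Nonempty X := μ.nonempty_of_neZero
  obtain ⟨B₁, hB₁⟩ := hΦ.bdd
  set M : ℝ := max B B₁ with hM
  have hψM : ∀ k x, |ψ k x| ≤ M := fun k x => (hB k x).trans (le_max_left _ _)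
  have hΦM : ∀ x, |Φ x| ≤ M := fun x => (hB₁ x).trans (le_max_right _ _)
  obtain ⟨α, hα, hH⟩ := K.moderate_holder hn hμ
  obtain ⟨C, hC, hH⟩ := hH (Real.exp (-2 * M)) (Real.exp_pos _)
  -- the logarithmic comparison
  have key : ∀ f g : X → ℝ, PB K f → PB K g → (∀ x, |f x| ≤ M) → (∀ x, |g x| ≤ M) →
      |(∫ x, f x ∂μ) - ∫ x, g x ∂μ| ≤
        C * (∑ i, ∫ z in ball (0 : Cn n) (3 / 2), |f (K.κ i z) - g (K.κ i z)|) ^ α := by
    intro f g hf hg hfM hgM
    have hk1 := PB.kpsh K (PB.add_const K hf (-M))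
    have hk2 := PB.kpsh K (PB.add_const K hg (-M))
    obtain ⟨x₀⟩ := hne
    have h := (hH _ _ hk1 hk2
      (fun x => by
        show Real.exp (f x + -M) ≤ 1
        rw [Real.exp_le_one_iff]
        linarith [(abs_le.1 (hfM x)).2])
      (fun x => by
        show Real.exp (g x + -M) ≤ 1
        rw [Real.exp_le_one_iff]
        linarith [(abs_le.1 (hgM x)).2])
      ⟨x₀, by
        show Real.exp (-2 * M) ≤ Real.exp (f x₀ + -M)
        exact Real.exp_le_exp.2 (by linarith [(abs_le.1 (hfM x₀)).1])⟩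
      ⟨x₀, by
        show Real.exp (-2 * M) ≤ Real.exp (g x₀ + -M)
        exact Real.exp_le_exp.2 (by linarith [(abs_le.1 (hgM x₀)).1])⟩).2
    simp only [Real.log_exp, add_sub_add_right_eq_sub] at h
    have hfi : Integrable f μ := lim_int (lim_meas K hf).aestronglyMeasurable hfM
    have hgi : Integrable g μ := lim_int (lim_meas K hg).aestronglyMeasurable hgM
    rw [integral_add hfi (integrable_const _), integral_add hgi (integrable_const _),
      add_sub_add_right_eq_sub] at h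
    exact h
  -- the maximum
  set m : ℕ → X → ℝ := fun k x => max (ψ k x) (Φ x) with hm
  have hmPB : ∀ k, PB K (m k) := fun k => PB.max K (hψ k) hΦ
  have hmM : ∀ k x, |m k x| ≤ M := fun k x => abs_max_le_max_abs_abs.trans
    (max_le (hψM k x) (hΦM x))
  have hmψ : ∀ k x, |m k x - ψ k x| ≤ |ψ k x - Φ x| := by
    intro k x
    simp only [hm]
    rcases le_total (ψ k x) (Φ x) with h | h
    · rw [max_eq_right h, abs_sub_comm]
    · rw [max_eq_left h, sub_self, abs_zero]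
      exact abs_nonneg _
  have hmΦ : ∀ k x, |m k x - Φ x| ≤ |ψ k x - Φ x| := by
    intro k x
    simp only [hm]
    rcases le_total (ψ k x) (Φ x) with h | h
    · rw [max_eq_right h, sub_self, abs_zero]
      exact abs_nonneg _
    · rw [max_eq_left h]
  have hψm : ∀ k, Measurable (ψ k) := fun k => lim_meas K (hψ k)
  have hΦm : Measurable Φ := lim_meas K hΦ
  have hmm : ∀ k, Measurable (m k) := fun k => lim_meas K (hmPB k)
  set I : ℕ → ℝ := fun k => ∑ i, ∫ z in ball (0 : Cn n) (3 / 2),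
    |ψ k (K.κ i z) - Φ (K.κ i z)| with hI
  have hI0 : Tendsto I atTop (𝓝 0) := by
    have h := tendsto_finsetSum (Finset.univ : Finset (Fin K.N)) (fun i _ => hL i)
    rw [Finset.sum_const_zero] at h
    exact h
  have hIα : Tendsto (fun k => 2 * (C * I k ^ α)) atTop (𝓝 0) := by
    have h := (hI0.rpow_const (Or.inr hα.le) (p := α))
    rw [Real.zero_rpow hα.ne'] at h
    have h2 := (h.const_mul C).const_mul 2
    rw [mul_zero, mul_zero] at h2
    exact h2
  have hbd2 : ∀ k x, |(|ψ k x - Φ x|)| ≤ 2 * M := by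
    intro k x
    rw [abs_abs]
    have h1 := abs_sub (ψ k x) (Φ x)
    linarith [hψM k x, hΦM x]
  have hcmp : ∀ (f : X → ℝ), Measurable f → (∀ x, |f x| ≤ M) → ∀ k,
      (∀ x, |m k x - f x| ≤ |ψ k x - Φ x|) →
      ∑ i, ∫ z in ball (0 : Cn n) (3 / 2), |m k (K.κ i z) - f (K.κ i z)| ≤ I k := by
    intro f hfm hfM k hf
    refine Finset.sum_le_sum fun i _ => ?_
    refine integral_mono ?_ ?_ fun z => hf _
    · have hb : ∀ x, |(|m k x - f x|)| ≤ 2 * M := by
        intro x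
        rw [abs_abs]
        have h1 := abs_sub (m k x) (f x)
        linarith [hmM k x, hfM x]
      exact lim_chart K i (φ := fun x => |m k x - f x|) ((hmm k).sub hfm).abs hb
        measurableSet_ball subset_rfl
    · exact lim_chart K i (φ := fun x => |ψ k x - Φ x|) ((hψm k).sub hΦm).abs (hbd2 k)
        measurableSet_ball subset_rfl
  refine squeeze_zero (fun k => integral_nonneg fun x => abs_nonneg _) (fun k => ?_) hIα
  have e1 : ∀ x, |ψ k x - Φ x| = (m k x - ψ k x) + (m k x - Φ x) := by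
    intro x
    simp only [hm]
    rcases le_total (ψ k x) (Φ x) with h | h
    · rw [max_eq_right h, abs_of_nonpos (by linarith)]
      ring
    · rw [max_eq_left h, abs_of_nonneg (by linarith)]
      ring
  have i1 : Integrable (m k) μ := lim_int (hmm k).aestronglyMeasurable (hmM k)
  have i2 : Integrable (ψ k) μ := lim_int (hψm k).aestronglyMeasurable (hψM k)
  have i3 : Integrable Φ μ := lim_int hΦm.aestronglyMeasurable hΦM
  have e2 : ∫ x, |ψ k x - Φ x| ∂μ =
      ((∫ x, m k x ∂μ) - ∫ x, ψ k x ∂μ) + ((∫ x, m k x ∂μ) - ∫ x, Φ x ∂μ) := by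
    rw [← integral_sub i1 i2, ← integral_sub i1 i3]
    exact (integral_congr_ae (Filter.Eventually.of_forall e1)).trans
      (integral_add (i1.sub i2) (i1.sub i3))
  rw [e2]
  have k1 := (le_abs_self _).trans (key (m k) (ψ k) (hmPB k) (hψ k) (hmM k) (hψM k))
  have k2 := (le_abs_self _).trans (key (m k) Φ (hmPB k) hΦ (hmM k) hΦM)
  have s1 := hcmp (ψ k) (hψm k) (hψM k) k (hmψ k)
  have s2 := hcmp Φ hΦm hΦM k (hmΦ k)
  have n1 : 0 ≤ ∑ i, ∫ z in ball (0 : Cn n) (3 / 2), |m k (K.κ i z) - ψ k (K.κ i z)| :=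
    Finset.sum_nonneg fun i _ => integral_nonneg fun z => abs_nonneg _
  have n2 : 0 ≤ ∑ i, ∫ z in ball (0 : Cn n) (3 / 2), |m k (K.κ i z) - Φ (K.κ i z)| :=
    Finset.sum_nonneg fun i _ => integral_nonneg fun z => abs_nonneg _
  have r1 := mul_le_mul_of_nonneg_left (Real.rpow_le_rpow n1 s1 hα.le) hC.le
  have r2 := mul_le_mul_of_nonneg_left (Real.rpow_le_rpow n2 s2 hα.le) hC.le
  linarith

theorem KM.lim_vol (hψ : ∀ k, PB K (ψ k)) (hΦ : PB K Φ)
    (hB : ∀ k x, |ψ k x| ≤ B) (hL : ∀ i, Tendsto (fun k => ∫ z in ball (0 : Cn n) (3 / 2),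
      |ψ k (K.κ i z) - Φ (K.κ i z)|) atTop (𝓝 0)) :
    Tendsto (fun k => ∫ x, |ψ k x - Φ x| ∂K.vol) atTop (𝓝 0) := by
  classical
  obtain ⟨B₁, hB₁⟩ := hΦ.bdd
  set M : ℝ := max B B₁ with hM
  have hψM : ∀ k x, |ψ k x| ≤ M := fun k x => (hB k x).trans (le_max_left _ _)
  have hΦM : ∀ x, |Φ x| ≤ M := fun x => (hB₁ x).trans (le_max_right _ _)
  have hψm : ∀ k, Measurable (ψ k) := fun k => lim_meas K (hψ k)
  have hΦm : Measurable Φ := lim_meas K hΦ
  have hbd : ∀ j : Fin K.N, ∃ b : ℝ, 0 ≤ b ∧ ∀ z ∈ closedBall (0 : Cn n) 1,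
      mad (K.ρ j) z ≤ b := by
    intro j
    obtain ⟨a, b, ha, hb, hab⟩ := K.mad_ρ_bdd j (isCompact_closedBall (0 : Cn n) 1)
      (closedBall_subset_ball (by norm_num))
    refine ⟨max b 0, le_max_right _ _, fun z hz => (hab z hz).2.trans (le_max_left _ _)⟩
  choose b hb0 hb using hbd
  have hlim : Tendsto (fun k => ∑ j, b j * ∫ z in ball (0 : Cn n) (3 / 2),
      |ψ k (K.κ j z) - Φ (K.κ j z)|) atTop (𝓝 0) := by
    have h := tendsto_finsetSum (Finset.univ : Finset (Fin K.N))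
      (fun j _ => (hL j).const_mul (b j))
    simpa using h
  refine squeeze_zero (fun k => integral_nonneg fun x => abs_nonneg _) (fun k => ?_) hlim
  have hfm : Measurable (fun x => |ψ k x - Φ x|) := ((hψm k).sub hΦm).abs
  have hbd2 : ∀ x, |(|ψ k x - Φ x|)| ≤ 2 * M := by
    intro x
    rw [abs_abs]
    have h1 := abs_sub (ψ k x) (Φ x)
    linarith [hψM k x, hΦM x]
  rw [integral_eq_lintegral_of_nonneg_ae (Filter.Eventually.of_forall fun x => abs_nonneg _)
    hfm.aestronglyMeasurable, xvol_lint K hfm.ennreal_ofReal]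
  have hR : 0 ≤ ∑ j, b j * ∫ z in ball (0 : Cn n) (3 / 2), |ψ k (K.κ j z) - Φ (K.κ j z)| :=
    Finset.sum_nonneg fun j _ => mul_nonneg (hb0 j) (integral_nonneg fun z => abs_nonneg _)
  refine ENNReal.toReal_le_of_le_ofReal hR ?_
  rw [ENNReal.ofReal_sum_of_nonneg fun j _ =>
    mul_nonneg (hb0 j) (integral_nonneg fun z => abs_nonneg _)]
  refine Finset.sum_le_sum fun j _ => ?_
  have hint : IntegrableOn (fun z => |ψ k (K.κ j z) - Φ (K.κ j z)|) (ball (0 : Cn n) (3 / 2)) :=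
    lim_chart K j (φ := fun x => |ψ k x - Φ x|) hfm hbd2 measurableSet_ball subset_rfl
  rw [ENNReal.ofReal_mul (hb0 j), ofReal_integral_eq_lintegral_ofReal hint
    (Filter.Eventually.of_forall fun z => abs_nonneg _), ← lintegral_const_mul' _ _
      ENNReal.ofReal_ne_top]
  calc ∫⁻ z in xS K j, ENNReal.ofReal |ψ k (K.κ j z) - Φ (K.κ j z)| *
        ENNReal.ofReal (mad (K.ρ j) z)
      ≤ ∫⁻ z in xS K j, ENNReal.ofReal (b j) *
          ENNReal.ofReal |ψ k (K.κ j z) - Φ (K.κ j z)| := by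
        refine setLIntegral_mono' (xS_meas K j) fun z hz => ?_
        rw [mul_comm]
        gcongr
        exact hb j z (ball_subset_closedBall hz.1)
    _ ≤ _ := lintegral_mono_set
        (inter_subset_left.trans (ball_subset_ball (by norm_num)))

theorem KM.lim_ki (hψ : ∀ k, PB K (ψ k)) (hΦ : PB K Φ)
    (hB : ∀ k x, |ψ k x| ≤ B) (h1 : Tendsto (fun k => ∫ x, |ψ k x - Φ x| ∂μ) atTop (𝓝 0))
    (h2 : Tendsto (fun k => ∫ x, |ψ k x - Φ x| ∂K.vol) atTop (𝓝 0)) {δ : ℕ → ℝ}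
    (hδ : Tendsto δ atTop (𝓝 0)) (hK : ∀ k, KIneq K μ (δ k) (ψ k)) : KIneq K μ 0 Φ := by
  have hfinV := K.vol_finite
  obtain ⟨B₁, hB₁⟩ := hΦ.bdd
  set M : ℝ := max B B₁ with hM
  have hψM : ∀ k x, |ψ k x| ≤ M := fun k x => (hB k x).trans (le_max_left _ _)
  have hΦM : ∀ x, |Φ x| ≤ M := fun x => (hB₁ x).trans (le_max_right _ _)
  have hψm : ∀ k, Measurable (ψ k) := fun k => lim_meas K (hψ k)
  have hΦm : Measurable Φ := lim_meas K hΦ
  intro h hh
  have hhc : PB K h := PC.pb K (WK.pc K hh)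
  have hhm : Measurable h := lim_meas K hhc
  obtain ⟨H, hH⟩ := hhc.bdd
  obtain ⟨C, hC, hRM⟩ := K.RM_bdd hh.c11 hh.c11
  have hRMb : ∀ x, |K.RM h x| ≤ C := by
    intro x
    have h3 := hRM 1 0 (by norm_num) (by norm_num) x
    have e : (fun y => 1 * h y + 0 * h y) = h := by
      funext y
      ring
    rwa [e] at h3
  have hRMm : AEStronglyMeasurable (K.RM h) K.vol := K.RM_meas hh.c11
  have hdi : ∀ (ν : Measure X) [IsFiniteMeasure ν], ∀ k,
      Integrable (fun x => |ψ k x - Φ x|) ν := by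
    intro ν _ k
    refine lim_int (C := 2 * M) ((hψm k).sub hΦm).abs.aestronglyMeasurable fun x => ?_
    rw [abs_abs]
    have h1 := abs_sub (ψ k x) (Φ x)
    linarith [hψM k x, hΦM x]
  have hmaxb : ∀ f : X → ℝ, (∀ x, |f x| ≤ M) → ∀ x, |max (h x - f x) 0| ≤ H + M := by
    intro f hf x
    rw [abs_of_nonneg (le_max_right _ _)]
    refine max_le ?_ ?_
    · linarith [(abs_le.1 (hH x)).2, (abs_le.1 (hf x)).1]
    · linarith [abs_nonneg (h x), hH x, abs_nonneg (f x), hf x]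
  have hdiff : ∀ k x, |max (h x - ψ k x) 0 - max (h x - Φ x) 0| ≤ |ψ k x - Φ x| := by
    intro k x
    refine (abs_max_sub_max_le_abs _ _ _).trans (le_of_eq ?_)
    rw [show h x - ψ k x - (h x - Φ x) = -(ψ k x - Φ x) by ring, abs_neg]
  -- the limit on the right
  have hr1 : ∀ f : X → ℝ, Measurable f → (∀ x, |f x| ≤ M) →
      Integrable (fun x => max (h x - f x) 0) μ := fun f hf hfM =>
    lim_int ((hhm.sub hf).max measurable_const).aestronglyMeasurable (hmaxb f hfM)
  have hr := lim_gen (ν := μ) (C := 1) (fun k => hr1 (ψ k) (hψm k) (hψM k)) (hr1 Φ hΦm hΦM)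
    (hdi μ) (fun k x => by rw [one_mul]; exact hdiff k x) h1
  -- the limit on the left
  have hl1 : ∀ f : X → ℝ, Measurable f → (∀ x, |f x| ≤ M) →
      Integrable (fun x => max (h x - f x) 0 * K.RM h x) K.vol := by
    intro f hf hfM
    refine lim_int (C := (H + M) * C)
      (((hhm.sub hf).max measurable_const).aestronglyMeasurable.mul hRMm) fun x => ?_
    rw [abs_mul]
    have h0 := hmaxb f hfM x
    exact mul_le_mul h0 (hRMb x) (abs_nonneg _) ((abs_nonneg _).trans h0)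
  have hl := lim_gen (ν := K.vol) (C := C) (fun k => hl1 (ψ k) (hψm k) (hψM k)) (hl1 Φ hΦm hΦM)
    (hdi K.vol) (fun k x => by
      rw [← sub_mul, abs_mul, mul_comm]
      exact mul_le_mul (hRMb x) (hdiff k x) (abs_nonneg _) hC.le) h2
  refine le_of_tendsto_of_tendsto' (hl.const_mul (1 / (n + 1 : ℝ)))
    ((hr.const_mul (K.vol.real univ)).add hδ) fun k => hK k h hh

end HMA

end S_KW_Lim

section S_KW_NearM

/-! # Module NearM: approximations of the limit are almost maximal -/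

open MeasureTheory Metric Set Filter
open scoped ENNReal Topology ContDiff ComplexOrder

namespace HMA

variable {n : ℕ} {X : Type} [TopologicalSpace X] (K : KM n X)

variable [MeasurableSpace X] [BorelSpace X] [T2Space X] [CompactSpace X]

omit [T2Space X] in
theorem NearM_int {m : Measure X} [IsFiniteMeasure m] {f : X → ℝ} (hf : Continuous f) :
    Integrable f m := by
  obtain ⟨C, hC⟩ := (isCompact_univ (X := X)).exists_bound_of_continuousOn hf.continuousOn
  exact Integrable.of_bound hf.aestronglyMeasurable C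
    (Filter.Eventually.of_forall fun x => hC x (mem_univ _))

theorem KM.near_max {μ : Measure X} [IsProbabilityMeasure μ] {Φ : X → ℝ} (hΦ : PC K Φ)
    {ψ : ℕ → X → ℝ} {δ : ℕ → ℝ} (hψ : ∀ k, Amax K μ (δ k) (ψ k)) (hδ : Tendsto δ atTop (𝓝 0))
    (h1 : Tendsto (fun k => ∫ x, |ψ k x - Φ x| ∂μ) atTop (𝓝 0))
    (h2 : Tendsto (fun k => ∫ x, |ψ k x - Φ x| ∂K.vol) atTop (𝓝 0))
    {φ : X → ℝ} (hφ : WK K φ) {ε : ℝ} (h : ∀ x, |φ x - Φ x| ≤ ε) :
    Amax K μ (2 * ε * K.vol.real univ) φ := by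
  have hfin : IsFiniteMeasure K.vol := K.vol_finite
  refine ⟨hφ, fun χ hχ => ?_⟩
  have cφ : Continuous φ := C11X.continuous K hφ.c11
  have cψ : ∀ k, Continuous (ψ k) := fun k => C11X.continuous K (hψ k).wk.c11
  have cΦ := hΦ.cont
  obtain ⟨C, hC, hCb⟩ := K.RM_bdd hφ.c11 hφ.c11
  have hRb : ∀ x, |K.RM φ x| ≤ C := by
    intro x
    have h3 := hCb 1 0 (by norm_num) (by norm_num) x
    have e : (fun y => 1 * φ y + 0 * φ y) = φ := by
      funext y
      ring
    rwa [e] at h3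
  have hRm := K.RM_meas hφ.c11
  have hRn := K.RM_nonneg hφ
  have iR : Integrable (K.RM φ) K.vol := Integrable.of_bound hRm C
    (Filter.Eventually.of_forall hRb)
  have iFR : ∀ f : X → ℝ, Continuous f → Integrable (fun x => f x * K.RM φ x) K.vol := by
    intro f hf
    exact (NearM_int (m := K.vol) hf).mul_bdd hRm (Filter.Eventually.of_forall hRb)
  set V := K.vol.real univ with hV
  have hV0 : 0 ≤ V := measureReal_nonneg
  have key : ∀ k, K.J μ χ ≤ K.J μ φ + 2 * ε * V + (C * ∫ x, |ψ k x - Φ x| ∂K.vol) +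
      (V * ∫ x, |ψ k x - Φ x| ∂μ) + δ k := by
    intro k
    have c1 : Continuous (fun x => ψ k x - Φ x) := (cψ k).sub cΦ
    have c2 : Continuous (fun x => |ψ k x - Φ x|) := c1.abs
    have c3 : Continuous (fun x => Φ x - φ x) := cΦ.sub cφ
    have c4 : Continuous (fun x => ψ k x + |ψ k x - Φ x|) := (cψ k).add c2
    have c5 : Continuous (fun x => ψ k x + |ψ k x - Φ x| + ε) := c4.add continuous_const
    have g1 := (hψ k).max χ hχ
    have g2 := K.E_concave hφ (hψ k).wk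
    have g3 : ∫ x, (ψ k x - φ x) * K.RM φ x ∂K.vol =
        (∫ x, (ψ k x - Φ x) * K.RM φ x ∂K.vol) + ∫ x, (Φ x - φ x) * K.RM φ x ∂K.vol := by
      rw [← integral_add (iFR _ c1) (iFR _ c3)]
      apply integral_congr_ae
      filter_upwards with x
      ring
    have g4 : ∫ x, (ψ k x - Φ x) * K.RM φ x ∂K.vol ≤ C * ∫ x, |ψ k x - Φ x| ∂K.vol := by
      rw [← integral_const_mul]
      apply integral_mono (iFR _ c1) ((NearM_int (m := K.vol) c2).const_mul C)
      intro x
      have g5 := hRb x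
      change (ψ k x - Φ x) * K.RM φ x ≤ C * |ψ k x - Φ x|
      calc (ψ k x - Φ x) * K.RM φ x ≤ |(ψ k x - Φ x) * K.RM φ x| := le_abs_self _
        _ = |ψ k x - Φ x| * |K.RM φ x| := abs_mul _ _
        _ ≤ |ψ k x - Φ x| * C := mul_le_mul_of_nonneg_left g5 (abs_nonneg _)
        _ = C * |ψ k x - Φ x| := mul_comm _ _
    have g5 : ∫ x, (Φ x - φ x) * K.RM φ x ∂K.vol ≤ ε * V := by
      have g6 : ∫ x, (Φ x - φ x) * K.RM φ x ∂K.vol ≤ ∫ x, ε * K.RM φ x ∂K.vol := by
        apply integral_mono_ae (iFR _ c3) (iR.const_mul ε)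
        filter_upwards [hRn] with x hx
        apply mul_le_mul_of_nonneg_right _ hx
        have := h x
        rw [abs_sub_comm] at this
        exact (le_abs_self _).trans this
      rw [integral_const_mul, K.mass hφ.c11] at g6
      exact g6
    have g6 : ∫ x, φ x ∂μ ≤ ∫ x, ψ k x ∂μ + ∫ x, |ψ k x - Φ x| ∂μ + ε := by
      have g7 : ∫ x, φ x ∂μ ≤ ∫ x, (ψ k x + |ψ k x - Φ x| + ε) ∂μ := by
        apply integral_mono (NearM_int cφ) (NearM_int c5)
        intro x
        change φ x ≤ ψ k x + |ψ k x - Φ x| + ε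
        have g8 := (le_abs_self _).trans (h x)
        have g9 := neg_abs_le (ψ k x - Φ x)
        linarith
      rw [integral_add (NearM_int c4) (integrable_const ε),
        integral_add (NearM_int (cψ k)) (NearM_int c2)] at g7
      simpa using g7
    have g7 := mul_le_mul_of_nonneg_left g6 hV0
    unfold KM.J at g1 ⊢
    rw [g3] at g2
    rw [← hV] at g1 ⊢
    have e1 : V * (∫ x, ψ k x ∂μ + ∫ x, |ψ k x - Φ x| ∂μ + ε) =
      V * ∫ x, ψ k x ∂μ + V * ∫ x, |ψ k x - Φ x| ∂μ + ε * V := by ring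
    rw [e1] at g7
    linarith
  have lim : Tendsto (fun k => K.J μ φ + 2 * ε * V + (C * ∫ x, |ψ k x - Φ x| ∂K.vol) +
      (V * ∫ x, |ψ k x - Φ x| ∂μ) + δ k) atTop (𝓝 (K.J μ φ + 2 * ε * V + C * 0 + V * 0 + 0)) :=
    ((tendsto_const_nhds.add (h2.const_mul C)).add (h1.const_mul V)).add hδ
  rw [mul_zero, mul_zero, add_zero, add_zero, add_zero] at lim
  exact ge_of_tendsto' lim key

end HMA

end S_KW_NearM

section S_KW_BTcmp

/-! # Module BTcmp: continuity of the local Monge-Ampère operator -/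

open MeasureTheory Metric Set Filter
open scoped ENNReal Topology ContDiff ComplexOrder

namespace HMA

theorem BTcmp_int {n : ℕ} {Ω : Set (Cn n)} (hΩ : IsOpen Ω) {u χ : Cn n → ℝ} (hu : C11 Ω u)
    (hχ : Continuous χ) (hc : HasCompactSupport χ) (hs : tsupport χ ⊆ Ω) :
    IntegrableOn (fun z => χ z * mad u z) Ω := by
  have h1 := Seg_mad_int hΩ hu hc hs
  have h2 : IntegrableOn (fun z => χ z * mad u z) (tsupport χ) :=
    h1.continuousOn_mul hχ.continuousOn hc
  have h3 : Function.support (fun z => χ z * mad u z) ⊆ tsupport χ := by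
    intro z hz
    by_contra hn
    exact hz (by simp [image_eq_zero_of_notMem_tsupport hn])
  exact ((integrableOn_iff_integrable_of_support_subset h3).1 h2).integrableOn

theorem bt_cmp {n : ℕ} {Ω : Set (Cn n)} (hΩ : IsOpen Ω) {M : ℝ} {χ : Cn n → ℝ}
    (hχ : ContDiff ℝ ∞ χ) (hc : HasCompactSupport χ) (hs : tsupport χ ⊆ Ω) :
    ∃ C : ℝ, 0 < C ∧ ∀ u v : Cn n → ℝ, C11 Ω u → SubOn Ω u → C11 Ω v → SubOn Ω v →
      (∀ z ∈ Ω, |u z| ≤ M) → (∀ z ∈ Ω, |v z| ≤ M) → ∀ ε : ℝ, 0 ≤ ε →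
      (∀ z ∈ Ω, |u z - v z| ≤ ε) →
        |(∫ z in Ω, χ z * mad u z) - ∫ z in Ω, χ z * mad v z| ≤ C * ε := by
  obtain ⟨χ₁, h1s, h1c, h1Ω, V, hV, hLV, hV1⟩ := IBP11_cut hΩ hc hs
  have hχ11 : C11 Ω χ := xLoc_c11 hχ _ hΩ
  have h111 : C11 Ω χ₁ := xLoc_c11 h1s _ hΩ
  obtain ⟨H, hH0, hH⟩ := C11.hes_bdd hΩ hχ11 hc hs
  obtain ⟨C₀, hC₀, hcln⟩ := cln_loc hΩ hc hs M
  have hχ0 : ∀ z, z ∉ tsupport χ → χ z = 0 := fun z hz => image_eq_zero_of_notMem_tsupport hz
  set D : ℝ := (n * H) * C₀ with hD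
  have hD0 : 0 ≤ D := by positivity
  refine ⟨D + 1, by linarith, ?_⟩
  intro u v hu hus hv hvs huM hvM ε hε huv
  set w : Cn n → ℝ := fun z => χ₁ z * (v z + (-1) * u z) with hw
  have hwC : C11 Ω w := h111.mul hΩ (hv.add hΩ (hu.const_mul hΩ (-1)))
  have h0 : ∀ z, z ∉ tsupport χ₁ → w z = 0 := by
    intro z hz
    rw [hw]
    simp only
    rw [image_eq_zero_of_notMem_tsupport hz, zero_mul]
  have hwV : ∀ z ∈ V, w z = v z - u z := by
    intro z hz
    rw [hw]
    simp only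
    rw [hV1 z hz]
    ring
  have hseg := seg_mad hΩ hu hwC hχ11 h1c h1Ω h0
  have e1 : ∫ z in Ω, χ z * (mad (fun y => u y + w y) z - mad u z) =
      (∫ z in Ω, χ z * mad v z) - ∫ z in Ω, χ z * mad u z := by
    rw [← integral_sub (BTcmp_int hΩ hv hχ.continuous hc hs)
      (BTcmp_int hΩ hu hχ.continuous hc hs)]
    refine setIntegral_congr_fun hΩ.measurableSet (fun z _ => ?_)
    by_cases hzV : z ∈ V
    · have h3 : (fun y => u y + w y) =ᶠ[𝓝 z] v := by
        filter_upwards [hV.mem_nhds hzV] with y hy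
        rw [hwV y hy]
        ring
      have h4 : mad (fun y => u y + w y) z = mad v z := by
        unfold mad
        rw [LM_congr h3]
      rw [h4, mul_sub]
    · rw [hχ0 z (fun h => hzV (hLV h))]
      ring
  rw [e1] at hseg
  rw [abs_sub_comm, hseg]
  have hkey : ∀ s ∈ Set.uIoc (0 : ℝ) 1,
      ‖∫ z in Ω, w z * mal (fun y => u y + s * w y) χ z‖ ≤ D * ε := by
    intro s hs'
    rw [Set.uIoc_of_le (by norm_num)] at hs'
    have hs0 : 0 ≤ s := hs'.1.le
    have hs1 : s ≤ 1 := hs'.2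
    have hs2 : 0 ≤ 1 - s := by linarith
    set us : Cn n → ℝ := fun y => (1 - s) * u y + s * v y with hus'
    have hc1 : C11 Ω us := (hu.const_mul hΩ (1 - s)).add hΩ (hv.const_mul hΩ s)
    have hsub : SubOn Ω us := kw_sub_add (kw_sub_mul hus hs2) (kw_sub_mul hvs hs0)
      (hu.const_mul hΩ (1 - s)).continuousOn (hv.const_mul hΩ s).continuousOn
    have husM : ∀ z ∈ Ω, |us z| ≤ M := by
      intro z hz
      have h3 := abs_add_le ((1 - s) * u z) (s * v z)
      rw [abs_mul, abs_mul, abs_of_nonneg hs2, abs_of_nonneg hs0] at h3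
      have h4 := mul_le_mul_of_nonneg_left (huM z hz) hs2
      have h5 := mul_le_mul_of_nonneg_left (hvM z hz) hs0
      change |(1 - s) * u z + s * v z| ≤ M
      linarith
    have hpsd := (c11_sub_iff hΩ hc1).1 hsub
    have hclnu := hcln us hc1 hsub husM
    have hLMs : ∀ z ∈ V, LM (fun y => u y + s * w y) z = LM us z := by
      intro z hz
      refine LM_congr ?_
      filter_upwards [hV.mem_nhds hz] with y hy
      rw [hwV y hy, hus']
      simp only
      ring
    have hpt : ∀ᵐ z : Cn n, z ∈ Ω →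
        ENNReal.ofReal ‖w z * mal (fun y => u y + s * w y) χ z‖ ≤
          (tsupport χ).indicator (fun z => ENNReal.ofReal (ε * (n * H)) *
            ENNReal.ofReal (((LM us z).adjugate.trace).re)) z := by
      filter_upwards [hpsd] with z hz hzΩ
      by_cases hz2 : z ∈ tsupport χ
      · have hzV : z ∈ V := hLV hz2
        rw [indicator_of_mem hz2, ← ENNReal.ofReal_mul (by positivity)]
        refine ENNReal.ofReal_le_ofReal ?_
        rw [norm_mul]
        have h1 : ‖w z‖ ≤ ε := by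
          rw [hwV z hzV, Real.norm_eq_abs, abs_sub_comm]
          exact huv z hzΩ
        have h5 : mal (fun y => u y + s * w y) χ z = mal us χ z := by
          unfold mal
          rw [hLMs z hzV]
        have h2 := xLoc_mal hχ (hH z hz2) (hz hzΩ)
        rw [h5]
        have h3 := mul_le_mul h1 h2 (abs_nonneg _) hε
        refine h3.trans (le_of_eq ?_)
        ring
      · rw [Seg_mal_off hc hχ0 hz2, mul_zero, norm_zero, ENNReal.ofReal_zero]
        exact zero_le
    have hlin : ∫⁻ z in Ω,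
        ENNReal.ofReal ‖w z * mal (fun y => u y + s * w y) χ z‖ ≤ ENNReal.ofReal (D * ε) := by
      calc ∫⁻ z in Ω, ENNReal.ofReal ‖w z * mal (fun y => u y + s * w y) χ z‖ ≤
          ∫⁻ z in Ω, (tsupport χ).indicator (fun z => ENNReal.ofReal (ε * (n * H)) *
            ENNReal.ofReal (((LM us z).adjugate.trace).re)) z := by
            refine lintegral_mono_ae ?_
            rw [ae_restrict_iff' hΩ.measurableSet]
            exact hpt
        _ ≤ ∫⁻ z, (tsupport χ).indicator (fun z => ENNReal.ofReal (ε * (n * H)) *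
            ENNReal.ofReal (((LM us z).adjugate.trace).re)) z :=
            setLIntegral_le_lintegral _ _
        _ = ∫⁻ z in tsupport χ, ENNReal.ofReal (ε * (n * H)) *
            ENNReal.ofReal (((LM us z).adjugate.trace).re) :=
            lintegral_indicator (isClosed_tsupport χ).measurableSet _
        _ = ENNReal.ofReal (ε * (n * H)) * ∫⁻ z in tsupport χ,
            ENNReal.ofReal (((LM us z).adjugate.trace).re) :=
            lintegral_const_mul' _ _ ENNReal.ofReal_ne_top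
        _ ≤ ENNReal.ofReal (ε * (n * H)) * ENNReal.ofReal C₀ := by
            gcongr
        _ = ENNReal.ofReal (D * ε) := by
            rw [← ENNReal.ofReal_mul (by positivity)]
            congr 1
            rw [hD]
            ring
    refine (norm_integral_le_lintegral_norm _).trans ?_
    refine (ENNReal.toReal_mono ENNReal.ofReal_ne_top hlin).trans ?_
    rw [ENNReal.toReal_ofReal (by positivity)]
  have hfin := intervalIntegral.norm_integral_le_of_norm_le_const hkey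
  rw [sub_zero, abs_one, mul_one] at hfin
  have hfin' : |∫ s in (0 : ℝ)..1, ∫ z in Ω, w z * mal (fun y => u y + s * w y) χ z| ≤ D * ε :=
    hfin
  refine hfin'.trans ?_
  nlinarith

end HMA

end S_KW_BTcmp
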