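import Mathlib
import Pool.Agent.H85.MG.G1a
import Pool.Agent.H85.MG.G5a
import Pool.Agent.H85.MG.G6a

/-! Moderate measures and Hölder continuous potentials, part G7a: this file joins several modules to save build time. -/

section S_KW_MdIneq

/-! # Module MdIneq: the functional inequality for the modulus -/

open MeasureTheory Metric Set Filter
open scoped ENNReal Topology ContDiff ComplexOrder

namespace HMA

variable {n : ℕ} {X : Type} [TopologicalSpace X] (K : KM n X)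

variable [MeasurableSpace X] [BorelSpace X] [T2Space X] [CompactSpace X]

theorem KM.md_ineq [ConnectedSpace X] (hn : 1 ≤ n) {μ : Measure X} [IsProbabilityMeasure μ]
    (hμ : KModerate K μ) {Φ : X → ℝ} (hΦ : PB K Φ) (hK : KIneq K μ 0 Φ) {M : ℝ}
    {u : Fin K.N → Cn n → ℝ} (hu : LU K Φ M u) : ∃ L β C r₀ : ℝ, 1 < L ∧ 0 < β ∧ 0 < C ∧
      0 < r₀ ∧ ∀ r : ℝ, 0 < r → r ≤ r₀ → md u r ≤ md u (L * r) / 2 + C * r ^ β := by
  obtain ⟨Λ, C₃, r₁, hΛ, hC₃, hr₁, hpr⟩ := K.pr_comp hu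
  obtain ⟨c₁, B₂, r₂, hc₁, hB₂, hr₂, hgl⟩ := K.glue_sup hu
  obtain ⟨b, C₄, hb, hC₄, hmu⟩ := K.mu_int hn hμ hΦ hu
  -- an index
  have x₀ : X := Classical.arbitrary X
  obtain ⟨i₀, -⟩ := K.cover x₀
  have hM : 0 ≤ M := (abs_nonneg _).trans (hu.bdd i₀ 0)
  have hlog : 0 < Real.log Λ := Real.log_pos hΛ
  set a : ℝ := 2 + 4 * B₂ * c₁ with ha
  have ha0 : 0 < a := by positivity
  set Q : ℝ := 2 * a + 8 * c₁ * (M + 1) + 1 with hQ
  have hQ0 : 0 < Q := by positivity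
  set T : ℝ := Real.log Λ * Q with hT
  have hT0 : 0 < T := by positivity
  set q : ℝ := Real.log Λ / T with hq
  have hqQ : q * Q = 1 := by
    rw [hq, hT]
    field_simp
  have hq0 : 0 < q := by positivity
  have hqe : 2 * (a * q) + 2 * (4 * c₁ * M * q) + 8 * (c₁ * q) + q = 1 := by
    rw [← hqQ, hQ]
    ring
  have hp1 : 0 < a * q := mul_pos ha0 hq0
  have hp2 : 0 ≤ 4 * c₁ * M * q := by positivity
  have hp3 : 0 < c₁ * q := mul_pos hc₁ hq0
  have hq1 : a * q ≤ 1 / 2 := by linarith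
  have hq2 : 4 * c₁ * M * q ≤ 1 / 2 := by linarith
  set L : ℝ := Λ * Real.exp T with hL
  have hL1 : 1 < L := by
    have : 1 < Real.exp T := by
      rw [Real.one_lt_exp_iff]
      exact hT0
    nlinarith
  have hL0 : 0 < L := by linarith
  obtain ⟨C₅, γ, hC₅, hγ, hst⟩ := K.stab hn hμ hΦ hK (B := 2 * B₂ + 2 * M * q + C₃) (by positivity)
  set r₀ : ℝ := min (min (r₁ / L) r₂) (min (1 / 4) (1 / (2 * c₁ * (2 * C₃ + 1)))) with hr₀
  have hr₀0 : 0 < r₀ := by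
    rw [hr₀]
    have h1 : 0 < r₁ / L := by positivity
    have h2 : 0 < 1 / (2 * c₁ * (2 * C₃ + 1)) := by positivity
    exact lt_min (lt_min h1 hr₂) (lt_min (by norm_num) h2)
  refine ⟨L, min 1 (b * γ), a * C₃ + 2 * B₂ * c₁ + C₅ * C₄ ^ γ, r₀, hL1, by positivity,
    by positivity, hr₀0, ?_⟩
  intro r hr hrr
  have h1 : r ≤ r₁ / L := hrr.trans ((min_le_left _ _).trans (min_le_left _ _))
  have h2 : r ≤ r₂ := hrr.trans ((min_le_left _ _).trans (min_le_right _ _))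
  have h3 : r ≤ 1 / 4 := hrr.trans ((min_le_right _ _).trans (min_le_left _ _))
  have h4 : r ≤ 1 / (2 * c₁ * (2 * C₃ + 1)) :=
    hrr.trans ((min_le_right _ _).trans (min_le_right _ _))
  have h1' : L * r ≤ r₁ := by
    rw [le_div_iff₀ hL0] at h1
    linarith
  have h4' : r * (2 * c₁ * (2 * C₃ + 1)) ≤ 1 := by
    rwa [le_div_iff₀ (by positivity)] at h4
  obtain ⟨-, hmd0, hmdM⟩ := md_bdd K hu (r := L * r) (by positivity)
  set D : ℝ := q * md u (L * r) + C₃ * r with hD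
  have hD0 : 0 ≤ D := by positivity
  have hDle : D ≤ 2 * M * q + C₃ * r := by
    have h5 : q * md u (L * r) ≤ q * (2 * M) := mul_le_mul_of_nonneg_left hmdM hq0.le
    rw [hD]
    linarith
  have hκ : c₁ * (2 * D + r) ≤ 1 := by
    have h5 : c₁ * (2 * D + r) ≤ c₁ * (2 * (2 * M * q + C₃ * r) + r) := by gcongr
    have h6 : c₁ * (2 * (2 * M * q + C₃ * r) + r) =
        4 * c₁ * M * q + (r * (2 * c₁ * (2 * C₃ + 1))) / 2 := by ring
    linarith
  obtain ⟨G, hG, hGb, hGl, hGu⟩ := hgl r D hr h2 hD0 hκ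
    (fun i j z w hz hw he => hpr r T hr hT0 h1' i j z w hz hw he)
  set κ : ℝ := c₁ * (2 * D + r) with hκd
  have hκ0 : 0 ≤ κ := by positivity
  set G' : X → ℝ := fun x => G x + -(D + B₂ * κ) with hG'
  have hG'pc : PC K G' := PC.add_const K hG _
  have hG'b : ∀ x, |G' x| ≤ 2 * B₂ + 2 * M * q + C₃ := by
    intro x
    have h5 := hGb x
    have h6 : D + B₂ * κ ≤ B₂ + 2 * M * q + C₃ := by
      have h8 : B₂ * κ ≤ B₂ * 1 := by gcongr
      have h9 : C₃ * r ≤ C₃ * 1 := by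
        refine mul_le_mul_of_nonneg_left ?_ hC₃.le
        linarith
      linarith
    have h7 : 0 ≤ D + B₂ * κ := by positivity
    rw [abs_le] at h5 ⊢
    constructor <;> simp only [hG'] <;> linarith
  have hint : ∫ x, max (G' x - Φ x) 0 ∂μ ≤ C₄ * r ^ b := by
    refine hmu r hr h3 G' hG'pc.cont fun i z hz => ?_
    have := hGu i z hz
    simp only [hG']
    linarith
  have hint0 : 0 ≤ ∫ x, max (G' x - Φ x) 0 ∂μ := integral_nonneg fun x => le_max_right _ _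
  have hsup : ∀ x, G' x - Φ x ≤ C₅ * C₄ ^ γ * r ^ (b * γ) := by
    intro x
    refine (hst G' hG'pc hG'b x).trans ?_
    rw [mul_assoc]
    refine mul_le_mul_of_nonneg_left ?_ hC₅.le
    refine (Real.rpow_le_rpow hint0 hint hγ.le).trans (le_of_eq ?_)
    rw [Real.mul_rpow hC₄.le (by positivity), ← Real.rpow_mul hr.le]
  have hr1 : r ≤ 1 := by linarith
  have hpp1 : r ≤ r ^ (min 1 (b * γ)) := by
    calc r = r ^ (1 : ℝ) := (Real.rpow_one r).symm
      _ ≤ r ^ (min 1 (b * γ)) := Real.rpow_le_rpow_of_exponent_ge hr hr1 (min_le_left _ _)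
  have hpp2 : r ^ (b * γ) ≤ r ^ (min 1 (b * γ)) :=
    Real.rpow_le_rpow_of_exponent_ge hr hr1 (min_le_right _ _)
  refine csSup_le ⟨_, i₀, 0, by rw [norm_zero]; norm_num, rfl⟩ ?_
  rintro _ ⟨i, z, hz, rfl⟩
  have h5 := hGl i z hz
  have h6 := hsup (K.κ i z)
  have h7 : u i z = K.ρ i z + Φ (K.κ i z) := hu.eq i z (by linarith)
  have h8 : supB (u i) r z - u i z ≤ 2 * (D + B₂ * κ) + C₅ * C₄ ^ γ * r ^ (b * γ) := by
    rw [h7]
    simp only [hG'] at h6
    linarith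
  have h9 : 2 * (D + B₂ * κ) = a * q * md u (L * r) + (a * C₃ + 2 * B₂ * c₁) * r := by
    rw [hκd, ha, hD]
    ring
  have h10 : a * q * md u (L * r) ≤ md u (L * r) / 2 := by
    have := mul_le_mul_of_nonneg_right hq1 hmd0
    linarith
  have h11 : (a * C₃ + 2 * B₂ * c₁) * r ≤ (a * C₃ + 2 * B₂ * c₁) * r ^ (min 1 (b * γ)) := by
    gcongr
  have h12 : C₅ * C₄ ^ γ * r ^ (b * γ) ≤ C₅ * C₄ ^ γ * r ^ (min 1 (b * γ)) := by
    gcongr
  linarith

end HMA

end S_KW_MdIneq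

section S_KW_HolF

/-! # Module HolF: existence of a Hölder continuous potential -/

open MeasureTheory Metric Set Filter
open scoped ENNReal Topology ContDiff ComplexOrder

namespace HMA

variable {n : ℕ} {X : Type} [TopologicalSpace X] (K : KM n X)

variable [MeasurableSpace X] [BorelSpace X] [T2Space X] [CompactSpace X]

omit [MeasurableSpace X] [BorelSpace X] [T2Space X] [CompactSpace X] in
theorem HolF_lip (i : Fin K.N) : ∃ Λ : ℝ, 0 ≤ Λ ∧ ∀ z ∈ ball (0 : Cn n) (3 / 2),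
    ∀ w ∈ ball (0 : Cn n) (3 / 2), |K.ρ i z - K.ρ i w| ≤ Λ * ‖z - w‖ := by
  obtain ⟨C, hC⟩ := (K.ρ_c11 i).lip (closedBall 0 (3 / 2)) (isCompact_closedBall _ _)
    (closedBall_subset_ball (by norm_num))
  -- the derivative is bounded
  have hcont : ContinuousOn (fderiv ℝ (K.ρ i)) (closedBall (0 : Cn n) (3 / 2)) := hC.continuousOn
  obtain ⟨B, hB⟩ := (isCompact_closedBall (0 : Cn n) (3 / 2)).exists_bound_of_continuousOn hcont
  have hB0 : 0 ≤ B := (norm_nonneg _).trans (hB 0 (mem_closedBall_self (by norm_num)))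
  refine ⟨B, hB0, fun z hz w hw => ?_⟩
  have := Convex.norm_image_sub_le_of_norm_fderiv_le (𝕜 := ℝ) (f := K.ρ i) (C := B)
    (s := ball (0 : Cn n) (3 / 2)) (x := w) (y := z)
    (fun y hy => (K.ρ_c11 i).diff y (ball_subset_ball (by norm_num) hy))
    (fun y hy => hB y (ball_subset_closedBall hy)) (convex_ball _ _) hw hz
  rwa [Real.norm_eq_abs] at this

/-- from the modulus to Hölder continuity -/
theorem KM.holder_of_md {Φ : X → ℝ} (hΦ : PB K Φ) {M : ℝ} {u : Fin K.N → Cn n → ℝ}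
    (hu : LU K Φ M u) {α C : ℝ} (hα : 0 < α) (hα1 : α ≤ 1)
    (h : ∀ r, 0 < r → r ≤ 1 → md u r ≤ C * r ^ α) :
    PC K Φ ∧ ∃ C' : ℝ, ∀ i, ∀ z ∈ ball (0 : Cn n) (3 / 2), ∀ w ∈ ball (0 : Cn n) (3 / 2),
      |Φ (K.κ i z) - Φ (K.κ i w)| ≤ C' * ‖z - w‖ ^ α := by
  have hex : ∃ C' : ℝ, ∀ i, ∀ z ∈ ball (0 : Cn n) (3 / 2), ∀ w ∈ ball (0 : Cn n) (3 / 2),
      |Φ (K.κ i z) - Φ (K.κ i w)| ≤ C' * ‖z - w‖ ^ α := by
    choose Λ hΛ0 hΛ using HolF_lip K
    obtain ⟨B, hB⟩ := hΦ.bdd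
    refine ⟨max (2 * B) (C + (∑ i, Λ i)), fun i z hz w hw => ?_⟩
    have : Nonempty X := ⟨K.κ i z⟩
    have hB0 : 0 ≤ B := (abs_nonneg _).trans (hB (K.κ i z))
    rcases eq_or_ne z w with rfl | hne
    · rw [sub_self, abs_zero, sub_self, norm_zero, Real.zero_rpow hα.ne', mul_zero]
    have hr : 0 < ‖z - w‖ := norm_pos_iff.2 (sub_ne_zero.2 hne)
    rcases le_total 1 ‖z - w‖ with h1 | h1
    · have h2 : 1 ≤ ‖z - w‖ ^ α := Real.one_le_rpow h1 hα.le
      have h3 : |Φ (K.κ i z) - Φ (K.κ i w)| ≤ 2 * B := by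
        have h4 := abs_sub (Φ (K.κ i z)) (Φ (K.κ i w))
        linarith [hB (K.κ i z), hB (K.κ i w)]
      calc |Φ (K.κ i z) - Φ (K.κ i w)| ≤ 2 * B := h3
        _ ≤ max (2 * B) (C + (∑ i, Λ i)) := le_max_left _ _
        _ = max (2 * B) (C + (∑ i, Λ i)) * 1 := (mul_one _).symm
        _ ≤ _ := by
          refine mul_le_mul_of_nonneg_left h2 ?_
          exact le_max_of_le_left (by linarith)
    · have hmd := (md_bdd K hu hr.le).1
      have hz' : ‖z‖ < 3 / 2 := by simpa using hz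
      have hw' : ‖w‖ < 3 / 2 := by simpa using hw
      have h2 : u i w - u i z ≤ md u ‖z - w‖ := by
        have h3 := le_supB (hu.usc i) (r := ‖z - w‖) (z := z) (z' := w) (by rw [norm_sub_rev])
        have h4 := hmd i z (by linarith)
        linarith
      have h2' : u i z - u i w ≤ md u ‖z - w‖ := by
        have h3 := le_supB (hu.usc i) (r := ‖z - w‖) (z := w) (z' := z) le_rfl
        have h4 := hmd i w (by linarith)
        linarith
      have h5 := h _ hr h1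
      have h6 := hu.eq i z (by linarith)
      have h7 := hu.eq i w (by linarith)
      have h8 := hΛ i z hz w hw
      have h9 : Λ i ≤ ∑ i, Λ i :=
        Finset.single_le_sum (f := Λ) (fun j _ => hΛ0 j) (Finset.mem_univ i)
      have h10 : ‖z - w‖ ≤ ‖z - w‖ ^ α := by
        calc ‖z - w‖ = ‖z - w‖ ^ (1 : ℝ) := (Real.rpow_one _).symm
          _ ≤ ‖z - w‖ ^ α := Real.rpow_le_rpow_of_exponent_ge hr h1 hα1
      have h11 : Λ i * ‖z - w‖ ≤ (∑ i, Λ i) * ‖z - w‖ ^ α :=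
        mul_le_mul h9 h10 hr.le (Finset.sum_nonneg fun j _ => hΛ0 j)
      have h12 : (C + ∑ i, Λ i) * ‖z - w‖ ^ α ≤
          max (2 * B) (C + (∑ i, Λ i)) * ‖z - w‖ ^ α := by
        gcongr
        exact le_max_right _ _
      rw [abs_le] at h8 ⊢
      rw [h6, h7] at h2 h2'
      constructor <;> nlinarith [h8.1, h8.2]
  refine ⟨?_, hex⟩
  obtain ⟨C', hC'⟩ := hex
  refine ⟨?_, hΦ.sub⟩
  rw [continuous_iff_continuousAt]
  intro x
  obtain ⟨i, z, hz, rfl⟩ := K.cover x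
  have hz3 : z ∈ ball (0 : Cn n) 3 := ball_subset_ball (by norm_num) hz
  have hz32 : z ∈ ball (0 : Cn n) (3 / 2) := ball_subset_ball (by norm_num) hz
  -- continuity in the chart
  have hc : ContinuousAt (fun w => Φ (K.κ i w)) z := by
    rw [Metric.continuousAt_iff]
    intro ε hε
    have h1 : Tendsto (fun w : Cn n => C' * ‖w - z‖ ^ α) (𝓝 z) (𝓝 0) := by
      have h2 : Continuous (fun w : Cn n => C' * ‖w - z‖ ^ α) := by
        refine continuous_const.mul ?_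
        exact (Real.continuous_rpow_const hα.le).comp (by fun_prop)
      have h3 := h2.tendsto z
      simpa [Real.zero_rpow hα.ne'] using h3
    have h4 : ∀ᶠ w in 𝓝 z, C' * ‖w - z‖ ^ α < ε := h1.eventually_lt_const hε
    have h5 : ∀ᶠ w in 𝓝 z, w ∈ ball (0 : Cn n) (3 / 2) := isOpen_ball.mem_nhds hz32
    obtain ⟨δ, hδ, hδ'⟩ := Metric.eventually_nhds_iff.1 (h4.and h5)
    refine ⟨δ, hδ, fun w hw => ?_⟩
    obtain ⟨h6, h7⟩ := hδ' hw
    rw [Real.dist_eq]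
    exact (hC' i w h7 z hz32).trans_lt h6
  rw [ContinuousAt, tendsto_def]
  intro S hS
  have h1 : (fun w => Φ (K.κ i w)) ⁻¹' S ∈ 𝓝 z := hc hS
  obtain ⟨U, hU, hUo, hzU⟩ := _root_.mem_nhds_iff.1 (inter_mem h1 (isOpen_ball.mem_nhds hz3))
  have h2 : IsOpen (K.κ i '' U) := K.isOpen_image i U (fun y hy => (hU hy).2) hUo
  refine mem_of_superset (h2.mem_nhds ⟨z, hzU, rfl⟩) ?_
  rintro _ ⟨y, hy, rfl⟩
  exact (hU hy).1

theorem KM.exists_potential [ConnectedSpace X] (hn : 1 ≤ n) {μ : Measure X}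
    [IsProbabilityMeasure μ] (hμ : KModerate K μ) : ∃ (Φ : X → ℝ) (ψ : ℕ → X → ℝ)
      (δ : ℕ → ℝ) (B : ℝ), PC K Φ ∧ HolPsh K Φ ∧ (∀ k, Amax K μ (δ k) (ψ k)) ∧
        Tendsto δ atTop (𝓝 0) ∧ (∀ k x, |ψ k x| ≤ B) ∧
        Tendsto (fun k => ∫ x, |ψ k x - Φ x| ∂μ) atTop (𝓝 0) ∧
        Tendsto (fun k => ∫ x, |ψ k x - Φ x| ∂K.vol) atTop (𝓝 0) := by
  obtain ⟨B, hB, hmax⟩ := K.exists_bdd_max hn hμ
  choose ψ₀ hψ₀ hψB using fun k : ℕ => hmax (1 / ((k : ℝ) + 1)) (by positivity)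
  obtain ⟨Φ, φ, hφ, hΦ, hΦB, hL⟩ := K.compact_seq ψ₀ (fun k => WK.pc K (hψ₀ k).wk) hψB
  have hPB : ∀ k, PB K (ψ₀ (φ k)) := fun k => PC.pb K (WK.pc K (hψ₀ (φ k)).wk)
  have hδ : Tendsto (fun k : ℕ => 1 / ((φ k : ℝ) + 1)) atTop (𝓝 0) := by
    have h1 : Tendsto (fun k : ℕ => 1 / ((k : ℝ) + 1)) atTop (𝓝 0) :=
      tendsto_one_div_add_atTop_nhds_zero_nat
    exact h1.comp hφ.tendsto_atTop
  have hlm := K.lim_mu hn hμ (ψ := fun k => ψ₀ (φ k)) hPB hΦ (fun k => hψB (φ k)) hL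
  have hlv := K.lim_vol (ψ := fun k => ψ₀ (φ k)) hPB hΦ (fun k => hψB (φ k)) hL
  have hKI : KIneq K μ 0 Φ := K.lim_ki hPB hΦ (fun k => hψB (φ k)) hlm hlv hδ
    (fun k => K.key_ineq (hψ₀ (φ k)))
  obtain ⟨M, u, hM, hu⟩ := K.exists_LU hΦ
  obtain ⟨L, β, C, r₀, hL1, hβ, hC, hr₀, hmd⟩ := K.md_ineq hn hμ hΦ hKI hu
  obtain ⟨α, C', hα, hα1, hC', hnum⟩ := hol_num (M := 2 * M) hL1 hβ hC hr₀
  have hmd' : ∀ r, 0 < r → r ≤ 1 → md u r ≤ C' * r ^ α :=
    hnum (md u) (fun r hr => ⟨(md_bdd K hu hr.le).2.1, (md_bdd K hu hr.le).2.2⟩) hmd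
  obtain ⟨hpc, C'', hC''⟩ := K.holder_of_md hΦ hu hα hα1 hmd'
  exact ⟨Φ, fun k => ψ₀ (φ k), fun k => 1 / ((φ k : ℝ) + 1), B, hpc,
    ⟨PB.kpsh K hΦ, α, C'', hα, hC''⟩, fun k => hψ₀ (φ k), hδ, fun k => hψB (φ k), hlm, hlv⟩

end HMA

end S_KW_HolF

section S_KW_FinX

/-! # Module FinX: the main theorem -/

open MeasureTheory Metric Set Filter
open scoped ENNReal Topology ContDiff ComplexOrder

namespace HMA

variable {n : ℕ} {X : Type} [TopologicalSpace X] (K : KM n X)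

theorem FinX_pot_cont {Φ : X → ℝ} (hΦ : Continuous Φ) (i : Fin K.N) :
    ContinuousOn (fun z => K.ρ i z + Φ (K.κ i z)) (ball 0 3) :=
  (K.ρ_c11 i).continuousOn.add (hΦ.comp_continuousOn (K.cont i))

variable [MeasurableSpace X] [BorelSpace X] [T2Space X] [CompactSpace X]

/-- the Monge-Ampère measure of the limit in the sense of Bedford and Taylor -/
theorem KM.isMA_of_lim {μ : Measure X} [IsProbabilityMeasure μ] [Nonempty X] {Φ : X → ℝ}
    (hΦ : PC K Φ) {φ : ℕ → X → ℝ} (hφ : ∀ k, WK K (φ k))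
    (hu : TendstoUniformly φ Φ atTop)
    (hw : ∀ (i : Fin K.N) (χ : Cn n → ℝ), ContDiff ℝ ∞ χ → HasCompactSupport χ →
      tsupport χ ⊆ ball 0 3 → Tendsto (fun k => ∫ x, K.ext i χ x * K.RM (φ k) x ∂K.vol) atTop
        (𝓝 (K.vol.real univ * ∫ x, K.ext i χ x ∂μ))) : IsMA K Φ μ := by
  intro i W hW hWc hWs
  have hWsub : W ⊆ ball (0 : Cn n) 3 := subset_closure.trans hWs
  have hucont : ContinuousOn (fun z => K.ρ i z + Φ (K.κ i z)) (ball 0 3) :=
    FinX_pot_cont K hΦ.cont i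
  refine ⟨?_, ?_⟩
  · have h1 : ∀ k : ℕ, ∃ U : Cn n → ℝ, ContDiffOn ℝ ∞ U W ∧ SubOn W U ∧
        ∀ z ∈ W, |U z - (K.ρ i z + Φ (K.κ i z))| ≤ 1 / ((k : ℝ) + 1) := by
      intro k
      obtain ⟨W', U, -, hLW, -, hU1, hU2, hU3⟩ := moll_cont isOpen_ball hucont (hΦ.sub i) hWc hWs
        (ε := 1 / ((k : ℝ) + 1)) (by positivity)
      have hWW' : W ⊆ W' := subset_closure.trans hLW
      exact ⟨U, hU1.contDiffOn, kw_sub_mono hU2 hWW', fun z hz => hU3 z (hWW' hz)⟩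
    choose U hU1 hU2 hU3 using h1
    refine ⟨U, fun k => ⟨hU1 k, hU2 k⟩, ?_⟩
    rw [Metric.tendstoUniformlyOn_iff]
    intro ε hε
    have h2 : ∀ᶠ k : ℕ in atTop, 1 / ((k : ℝ) + 1) < ε :=
      tendsto_one_div_add_atTop_nhds_zero_nat.eventually_lt_const hε
    filter_upwards [h2] with k hk z hz
    rw [dist_comm, Real.dist_eq]
    exact (hU3 k z hz).trans_lt hk
  · intro U hU hUu χ hχ hc hs
    have hs3 : tsupport χ ⊆ ball (0 : Cn n) 3 := hs.trans hWsub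
    obtain ⟨B, hB⟩ := hWc.exists_bound_of_continuousOn (hucont.mono hWs)
    obtain ⟨C, hC, hcmp⟩ := bt_cmp hW (M := B + 1) hχ hc hs
    have hv11 : ∀ m, C11 W (fun z => K.ρ i z + φ m (K.κ i z)) := fun m =>
      ((K.ρ_c11 i).add isOpen_ball ((hφ m).c11 i)).mono hWsub
    have hvs : ∀ m, SubOn W (fun z => K.ρ i z + φ m (K.κ i z)) := fun m =>
      kw_sub_mono ((hφ m).sub i) hWsub
    have h2inf : (2 : WithTop ℕ∞) ≤ ((⊤ : ℕ∞) : WithTop ℕ∞) :=
      WithTop.coe_le_coe.2 (le_top : (2 : ℕ∞) ≤ ⊤)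
    have hU11 : ∀ k, C11 W (U k) := fun k =>
      c11_of_contDiffOn hW ((hU k).1.of_le h2inf)
    -- the integrals of the approximations
    have hχ11 : C11X K (K.ext i χ) :=
      c11X_ext K i (c11_of_contDiffOn isOpen_ball (hχ.contDiffOn.of_le h2inf))
        (L := tsupport χ) hc hs3 (fun z hz => image_eq_zero_of_notMem_tsupport hz)
    have hint : ∀ m, ∫ z in W, χ z * mad (fun z => K.ρ i z + φ m (K.κ i z)) z =
        ∫ x, K.ext i χ x * K.RM (φ m) x ∂K.vol := by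
      intro m
      rw [(K.xLoc_chart (hφ m).c11 i hχ11).2]
      symm
      refine setIntegral_eq_of_subset_of_forall_sdiff_eq_zero measurableSet_ball hWsub ?_
      intro z hz
      rw [image_eq_zero_of_notMem_tsupport (fun h => hz.2 (hs h)), zero_mul]
    rw [Metric.tendsto_atTop]
    intro ε hε
    set η : ℝ := min 1 (ε / (4 * C)) with hη
    have hη0 : 0 < η := by positivity
    have hηC : C * η ≤ ε / 4 := by
      have h1 : η ≤ ε / (4 * C) := min_le_right _ _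
      have h2 : C * (ε / (4 * C)) = ε / 4 := by field_simp
      calc C * η ≤ C * (ε / (4 * C)) := by gcongr
        _ = ε / 4 := h2
    have h1 : ∀ᶠ m in atTop, ∀ x, |φ m x - Φ x| < η := by
      have := Metric.tendstoUniformly_iff.1 hu η hη0
      filter_upwards [this] with m hm x
      have h3 := hm x
      rwa [dist_comm, Real.dist_eq] at h3
    have h2 : ∀ᶠ m in atTop, |(∫ x, K.ext i χ x * K.RM (φ m) x ∂K.vol) -
        K.vol.real univ * ∫ x, K.ext i χ x ∂μ| < ε / 4 := by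
      have := Metric.tendsto_nhds.1 (hw i χ hχ hc hs3) (ε / 4) (by positivity)
      filter_upwards [this] with m hm
      rwa [Real.dist_eq] at hm
    obtain ⟨m, hm1, hm2⟩ := (h1.and h2).exists
    have h3 : ∀ᶠ k in atTop, ∀ z ∈ W, |U k z - (K.ρ i z + Φ (K.κ i z))| < η := by
      have := Metric.tendstoUniformlyOn_iff.1 hUu η hη0
      filter_upwards [this] with k hk z hz
      have h4 := hk z hz
      rwa [dist_comm, Real.dist_eq] at h4
    obtain ⟨k₀, hk₀⟩ := eventually_atTop.1 h3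
    refine ⟨k₀, fun k hk => ?_⟩
    have h4 := hk₀ k hk
    have hη1 : η ≤ 1 := min_le_left _ _
    have hBz : ∀ z ∈ W, |K.ρ i z + Φ (K.κ i z)| ≤ B := fun z hz => hB z (subset_closure hz)
    have h5 : ∀ z ∈ W, |U k z| ≤ B + 1 := by
      intro z hz
      have h6 := h4 z hz
      have h7 := hBz z hz
      have h8 := abs_sub_abs_le_abs_sub (U k z) (K.ρ i z + Φ (K.κ i z))
      linarith
    have h6 : ∀ z ∈ W, |K.ρ i z + φ m (K.κ i z)| ≤ B + 1 := by
      intro z hz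
      have h7 := hBz z hz
      have h8 := abs_sub_abs_le_abs_sub (K.ρ i z + φ m (K.κ i z)) (K.ρ i z + Φ (K.κ i z))
      have h9 := hm1 (K.κ i z)
      rw [add_sub_add_left_eq_sub] at h8
      linarith
    have h7 : ∀ z ∈ W, |U k z - (K.ρ i z + φ m (K.κ i z))| ≤ 2 * η := by
      intro z hz
      have h8 := h4 z hz
      have h9 := hm1 (K.κ i z)
      rw [abs_lt] at h8 h9
      rw [abs_le]
      constructor <;> linarith [h8.1, h8.2, h9.1, h9.2]
    have h8 := hcmp (U k) (fun z => K.ρ i z + φ m (K.κ i z)) (hU11 k) (hU k).2 (hv11 m) (hvs m)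
      h5 h6 (2 * η) (by positivity) h7
    rw [hint m] at h8
    rw [Real.dist_eq]
    have h9 := abs_add_le ((∫ z in W, χ z * mad (U k) z) -
      ∫ x, K.ext i χ x * K.RM (φ m) x ∂K.vol)
      ((∫ x, K.ext i χ x * K.RM (φ m) x ∂K.vol) - K.vol.real univ * ∫ x, K.ext i χ x ∂μ)
    rw [sub_add_sub_cancel] at h9
    linarith

theorem KM.main [ConnectedSpace X] (hn : 1 ≤ n) {μ : Measure X} [IsProbabilityMeasure μ]
    (hμ : KModerate K μ) : ∃ φ : X → ℝ, HolPsh K φ ∧ IsMA K φ μ := by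
  obtain ⟨Φ, ψ, δ, B, hΦ, hHol, hψ, hδ, hB, hlm, hlv⟩ := K.exists_potential hn hμ
  refine ⟨Φ, hHol, ?_⟩
  choose φ hφ hφΦ using fun k : ℕ => K.rich hΦ (ε := 1 / ((k : ℝ) + 1)) (by positivity)
  have hamax : ∀ k : ℕ, Amax K μ (2 * (1 / ((k : ℝ) + 1)) * K.vol.real univ) (φ k) := fun k : ℕ =>
    K.near_max hΦ hψ hδ hlm hlv (hφ k) (hφΦ k)
  have h0 : Tendsto (fun k : ℕ => 1 / ((k : ℝ) + 1)) atTop (𝓝 0) :=
    tendsto_one_div_add_atTop_nhds_zero_nat
  have hδ' : Tendsto (fun k : ℕ => 2 * (1 / ((k : ℝ) + 1)) * K.vol.real univ) atTop (𝓝 0) := by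
    have := (h0.const_mul 2).mul_const (K.vol.real univ)
    simpa using this
  obtain ⟨B', hB'⟩ := (PC.pb K hΦ).bdd
  have hφB : ∀ k x, |φ k x| ≤ B' + 1 := by
    intro k x
    have h1 := hφΦ k x
    have h2 : 1 / ((k : ℝ) + 1) ≤ 1 := by
      rw [div_le_one (by positivity)]
      linarith [Nat.cast_nonneg (α := ℝ) k]
    have h3 := abs_sub_abs_le_abs_sub (φ k x) (Φ x)
    linarith [hB' x]
  refine K.isMA_of_lim hΦ hφ ?_ fun i χ hχ hc hs =>
    K.weak_lim hδ' hamax hφB i hχ hc hs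
  rw [Metric.tendstoUniformly_iff]
  intro ε hε
  filter_upwards [h0.eventually_lt_const hε] with k hk x
  rw [dist_comm, Real.dist_eq]
  exact (hφΦ k x).trans_lt hk

end HMA

end S_KW_FinX
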