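import Mathlib

/-!
# Compact Kähler manifolds, `ω`-plurisubharmonic functions, Monge-Ampère measures

All definitions used in the statement of the theorem on moderate measures.
-/

set_option autoImplicit false

open MeasureTheory Metric Set Filter
open scoped Topology ContDiff

namespace KMA

/-! ### Plurisubharmonic functions on open subsets of `ℂ^n` -/

/-- the complex Euclidean space of dimension `n` -/
abbrev Cn (n : ℕ) : Type := EuclideanSpace ℂ (Fin n)

/-- the open ball of radius `r` around the origin -/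
def B (n : ℕ) (r : ℝ) : Set (Cn n) := ball 0 r

/-- the mean value of `u` over the circle `{a + e^{iθ} b}` -/
noncomputable def mean {n : ℕ} (u : Cn n → ℝ) (a b : Cn n) : ℝ :=
  (2 * Real.pi)⁻¹ * ∫ θ in (0 : ℝ)..(2 * Real.pi), u (a + Complex.exp (θ * Complex.I) • b)

/-- the sub-mean value inequality on all closed complex discs contained in `Ω`; for continuous
functions on open sets this is plurisubharmonicity -/
def SubOn {n : ℕ} (Ω : Set (Cn n)) (u : Cn n → ℝ) : Prop :=
  ∀ a b : Cn n, (∀ ζ : ℂ, ‖ζ‖ ≤ 1 → a + ζ • b ∈ Ω) → u a ≤ mean u a b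

/-- `F = exp u` with `u : Ω → [-∞, ∞)` plurisubharmonic (or `-∞`): `F ≥ 0` is upper semicontinuous
and the truncations `max u (log δ)` of `u` satisfy the sub-mean value inequality -/
structure PshOn {n : ℕ} (Ω : Set (Cn n)) (F : Cn n → ℝ) : Prop where
  nonneg : ∀ x ∈ Ω, 0 ≤ F x
  usc : UpperSemicontinuousOn F Ω
  sub : ∀ δ : ℝ, 0 < δ → SubOn Ω (fun z => Real.log (max (F z) δ))

/-! ### The Levi form -/

/-- multiplication by `i` -/
noncomputable def mulI {n : ℕ} (v : Cn n) : Cn n := Complex.I • v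

/-- the derivative of `u` in the real direction `v` -/
noncomputable def dir {n : ℕ} (v : Cn n) (u : Cn n → ℝ) (z : Cn n) : ℝ := fderiv ℝ u z v

/-- the second derivative of `u` at `z` in the real directions `a`, `b` -/
noncomputable def hess {n : ℕ} (u : Cn n → ℝ) (z a b : Cn n) : ℝ := dir a (dir b u) z

/-- the Levi form `∑ (∂²u/∂z_j∂\bar z_k)(z) ξ_j \bar ξ_k` -/
noncomputable def lev {n : ℕ} (u : Cn n → ℝ) (z ξ : Cn n) : ℝ :=
  (hess u z ξ ξ + hess u z (mulI ξ) (mulI ξ)) / 4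

/-- the coordinate vectors -/
noncomputable def bas (n : ℕ) (j : Fin n) : Cn n := EuclideanSpace.single j 1

/-- the Levi matrix `∂²u/∂z_j∂\bar z_k` -/
noncomputable def LM {n : ℕ} (u : Cn n → ℝ) (z : Cn n) : Matrix (Fin n) (Fin n) ℂ :=
  fun j k =>
    (((hess u z (bas n j) (bas n k) + hess u z (mulI (bas n j)) (mulI (bas n k)) : ℝ) : ℂ) +
      Complex.I * ((hess u z (bas n j) (mulI (bas n k)) -
        hess u z (mulI (bas n j)) (bas n k) : ℝ) : ℂ)) / 4

/-- the determinant of the Levi matrix: `(dd^c u)^n = c_n (mad u) dλ` for smooth `u` -/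
noncomputable def mad {n : ℕ} (u : Cn n → ℝ) (z : Cn n) : ℝ := ((LM u z).det).re

/-! ### Kähler manifolds -/

/-- A Kähler manifold `(X, ω)` of dimension `n` with a finite holomorphic atlas: charts
`κ i : ball 0 3 → X` (homeomorphisms onto open subsets such that the images of the unit ball
cover `X`), holomorphic transition maps `τ`, and smooth strictly plurisubharmonic local potentials
`ρ i` of `ω` (`ω = dd^c ρ i` in the chart `i`; the Levi forms agree on the overlaps). -/
structure KM (n : ℕ) (X : Type) [TopologicalSpace X] where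
  N : ℕ
  κ : Fin N → Cn n → X
  injOn : ∀ i, InjOn (κ i) (B n 3)
  cont : ∀ i, ContinuousOn (κ i) (B n 3)
  isOpen_image : ∀ i, ∀ U ⊆ B n 3, IsOpen U → IsOpen (κ i '' U)
  cover : ∀ x : X, ∃ i, x ∈ κ i '' B n 1
  τ : Fin N → Fin N → Cn n → Cn n
  τ_spec : ∀ i j, ∀ z ∈ B n 3, κ i z ∈ κ j '' B n 3 → τ i j z ∈ B n 3 ∧ κ j (τ i j z) = κ i z
  τ_hol : ∀ i j, DifferentiableOn ℂ (τ i j) (B n 3 ∩ κ i ⁻¹' (κ j '' B n 3))
  ρ : Fin N → Cn n → ℝ
  ρ_smooth : ∀ i, ContDiffOn ℝ ∞ (ρ i) (B n 3)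
  ρ_pos : ∀ i, ∀ z ∈ B n 3, ∀ ξ : Cn n, ξ ≠ 0 → 0 < lev (ρ i) z ξ
  ρ_compat : ∀ i j, ∀ z ∈ B n 3 ∩ κ i ⁻¹' (κ j '' B n 3), ∀ ξ : Cn n,
    lev (fun w => ρ j (τ i j w)) z ξ = lev (ρ i) z ξ

variable {n : ℕ} {X : Type} [TopologicalSpace X] (K : KM n X)

/-- `F = exp ψ` for an `ω`-plurisubharmonic function `ψ : X → [-∞, ∞)`, `ψ ≢ -∞` -/
structure KPsh (F : X → ℝ) : Prop where
  loc : ∀ i, PshOn (B n 3) (fun z => F (K.κ i z) * Real.exp (K.ρ i z))
  nontrivial : ∃ x, F x ≠ 0

/-- hypothesis (i): `exp (- ε PSH (X, ω)) ⊂ L^1 (μ)` for some `ε > 0` -/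
def KModerate [MeasurableSpace X] (μ : Measure X) : Prop :=
  ∃ ε : ℝ, 0 < ε ∧ ∀ F : X → ℝ, KPsh K F → ∫⁻ x, (ENNReal.ofReal (F x)) ^ (-ε) ∂μ < ⊤

/-- Hölder continuous `ω`-plurisubharmonic functions -/
structure HolPsh (φ : X → ℝ) : Prop where
  psh : KPsh K (fun x => Real.exp (φ x))
  holder : ∃ α C : ℝ, 0 < α ∧ ∀ i, ∀ z ∈ B n (3 / 2), ∀ w ∈ B n (3 / 2),
    |φ (K.κ i z) - φ (K.κ i w)| ≤ C * ‖z - w‖ ^ α

/-! ### Monge-Ampère measures -/

/-- the part of the unit ball of the chart `i` not covered by the previous unit balls -/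
def KM.piece (i : Fin K.N) : Set (Cn n) :=
  {z | z ∈ B n 1 ∧ ∀ j < i, K.κ i z ∉ K.κ j '' B n 1}

/-- the volume measure `ω^n` (up to the factor `c_n`): its density in the chart `i` is the
determinant of the Levi matrix of `ρ i` -/
noncomputable def KM.vol [MeasurableSpace X] : Measure X :=
  ∑ i, Measure.map (K.κ i)
    ((volume.withDensity fun z => ENNReal.ofReal (mad (K.ρ i) z)).restrict (K.piece i))

/-- extension by zero of a function in the chart `i` -/
noncomputable def KM.ext (i : Fin K.N) (w : Cn n → ℝ) (x : X) : ℝ :=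
  open Classical in
  if x ∈ K.κ i '' B n 3 then w (Function.invFunOn (K.κ i) (B n 3) x) else 0

/-- `U` is a sequence of smooth plurisubharmonic functions on `W` with uniform limit `u` -/
structure Approx (W : Set (Cn n)) (u : Cn n → ℝ) (U : ℕ → Cn n → ℝ) : Prop where
  smooth : ∀ k, ContDiffOn ℝ ∞ (U k) W
  sub : ∀ k, SubOn W (U k)
  lim : TendstoUniformlyOn U u atTop W

/-- test functions on `W` -/
structure Test (W : Set (Cn n)) (χ : Cn n → ℝ) : Prop where
  smooth : ContDiff ℝ ∞ χ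
  compact : HasCompactSupport χ
  supp : tsupport χ ⊆ W

/-- `μ = MA (φ) = V⁻¹ (ω + dd^c φ)^n`, `V = ∫ ω^n`, for a continuous `ω`-psh function `φ`, in the
sense of Bedford and Taylor: on every relatively compact open subset `W` of a chart, `V μ` is the
weak limit of the measures `(dd^c U_k)^n` for every sequence of smooth plurisubharmonic functions
`U_k` which converges uniformly on `W` to the local potential `ρ + φ` of `ω + dd^c φ`, and such
sequences exist -/
def IsMA [MeasurableSpace X] (φ : X → ℝ) (μ : Measure X) : Prop :=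
  ∀ (i : Fin K.N) (W : Set (Cn n)), IsOpen W → IsCompact (closure W) → closure W ⊆ B n 3 →
    (∃ U, Approx W (fun z => K.ρ i z + φ (K.κ i z)) U) ∧
    ∀ U, Approx W (fun z => K.ρ i z + φ (K.κ i z)) U → ∀ χ, Test W χ →
      Tendsto (fun k => ∫ z in W, χ z * mad (U k) z) atTop
        (𝓝 (K.vol.real univ * ∫ x, K.ext i χ x ∂μ))

end KMA
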