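import Pool.Agent.H85.MG.G7a
import Pool.Agent.H85.MG.Stmt

/-! Transfer of the main theorem to the definitions of the file `Stmt`. -/

set_option autoImplicit false

open MeasureTheory Metric Set Filter
open scoped Topology ContDiff

namespace KMA

theorem tr_hess {n : ℕ} {u : Cn n → ℝ} {z : Cn n} (h : HMA.TwD u z) (a b : Cn n) :
    hess u z a b = HMA.hes u z a b := by
  have h1 : HasFDerivAt (fun w : Cn n => fderiv ℝ u w b)
      ((ContinuousLinearMap.apply ℝ ℝ b).comp (fderiv ℝ (fderiv ℝ u) z)) z :=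
    (ContinuousLinearMap.apply ℝ ℝ b).hasFDerivAt.comp z h.2.hasFDerivAt
  show fderiv ℝ (fun w : Cn n => fderiv ℝ u w b) z a = _
  rw [h1.fderiv]
  rfl

theorem tr_LM {n : ℕ} {u : Cn n → ℝ} {z : Cn n} (h : HMA.TwD u z) : LM u z = HMA.LM u z := by
  funext j k
  show (((hess u z (bas n j) (bas n k) + hess u z (mulI (bas n j)) (mulI (bas n k)) : ℝ) : ℂ) +
      Complex.I * ((hess u z (bas n j) (mulI (bas n k)) -
        hess u z (mulI (bas n j)) (bas n k) : ℝ) : ℂ)) / 4 = _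
  rw [tr_hess h, tr_hess h, tr_hess h, tr_hess h]
  rfl

theorem tr_mad {n : ℕ} {u : Cn n → ℝ} {z : Cn n} (h : HMA.TwD u z) : mad u z = HMA.mad u z := by
  show ((LM u z).det).re = ((HMA.LM u z).det).re
  rw [tr_LM h]

theorem tr_sub {n : ℕ} {Ω : Set (Cn n)} {u : Cn n → ℝ} : SubOn Ω u ↔ HMA.SubOn Ω u := Iff.rfl

theorem tr_pshOn {n : ℕ} {Ω : Set (Cn n)} {F : Cn n → ℝ} : PshOn Ω F ↔ HMA.PshOn Ω F :=
  ⟨fun h => ⟨h.nonneg, h.usc, fun δ hδ => h.sub δ hδ⟩,
    fun h => ⟨h.nonneg, h.usc, fun δ hδ => h.submean δ hδ⟩⟩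

variable {n : ℕ} {X : Type} [TopologicalSpace X] (K : KM n X)

/-- the same manifold with the definitions of the library -/
def KM.lib : HMA.KM n X where
  N := K.N
  κ := K.κ
  injOn := K.injOn
  cont := K.cont
  isOpen_image := K.isOpen_image
  cover := K.cover
  τ := K.τ
  τ_spec := K.τ_spec
  τ_hol := K.τ_hol
  ρ := K.ρ
  ρ_smooth := K.ρ_smooth
  ρ_pos := K.ρ_pos
  ρ_compat := K.ρ_compat

theorem tr_kpsh {F : X → ℝ} : KPsh K F ↔ HMA.KPsh K.lib F :=
  ⟨fun h => ⟨fun i => tr_pshOn.1 (h.loc i), h.nontrivial⟩,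
    fun h => ⟨fun i => tr_pshOn.2 (h.loc i), h.nontrivial⟩⟩

theorem tr_moderate [MeasurableSpace X] {μ : Measure X} (h : KModerate K μ) :
    HMA.KModerate K.lib μ := by
  obtain ⟨ε, hε, h⟩ := h
  exact ⟨ε, hε, fun F hF => h F ((tr_kpsh K).2 hF)⟩

theorem tr_piece (i : Fin K.N) :
    K.piece i = ball (0 : Cn n) 1 ∩ K.κ i ⁻¹' {x | K.lib.ix x = i} := by
  ext z
  constructor
  · rintro ⟨h1, h2⟩
    exact ⟨h1, K.lib.ix_eq (K.κ i z) i ⟨z, h1, rfl⟩ h2⟩
  · rintro ⟨h1, h2⟩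
    refine ⟨h1, fun j hj => ?_⟩
    have h3 := (K.lib.ix_spec (K.κ i z)).2
    have h4 : K.lib.ix (K.κ i z) = i := h2
    exact h3 j (by rw [h4]; exact hj)

theorem tr_vol [MeasurableSpace X] : K.vol = K.lib.vol := by
  refine Finset.sum_congr rfl fun i _ => ?_
  have h1 : ((volume : Measure (Cn n)).withDensity
      fun z => ENNReal.ofReal (mad (K.ρ i) z)).restrict (ball 0 1) =
      ((volume : Measure (Cn n)).withDensity
        fun z => ENNReal.ofReal (HMA.mad (K.ρ i) z)).restrict (ball 0 1) := by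
    rw [restrict_withDensity measurableSet_ball, restrict_withDensity measurableSet_ball]
    refine withDensity_congr_ae ?_
    rw [EventuallyEq, ae_restrict_iff' measurableSet_ball]
    refine Eventually.of_forall fun z hz => ?_
    have h2 : HMA.TwD (K.ρ i) z :=
      HMA.sub11_twD_smooth isOpen_ball (K.ρ_smooth i) (ball_subset_ball (by norm_num) hz)
    rw [tr_mad h2]
  have h3 : ball (0 : Cn n) 1 ∩ K.κ i ⁻¹' {x | K.lib.ix x = i} ⊆ ball 0 1 := inter_subset_left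
  show Measure.map (K.κ i) _ = Measure.map (K.κ i) _
  rw [tr_piece K i, ← Measure.restrict_restrict_of_subset h3, h1,
    Measure.restrict_restrict_of_subset h3]
  rfl

theorem tr_holPsh {φ : X → ℝ} (h : HMA.HolPsh K.lib φ) : HolPsh K φ :=
  ⟨(tr_kpsh K).2 h.psh, h.holder⟩

theorem tr_isMA [MeasurableSpace X] {φ : X → ℝ} {μ : Measure X} (h : HMA.IsMA K.lib φ μ) :
    IsMA K φ μ := by
  intro i W hW hWc hWs
  obtain ⟨⟨U, hU, hUu⟩, h2⟩ := h i W hW hWc hWs
  refine ⟨⟨U, fun k => (hU k).1, fun k => (hU k).2, hUu⟩, fun U hU χ hχ => ?_⟩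
  have h3 := h2 U (fun k => ⟨hU.smooth k, hU.sub k⟩) hU.lim χ hχ.smooth hχ.compact hχ.supp
  rw [tr_vol K]
  refine h3.congr fun k => ?_
  refine setIntegral_congr_fun hW.measurableSet fun z hz => ?_
  rw [tr_mad (HMA.sub11_twD_smooth hW (hU.smooth k) hz)]

theorem main [T2Space X] [CompactSpace X] [ConnectedSpace X] [MeasurableSpace X] [BorelSpace X]
    (hn : 1 ≤ n) (μ : Measure X) [IsProbabilityMeasure μ] (h : KModerate K μ) :
    ∃ φ : X → ℝ, HolPsh K φ ∧ IsMA K φ μ := by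
  obtain ⟨φ, h1, h2⟩ := K.lib.main hn (tr_moderate K h)
  exact ⟨φ, tr_holPsh K h1, tr_isMA K h2⟩

end KMA
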